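import Pool.Agent.Lib.MP_88d29b_nt.GES

/-!
Behaviour of Eichler integrals at the cusp at infinity; global maxima.
-/

set_option autoImplicit false

noncomputable section

namespace Pool.Agent.Lib.MP_88d29b_nt.G

open Finset CongruenceSubgroup UpperHalfPlane Filter Asymptotics
open scoped MatrixGroups ModularForm Manifold Topology ComplexConjugate

variable {κ : ℕ} {f g : ℍ → ℂ} {P F : ℍ → Vk ℂ κ}

lemma gcusp_poly_exp (κ : ℕ) (a : ℝ) {δ : ℝ} (hδ : 0 < δ) :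
    ∃ K : ℝ, 0 ≤ K ∧ ∀ y : ℝ, 0 ≤ a + y → (a + y) ^ κ * Real.exp (-δ * y) ≤ K := by
  refine ⟨(κ.factorial : ℝ) * Real.exp (δ * a) / δ ^ κ, by positivity, fun y hy => ?_⟩
  have h1 := Real.pow_div_factorial_le_exp (δ * (a + y)) (mul_nonneg hδ.le hy) κ
  have hf : (0 : ℝ) < κ.factorial := by exact_mod_cast κ.factorial_pos
  rw [div_le_iff₀ hf, mul_pow] at h1
  rw [le_div_iff₀ (pow_pos hδ κ)]
  have h2 : Real.exp (δ * (a + y)) * Real.exp (-δ * y) = Real.exp (δ * a) := by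
    rw [← Real.exp_add]
    congr 1
    ring
  calc (a + y) ^ κ * Real.exp (-δ * y) * δ ^ κ = δ ^ κ * (a + y) ^ κ * Real.exp (-δ * y) := by ring
    _ ≤ Real.exp (δ * (a + y)) * κ.factorial * Real.exp (-δ * y) :=
        mul_le_mul_of_nonneg_right h1 (Real.exp_pos _).le
    _ = κ.factorial * Real.exp (δ * a) := by rw [← h2]; ring

lemma gcusp_pow_le (s : ℂ) {j κ : ℕ} (hj : j ≤ κ) : ‖s‖ ^ j ≤ (1 + ‖s‖) ^ κ :=
  (pow_le_pow_left₀ (norm_nonneg s) (by linarith) j).trans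
    (pow_le_pow_right₀ (by linarith [norm_nonneg s]) hj)

lemma gcusp_norm_wv (κ : ℕ) (s : ℂ) : ‖wv κ s‖ ≤ 2 ^ κ * (1 + ‖s‖) ^ κ := by
  refine (pi_norm_le_iff_of_nonneg (by positivity)).2 fun j => ?_
  have h1 : (κ.choose j : ℝ) ≤ 2 ^ κ := by exact_mod_cast Nat.choose_le_two_pow κ j
  simp only [wv, norm_mul, norm_pow, norm_neg, norm_one, one_pow, mul_one, Complex.norm_natCast]
  exact mul_le_mul h1 (gcusp_pow_le s (Nat.sub_le _ _)) (by positivity) (by positivity)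

lemma gcusp_norm_ev2 (v : Vk ℂ κ) (s : ℂ) : ‖ev2 v s 1‖ ≤ (κ + 1) * (‖v‖ * (1 + ‖s‖) ^ κ) := by
  have h : ∀ j : Fin (κ + 1), ‖v j * s ^ (j : ℕ) * 1 ^ (κ - j)‖ ≤ ‖v‖ * (1 + ‖s‖) ^ κ := by
    intro j
    rw [one_pow, mul_one, norm_mul, norm_pow]
    exact mul_le_mul (norm_le_pi_norm v j) (gcusp_pow_le s (Nat.le_of_lt_succ j.2))
      (by positivity) (norm_nonneg _)
  refine (norm_sum_le _ _).trans ((Finset.sum_le_sum fun j _ => h j).trans ?_)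
  simp

lemma gcusp_norm_le (s : ℂ) {R : ℝ} (hR : |s.re| ≤ R) (hs : 0 ≤ s.im) : ‖s‖ ≤ R + s.im := by
  have := Complex.norm_le_abs_re_add_abs_im s
  rw [abs_of_nonneg hs] at this
  linarith

lemma gcusp_convex (R y : ℝ) : Convex ℝ {s : ℂ | |s.re| ≤ R ∧ y ≤ s.im} := by
  have e : {s : ℂ | |s.re| ≤ R ∧ y ≤ s.im}
      = ({s : ℂ | -R ≤ s.re} ∩ {s : ℂ | s.re ≤ R}) ∩ {s : ℂ | y ≤ s.im} := by
    ext s
    simp [abs_le]
  rw [e]
  exact ((convex_halfSpace_re_ge _).inter (convex_halfSpace_re_le _)).inter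
    (convex_halfSpace_im_ge _)

lemma gcusp_lip (h : IsPrim κ f P) {c : ℝ} (hc : 0 < c)
    (hd : f =O[atImInfty] fun z => Real.exp (-c * z.im)) :
    ∃ A : ℝ, 0 < A ∧ ∀ R : ℝ, ∃ K : ℝ, 0 ≤ K ∧ ∀ y : ℝ, A ≤ y → ∀ s s' : ℂ, |s.re| ≤ R → y ≤ s.im →
      |s'.re| ≤ R → y ≤ s'.im →
      ‖P (ofComplex s') - P (ofComplex s)‖ ≤ K * Real.exp (-(c / 2) * y) * ‖s' - s‖ := by
  obtain ⟨C, hC0, hC⟩ := hd.exists_nonneg
  obtain ⟨A, hA⟩ := (atImInfty_mem _).1 hC.bound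
  refine ⟨max A 1, lt_max_of_lt_right one_pos, fun R => ?_⟩
  obtain ⟨K, hK0, hK⟩ := gcusp_poly_exp κ (1 + R) (half_pos hc)
  refine ⟨C * 2 ^ κ * K, by positivity, fun y hy s s' h1 h2 h1' h2' => ?_⟩
  have hy0 : 0 < y := lt_of_lt_of_le (lt_max_of_lt_right one_pos) hy
  refine Convex.norm_image_sub_le_of_norm_hasDerivWithin_le (𝕜 := ℂ)
    (f := fun s => P (ofComplex s)) (f' := fun s => f (ofComplex s) • wv κ s)
    (s := {s : ℂ | |s.re| ≤ R ∧ y ≤ s.im}) (fun x hx => ?_) (fun x hx => ?_)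
    (gcusp_convex R y) ⟨h1, h2⟩ ⟨h1', h2'⟩
  · have hx0 : 0 < x.im := hy0.trans_le hx.2
    have := h ⟨x, hx0⟩
    rw [ofComplex_apply_of_im_pos hx0]
    exact this.hasDerivWithinAt
  · have hx0 : 0 < x.im := hy0.trans_le hx.2
    have hR : 0 ≤ R := (abs_nonneg _).trans hx.1
    have h3 := hA ⟨x, hx0⟩ ((le_max_left A 1).trans (hy.trans hx.2))
    simp only [Set.mem_ofPred_eq, Real.norm_eq_abs, Real.abs_exp] at h3
    change ‖f ⟨x, hx0⟩‖ ≤ C * Real.exp (-c * x.im) at h3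
    have h4 : (1 + ‖x‖) ^ κ ≤ (1 + R + x.im) ^ κ :=
      pow_le_pow_left₀ (by positivity) (by linarith [gcusp_norm_le x hx.1 hx0.le]) κ
    have h5 := hK x.im (by linarith)
    have h6 : Real.exp (-c * x.im) = Real.exp (-(c / 2) * x.im) * Real.exp (-(c / 2) * x.im) := by
      rw [← Real.exp_add]
      congr 1
      ring
    have h7 : Real.exp (-(c / 2) * x.im) ≤ Real.exp (-(c / 2) * y) :=
      Real.exp_le_exp.2 (by nlinarith [hx.2])
    rw [ofComplex_apply_of_im_pos hx0, norm_smul]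
    calc ‖f ⟨x, hx0⟩‖ * ‖wv κ x‖
        ≤ C * Real.exp (-c * x.im) * (2 ^ κ * (1 + R + x.im) ^ κ) :=
          mul_le_mul h3 ((gcusp_norm_wv κ x).trans
            (mul_le_mul_of_nonneg_left h4 (by positivity))) (norm_nonneg _) (by positivity)
      _ = C * 2 ^ κ * ((1 + R + x.im) ^ κ * Real.exp (-(c / 2) * x.im))
            * Real.exp (-(c / 2) * x.im) := by rw [h6]; ring
      _ ≤ C * 2 ^ κ * K * Real.exp (-(c / 2) * y) := by gcongr

lemma gcusp_eq_zero {D K δ A : ℝ} (hδ : 0 < δ)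
    (h : ∀ y : ℝ, A ≤ y → D ≤ K * Real.exp (-δ * y)) : D ≤ 0 := by
  have h1 : Tendsto (fun y : ℝ => K * Real.exp (-δ * y)) atTop (𝓝 (K * 0)) :=
    (Real.tendsto_exp_atBot.comp (tendsto_id.const_mul_atTop_of_neg (by linarith))).const_mul K
  rw [mul_zero] at h1
  exact ge_of_tendsto h1 (eventually_atTop.2 ⟨A, h⟩)

/-- Sketch: on `|re| ≤ R`, `im ≥ A` the derivative has norm at most `C e^(-c y / 2)` (the vector
`wv κ z` grows polynomially). The mean value inequality on the convex set `|re| ≤ R`, `y ≤ im`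
(`Convex.norm_image_sub_le_of_norm_hasDerivWithin_le`) gives
`‖P z' - P z‖ ≤ C e^(-c y / 2) ‖z' - z‖`. So `P(n i)` is Cauchy (`cauchySeq_of_le_geometric`), with
limit `Q`, `‖P(n i) - Q‖ ≤ C' e^(-c n / 2)`; compare `z` with `⌊im z⌋ i`. -/
theorem IsPrim.limit (h : IsPrim κ f P) {c : ℝ} (hc : 0 < c)
    (hd : f =O[atImInfty] fun z => Real.exp (-c * z.im)) :
    ∃ Q : Vk ℂ κ, ∀ R : ℝ, ∃ A C : ℝ, ∀ z : ℍ, |z.re| ≤ R → A ≤ z.im →
      ‖P z - Q‖ ≤ C * Real.exp (-(c / 2) * z.im) := by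
  obtain ⟨A, hA0, hA⟩ := gcusp_lip h hc hd
  obtain ⟨n0, hn0⟩ := exists_nat_ge A
  obtain ⟨K0, hK0, hK⟩ := hA 0
  set r : ℝ := Real.exp (-(c / 2)) with hr
  have hr1 : r < 1 := Real.exp_lt_one_iff.2 (by linarith)
  have hpow : ∀ n : ℕ, Real.exp (-(c / 2) * ((n + n0 : ℕ) : ℝ))
      = Real.exp (-(c / 2) * n0) * r ^ n := by
    intro n
    rw [hr, ← Real.exp_nat_mul, ← Real.exp_add]
    congr 1
    push_cast
    ring
  let u : ℕ → Vk ℂ κ := fun n => P (ofComplex (((n + n0 : ℕ) : ℂ) * Complex.I))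
  have hu : ∀ n, dist (u n) (u (n + 1)) ≤ K0 * Real.exp (-(c / 2) * n0) * r ^ n := by
    intro n
    have h1 := hK ((n + n0 : ℕ) : ℝ) (by push_cast; linarith [(n.cast_nonneg : (0 : ℝ) ≤ n)])
      (((n + 1 + n0 : ℕ) : ℂ) * Complex.I) (((n + n0 : ℕ) : ℂ) * Complex.I) (by simp) (by simp)
      (by simp) (by simp)
    have h2 : ((n + n0 : ℕ) : ℂ) * Complex.I - ((n + 1 + n0 : ℕ) : ℂ) * Complex.I = -Complex.I := by
      push_cast
      ring
    rw [h2, norm_neg, Complex.norm_I, mul_one, hpow, ← mul_assoc] at h1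
    rw [dist_eq_norm]
    exact h1
  obtain ⟨Q, hQ⟩ := cauchySeq_tendsto_of_complete (cauchySeq_of_le_geometric r _ hr1 hu)
  refine ⟨Q, fun R => ?_⟩
  obtain ⟨K, hK1, hKR⟩ := hA R
  refine ⟨n0, (K * (R + 1) + K0 / (1 - r)) * Real.exp (c / 2), fun z hz1 hz2 => ?_⟩
  have hR : 0 ≤ R := (abs_nonneg _).trans hz1
  obtain ⟨n, hn⟩ : ∃ n, ⌊z.im⌋₊ = n + n0 :=
    ⟨⌊z.im⌋₊ - n0, (Nat.sub_add_cancel (Nat.le_floor hz2)).symm⟩
  have hfl : ((n + n0 : ℕ) : ℝ) ≤ z.im := by rw [← hn]; exact Nat.floor_le z.im_pos.le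
  have hfl' : z.im < ((n + n0 : ℕ) : ℝ) + 1 := by rw [← hn]; exact Nat.lt_floor_add_one _
  have h1 := hKR ((n + n0 : ℕ) : ℝ) (by push_cast; linarith [(n.cast_nonneg : (0 : ℝ) ≤ n)])
    (((n + n0 : ℕ) : ℂ) * Complex.I) z (by simpa using hR) (by simp) hz1 hfl
  have h2 := dist_le_of_le_geometric_of_tendsto r _ hr1 hu hQ n
  rw [dist_eq_norm, mul_assoc, ← hpow] at h2
  rw [ofComplex_apply] at h1
  have h3 : ‖(z : ℂ) - ((n + n0 : ℕ) : ℂ) * Complex.I‖ ≤ R + 1 := by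
    have := gcusp_norm_le ((z : ℂ) - ((n + n0 : ℕ) : ℂ) * Complex.I) (R := R) (by simpa using hz1)
      (by simpa using hfl)
    simp only [Complex.sub_im, coe_im, Complex.mul_im, Complex.natCast_re, Complex.I_im, mul_one,
      Complex.natCast_im, Complex.I_re, mul_zero, add_zero] at this
    linarith
  have h4 : Real.exp (-(c / 2) * ((n + n0 : ℕ) : ℝ))
      ≤ Real.exp (c / 2) * Real.exp (-(c / 2) * z.im) := by
    rw [← Real.exp_add]
    exact Real.exp_le_exp.2 (by nlinarith)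
  have h5 : 0 < 1 - r := by linarith
  calc ‖P z - Q‖ ≤ ‖P z - u n‖ + ‖u n - Q‖ := norm_sub_le_norm_sub_add_norm_sub _ _ _
    _ ≤ K * Real.exp (-(c / 2) * ((n + n0 : ℕ) : ℝ)) * (R + 1)
        + K0 * Real.exp (-(c / 2) * ((n + n0 : ℕ) : ℝ)) / (1 - r) :=
        add_le_add (h1.trans (mul_le_mul_of_nonneg_left h3 (by positivity))) h2
    _ = (K * (R + 1) + K0 / (1 - r)) * Real.exp (-(c / 2) * ((n + n0 : ℕ) : ℝ)) := by ring
    _ ≤ (K * (R + 1) + K0 / (1 - r)) * (Real.exp (c / 2) * Real.exp (-(c / 2) * z.im)) :=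
        mul_le_mul_of_nonneg_left h4 (by positivity)
    _ = _ := by ring

/-- Sketch: the polynomial `x ↦ ev2 Q x 1` is invariant under `x ↦ x + w` (`ev2_vact`), so it takes
the value at `0` infinitely often (`Polynomial.eq_of_infinite_eval_eq`). -/
theorem const_of_inv {Q : Vk ℂ κ} {w : ℤ} (hw : w ≠ 0) (h : vact ℂ κ !![1, w; 0, 1] Q = Q)
    (x : ℂ) : ev2 Q x 1 = Q 0 := by
  have h1 : ∀ x : ℂ, ev2 Q (x + w) 1 = ev2 Q x 1 := by
    intro x
    have := ev2_vact κ !![1, w; 0, 1] Q x 1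
    rw [h] at this
    simpa using this.symm
  have h0 : ev2 Q 0 1 = Q 0 := by
    simp [ev2, Fin.sum_univ_succ]
  have h2 : ∀ n : ℕ, ev2 Q (n * w) 1 = Q 0 := by
    intro n
    induction n with
    | zero => simpa using h0
    | succ n ih => rw [← ih, ← h1 (n * w)]; congr 1; push_cast; ring
  let p : Polynomial ℂ := ∑ j : Fin (κ + 1), Polynomial.monomial (j : ℕ) (Q j)
  have hp : ∀ x, p.eval x = ev2 Q x 1 := by
    intro x
    simp only [p, ev2, Polynomial.eval_finsetSum, Polynomial.eval_monomial, one_pow, mul_one]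
  have hw' : (w : ℂ) ≠ 0 := by exact_mod_cast hw
  have h3 : p = Polynomial.C (Q 0) := by
    refine Polynomial.eq_of_infinite_eval_eq _ _
      (Set.infinite_of_injective_forall_mem (f := fun n : ℕ => (n : ℂ) * w) ?_ fun n => ?_)
    · intro m n e
      exact_mod_cast mul_right_cancel₀ hw' e
    · simp only [Set.mem_ofPred_eq, hp, h2, Polynomial.eval_C]
  rw [← hp, h3, Polynomial.eval_C]

/-- Sketch: `IsPrim.limit` for both parts (`sm eps z = -conj z` has the same imaginary part) gives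
`‖F z - Q‖ ≤ C e^(-c' y)` on every strip. Passing to the limit along `z = n i` in `hinv` shows that
`Q` is invariant, so `ev2 Q z 1 = Q 0`; and
`‖ev2 (F z - Q) z 1‖ ≤ (κ + 1) ‖F z - Q‖ (1 + ‖z‖) ^ κ` is bounded. -/
theorem IsES.bounded (h : IsES κ f g F) {c : ℝ} (hc : 0 < c)
    (hf : f =O[atImInfty] fun z => Real.exp (-c * z.im))
    (hg : g =O[atImInfty] fun z => Real.exp (-c * z.im)) {w : ℤ} (hw : w ≠ 0)
    (hinv : G.fsl (vact ℂ κ) sm F !![1, w; 0, 1] = F) :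
    ∃ A C : ℝ, ∀ z : ℍ, |z.re| ≤ 1 → A ≤ z.im → ‖ev2 (F z) z 1‖ ≤ C := by
  obtain ⟨A, B, hA, hB, rfl⟩ := h
  obtain ⟨QA, hQA⟩ := hA.limit hc hf
  obtain ⟨QB, hQB⟩ := hB.limit hc hg
  set F := A + G.fsl (vact ℂ κ) sm B eps with hF
  let L : Mat → Vk ℂ κ →L[ℂ] Vk ℂ κ := fun m => LinearMap.toContinuousLinearMap (vact ℂ κ m)
  have hL : ∀ m v, ‖vact ℂ κ m v‖ ≤ ‖L m‖ * ‖v‖ := fun m v => (L m).le_opNorm v
  have key : ∀ R : ℝ, ∃ A' C : ℝ, ∀ z : ℍ, |z.re| ≤ R → A' ≤ z.im →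
      ‖F z - (QA + vact ℂ κ eps QB)‖ ≤ C * Real.exp (-(c / 2) * z.im) := by
    intro R
    obtain ⟨A1, C1, h1⟩ := hQA R
    obtain ⟨A2, C2, h2⟩ := hQB R
    refine ⟨max A1 A2, C1 + ‖L eps‖ * C2, fun z hz1 hz2 => ?_⟩
    have e1 : (sm eps z).re = -z.re := by
      rw [← coe_re, coe_sm_eps]
      simp
    have e2 : (sm eps z).im = z.im := by
      rw [← coe_im, coe_sm_eps]
      simp
    have h3 := h2 (sm eps z) (by rwa [e1, abs_neg]) (by rw [e2]; exact (le_max_right _ _).trans hz2)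
    rw [e2] at h3
    have e3 : F z - (QA + vact ℂ κ eps QB) = (A z - QA) + vact ℂ κ eps (B (sm eps z) - QB) := by
      simp only [hF, Pi.add_apply, G.fsl, map_sub]
      abel
    rw [e3, add_mul, mul_assoc]
    exact (norm_add_le _ _).trans (add_le_add (h1 z hz1 ((le_max_left _ _).trans hz2))
      ((hL _ _).trans (mul_le_mul_of_nonneg_left h3 (norm_nonneg _))))
  set Q := QA + vact ℂ κ eps QB
  have hQ : vact ℂ κ !![1, w; 0, 1] Q = Q := by
    obtain ⟨A', C, hC⟩ := key |(w : ℝ)|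
    rw [← sub_eq_zero, ← norm_le_zero_iff]
    refine gcusp_eq_zero (K := C + ‖L !![1, w; 0, 1]‖ * C) (A := max A' 1) (half_pos hc)
      fun y hy => ?_
    have hy0 : 0 < ((y : ℂ) * Complex.I).im := by
      simpa using lt_of_lt_of_le one_pos ((le_max_right _ _).trans hy)
    let z : ℍ := ⟨(y : ℂ) * Complex.I, hy0⟩
    have ez : (z : ℂ) = (y : ℂ) * Complex.I := rfl
    have hdet : 0 < (!![1, w; 0, 1] : Mat).det := by simp [Matrix.det_fin_two_of]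
    have e0 : (sm !![1, w; 0, 1] z : ℂ) = (y : ℂ) * Complex.I + w := by
      rw [coe_sm hdet, ez]
      simp
    have e1 : (sm !![1, w; 0, 1] z).re = w := by
      rw [← coe_re, e0]
      simp
    have e2 : (sm !![1, w; 0, 1] z).im = y := by
      rw [← coe_im, e0]
      simp
    have e3 : z.re = 0 := by
      rw [← coe_re, ez]
      simp
    have e4 : z.im = y := by
      rw [← coe_im, ez]
      simp
    have h1 := hC (sm !![1, w; 0, 1] z) (by rw [e1]) (by rw [e2]; exact (le_max_left _ _).trans hy)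
    have h2 := hC z (by rw [e3, abs_zero]; exact abs_nonneg _)
      (by rw [e4]; exact (le_max_left _ _).trans hy)
    rw [e2] at h1
    rw [e4] at h2
    have h3 : vact ℂ κ !![1, w; 0, 1] (F (sm !![1, w; 0, 1] z)) = F z := congrFun hinv z
    have e5 : vact ℂ κ !![1, w; 0, 1] Q - Q
        = (F z - Q) - vact ℂ κ !![1, w; 0, 1] (F (sm !![1, w; 0, 1] z) - Q) := by
      rw [map_sub, h3]
      abel
    rw [e5, add_mul, mul_assoc]
    exact (norm_sub_le _ _).trans (add_le_add h2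
      ((hL _ _).trans (mul_le_mul_of_nonneg_left h1 (norm_nonneg _))))
  obtain ⟨A', C, hC⟩ := key 1
  obtain ⟨K, hK0, hK⟩ := gcusp_poly_exp κ 2 (half_pos hc)
  refine ⟨A', (κ + 1) * (|C| * K) + ‖Q 0‖, fun z hz1 hz2 => ?_⟩
  have e1 : ev2 (F z) z 1 = ev2 (F z - Q) z 1 + Q 0 := by
    rw [ev2_sub, const_of_inv hw hQ, sub_add_cancel]
  rw [e1]
  refine (norm_add_le _ _).trans (add_le_add ((gcusp_norm_ev2 _ _).trans ?_) le_rfl)
  refine mul_le_mul_of_nonneg_left ?_ (by positivity)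
  have h1 : (1 + ‖(z : ℂ)‖) ^ κ ≤ (2 + z.im) ^ κ := by
    refine pow_le_pow_left₀ (by positivity) ?_ κ
    have := gcusp_norm_le (z : ℂ) hz1 z.im_pos.le
    rw [coe_im] at this
    linarith
  have h2 : ‖F z - Q‖ ≤ |C| * Real.exp (-(c / 2) * z.im) :=
    (hC z hz1 hz2).trans (mul_le_mul_of_nonneg_right (le_abs_self C) (Real.exp_pos _).le)
  calc ‖F z - Q‖ * (1 + ‖(z : ℂ)‖) ^ κ ≤ |C| * Real.exp (-(c / 2) * z.im) * (2 + z.im) ^ κ :=
        mul_le_mul h2 h1 (by positivity) (by positivity)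
    _ = |C| * ((2 + z.im) ^ κ * Real.exp (-(c / 2) * z.im)) := by ring
    _ ≤ |C| * K := mul_le_mul_of_nonneg_left (hK _ (by linarith [z.im_pos])) (abs_nonneg C)

/-- Sketch: if `Ψ = 0` take any point. Otherwise let `ε = Ψ z₁ / 2 > 0`. Every `z` is
`γ r w` with `γ ∈ Γ`, `r` in a finite set of coset representatives and `w ∈ 𝒟`
(`ModularGroup.exists_smul_mem_fd`). Take `A` for all `r` at once; `Ψ` attains its maximum on the
compact set `⋃_r r • truncatedFundamentalDomain A ∪ {z₁}`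
(`isCompact_truncatedFundamentalDomain`, `IsCompact.exists_isMaxOn`). -/
theorem exists_max {Γ : Subgroup SL(2, ℤ)} [Γ.FiniteIndex] {Ψ : ℍ → ℝ} (hc : Continuous Ψ)
    (h0 : ∀ z, 0 ≤ Ψ z) (hinv : ∀ γ ∈ Γ, ∀ z : ℍ, Ψ (γ • z) = Ψ z)
    (hlim : ∀ γ : SL(2, ℤ), ∀ ε : ℝ, 0 < ε → ∃ A : ℝ, ∀ z : ℍ, |z.re| ≤ 1 → A ≤ z.im →
      Ψ (γ • z) ≤ ε) : ∃ z₀, ∀ z, Ψ z ≤ Ψ z₀ := by
  by_cases hex : ∃ z₁, 0 < Ψ z₁
  swap
  · push Not at hex
    exact ⟨I, fun z => (hex z).trans (h0 _)⟩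
  obtain ⟨z₁, hz₁⟩ := hex
  have : Finite (SL(2, ℤ) ⧸ Γ) := Subgroup.finite_quotient_of_finiteIndex
  choose A hA using fun q : SL(2, ℤ) ⧸ Γ => hlim q.out⁻¹ (Ψ z₁) hz₁
  obtain ⟨B, hB⟩ := Finite.exists_le A
  have hK : IsCompact (insert z₁ (⋃ q : SL(2, ℤ) ⧸ Γ,
      (fun w : ℍ => q.out⁻¹ • w) '' ModularGroup.truncatedFundamentalDomain B)) := by
    refine (isCompact_iUnion fun q =>
      (ModularGroup.isCompact_truncatedFundamentalDomain B).image ?_).insert z₁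
    simp only [← sm_SL]
    exact continuous_sm _
  obtain ⟨z₀, -, hz₀⟩ := hK.exists_isMaxOn ⟨z₁, Set.mem_insert _ _⟩ hc.continuousOn
  refine ⟨z₀, fun z => ?_⟩
  obtain ⟨g, hg⟩ := ModularGroup.exists_smul_mem_fd z
  obtain ⟨γ, hγ⟩ := QuotientGroup.mk_out_eq_mul Γ g
  have e : Ψ z = Ψ ((g : SL(2, ℤ) ⧸ Γ).out⁻¹ • g • z) := by
    rw [hγ, mul_inv_rev, mul_smul, inv_smul_smul, hinv _ (Γ.inv_mem γ.2)]
  rw [e]
  rcases le_total (g • z).im B with h | h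
  · exact hz₀ (Set.mem_insert_of_mem _ (Set.mem_iUnion.2 ⟨_, _, ⟨hg, h⟩, rfl⟩))
  · refine (hA _ _ (hg.2.trans (by norm_num)) ((hB _).trans h)).trans ?_
    exact hz₀ (Set.mem_insert _ _)

end Pool.Agent.Lib.MP_88d29b_nt.G
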