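import Pool.Agent.Lib.MP_88d29b_nt.GQ1

/-!
Hecke operators and sieving on Fourier expansions.
-/

set_option autoImplicit false

noncomputable section

namespace Pool.Agent.Lib.MP_88d29b_nt.G

open Finset CongruenceSubgroup UpperHalfPlane Filter Asymptotics
open scoped MatrixGroups ModularForm Manifold Topology

variable {f : ℍ → ℂ} {a : ℕ → ℂ}

lemma gq2_at (h : QS f a) {w : ℂ} (hw : 0 < w.im) :
    HasSum (fun n : ℕ => a n * Complex.exp (2 * Real.pi * Complex.I * n * w)) (f (ofComplex w)) := by
  rw [ofComplex_apply_of_im_pos hw]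
  exact h ⟨w, hw⟩

lemma gq2_geom {K : ℕ} (hK : 0 < K) (t : ℤ) :
    ∑ j ∈ range K, Complex.exp (2 * Real.pi * Complex.I * t * j / K)
      = if (K : ℤ) ∣ t then (K : ℂ) else 0 := by
  have hK' : (K : ℂ) ≠ 0 := by exact_mod_cast hK.ne'
  have e : ∀ j : ℕ, Complex.exp (2 * Real.pi * Complex.I * t * j / K)
      = Complex.exp (2 * Real.pi * Complex.I * t / K) ^ j := fun j => by
    rw [← Complex.exp_nat_mul]
    congr 1
    ring
  simp only [e]
  split_ifs with hd
  · obtain ⟨c, rfl⟩ := hd
    have : Complex.exp (2 * Real.pi * Complex.I * ((K : ℤ) * c : ℤ) / K) = 1 := by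
      rw [Complex.exp_eq_one_iff]
      refine ⟨c, ?_⟩
      push_cast
      field_simp
    rw [this]
    simp
  · have h1 : Complex.exp (2 * Real.pi * Complex.I * t / K) ≠ 1 := by
      intro h1
      obtain ⟨c, hc⟩ := Complex.exp_eq_one_iff.mp h1
      apply hd
      refine ⟨c, ?_⟩
      have h2 : (2 * Real.pi * Complex.I : ℂ) ≠ 0 := Complex.two_pi_I_ne_zero
      have h3 : (t : ℂ) = K * c := by
        apply mul_left_cancel₀ h2
        rw [div_eq_iff hK'] at hc
        rw [hc]
        ring
      exact_mod_cast h3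
    have h2 : Complex.exp (2 * Real.pi * Complex.I * t / K) ^ K = 1 := by
      rw [← Complex.exp_nat_mul, Complex.exp_eq_one_iff]
      refine ⟨t, ?_⟩
      field_simp
    rw [geom_sum_eq h1, h2, sub_self, zero_div]

/-- Sketch: `Function.Injective.hasSum_iff` for `n ↦ l * n`. -/
theorem QS.dil (h : QS f a) {l : ℕ} (hl : 0 < l) :
    QS (fun z => f (ofComplex (l * z))) (fun n => if l ∣ n then a (n / l) else 0) := by
  intro z
  have hw : 0 < ((l : ℂ) * z).im := by
    have : (0 : ℝ) < l := by exact_mod_cast hl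
    simpa using mul_pos this z.im_pos
  have hinj : Function.Injective fun n : ℕ => l * n := fun x y e => Nat.eq_of_mul_eq_mul_left hl e
  rw [← hinj.hasSum_iff]
  · refine (gq2_at h hw).congr fun s => Finset.sum_congr rfl fun n _ => ?_
    simp only [Function.comp, dvd_mul_right, if_true, Nat.mul_div_cancel_left n hl]
    push_cast
    congr 2
    ring
  · intro n hn
    beta_reduce
    rw [if_neg, zero_mul]
    rintro ⟨c, rfl⟩
    exact hn ⟨c, rfl⟩

/-- Sketch: sum the expansions at the points `(M z + j) / (m M)`; the coefficient of `a n'` is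
`e(n' z / m) ∑_j e((n' - r m) j / (m M)) / (m M)`, and the geometric sum is `1` if
`m M ∣ n' - r m` (that is `n' = m n`, `n ≡ r mod M`) and `0` otherwise. Then
`Function.Injective.hasSum_iff` for `n ↦ m * n`. -/
theorem QS.extract (h : QS f a) {m M : ℕ} (hm : 0 < m) (hM : 0 < M) (r : ℕ) :
    QS (fun z => (∑ j ∈ range (m * M), Complex.exp (-(2 * Real.pi * Complex.I * r * j / M)) *
        f (ofComplex ((M * (z : ℂ) + j) / (m * M)))) / (m * M))
      (fun n => if n ≡ r [MOD M] then a (m * n) else 0) := by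
  intro z
  have hm' : (m : ℂ) ≠ 0 := by exact_mod_cast hm.ne'
  have hM' : (M : ℂ) ≠ 0 := by exact_mod_cast hM.ne'
  have hw : ∀ j : ℕ, 0 < ((M * (z : ℂ) + j) / (m * M)).im := fun j => by
    have h1 : (0 : ℝ) < m := by exact_mod_cast hm
    have h2 : (0 : ℝ) < M := by exact_mod_cast hM
    have e : ((m : ℂ) * M) = ((m * M : ℝ) : ℂ) := by push_cast; ring
    rw [e, Complex.div_ofReal_im]
    refine div_pos ?_ (mul_pos h1 h2)
    simpa using mul_pos h2 z.im_pos
  have h1 := (hasSum_sum fun j (_ : j ∈ range (m * M)) =>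
    (gq2_at h (hw j)).mul_left (Complex.exp (-(2 * Real.pi * Complex.I * r * j / M)))).div_const
      ((m : ℂ) * M)
  have h2 : ∀ n : ℕ, (∑ j ∈ range (m * M), Complex.exp (-(2 * Real.pi * Complex.I * r * j / M)) *
      (a n * Complex.exp (2 * Real.pi * Complex.I * n * ((M * (z : ℂ) + j) / (m * M))))) / (m * M)
      = if ((m * M : ℕ) : ℤ) ∣ (n : ℤ) - r * m then
        a n * Complex.exp (2 * Real.pi * Complex.I * n * z / m) else 0 := by
    intro n
    have e : ∀ j : ℕ, Complex.exp (-(2 * Real.pi * Complex.I * r * j / M)) *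
        (a n * Complex.exp (2 * Real.pi * Complex.I * n * ((M * (z : ℂ) + j) / (m * M))))
        = a n * Complex.exp (2 * Real.pi * Complex.I * n * z / m) *
          Complex.exp (2 * Real.pi * Complex.I * ((n : ℤ) - r * m : ℤ) * j / (m * M : ℕ)) := by
      intro j
      rw [mul_left_comm, mul_assoc (a n), ← Complex.exp_add, ← Complex.exp_add]
      congr 2
      push_cast
      field_simp
      ring
    simp only [e]
    rw [← Finset.mul_sum, gq2_geom (Nat.mul_pos hm hM)]
    split_ifs
    · push_cast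
      field_simp
    · simp
  simp only [h2] at h1
  have hinj : Function.Injective fun n : ℕ => m * n := fun x y e => Nat.eq_of_mul_eq_mul_left hm e
  rw [← hinj.hasSum_iff] at h1
  · refine h1.congr fun s => Finset.sum_congr rfl fun n _ => ?_
    have e1 : ((m * M : ℕ) : ℤ) ∣ ((m * n : ℕ) : ℤ) - r * m ↔ n ≡ r [MOD M] := by
      rw [Nat.ModEq.comm, Nat.modEq_iff_dvd]
      push_cast
      rw [show (m : ℤ) * n - r * m = m * (n - r) by ring]
      exact mul_dvd_mul_iff_left (by exact_mod_cast hm.ne')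
    simp only [Function.comp, e1]
    split_ifs
    · congr 2
      push_cast
      field_simp
    · simp
  · intro n hn
    rw [if_neg]
    intro hd
    apply hn
    have h3 : (m : ℤ) ∣ (n : ℤ) - r * m := Dvd.dvd.trans (by push_cast; exact dvd_mul_right _ _) hd
    have h4 : (m : ℤ) ∣ (n : ℤ) := by
      have := dvd_add h3 (dvd_mul_left (m : ℤ) r)
      rwa [sub_add_cancel] at this
    obtain ⟨c, hc⟩ := Int.natCast_dvd_natCast.mp h4
    exact ⟨c, hc.symm⟩

/-- Sketch: `QS.dil` and `QS.extract` with `m = l`, `M = 1`, `r = 0`. -/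
theorem QS.hecke (h : QS f a) {l : ℕ} (hl : 0 < l) (k : ℤ) :
    QS (heckeFun l k f)
      (fun n => a (l * n) + if l ∣ n then (l : ℂ) ^ (k - 1) * a (n / l) else 0) := by
  intro z
  have h1 := (h.extract hl one_pos 0 z).add ((h.dil hl z).mul_left ((l : ℂ) ^ (k - 1)))
  have e : heckeFun l k f z = (∑ j ∈ range (l * 1),
      Complex.exp (-(2 * Real.pi * Complex.I * (0 : ℕ) * j / (1 : ℕ))) *
        f (ofComplex (((1 : ℕ) * (z : ℂ) + j) / (l * (1 : ℕ))))) / (l * (1 : ℕ))
      + (l : ℂ) ^ (k - 1) * f (ofComplex (l * z)) := by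
    rw [heckeFun, add_comm]
    simp
  rw [e]
  refine h1.congr fun s => Finset.sum_congr rfl fun n _ => ?_
  beta_reduce
  rw [if_pos Nat.modEq_one]
  split_ifs <;> ring

lemma gq2_coeff (a : ℕ → ℂ) (c c' : ℂ) {l l' : ℕ} (hc : l.Coprime l') (n : ℕ) :
    ((a (l' * (l * n)) + if l' ∣ l * n then c' * a (l * n / l') else 0) +
      if l ∣ n then c * (a (l' * (n / l)) + if l' ∣ n / l then c' * a (n / l / l') else 0) else 0)
    = a (l * l' * n) + (if l' ∣ n then c' * a (l * (n / l')) else 0)
      + (if l ∣ n then c * a (l' * (n / l)) else 0)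
      + if l ∣ n ∧ l' ∣ n then c * c' * a (n / (l * l')) else 0 := by
  have e1 : l' * (l * n) = l * l' * n := by ring
  have e2 : l' ∣ l * n ↔ l' ∣ n := hc.symm.dvd_mul_left
  rw [e1, Nat.div_div_eq_div_mul]
  simp only [e2]
  by_cases h1 : l ∣ n
  · have e3 : l' ∣ n / l ↔ l' ∣ n := by
      constructor
      · intro h
        exact h.trans (Nat.div_dvd_of_dvd h1)
      · intro h
        rw [← Nat.mul_div_cancel' h1] at h
        exact hc.symm.dvd_mul_left.mp h
    by_cases h2 : l' ∣ n
    · simp only [h1, h2, e3, if_true, and_self, Nat.mul_div_assoc l h2]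
      ring
    · simp only [h1, h2, e3, if_true, if_false, and_false]
      ring
  · by_cases h2 : l' ∣ n
    · simp only [h1, h2, if_true, if_false, false_and, Nat.mul_div_assoc l h2]
      ring
    · simp only [h1, h2, if_false, false_and]
      ring

/-- Sketch: for distinct primes both sides have the same expansion (`QS.hecke` twice), and
`HasSum.unique`. -/
theorem TS_comm (N : ℕ) [NeZero N] (k : ℤ) (l l' : ℕ) :
    TS N k l ∘ₗ TS N k l' = TS N k l' ∘ₗ TS N k l := by
  by_cases hll : l = l'
  · rw [hll]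
  by_cases hl : l.Prime ∧ Nat.Coprime l N
  · by_cases hl' : l'.Prime ∧ Nat.Coprime l' N
    · have hc : l.Coprime l' := (Nat.coprime_primes hl.1 hl'.1).mpr hll
      ext F z
      obtain ⟨a, ha⟩ := exists_QS (isCF_coe F)
      have h1 := (ha.hecke hl'.1.pos k).hecke hl.1.pos k z
      have h2 := (ha.hecke hl.1.pos k).hecke hl'.1.pos k z
      rw [LinearMap.comp_apply, LinearMap.comp_apply, TS_eq N k hl.1 hl.2, TS_eq N k hl'.1 hl'.2,
        coe_hecke, coe_hecke, coe_hecke, coe_hecke]
      refine h1.unique (h2.congr fun s => Finset.sum_congr rfl fun n _ => ?_)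
      beta_reduce
      congr 1
      rw [gq2_coeff a _ _ hc, gq2_coeff a _ _ hc.symm, mul_comm l' l]
      simp only [and_comm (a := l' ∣ n)]
      split_ifs <;> ring
    · have e : TS N k l' = 0 := by rw [TS, dif_neg hl']
      rw [e, LinearMap.comp_zero, LinearMap.zero_comp]
  · have e : TS N k l = 0 := by rw [TS, dif_neg hl]
    rw [e, LinearMap.comp_zero, LinearMap.zero_comp]

/-- Sketch: sum `QS.extract` with `M = N` over the residues `r < N` coprime to `N`. By `sl_upper`
each term is a multiple of `sl k f !![N, j; 0, m N]`, whose determinant `m N ^ 2` divides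
`L N ^ 2`; use `IsCF.sl` after `hf.mono (Gamma_le_Gamma0 N)`. -/
theorem exists_sieve {N : ℕ} [NeZero N] {k : ℤ} (hf : IsCF (Gamma0 N) k f) (ha : QS f a)
    {m L : ℕ} (hm : m ∣ L) (hL : L ≠ 0) :
    ∃ g, IsCF (Gamma (N * (L * N ^ 2))) k g ∧
      QS g (fun n => if n.Coprime N then a (m * n) else 0) := by
  have hN : 0 < N := Nat.pos_of_ne_zero (NeZero.ne N)
  have hm0 : 0 < m := Nat.pos_of_dvd_of_pos hm (Nat.pos_of_ne_zero hL)
  have hN' : (N : ℂ) ≠ 0 := by exact_mod_cast hN.ne'
  have hm' : (m : ℂ) ≠ 0 := by exact_mod_cast hm0.ne'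
  have hNz : (0 : ℤ) < N := by exact_mod_cast hN
  have hmN : (0 : ℤ) < m * N := by exact_mod_cast Nat.mul_pos hm0 hN
  refine ⟨∑ r ∈ (range N).filter (fun r => r.Coprime N), fun z : ℍ =>
    (∑ j ∈ range (m * N), Complex.exp (-(2 * Real.pi * Complex.I * r * j / N)) *
        f (ofComplex ((N * (z : ℂ) + j) / (m * N)))) / (m * N), IsCF.sum fun r _ => ?_, ?_⟩
  · have e : (fun z : ℍ => (∑ j ∈ range (m * N),
        Complex.exp (-(2 * Real.pi * Complex.I * r * j / N)) *
          f (ofComplex ((N * (z : ℂ) + j) / (m * N)))) / (m * N))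
        = ∑ j ∈ range (m * N), (Complex.exp (-(2 * Real.pi * Complex.I * r * j / N)) /
            (N : ℂ) ^ (k - 1)) • sl k f !![(N : ℤ), (j : ℤ); 0, (m : ℤ) * N] := by
      ext z
      rw [Finset.sum_apply, Finset.sum_div]
      refine Finset.sum_congr rfl fun j _ => ?_
      rw [Pi.smul_apply, sl_upper k f _ hNz hmN, smul_eq_mul]
      have : (N : ℂ) ^ (k - 1) ≠ 0 := zpow_ne_zero _ hN'
      push_cast
      field_simp
    rw [e]
    refine IsCF.sum fun j _ => IsCF.smul _ ((hf.mono (Gamma_le_Gamma0 N)).sl ?_ ?_)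
    · rw [Matrix.det_fin_two_of, mul_zero, sub_zero]
      exact (mul_pos hNz hmN).ne'
    · rw [Matrix.det_fin_two_of, mul_zero, sub_zero]
      obtain ⟨c, rfl⟩ := hm
      exact ⟨c, by push_cast; ring⟩
  · have h1 := QS.sum (s := (range N).filter (fun r => r.Coprime N))
      fun r _ => ha.extract hm0 hN r
    have e : (∑ r ∈ (range N).filter (fun r => r.Coprime N),
        fun n => if n ≡ r [MOD N] then a (m * n) else 0)
        = fun n => if n.Coprime N then a (m * n) else 0 := by
      ext n
      rw [Finset.sum_apply]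
      have e1 : ∀ r ∈ (range N).filter (fun r => r.Coprime N),
          (if n ≡ r [MOD N] then a (m * n) else 0) = if n % N = r then a (m * n) else 0 := by
        intro r hr
        have hr' : r < N := mem_range.mp (mem_filter.mp hr).1
        simp only [Nat.ModEq, Nat.mod_eq_of_lt hr']
      rw [Finset.sum_congr rfl e1, Finset.sum_ite_eq]
      have e2 : n % N ∈ (range N).filter (fun r => r.Coprime N) ↔ n.Coprime N := by
        rw [mem_filter, mem_range, Nat.Coprime, Nat.Coprime, ← Nat.gcd_rec, Nat.gcd_comm]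
        exact and_iff_right (Nat.mod_lt n hN)
      simp only [e2]
    rw [e] at h1
    exact h1

end Pool.Agent.Lib.MP_88d29b_nt.G
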