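import Pool.Agent.Lib.MP_88d29b_nt.GQ1

/-!
The Sturm bound and finite dimensionality.
-/

set_option autoImplicit false

noncomputable section

namespace Pool.Agent.Lib.MP_88d29b_nt.G

open Finset CongruenceSubgroup UpperHalfPlane Filter Asymptotics
open scoped MatrixGroups ModularForm Manifold Topology

variable {f : ℍ → ℂ} {a : ℕ → ℂ}

lemma gsturm_card (Γ : Subgroup SL(2, ℤ)) :
    Nat.card (𝒮ℒ ⧸ (Γ : Subgroup (GL (Fin 2) ℝ)).subgroupOf 𝒮ℒ) = Γ.index := by
  change (Γ.map (Matrix.SpecialLinearGroup.mapGL ℝ)).relIndex 𝒮ℒ = Γ.index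
  rw [MonoidHom.range_eq_map, ← Subgroup.relIndex_top_right]
  exact Subgroup.relIndex_map_map_of_injective _ _ Matrix.SpecialLinearGroup.mapGL_injective

lemma gsturm_QS {k : ℤ} (F : ModularForm 𝒮ℒ k) :
    QS F fun n => (qExpansion 1 F).coeff n := by
  intro z
  have h := hasSum_qExpansion one_pos
    (SlashInvariantFormClass.periodic_comp_ofComplex F one_mem_strictPeriods_SL)
    (ModularFormClass.holo F) (ModularFormClass.bdd_at_infty F) z
  convert h using 2 with n
  rw [smul_eq_mul, Function.Periodic.qParam, ← Complex.exp_nat_mul]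
  congr 2
  push_cast
  ring

lemma gsturm_norm {Γ : Subgroup SL(2, ℤ)} [Γ.FiniteIndex] {k : ℤ} (hf : IsCF Γ k f) :
    ⇑(ModularForm.norm 𝒮ℒ hf.mk') =O[atImInfty] f := by
  classical
  rw [ModularForm.coe_norm]
  let := Fintype.ofFinite (𝒮ℒ ⧸ (Γ : Subgroup (GL (Fin 2) ℝ)).subgroupOf 𝒮ℒ)
  rw [← Finset.mul_prod_erase Finset.univ (SlashInvariantForm.quotientFunc hf.mk' (ℋ := 𝒮ℒ))
    (Finset.mem_univ ⟦1⟧)]
  have h1 : SlashInvariantForm.quotientFunc hf.mk' (ℋ := 𝒮ℒ) ⟦1⟧ = f := by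
    rw [SlashInvariantForm.quotientFunc_mk]
    simp
  rw [h1]
  have h2 : ∀ q : 𝒮ℒ ⧸ (Γ : Subgroup (GL (Fin 2) ℝ)).subgroupOf 𝒮ℒ,
      SlashInvariantForm.quotientFunc hf.mk' q =O[atImInfty] fun _ => (1 : ℂ) := by
    intro q
    induction q using Quotient.inductionOn with
    | h r =>
      obtain ⟨r, γ, rfl⟩ := r
      rw [SlashInvariantForm.quotientFunc_mk]
      have h := hf.cuspy.zero γ⁻¹
      rw [sl, toGL_SL, map_inv] at h
      exact h.isBigO_one ℂ
  have h3 := IsBigO.finsetProd (s := Finset.univ.erase (Quotient.mk _ 1)) fun q _ => h2 q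
  have h4 := (isBigO_refl f atImInfty).mul h3
  simp only [Finset.prod_const_one, mul_one] at h4
  refine IsBigO.congr_left h4 fun z => ?_
  simp only [Pi.mul_apply, Finset.prod_apply]
  congr!

/-- Sketch: let `F = ∏_{q : SL(2,ℤ) ⧸ Γ} sl k f q.out⁻¹` (or Mathlib's `ModularForm.norm 𝒮ℒ hf.mk'`,
`ModularForm.norm_eq_zero_iff`). It is a level one form of weight `k * Γ.index`; the factor of the
trivial coset is `f`, the other factors tend to zero (`hf.cuspy.zero`), so `F` has the same decay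
as `f`. By `QS.coeff_eq_zero` (with `hasSum_qExpansion`) the coefficients `n < c` of
`qExpansion 1 F` vanish, so `ModularForm.sturm_bound_levelOne` (`PowerSeries.le_order`,
`PowerSeries.nat_le_order`) gives `F = 0`; `UpperHalfPlane.prod_eq_zero_iff` and
`SlashAction.slash_eq_zero_iff` give `f = 0`. -/
theorem sturm_decay {Γ : Subgroup SL(2, ℤ)} [Γ.FiniteIndex] {k : ℕ} (hf : IsCF Γ k f) {c : ℝ}
    (hc : (k : ℝ) * Γ.index / 12 < c)
    (hd : f =O[atImInfty] fun z => Real.exp (-2 * Real.pi * c * z.im)) : f = 0 := by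
  have h0 : ModularForm.norm 𝒮ℒ hf.mk' = 0 := by
    refine ModularForm.sturm_bound_levelOne ?_
    have e : ((k : ℤ) * (Nat.card (𝒮ℒ ⧸ (Γ : Subgroup (GL (Fin 2) ℝ)).subgroupOf 𝒮ℒ) : ℕ)).toNat =
        k * Γ.index := by
      rw [gsturm_card, ← Nat.cast_mul, Int.toNat_natCast]
    rw [e]
    refine lt_of_lt_of_le (b := ((k * Γ.index / 12 + 1 : ℕ) : ℕ∞)) ?_ ?_
    · exact_mod_cast Nat.lt_succ_self _
    · refine PowerSeries.nat_le_order _ _ fun n hn => ?_
      refine (gsturm_QS _).coeff_eq_zero ((gsturm_norm hf).trans hd) (lt_of_le_of_lt ?_ hc)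
      have h1 : n * 12 ≤ k * Γ.index := (Nat.le_div_iff_mul_le (by norm_num)).mp (by omega)
      rw [le_div_iff₀ (by norm_num)]
      exact_mod_cast h1
  exact (ModularForm.norm_eq_zero_iff 𝒮ℒ hf.mk').mp h0

/-- Sketch: `QS.decay` and `sturm_decay`. -/
theorem sturm_QS {Γ : Subgroup SL(2, ℤ)} [Γ.FiniteIndex] {k : ℕ} (hf : IsCF Γ k f) (ha : QS f a)
    {B : ℕ} (hB : k * Γ.index < 12 * B) (h0 : ∀ n < B, a n = 0) : f = 0 := by
  refine sturm_decay hf (c := B) ?_ (ha.decay h0)
  rw [div_lt_iff₀ (by norm_num), mul_comm (B : ℝ)]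
  exact_mod_cast hB

/-- Sketch: choose coefficients `a f` by `exists_QS (isCF_coe f)`; by `QS.unique` the map
`f ↦ (a f n)_{n < B}` is linear, and it is injective by `sturm_QS`. -/
theorem finite_cusp (N : ℕ) [NeZero N] (k : ℕ) :
    Module.Finite ℂ (CuspForm (Gamma0 N) (k : ℤ)) := by
  choose A hA using fun g : CuspForm (Gamma0 N) (k : ℤ) => exists_QS (isCF_coe g)
  let L : CuspForm (Gamma0 N) (k : ℤ) →ₗ[ℂ] (Fin (k * (Gamma0 N).index + 1) → ℂ) :=
    { toFun := fun g n => A g n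
      map_add' := fun g g' => by
        funext n
        have h := (hA (g + g')).unique ((hA g).add (hA g'))
        rw [h]
        rfl
      map_smul' := fun c g => by
        funext n
        have h := (hA (c • g)).unique ((hA g).smul c)
        rw [h]
        rfl }
  refine Module.Finite.of_injective L ?_
  rw [injective_iff_map_eq_zero]
  intro g hg
  have h : (⇑g : ℍ → ℂ) = 0 :=
    sturm_QS (isCF_coe g) (hA g) (B := k * (Gamma0 N).index + 1) (by omega)
      fun n hn => congrFun hg ⟨n, hn⟩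
  exact DFunLike.coe_injective h

/-- Sketch: `Subgroup.index_ker`, the range injects in `Matrix (Fin 2) (Fin 2) (ZMod L)`. -/
theorem index_Gamma_le (L : ℕ) [NeZero L] : (Gamma L).index ≤ L ^ 4 := by
  rw [Gamma, Subgroup.index_ker]
  have h : Nat.card (Matrix (Fin 2) (Fin 2) (ZMod L)) = L ^ 4 := by
    change Nat.card (Fin 2 → Fin 2 → ZMod L) = L ^ 4
    rw [Nat.card_fun, Nat.card_fun, Nat.card_zmod, Nat.card_eq_fintype_card, Fintype.card_fin,
      ← pow_mul]
  rw [← h]
  exact Nat.card_le_card_of_injective (fun x => x.1.1)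
    (Subtype.val_injective.comp Subtype.val_injective)

theorem index_Gamma0_le (N : ℕ) [NeZero N] : (Gamma0 N).index ≤ N ^ 4 :=
  (Subgroup.index_antitone (Gamma_le_Gamma0 N)).trans (index_Gamma_le N)

/-- Sketch: invariance under `-1`. -/
theorem cusp_odd (N : ℕ) [NeZero N] {k : ℤ} (hk : Odd k) (f : CuspForm (Gamma0 N) k) :
    f = 0 := by
  have h := (isCF_coe f).inv (-1) (by simp [Gamma0_mem])
  ext z
  have h1 := congrFun h z
  rw [sl_apply k f (by rw [Matrix.SpecialLinearGroup.det_coe]; exact one_pos), sm_SL,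
    ModularGroup.SL_neg_smul, one_smul, Matrix.SpecialLinearGroup.det_coe] at h1
  have h2 : -f z = f z := by simpa [hk.neg.neg_one_zpow] using h1
  change f z = 0
  linear_combination (-1 / 2 : ℂ) * h2

end Pool.Agent.Lib.MP_88d29b_nt.G
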