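import Pool.Agent.Lib.MP_88d29b_nt.GComm

/-!
Coset representatives and indices of the groups `Γ_0(N)`.
-/

set_option autoImplicit false

noncomputable section

namespace Pool.Agent.Lib.MP_88d29b_nt.G

open Finset CongruenceSubgroup
open scoped MatrixGroups

theorem g0cov_of_group {ι : Type*} {Γ Γ' : Subgroup SL(2, ℤ)} {δ : ι → Mat} (r : ι → SL(2, ℤ))
    (hr : ∀ i, r i ∈ Γ') (hδ : ∀ i, δ i = (r i : Mat))
    (hex : ∀ m ∈ Γ', ∃ j, m * (r j)⁻¹ ∈ Γ) (hinj : ∀ i j, r i * (r j)⁻¹ ∈ Γ → i = j) :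
    Cov Γ Γ' δ := by
  refine ⟨fun i => ?_, fun g hg i => ?_, fun i j t ht h => hinj i j ?_⟩
  · rw [hδ, (r i).det_coe]
    exact one_ne_zero
  · obtain ⟨j, hj⟩ := hex _ (Γ'.mul_mem (hr i) hg)
    refine ⟨j, _, hj, ?_⟩
    rw [hδ, hδ, ← Matrix.SpecialLinearGroup.coe_mul, ← Matrix.SpecialLinearGroup.coe_mul,
      inv_mul_cancel_right]
  · rw [hδ, hδ, ← Matrix.SpecialLinearGroup.coe_mul] at h
    rwa [Subtype.ext h, mul_inv_cancel_right]

lemma g0cov_mem0 {N : ℕ} {m : SL(2, ℤ)} : m ∈ Gamma0 N ↔ (N : ℤ) ∣ (m : Mat) 1 0 := by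
  rw [Gamma0_mem, ZMod.intCast_zmod_eq_zero_iff_dvd]

lemma g0cov_mem {N : ℕ} {m r : SL(2, ℤ)} : m * r⁻¹ ∈ Gamma0 N ↔
    (N : ℤ) ∣ (m : Mat) 1 0 * (r : Mat) 1 1 - (m : Mat) 1 1 * (r : Mat) 1 0 := by
  rw [g0cov_mem0, Matrix.SpecialLinearGroup.coe_mul, Matrix.SpecialLinearGroup.coe_inv,
    Matrix.adjugate_fin_two]
  simp [Matrix.mul_apply, Fin.sum_univ_two, sub_eq_add_neg]

lemma g0cov_solve {p : ℕ} (hp : p.Prime) (c : ℤ) {d : ℤ} (hd : ¬ (p : ℤ) ∣ d) :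
    ∃ x : Fin p, (p : ℤ) ∣ c - d * (x : ℕ) := by
  have := Fact.mk hp
  refine ⟨⟨((c : ZMod p) * (d : ZMod p)⁻¹).val, ZMod.val_lt _⟩, ?_⟩
  rw [← ZMod.intCast_zmod_eq_zero_iff_dvd] at hd ⊢
  push_cast
  rw [ZMod.natCast_zmod_val, mul_left_comm, mul_inv_cancel₀ hd, mul_one, sub_self]

lemma g0cov_fin {p : ℕ} {a b : Fin p} (h : (p : ℤ) ∣ ((a : ℕ) : ℤ) - (b : ℕ)) : a = b := by
  have := Int.eq_zero_of_abs_lt_dvd h (by
    have := a.2
    have := b.2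
    rw [abs_lt]
    constructor <;> omega)
  exact Fin.ext (by omega)

/-- Representatives of `Γ \ Γ'`. Sketch: `q ↦ (q.out)⁻¹` on `Γ' ⧸ Γ.subgroupOf Γ'`,
`Finite.equivFinOfCardEq`, `Subgroup.index_eq_card`. -/
theorem exists_cov_rel {Γ Γ' : Subgroup SL(2, ℤ)} [Γ.FiniteIndex] :
    ∃ r : Fin (Γ.relIndex Γ') → Γ', Cov Γ Γ' (fun i => ((r i : SL(2, ℤ)) : Mat)) := by
  have : Finite (Γ' ⧸ Γ.subgroupOf Γ') := Subgroup.finite_quotient_of_finiteIndex
  let e : (Γ' ⧸ Γ.subgroupOf Γ') ≃ Fin (Γ.relIndex Γ') := Finite.equivFinOfCardEq rfl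
  refine ⟨fun i => (e.symm i).out⁻¹, g0cov_of_group (fun i => ((e.symm i).out⁻¹ : Γ'))
    (fun i => Subtype.prop _) (fun _ => rfl) (fun m hm => ?_) fun i j h => ?_⟩
  · refine ⟨e ((⟨m, hm⟩ : Γ')⁻¹ : Γ'), ?_⟩
    obtain ⟨t, ht⟩ := QuotientGroup.mk_out_eq_mul (Γ.subgroupOf Γ') (⟨m, hm⟩ : Γ')⁻¹
    rw [Equiv.symm_apply_apply, ht]
    simpa using Subgroup.mem_subgroupOf.1 t.2
  · apply e.symm.injective
    rw [← (e.symm i).out_eq, ← (e.symm j).out_eq]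
    refine QuotientGroup.eq.2 (Subgroup.mem_subgroupOf.2 ?_)
    simpa using h

/-- Sketch: `i ↦ mk (r i)⁻¹` is a bijection onto `Γ' ⧸ Γ.subgroupOf Γ'`: injective by `Cov.inj`,
surjective by `Cov.ex` applied to `(r i₀)⁻¹ * g`. -/
theorem relIndex_of_cov {ι : Type*} [Fintype ι] [Nonempty ι] {Γ Γ' : Subgroup SL(2, ℤ)}
    {δ : ι → Mat} (hc : Cov Γ Γ' δ) (hr : ∀ i, ∃ r ∈ Γ', δ i = ((r : SL(2, ℤ)) : Mat)) :
    Γ.relIndex Γ' = Fintype.card ι := by
  choose r hr he using hr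
  rw [Subgroup.relIndex, Subgroup.index, ← Nat.card_eq_fintype_card]
  refine (Nat.card_eq_of_bijective
    (fun i => (((⟨r i, hr i⟩ : Γ')⁻¹ : Γ') : Γ' ⧸ Γ.subgroupOf Γ')) ⟨fun i j h => ?_, ?_⟩).symm
  · have h1 : r i * (r j)⁻¹ ∈ Γ := by
      simpa using Subgroup.mem_subgroupOf.1 (QuotientGroup.eq.1 h)
    refine hc.inj i j _ h1 ?_
    rw [he, he, ← Matrix.SpecialLinearGroup.coe_mul, inv_mul_cancel_right]
  · intro q
    obtain ⟨g, rfl⟩ := QuotientGroup.mk_surjective q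
    obtain ⟨i⟩ := ‹Nonempty ι›
    obtain ⟨j, t, ht, h⟩ := hc.ex _ (Γ'.mul_mem (Γ'.inv_mem (hr i)) (Γ'.inv_mem g.2)) i
    rw [he, he, ← Matrix.SpecialLinearGroup.coe_mul, ← Matrix.SpecialLinearGroup.coe_mul,
      mul_inv_cancel_left] at h
    have h1 : (g : SL(2, ℤ))⁻¹ = t * r j := Subtype.ext h
    refine ⟨j, QuotientGroup.eq.2 (Subgroup.mem_subgroupOf.2 ?_)⟩
    have h2 : r j * (g : SL(2, ℤ)) = t⁻¹ := by
      rw [← inv_inv (g : SL(2, ℤ)), h1, mul_inv_rev, mul_inv_cancel_left]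
    simpa [h2] using ht

/-- The matrices `(1 0; M a 1)`. -/
def lowRep (p M : ℕ) (a : Fin p) : Mat := !![1, 0; (M : ℤ) * (a : ℕ), 1]

/-- Representatives of `Γ_0(M p) \ Γ_0(M)` for `p ∤ M`. -/
def trRep (p M : ℕ) : Option (Fin p) → Mat
  | none => !![Nat.gcdA p M, -Nat.gcdB p M; (M : ℤ), (p : ℤ)]
  | some a => lowRep p M a

lemma Gamma0_le_of_dvd {N M : ℕ} (h : N ∣ M) : Gamma0 M ≤ Gamma0 N := by
  intro m hm
  exact g0cov_mem0.2 ((Int.natCast_dvd_natCast.2 h).trans (g0cov_mem0.1 hm))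

lemma lowRep_mem (p M : ℕ) (a : Fin p) : ∃ r ∈ Gamma0 M, lowRep p M a = ((r : SL(2, ℤ)) : Mat) := by
  refine ⟨⟨lowRep p M a, by simp [lowRep, Matrix.det_fin_two_of]⟩, g0cov_mem0.2 ?_, rfl⟩
  simp [lowRep]

/-- Sketch: `Nat.gcd_eq_gcd_ab`. -/
lemma trRep_mem {p M : ℕ} (hM : Nat.Coprime p M) (i : Option (Fin p)) :
    ∃ r ∈ Gamma0 M, trRep p M i = ((r : SL(2, ℤ)) : Mat) := by
  cases i with
  | some a => exact lowRep_mem p M a
  | none =>
    refine ⟨⟨trRep p M none, ?_⟩, g0cov_mem0.2 ?_, rfl⟩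
    · have := Nat.gcd_eq_gcd_ab p M
      rw [hM, Nat.cast_one] at this
      rw [trRep, Matrix.det_fin_two_of]
      linear_combination -this
    · simp [trRep]

/-- Sketch: for `m = (a b; M c, d) ∈ Γ_0(M)` the matrix `m (1 0; -M x 1)` has lower left entry
`M (c - d x)`; if `p ∤ d` choose `x` with `c = d x` in `ZMod p`. If `p ∣ d` the matrix
`m * (trRep none)⁻¹` has lower left entry `M (c p - d)`. -/
theorem cov_trRep {p M : ℕ} (hp : p.Prime) (hM : Nat.Coprime p M) :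
    Cov (Gamma0 (M * p)) (Gamma0 M) (trRep p M) := by
  choose r hr he using trRep_mem hM
  have h0 : (M : ℤ) ≠ 0 := by
    rintro h
    rw [Int.natCast_eq_zero] at h
    rw [h, Nat.coprime_zero_right] at hM
    exact hp.one_lt.ne' hM
  have hn0 : (r none : Mat) 1 0 = M := by rw [← he]; simp [trRep]
  have hn1 : (r none : Mat) 1 1 = p := by rw [← he]; simp [trRep]
  have hs0 : ∀ a, (r (some a) : Mat) 1 0 = M * (a : ℕ) := fun a => by
    rw [← he]; simp [trRep, lowRep]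
  have hs1 : ∀ a, (r (some a) : Mat) 1 1 = 1 := fun a => by rw [← he]; simp [trRep, lowRep]
  have hp1 : ¬ (p : ℤ) ∣ 1 := by exact_mod_cast hp.not_dvd_one
  refine g0cov_of_group r hr he (fun m hm => ?_) fun i j h => ?_
  · obtain ⟨c, hc⟩ := g0cov_mem0.1 hm
    by_cases hd : (p : ℤ) ∣ (m : Mat) 1 1
    · obtain ⟨e, he⟩ := hd
      refine ⟨none, g0cov_mem.2 ⟨c - e, ?_⟩⟩
      rw [hn0, hn1, hc, he]
      push_cast
      ring
    · obtain ⟨x, e, hx⟩ := g0cov_solve hp c hd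
      refine ⟨some x, g0cov_mem.2 ⟨e, ?_⟩⟩
      rw [hs0, hs1, hc]
      push_cast
      linear_combination (M : ℤ) * hx
  · obtain ⟨e, h⟩ := g0cov_mem.1 h
    push_cast at h
    rcases i with _ | a <;> rcases j with _ | b
    · rfl
    · rw [hn0, hn1, hs0, hs1] at h
      refine absurd ⟨e + (b : ℕ), mul_left_cancel₀ h0 ?_⟩ hp1
      linear_combination h
    · rw [hn0, hn1, hs0, hs1] at h
      refine absurd ⟨(a : ℕ) - e, mul_left_cancel₀ h0 ?_⟩ hp1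
      linear_combination -h
    · rw [hs0, hs1, hs0, hs1] at h
      refine congrArg some (g0cov_fin ⟨e, mul_left_cancel₀ h0 ?_⟩)
      linear_combination h

/-- Sketch: as before; now `p ∤ d` always. -/
theorem cov_lowRep {p M : ℕ} (hp : p.Prime) (hM : p ∣ M) (h0 : M ≠ 0) :
    Cov (Gamma0 (M * p)) (Gamma0 M) (lowRep p M) := by
  choose r hr he using lowRep_mem p M
  have h0' : (M : ℤ) ≠ 0 := by exact_mod_cast h0
  have hs0 : ∀ a, (r a : Mat) 1 0 = M * (a : ℕ) := fun a => by rw [← he]; simp [lowRep]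
  have hs1 : ∀ a, (r a : Mat) 1 1 = 1 := fun a => by rw [← he]; simp [lowRep]
  have hp1 : ¬ (p : ℤ) ∣ 1 := by exact_mod_cast hp.not_dvd_one
  refine g0cov_of_group r hr he (fun m hm => ?_) fun a b h => ?_
  · obtain ⟨c, hc⟩ := g0cov_mem0.1 hm
    have hd : ¬ (p : ℤ) ∣ (m : Mat) 1 1 := by
      intro hd
      apply hp1
      rw [← m.det_coe, Matrix.det_fin_two, hc]
      exact dvd_sub (hd.mul_left _)
        (((Int.natCast_dvd_natCast.2 hM).mul_right _).mul_left _)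
    obtain ⟨x, e, hx⟩ := g0cov_solve hp c hd
    refine ⟨x, g0cov_mem.2 ⟨e, ?_⟩⟩
    rw [hs0, hs1, hc]
    push_cast
    linear_combination (M : ℤ) * hx
  · obtain ⟨e, h⟩ := g0cov_mem.1 h
    push_cast at h
    rw [hs0, hs1, hs0, hs1] at h
    refine g0cov_fin ⟨e, mul_left_cancel₀ h0' ?_⟩
    linear_combination h

/-- Sketch: `Subgroup.relIndex_mul_index`, `relIndex_of_cov`. -/
theorem index_mul_coprime {p M : ℕ} (hp : p.Prime) (hM : Nat.Coprime p M) :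
    (Gamma0 (M * p)).index = (p + 1) * (Gamma0 M).index := by
  rw [← Subgroup.relIndex_mul_index (Gamma0_le_of_dvd (dvd_mul_right M p)),
    relIndex_of_cov (cov_trRep hp hM) (trRep_mem hM), Fintype.card_option, Fintype.card_fin]

theorem index_mul_dvd {p M : ℕ} (hp : p.Prime) (hM : p ∣ M) (h0 : M ≠ 0) :
    (Gamma0 (M * p)).index = p * (Gamma0 M).index := by
  have : Nonempty (Fin p) := ⟨⟨0, hp.pos⟩⟩
  rw [← Subgroup.relIndex_mul_index (Gamma0_le_of_dvd (dvd_mul_right M p)),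
    relIndex_of_cov (cov_lowRep hp hM h0) (lowRep_mem p M), Fintype.card_fin]

lemma g0cov_index_one : (Gamma0 1).index = 1 := by
  rw [Subgroup.index_eq_one, eq_top_iff]
  exact fun m _ => g0cov_mem0.2 (by simp)

theorem index_four : (Gamma0 4).index = 6 := by
  have h1 := index_mul_coprime Nat.prime_two (Nat.coprime_one_right 2)
  have h2 := index_mul_dvd Nat.prime_two (dvd_refl 2) two_ne_zero
  rw [g0cov_index_one] at h1
  rw [show 1 * 2 = 2 from rfl] at h1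
  rw [h1] at h2
  exact h2

theorem index_nine : (Gamma0 9).index = 12 := by
  have h1 := index_mul_coprime Nat.prime_three (Nat.coprime_one_right 3)
  have h2 := index_mul_dvd Nat.prime_three (dvd_refl 3) three_ne_zero
  rw [g0cov_index_one] at h1
  rw [show 1 * 3 = 3 from rfl] at h1
  rw [h1] at h2
  exact h2

end Pool.Agent.Lib.MP_88d29b_nt.G
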