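import Pool.Agent.Lib.MP_88d29b_nt.Rf

set_option autoImplicit false

noncomputable section

namespace Pool.Agent.Lib.MP_88d29b_nt

open Finset

private lemma boundD_rf_half (t : ℕ) : nrm (rf ((t : ℤ) + 1) t) = nrm 2 ^ t := by
  induction t with
  | zero => simp [rf_zero, nrm_one]
  | succ t ih =>
    have h1 := rf_add ((t : ℤ) + 1) 1 (t + 1)
    have h2 : rf ((t : ℤ) + 1) (1 + (t + 1)) =
        rf ((t : ℤ) + 1) t * (2 * (t : ℚ) + 1) * (2 * ((t : ℚ) + 1)) := by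
      rw [show 1 + (t + 1) = t + 1 + 1 by ring, rf_succ, rf_succ]
      push_cast
      ring
    have h3 : rf ((t : ℤ) + 1) 1 = (t : ℚ) + 1 := by
      rw [show (1 : ℕ) = 0 + 1 from rfl, rf_succ, rf_zero]
      push_cast
      ring
    have h4 : ((t : ℚ) + 1) ≠ 0 := by positivity
    have h5 : rf (((t + 1 : ℕ) : ℤ) + 1) (t + 1) =
        rf ((t : ℤ) + 1) t * (2 * (t : ℚ) + 1) * 2 := by
      rw [h2, h3] at h1
      have h6 : (((t + 1 : ℕ) : ℤ) + 1) = (t : ℤ) + 1 + ((1 : ℕ) : ℤ) := by push_cast; ring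
      rw [h6]
      apply mul_left_cancel₀ h4
      rw [← h1]
      ring
    have h7 : nrm (2 * (t : ℚ) + 1) = 1 := by
      have := nrm_two_mul_add_one (t : ℤ)
      simpa using this
    rw [h5, nrm_mul, nrm_mul, ih, h7, pow_succ]
    ring

private lemma boundD_odd (s l : ℕ) : nrm (2 * (s : ℚ) - 2 * l - 1) = 1 := by
  have := nrm_two_mul_add_one ((s : ℤ) - l - 1)
  rw [← this]
  congr 1
  push_cast
  ring

private lemma boundD_mR {s t : ℕ} (hs : 3 * (t + 1) + 3 ≤ s) :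
    nrm (mR s (t + 1) (2 * (t + 1))) =
      nrm 2 * nrm (rf (2 * (s : ℤ) - 4 * (t + 1) + 1) t) / nrm (rf ((s : ℤ) - 3 * (t + 1) + 1) t) := by
  have hI : Ioo (t + 1) (2 * (t + 1)) = Ico (t + 2) (2 * t + 2) := by
    ext l
    simp only [mem_Ioo, mem_Ico]
    omega
  have hle : t + 2 ≤ 2 * t + 2 := by omega
  have hsub : 2 * t + 2 - (t + 2) = t := by omega
  have hA : ∏ l ∈ Ico (t + 2) (2 * t + 2), nrm ((l : ℚ) - 1) = nrm 2 ^ t := by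
    rw [← nrm_prod, ← boundD_rf_half]
    have := prod_Ico_add (-1) hle
    rw [hsub] at this
    congr 1
    rw [show ((t : ℤ) + 1) = -1 + ((t + 2 : ℕ) : ℤ) by push_cast; ring, ← this]
    refine prod_congr rfl fun l _ => ?_
    push_cast
    ring
  have hB : ∏ l ∈ Ico (t + 2) (2 * t + 2), nrm (2 * ((t + 1 : ℕ) : ℚ) - l) = nrm (rf 1 t) := by
    rw [← nrm_prod]
    have := prod_Ico_sub (2 * (t : ℤ) + 2) hle
    rw [hsub] at this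
    congr 1
    rw [show (1 : ℤ) = 2 * (t : ℤ) + 2 - ((2 * t + 2 : ℕ) : ℤ) + 1 by push_cast; ring, ← this]
    refine prod_congr rfl fun l _ => ?_
    push_cast
    ring
  have hC : ∏ l ∈ Ico (t + 2) (2 * t + 2), nrm (2 * (s : ℚ) - 2 * ((t + 1 : ℕ) : ℚ) - l) =
      nrm (rf (2 * (s : ℤ) - 4 * (t + 1) + 1) t) := by
    rw [← nrm_prod]
    have := prod_Ico_sub (2 * (s : ℤ) - 2 * t - 2) hle
    rw [hsub] at this
    congr 1
    rw [show 2 * (s : ℤ) - 4 * (t + 1) + 1 =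
      2 * (s : ℤ) - 2 * t - 2 - ((2 * t + 2 : ℕ) : ℤ) + 1 by push_cast; ring, ← this]
    refine prod_congr rfl fun l _ => ?_
    push_cast
    ring
  have hD : ∏ l ∈ Ico (t + 2) (2 * t + 2), nrm (((t + 1 : ℕ) : ℚ) - l) = nrm (rf 1 t) := by
    have h1 : ∀ l : ℕ, nrm (((t + 1 : ℕ) : ℚ) - l) = nrm (((-(t : ℤ) - 1 : ℤ) : ℚ) + l) := by
      intro l
      rw [← nrm_neg]
      congr 1
      push_cast
      ring
    simp_rw [h1]
    rw [← nrm_prod, prod_Ico_add _ hle, hsub]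
    congr 2
    push_cast
    ring
  have hE : ∏ l ∈ Ico (t + 2) (2 * t + 2), nrm ((s : ℚ) - l - ((t + 1 : ℕ) : ℚ)) =
      nrm (rf ((s : ℤ) - 3 * (t + 1) + 1) t) := by
    rw [← nrm_prod]
    have := prod_Ico_sub ((s : ℤ) - t - 1) hle
    rw [hsub] at this
    congr 1
    rw [show (s : ℤ) - 3 * (t + 1) + 1 =
      (s : ℤ) - t - 1 - ((2 * t + 2 : ℕ) : ℤ) + 1 by push_cast; ring, ← this]
    refine prod_congr rfl fun l _ => ?_
    push_cast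
    ring
  have hF : ∏ _l ∈ Ico (t + 2) (2 * t + 2), nrm 2 = nrm 2 ^ t := by
    rw [prod_const, Nat.card_Ico, hsub]
  have hpre : nrm (((((2 * (t + 1) : ℕ) : ℚ) - 1) * ((2 * (t + 1) : ℕ) : ℚ) *
      (2 * s - 3 * ((2 * (t + 1) : ℕ) : ℚ))) /
      (2 * (2 * s - 2 * ((t + 1 : ℕ) : ℚ) - 1) * (((t + 1 : ℕ) : ℚ) - ((2 * (t + 1) : ℕ) : ℚ)) *
        (s - ((2 * (t + 1) : ℕ) : ℚ) - ((t + 1 : ℕ) : ℚ)))) = nrm 2 := by
    have h1 : (3 * ((t : ℚ) + 1) + 3) ≤ s := by exact_mod_cast hs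
    have h0 : (0 : ℚ) ≤ t := Nat.cast_nonneg t
    have h2 : (s : ℚ) - 3 * (t + 1) ≠ 0 := by intro h; linarith
    have h3 : (2 * (s : ℚ) - 2 * ((t + 1 : ℕ) : ℚ) - 1) ≠ 0 := by
      push_cast; intro h; linarith
    have h4 : ((t : ℚ) + 1) ≠ 0 := by positivity
    have h5 : (((((2 * (t + 1) : ℕ) : ℚ) - 1) * ((2 * (t + 1) : ℕ) : ℚ) *
      (2 * s - 3 * ((2 * (t + 1) : ℕ) : ℚ))) /
      (2 * (2 * s - 2 * ((t + 1 : ℕ) : ℚ) - 1) * (((t + 1 : ℕ) : ℚ) - ((2 * (t + 1) : ℕ) : ℚ)) *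
        (s - ((2 * (t + 1) : ℕ) : ℚ) - ((t + 1 : ℕ) : ℚ)))) =
        -(2 * (2 * (t : ℚ) + 1) / (2 * s - 2 * ((t + 1 : ℕ) : ℚ) - 1)) := by
      have e1 : (((t + 1 : ℕ) : ℚ) - ((2 * (t + 1) : ℕ) : ℚ)) = -((t : ℚ) + 1) := by
        push_cast; ring
      have e2 : ((s : ℚ) - ((2 * (t + 1) : ℕ) : ℚ) - ((t + 1 : ℕ) : ℚ)) = s - 3 * (t + 1) := by
        push_cast; ring
      have e3 : (2 * (s : ℚ) - 3 * ((2 * (t + 1) : ℕ) : ℚ)) = 2 * (s - 3 * (t + 1)) := by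
        push_cast; ring
      have e4 : ((2 * (t + 1) : ℕ) : ℚ) = 2 * ((t : ℚ) + 1) := by push_cast; ring
      rw [e1, e2, e3, e4]
      generalize (2 * (s : ℚ) - 2 * ((t + 1 : ℕ) : ℚ) - 1) = A at h3 ⊢
      generalize ((s : ℚ) - 3 * (t + 1)) = B at h2 ⊢
      field_simp
      ring
    have h7 : nrm (2 * (t : ℚ) + 1) = 1 := by
      have := nrm_two_mul_add_one (t : ℤ)
      simpa using this
    rw [h5, nrm_neg, nrm_div, nrm_mul, h7, boundD_odd]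
    simp
  have hne1 : ¬ (2 * (t + 1) < t + 1) := by omega
  have hne2 : ¬ (2 * (t + 1) = t + 1) := by omega
  have hf : nrm (rf 1 t) ≠ 0 := (nrm_pos (rf_ne_zero one_pos t)).ne'
  have h2 : nrm 2 ^ t ≠ 0 := pow_ne_zero _ (nrm_pos two_ne_zero).ne'
  unfold mR
  rw [if_neg hne1, if_neg hne2, nrm_mul, hpre, hI, nrm_prod]
  simp_rw [nrm_div, nrm_mul, boundD_odd, mul_one]
  rw [prod_div_distrib, prod_mul_distrib, prod_mul_distrib, prod_mul_distrib, prod_mul_distrib,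
    hA, hB, hC, hD, hE, hF]
  field_simp

/-- `mR s j (2j) = ± 2 (s-3j) (2j)! rf (2s-4j+1) (j-1) / (2 ^ j j! odd rf (s-3j) j)`, the number
`(2j)! / (2 ^ j j!)` is a product of odd numbers and `rf (s-3j) j = (s-3j) rf (s-3j+1) (j-1)`. -/
theorem nrm_piv {s j : ℕ} (hj : 1 ≤ j) (hs : 3 * j + 3 ≤ s) :
    piv s j ≠ 0 ∧ nrm (piv s j) =
      nrm (rf ((s : ℤ) - 3 * j + 1) (j - 1)) / nrm (rf (2 * (s : ℤ) - 4 * j + 1) (j - 1)) := by
  obtain ⟨t, rfl⟩ : ∃ t, j = t + 1 := ⟨j - 1, by omega⟩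
  have h := boundD_mR hs
  have ha : (0 : ℤ) < (s : ℤ) - 3 * (t + 1) + 1 := by omega
  have hb : (0 : ℤ) < 2 * (s : ℤ) - 4 * (t + 1) + 1 := by omega
  have hX := nrm_pos (rf_ne_zero ha t)
  have hY := nrm_pos (rf_ne_zero hb t)
  have h2 : 0 < nrm 2 := nrm_pos two_ne_zero
  have hn : nrm (piv s (t + 1)) = nrm (rf ((s : ℤ) - 3 * (t + 1) + 1) t) /
      nrm (rf (2 * (s : ℤ) - 4 * (t + 1) + 1) t) := by
    rw [piv, nrm_div, h]
    field_simp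
  refine ⟨?_, ?_⟩
  · intro h0
    rw [h0, nrm_zero] at hn
    exact (div_pos hX hY).ne hn
  · rw [hn]
    simp

theorem piv_ne_zero {s j : ℕ} (hj : 1 ≤ j) (hs : 3 * j + 3 ≤ s) : piv s j ≠ 0 :=
  (nrm_piv hj hs).1

/-- `bd_rf`, `bd_rf_inv`, `small_Lam`, `lg_le_Lam`. -/
theorem bd_piv {s j : ℕ} (hj : 1 ≤ j) (hs : 3 * j + 3 ≤ s) :
    Bd (piv s j) (2 * Lam s) ∧ Bd ((piv s j)⁻¹) (2 * Lam s) := by
  obtain ⟨-, h⟩ := nrm_piv hj hs
  have ha : (0 : ℤ) < (s : ℤ) - 3 * j + 1 := by omega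
  have hb : (0 : ℤ) < 2 * (s : ℤ) - 4 * j + 1 := by omega
  have hL : 0 ≤ Lam s := le_trans zero_le_one (one_le_Lam (by omega))
  have hlg : lg (j - 1) ≤ Lam s := lg_le_Lam (by omega)
  constructor
  · have h1 := (bd_rf ((s : ℤ) - 3 * j + 1) (j - 1)).mul
      (bd_rf_inv (d := j - 1) hL hb (small_Lam hb (by omega)))
    refine (h1.mono (by linarith)).congr_nrm ?_
    rw [h, nrm_mul, nrm_inv, div_eq_mul_inv]
  · have h1 := (bd_rf (2 * (s : ℤ) - 4 * j + 1) (j - 1)).mul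
      (bd_rf_inv (d := j - 1) hL ha (small_Lam ha (by omega)))
    refine (h1.mono (by linarith)).congr_nrm ?_
    rw [nrm_inv, h, nrm_mul, nrm_inv, inv_div, div_eq_mul_inv]

/-- With `δ = j' - j`, by `rf_add` used twice in each line:
`rf (s-3j'+1) (j'-1) * rf (s-2j') (2δ) = rf (s-3j'+1) (3δ) * rf (s-3j+1) (j-1)` and
`rf (2s-4j'+1) (j'-1) * rf (2s-3j') (3δ) = rf (2s-4j'+1) (4δ) * rf (2s-4j+1) (j-1)`. So the
quotient has the norm of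
`rf (s-3j'+1) (3δ) * rf (2s-3j') (3δ) / (rf (s-2j') (2δ) * rf (2s-4j'+1) (4δ))`. -/
theorem bd_piv_ratio {s j j' : ℕ} {mu1 mu2 : ℝ} (hj : 1 ≤ j) (hjj : j ≤ j')
    (hs : 3 * j' + 3 ≤ s) (h1 : 0 ≤ mu1) (h2 : 0 ≤ mu2)
    (hs1 : Sml ((s : ℤ) - 2 * j') ((s : ℤ) - 2 * j - 1) mu1)
    (hs2 : Sml (2 * (s : ℤ) - 4 * j' + 1) (2 * (s : ℤ) - 4 * j) mu2) :
    Bd (piv s j' / piv s j) (2 * lg (3 * (j' - j)) + mu1 + mu2) := by
  obtain ⟨d, rfl⟩ : ∃ d, j' = j + d := ⟨j' - j, by omega⟩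
  obtain ⟨t, rfl⟩ : ∃ t, j = t + 1 := ⟨j - 1, by omega⟩
  obtain ⟨-, hp⟩ := nrm_piv hj (s := s) (by omega)
  obtain ⟨-, hp'⟩ := nrm_piv (j := t + 1 + d) (by omega) hs
  have e0 : t + 1 + d - (t + 1) = d := by omega
  have e1 : t + 1 + d - 1 = t + d := by omega
  have e2 : t + 1 - 1 = t := by omega
  rw [e1] at hp'
  rw [e2] at hp
  rw [e0]
  set a : ℤ := (s : ℤ) - 3 * ((t + 1 + d : ℕ) : ℤ) + 1 with ha
  set b : ℤ := 2 * (s : ℤ) - 4 * ((t + 1 + d : ℕ) : ℤ) + 1 with hb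
  set c : ℤ := (s : ℤ) - 2 * ((t + 1 + d : ℕ) : ℤ) with hc
  have ha0 : 0 < a := by rw [ha]; push_cast; omega
  have hb0 : 0 < b := by rw [hb]; push_cast; omega
  have hc0 : 0 < c := by rw [hc]; push_cast; omega
  have hI1 : rf a (t + d) * rf c (2 * d) =
      rf a (3 * d) * rf ((s : ℤ) - 3 * ((t + 1 : ℕ) : ℤ) + 1) t := by
    have u1 := rf_add a (t + d) (2 * d)
    have u2 := rf_add a (3 * d) t
    rw [show a + ((t + d : ℕ) : ℤ) = c by rw [ha, hc]; push_cast; ring] at u1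
    rw [show a + ((3 * d : ℕ) : ℤ) = (s : ℤ) - 3 * ((t + 1 : ℕ) : ℤ) + 1 by
      rw [ha]; push_cast; ring] at u2
    rw [← u1, ← u2]
    congr 1
    ring
  have hI2 : rf b (t + d) * rf (b + ((t + d : ℕ) : ℤ)) (3 * d) =
      rf b (4 * d) * rf (2 * (s : ℤ) - 4 * ((t + 1 : ℕ) : ℤ) + 1) t := by
    have u1 := rf_add b (t + d) (3 * d)
    have u2 := rf_add b (4 * d) t
    rw [show b + ((4 * d : ℕ) : ℤ) = 2 * (s : ℤ) - 4 * ((t + 1 : ℕ) : ℤ) + 1 by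
      rw [hb]; push_cast; ring] at u2
    rw [← u1, ← u2]
    congr 1
    ring
  have k1 := bd_rf a (3 * d)
  have k2 := bd_rf (b + ((t + d : ℕ) : ℤ)) (3 * d)
  have k3 := bd_rf_inv (d := 2 * d) h1 hc0 (by
    rw [show c + ((2 * d : ℕ) : ℤ) - 1 = (s : ℤ) - 2 * ((t + 1 : ℕ) : ℤ) - 1 by
      rw [hc]; push_cast; ring]
    exact hs1)
  have k4 := bd_rf_inv (d := 4 * d) h2 hb0 (by
    rw [show b + ((4 * d : ℕ) : ℤ) - 1 = 2 * (s : ℤ) - 4 * ((t + 1 : ℕ) : ℤ) by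
      rw [hb]; push_cast; ring]
    exact hs2)
  have k5 := ((k1.mul k2).mul k3).mul k4
  refine (k5.mono (by push_cast; linarith)).congr_nrm ?_
  have n1 := congrArg nrm hI1
  have n2 := congrArg nrm hI2
  rw [nrm_mul, nrm_mul] at n1 n2
  have p1 := nrm_pos (rf_ne_zero hc0 (2 * d))
  have p2 := nrm_pos (rf_ne_zero hb0 (4 * d))
  have p3 := nrm_pos (rf_ne_zero hb0 (t + d))
  have p4 := nrm_pos (rf_ne_zero (a := (s : ℤ) - 3 * ((t + 1 : ℕ) : ℤ) + 1)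
    (by push_cast; omega) t)
  have p5 := nrm_pos (rf_ne_zero (a := 2 * (s : ℤ) - 4 * ((t + 1 : ℕ) : ℤ) + 1)
    (by push_cast; omega) t)
  rw [nrm_div, hp, hp', nrm_mul, nrm_mul, nrm_mul, nrm_inv, nrm_inv]
  have q1 : nrm (rf a (t + d)) = nrm (rf a (3 * d)) *
      nrm (rf ((s : ℤ) - 3 * ((t + 1 : ℕ) : ℤ) + 1) t) / nrm (rf c (2 * d)) := by
    rw [← n1]; field_simp
  have q2 : nrm (rf (2 * (s : ℤ) - 4 * ((t + 1 : ℕ) : ℤ) + 1) t) =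
      nrm (rf b (t + d)) * nrm (rf (b + ((t + d : ℕ) : ℤ)) (3 * d)) / nrm (rf b (4 * d)) := by
    rw [n2]; field_simp
  rw [q1, q2]
  field_simp

end Pool.Agent.Lib.MP_88d29b_nt
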