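import Pool.Agent.Lib.MP_88d29b_nt.Rf

set_option autoImplicit false

noncomputable section

namespace Pool.Agent.Lib.MP_88d29b_nt

open Finset

private lemma boundl_aux (S : Finset ℕ) (A B C O F G : ℕ → ℚ) (hO : ∀ l ∈ S, nrm (O l) = 1)
    {a b c f g : ℝ} (hA : Bd (∏ l ∈ S, A l) a) (hB : Bd (∏ l ∈ S, B l) b)
    (hC : Bd (∏ l ∈ S, C l) c) (hF : Bd ((∏ l ∈ S, F l)⁻¹) f) (hG : Bd ((∏ l ∈ S, G l)⁻¹) g) :
    Bd (∏ l ∈ S, (A l * B l * C l) / (2 * O l * F l * G l)) (a + b + c + S.card + f + g) := by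
  have hO' : Bd ((∏ l ∈ S, O l)⁻¹) 0 := by
    unfold Bd
    rw [nrm_inv, nrm_prod, prod_congr rfl hO]
    simp
  have h := ((((((hA.mul hB).mul hC).mul (bd_two_pow_inv S.card)).mul hO').mul hF).mul hG)
  have e : ∏ l ∈ S, (A l * B l * C l) / (2 * O l * F l * G l) =
      (∏ l ∈ S, A l) * (∏ l ∈ S, B l) * (∏ l ∈ S, C l) * (2 ^ S.card)⁻¹ * (∏ l ∈ S, O l)⁻¹ *
        (∏ l ∈ S, F l)⁻¹ * (∏ l ∈ S, G l)⁻¹ := by
    rw [prod_div_distrib, prod_mul_distrib, prod_mul_distrib, prod_mul_distrib, prod_mul_distrib,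
      prod_mul_distrib, prod_const, div_eq_mul_inv, mul_inv, mul_inv, mul_inv]
    ring
  rw [e]
  exact h.mono (le_of_eq (by ring))


/-- With `δ = m - j`: `mL s m j = rf (s-m) δ * rf (s-j) δ * rf (s-m-2j+1) δ /
(2 ^ δ * odd * δ! * rf (s-m-j) δ)`; use `prod_div_distrib`, `prod_mul_distrib`, `prod_Ico_add`,
`prod_Ico_sub`, `bd_rf`, `bd_rf_inv`, `bd_fact_inv`, `bd_two_pow_inv`; the product of the odd
numbers `2 l + 1` has norm one. -/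
theorem bd_mL {s m j : ℕ} {mu : ℝ} (hj : 1 ≤ j) (hjm : j ≤ m) (hm : 3 * m + 3 ≤ s) (hmu : 0 ≤ mu)
    (h : Sml ((s : ℤ) - m - j) ((s : ℤ) - 2 * j - 1) mu) :
    Bd (mL s m j) (mu + 3 * lg (m - j)) := by
  have hA : Bd (∏ l ∈ Ico j m, ((s : ℚ) - l - 1)) (-((m - j : ℕ) : ℝ) + lg (m - j)) := by
    have e : ∏ l ∈ Ico j m, ((s : ℚ) - l - 1) = ∏ l ∈ Ico j m, ((((s : ℤ) - 1 : ℤ) : ℚ) - l) :=
      prod_congr rfl fun l _ => by push_cast; ring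
    rw [e, prod_Ico_sub _ hjm]
    exact bd_rf _ _
  have hB : Bd (∏ l ∈ Ico j m, ((s : ℚ) + l - 2 * j)) (-((m - j : ℕ) : ℝ) + lg (m - j)) := by
    have e : ∏ l ∈ Ico j m, ((s : ℚ) + l - 2 * j) =
        ∏ l ∈ Ico j m, ((((s : ℤ) - 2 * j : ℤ) : ℚ) + l) :=
      prod_congr rfl fun l _ => by push_cast; ring
    rw [e, prod_Ico_add _ hjm]
    exact bd_rf _ _
  have hC : Bd (∏ l ∈ Ico j m, ((s : ℚ) - l - 2 * j)) (-((m - j : ℕ) : ℝ) + lg (m - j)) := by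
    have e : ∏ l ∈ Ico j m, ((s : ℚ) - l - 2 * j) =
        ∏ l ∈ Ico j m, ((((s : ℤ) - 2 * j : ℤ) : ℚ) - l) :=
      prod_congr rfl fun l _ => by push_cast; ring
    rw [e, prod_Ico_sub _ hjm]
    exact bd_rf _ _
  have hF : Bd ((∏ l ∈ Ico j m, ((l : ℚ) + 1 - j))⁻¹) ((m - j : ℕ) : ℝ) := by
    have e : ∏ l ∈ Ico j m, ((l : ℚ) + 1 - j) =
        ∏ l ∈ Ico j m, ((((1 : ℤ) - j : ℤ) : ℚ) + l) :=
      prod_congr rfl fun l _ => by push_cast; ring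
    rw [e, prod_Ico_add _ hjm, sub_add_cancel, rf_one]
    exact bd_fact_inv _
  have hG : Bd ((∏ l ∈ Ico j m, ((s : ℚ) - l - 1 - j))⁻¹) (((m - j : ℕ) : ℝ) + mu) := by
    have e : ∏ l ∈ Ico j m, ((s : ℚ) - l - 1 - j) =
        ∏ l ∈ Ico j m, ((((s : ℤ) - 1 - j : ℤ) : ℚ) - l) :=
      prod_congr rfl fun l _ => by push_cast; ring
    rw [e, prod_Ico_sub _ hjm]
    refine bd_rf_inv hmu (by omega) fun x hx1 hx2 => h x (by omega) ?_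
    rw [Nat.cast_sub hjm] at hx2
    omega
  have hO : ∀ l ∈ Ico j m, nrm (2 * (l : ℚ) + 1) = 1 := fun l _ => by
    simpa using nrm_two_mul_add_one (l : ℤ)
  have key := boundl_aux (Ico j m) _ _ _ _ _ _ hO hA hB hC hF hG
  rw [mL, if_pos hjm]
  refine key.mono (le_of_eq ?_)
  rw [Nat.card_Ico]
  ring

/-- With `δ = j - i`: `mE s i j = rf i δ * rf j δ * rf (2s-3j) δ /
(2 ^ δ * odd * δ! * rf (s-2j+1) δ)`. -/
theorem bd_mE {s i j : ℕ} {mu : ℝ} (hi : 1 ≤ i) (hij : i ≤ j) (hj : 3 * j + 3 ≤ s) (hmu : 0 ≤ mu)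
    (h : Sml ((s : ℤ) - 2 * j + 1) ((s : ℤ) - j - i) mu) :
    Bd (mE s i j) (mu + 3 * lg (j - i)) := by
  have hij' : i + 1 ≤ j + 1 := by omega
  have hd : j + 1 - (i + 1) = j - i := by omega
  have hS : Ioc i j = Ico (i + 1) (j + 1) := by
    ext l
    simp only [mem_Ioc, mem_Ico]
    omega
  have hA : Bd (∏ l ∈ Ico (i + 1) (j + 1), ((l : ℚ) - 1))
      (-((j - i : ℕ) : ℝ) + lg (j - i)) := by
    have e : ∏ l ∈ Ico (i + 1) (j + 1), ((l : ℚ) - 1) =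
        ∏ l ∈ Ico (i + 1) (j + 1), ((((-1 : ℤ) : ℤ) : ℚ) + l) :=
      prod_congr rfl fun l _ => by push_cast; ring
    rw [e, prod_Ico_add _ hij', hd]
    exact bd_rf _ _
  have hB : Bd (∏ l ∈ Ico (i + 1) (j + 1), (2 * (j : ℚ) - l))
      (-((j - i : ℕ) : ℝ) + lg (j - i)) := by
    have e : ∏ l ∈ Ico (i + 1) (j + 1), (2 * (j : ℚ) - l) =
        ∏ l ∈ Ico (i + 1) (j + 1), ((((2 : ℤ) * j : ℤ) : ℚ) - l) :=
      prod_congr rfl fun l _ => by push_cast; ring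
    rw [e, prod_Ico_sub _ hij', hd]
    exact bd_rf _ _
  have hC : Bd (∏ l ∈ Ico (i + 1) (j + 1), (2 * (s : ℚ) - 2 * j - l))
      (-((j - i : ℕ) : ℝ) + lg (j - i)) := by
    have e : ∏ l ∈ Ico (i + 1) (j + 1), (2 * (s : ℚ) - 2 * j - l) =
        ∏ l ∈ Ico (i + 1) (j + 1), ((((2 : ℤ) * s - 2 * j : ℤ) : ℚ) - l) :=
      prod_congr rfl fun l _ => by push_cast; ring
    rw [e, prod_Ico_sub _ hij', hd]
    exact bd_rf _ _
  have hF : Bd ((∏ l ∈ Ico (i + 1) (j + 1), ((j : ℚ) - l + 1))⁻¹) ((j - i : ℕ) : ℝ) := by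
    have e : ∏ l ∈ Ico (i + 1) (j + 1), ((j : ℚ) - l + 1) =
        ∏ l ∈ Ico (i + 1) (j + 1), (((((j + 1 : ℕ) : ℤ) : ℤ) : ℚ) - l) :=
      prod_congr rfl fun l _ => by push_cast; ring
    rw [e, prod_Ico_sub _ hij', hd, sub_self, zero_add, rf_one]
    exact bd_fact_inv _
  have hG : Bd ((∏ l ∈ Ico (i + 1) (j + 1), ((s : ℚ) - j - l + 1))⁻¹)
      (((j - i : ℕ) : ℝ) + mu) := by
    have e : ∏ l ∈ Ico (i + 1) (j + 1), ((s : ℚ) - j - l + 1) =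
        ∏ l ∈ Ico (i + 1) (j + 1), ((((s : ℤ) - j + 1 : ℤ) : ℚ) - l) :=
      prod_congr rfl fun l _ => by push_cast; ring
    rw [e, prod_Ico_sub _ hij', hd]
    refine bd_rf_inv hmu (by omega) fun x hx1 hx2 => h x (by omega) ?_
    rw [Nat.cast_sub hij] at hx2
    omega
  have hO : ∀ l ∈ Ico (i + 1) (j + 1), nrm (2 * (s : ℚ) - 2 * l + 1) = 1 := fun l _ => by
    have h1 := nrm_two_mul_add_one ((s : ℤ) - l)
    push_cast at h1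
    rw [← h1]
    congr 1
    ring
  have key := boundl_aux (Ico (i + 1) (j + 1)) _ _ _ _ _ _ hO hA hB hC hF hG
  rw [mE, if_pos hij, hS]
  refine key.mono (le_of_eq ?_)
  rw [Nat.card_Ico, hd]
  ring

end Pool.Agent.Lib.MP_88d29b_nt
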