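import Pool.Agent.Lib.MP_88d29b_nt.Rf

set_option autoImplicit false

noncomputable section

namespace Pool.Agent.Lib.MP_88d29b_nt

open Finset

private lemma boundr_odd_inv (m : ℤ) : Bd ((2 * (m : ℚ) + 1)⁻¹) 0 := by
  unfold Bd
  rw [nrm_inv, nrm_two_mul_add_one]
  simp

private lemma boundr_prod_odd_inv (S : Finset ℕ) (f : ℕ → ℤ) :
    Bd ((∏ l ∈ S, (2 * (f l : ℚ) + 1))⁻¹) 0 := by
  unfold Bd
  rw [nrm_inv, nrm_prod, Finset.prod_congr rfl (fun l _ => nrm_two_mul_add_one (f l))]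
  simp

private lemma boundr_sign (d : ℕ) : Bd ((-1) ^ d) 0 := by
  have := bd_int ((-1) ^ d)
  simpa using this

/-- Closed form of `mLi` off the diagonal. -/
private lemma boundr_mLi_eq (s m d : ℕ) (hs : 3 * (m + d + 1) + 3 ≤ s) :
    mLi s (m + d + 1) m =
      (-1) ^ (d + 1) * ((2 * m - 1 : ℤ) : ℚ) * (((s : ℤ) - 3 * m : ℤ) : ℚ) *
        rf ((s : ℤ) - m - 2 * d - 1) (2 * (d + 1)) * rf ((s : ℤ) - 3 * m - 3 * d - 2) d *
        ((2 : ℚ) ^ (d + 1))⁻¹ * (((d + 1).factorial : ℚ))⁻¹ *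
        (rf ((s : ℤ) - 2 * m - 2 * d - 1) (d + 1))⁻¹ *
        (2 * (((m : ℤ) + d : ℤ) : ℚ) + 1)⁻¹ *
        (∏ l ∈ Ico m (m + d + 1), (2 * (((l : ℤ) - 1 : ℤ) : ℚ) + 1))⁻¹ := by
  have hle : m ≤ m + d + 1 := by omega
  have hle1 : m + 1 ≤ m + d + 1 := by omega
  have hlt : m < m + d + 1 := by omega
  have e0 : m + d + 1 - m = d + 1 := by omega
  have e1 : m + d + 1 - (m + 1) = d := by omega
  have p1 : ∏ l ∈ Ico m (m + d + 1), ((s : ℚ) - l - 1) = rf ((s : ℤ) - m - d - 1) (d + 1) := by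
    have := prod_Ico_sub ((s : ℤ) - 1) hle
    rw [e0] at this
    rw [show ((s : ℤ) - m - d - 1) = (s : ℤ) - 1 - ((m + d + 1 : ℕ) : ℤ) + 1 by push_cast; ring,
      ← this]
    exact Finset.prod_congr rfl (fun l _ => by push_cast; ring)
  have p2 : ∏ l ∈ Ico m (m + d + 1), ((s : ℚ) + l - 2 * ((m + d + 1 : ℕ) : ℚ)) =
      ((s : ℚ) - m - 2 * d - 2) * rf ((s : ℤ) - m - 2 * d - 1) d := by
    rw [Finset.prod_eq_prod_Ico_succ_bot hlt]
    have := prod_Ico_add ((s : ℤ) - 2 * m - 2 * d - 2) hle1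
    rw [e1] at this
    rw [show ((s : ℤ) - m - 2 * d - 1) = (s : ℤ) - 2 * m - 2 * d - 2 + ((m + 1 : ℕ) : ℤ) by
      push_cast; ring, ← this]
    congr 1
    · push_cast; ring
    · exact Finset.prod_congr rfl (fun l _ => by push_cast; ring)
  have p3 : ∏ l ∈ Ico m (m + d + 1), ((s : ℚ) - l - 2 * ((m + d + 1 : ℕ) : ℚ)) =
      ((s : ℚ) - 3 * m - 2 * d - 2) * rf ((s : ℤ) - 3 * m - 3 * d - 2) d := by
    rw [Finset.prod_eq_prod_Ico_succ_bot hlt]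
    have := prod_Ico_sub ((s : ℤ) - 2 * m - 2 * d - 2) hle1
    rw [e1] at this
    rw [show ((s : ℤ) - 3 * m - 3 * d - 2) =
      (s : ℤ) - 2 * m - 2 * d - 2 - ((m + d + 1 : ℕ) : ℤ) + 1 by push_cast; ring, ← this]
    congr 1
    · push_cast; ring
    · exact Finset.prod_congr rfl (fun l _ => by push_cast; ring)
  have p4 : ∏ l ∈ Ico m (m + d + 1), (((m + d + 1 : ℕ) : ℚ) - l) = ((d + 1).factorial : ℚ) := by
    have := prod_Ico_sub ((m + d + 1 : ℕ) : ℤ) hle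
    rw [e0, show ((m + d + 1 : ℕ) : ℤ) - ((m + d + 1 : ℕ) : ℤ) + 1 = 1 by ring, rf_one] at this
    rw [← this]
    exact Finset.prod_congr rfl (fun l _ => by push_cast; ring)
  have p5 : ∏ l ∈ Ico m (m + d + 1), ((s : ℚ) - ((m + d + 1 : ℕ) : ℚ) - l) =
      rf ((s : ℤ) - 2 * m - 2 * d - 1) (d + 1) := by
    have := prod_Ico_sub ((s : ℤ) - m - d - 1) hle
    rw [e0] at this
    rw [show ((s : ℤ) - 2 * m - 2 * d - 1) =
      (s : ℤ) - m - d - 1 - ((m + d + 1 : ℕ) : ℤ) + 1 by push_cast; ring, ← this]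
    exact Finset.prod_congr rfl (fun l _ => by push_cast; ring)
  have p6 : ∏ l ∈ Ico m (m + d + 1), (2 * (l : ℚ) - 1) =
      ∏ l ∈ Ico m (m + d + 1), (2 * (((l : ℤ) - 1 : ℤ) : ℚ) + 1) :=
    Finset.prod_congr rfl (fun l _ => by push_cast; ring)
  have p7 : rf ((s : ℤ) - m - 2 * d - 1) (2 * (d + 1)) =
      rf ((s : ℤ) - m - 2 * d - 1) d * rf ((s : ℤ) - m - d - 1) (d + 1) * ((s : ℚ) - m) := by
    rw [show 2 * (d + 1) = d + (d + 1) + 1 by ring, rf_succ, rf_add,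
      show ((s : ℤ) - m - 2 * d - 1 + d) = (s : ℤ) - m - d - 1 by ring]
    congr 1
    push_cast; ring
  have hs' : (3 * ((m : ℚ) + d + 1) + 3) ≤ s := by exact_mod_cast hs
  have hm0 : (0 : ℚ) ≤ m := Nat.cast_nonneg m
  have hd0 : (0 : ℚ) ≤ d := Nat.cast_nonneg d
  have n1 : (s : ℚ) - m - 2 * d - 2 ≠ 0 := by intro h0; linarith
  have n2 : (s : ℚ) - 3 * m - 2 * d - 2 ≠ 0 := by intro h0; linarith
  unfold mLi
  rw [if_pos hle, Finset.prod_div_distrib, Finset.prod_neg, Finset.prod_mul_distrib,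
    Finset.prod_mul_distrib, Finset.prod_mul_distrib, Finset.prod_mul_distrib,
    Finset.prod_mul_distrib, p1, p2, p3, p4, p5, p6, p7, Finset.prod_const, Nat.card_Ico, e0]
  have q1 : (2 * ((m + d + 1 : ℕ) : ℚ) - 1) = 2 * (((m : ℤ) + d : ℤ) : ℚ) + 1 := by
    push_cast; ring
  have q2 : (s : ℚ) + m - 2 * ((m + d + 1 : ℕ) : ℚ) = (s : ℚ) - m - 2 * d - 2 := by
    push_cast; ring
  have q3 : (s : ℚ) - m - 2 * ((m + d + 1 : ℕ) : ℚ) = (s : ℚ) - 3 * m - 2 * d - 2 := by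
    push_cast; ring
  have q4 : ((2 * m - 1 : ℤ) : ℚ) = 2 * (m : ℚ) - 1 := by push_cast; ring
  have q5 : (((s : ℤ) - 3 * m : ℤ) : ℚ) = (s : ℚ) - 3 * m := by push_cast; ring
  rw [q1, q2, q3, q4, q5]
  generalize (2 * (((m : ℤ) + d : ℤ) : ℚ) + 1) = o1
  generalize (∏ l ∈ Ico m (m + d + 1), (2 * (((l : ℤ) - 1 : ℤ) : ℚ) + 1)) = o2
  generalize (s : ℚ) - m - 2 * d - 2 = a at n1 ⊢
  generalize (s : ℚ) - 3 * m - 2 * d - 2 = b at n2 ⊢
  simp only [div_eq_mul_inv, mul_inv]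
  have ha : a * a⁻¹ = 1 := mul_inv_cancel₀ n1
  have hb : b * b⁻¹ = 1 := mul_inv_cancel₀ n2
  calc _ = (a * a⁻¹) * (b * b⁻¹) * ((-1) ^ (d + 1) * (2 * (m : ℚ) - 1) * ((s : ℚ) - 3 * m) *
        (rf ((s : ℤ) - m - 2 * d - 1) d * rf ((s : ℤ) - m - d - 1) (d + 1) * ((s : ℚ) - m)) *
        rf ((s : ℤ) - 3 * m - 3 * d - 2) d *
        ((2 : ℚ) ^ (d + 1))⁻¹ * (((d + 1).factorial : ℚ))⁻¹ *
        (rf ((s : ℤ) - 2 * m - 2 * d - 1) (d + 1))⁻¹ * o1⁻¹ * o2⁻¹) := by ring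
    _ = _ := by rw [ha, hb, one_mul, one_mul]

/-- For `m = j` the value is `1`. For `δ = j - m ≥ 1`:
`mLi s j m = ± (s-3m) * rf (s+m+1-2j) (2δ) * rf (s-3j+1) (δ-1) /
(2 ^ δ * δ! * rf (s-2j+1) δ)` times a quotient of odd numbers (the two factors
`(s+m-2j) (s-m-2j)` of the denominator cancel against the term `l = m` of the product;
`rf (s+m+1-2j) (2δ) = rf (s+m+1-2j) (δ-1) * rf (s-j) δ * (s-m)`). Use `lg_two_mul`, `lg_mono`. -/
theorem bd_mLi {s j m : ℕ} {mu : ℝ} (hm : 1 ≤ m) (hmj : m ≤ j) (hj : 3 * j + 3 ≤ s) (hmu : 0 ≤ mu)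
    (h : Sml ((s : ℤ) - 2 * j + 1) ((s : ℤ) - j - m) mu) :
    Bd (mLi s j m) (mu + 2 + 2 * lg (j - m)) := by
  rcases hmj.eq_or_lt with rfl | hlt
  · have hs' : (3 * (m : ℚ) + 3) ≤ s := by exact_mod_cast hj
    have hm1 : (1 : ℚ) ≤ m := by exact_mod_cast hm
    have e : mLi s m m = 1 := by
      unfold mLi
      rw [if_pos le_rfl, Finset.Ico_self, Finset.prod_empty, mul_one,
        show (s : ℚ) + m - 2 * m = s - m by ring, show (s : ℚ) - m - 2 * m = s - 3 * m by ring]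
      refine div_self (mul_ne_zero (mul_ne_zero ?_ ?_) ?_) <;> (intro h0; linarith)
    rw [e]
    refine bd_one.mono ?_
    have := lg_nonneg (m - m)
    linarith
  · obtain ⟨d, rfl⟩ : ∃ d, j = m + d + 1 := ⟨j - m - 1, by omega⟩
    rw [boundr_mLi_eq s m d hj, show m + d + 1 - m = d + 1 by omega]
    have hS : Sml ((s : ℤ) - 2 * m - 2 * d - 1)
        ((s : ℤ) - 2 * m - 2 * d - 1 + ((d + 1 : ℕ) : ℤ) - 1) mu := by
      intro x h1 h2
      refine h x ?_ ?_ <;> push_cast at h1 h2 ⊢ <;> linarith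
    have hpos : 0 < (s : ℤ) - 2 * m - 2 * d - 1 := by omega
    refine (((((((((boundr_sign _).mul (bd_int _)).mul (bd_int _)).mul (bd_rf _ _)).mul
      (bd_rf _ _)).mul (bd_two_pow_inv _)).mul (bd_fact_inv _)).mul
      (bd_rf_inv hmu hpos hS)).mul (boundr_odd_inv _)).mul (boundr_prod_odd_inv _ _) |>.mono ?_
    have h1 := lg_two_mul (d + 1)
    have h2 : lg d ≤ lg (d + 1) := lg_mono (by omega)
    push_cast
    linarith

/-- Closed form of `mR` off the diagonal. -/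
private lemma boundr_mR_eq (s j d : ℕ) :
    mR s j (j + d + 1) =
      (-1) ^ (d + 1) * ((2 * (s : ℤ) - 3 * (j + d + 1) : ℤ) : ℚ) *
        rf ((j : ℤ) - d) (2 * (d + 1)) * rf (2 * (s : ℤ) - 3 * j - d) d *
        ((2 : ℚ) ^ (d + 1))⁻¹ * (((d + 1).factorial : ℚ))⁻¹ *
        (rf ((s : ℤ) - 2 * j - d - 1) (d + 1))⁻¹ *
        (2 * (((s : ℤ) - j - 1 : ℤ) : ℚ) + 1)⁻¹ *
        (∏ l ∈ Ico (j + 1) (j + d + 1), (2 * (((s : ℤ) - l - 1 : ℤ) : ℚ) + 1))⁻¹ := by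
  have hle1 : j + 1 ≤ j + d + 1 := by omega
  have e1 : j + d + 1 - (j + 1) = d := by omega
  have hI : Ioo j (j + d + 1) = Ico (j + 1) (j + d + 1) := by
    ext l
    simp only [Finset.mem_Ioo, Finset.mem_Ico]
    omega
  have p1 : ∏ l ∈ Ico (j + 1) (j + d + 1), ((l : ℚ) - 1) = rf (j : ℤ) d := by
    have := prod_Ico_add (-1) hle1
    rw [e1, show (-1 : ℤ) + ((j + 1 : ℕ) : ℤ) = j by push_cast; ring] at this
    rw [← this]
    exact Finset.prod_congr rfl (fun l _ => by push_cast; ring)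
  have p2 : ∏ l ∈ Ico (j + 1) (j + d + 1), (2 * (j : ℚ) - l) = rf ((j : ℤ) - d) d := by
    have := prod_Ico_sub (2 * (j : ℤ)) hle1
    rw [e1, show 2 * (j : ℤ) - ((j + d + 1 : ℕ) : ℤ) + 1 = (j : ℤ) - d by push_cast; ring] at this
    rw [← this]
    exact Finset.prod_congr rfl (fun l _ => by push_cast; ring)
  have p3 : ∏ l ∈ Ico (j + 1) (j + d + 1), (2 * (s : ℚ) - 2 * j - l) =
      rf (2 * (s : ℤ) - 3 * j - d) d := by
    have := prod_Ico_sub (2 * (s : ℤ) - 2 * j) hle1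
    rw [e1, show 2 * (s : ℤ) - 2 * j - ((j + d + 1 : ℕ) : ℤ) + 1 = 2 * (s : ℤ) - 3 * j - d by
      push_cast; ring] at this
    rw [← this]
    exact Finset.prod_congr rfl (fun l _ => by push_cast; ring)
  have p4 : ∏ l ∈ Ico (j + 1) (j + d + 1), ((j : ℚ) - l) = (-1) ^ d * (d.factorial : ℚ) := by
    have := prod_Ico_add (-(j : ℤ)) hle1
    rw [e1, show -(j : ℤ) + ((j + 1 : ℕ) : ℤ) = 1 by push_cast; ring, rf_one] at this
    have h2 := Finset.prod_neg (s := Ico (j + 1) (j + d + 1))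
      (fun l : ℕ => (((-(j : ℤ) : ℤ) : ℚ) + l))
    rw [Nat.card_Ico, e1, this] at h2
    rw [← h2]
    exact Finset.prod_congr rfl (fun l _ => by push_cast; ring)
  have p5 : ((s : ℚ) - ((j + d + 1 : ℕ) : ℚ) - j) *
      ∏ l ∈ Ico (j + 1) (j + d + 1), ((s : ℚ) - l - j) =
      rf ((s : ℤ) - 2 * j - d - 1) (d + 1) := by
    have := prod_Ico_sub ((s : ℤ) - j) hle1
    rw [e1, show (s : ℤ) - j - ((j + d + 1 : ℕ) : ℤ) + 1 = (s : ℤ) - 2 * j - d - 1 + ((1 : ℕ) : ℤ) by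
      push_cast; ring] at this
    rw [add_comm d 1, rf_add, ← this, rf_succ, rf_zero]
    congr 1
    · push_cast; ring
    · exact Finset.prod_congr rfl (fun l _ => by push_cast; ring)
  have p6 : ∏ l ∈ Ico (j + 1) (j + d + 1), (2 * (s : ℚ) - 2 * l - 1) =
      ∏ l ∈ Ico (j + 1) (j + d + 1), (2 * (((s : ℤ) - l - 1 : ℤ) : ℚ) + 1) :=
    Finset.prod_congr rfl (fun l _ => by push_cast; ring)
  have p7 : rf ((j : ℤ) - d) (2 * (d + 1)) =
      rf ((j : ℤ) - d) d * rf (j : ℤ) d * (((j + d + 1 : ℕ) : ℚ) - 1) * ((j + d + 1 : ℕ) : ℚ) := by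
    rw [show 2 * (d + 1) = d + d + 1 + 1 by ring, rf_succ, rf_succ, rf_add,
      show ((j : ℤ) - d + d) = (j : ℤ) by ring]
    congr 1
    · congr 1
      push_cast; ring
    · push_cast; ring
  unfold mR
  rw [if_neg (by omega), if_neg (by omega), hI, Finset.prod_div_distrib,
    Finset.prod_mul_distrib, Finset.prod_mul_distrib, Finset.prod_mul_distrib,
    Finset.prod_mul_distrib, Finset.prod_mul_distrib, p1, p2, p3, p4, p6, p7, ← p5,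
    Finset.prod_const, Nat.card_Ico, e1]
  have q1 : (2 * (s : ℚ) - 2 * j - 1) = 2 * (((s : ℤ) - j - 1 : ℤ) : ℚ) + 1 := by
    push_cast; ring
  have q2 : (j : ℚ) - ((j + d + 1 : ℕ) : ℚ) = -((d : ℚ) + 1) := by push_cast; ring
  have q3 : ((2 * (s : ℤ) - 3 * (j + d + 1) : ℤ) : ℚ) = 2 * (s : ℚ) - 3 * ((j + d + 1 : ℕ) : ℚ) := by
    push_cast; ring
  have q4 : (((d + 1).factorial : ℕ) : ℚ) = ((d : ℚ) + 1) * (d.factorial : ℚ) := by
    rw [Nat.factorial_succ]; push_cast; ring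
  have q5 : (((-1 : ℚ)) ^ d)⁻¹ = (-1) ^ d := by
    rw [← inv_pow, inv_neg, inv_one]
  rw [q1, q2, q3, q4]
  generalize (2 * (((s : ℤ) - j - 1 : ℤ) : ℚ) + 1) = o1
  generalize (∏ l ∈ Ico (j + 1) (j + d + 1), (2 * (((s : ℤ) - l - 1 : ℤ) : ℚ) + 1)) = o2
  generalize (∏ l ∈ Ico (j + 1) (j + d + 1), ((s : ℚ) - l - j)) = o3
  generalize ((s : ℚ) - ((j + d + 1 : ℕ) : ℚ) - j) = o4
  generalize ((j + d + 1 : ℕ) : ℚ) = i
  generalize ((d : ℚ) + 1) = t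
  simp only [div_eq_mul_inv, mul_inv, inv_neg, q5, pow_succ]
  ring

private lemma boundr_sml {s j d : ℕ} {mu : ℝ}
    (h : Sml ((s : ℤ) - ((j + d + 1 : ℕ) : ℤ) - j) ((s : ℤ) - 2 * j - 1) mu) :
    Sml ((s : ℤ) - 2 * j - d - 1) ((s : ℤ) - 2 * j - d - 1 + ((d + 1 : ℕ) : ℤ) - 1) mu := by
  intro x h1 h2
  refine h x ?_ ?_ <;> push_cast at h1 h2 ⊢ <;> linarith

/-- For `δ = i - j ≥ 1`: `mR s j i = ± (2s-3i) * rf (2j-i+1) (2δ) * rf (2s-2j-i+1) (δ-1) /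
(2 ^ δ * δ! * odd * rf (s-i-j) δ)`, where
`rf (2j-i+1) (2δ) = rf (2j-i+1) (δ-1) * rf j (δ-1) * (i-1) * i`. -/
theorem bd_mR {s j i : ℕ} {mu : ℝ} (hj : 1 ≤ j) (hji : j ≤ i) (hi : 3 * i + 3 ≤ s) (hmu : 0 ≤ mu)
    (h : Sml ((s : ℤ) - i - j) ((s : ℤ) - 2 * j - 1) mu) :
    Bd (mR s j i) (mu + 2 + 2 * lg (i - j)) := by
  rcases hji.eq_or_lt with rfl | hlt
  · have e : mR s j j = 1 := by
      unfold mR
      rw [if_neg (lt_irrefl j), if_pos rfl]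
    rw [e]
    refine bd_one.mono ?_
    have := lg_nonneg (j - j)
    linarith
  · obtain ⟨d, rfl⟩ : ∃ d, i = j + d + 1 := ⟨i - j - 1, by omega⟩
    rw [boundr_mR_eq s j d, show j + d + 1 - j = d + 1 by omega]
    have hpos : 0 < (s : ℤ) - 2 * j - d - 1 := by omega
    refine ((((((((boundr_sign _).mul (bd_int _)).mul (bd_rf _ _)).mul
      (bd_rf _ _)).mul (bd_two_pow_inv _)).mul (bd_fact_inv _)).mul
      (bd_rf_inv hmu hpos (boundr_sml h))).mul (boundr_odd_inv _)).mul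
      (boundr_prod_odd_inv _ _) |>.mono ?_
    have h1 := lg_two_mul (d + 1)
    have h2 : lg d ≤ lg (d + 1) := lg_mono (by omega)
    push_cast
    linarith

/-- Same formula, with `bd_rf_cross` for the factor `n` of `rf (2j-i+1) (2δ)`. -/
theorem bd_mR_cross {s j i n r : ℕ} {mu : ℝ} (hj : 1 ≤ j) (hjn : j < n) (hni : n ≤ i)
    (hi : 3 * i + 3 ≤ s) (hmu : 0 ≤ mu) (hr : 2 ^ r ∣ n)
    (h : Sml ((s : ℤ) - i - j) ((s : ℤ) - 2 * j - 1) mu) :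
    Bd (mR s j i) (-(r : ℝ) + mu + 4 + 3 * lg (i - j)) := by
  obtain ⟨d, rfl⟩ : ∃ d, i = j + d + 1 := ⟨i - j - 1, by omega⟩
  rw [boundr_mR_eq s j d, show j + d + 1 - j = d + 1 by omega]
  have hpos : 0 < (s : ℤ) - 2 * j - d - 1 := by omega
  have hr' : (2 : ℤ) ^ r ∣ (n : ℤ) := by exact_mod_cast hr
  have hc : Bd (rf ((j : ℤ) - d) (2 * (d + 1)))
      (-(r : ℝ) - ((2 * (d + 1) : ℕ) : ℝ) + 1 + 2 * lg (2 * (d + 1))) :=
    bd_rf_cross (x := n) (by omega) (by push_cast; omega) hr'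
  refine ((((((((boundr_sign _).mul (bd_int _)).mul hc).mul
    (bd_rf _ _)).mul (bd_two_pow_inv _)).mul (bd_fact_inv _)).mul
    (bd_rf_inv hmu hpos (boundr_sml h))).mul (boundr_odd_inv _)).mul
    (boundr_prod_odd_inv _ _) |>.mono ?_
  have h1 := lg_two_mul (d + 1)
  have h2 : lg d ≤ lg (d + 1) := lg_mono (by omega)
  push_cast
  linarith

end Pool.Agent.Lib.MP_88d29b_nt
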