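import Pool.Agent.Lib.MP_88d29b_nt.Comm

set_option autoImplicit false

noncomputable section

namespace Pool.Agent.Lib.MP_88d29b_nt

open Finset


lemma colf_step {s j i : ℕ} (hs : 3 * j + 3 ≤ s) (hi : i ≤ j) :
    2 * (2 * (s : ℚ) - 2 * i - 1) * ((j : ℚ) * (s - j) - i * (s - i)) * mE s i j =
      (((i + 1 : ℕ) : ℚ) - 1) * (((i + 1 : ℕ) : ℚ) ^ 2 - 2 * s * ((i + 1 : ℕ) : ℚ) +
        4 * (j * (s - j))) * mE s (i + 1) j := by
  rcases hi.eq_or_lt with rfl | hlt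
  · rw [sub_self, mul_zero, zero_mul, mE, if_neg (by omega), mul_zero]
  have e : Ioc i j = insert (i + 1) (Ioc (i + 1) j) := by
    ext l
    simp only [mem_insert, mem_Ioc]
    omega
  have h1 : (i : ℚ) + 1 ≤ j := by exact_mod_cast hlt
  have h2 : 3 * (j : ℚ) + 3 ≤ s := by exact_mod_cast hs
  have h0 : (0 : ℚ) ≤ i := Nat.cast_nonneg i
  have a1 : 2 * (s : ℚ) - 2 * (i + 1) + 1 ≠ 0 := by linarith
  have a2 : (j : ℚ) - (i + 1) + 1 ≠ 0 := by linarith
  have a3 : (s : ℚ) - j - (i + 1) + 1 ≠ 0 := by linarith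
  rw [mE, mE, if_pos hi, if_pos (show i + 1 ≤ j from hlt), e, prod_insert (by simp), ← mul_assoc]
  refine congrArg (· * _) ?_
  push_cast
  rw [mul_div_assoc', div_eq_iff (mul_ne_zero (mul_ne_zero (mul_ne_zero two_ne_zero a1) a2) a3)]
  ring

lemma colf_rec {s j n : ℕ} (hs : 3 * j + 3 ≤ s) (hn : 3 * (n + 1) + 3 ≤ s) :
    2 * (2 * (n : ℚ) + 1) * (n + 1 - j) * (s - n - 1 - j) *
        ∑ i ∈ Icc 1 j, matA s (n + 1) i * mE s i j =
      ((s : ℚ) - n - 1) * (s + n - 2 * j) * (s - n - 2 * j) *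
        ∑ i ∈ Icc 1 j, matA s n i * mE s i j := by
  obtain ⟨g, hg⟩ : ∃ g : ℕ → ℚ, ∀ i, g i = matB (s + 1) (n + 1) i *
      (((i : ℚ) - 1) * ((i : ℚ) ^ 2 - 2 * s * i + 4 * (j * (s - j))) * mE s i j) :=
    ⟨_, fun _ => rfl⟩
  have h0 : ∑ i ∈ Icc 1 j, (g (i + 1) - g i) = 0 := by
    rw [← Finset.Ico_add_one_right_eq_Icc, Finset.sum_Ico_sub g (by omega), hg, hg, mE,
      if_neg (by omega)]
    simp
  rw [← sub_eq_zero, ← h0, mul_sum, mul_sum, ← sum_sub_distrib]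
  refine sum_congr rfl fun i hi => ?_
  obtain ⟨hi1, hi2⟩ := mem_Icc.mp hi
  have h := comm_rel (s := s) (m := n + 1) ((j : ℚ) * (s - j)) (by omega) hi1 hn
  rw [hg, hg, ← colf_step hs hi2]
  rw [Nat.add_sub_cancel] at h
  push_cast at h
  linear_combination mE s i j * h

/-- `A E = L D'`. Put `lam = j (s - j)` and `y m = ∑ i ∈ Icc 1 j, matA s m i * mE s i j`. For
`1 ≤ i < j` one has
`2 (2s-2i-1) (lam - i (s-i)) mE s i j = i ((i+1)^2 - 2 s (i+1) + 4 lam) mE s (i+1) j`, so summing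
`comm_rel * mE s i j` over `i` the right side telescopes to `0`. Hence
`2 (2m-1) (m-j) (s-m-j) y m = (s-m) (s+m-1-2j) (s-m+1-2j) y (m-1)` with `y 0 = 0`; this gives
`y m = 0` for `m < j` and `y m = mL s m j * y j` for `m ≥ j`. Take `d = y j`. -/
theorem col_factor {s j : ℕ} (hj : 1 ≤ j) (hs : 3 * j + 3 ≤ s) :
    ∃ d : ℚ, ∀ m : ℕ, 1 ≤ m → 3 * m + 3 ≤ s →
      ∑ i ∈ Icc 1 j, matA s m i * mE s i j = mL s m j * d := by
  obtain ⟨y, hy⟩ : ∃ y : ℕ → ℚ, ∀ m, y m = ∑ i ∈ Icc 1 j, matA s m i * mE s i j :=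
    ⟨_, fun _ => rfl⟩
  have h2 : 3 * (j : ℚ) + 3 ≤ s := by exact_mod_cast hs
  have hne : ∀ n : ℕ, n + 1 ≠ j → 3 * (n + 1) + 3 ≤ s →
      2 * (2 * (n : ℚ) + 1) * (n + 1 - j) * (s - n - 1 - j) ≠ 0 := by
    intro n h hn
    have h0 : (0 : ℚ) ≤ n := Nat.cast_nonneg n
    have h3 : 3 * ((n : ℚ) + 1) + 3 ≤ s := by exact_mod_cast hn
    refine mul_ne_zero (mul_ne_zero (by positivity) (sub_ne_zero.mpr ?_)) (by linarith)
    exact_mod_cast h
  have low : ∀ m, m < j → y m = 0 := by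
    intro m
    induction m with
    | zero =>
      intro _
      rw [hy]
      refine sum_eq_zero fun i hi => ?_
      rw [matA_eq_zero (by have := (mem_Icc.mp hi).1; omega), zero_mul]
    | succ n ih =>
      intro h
      have h1 := colf_rec (n := n) hs (by omega)
      rw [← hy, ← hy, ih (by omega), mul_zero] at h1
      exact (mul_eq_zero.mp h1).resolve_left (hne n h.ne (by omega))
  have high : ∀ m, j ≤ m → 3 * m + 3 ≤ s → y m = mL s m j * y j := by
    intro m hm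
    induction m, hm using Nat.le_induction with
    | base =>
      intro _
      simp [mL]
    | succ n hn ih =>
      intro h
      have h1 := colf_rec (n := n) hs h
      have h3 := hne n (by omega) h
      rw [← hy, ← hy, ih (by omega)] at h1
      rw [mL, if_pos (by omega), prod_Ico_succ_top hn, mul_right_comm, ← mul_div_assoc,
        eq_div_iff h3]
      rw [mL, if_pos hn] at h1
      linear_combination h1
  refine ⟨y j, fun m _ hm => ?_⟩
  rw [← hy]
  rcases lt_or_ge m j with h | h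
  · rw [low m h, mL, if_neg (by omega), zero_mul]
  · exact high m h hm

end Pool.Agent.Lib.MP_88d29b_nt
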