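import Pool.Agent.Lib.MP_88d29b_nt.Defs

set_option autoImplicit false

noncomputable section

namespace Pool.Agent.Lib.MP_88d29b_nt

open Finset

lemma invFact_neg {z : ℤ} (h : z < 0) : invFact z = 0 := if_neg (not_le.mpr h)

lemma invFact_nat (n : ℕ) : invFact n = 1 / (n.factorial : ℚ) := by
  simp [invFact]

lemma invFact_pred (z : ℤ) : invFact (z - 1) = (z : ℚ) * invFact z := by
  rcases lt_trichotomy z 0 with h | h | h
  · rw [invFact_neg h, invFact_neg (by omega), mul_zero]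
  · subst h
    rw [invFact_neg (by omega)]
    simp
  · obtain ⟨n, rfl⟩ : ∃ n : ℕ, z = (n + 1 : ℕ) := ⟨(z - 1).toNat, by omega⟩
    have e : ((n + 1 : ℕ) : ℤ) - 1 = (n : ℕ) := by omega
    rw [e, invFact_nat, invFact_nat, Nat.factorial_succ]
    have h1 : (n.factorial : ℚ) ≠ 0 := by exact_mod_cast n.factorial_ne_zero
    have h2 : (n : ℚ) + 1 ≠ 0 := by positivity
    push_cast
    field_simp

lemma core_eq_zero {s m i : ℕ} (h : 2 * m < i) : core s m i = 0 := by
  unfold core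
  rw [invFact_neg (z := 2 * (m : ℤ) - i) (by omega)]
  simp

theorem matA_eq_zero {s m i : ℕ} (h : 2 * m < i) : matA s m i = 0 := by
  rw [matA, core_eq_zero h, mul_zero]

theorem matB_eq_zero {s m i : ℕ} (h : 2 * m < i) : matB s m i = 0 := by
  rw [matB, core_eq_zero h, mul_zero]

theorem matA_two_mul {s j : ℕ} (h : 3 * j < s) : matA s j (2 * j) = 2 := by
  obtain ⟨a, rfl⟩ : ∃ a, s = 3 * j + 1 + a := ⟨s - (3 * j + 1), by omega⟩
  unfold matA core
  have e1 : 3 * j + 1 + a + j - 2 * (2 * j) - 1 = a := by omega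
  have e2 : 2 * (j : ℤ) - ((2 * j : ℕ) : ℤ) = (0 : ℕ) := by omega
  have e3 : ((3 * j + 1 + a : ℕ) : ℤ) - j - ((2 * j : ℕ) : ℤ) = (a + 1 : ℕ) := by omega
  rw [e1, e2, e3, invFact_nat, invFact_nat, Nat.factorial_succ, pow_mul]
  have h1 : (a.factorial : ℚ) ≠ 0 := by exact_mod_cast a.factorial_ne_zero
  have h2 : (a : ℚ) + 1 ≠ 0 := by positivity
  push_cast
  simp only [Nat.factorial_zero, Nat.cast_one]
  field_simp
  ring

/-- The commutation relation (the shadow of a third order modular differential operator). -/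
theorem comm_rel {s m i : ℕ} (lam : ℚ) (hm : 1 ≤ m) (hi : 1 ≤ i) (hs : 3 * m + 3 ≤ s) :
    2 * (2 * (m : ℚ) - 1) * (m * (s - m) - lam) * matA s m i -
        ((s : ℚ) - m) * (s ^ 2 - (m - 1) ^ 2 - 4 * lam) * matA s (m - 1) i =
      matB (s + 1) m (i + 1) * (2 * (2 * (s : ℚ) - 2 * i - 1) * (lam - i * (s - i))) -
        matB (s + 1) m i * (((i : ℚ) - 1) * (i ^ 2 - 2 * s * i + 4 * lam)) := by
  rcases lt_or_ge (2 * m) i with h | h
  · rw [matA_eq_zero h, matA_eq_zero (by omega), matB_eq_zero h, matB_eq_zero (by omega)]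
    ring
  obtain ⟨a, ha⟩ : ∃ a, s + m = 2 * i + 2 + a := ⟨s + m - (2 * i + 2), by omega⟩
  obtain ⟨m', rfl⟩ : ∃ m', m = m' + 1 := ⟨m - 1, by omega⟩
  have ha' : (a : ℚ) = s + (m' + 1) - 2 * i - 2 := by
    have : ((s + (m' + 1) : ℕ) : ℚ) = ((2 * i + 2 + a : ℕ) : ℚ) := by rw [ha]
    push_cast at this
    linarith
  set u : ℤ := 2 * ((m' + 1 : ℕ) : ℤ) - i with hu
  set v : ℤ := (s : ℤ) + 1 - ((m' + 1 : ℕ) : ℤ) - i with hv
  have hu' : (u : ℚ) = 2 * (m' + 1) - i := by rw [hu]; push_cast; ring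
  have hv' : (v : ℚ) = s - m' - i := by rw [hv]; push_cast; ring
  have c1 : core s (m' + 1) i =
      (-1) ^ i * ((a + 1) * a.factorial) * invFact u * (v * invFact v) := by
    unfold core
    have e1 : s + (m' + 1) - 2 * i - 1 = a + 1 := by omega
    have e2 : (s : ℤ) - ((m' + 1 : ℕ) : ℤ) - i = v - 1 := by omega
    rw [e1, e2, invFact_pred, Nat.factorial_succ]
    push_cast
    rfl
  have c2 : core s (m' + 1 - 1) i =
      (-1) ^ i * a.factorial * ((u - 1) * (u * invFact u)) * invFact v := by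
    unfold core
    have e1 : s + (m' + 1 - 1) - 2 * i - 1 = a := by omega
    have e2 : (s : ℤ) - ((m' + 1 - 1 : ℕ) : ℤ) - i = v := by omega
    have e3 : 2 * ((m' + 1 - 1 : ℕ) : ℤ) - i = u - 1 - 1 := by omega
    rw [e1, e2, e3, invFact_pred, invFact_pred]
    push_cast
    rfl
  have c3 : core (s + 1) (m' + 1) (i + 1) =
      (-1) ^ (i + 1) * a.factorial * (u * invFact u) * (v * invFact v) := by
    unfold core
    have e1 : s + 1 + (m' + 1) - 2 * (i + 1) - 1 = a := by omega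
    have e2 : ((s + 1 : ℕ) : ℤ) - ((m' + 1 : ℕ) : ℤ) - ((i + 1 : ℕ) : ℤ) = v - 1 := by omega
    have e3 : 2 * ((m' + 1 : ℕ) : ℤ) - ((i + 1 : ℕ) : ℤ) = u - 1 := by omega
    rw [e1, e2, e3, invFact_pred, invFact_pred]
  have c4 : core (s + 1) (m' + 1) i =
      (-1) ^ i * ((a + 2) * ((a + 1) * a.factorial)) * invFact u * invFact v := by
    unfold core
    have e1 : s + 1 + (m' + 1) - 2 * i - 1 = a + 1 + 1 := by omega
    have e2 : ((s + 1 : ℕ) : ℤ) - ((m' + 1 : ℕ) : ℤ) - i = v := by omega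
    rw [e1, e2, ← hu, Nat.factorial_succ, Nat.factorial_succ]
    push_cast
    ring
  unfold matA matB
  rw [c1, c2, c3, c4, ha', hu', hv', pow_succ]
  push_cast
  ring

/-- The coefficient of `lam` in `comm_rel`. -/
theorem commB {s m i : ℕ} (hm : 1 ≤ m) (hi : 1 ≤ i) (hs : 3 * m + 3 ≤ s) :
    2 * (2 * (m : ℚ) - 1) * matA s m i - 4 * ((s : ℚ) - m) * matA s (m - 1) i =
      4 * ((i : ℚ) - 1) * matB (s + 1) m i -
        2 * (2 * (s : ℚ) - 2 * i - 1) * matB (s + 1) m (i + 1) := by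
  linear_combination comm_rel 0 hm hi hs - comm_rel 1 hm hi hs

end Pool.Agent.Lib.MP_88d29b_nt
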