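import Pool.Agent.Lib.MP_88d29b_nt.Defs

set_option autoImplicit false

noncomputable section

namespace Pool.Agent.Lib.MP_88d29b_nt

open Finset


open Classical in
theorem count_term (a : KK) (t : ℝ) :
    Real.logb 2 (max 1 (‖a‖ * (2 : ℝ) ^ t)) =
      if a = 0 then 0 else max 0 (t - -Real.logb 2 ‖a‖) := by
  split_ifs with h
  · simp [h]
  · have ha : 0 < ‖a‖ := norm_pos_iff.2 h
    have hp : 0 < ‖a‖ * (2 : ℝ) ^ t := by positivity
    have h1 : Real.logb 2 (‖a‖ * (2 : ℝ) ^ t) = t - -Real.logb 2 ‖a‖ := by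
      rw [Real.logb_mul ha.ne' (by positivity), Real.logb_rpow (by norm_num) (by norm_num)]
      ring
    rcases le_total 1 (‖a‖ * (2 : ℝ) ^ t) with h2 | h2
    · rw [max_eq_right h2, max_eq_right, h1]
      rw [← h1]
      exact Real.logb_nonneg (by norm_num) h2
    · rw [max_eq_left h2, max_eq_left, Real.logb_one]
      rw [← h1]
      exact Real.logb_nonpos (by norm_num) hp.le h2

open Classical in
theorem count_phi_cons (a : KK) (A : Multiset KK) (t : ℝ) :
    phi (a ::ₘ A) t = (if a = 0 then 0 else max 0 (t - -Real.logb 2 ‖a‖)) + phi A t := by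
  unfold phi
  rw [Multiset.map_cons, Multiset.sum_cons, count_term]

open Classical in
/-- number of nonzero elements of slope at most `t` -/
def countN1 (A : Multiset KK) (t : ℝ) : ℕ :=
  (A.filter fun x => x ≠ 0 ∧ -Real.logb 2 ‖x‖ ≤ t).card

open Classical in
/-- number of nonzero elements of slope less than `t` -/
def countN0 (A : Multiset KK) (t : ℝ) : ℕ :=
  (A.filter fun x => x ≠ 0 ∧ -Real.logb 2 ‖x‖ < t).card

theorem count_upper (A : Multiset KK) (t : ℝ) {h : ℝ} (hh : 0 ≤ h) :
    h * countN1 A t + phi A t ≤ phi A (t + h) := by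
  classical
  induction A using Multiset.induction_on with
  | empty => simp [countN1, phi]
  | cons a A ih =>
    rw [count_phi_cons, count_phi_cons]
    unfold countN1 at ih ⊢
    rw [Multiset.filter_cons, Multiset.card_add]
    by_cases h0 : a = 0
    · simpa [h0] using ih
    · rw [if_neg h0, if_neg h0]
      split_ifs with h1
      · rw [max_eq_right (by linarith [h1.2]), max_eq_right (by linarith [h1.2])]
        simp only [Multiset.card_singleton, Nat.cast_add, Nat.cast_one]
        linarith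
      · have : max 0 (t - -Real.logb 2 ‖a‖) ≤ max 0 (t + h - -Real.logb 2 ‖a‖) :=
          max_le_max le_rfl (by linarith)
        simp only [Multiset.card_zero, zero_add]
        linarith

theorem count_lower (A : Multiset KK) (t : ℝ) {h : ℝ} (hh : 0 ≤ h) :
    phi A t ≤ h * countN0 A t + phi A (t - h) := by
  classical
  induction A using Multiset.induction_on with
  | empty => simp [countN0, phi]
  | cons a A ih =>
    rw [count_phi_cons, count_phi_cons]
    unfold countN0 at ih ⊢
    rw [Multiset.filter_cons, Multiset.card_add]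
    by_cases h0 : a = 0
    · simpa [h0] using ih
    · rw [if_neg h0, if_neg h0]
      split_ifs with h1
      · have : max 0 (t - -Real.logb 2 ‖a‖) ≤ h + max 0 (t - h - -Real.logb 2 ‖a‖) :=
          max_le (by positivity) (by linarith [le_max_right 0 (t - h - -Real.logb 2 ‖a‖)])
        simp only [Multiset.card_singleton, Nat.cast_add, Nat.cast_one]
        linarith
      · have h2 : t ≤ -Real.logb 2 ‖a‖ := not_lt.1 fun h3 => h1 ⟨h0, h3⟩
        rw [max_eq_left (by linarith), max_eq_left (by linarith)]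
        simp only [Multiset.card_zero, zero_add]
        linarith

theorem count_le (A : Multiset KK) (t : ℝ) : countN0 A t ≤ countN1 A t := by
  classical
  unfold countN0 countN1
  exact Multiset.card_le_card (Multiset.monotone_filter_right _ fun _ h => ⟨h.1, h.2.le⟩)

theorem count_split (A : Multiset KK) {k a b : ℝ} (hk : 0 < k) (hab : a ≤ b) :
    cnt A k a b + countN0 A (a * k / 3) = countN1 A (b * k / 3) := by
  classical
  unfold cnt countN0 countN1
  induction A using Multiset.induction_on with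
  | empty => simp
  | cons x A ih =>
    simp only [Multiset.filter_cons, Multiset.card_add]
    rw [← ih]
    have e1 : a ≤ 3 / k * -Real.logb 2 ‖x‖ ↔ a * k / 3 ≤ -Real.logb 2 ‖x‖ := by
      rw [div_mul_eq_mul_div, le_div_iff₀ hk, div_le_iff₀ (by norm_num : (0 : ℝ) < 3), mul_comm 3]
    have e2 : 3 / k * -Real.logb 2 ‖x‖ ≤ b ↔ -Real.logb 2 ‖x‖ ≤ b * k / 3 := by
      rw [div_mul_eq_mul_div, div_le_iff₀ hk, le_div_iff₀ (by norm_num : (0 : ℝ) < 3), mul_comm 3]
    have e3 : a * k / 3 ≤ b * k / 3 := by gcongr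
    simp only [Set.mem_Icc, e1, e2]
    by_cases h0 : x = 0
    · simp [h0]
    · rcases lt_or_ge (-Real.logb 2 ‖x‖) (a * k / 3) with h1 | h1
      · rw [if_neg fun h => absurd h.2.1 (not_le.2 h1), if_pos ⟨h0, h1⟩,
          if_pos ⟨h0, h1.le.trans e3⟩]
        simp only [Multiset.card_singleton, Multiset.card_zero]
        omega
      · rw [if_neg (c := x ≠ 0 ∧ -Real.logb 2 ‖x‖ < a * k / 3) fun h => absurd h.2 (not_lt.2 h1)]
        by_cases h2 : -Real.logb 2 ‖x‖ ≤ b * k / 3
        · rw [if_pos ⟨h0, h1, h2⟩, if_pos ⟨h0, h2⟩]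
          simp only [Multiset.card_singleton, Multiset.card_zero]
          omega
        · rw [if_neg fun h => h2 h.2.2, if_neg fun h => h2 h.2]
          simp only [Multiset.card_zero]
          omega

/-- For `a ≠ 0` the summand of `phi A t` is `max 0 (t - α)` with `α = - logb 2 ‖a‖`, for `a = 0` it
is `0`. Let `N1 t`, `N0 t` be the numbers of nonzero elements with `α ≤ t`, `α < t`, and `h = ε k`.
Then `h * N1 t ≤ phi (t + h) - phi t` and `phi t - phi (t - h) ≤ h * N0 t`. This gives
`t / 4 - 9 ε k / 4 ≤ N0 t ≤ N1 t ≤ t / 4 + 9 ε k / 4` for `0 ≤ t ≤ k / 3` (for `t < h` the lower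
bound is trivial), and `cnt = N1 (b k / 3) - N0 (a k / 3)`. -/
theorem count_est (A : Multiset KK) {k ε a b : ℝ} (hk : 0 < k) (hε : 0 < ε) (ha : 0 ≤ a)
    (hab : a ≤ b) (hb : b ≤ 1)
    (hU : ∀ t, 0 ≤ t → t ≤ k / 3 + ε * k → phi A t ≤ t ^ 2 / 8 + ε ^ 2 * k ^ 2)
    (hL : ∀ t, 0 ≤ t → t ≤ k / 3 → t ^ 2 / 8 - ε ^ 2 * k ^ 2 ≤ phi A t) :
    |(cnt A k a b : ℝ) - (b - a) * k / 12| ≤ 5 * ε * k := by
  have hh : 0 < ε * k := mul_pos hε hk
  have up : ∀ t, 0 ≤ t → t ≤ k / 3 → (countN1 A t : ℝ) ≤ t / 4 + 9 / 4 * (ε * k) := by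
    intro t h0 h1
    have h2 := count_upper A t hh.le
    have h3 := hU (t + ε * k) (by linarith) (by linarith)
    have h4 := hL t h0 h1
    refine le_of_mul_le_mul_left ?_ hh
    nlinarith
  have low : ∀ t, 0 ≤ t → t ≤ k / 3 → t / 4 - 9 / 4 * (ε * k) ≤ (countN0 A t : ℝ) := by
    intro t h0 h1
    rcases le_total t (ε * k) with h5 | h5
    · have : (0 : ℝ) ≤ countN0 A t := Nat.cast_nonneg _
      linarith
    · have h2 := count_lower A t hh.le
      have h3 := hU (t - ε * k) (by linarith) (by linarith)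
      have h4 := hL t h0 h1
      refine le_of_mul_le_mul_left ?_ hh
      nlinarith
  have hs : (cnt A k a b : ℝ) + countN0 A (a * k / 3) = countN1 A (b * k / 3) := by
    exact_mod_cast count_split A hk hab
  have ha0 : 0 ≤ a * k / 3 := by positivity
  have hb0 : 0 ≤ b * k / 3 := by have := ha.trans hab; positivity
  have hb1 : b * k / 3 ≤ k / 3 := by nlinarith
  have ha1 : a * k / 3 ≤ k / 3 := by nlinarith
  have h1 := up _ ha0 ha1
  have h2 := up _ hb0 hb1
  have h3 := low _ ha0 ha1
  have h4 := low _ hb0 hb1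
  have h5 : (countN0 A (a * k / 3) : ℝ) ≤ countN1 A (a * k / 3) := by exact_mod_cast count_le A _
  have h6 : (countN0 A (b * k / 3) : ℝ) ≤ countN1 A (b * k / 3) := by exact_mod_cast count_le A _
  rw [abs_le]
  constructor <;> nlinarith

end Pool.Agent.Lib.MP_88d29b_nt
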