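import Pool.Agent.Lib.MP_88d29b_nt.NonArch

set_option autoImplicit false

noncomputable section

namespace Pool.Agent.Lib.MP_88d29b_nt

open Finset


/-- The abstract cut lemma. Put `Z = x⁻¹ • Nn`. Then `1 - x • A = (-x) • A * (1 - Z)` is invertible
and by `Matrix.det_fromBlocks₁₁` the determinant is `det (1 - x • A)` times the determinant of
`1 - x • (D - C * Nn * B) + (C * Nn) * (1 - Z)⁻¹ * (Nn * B)`
(use `A * (1 - Z)⁻¹ = A + x⁻¹ • (1 - Z)⁻¹`). The entries of `(1 - Z)⁻¹ = det⁻¹ • adjugate` have norm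
at most `∏ ρ`, so the last determinant has norm one by `norm_det_one_add`. -/
theorem abstract_cut {ι κ : Type} [Fintype ι] [DecidableEq ι] [Fintype κ] [DecidableEq κ]
    (A Nn : Matrix ι ι KK) (B : Matrix ι κ KK) (C : Matrix κ ι KK) (D : Matrix κ κ KK) (x : KK)
    (ρ : ι → ℝ) (p q : ℝ) (hx : x ≠ 0) (hA : A * Nn = 1)
    (hS : ∀ m i, ‖x * (D - C * Nn * B) m i‖ < 1)
    (hP : ∀ m b, ‖(C * Nn) m b‖ ≤ p) (hQ : ∀ a i, ‖(Nn * B) a i‖ ≤ q)
    (hρ1 : ∀ a, 1 ≤ ρ a) (hρ : ∀ a b, ‖x⁻¹ * Nn a b‖ ≤ ρ a)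
    (hp : 0 ≤ p) (hq : 0 ≤ q) (hpq : p * (∏ a, ρ a) * q < 1)
    (hdet : 1 ≤ ‖(1 - x⁻¹ • Nn).det‖) :
    ‖x‖ ^ Fintype.card ι * ‖A.det‖ ≤ ‖(1 - x • Matrix.fromBlocks A B C D).det‖ := by
  have hA' : Nn * A = 1 := mul_eq_one_comm.mp hA
  set Y : Matrix ι ι KK := 1 - x⁻¹ • Nn with hY
  have hY0 : Y.det ≠ 0 := by
    intro h0
    rw [h0, norm_zero] at hdet
    linarith
  set R : Matrix ι ι KK := (Y.det)⁻¹ • Y.adjugate with hR
  have hYR : Y * R = 1 := by
    rw [hR, Matrix.mul_smul, Matrix.mul_adjugate, smul_smul, inv_mul_cancel₀ hY0, one_smul]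
  have hRY : R * Y = 1 := mul_eq_one_comm.mp hYR
  have hfac : 1 - x • A = (-x) • (A * Y) := by
    rw [hY, Matrix.mul_sub, Matrix.mul_smul, hA, Matrix.mul_one, smul_sub, smul_smul, neg_mul,
      mul_inv_cancel₀ hx, neg_smul, neg_smul, one_smul]
    abel
  have hinv : (1 - x • A) * ((-x⁻¹) • (R * Nn)) = 1 := by
    rw [hfac, Matrix.smul_mul, Matrix.mul_smul, smul_smul, neg_mul_neg, mul_inv_cancel₀ hx,
      one_smul, Matrix.mul_assoc, ← Matrix.mul_assoc Y, hYR, Matrix.one_mul, hA]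
  let _ : Invertible (1 - x • A) := invertibleOfRightInverse _ _ hinv
  have hinvOf : ⅟(1 - x • A) = (-x⁻¹) • (R * Nn) := invOf_eq_right_inv hinv
  have hblock : 1 - x • Matrix.fromBlocks A B C D =
      Matrix.fromBlocks (1 - x • A) (-(x • B)) (-(x • C)) (1 - x • D) := by
    rw [← Matrix.fromBlocks_one, Matrix.fromBlocks_smul, sub_eq_add_neg, Matrix.fromBlocks_neg,
      Matrix.fromBlocks_add]
    simp [sub_eq_add_neg]
  -- the resolvent identity
  have hres : R = 1 + x⁻¹ • (Nn * R) := by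
    have := hYR
    rw [hY, Matrix.sub_mul, Matrix.one_mul, Matrix.smul_mul] at this
    rw [← this]
    abel
  have hsch : (1 - x • D) - (-(x • C)) * ⅟(1 - x • A) * (-(x • B)) =
      1 + (-(x • (D - C * Nn * B)) + C * Nn * R * (Nn * B)) := by
    rw [hinvOf]
    have e1 : (-(x • C)) * ((-x⁻¹) • (R * Nn)) * (-(x • B)) = -(x • (C * R * (Nn * B))) := by
      simp only [Matrix.neg_mul, Matrix.mul_neg, Matrix.smul_mul, Matrix.mul_smul, neg_smul,
        smul_neg, neg_neg, smul_smul, Matrix.mul_assoc]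
      congr 2
      field_simp
    have e2 : x • (C * R * (Nn * B)) = x • (C * Nn * B) + C * Nn * R * (Nn * B) := by
      conv_lhs => rw [hres]
      simp only [Matrix.mul_add, Matrix.add_mul, Matrix.mul_one, Matrix.mul_smul, Matrix.smul_mul,
        smul_add, smul_smul, mul_inv_cancel₀ hx, one_smul, Matrix.mul_assoc]
    rw [e1, e2, smul_sub]
    abel
  have hprod : 0 ≤ ∏ a, ρ a := Finset.prod_nonneg (fun a _ => le_trans zero_le_one (hρ1 a))
  have hYb : ∀ a b, ‖Y a b‖ ≤ ρ a := by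
    intro a b
    rw [hY, Matrix.sub_apply, Matrix.smul_apply, smul_eq_mul, sub_eq_add_neg]
    refine (IsUltrametricDist.norm_add_le_max _ _).trans (max_le ?_ (by rw [norm_neg]; exact hρ a b))
    rw [Matrix.one_apply]
    split_ifs
    · simpa using hρ1 a
    · simpa using le_trans zero_le_one (hρ1 a)
  have hRb : ∀ a b, ‖R a b‖ ≤ ∏ a, ρ a := by
    intro a b
    rw [hR, Matrix.smul_apply, smul_eq_mul, norm_mul, norm_inv]
    have h1 : ‖Y.det‖⁻¹ ≤ 1 := inv_le_one_of_one_le₀ hdet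
    have h2 := norm_adjugate_le Y ρ hρ1 hYb a b
    calc _ ≤ 1 * ∏ a, ρ a := mul_le_mul h1 h2 (norm_nonneg _) zero_le_one
      _ = _ := one_mul _
  have hH : ∀ m i, ‖(-(x • (D - C * Nn * B)) + C * Nn * R * (Nn * B)) m i‖ < 1 := by
    intro m i
    rw [Matrix.add_apply]
    refine lt_of_le_of_lt (IsUltrametricDist.norm_add_le_max _ _) (max_lt ?_ ?_)
    · rw [Matrix.neg_apply, norm_neg, Matrix.smul_apply, smul_eq_mul]
      exact hS m i
    · refine lt_of_le_of_lt ?_ hpq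
      rw [Matrix.mul_apply]
      refine IsUltrametricDist.norm_sum_le_of_forall_le_of_nonneg (by positivity) (fun a _ => ?_)
      rw [norm_mul]
      refine mul_le_mul ?_ (hQ a i) (norm_nonneg _) (by positivity)
      rw [Matrix.mul_apply]
      refine IsUltrametricDist.norm_sum_le_of_forall_le_of_nonneg (by positivity) (fun b _ => ?_)
      rw [norm_mul]
      exact mul_le_mul (hP m b) (hRb b a) (norm_nonneg _) hp
  rw [hblock, Matrix.det_fromBlocks₁₁, hsch, norm_mul, norm_det_one_add _ hH, mul_one, hfac,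
    Matrix.det_smul, Matrix.det_mul, norm_mul, norm_mul, norm_pow, norm_neg]
  refine mul_le_mul_of_nonneg_left ?_ (by positivity)
  exact le_mul_of_one_le_right (norm_nonneg _) hdet

end Pool.Agent.Lib.MP_88d29b_nt
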