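import Pool.Agent.Lib.MP_88d29b_nt.RowF
import Pool.Agent.Lib.MP_88d29b_nt.ColF
import Pool.Agent.Lib.MP_88d29b_nt.BoundD

set_option autoImplicit false

noncomputable section

namespace Pool.Agent.Lib.MP_88d29b_nt

open Finset


/-! Work with square matrices on `Idx (N + 1)` (indices `1, ..., N`): `Li * A = D * R` and
`A * E = L * D'` with `Li`, `L` unit lower triangular, `R`, `E` unit upper triangular, `D`
invertible (`piv_ne_zero`). Then `D * (R * E) = (Li * L) * D'` is both upper and lower triangular;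
comparing diagonals `D = D'`, and `R * E = 1`, `Li * L = 1`, hence also `E * R = 1`, `L * Li = 1`
and `A = L * D * R`. One can also argue entrywise with sums over `Icc 1 N`. -/

variable {s n N : ℕ}

theorem ldu_mL_zero {m j : ℕ} (h : m < j) : mL s m j = 0 := by
  simp [mL, not_le.2 h]

theorem ldu_mL_self (j : ℕ) : mL s j j = 1 := by simp [mL]

theorem ldu_mE_zero {i j : ℕ} (h : j < i) : mE s i j = 0 := by
  simp [mE, not_le.2 h]

theorem ldu_mE_self (j : ℕ) : mE s j j = 1 := by simp [mE]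

theorem ldu_mLi_zero {j m : ℕ} (h : j < m) : mLi s j m = 0 := by
  simp [mLi, not_le.2 h]

theorem ldu_mLi_self {j : ℕ} (hj : 1 ≤ j) (hs : 3 * j + 3 ≤ s) : mLi s j j = 1 := by
  have h1 : (1 : ℚ) ≤ j := by exact_mod_cast hj
  have h2 : (3 * j + 3 : ℚ) ≤ s := by exact_mod_cast hs
  have h3 : (2 * (j : ℚ) - 1) * (s + j - 2 * j) * (s - j - 2 * j) ≠ 0 := by
    refine mul_ne_zero (mul_ne_zero ?_ ?_) ?_ <;> intro h <;> linarith
  simp only [mLi, le_refl, if_true, Ico_self, prod_empty, mul_one]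
  rw [div_eq_one_iff_eq h3]
  ring

theorem ldu_mR_zero {j i : ℕ} (h : i < j) : mR s j i = 0 := by
  simp [mR, h]

theorem ldu_mR_self (j : ℕ) : mR s j j = 1 := by simp [mR]

theorem ldu_row {K j i : ℕ} (hj : j ∈ Ico 1 K) (hs : 3 * j + 3 ≤ s) (hi : 1 ≤ i)
    (hij : i + j < s) :
    ∑ m ∈ Ico 1 K, mLi s j m * matA s m i = piv s j * mR s j i := by
  rw [mem_Ico] at hj
  rw [← row_factor hj.1 hs hi hij]
  symm
  refine sum_subset (fun x hx => ?_) (fun x hx hx' => ?_)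
  · rw [mem_Icc] at hx
    rw [mem_Ico]
    omega
  · rw [mem_Ico] at hx
    rw [mem_Icc] at hx'
    rw [ldu_mLi_zero (by omega), zero_mul]

theorem ldu_col {K j m : ℕ} (hj : j ∈ Ico 1 K) :
    ∑ i ∈ Ico 1 K, matA s m i * mE s i j = ∑ i ∈ Icc 1 j, matA s m i * mE s i j := by
  rw [mem_Ico] at hj
  symm
  refine sum_subset (fun x hx => ?_) (fun x hx hx' => ?_)
  · rw [mem_Icc] at hx
    rw [mem_Ico]
    omega
  · rw [mem_Ico] at hx
    rw [mem_Icc] at hx'
    rw [ldu_mE_zero (by omega), mul_zero]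

/-- The second family of pivots. -/
def lduD (s j : ℕ) : ℚ :=
  if h : 1 ≤ j ∧ 3 * j + 3 ≤ s then Classical.choose (col_factor h.1 h.2) else 0

theorem ldu_D_spec {j m : ℕ} (hj : 1 ≤ j) (hs : 3 * j + 3 ≤ s) (hm : 1 ≤ m)
    (hms : 3 * m + 3 ≤ s) :
    ∑ i ∈ Icc 1 j, matA s m i * mE s i j = mL s m j * lduD s j := by
  rw [lduD, dif_pos ⟨hj, hs⟩]
  exact Classical.choose_spec (col_factor hj hs) m hm hms

/-- The leading block of a function of two natural numbers. -/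
def lduM (K : ℕ) (f : ℕ → ℕ → ℚ) : Matrix (Idx K) (Idx K) ℚ := Matrix.of fun a b => f a b

theorem ldu_mul_apply (K : ℕ) (f g : ℕ → ℕ → ℚ) (a b : Idx K) :
    (lduM K f * lduM K g) a b = ∑ x ∈ Ico 1 K, f a x * g x b := by
  rw [Matrix.mul_apply]
  exact sum_coe_sort (Ico 1 K) (fun x => f a x * g x b)

theorem ldu_idx {K : ℕ} (hK : 3 * K ≤ s) (a : Idx K) : 1 ≤ (a : ℕ) ∧ 3 * (a : ℕ) + 3 ≤ s := by
  have := mem_Ico.1 a.2
  omega

theorem ldu_LiA {K : ℕ} (hK : 3 * K ≤ s) :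
    lduM K (mLi s) * lduM K (matA s) =
      Matrix.diagonal (fun j : Idx K => piv s j) * lduM K (mR s) := by
  ext a b
  have ha := ldu_idx hK a
  have hb := ldu_idx hK b
  rw [ldu_mul_apply, Matrix.diagonal_mul, ldu_row a.2 ha.2 hb.1 (by omega)]
  rfl

theorem ldu_AE {K : ℕ} (hK : 3 * K ≤ s) :
    lduM K (matA s) * lduM K (mE s) =
      lduM K (mL s) * Matrix.diagonal (fun j : Idx K => lduD s j) := by
  ext a b
  have ha := ldu_idx hK a
  have hb := ldu_idx hK b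
  rw [ldu_mul_apply, Matrix.mul_diagonal, ldu_col b.2, ldu_D_spec hb.1 hb.2 ha.1 ha.2]
  rfl

theorem ldu_key {K : ℕ} (hK : 3 * K ≤ s) (a b : Idx K) :
    piv s a * (lduM K (mR s) * lduM K (mE s)) a b =
      (lduM K (mLi s) * lduM K (mL s)) a b * lduD s b := by
  have h : Matrix.diagonal (fun j : Idx K => piv s j) * (lduM K (mR s) * lduM K (mE s)) =
      (lduM K (mLi s) * lduM K (mL s)) * Matrix.diagonal (fun j : Idx K => lduD s j) := by
    rw [← Matrix.mul_assoc, ← ldu_LiA hK, Matrix.mul_assoc, ldu_AE hK, Matrix.mul_assoc]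
  have h' := congrFun (congrFun h a) b
  rwa [Matrix.diagonal_mul, Matrix.mul_diagonal] at h'

theorem ldu_RE_low {K : ℕ} {a b : Idx K} (h : (b : ℕ) < a) :
    (lduM K (mR s) * lduM K (mE s)) a b = 0 := by
  rw [ldu_mul_apply]
  refine sum_eq_zero fun x _ => ?_
  rcases lt_or_ge x a with hx | hx
  · rw [ldu_mR_zero hx, zero_mul]
  · rw [ldu_mE_zero (by omega), mul_zero]

theorem ldu_RE_diag {K : ℕ} (a : Idx K) : (lduM K (mR s) * lduM K (mE s)) a a = 1 := by
  rw [ldu_mul_apply, sum_eq_single_of_mem (a : ℕ) a.2, ldu_mR_self, ldu_mE_self, one_mul]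
  intro x _ hx
  rcases lt_or_gt_of_ne hx with hx | hx
  · rw [ldu_mR_zero hx, zero_mul]
  · rw [ldu_mE_zero hx, mul_zero]

theorem ldu_LL_up {K : ℕ} {a b : Idx K} (h : (a : ℕ) < b) :
    (lduM K (mLi s) * lduM K (mL s)) a b = 0 := by
  rw [ldu_mul_apply]
  refine sum_eq_zero fun x _ => ?_
  rcases lt_or_ge x b with hx | hx
  · rw [ldu_mL_zero hx, mul_zero]
  · rw [ldu_mLi_zero (by omega), zero_mul]

theorem ldu_LL_diag {K : ℕ} (hK : 3 * K ≤ s) (a : Idx K) :
    (lduM K (mLi s) * lduM K (mL s)) a a = 1 := by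
  have ha := ldu_idx hK a
  rw [ldu_mul_apply, sum_eq_single_of_mem (a : ℕ) a.2, ldu_mLi_self ha.1 ha.2, ldu_mL_self,
    one_mul]
  intro x _ hx
  rcases lt_or_gt_of_ne hx with hx | hx
  · rw [ldu_mL_zero hx, mul_zero]
  · rw [ldu_mLi_zero hx, zero_mul]

theorem ldu_D_eq {K : ℕ} (hK : 3 * K ≤ s) (a : Idx K) : lduD s a = piv s a := by
  have h := ldu_key hK a a
  rw [ldu_RE_diag, ldu_LL_diag hK, mul_one, one_mul] at h
  exact h.symm

theorem ldu_LiL {K : ℕ} (hK : 3 * K ≤ s) : lduM K (mLi s) * lduM K (mL s) = 1 := by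
  ext a b
  have hb := ldu_idx hK b
  rcases lt_trichotomy (a : ℕ) b with h | h | h
  · rw [ldu_LL_up h, Matrix.one_apply_ne (fun h' => by rw [h'] at h; exact lt_irrefl _ h)]
  · obtain rfl : a = b := Subtype.ext h
    rw [ldu_LL_diag hK, Matrix.one_apply_eq]
  · have h1 := ldu_key hK a b
    rw [ldu_RE_low h, mul_zero, ldu_D_eq hK] at h1
    rw [Matrix.one_apply_ne (fun h' => by rw [h'] at h; exact lt_irrefl _ h)]
    exact (mul_eq_zero.1 h1.symm).resolve_right (piv_ne_zero hb.1 hb.2)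

theorem ldu_LLi {K : ℕ} (hK : 3 * K ≤ s) : lduM K (mL s) * lduM K (mLi s) = 1 :=
  mul_eq_one_comm.1 (ldu_LiL hK)

theorem ldu_A {K : ℕ} (hK : 3 * K ≤ s) :
    lduM K (matA s) =
      lduM K (mL s) * (Matrix.diagonal (fun j : Idx K => piv s j) * lduM K (mR s)) := by
  rw [← ldu_LiA hK, ← Matrix.mul_assoc, ldu_LLi hK, Matrix.one_mul]


theorem col_factor' {j m : ℕ} (hj : 1 ≤ j) (hs : 3 * j + 3 ≤ s) (hm : 1 ≤ m)
    (hms : 3 * m + 3 ≤ s) :
    ∑ i ∈ Icc 1 j, matA s m i * mE s i j = mL s m j * piv s j := by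
  rw [ldu_D_spec hj hs hm hms]
  have := ldu_D_eq (s := s) (K := j + 1) (by omega) ⟨j, mem_Ico.2 ⟨hj, by omega⟩⟩
  exact congrArg _ this

theorem ldu_eq (hN : 3 * N + 3 ≤ s) {m i : ℕ} (hm : m ∈ Icc 1 N) (hi : i ∈ Icc 1 N) :
    ∑ j ∈ Icc 1 N, mL s m j * piv s j * mR s j i = matA s m i := by
  rw [mem_Icc] at hm hi
  have h := congrFun (congrFun (ldu_A (s := s) (K := N + 1) (by omega))
    ⟨m, mem_Ico.2 ⟨hm.1, by omega⟩⟩) ⟨i, mem_Ico.2 ⟨hi.1, by omega⟩⟩
  rw [Matrix.mul_apply] at h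
  simp only [Matrix.diagonal_mul] at h
  have h2 : Icc 1 N = Ico 1 (N + 1) := by
    ext x
    simp only [mem_Icc, mem_Ico]
    omega
  rw [h2, ← sum_coe_sort (Ico 1 (N + 1))]
  refine Eq.trans ?_ h.symm
  refine sum_congr rfl fun x _ => ?_
  rw [mul_assoc]
  rfl

theorem ldu_P (hN : 3 * N + 3 ≤ s) (hn : n ≤ N) {m b : ℕ} (hm : m ∈ Icc 1 N) :
    ∑ a ∈ Ico 1 n, matA s m a * nInv s n a b = pP s n m b := by
  rw [mem_Icc] at hm
  simp only [nInv, pP, mul_sum]
  rw [sum_comm]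
  refine sum_congr rfl fun j hj => ?_
  have hj' := mem_Ico.1 hj
  have h1 := col_factor' (s := s) hj'.1 (by omega) hm.1 (by omega)
  rw [← ldu_col hj] at h1
  have h2 : piv s j ≠ 0 := piv_ne_zero hj'.1 (by omega)
  calc ∑ a ∈ Ico 1 n, matA s m a * (mE s a j * (piv s j)⁻¹ * mLi s j b)
      = (∑ a ∈ Ico 1 n, matA s m a * mE s a j) * ((piv s j)⁻¹ * mLi s j b) := by
        rw [sum_mul]
        exact sum_congr rfl fun a _ => by ring
    _ = _ := by
        rw [h1]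
        field_simp

theorem ldu_P_one (hN : 3 * n + 3 ≤ s) {m b : ℕ} (hm : m ∈ Ico 1 n) (hb : b ∈ Ico 1 n) :
    pP s n m b = if m = b then 1 else 0 := by
  have h := congrFun (congrFun (ldu_LLi (s := s) (K := n) (by omega)) ⟨m, hm⟩) ⟨b, hb⟩
  rw [ldu_mul_apply, Matrix.one_apply] at h
  simpa [pP] using h

theorem ldu_Q (hN : 3 * N + 3 ≤ s) (hn : n ≤ N) {a i : ℕ} (hi : i ∈ Icc 1 N) :
    ∑ b ∈ Ico 1 n, nInv s n a b * matA s b i = pQ s n a i := by
  rw [mem_Icc] at hi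
  simp only [nInv, pQ, sum_mul]
  rw [sum_comm]
  refine sum_congr rfl fun j hj => ?_
  have hj' := mem_Ico.1 hj
  have h1 := ldu_row (s := s) hj (by omega) hi.1 (by omega)
  have h2 : piv s j ≠ 0 := piv_ne_zero hj'.1 (by omega)
  calc ∑ b ∈ Ico 1 n, mE s a j * (piv s j)⁻¹ * mLi s j b * matA s b i
      = mE s a j * (piv s j)⁻¹ * ∑ b ∈ Ico 1 n, mLi s j b * matA s b i := by
        rw [mul_sum]
        exact sum_congr rfl fun a _ => by ring
    _ = _ := by
        rw [h1]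
        field_simp

theorem ldu_S (hN : 3 * N + 3 ≤ s) (hn1 : 1 ≤ n) (hn : n ≤ N) {m i : ℕ} (hm : m ∈ Icc 1 N)
    (hi : i ∈ Icc 1 N) :
    matA s m i - ∑ b ∈ Ico 1 n, pP s n m b * matA s b i = pS s n N m i := by
  have h0 := ldu_eq hN hm hi
  rw [mem_Icc] at hi
  have h1 : ∑ b ∈ Ico 1 n, pP s n m b * matA s b i =
      ∑ j ∈ Ico 1 n, mL s m j * piv s j * mR s j i := by
    simp only [pP, sum_mul]
    rw [sum_comm]
    refine sum_congr rfl fun j hj => ?_
    have hj' := mem_Ico.1 hj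
    rw [mul_assoc, ← ldu_row (s := s) hj (by omega) hi.1 (by omega), mul_sum]
    exact sum_congr rfl fun a _ => by ring
  have h2 : Icc 1 N = Ico 1 n ∪ Icc n N := by
    ext x
    simp only [mem_Icc, mem_Ico, mem_union]
    omega
  have h3 : Disjoint (Ico 1 n) (Icc n N) := by
    rw [disjoint_left]
    intro x hx hx'
    rw [mem_Ico] at hx
    rw [mem_Icc] at hx'
    omega
  rw [h1, ← h0, h2, sum_union h3, pS]
  ring

theorem ldu_det (hN : 3 * n + 3 ≤ s) :
    (Matrix.of (fun m i : Idx n => matA s m i)).det = ∏ j ∈ Ico 1 n, piv s j := by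
  have h := ldu_A (s := s) (K := n) (by omega)
  have hL : (lduM n (mL s)).det = 1 := by
    rw [Matrix.det_of_isLowerTriangular]
    · exact prod_eq_one fun a _ => ldu_mL_self _
    · intro a b hab
      exact ldu_mL_zero hab
  have hR : (lduM n (mR s)).det = 1 := by
    rw [Matrix.det_of_isUpperTriangular]
    · exact prod_eq_one fun a _ => ldu_mR_self _
    · intro a b hab
      exact ldu_mR_zero hab
  change (lduM n (matA s)).det = _
  rw [h, Matrix.det_mul, Matrix.det_mul, hL, hR, Matrix.det_diagonal, one_mul, mul_one]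
  exact prod_coe_sort (Ico 1 n) (fun j => piv s j)

end Pool.Agent.Lib.MP_88d29b_nt
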