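import Pool.Agent.Lib.MP_88d29b_nt.Near
import Pool.Agent.Lib.MP_88d29b_nt.LDU

set_option autoImplicit false

noncomputable section

namespace Pool.Agent.Lib.MP_88d29b_nt

open Finset

/-- The standing hypotheses of the cut theorem. -/
structure CutHyp (e s n N r : ℕ) (g : ℝ) (M : ℕ → ℕ → ℤ) : Prop where
  he : e ≤ 1
  hM : Closed e s M
  hn : 1 ≤ n
  hN : 3 * N + 3 ≤ s
  hJ : (n : ℝ) + 7 * Lam s + 4 ≤ N
  hr : 2 ^ r ∣ n
  hG : Gen s n g
  hg : 0 ≤ g

/-! For indices at most `N` one has `M m i = rho e s m * matA s m i * (kap e s i)⁻¹` (`Closed`,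
`ent_eq`), so the sums below reduce to `pP`, `pQ` (`ldu_P`, `ldu_Q`) times powers of `4` and the
factors `rho`, `kap`; a power `4 ^ (m - b)` with `b < n ≤ m` gains `2 * (dd n m + dd n b)`. For an
index larger than `N` use that `M` is integral, `glob_nInv`, `glob_rho` (a loss of
`10 * Lam s + 2`) and the gain `2 * (N - n) ≥ 14 * Lam s + 8`; also `r ≤ Lam s`. -/

variable {e s n N r : ℕ} {g : ℝ} {M : ℕ → ℕ → ℤ}

theorem CutHyp.le_N (h : CutHyp e s n N r g M) : n ≤ N := by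
  have h1 := one_le_Lam (s := s) (by have := h.hN; omega)
  have h2 := h.hJ
  have h3 : (n : ℝ) ≤ N := by linarith
  exact_mod_cast h3

private lemma cuta_c_ne (e : ℕ) : (2 : ℚ) ^ e / 2 ≠ 0 := by positivity

private lemma cuta_ent (h : CutHyp e s n N r g M) {m i : ℕ} (hm1 : 1 ≤ m) (hm : m ≤ N)
    (hi1 : 1 ≤ i) (hi : i ≤ N) :
    (M m i : ℚ) = rho e s m * matA s m i * (kap e s i)⁻¹ := by
  have hN := h.hN
  rw [h.hM m i hm1 hi1 (by omega) (by omega), ent_eq (by omega)]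

private lemma cuta_termP (e s n : ℕ) (M : ℕ → ℕ → ℤ) (m a b : ℕ) :
    uEnt e M m a * nT e s n a b =
      4 ^ m * ((4 : ℚ) ^ b)⁻¹ * (M m a : ℚ) * kap e s a * nInv s n a b * (rho e s b)⁻¹ := by
  have h1 := cuta_c_ne e
  unfold uEnt nT
  generalize (2 : ℚ) ^ e / 2 = c at h1
  generalize (rho e s b)⁻¹ = w
  rw [pow_add, pow_add]
  field_simp

private lemma cuta_termQ (e s n : ℕ) (M : ℕ → ℕ → ℤ) (a b i : ℕ) :
    nT e s n a b * uEnt e M b i =
      ((4 : ℚ) ^ a)⁻¹ * 4 ^ i * kap e s a * nInv s n a b * (rho e s b)⁻¹ * (M b i : ℚ) := by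
  have h1 := cuta_c_ne e
  unfold uEnt nT
  generalize (2 : ℚ) ^ e / 2 = c at h1
  generalize (rho e s b)⁻¹ = w
  rw [pow_add, pow_add]
  field_simp

private lemma cuta_sumP (h : CutHyp e s n N r g M) {m b : ℕ} (hm : m ∈ Icc 1 N) :
    ∑ a ∈ Ico 1 n, uEnt e M m a * nT e s n a b =
      4 ^ m * ((4 : ℚ) ^ b)⁻¹ * rho e s m * (rho e s b)⁻¹ * pP s n m b := by
  have hn := h.le_N
  have hN := h.hN
  rw [← ldu_P hN hn hm, mul_sum]
  refine sum_congr rfl fun a ha => ?_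
  rw [mem_Ico] at ha
  rw [mem_Icc] at hm
  have hk : kap e s a ≠ 0 := kap_ne_zero e (by omega)
  rw [cuta_termP, cuta_ent h hm.1 hm.2 ha.1 (by omega)]
  generalize (rho e s b)⁻¹ = w
  generalize ((4 : ℚ) ^ b)⁻¹ = v
  field_simp

private lemma cuta_sumQ (h : CutHyp e s n N r g M) {a i : ℕ} (hi : i ∈ Icc 1 N) :
    ∑ b ∈ Ico 1 n, nT e s n a b * uEnt e M b i =
      ((4 : ℚ) ^ a)⁻¹ * 4 ^ i * kap e s a * (kap e s i)⁻¹ * pQ s n a i := by
  have hn := h.le_N
  have hN := h.hN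
  rw [← ldu_Q hN hn hi, mul_sum]
  refine sum_congr rfl fun b hb => ?_
  rw [mem_Ico] at hb
  rw [mem_Icc] at hi
  have hk : rho e s b ≠ 0 := rho_ne_zero e (by omega)
  rw [cuta_termQ, cuta_ent h hb.1 (by omega) hi.1 hi.2]
  generalize (kap e s i)⁻¹ = w
  generalize ((4 : ℚ) ^ a)⁻¹ = v
  field_simp

private lemma cuta_dd_ge {n x : ℕ} (h : n ≤ x) : dd n x = (x : ℝ) - n := by
  have : (n : ℝ) ≤ x := by exact_mod_cast h
  exact abs_of_nonneg (by linarith)

private lemma cuta_dd_le {n x : ℕ} (h : x ≤ n) : dd n x = (n : ℝ) - x := by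
  have : (x : ℝ) ≤ n := by exact_mod_cast h
  rw [dd, abs_of_nonpos (by linarith)]
  ring

private lemma cuta_r_le (h : CutHyp e s n N r g M) : (r : ℝ) ≤ Lam s := by
  have hn := h.le_N
  have hN := h.hN
  have h1 : 2 ^ r ≤ n := Nat.le_of_dvd h.hn h.hr
  have h2 : 2 ^ r ≤ 2 * s := by omega
  have h3 : (0 : ℝ) < s := by exact_mod_cast (by omega : 0 < s)
  rw [Lam, Real.le_logb_iff_rpow_le (by norm_num) (by positivity), Real.rpow_natCast]
  exact_mod_cast h2

theorem cut_inv (h : CutHyp e s n N r g M) {m b : ℕ} (hm : m ∈ Ico 1 n) (hb : b ∈ Ico 1 n) :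
    ∑ a ∈ Ico 1 n, uEnt e M m a * nT e s n a b = if m = b then 1 else 0 := by
  have hn := h.le_N
  have hN := h.hN
  have hm' := mem_Ico.mp hm
  rw [cuta_sumP h (mem_Icc.mpr ⟨hm'.1, by omega⟩), ldu_P_one (by omega) hm hb]
  split_ifs with hmb
  · subst hmb
    have hk : rho e s m ≠ 0 := rho_ne_zero e (by omega)
    field_simp
  · rw [mul_zero]

theorem cut_P (h : CutHyp e s n N r g M) {m b : ℕ} (hm : n ≤ m) (hb : b ∈ Ico 1 n) :
    Bd (∑ a ∈ Ico 1 n, uEnt e M m a * nT e s n a b) (3 * (g + 26)) := by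
  have hn := h.le_N
  have hN := h.hN
  have hn1 := h.hn
  have hg := h.hg
  have hb' := mem_Ico.mp hb
  have hbn : (b : ℝ) ≤ n := by exact_mod_cast hb'.2.le
  by_cases hmN : m ≤ N
  · rw [cuta_sumP h (mem_Icc.mpr ⟨by omega, hmN⟩)]
    refine (((((bd_four_pow m).mul (bd_four_pow_inv b)).mul (bd_rho e s m)).mul
      (loc_rho h.hG hg e (by omega : 3 * b < s))).mul
      (near_pP h.hG hg hN (mem_Icc.mpr ⟨hm, hmN⟩) hb)).mono ?_
    have hmn : (n : ℝ) ≤ m := by exact_mod_cast hm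
    rw [cuta_dd_ge hm, cuta_dd_le hb'.2.le]
    linarith
  · refine bd_sum _ _ fun a ha => ?_
    rw [cuta_termP]
    refine ((((((bd_four_pow m).mul (bd_four_pow_inv b)).mul (bd_int (M m a))).mul
      (bd_kap e s a)).mul (glob_nInv (by omega) ha hb)).mul
      (glob_rho e (by omega : 3 * b < s))).mono ?_
    have h1 := one_le_Lam (s := s) (by omega)
    have h2 := h.hJ
    have h3 : (N : ℝ) ≤ m := by exact_mod_cast (by omega : N ≤ m)
    linarith

theorem cut_Q (h : CutHyp e s n N r g M) {a i : ℕ} (ha : a ∈ Ico 1 n) (hi : n ≤ i) :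
    Bd (∑ b ∈ Ico 1 n, nT e s n a b * uEnt e M b i) (-(r : ℝ) + 3 * (g + 26)) := by
  have hn := h.le_N
  have hN := h.hN
  have hn1 := h.hn
  have hg := h.hg
  have ha' := mem_Ico.mp ha
  have han : (a : ℝ) ≤ n := by exact_mod_cast ha'.2.le
  by_cases hiN : i ≤ N
  · rw [cuta_sumQ h (mem_Icc.mpr ⟨by omega, hiN⟩)]
    refine (((((bd_four_pow_inv a).mul (bd_four_pow i)).mul (bd_kap e s a)).mul
      (loc_kap h.hG hg e (by omega : 3 * i < s))).mul
      (near_pQ h.hG hg hN h.hr ha (mem_Icc.mpr ⟨hi, hiN⟩))).mono ?_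
    have hin : (n : ℝ) ≤ i := by exact_mod_cast hi
    rw [cuta_dd_ge hi, cuta_dd_le ha'.2.le]
    linarith
  · refine bd_sum _ _ fun b hb => ?_
    have hb' := mem_Ico.mp hb
    rw [cuta_termQ]
    refine ((((((bd_four_pow_inv a).mul (bd_four_pow i)).mul (bd_kap e s a)).mul
      (glob_nInv (by omega) ha hb)).mul (glob_rho e (by omega : 3 * b < s))).mul
      (bd_int (M b i))).mono ?_
    have h1 := one_le_Lam (s := s) (by omega)
    have h2 := h.hJ
    have h3 : (N : ℝ) ≤ i := by exact_mod_cast (by omega : N ≤ i)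
    have h4 := cuta_r_le h
    linarith

private lemma cuta_bd_c {e : ℕ} (he : e ≤ 1) : Bd (((2 : ℚ) ^ e / 2)⁻¹) 0 := by
  obtain rfl | rfl : e = 0 ∨ e = 1 := by omega
  · have := bd_int 2
    simpa using this
  · have := bd_one
    simpa using this

/-- `near_nInv`, `loc_rho`; the factor `(2 ^ e / 2)⁻¹` has norm at most one. -/
theorem cut_N (h : CutHyp e s n N r g M) {a b : ℕ} (ha : a ∈ Ico 1 n) (hb : b ∈ Ico 1 n) :
    Bd (piv s n * nT e s n a b) (4 * (n : ℝ) + 5 * (g + 26) - dd n a) := by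
  have hn := h.le_N
  have hN := h.hN
  have hg := h.hg
  have ha' := mem_Ico.mp ha
  have hb' := mem_Ico.mp hb
  have han : (a : ℝ) ≤ n := by exact_mod_cast ha'.2.le
  have hbn : (b : ℝ) ≤ n := by exact_mod_cast hb'.2.le
  have h1 : piv s n * nT e s n a b = ((2 : ℚ) ^ e / 2)⁻¹ * ((4 : ℚ) ^ (a + b))⁻¹ * kap e s a *
      (piv s n * nInv s n a b) * (rho e s b)⁻¹ := by
    unfold nT
    rw [mul_inv]
    ring
  rw [h1]
  refine (((((cuta_bd_c h.he).mul (bd_four_pow_inv (a + b))).mul (bd_kap e s a)).mul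
    (near_nInv h.hG hg hN hn ha hb)).mul (loc_rho h.hG hg e (by omega : 3 * b < s))).mono ?_
  rw [cuta_dd_le ha'.2.le, cuta_dd_le hb'.2.le]
  push_cast
  linarith

end Pool.Agent.Lib.MP_88d29b_nt
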