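import Pool.Agent.Lib.MP_88d29b_nt.CutA

set_option autoImplicit false

noncomputable section

namespace Pool.Agent.Lib.MP_88d29b_nt

open Finset


variable {e s n N r : ℕ} {g : ℝ} {M : ℕ → ℕ → ℤ}

lemma cutB_c_ne (e : ℕ) : (2 : ℚ) ^ e / 2 ≠ 0 := by positivity

lemma cutB_bd_c (e : ℕ) : Bd ((2 : ℚ) ^ e / 2) 1 := by
  have h1 := bd_two_pow e
  have h2 := bd_two_pow_inv 1
  have h3 := h1.mul h2
  have h4 : (2 : ℚ) ^ e * (2 ^ 1)⁻¹ = 2 ^ e / 2 := by rw [pow_one, div_eq_mul_inv]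
  rw [h4] at h3
  refine h3.mono ?_
  have : (0 : ℝ) ≤ e := Nat.cast_nonneg e
  push_cast
  linarith

lemma cutB_bd_c_inv (he : e ≤ 1) : Bd (((2 : ℚ) ^ e / 2)⁻¹) 0 := by
  rcases Nat.le_one_iff_eq_zero_or_eq_one.mp he with rfl | rfl
  · have : ((2 : ℚ) ^ 0 / 2)⁻¹ = ((2 : ℕ) : ℚ) := by norm_num
    rw [this]
    exact bd_nat 2
  · have : ((2 : ℚ) ^ 1 / 2)⁻¹ = 1 := by norm_num
    rw [this]
    exact bd_one

/-- The closed form of the entries on the leading block. -/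
lemma cutB_M (h : CutHyp e s n N r g M) {m i : ℕ} (hm1 : 1 ≤ m) (hm : m ≤ N) (hi1 : 1 ≤ i)
    (hi : i ≤ N) : (M m i : ℚ) = rho e s m * matA s m i * (kap e s i)⁻¹ := by
  have hN := h.hN
  rw [h.hM m i hm1 hi1 (by omega) (by omega), ent_eq (by omega)]

lemma cutB_term (e s n : ℕ) (M : ℕ → ℕ → ℤ) (m a b i : ℕ) :
    uEnt e M m a * nT e s n a b * uEnt e M b i =
      2 ^ e / 2 * 4 ^ (m + i) *
        ((M m a : ℚ) * kap e s a * nInv s n a b * (rho e s b)⁻¹ * (M b i : ℚ)) := by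
  have hc := cutB_c_ne e
  have h4a : (4 : ℚ) ^ a ≠ 0 := by positivity
  have h4b : (4 : ℚ) ^ b ≠ 0 := by positivity
  unfold uEnt nT
  generalize (2 : ℚ) ^ e / 2 = c at hc ⊢
  generalize (rho e s b)⁻¹ = u
  simp only [pow_add]
  field_simp

lemma cutB_schur (e s n : ℕ) (M : ℕ → ℕ → ℤ) (m i : ℕ) :
    uEnt e M m i -
      ∑ b ∈ Ico 1 n, (∑ a ∈ Ico 1 n, uEnt e M m a * nT e s n a b) * uEnt e M b i =
      2 ^ e / 2 * 4 ^ (m + i) * ((M m i : ℚ) - ∑ b ∈ Ico 1 n, ∑ a ∈ Ico 1 n,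
        (M m a : ℚ) * kap e s a * nInv s n a b * (rho e s b)⁻¹ * (M b i : ℚ)) := by
  rw [mul_sub, mul_sum]
  congr 1
  refine sum_congr rfl fun b _ => ?_
  rw [sum_mul, mul_sum]
  exact sum_congr rfl fun a _ => cutB_term e s n M m a b i

lemma cutB_inner (h : CutHyp e s n N r g M) {m i : ℕ} (hm : m ∈ Icc n N) (hi : i ∈ Icc n N) :
    (M m i : ℚ) - ∑ b ∈ Ico 1 n, ∑ a ∈ Ico 1 n,
        (M m a : ℚ) * kap e s a * nInv s n a b * (rho e s b)⁻¹ * (M b i : ℚ) =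
      rho e s m * pS s n N m i * (kap e s i)⁻¹ := by
  have hN := h.hN
  have hn := h.hn
  have hnN := h.le_N
  rw [mem_Icc] at hm hi
  have hm' : m ∈ Icc 1 N := mem_Icc.mpr ⟨by omega, hm.2⟩
  have hi' : i ∈ Icc 1 N := mem_Icc.mpr ⟨by omega, hi.2⟩
  rw [← ldu_S hN hn hnN hm' hi', cutB_M h (by omega) hm.2 (by omega) hi.2, mul_sub, sub_mul,
    mul_sum, sum_mul]
  congr 1
  refine sum_congr rfl fun b hb => ?_
  rw [mem_Ico] at hb
  rw [← ldu_P hN hnN hm', sum_mul, mul_sum, sum_mul]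
  refine sum_congr rfl fun a ha => ?_
  rw [mem_Ico] at ha
  rw [cutB_M h (by omega) hm.2 ha.1 (by omega), cutB_M h hb.1 (by omega) (by omega) hi.2]
  have h1 : kap e s a ≠ 0 := kap_ne_zero e (by omega)
  have h2 : rho e s b ≠ 0 := rho_ne_zero e (by omega)
  generalize (kap e s i)⁻¹ = u
  field_simp

/-- For `m, i ≤ N` the Schur complement is
`2 ^ e / 2 * 4 ^ (m + i) * rho e s m * pS s n N m i * (kap e s i)⁻¹` (`ldu_P`, `ldu_S`); use
`near_pS`, `loc_kap`; the factor `2 ^ e / 2` has norm at most `2`. If `m > N` or `i > N` bound every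
term using integrality of `M`, `glob_nInv`, `glob_rho`, `bd_piv`. -/
theorem cut_S (h : CutHyp e s n N r g M) {m i : ℕ} (hm : n ≤ m) (hi : n ≤ i) :
    Bd ((piv s n)⁻¹ * (uEnt e M m i -
      ∑ b ∈ Ico 1 n, (∑ a ∈ Ico 1 n, uEnt e M m a * nT e s n a b) * uEnt e M b i))
      (-(4 * (n : ℝ)) + 5 * (g + 26) + 1) := by
  have hN := h.hN
  have hn := h.hn
  have hnN := h.le_N
  have hg := h.hg
  have hL : 1 ≤ Lam s := one_le_Lam (by omega)
  have hmR : (n : ℝ) ≤ m := by exact_mod_cast hm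
  have hiR : (n : ℝ) ≤ i := by exact_mod_cast hi
  rw [cutB_schur]
  by_cases hc : m ≤ N ∧ i ≤ N
  · have hm' : m ∈ Icc n N := mem_Icc.mpr ⟨hm, hc.1⟩
    have hi' : i ∈ Icc n N := mem_Icc.mpr ⟨hi, hc.2⟩
    rw [cutB_inner h hm' hi']
    have h1 := near_pS h.hG hg hN hn hm' hi'
    have h2 := loc_kap h.hG hg e (i := i) (by omega)
    have h3 := ((((cutB_bd_c e).mul (bd_four_pow (m + i))).mul (bd_rho e s m)).mul h1).mul h2
    have h4 : (piv s n)⁻¹ * (2 ^ e / 2 * 4 ^ (m + i) *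
        (rho e s m * pS s n N m i * (kap e s i)⁻¹)) =
        2 ^ e / 2 * 4 ^ (m + i) * rho e s m * ((piv s n)⁻¹ * pS s n N m i) * (kap e s i)⁻¹ := by
      ring
    rw [h4]
    refine h3.mono ?_
    have hdm : dd n m = m - n := abs_of_nonneg (by linarith)
    have hdi : dd n i = i - n := abs_of_nonneg (by linarith)
    rw [hdm, hdi]
    push_cast
    linarith
  · have hJ := h.hJ
    have hmi : n + N + 1 ≤ m + i := by omega
    have hmi' : (n : ℝ) + N + 1 ≤ m + i := by exact_mod_cast hmi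
    have h1 := (bd_piv hn (by omega : 3 * n + 3 ≤ s)).2
    have h2 : Bd ((M m i : ℚ) - ∑ b ∈ Ico 1 n, ∑ a ∈ Ico 1 n,
        (M m a : ℚ) * kap e s a * nInv s n a b * (rho e s b)⁻¹ * (M b i : ℚ))
        (10 * Lam s + 2) := by
      refine Bd.sub ((bd_int _).mono (by linarith)) ?_
      refine bd_sum _ _ fun b hb => bd_sum _ _ fun a ha => ?_
      have hb' := mem_Ico.mp hb
      have h3 := ((((bd_int (M m a)).mul (bd_kap e s a)).mul
        (glob_nInv (by omega : 3 * n + 3 ≤ s) ha hb)).mul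
        (glob_rho e (by omega : 3 * b < s))).mul (bd_int (M b i))
      exact h3.mono (by linarith)
    refine (h1.mul (((cutB_bd_c e).mul (bd_four_pow (m + i))).mul h2)).mono ?_
    push_cast
    linarith

lemma cutB_le_nrm {x : ℚ} {t : ℝ} (hx : x ≠ 0) (h : Bd x⁻¹ t) : (2 : ℝ) ^ (-t) ≤ nrm x := by
  unfold Bd at h
  rw [nrm_inv] at h
  rw [Real.rpow_neg (by norm_num)]
  exact inv_le_of_inv_le₀ (nrm_pos hx) h

lemma cutB_sum (n : ℕ) (hn : 1 ≤ n) (L : ℝ) :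
    ∑ j ∈ Ico 1 n, (-(4 * (j : ℝ) + 3 * L)) = -(2 * (n : ℝ) * (n - 1)) - 3 * ((n : ℝ) - 1) * L := by
  induction n, hn using Nat.le_induction with
  | base => simp
  | succ k hk ih =>
    rw [sum_Ico_succ_top hk, ih]
    push_cast
    ring

/-- The block is `diagonal (2 ^ e / 2 * 4 ^ m * rho m) * A * diagonal (4 ^ i * (kap i)⁻¹)`; use
`ldu_det`, `bd_piv`, `glob_rho`, `bd_kap` and `∑ m ∈ Ico 1 n, 4 m = 2 n (n - 1)`. -/
theorem cut_det (h : CutHyp e s n N r g M) :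
    (2 : ℝ) ^ (-(2 * (n : ℝ) * (n - 1)) - 3 * ((n : ℝ) - 1) * Lam s) ≤
      nrm (matU e n M).det := by
  have hN := h.hN
  have hn := h.hn
  have hnN := h.le_N
  have h1 : matU e n M =
      Matrix.diagonal (fun m : Idx n => 2 ^ e / 2 * 4 ^ (m : ℕ) * rho e s m) *
        Matrix.of (fun m i : Idx n => matA s m i) *
        Matrix.diagonal (fun i : Idx n => 4 ^ (i : ℕ) * (kap e s i)⁻¹) := by
    ext m i
    have hm := mem_Ico.mp m.2
    have hi := mem_Ico.mp i.2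
    rw [Matrix.mul_diagonal, Matrix.diagonal_mul, Matrix.of_apply, matU, uEnt,
      cutB_M h hm.1 (by omega) hi.1 (by omega), pow_add]
    ring
  have h2 : (matU e n M).det = ∏ j ∈ Ico 1 n,
      (2 ^ e / 2 * 4 ^ j * rho e s j * piv s j * (4 ^ j * (kap e s j)⁻¹)) := by
    rw [h1, Matrix.det_mul, Matrix.det_mul, Matrix.det_diagonal, Matrix.det_diagonal,
      ldu_det (by omega),
      prod_coe_sort (Ico 1 n) (fun m : ℕ => (2 : ℚ) ^ e / 2 * 4 ^ m * rho e s m),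
      prod_coe_sort (Ico 1 n) (fun i : ℕ => (4 : ℚ) ^ i * (kap e s i)⁻¹),
      ← prod_mul_distrib, ← prod_mul_distrib]
  rw [h2, nrm_prod, ← cutB_sum n hn, Real.rpow_sum_of_pos (by norm_num)]
  refine prod_le_prod (fun j _ => by positivity) fun j hj => ?_
  have hj' := mem_Ico.mp hj
  have hc := cutB_c_ne e
  have hr : rho e s j ≠ 0 := rho_ne_zero e (by omega)
  have hk : kap e s j ≠ 0 := kap_ne_zero e (by omega)
  have hp : piv s j ≠ 0 := piv_ne_zero hj'.1 (by omega)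
  have h4 : (4 : ℚ) ^ j ≠ 0 := by positivity
  refine cutB_le_nrm (mul_ne_zero (mul_ne_zero (mul_ne_zero (mul_ne_zero hc h4) hr) hp)
    (mul_ne_zero h4 (inv_ne_zero hk))) ?_
  have h5 := ((((cutB_bd_c_inv h.he).mul (bd_four_pow_inv j)).mul
    (glob_rho e (by omega : 3 * j < s))).mul (bd_piv hj'.1 (by omega : 3 * j + 3 ≤ s)).2).mul
    ((bd_four_pow_inv j).mul (bd_kap e s j))
  rw [mul_inv, mul_inv, mul_inv, mul_inv, mul_inv, inv_inv]
  exact h5.mono (by linarith)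

end Pool.Agent.Lib.MP_88d29b_nt
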