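import Pool.Agent.Lib.MP_88d29b_nt.CutB
import Pool.Agent.Lib.MP_88d29b_nt.Cut

set_option autoImplicit false

noncomputable section

namespace Pool.Agent.Lib.MP_88d29b_nt

open Finset


private lemma cutthm_sum (n : ℕ) (f h : ℕ → ℚ) :
    ∑ a : Idx n, ((f a : ℚ) : KK) * ((h a : ℚ) : KK) = ((∑ a ∈ Ico 1 n, f a * h a : ℚ) : KK) := by
  rw [Finset.sum_coe_sort (Ico 1 n) (fun a => ((f a : ℚ) : KK) * ((h a : ℚ) : KK))]
  push_cast
  rfl

/-- Splitting of the index set at the cut. -/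
private def cutthmEquiv {n s : ℕ} (h1 : 1 ≤ n) (h2 : n ≤ s) :
    Idx n ⊕ {i : ℕ // i ∈ Ico n s} ≃ Idx s where
  toFun := Sum.elim
    (fun a => ⟨a.1, by have := mem_Ico.1 a.2; exact mem_Ico.2 ⟨this.1, by omega⟩⟩)
    (fun b => ⟨b.1, by have := mem_Ico.1 b.2; exact mem_Ico.2 ⟨by omega, this.2⟩⟩)
  invFun := fun i => if h : i.1 < n then Sum.inl ⟨i.1, mem_Ico.2 ⟨(mem_Ico.1 i.2).1, h⟩⟩
    else Sum.inr ⟨i.1, mem_Ico.2 ⟨not_lt.1 h, (mem_Ico.1 i.2).2⟩⟩
  left_inv := by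
    rintro (a | b)
    · simp only [Sum.elim_inl, dif_pos (mem_Ico.1 a.2).2]
    · simp only [Sum.elim_inr, dif_neg (not_lt.2 (mem_Ico.1 b.2).1)]
  right_inv := by
    intro i
    by_cases h : i.1 < n
    · simp only [dif_pos h, Sum.elim_inl]
    · simp only [dif_neg h, Sum.elim_inr]

private lemma cutthm_sum_le (n : ℕ) {K : ℝ} (hK : 0 ≤ K) :
    ∑ a : Idx n, max 0 (K - dd n a) ≤ K ^ 2 := by
  rw [Finset.sum_coe_sort (Ico 1 n) (fun a => max 0 (K - dd n a))]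
  have h1 : ∑ a ∈ Ico 1 n, max 0 (K - dd n a) ≤ ∑ a ∈ Ico (n - ⌊K⌋₊) n, max 0 (K - dd n a) := by
    rw [← Finset.sum_filter_ne_zero]
    refine Finset.sum_le_sum_of_subset_of_nonneg (fun a ha' => ?_) fun a _ _ => le_max_left _ _
    obtain ⟨ha, h0⟩ := Finset.mem_filter.1 ha'
    have h2 : dd n a < K := by
      by_contra h3
      exact h0 (max_eq_left (by linarith [not_lt.1 h3]))
    have h3 := (mem_Ico.1 ha).2
    have h4 : dd n a = ((n - a : ℕ) : ℝ) := by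
      rw [dd, abs_sub_comm, Nat.cast_sub h3.le, abs_of_nonneg]
      exact sub_nonneg.2 (by exact_mod_cast h3.le)
    have h5 : n - a ≤ ⌊K⌋₊ := Nat.le_floor (by rw [← h4]; exact h2.le)
    exact mem_Ico.2 ⟨by omega, h3⟩
  have h2 : ∑ a ∈ Ico (n - ⌊K⌋₊) n, max 0 (K - dd n a) ≤ (Ico (n - ⌊K⌋₊) n).card • K :=
    Finset.sum_le_card_nsmul _ _ _ fun a _ => max_le hK (by linarith [dd_nonneg n a])
  have h3 : (((Ico (n - ⌊K⌋₊) n).card : ℕ) : ℝ) ≤ K := by
    refine le_trans ?_ (Nat.floor_le hK)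
    rw [Nat.card_Ico]
    exact_mod_cast (by omega : n - (n - ⌊K⌋₊) ≤ ⌊K⌋₊)
  rw [nsmul_eq_mul] at h2
  nlinarith

/-- Let `G = g + 26`, `θ = nrm (piv s n)` (so `2 ^ (-2 Lam s) ≤ θ ≤ 2 ^ (2 Lam s)` by `bd_piv`) and
`τ = 4 n - 5 G - 3 - logb 2 θ`. Identify `Idx s` with `Idx n ⊕ {i // i ∈ Ico n s}`
(`Matrix.det_submatrix_equiv_self`), let `Nn a b` be the cast of `nT e s n a b`, choose `x` by
`exists_generic Nn τ` and apply `abstract_cut` with `ρ a = max 1 (2 ^ (10 G + 3 - dd n a))`,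
`p = 2 ^ (3 G)`, `q = 2 ^ (-r + 3 G)`. One has `∏ ρ ≤ 2 ^ ((10 G + 3) ^ 2)` since at most
`10 G + 3` of the factors differ from `1`. -/
theorem cut_thm {e s n N r : ℕ} {g : ℝ} {M : ℕ → ℕ → ℤ} (h : CutHyp e s n N r g M)
    (hbig : 6 * (g + 26) + (10 * (g + 26) + 3) ^ 2 < r) :
    ∃ x : KK, ‖x‖ ≤ (2 : ℝ) ^ (4 * (n : ℝ) + 2 * Lam s) ∧
      (2 : ℝ) ^ (((n : ℝ) - 1) * (2 * n - 5 * Lam s - 5 * (g + 26) - 3)) ≤
        ‖detK (matU e s M) x‖ := by
  have two_pos : (0 : ℝ) < 2 := by norm_num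
  have one_lt : (1 : ℝ) < 2 := by norm_num
  have hnN := h.le_N
  have hn1 := h.hn
  have hN := h.hN
  have hg := h.hg
  have hn3 : 3 * n + 3 ≤ s := by omega
  have hp0 : piv s n ≠ 0 := piv_ne_zero hn1 hn3
  obtain ⟨hp1, hp2⟩ := bd_piv hn1 hn3
  have hθ : 0 < nrm (piv s n) := nrm_pos hp0
  obtain ⟨t, ht⟩ : ∃ t : ℝ, nrm (piv s n) = (2 : ℝ) ^ t :=
    ⟨Real.logb 2 (nrm (piv s n)), (Real.rpow_logb two_pos (by norm_num) hθ).symm⟩
  have ht1 : t ≤ 2 * Lam s := by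
    unfold Bd at hp1
    rwa [ht, Real.rpow_le_rpow_left_iff one_lt] at hp1
  have ht2 : -t ≤ 2 * Lam s := by
    unfold Bd at hp2
    rwa [nrm_inv, ht, ← Real.rpow_neg two_pos.le, Real.rpow_le_rpow_left_iff one_lt] at hp2
  have hpB : Bd (piv s n) t := ht.le
  have hpB' : Bd (piv s n)⁻¹ (-t) := by
    unfold Bd
    rw [nrm_inv, ht, ← Real.rpow_neg two_pos.le]
  set G : ℝ := g + 26 with hG
  let A : Matrix (Idx n) (Idx n) KK := (matU e n M).map (fun q : ℚ => (q : KK))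
  let Nn : Matrix (Idx n) (Idx n) KK := fun a b => ((nT e s n a b : ℚ) : KK)
  let B : Matrix (Idx n) {i : ℕ // i ∈ Ico n s} KK := fun a b => ((uEnt e M a b : ℚ) : KK)
  let C : Matrix {i : ℕ // i ∈ Ico n s} (Idx n) KK := fun a b => ((uEnt e M a b : ℚ) : KK)
  let D : Matrix {i : ℕ // i ∈ Ico n s} {i : ℕ // i ∈ Ico n s} KK :=
    fun a b => ((uEnt e M a b : ℚ) : KK)
  obtain ⟨x, hx1, hx2, hx3⟩ := exists_generic Nn (4 * (n : ℝ) - 5 * G - 3 - t)
  have hxpos : 0 < ‖x‖ := lt_of_lt_of_le (by positivity) hx1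
  have hx0 : x ≠ 0 := norm_pos_iff.1 hxpos
  have hCN : ∀ m b, (C * Nn) m b
      = ((∑ a ∈ Ico 1 n, uEnt e M m a * nT e s n a b : ℚ) : KK) := fun m b =>
    cutthm_sum n (fun a => uEnt e M m a) (fun a => nT e s n a b)
  have hρ : ∏ a : Idx n, max 1 ((2 : ℝ) ^ (10 * G + 3 - dd n a)) ≤ (2 : ℝ) ^ ((10 * G + 3) ^ 2) := by
    have e1 : ∀ a : Idx n, max 1 ((2 : ℝ) ^ (10 * G + 3 - dd n a))
        = (2 : ℝ) ^ (max 0 (10 * G + 3 - dd n a)) := by
      intro a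
      rcases le_total 0 (10 * G + 3 - dd n a) with h0 | h0
      · rw [max_eq_right h0, max_eq_right (Real.one_le_rpow one_lt.le h0)]
      · rw [max_eq_left h0, Real.rpow_zero,
          max_eq_left (Real.rpow_le_one_of_one_le_of_nonpos one_lt.le h0)]
    rw [Finset.prod_congr rfl fun a _ => e1 a, ← Real.rpow_sum_of_pos two_pos]
    exact Real.rpow_le_rpow_of_exponent_le one_lt.le (cutthm_sum_le n (by linarith))
  have key := abstract_cut A Nn B C D x (fun a => max 1 ((2 : ℝ) ^ (10 * G + 3 - dd n a)))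
    ((2 : ℝ) ^ (3 * G)) ((2 : ℝ) ^ (-(r : ℝ) + 3 * G)) hx0 ?_ ?_ ?_ ?_ (fun a => le_max_left _ _)
    ?_ (by positivity) (by positivity) ?_ hx3
  · refine ⟨x, hx2.trans (Real.rpow_le_rpow_of_exponent_le one_lt.le (by linarith)), ?_⟩
    have e1 : detK (matU e s M) x = (1 - x • Matrix.fromBlocks A B C D).det := by
      rw [detK, ← Matrix.det_submatrix_equiv_self (cutthmEquiv hn1 (by omega : n ≤ s))]
      congr 1
      rw [Matrix.submatrix_sub, Pi.sub_apply, Pi.sub_apply, Matrix.submatrix_one_equiv]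
      congr 1
      ext i j
      rcases i with i | i <;> rcases j with j | j <;> rfl
    have e2 : ‖A.det‖ = nrm (matU e n M).det := by
      rw [nrm]
      congr 1
      exact ((Rat.castHom KK).map_det (matU e n M)).symm
    have e3 : Fintype.card (Idx n) = n - 1 := by
      rw [Fintype.card_coe, Nat.card_Ico]
    rw [e1]
    refine le_trans ?_ key
    rw [e2, e3]
    have e4 : (2 : ℝ) ^ ((4 * (n : ℝ) - 5 * G - 3 - t) * ((n : ℝ) - 1)) ≤ ‖x‖ ^ (n - 1) := by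
      have e5 : ((n - 1 : ℕ) : ℝ) = (n : ℝ) - 1 := by rw [Nat.cast_sub hn1, Nat.cast_one]
      rw [← e5, Real.rpow_mul_natCast two_pos.le]
      exact pow_le_pow_left₀ (by positivity) hx1 _
    refine le_trans ?_ (mul_le_mul e4 (cut_det h) (by positivity) (by positivity))
    rw [← Real.rpow_add two_pos]
    refine Real.rpow_le_rpow_of_exponent_le one_lt.le ?_
    have e6 : (0 : ℝ) ≤ (n : ℝ) - 1 := sub_nonneg.2 (by exact_mod_cast hn1)
    nlinarith [mul_le_mul_of_nonneg_left ht1 e6]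
  · ext m b
    have e1 : (A * Nn) m b = ((∑ a ∈ Ico 1 n, uEnt e M m a * nT e s n a b : ℚ) : KK) :=
      cutthm_sum n (fun a => uEnt e M m a) (fun a => nT e s n a b)
    rw [e1, cut_inv h m.2 b.2, Matrix.one_apply]
    by_cases hmb : m = b
    · rw [if_pos hmb, if_pos (congrArg Subtype.val hmb), Rat.cast_one]
    · rw [if_neg hmb, if_neg (fun h' => hmb (Subtype.ext h')), Rat.cast_zero]
  · intro m i
    have e1 : (D - C * Nn * B) m i = ((uEnt e M m i -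
        ∑ b ∈ Ico 1 n, (∑ a ∈ Ico 1 n, uEnt e M m a * nT e s n a b) * uEnt e M b i : ℚ) : KK) := by
      rw [Matrix.sub_apply, Matrix.mul_apply, Rat.cast_sub,
        ← cutthm_sum n (fun b => ∑ a ∈ Ico 1 n, uEnt e M m a * nT e s n a b)
          (fun b => uEnt e M b i)]
      simp only [hCN]
      rfl
    have e2 := hpB.mul (cut_S h (mem_Ico.1 m.2).1 (mem_Ico.1 i.2).1)
    rw [mul_inv_cancel_left₀ hp0] at e2
    rw [e1, norm_mul]
    refine lt_of_le_of_lt (mul_le_mul hx2 e2 (norm_nonneg _) (by positivity)) ?_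
    rw [← Real.rpow_add two_pos]
    exact Real.rpow_lt_one_of_one_lt_of_neg one_lt (by linarith)
  · intro m b
    rw [hCN]
    exact cut_P h (mem_Ico.1 m.2).1 b.2
  · intro a i
    have e1 : (Nn * B) a i = ((∑ b ∈ Ico 1 n, nT e s n a b * uEnt e M b i : ℚ) : KK) :=
      cutthm_sum n (fun b => nT e s n a b) (fun b => uEnt e M b i)
    rw [e1]
    exact cut_Q h a.2 (mem_Ico.1 i.2).1
  · intro a b
    have e2 := hpB'.mul (cut_N h a.2 b.2)
    rw [inv_mul_cancel_left₀ hp0] at e2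
    have e3 : ‖x⁻¹‖ ≤ (2 : ℝ) ^ (-(4 * (n : ℝ) - 5 * G - 3 - t)) := by
      rw [norm_inv, Real.rpow_neg two_pos.le]
      exact inv_anti₀ (by positivity) hx1
    rw [norm_mul]
    refine le_trans (mul_le_mul e3 e2 (norm_nonneg _) (by positivity)) (le_max_of_le_right ?_)
    rw [← Real.rpow_add two_pos]
    exact Real.rpow_le_rpow_of_exponent_le one_lt.le (by linarith)
  · refine lt_of_le_of_lt (mul_le_mul_of_nonneg_right
      (mul_le_mul_of_nonneg_left hρ (by positivity)) (by positivity)) ?_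
    rw [← Real.rpow_add two_pos, ← Real.rpow_add two_pos]
    exact Real.rpow_lt_one_of_one_lt_of_neg one_lt (by linarith)

end Pool.Agent.Lib.MP_88d29b_nt
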