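import Pool.Agent.Lib.MP_88d29b_nt.Hecke

/-!
Definitions used in the proof, and the basic calculus of the `2`-adic norm on rational numbers.
-/

set_option autoImplicit false

noncomputable section

namespace Pool.Agent.Lib.MP_88d29b_nt

open Finset UpperHalfPlane

/-- The algebraic closure of `ℚ_2`. -/
abbrev KK : Type := PadicAlgCl 2

/-- The `2`-adic norm of a rational number. -/
def nrm (x : ℚ) : ℝ := ‖(x : KK)‖

/-- `x` has `2`-adic norm at most `2 ^ e`, that is, valuation at least `- e`. -/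
def Bd (x : ℚ) (e : ℝ) : Prop := nrm x ≤ (2 : ℝ) ^ e

/-- `log_2 (d + 1)`. -/
def lg (d : ℕ) : ℝ := Real.logb 2 ((d : ℝ) + 1)

/-- `log_2 (2 s)`. -/
def Lam (s : ℕ) : ℝ := Real.logb 2 (2 * (s : ℝ))

/-- The product of the `d` consecutive integers starting from `a`. -/
def rf (a : ℤ) (d : ℕ) : ℚ := ∏ l ∈ range d, ((a : ℚ) + l)

/-- All integers of `[a, b]` have valuation at most `mu`. -/
def Sml (a b : ℤ) (mu : ℝ) : Prop := ∀ x : ℤ, a ≤ x → x ≤ b → Bd ((x : ℚ)⁻¹) mu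

/-- `1 / z !`, extended by zero to negative integers. -/
def invFact (z : ℤ) : ℚ := if 0 ≤ z then 1 / (z.toNat.factorial : ℚ) else 0

/-- The hypergeometric core of the matrix of `U_2`. -/
def core (s m i : ℕ) : ℚ :=
  (-1) ^ i * ((s + m - 2 * i - 1).factorial : ℚ) * invFact (2 * (m : ℤ) - i) *
    invFact ((s : ℤ) - m - i)

/-- Entries in weight `4 s`. -/
def matA (s m i : ℕ) : ℚ := (2 * (s : ℚ) - 3 * i) * core s m i

/-- Entries in weight `4 s + 2`. -/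
def matB (s m i : ℕ) : ℚ := ((s : ℚ) - 3 * m) * core s m i

/-- Entries in weight `4 s + 2 e`. -/
def ent (e s m i : ℕ) : ℚ := if e = 0 then matA s m i else matB s m i

/-- Row factor relating `ent` to `matA`. -/
def rho (e s m : ℕ) : ℚ := if e = 0 then 1 else (s : ℚ) - 3 * m

/-- Column factor relating `ent` to `matA`. -/
def kap (e s i : ℕ) : ℚ := if e = 0 then 1 else 2 * (s : ℚ) - 3 * i

/-- The integer matrix `M` has the hypergeometric form on its leading block. -/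
def Closed (e s : ℕ) (M : ℕ → ℕ → ℤ) : Prop :=
  ∀ m i : ℕ, 1 ≤ m → 1 ≤ i → 3 * m < s → 3 * i < s → (M m i : ℚ) = ent e s m i

/-- The lower triangular factor `L`. -/
def mL (s m j : ℕ) : ℚ :=
  if j ≤ m then ∏ l ∈ Ico j m,
    (((s : ℚ) - l - 1) * (s + l - 2 * j) * (s - l - 2 * j)) /
      (2 * (2 * l + 1) * (l + 1 - j) * (s - l - 1 - j))
  else 0

/-- The inverse `E` of the upper triangular factor. -/
def mE (s i j : ℕ) : ℚ :=
  if i ≤ j then ∏ l ∈ Ioc i j,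
    (((l : ℚ) - 1) * (2 * j - l) * (2 * s - 2 * j - l)) /
      (2 * (2 * s - 2 * l + 1) * (j - l + 1) * (s - j - l + 1))
  else 0

/-- The inverse of the lower triangular factor. -/
def mLi (s j m : ℕ) : ℚ :=
  if m ≤ j then
    ((2 * (m : ℚ) - 1) * (s - m) * (s - 3 * m)) / ((2 * j - 1) * (s + m - 2 * j) * (s - m - 2 * j)) *
      ∏ l ∈ Ico m j, (-(((s : ℚ) - l - 1) * (s + l - 2 * j) * (s - l - 2 * j))) /
        (2 * (2 * l - 1) * (j - l) * (s - j - l))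
  else 0

/-- The upper triangular factor `R`. -/
def mR (s j i : ℕ) : ℚ :=
  if i < j then 0 else if i = j then 1 else
    (((i : ℚ) - 1) * i * (2 * s - 3 * i)) / (2 * (2 * s - 2 * j - 1) * (j - i) * (s - i - j)) *
      ∏ l ∈ Ioo j i, (((l : ℚ) - 1) * (2 * j - l) * (2 * s - 2 * j - l)) /
        (2 * (2 * s - 2 * l - 1) * (j - l) * (s - l - j))

/-- The pivots. -/
def piv (s j : ℕ) : ℚ := 2 / mR s j (2 * j)

/-- The inverse of the leading block of size `n - 1` of `matA`. -/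
def nInv (s n a b : ℕ) : ℚ := ∑ j ∈ Ico 1 n, mE s a j * (piv s j)⁻¹ * mLi s j b

def pP (s n m b : ℕ) : ℚ := ∑ j ∈ Ico 1 n, mL s m j * mLi s j b

def pQ (s n a i : ℕ) : ℚ := ∑ j ∈ Ico 1 n, mE s a j * mR s j i

def pS (s n N m i : ℕ) : ℚ := ∑ j ∈ Icc n N, mL s m j * piv s j * mR s j i

/-- Distance to the cut. -/
def dd (n x : ℕ) : ℝ := |(x : ℝ) - n|

/-- Genericity of the pair `(s, n)`. -/
def Gen (s n : ℕ) (g : ℝ) : Prop :=
  ∀ x : ℤ, 0 < x → x ≤ 2 * s → ∀ A : ℤ,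
    (A = s - 2 * n ∨ A = s - 3 * n ∨ A = 2 * s - 3 * n ∨ A = 2 * s - 4 * n) →
    Bd ((x : ℚ)⁻¹) (g + |(x : ℝ) - A| / 64)

/-- Genericity of `s`. -/
def Good (g s : ℕ) : Prop :=
  ∀ c : ℤ, (s : ℤ) + c ≠ 0 → padicValInt 2 ((s : ℤ) + c) ≤ g + c.natAbs / 64

/-- The index set `1, ..., s - 1`. -/
abbrev Idx (s : ℕ) : Type := {i : ℕ // i ∈ Ico 1 s}

/-- Entries of the matrix of `U_2`. -/
def uEnt (e : ℕ) (M : ℕ → ℕ → ℤ) (m i : ℕ) : ℚ := 2 ^ e / 2 * 4 ^ (m + i) * (M m i : ℚ)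

/-- The matrix of `U_2` on cusp forms of weight `4 s + 2 e` and level `2`. -/
def matU (e s : ℕ) (M : ℕ → ℕ → ℤ) : Matrix (Idx s) (Idx s) ℚ := fun m i => uEnt e M m i

/-- The matrix of the (normalised) Atkin-Lehner operator. -/
def matW (e s : ℕ) : Matrix (Idx s) (Idx s) ℚ :=
  fun m i => if (m : ℕ) + i = s then (-2) ^ e * 4 ^ s else 0

/-- Entries of the inverse of the leading block of the matrix of `U_2`. -/
def nT (e s n a b : ℕ) : ℚ :=
  (2 ^ e / 2 * 4 ^ (a + b))⁻¹ * kap e s a * nInv s n a b * (rho e s b)⁻¹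

/-- `det (1 - x U)` over the algebraic closure of `ℚ_2`. -/
def detK {ι : Type} [Fintype ι] [DecidableEq ι] (U : Matrix ι ι ℚ) (x : KK) : KK :=
  (1 - x • U.map (fun q : ℚ => (q : KK))).det

/-- The sum of `max 0 (t - slope)` over a multiset. -/
def phi (A : Multiset KK) (t : ℝ) : ℝ :=
  (A.map (fun a => Real.logb 2 (max 1 (‖a‖ * (2 : ℝ) ^ t)))).sum

open Classical in
/-- The number of nonzero elements with normalised slope in `[a, b]`. -/
def cnt (A : Multiset KK) (k a b : ℝ) : ℕ :=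
  (A.filter (fun x => x ≠ 0 ∧ (3 / k) * (-Real.logb 2 ‖x‖) ∈ Set.Icc a b)).card

/-- `E_4` as a function. -/
def e4 : ℍ → ℂ := ⇑ModularForm.E₄

/-- `E_6` as a function. -/
def e6 : ℍ → ℂ := ⇑ModularForm.E₆

/-- A weight `4` form of level `2` vanishing at infinity. -/
def uu (z : ℍ) : ℂ := (e4 z - e4 (dbl z)) / 240

/-- A weight `4` form of level `2` vanishing at `0`. -/
def ww (z : ℍ) : ℂ := (16 * e4 (dbl z) - e4 z) / 15

/-- The weight `2` form of level `2`. -/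
def ee (z : ℍ) : ℂ := (e6 (dbl z) - e6 z) / (504 * uu z)

/-- The basis of forms of weight `4 s + 2 e` and level `2`. -/
def bas (e s i : ℕ) (z : ℍ) : ℂ := ee z ^ e * 64 ^ i * uu z ^ i * ww z ^ (s - i)

/-- The third conjugate of `bas e s i (z / 2)`. -/
def basW (e s i : ℕ) (z : ℍ) : ℂ := (-2) ^ e * 4 ^ s * bas e s (s - i) z

/-! ### Basic calculus of `nrm` and `Bd` -/

lemma nrm_nonneg (x : ℚ) : 0 ≤ nrm x := norm_nonneg _

lemma nrm_zero : nrm 0 = 0 := by simp [nrm]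

lemma nrm_one : nrm 1 = 1 := by simp [nrm]

lemma nrm_pos {x : ℚ} (hx : x ≠ 0) : 0 < nrm x := norm_pos_iff.mpr (by exact_mod_cast hx)

lemma nrm_mul (x y : ℚ) : nrm (x * y) = nrm x * nrm y := by simp [nrm]

lemma nrm_inv (x : ℚ) : nrm x⁻¹ = (nrm x)⁻¹ := by simp [nrm]

lemma nrm_div (x y : ℚ) : nrm (x / y) = nrm x / nrm y := by simp [nrm]

lemma nrm_neg (x : ℚ) : nrm (-x) = nrm x := by simp [nrm]

lemma nrm_pow (x : ℚ) (n : ℕ) : nrm (x ^ n) = nrm x ^ n := by simp [nrm]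

lemma nrm_prod {ι : Type*} (S : Finset ι) (f : ι → ℚ) :
    nrm (∏ i ∈ S, f i) = ∏ i ∈ S, nrm (f i) := by simp [nrm]

lemma nrm_add_le (x y : ℚ) : nrm (x + y) ≤ max (nrm x) (nrm y) := by
  simpa [nrm] using IsUltrametricDist.norm_add_le_max (x : KK) (y : KK)

lemma nrm_sub_le (x y : ℚ) : nrm (x - y) ≤ max (nrm x) (nrm y) := by
  rw [sub_eq_add_neg, ← nrm_neg y]
  exact nrm_add_le _ _

lemma nrm_sum_le {ι : Type*} (S : Finset ι) (f : ι → ℚ) {C : ℝ} (hC : 0 ≤ C)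
    (h : ∀ i ∈ S, nrm (f i) ≤ C) : nrm (∑ i ∈ S, f i) ≤ C := by
  unfold nrm
  push_cast
  exact IsUltrametricDist.norm_sum_le_of_forall_le_of_nonneg hC h

lemma nrm_eq_padic (x : ℚ) : nrm x = ‖(x : ℚ_[2])‖ := by
  rw [nrm, ← PadicAlgCl.norm_extends, map_ratCast]

lemma nrm_int_le (n : ℤ) : nrm n ≤ 1 := by
  simpa [nrm] using IsUltrametricDist.norm_intCast_le_one KK n

lemma nrm_nat_le (n : ℕ) : nrm n ≤ 1 := by simpa using nrm_int_le n

lemma nrm_int {n : ℤ} (hn : n ≠ 0) : nrm n = (2 : ℝ) ^ (-(padicValInt 2 n : ℝ)) := by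
  have h : ((n : ℚ) : ℚ_[2]) = (n : ℚ_[2]) := by simp
  rw [nrm_eq_padic, h, Padic.norm_eq_zpow_neg_valuation (by exact_mod_cast hn),
    Padic.valuation_intCast, ← Real.rpow_intCast]
  simp

lemma nrm_two : nrm 2 = 1 / 2 := by
  have h := Padic.norm_p (p := 2)
  rw [nrm_eq_padic]
  simpa using h

lemma norm_two : ‖(2 : KK)‖ = 1 / 2 := by simpa [nrm] using nrm_two

lemma nrm_two_pow (n : ℕ) : nrm (2 ^ n) = (2 : ℝ) ^ (-(n : ℝ)) := by
  rw [nrm_pow, nrm_two, Real.rpow_neg (by norm_num), Real.rpow_natCast]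
  simp

lemma nrm_four_pow (n : ℕ) : nrm (4 ^ n) = (2 : ℝ) ^ (-(2 * n : ℝ)) := by
  have : (4 : ℚ) ^ n = 2 ^ (2 * n) := by rw [pow_mul]; norm_num
  rw [this, nrm_two_pow]
  simp

lemma nrm_odd {n : ℤ} (hn : Odd n) : nrm n = 1 := by
  have h0 : n ≠ 0 := by
    rintro rfl
    simp at hn
  have h1 : padicValInt 2 n = 0 :=
    padicValInt.eq_zero_of_not_dvd (by
      rw [← Int.not_even_iff_odd, even_iff_two_dvd] at hn
      exact_mod_cast hn)
  rw [nrm_int h0, h1]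
  simp

/-- Odd numbers written as `2 * m + 1` with `m` an integer. -/
lemma nrm_two_mul_add_one (m : ℤ) : nrm (2 * (m : ℚ) + 1) = 1 := by
  have := nrm_odd (n := 2 * m + 1) (odd_two_mul_add_one m)
  simpa using this

lemma Bd.mono {x : ℚ} {e f : ℝ} (h : Bd x e) (hef : e ≤ f) : Bd x f :=
  le_trans h (Real.rpow_le_rpow_of_exponent_le (by norm_num) hef)

lemma Bd.mul {x y : ℚ} {e f : ℝ} (hx : Bd x e) (hy : Bd y f) : Bd (x * y) (e + f) := by
  unfold Bd at *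
  rw [nrm_mul, Real.rpow_add (by norm_num)]
  exact mul_le_mul hx hy (nrm_nonneg _) (by positivity)

lemma Bd.neg {x : ℚ} {e : ℝ} (hx : Bd x e) : Bd (-x) e := by
  unfold Bd at *
  rwa [nrm_neg]

lemma Bd.add {x y : ℚ} {e : ℝ} (hx : Bd x e) (hy : Bd y e) : Bd (x + y) e :=
  (nrm_add_le x y).trans (max_le hx hy)

lemma Bd.sub {x y : ℚ} {e : ℝ} (hx : Bd x e) (hy : Bd y e) : Bd (x - y) e :=
  (nrm_sub_le x y).trans (max_le hx hy)

lemma Bd.congr_nrm {x y : ℚ} {e : ℝ} (hx : Bd x e) (h : nrm y = nrm x) : Bd y e := by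
  unfold Bd at *
  rwa [h]

lemma bd_zero (e : ℝ) : Bd 0 e := by
  unfold Bd
  rw [nrm_zero]
  positivity

lemma bd_int (n : ℤ) : Bd n 0 := by simpa [Bd] using nrm_int_le n

lemma bd_nat (n : ℕ) : Bd n 0 := by simpa using bd_int n

lemma bd_one : Bd 1 0 := by simpa using bd_int 1

lemma bd_sum {ι : Type*} (S : Finset ι) (f : ι → ℚ) {e : ℝ} (h : ∀ i ∈ S, Bd (f i) e) :
    Bd (∑ i ∈ S, f i) e :=
  nrm_sum_le S f (by positivity) h

lemma bd_two_pow (n : ℕ) : Bd (2 ^ n) (-(n : ℝ)) := (nrm_two_pow n).le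

lemma bd_two_pow_inv (n : ℕ) : Bd ((2 ^ n)⁻¹) (n : ℝ) := by
  unfold Bd
  rw [nrm_inv, nrm_two_pow, Real.rpow_neg (by norm_num), inv_inv]

lemma bd_four_pow (n : ℕ) : Bd (4 ^ n) (-(2 * n : ℝ)) := (nrm_four_pow n).le

lemma bd_four_pow_inv (n : ℕ) : Bd ((4 ^ n)⁻¹) (2 * n : ℝ) := by
  unfold Bd
  rw [nrm_inv, nrm_four_pow, Real.rpow_neg (by norm_num), inv_inv]

/-- In terms of the valuation. -/
lemma bd_inv_int_iff {n : ℤ} (hn : n ≠ 0) {e : ℝ} :
    Bd ((n : ℚ)⁻¹) e ↔ (padicValInt 2 n : ℝ) ≤ e := by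
  unfold Bd
  rw [nrm_inv, nrm_int hn, Real.rpow_neg (by norm_num), inv_inv,
    Real.rpow_le_rpow_left_iff (by norm_num)]

lemma bd_of_dvd {n : ℤ} {r : ℕ} (h : (2 : ℤ) ^ r ∣ n) : Bd n (-(r : ℝ)) := by
  obtain ⟨c, rfl⟩ := h
  have := (bd_two_pow r).mul (bd_int c)
  simpa using this

/-- A nonzero integer of absolute value at most `B` has valuation at most `log_2 B`. -/
lemma bd_inv_int_log {n : ℤ} (hn : n ≠ 0) {B : ℝ} (hB : |(n : ℝ)| ≤ B) :
    Bd ((n : ℚ)⁻¹) (Real.logb 2 B) := by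
  rw [bd_inv_int_iff hn]
  have h1 : (2 : ℤ) ^ padicValInt 2 n ∣ n := by
    simpa using padicValInt_dvd (p := 2) n
  have h2 : (2 : ℤ) ^ padicValInt 2 n ≤ |n| :=
    Int.le_of_dvd (abs_pos.mpr hn) ((dvd_abs _ _).mpr h1)
  have h3 : (2 : ℝ) ^ (padicValInt 2 n : ℝ) ≤ B := by
    rw [Real.rpow_natCast]
    refine le_trans ?_ hB
    exact_mod_cast h2
  have h4 : 0 < B := lt_of_lt_of_le (by positivity) h3
  exact (Real.le_logb_iff_rpow_le (by norm_num) h4).mpr h3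

lemma lg_nonneg (d : ℕ) : 0 ≤ lg d :=
  Real.logb_nonneg (by norm_num) (by linarith [Nat.cast_nonneg (α := ℝ) d])

lemma lg_mono {d d' : ℕ} (h : d ≤ d') : lg d ≤ lg d' :=
  Real.logb_le_logb_of_le (by norm_num) (by positivity) (by exact_mod_cast Nat.succ_le_succ h)

lemma lg_two_mul (d : ℕ) : lg (2 * d) ≤ 1 + lg d := by
  have h : Real.logb 2 (2 * ((d : ℝ) + 1)) = 1 + lg d := by
    rw [Real.logb_mul (by norm_num) (by positivity), Real.logb_self_eq_one (by norm_num), lg]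
  rw [← h, lg]
  refine Real.logb_le_logb_of_le (by norm_num) (by positivity) ?_
  push_cast
  linarith

lemma lg_le (d : ℕ) : lg d ≤ 7 + (d : ℝ) / 64 := by
  rw [lg, Real.logb_le_iff_le_rpow (by norm_num) (by positivity),
    Real.rpow_add (by norm_num)]
  have h1 : (2 : ℝ) ^ (7 : ℝ) = 128 := by
    rw [show (7 : ℝ) = ((7 : ℕ) : ℝ) by norm_num, Real.rpow_natCast]; norm_num
  have h2 : 1 + (d : ℝ) / 128 ≤ (2 : ℝ) ^ ((d : ℝ) / 64) := by
    rw [Real.rpow_def_of_pos (by norm_num)]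
    have h3 := Real.add_one_le_exp (Real.log 2 * ((d : ℝ) / 64))
    have h4 := Real.log_two_gt_d9
    have h5 : (0 : ℝ) ≤ d := Nat.cast_nonneg d
    nlinarith
  rw [h1]
  linarith

lemma lg_le_Lam {d s : ℕ} (h : d + 1 ≤ 2 * s) : lg d ≤ Lam s :=
  Real.logb_le_logb_of_le (by norm_num) (by positivity) (by exact_mod_cast h)

lemma one_le_Lam {s : ℕ} (h : 1 ≤ s) : 1 ≤ Lam s := by
  rw [Lam, Real.le_logb_iff_rpow_le (by norm_num) (by positivity), Real.rpow_one]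
  have : (1 : ℝ) ≤ s := by exact_mod_cast h
  linarith

/-- The global bound. -/
lemma small_Lam {s : ℕ} {a b : ℤ} (ha : 0 < a) (hb : b ≤ 2 * s) : Sml a b (Lam s) := by
  intro x hx1 hx2
  have h0 : 0 < x := lt_of_lt_of_le ha hx1
  refine bd_inv_int_log h0.ne' ?_
  rw [abs_of_pos (by exact_mod_cast h0)]
  exact_mod_cast hx2.trans hb

lemma dd_nonneg (n x : ℕ) : 0 ≤ dd n x := abs_nonneg _

lemma ent_eq {e s m i : ℕ} (h : 3 * i < 2 * s) :
    ent e s m i = rho e s m * matA s m i * (kap e s i)⁻¹ := by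
  have h1 : 2 * (s : ℚ) - 3 * i ≠ 0 := by
    have : (3 * i : ℚ) < 2 * s := by exact_mod_cast h
    intro h0
    linarith
  unfold ent rho kap
  split_ifs
  · simp
  · unfold matA matB
    rw [mul_assoc, mul_comm (2 * (s : ℚ) - 3 * i), mul_assoc, mul_inv_cancel₀ h1, mul_one]

end Pool.Agent.Lib.MP_88d29b_nt
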