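import Pool.Agent.Lib.MP_88d29b_nt.Defs

set_option autoImplicit false

noncomputable section

namespace Pool.Agent.Lib.MP_88d29b_nt

open Finset

private lemma detid_card_roots {n : Type} [Fintype n] [DecidableEq n] (A : Matrix n n ℂ) :
    A.charpoly.roots.card = Fintype.card n := by
  rw [IsAlgClosed.card_roots_eq_natDegree, Matrix.charpoly_natDegree_eq_dim]

private lemma detid_det_sub {n : Type} [Fintype n] [DecidableEq n] (A : Matrix n n ℂ) (a x : ℂ) :
    (a • (1 : Matrix n n ℂ) - x • A).det = (A.charpoly.roots.map (fun l => a - l * x)).prod := by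
  by_cases hx : x = 0
  · subst hx
    simp [detid_card_roots]
  · have h1 : a • (1 : Matrix n n ℂ) - x • A = x • (Matrix.scalar n (a / x) - A) := by
      rw [smul_sub]
      congr 1
      ext i j
      by_cases hij : i = j
      · subst hij
        simp
        field_simp
      · simp [Matrix.one_apply_ne hij, Matrix.diagonal_apply_ne _ hij]
    have hs : A.charpoly.Splits := IsAlgClosed.splits _
    rw [h1, Matrix.det_smul, ← Matrix.eval_charpoly,
      hs.eval_eq_prod_roots_of_monic (Matrix.charpoly_monic A), ← detid_card_roots A]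
    have h2 : (A.charpoly.roots.map (fun l => a - l * x)) =
        A.charpoly.roots.map (fun l => x * (a / x - l)) := by
      refine Multiset.map_congr rfl (fun l _ => ?_)
      field_simp
    rw [h2, Multiset.prod_map_mul]
    simp

private lemma detid_matrix {ι n : Type} [Fintype ι] [DecidableEq ι] [Fintype n] [DecidableEq n]
    (U W : Matrix ι ι ℂ) (q : ℂ) (I : Matrix ι n ℂ) (Tr : Matrix n ι ℂ) (Tm : Matrix n n ℂ)
    (hW : W * W = q • (1 : Matrix ι ι ℂ)) (h1 : I * Tr = (2 : ℂ) • U + W)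
    (h2 : Tr * I = (2 : ℂ) • Tm) (h3 : Tr * (W * I) = (3 * q) • (1 : Matrix n n ℂ))
    (x : ℂ) (hx : 1 - q * x ^ 2 / 4 ≠ 0) :
    (1 - x • U).det * (1 - q * x ^ 2 / 4) ^ Fintype.card n =
      (1 + (x / 2) • W).det * ((1 + q * x ^ 2 / 2) • (1 : Matrix n n ℂ) - x • Tm).det := by
  set c : ℂ := 1 - q * x ^ 2 / 4 with hc
  set K : Matrix ι ι ℂ := c⁻¹ • (1 - (x / 2) • W) with hK
  have hinv : (1 + (x / 2) • W) * K = 1 := by
    have : (1 + (x / 2) • W) * (1 - (x / 2) • W) = c • (1 : Matrix ι ι ℂ) := by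
      simp only [mul_sub, add_mul, mul_one, one_mul, Matrix.smul_mul, Matrix.mul_smul, hW,
        smul_smul, hc, sub_smul, one_smul]
      have e : x / 2 * (x / 2 * q) = q * x ^ 2 / 4 := by ring
      rw [e]
      abel
    rw [hK, Matrix.mul_smul, this, smul_smul, inv_mul_cancel₀ hx, one_smul]
  have hfac : 1 - x • U = (1 + (x / 2) • W) * (1 - (((x / 2) • K) * I) * Tr) := by
    rw [mul_sub, mul_one, Matrix.mul_assoc, h1, Matrix.smul_mul, Matrix.mul_smul,
      ← Matrix.mul_assoc, hinv, one_mul, smul_add, smul_smul]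
    have e : x / 2 * 2 = x := by ring
    rw [e]
    abel
  have hsm : c • (1 - Tr * (((x / 2) • K) * I)) =
      (1 + q * x ^ 2 / 2) • (1 : Matrix n n ℂ) - x • Tm := by
    have e1 : Tr * (((x / 2) • K) * I) =
        ((x / 2) * c⁻¹) • ((2 : ℂ) • Tm - (x / 2 * (3 * q)) • (1 : Matrix n n ℂ)) := by
      rw [hK, smul_smul, Matrix.smul_mul, Matrix.mul_smul, Matrix.sub_mul, Matrix.one_mul,
        Matrix.mul_sub, h2, Matrix.smul_mul, Matrix.mul_smul, h3, smul_smul]
    rw [e1, smul_sub, smul_smul, smul_sub, smul_smul, smul_smul]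
    have e2 : c * (x / 2 * c⁻¹) * 2 = x := by field_simp
    have e3 : c * (x / 2 * c⁻¹) * (x / 2 * (3 * q)) = (1 + q * x ^ 2 / 2) - c := by
      have : c * (x / 2 * c⁻¹) = x / 2 := by field_simp
      rw [this, hc]
      ring
    rw [e2, e3, sub_smul (1 + q * x ^ 2 / 2) c]
    abel
  rw [hfac, Matrix.det_mul, Matrix.det_one_sub_mul_comm, ← hsm, Matrix.det_smul]
  ring


/-- Choose a basis of `V` and let `I`, `Tr`, `Tm` be the matrices of `inc`, `tr`, `T`, so that
`I * Tr = 2 U + W`, `Tr * I = 2 Tm`, `Tr * W * I = 3 q`. With `c = 1 - q x ^ 2 / 4 ≠ 0` the matrix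
`K = c⁻¹ (1 - (x / 2) W)` is the inverse of `1 + (x / 2) W`, and
`1 - x U = (1 + (x / 2) W) (1 - (x / 2) K I Tr)`. By `Matrix.det_one_sub_mul_comm`,
`det (1 - (x / 2) K I Tr) = det (1 - (x / 2) Tr K I)`, and
`1 - (x / 2) Tr K I = c⁻¹ ((1 + q x ^ 2 / 2) - x Tm)`. Finally
`det (a - x Tm) = ∏ (a - l x)` over the roots `l` of the characteristic polynomial, whose number is
the dimension. -/
theorem det_identity {ι V : Type} [Fintype ι] [DecidableEq ι] [AddCommGroup V] [Module ℂ V]
    [Module.Finite ℂ V] (U W : Matrix ι ι ℂ) (q : ℂ) (inc : V →ₗ[ℂ] (ι → ℂ))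
    (tr : (ι → ℂ) →ₗ[ℂ] V) (T : V →ₗ[ℂ] V) (hW : W * W = q • (1 : Matrix ι ι ℂ))
    (h1 : ∀ y, inc (tr y) = ((2 : ℂ) • U + W).mulVec y)
    (h2 : ∀ f, tr (inc f) = (2 : ℂ) • T f)
    (h3 : ∀ f, tr (W.mulVec (inc f)) = (3 * q) • f)
    (x : ℂ) (hx : 1 - q * x ^ 2 / 4 ≠ 0) :
    (1 - x • U).det * (1 - q * x ^ 2 / 4) ^ T.charpoly.roots.card =
      (1 + (x / 2) • W).det * (T.charpoly.roots.map (fun l => 1 - l * x + q * x ^ 2 / 2)).prod := by
  classical
  let b := Module.finBasis ℂ V
  let e := Pi.basisFun ℂ ι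
  have hI : LinearMap.toMatrix b e inc * LinearMap.toMatrix e b tr = (2 : ℂ) • U + W := by
    rw [← LinearMap.toMatrix_comp]
    have : inc.comp tr = Matrix.toLin e e ((2 : ℂ) • U + W) := by
      refine LinearMap.ext fun y => ?_
      rw [LinearMap.comp_apply, h1 y]
      simp [e, Matrix.toLin_eq_toLin', Matrix.add_mulVec, Matrix.smul_mulVec]
    rw [this, LinearMap.toMatrix_toLin]
  have hT : LinearMap.toMatrix e b tr * LinearMap.toMatrix b e inc =
      (2 : ℂ) • LinearMap.toMatrix b b T := by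
    rw [← LinearMap.toMatrix_comp, ← map_smul]
    congr 1
    exact LinearMap.ext fun f => by simp [h2 f]
  have hWm : LinearMap.toMatrix e b tr * (W * LinearMap.toMatrix b e inc) =
      (3 * q) • (1 : Matrix (Fin (Module.finrank ℂ V)) (Fin (Module.finrank ℂ V)) ℂ) := by
    have hw : W = LinearMap.toMatrix e e (Matrix.toLin e e W) := by
      rw [LinearMap.toMatrix_toLin]
    rw [hw, ← LinearMap.toMatrix_comp, ← LinearMap.toMatrix_comp, ← LinearMap.toMatrix_id b,
      ← map_smul]
    congr 1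
    refine LinearMap.ext fun f => ?_
    have : Matrix.toLin e e W (inc f) = W.mulVec (inc f) := by
      simp [e, Matrix.toLin_eq_toLin']
    simp only [LinearMap.comp_apply, this, h3 f, LinearMap.smul_apply, LinearMap.id_apply]
  have key := detid_matrix U W q _ _ _ hW hI hT hWm x hx
  rw [detid_det_sub, LinearMap.charpoly_toMatrix] at key
  have hcard : T.charpoly.roots.card = Fintype.card (Fin (Module.finrank ℂ V)) := by
    rw [← LinearMap.charpoly_toMatrix T b, detid_card_roots]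
  rw [hcard, key]
  congr 2
  refine Multiset.map_congr rfl (fun l _ => ?_)
  ring

end Pool.Agent.Lib.MP_88d29b_nt
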