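import Pool.Agent.Lib.MP_88d29b_nt.Defs

set_option autoImplicit false

noncomputable section

namespace Pool.Agent.Lib.MP_88d29b_nt

open Finset Filter Topology


lemma finalsum_lower (d : ℕ → ℕ) (heven : ∀ k, Even k → |(d k : ℝ) - (k : ℝ) / 12| ≤ 2) (n : ℕ) :
    ((n : ℝ) + 1) ^ 2 / 48 - (n + 1) ≤ ∑ k ∈ Icc 2 (n + 1), (d k : ℝ) := by
  induction n using Nat.twoStepInduction with
  | zero => norm_num
  | one =>
    have : (0 : ℝ) ≤ ∑ k ∈ Icc 2 (1 + 1), (d k : ℝ) := by positivity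
    push_cast
    linarith
  | more n ih _ =>
    rw [Finset.sum_Icc_succ_top (by omega), Finset.sum_Icc_succ_top (by omega)]
    have h1 : (0 : ℝ) ≤ d (n + 1 + 1) := Nat.cast_nonneg _
    have h2 : (0 : ℝ) ≤ d (n + 2 + 1) := Nat.cast_nonneg _
    rcases Nat.even_or_odd n with h | h
    · have := (abs_le.1 (heven (n + 1 + 1) (by simpa [add_assoc] using h.add even_two))).1
      push_cast at this ⊢
      nlinarith
    · have := (abs_le.1 (heven (n + 2 + 1) ((h.add_even even_two).add_one))).1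
      push_cast at this ⊢
      nlinarith

lemma finalsum_card (T : ℕ) (B : Finset ℕ) :
    ((Icc 2 T).filter (fun k => k / 4 ∈ B)).card ≤ 4 * B.card := by
  refine Finset.card_le_mul_card_image_of_maps_to (f := fun k => k / 4)
    (fun k hk => (Finset.mem_filter.1 hk).2) 4 fun b _ => ?_
  refine (Finset.card_le_card (t := Ico (4 * b) (4 * b + 4)) fun k hk => ?_).trans (by simp)
  have := (Finset.mem_filter.1 hk).2
  rw [Finset.mem_Ico]
  omega

open Classical in
/-- Let `D T = ∑ k ∈ Icc 2 T, d k`; then `D T ≥ T ^ 2 / 100` for large `T`. Moreover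
`|c k - θ d k| ≤ ε k + 2` for good even `k ≥ k0`, it is `0` for odd `k`, and always at most
`d k ≤ k / 12 + 2`. At most two even `k` have a given value of `k / 4`, so there are at most
`2 ε T + k0 + 2` exceptional even `k ≤ T`. Hence `|∑ c k - θ D T| ≤ 3 ε T ^ 2` for large `T`. -/
theorem final_sum (c d : ℕ → ℕ) {θ : ℝ} (h0 : 0 ≤ θ) (h1 : θ ≤ 1) (hcd : ∀ k, c k ≤ d k)
    (hodd : ∀ k, Odd k → d k = 0) (heven : ∀ k, Even k → |(d k : ℝ) - (k : ℝ) / 12| ≤ 2)
    (h : ∀ ε : ℝ, 0 < ε → ∃ (k0 : ℕ) (Bad : ℕ → Prop),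
      (∀ S : ℕ, (((Icc 1 S).filter Bad).card : ℝ) ≤ ε * S) ∧
      ∀ k : ℕ, k0 ≤ k → Even k → ¬ Bad (k / 4) → |(c k : ℝ) - θ * k / 12| ≤ ε * k) :
    Tendsto (fun T : ℕ => ((∑ k ∈ Icc 2 T, c k : ℕ) : ℝ) / ((∑ k ∈ Icc 2 T, d k : ℕ) : ℝ))
      atTop (𝓝 θ) := by
  rw [Metric.tendsto_atTop]
  intro δ hδ
  set ε := δ / 400 with hε
  have hε0 : 0 < ε := by positivity
  obtain ⟨k0, Bad, hBad, hgood⟩ := h ε hε0
  obtain ⟨T0, hT0⟩ := exists_nat_ge (((k0 : ℝ) + 6) / ε)
  refine ⟨max T0 100, fun T hT => ?_⟩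
  have hT1 : (100 : ℝ) ≤ T := by exact_mod_cast le_of_max_le_right hT
  have hT2 : (k0 : ℝ) + 6 ≤ ε * T := by
    have : (T0 : ℝ) ≤ T := by exact_mod_cast le_of_max_le_left hT
    rw [div_le_iff₀ hε0] at hT0
    nlinarith
  have hD : (T : ℝ) ^ 2 / 100 ≤ ∑ k ∈ Icc 2 T, (d k : ℝ) := by
    obtain ⟨n, rfl⟩ : ∃ n, T = n + 1 := ⟨T - 1, by have := le_of_max_le_right hT; omega⟩
    refine le_trans ?_ (finalsum_lower d heven n)
    push_cast at hT1 ⊢
    nlinarith
  have hD0 : (0 : ℝ) < ∑ k ∈ Icc 2 T, (d k : ℝ) := lt_of_lt_of_le (by positivity) hD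
  set B := (Icc 1 T).filter Bad with hB
  have hterm : ∀ k ∈ Icc 2 T, |(c k : ℝ) - θ * d k| ≤ (ε * T + 2) +
      (T / 6 * (if k < k0 + 4 then 1 else 0) + T / 6 * (if k / 4 ∈ B then 1 else 0)) := by
    intro k hk
    have hkT : (k : ℝ) ≤ T := by exact_mod_cast (Finset.mem_Icc.1 hk).2
    have hc : (c k : ℝ) ≤ d k := by exact_mod_cast hcd k
    have hc0 : (0 : ℝ) ≤ c k := Nat.cast_nonneg _
    have hp : 0 ≤ ε * T + 2 := by positivity
    have i1 : (0 : ℝ) ≤ T / 6 * (if k < k0 + 4 then 1 else 0) := by split_ifs <;> positivity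
    have i2 : (0 : ℝ) ≤ T / 6 * (if k / 4 ∈ B then 1 else 0) := by split_ifs <;> positivity
    rcases Nat.even_or_odd k with he | ho
    · have h2 := abs_le.1 (heven k he)
      have h3 : |(c k : ℝ) - θ * d k| ≤ T / 6 := by
        rw [abs_le]
        constructor <;> nlinarith
      by_cases h4 : k < k0 + 4
      · rw [if_pos h4]; linarith
      by_cases h5 : k / 4 ∈ B
      · rw [if_pos h5]; linarith
      have h6 : ¬ Bad (k / 4) := fun hb => h5 (Finset.mem_filter.2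
        ⟨Finset.mem_Icc.2 ⟨by omega, by have := (Finset.mem_Icc.1 hk).2; omega⟩, hb⟩)
      have h7 := abs_le.1 (hgood k (by omega) he h6)
      have h8 := mul_le_mul_of_nonneg_left hkT hε0.le
      have h9 : |(c k : ℝ) - θ * d k| ≤ ε * T + 2 := by
        rw [abs_le]
        constructor <;> nlinarith
      linarith
    · have h2 : d k = 0 := hodd k ho
      have h3 : c k = 0 := by have := hcd k; omega
      rw [h2, h3]
      simp only [Nat.cast_zero, mul_zero, sub_zero, abs_zero]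
      linarith
  have hsum : |∑ k ∈ Icc 2 T, (c k : ℝ) - θ * ∑ k ∈ Icc 2 T, (d k : ℝ)| ≤ 3 * ε * T ^ 2 := by
    rw [Finset.mul_sum, ← Finset.sum_sub_distrib]
    refine (Finset.abs_sum_le_sum_abs _ _).trans ((Finset.sum_le_sum hterm).trans ?_)
    rw [Finset.sum_add_distrib, Finset.sum_const, Finset.sum_add_distrib, ← Finset.mul_sum,
      ← Finset.mul_sum, Finset.sum_boole, Finset.sum_boole, nsmul_eq_mul]
    have a1 : ((Icc 2 T).card : ℝ) ≤ T := by
      have : (Icc 2 T).card ≤ T := by simp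
      exact_mod_cast this
    have a2 : (((Icc 2 T).filter (fun k => k < k0 + 4)).card : ℝ) ≤ k0 + 4 := by
      have : ((Icc 2 T).filter (fun k => k < k0 + 4)).card ≤ k0 + 4 :=
        (Finset.card_le_card (t := range (k0 + 4)) fun k hk =>
          Finset.mem_range.2 (Finset.mem_filter.1 hk).2).trans (by simp)
      exact_mod_cast this
    have a3 : (((Icc 2 T).filter (fun k => k / 4 ∈ B)).card : ℝ) ≤ 4 * (ε * T) := by
      have h2 : (((Icc 2 T).filter (fun k => k / 4 ∈ B)).card : ℝ) ≤ 4 * B.card := by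
        exact_mod_cast finalsum_card T B
      linarith [hBad T]
    have hT0' : (0 : ℝ) ≤ T / 6 := by positivity
    have b1 := mul_le_mul_of_nonneg_right a1 (show 0 ≤ ε * T + 2 by positivity)
    have b2 := mul_le_mul_of_nonneg_left a2 hT0'
    have b3 := mul_le_mul_of_nonneg_left a3 hT0'
    have b4 := mul_le_mul_of_nonneg_right hT2 (show (0 : ℝ) ≤ T by positivity)
    have b5 : (0 : ℝ) ≤ k0 * T := by positivity
    have b6 : (0 : ℝ) ≤ ε * T ^ 2 := by positivity
    nlinarith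
  push_cast
  rw [Real.dist_eq, div_sub' hD0.ne', abs_div, abs_of_pos hD0, div_lt_iff₀ hD0, mul_comm _ θ]
  have b1 := mul_le_mul_of_nonneg_left hD hδ.le
  have b2 : 0 < δ * (T : ℝ) ^ 2 := by positivity
  rw [hε] at hsum
  linarith

end Pool.Agent.Lib.MP_88d29b_nt
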