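import Pool.Agent.Lib.MP_88d29b_nt.Weight
import Pool.Agent.Lib.MP_88d29b_nt.FinalSum

set_option autoImplicit false

noncomputable section

namespace Pool.Agent.Lib.MP_88d29b_nt

open Finset Filter Topology


theorem equidistribution (ι : algebraicClosure ℚ ℂ →+* PadicAlgCl 2) {a b : ℝ} (ha : 0 ≤ a)
    (hab : a ≤ b) (hb : b ≤ 1) :
    Tendsto (fun T : ℕ => (countIn ι a b T : ℝ) / (countAll T : ℝ)) atTop (𝓝 (b - a)) := by
  classical
  refine final_sum (fun k => ((eigenvalues k).filter (SlopeIn ι k a b)).card)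
    (fun k => (eigenvalues k).card) (by linarith) (by linarith)
    (fun k => Multiset.card_le_card (Multiset.filter_le _ _)) (fun k hk => card_odd hk)
    (fun k hk => card_even hk) (fun ε hε => ?_)
  obtain ⟨g0, hg0⟩ := pow_unbounded_of_one_lt (384 / ε) (one_lt_two (α := ℝ))
  obtain ⟨k0, hk0⟩ := weight_est ι ha hab hb (g0 + 8) hε
  refine ⟨k0, fun s => ¬ Good (g0 + 8) s, fun S => ?_, fun k hk he hgood => ?_⟩
  · have h1 := card_not_good (g := g0 + 8) (by omega) S
    have h2 : (2 : ℝ) ^ g0 ≤ 2 ^ (g0 + 8) := pow_le_pow_right₀ (by norm_num) (by omega)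
    have h3 : 384 ≤ ε * 2 ^ (g0 + 8) := by
      rw [div_lt_iff₀ hε] at hg0
      nlinarith
    have h4 : (384 : ℝ) * S / 2 ^ (g0 + 8) ≤ ε * S := by
      rw [div_le_iff₀ (by positivity)]
      have : (0 : ℝ) ≤ S := Nat.cast_nonneg S
      nlinarith
    refine le_trans (le_of_eq ?_) (h1.trans h4)
    congr
  · exact hk0 k hk he (not_not.mp hgood)

end Pool.Agent.Lib.MP_88d29b_nt
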