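import Pool.Agent.Lib.MP_88d29b_nt.G0Span

/-!
Ping-pong for `Γ_0(4)` and `Γ_0(9)`.
-/

set_option autoImplicit false

noncomputable section

namespace Pool.Agent.Lib.MP_88d29b_nt.G

open Finset CongruenceSubgroup
open scoped MatrixGroups

/-- The real quadratic function `A |z| ^ 2 + B re z + C` on the upper half plane. -/
def g0pingQ (A B C : ℝ) (z : UpperHalfPlane) : ℝ := A * (z.re ^ 2 + z.im ^ 2) + B * z.re + C

lemma g0ping_smul (g : SL(2, ℤ)) (A B C : ℝ) (z : UpperHalfPlane) :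
    ∃ n : ℝ, 0 < n ∧ g0pingQ A B C (g • z) * n =
      g0pingQ (A * (g 0 0 : ℝ) ^ 2 + B * (g 0 0 : ℝ) * (g 1 0 : ℝ) + C * (g 1 0 : ℝ) ^ 2)
        (2 * A * (g 0 0 : ℝ) * (g 0 1 : ℝ) +
          B * ((g 0 0 : ℝ) * (g 1 1 : ℝ) + (g 0 1 : ℝ) * (g 1 0 : ℝ)) +
          2 * C * (g 1 0 : ℝ) * (g 1 1 : ℝ))
        (A * (g 0 1 : ℝ) ^ 2 + B * (g 0 1 : ℝ) * (g 1 1 : ℝ) + C * (g 1 1 : ℝ) ^ 2) z := by
  have hd : (((g 1 0 : ℝ) : ℂ) * (z : ℂ) + ((g 1 1 : ℝ) : ℂ)) ≠ 0 := by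
    have h := UpperHalfPlane.denom_ne_zero (g : GL (Fin 2) ℝ) z
    rw [ModularGroup.denom_apply] at h
    simpa using h
  have hz : ((g • z : UpperHalfPlane) : ℂ) =
      (((g 0 0 : ℝ) : ℂ) * (z : ℂ) + ((g 0 1 : ℝ) : ℂ)) /
        (((g 1 0 : ℝ) : ℂ) * (z : ℂ) + ((g 1 1 : ℝ) : ℂ)) := by
    rw [UpperHalfPlane.coe_specialLinearGroup_apply]
    simp
  have hn : 0 < Complex.normSq (((g 1 0 : ℝ) : ℂ) * (z : ℂ) + ((g 1 1 : ℝ) : ℂ)) :=
    Complex.normSq_pos.2 hd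
  refine ⟨_, hn, ?_⟩
  have h1 : (g • z).re ^ 2 + (g • z).im ^ 2 =
      Complex.normSq (((g 0 0 : ℝ) : ℂ) * (z : ℂ) + ((g 0 1 : ℝ) : ℂ)) /
        Complex.normSq (((g 1 0 : ℝ) : ℂ) * (z : ℂ) + ((g 1 1 : ℝ) : ℂ)) := by
    rw [← Complex.normSq_div, ← hz, Complex.normSq_apply, UpperHalfPlane.coe_re,
      UpperHalfPlane.coe_im]
    ring
  have h2 : (g • z).re =
      ((((g 0 0 : ℝ) : ℂ) * (z : ℂ) + ((g 0 1 : ℝ) : ℂ)).re *
        (((g 1 0 : ℝ) : ℂ) * (z : ℂ) + ((g 1 1 : ℝ) : ℂ)).re +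
        (((g 0 0 : ℝ) : ℂ) * (z : ℂ) + ((g 0 1 : ℝ) : ℂ)).im *
        (((g 1 0 : ℝ) : ℂ) * (z : ℂ) + ((g 1 1 : ℝ) : ℂ)).im) /
        Complex.normSq (((g 1 0 : ℝ) : ℂ) * (z : ℂ) + ((g 1 1 : ℝ) : ℂ)) := by
    rw [← UpperHalfPlane.coe_re, hz, Complex.div_re, add_div]
  unfold g0pingQ
  rw [h1, h2, add_mul, add_mul, mul_assoc, mul_assoc, div_mul_cancel₀ _ hn.ne',
    div_mul_cancel₀ _ hn.ne']
  simp only [Complex.normSq_apply, Complex.add_re, Complex.add_im, Complex.mul_re,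
    Complex.mul_im, Complex.ofReal_re, Complex.ofReal_im, UpperHalfPlane.coe_re,
    UpperHalfPlane.coe_im]
  ring

lemma g0ping_iff (g : SL(2, ℤ)) (A B C A' B' C' : ℝ)
    (hA : A * (g 0 0 : ℝ) ^ 2 + B * (g 0 0 : ℝ) * (g 1 0 : ℝ) + C * (g 1 0 : ℝ) ^ 2 = -A')
    (hB : 2 * A * (g 0 0 : ℝ) * (g 0 1 : ℝ) +
      B * ((g 0 0 : ℝ) * (g 1 1 : ℝ) + (g 0 1 : ℝ) * (g 1 0 : ℝ)) +
      2 * C * (g 1 0 : ℝ) * (g 1 1 : ℝ) = -B')
    (hC : A * (g 0 1 : ℝ) ^ 2 + B * (g 0 1 : ℝ) * (g 1 1 : ℝ) + C * (g 1 1 : ℝ) ^ 2 = -C')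
    (z : UpperHalfPlane) : g0pingQ A B C (g • z) ≤ 0 ↔ ¬ g0pingQ A' B' C' z < 0 := by
  obtain ⟨n, hn, h⟩ := g0ping_smul g A B C z
  rw [hA, hB, hC] at h
  have h' : g0pingQ (-A') (-B') (-C') z = -g0pingQ A' B' C' z := by
    unfold g0pingQ
    ring
  rw [h'] at h
  rw [not_lt]
  constructor
  · intro h0
    have := mul_nonpos_of_nonpos_of_nonneg h0 hn.le
    linarith
  · intro h0
    by_contra h1
    have := mul_pos (not_le.1 h1) hn
    linarith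

lemma g0ping_free {ι : Type} [Nontrivial ι] (gen : ι → SL(2, ℤ)) (X Y : ι → Set UpperHalfPlane)
    (hne : ∀ i, (X i).Nonempty) (hX : ∀ i j, i ≠ j → ∀ z, z ∈ X i → z ∉ X j)
    (hY : ∀ i j, i ≠ j → ∀ z, z ∈ Y i → z ∉ Y j) (hXY : ∀ i j z, z ∈ X i → z ∉ Y j)
    (h : ∀ i z, gen i • z ∈ X i ↔ z ∉ Y i) (w : FreeGroup ι)
    (hw : FreeGroup.lift gen w = 1 ∨ FreeGroup.lift gen w = -1) : w = 1 := by
  let f : SL(2, ℤ) →* Equiv.Perm UpperHalfPlane := MulAction.toPermHom SL(2, ℤ) UpperHalfPlane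
  have hinj : Function.Injective (FreeGroup.lift (fun i => f (gen i))) := by
    refine FreeGroup.injective_lift_of_ping_pong (fun i => f (gen i)) X Y hne ?_ ?_ ?_ ?_ ?_
    · intro i j hij
      exact Set.disjoint_left.2 (hX i j hij)
    · intro i j hij
      exact Set.disjoint_left.2 (hY i j hij)
    · intro i j
      exact Set.disjoint_left.2 (hXY i j)
    · rintro i _ ⟨z, hz, rfl⟩
      exact (h i z).2 hz
    · rintro i _ ⟨z, hz, rfl⟩
      by_contra hc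
      have h2 := (h i _).2 hc
      apply hz
      have h3 : gen i • ((fun i => f (gen i))⁻¹ i • z) = z := by
        change f (gen i) ((f (gen i))⁻¹ z) = z
        simp
      rwa [h3] at h2
  have hc : FreeGroup.lift (fun i => f (gen i)) = f.comp (FreeGroup.lift gen) := by
    ext i : 1
    simp
  apply hinj
  rw [hc, map_one, MonoidHom.comp_apply]
  rcases hw with hw | hw
  · rw [hw, map_one]
  · rw [hw]
    ext z : 1
    change (-1 : SL(2, ℤ)) • z = z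
    rw [ModularGroup.SL_neg_smul, one_smul]

/-- Sketch: `FreeGroup.injective_lift_of_ping_pong` for the permutations
`MulAction.toPermHom SL(2, ℤ) ℍ (gen4 i)` of the upper half plane (`-1` acts trivially,
`ModularGroup.SL_neg_smul`; `FreeGroup.lift (f ∘ gen) = f.comp (FreeGroup.lift gen)`). Sets, with
`x = re z`, `y = im z > 0`, `D l r = (x - l) (x - r) + y ^ 2`: for `T`: `X = {1 / 2 ≤ x}`,
`Y = {x < -1 / 2}`; for `U`: `X = {D 0 (1 / 2) ≤ 0}`, `Y = {D (-1 / 2) 0 < 0}`. Use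
`UpperHalfPlane.coe_specialLinearGroup_apply`; `D l r (g z) * normSq (c z + d)` is the real part of
`((a - l c) z + b - l d) * conj ((a - r c) z + b - r d)`. The conditions for `a⁻¹` follow from
`g • z ∈ X ↔ z ∉ Y`. (One may also play on nonzero integer vectors and use that free groups are
torsion free.) -/
theorem free4 (w : FreeGroup (Option Unit))
    (h : FreeGroup.lift gen4 w = 1 ∨ FreeGroup.lift gen4 w = -1) : w = 1 := by
  refine g0ping_free gen4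
    (fun i => match i with
      | none => {z | g0pingQ 0 (-2) 1 z ≤ 0}
      | some _ => {z | g0pingQ 2 (-1) 0 z ≤ 0})
    (fun i => match i with
      | none => {z | g0pingQ 0 2 1 z < 0}
      | some _ => {z | g0pingQ 2 1 0 z < 0}) ?_ ?_ ?_ ?_ ?_ w h
  · rintro (_ | _)
    · refine ⟨⟨⟨1, 1⟩, one_pos⟩, ?_⟩
      simp only [g0pingQ, UpperHalfPlane.re, UpperHalfPlane.im, Set.mem_ofPred_eq]
      norm_num
    · refine ⟨⟨⟨1 / 4, 1 / 4⟩, by norm_num⟩, ?_⟩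
      simp only [g0pingQ, UpperHalfPlane.re, UpperHalfPlane.im, Set.mem_ofPred_eq]
      norm_num
  · rintro (_ | _) (_ | _) hij z h1 h2 <;> first
      | exact hij rfl
      | (simp only [g0pingQ, Set.mem_ofPred_eq] at h1 h2
         nlinarith [sq_pos_of_pos z.im_pos])
  · rintro (_ | _) (_ | _) hij z h1 h2 <;> first
      | exact hij rfl
      | (simp only [g0pingQ, Set.mem_ofPred_eq] at h1 h2
         nlinarith [sq_pos_of_pos z.im_pos])
  · rintro (_ | _) (_ | _) z h1 h2 <;>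
      (simp only [g0pingQ, Set.mem_ofPred_eq] at h1 h2
       nlinarith [sq_pos_of_pos z.im_pos, sq_nonneg z.re])
  · rintro (_ | _) z
    · refine g0ping_iff _ _ _ _ _ _ _ ?_ ?_ ?_ z <;> (simp [gen4, ModularGroup.T]; try norm_num)
    · refine g0ping_iff _ _ _ _ _ _ _ ?_ ?_ ?_ z <;> (simp [gen4]; try norm_num)

/-- Sketch: the same with `T`: `X = {2 / 3 ≤ x}`, `Y = {x < -1 / 3}`; `U`: `X = {D 0 (1 / 6) ≤ 0}`,
`Y = {D (-1 / 3) 0 < 0}`; `V`: `X = {D (1 / 3) (2 / 3) ≤ 0}`, `Y = {D (1 / 6) (1 / 3) < 0}`. A point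
with `D l r ≤ 0` has `l < x < r`, which gives all disjointness statements. -/
theorem free9 (w : FreeGroup (Option Bool))
    (h : FreeGroup.lift gen9 w = 1 ∨ FreeGroup.lift gen9 w = -1) : w = 1 := by
  refine g0ping_free gen9
    (fun i => match i with
      | none => {z | g0pingQ 0 (-3) 2 z ≤ 0}
      | some true => {z | g0pingQ 6 (-1) 0 z ≤ 0}
      | some false => {z | g0pingQ 9 (-9) 2 z ≤ 0})
    (fun i => match i with
      | none => {z | g0pingQ 0 3 1 z < 0}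
      | some true => {z | g0pingQ 3 1 0 z < 0}
      | some false => {z | g0pingQ 18 (-9) 1 z < 0}) ?_ ?_ ?_ ?_ ?_ w h
  · rintro (_ | _ | _)
    · refine ⟨⟨⟨1, 1⟩, one_pos⟩, ?_⟩
      simp only [g0pingQ, UpperHalfPlane.re, UpperHalfPlane.im, Set.mem_ofPred_eq]
      norm_num
    · refine ⟨⟨⟨1 / 2, 1 / 6⟩, by norm_num⟩, ?_⟩
      simp only [g0pingQ, UpperHalfPlane.re, UpperHalfPlane.im, Set.mem_ofPred_eq]
      norm_num
    · refine ⟨⟨⟨1 / 12, 1 / 12⟩, by norm_num⟩, ?_⟩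
      simp only [g0pingQ, UpperHalfPlane.re, UpperHalfPlane.im, Set.mem_ofPred_eq]
      norm_num
  · rintro (_ | _ | _) (_ | _ | _) hij z h1 h2 <;> first
      | exact hij rfl
      | (simp only [g0pingQ, Set.mem_ofPred_eq] at h1 h2
         nlinarith [sq_pos_of_pos z.im_pos, sq_nonneg (z.re - 1 / 4), sq_nonneg z.re])
  · rintro (_ | _ | _) (_ | _ | _) hij z h1 h2 <;> first
      | exact hij rfl
      | (simp only [g0pingQ, Set.mem_ofPred_eq] at h1 h2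
         nlinarith [sq_pos_of_pos z.im_pos, sq_nonneg (z.re - 1 / 12), sq_nonneg z.re])
  · rintro (_ | _ | _) (_ | _ | _) z h1 h2 <;>
      (simp only [g0pingQ, Set.mem_ofPred_eq] at h1 h2
       nlinarith [sq_pos_of_pos z.im_pos, sq_nonneg z.re, sq_nonneg (z.re - 1 / 3),
         sq_nonneg (z.re - 1 / 6)])
  · rintro (_ | _ | _) z
    · refine g0ping_iff _ _ _ _ _ _ _ ?_ ?_ ?_ z <;> (simp [gen9, ModularGroup.T]; try norm_num)
    · refine g0ping_iff _ _ _ _ _ _ _ ?_ ?_ ?_ z <;> (simp [gen9]; try norm_num)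
    · refine g0ping_iff _ _ _ _ _ _ _ ?_ ?_ ?_ z <;> (simp [gen9]; try norm_num)

end Pool.Agent.Lib.MP_88d29b_nt.G
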