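import Pool.Agent.Lib.MP_88d29b_nt.G0Tree

/-!
The Schreier basis of a subgroup of finite index in a free group.
-/

set_option autoImplicit false

noncomputable section

namespace Pool.Agent.Lib.MP_88d29b_nt.G

open Finset

theorem g0sch_rec {X A F : Type} [Group F] (x₀ : X) (dep : X → ℕ) (q : X → X × A)
    (hd : ∀ x, x ≠ x₀ → dep (q x).1 < dep x) (g : A → F) :
    ∃ s : X → F, s x₀ = 1 ∧ ∀ x, x ≠ x₀ → s x = s (q x).1 * g (q x).2 := by
  classical
  let wf : WellFounded (InvImage (· < ·) dep) := InvImage.wf dep wellFounded_lt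
  let f : ∀ x : X, (∀ y, InvImage (· < ·) dep y x → F) → F := fun x ih =>
    if h : x = x₀ then 1 else ih (q x).1 (hd x h) * g (q x).2
  refine ⟨wf.fix f, ?_, fun x hx => ?_⟩
  · rw [wf.fix_eq]
    exact dif_pos rfl
  · rw [wf.fix_eq]
    exact dif_neg hx

theorem g0sch_ind {X A : Type} (x₀ : X) (dep : X → ℕ) (q : X → X × A)
    (hd : ∀ x, x ≠ x₀ → dep (q x).1 < dep x) (P : X → Prop) (h0 : P x₀)
    (h1 : ∀ x, x ≠ x₀ → P (q x).1 → P x) (x : X) : P x := by
  induction hn : dep x using Nat.strong_induction_on generalizing x with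
  | _ n ih =>
    by_cases hx : x = x₀
    · rw [hx]
      exact h0
    · exact h1 x hx (ih _ (hn ▸ hd x hx) _ rfl)

theorem g0sch_gen {ι X : Type} [Fintype ι] [Fintype X] [MulAction (FreeGroup (Option ι)) X]
    (x₀ : X) (h0 : (FreeGroup.of none : FreeGroup (Option ι)) • x₀ = x₀)
    (hw : ∀ x, ∃ w : List (Option ι),
      w.foldl (fun (y : X) a => (FreeGroup.of a)⁻¹ • y) x₀ = x) :
    ∃ (ι' : Type) (_ : Fintype ι') (b : Option ι' → FreeGroup (Option ι)),
      b none = FreeGroup.of none ∧ Function.Injective (FreeGroup.lift b) ∧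
      (FreeGroup.lift b).range = MulAction.stabilizer _ x₀ ∧
      Fintype.card ι' = Fintype.card X * Fintype.card ι := by
  classical
  obtain ⟨dep, par, hpar⟩ := exists_tree _ x₀ hw
  have h0' : (FreeGroup.of none : FreeGroup (Option ι))⁻¹ • x₀ = x₀ := by
    rw [inv_smul_eq_iff, h0]
  obtain ⟨q, hq0, hq1, hd⟩ : ∃ q : X → X × Option ι, q x₀ = (x₀, none) ∧
      (∀ x, (FreeGroup.of (q x).2)⁻¹ • (q x).1 = x) ∧ ∀ x, x ≠ x₀ → dep (q x).1 < dep x := by
    refine ⟨fun x => if h : x = x₀ then (x₀, none) else par ⟨x, h⟩, dif_pos rfl, fun x => ?_,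
      fun x hx => ?_⟩
    · by_cases hx : x = x₀
      · simp only [dif_pos hx]
        rw [h0', hx]
      · simp only [dif_neg hx]
        exact (hpar ⟨x, hx⟩).1
    · simp only [dif_neg hx]
      exact (hpar ⟨x, hx⟩).2
  have hqi : Function.Injective q := fun x y h => by rw [← hq1 x, h, hq1 y]
  obtain ⟨s, hs0, hs1⟩ := g0sch_rec x₀ dep q hd (FreeGroup.of (α := Option ι))
  have hs : ∀ x, (s x)⁻¹ • x₀ = x := g0sch_ind x₀ dep q hd _ (by rw [hs0, inv_one, one_smul])
    fun x hx ih => by rw [hs1 x hx, mul_inv_rev, mul_smul, ih, hq1]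
  obtain ⟨B, hB⟩ : ∃ B : X × Option ι → FreeGroup (Option ι), ∀ x a,
      B (x, a) = s x * FreeGroup.of a * (s ((FreeGroup.of a)⁻¹ • x))⁻¹ :=
    ⟨fun e => s e.1 * FreeGroup.of e.2 * (s ((FreeGroup.of e.2)⁻¹ • e.1))⁻¹, fun _ _ => rfl⟩
  have hB0 : B (x₀, none) = FreeGroup.of none := by
    rw [hB, h0', hs0, one_mul, inv_one, mul_one]
  have hB1 : ∀ x, x ≠ x₀ → B (q x) = 1 := fun x hx => by
    rw [show q x = ((q x).1, (q x).2) from rfl, hB, hq1, ← hs1 x hx, mul_inv_cancel]
  have hB2 : ∀ e, B e • x₀ = x₀ := fun ⟨x, a⟩ => by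
    rw [hB, mul_smul, mul_smul, hs, smul_inv_smul]
    exact (inv_smul_eq_iff.mp (hs x)).symm
  let b : Option {e : X × Option ι // ¬ e ∈ Set.range q} → FreeGroup (Option ι) := fun o =>
    o.elim (FreeGroup.of none) fun e => B e.1
  obtain ⟨e, he0, he1, he2⟩ : ∃ e : X × Option ι →
      FreeGroup (Option {e : X × Option ι // ¬ e ∈ Set.range q}),
      e (x₀, none) = FreeGroup.of none ∧ (∀ x, x ≠ x₀ → e (q x) = 1) ∧
      ∀ t (h : ¬ t ∈ Set.range q), e t = FreeGroup.of (some ⟨t, h⟩) := by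
    refine ⟨fun t => if h : t ∈ Set.range q then (if t = (x₀, none) then FreeGroup.of none else 1)
      else FreeGroup.of (some ⟨t, h⟩), ?_, fun x hx => ?_, fun t h => dif_neg h⟩
    · exact (dif_pos ⟨x₀, hq0⟩).trans (if_pos rfl)
    · exact (dif_pos ⟨x, rfl⟩).trans (if_neg fun h => hx (hqi (h.trans hq0.symm)))
  have he : ∀ t, FreeGroup.lift b (e t) = B t := fun t => by
    by_cases h : t ∈ Set.range q
    · obtain ⟨x, rfl⟩ := h
      by_cases hx : x = x₀
      · rw [hx, hq0, he0, hB0, FreeGroup.lift_apply_of]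
        rfl
      · rw [he1 x hx, hB1 x hx, map_one]
    · rw [he2 t h, FreeGroup.lift_apply_of]
      rfl
  obtain ⟨c, hc0, hc⟩ := exists_univ_cocycle (A := Option ι) fun x a => e (x, a)
  have hc1 : ∀ x, c x 1 = 1 := fun x => by
    have := hc x 1 1
    rw [mul_one, inv_one, one_smul] at this
    exact left_eq_mul.mp this
  have hlift : ∀ w x, FreeGroup.lift b (c x w) = s x * w * (s (w⁻¹ • x))⁻¹ := fun w => by
    induction w using FreeGroup.induction_on with
    | C1 =>
      intro x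
      rw [hc1, map_one, inv_one, one_smul, mul_one, mul_inv_cancel]
    | of a =>
      intro x
      rw [hc0, he, hB]
    | inv_of a ih =>
      intro x
      have h1 := hc x (FreeGroup.of a)⁻¹ (FreeGroup.of a)
      rw [inv_mul_cancel, hc1] at h1
      rw [eq_inv_of_mul_eq_one_left h1.symm, map_inv, ih, inv_inv, inv_smul_smul]
      group
    | mul w w' ih ih' =>
      intro x
      rw [hc, map_mul, ih, ih', mul_inv_rev, mul_smul]
      group
  have hle : (FreeGroup.lift b).range ≤ MulAction.stabilizer _ x₀ := by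
    refine FreeGroup.range_lift_le ?_
    rintro _ ⟨o, rfl⟩
    cases o with
    | none => exact h0
    | some t => exact hB2 t.1
  have hcs : ∀ x, c x₀ (s x) = 1 := g0sch_ind x₀ dep q hd _ (by rw [hs0, hc1])
    fun x hx ih => by rw [hs1 x hx, hc, ih, hs, hc0, one_mul, he1 x hx]
  have hcB : ∀ t, c x₀ (B t) = e t := fun ⟨x, a⟩ => by
    have h1 := hc x₀ (B (x, a)) (s ((FreeGroup.of a)⁻¹ • x))
    have h2 : (B (x, a))⁻¹ • x₀ = x₀ := by rw [inv_smul_eq_iff, hB2]
    rw [h2, hcs, mul_one] at h1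
    rw [← h1, hB, inv_mul_cancel_right, hc, hcs, hs, hc0, one_mul]
  have hinv : ∀ u, c x₀ (FreeGroup.lift b u) = u := fun u => by
    let φ : FreeGroup (Option {e : X × Option ι // ¬ e ∈ Set.range q}) →*
        FreeGroup (Option {e : X × Option ι // ¬ e ∈ Set.range q}) :=
      MonoidHom.mk' (fun u => c x₀ (FreeGroup.lift b u)) fun u v => by
        have h1 : FreeGroup.lift b u • x₀ = x₀ := hle ⟨u, rfl⟩
        have h2 : (FreeGroup.lift b u)⁻¹ • x₀ = x₀ := by rw [inv_smul_eq_iff, h1]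
        rw [map_mul, hc, h2]
    have hφ : φ = MonoidHom.id _ := FreeGroup.ext_hom _ _ fun o => by
      show c x₀ (FreeGroup.lift b (FreeGroup.of o)) = FreeGroup.of o
      rw [FreeGroup.lift_apply_of]
      cases o with
      | none => exact (congrArg (c x₀) hB0.symm).trans ((hcB _).trans he0)
      | some t => exact (hcB t.1).trans (he2 t.1 t.2)
    exact DFunLike.congr_fun hφ u
  refine ⟨{e : X × Option ι // ¬ e ∈ Set.range q}, inferInstance, b, rfl,
    fun u v h => by rw [← hinv u, h, hinv], le_antisymm hle fun w hw => ⟨c x₀ w, ?_⟩, ?_⟩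
  · have h1 : w • x₀ = x₀ := hw
    have h2 : w⁻¹ • x₀ = x₀ := by rw [inv_smul_eq_iff, h1]
    rw [hlift, h2, hs0, one_mul, inv_one, mul_one]
  · have h1 : Fintype.card {e : X × Option ι // e ∈ Set.range q} = Fintype.card X :=
      (Fintype.card_congr (Equiv.ofInjective q hqi)).symm
    rw [Fintype.card_subtype_compl, h1, Fintype.card_prod, Fintype.card_option, mul_add, mul_one,
      Nat.add_sub_cancel]

/-- Sketch: `F = FreeGroup A`, `A = Option ι`, `X = F ⧸ H`, `x₀ = 1`, `act x a = (of a)⁻¹ • x`. With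
`exists_tree` define `s : X → F` by recursion on `dep` (or prove its existence by strong
induction): `s x₀ = 1`, `s x = s (par x).1 * of (par x).2`; then `(s x)⁻¹ • x₀ = x`. Let `E` be the
complement in `X × A` of the range of `par` (which is injective), `e₀ = (x₀, none) ∈ E`,
`ι' = {e : E // e ≠ e₀}`, `b (x, a) = s x * of a * (s (act x a))⁻¹ ∈ H`; `b e₀ = of none`. Take `c`
from `exists_univ_cocycle` with `G = FreeGroup (Option ι')` and `e x a` the generator of the edge,
`1` for tree edges. Then `lift b (c x w) = s x * w * (s (w⁻¹ • x))⁻¹` (induction on `w`), so the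
range is `H`; `c x₀ (s x) = 1` (induction on `dep`), so `c x₀ (b e) = of e`, and `w ↦ c x₀ w` is
multiplicative on `H`; hence `c x₀ (lift b u) = u`. Count: `card E = card X * (card ι + 1) -
(card X - 1)`. -/
theorem schreier {ι : Type} [Fintype ι] (H : Subgroup (FreeGroup (Option ι))) [H.FiniteIndex]
    (h0 : FreeGroup.of none ∈ H) :
    ∃ (ι' : Type) (_ : Fintype ι') (b : Option ι' → FreeGroup (Option ι)),
      b none = FreeGroup.of none ∧ Function.Injective (FreeGroup.lift b) ∧
      (FreeGroup.lift b).range = H ∧ Fintype.card ι' = H.index * Fintype.card ι := by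
  have := Fintype.ofFinite (FreeGroup (Option ι) ⧸ H)
  obtain ⟨ι', i, b, h1, h2, h3, h4⟩ := g0sch_gen
    ((1 : FreeGroup (Option ι)) : FreeGroup (Option ι) ⧸ H) (by
      rw [← MulAction.mem_stabilizer_iff, MulAction.stabilizer_quotient]
      exact h0) (exists_pos_word H)
  refine ⟨ι', i, b, h1, h2, ?_, ?_⟩
  · rw [h3, MulAction.stabilizer_quotient]
  · rw [h4, Subgroup.index_eq_card, Nat.card_eq_fintype_card]

end Pool.Agent.Lib.MP_88d29b_nt.G
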