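import Pool.Agent.Lib.MP_88d29b_nt.GComm

/-!
Free generators of `Γ_0(4) / ± 1` and `Γ_0(9) / ± 1`: definitions and generation.
-/

set_option autoImplicit false

noncomputable section

namespace Pool.Agent.Lib.MP_88d29b_nt.G

open Finset CongruenceSubgroup
open scoped MatrixGroups

/-- `T` and `(1 0; 4 1)`. -/
def gen4 : Option Unit → SL(2, ℤ)
  | none => ModularGroup.T
  | some _ => ⟨!![1, 0; 4, 1], by simp [Matrix.det_fin_two]⟩

/-- `T`, `(1 0; 9 1)` and `(4 -1; 9 -2)`. -/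
def gen9 : Option Bool → SL(2, ℤ)
  | none => ModularGroup.T
  | some true => ⟨!![1, 0; 9, 1], by simp [Matrix.det_fin_two]⟩
  | some false => ⟨!![4, -1; 9, -2], by simp [Matrix.det_fin_two]⟩

lemma gen4_mem (i : Option Unit) : gen4 i ∈ Gamma0 4 := by
  rw [Gamma0_mem]
  cases i with
  | none => simp [gen4, ModularGroup.T]
  | some _ =>
    change (((4 : ℤ)) : ZMod 4) = 0
    decide

lemma gen9_mem (i : Option Bool) : gen9 i ∈ Gamma0 9 := by
  rw [Gamma0_mem]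
  rcases i with _ | _ | _
  · simp [gen9, ModularGroup.T]
  · change (((9 : ℤ)) : ZMod 9) = 0
    decide
  · change (((9 : ℤ)) : ZMod 9) = 0
    decide

lemma g0span_det (g : SL(2, ℤ)) : g 0 0 * g 1 1 - g 0 1 * g 1 0 = 1 := by
  have := g.det_coe
  rwa [Matrix.det_fin_two] at this

lemma g0span_mul (g h : SL(2, ℤ)) (i j : Fin 2) :
    (g * h) i j = g i 0 * h 0 j + g i 1 * h 1 j := by
  simp [Matrix.mul_apply, Fin.sum_univ_two]

lemma g0span_inv (g : SL(2, ℤ)) :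
    g⁻¹ 0 0 = g 1 1 ∧ g⁻¹ 0 1 = -g 0 1 ∧ g⁻¹ 1 0 = -g 1 0 ∧ g⁻¹ 1 1 = g 0 0 := by
  rw [Matrix.SpecialLinearGroup.SL2_inv_expl]
  exact ⟨rfl, rfl, rfl, rfl⟩

lemma g0span_neg (g : SL(2, ℤ)) (i j : Fin 2) : (-1 * g) i j = -g i j := by
  simp

lemma g0span_T (n : ℤ) :
    (ModularGroup.T ^ n) 0 0 = 1 ∧ (ModularGroup.T ^ n) 0 1 = n ∧ (ModularGroup.T ^ n) 1 0 = 0 ∧
      (ModularGroup.T ^ n) 1 1 = 1 := by
  have h := ModularGroup.coe_T_zpow n
  exact ⟨congrFun (congrFun h 0) 0, congrFun (congrFun h 0) 1, congrFun (congrFun h 1) 0,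
    congrFun (congrFun h 1) 1⟩

lemma g0span_ext {g h : SL(2, ℤ)} (h1 : g 0 0 = h 0 0) (h2 : g 0 1 = h 0 1) (h3 : g 1 0 = h 1 0)
    (h4 : g 1 1 = h 1 1) : g = h := by
  ext i j
  fin_cases i <;> fin_cases j
  exacts [h1, h2, h3, h4]

lemma g0span_upper (H : Subgroup SL(2, ℤ)) (h1 : -1 ∈ H) (hT : ModularGroup.T ∈ H)
    {g : SL(2, ℤ)} (hc : g 1 0 = 0) : g ∈ H := by
  have had : g 0 0 * g 1 1 = 1 := by
    have := g0span_det g
    rwa [hc, mul_zero, sub_zero] at this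
  rcases Int.eq_one_or_neg_one_of_mul_eq_one' had with ⟨ha, hd⟩ | ⟨ha, hd⟩
  · obtain ⟨t1, t2, t3, t4⟩ := g0span_T (g 0 1)
    rw [g0span_ext (ha.trans t1.symm) t2.symm (hc.trans t3.symm) (hd.trans t4.symm)]
    exact H.zpow_mem hT _
  · obtain ⟨t1, t2, t3, t4⟩ := g0span_T (-g 0 1)
    have : g = -1 * ModularGroup.T ^ (-g 0 1) := by
      apply g0span_ext <;> rw [g0span_neg]
      · rw [t1, ha]
      · rw [t2, neg_neg]
      · rw [t3, hc, neg_zero]
      · rw [t4, hd]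
    rw [this]
    exact H.mul_mem h1 (H.zpow_mem hT _)

lemma g0span_pick {q c d : ℤ} (hq : ¬ q ∣ 1) (hc : c ≠ 0) (hd : ¬ q ∣ d) :
    ∃ e : ℤ, ¬ q ∣ e ∧ (c * e - d).natAbs < c.natAbs := by
  have h0 := Int.emod_nonneg d hc
  have h1 := Int.emod_lt_abs d hc
  have h2 := Int.mul_ediv_add_emod d c
  by_cases hk : q ∣ d / c
  · have hr : d % c ≠ 0 := by
      intro hr
      apply hd
      rw [← h2, hr, add_zero]
      exact hk.mul_left c
    rcases lt_or_gt_of_ne hc with hneg | hpos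
    · refine ⟨d / c - 1, fun h => hq ?_, ?_⟩
      · have := dvd_sub hk h
        rwa [sub_sub_cancel] at this
      · have e : c * (d / c - 1) - d = -c - d % c := by linear_combination h2
        rw [abs_of_neg hneg] at h1
        rw [e]
        omega
    · refine ⟨d / c + 1, fun h => hq ?_, ?_⟩
      · have := dvd_sub h hk
        rwa [add_sub_cancel_left] at this
      · have e : c * (d / c + 1) - d = c - d % c := by linear_combination h2
        rw [abs_of_pos hpos] at h1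
        rw [e]
        omega
  · refine ⟨d / c, hk, ?_⟩
    have e : c * (d / c) - d = -(d % c) := by linear_combination h2
    rw [e]
    rcases abs_cases c with h | h <;> omega

/-- Descent. Sketch: strong induction on `|c|`, `γ = (a b; c d)`, `c = q² c₀`. If `c = 0` then
`γ = ± T ^ n` (`ModularGroup.exists_eq_T_zpow_of_c_eq_zero` or directly). Otherwise `q ∤ d`; there
is `e` with `q ∤ e` and `|c₀ e - d| < |c₀|` (if `c₀ ∣ d` take `e = d / c₀`, else one of the two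
consecutive integers `d / c₀`, `d / c₀ + 1`). For `g ∈ H` with bottom row `(q², e)` the lower left
entry of `γ g⁻¹` is `c e - q² d = q² (c₀ e - d)`. -/
theorem Gamma0_sq_le {q : ℕ} (hq : q.Prime) (H : Subgroup SL(2, ℤ)) (h1 : -1 ∈ H)
    (hT : ModularGroup.T ∈ H)
    (h : ∀ e : ℤ, ¬ (q : ℤ) ∣ e → ∃ g ∈ H, g 1 0 = (q : ℤ) ^ 2 ∧ g 1 1 = e) :
    Gamma0 (q ^ 2) ≤ H := by
  have hq1 : ¬ (q : ℤ) ∣ 1 := fun hd => hq.one_lt.ne' (Nat.dvd_one.1 (Int.natCast_dvd_natCast.1 hd))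
  have key : ∀ n : ℕ, ∀ (γ : SL(2, ℤ)) (c : ℤ), γ 1 0 = (q : ℤ) ^ 2 * c → c.natAbs = n → γ ∈ H := by
    intro n
    induction n using Nat.strong_induction_on with
    | _ n ih =>
      intro γ c hc hn
      by_cases h0 : c = 0
      · exact g0span_upper H h1 hT (by rw [hc, h0, mul_zero])
      · have hd : ¬ (q : ℤ) ∣ γ 1 1 := by
          intro hd
          apply hq1
          rw [← g0span_det γ, hc]
          exact dvd_sub (hd.mul_left _) (((dvd_pow_self _ two_ne_zero).mul_right _).mul_left _)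
        obtain ⟨e, he, hlt⟩ := g0span_pick hq1 h0 hd
        obtain ⟨g, hg, g1, g2⟩ := h e he
        obtain ⟨i1, _, i3, _⟩ := g0span_inv g
        have := ih _ (hn ▸ hlt) (γ * g⁻¹) (c * e - γ 1 1) (by
          rw [g0span_mul, i1, i3, g1, g2, hc]
          ring) rfl
        have h2 := H.mul_mem this hg
        rwa [inv_mul_cancel_right] at h2
  intro γ hγ
  rw [Gamma0_mem, ZMod.intCast_zmod_eq_zero_iff_dvd] at hγ
  obtain ⟨c, hc⟩ := hγ
  exact key _ γ c (by rw [hc]; push_cast; ring) rfl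

/-- If `H` contains `-1`, the elements `± lift gen w` form a subgroup. -/
def pmRange {A : Type} (gen : A → SL(2, ℤ)) : Subgroup SL(2, ℤ) where
  carrier := {g | ∃ w : FreeGroup A, FreeGroup.lift gen w = g ∨ FreeGroup.lift gen w = -g}
  one_mem' := ⟨1, Or.inl (map_one _)⟩
  mul_mem' := by
    rintro a b ⟨w, hw⟩ ⟨w', hw'⟩
    refine ⟨w * w', ?_⟩
    rw [map_mul]
    rcases hw with h | h <;> rcases hw' with h' | h' <;> simp [h, h']
  inv_mem' := by
    rintro a ⟨w, hw⟩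
    refine ⟨w⁻¹, ?_⟩
    rw [map_inv]
    rcases hw with h | h
    · exact Or.inl (by rw [h])
    · exact Or.inr (by rw [h, inv_eq_iff_mul_eq_one]; simp)

lemma g0span_gen {A : Type} (gen : A → SL(2, ℤ)) (a : A) : gen a ∈ pmRange gen :=
  ⟨FreeGroup.of a, Or.inl (FreeGroup.lift_apply_of)⟩

lemma g0span_neg_one {A : Type} (gen : A → SL(2, ℤ)) : -1 ∈ pmRange gen :=
  ⟨1, Or.inr (by rw [map_one, neg_neg])⟩

lemma g0span_shift (H : Subgroup SL(2, ℤ)) (hT : ModularGroup.T ∈ H) {g : SL(2, ℤ)} (hg : g ∈ H)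
    {N d e : ℤ} (h1 : g 1 0 = N) (h2 : g 1 1 = d) (he : N ∣ e - d) :
    ∃ g ∈ H, g 1 0 = N ∧ g 1 1 = e := by
  obtain ⟨n, hn⟩ := he
  obtain ⟨t1, t2, t3, t4⟩ := g0span_T n
  refine ⟨g * ModularGroup.T ^ n, H.mul_mem hg (H.zpow_mem hT _), ?_, ?_⟩
  · rw [g0span_mul, t1, t3, h1]
    ring
  · rw [g0span_mul, t2, t4, h1, h2]
    linear_combination -hn

lemma g0span_flip (H : Subgroup SL(2, ℤ)) (h1 : -1 ∈ H) {g : SL(2, ℤ)} (hg : g ∈ H) :
    ∃ g' ∈ H, g' 1 0 = g 1 0 ∧ g' 1 1 = -g 0 0 := by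
  obtain ⟨_, _, i3, i4⟩ := g0span_inv g
  refine ⟨-1 * g⁻¹, H.mul_mem h1 (H.inv_mem hg), ?_, ?_⟩
  · rw [g0span_neg, i3, neg_neg]
  · rw [g0span_neg, i4]

/-- Sketch: `Gamma0_sq_le` with `q = 2`; `U T ^ n` has bottom row `(4, 1 + 4 n)` and `-U⁻¹ T ^ n`
has bottom row `(4, -1 + 4 n)` (`ModularGroup.coe_T_zpow`). -/
theorem span4 : Gamma0 4 ≤ pmRange gen4 := by
  have hT : ModularGroup.T ∈ pmRange gen4 := g0span_gen gen4 none
  have h1 := g0span_neg_one gen4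
  have hU := g0span_gen gen4 (some ())
  refine Gamma0_sq_le Nat.prime_two _ h1 hT fun e he => ?_
  have e4 : ((2 : ℕ) : ℤ) ^ 2 = 4 := by norm_num
  rw [e4]
  have he' : ¬ (2 : ℤ) ∣ e := he
  by_cases h : (4 : ℤ) ∣ e - 1
  · exact g0span_shift _ hT hU rfl rfl h
  · obtain ⟨g, hg, g1, g2⟩ := g0span_flip _ h1 hU
    exact g0span_shift _ hT hg (d := -1) g1 g2 (by omega)

/-- Sketch: `Gamma0_sq_le` with `q = 3`; the bottom rows `(9, d)` occur for `d = 1` (`U`), `-1`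
(`-U⁻¹`), `-2` (`V`), `-4` (`-V⁻¹`), `4` (`W = (T⁻¹ V U)⁻¹ = (-2 -1; 9 4)`), `2` (`-W⁻¹`); multiply
on the right by `T ^ n`. -/
theorem span9 : Gamma0 9 ≤ pmRange gen9 := by
  have hT : ModularGroup.T ∈ pmRange gen9 := g0span_gen gen9 none
  have h1 := g0span_neg_one gen9
  have hU := g0span_gen gen9 (some true)
  have hV := g0span_gen gen9 (some false)
  let W : SL(2, ℤ) := ⟨!![-2, -1; 9, 4], by simp [Matrix.det_fin_two]⟩
  have hW : W ∈ pmRange gen9 := by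
    have e : ModularGroup.T = gen9 (some false) * gen9 (some true) * W := by
      apply g0span_ext <;> simp only [g0span_mul] <;> rfl
    have e' : W = (gen9 (some false) * gen9 (some true))⁻¹ * ModularGroup.T := by
      rw [e, inv_mul_cancel_left]
    rw [e']
    exact Subgroup.mul_mem _ (Subgroup.inv_mem _ (Subgroup.mul_mem _ hV hU)) hT
  refine Gamma0_sq_le Nat.prime_three _ h1 hT fun e he => ?_
  have e9 : ((3 : ℕ) : ℤ) ^ 2 = 9 := by norm_num
  rw [e9]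
  have he' : ¬ (3 : ℤ) ∣ e := he
  obtain ⟨U', hU', u1, u2⟩ := g0span_flip _ h1 hU
  obtain ⟨V', hV', v1, v2⟩ := g0span_flip _ h1 hV
  obtain ⟨W', hW', w1, w2⟩ := g0span_flip _ h1 hW
  have : (9 : ℤ) ∣ e - 1 ∨ (9 : ℤ) ∣ e - -1 ∨ (9 : ℤ) ∣ e - -2 ∨ (9 : ℤ) ∣ e - -4 ∨
      (9 : ℤ) ∣ e - 4 ∨ (9 : ℤ) ∣ e - 2 := by omega
  rcases this with h | h | h | h | h | h
  · exact g0span_shift _ hT hU rfl rfl h
  · exact g0span_shift _ hT hU' u1 u2 h
  · exact g0span_shift _ hT hV rfl rfl h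
  · exact g0span_shift _ hT hV' v1 v2 h
  · exact g0span_shift _ hT hW rfl rfl h
  · exact g0span_shift _ hT hW' w1 w2 h

end Pool.Agent.Lib.MP_88d29b_nt.G
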