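import Pool.Agent.Lib.MP_88d29b_nt.GDefs

/-!
Spanning trees, positive words and universal cocycles for free groups.
-/

set_option autoImplicit false

noncomputable section

namespace Pool.Agent.Lib.MP_88d29b_nt.G

open Finset

/-- A spanning tree. `act x a` is a right action of letters on a finite set in which every point is reached from `x₀`. Sketch: let `dep x` be the least length of a list `w` with
`w.foldl act x₀ = x`; for `x ≠ x₀` a shortest list is `w' ++ [a]`; put `par x = w'.foldl act x₀`,
`lab x = a`. -/
theorem exists_tree {X A : Type} (act : X → A → X) (x₀ : X)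
    (h : ∀ x, ∃ w : List A, w.foldl act x₀ = x) :
    ∃ (dep : X → ℕ) (par : {x // x ≠ x₀} → X × A),
      ∀ x, act (par x).1 (par x).2 = x ∧ dep (par x).1 < dep x := by
  classical
  have h' : ∀ x, ∃ n, ∃ w : List A, w.length = n ∧ w.foldl act x₀ = x := fun x => by
    obtain ⟨w, hw⟩ := h x
    exact ⟨_, w, rfl, hw⟩
  have key : ∀ x : {x // x ≠ x₀}, ∃ p : X × A, act p.1 p.2 = x ∧
      Nat.find (h' p.1) < Nat.find (h' x) := by
    intro x
    obtain ⟨w, hl, hw⟩ := Nat.find_spec (h' x)
    rcases List.eq_nil_or_concat w with rfl | ⟨w', a, rfl⟩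
    · exact absurd hw.symm x.2
    · rw [List.concat_eq_append, List.foldl_append] at hw
      refine ⟨(w'.foldl act x₀, a), hw, ?_⟩
      have h1 : Nat.find (h' (w'.foldl act x₀)) ≤ w'.length := Nat.find_min' _ ⟨w', rfl, rfl⟩
      rw [List.length_concat] at hl
      show Nat.find (h' (w'.foldl act x₀)) < Nat.find (h' x)
      omega
  choose par hpar using key
  exact ⟨fun x => Nat.find (h' x), par, hpar⟩

/-- In a finite quotient positive words suffice. Sketch: the set of `mk (w.map of).prod⁻¹` is
stable under left multiplication by `(of a)⁻¹`, an injective map of a finite set, so also under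
`of a` (finite order, or `Finite.injective_iff_surjective` on the stable subset);
`FreeGroup.induction_on` / closure induction. -/
theorem exists_pos_word {A : Type} (H : Subgroup (FreeGroup A)) [H.FiniteIndex]
    (x : FreeGroup A ⧸ H) : ∃ w : List A,
      w.foldl (fun (y : FreeGroup A ⧸ H) a => (FreeGroup.of a)⁻¹ • y) ((1 : FreeGroup A) :
        FreeGroup A ⧸ H) = x := by
  classical
  let S : FreeGroup A ⧸ H → Prop := fun y => ∃ w : List A,
    w.foldl (fun (y : FreeGroup A ⧸ H) a => (FreeGroup.of a)⁻¹ • y) ((1 : FreeGroup A) :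
      FreeGroup A ⧸ H) = y
  have h1 : ∀ (a : A) y, S y → S ((FreeGroup.of a)⁻¹ • y) := by
    rintro a y ⟨w, rfl⟩
    exact ⟨w ++ [a], by rw [List.foldl_append]; rfl⟩
  have h2 : ∀ (a : A) y, S y → S (FreeGroup.of a • y) := by
    intro a y hy
    let f : FreeGroup A ⧸ H → FreeGroup A ⧸ H := fun z => (FreeGroup.of a)⁻¹ • z
    have hf : Function.Injective f := MulAction.injective _
    obtain ⟨n, hn, hp⟩ := hf.mem_periodicPts y
    have h3 : ∀ k, S (f^[k] y) := by
      intro k
      induction k with
      | zero => exact hy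
      | succ k ih =>
        rw [Function.iterate_succ_apply']
        exact h1 a _ ih
    obtain ⟨m, rfl⟩ : ∃ m, n = m + 1 := ⟨n - 1, by omega⟩
    have h4 : f (f^[m] y) = y := by
      rw [← Function.iterate_succ_apply' f m y]
      exact hp
    have h5 : FreeGroup.of a • y = f^[m] y := by
      conv_lhs => rw [← h4]
      exact smul_inv_smul _ _
    rw [h5]
    exact h3 m
  have h6 : ∀ g : FreeGroup A, ∀ y, S y → S (g • y) := by
    intro g
    induction g using FreeGroup.induction_on with
    | C1 => exact fun y hy => by rwa [one_smul]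
    | of a => exact h2 a
    | inv_of a _ => exact h1 a
    | mul g g' ih ih' => exact fun y hy => by rw [mul_smul]; exact ih _ (ih' y hy)
  obtain ⟨g, rfl⟩ := QuotientGroup.mk_surjective x
  have := h6 g _ ⟨[], rfl⟩
  simpa [S] using this

/-- The universal cocycle. Sketch: lift `a ↦ ((g, x) ↦ (g * e x a, (of a)⁻¹ • x))` to a homomorphism
from `FreeGroup A` to `(Equiv.Perm (G × X))ᵐᵒᵖ`; every element of the image has the form
`(g, x) ↦ (g * c x w, w⁻¹ • x)`. -/
theorem exists_univ_cocycle {A X G : Type} [Group G] [MulAction (FreeGroup A) X] (e : X → A → G) :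
    ∃ c : X → FreeGroup A → G, (∀ x a, c x (FreeGroup.of a) = e x a) ∧
      ∀ x w w', c x (w * w') = c x w * c (w⁻¹ • x) w' := by
  let π : A → Equiv.Perm (G × X) := fun a =>
    { toFun := fun p => (p.1 * e p.2 a, (FreeGroup.of a)⁻¹ • p.2)
      invFun := fun p => (p.1 * (e (FreeGroup.of a • p.2) a)⁻¹, FreeGroup.of a • p.2)
      left_inv := fun p => by simp
      right_inv := fun p => by simp }
  let φ : FreeGroup A →* (Equiv.Perm (G × X))ᵐᵒᵖ :=
    FreeGroup.lift (fun a => MulOpposite.op (π a))
  have key : ∀ w : FreeGroup A, ∃ d : X → G, ∀ g x,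
      (φ w).unop (g, x) = (g * d x, w⁻¹ • x) := by
    intro w
    induction w using FreeGroup.induction_on with
    | C1 => exact ⟨fun _ => 1, fun g x => by simp⟩
    | of a =>
      refine ⟨fun x => e x a, fun g x => ?_⟩
      have : φ (FreeGroup.of a) = MulOpposite.op (π a) := FreeGroup.lift_apply_of
      rw [this]
      rfl
    | inv_of a _ =>
      refine ⟨fun x => (e (FreeGroup.of a • x) a)⁻¹, fun g x => ?_⟩
      have : φ (FreeGroup.of a) = MulOpposite.op (π a) := FreeGroup.lift_apply_of
      rw [map_inv, this, inv_inv]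
      rfl
    | mul w w' ih ih' =>
      obtain ⟨d, hd⟩ := ih
      obtain ⟨d', hd'⟩ := ih'
      refine ⟨fun x => d x * d' (w⁻¹ • x), fun g x => ?_⟩
      rw [map_mul, MulOpposite.unop_mul, Equiv.Perm.mul_apply, hd, hd', mul_assoc, mul_inv_rev,
        mul_smul]
  choose d hd using key
  refine ⟨fun x w => d w x, fun x a => ?_, fun x w w' => ?_⟩
  · have h1 := hd (FreeGroup.of a) 1 x
    have : φ (FreeGroup.of a) = MulOpposite.op (π a) := FreeGroup.lift_apply_of
    rw [this] at h1
    have h2 := congrArg Prod.fst h1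
    simpa [π] using h2.symm
  · have h1 := hd (w * w') 1 x
    rw [map_mul, MulOpposite.unop_mul, Equiv.Perm.mul_apply, hd, hd] at h1
    have h2 := congrArg Prod.fst h1
    simpa using h2.symm

end Pool.Agent.Lib.MP_88d29b_nt.G
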