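import Pool.Agent.Lib.MP_88d29b_nt.GDefs

/-!
Arithmetic of the Hecke eigenvalues `hn`.
-/

set_option autoImplicit false

noncomputable section

namespace Pool.Agent.Lib.MP_88d29b_nt.G

open Finset

variable {A B : Type*} [CommRing A] [CommRing B]

lemma hn_one (k : ℕ) (x : ℕ → A) : hn k x 1 = 1 := by
  simp [hn]

lemma hn_mul (k : ℕ) (x : ℕ → A) {m n : ℕ} (h : m.Coprime n) :
    hn k x (m * n) = hn k x m * hn k x n := by
  unfold hn
  rw [Nat.factorization_mul_of_coprime h, Finsupp.prod_add_index_of_disjoint]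
  simpa using h.disjoint_primeFactors

lemma hn_prime_pow (k : ℕ) (x : ℕ → A) {l : ℕ} (hl : l.Prime) (r : ℕ) :
    hn k x (l ^ r) = hp ((l : A) ^ (k - 1)) (x l) r := by
  unfold hn
  rw [hl.factorization_pow, Finsupp.prod_single_index]
  rfl

lemma hn_prime (k : ℕ) (x : ℕ → A) {l : ℕ} (hl : l.Prime) : hn k x l = x l := by
  have := hn_prime_pow k x hl 1
  simpa [hp] using this

/-- Sketch: write `n = l ^ r * n'` with `l ∤ n'` (`Nat.exists_eq_pow_mul_and_not_dvd`). -/
lemma hn_hecke (k : ℕ) (x : ℕ → A) {l n : ℕ} (hl : l.Prime) (hn0 : n ≠ 0) :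
    x l * hn k x n =
      hn k x (l * n) + if l ∣ n then (l : A) ^ (k - 1) * hn k x (n / l) else 0 := by
  obtain ⟨r, n', hn', rfl⟩ := Nat.exists_eq_pow_mul_and_not_dvd hn0 l hl.one_lt.ne'
  have hc : ∀ s : ℕ, (l ^ s).Coprime n' := fun s =>
    Nat.Coprime.pow_left s ((Nat.Prime.coprime_iff_not_dvd hl).2 hn')
  have e1 : l * (l ^ r * n') = l ^ (r + 1) * n' := by ring
  rw [e1, hn_mul k x (hc r), hn_mul k x (hc (r + 1)), hn_prime_pow k x hl, hn_prime_pow k x hl]
  rcases r with _ | r
  · have : ¬ l ∣ l ^ 0 * n' := by simpa using hn'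
    rw [if_neg this]
    simp [hp]
  · have hd : l ∣ l ^ (r + 1) * n' := Dvd.dvd.mul_right (dvd_pow_self l (Nat.succ_ne_zero r)) _
    have e2 : l ^ (r + 1) * n' / l = l ^ r * n' := by
      rw [show l ^ (r + 1) * n' = l * (l ^ r * n') by ring]
      exact Nat.mul_div_cancel_left _ hl.pos
    rw [if_pos hd, e2, hn_mul k x (hc r), hn_prime_pow k x hl]
    have e3 : hp ((l : A) ^ (k - 1)) (x l) (r + 1 + 1) =
        x l * hp ((l : A) ^ (k - 1)) (x l) (r + 1) -
          (l : A) ^ (k - 1) * hp ((l : A) ^ (k - 1)) (x l) r := rfl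
    rw [e3]
    ring

lemma hn_congr (k : ℕ) {x y : ℕ → A} {n : ℕ} (h : ∀ l, l.Prime → l ∣ n → x l = y l) :
    hn k x n = hn k y n := by
  unfold hn
  refine Finsupp.prod_congr fun l hl => ?_
  have hl' : l ∈ n.primeFactors := by simpa using hl
  rw [h l (Nat.prime_of_mem_primeFactors hl') (Nat.dvd_of_mem_primeFactors hl')]

lemma map_hp (φ : A →+* B) (c x : A) (r : ℕ) : φ (hp c x r) = hp (φ c) (φ x) r := by
  induction r using Nat.twoStepInduction with
  | zero => simp [hp]
  | one => simp [hp]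
  | more r h1 h2 =>
    show φ (x * hp c x (r + 1) - c * hp c x r) =
      φ x * hp (φ c) (φ x) (r + 1) - φ c * hp (φ c) (φ x) r
    rw [map_sub, map_mul, map_mul, h1, h2]

lemma map_hn (φ : A →+* B) (k : ℕ) (x : ℕ → A) (n : ℕ) :
    φ (hn k x n) = hn k (fun l => φ (x l)) n := by
  unfold hn Finsupp.prod
  rw [map_prod]
  refine Finset.prod_congr rfl fun l _ => ?_
  rw [map_hp]
  simp

lemma hn_mem (S : Subring A) (k : ℕ) {x : ℕ → A} {n : ℕ}
    (h : ∀ l, l.Prime → l ∣ n → x l ∈ S) : hn k x n ∈ S := by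
  unfold hn Finsupp.prod
  refine S.prod_mem fun l hl => ?_
  have hl' : l ∈ n.primeFactors := by simpa using hl
  have hx := h l (Nat.prime_of_mem_primeFactors hl') (Nat.dvd_of_mem_primeFactors hl')
  have hc : (l : A) ^ (k - 1) ∈ S := S.pow_mem (natCast_mem S l) _
  generalize n.factorization l = r
  induction r using Nat.twoStepInduction with
  | zero => exact S.one_mem
  | one => exact hx
  | more r h1 h2 => exact S.sub_mem (S.mul_mem hx h2) (S.mul_mem hc h1)

/-- Sketch: first `a (m * l ^ r) = hp _ (x l) r * a m` for `l ∤ m` by two step induction on `r`,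
then induction on `n` for all `m` (`Nat.recOnPosPrimePosCoprime` or `induction_on_primes`). -/
lemma coeff_mul {N k : ℕ} {a x : ℕ → A}
    (h : ∀ l, l.Prime → l.Coprime N → ∀ n,
      x l * a n = a (l * n) + if l ∣ n then (l : A) ^ (k - 1) * a (n / l) else 0)
    {m n : ℕ} (hn0 : n ≠ 0) (hN : n.Coprime N) (hmn : m.Coprime n) :
    a (m * n) = hn k x n * a m := by
  have key : ∀ l, l.Prime → l.Coprime N → ∀ m, ¬ l ∣ m → ∀ r : ℕ,
      a (m * l ^ r) = hp ((l : A) ^ (k - 1)) (x l) r * a m := by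
    intro l hl hlN m hm r
    induction r using Nat.twoStepInduction with
    | zero => simp [hp]
    | one =>
      have := h l hl hlN m
      rw [if_neg hm] at this
      simp only [hp, pow_one]
      rw [this, mul_comm m l, add_zero]
    | more r h1 h2 =>
      have h3 := h l hl hlN (m * l ^ (r + 1))
      have hd : l ∣ m * l ^ (r + 1) := Dvd.dvd.mul_left (dvd_pow_self l (Nat.succ_ne_zero r)) _
      have e2 : m * l ^ (r + 1) / l = m * l ^ r := by
        rw [show m * l ^ (r + 1) = l * (m * l ^ r) by ring]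
        exact Nat.mul_div_cancel_left _ hl.pos
      have e1 : l * (m * l ^ (r + 1)) = m * l ^ (r + 2) := by ring
      rw [if_pos hd, e2, e1, h1, h2] at h3
      have e3 : hp ((l : A) ^ (k - 1)) (x l) (r + 2) =
          x l * hp ((l : A) ^ (k - 1)) (x l) (r + 1) -
            (l : A) ^ (k - 1) * hp ((l : A) ^ (k - 1)) (x l) r := rfl
      rw [e3]
      linear_combination -h3
  induction n using Nat.recOnPosPrimePosCoprime generalizing m with
  | zero => exact absurd rfl hn0
  | one => simp [hn_one]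
  | prime_pow l r hl hr =>
    have hlN : l.Coprime N := Nat.Coprime.coprime_dvd_left (dvd_pow_self l hr.ne') hN
    have hm : ¬ l ∣ m := by
      rw [← Nat.Prime.coprime_iff_not_dvd hl]
      exact (Nat.Coprime.coprime_dvd_right (dvd_pow_self l hr.ne') hmn).symm
    rw [hn_prime_pow k x hl, key l hl hlN m hm r]
  | coprime s t hs ht hst ihs iht =>
    have hsN : s.Coprime N := Nat.Coprime.coprime_dvd_left (dvd_mul_right s t) hN
    have htN : t.Coprime N := Nat.Coprime.coprime_dvd_left (dvd_mul_left t s) hN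
    have hms : m.Coprime s := Nat.Coprime.coprime_dvd_right (dvd_mul_right s t) hmn
    have hmt : m.Coprime t := Nat.Coprime.coprime_dvd_right (dvd_mul_left t s) hmn
    rw [← mul_assoc, iht (by omega) htN (Nat.Coprime.mul_left hmt hst),
      ihs (by omega) hsN hms, hn_mul k x hst]
    ring

/-- Sketch: strong induction on the number of `i` with `c i ≠ 0`. If `c i ≠ 0` is the only one use
`n = 1`. If also `c j ≠ 0`, take `l` with `lam i l ≠ lam j l`; by `hn_hecke` the coefficients
`c t * (lam t l - lam j l)` satisfy the same relations and have smaller support. -/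
lemma hn_indep {K ι : Type*} [Field K] [Fintype ι] {N k : ℕ} (lam : ι → ℕ → K)
    (hinj : ∀ i j, (∀ l, l.Prime → l.Coprime N → lam i l = lam j l) → i = j) (c : ι → K)
    (h : ∀ n, n ≠ 0 → n.Coprime N → ∑ i, c i * hn k (lam i) n = 0) : c = 0 := by
  classical
  generalize hs : (Finset.univ.filter fun i => c i ≠ 0).card = s
  induction s using Nat.strong_induction_on generalizing c with
  | _ s ih =>
    by_contra hc
    obtain ⟨i, hi⟩ : ∃ i, c i ≠ 0 := by
      by_contra hcon
      push Not at hcon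
      exact hc (funext hcon)
    by_cases hj : ∃ j, j ≠ i ∧ c j ≠ 0
    · obtain ⟨j, hji, hj⟩ := hj
      obtain ⟨l, hl, hlN, hne⟩ : ∃ l, l.Prime ∧ l.Coprime N ∧ lam i l ≠ lam j l := by
        by_contra hcon
        push Not at hcon
        exact hji (hinj i j hcon).symm
      have hlt : (Finset.univ.filter fun t => c t * (lam t l - lam j l) ≠ 0).card < s := by
        rw [← hs]
        refine Finset.card_lt_card ⟨fun t ht => ?_, fun hsub => ?_⟩
        · simp only [Finset.mem_filter, Finset.mem_univ, true_and] at ht ⊢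
          exact left_ne_zero_of_mul ht
        · have := hsub (show j ∈ _ by simpa using hj)
          simp at this
      have h0 := ih _ hlt (fun t => c t * (lam t l - lam j l)) (fun n hn0 hnN => by
        have e : ∀ t, c t * (lam t l - lam j l) * hn k (lam t) n =
            c t * hn k (lam t) (l * n) +
              (if l ∣ n then (l : K) ^ (k - 1) * (c t * hn k (lam t) (n / l)) else 0) -
              lam j l * (c t * hn k (lam t) n) := by
          intro t
          have := hn_hecke k (lam t) hl hn0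
          split_ifs at this ⊢
          · linear_combination c t * this
          · linear_combination c t * this
        rw [Finset.sum_congr rfl fun t _ => e t, Finset.sum_sub_distrib, Finset.sum_add_distrib,
          ← Finset.mul_sum, h n hn0 hnN,
          h (l * n) (mul_ne_zero hl.ne_zero hn0) (Nat.Coprime.mul_left hlN hnN)]
        split_ifs with hd
        · have h1 : n / l ≠ 0 := (Nat.div_pos (Nat.le_of_dvd (Nat.pos_of_ne_zero hn0) hd) hl.pos).ne'
          have h2 : (n / l).Coprime N := Nat.Coprime.coprime_dvd_left (Nat.div_dvd_of_dvd hd) hnN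
          rw [← Finset.mul_sum, h (n / l) h1 h2]
          simp
        · simp) rfl
      have := congrFun h0 i
      simp only [Pi.zero_apply, mul_eq_zero, sub_eq_zero] at this
      tauto
    · push Not at hj
      have h1 := h 1 one_ne_zero (Nat.coprime_one_left N)
      rw [Finset.sum_eq_single i (fun t _ ht => by rw [hj t ht, zero_mul]) (by simp),
        hn_one, mul_one] at h1
      exact hi h1

/-- Sketch: `‖hp c x r‖ ≤ (2 X) ^ r` if `‖c‖, ‖x‖ ≤ X` and `1 ≤ X`; `2 l ^ E ≤ l ^ (E + 1)`;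
`Nat.factorization_prod_pow_eq_self`. -/
lemma norm_hn_le {x : ℕ → ℂ} {k E n : ℕ} (hn0 : n ≠ 0) (hk : k ≤ E)
    (h : ∀ l, l.Prime → l ∣ n → ‖x l‖ ≤ (l : ℝ) ^ E) : ‖hn k x n‖ ≤ (n : ℝ) ^ (E + 1) := by
  have key : ∀ (c y : ℂ) (X : ℝ), 1 ≤ X → ‖c‖ ≤ X → ‖y‖ ≤ X → ∀ r : ℕ,
      ‖hp c y r‖ ≤ (2 * X) ^ r := by
    intro c y X hX hc hy r
    induction r using Nat.twoStepInduction with
    | zero => simp [hp]
    | one =>
      simp only [hp, pow_one]
      linarith
    | more r h1 h2 =>
      have e3 : hp c y (r + 2) = y * hp c y (r + 1) - c * hp c y r := rfl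
      have hp0 : (0 : ℝ) ≤ (2 * X) ^ r := by positivity
      have hle : (2 * X) ^ r ≤ (2 * X) ^ (r + 1) := pow_le_pow_right₀ (by linarith) (by omega)
      calc ‖hp c y (r + 2)‖ ≤ ‖y‖ * ‖hp c y (r + 1)‖ + ‖c‖ * ‖hp c y r‖ := by
            rw [e3, ← norm_mul, ← norm_mul]; exact norm_sub_le _ _
        _ ≤ X * (2 * X) ^ (r + 1) + X * (2 * X) ^ (r + 1) := by
            gcongr
            exact h1.trans hle
        _ = (2 * X) ^ (r + 2) := by ring
  have e : (n : ℝ) ^ (E + 1) =
      ∏ l ∈ n.factorization.support, ((l : ℝ) ^ (E + 1)) ^ n.factorization l := by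
    conv_lhs => rw [← Nat.prod_factorization_pow_eq_self hn0]
    unfold Finsupp.prod
    push_cast
    rw [← Finset.prod_pow]
    refine Finset.prod_congr rfl fun l _ => ?_
    rw [← pow_mul, ← pow_mul, mul_comm]
  rw [e]
  unfold hn Finsupp.prod
  rw [norm_prod]
  refine Finset.prod_le_prod (fun _ _ => norm_nonneg _) fun l hl => ?_
  have hl' : l ∈ n.primeFactors := by simpa using hl
  have hpr := Nat.prime_of_mem_primeFactors hl'
  have h2 : (2 : ℝ) ≤ l := by exact_mod_cast hpr.two_le
  have hX : (1 : ℝ) ≤ (l : ℝ) ^ E := one_le_pow₀ (by linarith)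
  have hc : ‖(l : ℂ) ^ (k - 1)‖ ≤ (l : ℝ) ^ E := by
    rw [norm_pow, Complex.norm_natCast]
    exact pow_le_pow_right₀ (by linarith) (by omega)
  refine (key _ _ _ hX hc (h l hpr (Nat.dvd_of_mem_primeFactors hl')) _).trans ?_
  gcongr
  rw [pow_succ, mul_comm]
  gcongr

/-- Sketch: `m = gcd n (N ^ e)`; compare factorizations (`n.factorization q < e`). -/
lemma exists_split {N n e : ℕ} (hN : N ≠ 0) (hn0 : n ≠ 0) (he : n < 2 ^ e) :
    ∃ m n', n = m * n' ∧ m ∣ N ^ e ∧ n'.Coprime N ∧ m.Coprime n' := by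
  have hNe : N ^ e ≠ 0 := pow_ne_zero e hN
  have hd : Nat.gcd n (N ^ e) ∣ n := Nat.gcd_dvd_left _ _
  have hco : (n / Nat.gcd n (N ^ e)).Coprime N := by
    refine Nat.coprime_of_dvd fun q hq h1 h2 => ?_
    have hg0 : Nat.gcd n (N ^ e) ≠ 0 := Nat.gcd_ne_zero_left hn0
    have hq0 : n / Nat.gcd n (N ^ e) ≠ 0 :=
      (Nat.div_pos (Nat.le_of_dvd (Nat.pos_of_ne_zero hn0) hd) (Nat.pos_of_ne_zero hg0)).ne'
    have f1 : 1 ≤ (n / Nat.gcd n (N ^ e)).factorization q := (hq.dvd_iff_one_le_factorization hq0).1 h1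
    have f2 : 1 ≤ N.factorization q := (hq.dvd_iff_one_le_factorization hN).1 h2
    have f3 : n.factorization q < e := by
      have h3 : q ^ n.factorization q ≤ n :=
        Nat.le_of_dvd (Nat.pos_of_ne_zero hn0) (Nat.ordProj_dvd n q)
      have h4 : 2 ^ n.factorization q ≤ q ^ n.factorization q := Nat.pow_le_pow_left hq.two_le _
      exact (Nat.pow_lt_pow_iff_right (by norm_num : 1 < 2)).1 (lt_of_le_of_lt (h4.trans h3) he)
    rw [Nat.factorization_div hd, Nat.factorization_gcd hn0 hNe, Nat.factorization_pow] at f1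
    simp only [Finsupp.coe_tsub, Pi.sub_apply, Finsupp.inf_apply, Finsupp.smul_apply,
      smul_eq_mul] at f1
    have f4 : e ≤ e * N.factorization q := Nat.le_mul_of_pos_right e f2
    omega
  refine ⟨Nat.gcd n (N ^ e), n / Nat.gcd n (N ^ e), (Nat.mul_div_cancel' hd).symm,
    Nat.gcd_dvd_right _ _, hco, ?_⟩
  exact Nat.Coprime.coprime_dvd_left (Nat.gcd_dvd_right _ _) (Nat.Coprime.pow_left e hco.symm)

end Pool.Agent.Lib.MP_88d29b_nt.G
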