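import Pool.Agent.Lib.MP_88d29b_nt.GWt2

/-!
The normalised average over a fundamental domain and its invariance.
-/

set_option autoImplicit false

noncomputable section

namespace Pool.Agent.Lib.MP_88d29b_nt.G

open Finset CongruenceSubgroup UpperHalfPlane Filter MeasureTheory
open scoped MatrixGroups ModularForm Manifold Topology ENNReal

/-- The probability measure attached to a weight function. -/
def pmOf (ψ : ℍ → ℝ≥0∞) : Measure ℍ := (∫⁻ z, ψ z)⁻¹ • (volume : Measure ℍ).withDensity ψ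

/-- A chosen weight function. -/
def wt (A : Subgroup SL(2, ℤ)) [A.FiniteIndex] : ℍ → ℝ≥0∞ := (exists_wt A).choose

lemma wt_spec (A : Subgroup SL(2, ℤ)) [A.FiniteIndex] :
    IsWt A (wt A) 1 ∧ ∫⁻ z, wt A z ≠ ⊤ := (exists_wt A).choose_spec

/-- The average over `A \ ℍ`. -/
def avgM (A : Subgroup SL(2, ℤ)) [A.FiniteIndex] (F : ℍ → ℂ) : ℂ := ∫ z, F z ∂(pmOf (wt A))

lemma gavg_apply {ψ : ℍ → ℝ≥0∞} {s : Set ℍ} (hs : MeasurableSet s) :
    pmOf ψ s = (∫⁻ z, ψ z)⁻¹ * ∫⁻ z, s.indicator ψ z := by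
  rw [pmOf, Measure.smul_apply, withDensity_apply _ hs, smul_eq_mul, lintegral_indicator hs]

lemma gavg_map {μ ν : Measure ℍ} {F : ℍ → ℂ} (hF : Continuous F)
    (h : ∀ s : Set ℂ, MeasurableSet s → μ (F ⁻¹' s) = ν (F ⁻¹' s)) :
    ∫ z, F z ∂μ = ∫ z, F z ∂ν := by
  have e : μ.map F = ν.map F := by
    ext s hs
    rw [Measure.map_apply hF.measurable hs, Measure.map_apply hF.measurable hs, h s hs]
  have e1 := integral_map (μ := μ) hF.measurable.aemeasurable
    (f := fun x : ℂ => x) aestronglyMeasurable_id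
  have e2 := integral_map (μ := ν) hF.measurable.aemeasurable
    (f := fun x : ℂ => x) aestronglyMeasurable_id
  rw [← e1, ← e2, e]

lemma gavg_left_cancel {a b d : Mat} (hd : d.det ≠ 0) (h : d * a = d * b) : a = b := by
  have h1 : d.adjugate * (d * a) = d.adjugate * (d * b) := by rw [h]
  rw [← Matrix.mul_assoc, ← Matrix.mul_assoc, Matrix.adjugate_mul, Matrix.smul_mul,
    Matrix.smul_mul, Matrix.one_mul, Matrix.one_mul] at h1
  exact smul_right_injective _ hd h1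

/-- The conjugate of `A` by `δ`, inside the modular group. -/
def gavg_conj (δ : Mat) (A : Subgroup SL(2, ℤ)) : Subgroup SL(2, ℤ) where
  carrier := {b | ∃ a ∈ A, δ * ((a : SL(2, ℤ)) : Mat) = (b : Mat) * δ}
  one_mem' := ⟨1, A.one_mem, by simp⟩
  mul_mem' := by
    rintro b b' ⟨a, ha, e⟩ ⟨a', ha', e'⟩
    refine ⟨a * a', A.mul_mem ha ha', ?_⟩
    rw [Matrix.SpecialLinearGroup.coe_mul, Matrix.SpecialLinearGroup.coe_mul, ← Matrix.mul_assoc,
      e, Matrix.mul_assoc, e', Matrix.mul_assoc]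
  inv_mem' := by
    rintro b ⟨a, ha, e⟩
    refine ⟨a⁻¹, A.inv_mem ha, ?_⟩
    have h1 : ((b⁻¹ : SL(2, ℤ)) : Mat) * (b : Mat) = 1 := by
      rw [← Matrix.SpecialLinearGroup.coe_mul, inv_mul_cancel, Matrix.SpecialLinearGroup.coe_one]
    have h2 : (a : Mat) * ((a⁻¹ : SL(2, ℤ)) : Mat) = 1 := by
      rw [← Matrix.SpecialLinearGroup.coe_mul, mul_inv_cancel, Matrix.SpecialLinearGroup.coe_one]
    calc δ * ((a⁻¹ : SL(2, ℤ)) : Mat)
        = ((b⁻¹ : SL(2, ℤ)) : Mat) * ((b : Mat) * δ) * ((a⁻¹ : SL(2, ℤ)) : Mat) := by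
          rw [← Matrix.mul_assoc, h1, Matrix.one_mul]
      _ = ((b⁻¹ : SL(2, ℤ)) : Mat) * δ := by
          rw [← e, Matrix.mul_assoc, Matrix.mul_assoc, h2, Matrix.mul_one]

instance isProb_wt (A : Subgroup SL(2, ℤ)) [A.FiniteIndex] :
    IsProbabilityMeasure (pmOf (wt A)) := by
  refine ⟨?_⟩
  rw [gavg_apply MeasurableSet.univ, Set.indicator_univ]
  exact ENNReal.inv_mul_cancel (wt_spec A).1.mass_ne_zero (wt_spec A).2

variable {A A' : Subgroup SL(2, ℤ)} [A.FiniteIndex] [A'.FiniteIndex] {F : ℍ → ℂ}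

/-- Sketch: by `IsWt.lintegral_eq` (with an indicator function and with `1`) the measures
`pmOf (wt A)` and `pmOf ψ` agree on `A`-invariant measurable sets, so their images under `F`
agree; `integral_map` with the identity function. -/
theorem avg_eq_of_wt {ψ : ℍ → ℝ≥0∞} {c : ℝ≥0∞} (h : IsWt A ψ c) (hc0 : c ≠ 0) (hc : c ≠ ⊤)
    (hF : Continuous F) (hinv : ∀ a ∈ A, ∀ z : ℍ, F (a • z) = F z) :
    avgM A F = ∫ z, F z ∂(pmOf ψ) := by
  refine gavg_map hF fun s hs => ?_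
  have hs' : MeasurableSet (F ⁻¹' s) := hF.measurable hs
  have e1 := (wt_spec A).1.lintegral_eq h (F := fun _ => 1) measurable_const fun _ _ _ => rfl
  have e2 := (wt_spec A).1.lintegral_eq h (F := (F ⁻¹' s).indicator 1)
    (measurable_one.indicator hs') fun a ha z => by
      have hz : a • z ∈ F ⁻¹' s ↔ z ∈ F ⁻¹' s := by
        rw [Set.mem_preimage, Set.mem_preimage, hinv a ha z]
      by_cases h' : z ∈ F ⁻¹' s
      · rw [Set.indicator_of_mem h', Set.indicator_of_mem (hz.mpr h')]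
        rfl
      · rw [Set.indicator_of_notMem h', Set.indicator_of_notMem (fun h'' => h' (hz.mp h''))]
  simp only [mul_one, one_mul] at e1
  have e3 : ∀ (φ : ℍ → ℝ≥0∞) (z : ℍ),
      φ z * (F ⁻¹' s).indicator 1 z = (F ⁻¹' s).indicator φ z := fun φ z => by
    by_cases hz : z ∈ F ⁻¹' s <;> simp [hz]
  simp only [e3, one_mul] at e2
  rw [gavg_apply hs', gavg_apply hs', ← e1, ← e2,
    ENNReal.mul_inv (Or.inl hc0) (Or.inl hc), mul_mul_mul_comm, ENNReal.inv_mul_cancel hc0 hc,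
    one_mul]

/-- Sketch: `IsWt.of_le`, `avg_eq_of_wt`. -/
theorem avg_le (hle : A ≤ A') (hF : Continuous F) (hinv : ∀ a ∈ A', ∀ z : ℍ, F (a • z) = F z) :
    avgM A F = avgM A' F := by
  obtain ⟨n, hn, h⟩ := (wt_spec A).1.of_le hle
  rw [avg_eq_of_wt h (by exact_mod_cast hn) (ENNReal.natCast_ne_top n) hF hinv]
  rfl

/-- Sketch: `IsWt.conj`, `avg_eq_of_wt`; `pmOf ψ` is the image of `pmOf (ψ ∘ sm δ)` under `sm δ`
(`lintegral_sm`), `integral_map`. -/
theorem avg_conj {δ : Mat} (hδ : δ.det ≠ 0) (e : A ≃ A')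
    (he : ∀ a : A, δ * ((a : SL(2, ℤ)) : Mat) = ((e a : SL(2, ℤ)) : Mat) * δ)
    (hF : Continuous F) (hinv : ∀ a ∈ A', ∀ z : ℍ, F (a • z) = F z) :
    avgM A (fun z => F (sm δ z)) = avgM A' F := by
  have hm := (continuous_sm δ).measurable
  have hψ := (wt_spec A').1
  rw [avg_eq_of_wt (F := fun z => F (sm δ z)) (hψ.conj hδ e he) one_ne_zero ENNReal.one_ne_top
    (hF.comp (continuous_sm δ)) fun a ha z => ?_]
  · have e1 : (pmOf fun z => wt A' (sm δ z)).map (sm δ) = pmOf (wt A') := by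
      ext s hs
      rw [Measure.map_apply hm hs, gavg_apply (hm hs), gavg_apply hs, lintegral_sm δ hψ.meas,
        ← lintegral_sm δ (hψ.meas.indicator hs)]
      rfl
    rw [avgM, ← e1, integral_map hm.aemeasurable hF.aestronglyMeasurable]
  · have h1 : ∀ g : SL(2, ℤ), (g : Mat).det ≠ 0 := fun g => inside_Snz ⊤ g trivial
    have h2 := he ⟨a, ha⟩
    show F (sm δ (a • z)) = F (sm δ z)
    rw [← sm_SL, ← sm_mul hδ (h1 a), h2, sm_mul (h1 _) hδ, sm_SL, hinv _ (e ⟨a, ha⟩).2]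

/-- Sketch: `D = δ.det.natAbs`, `A = Γ(L L' D)`, `B = {b | ∃ a ∈ A, δ a = b δ}` is a subgroup with
`Γ(L L' D D) ≤ B ≤ Γ(L)` (`exists_conj` for `δ` and for `δ.adjugate`, `mat_right_cancel`), and
`a ↦ b` is a bijection `A ≃ B`. Then `avg_le`, `avg_conj`, `avg_le`. -/
theorem avg_sm {L L' : ℕ} [NeZero L] [NeZero L'] {δ : Mat} (hδ : δ.det ≠ 0) (hF : Continuous F)
    (hinv : ∀ a ∈ Gamma L, ∀ z : ℍ, F (a • z) = F z)
    (hinv' : ∀ a ∈ Gamma L', ∀ z : ℍ, F (sm δ (a • z)) = F (sm δ z)) :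
    avgM (Gamma L') (fun z => F (sm δ z)) = avgM (Gamma L) F := by
  have hD : δ.det ∣ (δ.det.natAbs : ℤ) := Int.dvd_natAbs.mpr dvd_rfl
  have : NeZero δ.det.natAbs := ⟨Int.natAbs_ne_zero.mpr hδ⟩
  set D := δ.det.natAbs with hDdef
  have hex : ∀ a : Gamma (L * L' * D), ∃ b ∈ Gamma (L * L'),
      δ * ((a : SL(2, ℤ)) : Mat) = (b : Mat) * δ := fun a => exists_conj hδ hD a.2
  have hB1 : gavg_conj δ (Gamma (L * L' * D)) ≤ Gamma L := by
    rintro b ⟨a, ha, e⟩
    obtain ⟨b', hb', e'⟩ := hex ⟨a, ha⟩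
    have : b = b' := Subtype.ext (mat_right_cancel hδ (e.symm.trans e'))
    rw [this]
    exact Gamma_le_of_dvd (dvd_mul_right L L') hb'
  have hB2 : Gamma (L * L' * D * D) ≤ gavg_conj δ (Gamma (L * L' * D)) := by
    intro b hb
    have hadj : δ.adjugate.det = δ.det := by rw [Matrix.det_adjugate]; simp
    obtain ⟨a, ha, e⟩ := exists_conj (α := δ.adjugate) (by rw [hadj]; exact hδ)
      (by rw [hadj]; exact hD) hb
    refine ⟨a, ha, ?_⟩
    have h1 : δ * (δ.adjugate * (b : Mat)) * δ = δ * ((a : Mat) * δ.adjugate) * δ := by rw [e]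
    rw [← Matrix.mul_assoc, Matrix.mul_adjugate, Matrix.smul_mul, Matrix.one_mul, Matrix.smul_mul,
      Matrix.mul_assoc, Matrix.mul_assoc, Matrix.adjugate_mul, Matrix.mul_smul, Matrix.mul_one,
      Matrix.mul_smul] at h1
    exact (smul_right_injective _ hδ h1).symm
  have : (gavg_conj δ (Gamma (L * L' * D))).FiniteIndex := Subgroup.finiteIndex_of_le hB2
  choose β hβ1 hβ using hex
  let f : Gamma (L * L' * D) → gavg_conj δ (Gamma (L * L' * D)) := fun a => ⟨β a, a, a.2, hβ a⟩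
  have hf : Function.Bijective f := by
    constructor
    · intro a a' h
      have h1 : β a = β a' := congrArg Subtype.val h
      have h2 := hβ a
      rw [h1, ← hβ a'] at h2
      exact Subtype.ext (Subtype.ext (gavg_left_cancel hδ h2))
    · rintro ⟨b, a, ha, e⟩
      exact ⟨⟨a, ha⟩, Subtype.ext (Subtype.ext
        (mat_right_cancel hδ ((hβ ⟨a, ha⟩).symm.trans e)))⟩
  have hA : Gamma (L * L' * D) ≤ Gamma L' :=
    Gamma_le_of_dvd (Dvd.dvd.mul_right (dvd_mul_left L' L) D)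
  rw [← avg_le (F := fun z => F (sm δ z)) hA (hF.comp (continuous_sm δ)) hinv',
    ← avg_le hB1 hF hinv]
  exact avg_conj hδ (Equiv.ofBijective f hf) hβ hF fun a ha z => hinv a (hB1 ha) z

/-- Sketch: `integral_eq_zero_iff_of_nonneg`, `IsWt.ae_eq_zero` for `ENNReal.ofReal ∘ G`,
`Continuous.ae_eq_iff_eq`. -/
theorem eq_zero_of_avg {G : ℍ → ℝ} (hG : Continuous G) (h0 : ∀ z, 0 ≤ G z) {C : ℝ}
    (hC : ∀ z, G z ≤ C) (hinv : ∀ a ∈ A, ∀ z : ℍ, G (a • z) = G z)
    (h : avgM A (fun z => (G z : ℂ)) = 0) : G = 0 := by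
  have h1 : ∫ z, G z ∂(pmOf (wt A)) = 0 := by
    rw [avgM, integral_complex_ofReal] at h
    exact_mod_cast h
  have hint : Integrable G (pmOf (wt A)) :=
    Integrable.of_bound hG.aestronglyMeasurable C
      (Eventually.of_forall fun z => by rw [Real.norm_of_nonneg (h0 z)]; exact hC z)
  have h2 := (integral_eq_zero_iff_of_nonneg (fun z => h0 z) hint).mp h1
  have hm : Measurable fun z => ENNReal.ofReal (G z) := hG.measurable.ennreal_ofReal
  have h3 : ∫⁻ z, ENNReal.ofReal (G z) ∂(pmOf (wt A)) = 0 := by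
    rw [lintegral_eq_zero_iff hm]
    filter_upwards [h2] with z hz
    simp [hz]
  rw [pmOf, lintegral_smul_measure, lintegral_withDensity_eq_lintegral_mul _ (wt_spec A).1.meas hm,
    smul_eq_mul, mul_eq_zero] at h3
  have h4 := h3.resolve_left (ENNReal.inv_ne_zero.mpr (wt_spec A).2)
  have h5 := (wt_spec A).1.ae_eq_zero hm (fun a ha z => by rw [hinv a ha z]) h4
  refine (hG.ae_eq_iff_eq (volume : Measure ℍ) continuous_zero).mp ?_
  filter_upwards [h5] with z hz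
  exact le_antisymm (ENNReal.ofReal_eq_zero.mp hz) (h0 z)

end Pool.Agent.Lib.MP_88d29b_nt.G
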