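import Pool.Agent.Lib.MP_88d29b_nt.GDefs

/-!
The pointwise Bochner inequality at a local maximum.
-/

set_option autoImplicit false

noncomputable section

namespace Pool.Agent.Lib.MP_88d29b_nt.G

open Finset Filter Complex
open scoped Topology ComplexConjugate

/-- Second derivative test. Sketch: `IsLocalMax.deriv_eq_zero`; if `0 < b` then `φ'` is positive
just to the right of `0`, so `φ` increases there (or `isLocalMin_of_deriv_deriv_pos`; a point that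
is a local maximum and a local minimum has `φ` locally constant, so `φ' = 0` near `0`). -/
lemma second_deriv_nonpos {φ φ' : ℝ → ℝ} {b : ℝ} (h1 : ∀ᶠ t in 𝓝 (0 : ℝ), HasDerivAt φ (φ' t) t)
    (h2 : HasDerivAt φ' b 0) (hmax : IsLocalMax φ 0) : φ' 0 = 0 ∧ b ≤ 0 := by
  have h0 : HasDerivAt φ (φ' 0) 0 := h1.self_of_nhds
  have hz : φ' 0 = 0 := hmax.hasDerivAt_eq_zero h0
  refine ⟨hz, ?_⟩
  by_contra hb
  have hb' : 0 < b := not_le.1 hb
  have hd : deriv φ =ᶠ[𝓝 0] φ' := h1.mono fun t ht => ht.deriv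
  have hdd : deriv (deriv φ) 0 = b := by rw [hd.deriv_eq, h2.deriv]
  have hmin : IsLocalMin φ 0 :=
    isLocalMin_of_deriv_deriv_pos (by rw [hdd]; exact hb') (by rw [h0.deriv, hz]) h0.continuousAt
  have hc : φ =ᶠ[𝓝 0] fun _ => φ 0 := by
    filter_upwards [hmax, hmin] with t h3 h4 using le_antisymm h3 h4
  have hc' : deriv φ =ᶠ[𝓝 0] fun _ => (0 : ℝ) := by
    filter_upwards [hc.deriv] with t ht
    rw [ht, deriv_const]
  have : deriv (deriv φ) 0 = 0 := by rw [hc'.deriv_eq, deriv_const]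
  rw [hdd] at this
  exact hb'.ne' this

lemma gboch_tend (w u : ℂ) : Tendsto (fun t : ℝ => w + (t : ℂ) * u) (𝓝 0) (𝓝 w) := by
  have h : Continuous (fun t : ℝ => w + (t : ℂ) * u) := by fun_prop
  simpa using h.tendsto 0

lemma gboch_line {f : ℂ → ℂ} {w : ℂ} (hf : AnalyticAt ℂ f w) (u : ℂ) :
    ∀ᶠ t : ℝ in 𝓝 (0 : ℝ), HasDerivAt (fun t : ℝ => f (w + (t : ℂ) * u))
      (deriv f (w + (t : ℂ) * u) * u) t := by
  filter_upwards [(gboch_tend w u).eventually hf.eventually_analyticAt] with t ht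
  have h1 : HasDerivAt (fun s : ℂ => w + s * u) u (t : ℂ) := by
    simpa using ((hasDerivAt_id (t : ℂ)).mul_const u).const_add w
  exact (ht.differentiableAt.hasDerivAt.comp (t : ℂ) h1).comp_ofReal

lemma gboch_line0 {f : ℂ → ℂ} {w : ℂ} (hf : AnalyticAt ℂ f w) (u : ℂ) :
    HasDerivAt (fun t : ℝ => f (w + (t : ℂ) * u)) (deriv f w * u) 0 := by
  simpa using (gboch_line hf u).self_of_nhds

lemma gboch_eta {ι : Type*} [Fintype ι] {p q : ι → ℂ → ℂ} {z w : ℂ}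
    (hp : ∀ j, AnalyticAt ℂ (p j) z) (hq : ∀ j, AnalyticAt ℂ (q j) w) (u v : ℂ) :
    ∀ᶠ t : ℝ in 𝓝 (0 : ℝ),
      HasDerivAt (fun t : ℝ => ∑ j, p j (z + (t : ℂ) * u) * q j (w + (t : ℂ) * v))
      (u * ∑ j, deriv (p j) (z + (t : ℂ) * u) * q j (w + (t : ℂ) * v) +
        v * ∑ j, p j (z + (t : ℂ) * u) * deriv (q j) (w + (t : ℂ) * v)) t := by
  have h1 := eventually_all.2 fun j => gboch_line (hp j) u
  have h2 := eventually_all.2 fun j => gboch_line (hq j) v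
  filter_upwards [h1, h2] with t h1 h2
  have h3 := HasDerivAt.fun_sum (u := Finset.univ) fun j _ => (h1 j).fun_mul (h2 j)
  refine h3.congr_deriv ?_
  rw [mul_sum, mul_sum, ← sum_add_distrib]
  exact sum_congr rfl fun j _ => by ring

lemma gboch_eta0 {ι : Type*} [Fintype ι] {p q : ι → ℂ → ℂ} {z w : ℂ}
    (hp : ∀ j, AnalyticAt ℂ (p j) z) (hq : ∀ j, AnalyticAt ℂ (q j) w) (u v : ℂ) :
    HasDerivAt (fun t : ℝ => ∑ j, p j (z + (t : ℂ) * u) * q j (w + (t : ℂ) * v))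
      (u * ∑ j, deriv (p j) z * q j w + v * ∑ j, p j z * deriv (q j) w) 0 := by
  simpa using (gboch_eta hp hq u v).self_of_nhds

lemma gboch_re {f : ℝ → ℂ} {f' : ℂ} {t : ℝ} (h : HasDerivAt f f' t) :
    HasDerivAt (fun t => (f t).re) f'.re t :=
  Complex.reCLM.hasFDerivAt.comp_hasDerivAt t h

lemma gboch_im {f : ℝ → ℂ} {f' : ℂ} {t : ℝ} (h : HasDerivAt f f' t) :
    HasDerivAt (fun t => (f t).im) f'.im t :=
  Complex.imCLM.hasFDerivAt.comp_hasDerivAt t h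

lemma gboch_dir {η η1 : ℝ → ℂ} {η2 : ℂ} {M y r : ℝ} {n : ℕ}
    (h1 : ∀ᶠ t in 𝓝 (0 : ℝ), HasDerivAt η (η1 t) t) (h2 : HasDerivAt η1 η2 0)
    (hmax : IsLocalMax (fun t : ℝ => (η t).re ^ 2 + (η t).im ^ 2 - M * (y + t * r) ^ (n + 1)) 0) :
    2 * ((η 0).re * (η1 0).re + (η 0).im * (η1 0).im) - M * ((n + 1) * y ^ n * r) = 0 ∧
      2 * ((η1 0).re ^ 2 + (η1 0).im ^ 2 + (η 0).re * η2.re + (η 0).im * η2.im)
        - M * ((n + 1) * (n * y ^ (n - 1) * r) * r) ≤ 0 := by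
  have hl : ∀ t : ℝ, HasDerivAt (fun t : ℝ => y + t * r) r t := fun t => by
    simpa using ((hasDerivAt_id t).mul_const r).const_add y
  have hA : ∀ᶠ t in 𝓝 (0 : ℝ), HasDerivAt
      (fun t : ℝ => (η t).re ^ 2 + (η t).im ^ 2 - M * (y + t * r) ^ (n + 1))
      (2 * ((η t).re * (η1 t).re + (η t).im * (η1 t).im)
        - M * ((n + 1) * (y + t * r) ^ n * r)) t := by
    filter_upwards [h1] with t ht
    have h3 := (((gboch_re ht).fun_pow 2).fun_add ((gboch_im ht).fun_pow 2)).fun_sub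
      (((hl t).fun_pow (n + 1)).const_mul M)
    refine h3.congr_deriv ?_
    simp only [Nat.add_sub_cancel, Nat.cast_add, Nat.cast_one, Nat.cast_ofNat]
    ring
  have h0 : HasDerivAt η (η1 0) 0 := h1.self_of_nhds
  have hB : HasDerivAt (fun t : ℝ => 2 * ((η t).re * (η1 t).re + (η t).im * (η1 t).im)
        - M * ((n + 1) * (y + t * r) ^ n * r))
      (2 * ((η1 0).re ^ 2 + (η1 0).im ^ 2 + (η 0).re * η2.re + (η 0).im * η2.im)
        - M * ((n + 1) * (n * y ^ (n - 1) * r) * r)) 0 := by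
    have h3 := (((((gboch_re h0).fun_mul (gboch_re h2)).fun_add
      ((gboch_im h0).fun_mul (gboch_im h2))).const_mul 2).fun_sub
      ((((((hl 0).fun_pow n).const_mul ((n : ℝ) + 1))).mul_const r).const_mul M))
    refine h3.congr_deriv ?_
    simp only [zero_mul, add_zero]
    ring
  have h4 := second_deriv_nonpos hA hB hmax
  simpa using h4

lemma gboch_step {ι : Type*} [Fintype ι] {n : ℕ} {p q : ι → ℂ → ℂ} {z : ℂ}
    (hz : 0 < z.im) (hp : ∀ j, AnalyticAt ℂ (p j) z) (hq : ∀ j, AnalyticAt ℂ (q j) (conj z))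
    (hmax : IsLocalMax (fun s : ℂ => ‖∑ j, p j s * q j (conj s)‖ ^ 2 / s.im ^ (n + 1)) z)
    (u : ℂ) {h a b A c B η1 η2 : ℂ} {M : ℝ} (hh : h = ∑ j, p j z * q j (conj z))
    (ha : a = ∑ j, deriv (p j) z * q j (conj z)) (hb : b = ∑ j, p j z * deriv (q j) (conj z))
    (hA : A = ∑ j, deriv (deriv (p j)) z * q j (conj z))
    (hc : c = ∑ j, deriv (p j) z * deriv (q j) (conj z))
    (hB : B = ∑ j, p j z * deriv (deriv (q j)) (conj z))
    (h1 : η1 = u * a + conj u * b)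
    (h2 : η2 = u * (u * A + conj u * c) + conj u * (u * c + conj u * B))
    (hM : M = ‖h‖ ^ 2 / z.im ^ (n + 1)) :
    2 * (h.re * η1.re + h.im * η1.im) - M * ((n + 1) * z.im ^ n * u.im) = 0 ∧
      2 * (η1.re ^ 2 + η1.im ^ 2 + h.re * η2.re + h.im * η2.im)
        - M * ((n + 1) * (n * z.im ^ (n - 1) * u.im) * u.im) ≤ 0 := by
  have e1 := gboch_eta hp hq u (conj u)
  have e2 := ((gboch_eta0 (fun j => (hp j).deriv) hq u (conj u)).const_mul u).fun_add
    ((gboch_eta0 hp (fun j => (hq j).deriv) u (conj u)).const_mul (conj u))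
  have hmax' : IsLocalMax (fun t : ℝ =>
      (∑ j, p j (z + (t : ℂ) * u) * q j (conj z + (t : ℂ) * conj u)).re ^ 2 +
      (∑ j, p j (z + (t : ℂ) * u) * q j (conj z + (t : ℂ) * conj u)).im ^ 2
        - M * (z.im + t * u.im) ^ (n + 1)) 0 := by
    have hpos : ∀ᶠ s in 𝓝 z, 0 < s.im :=
      (Complex.continuous_im.tendsto z).eventually (lt_mem_nhds hz)
    filter_upwards [(gboch_tend z u).eventually hmax, (gboch_tend z u).eventually hpos]
      with t h3 h4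
    have h5 : conj (z + (t : ℂ) * u) = conj z + (t : ℂ) * conj u := by simp
    have h6 : (z + (t : ℂ) * u).im = z.im + t * u.im := by simp
    rw [h5, h6, ← hh, ← hM, div_le_iff₀ (by rw [← h6]; positivity), Complex.sq_norm,
      Complex.normSq_apply] at h3
    have h7 : M * z.im ^ (n + 1) = h.re ^ 2 + h.im ^ 2 := by
      rw [hM, div_mul_cancel₀ _ (by positivity), Complex.sq_norm, Complex.normSq_apply]; ring
    simp only [ofReal_zero, zero_mul, add_zero]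
    rw [← hh]
    nlinarith
  have h3 := gboch_dir e1 e2 hmax'
  simp only [ofReal_zero, zero_mul, add_zero] at h3
  rw [← hh, ← ha, ← hb, ← hA, ← hc, ← hB, ← h1, ← h2] at h3
  exact h3

/-- Put `h(s) = ∑ p_j(s) q_j(conj s)`, `a = ∑ p_j' q_j`, `b = ∑ p_j q_j'`, `y = im z`. Sketch: let
`M = ‖h z‖ ^ 2 / y ^ κ`; then `Θ(s) = ‖h s‖ ^ 2 - M (im s) ^ κ` has a local maximum (value `0`) at
`z`. For `u = 1` and `u = I` let `η(t) = h(z + t u)`, `t` real; `η'(0) = u a + conj u b`,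
`η''(0) = u² ∑ p''q + 2 ∑ p'q' + (conj u)² ∑ p q''`, and
`(‖η‖²)' = 2 re (η' conj η)`, `(‖η‖²)'' = 2 re (η'' conj η) + 2 ‖η'‖²`. `second_deriv_nonpos` gives
`re ((a + b) conj h) = 0`, `2 re (I (a - b) conj h) = M κ y ^ (κ - 1)` and, adding the two second
order inequalities,
`8 re (∑ p'q' conj h) + 4 ‖a‖² + 4 ‖b‖² ≤ M κ (κ - 1) y ^ (κ - 2)`. With `M y ^ κ = ‖h‖²` and `hb`
this reads `‖b‖² + ‖a + I κ h / (2 y)‖² + κ ‖h‖² / (4 y²) ≤ 0` (write everything in real and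
imaginary parts of `a, b, h`; `nlinarith` or an explicit `linear_combination`). -/
theorem bochner {ι : Type*} [Fintype ι] {κ : ℕ} (hκ : 0 < κ) {p q : ι → ℂ → ℂ} {z : ℂ}
    (hz : 0 < z.im) (hp : ∀ j, AnalyticAt ℂ (p j) z) (hq : ∀ j, AnalyticAt ℂ (q j) (conj z))
    (hb : ∑ j, deriv (p j) z * deriv (q j) (conj z) =
      -(I * κ / (2 * z.im)) * ∑ j, p j z * deriv (q j) (conj z))
    (hmax : IsLocalMax (fun s : ℂ => ‖∑ j, p j s * q j (conj s)‖ ^ 2 / s.im ^ κ) z) :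
    ∑ j, p j z * q j (conj z) = 0 := by
  obtain ⟨n, rfl⟩ : ∃ n, κ = n + 1 := ⟨κ - 1, by omega⟩
  have s1 := gboch_step hz hp hq hmax 1 rfl rfl rfl rfl rfl rfl rfl rfl rfl
  have s2 := gboch_step hz hp hq hmax I rfl rfl rfl rfl rfl rfl rfl rfl rfl
  rw [hb] at s1 s2
  generalize ∑ j, p j z * q j (conj z) = h at s1 s2 ⊢
  generalize ∑ j, deriv (p j) z * q j (conj z) = a at s1 s2
  generalize ∑ j, p j z * deriv (q j) (conj z) = b at s1 s2
  generalize ∑ j, deriv (deriv (p j)) z * q j (conj z) = A at s1 s2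
  generalize ∑ j, p j z * deriv (deriv (q j)) (conj z) = B at s1 s2
  obtain ⟨k, hk⟩ : ∃ k : ℝ, k = ((n : ℝ) + 1) / (2 * z.im) := ⟨_, rfl⟩
  have hk' : -(I * ((n + 1 : ℕ) : ℂ) / (2 * (z.im : ℂ))) = -(I * (k : ℂ)) := by
    rw [hk]; push_cast; ring
  rw [hk'] at s1 s2
  obtain ⟨N, hN⟩ : ∃ N : ℝ, N = h.re ^ 2 + h.im ^ 2 := ⟨_, rfl⟩
  have hN' : ‖h‖ ^ 2 = N := by rw [hN, Complex.sq_norm, Complex.normSq_apply]; ring
  rw [hN'] at s1 s2
  have e1 : N / z.im ^ (n + 1) * (((n : ℝ) + 1) * z.im ^ n * I.im) = 2 * k * N := by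
    rw [hk, Complex.I_im]; field_simp; ring
  have e2 : N / z.im ^ (n + 1) * (((n : ℝ) + 1) * (n * z.im ^ (n - 1) * I.im) * I.im)
      = 4 * k ^ 2 * N - ((n : ℝ) + 1) / z.im ^ 2 * N := by
    rw [hk, Complex.I_im]
    rcases n with _ | m
    · simp only [Nat.cast_zero]; field_simp; ring
    · simp only [Nat.add_sub_cancel]; push_cast; field_simp; ring
  rw [e1, e2] at s2
  obtain ⟨-, s12⟩ := s1
  obtain ⟨s21, s22⟩ := s2
  simp only [map_one, one_mul, one_im, mul_zero, sub_zero, add_re, add_im, mul_re, mul_im, neg_re,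
    neg_im, I_re, I_im, ofReal_re, ofReal_im, conj_I, zero_mul, zero_sub, zero_add,
    neg_neg, neg_mul] at s12 s21 s22
  have hκ' : 0 < ((n : ℝ) + 1) / z.im ^ 2 := by positivity
  have hN0 : 0 ≤ N := by rw [hN]; positivity
  have key : 4 * (b.re ^ 2 + b.im ^ 2) + 4 * ((a.re - k * h.im) ^ 2 + (a.im + k * h.re) ^ 2)
      + ((n : ℝ) + 1) / z.im ^ 2 * N ≤ 0 := by
    have e3 : 4 * (b.re ^ 2 + b.im ^ 2) + 4 * ((a.re - k * h.im) ^ 2 + (a.im + k * h.re) ^ 2)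
        = 4 * (b.re ^ 2 + b.im ^ 2) + 4 * (a.re ^ 2 + a.im ^ 2) + 4 * k ^ 2 * N
          + 8 * k * (a.im * h.re - a.re * h.im) := by rw [hN]; ring
    have e4 : 8 * k * (a.im * h.re - a.re * h.im)
        = 8 * k * (b.im * h.re - b.re * h.im) - 8 * k ^ 2 * N := by
      linear_combination (-4 * k) * s21
    rw [e3, e4]
    linarith
  have hN1 : N ≤ 0 := by
    by_contra hcon
    have := mul_pos hκ' (not_le.1 hcon)
    nlinarith [sq_nonneg b.re, sq_nonneg b.im, sq_nonneg (a.re - k * h.im),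
      sq_nonneg (a.im + k * h.re)]
  have hN2 : ‖h‖ ^ 2 = 0 := by rw [hN']; linarith
  simpa using hN2

/-- Sketch: the derivatives along `1` and `I` give `a + b = 0` and `I a - I b = 0`. -/
theorem dbar_eq_zero {ι : Type*} [Fintype ι] {p q : ι → ℂ → ℂ} {z : ℂ}
    (hp : ∀ j, AnalyticAt ℂ (p j) z) (hq : ∀ j, AnalyticAt ℂ (q j) (conj z))
    (h0 : ∀ᶠ s in 𝓝 z, ∑ j, p j s * q j (conj s) = 0) :
    ∑ j, p j z * deriv (q j) (conj z) = 0 := by
  have key : ∀ u : ℂ, u * ∑ j, deriv (p j) z * q j (conj z) +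
      conj u * ∑ j, p j z * deriv (q j) (conj z) = 0 := by
    intro u
    have h1 := gboch_eta0 hp hq u (conj u)
    have h2 : (fun t : ℝ => ∑ j, p j (z + (t : ℂ) * u) * q j (conj z + (t : ℂ) * conj u))
        =ᶠ[𝓝 0] fun _ => (0 : ℂ) := by
      filter_upwards [(gboch_tend z u).eventually h0] with t ht
      have h5 : conj (z + (t : ℂ) * u) = conj z + (t : ℂ) * conj u := by simp
      rwa [h5] at ht
    exact (h1.congr_of_eventuallyEq h2.symm).unique (hasDerivAt_const _ _)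
  have h1 := key 1
  have h2 := key I
  rw [map_one] at h1
  rw [conj_I] at h2
  linear_combination (1 / 2 : ℂ) * h1 + (I / 2) * h2 +
    (-(∑ j, deriv (p j) z * q j (conj z)) / 2 + (∑ j, p j z * deriv (q j) (conj z)) / 2) * I_sq

end Pool.Agent.Lib.MP_88d29b_nt.G
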