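import Pool.Agent.Lib.MP_88d29b_nt.GDefs

/-!
Double coset operators on cocycles and on cohomology; representing functions.
-/

set_option autoImplicit false

noncomputable section

namespace Pool.Agent.Lib.MP_88d29b_nt.G

open Finset CongruenceSubgroup
open scoped MatrixGroups

variable {R V : Type*} [CommRing R] [AddCommGroup V] [Module R V]

lemma mat_right_cancel {a b d : Mat} (hd : d.det ≠ 0) (h : a * d = b * d) : a = b := by
  have h1 : a * d * d.adjugate = b * d * d.adjugate := by rw [h]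
  rw [Matrix.mul_assoc, Matrix.mul_assoc, Matrix.mul_adjugate, Matrix.mul_smul, Matrix.mul_smul,
    Matrix.mul_one, Matrix.mul_one] at h1
  exact smul_right_injective _ hd h1

lemma mem_Z1 {Γ : Subgroup SL(2, ℤ)} {ρ : Mat → V →ₗ[R] V} {c : Γ → V} : c ∈ Z1 Γ ρ ↔
    (∀ g g' : Γ, c (g * g') = ρ ((g' : SL(2, ℤ)) : Mat) (c g) + c g') ∧
      ∀ g : Γ, (g : SL(2, ℤ)) = -1 → c g = 0 := Iff.rfl

@[simp] lemma cob_apply (Γ : Subgroup SL(2, ℤ)) (ρ : Mat → V →ₗ[R] V) (v : V) (g : Γ) :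
    cob Γ ρ v g = ρ ((g : SL(2, ℤ)) : Mat) v - v := rfl

lemma mem_B1 {Γ : Subgroup SL(2, ℤ)} {ρ : Mat → V →ₗ[R] V} {c : Z1 Γ ρ} :
    c ∈ B1 Γ ρ ↔ ∃ v, cob Γ ρ v = (c : Γ → V) := Iff.rfl

lemma cob_mem {S : Submonoid Mat} {Γ : Subgroup SL(2, ℤ)} {ρ : Mat → V →ₗ[R] V} (h : IsAct S ρ)
    (hΓ : Inside Γ S) (v : V) : cob Γ ρ v ∈ Z1 Γ ρ := by
  refine ⟨fun g g' => ?_, fun g hg => ?_⟩
  · simp only [cob_apply, Subgroup.coe_mul, Matrix.SpecialLinearGroup.coe_mul, map_sub]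
    rw [h.map_mul _ (hΓ _ g.2) _ (hΓ _ g'.2)]
    simp
  · rw [cob_apply, hg]
    have : ((-1 : SL(2, ℤ)) : Mat) = -1 := rfl
    rw [this, h.map_neg _ S.one_mem, h.map_one]
    simp

lemma Z1_one {S : Submonoid Mat} {Γ : Subgroup SL(2, ℤ)} {ρ : Mat → V →ₗ[R] V} (h : IsAct S ρ)
    {c : Γ → V} (hc : c ∈ Z1 Γ ρ) : c 1 = 0 := by
  have := hc.1 1 1
  simp only [mul_one, OneMemClass.coe_one, Matrix.SpecialLinearGroup.coe_one, h.map_one,
    LinearMap.id_coe, id_eq] at this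
  exact left_eq_add.mp this

section Step

variable {ι : Type*} {Γ Γ' : Subgroup SL(2, ℤ)} {δ : ι → Mat}

lemma step_spec (h : Cov Γ Γ' δ) {g : SL(2, ℤ)} (hg : g ∈ Γ') (i : ι) :
    δ i * (g : Mat) = (((step Γ δ g i).2 : SL(2, ℤ)) : Mat) * δ (step Γ δ g i).1 := by
  obtain ⟨j, t, ht, e⟩ := h.ex g hg i
  have hex : ∃ x : ι × Γ, δ i * (g : Mat) = ((x.2 : SL(2, ℤ)) : Mat) * δ x.1 := ⟨(j, ⟨t, ht⟩), e⟩
  unfold step
  rw [dif_pos hex]
  exact hex.choose_spec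

lemma Cov.unique (h : Cov Γ Γ' δ) {j j' : ι} {t t' : Γ}
    (e : ((t : SL(2, ℤ)) : Mat) * δ j = ((t' : SL(2, ℤ)) : Mat) * δ j') : j = j' ∧ t = t' := by
  have e1 : δ j = (((t⁻¹ * t' : Γ) : SL(2, ℤ)) : Mat) * δ j' := by
    rw [Subgroup.coe_mul, Matrix.SpecialLinearGroup.coe_mul, Matrix.mul_assoc, ← e,
      ← Matrix.mul_assoc, ← Matrix.SpecialLinearGroup.coe_mul]
    simp
  have hj : j = j' := h.inj j j' _ (t⁻¹ * t').2 e1
  subst hj
  exact ⟨rfl, Subtype.ext (Subtype.ext (mat_right_cancel (h.det_ne j) e))⟩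

lemma step_eq (h : Cov Γ Γ' δ) {g : SL(2, ℤ)} (hg : g ∈ Γ') {i j : ι} {t : Γ}
    (e : δ i * (g : Mat) = ((t : SL(2, ℤ)) : Mat) * δ j) : step Γ δ g i = (j, t) := by
  obtain ⟨h1, h2⟩ := h.unique ((step_spec h hg i).symm.trans e)
  exact Prod.ext h1 h2

lemma step_mul (h : Cov Γ Γ' δ) {g g' : SL(2, ℤ)} (hg : g ∈ Γ') (hg' : g' ∈ Γ') (i : ι) :
    step Γ δ (g * g') i = ((step Γ δ g' (step Γ δ g i).1).1,
      (step Γ δ g i).2 * (step Γ δ g' (step Γ δ g i).1).2) := by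
  refine step_eq h (Γ'.mul_mem hg hg') ?_
  rw [Matrix.SpecialLinearGroup.coe_mul, ← Matrix.mul_assoc, step_spec h hg i, Matrix.mul_assoc,
    step_spec h hg' _, Subgroup.coe_mul, Matrix.SpecialLinearGroup.coe_mul, Matrix.mul_assoc]

lemma step_one (h : Cov Γ Γ' δ) (i : ι) : step Γ δ 1 i = (i, 1) :=
  step_eq h Γ'.one_mem (by simp)

lemma step_bijective (h : Cov Γ Γ' δ) {g : SL(2, ℤ)} (hg : g ∈ Γ') :
    Function.Bijective fun i => (step Γ δ g i).1 := by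
  refine Function.bijective_iff_has_inverse.mpr ⟨fun i => (step Γ δ g⁻¹ i).1, fun i => ?_,
    fun i => ?_⟩
  · have := step_mul h hg (Γ'.inv_mem hg) i
    rw [mul_inv_cancel, step_one h] at this
    exact (congrArg Prod.fst this).symm
  · have := step_mul h (Γ'.inv_mem hg) hg i
    rw [inv_mul_cancel, step_one h] at this
    exact (congrArg Prod.fst this).symm

lemma sum_step {M : Type*} [AddCommMonoid M] [Fintype ι] (h : Cov Γ Γ' δ) {g : SL(2, ℤ)}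
    (hg : g ∈ Γ') (F : ι → M) : ∑ i, F (step Γ δ g i).1 = ∑ i, F i :=
  (step_bijective h hg).sum_comp F

end Step

section DC

variable {ι : Type*} [Fintype ι] {S : Submonoid Mat} {Γ Γ' : Subgroup SL(2, ℤ)} {δ : ι → Mat}
  {ρ : Mat → V →ₗ[R] V}

lemma dcC_apply (c : Γ → V) (g : Γ') :
    dcC Γ Γ' δ ρ c g = ∑ i, ρ (δ (step Γ δ g i).1) (c (step Γ δ g i).2) := by
  simp [dcC]

omit [Fintype ι] in
lemma Adm.act_step (h : Adm S Γ Γ' δ ρ) {g : SL(2, ℤ)} (hg : g ∈ Γ') (i : ι) (v : V) :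
    ρ (g : Mat) (ρ (δ i) v) =
      ρ (δ (step Γ δ g i).1) (ρ (((step Γ δ g i).2 : SL(2, ℤ)) : Mat) v) := by
  have e := congrArg ρ (step_spec h.cov hg i)
  rw [h.act.map_mul _ (h.mem i) _ (h.inside' g hg),
    h.act.map_mul _ (h.inside _ (step Γ δ g i).2.2) _ (h.mem _)] at e
  exact LinearMap.congr_fun e v

lemma dcC_mem (h : Adm S Γ Γ' δ ρ) {c : Γ → V} (hc : c ∈ Z1 Γ ρ) :
    dcC Γ Γ' δ ρ c ∈ Z1 Γ' ρ := by
  refine ⟨fun g g' => ?_, fun g hg => ?_⟩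
  · rw [dcC_apply, dcC_apply, dcC_apply, map_sum, ← sum_step h.cov g.2
      (fun i => ρ (δ (step Γ δ g' i).1) (c (step Γ δ g' i).2)), ← Finset.sum_add_distrib]
    refine Finset.sum_congr rfl fun i _ => ?_
    rw [Subgroup.coe_mul, step_mul h.cov g.2 g'.2, hc.1, map_add, h.act_step g'.2]
  · rw [dcC_apply]
    refine Finset.sum_eq_zero fun i _ => ?_
    have : step Γ δ g i = (i, ⟨-1, h.neg_mem⟩) := by
      refine step_eq h.cov g.2 ?_
      rw [hg]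
      simp
    rw [this, hc.2 _ rfl, map_zero]

lemma dcC_cob (h : Adm S Γ Γ' δ ρ) (v : V) :
    dcC Γ Γ' δ ρ (cob Γ ρ v) = cob Γ' ρ (∑ i, ρ (δ i) v) := by
  ext g
  rw [dcC_apply, cob_apply, map_sum, ← sum_step h.cov g.2 (fun i => ρ (δ i) v),
    ← Finset.sum_sub_distrib]
  refine Finset.sum_congr rfl fun i _ => ?_
  rw [cob_apply, map_sub, h.act_step g.2]

/-- The double coset operator on cocycles. -/
def dcZ (h : Adm S Γ Γ' δ ρ) : Z1 Γ ρ →ₗ[R] Z1 Γ' ρ :=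
  (dcC Γ Γ' δ ρ).restrict fun _ hc => dcC_mem h hc

@[simp] lemma coe_dcZ (h : Adm S Γ Γ' δ ρ) (c : Z1 Γ ρ) :
    (dcZ h c : Γ' → V) = dcC Γ Γ' δ ρ c := rfl

/-- The double coset operator on cohomology. -/
def dcH (h : Adm S Γ Γ' δ ρ) : H1 Γ ρ →ₗ[R] H1 Γ' ρ :=
  (B1 Γ ρ).mapQ (B1 Γ' ρ) (dcZ h) (by
    rintro c ⟨v, hv⟩
    refine ⟨∑ i, ρ (δ i) v, ?_⟩
    rw [← dcC_cob h, hv]
    rfl)

@[simp] lemma dcH_mk (h : Adm S Γ Γ' δ ρ) (c : Z1 Γ ρ) :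
    dcH h (Submodule.Quotient.mk c) = Submodule.Quotient.mk (dcZ h c) := rfl

end DC

section Rep

variable {X : Type*}

/-- `sm` is a left action of `S` on `X` in which `-1` acts trivially. -/
structure IsSm (S : Submonoid Mat) (sm : Mat → X → X) : Prop where
  map_mul : ∀ g ∈ S, ∀ g' ∈ S, ∀ x, sm (g * g') x = sm g (sm g' x)
  map_neg_one : ∀ x, sm (-1) x = x

/-- The function `F | g : x ↦ F(g x) | g`. -/
def fsl (ρ : Mat → V →ₗ[R] V) (sm : Mat → X → X) (F : X → V) (g : Mat) : X → V :=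
  fun x => ρ g (F (sm g x))

/-- The function `F` represents the cochain `c`: `F | g - F` is the constant `c g`. -/
def Rep (Γ : Subgroup SL(2, ℤ)) (ρ : Mat → V →ₗ[R] V) (sm : Mat → X → X) (F : X → V)
    (c : Γ → V) : Prop :=
  ∀ g : Γ, ∀ x, fsl ρ sm F ((g : SL(2, ℤ)) : Mat) x - F x = c g

variable {S : Submonoid Mat} {Γ Γ' : Subgroup SL(2, ℤ)} {ρ : Mat → V →ₗ[R] V} {sm : Mat → X → X}

lemma fsl_mul (h : IsAct S ρ) (hs : IsSm S sm) (F : X → V) {g g' : Mat} (hg : g ∈ S)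
    (hg' : g' ∈ S) : fsl ρ sm F (g * g') = fsl ρ sm (fsl ρ sm F g) g' := by
  ext x
  simp only [fsl, h.map_mul g hg g' hg', hs.map_mul g hg g' hg', LinearMap.comp_apply]

lemma Rep.mem [Nonempty X] (h : IsAct S ρ) (hs : IsSm S sm) (hΓ : Inside Γ S) {F : X → V}
    {c : Γ → V} (hF : Rep Γ ρ sm F c) : c ∈ Z1 Γ ρ := by
  obtain ⟨x⟩ := ‹Nonempty X›
  refine ⟨fun g g' => ?_, fun g hg => ?_⟩
  · rw [← hF (g * g') x, ← hF g (sm ((g' : SL(2, ℤ)) : Mat) x), ← hF g' x, Subgroup.coe_mul,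
      Matrix.SpecialLinearGroup.coe_mul, fsl_mul h hs F (hΓ _ g.2) (hΓ _ g'.2), map_sub]
    simp [fsl]
  · rw [← hF g x, hg]
    have : ((-1 : SL(2, ℤ)) : Mat) = -1 := rfl
    rw [this, fsl, hs.map_neg_one, h.map_neg _ S.one_mem, h.map_one]
    simp

lemma Rep.add {F F' : X → V} {c c' : Γ → V} (hF : Rep Γ ρ sm F c) (hF' : Rep Γ ρ sm F' c') :
    Rep Γ ρ sm (F + F') (c + c') := fun g x => by
  rw [Pi.add_apply c, ← hF g x, ← hF' g x]
  simp only [fsl, Pi.add_apply, map_add]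
  abel

lemma Rep.smul {F : X → V} {c : Γ → V} (a : R) (hF : Rep Γ ρ sm F c) :
    Rep Γ ρ sm (a • F) (a • c) := fun g x => by
  rw [Pi.smul_apply a c, ← hF g x]
  simp only [fsl, Pi.smul_apply, map_smul, smul_sub]

lemma Rep.const (v : V) : Rep Γ ρ sm (fun _ => v) (cob Γ ρ v) := fun _ _ => rfl

lemma Rep.unique [Nonempty X] {F : X → V} {c c' : Γ → V} (hF : Rep Γ ρ sm F c)
    (hF' : Rep Γ ρ sm F c') : c = c' := by
  obtain ⟨x⟩ := ‹Nonempty X›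
  ext g
  rw [← hF g x, ← hF' g x]

/-- Functions that differ by a constant represent the same class. -/
lemma Rep.mk_eq [Nonempty X] {F F' : X → V} {c c' : Z1 Γ ρ} (hF : Rep Γ ρ sm F c)
    (hF' : Rep Γ ρ sm F' c') (v : V) (hv : ∀ x, F x = F' x + v) :
    (Submodule.Quotient.mk c : H1 Γ ρ) = Submodule.Quotient.mk c' := by
  rw [Submodule.Quotient.eq]
  refine ⟨v, ?_⟩
  have h1 : F = F' + fun _ => v := funext hv
  have h2 := (hF'.add (Rep.const v))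
  rw [← h1] at h2
  have h3 := hF.unique h2
  change cob Γ ρ v = (c : Γ → V) - c'
  rw [h3]
  abel

/-- The sum of the translates of `F` represents the image under the double coset operator. -/
lemma Rep.dc {ι : Type*} [Fintype ι] {δ : ι → Mat} (h : Adm S Γ Γ' δ ρ) (hs : IsSm S sm)
    {F : X → V} {c : Γ → V} (hF : Rep Γ ρ sm F c) :
    Rep Γ' ρ sm (∑ i, fsl ρ sm F (δ i)) (dcC Γ Γ' δ ρ c) := fun g x => by
  rw [dcC_apply, Finset.sum_apply, ← sum_step h.cov g.2 (fun i => fsl ρ sm F (δ i) x)]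
  have : fsl ρ sm (∑ i, fsl ρ sm F (δ i)) ((g : SL(2, ℤ)) : Mat) x =
      ∑ i, fsl ρ sm (fsl ρ sm F (δ i)) ((g : SL(2, ℤ)) : Mat) x := by
    simp only [fsl, Finset.sum_apply, map_sum]
  rw [this, ← Finset.sum_sub_distrib]
  refine Finset.sum_congr rfl fun i _ => ?_
  rw [← fsl_mul h.act hs F (h.mem i) (h.inside' _ g.2), step_spec h.cov g.2 i,
    fsl_mul h.act hs F (h.inside _ (step Γ δ g i).2.2) (h.mem _),
    ← hF (step Γ δ g i).2 (sm (δ (step Γ δ g i).1) x), map_sub]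
  rfl

end Rep

end Pool.Agent.Lib.MP_88d29b_nt.G
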