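import Pool.Agent.Lib.MP_88d29b_nt.GTl

/-!
Independence of representatives, composition of double coset operators, commutativity of the
Hecke operators on cohomology.
-/

set_option autoImplicit false

noncomputable section

namespace Pool.Agent.Lib.MP_88d29b_nt.G

open Finset CongruenceSubgroup
open scoped MatrixGroups

variable {R V : Type*} [CommRing R] [AddCommGroup V] [Module R V]

section General

variable {ι ι' : Type*} [Fintype ι] [Fintype ι'] {S : Submonoid Mat}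
  {Γ Γ' Γ'' : Subgroup SL(2, ℤ)} {ρ : Mat → V →ₗ[R] V}

/-- Changing the representatives changes the cochain by a coboundary. -/
lemma dcC_congr {δ : ι → Mat} {δ' : ι' → Mat} (h : Adm S Γ Γ' δ ρ) (h' : Adm S Γ Γ' δ' ρ)
    (e : ι' ≃ ι) (t : ι' → Γ) (ht : ∀ i, δ' i = ((t i : SL(2, ℤ)) : Mat) * δ (e i)) {c : Γ → V}
    (hc : c ∈ Z1 Γ ρ) :
    dcC Γ Γ' δ' ρ c = dcC Γ Γ' δ ρ c + cob Γ' ρ (∑ i, ρ (δ (e i)) (c (t i))) := by
  ext g
  rw [Pi.add_apply, dcC_apply, dcC_apply, cob_apply, map_sum,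
    ← e.sum_comp (fun i => ρ (δ (step Γ δ g i).1) (c (step Γ δ g i).2)),
    ← sum_step h'.cov g.2 (fun i => ρ (δ (e i)) (c (t i))), ← Finset.sum_sub_distrib,
    ← Finset.sum_add_distrib]
  refine Finset.sum_congr rfl fun i _ => ?_
  have e1 := step_spec h'.cov g.2 i
  set j := (step Γ δ' g i).1
  set s := (step Γ δ' g i).2
  have e2 : (((t i * (step Γ δ g (e i)).2 : Γ) : SL(2, ℤ)) : Mat) * δ (step Γ δ g (e i)).1 =
      (((s * t j : Γ) : SL(2, ℤ)) : Mat) * δ (e j) := by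
    rw [Subgroup.coe_mul, Matrix.SpecialLinearGroup.coe_mul, Matrix.mul_assoc,
      ← step_spec h.cov g.2, ← Matrix.mul_assoc, ← ht, e1, ht j, Subgroup.coe_mul,
      Matrix.SpecialLinearGroup.coe_mul, Matrix.mul_assoc]
  obtain ⟨e3, e4⟩ := h.cov.unique e2
  have e5 := congrArg c e4
  rw [hc.1, hc.1] at e5
  rw [h.act_step g.2, e3, ht j, h.act.map_mul _ (h.inside _ (t j).2) _ (h.mem _),
    LinearMap.comp_apply, ← map_sub, ← map_add]
  congr 1
  rw [eq_sub_of_add_eq e5.symm]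
  abel

lemma dcH_congr {δ : ι → Mat} {δ' : ι' → Mat} (h : Adm S Γ Γ' δ ρ) (h' : Adm S Γ Γ' δ' ρ)
    (e : ι' ≃ ι) (t : ι' → Γ) (ht : ∀ i, δ' i = ((t i : SL(2, ℤ)) : Mat) * δ (e i)) :
    dcH h' = dcH h := by
  refine Submodule.linearMap_qext _ (LinearMap.ext fun c => ?_)
  change Submodule.Quotient.mk (dcZ h' c) = Submodule.Quotient.mk (dcZ h c)
  rw [Submodule.Quotient.eq]
  refine ⟨∑ i, ρ (δ (e i)) (c.1 (t i)), ?_⟩
  change _ = dcC Γ Γ' δ' ρ c - dcC Γ Γ' δ ρ c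
  rw [dcC_congr h h' e t ht c.2]
  abel

/-- Two admissible families of the same size, one inside the cosets of the other, give the same
operator on cohomology. -/
lemma dcH_eq_of_mem {δ : ι → Mat} {δ' : ι' → Mat} (h : Adm S Γ Γ' δ ρ) (h' : Adm S Γ Γ' δ' ρ)
    (hc : Fintype.card ι' = Fintype.card ι)
    (hm : ∀ i, ∃ j, ∃ t ∈ Γ, δ' i = ((t : SL(2, ℤ)) : Mat) * δ j) : dcH h' = dcH h := by
  choose e t ht hδ using hm
  have hinj : Function.Injective e := fun i i' hii => by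
    refine h'.cov.inj i i' (t i * (t i')⁻¹) (Γ.mul_mem (ht i) (Γ.inv_mem (ht i'))) ?_
    rw [hδ i, hδ i', hii, ← Matrix.mul_assoc, ← Matrix.SpecialLinearGroup.coe_mul]
    simp
  exact dcH_congr h h' (Equiv.ofBijective e ((Fintype.bijective_iff_injective_and_card e).mpr
    ⟨hinj, hc⟩)) (fun i => ⟨t i, ht i⟩) hδ

omit [Fintype ι] [Fintype ι'] in
/-- The product family is admissible as soon as its cosets are distinct. -/
lemma Adm.prod {δ : ι → Mat} {δ' : ι' → Mat} (h : Adm S Γ Γ' δ ρ) (h' : Adm S Γ' Γ'' δ' ρ)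
    (hinj : ∀ x y : ι × ι', ∀ t ∈ Γ, δ x.1 * δ' x.2 = ((t : SL(2, ℤ)) : Mat) * (δ y.1 * δ' y.2) →
      x = y) : Adm S Γ Γ'' (fun x : ι × ι' => δ x.1 * δ' x.2) ρ where
  act := h.act
  inside := h.inside
  inside' := h'.inside'
  mem x := S.mul_mem (h.mem _) (h'.mem _)
  neg_mem := h.neg_mem
  cov :=
    { det_ne := fun x => by
        rw [Matrix.det_mul]
        exact mul_ne_zero (h.cov.det_ne _) (h'.cov.det_ne _)
      ex := fun g hg x => by
        obtain ⟨j, s, hs, e⟩ := h'.cov.ex g hg x.2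
        obtain ⟨i, t, ht, e'⟩ := h.cov.ex s hs x.1
        refine ⟨(i, j), t, ht, ?_⟩
        rw [Matrix.mul_assoc, e, ← Matrix.mul_assoc, e', Matrix.mul_assoc]
      inj := hinj }

lemma dcC_comp {δ : ι → Mat} {δ' : ι' → Mat} (h : Adm S Γ Γ' δ ρ) (h' : Adm S Γ' Γ'' δ' ρ)
    (h'' : Adm S Γ Γ'' (fun x : ι × ι' => δ x.1 * δ' x.2) ρ) (c : Γ → V) :
    dcC Γ' Γ'' δ' ρ (dcC Γ Γ' δ ρ c) = dcC Γ Γ'' (fun x : ι × ι' => δ x.1 * δ' x.2) ρ c := by
  ext g
  rw [dcC_apply, dcC_apply, Fintype.sum_prod_type_right]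
  refine Finset.sum_congr rfl fun j _ => ?_
  rw [dcC_apply, map_sum]
  refine Finset.sum_congr rfl fun i _ => ?_
  have : step Γ (fun x : ι × ι' => δ x.1 * δ' x.2) g (i, j) =
      (((step Γ δ (step Γ' δ' g j).2 i).1, (step Γ' δ' g j).1),
        (step Γ δ (step Γ' δ' g j).2 i).2) := by
    refine step_eq h''.cov g.2 ?_
    rw [Matrix.mul_assoc, step_spec h'.cov g.2, ← Matrix.mul_assoc,
      step_spec h.cov (step Γ' δ' g j).2.2, Matrix.mul_assoc]
  rw [this, h.act.map_mul _ (h.mem _) _ (h'.mem _)]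
  rfl

lemma dcH_comp {δ : ι → Mat} {δ' : ι' → Mat} (h : Adm S Γ Γ' δ ρ) (h' : Adm S Γ' Γ'' δ' ρ)
    (h'' : Adm S Γ Γ'' (fun x : ι × ι' => δ x.1 * δ' x.2) ρ) : dcH h' ∘ₗ dcH h = dcH h'' := by
  refine Submodule.linearMap_qext _ (LinearMap.ext fun c => ?_)
  change Submodule.Quotient.mk (dcZ h' (dcZ h c)) = Submodule.Quotient.mk (dcZ h'' c)
  congr 1
  exact Subtype.ext (dcC_comp h h' h'' c)

end General

/-- A matrix whose determinant is divisible by the prime `l` has a right factor `δ_j`. -/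
lemma tRep_factor {N l : ℕ} (hl : l.Prime) (hN : Nat.Coprime l N) (m : Mat)
    (hd : (l : ℤ) ∣ m.det) (hm : (N : ℤ) ∣ m 1 0) :
    ∃ j, ∃ t : Mat, (N : ℤ) ∣ t 1 0 ∧ m = t * tRep l j := by
  rw [Matrix.det_fin_two] at hd
  by_cases h : (l : ℤ) ∣ m 0 0 ∧ (l : ℤ) ∣ m 1 0
  · obtain ⟨⟨a, ha⟩, ⟨c, hc⟩⟩ := h
    refine ⟨none, !![a, m 0 1; c, m 1 1], ?_, ?_⟩
    · change (N : ℤ) ∣ c
      rw [hc] at hm
      exact (Nat.isCoprime_iff_coprime.mpr hN).symm.dvd_of_dvd_mul_left hm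
    · ext i j
      fin_cases i <;> fin_cases j <;>
        simp [tRep, Matrix.mul_apply, Fin.sum_univ_two, ha, hc, mul_comm]
  · have : Fact l.Prime := ⟨hl⟩
    have : NeZero l := ⟨hl.ne_zero⟩
    have hd' : ((m 0 0 : ℤ) : ZMod l) * (m 1 1 : ℤ) - (m 0 1 : ℤ) * (m 1 0 : ℤ) = 0 := by
      have := (ZMod.intCast_zmod_eq_zero_iff_dvd _ _).mpr hd
      simpa using this
    obtain ⟨x, hx1, hx2⟩ : ∃ x : ZMod l, ((m 0 1 : ℤ) : ZMod l) = (m 0 0 : ℤ) * x ∧
        ((m 1 1 : ℤ) : ZMod l) = (m 1 0 : ℤ) * x := by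
      by_cases h0 : ((m 0 0 : ℤ) : ZMod l) = 0
      · have h1 : ((m 1 0 : ℤ) : ZMod l) ≠ 0 := fun h1 =>
          h ⟨(ZMod.intCast_zmod_eq_zero_iff_dvd _ _).mp h0,
            (ZMod.intCast_zmod_eq_zero_iff_dvd _ _).mp h1⟩
        refine ⟨(m 1 1 : ℤ) / (m 1 0 : ℤ), ?_, by field_simp⟩
        rw [h0, zero_mul, zero_sub, neg_eq_zero, mul_eq_zero] at hd'
        rw [h0, zero_mul]
        exact hd'.resolve_right h1
      · refine ⟨(m 0 1 : ℤ) / (m 0 0 : ℤ), by field_simp, ?_⟩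
        field_simp
        linear_combination hd'
    have hv : ((x.val : ℤ) : ZMod l) = x := by simp
    obtain ⟨b, hb⟩ : (l : ℤ) ∣ m 0 1 - m 0 0 * x.val := by
      rw [← ZMod.intCast_zmod_eq_zero_iff_dvd]
      push_cast at hv ⊢
      rw [hv, hx1, sub_self]
    obtain ⟨d, hd2⟩ : (l : ℤ) ∣ m 1 1 - m 1 0 * x.val := by
      rw [← ZMod.intCast_zmod_eq_zero_iff_dvd]
      push_cast at hv ⊢
      rw [hv, hx2, sub_self]
    refine ⟨some ⟨x.val, x.val_lt⟩, !![m 0 0, b; m 1 0, d], hm, ?_⟩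
    ext i j
    fin_cases i <;> fin_cases j <;> simp [tRep, Matrix.mul_apply, Fin.sum_univ_two]
    · simp only [ZMod.natCast_val] at hb
      linear_combination hb
    · simp only [ZMod.natCast_val] at hd2
      linear_combination hd2

lemma tRep_lower (l : ℕ) (i : Option (Fin l)) : tRep l i 1 0 = 0 := by
  cases i <;> simp [tRep]

lemma tRep_prod_inj {l l' : ℕ} (hl : l.Prime) (hl' : l'.Prime) (hne : l ≠ l')
    (x y : Option (Fin l) × Option (Fin l')) (t : SL(2, ℤ))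
    (h : tRep l x.1 * tRep l' x.2 = (t : Mat) * (tRep l y.1 * tRep l' y.2)) : x = y := by
  have hl0 : (l' : ℤ) ≠ 0 := by exact_mod_cast hl'.ne_zero
  have hco : IsCoprime (l' : ℤ) (l : ℤ) :=
    Nat.isCoprime_iff_coprime.mpr ((Nat.coprime_primes hl' hl).mpr hne.symm)
  have h1 : (l : ℤ) • (tRep l' x.2 * (tRep l' y.2).adjugate) =
      (l' : ℤ) • ((tRep l x.1).adjugate * (t : Mat) * tRep l y.1) := by
    have := congrArg (fun m => (tRep l x.1).adjugate * m * (tRep l' y.2).adjugate) h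
    simp only [Matrix.mul_assoc] at this
    rw [← Matrix.mul_assoc (tRep l x.1).adjugate, Matrix.adjugate_mul, Matrix.mul_adjugate,
      det_tRep, det_tRep] at this
    simpa only [Matrix.mul_assoc, Matrix.mul_smul, Matrix.smul_mul, Matrix.one_mul,
      Matrix.mul_one] using this
  have h2 : ∀ a b, (l' : ℤ) ∣ (tRep l' x.2 * (tRep l' y.2).adjugate) a b := fun a b => by
    have := congrFun (congrFun h1 a) b
    simp only [Matrix.smul_apply, smul_eq_mul] at this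
    exact hco.dvd_of_dvd_mul_left ⟨_, this⟩
  choose u hu using h2
  have h3 : tRep l' x.2 * (tRep l' y.2).adjugate = (l' : ℤ) • Matrix.of u := by
    ext a b
    simpa using hu a b
  have h4 : tRep l' x.2 = Matrix.of u * tRep l' y.2 := by
    have := congrArg (fun m => m * tRep l' y.2) h3
    simp only [Matrix.mul_assoc, Matrix.adjugate_mul, det_tRep, Matrix.mul_smul, Matrix.mul_one,
      Matrix.smul_mul] at this
    exact smul_right_injective _ hl0 this
  have h5 : (Matrix.of u).det = 1 := by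
    have := congrArg Matrix.det h4
    rw [Matrix.det_mul, det_tRep, det_tRep] at this
    exact mul_right_cancel₀ hl0 (this.symm.trans (one_mul _).symm)
  have h6 : x.2 = y.2 := tRep_inj hl' _ _ ⟨Matrix.of u, h5⟩ h4
  rw [h6, ← Matrix.mul_assoc] at h
  have h7 := mat_right_cancel (by rw [det_tRep]; exact hl0) h
  exact Prod.ext (tRep_inj hl _ _ t h7) h6

/-- The Hecke operators on cohomology commute. -/
theorem Tl_comm (R : Type*) [CommRing R] (N κ l l' : ℕ) :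
    Tl R N κ l ∘ₗ Tl R N κ l' = Tl R N κ l' ∘ₗ Tl R N κ l := by
  by_cases hne : l = l'
  · rw [hne]
  by_cases h : Even κ ∧ l.Prime ∧ Nat.Coprime l N
  swap
  · rw [Tl, dif_neg h]
    simp
  by_cases h' : Even κ ∧ l'.Prime ∧ Nat.Coprime l' N
  swap
  · rw [Tl.eq_1 R N κ l', dif_neg h']
    simp
  obtain ⟨hκ, hl, hN⟩ := h
  obtain ⟨-, hl', hN'⟩ := h'
  have a := adm_tRep R hκ hl hN
  have a' := adm_tRep R hκ hl' hN'
  have b := a.prod a' fun x y t _ e => tRep_prod_inj hl hl' hne x y t e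
  have b' := a'.prod a fun x y t _ e => tRep_prod_inj hl' hl (Ne.symm hne) x y t e
  rw [Tl_eq R hκ hl hN, Tl_eq R hκ hl' hN', dcH_comp a' a b', dcH_comp a a' b]
  refine dcH_eq_of_mem b b' (by simp [mul_comm]) fun x => ?_
  obtain ⟨j, m, hm, e⟩ := tRep_factor hl' hN' (tRep l' x.1 * tRep l x.2)
    (by rw [Matrix.det_mul, det_tRep]; exact dvd_mul_right _ _)
    (by simp [Matrix.mul_apply, Fin.sum_univ_two, tRep_lower])
  have hd : m.det = l := by
    have := congrArg Matrix.det e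
    rw [Matrix.det_mul, Matrix.det_mul, det_tRep, det_tRep, det_tRep, mul_comm] at this
    exact (mul_right_cancel₀ (by exact_mod_cast hl'.ne_zero) this).symm
  obtain ⟨i, t, ht, e'⟩ := tRep_decomp hl hN m hd hm
  exact ⟨(i, j), t, ht, by rw [e, e', Matrix.mul_assoc]⟩

end Pool.Agent.Lib.MP_88d29b_nt.G
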