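import Mathlib

/-!
Cohomology framework: right actions of integer matrices, cocycles, double coset operators,
the modules of polynomials of degree at most `kappa`, Hecke operators on cohomology.
-/

set_option autoImplicit false

noncomputable section

namespace Pool.Agent.Lib.MP_88d29b_nt.G

open Finset CongruenceSubgroup
open scoped MatrixGroups

/-- Integer `2 × 2` matrices. -/
abbrev Mat : Type := Matrix (Fin 2) (Fin 2) ℤ

section Cohomology

variable {R V : Type*} [CommRing R] [AddCommGroup V] [Module R V]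

/-- `ρ` is a right action of the monoid `S` in which `-1` acts trivially. -/
structure IsAct (S : Submonoid Mat) (ρ : Mat → V →ₗ[R] V) : Prop where
  map_one : ρ 1 = LinearMap.id
  map_mul : ∀ g ∈ S, ∀ g' ∈ S, ρ (g * g') = ρ g' ∘ₗ ρ g
  map_neg : ∀ g ∈ S, ρ (-g) = ρ g

/-- The group `Γ` lies in the monoid `S`. -/
def Inside (Γ : Subgroup SL(2, ℤ)) (S : Submonoid Mat) : Prop := ∀ g ∈ Γ, (g : Mat) ∈ S

/-- Cocycles `c (g g') = c(g) | g' + c(g')` that vanish at `-1`. -/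
def Z1 (Γ : Subgroup SL(2, ℤ)) (ρ : Mat → V →ₗ[R] V) : Submodule R (Γ → V) where
  carrier := {c | (∀ g g' : Γ, c (g * g') = ρ ((g' : SL(2, ℤ)) : Mat) (c g) + c g') ∧
    ∀ g : Γ, (g : SL(2, ℤ)) = -1 → c g = 0}
  add_mem' := by
    rintro c c' ⟨h1, h2⟩ ⟨h3, h4⟩
    refine ⟨fun g g' => ?_, fun g hg => ?_⟩
    · simp only [Pi.add_apply, h1, h3, map_add]
      abel
    · simp [h2 g hg, h4 g hg]
  zero_mem' := ⟨fun g g' => by simp, fun g _ => rfl⟩
  smul_mem' := by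
    rintro a c ⟨h1, h2⟩
    refine ⟨fun g g' => ?_, fun g hg => ?_⟩
    · simp only [Pi.smul_apply, h1, map_smul, smul_add]
    · simp [h2 g hg]

/-- The coboundary of `v`: `g ↦ v | g - v`. -/
def cob (Γ : Subgroup SL(2, ℤ)) (ρ : Mat → V →ₗ[R] V) : V →ₗ[R] (Γ → V) :=
  LinearMap.pi fun g => ρ ((g : SL(2, ℤ)) : Mat) - LinearMap.id

/-- Coboundaries, as a submodule of the cocycles. -/
def B1 (Γ : Subgroup SL(2, ℤ)) (ρ : Mat → V →ₗ[R] V) : Submodule R (Z1 Γ ρ) :=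
  (LinearMap.range (cob Γ ρ)).comap (Z1 Γ ρ).subtype

/-- First cohomology. -/
abbrev H1 (Γ : Subgroup SL(2, ℤ)) (ρ : Mat → V →ₗ[R] V) : Type _ := Z1 Γ ρ ⧸ B1 Γ ρ

/-- The group `Γ'` permutes the (distinct) cosets `Γ δ_i`; the `δ_i` are invertible over `ℚ`. -/
structure Cov {ι : Type*} (Γ Γ' : Subgroup SL(2, ℤ)) (δ : ι → Mat) : Prop where
  det_ne : ∀ i, (δ i).det ≠ 0
  ex : ∀ g ∈ Γ', ∀ i, ∃ j, ∃ t ∈ Γ, δ i * (g : Mat) = (t : Mat) * δ j
  inj : ∀ i j, ∀ t ∈ Γ, δ i = ((t : SL(2, ℤ)) : Mat) * δ j → i = j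

open Classical in
/-- The pair `(j, t)` with `δ_i g = t δ_j`. -/
def step {ι : Type*} (Γ : Subgroup SL(2, ℤ)) (δ : ι → Mat) (g : SL(2, ℤ)) (i : ι) : ι × Γ :=
  if h : ∃ x : ι × Γ, δ i * (g : Mat) = ((x.2 : SL(2, ℤ)) : Mat) * δ x.1 then h.choose else (i, 1)

/-- The double coset operator on cochains: `(c | δ)(g) = ∑_i c(δ_i g δ_j⁻¹) | δ_j`. -/
def dcC {ι : Type*} [Fintype ι] (Γ Γ' : Subgroup SL(2, ℤ)) (δ : ι → Mat)
    (ρ : Mat → V →ₗ[R] V) : (Γ → V) →ₗ[R] (Γ' → V) :=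
  LinearMap.pi fun g => ∑ i, ρ (δ (step Γ δ g i).1) ∘ₗ LinearMap.proj (step Γ δ g i).2

/-- All the data for a double coset operator from level `Γ` to level `Γ'`. -/
structure Adm {ι : Type*} (S : Submonoid Mat) (Γ Γ' : Subgroup SL(2, ℤ)) (δ : ι → Mat)
    (ρ : Mat → V →ₗ[R] V) : Prop where
  act : IsAct S ρ
  inside : Inside Γ S
  inside' : Inside Γ' S
  mem : ∀ i, δ i ∈ S
  cov : Cov Γ Γ' δ
  neg_mem : (-1 : SL(2, ℤ)) ∈ Γ

end Cohomology

section Poly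

/-- The matrix of `f ↦ (c z + d) ^ κ f((a z + b) / (c z + d))` in the basis `1, z, ..., z ^ κ`. -/
def actMat (κ : ℕ) (g : Mat) : Matrix (Fin (κ + 1)) (Fin (κ + 1)) ℤ := fun m n =>
  ((Polynomial.C (g 0 0) * Polynomial.X + Polynomial.C (g 0 1)) ^ (n : ℕ) *
    (Polynomial.C (g 1 0) * Polynomial.X + Polynomial.C (g 1 1)) ^ (κ - n)).coeff m

/-- Polynomials of degree at most `κ`, as coefficient vectors. -/
abbrev Vk (R : Type*) (κ : ℕ) : Type _ := Fin (κ + 1) → R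

/-- The right action of integer matrices on polynomials of degree at most `κ`. -/
def vact (R : Type*) [CommRing R] (κ : ℕ) (g : Mat) : Vk R κ →ₗ[R] Vk R κ :=
  Matrix.toLin' ((actMat κ g).map (Int.cast : ℤ → R))

/-- Homogeneous evaluation `∑ v_j x ^ j y ^ (κ - j)`. -/
def ev2 {R : Type*} [CommRing R] {κ : ℕ} (v : Vk R κ) (x y : R) : R :=
  ∑ j : Fin (κ + 1), v j * x ^ (j : ℕ) * y ^ (κ - j)

end Poly

section Hecke

/-- The standard representatives `(1 j; 0 l)`, `0 ≤ j < l`, and `(l 0; 0 1)`. -/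
def tRep (l : ℕ) : Option (Fin l) → Mat
  | none => !![(l : ℤ), 0; 0, 1]
  | some j => !![1, (j : ℤ); 0, (l : ℤ)]

/-- The recursion `P_0 = 1`, `P_1 = x`, `P_(r+2) = x P_(r+1) - c P_r`. -/
def hp {A : Type*} [CommRing A] (c x : A) : ℕ → A
  | 0 => 1
  | 1 => x
  | r + 2 => x * hp c x (r + 1) - c * hp c x r

/-- The eigenvalue of `T_n` in weight `k` for the system `l ↦ x l` of eigenvalues of `T_l`. -/
def hn {A : Type*} [CommRing A] (k : ℕ) (x : ℕ → A) (n : ℕ) : A :=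
  n.factorization.prod fun l r => hp ((l : A) ^ (k - 1)) (x l) r

end Hecke

end Pool.Agent.Lib.MP_88d29b_nt.G
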