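import Pool.Agent.Lib.MP_88d29b_nt.GPet
import Pool.Agent.Lib.MP_88d29b_nt.GQ2
import Pool.Agent.Lib.MP_88d29b_nt.GSturm

/-!
Simultaneous diagonalisation of the Hecke operators on cusp forms.
-/

set_option autoImplicit false

noncomputable section

namespace Pool.Agent.Lib.MP_88d29b_nt.G

open Finset CongruenceSubgroup
open scoped MatrixGroups

theorem gdiag_basis {V : Type*} [AddCommGroup V] [Module ℂ V] [Module.Finite ℂ V]
    (T : ℕ → V →ₗ[ℂ] V)
    (h : ⨆ χ : ℕ → ℂ, ⨅ i, Module.End.eigenspace (T i) (χ i) = ⊤) :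
    ∃ (d : ℕ) (b : Module.Basis (Fin d) ℂ V) (lam : Fin d → ℕ → ℂ),
      ∀ l i, T l (b i) = lam i l • b i := by
  have hspan : ⊤ ≤ Submodule.span ℂ {v : V | ∃ χ : ℕ → ℂ, ∀ l, T l v = χ l • v} := by
    rw [← h]
    refine iSup_le fun χ v hv => Submodule.subset_span ⟨χ, fun l => ?_⟩
    exact Module.End.mem_eigenspace_iff.1 ((Submodule.mem_iInf _).1 hv l)
  let b0 := Module.Basis.ofSpan hspan
  have hb : ∀ i, ∃ χ : ℕ → ℂ, ∀ l, T l (b0 i) = χ l • b0 i := fun i =>
    Module.Basis.ofSpan_subset hspan ⟨i, rfl⟩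
  choose lam hlam using hb
  have := FiniteDimensional.fintypeBasisIndex b0
  refine ⟨_, b0.reindex (Fintype.equivFin _), fun i => lam ((Fintype.equivFin _).symm i),
    fun l i => ?_⟩
  rw [Module.Basis.reindex_apply]
  exact hlam _ l

/-- Sketch: build `InnerProductSpace.Core ℂ V` from `B`, then the normed structures
(`InnerProductSpace.Core.toNormedAddCommGroup`, `InnerProductSpace.ofCore`);
`LinearMap.IsSymmetric.iSup_iInf_eq_top_of_commute` and
`LinearMap.IsSymmetric.orthogonalFamily_iInf_eigenspaces` (file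
`Mathlib/Analysis/InnerProductSpace/JointEigenspace.lean`; check whether the index type has to be
finite: if so, induct on the dimension, or replace the family by finitely many `T l` spanning the
same space of operators). To get a basis: the set of joint eigenvectors spans, so it contains a
basis (`exists_linearIndependent`, `Module.Basis.mk`, reindex by `Fin d`). -/
theorem exists_eigenbasis_of_form {V : Type*} [AddCommGroup V] [Module ℂ V] [Module.Finite ℂ V]
    (B : V → V → ℂ) (hadd : ∀ x y z, B (x + y) z = B x z + B y z)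
    (hsmul : ∀ (c : ℂ) x y, B (c • x) y = (starRingEnd ℂ) c * B x y)
    (hsymm : ∀ x y, (starRingEnd ℂ) (B y x) = B x y) (hpos : ∀ x, 0 ≤ (B x x).re)
    (hdef : ∀ x, B x x = 0 → x = 0) (T : ℕ → V →ₗ[ℂ] V)
    (hT : ∀ l x y, B (T l x) y = B x (T l y)) (hcomm : ∀ l l', T l ∘ₗ T l' = T l' ∘ₗ T l) :
    ∃ (d : ℕ) (b : Module.Basis (Fin d) ℂ V) (lam : Fin d → ℕ → ℂ),
      ∀ l i, T l (b i) = lam i l • b i := by
  let c : InnerProductSpace.Core ℂ V :=
    { inner := B
      conj_inner_symm := hsymm
      re_inner_nonneg := hpos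
      add_left := hadd
      smul_left := fun x y r => hsmul r x y
      definite := hdef }
  let _ : NormedAddCommGroup V := c.toNormedAddCommGroup
  let _ : InnerProductSpace ℂ V := InnerProductSpace.ofCore c.toCore
  exact gdiag_basis T (LinearMap.IsSymmetric.iSup_iInf_eq_top_of_commute (T := T)
    (fun l x y => hT l x y) fun l l' _ => hcomm l l')

/-- Sketch: `LinearMap.charpoly_toMatrix`, the matrix is diagonal (`Matrix.charpoly_diagonal` or
`Matrix.charpoly_of_upperTriangular`), `Polynomial.roots_multiset_prod_X_sub_C`. -/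
theorem roots_charpoly_of_eigenbasis {K V : Type*} [Field K] [AddCommGroup V] [Module K V]
    [Module.Finite K V] {d : ℕ} (b : Module.Basis (Fin d) K V) (T : V →ₗ[K] V) (μ : Fin d → K)
    (h : ∀ i, T (b i) = μ i • b i) : T.charpoly.roots = Multiset.map μ Finset.univ.val := by
  have e : LinearMap.toMatrix b b T = Matrix.diagonal μ := by
    ext i j
    rw [LinearMap.toMatrix_apply, h, map_smul, b.repr_self, Matrix.diagonal_apply]
    by_cases hij : i = j
    · subst hij
      simp
    · simp [hij]
  rw [← LinearMap.charpoly_toMatrix T b, e, Matrix.charpoly_diagonal,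
    ← Polynomial.roots_multiset_prod_X_sub_C (Multiset.map μ Finset.univ.val), Multiset.map_map]
  rfl

theorem exists_eigenbasis (N : ℕ) [NeZero N] (k : ℕ) :
    ∃ (d : ℕ) (b : Module.Basis (Fin d) ℂ (CuspForm (Gamma0 N) (k : ℤ))) (lam : Fin d → ℕ → ℂ),
      ∀ l i, TS N k l (b i) = lam i l • b i :=
  haveI := finite_cusp N k
  exists_eigenbasis_of_form (pet N k) pet_add_left pet_smul_left pet_conj_symm pet_nonneg
    pet_definite (TS N k) pet_TS (TS_comm N k)

end Pool.Agent.Lib.MP_88d29b_nt.G
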