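import Pool.Agent.Lib.MP_88d29b_nt.GSl

/-!
Coset representatives; the form `Δ(N z)` and its stabiliser.
-/

set_option autoImplicit false

noncomputable section

namespace Pool.Agent.Lib.MP_88d29b_nt.G

open Finset CongruenceSubgroup UpperHalfPlane Filter Asymptotics
open scoped MatrixGroups ModularForm Manifold Topology

/-- Representatives of the right cosets `Γ r`, one of them being `1`. Sketch: `q ↦ (q.out)⁻¹` on
`SL(2,ℤ) ⧸ Γ` (replace the representative of the trivial coset by `1`),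
`Finite.equivFinOfCardEq`, `Subgroup.index_eq_card`. -/
theorem exists_cov (Γ : Subgroup SL(2, ℤ)) [Γ.FiniteIndex] :
    ∃ (r : Fin Γ.index → SL(2, ℤ)) (i₀ : Fin Γ.index), r i₀ = 1 ∧
      Cov Γ ⊤ (fun i => (r i : Mat)) := by
  classical
  let e : (SL(2, ℤ) ⧸ Γ) ≃ Fin Γ.index := Finite.equivFinOfCardEq (Subgroup.index_eq_card Γ).symm
  let s : (SL(2, ℤ) ⧸ Γ) → SL(2, ℤ) := fun q =>
    if q = ((1 : SL(2, ℤ)) : SL(2, ℤ) ⧸ Γ) then 1 else q.out
  have hs : ∀ q, ((s q : SL(2, ℤ)) : SL(2, ℤ) ⧸ Γ) = q := fun q => by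
    simp only [s]
    split_ifs with h
    · exact h.symm
    · exact QuotientGroup.out_eq' q
  refine ⟨fun i => (s (e.symm i))⁻¹, e ((1 : SL(2, ℤ)) : SL(2, ℤ) ⧸ Γ), by simp [s],
    fun i => inside_Snz ⊤ _ trivial, fun g _ i => ?_, fun i j t ht h => ?_⟩
  · set q : SL(2, ℤ) ⧸ Γ := ((g⁻¹ * s (e.symm i) : SL(2, ℤ)) : SL(2, ℤ) ⧸ Γ) with hq
    refine ⟨e q, (g⁻¹ * s (e.symm i))⁻¹ * s q, QuotientGroup.eq.mp (by rw [hs, hq]), ?_⟩
    beta_reduce
    rw [Equiv.symm_apply_apply, ← Matrix.SpecialLinearGroup.coe_mul,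
      ← Matrix.SpecialLinearGroup.coe_mul]
    congr 1
    group
  · rw [← Matrix.SpecialLinearGroup.coe_mul] at h
    have h1 : (s (e.symm i))⁻¹ = t * (s (e.symm j))⁻¹ := Subtype.ext h
    have h2 : (s (e.symm i))⁻¹ * s (e.symm j) ∈ Γ := by
      rw [h1, inv_mul_cancel_right]
      exact ht
    have h3 := QuotientGroup.eq.mpr h2
    rw [hs, hs] at h3
    exact e.symm.injective h3

/-- A multiple of `Δ(N z)`. -/
def phi (N : ℕ) : ℍ → ℂ := sl 12 ModularForm.discriminant !![(N : ℤ), 0; 0, 1]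

/-- Sketch: `CuspForm.discriminant`. -/
lemma isCF_delta : IsCF ⊤ 12 ModularForm.discriminant := by
  have h : Inv ⊤ 12 ModularForm.discriminant := fun γ _ => by
    rw [sl_SL]
    exact CuspForm.discriminant.slash_action_eq' _ ⟨γ, rfl⟩
  refine ⟨⟨CuspForm.discriminant.holo', fun γ => ?_⟩, h⟩
  rw [h γ trivial]
  exact ModularForm.discriminant_isZeroAtImInfty

/-- Sketch: `diag(N, 1) γ = γ' diag(N, 1)`, `Cuspy.sl`, `sl_mul`. -/
lemma isCF_phi (N : ℕ) [NeZero N] : IsCF (Gamma0 N) 12 (phi N) := by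
  have hN : (!![(N : ℤ), 0; 0, 1] : Mat).det ≠ 0 := by
    rw [Matrix.det_fin_two_of]
    simpa using NeZero.ne N
  refine ⟨isCF_delta.cuspy.sl hN, fun γ hγ => ?_⟩
  obtain ⟨c, hc⟩ := (ZMod.intCast_zmod_eq_zero_iff_dvd _ _).mp (Gamma0_mem.mp hγ)
  have hd := γ.det_coe
  rw [Matrix.det_fin_two] at hd
  let γ' : SL(2, ℤ) := ⟨!![γ 0 0, N * γ 0 1; c, γ 1 1], by
    rw [Matrix.det_fin_two_of]
    linear_combination hd + γ 0 1 * hc⟩
  have e : !![(N : ℤ), 0; 0, 1] * (γ : Mat) = (γ' : Mat) * !![(N : ℤ), 0; 0, 1] := by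
    ext i j
    fin_cases i <;> fin_cases j <;> simp [γ', Matrix.mul_apply, Fin.sum_univ_two]
    · ring
    · linear_combination hc
  rw [phi, ← sl_mul _ _ hN (inside_Snz ⊤ γ trivial), e, sl_mul _ _ (inside_Snz ⊤ γ' trivial) hN,
    isCF_delta.inv γ' trivial]

/-- Sketch: `ModularForm.discriminant_eq_q_prod`,
`ModularForm.tendsto_atImInfty_tprod_one_sub_eta_q_pow`. -/
lemma tendsto_delta : Tendsto (fun z : ℍ => ‖ModularForm.discriminant z‖ *
    Real.exp (2 * Real.pi * z.im)) atImInfty (𝓝 1) := by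
  have h := ModularForm.tendsto_atImInfty_tprod_one_sub_eta_q_pow.norm
  rw [norm_one] at h
  refine h.congr fun z => ?_
  have hq : ‖Function.Periodic.qParam 1 z‖ = Real.exp (-2 * Real.pi * z.im) := by
    simp [Function.Periodic.qParam, Complex.norm_exp]
  rw [ModularForm.discriminant_eq_q_prod, norm_mul, hq, mul_right_comm, ← Real.exp_add]
  simp

lemma gdim1_tendsto_upper {a d : ℤ} (b : ℤ) (ha : 0 < a) (hd : 0 < d) :
    Tendsto (fun z : ℍ => ‖sl 12 ModularForm.discriminant !![a, b; 0, d] z‖ *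
      Real.exp (2 * Real.pi * ((a : ℝ) / d * z.im))) atImInfty (𝓝 ((a : ℝ) ^ 11 / d)) := by
  have h : 0 < (!![a, b; 0, d] : Mat).det := by
    rw [Matrix.det_fin_two_of]
    simpa using mul_pos ha hd
  have ha' : (0 : ℝ) < a := by exact_mod_cast ha
  have hd' : (0 : ℝ) < d := by exact_mod_cast hd
  have him : ∀ z : ℍ, (sm !![a, b; 0, d] z).im = (a : ℝ) / d * z.im := fun z => by
    rw [im_sm h, Matrix.det_fin_two_of]
    simp
    field_simp
  have h1 : Tendsto (sm !![a, b; 0, d]) atImInfty atImInfty := by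
    rw [atImInfty, tendsto_comap_iff]
    have : UpperHalfPlane.im ∘ sm !![a, b; 0, d] = fun z : ℍ => (a : ℝ) / d * z.im := funext him
    rw [this]
    exact Tendsto.const_mul_atTop (by positivity) tendsto_comap
  have h2 := (tendsto_delta.comp h1).const_mul ((a : ℝ) ^ 11 / d)
  rw [mul_one] at h2
  refine h2.congr fun z => ?_
  rw [Function.comp_apply, him, sl_upper 12 _ b ha hd, sm_eq_ofComplex h, norm_mul, norm_div,
    norm_zpow, Complex.norm_intCast, Complex.norm_intCast, abs_of_pos ha', abs_of_pos hd',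
    ← mul_assoc]
  simp

/-- Sketch: `exists_hermite` gives `diag(N, 1) γ = δ (a b; 0 d)` with `a d = N` and
`a = gcd (N γ₀₀) γ₁₀`. By `sl_mul`, `isCF_delta.inv`, `sl_upper`:
`N ^ 11 Δ(N z) = (a ^ 11 / d) Δ((a z + b) / d)`. By `tendsto_delta` along `z = i y`, the function
`exp (2 π (a / d - N) y)` has a finite nonzero limit; as `a / d ≤ N` this forces `a / d = N`, so
`d = 1`, `a = N`, and `a ∣ γ₁₀`. -/
theorem phi_stab (N : ℕ) [NeZero N] (γ : SL(2, ℤ)) (h : sl 12 (phi N) γ = phi N) :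
    γ ∈ Gamma0 N := by
  have hN0 : (0 : ℤ) < N := by exact_mod_cast Nat.pos_of_ne_zero (NeZero.ne N)
  have hN : (!![(N : ℤ), 0; 0, 1] : Mat).det = N := by
    rw [Matrix.det_fin_two_of]
    simp
  have hN' : (!![(N : ℤ), 0; 0, 1] : Mat).det ≠ 0 := by rw [hN]; exact hN0.ne'
  have hγ : (γ : Mat).det ≠ 0 := inside_Snz ⊤ γ trivial
  obtain ⟨δ, a, b, d, ha, had, hg, e⟩ := exists_hermite _ (Snz.mul_mem hN' hγ)
  rw [Matrix.det_mul, hN, γ.det_coe, mul_one] at had
  have hd : 0 < d := by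
    by_contra hc
    push Not at hc
    nlinarith
  have hu : (!![a, b; 0, d] : Mat).det ≠ 0 := by
    rw [Matrix.det_fin_two_of, mul_zero, sub_zero, had]
    exact hN0.ne'
  rw [phi, ← sl_mul _ _ hN' hγ, e, sl_mul _ _ (inside_Snz ⊤ δ trivial) hu,
    isCF_delta.inv δ trivial] at h
  have h1 := gdim1_tendsto_upper b ha hd
  have h2 := gdim1_tendsto_upper (a := N) 0 hN0 one_pos
  have ha' : (0 : ℝ) < a := by exact_mod_cast ha
  have hd' : (0 : ℝ) < d := by exact_mod_cast hd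
  have hd1 : d = 1 := by
    by_contra hne
    have hd2 : (1 : ℝ) < d := by exact_mod_cast (lt_of_le_of_ne hd (Ne.symm hne) : (1 : ℤ) < d)
    have ha1 : (1 : ℝ) ≤ a := by exact_mod_cast ha
    have hadr : (a : ℝ) * d = ((N : ℤ) : ℝ) := by exact_mod_cast had
    have hlt : (a : ℝ) / d - ((N : ℤ) : ℝ) / ((1 : ℤ) : ℝ) < 0 := by
      rw [Int.cast_one, div_one, sub_neg, div_lt_iff₀ hd', ← hadr]
      nlinarith [mul_pos ha' hd']
    have h3 : Tendsto (fun z : ℍ => Real.exp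
        (2 * Real.pi * ((a : ℝ) / d - ((N : ℤ) : ℝ) / ((1 : ℤ) : ℝ)) * z.im)) atImInfty (𝓝 0) :=
      Real.tendsto_exp_atBot.comp (Tendsto.const_mul_atTop_of_neg
        (mul_neg_of_pos_of_neg (by positivity) hlt) tendsto_comap)
    have h4 := h2.mul h3
    rw [mul_zero, ← h] at h4
    have h5 := tendsto_nhds_unique h1 (h4.congr fun z => by
      rw [mul_assoc, ← Real.exp_add]
      congr 2
      ring)
    have : (0 : ℝ) < (a : ℝ) ^ 11 / d := by positivity
    exact this.ne' h5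
  rw [hd1, mul_one] at had
  rw [Gamma0_mem, ZMod.intCast_zmod_eq_zero_iff_dvd, ← had, hg]
  have := Int.gcd_dvd_right ((!![(N : ℤ), 0; 0, 1] * (γ : Mat)) 0 0)
    ((!![(N : ℤ), 0; 0, 1] * (γ : Mat)) 1 0)
  refine this.trans (dvd_of_eq ?_)
  simp [Matrix.mul_apply, Fin.sum_univ_two]

end Pool.Agent.Lib.MP_88d29b_nt.G
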