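import Pool.Agent.Lib.MP_88d29b_nt.GDim1
import Pool.Agent.Lib.MP_88d29b_nt.GSturm

/-!
Lower bound for the dimension of spaces of cusp forms.
-/

set_option autoImplicit false

noncomputable section

namespace Pool.Agent.Lib.MP_88d29b_nt.G

open Finset CongruenceSubgroup UpperHalfPlane Filter Asymptotics
open scoped MatrixGroups ModularForm Manifold Topology

/-- Sketch: at a point where the `φ j z` are pairwise distinct, `Matrix.det_vandermonde_ne_zero_iff`
and `Matrix.eq_zero_of_mulVec_eq_zero` give `u i z = 0`. So `(∏_{j ≠ j'} (φ j - φ j')) * u i = 0`;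
`UpperHalfPlane.mul_eq_zero_iff`, `UpperHalfPlane.prod_eq_zero_iff`. -/
lemma vandermonde_fun {n : ℕ} {φ u : Fin n → ℍ → ℂ}
    (hφ : ∀ j, MDifferentiable 𝓘(ℂ) 𝓘(ℂ) (φ j)) (hu : ∀ i, MDifferentiable 𝓘(ℂ) 𝓘(ℂ) (u i))
    (hinj : Function.Injective φ) (h : ∀ j z, ∑ i : Fin n, φ j z ^ (i : ℕ) * u i z = 0) (i : Fin n) :
    u i = 0 := by
  classical
  let P : Fin n × Fin n → ℍ → ℂ := fun x => if x.1 = x.2 then 1 else φ x.1 - φ x.2
  have hP : ∀ x ∈ (univ : Finset (Fin n × Fin n)), MDifferentiable 𝓘(ℂ) 𝓘(ℂ) (P x) := by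
    intro x _
    by_cases hx : x.1 = x.2
    · simp only [P, if_pos hx]
      exact mdifferentiable_const
    · simp only [P, if_neg hx]
      exact (hφ _).sub (hφ _)
  have hPP : MDifferentiable 𝓘(ℂ) 𝓘(ℂ) (∏ x, P x) :=
    Finset.prod_induction P (fun f => MDifferentiable 𝓘(ℂ) 𝓘(ℂ) f) (fun _ _ a b => a.mul b)
      mdifferentiable_const hP
  have h0 : (∏ x, P x) * u i = 0 := by
    funext z
    by_cases hz : Function.Injective fun j => φ j z
    · have hdet := Matrix.det_vandermonde_ne_zero_iff.mpr hz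
      have hv : (Matrix.vandermonde fun j => φ j z).mulVec (fun i => u i z) = 0 := by
        funext j
        simpa [Matrix.mulVec, dotProduct, Matrix.vandermonde_apply] using h j z
      have := congrFun (Matrix.eq_zero_of_mulVec_eq_zero hdet hv) i
      simp only [Pi.zero_apply] at this
      simp [this]
    · obtain ⟨a, b, hab, hne⟩ := Function.not_injective_iff.mp hz
      have : ∏ x, P x z = 0 := prod_eq_zero (mem_univ (a, b)) (by simp [P, hne, hab])
      simp [this]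
  rcases (UpperHalfPlane.mul_eq_zero_iff hPP (hu i)).mp h0 with h1 | h1
  · obtain ⟨x, -, hx⟩ := (UpperHalfPlane.prod_eq_zero_iff hP).mp h1
    by_cases hx' : x.1 = x.2
    · simp only [P, if_pos hx'] at hx
      exact absurd hx one_ne_zero
    · simp only [P, if_neg hx'] at hx
      exact absurd (hinj (sub_eq_zero.mp hx)) hx'
  · exact h1

/-- Sketch: induction with `ModularForm.mul_slash_SL2` (`sl_SL`), or `sl_apply`. -/
lemma sl_prod (φ Δ m : ℍ → ℂ) (i j : ℕ) (k : ℤ) (γ : SL(2, ℤ)) :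
    sl (12 * i + 12 * j + k) (φ ^ i * Δ ^ j * m) γ =
      sl 12 φ γ ^ i * sl 12 Δ γ ^ j * (m ∣[k] γ) := by
  have hγ : 0 < (γ : Mat).det := by rw [γ.det_coe]; exact one_pos
  rw [← sl_SL]
  funext z
  have hd := den_ne_zero hγ.ne' z
  simp only [Pi.mul_apply, Pi.pow_apply, sl_apply _ _ hγ, γ.det_coe, Int.cast_one, one_zpow,
    mul_one, mul_pow]
  rw [show -(12 * (i : ℤ) + 12 * j + k) = (-12) * i + (-12) * j + (-k) by ring, zpow_add₀ hd,
    zpow_add₀ hd, zpow_mul, zpow_mul, zpow_natCast, zpow_natCast]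
  ring

lemma gdim2_inv {k : ℤ} (m : ModularForm 𝒮ℒ k) (γ : SL(2, ℤ)) : (⇑m) ∣[k] γ = ⇑m :=
  m.slash_action_eq' _ ⟨γ, rfl⟩

lemma gdim2_pow {f : ℍ → ℂ} (hf : MDifferentiable 𝓘(ℂ) 𝓘(ℂ) f) (i : ℕ) :
    MDifferentiable 𝓘(ℂ) 𝓘(ℂ) (f ^ i) := by
  induction i with
  | zero =>
    rw [pow_zero]
    exact mdifferentiable_const
  | succ i ih =>
    rw [pow_succ]
    exact ih.mul hf

/-- Sketch: `sl_prod`; at each cusp `sl 12 Δ γ = Δ → 0`, `sl 12 φ γ → 0` and `m ∣[k] γ = m` is
bounded (`ModularFormClass.bdd_at_infty`). -/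
lemma isCF_prod (N : ℕ) [NeZero N] (i j : ℕ) (hj : 0 < j) {k : ℤ} (m : ModularForm 𝒮ℒ k) :
    IsCF (Gamma0 N) (12 * i + 12 * j + k) (phi N ^ i * ModularForm.discriminant ^ j * ⇑m) := by
  refine ⟨⟨((gdim2_pow (isCF_phi N).cuspy.holo i).mul (gdim2_pow isCF_delta.cuspy.holo j)).mul
    m.holo', fun γ => ?_⟩, fun γ hγ => ?_⟩
  · rw [sl_prod, gdim2_inv]
    have h1 : Tendsto (sl 12 (phi N) γ) atImInfty (𝓝 0) := (isCF_phi N).cuspy.zero γ
    have h2 : Tendsto (sl 12 ModularForm.discriminant γ) atImInfty (𝓝 0) := isCF_delta.cuspy.zero γ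
    have h3 : Tendsto (sl 12 (phi N) γ ^ i * sl 12 ModularForm.discriminant γ ^ j) atImInfty
        (𝓝 0) := by
      have := (h1.pow i).mul (h2.pow j)
      rw [zero_pow hj.ne', mul_zero] at this
      exact this
    exact Filter.ZeroAtFilter.mul_boundedAtFilter h3 (ModularFormClass.bdd_at_infty m)
  · rw [sl_prod, gdim2_inv, (isCF_phi N).inv γ hγ, isCF_delta.inv γ trivial]

/-- Sketch: let `μ` be the index, `C = 23 μ ^ 2`. If `k ≥ 12 μ` the linear map
`(Fin μ → ModularForm 𝒮ℒ (k - 12 μ)) → CuspForm (Gamma0 N) k`,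
`m ↦ ∑_i φ ^ i Δ ^ (μ - i) m_i` (`isCF_prod`, `IsCF.sum`, `IsCF.mk'`) is injective: slash a relation
by the `r j` of `exists_cov`; the functions `sl 12 (phi N) (r j)` are distinct by `phi_stab` and
`Cov.inj`; `vandermonde_fun`, `ModularForm.discriminant_ne_zero`. Then
`LinearMap.finrank_le_finrank_of_injective` (`finite_cusp`), `Module.finrank_pi_fintype`,
`ModularForm.dimension_level_one`. -/
theorem dim_lower (N : ℕ) [NeZero N] : ∃ C : ℕ, ∀ k : ℕ, Even k →
    (Gamma0 N).index * k ≤ 12 * Module.finrank ℂ (CuspForm (Gamma0 N) (k : ℤ)) + C := by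
  refine ⟨23 * (Gamma0 N).index ^ 2, fun k hk => ?_⟩
  obtain ⟨r, i₀, -, hr⟩ := exists_cov (Gamma0 N)
  generalize (Gamma0 N).index = μ at r i₀ hr ⊢
  rcases lt_or_ge k (12 * μ) with hlt | hge
  · nlinarith [Nat.zero_le (Module.finrank ℂ (CuspForm (Gamma0 N) (k : ℤ)))]
  obtain ⟨l, rfl⟩ := Nat.exists_eq_add_of_le hge
  have hl : Even l := by
    have h12 : Even (12 * μ) := ⟨6 * μ, by ring⟩
    exact (Nat.even_add.mp hk).mp h12
  have hw : ∀ i : Fin μ, (12 * ((i : ℕ) : ℤ) + 12 * ((μ - i : ℕ) : ℤ) + (l : ℤ)) =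
      ((12 * μ + l : ℕ) : ℤ) := fun i => by
    have := i.2
    omega
  have hF : ∀ m : Fin μ → ModularForm 𝒮ℒ (l : ℤ), IsCF (Gamma0 N) ((12 * μ + l : ℕ) : ℤ)
      (∑ i : Fin μ, phi N ^ (i : ℕ) * ModularForm.discriminant ^ (μ - i) * ⇑(m i)) := fun m =>
    IsCF.sum fun i _ => hw i ▸ isCF_prod N i (μ - i) (Nat.sub_pos_of_lt i.2) (m i)
  let T : (Fin μ → ModularForm 𝒮ℒ (l : ℤ)) →ₗ[ℂ] CuspForm (Gamma0 N) ((12 * μ + l : ℕ) : ℤ) :=
    { toFun := fun m => (hF m).mk'
      map_add' := fun m m' => by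
        ext z
        simp [mul_add, sum_add_distrib]
      map_smul' := fun c m => by
        ext z
        simp [mul_sum] }
  have hT : Function.Injective T := by
    rw [injective_iff_map_eq_zero]
    intro m hm
    have h0 : (∑ i : Fin μ, phi N ^ (i : ℕ) * ModularForm.discriminant ^ (μ - i) * ⇑(m i)) = 0 := by
      have := congrArg (fun f : CuspForm (Gamma0 N) ((12 * μ + l : ℕ) : ℤ) => (f : ℍ → ℂ)) hm
      simpa [T] using this
    have hne : ∀ j, (r j : Mat).det ≠ 0 := fun j => inside_Snz ⊤ (r j) trivial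
    have hinj : Function.Injective fun j => sl 12 (phi N) (r j : Mat) := by
      intro a b hab
      have h1 : sl 12 (phi N) ((r a * (r b)⁻¹ : SL(2, ℤ)) : Mat) = phi N := by
        simp only at hab
        rw [Matrix.SpecialLinearGroup.coe_mul, sl_mul _ _ (hne a) (inside_Snz ⊤ _ trivial), hab,
          ← sl_mul _ _ (hne b) (inside_Snz ⊤ _ trivial), ← Matrix.SpecialLinearGroup.coe_mul,
          mul_inv_cancel, Matrix.SpecialLinearGroup.coe_one, sl_one]
      refine hr.inj a b _ (phi_stab N _ h1) ?_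
      rw [← Matrix.SpecialLinearGroup.coe_mul, inv_mul_cancel_right]
    have hu := vandermonde_fun (φ := fun j => sl 12 (phi N) (r j : Mat))
      (u := fun i : Fin μ => ModularForm.discriminant ^ (μ - i) * ⇑(m i))
      (fun j => ((isCF_phi N).cuspy.sl (hne j)).holo)
      (fun i => (gdim2_pow isCF_delta.cuspy.holo _).mul (m i).holo') hinj (fun j z => by
        have h1 := congrArg (fun f => sl ((12 * μ + l : ℕ) : ℤ) f (r j : Mat)) h0
        simp only [sl_zero, sl_sum] at h1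
        have h2 : ∀ i : Fin μ, sl ((12 * μ + l : ℕ) : ℤ)
            (phi N ^ (i : ℕ) * ModularForm.discriminant ^ (μ - i) * ⇑(m i)) (r j : Mat) =
            sl 12 (phi N) (r j : Mat) ^ (i : ℕ) *
              (ModularForm.discriminant ^ (μ - i) * ⇑(m i)) := fun i => by
          rw [← hw i, sl_prod, gdim2_inv, isCF_delta.inv _ trivial, mul_assoc]
        rw [sum_congr rfl fun i _ => h2 i] at h1
        simpa using congrFun h1 z)
    funext i
    ext z
    have := congrFun (hu i) z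
    simp only [Pi.mul_apply, Pi.pow_apply, Pi.zero_apply, mul_eq_zero] at this
    rcases this with h | h
    · exact absurd h (pow_ne_zero _ (ModularForm.discriminant_ne_zero z))
    · simpa using h
  haveI := finite_cusp N (12 * μ + l)
  have h1 := LinearMap.finrank_le_finrank_of_injective hT
  rw [Module.finrank_pi_fintype, sum_const, card_univ, Fintype.card_fin, smul_eq_mul] at h1
  have h2 : l / 12 ≤ Module.finrank ℂ (ModularForm 𝒮ℒ (l : ℤ)) := by
    have h3 := ModularForm.dimension_level_one l hl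
    split_ifs at h3
    · exact (Module.finrank_eq_of_rank_eq (n := l / 12) (by rw [h3])).ge
    · have := Module.finrank_eq_of_rank_eq (R := ℂ) (M := ModularForm 𝒮ℒ (l : ℤ))
        (n := l / 12 + 1) (by exact_mod_cast h3)
      omega
  have h4 : l ≤ 12 * (l / 12) + 11 := by omega
  have h5 : μ * (l / 12) ≤ Module.finrank ℂ (CuspForm (Gamma0 N) ((12 * μ + l : ℕ) : ℤ)) :=
    (Nat.mul_le_mul_left μ h2).trans h1
  have h6 : μ ≤ μ ^ 2 := Nat.le_self_pow two_ne_zero μ
  nlinarith [Nat.mul_le_mul_left μ h4]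

end Pool.Agent.Lib.MP_88d29b_nt.G
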