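import Pool.Agent.Lib.MP_88d29b_nt.GSl

/-!
The Hecke operator `T_l` on cusp forms for `Γ_0(N)`.
-/

set_option autoImplicit false

noncomputable section

namespace Pool.Agent.Lib.MP_88d29b_nt.G

open Finset CongruenceSubgroup UpperHalfPlane
open scoped MatrixGroups ModularForm Manifold

/-- The classical formula
`(T_l f)(z) = l ^ (k - 1) f(l z) + (1 / l) ∑_{0 ≤ j < l} f((z + j) / l)`. -/
def heckeFun (l : ℕ) (k : ℤ) (f : ℍ → ℂ) (z : ℍ) : ℂ :=
  (l : ℂ) ^ (k - 1) * f (ofComplex (l * z)) +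
    (∑ j ∈ range l, f (ofComplex (((z : ℂ) + j) / l))) / l

lemma heckeFun_eq {l : ℕ} (hl : 0 < l) (k : ℤ) (f : ℍ → ℂ) :
    heckeFun l k f = ∑ i, sl k f (tRep l i) := by
  ext z
  have hl' : (0 : ℤ) < l := by exact_mod_cast hl
  rw [Finset.sum_apply, Fintype.sum_option, heckeFun, Finset.sum_range, Finset.sum_div]
  congr 1
  · rw [tRep, sl_upper k f 0 hl' one_pos]
    simp
  · refine Finset.sum_congr rfl fun j _ => ?_
    rw [tRep, sl_upper k f _ one_pos hl']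
    simp [div_eq_inv_mul]

lemma isCF_heckeFun {N l : ℕ} (hl : l.Prime) (hN : Nat.Coprime l N) {k : ℤ} {f : ℍ → ℂ}
    (hf : IsCF (Gamma0 N) k f) : IsCF (Gamma0 N) k (heckeFun l k f) := by
  rw [heckeFun_eq hl.pos]
  exact hf.dc (cov_tRep hl hN)

/-- The Hecke operator `T_l` on the space of cusp forms of weight `k` for `Γ_0(N)`, for a prime
`l` that does not divide `N`. -/
def hecke (N : ℕ) [NeZero N] (k : ℤ) {l : ℕ} (hl : l.Prime) (hN : Nat.Coprime l N) :
    CuspForm (Gamma0 N) k →ₗ[ℂ] CuspForm (Gamma0 N) k where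
  toFun f := (isCF_heckeFun hl hN (isCF_coe f)).mk'
  map_add' f g := by
    ext z
    change heckeFun l k (⇑(f + g)) z = heckeFun l k f z + heckeFun l k g z
    simp only [heckeFun, add_apply, Finset.sum_add_distrib]
    ring
  map_smul' c f := by
    ext z
    change heckeFun l k (⇑(c • f)) z = c * heckeFun l k f z
    simp only [heckeFun, smul_apply, smul_eq_mul, ← Finset.mul_sum]
    ring

lemma coe_hecke (N : ℕ) [NeZero N] (k : ℤ) {l : ℕ} (hl : l.Prime) (hN : Nat.Coprime l N)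
    (f : CuspForm (Gamma0 N) k) : ⇑(hecke N k hl hN f) = heckeFun l k f := rfl

open Classical in
/-- Total version of `hecke`: zero unless `l` is a prime that does not divide `N`. -/
def TS (N : ℕ) [NeZero N] (k : ℤ) (l : ℕ) : CuspForm (Gamma0 N) k →ₗ[ℂ] CuspForm (Gamma0 N) k :=
  if h : l.Prime ∧ Nat.Coprime l N then hecke N k h.1 h.2 else 0

lemma TS_eq (N : ℕ) [NeZero N] (k : ℤ) {l : ℕ} (hl : l.Prime) (hN : Nat.Coprime l N) :
    TS N k l = hecke N k hl hN := by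
  rw [TS, dif_pos ⟨hl, hN⟩]

lemma coe_TS (N : ℕ) [NeZero N] (k : ℤ) {l : ℕ} (hl : l.Prime) (hN : Nat.Coprime l N)
    (f : CuspForm (Gamma0 N) k) : ⇑(TS N k l f) = ∑ i, sl k f (tRep l i) := by
  rw [TS_eq N k hl hN, coe_hecke, heckeFun_eq hl.pos]

/-- `f(z) = ∑ a_n e(n z)`. -/
def QS (f : ℍ → ℂ) (a : ℕ → ℂ) : Prop :=
  ∀ z : ℍ, HasSum (fun n : ℕ => a n * Complex.exp (2 * Real.pi * Complex.I * n * z)) (f z)

end Pool.Agent.Lib.MP_88d29b_nt.G
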