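import Pool.Agent.Lib.MP_88d29b_nt.GPrim
import Pool.Agent.Lib.MP_88d29b_nt.GHecke

/-!
The Eichler-Shimura map.
-/

set_option autoImplicit false

noncomputable section

namespace Pool.Agent.Lib.MP_88d29b_nt.G

open Finset CongruenceSubgroup UpperHalfPlane Filter Asymptotics
open scoped MatrixGroups ModularForm Manifold Topology ComplexConjugate

/-- The matrix `diag(-1, 1)`. -/
def eps : Mat := !![-1, 0; 0, 1]

/-- `F` is the sum of an Eichler integral of `f` and the mirror image of one of `g`. -/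
def IsES (κ : ℕ) (f g : ℍ → ℂ) (F : ℍ → Vk ℂ κ) : Prop :=
  ∃ A B, IsPrim κ f A ∧ IsPrim κ g B ∧ F = A + fsl (vact ℂ κ) sm B eps

variable {κ : ℕ} {f f' g g' : ℍ → ℂ} {F F' : ℍ → Vk ℂ κ}

lemma eps_mul_eps : eps * eps = 1 := by
  ext i j
  fin_cases i <;> fin_cases j <;> simp [eps, Matrix.mul_apply, Fin.sum_univ_two]

lemma det_eps : eps.det = -1 := by
  simp [eps, Matrix.det_fin_two]

lemma ges_det_ne : eps.det ≠ 0 := by
  rw [det_eps]
  norm_num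

lemma ges_det_conj (α : Mat) : (eps * α * eps).det = α.det := by
  rw [Matrix.det_mul, Matrix.det_mul, det_eps]
  ring

lemma ges_fsl_one (F : ℍ → Vk ℂ κ) : fsl (vact ℂ κ) sm F 1 = F := by
  ext1 z
  simp only [fsl, vact_one, sm_one, LinearMap.id_coe, id_eq]

lemma ges_fsl_add (F F' : ℍ → Vk ℂ κ) (α : Mat) :
    fsl (vact ℂ κ) sm (F + F') α = fsl (vact ℂ κ) sm F α + fsl (vact ℂ κ) sm F' α := by
  ext1 z
  simp only [fsl, Pi.add_apply, map_add]

lemma ges_fsl_smul (c : ℂ) (F : ℍ → Vk ℂ κ) (α : Mat) :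
    fsl (vact ℂ κ) sm (c • F) α = c • fsl (vact ℂ κ) sm F α := by
  ext1 z
  simp only [fsl, Pi.smul_apply, map_smul]

/-- Sketch: `toGL eps = UpperHalfPlane.J`, `coe_J_smul`. -/
lemma coe_sm_eps (z : ℍ) : (sm eps z : ℂ) = -conj (z : ℂ) := by
  have h : toGL eps = UpperHalfPlane.J := by
    apply Units.ext
    rw [val_toGL ges_det_ne]
    ext i j
    fin_cases i <;> fin_cases j <;> simp [eps, UpperHalfPlane.J]
  rw [sm, h, coe_J_smul]

lemma exists_isES (κ : ℕ) (hf : MDifferentiable 𝓘(ℂ) 𝓘(ℂ) f) (hg : MDifferentiable 𝓘(ℂ) 𝓘(ℂ) g) :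
    ∃ F, IsES κ f g F := by
  obtain ⟨A, hA⟩ := exists_isPrim κ hf
  obtain ⟨B, hB⟩ := exists_isPrim κ hg
  exact ⟨_, A, B, hA, hB, rfl⟩

lemma IsES.unique (h : IsES κ f g F) (h' : IsES κ f g F') : ∃ v, ∀ z, F z = F' z + v := by
  obtain ⟨A, B, hA, hB, rfl⟩ := h
  obtain ⟨A', B', hA', hB', rfl⟩ := h'
  obtain ⟨v, hv⟩ := hA.unique hA'
  obtain ⟨w, hw⟩ := hB.unique hB'
  refine ⟨v + vact ℂ κ eps w, fun z => ?_⟩
  simp only [fsl, Pi.add_apply, hv, hw, map_add]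
  abel

lemma IsES.add (h : IsES κ f g F) (h' : IsES κ f' g' F') : IsES κ (f + f') (g + g') (F + F') := by
  obtain ⟨A, B, hA, hB, rfl⟩ := h
  obtain ⟨A', B', hA', hB', rfl⟩ := h'
  refine ⟨A + A', B + B', hA.add hA', hB.add hB', ?_⟩
  rw [ges_fsl_add]
  abel

lemma IsES.smul (c : ℂ) (h : IsES κ f g F) : IsES κ (c • f) (c • g) (c • F) := by
  obtain ⟨A, B, hA, hB, rfl⟩ := h
  refine ⟨c • A, c • B, hA.smul c, hB.smul c, ?_⟩
  rw [ges_fsl_smul, smul_add]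

lemma IsES.add_const (h : IsES κ f g F) (v : Vk ℂ κ) : IsES κ f g (F + fun _ => v) := by
  obtain ⟨A, B, hA, hB, rfl⟩ := h
  have h1 := hA.add (isPrim_const κ v)
  rw [add_zero] at h1
  refine ⟨A + fun _ => v, B, h1, hB, ?_⟩
  abel

lemma ges_zero (κ : ℕ) : IsES κ 0 0 0 := by
  refine ⟨0, 0, isPrim_const κ 0, isPrim_const κ 0, ?_⟩
  ext1 z
  simp only [fsl, Pi.add_apply, Pi.zero_apply, map_zero, add_zero]

lemma IsES.sum {ι : Type*} {s : Finset ι} {a b : ι → ℍ → ℂ} {Q : ι → ℍ → Vk ℂ κ}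
    (h : ∀ i ∈ s, IsES κ (a i) (b i) (Q i)) :
    IsES κ (∑ i ∈ s, a i) (∑ i ∈ s, b i) (∑ i ∈ s, Q i) := by
  classical
  induction s using Finset.induction_on with
  | empty =>
    simp only [sum_empty]
    exact ges_zero κ
  | insert i s hi ih =>
    rw [sum_insert hi, sum_insert hi, sum_insert hi]
    exact (h i (mem_insert_self _ _)).add (ih fun j hj => h j (mem_insert_of_mem hj))

lemma IsES.continuous (h : IsES κ f g F) : Continuous F := by
  obtain ⟨A, B, hA, hB, rfl⟩ := h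
  refine hA.continuous.add ?_
  exact (vact ℂ κ eps).continuous_of_finiteDimensional.comp
    (hB.continuous.comp (continuous_sm eps))

/-- Sketch: `fsl_mul (isAct_vact ℂ hκ Snz) isSm_sm`, `eps * α = (eps * α * eps) * eps`,
`IsPrim.fsl`. -/
lemma IsES.fsl (hκ : Even κ) (h : IsES κ f g F) {α : Mat} (hα : 0 < α.det) :
    IsES κ (sl ((κ + 2 : ℕ) : ℤ) f α) (sl ((κ + 2 : ℕ) : ℤ) g (eps * α * eps))
      (fsl (vact ℂ κ) sm F α) := by
  obtain ⟨A, B, hA, hB, rfl⟩ := h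
  have hc : 0 < (eps * α * eps).det := by rwa [ges_det_conj]
  refine ⟨_, _, hA.fsl hα, hB.fsl hc, ?_⟩
  rw [ges_fsl_add, ← fsl_mul (isAct_vact ℂ hκ Snz) isSm_sm B ges_det_ne hα.ne',
    ← fsl_mul (isAct_vact ℂ hκ Snz) isSm_sm B hc.ne' ges_det_ne, Matrix.mul_assoc (eps * α),
    eps_mul_eps, Matrix.mul_one]

lemma IsES.swap (hκ : Even κ) (h : IsES κ f g F) : IsES κ g f (G.fsl (vact ℂ κ) sm F eps) := by
  obtain ⟨A, B, hA, hB, rfl⟩ := h
  refine ⟨B, A, hB, hA, ?_⟩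
  rw [ges_fsl_add, ← fsl_mul (isAct_vact ℂ hκ Snz) isSm_sm B ges_det_ne ges_det_ne, eps_mul_eps,
    ges_fsl_one, add_comm]

/-- Conjugation by `eps`. -/
lemma exists_eps_conj (γ : SL(2, ℤ)) : ∃ γ' : SL(2, ℤ), (γ' : Mat) = eps * γ * eps ∧
    ∀ N : ℕ, γ ∈ Gamma0 N → γ' ∈ Gamma0 N := by
  refine ⟨⟨eps * γ * eps, by rw [ges_det_conj, γ.det_coe]⟩, rfl, fun N h => ?_⟩
  rw [mem_Gamma0_iff] at h
  refine mem_Gamma0_iff.2 ?_
  change (N : ℤ) ∣ (eps * (γ : Mat) * eps) 1 0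
  simpa [eps, Matrix.mul_apply, Fin.sum_univ_two, Matrix.vecMul, dotProduct] using h

/-- Sketch: `IsES.fsl`, `exists_eps_conj`, `IsES.unique`. -/
lemma IsES.exists_rep (hκ : Even κ) {N : ℕ} (h : IsES κ f g F)
    (hf : Inv (Gamma0 N) ((κ + 2 : ℕ) : ℤ) f) (hg : Inv (Gamma0 N) ((κ + 2 : ℕ) : ℤ) g) :
    ∃ c, Rep (Gamma0 N) (vact ℂ κ) sm F c := by
  have key : ∀ γ : Gamma0 N, ∃ v, ∀ z,
      G.fsl (vact ℂ κ) sm F ((γ : SL(2, ℤ)) : Mat) z - F z = v := by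
    intro γ
    obtain ⟨γ', e, hγ'⟩ := exists_eps_conj (γ : SL(2, ℤ))
    have h1 := h.fsl hκ (α := ((γ : SL(2, ℤ)) : Mat))
      (by rw [(γ : SL(2, ℤ)).det_coe]; exact one_pos)
    rw [hf _ γ.2, ← e, hg _ (hγ' N γ.2)] at h1
    obtain ⟨v, hv⟩ := h1.unique h
    exact ⟨v, fun z => by rw [hv z, add_sub_cancel_left]⟩
  choose c hc using key
  exact ⟨c, hc⟩

/-- Sketch: by `tRep_decomp`, `eps * tRep l i * eps = t i * tRep l (e i)`; `e` is injective by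
`tRep_inj` (conjugate back by `eps`), hence bijective. -/
lemma sum_sl_eps {N l : ℕ} (hl : l.Prime) (hN : l.Coprime N) {k : ℤ} (hg : Inv (Gamma0 N) k g) :
    ∑ i, sl k g (eps * tRep l i * eps) = ∑ i, sl k g (tRep l i) := by
  have key : ∀ i, ∃ j, ∃ t ∈ Gamma0 N,
      eps * tRep l i * eps = ((t : SL(2, ℤ)) : Mat) * tRep l j := by
    intro i
    refine tRep_decomp hl hN _ (by rw [ges_det_conj, det_tRep]) ?_
    cases i <;> simp [eps, tRep, Matrix.mul_apply, Fin.sum_univ_two]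
  choose e t ht he using key
  have hback : ∀ m : Mat, eps * (eps * m * eps) * eps = m := by
    intro m
    rw [← Matrix.mul_assoc, ← Matrix.mul_assoc, eps_mul_eps, Matrix.one_mul, Matrix.mul_assoc,
      eps_mul_eps, Matrix.mul_one]
  have hinj : Function.Injective e := by
    intro i j hij
    obtain ⟨γ', hγ', -⟩ := exists_eps_conj (t i * (t j)⁻¹)
    refine tRep_inj hl i j γ' ?_
    have h1 : eps * tRep l i * eps
        = ((t i * (t j)⁻¹ : SL(2, ℤ)) : Mat) * (eps * tRep l j * eps) := by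
      rw [he i, he j, hij, ← Matrix.mul_assoc, ← Matrix.SpecialLinearGroup.coe_mul,
        inv_mul_cancel_right]
    have h2 : ∀ a b : Mat, eps * (a * (eps * b * eps)) * eps = eps * a * eps * b := by
      intro a b
      simp only [Matrix.mul_assoc, eps_mul_eps, Matrix.mul_one]
    rw [hγ', ← h2, ← h1, hback]
  have hbij : Function.Bijective e := Finite.injective_iff_bijective.1 hinj
  rw [← hbij.sum_comp (fun j => sl k g (tRep l j))]
  refine Finset.sum_congr rfl fun i _ => ?_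
  rw [he i, sl_mul k g (inside_Snz ⊤ _ trivial) ((cov_tRep hl hN).det_ne _), hg _ (ht i)]

/-- Sketch: for `x = (f, g)` choose `F x` (`exists_isES`), `c x` (`IsES.exists_rep`, `Rep.mem`) and
put `E x = mk (c x)`. By `IsES.unique` and `Rep.mk_eq`, `E x = mk c` for every `F`, `c` with
`IsES κ f g F` and `Rep .. F c`. Linearity: `IsES.add`, `Rep.add`, `IsES.smul`, `Rep.smul`. If
`c x = cob v` replace `F` by `F - v` (`IsES.add_const`, `Rep.const`). Hecke: `Rep.dc` for the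
admissible datum `Adm Snz (Gamma0 N) (Gamma0 N) (tRep l) (vact ℂ κ)`, whose `dcZ` agrees with that
of `adm_tRep` (`coe_dcZ`); `IsES.sum`, `IsES.fsl`, `sum_sl_eps`, `coe_TS`, `Tl_eq`, `dcH_mk`. -/
theorem exists_ES (N : ℕ) [NeZero N] (hκ : Even κ) :
    ∃ E : (CuspForm (Gamma0 N) ((κ + 2 : ℕ) : ℤ) × CuspForm (Gamma0 N) ((κ + 2 : ℕ) : ℤ)) →ₗ[ℂ]
        HH ℂ N κ,
      (∀ x, E x = 0 → ∃ F, IsES κ x.1 x.2 F ∧ Rep (Gamma0 N) (vact ℂ κ) sm F 0) ∧
      ∀ l, l.Prime → l.Coprime N → ∀ x,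
        E (TS N _ l x.1, TS N _ l x.2) = Tl ℂ N κ l (E x) := by
  have hact := isAct_vact ℂ hκ Snz
  have hex : ∀ x : CuspForm (Gamma0 N) ((κ + 2 : ℕ) : ℤ) × CuspForm (Gamma0 N) ((κ + 2 : ℕ) : ℤ),
      ∃ (F : ℍ → Vk ℂ κ) (c : Z1 (Gamma0 N) (vact ℂ κ)),
        IsES κ x.1 x.2 F ∧ Rep (Gamma0 N) (vact ℂ κ) sm F c := by
    intro x
    obtain ⟨F, hF⟩ := exists_isES κ (isCF_coe x.1).cuspy.holo (isCF_coe x.2).cuspy.holo
    obtain ⟨c, hc⟩ := hF.exists_rep hκ (isCF_coe x.1).inv (isCF_coe x.2).inv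
    exact ⟨F, ⟨c, hc.mem hact isSm_sm (inside_Snz _)⟩, hF, hc⟩
  choose F c hF hc using hex
  have huniq : ∀ x (F' : ℍ → Vk ℂ κ) (c' : Z1 (Gamma0 N) (vact ℂ κ)), IsES κ x.1 x.2 F' →
      Rep (Gamma0 N) (vact ℂ κ) sm F' c' →
      (Submodule.Quotient.mk (c x) : HH ℂ N κ) = Submodule.Quotient.mk c' := by
    intro x F' c' h1 h2
    obtain ⟨v, hv⟩ := (hF x).unique h1
    exact Rep.mk_eq (hc x) h2 v hv
  refine ⟨
    { toFun := fun x => Submodule.Quotient.mk (c x)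
      map_add' := fun x y => ?_
      map_smul' := fun a x => ?_ }, fun x hx => ?_, fun l hl hN x => ?_⟩
  · rw [← Submodule.Quotient.mk_add]
    exact huniq (x + y) (F x + F y) (c x + c y) ((hF x).add (hF y)) ((hc x).add (hc y))
  · rw [RingHom.id_apply, ← Submodule.Quotient.mk_smul]
    exact huniq (a • x) (a • F x) (a • c x) ((hF x).smul a) ((hc x).smul a)
  · obtain ⟨v, hv⟩ := mem_B1.1 ((Submodule.Quotient.mk_eq_zero _).1 hx)
    refine ⟨F x + fun _ => -v, (hF x).add_const (-v), ?_⟩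
    have h1 := (hc x).add (Rep.const (Γ := Gamma0 N) (ρ := vact ℂ κ) (sm := sm) (-v))
    rwa [map_neg, hv, add_neg_cancel] at h1
  · have hl0 : ∀ i, 0 < (tRep l i).det := fun i => by
      rw [det_tRep]
      exact_mod_cast hl.pos
    have hadm : Adm Snz (Gamma0 N) (Gamma0 N) (tRep l) (vact ℂ κ) :=
      ⟨hact, inside_Snz _, inside_Snz _, fun i => (hl0 i).ne', cov_tRep hl hN,
        neg_one_mem_Gamma0 N⟩
    have h1 := Rep.dc hadm isSm_sm (hc x)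
    have h2 := IsES.sum (s := Finset.univ) fun i _ => (hF x).fsl hκ (hl0 i)
    rw [sum_sl_eps hl hN (isCF_coe x.2).inv, ← coe_TS N _ hl hN, ← coe_TS N _ hl hN] at h2
    change Submodule.Quotient.mk (c _) = Tl ℂ N κ l (Submodule.Quotient.mk (c x))
    rw [Tl_eq ℂ hκ hl hN, dcH_mk]
    exact huniq (TS N _ l x.1, TS N _ l x.2) _ _ h2 h1

end Pool.Agent.Lib.MP_88d29b_nt.G
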