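import Pool.Agent.Lib.MP_88d29b_nt.GEuc
import Pool.Agent.Lib.MP_88d29b_nt.GDim1

/-!
Bound for the eigenvalues of the Hecke operators on cohomology.
-/

set_option autoImplicit false

noncomputable section

namespace Pool.Agent.Lib.MP_88d29b_nt.G

open Finset CongruenceSubgroup
open scoped MatrixGroups

/-- An eigenvalue on the quotient by a finite dimensional stable subspace is an eigenvalue.
Sketch: otherwise `T - μ` is injective, so bijective on `B`
(`LinearMap.injective_iff_surjective` for the restriction); `T c - μ c = (T - μ) b` gives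
`c = b ∈ B`. -/
lemma exists_eigen_of_quot {K Z : Type*} [Field K] [AddCommGroup Z] [Module K Z]
    (B : Submodule K Z) [Module.Finite K B] (T : Z →ₗ[K] Z) (hB : ∀ b ∈ B, T b ∈ B) {c : Z}
    (hc : c ∉ B) {μ : K} (h : T c - μ • c ∈ B) : ∃ c' : Z, c' ≠ 0 ∧ T c' = μ • c' := by
  by_contra hne
  have hinj : ∀ z : Z, T z - μ • z = 0 → z = 0 := fun z hz => by
    by_contra h0
    exact hne ⟨z, h0, sub_eq_zero.mp hz⟩
  let S : Z →ₗ[K] Z := T - μ • LinearMap.id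
  have hS : ∀ z, S z = T z - μ • z := fun z => rfl
  let SB : B →ₗ[K] B := S.restrict (p := B) (q := B) fun b hb => by
    rw [hS]
    exact B.sub_mem (hB b hb) (B.smul_mem μ hb)
  have hSB : ∀ b : B, (SB b : Z) = S b := fun b => rfl
  have h1 : Function.Injective SB := by
    rw [← LinearMap.ker_eq_bot, LinearMap.ker_eq_bot']
    intro b hb
    apply Subtype.ext
    apply hinj
    rw [← hS, ← hSB, hb]
    rfl
  obtain ⟨b, hb⟩ := LinearMap.injective_iff_surjective.mp h1 ⟨_, h⟩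
  have h2 : S b = S c := by
    rw [← hSB, hb, hS]
  have h3 : c - b = 0 := by
    apply hinj
    rw [← hS, map_sub, h2, sub_self]
  exact hc (by rw [sub_eq_zero.mp h3]; exact b.2)

/-- A cocycle is controlled by its values on a fixed finite set. Sketch: take `r`, `i₀` from
`exists_cov`, `U` the set of `(step Γ r g i).2` with `fro g ≤ 3` (`finite_fro`). The induced
cocycle `C i g = vact (r (step Γ r g i).1) (c (step Γ r g i).2)` satisfies the hypothesis of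
`cocycle_bound` (`step_mul`, `Adm.act_step`), `C i₀ t = c t` for `t ∈ Γ` (`step_eq`), and
`norm_vactC_le` bounds `‖C i g‖` for `fro g ≤ 3`. -/
theorem exists_control (Γ : Subgroup SL(2, ℤ)) [Γ.FiniteIndex] (hΓ : (-1 : SL(2, ℤ)) ∈ Γ) :
    ∃ (U : Finset Γ) (A : ℕ), ∀ κ : ℕ, Even κ → ∀ c ∈ Z1 Γ (vact ℂ κ), ∀ K : ℝ,
      (∀ u ∈ U, ‖c u‖ ≤ K) → ∀ t : Γ,
        ‖c t‖ ≤ ((A : ℝ) * (fro ((t : SL(2, ℤ)) : Mat) : ℝ)) ^ (κ + 1) * K := by
  classical
  obtain ⟨r, i₀, hr, hcov⟩ := exists_cov Γ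
  have hfin : (((fun p : SL(2, ℤ) × Fin Γ.index =>
      (step Γ (fun i => (r i : Mat)) p.1 p.2).2) ''
      ({g : SL(2, ℤ) | fro g ≤ 3} ×ˢ Set.univ))).Finite :=
    ((finite_fro 3).prod Set.finite_univ).image _
  set M : ℕ := ∑ j, (fro (r j : Mat)).toNat + 1 with hM
  have hMr : ∀ j, (fro (r j : Mat) : ℝ) ≤ M := fun j => by
    have h1 : (fro (r j : Mat)).toNat ≤ ∑ j, (fro (r j : Mat)).toNat :=
      Finset.single_le_sum (f := fun j => (fro (r j : Mat)).toNat) (fun _ _ => Nat.zero_le _)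
        (Finset.mem_univ j)
    have h2 : fro (r j : Mat) ≤ (M : ℤ) := by
      have := Int.self_le_toNat (fro (r j : Mat))
      omega
    exact_mod_cast h2
  have hM1 : (1 : ℝ) ≤ M := by
    have : 1 ≤ M := by omega
    exact_mod_cast this
  refine ⟨hfin.toFinset, 4 * M, fun κ hκ c hc K hK t => ?_⟩
  have hadm : Adm ⊤ Γ ⊤ (fun i => (r i : Mat)) (vact ℂ κ) :=
    ⟨isAct_vact ℂ hκ ⊤, fun _ _ => trivial, fun _ _ => trivial, fun _ => trivial, hcov, hΓ⟩
  have hU : ∀ (i : Fin Γ.index) (g : SL(2, ℤ)), fro g ≤ 3 →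
      ‖c (step Γ (fun i => (r i : Mat)) g i).2‖ ≤ K := fun i g hg =>
    hK _ (hfin.mem_toFinset.mpr ⟨(g, i), ⟨hg, trivial⟩, rfl⟩)
  have hK0 : 0 ≤ K := (norm_nonneg _).trans (hU i₀ 1 (by simp [fro]))
  have key := cocycle_bound (κ := κ)
    (C := fun i g => vact ℂ κ (r (step Γ (fun i => (r i : Mat)) g i).1 : Mat)
      (c (step Γ (fun i => (r i : Mat)) g i).2))
    (act := fun i g => (step Γ (fun i => (r i : Mat)) g i).1) (K := (2 * M) ^ κ * K)
    (fun i g g' => by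
      rw [step_mul hcov (Subgroup.mem_top g) (Subgroup.mem_top g'), hc.1, map_add,
        hadm.act_step (Subgroup.mem_top g')])
    (fun i g hg => by
      refine (norm_vactC_le κ _ _).trans ?_
      have h0 : (0 : ℝ) ≤ fro (r (step Γ (fun i => (r i : Mat)) g i).1 : Mat) := by
        exact_mod_cast fro_nonneg _
      exact mul_le_mul (pow_le_pow_left₀ (by positivity) (by linarith [hMr (step Γ
        (fun i => (r i : Mat)) g i).1]) κ) (hU i g hg) (norm_nonneg _) (by positivity))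
    i₀ (t : SL(2, ℤ))
  have hst : step Γ (fun i => (r i : Mat)) (t : SL(2, ℤ)) i₀ = (i₀, t) :=
    step_eq hcov (Subgroup.mem_top _) (by simp [hr])
  simp only [hst, hr, Matrix.SpecialLinearGroup.coe_one, vact_one, LinearMap.id_coe, id_eq] at key
  refine key.trans ?_
  have hf : (0 : ℝ) ≤ fro ((t : SL(2, ℤ)) : Mat) := by exact_mod_cast fro_nonneg _
  set f : ℝ := (fro ((t : SL(2, ℤ)) : Mat) : ℝ)
  have e : f * (2 * f) ^ κ * ((2 * M) ^ κ * K) = f * (4 * M * f) ^ κ * K := by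
    rw [show (4 * M * f : ℝ) = (2 * f) * (2 * M) by ring, mul_pow (2 * f)]
    ring
  rw [e, pow_succ']
  push_cast
  refine mul_le_mul_of_nonneg_right (mul_le_mul_of_nonneg_right ?_ (by positivity)) hK0
  nlinarith

/-- Sketch: if `Tl ≠ 0` use `Tl_eq`; `exists_eigen_of_quot` gives a nonzero cocycle `c` with
`dcC .. c = μ • c`. Let `K` be the maximum of `‖c u‖`, `u ∈ U` (`exists_control`); `K > 0`. For
`u ∈ U`, `dcC_apply` writes `μ • c u` as a sum of `l + 1` terms `vact δ_j (c t)` with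
`δ_i u = t δ_j` (`step_spec`), so `l • t = δ_i u δ_j.adjugate` and `fro t ≤ 4 l ^ 4 fro u`. Hence
`‖μ‖ K ≤ (l + 1) (4 l ^ 2) ^ κ (4 A l ^ 4 fro u) ^ (κ + 1) K`; constants `c ≤ 2 ^ c ≤ l ^ c`. -/
theorem eigen_bound (N : ℕ) [NeZero N] : ∃ C : ℕ, ∀ (κ l : ℕ) (x : HH ℂ N κ) (μ : ℂ), x ≠ 0 →
    Tl ℂ N κ l x = μ • x → ‖μ‖ ≤ (l : ℝ) ^ (C * (κ + 2)) := by
  classical
  obtain ⟨U, A, hU⟩ := exists_control (Gamma0 N) (neg_one_mem_Gamma0 N)
  set F : ℕ := ∑ u ∈ U, (fro ((u : SL(2, ℤ)) : Mat)).toNat with hF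
  have hFu : ∀ u ∈ U, fro ((u : SL(2, ℤ)) : Mat) ≤ F := fun u hu => by
    have h1 : (fro ((u : SL(2, ℤ)) : Mat)).toNat ≤ F :=
      Finset.single_le_sum (f := fun u : Gamma0 N => (fro ((u : SL(2, ℤ)) : Mat)).toNat)
        (fun _ _ => Nat.zero_le _) hu
    have := Int.self_le_toNat (fro ((u : SL(2, ℤ)) : Mat))
    omega
  refine ⟨U.card + 4 * A * F + 8, fun κ l x μ hx hT => ?_⟩
  by_cases hh : Even κ ∧ l.Prime ∧ Nat.Coprime l N
  swap
  · rw [Tl, dif_neg hh] at hT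
    have : μ = 0 := (smul_eq_zero.mp hT.symm).resolve_right hx
    rw [this, norm_zero]
    positivity
  obtain ⟨hκ, hl, hN⟩ := hh
  have hadm := adm_tRep ℂ hκ hl hN
  rw [Tl_eq ℂ hκ hl hN] at hT
  obtain ⟨c₀, rfl⟩ := Submodule.Quotient.mk_surjective _ x
  rw [dcH_mk, ← Submodule.Quotient.mk_smul, Submodule.Quotient.eq] at hT
  have hc₀ : c₀ ∉ B1 (Gamma0 N) (vact ℂ κ) := fun h => hx ((Submodule.Quotient.mk_eq_zero _).mpr h)
  have hfin : Module.Finite ℂ (B1 (Gamma0 N) (vact ℂ κ)) := by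
    have hle : LinearMap.range (cob (Gamma0 N) (vact ℂ κ)) ≤ Z1 (Gamma0 N) (vact ℂ κ) := by
      rintro _ ⟨v, rfl⟩
      exact cob_mem hadm.act hadm.inside v
    exact Module.Finite.equiv (Submodule.comapSubtypeEquivOfLe hle).symm
  obtain ⟨c, hc0, hc⟩ := exists_eigen_of_quot (B1 (Gamma0 N) (vact ℂ κ))
    (dcZ (adm_tRep ℂ hκ hl hN)) (by
      rintro b ⟨v, hv⟩
      refine ⟨∑ i, vact ℂ κ (tRep l i) v, ?_⟩
      rw [← dcC_cob hadm, hv]
      rfl) hc₀ hT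
  set K : ℝ := ∑ u ∈ U, ‖(c : Gamma0 N → Vk ℂ κ) u‖ with hK
  have hKu : ∀ u ∈ U, ‖(c : Gamma0 N → Vk ℂ κ) u‖ ≤ K := fun u hu =>
    Finset.single_le_sum (f := fun u => ‖(c : Gamma0 N → Vk ℂ κ) u‖) (fun _ _ => norm_nonneg _) hu
  have hctl := hU κ hκ c c.2 K hKu
  have hK0 : 0 ≤ K := Finset.sum_nonneg fun _ _ => norm_nonneg _
  have hKpos : 0 < K := by
    refine hK0.lt_of_ne fun h => hc0 ?_
    apply Subtype.ext
    funext t
    have := hctl t
    rw [← h, mul_zero] at this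
    exact norm_le_zero_iff.mp this
  have hl2 : (2 : ℝ) ≤ l := by exact_mod_cast hl.two_le
  have hl0 : 0 < l := hl.pos
  set B : ℝ := ((l : ℝ) + 1) * ((4 * (l : ℝ) ^ 2) ^ κ * (4 * A * F * (l : ℝ) ^ 4) ^ (κ + 1))
    with hB
  have hone : ∀ u ∈ U, ‖μ‖ * ‖(c : Gamma0 N → Vk ℂ κ) u‖ ≤ B * K := fun u hu => by
    have e : μ • (c : Gamma0 N → Vk ℂ κ) u =
        dcC (Gamma0 N) (Gamma0 N) (tRep l) (vact ℂ κ) (c : Gamma0 N → Vk ℂ κ) u := by
      rw [← coe_dcZ (adm_tRep ℂ hκ hl hN), hc]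
      rfl
    rw [← norm_smul, e, dcC_apply]
    refine (norm_sum_le _ _).trans ?_
    have hterm : ∀ i : Option (Fin l),
        ‖vact ℂ κ (tRep l (step (Gamma0 N) (tRep l) u i).1)
          ((c : Gamma0 N → Vk ℂ κ) (step (Gamma0 N) (tRep l) u i).2)‖ ≤
        (4 * (l : ℝ) ^ 2) ^ κ * (4 * A * F * (l : ℝ) ^ 4) ^ (κ + 1) * K := fun i => by
      have hs := step_spec hadm.cov u.2 i
      set j := (step (Gamma0 N) (tRep l) u i).1
      set t := (step (Gamma0 N) (tRep l) u i).2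
      have e1 : (l : ℤ) • ((t : SL(2, ℤ)) : Mat) =
          tRep l i * ((u : SL(2, ℤ)) : Mat) * (tRep l j).adjugate := by
        rw [hs, Matrix.mul_assoc, Matrix.mul_adjugate, det_tRep, Matrix.mul_smul, Matrix.mul_one]
      have h1 : fro ((t : SL(2, ℤ)) : Mat) ≤ 4 * F * (l : ℤ) ^ 4 := by
        have a1 := fro_smul (l : ℤ) ((t : SL(2, ℤ)) : Mat)
        have a2 := fro_mul_le (tRep l i * ((u : SL(2, ℤ)) : Mat)) (tRep l j).adjugate
        have a3 := fro_mul_le (tRep l i) ((u : SL(2, ℤ)) : Mat)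
        rw [fro_adjugate, ← e1, a1] at a2
        have a4 := fro_tRep_le hl0 i
        have a5 := fro_tRep_le hl0 j
        have a6 := hFu u hu
        have a7 := fro_nonneg ((t : SL(2, ℤ)) : Mat)
        have a8 := fro_nonneg ((u : SL(2, ℤ)) : Mat)
        have a9 := fro_nonneg (tRep l j)
        have a10 : (1 : ℤ) ≤ (l : ℤ) ^ 2 := one_le_pow₀ (by exact_mod_cast hl0)
        have b1 : fro (tRep l i * ((u : SL(2, ℤ)) : Mat)) ≤ 2 * (l : ℤ) ^ 2 * F :=
          a3.trans (mul_le_mul a4 a6 a8 (by positivity))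
        have b2 := mul_le_mul b1 a5 a9 (by positivity)
        calc fro ((t : SL(2, ℤ)) : Mat) ≤ (l : ℤ) ^ 2 * fro ((t : SL(2, ℤ)) : Mat) :=
              le_mul_of_one_le_left a7 a10
          _ ≤ 2 * (l : ℤ) ^ 2 * F * (2 * (l : ℤ) ^ 2) := a2.trans b2
          _ = 4 * F * (l : ℤ) ^ 4 := by ring
      have h1' : (fro ((t : SL(2, ℤ)) : Mat) : ℝ) ≤ 4 * F * (l : ℝ) ^ 4 := by exact_mod_cast h1
      have h2 : (fro (tRep l j) : ℝ) ≤ 2 * (l : ℝ) ^ 2 := by exact_mod_cast fro_tRep_le hl0 j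
      have h3 : (0 : ℝ) ≤ fro (tRep l j) := by exact_mod_cast fro_nonneg _
      have h4 : (0 : ℝ) ≤ fro ((t : SL(2, ℤ)) : Mat) := by exact_mod_cast fro_nonneg _
      refine (norm_vactC_le κ _ _).trans ?_
      rw [mul_assoc]
      refine mul_le_mul (pow_le_pow_left₀ (by positivity) (by linarith) κ) ((hctl t).trans ?_)
        (norm_nonneg _) (by positivity)
      refine mul_le_mul_of_nonneg_right (pow_le_pow_left₀ (by positivity) ?_ _) hK0
      calc (A : ℝ) * (fro ((t : SL(2, ℤ)) : Mat) : ℝ) ≤ A * (4 * F * (l : ℝ) ^ 4) :=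
            mul_le_mul_of_nonneg_left h1' (by positivity)
        _ = 4 * A * F * (l : ℝ) ^ 4 := by ring
    refine (Finset.sum_le_sum fun i _ => hterm i).trans (le_of_eq ?_)
    rw [Finset.sum_const, Finset.card_univ, Fintype.card_option, Fintype.card_fin, nsmul_eq_mul, hB]
    push_cast
    ring
  have hsum : ‖μ‖ * K ≤ (U.card * B) * K := by
    calc ‖μ‖ * K = ∑ u ∈ U, ‖μ‖ * ‖(c : Gamma0 N → Vk ℂ κ) u‖ := by rw [hK, Finset.mul_sum]
      _ ≤ ∑ _u ∈ U, B * K := Finset.sum_le_sum hone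
      _ = (U.card * B) * K := by rw [Finset.sum_const, nsmul_eq_mul, ← mul_assoc]
  refine (le_of_mul_le_mul_right hsum hKpos).trans ?_
  have hpow : ∀ n : ℕ, (n : ℝ) ≤ (l : ℝ) ^ n := fun n => by
    have h1 : (n : ℝ) ≤ (2 : ℝ) ^ n := by exact_mod_cast (Nat.lt_two_pow_self (n := n)).le
    exact h1.trans (pow_le_pow_left₀ (by norm_num) hl2 n)
  have g1 : (l : ℝ) + 1 ≤ (l : ℝ) ^ 2 := by nlinarith
  have g2 : 4 * (l : ℝ) ^ 2 ≤ (l : ℝ) ^ 4 := by
    have : (4 : ℝ) ≤ (l : ℝ) ^ 2 := by nlinarith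
    calc 4 * (l : ℝ) ^ 2 ≤ (l : ℝ) ^ 2 * (l : ℝ) ^ 2 :=
          mul_le_mul_of_nonneg_right this (by positivity)
      _ = (l : ℝ) ^ 4 := by ring
  have g3 : 4 * A * F * (l : ℝ) ^ 4 ≤ (l : ℝ) ^ (4 * A * F + 4) := by
    rw [pow_add]
    refine mul_le_mul_of_nonneg_right ?_ (by positivity)
    have := hpow (4 * A * F)
    push_cast at this
    exact this
  calc (U.card : ℝ) * B ≤ (l : ℝ) ^ U.card * ((l : ℝ) ^ 2 * (((l : ℝ) ^ 4) ^ κ *
        ((l : ℝ) ^ (4 * A * F + 4)) ^ (κ + 1))) := by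
        rw [hB]
        gcongr
        exact hpow _
    _ = (l : ℝ) ^ (U.card + (2 + (4 * κ + (4 * A * F + 4) * (κ + 1)))) := by
        rw [← pow_mul, ← pow_mul, ← pow_add, ← pow_add, ← pow_add]
    _ ≤ _ := by
        refine pow_le_pow_right₀ (by linarith) ?_
        nlinarith [Nat.zero_le (U.card * κ), Nat.zero_le (A * F)]

end Pool.Agent.Lib.MP_88d29b_nt.G
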