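import Pool.Agent.Lib.MP_88d29b_nt.GComm

/-!
Growth of cocycles.
-/

set_option autoImplicit false

noncomputable section

namespace Pool.Agent.Lib.MP_88d29b_nt.G

open Finset CongruenceSubgroup
open scoped MatrixGroups

/-- The square of the Frobenius norm. -/
def fro (g : Mat) : ℤ := g 0 0 ^ 2 + g 0 1 ^ 2 + g 1 0 ^ 2 + g 1 1 ^ 2

lemma fro_nonneg (g : Mat) : 0 ≤ fro g := by
  unfold fro
  positivity

/-- Cauchy-Schwarz. -/
lemma fro_mul_le (g h : Mat) : fro (g * h) ≤ fro g * fro h := by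
  simp only [fro, Matrix.mul_apply, Fin.sum_univ_two]
  nlinarith [sq_nonneg (g 0 0 * h 1 0 - g 0 1 * h 0 0), sq_nonneg (g 0 0 * h 1 1 - g 0 1 * h 0 1),
    sq_nonneg (g 1 0 * h 1 0 - g 1 1 * h 0 0), sq_nonneg (g 1 0 * h 1 1 - g 1 1 * h 0 1)]

lemma fro_adjugate (g : Mat) : fro g.adjugate = fro g := by
  rw [Matrix.adjugate_fin_two]
  simp [fro]
  ring

lemma fro_smul (a : ℤ) (g : Mat) : fro (a • g) = a ^ 2 * fro g := by
  simp only [fro, Matrix.smul_apply, smul_eq_mul]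
  ring

lemma two_le_fro (g : SL(2, ℤ)) : 2 ≤ fro g := by
  have h := g.det_coe
  rw [Matrix.det_fin_two] at h
  unfold fro
  nlinarith [sq_nonneg ((g : Mat) 0 0 - (g : Mat) 1 1), sq_nonneg ((g : Mat) 0 1 + (g : Mat) 1 0)]

lemma fro_tRep_le {l : ℕ} (hl : 0 < l) (i : Option (Fin l)) : fro (tRep l i) ≤ 2 * l ^ 2 := by
  have h1 : (1 : ℤ) ≤ l := by exact_mod_cast hl
  rcases i with _ | j
  · simp [fro, tRep]
    nlinarith
  · have h2 : ((j : ℕ) : ℤ) + 1 ≤ l := by exact_mod_cast j.2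
    have h3 : (0 : ℤ) ≤ ((j : ℕ) : ℤ) := Nat.cast_nonneg _
    simp [fro, tRep]
    nlinarith

lemma geuc_abs_le (a : ℤ) : |a| ≤ a ^ 2 := by
  rw [← sq_abs]
  rcases (abs_nonneg a).eq_or_lt with h | h
  · rw [← h]; simp
  · nlinarith

lemma finite_fro (A : ℤ) : {g : SL(2, ℤ) | fro g ≤ A}.Finite := by
  have hfin : (Set.pi Set.univ fun _ : Fin 2 => Set.pi Set.univ fun _ : Fin 2 =>
      Set.Icc (-A) A).Finite :=
    Set.Finite.pi fun _ => Set.Finite.pi fun _ => Set.finite_Icc _ _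
  refine Set.Finite.subset (hfin.preimage (f := fun g : SL(2, ℤ) => (g : Mat))
    (Subtype.val_injective.injOn)) ?_
  intro g hg i _ j _
  have hg' : fro g ≤ A := hg
  have h1 : (g : Mat) i j ^ 2 ≤ fro g := by
    unfold fro
    fin_cases i <;> fin_cases j <;> simp <;>
      nlinarith [sq_nonneg ((g : Mat) 0 0), sq_nonneg ((g : Mat) 0 1), sq_nonneg ((g : Mat) 1 0),
        sq_nonneg ((g : Mat) 1 1)]
  have h2 := geuc_abs_le ((g : Mat) i j)
  exact abs_le.1 (h2.trans (h1.trans hg'))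

lemma geuc_coeff_lin {p : Polynomial ℤ} {B F a b : ℤ} (hp : ∀ m, |p.coeff m| ≤ B)
    (hF : |a| + |b| ≤ F) (m : ℕ) :
    |(p * (Polynomial.C a * Polynomial.X + Polynomial.C b)).coeff m| ≤ B * F := by
  have hB : 0 ≤ B := (abs_nonneg _).trans (hp 0)
  have ha := abs_nonneg a
  have hb := abs_nonneg b
  rw [mul_add, ← mul_assoc, Polynomial.coeff_add, Polynomial.coeff_mul_C]
  refine le_trans ?_ (mul_le_mul_of_nonneg_left hF hB)
  rcases m with _ | m
  · rw [Polynomial.mul_coeff_zero, Polynomial.coeff_X_zero, mul_zero, zero_add, abs_mul]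
    nlinarith [hp 0]
  · rw [Polynomial.coeff_mul_X, Polynomial.coeff_mul_C]
    refine (abs_add_le _ _).trans ?_
    rw [abs_mul, abs_mul]
    nlinarith [hp m, hp (m + 1)]

lemma geuc_coeff_pow {p : Polynomial ℤ} {B F a b : ℤ} (hp : ∀ m, |p.coeff m| ≤ B)
    (hF : |a| + |b| ≤ F) (n m : ℕ) :
    |(p * (Polynomial.C a * Polynomial.X + Polynomial.C b) ^ n).coeff m| ≤ B * F ^ n := by
  induction n generalizing m with
  | zero => simpa using hp m
  | succ n ih =>
    rw [pow_succ, ← mul_assoc, pow_succ, ← mul_assoc]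
    exact geuc_coeff_lin ih hF m

lemma geuc_actMat_le (κ : ℕ) (g : Mat) (m n : Fin (κ + 1)) : |actMat κ g m n| ≤ fro g ^ κ := by
  have h1 : |g 0 0| + |g 0 1| ≤ fro g := by
    unfold fro
    nlinarith [geuc_abs_le (g 0 0), geuc_abs_le (g 0 1), sq_nonneg (g 1 0), sq_nonneg (g 1 1)]
  have h2 : |g 1 0| + |g 1 1| ≤ fro g := by
    unfold fro
    nlinarith [geuc_abs_le (g 1 0), geuc_abs_le (g 1 1), sq_nonneg (g 0 0), sq_nonneg (g 0 1)]
  have h0 : ∀ m, |(1 : Polynomial ℤ).coeff m| ≤ 1 := by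
    intro m
    rw [Polynomial.coeff_one]
    split_ifs <;> simp
  have h3 := geuc_coeff_pow (geuc_coeff_pow h0 h1 n) h2 (κ - n) m
  have hn : (n : ℕ) + (κ - n) = κ := by have := n.2; omega
  rw [one_mul, one_mul, ← pow_add, hn] at h3
  exact h3

/-- Sketch: the coefficients of `(a X + b) ^ n (c X + d) ^ m` are bounded by
`(|a| + |b|) ^ n (|c| + |d|) ^ m` (induction, even for the sum of their absolute values), and
`|a| + |b| ≤ a² + b² ≤ fro g` for integers; `κ + 1 ≤ 2 ^ κ`; `vact_apply`,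
`pi_norm_le_iff_of_nonneg`. -/
theorem norm_vactC_le (κ : ℕ) (g : Mat) (v : Vk ℂ κ) :
    ‖vact ℂ κ g v‖ ≤ (2 * (fro g : ℝ)) ^ κ * ‖v‖ := by
  have hf : (0 : ℝ) ≤ fro g := by exact_mod_cast fro_nonneg g
  refine (pi_norm_le_iff_of_nonneg (by positivity)).2 fun m => ?_
  rw [vact_apply]
  have h1 : ∀ n : Fin (κ + 1), ‖(actMat κ g m n : ℂ) * v n‖ ≤ (fro g : ℝ) ^ κ * ‖v‖ := by
    intro n
    rw [norm_mul]
    refine mul_le_mul ?_ (norm_le_pi_norm v n) (norm_nonneg _) (by positivity)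
    rw [Complex.norm_intCast]
    exact_mod_cast geuc_actMat_le κ g m n
  refine (norm_sum_le _ _).trans ((Finset.sum_le_sum fun n _ => h1 n).trans ?_)
  rw [Finset.sum_const, Finset.card_univ, Fintype.card_fin, nsmul_eq_mul, mul_pow, mul_assoc]
  refine mul_le_mul_of_nonneg_right ?_ (by positivity)
  have h2 : κ + 1 ≤ 2 ^ κ := Nat.lt_two_pow_self
  exact_mod_cast h2

/-- Gauss reduction. Sketch: let `r₁, r₂` be the rows, `|r₁|² |r₂|² = ⟨r₁, r₂⟩² + 1`. If
`2 |⟨r₁, r₂⟩| ≤ min |r_i|²` then `|r₁|² |r₂|² ≤ 4 / 3`, so `fro g = 2`. Otherwise subtract `± ` the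
shorter row from the other one: `w = (1 ±1; 0 1)` or `(1 0; ±1 1)`. -/
theorem gauss_step (g : SL(2, ℤ)) (h : 2 < fro g) :
    ∃ w g' : SL(2, ℤ), g = w * g' ∧ fro w ≤ 3 ∧ fro g' < fro g := by
  have hd := g.det_coe
  rw [Matrix.det_fin_two] at hd
  unfold fro at h
  set a := (g : Mat) 0 0 with ha
  set b := (g : Mat) 0 1 with hb
  set c := (g : Mat) 1 0 with hc
  set d := (g : Mat) 1 1 with hd'
  have key : ∃ e : ℤ, e ^ 2 = 1 ∧
      (c ^ 2 + d ^ 2 < 2 * (e * (a * c + b * d)) ∨ a ^ 2 + b ^ 2 < 2 * (e * (a * c + b * d))) := by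
    by_contra hn
    push Not at hn
    obtain ⟨k1, k2⟩ := hn 1 (by norm_num)
    obtain ⟨k3, k4⟩ := hn (-1) (by norm_num)
    have hs : (a ^ 2 + b ^ 2) * (c ^ 2 + d ^ 2) = (a * c + b * d) ^ 2 + 1 := by
      have : (a ^ 2 + b ^ 2) * (c ^ 2 + d ^ 2) = (a * c + b * d) ^ 2 + (a * d - b * c) ^ 2 := by
        ring
      rw [this, hd]
      ring
    generalize a * c + b * d = s at *
    generalize hN1 : a ^ 2 + b ^ 2 = N1 at *
    generalize hN2 : c ^ 2 + d ^ 2 = N2 at *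
    have h' : 2 < N1 + N2 := by linarith
    have q1 : 2 * |s| ≤ N1 := by
      rcases abs_cases s with ⟨q, -⟩ | ⟨q, -⟩ <;> rw [q] <;> linarith
    have q2 : 2 * |s| ≤ N2 := by
      rcases abs_cases s with ⟨q, -⟩ | ⟨q, -⟩ <;> rw [q] <;> linarith
    have q3 : 2 * |s| * (2 * |s|) ≤ N1 * N2 :=
      mul_le_mul q1 q2 (by positivity) (le_trans (by positivity) q1)
    have q4 : |s| * |s| = s ^ 2 := by rw [abs_mul_abs_self]; ring
    have q5 : s ^ 2 = 0 := by
      have : 3 * s ^ 2 ≤ 1 := by nlinarith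
      have := sq_nonneg s
      omega
    have q6 : N1 * N2 = 1 := by rw [hs, q5]; ring
    have q7 : 0 ≤ N1 := le_trans (by positivity) q1
    have q8 : N1 = 1 := Int.eq_one_of_mul_eq_one_right q7 q6
    rw [q8] at q6
    omega
  obtain ⟨e, he, k | k⟩ := key
  · refine ⟨⟨!![1, e; 0, 1], by simp [Matrix.det_fin_two]⟩,
      ⟨!![a - e * c, b - e * d; c, d], by simp [Matrix.det_fin_two]; linarith⟩, ?_, ?_, ?_⟩
    · refine Subtype.ext ?_
      change (g : Mat) = !![1, e; 0, 1] * !![a - e * c, b - e * d; c, d]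
      ext i j
      fin_cases i <;> fin_cases j <;>
        simp [Matrix.mul_apply, Fin.sum_univ_two, ← ha, ← hb, ← hc, ← hd']
    · simp [fro]
      linarith
    · simp only [fro, ← ha, ← hb, ← hc, ← hd']
      simp
      have : (a - e * c) ^ 2 + (b - e * d) ^ 2 =
          a ^ 2 + b ^ 2 - 2 * (e * (a * c + b * d)) + e ^ 2 * (c ^ 2 + d ^ 2) := by ring
      rw [he] at this
      linarith
  · refine ⟨⟨!![1, 0; e, 1], by simp [Matrix.det_fin_two]⟩,
      ⟨!![a, b; c - e * a, d - e * b], by simp [Matrix.det_fin_two]; linarith⟩, ?_, ?_, ?_⟩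
    · refine Subtype.ext ?_
      change (g : Mat) = !![1, 0; e, 1] * !![a, b; c - e * a, d - e * b]
      ext i j
      fin_cases i <;> fin_cases j <;>
        simp [Matrix.mul_apply, Fin.sum_univ_two, ← ha, ← hb, ← hc, ← hd']
    · simp [fro]
      linarith
    · simp only [fro, ← ha, ← hb, ← hc, ← hd']
      simp
      have : (c - e * a) ^ 2 + (d - e * b) ^ 2 =
          c ^ 2 + d ^ 2 - 2 * (e * (a * c + b * d)) + e ^ 2 * (a ^ 2 + b ^ 2) := by ring
      rw [he] at this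
      linarith

/-- Sketch: strong induction on `(fro g).toNat` with `gauss_step` and `norm_vactC_le`. -/
theorem cocycle_bound {X : Type*} {κ : ℕ} {C : X → SL(2, ℤ) → Vk ℂ κ} {act : X → SL(2, ℤ) → X}
    (hC : ∀ x g g', C x (g * g') = vact ℂ κ g' (C x g) + C (act x g) g') {K : ℝ}
    (hK : ∀ x (g : SL(2, ℤ)), fro g ≤ 3 → ‖C x g‖ ≤ K) (x : X) (g : SL(2, ℤ)) :
    ‖C x g‖ ≤ (fro g : ℝ) * (2 * (fro g : ℝ)) ^ κ * K := by
  have hK0 : 0 ≤ K := (norm_nonneg _).trans (hK x 1 (by simp [fro]))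
  induction hn : (fro (g : Mat)).toNat using Nat.strong_induction_on generalizing x g with
  | _ n ih =>
    have h2 : (2 : ℝ) ≤ fro (g : Mat) := by exact_mod_cast two_le_fro g
    by_cases h : 2 < fro (g : Mat)
    · obtain ⟨w, g', hg, hw, hlt⟩ := gauss_step g h
      have h0 := fro_nonneg (g' : Mat)
      have h0' : (0 : ℝ) ≤ fro (g' : Mat) := by exact_mod_cast h0
      have k1 := ih (fro (g' : Mat)).toNat (by omega) (act x w) g' rfl
      have k2 := (norm_vactC_le κ (g' : Mat) (C x w)).trans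
        (mul_le_mul_of_nonneg_left (hK x w hw) (by positivity))
      have k3 : (fro (g' : Mat) : ℝ) + 1 ≤ fro (g : Mat) := by exact_mod_cast hlt
      have k4 : (2 * (fro (g' : Mat) : ℝ)) ^ κ ≤ (2 * (fro (g : Mat) : ℝ)) ^ κ :=
        pow_le_pow_left₀ (by positivity) (by linarith) κ
      have k5 : C x g = vact ℂ κ g' (C x w) + C (act x w) g' := by rw [← hC, ← hg]
      rw [k5]
      calc _ ≤ (2 * (fro (g' : Mat) : ℝ)) ^ κ * K +
            (fro (g' : Mat) : ℝ) * (2 * (fro (g' : Mat) : ℝ)) ^ κ * K :=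
            (norm_add_le _ _).trans (add_le_add k2 k1)
        _ = ((fro (g' : Mat) : ℝ) + 1) * (2 * (fro (g' : Mat) : ℝ)) ^ κ * K := by ring
        _ ≤ _ := by gcongr
    · refine (hK x g (by omega)).trans (le_mul_of_one_le_left hK0 ?_)
      exact one_le_mul_of_one_le_of_one_le (by linarith) (one_le_pow₀ (by linarith))

end Pool.Agent.Lib.MP_88d29b_nt.G
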