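import Pool.Agent.Lib.MP_88d29b_nt.GSturm
import Pool.Agent.Lib.MP_88d29b_nt.GQ2
import Pool.Agent.Lib.MP_88d29b_nt.GArith

/-!
Independence of the systems of Hecke eigenvalues on a short interval.
-/

set_option autoImplicit false

noncomputable section

namespace Pool.Agent.Lib.MP_88d29b_nt.G

open Finset CongruenceSubgroup UpperHalfPlane Filter Asymptotics
open scoped MatrixGroups ModularForm Manifold Topology

/-- `x` is the system of eigenvalues of a nonzero cusp form. -/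
def IsCuspSys (N : ℕ) [NeZero N] (k : ℕ) (x : ℕ → ℂ) : Prop :=
  ∃ f : CuspForm (Gamma0 N) (k : ℤ), f ≠ 0 ∧
    ∀ l, l.Prime → l.Coprime N → TS N k l f = x l • f

/-- Sketch: let `f` be the eigenform, `a` its coefficients (`exists_QS`). `QS.hecke`, `QS.smul`,
`QS.unique` give the hypothesis of `coeff_mul`. By `sturm_QS` some `a n ≠ 0` with `n < 2 ^ e`, and
`n ≠ 0` (`QS.coeff_eq_zero` with `IsCF.exp_decay`); `exists_split`, `coeff_mul` give `m ∣ N ^ e`
with `a m ≠ 0`. Take `(a m)⁻¹ • g` with `g` from `exists_sieve` (`L = N ^ e`); a divisor of `N ^ e`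
is coprime to every `n` coprime to `N`. For `N = 1` note `Nat.Coprime 0 1` and `a 0 = 0`. -/
theorem IsCuspSys.exists_form {N : ℕ} [NeZero N] {k : ℕ} (hk : 1 ≤ k) {x : ℕ → ℂ}
    (h : IsCuspSys N k x) {e : ℕ} (he : k * (Gamma0 N).index < 2 ^ e) :
    ∃ g, IsCF (Gamma (N * (N ^ e * N ^ 2))) k g ∧
      QS g (fun n => if n ≠ 0 ∧ n.Coprime N then hn k x n else 0) := by
  obtain ⟨f, hf0, hf⟩ := h
  have hcf : IsCF (Gamma0 N) (k : ℤ) f := isCF_coe f
  obtain ⟨a, ha⟩ := exists_QS hcf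
  have hN0 : N ≠ 0 := NeZero.ne N
  have hrel : ∀ l, l.Prime → l.Coprime N → ∀ n,
      x l * a n = a (l * n) + if l ∣ n then (l : ℂ) ^ (k - 1) * a (n / l) else 0 := by
    intro l hl hlN n
    have h1 := ha.hecke hl.pos (k : ℤ)
    have h2 := ha.smul (x l)
    have e1 : heckeFun l (k : ℤ) f = x l • (f : ℍ → ℂ) := by
      rw [← coe_hecke N (k : ℤ) hl hlN f, ← TS_eq N (k : ℤ) hl hlN, hf l hl hlN]
      rfl
    rw [e1] at h1
    have h3 := congrFun (h2.unique h1) n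
    have e2 : ((k : ℤ) - 1) = ((k - 1 : ℕ) : ℤ) := by omega
    rw [e2] at h3
    simpa only [Pi.smul_apply, smul_eq_mul, zpow_natCast] using h3
  have ha0 : a 0 = 0 := by
    obtain ⟨c, hc, hd⟩ := hcf.exp_decay
    refine ha.coeff_eq_zero (c := c / (2 * Real.pi)) ?_ ?_
    · have e3 : (fun z : ℍ => Real.exp (-2 * Real.pi * (c / (2 * Real.pi)) * z.im)) =
          fun z : ℍ => Real.exp (-c * z.im) := by
        funext z
        congr 1
        have := Real.pi_pos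
        field_simp
      rw [e3]
      exact hd
    · have := Real.pi_pos
      rw [Nat.cast_zero]
      positivity
  have hex : ∃ n, n < 2 ^ e ∧ a n ≠ 0 := by
    by_contra hc
    push Not at hc
    apply hf0
    have := sturm_QS hcf ha (B := 2 ^ e) (by omega) hc
    ext z
    exact congrFun this z
  obtain ⟨n, hlt, han⟩ := hex
  have hn0 : n ≠ 0 := by
    rintro rfl
    exact han ha0
  obtain ⟨m, n', rfl, hm, hn'N, hmn⟩ := exists_split hN0 hn0 hlt
  have hn'0 : n' ≠ 0 := by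
    rintro rfl
    exact hn0 (mul_zero m)
  have ham : a m ≠ 0 := by
    intro h0
    apply han
    rw [coeff_mul hrel hn'0 hn'N hmn, h0, mul_zero]
  obtain ⟨g, hg, hq⟩ := exists_sieve hcf ha hm (pow_ne_zero e hN0)
  refine ⟨(a m)⁻¹ • g, hg.smul _, ?_⟩
  have h4 := hq.smul (a m)⁻¹
  have e4 : ((a m)⁻¹ • fun n : ℕ => if n.Coprime N then a (m * n) else 0) =
      fun n : ℕ => if n ≠ 0 ∧ n.Coprime N then hn k x n else 0 := by
    funext t
    simp only [Pi.smul_apply, smul_eq_mul]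
    by_cases ht : t.Coprime N
    · by_cases ht0 : t = 0
      · subst ht0
        rw [if_pos ht, if_neg (by simp), mul_zero, ha0, mul_zero]
      · have hmt : m.Coprime t := Nat.Coprime.coprime_dvd_left hm (ht.symm.pow_left e)
        rw [if_pos ht, if_pos ⟨ht0, ht⟩, coeff_mul hrel ht0 ht hmt]
        field_simp
    · rw [if_neg ht, if_neg (fun h => ht h.2), mul_zero]
  rw [e4] at h4
  exact h4

lemma gindep_bound {N k μ : ℕ} (hk : 2 ≤ k) :
    k * μ < 2 ^ (Nat.log 2 k + 1 + μ) ∧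
      k * (N * (N ^ (Nat.log 2 k + 1 + μ) * N ^ 2)) ^ 4 ≤ k ^ (4 * (N * (μ + 5)) + 1) := by
  have h1 : k < 2 ^ (Nat.log 2 k + 1) := Nat.lt_pow_succ_log_self (by norm_num) k
  have h2 : 2 ^ Nat.log 2 k ≤ k := Nat.pow_log_le_self 2 (by omega)
  have h3 : μ ≤ 2 ^ μ := Nat.lt_two_pow_self.le
  have h4 : N ≤ k ^ N := Nat.lt_two_pow_self.le.trans (Nat.pow_le_pow_left hk N)
  constructor
  · rw [pow_add]
    calc k * μ ≤ k * 2 ^ μ := Nat.mul_le_mul_left k h3
      _ < 2 ^ (Nat.log 2 k + 1) * 2 ^ μ := Nat.mul_lt_mul_of_pos_right h1 (by positivity)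
  · have h5 : 2 ^ (Nat.log 2 k + 1 + μ) ≤ k ^ (μ + 2) := by
      rw [pow_add, pow_add, pow_one, pow_add, mul_comm (k ^ μ), pow_two]
      exact Nat.mul_le_mul (Nat.mul_le_mul h2 hk) (Nat.pow_le_pow_left hk μ)
    have h6 : N ^ (Nat.log 2 k + 1 + μ) ≤ k ^ (N * (μ + 2)) := by
      calc N ^ (Nat.log 2 k + 1 + μ) ≤ (2 ^ N) ^ (Nat.log 2 k + 1 + μ) :=
            Nat.pow_le_pow_left Nat.lt_two_pow_self.le _
        _ = (2 ^ (Nat.log 2 k + 1 + μ)) ^ N := by rw [← pow_mul, ← pow_mul, mul_comm]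
        _ ≤ (k ^ (μ + 2)) ^ N := Nat.pow_le_pow_left h5 N
        _ = k ^ (N * (μ + 2)) := by rw [← pow_mul, mul_comm]
    have h7 : N * (N ^ (Nat.log 2 k + 1 + μ) * N ^ 2) ≤ k ^ (N * (μ + 5)) := by
      calc N * (N ^ (Nat.log 2 k + 1 + μ) * N ^ 2)
          ≤ k ^ N * (k ^ (N * (μ + 2)) * (k ^ N) ^ 2) :=
            Nat.mul_le_mul h4 (Nat.mul_le_mul h6 (Nat.pow_le_pow_left h4 2))
        _ = k ^ (N * (μ + 5)) := by
            rw [← pow_mul, ← pow_add, ← pow_add]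
            congr 1
            ring
    calc k * (N * (N ^ (Nat.log 2 k + 1 + μ) * N ^ 2)) ^ 4 ≤ k * (k ^ (N * (μ + 5))) ^ 4 :=
          Nat.mul_le_mul_left k (Nat.pow_le_pow_left h7 4)
      _ = k ^ (4 * (N * (μ + 5)) + 1) := by
          rw [← pow_mul, pow_succ, mul_comm k, mul_comm 4]

/-- Sketch: `e = Nat.log 2 (k μ) + 1`, so `k μ < 2 ^ e ≤ 2 k μ`, `N ^ e ≤ (2 ^ e) ^ N`; with
`L = N (N ^ e N ^ 2)` one has `k * (Gamma L).index ≤ k L ^ 4 ≤ k ^ C` (constants `c ≤ 2 ^ c ≤ k ^ c`).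
`G = ∑ c i • g i` vanishes by `sturm_QS`; `QS.unique` with `qs_zero`; `hn_indep`. -/
theorem sturm_indep (N : ℕ) [NeZero N] : ∃ C : ℕ, ∀ k : ℕ, 2 ≤ k →
    ∀ (ι : Type) [Fintype ι] (lam : ι → ℕ → ℂ), (∀ i, IsCuspSys N k (lam i)) →
      (∀ i j, (∀ l, l.Prime → l.Coprime N → lam i l = lam j l) → i = j) →
      ∀ c : ι → ℂ, (∀ n, n ≠ 0 → n ≤ k ^ C → n.Coprime N → ∑ i, c i * hn k (lam i) n = 0) →
        c = 0 := by
  refine ⟨4 * (N * ((Gamma0 N).index + 5)) + 1, ?_⟩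
  intro k hk ι _ lam hlam hinj c hc
  obtain ⟨b1, b2⟩ := gindep_bound (N := N) (μ := (Gamma0 N).index) hk
  set e := Nat.log 2 k + 1 + (Gamma0 N).index with he
  set C := 4 * (N * ((Gamma0 N).index + 5)) + 1 with hC
  have hN0 : N ≠ 0 := NeZero.ne N
  have : NeZero (N * (N ^ e * N ^ 2)) :=
    ⟨mul_ne_zero hN0 (mul_ne_zero (pow_ne_zero _ hN0) (pow_ne_zero _ hN0))⟩
  choose g hg hq using fun i => (hlam i).exists_form (by omega) b1
  have hG : IsCF (Gamma (N * (N ^ e * N ^ 2))) k (∑ i, c i • g i) :=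
    IsCF.sum fun i _ => (hg i).smul (c i)
  have hQ : QS (∑ i, c i • g i)
      (∑ i, c i • fun n => if n ≠ 0 ∧ n.Coprime N then hn k (lam i) n else 0) :=
    QS.sum fun i _ => (hq i).smul (c i)
  have hval : ∀ n : ℕ,
      (∑ i, c i • fun n : ℕ => if n ≠ 0 ∧ n.Coprime N then hn k (lam i) n else 0) n =
        if n ≠ 0 ∧ n.Coprime N then ∑ i, c i * hn k (lam i) n else 0 := by
    intro n
    rw [Finset.sum_apply]
    simp only [Pi.smul_apply, smul_eq_mul]
    split_ifs with h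
    · rfl
    · simp
  have hzero : (∑ i, c i • g i) = 0 := by
    refine sturm_QS hG hQ (B := k ^ C + 1) ?_ ?_
    · have := Nat.mul_le_mul_left k (index_Gamma_le (N * (N ^ e * N ^ 2)))
      omega
    · intro n hn'
      rw [hval]
      split_ifs with h
      · exact hc n h.1 (by omega) h.2
      · rfl
  rw [hzero] at hQ
  have hu := hQ.unique qs_zero
  refine hn_indep (N := N) (k := k) lam hinj c fun n hn0 hnN => ?_
  have := congrFun hu n
  rw [hval, if_pos ⟨hn0, hnN⟩] at this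
  exact this

end Pool.Agent.Lib.MP_88d29b_nt.G
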