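import Pool.Agent.Lib.MP_88d29b_nt.GHecke

/-!
Fourier expansions: existence, decay, uniqueness.
-/

set_option autoImplicit false

noncomputable section

namespace Pool.Agent.Lib.MP_88d29b_nt.G

open Finset CongruenceSubgroup UpperHalfPlane Filter Asymptotics
open scoped MatrixGroups ModularForm Manifold Topology

variable {f f' : ℍ → ℂ} {a a' : ℕ → ℂ}

/-- Sketch: `hf.mk'` is a Mathlib cusp form; `ModularForm.hasSum_qExpansion` (or
`UpperHalfPlane.hasSum_qExpansion`) with `h = 1`, `CongruenceSubgroup.strictPeriods_Gamma0`;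
`Function.Periodic.qParam 1 z ^ n = exp (2 π i n z)`. -/
theorem exists_QS {N : ℕ} [NeZero N] {k : ℤ} (hf : IsCF (Gamma0 N) k f) : ∃ a, QS f a := by
  refine ⟨fun m => (qExpansion 1 hf.mk').coeff m, fun z => ?_⟩
  have h1 : (1 : ℝ) ∈ (Gamma0 N : Subgroup (GL (Fin 2) ℝ)).strictPeriods := by
    rw [strictPeriods_Gamma0]
    exact AddSubgroup.mem_zmultiples 1
  have h2 := ModularForm.hasSum_qExpansion hf.mk' (h := 1) one_pos h1 z
  have e : ∀ m : ℕ, Function.Periodic.qParam 1 (z : ℂ) ^ m =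
      Complex.exp (2 * Real.pi * Complex.I * m * z) := by
    intro m
    rw [Function.Periodic.qParam, ← Complex.exp_nat_mul]
    congr 1
    push_cast
    ring
  simp only [e] at h2
  exact h2

lemma QS.add (h : QS f a) (h' : QS f' a') : QS (f + f') (a + a') := by
  intro z
  have := (h z).add (h' z)
  simpa only [Pi.add_apply, add_mul] using this

lemma QS.smul (c : ℂ) (h : QS f a) : QS (c • f) (c • a) := by
  intro z
  have := (h z).mul_left c
  simpa only [Pi.smul_apply, smul_eq_mul, mul_assoc] using this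

lemma qs_zero : QS 0 0 := by
  intro z
  simpa only [Pi.zero_apply, zero_mul] using (hasSum_zero (α := ℂ) (β := ℕ))

lemma QS.sum {ι : Type*} {s : Finset ι} {F : ι → ℍ → ℂ} {A : ι → ℕ → ℂ}
    (h : ∀ i ∈ s, QS (F i) (A i)) : QS (∑ i ∈ s, F i) (∑ i ∈ s, A i) := by
  classical
  induction s using Finset.induction_on with
  | empty => simpa only [Finset.sum_empty] using qs_zero
  | insert i s hi ih =>
    rw [Finset.sum_insert hi, Finset.sum_insert hi]
    exact (h i (Finset.mem_insert_self _ _)).add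
      (ih fun j hj => h j (Finset.mem_insert_of_mem hj))

lemma QS.eq_zero (h : QS f 0) : f = 0 := by
  funext z
  exact (h z).unique (qs_zero z)

lemma gq1_norm (n : ℕ) (z : ℍ) :
    ‖Complex.exp (2 * Real.pi * Complex.I * n * z)‖ = Real.exp (-2 * Real.pi * n * z.im) := by
  rw [Complex.norm_exp]
  congr 1
  simp

/-- Sketch: the series at `z = i` is summable, hence absolutely (`summable_norm_iff`), so for
`im z ≥ 1` one has `‖f z‖ ≤ ∑_{n > B} ‖a n‖ e^(-2 π n y) ≤ e^(-2 π (B+1) (y-1)) ∑ ‖a n‖ e^(-2 π n)`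
(`HasSum.norm_le_of_bounded` or `tsum_of_norm_bounded`). -/
theorem QS.decay (h : QS f a) {B : ℕ} (hB : ∀ n < B, a n = 0) :
    f =O[atImInfty] fun z => Real.exp (-2 * Real.pi * B * z.im) := by
  have hs : Summable fun n : ℕ => ‖a n‖ * Real.exp (-2 * Real.pi * n) := by
    have := summable_norm_iff.mpr (h UpperHalfPlane.I).summable
    simpa only [norm_mul, gq1_norm, UpperHalfPlane.I_im, mul_one] using this
  refine IsBigO.of_bound
    ((∑' n : ℕ, ‖a n‖ * Real.exp (-2 * Real.pi * n)) * Real.exp (2 * Real.pi * B)) ?_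
  refine (atImInfty_mem _).mpr ⟨1, fun z hz => ?_⟩
  rw [Set.mem_ofPred_eq]
  rw [Real.norm_eq_abs, abs_of_pos (Real.exp_pos _), mul_assoc]
  refine (h z).norm_le_of_bounded (hs.hasSum.mul_right _) fun n => ?_
  by_cases hn : n < B
  · simp [hB n hn]
  · rw [norm_mul, gq1_norm, mul_assoc ‖a n‖, ← Real.exp_add, ← Real.exp_add]
    refine mul_le_mul_of_nonneg_left (Real.exp_le_exp.mpr ?_) (norm_nonneg _)
    have h1 : (B : ℝ) ≤ n := by exact_mod_cast not_lt.mp hn
    have h2 : 0 ≤ Real.pi * ((n - B) * (z.im - 1)) :=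
      mul_nonneg Real.pi_pos.le (mul_nonneg (by linarith) (by linarith))
    nlinarith

/-- Sketch: strong induction on `n`. If `a m = 0` for all `m < n`, then
`g = f - a n e(n z)` has the expansion `Function.update a n 0`, so it is `O(e^(-2 π (n+1) y))` by
`QS.decay`; hence `a n e(n z) = f - g = O(e^(-2 π min c (n+1) y))`, while its norm is
`‖a n‖ e^(-2 π n y)`; let `y → ∞`. -/
theorem QS.coeff_eq_zero (h : QS f a) {c : ℝ}
    (hd : f =O[atImInfty] fun z => Real.exp (-2 * Real.pi * c * z.im)) {n : ℕ}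
    (hn : (n : ℝ) < c) : a n = 0 := by
  induction n using Nat.strong_induction_on with
  | _ n ih =>
  have hlow : ∀ m < n, a m = 0 := fun m hm =>
    ih m hm (lt_trans (by exact_mod_cast hm) hn)
  let e : ℍ → ℂ := fun z => a n * Complex.exp (2 * Real.pi * Complex.I * n * z)
  have he : QS e (Pi.single n (a n)) := by
    intro z
    have := hasSum_single
      (f := fun m : ℕ => (Pi.single n (a n) : ℕ → ℂ) m *
        Complex.exp (2 * Real.pi * Complex.I * m * z)) n
      (fun m hm => by rw [Pi.single_eq_of_ne hm, zero_mul])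
    simpa only [Pi.single_eq_same] using this
  have hg := (h.add (he.smul (-1))).decay (B := n + 1) (fun m hm => by
    rcases Nat.lt_succ_iff_lt_or_eq.mp hm with hm | rfl
    · simp [hlow m hm, Pi.single_eq_of_ne hm.ne]
    · simp)
  set c' : ℝ := min c (n + 1) with hc'
  have hnc : (n : ℝ) < c' := lt_min hn (by linarith)
  have mono : ∀ b : ℝ, c' ≤ b → (fun z : ℍ => Real.exp (-2 * Real.pi * b * z.im)) =O[atImInfty]
      fun z : ℍ => Real.exp (-2 * Real.pi * c' * z.im) := by
    intro b hb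
    refine IsBigO.of_bound 1 (Eventually.of_forall fun z => ?_)
    rw [one_mul, Real.norm_eq_abs, Real.norm_eq_abs, abs_of_pos (Real.exp_pos _),
      abs_of_pos (Real.exp_pos _)]
    refine Real.exp_le_exp.mpr ?_
    have : 0 ≤ Real.pi * ((b - c') * z.im) :=
      mul_nonneg Real.pi_pos.le (mul_nonneg (by linarith) z.im_pos.le)
    nlinarith
  have h1 := hd.trans (mono c (min_le_left _ _))
  have h2 := hg.trans (mono _ (by push_cast; exact min_le_right _ _))
  have h3 : e =O[atImInfty] fun z : ℍ => Real.exp (-2 * Real.pi * c' * z.im) := by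
    refine (h1.sub h2).congr_left fun z => ?_
    simp
  obtain ⟨C, hC⟩ := h3.bound
  obtain ⟨A, hA⟩ := (atImInfty_mem _).mp hC
  by_contra hne
  have hpos : 0 < ‖a n‖ := norm_pos_iff.mpr hne
  have hk : 0 < 2 * Real.pi * (c' - n) := mul_pos (by positivity) (by linarith)
  have ht : Tendsto (fun y : ℝ => C * Real.exp (-(2 * Real.pi * (c' - n) * y))) atTop (𝓝 0) := by
    have := (Real.tendsto_exp_neg_atTop_nhds_zero.comp
      (tendsto_id.const_mul_atTop hk)).const_mul C
    simpa only [mul_zero, Function.comp_def, id] using this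
  obtain ⟨y, hy1, hy2⟩ := ((ht.eventually (gt_mem_nhds hpos)).and
    (eventually_ge_atTop (max A 1))).exists
  have hy0 : 0 < y := lt_of_lt_of_le one_pos ((le_max_right _ _).trans hy2)
  obtain ⟨z, hzy⟩ : ∃ z : ℍ, z.im = y := ⟨⟨⟨0, y⟩, hy0⟩, rfl⟩
  have hz : ‖e z‖ ≤ C * ‖Real.exp (-2 * Real.pi * c' * z.im)‖ :=
    hA z (hzy ▸ (le_max_left _ _).trans hy2)
  simp only [e] at hz
  rw [norm_mul, gq1_norm, Real.norm_eq_abs, abs_of_pos (Real.exp_pos _), hzy] at hz
  have e2 : Real.exp (-2 * Real.pi * c' * y) =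
      Real.exp (-(2 * Real.pi * (c' - n) * y)) * Real.exp (-2 * Real.pi * n * y) := by
    rw [← Real.exp_add]
    congr 1
    ring
  rw [e2, ← mul_assoc] at hz
  have := le_of_mul_le_mul_right hz (Real.exp_pos _)
  linarith

/-- Sketch: `QS.coeff_eq_zero` for `f - f = 0` and `a - a'`. -/
theorem QS.unique (h : QS f a) (h' : QS f a') : a = a' := by
  funext n
  have h0 := h.add (h'.smul (-1))
  have hz : f + (-1 : ℂ) • f = 0 := by simp
  rw [hz] at h0
  have := h0.coeff_eq_zero (c := n + 1) (isBigO_zero _ _) (n := n) (by linarith)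
  simp only [Pi.add_apply, Pi.smul_apply, smul_eq_mul] at this
  linear_combination this

/-- Sketch: `CuspFormClass.exp_decay_atImInfty'` for `hf.mk'`. -/
theorem IsCF.exp_decay {Γ : Subgroup SL(2, ℤ)} [Γ.FiniteIndex] {k : ℤ} (hf : IsCF Γ k f) :
    ∃ c : ℝ, 0 < c ∧ f =O[atImInfty] fun z => Real.exp (-c * z.im) := by
  obtain ⟨c, hc, h⟩ := CuspFormClass.exp_decay_atImInfty' hf.mk'
  exact ⟨c, hc, h⟩

end Pool.Agent.Lib.MP_88d29b_nt.G
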