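import Pool.Agent.Lib.MP_88d29b_nt.GCusp
import Pool.Agent.Lib.MP_88d29b_nt.GBoch
import Pool.Agent.Lib.MP_88d29b_nt.GQ1

/-!
Injectivity of the Eichler-Shimura map.
-/

set_option autoImplicit false

noncomputable section

namespace Pool.Agent.Lib.MP_88d29b_nt.G

open Finset CongruenceSubgroup UpperHalfPlane Filter Asymptotics
open scoped MatrixGroups ModularForm Manifold Topology ComplexConjugate

/-- The invariant function `|F(z)(z, 1)|² / y ^ κ`. -/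
def psi (κ : ℕ) (F : ℍ → Vk ℂ κ) (z : ℍ) : ℝ := ‖ev2 (F z) z 1‖ ^ 2 / z.im ^ κ

variable {κ : ℕ} {f g : ℍ → ℂ} {F : ℍ → Vk ℂ κ}

/-- Sketch: `ev2_vact`, `ev2_scale` with `t = c z + d`, `coe_sm`, `im_sm`, `sm_SL`. -/
lemma psi_fsl (F : ℍ → Vk ℂ κ) (γ : SL(2, ℤ)) (z : ℍ) :
    psi κ (fsl (vact ℂ κ) sm F γ) z = psi κ F (γ • z) := by
  have hd : 0 < (γ : Mat).det := by
    rw [γ.det_coe]
    exact one_pos
  have ht := den_ne_zero hd.ne' z
  have hw := coe_sm hd z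
  have him := im_sm hd z
  rw [γ.det_coe] at him
  rw [← sm_SL]
  set w := sm (γ : Mat) z with hwdef
  set t : ℂ := ((γ : Mat) 1 0 : ℂ) * z + (γ : Mat) 1 1 with htdef
  have e : ev2 (fsl (vact ℂ κ) sm F γ z) z 1 = t ^ κ * ev2 (F w) w 1 := by
    rw [← ev2_scale, fsl, ev2_vact, ← hwdef, hw, mul_one, mul_one, mul_one, ← htdef,
      mul_div_cancel₀ _ ht]
  have hn : 0 < ‖t‖ := norm_pos_iff.mpr ht
  have hy : 0 < z.im := z.im_pos
  rw [psi, psi, e, him, Complex.normSq_eq_norm_sq, norm_mul, norm_pow, div_pow, mul_pow, mul_pow,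
    Int.cast_one, one_pow, one_mul, ← pow_mul, ← pow_mul, mul_comm κ 2]
  field_simp

/-- The shape needed by `bochner`. Sketch: with `F = A + B | eps` one has
`ev2 (F z) z 1 = ev2 (A z) z 1 + ev2 (B (-conj z)) (-z) 1`. Take
`p none = fun s => ev2 (A (ofComplex s)) s 1`, `q none = 1`, `p (some j) = fun s => (-s) ^ j`,
`q (some j) = fun w => B (ofComplex (-w)) j`. Then, with `w = conj z`,
`∑_j p j s * deriv (q j) w = -g(-w) ev2 (wv κ (-w)) (-s) 1 = -g(-w) (s - w) ^ κ` for all `s`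
(`ev2_wv`); differentiate in `s` at `z` and use `z - conj z = 2 i y`. -/
lemma IsES.exists_pq (h : IsES κ f g F) : ∃ p q : Option (Fin (κ + 1)) → ℂ → ℂ,
    (∀ z : ℍ, ∑ j, p j z * q j (conj (z : ℂ)) = ev2 (F z) z 1) ∧
    (∀ (z : ℍ) j, AnalyticAt ℂ (p j) z) ∧ (∀ (z : ℍ) j, AnalyticAt ℂ (q j) (conj (z : ℂ))) ∧
    (∀ z : ℍ, ∑ j, p j z * deriv (q j) (conj (z : ℂ)) =
      -g (sm eps z) * (2 * Complex.I * z.im) ^ κ) ∧
    ∀ z : ℍ, ∑ j, deriv (p j) z * deriv (q j) (conj (z : ℂ)) =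
      -(Complex.I * κ / (2 * (z : ℂ).im)) * ∑ j, p j z * deriv (q j) (conj (z : ℂ)) := by
  obtain ⟨A, B, hA, hB, rfl⟩ := h
  let p : Option (Fin (κ + 1)) → ℂ → ℂ := fun j => match j with
    | none => fun s => ev2 (A (ofComplex s)) s 1
    | some j => fun s => (-s) ^ (j : ℕ)
  let q : Option (Fin (κ + 1)) → ℂ → ℂ := fun j => match j with
    | none => fun _ => 1
    | some j => fun w => B (ofComplex (-w)) j
  have hsm : ∀ z : ℍ, ofComplex (-conj (z : ℂ)) = sm eps z := fun z => by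
    rw [← coe_sm_eps, ofComplex_apply]
  have hp : ∀ (z : ℍ) j, AnalyticAt ℂ (p j) z := by
    intro z j
    cases j with
    | none =>
      change AnalyticAt ℂ (fun s : ℂ => ∑ j : Fin (κ + 1),
        A (ofComplex s) j * s ^ (j : ℕ) * 1 ^ (κ - j)) z
      refine Finset.analyticAt_fun_sum _ fun j _ => ?_
      exact ((hA.analyticAt j z.im_pos).mul (analyticAt_id.pow _)).mul analyticAt_const
    | some j => exact analyticAt_id.neg.pow _
  have hq : ∀ (z : ℍ) j, AnalyticAt ℂ (q j) (conj (z : ℂ)) := by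
    intro z j
    cases j with
    | none => exact analyticAt_const
    | some j =>
      have h1 : 0 < (-conj (z : ℂ)).im := by
        simpa using z.im_pos
      exact AnalyticAt.comp (g := fun s : ℂ => B (ofComplex s) j) (f := fun w : ℂ => -w)
        (hB.analyticAt j h1) analyticAt_id.neg
  have hdq : ∀ (z : ℍ) (j : Fin (κ + 1)), deriv (q (some j)) (conj (z : ℂ)) =
      -(g (sm eps z) * wv κ (-conj (z : ℂ)) j) := by
    intro z j
    have h1 := hasDerivAt_pi.mp (hB (sm eps z)) j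
    rw [coe_sm_eps] at h1
    have h2 := HasDerivAt.comp (h₂ := fun s : ℂ => B (ofComplex s) j) (h := fun w : ℂ => -w)
      (conj (z : ℂ)) h1 (hasDerivAt_neg' _)
    have h3 := h2.deriv
    simp only [Pi.smul_apply, smul_eq_mul, mul_neg, mul_one] at h3
    exact h3
  have key : ∀ (z : ℍ) (s : ℂ), ∑ j, p j s * deriv (q j) (conj (z : ℂ)) =
      -g (sm eps z) * (s - conj (z : ℂ)) ^ κ := by
    intro z s
    have h1 := ev2_wv κ (-conj (z : ℂ)) (-s) 1
    rw [show -conj (z : ℂ) * 1 - -s = s - conj (z : ℂ) by ring] at h1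
    rw [Fintype.sum_option, ← h1, ev2, Finset.mul_sum]
    have h2 : deriv (q none) (conj (z : ℂ)) = 0 := deriv_const _ _
    rw [h2, mul_zero, zero_add]
    refine Finset.sum_congr rfl fun j _ => ?_
    rw [hdq]
    simp only [p]
    ring
  have hzz : ∀ z : ℍ, (z : ℂ) - conj (z : ℂ) = 2 * Complex.I * z.im := by
    intro z
    rw [Complex.sub_conj]
    push_cast
    rw [UpperHalfPlane.coe_im]
    ring
  refine ⟨p, q, fun z => ?_, hp, hq, fun z => by rw [key, hzz], fun z => ?_⟩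
  · rw [Fintype.sum_option, Pi.add_apply, ev2_add, G.fsl, ev2_vact]
    congr 1
    · simp only [p, q, ofComplex_apply, mul_one]
    · rw [ev2]
      refine Finset.sum_congr rfl fun j _ => ?_
      simp only [p, q, hsm]
      simp [eps, mul_comm]
  · have h1 : HasDerivAt (fun s : ℂ => ∑ j, p j s * deriv (q j) (conj (z : ℂ)))
        (∑ j, deriv (p j) z * deriv (q j) (conj (z : ℂ))) z :=
      HasDerivAt.fun_sum fun j _ => (hp z j).differentiableAt.hasDerivAt.mul_const _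
    have h2 : HasDerivAt (fun s : ℂ => -g (sm eps z) * (s - conj (z : ℂ)) ^ κ)
        (-g (sm eps z) * (κ * ((z : ℂ) - conj (z : ℂ)) ^ (κ - 1) * 1)) z :=
      (((hasDerivAt_id' (z : ℂ)).sub_const _).fun_pow κ).const_mul _
    rw [funext (key z)] at h1
    rw [h1.unique h2, key, hzz, UpperHalfPlane.coe_im]
    have hy : (z.im : ℂ) ≠ 0 := by exact_mod_cast z.im_pos.ne'
    cases κ with
    | zero => simp
    | succ k =>
      rw [Nat.add_sub_cancel, pow_succ]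
      field_simp
      rw [Complex.I_sq]
      ring

lemma ginj_exp_mono {c c' : ℝ} (h : c' ≤ c)
    (hf : f =O[atImInfty] fun z => Real.exp (-c * z.im)) :
    f =O[atImInfty] fun z => Real.exp (-c' * z.im) := by
  refine hf.trans (IsBigO.of_bound' (Eventually.of_forall fun z => ?_))
  rw [Real.norm_eq_abs, Real.norm_eq_abs, abs_of_pos (Real.exp_pos _), abs_of_pos (Real.exp_pos _)]
  apply Real.exp_le_exp.mpr
  have := z.im_pos
  nlinarith

lemma ginj_inv {N : ℕ} (hF : Rep (Gamma0 N) (vact ℂ κ) sm F 0) {γ : SL(2, ℤ)}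
    (hγ : γ ∈ Gamma0 N) : fsl (vact ℂ κ) sm F γ = F := by
  funext z
  exact sub_eq_zero.mp (hF ⟨γ, hγ⟩ z)

lemma ginj_eps_mem : eps ∈ Snz := by
  rw [mem_Snz, det_eps]
  decide

/-- Sketch: `F | γ` satisfies `IsES` for `sl f γ`, `sl g γ'` (`IsES.fsl`, `exists_eps_conj`), which
are cusp forms for `Γ(N)` (`IsCF.sl` with `D = 1`), so decay exponentially (`IsCF.exp_decay`, take
the smaller rate). It is invariant under `(1 N; 0 1)` because `γ (1 N; 0 1) = t γ` with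
`t ∈ Γ(N)` (`exists_conj`, `fsl_mul`). `IsES.bounded`, `psi_fsl`. -/
lemma IsES.psi_small (hκ : Even κ) (h0 : 0 < κ) {N : ℕ} [NeZero N]
    (hf : IsCF (Gamma0 N) ((κ + 2 : ℕ) : ℤ) f) (hg : IsCF (Gamma0 N) ((κ + 2 : ℕ) : ℤ) g)
    (h : IsES κ f g F) (hF : Rep (Gamma0 N) (vact ℂ κ) sm F 0) (γ : SL(2, ℤ)) (ε : ℝ)
    (hε : 0 < ε) : ∃ A : ℝ, ∀ z : ℍ, |z.re| ≤ 1 → A ≤ z.im → psi κ F (γ • z) ≤ ε := by
  have hdet : ∀ δ : SL(2, ℤ), 0 < (δ : Mat).det := fun δ => by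
    rw [δ.det_coe]
    exact one_pos
  have hdvd : ∀ δ : SL(2, ℤ), (δ : Mat).det ∣ ((1 : ℕ) : ℤ) := fun δ => by
    rw [δ.det_coe]
    exact one_dvd _
  have h1 := h.fsl hκ (hdet γ)
  obtain ⟨γ', hγ', -⟩ := exists_eps_conj γ
  rw [← hγ'] at h1
  have hf1 := (hf.mono (Gamma_le_Gamma0 N)).sl (hdet γ).ne' (hdvd γ)
  have hg1 := (hg.mono (Gamma_le_Gamma0 N)).sl (hdet γ').ne' (hdvd γ')
  rw [mul_one] at hf1 hg1
  obtain ⟨c1, hc1, hd1⟩ := hf1.exp_decay
  obtain ⟨c2, hc2, hd2⟩ := hg1.exp_decay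
  let T : SL(2, ℤ) := ⟨!![1, (N : ℤ); 0, 1], by simp [Matrix.det_fin_two_of]⟩
  have hT : T ∈ Gamma (N * 1) := by
    rw [mul_one, Gamma_mem]
    simp [T]
  obtain ⟨t, ht, e⟩ := exists_conj (hdet γ).ne' (hdvd γ) hT
  have hinv : G.fsl (vact ℂ κ) sm (G.fsl (vact ℂ κ) sm F γ) !![1, (N : ℤ); 0, 1] =
      G.fsl (vact ℂ κ) sm F γ := by
    change G.fsl (vact ℂ κ) sm (G.fsl (vact ℂ κ) sm F γ) (T : Mat) = _
    rw [← fsl_mul (isAct_vact ℂ hκ Snz) isSm_sm F (hdet γ).ne' (hdet T).ne', e,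
      fsl_mul (isAct_vact ℂ hκ Snz) isSm_sm F (hdet t).ne' (hdet γ).ne',
      ginj_inv hF (Gamma_le_Gamma0 N ht)]
  have hN : (N : ℤ) ≠ 0 := by exact_mod_cast NeZero.ne N
  obtain ⟨A, C, hb⟩ := h1.bounded (lt_min hc1 hc2) (ginj_exp_mono (min_le_left _ _) hd1)
    (ginj_exp_mono (min_le_right _ _) hd2) hN hinv
  refine ⟨max A (max 1 (C ^ 2 / ε)), fun z hre him => ?_⟩
  have hA : A ≤ z.im := (le_max_left _ _).trans him
  have hy1 : 1 ≤ z.im := ((le_max_left _ _).trans (le_max_right _ _)).trans him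
  have hy2 : C ^ 2 / ε ≤ z.im := ((le_max_right _ _).trans (le_max_right _ _)).trans him
  have hb1 := hb z hre hA
  rw [← psi_fsl, psi, div_le_iff₀ (pow_pos z.im_pos _)]
  rw [div_le_iff₀ hε] at hy2
  have h2 : z.im ≤ z.im ^ κ := le_self_pow₀ hy1 h0.ne'
  calc ‖ev2 (G.fsl (vact ℂ κ) sm F γ z) z 1‖ ^ 2 ≤ C ^ 2 :=
        pow_le_pow_left₀ (norm_nonneg _) hb1 2
    _ ≤ z.im * ε := hy2
    _ ≤ z.im ^ κ * ε := mul_le_mul_of_nonneg_right h2 hε.le
    _ = ε * z.im ^ κ := mul_comm _ _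

/-- Sketch: `exists_max` for `psi κ F`; `bochner` at the maximum gives `psi κ F = 0`, so
`ev2 (F z) z 1 = 0` for all `z`; `dbar_eq_zero` gives `g (sm eps z) = 0` for all `z`. -/
theorem IsES.right_eq_zero (hκ : Even κ) (h0 : 0 < κ) {N : ℕ} [NeZero N]
    (hf : IsCF (Gamma0 N) ((κ + 2 : ℕ) : ℤ) f) (hg : IsCF (Gamma0 N) ((κ + 2 : ℕ) : ℤ) g)
    (h : IsES κ f g F) (hF : Rep (Gamma0 N) (vact ℂ κ) sm F 0) : g = 0 := by
  have hFc := h.continuous
  have hc : Continuous (psi κ F) := by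
    unfold psi ev2
    refine Continuous.div ?_ (UpperHalfPlane.continuous_im.pow _)
      fun z => (pow_pos z.im_pos _).ne'
    refine Continuous.pow (Continuous.norm (continuous_finsetSum _ fun j _ => ?_)) 2
    exact (((continuous_apply j).comp hFc).mul (UpperHalfPlane.continuous_coe.pow _)).mul
      continuous_const
  have hnn : ∀ z, 0 ≤ psi κ F z := fun z => div_nonneg (sq_nonneg _) (pow_pos z.im_pos _).le
  obtain ⟨z₀, hz₀⟩ := exists_max (Γ := Gamma0 N) hc hnn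
    (fun γ hγ z => by rw [← psi_fsl, ginj_inv hF hγ]) (h.psi_small hκ h0 hf hg hF)
  obtain ⟨p, q, h1, hp, hq, h2, h3⟩ := h.exists_pq
  have hev : ∀ z : ℍ, ∀ᶠ s in 𝓝 (z : ℂ), 0 < s.im := fun z =>
    (isOpen_lt continuous_const Complex.continuous_im).mem_nhds z.im_pos
  have hpsi : ∀ z : ℍ, ‖∑ j, p j z * q j (conj (z : ℂ))‖ ^ 2 / (z : ℂ).im ^ κ = psi κ F z :=
    fun z => by rw [h1]; rfl
  have hmax : IsLocalMax (fun s : ℂ => ‖∑ j, p j s * q j (conj s)‖ ^ 2 / s.im ^ κ) (z₀ : ℂ) := by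
    filter_upwards [hev z₀] with s hs
    have e1 := hpsi ⟨s, hs⟩
    have e2 := hpsi z₀
    exact e1.le.trans ((hz₀ _).trans e2.ge)
  have h4 := bochner h0 z₀.im_pos (hp z₀) (hq z₀) (h3 z₀) hmax
  have h5 : psi κ F z₀ = 0 := by
    rw [← hpsi, h4]
    simp
  have h6 : ∀ z : ℍ, ∑ j, p j z * q j (conj (z : ℂ)) = 0 := by
    intro z
    have h7 : psi κ F z = 0 := le_antisymm (h5 ▸ hz₀ z) (hnn z)
    rw [← hpsi, div_eq_zero_iff] at h7
    rcases h7 with h7 | h7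
    · exact norm_eq_zero.mp (pow_eq_zero_iff two_ne_zero |>.mp h7)
    · exact absurd h7 (pow_pos z.im_pos _).ne'
  have h8 : ∀ z : ℍ, g (sm eps z) = 0 := by
    intro z
    have h9 := dbar_eq_zero (hp z) (hq z) (by
      filter_upwards [hev z] with s hs
      exact h6 ⟨s, hs⟩)
    rw [h2] at h9
    have hy : (z.im : ℂ) ≠ 0 := by exact_mod_cast z.im_pos.ne'
    have h10 : (2 * Complex.I * z.im) ^ κ ≠ 0 :=
      pow_ne_zero _ (mul_ne_zero (mul_ne_zero two_ne_zero Complex.I_ne_zero) hy)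
    exact neg_eq_zero.mp ((mul_eq_zero.mp h9).resolve_right h10)
  funext z
  have := h8 (sm eps z)
  rwa [← sm_mul ginj_eps_mem ginj_eps_mem, eps_mul_eps, sm_one] at this

/-- Sketch: `exists_ES`; `IsES.right_eq_zero` for `F` and for `F | eps` (`IsES.swap`,
`exists_eps_conj`, `fsl_mul`). -/
theorem exists_ES_inj (N : ℕ) [NeZero N] (hκ : Even κ) (h0 : 0 < κ) :
    ∃ E : (CuspForm (Gamma0 N) ((κ + 2 : ℕ) : ℤ) × CuspForm (Gamma0 N) ((κ + 2 : ℕ) : ℤ)) →ₗ[ℂ]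
        HH ℂ N κ, Function.Injective E ∧
      ∀ l, l.Prime → l.Coprime N → ∀ x,
        E (TS N _ l x.1, TS N _ l x.2) = Tl ℂ N κ l (E x) := by
  obtain ⟨E, h1, h2⟩ := exists_ES N hκ
  refine ⟨E, (injective_iff_map_eq_zero E).mpr fun x hx => ?_, h2⟩
  obtain ⟨F, hES, hF⟩ := h1 x hx
  have hF' : Rep (Gamma0 N) (vact ℂ κ) sm (fsl (vact ℂ κ) sm F eps) 0 := by
    intro γ z
    obtain ⟨γ', hγ', hmem⟩ := exists_eps_conj (γ : SL(2, ℤ))
    have e : eps * ((γ : SL(2, ℤ)) : Mat) = (γ' : Mat) * eps := by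
      rw [hγ', Matrix.mul_assoc, eps_mul_eps, Matrix.mul_one]
    rw [← fsl_mul (isAct_vact ℂ hκ Snz) isSm_sm F ginj_eps_mem (inside_Snz ⊤ _ trivial), e,
      fsl_mul (isAct_vact ℂ hκ Snz) isSm_sm F (inside_Snz ⊤ _ trivial) ginj_eps_mem,
      ginj_inv hF (hmem N γ.2)]
    exact sub_self _
  have e2 := hES.right_eq_zero hκ h0 (isCF_coe x.1) (isCF_coe x.2) hF
  have e1 := (hES.swap hκ).right_eq_zero hκ h0 (isCF_coe x.2) (isCF_coe x.1) hF'
  refine Prod.ext ?_ ?_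
  · exact DFunLike.coe_injective e1
  · exact DFunLike.coe_injective e2

end Pool.Agent.Lib.MP_88d29b_nt.G
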