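import Pool.Agent.Lib.MP_88d29b_nt.GComm

/-!
Definitions for the `p`-adic part: bounds for minors, Newton polygons, integral models and the
data of a family.
-/

set_option autoImplicit false

noncomputable section

namespace Pool.Agent.Lib.MP_88d29b_nt.G

open Finset CongruenceSubgroup
open scoped MatrixGroups

/-- The algebraic closure of `ℚ_p`. -/
abbrev KP (p : ℕ) [Fact p.Prime] : Type := PadicAlgCl p

section Vol

variable {K : Type} [NormedField K] {m n : Type}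

/-- All entries of `Y` have norm at most `x`. -/
def EntLe (Y : Matrix m n K) (x : ℝ) : Prop := ∀ i j, ‖Y i j‖ ≤ x

/-- All minors of `Y`, the empty one included, have norm at most `x`. -/
def VolLe (Y : Matrix m n K) (x : ℝ) : Prop :=
  ∀ (s : ℕ) (f : Fin s → m) (g : Fin s → n), ‖(Y.submatrix f g).det‖ ≤ x

/-- The sum of `max 0 (h - slope)` over a multiset. -/
def np (p : ℕ) (A : Multiset K) (h : ℝ) : ℝ :=
  (A.map fun a => Real.logb p (max 1 (‖a‖ * (p : ℝ) ^ h))).sum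

open Classical in
/-- The number of nonzero elements whose slope, multiplied by `c`, lies in `[a, b]`. -/
def cntIn (p : ℕ) (A : Multiset K) (c a b : ℝ) : ℕ :=
  (A.filter fun x => x ≠ 0 ∧ c * (-Real.logb p ‖x‖) ∈ Set.Icc a b).card

/-- The coefficient of `T ^ k` in `det (1 - T P)`. -/
def cf [Fintype n] [DecidableEq n] (P : Matrix n n K) (k : ℕ) : K := P.charpolyRev.coeff k

end Vol

section Coh

lemma fg_SL2Z : Group.FG SL(2, ℤ) :=
  ⟨⟨{ModularGroup.S, ModularGroup.T}, by simpa using SpecialLinearGroup.SL2Z_generators⟩⟩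

lemma finite_Z1 {K V : Type} [Field K] [AddCommGroup V] [Module K V] [Module.Finite K V]
    (Γ : Subgroup SL(2, ℤ)) [Γ.FiniteIndex] (ρ : Mat → V →ₗ[K] V) : Module.Finite K (Z1 Γ ρ) := by
  have := fg_SL2Z
  obtain ⟨s, hs⟩ := (inferInstance : Group.FG Γ).1
  let F : Z1 Γ ρ →ₗ[K] (Option s → V) := LinearMap.pi fun a =>
    (LinearMap.proj (a.elim 1 (fun b => (b : Γ)))) ∘ₗ (Z1 Γ ρ).subtype
  refine Module.Finite.of_injective F ((injective_iff_map_eq_zero F).2 fun c hc => ?_)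
  have h1 : (c : Γ → V) 1 = 0 := congrFun hc none
  ext1
  funext g
  have hg : g ∈ Subgroup.closure (s : Set Γ) := hs ▸ Subgroup.mem_top g
  induction hg using Subgroup.closure_induction with
  | mem x hx => exact congrFun hc (some ⟨x, hx⟩)
  | one => exact h1
  | mul x y _ _ hx hy =>
    have := c.2.1 x y
    simp only [ZeroMemClass.coe_zero, Pi.zero_apply] at hx hy ⊢
    rw [this, hx, hy, map_zero, add_zero]
  | inv x _ hx =>
    have := c.2.1 x x⁻¹
    simp only [ZeroMemClass.coe_zero, Pi.zero_apply] at hx ⊢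
    rw [mul_inv_cancel, h1, hx, map_zero, zero_add] at this
    exact this.symm

instance finite_HH (K : Type) [Field K] (N κ : ℕ) [NeZero N] : Module.Finite K (HH K N κ) := by
  have := finite_Z1 (Gamma0 N) (vact K κ)
  infer_instance

/-- The eigenvalues of `T_l` on cohomology, with multiplicity. -/
def slopes (K : Type) [Field K] (N κ l : ℕ) [NeZero N] : Multiset K :=
  (Tl K N κ l).charpoly.roots

/-- The product of the operators `T_l` over the prime factors of `n`, with multiplicity. -/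
def Tw (K : Type) [Field K] (N κ n : ℕ) : Module.End K (HH K N κ) :=
  (n.primeFactorsList.map (Tl K N κ)).prod

/-- The completely multiplicative function with values `x l` at primes. -/
def mon {A : Type} [CommRing A] (x : ℕ → A) (n : ℕ) : A := (n.primeFactorsList.map x).prod

/-- Two systems agree at all primes that do not divide `M`. -/
def Same {A : Type} (M : ℕ) (x y : ℕ → A) : Prop := ∀ l, l.Prime → Nat.Coprime l M → x l = y l

/-- The class `h` contains a cocycle whose values have norm at most `a`. -/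
def IntCl {K : Type} [NormedField K] {N κ : ℕ} (h : HH K N κ) (a : ℝ) : Prop :=
  ∃ c : Z1 (Gamma0 N) (vact K κ), Submodule.Quotient.mk c = h ∧
    ∀ g m, ‖(c : Gamma0 N → Vk K κ) g m‖ ≤ a

/-- A matrix with integer entries, read in `K`. -/
abbrev zm (K : Type) [Field K] {m n : Type} (A : Matrix m n ℤ) : Matrix m n K :=
  A.map (Int.cast : ℤ → K)

/-- An integral model of cohomology: cocycles are vectors, Hecke operators integer matrices. -/
structure ZModel (K : Type) [NormedField K] (M κ : ℕ) (α : Type) [Fintype α] [DecidableEq α] where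
  cl : (α → K) →ₗ[K] HH K M κ
  d : Matrix α (Fin (κ + 1)) ℤ
  tc : ℕ → Matrix α α ℤ
  t0 : ℕ → Matrix (Fin (κ + 1)) (Fin (κ + 1)) ℤ
  surj : Function.Surjective cl
  ker : LinearMap.ker cl = LinearMap.range (Matrix.toLin' (zm K d))
  inj : Function.Injective (Matrix.toLin' (zm K d))
  comm : ∀ l, l.Prime → Nat.Coprime l M → cl ∘ₗ Matrix.toLin' (zm K (tc l)) = Tl K M κ l ∘ₗ cl
  cob : ∀ l, l.Prime → Nat.Coprime l M → tc l * d = d * t0 l
  int : ∀ (x : α → K) (a : ℝ), 0 ≤ a → (∀ i, ‖x i‖ ≤ a) → IntCl (cl x) a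
  lift : ∀ (h : HH K M κ) (a : ℝ), IntCl h a → ∃ x, cl x = h ∧ ∀ i, ‖x i‖ ≤ a

open Classical in
/-- The analytic input: many eigenvectors, independence of the systems on `n ≤ B`, multiplicities
at most `r`, codimension at most `c`, integer traces at most `X`. -/
structure Arch (K : Type) [Field K] (M κ B r c : ℕ) (X : ℝ) : Prop where
  eig : ∃ (d : ℕ) (v : Fin d → HH K M κ) (lam : Fin d → ℕ → K),
    LinearIndependent K v ∧ Module.finrank K (HH K M κ) ≤ d + c ∧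
    (∀ j l, l.Prime → Nat.Coprime l M → Tl K M κ l (v j) = lam j l • v j) ∧
    (∀ s : Finset (Fin d), (∀ i ∈ s, ∀ j ∈ s, Same M (lam i) (lam j) → i = j) →
      ∀ a : Fin d → K, (∀ n, 1 ≤ n → n ≤ B → Nat.Coprime n M →
        ∑ j ∈ s, a j * mon (lam j) n = 0) → ∀ j ∈ s, a j = 0) ∧
    ∀ i, (univ.filter fun j => Same M (lam j) (lam i)).card ≤ r
  tr : ∀ n n' : ℕ, 1 ≤ n → n ≤ B → Nat.Coprime n M → 1 ≤ n' → n' ≤ B → Nat.Coprime n' M →
    ∀ z : ℤ, LinearMap.trace K _ (Tw K M κ n * Tw K M κ n') = z → |(z : ℝ)| ≤ X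

end Coh

section Family

variable (p : ℕ) [Fact p.Prime] {ι : Type}

/-- Copies of the degrees `0, ..., D`. -/
abbrev Jx (ι : Type) (D : ℕ) : Type := ι × Fin (D + 1)

/-- The diagonal matrix of the powers `p ^ degree`. -/
def dmat (ι : Type) [DecidableEq ι] (D : ℕ) : Matrix (Jx ι D) (Jx ι D) (KP p) :=
  Matrix.diagonal fun i => (p : KP p) ^ (i.2 : ℕ)

/-- The inclusion of the degrees at most `κ`. -/
def emb {κ D : ℕ} (h : κ ≤ D) (i : Jx ι κ) : Jx ι D := (i.1, Fin.castLE (Nat.succ_le_succ h) i.2)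

/-- The block of degrees at most `κ`. -/
def blk {A : Type} {κ D : ℕ} (h : κ ≤ D) (Y : Matrix (Jx ι D) (Jx ι D) A) :
    Matrix (Jx ι κ) (Jx ι κ) A := Y.submatrix (emb h) (emb h)

/-- The lower bound `n ^ 2 / (2 t) - n - t / 2` for a sum of `n` degrees. -/
def hpl (t n : ℕ) : ℝ := (n : ℝ) ^ 2 / (2 * t) - n - t / 2

variable [Fintype ι] [DecidableEq ι]

/-- `AW` is integral and its entry `(i, j)` is divisible by `p ^ (κ - i - j)`. -/
def Decay {κ : ℕ} (AW : Matrix (Jx ι κ) (Jx ι κ) (KP p)) : Prop :=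
  EntLe AW 1 ∧ ∀ i j, ‖AW i j‖ ≤ (p : ℝ) ^ (((i.2 : ℕ) : ℝ) + ((j.2 : ℕ) : ℝ) - κ)

/-- The matrix `R` factors, up to rank one, through the cohomology of level `M`, and the product
in the other order is `p ^ ell T_p`. -/
def Factors (M κ ell : ℕ) {β : Type} [Fintype β] [DecidableEq β] (R : Matrix β β (KP p)) : Prop :=
  ∃ (α : Type) (_ : Fintype α) (_ : DecidableEq α) (Z : ZModel (KP p) M κ α)
    (a1 : Matrix β α (KP p)) (b1 : Matrix α β (KP p)),
    EntLe a1 1 ∧ EntLe b1 1 ∧ (R - a1 * b1).rank ≤ 1 ∧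
    Module.finrank (KP p) ((LinearMap.ker Z.cl).map (Matrix.toLin' a1)) ≤ 1 ∧
    Module.finrank (KP p) (LinearMap.range
      (Z.cl ∘ₗ Matrix.toLin' (b1 * a1 - (p : KP p) ^ ell • zm (KP p) (Z.tc p)))) ≤ 1

/-- The rank of `R` is at most `q` and the minors of the powers of `R` are controlled by the
multiset `S`. -/
def Upper (ell : ℕ) {β : Type} [Fintype β] [DecidableEq β] (R : Matrix β β (KP p))
    (S : Multiset (KP p)) (q : ℕ) (U1 U2 : ℝ) : Prop :=
  R.rank ≤ q ∧ ∀ h m : ℕ, 1 ≤ m → VolLe (((((p : KP p) ^ (h + ell))⁻¹) • R) ^ m)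
    ((p : ℝ) ^ (m * np p S h + U1 + ((h : ℝ) + ell) * q + U2 * m ^ 2 * ((h : ℝ) + ell)))

/-- The numerical constants attached to `p`. -/
structure Par (p ph b pp : ℕ) : Prop where
  ph_pos : 0 < ph
  even : Even ph
  b_pos : 0 < b
  h1 : ph * p = (p - 1) * pp
  h2 : b * (p - 1) + 1 = pp

/-- The data of a family for the weights `κ0 + ph y` and the index `n`. -/
structure Fam (ι : Type) [Fintype ι] [DecidableEq ι] (ph b pp κ0 n ell D : ℕ)
    (S : ℕ → Multiset (KP p)) (q : ℕ → ℕ) (U1 U2 : ℕ → ℝ) where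
  w : ℕ → KP p
  f : Polynomial (KP p)
  A : ℕ → Matrix (Jx ι D) (Jx ι D) (KP p)
  w_zero : w 0 = 0
  w_dist : ∀ y y' : ℕ, ‖w y - w y'‖ = (p : ℝ) ^ (-(b : ℝ)) * ‖(y : KP p) - y'‖
  halo : ∀ x : KP p, ‖x‖ ≤ (p : ℝ) ^ (-(1 / (n : ℝ))) → ‖f.eval x‖ ≤ (p : ℝ) ^ (n : ℝ)
  touch : ∃ x : KP p, ‖x‖ ≤ (p : ℝ) ^ (-(1 / ((p : ℝ) - 1))) ∧
    (p : ℝ) ^ (-((n : ℝ) ^ 2 / (2 * Fintype.card ι * pp) + 2 * n * ell)) ≤ ‖f.eval x‖
  int : ∀ y, EntLe (A y) 1
  lip : ∀ y y' r : ℕ, y ≡ y' [MOD p ^ r] → EntLe (A y - A y') ((p : ℝ) ^ (-(r : ℝ)))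
  cong : ∀ y, ‖f.eval (w y) - cf (dmat p ι D * A y) n‖ ≤ (p : ℝ) ^ (-(2 * (n : ℝ) ^ 2))
  cls : ∀ (y : ℕ) (h : κ0 + ph * y ≤ D), 2 ≤ κ0 + ph * y →
    ∃ AW : Matrix (Jx ι (κ0 + ph * y)) (Jx ι (κ0 + ph * y)) (KP p), Decay p AW ∧
      Upper p ell (dmat p ι (κ0 + ph * y) * (blk h (A y) + AW)) (S (κ0 + ph * y))
        (q (κ0 + ph * y)) (U1 (κ0 + ph * y)) (U2 (κ0 + ph * y))

/-- Growth conditions for the error terms. -/
structure Grow (p t C : ℕ) (q : ℕ → ℕ) (U1 U2 : ℕ → ℝ) : Prop where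
  q_le : ∀ κ, (p + 1) * q κ ≤ t * κ + C
  u1 : ∀ κ, 2 ≤ κ → U1 κ ≤ C * (κ : ℝ) ^ 2 * (Nat.log 2 κ : ℝ) ^ C
  u2 : ∀ κ, 2 ≤ κ → U2 κ ≤ C * (Nat.log 2 κ : ℝ) ^ C

end Family

section Norm

variable (p : ℕ) [hp : Fact p.Prime]

lemma one_lt_p : (1 : ℝ) < p := by exact_mod_cast hp.out.one_lt

lemma p_pos : (0 : ℝ) < p := zero_lt_one.trans (one_lt_p p)

lemma norm_p : ‖(p : KP p)‖ = (p : ℝ)⁻¹ := by
  rw [← map_natCast (algebraMap ℚ_[p] (KP p)), PadicAlgCl.norm_extends, Padic.norm_p]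

lemma p_ne_zero : (p : KP p) ≠ 0 := by exact_mod_cast hp.out.ne_zero

lemma norm_p_pow (k : ℕ) : ‖(p : KP p) ^ k‖ = (p : ℝ) ^ (-(k : ℝ)) := by
  rw [norm_pow, norm_p, Real.rpow_neg (p_pos p).le, Real.rpow_natCast, inv_pow]

lemma norm_p_pow_inv (k : ℕ) : ‖((p : KP p) ^ k)⁻¹‖ = (p : ℝ) ^ (k : ℝ) := by
  rw [norm_inv, norm_p_pow, Real.rpow_neg (p_pos p).le, inv_inv]

lemma norm_int_eq (z : ℤ) : ‖(z : KP p)‖ = ‖(z : ℚ_[p])‖ := by
  rw [← map_intCast (algebraMap ℚ_[p] (KP p)), PadicAlgCl.norm_extends]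

lemma norm_int_le (z : ℤ) : ‖(z : KP p)‖ ≤ 1 := IsUltrametricDist.norm_intCast_le_one _ z

end Norm

end Pool.Agent.Lib.MP_88d29b_nt.G
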