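import Pool.Agent.Lib.MP_88d29b_nt.GIndep
import Pool.Agent.Lib.MP_88d29b_nt.HDefs

/-!
Multiplicity of a system of eigenvalues; completely multiplicative systems.
-/

set_option autoImplicit false

noncomputable section

namespace Pool.Agent.Lib.MP_88d29b_nt.G

open Finset CongruenceSubgroup
open scoped MatrixGroups

lemma gmult_coe_sum {N : ℕ} [NeZero N] {k : ℤ} {ι : Type} (s : Finset ι) (c : ι → ℂ)
    (f : ι → CuspForm (Gamma0 N) k) :
    ((∑ i ∈ s, c i • f i : CuspForm (Gamma0 N) k) : UpperHalfPlane → ℂ) =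
      ∑ i ∈ s, c i • (f i : UpperHalfPlane → ℂ) := by
  classical
  induction s using Finset.induction_on with
  | empty => rfl
  | insert i s hi ih =>
    rw [sum_insert hi, sum_insert hi, ← ih]
    rfl

lemma mon_one {A : Type} [CommRing A] (x : ℕ → A) : mon x 1 = 1 := by
  simp [mon]

/-- Sketch: `Nat.perm_primeFactorsList_mul`, `List.Perm.prod_eq`. -/
lemma mon_mul {A : Type} [CommRing A] (x : ℕ → A) {m n : ℕ} (hm : m ≠ 0) (hn0 : n ≠ 0) :
    mon x (m * n) = mon x m * mon x n := by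
  rw [mon, ((Nat.perm_primeFactorsList_mul hm hn0).map x).prod_eq, List.map_append,
    List.prod_append, mon, mon]

lemma mon_prime {A : Type} [CommRing A] (x : ℕ → A) {l : ℕ} (hl : l.Prime) : mon x l = x l := by
  simp [mon, Nat.primeFactorsList_prime hl]

/-- Sketch: prove by strong induction on `n` that `∑ a j * (mon (lam j) m * hn k (lam j) n) = 0` for
all `m ≠ 0` coprime to `N` with `m * n ≤ B`; for `n = l * n'` use `hn_hecke` and
`mon x m * x l = mon x (m * l)`. -/
lemma hn_of_mon {A ι : Type} [CommRing A] (s : Finset ι) (a : ι → A) (lam : ι → ℕ → A)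
    {N B : ℕ} (k : ℕ)
    (h : ∀ n, 1 ≤ n → n ≤ B → Nat.Coprime n N → ∑ j ∈ s, a j * mon (lam j) n = 0) :
    ∀ n, n ≠ 0 → n ≤ B → Nat.Coprime n N → ∑ j ∈ s, a j * hn k (lam j) n = 0 := by
  have key : ∀ n, n ≠ 0 → Nat.Coprime n N → ∀ m, m ≠ 0 → Nat.Coprime m N → m * n ≤ B →
      ∑ j ∈ s, a j * (mon (lam j) m * hn k (lam j) n) = 0 := by
    intro n
    induction n using Nat.strong_induction_on with
    | _ n ih =>
      intro hn0 hN m hm0 hmN hB
      rcases eq_or_ne n 1 with rfl | hn1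
      · simp only [hn_one, mul_one] at hB ⊢
        exact h m (Nat.pos_of_ne_zero hm0) hB hmN
      obtain ⟨l, hl, n', rfl⟩ := Nat.exists_prime_and_dvd hn1
      have hn' : n' ≠ 0 := right_ne_zero_of_mul hn0
      have hlt : n' < l * n' := lt_mul_of_one_lt_left (Nat.pos_of_ne_zero hn') hl.one_lt
      have h1 := ih n' hlt hn' (Nat.Coprime.coprime_mul_left hN) (m * l)
        (mul_ne_zero hm0 hl.ne_zero) (Nat.Coprime.mul_left hmN (Nat.Coprime.coprime_mul_right hN))
        (by rwa [mul_assoc])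
      have e : ∀ j, hn k (lam j) (l * n') = lam j l * hn k (lam j) n' -
          if l ∣ n' then (l : A) ^ (k - 1) * hn k (lam j) (n' / l) else 0 := fun j => by
        rw [hn_hecke k (lam j) hl hn', add_sub_cancel_right]
      simp only [mon_mul _ hm0 hl.ne_zero, mon_prime _ hl] at h1
      by_cases hd : l ∣ n'
      · have hle : n' / l ≤ n' := Nat.div_le_self _ _
        have h2 := ih (n' / l) (hle.trans_lt hlt)
          (Nat.div_pos (Nat.le_of_dvd (Nat.pos_of_ne_zero hn') hd) hl.pos).ne'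
          ((Nat.Coprime.coprime_mul_left hN).coprime_dvd_left (Nat.div_dvd_of_dvd hd)) m hm0 hmN
          ((Nat.mul_le_mul_left m (hle.trans hlt.le)).trans hB)
        rw [← sub_zero (0 : A)]
        nth_rewrite 1 [← h1]
        rw [← mul_zero ((l : A) ^ (k - 1)), ← h2, mul_sum, ← sum_sub_distrib]
        refine sum_congr rfl fun j _ => ?_
        rw [e, if_pos hd]
        ring
      · rw [← h1]
        refine sum_congr rfl fun j _ => ?_
        rw [e, if_neg hd]
        ring
  intro n hn0 hB hN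
  simpa only [mon_one, one_mul] using key n hn0 hN 1 one_ne_zero (Nat.coprime_one_left N)
    (by rwa [one_mul])

/-- Sketch: `Nat.card_divisors`, `Nat.factorization_pow`, `Nat.factorization_lt`. -/
lemma card_divisors_pow_le {N : ℕ} (hN : N ≠ 0) (e : ℕ) :
    (N ^ e).divisors.card ≤ (e * N + 1) ^ N := by
  rw [Nat.card_divisors (pow_ne_zero e hN)]
  have h1 : (N ^ e).primeFactors.card ≤ N := by
    have h2 : (N ^ e).primeFactors ⊆ Icc 1 N := fun q hq => by
      have hq' := Nat.prime_of_mem_primeFactors hq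
      exact mem_Icc.mpr ⟨hq'.pos, Nat.le_of_dvd (Nat.pos_of_ne_zero hN)
        (hq'.dvd_of_dvd_pow (Nat.dvd_of_mem_primeFactors hq))⟩
    simpa using card_le_card h2
  refine (prod_le_pow_card _ _ (e * N + 1) fun q _ => ?_).trans
    (Nat.pow_le_pow_right (Nat.succ_pos _) h1)
  rw [Nat.factorization_pow, Finsupp.smul_apply, smul_eq_mul]
  exact Nat.succ_le_succ (Nat.mul_le_mul_left e (Nat.factorization_lt q hN).le)

/-- An eigenform whose coefficients at the divisors of `N ^ e` vanish is zero. Sketch: as in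
`IsCuspSys.exists_form`: `QS.hecke`, `QS.unique`, `coeff_mul`, `exists_split`, `sturm_QS`. -/
lemma eq_zero_of_coeff {N : ℕ} [NeZero N] {k : ℕ} (hk : 1 ≤ k) {x : ℕ → ℂ}
    {f : CuspForm (Gamma0 N) (k : ℤ)} (hf : ∀ l, l.Prime → l.Coprime N → TS N k l f = x l • f)
    {a : ℕ → ℂ} (ha : QS f a) {e : ℕ} (he : k * (Gamma0 N).index < 2 ^ e)
    (h0 : ∀ m, m ∣ N ^ e → a m = 0) : f = 0 := by
  have hrel : ∀ l, l.Prime → l.Coprime N → ∀ n,
      x l * a n = a (l * n) + if l ∣ n then (l : ℂ) ^ (k - 1) * a (n / l) else 0 := by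
    intro l hl hN n
    have h1 := ha.hecke hl.pos (k : ℤ)
    have h2 : heckeFun l k f = x l • (f : UpperHalfPlane → ℂ) := by
      rw [← coe_hecke N k hl hN, ← TS_eq N k hl hN, hf l hl hN]
      rfl
    rw [h2] at h1
    have h3 := congrFun ((ha.smul (x l)).unique h1) n
    have h4 : (l : ℂ) ^ ((k : ℤ) - 1) = (l : ℂ) ^ (k - 1) := by
      rw [← zpow_natCast]
      congr 1
      omega
    rwa [h4] at h3
  have hz : (f : UpperHalfPlane → ℂ) = 0 := by
    refine sturm_QS (isCF_coe f) ha (B := 2 ^ e) (by omega) fun n hn => ?_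
    rcases eq_or_ne n 0 with rfl | hn0
    · obtain ⟨c, hc, hd⟩ := (isCF_coe f).exp_decay
      refine ha.coeff_eq_zero (c := c / (2 * Real.pi)) ?_ (by rw [Nat.cast_zero]; positivity)
      have e : ∀ y : ℝ, -2 * Real.pi * (c / (2 * Real.pi)) * y = -c * y := fun y => by
        field_simp
      simpa only [e] using hd
    · obtain ⟨m, n', rfl, hm, hN, hmn⟩ := exists_split (NeZero.ne N) hn0 hn
      rw [coeff_mul hrel (right_ne_zero_of_mul hn0) hN hmn, h0 m hm, mul_zero]
  ext z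
  exact congrFun hz z

/-- Sketch: let `a i` be the coefficients of `f i`, `e = Nat.log 2 ((κ + 2) μ) + 1`. The vectors
`(a i m)_{m ∣ N ^ e}` are linearly independent (`QS.sum`, `QS.smul`, `eq_zero_of_coeff`), so
`card ι ≤ (e N + 1) ^ N` (`LinearIndependent.fintype_card_le_finrank`); and
`e ≤ (μ + 3) Nat.log 2 κ` because `(κ + 2) μ < 2 ^ (Nat.log 2 κ + 2 + μ)`, `1 ≤ Nat.log 2 κ`. -/
theorem mult_bound (N : ℕ) [NeZero N] : ∃ C : ℕ, ∀ κ : ℕ, 2 ≤ κ →
    ∀ (ι : Type) [Fintype ι] (f : ι → CuspForm (Gamma0 N) ((κ + 2 : ℕ) : ℤ)) (x : ℕ → ℂ),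
      LinearIndependent ℂ f →
      (∀ i l, l.Prime → l.Coprime N → TS N _ l (f i) = x l • f i) →
      Fintype.card ι ≤ C * Nat.log 2 κ ^ C := by
  set μ := (Gamma0 N).index
  refine ⟨((μ + 3) * N + 1) ^ N + N, fun κ hκ ι _ f x hli hf => ?_⟩
  set e := Nat.log 2 ((κ + 2) * μ) + 1
  have he : (κ + 2) * μ < 2 ^ e := Nat.lt_pow_succ_log_self one_lt_two _
  choose a ha using fun i => exists_QS (isCF_coe (f i))
  have hind : LinearIndependent ℂ fun i (m : (N ^ e).divisors) => a i m := by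
    rw [Fintype.linearIndependent_iff] at hli ⊢
    intro c hc
    refine hli c (eq_zero_of_coeff (k := κ + 2) (x := x) (a := ∑ i, c i • a i) (e := e) (by omega)
      (fun l hl hN => ?_) ?_ he fun m hm => ?_)
    · simp only [map_sum, map_smul, hf _ l hl hN, Finset.smul_sum]
      exact sum_congr rfl fun i _ => smul_comm _ _ _
    · have h1 := QS.sum (s := univ) fun i _ => (ha i).smul (c i)
      have h2 : ((∑ i, c i • f i : CuspForm (Gamma0 N) ((κ + 2 : ℕ) : ℤ)) : UpperHalfPlane → ℂ) =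
          ∑ i, c i • (f i : UpperHalfPlane → ℂ) := gmult_coe_sum univ c f
      rwa [h2]
    · have := congrFun hc ⟨m, Nat.mem_divisors.mpr ⟨hm, pow_ne_zero e (NeZero.ne N)⟩⟩
      simpa using this
  have h1 := hind.fintype_card_le_finrank
  rw [Module.finrank_fintype_fun_eq_card, Fintype.card_coe] at h1
  have hL : 1 ≤ Nat.log 2 κ := Nat.log_pos one_lt_two hκ
  have h2 : e ≤ (μ + 3) * Nat.log 2 κ := by
    have h3 : κ < 2 ^ (Nat.log 2 κ + 1) := Nat.lt_pow_succ_log_self one_lt_two _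
    have h4 : κ + 2 < 2 ^ (Nat.log 2 κ + 2) := by
      rw [pow_succ 2 (Nat.log 2 κ + 1)]
      omega
    have h5 : (κ + 2) * μ < 2 ^ (Nat.log 2 κ + 2 + μ) := by
      rw [pow_add _ _ μ]
      exact Nat.mul_lt_mul'' h4 Nat.lt_two_pow_self
    have h6 : e ≤ Nat.log 2 κ + 2 + μ := Nat.log_lt_of_lt_pow' (by omega) h5
    nlinarith
  have h7 : e * N + 1 ≤ ((μ + 3) * N + 1) * Nat.log 2 κ := by
    have := Nat.mul_le_mul_right N h2
    nlinarith
  refine h1.trans ((card_divisors_pow_le (NeZero.ne N) e).trans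
    ((Nat.pow_le_pow_left h7 N).trans ?_))
  rw [mul_pow]
  exact Nat.mul_le_mul (Nat.le_add_right _ _) (Nat.pow_le_pow_right hL (Nat.le_add_left _ _))

end Pool.Agent.Lib.MP_88d29b_nt.G
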