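import Pool.Agent.Lib.MP_88d29b_nt.GAvg
import Pool.Agent.Lib.MP_88d29b_nt.GHecke

/-!
The Petersson product and self-adjointness of the Hecke operators.
-/

set_option autoImplicit false

noncomputable section

namespace Pool.Agent.Lib.MP_88d29b_nt.G

open Finset CongruenceSubgroup UpperHalfPlane Filter MeasureTheory
open scoped MatrixGroups ModularForm Manifold Topology ENNReal

/-- The Petersson product (conjugate linear in the first variable). -/
def pet (N : ℕ) [NeZero N] (k : ℤ) (f g : CuspForm (Gamma0 N) k) : ℂ :=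
  avgM (Gamma0 N) (petersson k f g)

/-- Sketch: `CuspFormClass.petersson_bounded_left` for `hf.mk'`, `hg.mk'`; a bounded continuous
function is integrable for a probability measure. -/
lemma integrable_pet {Γ : Subgroup SL(2, ℤ)} [Γ.FiniteIndex] (A : Subgroup SL(2, ℤ))
    [A.FiniteIndex] {k : ℤ} {f g : ℍ → ℂ} (hf : IsCF Γ k f) (hg : IsCF Γ k g) :
    Integrable (petersson k f g) (pmOf (wt A)) := by
  obtain ⟨C, hC⟩ := CuspFormClass.petersson_bounded_left k
    (Γ : Subgroup (GL (Fin 2) ℝ)) hf.mk' hg.mk'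
  exact Integrable.of_bound
    (petersson_continuous k hf.cuspy.continuous hg.cuspy.continuous).aestronglyMeasurable C
    (Eventually.of_forall hC)

/-- Sketch: `petersson_slash_SL`, `sl_SL`. -/
lemma petersson_inv {Γ : Subgroup SL(2, ℤ)} {k : ℤ} {f g : ℍ → ℂ} (hf : Inv Γ k f)
    (hg : Inv Γ k g) : ∀ a ∈ Γ, ∀ z : ℍ, petersson k f g (a • z) = petersson k f g z := by
  intro a ha z
  rw [← petersson_slash_SL, ← sl_SL, ← sl_SL, hf a ha, hg a ha]

/-- Sketch: `petersson_slash` for `f` and `sl k g δ.adjugate`, `sl_mul`, `sl_scalar`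
(`δ.adjugate * δ = δ.det • 1`). -/
lemma petersson_sl {k : ℤ} (f g : ℍ → ℂ) {δ : Mat} (hδ : 0 < δ.det) (z : ℍ) :
    petersson k (sl k f δ) g z = petersson k f (sl k g δ.adjugate) (sm δ z) := by
  have hadj : δ.adjugate.det ≠ 0 := by
    rw [Matrix.det_adjugate]
    exact pow_ne_zero _ hδ.ne'
  have h1 := petersson_slash k f (sl k g δ.adjugate) (toGL δ) z
  have h2 : (sl k g δ.adjugate) ∣[k] toGL δ = (δ.det : ℂ) ^ (k - 2) • g := by
    change sl k (sl k g δ.adjugate) δ = _
    rw [← sl_mul k g hadj hδ.ne', Matrix.adjugate_mul, sl_scalar k g hδ]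
  have hd : (δ.det : ℂ) ^ (k - 2) ≠ 0 := zpow_ne_zero _ (by exact_mod_cast hδ.ne')
  rw [h2, abs_of_pos (toGL_det_pos hδ), toGL_det hδ.ne', σ, if_pos (toGL_det_pos hδ)] at h1
  apply mul_left_cancel₀ hd
  have h3 : petersson k (f ∣[k] toGL δ) ((δ.det : ℂ) ^ (k - 2) • g) z =
      (δ.det : ℂ) ^ (k - 2) * petersson k (sl k f δ) g z := by
    simp only [petersson, sl, Pi.smul_apply, smul_eq_mul]
    ring
  rw [← h3, h1]
  simp [sm]

lemma gpet_self (k : ℤ) (f : ℍ → ℂ) (z : ℍ) :
    petersson k f f z = ((‖f z‖ ^ 2 * z.im ^ k : ℝ) : ℂ) := by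
  rw [petersson, Complex.conj_mul']
  push_cast
  rfl

lemma gpet_self_nonneg (k : ℤ) (f : ℍ → ℂ) (z : ℍ) : 0 ≤ ‖f z‖ ^ 2 * z.im ^ k :=
  mul_nonneg (sq_nonneg _) (zpow_nonneg z.im_pos.le k)

lemma gpet_adj {L : ℕ} [NeZero L] {k : ℤ} {f g : ℍ → ℂ} (hf : IsCF (Gamma L) k f)
    (hg : IsCF (Gamma L) k g) {δ : Mat} (hδ : 0 < δ.det) (hf' : Inv (Gamma L) k (sl k f δ))
    (hg' : Inv (Gamma L) k (sl k g δ.adjugate)) :
    avgM (Gamma L) (petersson k (sl k f δ) g) =
      avgM (Gamma L) (petersson k f (sl k g δ.adjugate)) := by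
  have hadj : δ.adjugate.det ≠ 0 := by
    rw [Matrix.det_adjugate]
    exact pow_ne_zero _ hδ.ne'
  rw [← avg_sm (L := L) (L' := L) hδ.ne' (petersson_continuous k hf.cuspy.continuous
    (hg.cuspy.sl hadj).continuous) (petersson_inv hf.inv hg') fun a ha z => by
      rw [← petersson_sl f g hδ, ← petersson_sl f g hδ, petersson_inv hf' hg.inv a ha]]
  congr 1
  ext z
  exact petersson_sl f g hδ z

lemma gpet_SL {L : ℕ} [NeZero L] {k : ℤ} {f g : ℍ → ℂ} (hf : IsCF (Gamma L) k f)
    (hg : IsCF (Gamma L) k g) (γ : SL(2, ℤ)) :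
    avgM (Gamma L) (petersson k (sl k f γ) (sl k g γ)) = avgM (Gamma L) (petersson k f g) := by
  have h0 : (γ : Mat).det ≠ 0 := inside_Snz ⊤ γ trivial
  have h1 : (γ : Mat).det ∣ ((1 : ℕ) : ℤ) := by
    rw [γ.det_coe]
    exact one_dvd _
  have hf' := hf.inv.sl h0 h1
  have hg' := hg.inv.sl h0 h1
  rw [mul_one] at hf' hg'
  have e : ∀ z, petersson k f g (sm γ z) = petersson k (sl k f γ) (sl k g γ) z := fun z => by
    rw [sm_SL, sl_SL, sl_SL, petersson_slash_SL]
  rw [← avg_sm (L := L) (L' := L) h0 (petersson_continuous k hf.cuspy.continuous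
    hg.cuspy.continuous) (petersson_inv hf.inv hg.inv) fun a ha z => by
      rw [e, e, petersson_inv hf' hg' a ha]]
  congr 1
  ext z
  exact (e z).symm

lemma gpet_sum_left {L : ℕ} [NeZero L] {k : ℤ} {ι : Type} [Fintype ι] {f : ι → ℍ → ℂ} {g : ℍ → ℂ}
    (hg : IsCF (Gamma L) k g) (hf : ∀ i, IsCF (Gamma L) k (f i)) :
    avgM (Gamma L) (petersson k (∑ i, f i) g) = ∑ i, avgM (Gamma L) (petersson k (f i) g) := by
  unfold avgM
  rw [← integral_finsetSum _ fun i _ => integrable_pet _ (hf i) hg]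
  refine integral_congr_ae (Eventually.of_forall fun z => ?_)
  simp only [petersson, Finset.sum_apply, map_sum, Finset.sum_mul]

lemma gpet_sum_right {L : ℕ} [NeZero L] {k : ℤ} {ι : Type} [Fintype ι] {f : ℍ → ℂ}
    {g : ι → ℍ → ℂ} (hf : IsCF (Gamma L) k f) (hg : ∀ i, IsCF (Gamma L) k (g i)) :
    avgM (Gamma L) (petersson k f (∑ i, g i)) = ∑ i, avgM (Gamma L) (petersson k f (g i)) := by
  unfold avgM
  rw [← integral_finsetSum _ fun i _ => integrable_pet _ hf (hg i)]
  refine integral_congr_ae (Eventually.of_forall fun z => ?_)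
  simp only [petersson, Finset.sum_apply, Finset.sum_mul, Finset.mul_sum]

variable {N : ℕ} [NeZero N] {k : ℤ}

lemma pet_add_left (f f' g : CuspForm (Gamma0 N) k) :
    pet N k (f + f') g = pet N k f g + pet N k f' g := by
  unfold pet avgM
  rw [← integral_add (integrable_pet _ (isCF_coe f) (isCF_coe g))
    (integrable_pet _ (isCF_coe f') (isCF_coe g))]
  refine integral_congr_ae (Eventually.of_forall fun z => ?_)
  simp only [petersson, add_apply, map_add]
  ring

lemma pet_smul_left (c : ℂ) (f g : CuspForm (Gamma0 N) k) :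
    pet N k (c • f) g = (starRingEnd ℂ) c * pet N k f g := by
  unfold pet avgM
  rw [← integral_const_mul]
  refine integral_congr_ae (Eventually.of_forall fun z => ?_)
  simp only [petersson, smul_apply, smul_eq_mul, map_mul]
  ring

lemma pet_conj_symm (f g : CuspForm (Gamma0 N) k) :
    (starRingEnd ℂ) (pet N k g f) = pet N k f g := by
  unfold pet avgM
  rw [← integral_conj]
  exact integral_congr_ae (Eventually.of_forall fun z => (petersson_symm k g f z).symm)

lemma pet_nonneg (f : CuspForm (Gamma0 N) k) : 0 ≤ (pet N k f f).re := by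
  unfold pet avgM
  simp only [gpet_self]
  rw [integral_complex_ofReal, Complex.ofReal_re]
  exact integral_nonneg fun z => gpet_self_nonneg k f z

/-- Sketch: `petersson k f f z = ‖f z‖ ^ 2 * z.im ^ k`, `eq_zero_of_avg`. -/
lemma pet_definite (f : CuspForm (Gamma0 N) k) (h : pet N k f f = 0) : f = 0 := by
  obtain ⟨C, hC⟩ := CuspFormClass.petersson_bounded_left k
    (Gamma0 N : Subgroup (GL (Fin 2) ℝ)) f f
  have hc := (isCF_coe f).cuspy.continuous
  have h0 := eq_zero_of_avg (A := Gamma0 N) (G := fun z : ℍ => ‖f z‖ ^ 2 * z.im ^ k) (C := C)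
    ?_ (gpet_self_nonneg k f) (fun z => ?_) (fun a ha z => ?_) ?_
  · ext z
    have h1 := congrFun h0 z
    have h2 : z.im ^ k ≠ 0 := zpow_ne_zero _ z.im_pos.ne'
    simpa [h2] using h1
  · exact (hc.norm.pow 2).mul (continuous_im.zpow₀ k fun z => Or.inl z.im_pos.ne')
  · have := hC z
    rw [gpet_self, Complex.norm_real] at this
    exact (le_abs_self _).trans this
  · have := petersson_inv (isCF_coe f).inv (isCF_coe f).inv a ha z
    rw [gpet_self, gpet_self] at this
    exact_mod_cast this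
  · rw [← h, pet]
    congr 1
    ext z
    rw [gpet_self]

/-- Every matrix of prime determinant `l` with lower left entry divisible by `N` lies in the double
coset of `diag(1, l)`. Sketch: `tRep_decomp`; `(1 j; 0 l) = diag(1, l) (1 j; 0 1)`; for
`diag(l, 1)` take `l d - b N = 1`, `γ⁻¹ = (1 b; N l d)`, `γ' = (l b; N d)`. -/
lemma double_coset {l : ℕ} (hl : l.Prime) (hN : l.Coprime N) (m : Mat) (hd : m.det = l)
    (hm : (N : ℤ) ∣ m 1 0) : ∃ γ ∈ Gamma0 N, ∃ γ' ∈ Gamma0 N,
      m = (γ : Mat) * !![1, 0; 0, (l : ℤ)] * (γ' : Mat) := by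
  obtain ⟨j, t, ht, rfl⟩ := tRep_decomp hl hN m hd hm
  rcases j with _ | j
  · obtain ⟨d, b, hb⟩ := Nat.isCoprime_iff_coprime.mpr hN
    have d1 : (!![l * d, b; -N, 1] : Mat).det = 1 := by
      rw [Matrix.det_fin_two_of]
      linear_combination hb
    have d2 : (!![l, -b; N, d] : Mat).det = 1 := by
      rw [Matrix.det_fin_two_of]
      linear_combination hb
    refine ⟨t * ⟨_, d1⟩, (Gamma0 N).mul_mem ht (mem_Gamma0_iff.mpr ?_), ⟨_, d2⟩,
      mem_Gamma0_iff.mpr ?_, ?_⟩
    · exact (dvd_refl (N : ℤ)).neg_right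
    · exact dvd_refl (N : ℤ)
    · rw [Matrix.SpecialLinearGroup.coe_mul, Matrix.mul_assoc, Matrix.mul_assoc]
      congr 1
      ext i j
      fin_cases i <;> fin_cases j <;> simp [tRep, Matrix.mul_apply, Fin.sum_univ_two]
      · linear_combination -(l : ℤ) * hb
      · ring
      · ring
      · linear_combination -hb
  · refine ⟨t, ht, ⟨!![1, (j : ℤ); 0, 1], ?_⟩, ?_, ?_⟩
    · rw [Matrix.det_fin_two_of]
      ring
    · rw [mem_Gamma0_iff]
      exact dvd_zero (N : ℤ)
    · rw [Matrix.mul_assoc]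
      congr 1
      ext i j
      fin_cases i <;> fin_cases j <;> simp [tRep, Matrix.mul_apply, Fin.sum_univ_two]

/-- Sketch: let `J = avgM (Gamma (N * l))`, `δ = diag(1, l)`. For `m = γ δ γ'`, `petersson_sl` with
`γ'` and `avg_sm` give `J (petersson k (sl k f m) g) = J (petersson k (sl k f δ) g)`; by
`petersson_symm` the same holds in the second variable. `petersson_sl` with `δ` and `avg_sm` give
`J (petersson k (sl k f δ) g) = J (petersson k f (sl k g δ.adjugate))`. Finally `avg_le`, `coe_TS`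
and `integral_finset_sum`. All functions are invariant under `Γ(N l)` by `Inv.sl`. -/
theorem pet_TS (l : ℕ) (f g : CuspForm (Gamma0 N) k) :
    pet N k (TS N k l f) g = pet N k f (TS N k l g) := by
  by_cases h : l.Prime ∧ Nat.Coprime l N
  swap
  · have h0 : TS N k l = 0 := by rw [TS, dif_neg h]
    have h1 : pet N k 0 g = 0 := by
      have := pet_smul_left 0 g g
      rwa [zero_smul, map_zero, zero_mul] at this
    have h2 : pet N k 0 f = 0 := by
      have := pet_smul_left 0 f f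
      rwa [zero_smul, map_zero, zero_mul] at this
    rw [h0, LinearMap.zero_apply, LinearMap.zero_apply, h1, ← pet_conj_symm, h2, map_zero]
  obtain ⟨hl, hN⟩ := h
  have : NeZero l := ⟨hl.ne_zero⟩
  have hl0 : (0 : ℤ) < l := by exact_mod_cast hl.pos
  have hle : Gamma (N * l) ≤ Gamma N := Gamma_le_of_dvd (dvd_mul_right N l)
  have hle0 : Gamma (N * l) ≤ Gamma0 N := hle.trans (Gamma_le_Gamma0 N)
  have key : ∀ u v : CuspForm (Gamma0 N) k,
      pet N k u v = avgM (Gamma (N * l)) (petersson k u v) := fun u v =>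
    (avg_le hle0 (petersson_continuous k (isCF_coe u).cuspy.continuous
      (isCF_coe v).cuspy.continuous) (petersson_inv (isCF_coe u).inv (isCF_coe v).inv)).symm
  have hcf : ∀ (u : CuspForm (Gamma0 N) k) (m : Mat), m.det = l →
      IsCF (Gamma (N * l)) k (sl k u m) := fun u m hm =>
    ((isCF_coe u).mono (Gamma_le_Gamma0 N)).sl (by rw [hm]; exact hl0.ne') (by rw [hm])
  have hf := (isCF_coe f).mono hle0
  have hg := (isCF_coe g).mono hle0
  have hdδ : (!![1, 0; 0, (l : ℤ)] : Mat).det = l := by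
    rw [Matrix.det_fin_two_of]
    ring
  have hc : ∀ m : Mat, m.det = l → (N : ℤ) ∣ m 1 0 →
      avgM (Gamma (N * l)) (petersson k f (sl k g m)) =
        avgM (Gamma (N * l)) (petersson k f (sl k g !![1, 0; 0, (l : ℤ)])) := by
    intro m hd hm
    obtain ⟨γ, hγ, γ', hγ', rfl⟩ := double_coset hl hN m hd hm
    have hδ0 : (!![1, 0; 0, (l : ℤ)] : Mat).det ≠ 0 := by
      rw [hdδ]
      exact hl0.ne'
    rw [sl_mul k g (Snz.mul_mem (inside_Snz ⊤ γ trivial) hδ0) (inside_Snz ⊤ γ' trivial),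
      sl_mul k g (inside_Snz ⊤ γ trivial) hδ0, (isCF_coe g).inv γ hγ,
      ← gpet_SL hf (hcf g _ hdδ) γ', (isCF_coe f).inv γ' hγ']
  have hadj : ∀ i, (tRep l i).adjugate.det = l := fun i => by
    rw [Matrix.det_adjugate, det_tRep]
    simp
  have hlow : ∀ i, tRep l i 1 0 = 0 := fun i => by cases i <;> rfl
  have hlow' : ∀ i, (tRep l i).adjugate 1 0 = 0 := fun i => by
    rw [Matrix.adjugate_fin_two]
    exact neg_eq_zero.mpr (hlow i)
  rw [key, key, coe_TS N k hl hN, coe_TS N k hl hN,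
    gpet_sum_left hg fun i => hcf f _ (det_tRep l i),
    gpet_sum_right hf fun i => hcf g _ (det_tRep l i)]
  refine Finset.sum_congr rfl fun i _ => ?_
  rw [gpet_adj hf hg (by rw [det_tRep]; exact hl0) (hcf f _ (det_tRep l i)).inv
    (hcf g _ (hadj i)).inv, hc _ (hadj i) (by rw [hlow']; exact dvd_zero _),
    hc _ (det_tRep l i) (by rw [hlow]; exact dvd_zero _)]

end Pool.Agent.Lib.MP_88d29b_nt.G
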