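import Pool.Agent.Lib.MP_88d29b_nt.GCoh

/-!
The polynomial modules and the Hecke operators `T_l` on the cohomology of `Γ_0(N)`.
-/

set_option autoImplicit false

noncomputable section

namespace Pool.Agent.Lib.MP_88d29b_nt.G

open Finset CongruenceSubgroup Polynomial
open scoped MatrixGroups

lemma vact_apply {R : Type*} [CommRing R] (κ : ℕ) (g : Mat) (v : Vk R κ) (m : Fin (κ + 1)) :
    vact R κ g v m = ∑ n, (actMat κ g m n : R) * v n := by
  simp [vact, Matrix.toLin'_apply, Matrix.mulVec, dotProduct]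

lemma natDegree_lin_le (a b : ℤ) : (C a * X + C b : ℤ[X]).natDegree ≤ 1 := natDegree_linear_le

lemma homog_sum {R : Type*} [CommRing R] (a b c d : ℤ) (n m : ℕ) (x y : R) :
    ∑ j ∈ range (n + m + 1), ((((C a * X + C b) ^ n * (C c * X + C d) ^ m : ℤ[X]).coeff j : ℤ) : R)
      * x ^ j * y ^ (n + m - j) = (a * x + b * y) ^ n * (c * x + d * y) ^ m := by
  have key : ∀ (p : ℤ[X]) (e : ℕ) (a b : ℤ), p.natDegree ≤ e →
      ∑ j ∈ range (e + 1 + 1), (((p * (C a * X + C b)).coeff j : ℤ) : R) * x ^ j * y ^ (e + 1 - j) =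
      (∑ j ∈ range (e + 1), ((p.coeff j : ℤ) : R) * x ^ j * y ^ (e - j)) * (a * x + b * y) := by
    intro p e a b hp
    have h1 : ∀ j, (p * (C a * X + C b)).coeff (j + 1) = p.coeff j * a + p.coeff (j + 1) * b := by
      intro j
      rw [mul_add, coeff_add, ← mul_assoc, coeff_mul_X, coeff_mul_C, coeff_mul_C]
    have h0 : (p * (C a * X + C b)).coeff 0 = p.coeff 0 * b := by simp
    rw [mul_add _ ((a : R) * x), Finset.sum_mul, Finset.sum_mul, Finset.sum_range_succ' _ (e + 1)]
    simp only [h1, h0, Int.cast_add, Int.cast_mul, add_mul, Finset.sum_add_distrib]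
    rw [add_assoc]
    congr 1
    · refine Finset.sum_congr rfl fun j _ => ?_
      rw [show e + 1 - (j + 1) = e - j by omega]
      ring
    · rw [Finset.sum_range_succ, coeff_eq_zero_of_natDegree_lt (by omega : p.natDegree < e + 1),
        Finset.sum_range_succ' _ e]
      simp only [Int.cast_zero, zero_mul, add_zero, pow_zero, mul_one, Nat.sub_zero]
      congr 1
      · refine Finset.sum_congr rfl fun j hj => ?_
        have := Finset.mem_range.mp hj
        rw [show e + 1 - (j + 1) = (e - (j + 1)) + 1 by omega]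
        ring
      · ring
  induction m with
  | zero =>
    simp only [pow_zero, mul_one, add_zero]
    induction n with
    | zero => simp
    | succ n ih =>
      rw [pow_succ, key _ n a b ((natDegree_pow_le_of_le n (natDegree_lin_le a b)).trans
        (by omega)), ih, pow_succ]
  | succ m ih =>
    have hd : ((C a * X + C b) ^ n * (C c * X + C d) ^ m : ℤ[X]).natDegree ≤ n + m :=
      natDegree_mul_le.trans (add_le_add
        ((natDegree_pow_le_of_le n (natDegree_lin_le a b)).trans (by omega))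
        ((natDegree_pow_le_of_le m (natDegree_lin_le c d)).trans (by omega)))
    rw [pow_succ, ← mul_assoc, ← add_assoc n m 1, key _ (n + m) c d hd, ih, pow_succ]
    ring

lemma ev2_vact {R : Type*} [CommRing R] (κ : ℕ) (g : Mat) (v : Vk R κ) (x y : R) :
    ev2 (vact R κ g v) x y =
      ev2 v (g 0 0 * x + g 0 1 * y) (g 1 0 * x + g 1 1 * y) := by
  simp only [ev2, vact_apply, Finset.sum_mul]
  rw [Finset.sum_comm]
  refine Finset.sum_congr rfl fun n _ => ?_
  have hn : (n : ℕ) + (κ - n) = κ := by have := n.2; omega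
  have := homog_sum (g 0 0) (g 0 1) (g 1 0) (g 1 1) n (κ - n) x y
  rw [hn] at this
  rw [mul_assoc (v n), ← this, Finset.mul_sum, ← Fin.sum_univ_eq_sum_range
    (fun j => v n * (((((C (g 0 0) * X + C (g 0 1)) ^ (n : ℕ) *
      (C (g 1 0) * X + C (g 1 1)) ^ (κ - n) : ℤ[X]).coeff j : ℤ) : R) * x ^ j * y ^ (κ - j)))]
  refine Finset.sum_congr rfl fun m _ => ?_
  simp only [actMat]
  ring

lemma ev2_add {R : Type*} [CommRing R] {κ : ℕ} (v w : Vk R κ) (x y : R) :
    ev2 (v + w) x y = ev2 v x y + ev2 w x y := by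
  simp [ev2, add_mul, Finset.sum_add_distrib]

lemma ev2_sub {R : Type*} [CommRing R] {κ : ℕ} (v w : Vk R κ) (x y : R) :
    ev2 (v - w) x y = ev2 v x y - ev2 w x y := by
  simp [ev2, sub_mul, Finset.sum_sub_distrib]

lemma ev2_smul {R : Type*} [CommRing R] {κ : ℕ} (a : R) (v : Vk R κ) (x y : R) :
    ev2 (a • v) x y = a * ev2 v x y := by
  simp [ev2, Finset.mul_sum, mul_assoc]

lemma ev2_sum {R ι : Type*} [CommRing R] {κ : ℕ} (s : Finset ι) (v : ι → Vk R κ) (x y : R) :
    ev2 (∑ i ∈ s, v i) x y = ∑ i ∈ s, ev2 (v i) x y := by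
  simp only [ev2, Finset.sum_apply, Finset.sum_mul]
  exact Finset.sum_comm

lemma ev2_scale {R : Type*} [CommRing R] {κ : ℕ} (v : Vk R κ) (t x y : R) :
    ev2 v (t * x) (t * y) = t ^ κ * ev2 v x y := by
  simp only [ev2, Finset.mul_sum]
  refine Finset.sum_congr rfl fun j _ => ?_
  have hj : t ^ κ = t ^ (j : ℕ) * t ^ (κ - j) := by
    rw [← pow_add]
    congr 1
    have := j.2
    omega
  rw [mul_pow, mul_pow, hj]
  ring

/-- A vector is determined by its values at the points `(x, 1)`. -/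
lemma ev2_ext {R : Type*} [CommRing R] [IsDomain R] [Infinite R] {κ : ℕ} {v w : Vk R κ}
    (h : ∀ x, ev2 v x 1 = ev2 w x 1) : v = w := by
  have h0 : (∑ j : Fin (κ + 1), monomial (j : ℕ) (v j - w j) : R[X]) = 0 := by
    apply Polynomial.funext
    intro x
    have := h x
    simp only [ev2, one_pow, mul_one] at this
    simp only [eval_finsetSum, eval_monomial, eval_zero, sub_mul, Finset.sum_sub_distrib, this,
      sub_self]
  ext m
  have := congrArg (fun p => coeff p m) h0
  simp only [finsetSum_coeff, coeff_monomial, coeff_zero, Fin.val_inj, Finset.sum_ite_eq',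
    Finset.mem_univ, if_true] at this
  exact sub_eq_zero.mp this

lemma actMat_eq_of {κ : ℕ} {A B : Matrix (Fin (κ + 1)) (Fin (κ + 1)) ℤ}
    (h : ∀ v x, ev2 (A.mulVec v) x 1 = ev2 (B.mulVec v) x 1) : A = B := by
  apply Matrix.toLin'.injective
  ext1 n
  ext1
  simp only [LinearMap.comp_apply, Matrix.toLin'_apply]
  exact ev2_ext (h _)

lemma vact_int (κ : ℕ) (g : Mat) (v : Vk ℤ κ) : vact ℤ κ g v = (actMat κ g).mulVec v := by
  ext m
  simp [vact_apply, Matrix.mulVec, dotProduct]

lemma actMat_one (κ : ℕ) : actMat κ 1 = 1 := actMat_eq_of fun v x => by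
  rw [← vact_int, ev2_vact]
  simp

lemma actMat_mul (κ : ℕ) (g g' : Mat) : actMat κ (g * g') = actMat κ g' * actMat κ g :=
  actMat_eq_of fun v x => by
    rw [← Matrix.mulVec_mulVec, ← vact_int, ← vact_int, ← vact_int, ev2_vact, ev2_vact, ev2_vact]
    simp only [Matrix.mul_apply, Fin.sum_univ_two, Int.cast_id]
    congr 1 <;> ring

lemma actMat_neg {κ : ℕ} (hκ : Even κ) (g : Mat) : actMat κ (-g) = actMat κ g :=
  actMat_eq_of fun v x => by
    rw [← vact_int, ← vact_int, ev2_vact, ev2_vact]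
    have := ev2_scale v (-1) (g 0 0 * x + g 0 1 * 1) (g 1 0 * x + g 1 1 * 1)
    rw [hκ.neg_one_pow, one_mul] at this
    simp only [Matrix.neg_apply, Int.cast_id]
    rw [← this]
    congr 1 <;> ring

lemma vact_one (R : Type*) [CommRing R] (κ : ℕ) : vact R κ 1 = LinearMap.id := by
  rw [vact, actMat_one, Matrix.map_one _ Int.cast_zero Int.cast_one, Matrix.toLin'_one]

lemma vact_mul (R : Type*) [CommRing R] (κ : ℕ) (g g' : Mat) :
    vact R κ (g * g') = vact R κ g' ∘ₗ vact R κ g := by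
  rw [vact, actMat_mul, vact, vact, ← Matrix.toLin'_mul]
  congr 1
  exact Matrix.map_mul (f := Int.castRingHom R)

lemma isAct_vact (R : Type*) [CommRing R] {κ : ℕ} (hκ : Even κ) (S : Submonoid Mat) :
    IsAct S (vact R κ) :=
  ⟨vact_one R κ, fun g _ g' _ => vact_mul R κ g g', fun g _ => by rw [vact, actMat_neg hκ, vact]⟩

lemma neg_one_mem_Gamma0 (N : ℕ) : (-1 : SL(2, ℤ)) ∈ Gamma0 N := by
  simp [Gamma0_mem]

lemma mem_Gamma0_iff {N : ℕ} {g : SL(2, ℤ)} : g ∈ Gamma0 N ↔ (N : ℤ) ∣ g 1 0 := by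
  rw [Gamma0_mem, ZMod.intCast_zmod_eq_zero_iff_dvd]

end Pool.Agent.Lib.MP_88d29b_nt.G
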