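import Pool.Agent.Lib.MP_88d29b_nt.GSl

/-!
Eichler integrals: primitives of `f(s) (s Y - X) ^ κ`.
-/

set_option autoImplicit false

noncomputable section

namespace Pool.Agent.Lib.MP_88d29b_nt.G

open Finset CongruenceSubgroup UpperHalfPlane Filter Asymptotics
open scoped MatrixGroups ModularForm Manifold Topology ComplexConjugate

/-- The coefficient vector of `(s Y - X) ^ κ`. -/
def wv (κ : ℕ) (s : ℂ) : Vk ℂ κ := fun j => (κ.choose j : ℂ) * (-1) ^ (j : ℕ) * s ^ (κ - j)

/-- `P` is a primitive of `f(s) (s Y - X) ^ κ`. -/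
def IsPrim (κ : ℕ) (f : ℍ → ℂ) (P : ℍ → Vk ℂ κ) : Prop :=
  ∀ z : ℍ, HasDerivAt (fun s : ℂ => P (ofComplex s)) (f z • wv κ z) z

variable {κ : ℕ} {f f' : ℍ → ℂ} {P P' : ℍ → Vk ℂ κ}

/-- Sketch: `add_pow` for `(-x + s y) ^ κ`, `Fin.sum_univ_eq_sum_range`. -/
lemma ev2_wv (κ : ℕ) (s x y : ℂ) : ev2 (wv κ s) x y = (s * y - x) ^ κ := by
  rw [sub_eq_neg_add, add_pow, ← Fin.sum_univ_eq_sum_range
    (fun m => (-x) ^ m * (s * y) ^ (κ - m) * (κ.choose m : ℂ))]
  refine Finset.sum_congr rfl fun j _ => ?_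
  rw [wv, neg_pow x, mul_pow]
  ring

lemma gprim_open : IsOpen {s : ℂ | 0 < s.im} := isOpen_lt continuous_const Complex.continuous_im

lemma gprim_in {w : ℂ} (hw : ‖w‖ < 1) : 0 < (Complex.I * (1 + w) / (1 - w)).im := by
  have h1 : 1 - w ≠ 0 := fun h => by
    rw [← sub_eq_zero.1 h, norm_one] at hw
    exact lt_irrefl _ hw
  have h2 : w.re * w.re + w.im * w.im < 1 := by
    rw [← Complex.normSq_apply, Complex.normSq_eq_norm_sq]
    exact pow_lt_one₀ (norm_nonneg w) hw two_ne_zero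
  rw [Complex.div_im, ← sub_div]
  refine div_pos ?_ (Complex.normSq_pos.2 h1)
  simp
  nlinarith

lemma gprim_out {s : ℂ} (hs : 0 < s.im) :
    s + Complex.I ≠ 0 ∧ ‖(s - Complex.I) / (s + Complex.I)‖ < 1 := by
  have h1 : s + Complex.I ≠ 0 := fun h => by
    have := congrArg Complex.im h
    simp at this
    linarith
  refine ⟨h1, ?_⟩
  rw [norm_div, div_lt_one (norm_pos_iff.2 h1), ← sq_lt_sq₀ (norm_nonneg _) (norm_nonneg _),
    ← Complex.normSq_eq_norm_sq, ← Complex.normSq_eq_norm_sq, Complex.normSq_apply,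
    Complex.normSq_apply]
  simp
  nlinarith

/-- Sketch: the upper half plane is the increasing union of the discs `ball (n i) n`, `n ≥ 2`, which
contain `i`. On each disc take the primitive vanishing at `i` (`DifferentiableOn.isExactOn_ball`,
`Complex.IsExactOn.with_val_at`); two of them agree on the smaller disc
(`IsOpen.eqOn_of_deriv_eq` / `Convex.eqOn_of_fderivWithin_eq`). Alternatively prove directly that
`s ↦ ∫ t in 0..1, (s - i) • h(i + t (s - i))` is a primitive, or transport a disc by the Cayley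
map. -/
theorem exists_primitive {h : ℂ → ℂ} (hh : DifferentiableOn ℂ h {s | 0 < s.im}) :
    ∃ H : ℂ → ℂ, ∀ s : ℂ, 0 < s.im → HasDerivAt H (h s) s := by
  have h1 : DifferentiableOn ℂ
      (fun w : ℂ => h (Complex.I * (1 + w) / (1 - w)) * (2 * Complex.I / (1 - w) ^ 2))
      (Metric.ball 0 1) := by
    have h0 : ∀ w ∈ Metric.ball (0 : ℂ) 1, 1 - w ≠ 0 := fun w hw h => by
      rw [mem_ball_zero_iff, ← sub_eq_zero.1 h, norm_one] at hw
      exact lt_irrefl _ hw
    refine DifferentiableOn.mul (hh.comp (DifferentiableOn.div (by fun_prop) (by fun_prop) h0)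
      fun w hw => gprim_in (mem_ball_zero_iff.1 hw))
      (DifferentiableOn.div (by fun_prop) (by fun_prop) fun w hw => pow_ne_zero 2 (h0 w hw))
  obtain ⟨G, hG⟩ := h1.isExactOn_ball
  refine ⟨fun s => G ((s - Complex.I) / (s + Complex.I)), fun s hs => ?_⟩
  obtain ⟨h2, h3⟩ := gprim_out hs
  have h4 := (hG _ (mem_ball_zero_iff.2 h3)).comp s
    (((hasDerivAt_id s).sub_const Complex.I).div ((hasDerivAt_id s).add_const Complex.I) h2)
  have h5 : 1 - (s - Complex.I) / (s + Complex.I) = 2 * Complex.I / (s + Complex.I) := by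
    field_simp
    ring
  have h6 : Complex.I * (1 + (s - Complex.I) / (s + Complex.I)) /
      (2 * Complex.I / (s + Complex.I)) = s := by
    field_simp
    ring
  refine h4.congr_deriv ?_
  simp only [id, h5, h6]
  field_simp
  ring

/-- Sketch: `exists_primitive` for each coordinate, `hasDerivAt_pi`,
`UpperHalfPlane.mdifferentiable_iff`, `eventuallyEq_coe_comp_ofComplex`. -/
theorem exists_isPrim (κ : ℕ) (hf : MDifferentiable 𝓘(ℂ) 𝓘(ℂ) f) : ∃ P, IsPrim κ f P := by
  have h1 : ∀ j : Fin (κ + 1), ∃ H : ℂ → ℂ, ∀ s : ℂ, 0 < s.im →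
      HasDerivAt H (f (ofComplex s) * wv κ s j) s := fun j =>
    exists_primitive ((UpperHalfPlane.mdifferentiable_iff.1 hf).mul (by unfold wv; fun_prop))
  choose H hH using h1
  refine ⟨fun z j => H j z, fun z => hasDerivAt_pi.2 fun j => ?_⟩
  have h2 := hH j z z.im_pos
  rw [ofComplex_apply] at h2
  exact h2.congr_of_eventuallyEq ((eventuallyEq_coe_comp_ofComplex z.im_pos).fun_comp (H j))

lemma IsPrim.gprim_at (h : IsPrim κ f P) {s : ℂ} (hs : 0 < s.im) :
    HasDerivAt (fun s : ℂ => P (ofComplex s)) (f ⟨s, hs⟩ • wv κ s) s := h ⟨s, hs⟩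

/-- Sketch: `IsOpen.is_const_of_deriv_eq_zero` or `Convex.is_const_of_fderivWithin_eq_zero` on the
convex set `{s | 0 < s.im}`. -/
theorem IsPrim.unique (h : IsPrim κ f P) (h' : IsPrim κ f P') : ∃ v, ∀ z, P z = P' z + v := by
  have h1 : ∀ s : ℂ, 0 < s.im →
      HasDerivAt (fun s : ℂ => P (ofComplex s) - P' (ofComplex s)) 0 s := fun s hs =>
    ((h.gprim_at hs).sub (h'.gprim_at hs)).congr_deriv (sub_self _)
  obtain ⟨v, hv⟩ := gprim_open.exists_is_const_of_deriv_eq_zero
    (convex_halfSpace_im_gt 0).isPreconnected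
    (fun s hs => (h1 s hs).differentiableAt.differentiableWithinAt) fun s hs => (h1 s hs).deriv
  refine ⟨v, fun z => ?_⟩
  have h2 := hv z z.im_pos
  rw [ofComplex_apply] at h2
  exact eq_add_of_sub_eq' h2

lemma IsPrim.add (h : IsPrim κ f P) (h' : IsPrim κ f' P') : IsPrim κ (f + f') (P + P') := by
  exact fun z => ((h z).add (h' z)).congr_deriv (add_smul _ _ _).symm

lemma IsPrim.smul (c : ℂ) (h : IsPrim κ f P) : IsPrim κ (c • f) (c • P) := by
  exact fun z => ((h z).const_smul c).congr_deriv (smul_assoc _ _ _).symm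

lemma isPrim_const (κ : ℕ) (v : Vk ℂ κ) : IsPrim κ 0 (fun _ => v) := by
  exact fun z => (hasDerivAt_const _ v).congr_deriv (zero_smul _ _).symm

lemma IsPrim.sum {ι : Type*} {s : Finset ι} {F : ι → ℍ → ℂ} {Q : ι → ℍ → Vk ℂ κ}
    (h : ∀ i ∈ s, IsPrim κ (F i) (Q i)) : IsPrim κ (∑ i ∈ s, F i) (∑ i ∈ s, Q i) := by
  classical
  induction s using Finset.induction_on with
  | empty => exact isPrim_const κ 0
  | insert i s hi ih =>
    rw [Finset.sum_insert hi, Finset.sum_insert hi]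
    exact (h i (Finset.mem_insert_self i s)).add (ih fun j hj => h j (Finset.mem_insert_of_mem hj))

lemma IsPrim.continuous (h : IsPrim κ f P) : Continuous P := by
  refine continuous_iff_continuousAt.2 fun z => ?_
  have h1 := (h z).continuousAt.comp (f := ((↑) : ℍ → ℂ)) continuous_coe.continuousAt
  simpa only [Function.comp_def, ofComplex_apply] using h1

lemma IsPrim.analyticAt (h : IsPrim κ f P) (j : Fin (κ + 1)) {s : ℂ} (hs : 0 < s.im) :
    AnalyticAt ℂ (fun s : ℂ => P (ofComplex s) j) s := by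
  refine DifferentiableOn.analyticAt (fun s hs => ?_) (gprim_open.mem_nhds hs)
  exact (hasDerivAt_pi.1 (h.gprim_at hs) j).differentiableAt.differentiableWithinAt

/-- Sketch: `ev2_ext`, `ev2_vact`, `ev2_wv`, `coe_sm`. -/
lemma vact_wv (κ : ℕ) {g : Mat} (hg : 0 < g.det) (z : ℍ) :
    vact ℂ κ g (wv κ (sm g z)) = ((g.det : ℂ) / (g 1 0 * z + g 1 1)) ^ κ • wv κ z := by
  refine ev2_ext fun x => ?_
  have h1 := den_ne_zero hg.ne' z
  rw [ev2_vact, ev2_smul, ev2_wv, ev2_wv, ← mul_pow, coe_sm hg, Matrix.det_fin_two]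
  congr 1
  push_cast
  rw [div_mul_eq_mul_div, div_mul_eq_mul_div, div_sub' h1]
  congr 1
  ring

/-- Sketch: chain rule with `s ↦ (a s + b) / (c s + d)` (derivative `det / (c s + d) ^ 2`, or
`UpperHalfPlane.hasStrictDerivAt_smul`), the linear map `vact` is continuous
(`LinearMap.toContinuousLinearMap`), `vact_wv`, `sl_apply`. -/
theorem IsPrim.fsl (h : IsPrim κ f P) {g : Mat} (hg : 0 < g.det) :
    IsPrim κ (sl ((κ + 2 : ℕ) : ℤ) f g) (fsl (vact ℂ κ) sm P g) := by
  intro z
  have h0 := den_ne_zero hg.ne' z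
  have h1 : HasDerivAt (fun s : ℂ => ((g 0 0 : ℂ) * s + g 0 1) / (g 1 0 * s + g 1 1))
      ((g.det : ℂ) / (g 1 0 * z + g 1 1) ^ 2) z := by
    refine ((((hasDerivAt_id (z : ℂ)).const_mul _).add_const _).div
      (((hasDerivAt_id (z : ℂ)).const_mul _).add_const _) h0).congr_deriv ?_
    rw [Matrix.det_fin_two]
    simp only [id]
    push_cast
    ring
  have h2 := h (sm g z)
  rw [coe_sm hg, ← coe_sm hg z] at h2
  have h3 := (vact ℂ κ g).toContinuousLinearMap.hasFDerivAt.comp_hasDerivAt (z : ℂ)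
    (h2.scomp_of_eq (z : ℂ) h1 (coe_sm hg z))
  refine (h3.congr_deriv ?_).congr_of_eventuallyEq ?_
  · have h4 : (g.det : ℂ) ≠ 0 := by exact_mod_cast hg.ne'
    rw [LinearMap.coe_toContinuousLinearMap', map_smul, map_smul, vact_wv κ hg, smul_smul,
      smul_smul, sl_apply _ _ hg,
      show ((κ + 2 : ℕ) : ℤ) - 1 = ((κ + 1 : ℕ) : ℤ) by push_cast; ring, zpow_neg, zpow_natCast,
      zpow_natCast, div_pow]
    congr 1
    field_simp
    ring
  · filter_upwards [gprim_open.mem_nhds z.im_pos] with s hs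
    simp only [G.fsl, Function.comp, LinearMap.coe_toContinuousLinearMap',
      ofComplex_apply_of_im_pos hs, sm_eq_ofComplex hg]

end Pool.Agent.Lib.MP_88d29b_nt.G
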