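import Pool.Agent.Lib.MP_88d29b_nt.GComm

/-!
Integer matrices acting on the upper half plane and on functions on it; cusp forms as functions.
-/

set_option autoImplicit false

noncomputable section

namespace Pool.Agent.Lib.MP_88d29b_nt.G

open Finset CongruenceSubgroup UpperHalfPlane
open scoped MatrixGroups ModularForm Manifold

/-- An integer matrix of nonzero determinant as an element of `GL(2, ℝ)`. -/
def toGL (g : Mat) : GL (Fin 2) ℝ :=
  if h : g.det = 0 then 1 else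
    Matrix.GeneralLinearGroup.mkOfDetNeZero (g.map (Int.cast : ℤ → ℝ)) (by
      rw [← Int.cast_det]
      exact_mod_cast h)

/-- The action of an integer matrix on the upper half plane. -/
def sm (g : Mat) (z : ℍ) : ℍ := toGL g • z

/-- The weight `k` action of an integer matrix on functions on the upper half plane. -/
def sl (k : ℤ) (f : ℍ → ℂ) (g : Mat) : ℍ → ℂ := f ∣[k] toGL g

/-- Matrices of nonzero determinant. -/
def Snz : Submonoid Mat where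
  carrier := {g | g.det ≠ 0}
  one_mem' := by simp
  mul_mem' := by
    intro a b ha hb
    simp only [Set.mem_ofPred_eq, Matrix.det_mul] at *
    exact mul_ne_zero ha hb

lemma mem_Snz {g : Mat} : g ∈ Snz ↔ g.det ≠ 0 := Iff.rfl

lemma inside_Snz (Γ : Subgroup SL(2, ℤ)) : Inside Γ Snz := fun g _ => by
  rw [mem_Snz, g.det_coe]
  exact one_ne_zero

lemma val_toGL {g : Mat} (h : g.det ≠ 0) : (toGL g).val = g.map (Int.cast : ℤ → ℝ) := by
  rw [toGL, dif_neg h]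
  rfl

lemma toGL_apply {g : Mat} (h : g.det ≠ 0) (i j : Fin 2) : toGL g i j = (g i j : ℝ) := by
  rw [val_toGL h]
  rfl

lemma toGL_det {g : Mat} (h : g.det ≠ 0) : (toGL g).det.val = (g.det : ℝ) := by
  rw [Matrix.GeneralLinearGroup.val_det_apply, val_toGL h, ← Int.cast_det]

lemma toGL_det_pos {g : Mat} (h : 0 < g.det) : 0 < (toGL g).det.val := by
  rw [toGL_det h.ne']
  exact_mod_cast h

lemma toGL_mul {g g' : Mat} (h : g.det ≠ 0) (h' : g'.det ≠ 0) :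
    toGL (g * g') = toGL g * toGL g' := by
  apply Units.ext
  rw [Units.val_mul, val_toGL h, val_toGL h', val_toGL (Snz.mul_mem h h')]
  exact Matrix.map_mul (f := Int.castRingHom ℝ)

lemma toGL_SL (γ : SL(2, ℤ)) : toGL (γ : Mat) = Matrix.SpecialLinearGroup.mapGL ℝ γ := by
  apply Units.ext
  rw [val_toGL (inside_Snz ⊤ γ trivial)]
  rfl

lemma toGL_one : toGL 1 = 1 := by
  have := toGL_SL 1
  rwa [map_one] at this

lemma sm_SL (γ : SL(2, ℤ)) (z : ℍ) : sm (γ : Mat) z = γ • z := by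
  rw [sm, toGL_SL]
  rfl

lemma sl_SL (k : ℤ) (f : ℍ → ℂ) (γ : SL(2, ℤ)) : sl k f (γ : Mat) = f ∣[k] γ := by
  rw [sl, toGL_SL]
  rfl

lemma sm_one (z : ℍ) : sm 1 z = z := by rw [sm, toGL_one, one_smul]

lemma sm_mul {g g' : Mat} (h : g.det ≠ 0) (h' : g'.det ≠ 0) (z : ℍ) :
    sm (g * g') z = sm g (sm g' z) := by
  rw [sm, toGL_mul h h', mul_smul, sm, sm]

lemma isSm_sm : IsSm Snz sm where
  map_mul _ hg _ hg' x := sm_mul hg hg' x
  map_neg_one x := by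
    have := sm_SL (-1) x
    rw [ModularGroup.SL_neg_smul, one_smul] at this
    exact this

lemma denom_toGL {g : Mat} (h : g.det ≠ 0) (z : ℂ) : denom (toGL g) z = g 1 0 * z + g 1 1 := by
  simp [denom, toGL_apply h]

lemma den_ne_zero {g : Mat} (h : g.det ≠ 0) (z : ℍ) : (g 1 0 : ℂ) * z + g 1 1 ≠ 0 := by
  rw [← denom_toGL h]
  exact denom_ne_zero _ z

lemma coe_sm {g : Mat} (h : 0 < g.det) (z : ℍ) :
    (sm g z : ℂ) = (g 0 0 * z + g 0 1) / (g 1 0 * z + g 1 1) := by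
  rw [sm, coe_smul_of_det_pos (toGL_det_pos h), denom_toGL h.ne']
  simp [num, toGL_apply h.ne']

lemma sm_eq_ofComplex {g : Mat} (h : 0 < g.det) (z : ℍ) :
    sm g z = ofComplex ((g 0 0 * z + g 0 1) / (g 1 0 * z + g 1 1)) := by
  rw [← coe_sm h, ofComplex_apply]

lemma im_sm {g : Mat} (h : 0 < g.det) (z : ℍ) :
    (sm g z).im = g.det * z.im / Complex.normSq (g 1 0 * z + g 1 1) := by
  rw [sm, im_smul_eq_div_normSq, abs_of_pos (toGL_det_pos h), toGL_det h.ne', denom_toGL h.ne']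

lemma continuous_sm (g : Mat) : Continuous (sm g) := continuous_const_smul (toGL g)

lemma sl_apply (k : ℤ) (f : ℍ → ℂ) {g : Mat} (h : 0 < g.det) (z : ℍ) :
    sl k f g z = f (sm g z) * (g.det : ℂ) ^ (k - 1) * ((g 1 0 : ℂ) * z + g 1 1) ^ (-k) := by
  rw [sl, ModularForm.slash_apply, abs_of_pos (toGL_det_pos h), toGL_det h.ne', denom_toGL h.ne',
    σ, if_pos (toGL_det_pos h)]
  simp [sm]

lemma sl_one (k : ℤ) (f : ℍ → ℂ) : sl k f 1 = f := by rw [sl, toGL_one, SlashAction.slash_one]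

lemma sl_mul (k : ℤ) (f : ℍ → ℂ) {g g' : Mat} (h : g.det ≠ 0) (h' : g'.det ≠ 0) :
    sl k f (g * g') = sl k (sl k f g) g' := by
  rw [sl, toGL_mul h h', SlashAction.slash_mul, sl, sl]

lemma sl_zero (k : ℤ) (g : Mat) : sl k 0 g = 0 := SlashAction.zero_slash _ _

lemma sl_add (k : ℤ) (f f' : ℍ → ℂ) (g : Mat) : sl k (f + f') g = sl k f g + sl k f' g :=
  SlashAction.add_slash _ _ _ _

lemma sl_sum {ι : Type*} (k : ℤ) (s : Finset ι) (f : ι → ℍ → ℂ) (g : Mat) :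
    sl k (∑ i ∈ s, f i) g = ∑ i ∈ s, sl k (f i) g := SlashAction.sum_slash _ _

lemma sl_smul (k : ℤ) (c : ℂ) (f : ℍ → ℂ) {g : Mat} (h : 0 < g.det) :
    sl k (c • f) g = c • sl k f g := by
  ext z
  simp only [sl_apply k _ h, Pi.smul_apply, smul_eq_mul]
  ring

/-- The action of an upper triangular matrix with positive diagonal. -/
lemma sl_upper (k : ℤ) (f : ℍ → ℂ) {a d : ℤ} (b : ℤ) (ha : 0 < a) (hd : 0 < d) (z : ℍ) :
    sl k f !![a, b; 0, d] z = (a : ℂ) ^ (k - 1) / d * f (ofComplex ((a * z + b) / d)) := by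
  have h : 0 < (!![a, b; 0, d] : Mat).det := by
    rw [Matrix.det_fin_two_of]
    simpa using mul_pos ha hd
  have hd' : (d : ℂ) ≠ 0 := by exact_mod_cast hd.ne'
  rw [sl_apply k f h, sm_eq_ofComplex h, Matrix.det_fin_two_of]
  simp only [Matrix.of_apply, Matrix.cons_val', Matrix.cons_val_zero, Matrix.cons_val_one,
    Matrix.cons_val_fin_one, Int.cast_zero, zero_mul, zero_add, mul_zero, sub_zero, Int.cast_mul,
    mul_zpow, zpow_sub_one₀ hd', zpow_neg]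
  have : (d : ℂ) ^ k ≠ 0 := zpow_ne_zero _ hd'
  field_simp

lemma sl_scalar (k : ℤ) (f : ℍ → ℂ) {a : ℤ} (ha : 0 < a) :
    sl k f (a • (1 : Mat)) = (a : ℂ) ^ (k - 2) • f := by
  have e : a • (1 : Mat) = !![a, 0; 0, a] := by
    ext i j
    fin_cases i <;> fin_cases j <;> simp
  have ha' : (a : ℂ) ≠ 0 := by exact_mod_cast ha.ne'
  ext z
  rw [e, sl_upper k f 0 ha ha, Int.cast_zero, add_zero, mul_div_cancel_left₀ _ ha',
    ofComplex_apply, Pi.smul_apply, smul_eq_mul, show k - 2 = k - 1 - 1 by ring,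
    zpow_sub_one₀ ha' (k - 1), div_eq_mul_inv]

/-- Hermite normal form. -/
lemma exists_hermite (g : Mat) (h : g.det ≠ 0) :
    ∃ (γ : SL(2, ℤ)) (a b d : ℤ), 0 < a ∧ a * d = g.det ∧ a = Int.gcd (g 0 0) (g 1 0) ∧
      g = (γ : Mat) * !![a, b; 0, d] := by
  have hne : g 0 0 ≠ 0 ∨ g 1 0 ≠ 0 := by
    by_contra hc
    push Not at hc
    apply h
    rw [Matrix.det_fin_two, hc.1, hc.2]
    simp
  have hpos : 0 < Int.gcd (g 0 0) (g 1 0) := Int.gcd_pos_iff.mpr hne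
  obtain ⟨x, hx⟩ := Int.gcd_dvd_left (g 0 0) (g 1 0)
  obtain ⟨y, hy⟩ := Int.gcd_dvd_right (g 0 0) (g 1 0)
  have hb := Int.gcd_eq_gcd_ab (g 0 0) (g 1 0)
  have ha : (0 : ℤ) < Int.gcd (g 0 0) (g 1 0) := by exact_mod_cast hpos
  set a : ℤ := ((Int.gcd (g 0 0) (g 1 0) : ℕ) : ℤ)
  set u := Int.gcdA (g 0 0) (g 1 0)
  set v := Int.gcdB (g 0 0) (g 1 0)
  have h1 : x * u + y * v = 1 := by
    apply mul_left_cancel₀ ha.ne'
    linear_combination -hb - u * hx - v * hy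
  refine ⟨⟨!![x, -v; y, u], by rw [Matrix.det_fin_two_of]; linear_combination h1⟩, a,
    u * g 0 1 + v * g 1 1, x * g 1 1 - y * g 0 1, ha, ?_, rfl, ?_⟩
  · rw [Matrix.det_fin_two]
    linear_combination -(g 1 1) * hx + g 0 1 * hy
  · ext i j
    fin_cases i <;> fin_cases j <;> simp [Matrix.mul_apply, Fin.sum_univ_two]
    · linear_combination hx
    · linear_combination -(g 0 1) * h1
    · linear_combination hy
    · linear_combination -(g 1 1) * h1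

/-- Holomorphic and vanishing at all cusps. -/
structure Cuspy (k : ℤ) (f : ℍ → ℂ) : Prop where
  holo : MDifferentiable 𝓘(ℂ) 𝓘(ℂ) f
  zero : ∀ γ : SL(2, ℤ), IsZeroAtImInfty (sl k f γ)

/-- Invariance in weight `k`. -/
def Inv (Γ : Subgroup SL(2, ℤ)) (k : ℤ) (f : ℍ → ℂ) : Prop := ∀ γ ∈ Γ, sl k f (γ : Mat) = f

/-- The function `f` is a cusp form of weight `k` for `Γ`. -/
structure IsCF (Γ : Subgroup SL(2, ℤ)) (k : ℤ) (f : ℍ → ℂ) : Prop where
  cuspy : Cuspy k f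
  inv : Inv Γ k f

variable {k : ℤ} {f f' : ℍ → ℂ} {Γ Γ' : Subgroup SL(2, ℤ)}

lemma Cuspy.zero_infty (h : Cuspy k f) : IsZeroAtImInfty f := by
  have := h.zero 1
  rwa [Matrix.SpecialLinearGroup.coe_one, sl_one] at this

lemma Cuspy.continuous (h : Cuspy k f) : Continuous f := h.holo.continuous

lemma cuspy_zero (k : ℤ) : Cuspy k 0 :=
  ⟨mdifferentiable_const, fun γ => by rw [sl_zero]; exact Filter.zero_zeroAtFilter _⟩

lemma Cuspy.add (h : Cuspy k f) (h' : Cuspy k f') : Cuspy k (f + f') :=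
  ⟨h.holo.add h'.holo, fun γ => by rw [sl_add]; exact (h.zero γ).add (h'.zero γ)⟩

lemma Cuspy.smul (c : ℂ) (h : Cuspy k f) : Cuspy k (c • f) :=
  ⟨h.holo.const_smul c, fun γ => by
    rw [sl_smul k c f (by rw [γ.det_coe]; exact one_pos)]
    exact (h.zero γ).smul c⟩

lemma Cuspy.sum {ι : Type*} {s : Finset ι} {F : ι → ℍ → ℂ} (h : ∀ i ∈ s, Cuspy k (F i)) :
    Cuspy k (∑ i ∈ s, F i) :=
  Finset.sum_induction F (Cuspy k) (fun _ _ => Cuspy.add) (cuspy_zero k) h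

lemma Cuspy.sl (h : Cuspy k f) {g : Mat} (hg : g.det ≠ 0) : Cuspy k (sl k f g) := by
  refine ⟨h.holo.slash k _, fun γ => ?_⟩
  have hγ : (γ : Mat).det ≠ 0 := inside_Snz ⊤ γ trivial
  obtain ⟨δ, a, b, d, ha, had, -, e⟩ := exists_hermite (g * γ) (Snz.mul_mem hg hγ)
  have hu : (!![a, b; 0, d] : Mat).det ≠ 0 := by
    rw [Matrix.det_fin_two_of, mul_zero, sub_zero, had]
    exact Snz.mul_mem hg hγ
  rw [← sl_mul k f hg hγ, e, sl_mul k f (inside_Snz ⊤ δ trivial) hu]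
  refine (h.zero δ).slash k ?_
  rw [toGL_apply hu]
  simp

lemma Inv.mono (h : Inv Γ k f) (hle : Γ' ≤ Γ) : Inv Γ' k f := fun γ hγ => h γ (hle hγ)

lemma inv_zero (Γ : Subgroup SL(2, ℤ)) (k : ℤ) : Inv Γ k 0 := fun _ _ => sl_zero _ _

lemma Inv.add (h : Inv Γ k f) (h' : Inv Γ k f') : Inv Γ k (f + f') := fun γ hγ => by
  rw [sl_add, h γ hγ, h' γ hγ]

lemma Inv.smul (c : ℂ) (h : Inv Γ k f) : Inv Γ k (c • f) := fun γ hγ => by
  rw [sl_smul k c f (by rw [γ.det_coe]; exact one_pos), h γ hγ]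

lemma mem_Gamma_iff {L : ℕ} {γ : SL(2, ℤ)} :
    γ ∈ Gamma L ↔ ∃ m : Mat, (γ : Mat) = 1 + (L : ℤ) • m := by
  rw [Gamma_mem]
  constructor
  · rintro ⟨h1, h2, h3, h4⟩
    have e1 : (L : ℤ) ∣ γ 0 0 - 1 := by
      rw [← ZMod.intCast_zmod_eq_zero_iff_dvd]
      push_cast
      rw [h1, sub_self]
    have e4 : (L : ℤ) ∣ γ 1 1 - 1 := by
      rw [← ZMod.intCast_zmod_eq_zero_iff_dvd]
      push_cast
      rw [h4, sub_self]
    obtain ⟨a, ha⟩ := e1
    obtain ⟨b, hb⟩ := (ZMod.intCast_zmod_eq_zero_iff_dvd _ _).mp h2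
    obtain ⟨c, hc⟩ := (ZMod.intCast_zmod_eq_zero_iff_dvd _ _).mp h3
    obtain ⟨d, hd⟩ := e4
    refine ⟨!![a, b; c, d], ?_⟩
    ext i j
    fin_cases i <;> fin_cases j <;> simp <;> linarith
  · rintro ⟨m, hm⟩
    have e : ∀ i j, γ i j = (1 : Mat) i j + L * m i j := fun i j => by
      rw [hm, Matrix.add_apply, Matrix.smul_apply, smul_eq_mul]
    simp [e]

lemma Gamma_le_Gamma0 (N : ℕ) : Gamma N ≤ Gamma0 N := fun _ h => (Gamma_mem.mp h).2.2.1

lemma Gamma_le_of_dvd {L L' : ℕ} (h : L ∣ L') : Gamma L' ≤ Gamma L := fun γ hγ => by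
  obtain ⟨m, hm⟩ := mem_Gamma_iff.mp hγ
  obtain ⟨c, rfl⟩ := h
  exact mem_Gamma_iff.mpr ⟨(c : ℤ) • m, by rw [hm, smul_smul]; push_cast; rfl⟩

/-- Conjugating `Γ(L D)` by a matrix whose determinant divides `D` gives elements of `Γ(L)`. -/
lemma exists_conj {L D : ℕ} {α : Mat} (h0 : α.det ≠ 0) (hD : α.det ∣ (D : ℤ)) {γ : SL(2, ℤ)}
    (hγ : γ ∈ Gamma (L * D)) : ∃ γ' ∈ Gamma L, α * (γ : Mat) = (γ' : Mat) * α := by
  obtain ⟨m, hm⟩ := mem_Gamma_iff.mp hγ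
  obtain ⟨c, hc⟩ := hD
  have e : α * (γ : Mat) = (1 + (L : ℤ) • (c • (α * m * α.adjugate))) * α := by
    rw [hm, Matrix.mul_add, Matrix.add_mul, Matrix.mul_one, Matrix.one_mul, Matrix.smul_mul,
      Matrix.smul_mul, Matrix.mul_assoc, Matrix.adjugate_mul, Matrix.mul_smul, Matrix.mul_smul,
      Matrix.mul_one, smul_smul, smul_smul, Nat.cast_mul, hc]
    congr 2
    ring
  have hd : (1 + (L : ℤ) • (c • (α * m * α.adjugate))).det = 1 := by
    have := congrArg Matrix.det e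
    rw [Matrix.det_mul, Matrix.det_mul, γ.det_coe, mul_comm] at this
    exact (mul_right_cancel₀ h0 this).symm
  exact ⟨⟨_, hd⟩, mem_Gamma_iff.mpr ⟨_, rfl⟩, e⟩

lemma Inv.sl {L D : ℕ} (h : Inv (Gamma L) k f) {α : Mat} (h0 : α.det ≠ 0)
    (hD : α.det ∣ (D : ℤ)) : Inv (Gamma (L * D)) k (sl k f α) := fun γ hγ => by
  obtain ⟨γ', hγ', e⟩ := exists_conj h0 hD hγ
  rw [← sl_mul k f h0 (inside_Snz ⊤ γ trivial), e, sl_mul k f (inside_Snz ⊤ γ' trivial) h0,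
    h γ' hγ']

lemma IsCF.mono (h : IsCF Γ k f) (hle : Γ' ≤ Γ) : IsCF Γ' k f := ⟨h.cuspy, h.inv.mono hle⟩

lemma isCF_zero (Γ : Subgroup SL(2, ℤ)) (k : ℤ) : IsCF Γ k 0 := ⟨cuspy_zero k, inv_zero Γ k⟩

lemma IsCF.add (h : IsCF Γ k f) (h' : IsCF Γ k f') : IsCF Γ k (f + f') :=
  ⟨h.cuspy.add h'.cuspy, h.inv.add h'.inv⟩

lemma IsCF.smul (c : ℂ) (h : IsCF Γ k f) : IsCF Γ k (c • f) := ⟨h.cuspy.smul c, h.inv.smul c⟩

lemma IsCF.sum {ι : Type*} {s : Finset ι} {F : ι → ℍ → ℂ} (h : ∀ i ∈ s, IsCF Γ k (F i)) :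
    IsCF Γ k (∑ i ∈ s, F i) :=
  Finset.sum_induction F (IsCF Γ k) (fun _ _ => IsCF.add) (isCF_zero Γ k) h

lemma IsCF.sl {L D : ℕ} (h : IsCF (Gamma L) k f) {α : Mat} (h0 : α.det ≠ 0)
    (hD : α.det ∣ (D : ℤ)) : IsCF (Gamma (L * D)) k (sl k f α) :=
  ⟨h.cuspy.sl h0, h.inv.sl h0 hD⟩

/-- A double coset sum is again a cusp form. -/
lemma IsCF.dc {ι : Type*} [Fintype ι] {δ : ι → Mat} (h : IsCF Γ k f) (hc : Cov Γ Γ' δ) :
    IsCF Γ' k (∑ i, G.sl k f (δ i)) := by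
  refine ⟨Cuspy.sum fun i _ => h.cuspy.sl (hc.det_ne i), fun γ hγ => ?_⟩
  rw [sl_sum, ← sum_step hc hγ (fun i => G.sl k f (δ i))]
  refine Finset.sum_congr rfl fun i _ => ?_
  rw [← sl_mul k f (hc.det_ne i) (inside_Snz ⊤ γ trivial), step_spec hc hγ i,
    sl_mul k f (inside_Snz ⊤ _ trivial) (hc.det_ne _), h.inv _ (step Γ δ γ i).2.2]

/-- The bundled cusp form. -/
def IsCF.mk' [Γ.FiniteIndex] (h : IsCF Γ k f) : CuspForm Γ k where
  toFun := f
  slash_action_eq' A hA := by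
    obtain ⟨γ, hγ, rfl⟩ := hA
    have := h.inv γ hγ
    rwa [sl_SL] at this
  holo' := h.cuspy.holo
  zero_at_cusps' hc := by
    rw [Subgroup.IsArithmetic.isCusp_iff_isCusp_SL2Z] at hc
    rw [OnePoint.isZeroAt_iff_forall_SL2Z hc]
    intro γ _
    have := h.cuspy.zero γ
    rwa [sl_SL] at this

@[simp] lemma IsCF.coe_mk' [Γ.FiniteIndex] (h : IsCF Γ k f) : ⇑h.mk' = f := rfl

lemma isCF_coe [Γ.FiniteIndex] (f : CuspForm Γ k) : IsCF Γ k f := by
  refine ⟨⟨f.holo', fun γ => ?_⟩, fun γ hγ => ?_⟩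
  · rw [sl_SL]
    exact CuspFormClass.zero_at_infty_slash f γ
  · rw [sl_SL]
    exact f.slash_action_eq' _ ⟨γ, hγ, rfl⟩

end Pool.Agent.Lib.MP_88d29b_nt.G
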