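import Pool.Agent.Lib.MP_88d29b_nt.GSturm

/-!
The eigenvalues of `T_p` on cusp forms for `Γ_0(N)` and their `p`-adic slopes.
-/

set_option autoImplicit false

noncomputable section

namespace Pool.Agent.Lib.MP_88d29b_nt.G

open Finset CongruenceSubgroup
open scoped MatrixGroups

variable (p N : ℕ) [Fact p.Prime] [NeZero N] (hN : Nat.Coprime p N)

/-- The eigenvalues of `T_p` on cusp forms of weight `k` for `Γ_0(N)`, with multiplicity: the roots
of the characteristic polynomial. -/
def eigenvalues (k : ℕ) : Multiset ℂ :=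
  haveI := finite_cusp N k
  (hecke N k Fact.out hN).charpoly.roots

/-- The complex number `z` is algebraic, nonzero, and its normalised slope
`((p + 1) / k) * v_p(z)` lies in `[a, b]`, where `v_p = - log_p ‖ι ·‖` is the valuation with
`v_p(p) = 1` attached to the embedding `ι` of the algebraic numbers into `\bar ℚ_p`. -/
def SlopeIn (ι : algebraicClosure ℚ ℂ →+* PadicAlgCl p) (k : ℕ) (a b : ℝ) (z : ℂ) : Prop :=
  ∃ x : algebraicClosure ℚ ℂ, (x : ℂ) = z ∧ x ≠ 0 ∧
    (((p : ℝ) + 1) / (k : ℝ)) * (-Real.logb p ‖ι x‖) ∈ Set.Icc a b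

open Classical in
/-- The number of elements of `X_T` in `[a, b]`. -/
def countIn (ι : algebraicClosure ℚ ℂ →+* PadicAlgCl p) (a b : ℝ) (T : ℕ) : ℕ :=
  ∑ k ∈ Finset.Icc 2 T, ((eigenvalues p N hN k).filter (SlopeIn p ι k a b)).card

/-- The number of elements of `X_T`. -/
def countAll (T : ℕ) : ℕ := ∑ k ∈ Finset.Icc 2 T, (eigenvalues p N hN k).card

end Pool.Agent.Lib.MP_88d29b_nt.G
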