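import Pool.Agent.Lib.MP_88d29b_nt.GPoly

/-!
The Hecke operators `T_l` on the cohomology of `Γ_0(N)`.
-/

set_option autoImplicit false

noncomputable section

namespace Pool.Agent.Lib.MP_88d29b_nt.G

open Finset CongruenceSubgroup
open scoped MatrixGroups

lemma det_tRep (l : ℕ) (i : Option (Fin l)) : (tRep l i).det = l := by
  cases i <;> simp [tRep, Matrix.det_fin_two]

/-- Every integer matrix of prime determinant `l` whose lower left entry is divisible by `N` lies
in one of the cosets `Γ_0(N) δ_j`. -/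
lemma tRep_decomp {N l : ℕ} (hl : l.Prime) (hN : Nat.Coprime l N) (m : Mat) (hd : m.det = l)
    (hm : (N : ℤ) ∣ m 1 0) : ∃ j, ∃ t ∈ Gamma0 N, m = ((t : SL(2, ℤ)) : Mat) * tRep l j := by
  have hl0 : (l : ℤ) ≠ 0 := by exact_mod_cast hl.ne_zero
  have hp : Prime (l : ℤ) := Nat.prime_iff_prime_int.mp hl
  rw [Matrix.det_fin_two] at hd
  by_cases h : (l : ℤ) ∣ m 0 0 ∧ (l : ℤ) ∣ m 1 0
  · obtain ⟨⟨a, ha⟩, ⟨c, hc⟩⟩ := h
    refine ⟨none, ⟨!![a, m 0 1; c, m 1 1], ?_⟩, ?_, ?_⟩
    · rw [Matrix.det_fin_two_of]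
      apply mul_left_cancel₀ hl0
      rw [ha, hc] at hd
      linear_combination hd
    · rw [mem_Gamma0_iff]
      change (N : ℤ) ∣ c
      rw [hc] at hm
      exact (Nat.isCoprime_iff_coprime.mpr hN).symm.dvd_of_dvd_mul_left hm
    · ext i j
      fin_cases i <;> fin_cases j <;>
        simp [tRep, Matrix.mul_apply, Fin.sum_univ_two, ha, hc, mul_comm]
  · have : Fact l.Prime := ⟨hl⟩
    have : NeZero l := ⟨hl.ne_zero⟩
    have hd' : ((m 0 0 : ℤ) : ZMod l) * (m 1 1 : ℤ) - (m 0 1 : ℤ) * (m 1 0 : ℤ) = 0 := by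
      have := congrArg (Int.cast : ℤ → ZMod l) hd
      simpa using this
    obtain ⟨x, hx1, hx2⟩ : ∃ x : ZMod l, ((m 0 1 : ℤ) : ZMod l) = (m 0 0 : ℤ) * x ∧
        ((m 1 1 : ℤ) : ZMod l) = (m 1 0 : ℤ) * x := by
      by_cases h0 : ((m 0 0 : ℤ) : ZMod l) = 0
      · have h1 : ((m 1 0 : ℤ) : ZMod l) ≠ 0 := fun h1 =>
          h ⟨(ZMod.intCast_zmod_eq_zero_iff_dvd _ _).mp h0,
            (ZMod.intCast_zmod_eq_zero_iff_dvd _ _).mp h1⟩
        refine ⟨(m 1 1 : ℤ) / (m 1 0 : ℤ), ?_, by field_simp⟩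
        rw [h0, zero_mul, zero_sub, neg_eq_zero, mul_eq_zero] at hd'
        rw [h0, zero_mul]
        exact hd'.resolve_right h1
      · refine ⟨(m 0 1 : ℤ) / (m 0 0 : ℤ), by field_simp, ?_⟩
        field_simp
        linear_combination hd'
    have hv : ((x.val : ℤ) : ZMod l) = x := by simp
    obtain ⟨b, hb⟩ : (l : ℤ) ∣ m 0 1 - m 0 0 * x.val := by
      rw [← ZMod.intCast_zmod_eq_zero_iff_dvd]
      push_cast at hv ⊢
      rw [hv, hx1, sub_self]
    obtain ⟨d, hd2⟩ : (l : ℤ) ∣ m 1 1 - m 1 0 * x.val := by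
      rw [← ZMod.intCast_zmod_eq_zero_iff_dvd]
      push_cast at hv ⊢
      rw [hv, hx2, sub_self]
    refine ⟨some ⟨x.val, x.val_lt⟩, ⟨!![m 0 0, b; m 1 0, d], ?_⟩, ?_, ?_⟩
    · rw [Matrix.det_fin_two_of]
      apply mul_left_cancel₀ hl0
      linear_combination hd - m 0 0 * hd2 + m 1 0 * hb
    · rw [mem_Gamma0_iff]
      exact hm
    · ext i j
      fin_cases i <;> fin_cases j <;> simp [tRep, Matrix.mul_apply, Fin.sum_univ_two]
      · simp only [ZMod.natCast_val] at hb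
        linear_combination hb
      · simp only [ZMod.natCast_val] at hd2
        linear_combination hd2

lemma tRep_inj {l : ℕ} (hl : l.Prime) (i j : Option (Fin l)) (t : SL(2, ℤ))
    (h : tRep l i = (t : Mat) * tRep l j) : i = j := by
  have hl1 : (1 : ℤ) < l := by exact_mod_cast hl.one_lt
  have hdet := t.det_coe
  rw [Matrix.det_fin_two] at hdet
  have e00 := congrFun (congrFun h 0) 0
  have e01 := congrFun (congrFun h 0) 1
  have e10 := congrFun (congrFun h 1) 0
  have e11 := congrFun (congrFun h 1) 1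
  rcases i with _ | i <;> rcases j with _ | j <;>
    simp [tRep, Matrix.mul_apply, Fin.sum_univ_two] at e00 e01 e10 e11 ⊢
  · exfalso
    rw [← e10, zero_mul, zero_add] at e11
    exact absurd (Int.eq_one_of_mul_eq_one_left (by omega) e11.symm) (by omega)
  · exfalso
    exact absurd (Int.eq_one_of_mul_eq_one_left (by omega) e00.symm) (by omega)
  · rw [← e00, one_mul] at e01
    have hi := i.2
    have hj := j.2
    have h0 : t 0 1 = 0 := by
      by_contra hne
      rcases lt_or_gt_of_ne hne with h1 | h1 <;> nlinarith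
    rw [h0, zero_mul, add_zero] at e01
    exact Fin.ext (by exact_mod_cast e01)

lemma cov_tRep {N l : ℕ} (hl : l.Prime) (hN : Nat.Coprime l N) :
    Cov (Gamma0 N) (Gamma0 N) (tRep l) where
  det_ne i := by
    rw [det_tRep]
    exact_mod_cast hl.ne_zero
  ex g hg i := by
    refine tRep_decomp hl hN _ (by rw [Matrix.det_mul, det_tRep, g.det_coe, mul_one]) ?_
    rw [mem_Gamma0_iff] at hg
    cases i <;> simp [tRep, Matrix.mul_apply, Fin.sum_univ_two, hg, Dvd.dvd.mul_left]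
  inj i j t _ h := tRep_inj hl i j t h

lemma adm_tRep (R : Type*) [CommRing R] {κ N l : ℕ} (hκ : Even κ) (hl : l.Prime)
    (hN : Nat.Coprime l N) : Adm ⊤ (Gamma0 N) (Gamma0 N) (tRep l) (vact R κ) :=
  ⟨isAct_vact R hκ ⊤, fun _ _ => trivial, fun _ _ => trivial, fun _ => trivial, cov_tRep hl hN,
    neg_one_mem_Gamma0 N⟩

/-- Cohomology of `Γ_0(N)` with values in polynomials of degree at most `κ` over `R`. -/
abbrev HH (R : Type*) [CommRing R] (N κ : ℕ) : Type _ := H1 (Gamma0 N) (vact R κ)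

open Classical in
/-- The Hecke operator `T_l` on cohomology (zero unless `κ` is even and `l` is a prime that does
not divide `N`). -/
def Tl (R : Type*) [CommRing R] (N κ l : ℕ) : HH R N κ →ₗ[R] HH R N κ :=
  if h : Even κ ∧ l.Prime ∧ Nat.Coprime l N then dcH (adm_tRep R h.1 h.2.1 h.2.2) else 0

lemma Tl_eq (R : Type*) [CommRing R] {κ N l : ℕ} (hκ : Even κ) (hl : l.Prime)
    (hN : Nat.Coprime l N) : Tl R N κ l = dcH (adm_tRep R hκ hl hN) := by
  rw [Tl, dif_pos ⟨hκ, hl, hN⟩]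

end Pool.Agent.Lib.MP_88d29b_nt.G
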