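import Pool.Agent.Lib.MP_88d29b_nt.GEig
import Pool.Agent.Lib.MP_88d29b_nt.HDefs

/-!
Bound for the traces of words in the Hecke operators.
-/

set_option autoImplicit false

noncomputable section

namespace Pool.Agent.Lib.MP_88d29b_nt.G

open Finset CongruenceSubgroup
open scoped MatrixGroups

/-- All eigenvalues of `T` have norm at most `a`. -/
def EigLe {V : Type*} [AddCommGroup V] [Module ℂ V] (T : Module.End ℂ V) (a : ℝ) : Prop :=
  ∀ (x : V) (μ : ℂ), x ≠ 0 → T x = μ • x → ‖μ‖ ≤ a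

section

variable {V : Type*} [AddCommGroup V] [Module ℂ V] [Module.Finite ℂ V]

/-- Sketch: the eigenspace of `S * T` for `μ` is stable under `T`, so contains an eigenvector `y` of
`T` (`Module.End.exists_eigenvalue` for the restriction), `T y = β y`; then `μ = 0` or
`S y = (μ / β) y`. -/
lemma EigLe.mul {S T : Module.End ℂ V} {a b : ℝ} (ha : 0 ≤ a) (hb : 0 ≤ b) (hS : EigLe S a)
    (hT : EigLe T b) (h : Commute S T) : EigLe (S * T) (a * b) := by
  intro x μ hx hμ
  have hm : ∀ y ∈ (S * T).eigenspace μ, T y ∈ (S * T).eigenspace μ := fun y hy =>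
    Module.End.mapsTo_genEigenspace_of_comm (h.mul_left (Commute.refl T)) μ 1 hy
  have : Nontrivial ((S * T).eigenspace μ) :=
    ⟨⟨x, Module.End.mem_eigenspace_iff.mpr hμ⟩, 0, fun e => hx (congrArg Subtype.val e)⟩
  obtain ⟨β, hβ⟩ := Module.End.exists_eigenvalue (T.restrict hm)
  obtain ⟨y, hy⟩ := hβ.exists_hasEigenvector
  have hy0 : (y : V) ≠ 0 := fun e => hy.2 (Subtype.ext e)
  have h1 : T y = β • (y : V) := congrArg Subtype.val hy.apply_eq_smul
  have h2 : S (T y) = μ • (y : V) := Module.End.mem_eigenspace_iff.mp y.2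
  rw [h1, map_smul] at h2
  by_cases hβ0 : β = 0
  · rw [hβ0, zero_smul] at h2
    rw [(smul_eq_zero.mp h2.symm).resolve_right hy0, norm_zero]
    exact mul_nonneg ha hb
  · have h3 : S y = (μ / β) • (y : V) := by
      rw [div_eq_inv_mul, mul_smul, ← h2, smul_smul, inv_mul_cancel₀ hβ0, one_smul]
    have h4 : μ = μ / β * β := (div_mul_cancel₀ μ hβ0).symm
    rw [h4, norm_mul]
    exact mul_le_mul (hS _ _ hy0 h3) (hT _ _ hy0 h1) (norm_nonneg _) ha

/-- Sketch: the trace is the sum of the roots of the characteristic polynomial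
(`Module.End.trace_eq_sum_roots_charpoly_of_splits` or `Matrix.trace_eq_sum_roots_charpoly`),
`Module.End.hasEigenvalue_iff_isRoot_charpoly`. -/
lemma EigLe.trace {T : Module.End ℂ V} {a : ℝ} (hT : EigLe T a) :
    ‖LinearMap.trace ℂ V T‖ ≤ Module.finrank ℂ V * a := by
  have hs := IsAlgClosed.splits T.charpoly
  rw [Module.End.trace_eq_sum_roots_charpoly_of_splits hs, ← T.charpoly_natDegree,
    hs.natDegree_eq_card_roots]
  refine (norm_multiset_sum_le _).trans ?_
  have := Multiset.sum_le_card_nsmul (T.charpoly.roots.map fun x => ‖x‖) a (by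
    intro x hx
    obtain ⟨μ, hμ, rfl⟩ := Multiset.mem_map.mp hx
    obtain ⟨y, hy⟩ := ((Module.End.hasEigenvalue_iff_isRoot_charpoly T μ).mpr
      (Polynomial.isRoot_of_mem_roots hμ)).exists_hasEigenvector
    exact hT y μ hy.2 hy.apply_eq_smul)
  rwa [Multiset.card_map, nsmul_eq_mul] at this

end

/-- Sketch: as in `finite_Z1`, with a generating set that does not depend on `κ`. -/
lemma finrank_HH_le_mul (N : ℕ) [NeZero N] :
    ∃ g : ℕ, ∀ κ : ℕ, Module.finrank ℂ (HH ℂ N κ) ≤ g * (κ + 1) := by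
  have := fg_SL2Z
  obtain ⟨s, hs⟩ := (inferInstance : Group.FG (Gamma0 N)).1
  refine ⟨Fintype.card (Option s), fun κ => ?_⟩
  have := finite_Z1 (Gamma0 N) (vact ℂ κ)
  refine (Submodule.finrank_quotient_le _).trans ?_
  let F : Z1 (Gamma0 N) (vact ℂ κ) →ₗ[ℂ] (Option s → Vk ℂ κ) := LinearMap.pi fun a =>
    (LinearMap.proj (a.elim 1 (fun b => (b : Gamma0 N)))) ∘ₗ (Z1 (Gamma0 N) (vact ℂ κ)).subtype
  have hF : Function.Injective F := by
    refine (injective_iff_map_eq_zero F).2 fun c hc => ?_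
    have h1 : (c : Gamma0 N → Vk ℂ κ) 1 = 0 := congrFun hc none
    ext1
    funext g
    have hg : g ∈ Subgroup.closure (s : Set (Gamma0 N)) := hs ▸ Subgroup.mem_top g
    induction hg using Subgroup.closure_induction with
    | mem x hx => exact congrFun hc (some ⟨x, hx⟩)
    | one => exact h1
    | mul x y _ _ hx hy =>
      have := c.2.1 x y
      simp only [ZeroMemClass.coe_zero, Pi.zero_apply] at hx hy ⊢
      rw [this, hx, hy, map_zero, add_zero]
    | inv x _ hx =>
      have := c.2.1 x x⁻¹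
      simp only [ZeroMemClass.coe_zero, Pi.zero_apply] at hx ⊢
      rw [mul_inv_cancel, h1, hx, map_zero, zero_add] at this
      exact this.symm
  refine (LinearMap.finrank_le_finrank_of_injective hF).trans ?_
  simp [Module.finrank_pi_fintype]

lemma gtr_comm (N κ l l' : ℕ) : Commute (Tl ℂ N κ l) (Tl ℂ N κ l') := Tl_comm ℂ N κ l l'

lemma gtr_comm_list (N κ l : ℕ) (L : List ℕ) : Commute (Tl ℂ N κ l) (L.map (Tl ℂ N κ)).prod :=
  Commute.list_prod_right _ _ fun x hx => by
    obtain ⟨l', -, rfl⟩ := List.mem_map.mp hx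
    exact gtr_comm N κ l l'

/-- Sketch: induction on the list of prime factors, `eigen_bound`, `EigLe.mul`, `Tl_comm`,
`Commute.list_prod_right`, `Nat.prod_primeFactorsList`. -/
lemma eigLe_Tw (N : ℕ) [NeZero N] : ∃ C : ℕ, ∀ κ n : ℕ, n ≠ 0 →
    EigLe (Tw ℂ N κ n) ((n : ℝ) ^ (C * (κ + 2))) := by
  obtain ⟨C, hC⟩ := eigen_bound N
  refine ⟨C, fun κ n hn => ?_⟩
  have key : ∀ L : List ℕ, EigLe (L.map (Tl ℂ N κ)).prod (((L.prod : ℕ) : ℝ) ^ (C * (κ + 2))) := by
    intro L
    induction L with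
    | nil =>
      intro x μ hx h
      simp only [List.map_nil, List.prod_nil, Module.End.one_apply] at h
      have : (μ - 1) • x = 0 := by rw [sub_smul, one_smul, ← h, sub_self]
      rw [sub_eq_zero.mp ((smul_eq_zero.mp this).resolve_right hx)]
      simp
    | cons l L ih =>
      rw [List.map_cons, List.prod_cons, List.prod_cons, Nat.cast_mul, mul_pow]
      exact EigLe.mul (by positivity) (by positivity) (hC κ l) ih (gtr_comm_list N κ l L)
  have := key n.primeFactorsList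
  rwa [Nat.prod_primeFactorsList hn] at this

lemma Tw_commute (N κ n n' : ℕ) : Commute (Tw ℂ N κ n) (Tw ℂ N κ n') :=
  Commute.list_prod_left _ _ fun x hx => by
    obtain ⟨l, -, rfl⟩ := List.mem_map.mp hx
    exact gtr_comm_list N κ l _

theorem trace_bound (N : ℕ) [NeZero N] (C : ℕ) : ∃ C' : ℕ, ∀ κ n n' : ℕ, n ≠ 0 → n' ≠ 0 →
    n ≤ (κ + 2) ^ C → n' ≤ (κ + 2) ^ C →
    ‖LinearMap.trace ℂ _ (Tw ℂ N κ n * Tw ℂ N κ n')‖ ≤ ((κ : ℝ) + 2) ^ (C' * (κ + 2)) := by
  obtain ⟨g, hg⟩ := finrank_HH_le_mul N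
  obtain ⟨E, hE⟩ := eigLe_Tw N
  refine ⟨g + 1 + 2 * C * E, fun κ n n' hn hn' hB hB' => ?_⟩
  have h1 := (EigLe.mul (by positivity) (by positivity) (hE κ n hn) (hE κ n' hn')
    (Tw_commute N κ n n')).trace
  refine h1.trans ?_
  have h2 : Module.finrank ℂ (HH ℂ N κ) * (n ^ (E * (κ + 2)) * n' ^ (E * (κ + 2))) ≤
      (κ + 2) ^ ((g + 1 + 2 * C * E) * (κ + 2)) := by
    have h3 : g ≤ (κ + 2) ^ g := Nat.lt_two_pow_self.le.trans (Nat.pow_le_pow_left (by omega) g)
    calc _ ≤ ((κ + 2) ^ g * (κ + 2)) * (((κ + 2) ^ C) ^ (E * (κ + 2)) *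
          ((κ + 2) ^ C) ^ (E * (κ + 2))) := by
          gcongr
          exact (hg κ).trans (Nat.mul_le_mul h3 (by omega))
      _ = (κ + 2) ^ (g + 1 + 2 * C * E * (κ + 2)) := by ring
      _ ≤ _ := Nat.pow_le_pow_right (by omega) (by nlinarith)
  exact_mod_cast h2

end Pool.Agent.Lib.MP_88d29b_nt.G
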