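import Pool.Agent.Lib.MP_88d29b_nt.GSl

/-!
Weight functions (measurable partitions of unity) for subgroups of the modular group.
-/

set_option autoImplicit false

noncomputable section

namespace Pool.Agent.Lib.MP_88d29b_nt.G

open Finset CongruenceSubgroup UpperHalfPlane Filter MeasureTheory
open scoped MatrixGroups ModularForm Manifold Topology ENNReal

/-- The translates of `ψ` under `A` sum to the constant `c`. -/
structure IsWt (A : Subgroup SL(2, ℤ)) (ψ : ℍ → ℝ≥0∞) (c : ℝ≥0∞) : Prop where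
  meas : Measurable ψ
  sum : ∀ z : ℍ, ∑' a : A, ψ ((a : SL(2, ℤ)) • z) = c

variable {A A' : Subgroup SL(2, ℤ)} {ψ ψ' : ℍ → ℝ≥0∞} {c c' : ℝ≥0∞}

instance countable_SL2Z : Countable SL(2, ℤ) := by
  have : Countable (Matrix (Fin 2) (Fin 2) ℤ) :=
    inferInstanceAs (Countable (Fin 2 → Fin 2 → ℤ))
  exact inferInstanceAs (Countable {A : Matrix (Fin 2) (Fin 2) ℤ // A.det = 1})

/-- Sketch: `measure_preserving_smul (toGL g)` and `MeasurePreserving.lintegral_comp`; Mathlib has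
`SMulInvariantMeasure (GL (Fin 2) ℝ) ℍ volume`. -/
lemma lintegral_sm (g : Mat) {F : ℍ → ℝ≥0∞} (hF : Measurable F) :
    ∫⁻ z, F (sm g z) = ∫⁻ z, F z := by
  exact (measurePreserving_smul (toGL g) (volume : Measure ℍ)).lintegral_comp hF

lemma lintegral_SL (g : SL(2, ℤ)) {F : ℍ → ℝ≥0∞} (hF : Measurable F) :
    ∫⁻ z, F (g • z) = ∫⁻ z, F z := by
  rw [← lintegral_sm (g : Mat) hF]
  simp only [sm_SL]

lemma gwt1_meas (g : SL(2, ℤ)) : Measurable (fun z : ℍ => g • z) := by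
  have h := (continuous_sm (g : Mat)).measurable
  have e : sm (g : Mat) = fun z : ℍ => g • z := funext (sm_SL g)
  rwa [e] at h

lemma gwt1_unfold (h : IsWt A ψ c) {G : ℍ → ℝ≥0∞} (hG : Measurable G) :
    c * ∫⁻ z, G z = ∑' a : A, ∫⁻ z, ψ ((a : SL(2, ℤ)) • z) * G z := by
  have hm : ∀ a : A, AEMeasurable (fun z : ℍ => ψ ((a : SL(2, ℤ)) • z) * G z) volume :=
    fun a => ((h.meas.comp (gwt1_meas (a : SL(2, ℤ)))).mul hG).aemeasurable
  rw [← lintegral_const_mul c hG, ← lintegral_tsum hm]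
  refine lintegral_congr (fun z => ?_)
  rw [ENNReal.tsum_mul_right, h.sum z]

/-- Unfolding. Sketch: `c' ∫ ψ F = ∑_a ∫ ψ(z) ψ'(a z) F(z) = ∑_a ∫ ψ(a⁻¹ z) ψ'(z) F(z) = c ∫ ψ' F`
(`lintegral_tsum`, `lintegral_SL`, `Equiv.inv`). -/
theorem IsWt.lintegral_eq (h : IsWt A ψ c) (h' : IsWt A ψ' c') {F : ℍ → ℝ≥0∞}
    (hF : Measurable F) (hinv : ∀ a ∈ A, ∀ z : ℍ, F (a • z) = F z) :
    c' * ∫⁻ z, ψ z * F z = c * ∫⁻ z, ψ' z * F z := by
  have e1 := gwt1_unfold h' (G := fun z => ψ z * F z) (h.meas.mul hF)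
  have e2 := gwt1_unfold h (G := fun z => ψ' z * F z) (h'.meas.mul hF)
  rw [e1, e2, ← (Equiv.inv A).tsum_eq]
  refine tsum_congr (fun a => ?_)
  have hm : Measurable (fun z : ℍ => ψ' (((Equiv.inv A a : A) : SL(2, ℤ)) • z) * (ψ z * F z)) :=
    (h'.meas.comp (gwt1_meas _)).mul (h.meas.mul hF)
  rw [← lintegral_SL (a : SL(2, ℤ)) hm]
  refine lintegral_congr (fun z => ?_)
  rw [hinv a a.2 z, Equiv.inv_apply, Subgroup.coe_inv, inv_smul_smul]
  ring

/-- Sketch: split `A'` into the right cosets `A r`; e.g. use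
`Subgroup.groupEquivQuotientProdSubgroup` for `A.subgroupOf A'` composed with inversion. -/
theorem IsWt.of_le (h : IsWt A ψ 1) (hle : A ≤ A') [A.FiniteIndex] :
    ∃ n : ℕ, n ≠ 0 ∧ IsWt A' ψ n := by
  have : Fintype (A' ⧸ A.subgroupOf A') := Fintype.ofFinite _
  refine ⟨Fintype.card (A' ⧸ A.subgroupOf A'), Fintype.card_ne_zero, h.meas, fun z => ?_⟩
  let f : (A' ⧸ A.subgroupOf A') × A → A' := fun x => ⟨x.2.1, hle x.2.2⟩ * (x.1.out)⁻¹
  have hf : Function.Bijective f := by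
    constructor
    · rintro ⟨q, a⟩ ⟨q', a'⟩ hx
      have hx' : (⟨a.1, hle a.2⟩ : A') * (q.out)⁻¹ = ⟨a'.1, hle a'.2⟩ * (q'.out)⁻¹ := hx
      have h1 : (q.out)⁻¹ * q'.out = (⟨a.1, hle a.2⟩ : A')⁻¹ * ⟨a'.1, hle a'.2⟩ := by
        have h2 : (⟨a'.1, hle a'.2⟩ : A') = ⟨a.1, hle a.2⟩ * (q.out)⁻¹ * q'.out := by
          rw [hx']
          group
        rw [h2]
        group
      have hq : q = q' := by
        rw [← q.out_eq', ← q'.out_eq', QuotientGroup.eq, h1, Subgroup.mem_subgroupOf]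
        exact A.mul_mem (A.inv_mem a.2) a'.2
      subst hq
      have h3 := mul_right_cancel hx'
      have h4 : a = a' := Subtype.ext (congrArg (fun t : A' => (t : SL(2, ℤ))) h3)
      rw [h4]
    · intro g
      have h1 : (g⁻¹)⁻¹ * (QuotientGroup.mk g⁻¹ : A' ⧸ A.subgroupOf A').out ∈ A.subgroupOf A' := by
        rw [← QuotientGroup.eq, QuotientGroup.out_eq']
      rw [inv_inv, Subgroup.mem_subgroupOf] at h1
      refine ⟨(QuotientGroup.mk g⁻¹, ⟨_, h1⟩), ?_⟩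
      apply Subtype.ext
      simp [f]
  rw [← (Equiv.ofBijective f hf).tsum_eq, ENNReal.tsum_prod']
  have h5 : ∀ q : A' ⧸ A.subgroupOf A', ∑' a : A,
      ψ (((Equiv.ofBijective f hf (q, a) : A') : SL(2, ℤ)) • z) = 1 := by
    intro q
    rw [← h.sum ((((q.out)⁻¹ : A') : SL(2, ℤ)) • z)]
    refine tsum_congr (fun a => ?_)
    rw [← mul_smul]
    rfl
  simp only [h5]
  rw [tsum_fintype]
  simp

/-- Transport along `δ` with `δ A δ⁻¹ = A'`. -/
theorem IsWt.conj (h : IsWt A' ψ c) {δ : Mat} (hδ : δ.det ≠ 0) (e : A ≃ A')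
    (he : ∀ a : A, δ * ((a : SL(2, ℤ)) : Mat) = ((e a : SL(2, ℤ)) : Mat) * δ) :
    IsWt A (fun z => ψ (sm δ z)) c := by
  refine ⟨h.meas.comp (continuous_sm δ).measurable, fun z => ?_⟩
  rw [← h.sum (sm δ z), ← e.tsum_eq]
  refine tsum_congr (fun a => ?_)
  have h1 : ∀ g : SL(2, ℤ), (g : Mat).det ≠ 0 := fun g => inside_Snz ⊤ g trivial
  rw [← sm_SL, ← sm_SL, ← sm_mul hδ (h1 _), ← sm_mul (h1 _) hδ, he]

/-- Sketch: `volume_eq_lintegral` (or `volume_def`, `withDensity` with a positive density) and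
`isOpenEmbedding_coe`. -/
instance isOpenPos_volume : (volume : Measure ℍ).IsOpenPosMeasure := by
  have : (volume.comap UpperHalfPlane.coe : Measure ℍ).IsOpenPosMeasure :=
    Measure.IsOpenPosMeasure.comap volume isOpenEmbedding_coe
  refine Measure.AbsolutelyContinuous.isOpenPosMeasure
    (μ := (volume.comap UpperHalfPlane.coe : Measure ℍ)) ?_
  rw [volume_def]
  refine withDensity_absolutelyContinuous' ?_ (Eventually.of_forall (fun z => ?_))
  · refine (ENNReal.continuous_coe.comp ?_).measurable.aemeasurable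
    refine .pow (.div₀ continuous_const ?_ ?_) _
    · exact continuous_im.subtype_mk _
    · exact fun x => NNReal.ne_iff.mp x.im_ne_zero
  · have h1 : NNReal.mk z.im z.im_pos.le ≠ 0 := NNReal.ne_iff.mp z.im_ne_zero
    exact ENNReal.coe_ne_zero.2 (pow_ne_zero _ (one_div_ne_zero h1))

/-- Sketch: `ψ F = 0` a.e., so `ψ(a z) F(z) = 0` a.e. for each `a`; or directly
`∫ F = ∑_a ∫ ψ(a z) F(a z) = 0`. -/
theorem IsWt.ae_eq_zero (h : IsWt A ψ 1) {F : ℍ → ℝ≥0∞} (hF : Measurable F)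
    (hinv : ∀ a ∈ A, ∀ z : ℍ, F (a • z) = F z) (h0 : ∫⁻ z, ψ z * F z = 0) :
    ∀ᵐ z : ℍ, F z = 0 := by
  have e1 := gwt1_unfold h hF
  rw [one_mul] at e1
  have e2 : ∀ a : A, ∫⁻ z, ψ ((a : SL(2, ℤ)) • z) * F z = 0 := by
    intro a
    rw [← h0, ← lintegral_SL (a : SL(2, ℤ)) (F := fun z => ψ z * F z) (h.meas.mul hF)]
    refine lintegral_congr (fun z => ?_)
    rw [hinv a a.2 z]
  simp only [e2, tsum_zero] at e1
  exact (lintegral_eq_zero_iff hF).1 e1

theorem IsWt.mass_ne_zero (h : IsWt A ψ 1) : ∫⁻ z, ψ z ≠ 0 := by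
  intro h0
  have h1 := h.ae_eq_zero (F := fun _ => 1) measurable_const (fun _ _ _ => rfl) (by simpa using h0)
  have h2 : (volume : Measure ℍ) Set.univ = 0 := by
    rw [ae_iff] at h1
    simpa using h1
  exact isOpen_univ.measure_ne_zero volume Set.univ_nonempty h2

end Pool.Agent.Lib.MP_88d29b_nt.G
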