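import Pool.Agent.Lib.MP_88d29b_nt.GWt1

/-!
Existence of weight functions of finite mass.
-/

set_option autoImplicit false

noncomputable section

namespace Pool.Agent.Lib.MP_88d29b_nt.G

open Finset CongruenceSubgroup UpperHalfPlane Filter MeasureTheory
open scoped MatrixGroups ModularForm Manifold Topology ENNReal

/-- Sketch: `𝒟 ⊆ {|re| ≤ 1/2, 1/2 ≤ im}` (`three_le_four_mul_im_sq_of_mem_fd`),
`volume_eq_lintegral`, `Complex.volume_preserving_equiv_real_prod`, Tonelli and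
`∫_{1/2}^∞ y^(-2) < ∞`; or cover by the boxes `2^n ≤ 2 im ≤ 2^(n+1)` of measure `O(2^(-n))`. -/
theorem volume_fd_lt_top : (volume : Measure ℍ) ModularGroup.fd < ⊤ := by
  rw [volume_eq_lintegral]
  set B : Set (ℝ × ℝ) := Set.Icc (-(1 / 2) : ℝ) (1 / 2) ×ˢ Set.Ioi (1 / 2 : ℝ) with hB
  have hint : IntegrableOn (fun p : ℝ × ℝ => p.2 ^ (-2 : ℝ)) B := by
    rw [IntegrableOn, hB, Measure.volume_eq_prod, ← Measure.prod_restrict]
    have h1 : Integrable (fun _ : ℝ => (1 : ℝ)) (volume.restrict (Set.Icc (-(1 / 2) : ℝ) (1 / 2))) :=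
      integrable_const _
    have h2 : IntegrableOn (fun t : ℝ => t ^ (-2 : ℝ)) (Set.Ioi (1 / 2 : ℝ)) :=
      integrableOn_Ioi_rpow_of_lt (by norm_num) (by norm_num)
    simpa using h1.mul_prod h2
  have hfin := hint.lintegral_lt_top
  rw [← Complex.volume_preserving_equiv_real_prod.setLIntegral_comp_preimage_emb
    Complex.measurableEquivRealProd.measurableEmbedding] at hfin
  have hsub : UpperHalfPlane.coe '' ModularGroup.fd ⊆ Complex.measurableEquivRealProd ⁻¹' B := by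
    rintro _ ⟨τ, hτ, rfl⟩
    have h1 := ModularGroup.three_le_four_mul_im_sq_of_mem_fd hτ
    have h2 := abs_le.1 hτ.2
    refine ⟨h2, ?_⟩
    show (1 / 2 : ℝ) < τ.im
    nlinarith [τ.im_pos]
  refine lt_of_le_of_lt ?_ (lt_of_le_of_lt (lintegral_mono_set hsub) hfin)
  refine le_of_eq (setLIntegral_congr_fun
    (measurableEmbedding_coe.measurableSet_image.2 ModularGroup.isClosed_fd.measurableSet) ?_)
  rintro _ ⟨τ, -, rfl⟩
  have h0 : 0 < τ.im := τ.im_pos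
  show (((1 / ‖τ.im‖₊) ^ 2 : NNReal) : ℝ≥0∞) = ENNReal.ofReal (τ.im ^ (-2 : ℝ))
  rw [← ENNReal.ofReal_coe_nnreal]
  congr 1
  rw [Real.rpow_neg h0.le]
  simp [abs_of_pos h0]

/-- Sketch: `ModularGroup.exists_smul_mem_fd` and `ModularGroup.cases_of_mem_fd_smul_mem_fd`. -/
theorem finite_fd (z : ℍ) : {g : SL(2, ℤ) | g • z ∈ ModularGroup.fd}.Finite := by
  obtain ⟨g₀, h₀⟩ := ModularGroup.exists_smul_mem_fd z
  let T := ModularGroup.T
  let S := ModularGroup.S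
  let F : Set SL(2, ℤ) := {1, -1, T, -T, T⁻¹, -T⁻¹, S, -S, T * S, -(T * S), T⁻¹ * S * T⁻¹,
    -(T⁻¹ * S * T⁻¹), S * T⁻¹, -(S * T⁻¹), S * T, -(S * T), T * S * T, -(T * S * T), T⁻¹ * S,
    -(T⁻¹ * S)}
  have hF : F.Finite := Set.toFinite _
  refine (hF.image fun h => h * g₀).subset fun g hg => ⟨g * g₀⁻¹, ?_, by simp⟩
  have h1 : (g * g₀⁻¹) • g₀ • z ∈ ModularGroup.fd := by
    rw [smul_smul, inv_mul_cancel_right]
    exact hg
  have := ModularGroup.cases_of_mem_fd_smul_mem_fd h₀ h1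
  simp only [F, T, S, Set.mem_insert_iff, Set.mem_singleton_iff]
  tauto

lemma gwt2_meas (g : SL(2, ℤ)) : Measurable fun z : ℍ => g • z :=
  (continuous_const_smul (Matrix.SpecialLinearGroup.toGL
    (Matrix.SpecialLinearGroup.map (Int.castRingHom ℝ) g))).measurable

/-- Sketch: `n z = ∑' g, indicator 𝒟 1 (g • z)` is measurable, invariant, `1 ≤ n z < ⊤`; take
`ψ z = indicator 𝒟 1 z / n z ≤ indicator 𝒟 1 z`. -/
theorem exists_wt_top : ∃ ψ, IsWt ⊤ ψ 1 ∧ ∫⁻ z, ψ z ≠ ⊤ := by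
  let χ : ℍ → ℝ≥0∞ := ModularGroup.fd.indicator 1
  have hD : MeasurableSet ModularGroup.fd := ModularGroup.isClosed_fd.measurableSet
  have hχ : Measurable χ := measurable_one.indicator hD
  let n : ℍ → ℝ≥0∞ := fun z => ∑' g : SL(2, ℤ), χ (g • z)
  have hn : Measurable n := Measurable.tsum fun g => hχ.comp (gwt2_meas g)
  have hinv : ∀ (a : SL(2, ℤ)) (z : ℍ), n (a • z) = n z := fun a z => by
    simp only [n, smul_smul]
    exact (Equiv.mulRight a).tsum_eq fun g => χ (g • z)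
  have h1 : ∀ z, 1 ≤ n z := fun z => by
    obtain ⟨g, hg⟩ := ModularGroup.exists_smul_mem_fd z
    refine le_trans (le_of_eq ?_) (ENNReal.le_tsum g)
    exact (Set.indicator_of_mem hg (1 : ℍ → ℝ≥0∞)).symm
  have h2 : ∀ z, n z ≠ ⊤ := fun z => by
    have e : n z = ∑ g ∈ (finite_fd z).toFinset, χ (g • z) := by
      refine tsum_eq_sum fun g hg => ?_
      have h3 : g • z ∉ ModularGroup.fd := fun h => hg ((finite_fd z).mem_toFinset.2 h)
      exact Set.indicator_of_notMem h3 (1 : ℍ → ℝ≥0∞)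
    rw [e]
    refine ENNReal.sum_ne_top.2 fun g _ => ?_
    exact ne_top_of_le_ne_top ENNReal.one_ne_top (Set.indicator_le_self _ _ (g • z))
  refine ⟨fun z => χ z * (n z)⁻¹, ⟨hχ.mul hn.inv, fun z => ?_⟩, ?_⟩
  · simp only [hinv]
    rw [ENNReal.tsum_mul_right]
    have e : ∑' a : (⊤ : Subgroup SL(2, ℤ)), χ ((a : SL(2, ℤ)) • z) = n z :=
      Subgroup.topEquiv.toEquiv.tsum_eq fun g => χ (g • z)
    rw [e]
    exact ENNReal.mul_inv_cancel (lt_of_lt_of_le zero_lt_one (h1 z)).ne' (h2 z)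
  · refine ne_top_of_le_ne_top volume_fd_lt_top.ne ?_
    rw [← lintegral_indicator_one hD]
    refine lintegral_mono fun z => ?_
    exact mul_le_of_le_one_right' (ENNReal.inv_le_one.2 (h1 z))

/-- Sketch: `ψ_A z = ∑_{q : SL(2,ℤ) ⧸ A} ψ (q.out • z)`
(`Subgroup.groupEquivQuotientProdSubgroup`, `lintegral_SL`). -/
theorem exists_wt (A : Subgroup SL(2, ℤ)) [A.FiniteIndex] :
    ∃ ψ, IsWt A ψ 1 ∧ ∫⁻ z, ψ z ≠ ⊤ := by
  obtain ⟨ψ, hψ, hfin⟩ := exists_wt_top
  let _ : Fintype (SL(2, ℤ) ⧸ A) := Fintype.ofFinite _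
  have hm : ∀ q : SL(2, ℤ) ⧸ A, Measurable fun z : ℍ => ψ (q.out • z) := fun q =>
    hψ.meas.comp (gwt2_meas q.out)
  have hbij : Function.Bijective
      fun p : A × (SL(2, ℤ) ⧸ A) => p.2.out * (p.1 : SL(2, ℤ)) := by
    constructor
    · rintro ⟨a, q⟩ ⟨a', q'⟩ h
      have h' : q.out * (a : SL(2, ℤ)) = q'.out * (a' : SL(2, ℤ)) := h
      have hq : q = q' := by
        have := congrArg (QuotientGroup.mk (s := A)) h'
        rwa [QuotientGroup.mk_mul_of_mem _ a.2, QuotientGroup.mk_mul_of_mem _ a'.2,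
          QuotientGroup.out_eq', QuotientGroup.out_eq'] at this
      subst hq
      rw [Subtype.ext (mul_left_cancel h')]
    · intro g
      obtain ⟨a, ha⟩ := QuotientGroup.mk_out_eq_mul A g
      refine ⟨⟨a⁻¹, QuotientGroup.mk g⟩, ?_⟩
      simp [ha]
  refine ⟨fun z => ∑ q : SL(2, ℤ) ⧸ A, ψ (q.out • z),
    ⟨Finset.measurable_sum _ fun q _ => hm q, fun z => ?_⟩, ?_⟩
  · have e : ∑' a : (⊤ : Subgroup SL(2, ℤ)), ψ ((a : SL(2, ℤ)) • z) = ∑' g : SL(2, ℤ), ψ (g • z) :=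
      Subgroup.topEquiv.toEquiv.tsum_eq fun g => ψ (g • z)
    rw [← hψ.sum z, e, ← (Equiv.ofBijective _ hbij).tsum_eq, ENNReal.tsum_prod']
    refine tsum_congr fun a => ?_
    rw [tsum_fintype]
    simp only [Equiv.ofBijective_apply, smul_smul]
  · rw [lintegral_finsetSum _ fun q _ => hm q]
    refine ENNReal.sum_ne_top.2 fun q _ => ?_
    rw [lintegral_SL _ hψ.meas]
    exact hfin

end Pool.Agent.Lib.MP_88d29b_nt.G
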