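import Pool.Agent.Lib.MP_88d29b_nt.Defs

set_option autoImplicit false

noncomputable section

namespace Pool.Agent.Lib.MP_88d29b_nt

open Finset

lemma goodD_card_dvd (S q : ℕ) (c : ℤ) :
    (((Icc 1 S).filter (fun s : ℕ => (q : ℤ) ∣ (s : ℤ) + c)).card : ℝ) ≤ (S : ℝ) / q + 1 := by
  have h1 : ((Icc 1 S).filter (fun s : ℕ => (q : ℤ) ∣ (s : ℤ) + c)).card ≤
      (range (S / q + 1)).card := by
    refine card_le_card_of_injOn (fun s => s / q) ?_ ?_
    · intro s hs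
      simp only [coe_filter, mem_Icc, Set.mem_ofPred_eq] at hs
      simp only [coe_range, Set.mem_Iio]
      exact Nat.lt_succ_of_le (Nat.div_le_div_right hs.1.2)
    · intro a ha b hb hab
      simp only [coe_filter, mem_Icc, Set.mem_ofPred_eq] at ha hb
      have h2 : a ≡ b [MOD q] := by
        rw [Nat.modEq_iff_dvd]
        have := dvd_sub hb.2 ha.2
        rwa [add_sub_add_right_eq_sub] at this
      have h3 : a % q = b % q := h2
      have h4 : a / q = b / q := hab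
      rw [← Nat.div_add_mod a q, ← Nat.div_add_mod b q, h3, h4]
  rw [card_range] at h1
  have h5 : ((S / q : ℕ) : ℝ) ≤ (S : ℝ) / q := Nat.cast_div_le
  have h6 : (((Icc 1 S).filter (fun s : ℕ => (q : ℤ) ∣ (s : ℤ) + c)).card : ℝ) ≤
      ((S / q : ℕ) : ℝ) + 1 := by exact_mod_cast h1
  linarith

lemma goodD_geom (M : ℕ) :
    ∑ j ∈ range (64 * M), (1 / 2 : ℝ) ^ (j / 64) = 128 - 128 * (1 / 2) ^ M := by
  induction M with
  | zero => simp
  | succ M ih =>
    rw [mul_add, mul_one, sum_range_add, ih,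
      sum_congr rfl (g := fun _ => (1 / 2 : ℝ) ^ M) fun x hx => by
        rw [mem_range] at hx
        congr 1
        omega]
    simp only [sum_const, card_range, nsmul_eq_mul]
    push_cast
    ring

lemma goodD_geom_le (N : ℕ) : ∑ j ∈ range N, (1 / 2 : ℝ) ^ (j / 64) ≤ 128 := by
  have h1 : ∑ j ∈ range N, (1 / 2 : ℝ) ^ (j / 64) ≤
      ∑ j ∈ range (64 * N), (1 / 2 : ℝ) ^ (j / 64) :=
    sum_le_sum_of_subset_of_nonneg (range_subset_range.2 (by omega)) fun _ _ _ => by positivity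
  rw [goodD_geom] at h1
  have : (0 : ℝ) ≤ (1 / 2) ^ N := by positivity
  linarith

lemma goodD_pow_ge {g : ℕ} (hg : 8 ≤ g) (j : ℕ) : 2 * j ≤ 2 ^ (g + j / 64 + 1) := by
  have h1 : j / 64 + 1 ≤ 2 ^ (j / 64) := Nat.lt_two_pow_self
  have h2 : 2 ^ (9 + j / 64) ≤ 2 ^ (g + j / 64 + 1) := Nat.pow_le_pow_right (by norm_num) (by omega)
  rw [pow_add] at h2
  omega

open Classical in
/-- If `s ∈ [1, S]` is not good there is `c` with `s + c ≠ 0` and `2 ^ f ∣ s + c`, where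
`f = g + |c| / 64 + 1`. As `g ≥ 8` one has `2 ^ f ≥ 2 |c|`, so `2 ^ f ≤ S + |c|` gives
`2 ^ f ≤ 2 S` and `|c| ≤ S`. For such `c` at most `S / 2 ^ f + 1 ≤ 3 S / 2 ^ f` values of `s` occur.
Finally `∑ c, 2 ^ (-(|c| / 64)) ≤ 2 * 64 * 2`. -/
theorem card_not_good {g : ℕ} (hg : 8 ≤ g) (S : ℕ) :
    (((Icc 1 S).filter (fun s => ¬ Good g s)).card : ℝ) ≤ 384 * S / 2 ^ g := by
  let q : ℕ → ℕ := fun j => 2 ^ (g + j / 64 + 1)
  let J : Finset ℕ := (range (S + 1)).filter fun j => q j ≤ 2 * S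
  let T : ℕ → Finset ℕ := fun j =>
    (Icc 1 S).filter (fun s : ℕ => (q j : ℤ) ∣ (s : ℤ) + j) ∪
      (Icc 1 S).filter (fun s : ℕ => (q j : ℤ) ∣ (s : ℤ) + -j)
  have hsub : (Icc 1 S).filter (fun s => ¬ Good g s) ⊆ J.biUnion T := by
    intro s hs
    obtain ⟨hs1, hs2⟩ := mem_filter.1 hs
    unfold Good at hs2
    push Not at hs2
    obtain ⟨c, hc0, hc⟩ := hs2
    have hd : (q c.natAbs : ℤ) ∣ (s : ℤ) + c := by
      have := (padicValInt_dvd_iff (p := 2) (g + c.natAbs / 64 + 1) ((s : ℤ) + c)).2 (Or.inr hc)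
      simpa [q] using this
    have h1 : (q c.natAbs : ℤ) ≤ |(s : ℤ) + c| :=
      Int.le_of_dvd (abs_pos.mpr hc0) ((dvd_abs _ _).mpr hd)
    have h2 : 2 * c.natAbs ≤ q c.natAbs := goodD_pow_ge hg _
    have h3 := (mem_Icc.1 hs1).2
    have h4 : |(s : ℤ) + c| ≤ s + c.natAbs := by
      refine (abs_add_le _ _).trans ?_
      simp
    refine mem_biUnion.2 ⟨c.natAbs, mem_filter.2 ⟨mem_range.2 (by omega), by omega⟩, ?_⟩
    rcases Int.natAbs_eq c with h | h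
    · exact mem_union_left _ (mem_filter.2 ⟨hs1, h ▸ hd⟩)
    · exact mem_union_right _ (mem_filter.2 ⟨hs1, h ▸ hd⟩)
  have hT : ∀ j ∈ J, ((T j).card : ℝ) ≤ 3 * S / 2 ^ g * (1 / 2) ^ (j / 64) := by
    intro j hj
    have hq0 : 0 < q j := by positivity
    have hq1 : (0 : ℝ) < q j := by exact_mod_cast hq0
    have hq2 : (q j : ℝ) ≤ 2 * S := by exact_mod_cast (mem_filter.1 hj).2
    have h1 := goodD_card_dvd S (q j) j
    have h2 := goodD_card_dvd S (q j) (-j)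
    have h3 : ((T j).card : ℝ) ≤
        ((Icc 1 S).filter (fun s : ℕ => (q j : ℤ) ∣ (s : ℤ) + j)).card +
          ((Icc 1 S).filter (fun s : ℕ => (q j : ℤ) ∣ (s : ℤ) + -j)).card := by
      rw [← Nat.cast_add]
      exact Nat.cast_le.2 (card_union_le _ _)
    have h4 : (1 : ℝ) ≤ 2 * (S / q j) := by
      rw [← mul_div_assoc, le_div_iff₀ hq1]
      linarith
    have h5 : 3 * (S : ℝ) / 2 ^ g * (1 / 2) ^ (j / 64) = 6 * (S / q j) := by
      simp only [q]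
      push_cast
      rw [one_div, inv_pow, pow_succ, pow_add]
      field_simp
      ring
    linarith
  have h6 : (((Icc 1 S).filter (fun s => ¬ Good g s)).card : ℝ) ≤ ∑ j ∈ J, ((T j).card : ℝ) := by
    exact_mod_cast (card_le_card hsub).trans card_biUnion_le
  have h7 : ∑ j ∈ J, (1 / 2 : ℝ) ^ (j / 64) ≤ 128 :=
    (sum_le_sum_of_subset_of_nonneg (filter_subset _ _) fun _ _ _ => by positivity).trans
      (goodD_geom_le (S + 1))
  refine h6.trans ((sum_le_sum hT).trans ?_)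
  rw [← mul_sum]
  refine (mul_le_mul_of_nonneg_left h7 (by positivity)).trans (le_of_eq ?_)
  ring

lemma goodD_key {g s r C : ℕ} (hs : Good g s) (hC : 2 * s < 2 ^ (r - 1 + C))
    (hL : Lam s ≤ (s : ℝ) / 64) {x A : ℤ} (hx0 : 0 < x) (hx1 : x ≤ 2 * s)
    (hA : (2 : ℤ) ^ (r - 1) ∣ s - A) :
    (padicValInt 2 x : ℝ) ≤ g + C + |(x : ℝ) - A| / 64 := by
  have hg0 : (0 : ℝ) ≤ g := Nat.cast_nonneg _
  have hC0 : (0 : ℝ) ≤ C := Nat.cast_nonneg _
  by_cases h0 : (s : ℤ) + (x - A) = 0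
  · have h1 := (bd_inv_int_iff hx0.ne').1 (small_Lam (s := s) hx0 hx1 x le_rfl le_rfl)
    have h2 : (x : ℝ) - A = -s := by
      have : x - A = -s := by omega
      exact_mod_cast this
    rw [h2, abs_neg, Nat.abs_cast]
    linarith
  have h1 := hs _ h0
  have hvx : (2 : ℤ) ^ padicValInt 2 x ∣ x := by simpa using padicValInt_dvd (p := 2) x
  have h2 : min (padicValInt 2 x) (r - 1) ≤ padicValInt 2 ((s : ℤ) + (x - A)) := by
    refine ((padicValInt_dvd_iff (p := 2) _ _).1 ?_).resolve_left h0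
    have e : (s : ℤ) + (x - A) = x + (s - A) := by ring
    rw [e]
    exact dvd_add ((pow_dvd_pow _ (min_le_left _ _)).trans hvx)
      ((pow_dvd_pow _ (min_le_right _ _)).trans hA)
  have h3 : padicValInt 2 x < r - 1 + C := by
    have a1 : (2 : ℤ) ^ padicValInt 2 x ≤ x := Int.le_of_dvd hx0 hvx
    have a2 : (2 * s : ℤ) < 2 ^ (r - 1 + C) := by exact_mod_cast hC
    exact (pow_lt_pow_iff_right₀ (by norm_num : (1 : ℤ) < 2)).1 (by linarith)
  have h4 : padicValInt 2 x ≤ g + C + (x - A).natAbs / 64 := by omega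
  have h5 : (((x - A).natAbs / 64 : ℕ) : ℝ) ≤ |(x : ℝ) - A| / 64 := by
    refine Nat.cast_div_le.trans (le_of_eq ?_)
    rw [Nat.cast_natAbs]
    push_cast
    rfl
  have h6 : (padicValInt 2 x : ℝ) ≤ g + C + (((x - A).natAbs / 64 : ℕ) : ℝ) := by
    exact_mod_cast h4
  linarith

lemma goodD_key2 {g s r C : ℕ} (hs : Good g s) (hC : 2 * s < 2 ^ (r - 1 + C))
    (hL : Lam s ≤ (s : ℝ) / 64) {x A : ℤ} (hx0 : 0 < x) (hx1 : x ≤ 2 * s)
    (hA : (2 : ℤ) ^ (r - 1) ∣ s - A) :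
    (padicValInt 2 x : ℝ) ≤ g + C + 1 + |(x : ℝ) - ((2 * A : ℤ) : ℝ)| / 64 := by
  have hg0 : (0 : ℝ) ≤ g := Nat.cast_nonneg _
  have hC0 : (0 : ℝ) ≤ C := Nat.cast_nonneg _
  by_cases h2 : (2 : ℤ) ∣ x
  · obtain ⟨y, rfl⟩ := h2
    have h3 := goodD_key hs hC hL (x := y) (by omega) (by omega) hA
    have h4 : padicValInt 2 (2 * y) = 1 + padicValInt 2 y := by
      rw [padicValInt.mul (by norm_num) (by omega)]
      congr 1
      exact padicValInt.self (p := 2) (by norm_num)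
    have h5 : ((2 * y : ℤ) : ℝ) - ((2 * A : ℤ) : ℝ) = 2 * ((y : ℝ) - A) := by
      push_cast
      ring
    rw [h4, h5, abs_mul, abs_two]
    push_cast
    have := abs_nonneg ((y : ℝ) - A)
    linarith
  · rw [padicValInt.eq_zero_of_not_dvd (p := 2) (by exact_mod_cast h2), Nat.cast_zero]
    positivity

/-- First show: if `2 ^ (r - 1) ∣ s - A` and `0 < x ≤ 2 s` then
`v(x) ≤ g + C + |x - A| / 64`. Put `c = x - A`. If `s + c = 0` use `v(x) ≤ Lam s ≤ s / 64`. If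
`v(s + c) < r - 1` then `v(x) = v(s + c)`. Otherwise `r - 1 ≤ g + |c| / 64` and
`v(x) < r - 1 + C`. For the centres `2 s - 3 n`, `2 s - 4 n` (even numbers): an odd `x` has
valuation `0`, and for `x = 2 x'` apply the claim to `x'` and half the centre. Use
`bd_inv_int_iff`, `bd_inv_int_log`. -/
theorem gen_of_good {g s n r C : ℕ} (hs : Good g s) (hr1 : 1 ≤ r) (hr : 2 ^ r ∣ n)
    (hC : 2 * s < 2 ^ (r - 1 + C)) (hL : Lam s ≤ (s : ℝ) / 64) :
    Gen s n ((g : ℝ) + C + 1) := by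
  intro x hx0 hx1 A hA
  rw [bd_inv_int_iff hx0.ne']
  obtain ⟨m, hm⟩ := hr
  have hn : (n : ℤ) = 2 * (2 ^ (r - 1) * m) := by
    obtain ⟨r', rfl⟩ : ∃ r', r = r' + 1 := ⟨r - 1, by omega⟩
    rw [hm, Nat.add_sub_cancel]
    push_cast
    ring
  rcases hA with rfl | rfl | rfl | rfl
  · have := goodD_key hs hC hL hx0 hx1 (A := s - 2 * n) ⟨4 * m, by rw [hn]; ring⟩
    linarith
  · have := goodD_key hs hC hL hx0 hx1 (A := s - 3 * n) ⟨6 * m, by rw [hn]; ring⟩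
    linarith
  · have := goodD_key2 hs hC hL hx0 hx1 (A := s - 3 * (2 ^ (r - 1) * m)) ⟨3 * m, by ring⟩
    rwa [show 2 * ((s : ℤ) - 3 * (2 ^ (r - 1) * m)) = 2 * s - 3 * n by rw [hn]; ring] at this
  · have := goodD_key2 hs hC hL hx0 hx1 (A := s - 2 * n) ⟨4 * m, by rw [hn]; ring⟩
    rwa [show 2 * ((s : ℤ) - 2 * n) = 2 * s - 4 * n by ring] at this

end Pool.Agent.Lib.MP_88d29b_nt
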