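import Pool.Agent.Lib.MP_88d29b_nt.HDefs
import Pool.Agent.Lib.MP_88d29b_nt.GStmt
import Pool.Agent.Lib.MP_88d29b_nt.GMult
import Pool.Agent.Lib.MP_88d29b_nt.GTr
import Pool.Agent.Lib.MP_88d29b_nt.GDiag
import Pool.Agent.Lib.MP_88d29b_nt.GInj
import Pool.Agent.Lib.MP_88d29b_nt.GDim2

/-!
The analytic input.
-/

set_option autoImplicit false

noncomputable section

namespace Pool.Agent.Lib.MP_88d29b_nt.G

open Finset CongruenceSubgroup
open scoped MatrixGroups

/-- The dimension of the space of cusp forms. -/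
abbrev dimS (N k : ℕ) : ℕ := Module.finrank ℂ (CuspForm (Gamma0 N) (k : ℤ))

lemma roots_le_of_injective {K V W : Type*} [Field K] [AddCommGroup V] [Module K V]
    [Module.Finite K V] [AddCommGroup W] [Module K W] [Module.Finite K W] (E : V →ₗ[K] W)
    (hE : Function.Injective E) (S : Module.End K V) (T : Module.End K W)
    (h : ∀ x, E (S x) = T (E x)) : S.charpoly.roots ≤ T.charpoly.roots := by
  classical
  rw [Multiset.le_iff_count]
  intro μ
  rw [Polynomial.count_roots, Polynomial.count_roots, ← LinearMap.finrank_maxGenEigenspace_eq,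
    ← LinearMap.finrank_maxGenEigenspace_eq]
  have key : ∀ (n : ℕ) x, E (((S - μ • 1) ^ n) x) = ((T - μ • 1) ^ n) (E x) := by
    intro n
    induction n with
    | zero => intro x; simp
    | succ n ih =>
      intro x
      rw [pow_succ, pow_succ, Module.End.mul_apply, Module.End.mul_apply, ih]
      simp [h]
  have hm : ∀ x ∈ S.maxGenEigenspace μ, E x ∈ T.maxGenEigenspace μ := by
    intro x hx
    rw [Module.End.mem_maxGenEigenspace] at hx ⊢
    obtain ⟨n, hn⟩ := hx
    exact ⟨n, by rw [← key, hn, map_zero]⟩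
  exact LinearMap.finrank_le_finrank_of_injective (f := E.restrict hm)
    (fun x y hxy => Subtype.ext (hE (congrArg Subtype.val hxy)))

theorem ext_arch (N : ℕ) [NeZero N] : ∃ C C' : ℕ, ∀ κ : ℕ, Even κ → 2 ≤ κ →
    Arch ℂ N κ ((κ + 2) ^ C) (C' * Nat.log 2 κ ^ C')
      (Module.finrank ℂ (HH ℂ N κ) - 2 * dimS N (κ + 2)) (((κ : ℝ) + 2) ^ (C' * (κ + 2))) := by
  classical
  obtain ⟨C1, h1⟩ := sturm_indep N
  obtain ⟨C2, h2⟩ := mult_bound N
  obtain ⟨C3, h3⟩ := trace_bound N C1
  refine ⟨C1, 2 * C2 + C3, fun κ hκ hκ2 => ⟨?_, ?_⟩⟩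
  · obtain ⟨d, b, lam, hb⟩ := exists_eigenbasis N (κ + 2)
    obtain ⟨E, hE, hT⟩ := exists_ES_inj N hκ (by omega)
    let e : Fin (d + d) → Fin d := fun j => Sum.elim id id (finSumFinEquiv.symm j)
    have hd : dimS N (κ + 2) = d := by
      rw [dimS, Module.finrank_eq_card_basis b, Fintype.card_fin]
    refine ⟨d + d, fun j => E ((b.prod b) (finSumFinEquiv.symm j)), fun j => lam (e j), ?_, ?_,
      ?_, ?_, ?_⟩
    · exact ((b.prod b).linearIndependent.map' E (LinearMap.ker_eq_bot.mpr hE)).comp _
        finSumFinEquiv.symm.injective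
    · omega
    · intro j l hl hN
      rw [← hT l hl hN, ← map_smul]
      congr 1
      simp only [e]
      have hb' := hb l
      generalize TS N ((κ + 2 : ℕ) : ℤ) l = T at hb' ⊢
      rcases finSumFinEquiv.symm j with i | i <;> ext1 <;> simp [hb']
    · intro s hs a ha j hj
      have := h1 (κ + 2) (by omega) s (fun j => lam (e j))
        (fun j => ⟨b (e j), b.ne_zero _, fun l _ _ => hb l _⟩)
        (fun i j hij => Subtype.ext (hs i i.2 j j.2 hij)) (fun j => a j)
        (fun n hn0 hnB hN => by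
          rw [Finset.sum_coe_sort s (fun j => a j * hn (κ + 2) (lam (e j)) n)]
          exact hn_of_mon s a (fun j => lam (e j)) (κ + 2) ha n hn0 hnB hN)
      exact congrFun this ⟨j, hj⟩
    · intro i
      have h4 := h2 κ hκ2 {t : Fin d // Same N (lam t) (lam (e i))} (fun t => b t) (lam (e i))
        (b.linearIndependent.comp _ Subtype.val_injective)
        (fun t l hl hN => by rw [hb, t.2 l hl hN])
      have h5 : (univ.filter fun j => Same N (lam (e j)) (lam (e i))).card ≤
          2 * Fintype.card {t : Fin d // Same N (lam t) (lam (e i))} := by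
        rw [Fintype.card_subtype]
        refine Finset.card_le_mul_card_image_of_maps_to (f := e) (fun j hj => ?_) 2
          (fun t _ => ?_)
        · simpa using hj
        · refine le_trans (Finset.card_le_card (t := {finSumFinEquiv (Sum.inl t),
            finSumFinEquiv (Sum.inr t)}) fun j hj => ?_) Finset.card_le_two
          have hj' := (Finset.mem_filter.mp hj).2
          obtain ⟨x, rfl⟩ := finSumFinEquiv.surjective j
          simp only [e, Equiv.symm_apply_apply] at hj'
          rcases x with x | x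
          · simp only [Sum.elim_inl, id_eq] at hj'
            simp [hj']
          · simp only [Sum.elim_inr, id_eq] at hj'
            simp [hj']
      have hL : 1 ≤ Nat.log 2 κ := Nat.log_pos one_lt_two hκ2
      calc _ ≤ 2 * (C2 * Nat.log 2 κ ^ C2) := h5.trans (by gcongr)
        _ = 2 * C2 * Nat.log 2 κ ^ C2 := by ring
        _ ≤ _ := Nat.mul_le_mul (by omega) (Nat.pow_le_pow_right hL (by omega))
  · intro n n' hn hnB _ hn' hnB' _ z hz
    have := h3 κ n n' (by omega) (by omega) hnB hnB'
    rw [hz, Complex.norm_intCast] at this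
    refine this.trans (pow_le_pow_right₀ ?_ (Nat.mul_le_mul_right _ (by omega)))
    have : (0 : ℝ) ≤ κ := Nat.cast_nonneg κ
    linarith

theorem ext_slopes (p N : ℕ) [Fact p.Prime] [NeZero N] (hN : Nat.Coprime p N) {κ : ℕ}
    (hκ : Even κ) (h2 : 2 ≤ κ) : ∃ rest : Multiset ℂ,
      slopes ℂ N κ p = eigenvalues p N hN (κ + 2) + eigenvalues p N hN (κ + 2) + rest := by
  have := finite_cusp N (κ + 2)
  obtain ⟨E, hE, hT⟩ := exists_ES_inj N hκ (by omega)
  have h := roots_le_of_injective E hE
    ((hecke N _ Fact.out hN).prodMap (hecke N _ Fact.out hN)) (Tl ℂ N κ p) (fun x => by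
      rw [← hT p Fact.out hN, TS_eq N _ Fact.out hN]
      rfl)
  rw [LinearMap.charpoly_prodMap, Polynomial.roots_mul
    (mul_ne_zero (LinearMap.charpoly_monic _).ne_zero (LinearMap.charpoly_monic _).ne_zero)] at h
  exact Multiset.le_iff_exists_add.mp h

theorem ext_card (p N : ℕ) [Fact p.Prime] [NeZero N] (hN : Nat.Coprime p N) (k : ℕ) :
    (eigenvalues p N hN k).card = dimS N k := by
  have := finite_cusp N k
  rw [eigenvalues, ← (IsAlgClosed.splits _).natDegree_eq_card_roots, LinearMap.charpoly_natDegree]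

theorem ext_odd (N : ℕ) [NeZero N] {k : ℕ} (hk : Odd k) : dimS N k = 0 := by
  have : Subsingleton (CuspForm (Gamma0 N) (k : ℤ)) :=
    subsingleton_of_forall_eq 0 (cusp_odd N (by exact_mod_cast hk))
  exact Module.finrank_zero_of_subsingleton

theorem ext_lower (N : ℕ) [NeZero N] : ∃ C : ℕ, ∀ k : ℕ, Even k →
    (Gamma0 N).index * k ≤ 12 * dimS N k + C := dim_lower N

theorem ext_two_dim_le (N : ℕ) [NeZero N] {κ : ℕ} (hκ : Even κ) (h2 : 2 ≤ κ) :
    2 * dimS N (κ + 2) ≤ Module.finrank ℂ (HH ℂ N κ) := by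
  have := finite_cusp N (κ + 2)
  obtain ⟨E, hE, -⟩ := exists_ES_inj N hκ (by omega)
  have h := LinearMap.finrank_le_finrank_of_injective hE
  rwa [Module.finrank_prod, ← two_mul] at h

end Pool.Agent.Lib.MP_88d29b_nt.G
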