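import Pool.Agent.Lib.MP_88d29b_nt.M3Loc

/-!
Coset representatives of the operators `U`, `W` and `B`.
-/

set_option autoImplicit false

noncomputable section

namespace Pool.Agent.Lib.MP_88d29b_nt.G.M3

open Finset CongruenceSubgroup
open scoped MatrixGroups

variable {p : ℕ} [hp : Fact p.Prime] {M : ℕ}

lemma M3Cov_ne_zero (hM : Nat.Coprime p M) : M ≠ 0 := by
  rintro rfl
  exact hp.out.one_lt.ne' (by simpa using hM)

omit hp in
lemma M3Cov_det_u (M : ℕ) (a : Fin p) : (uRep p M a).det = p := by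
  simp [uRep, Matrix.det_fin_two]

omit hp in
lemma M3Cov_bezout (hM : Nat.Coprime p M) :
    (p : ℤ) * Nat.gcdA p M + (M : ℤ) * Nat.gcdB p M = 1 := by
  have h := Nat.gcd_eq_gcd_ab p M
  rw [hM] at h
  exact_mod_cast h.symm

omit hp in
lemma M3Cov_det_w (hM : Nat.Coprime p M) : (wMat p M).det = p := by
  have h := M3Cov_bezout hM
  rw [wMat, Matrix.det_fin_two_of]
  linear_combination (p : ℤ) * h

/-- The lower right entry of an element of `Γ_0(M p)` is prime to `p`. -/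
lemma M3Cov_unit {g : SL(2, ℤ)} (hg : g ∈ Gamma0 (M * p)) : ¬ (p : ℤ) ∣ g 1 1 := by
  rw [mem_Gamma0_iff] at hg
  have hq : Prime (p : ℤ) := Nat.prime_iff_prime_int.mp hp.out
  have hdet := g.det_coe
  rw [Matrix.det_fin_two] at hdet
  intro h
  have h1 : (p : ℤ) ∣ g 1 0 := dvd_trans (by push_cast; exact dvd_mul_left _ _) hg
  apply hq.not_dvd_one
  rw [← hdet]
  exact dvd_sub (h.mul_left _) (h1.mul_left _)

/-- Matrices of type `U` lie in one of the cosets `Γ_0(M p) u_a`. -/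
lemma M3Cov_decomp_u (m : Mat) (hd : m.det = p) (ha : (p : ℤ) ∣ m 0 0)
    (hc : ((M * p : ℕ) : ℤ) ∣ m 1 0) (hu : ¬ (p : ℤ) ∣ m 1 1) :
    ∃ j, ∃ t ∈ Gamma0 (M * p), m = ((t : SL(2, ℤ)) : Mat) * uRep p M j := by
  have hp0 : (p : ℤ) ≠ 0 := by exact_mod_cast hp.out.ne_zero
  have : NeZero p := ⟨hp.out.ne_zero⟩
  obtain ⟨a, ha⟩ := ha
  obtain ⟨c, hc⟩ := hc
  push_cast at hc
  rw [Matrix.det_fin_two] at hd
  have h1 : ((m 1 1 : ℤ) : ZMod p) ≠ 0 := fun h =>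
    hu ((ZMod.intCast_zmod_eq_zero_iff_dvd _ _).mp h)
  obtain ⟨x, hx⟩ : ∃ x : ZMod p, ((c : ℤ) : ZMod p) = (m 1 1 : ℤ) * x :=
    ⟨(c : ℤ) / (m 1 1 : ℤ), by field_simp⟩
  have hv : ((x.val : ℤ) : ZMod p) = x := by simp
  obtain ⟨n, hn⟩ : ∃ n : Fin p, ((n : ℕ) : ℤ) = (x.val : ℤ) := ⟨⟨x.val, x.val_lt⟩, rfl⟩
  obtain ⟨b, hb⟩ : (p : ℤ) ∣ c - m 1 1 * (n : ℕ) := by
    rw [← ZMod.intCast_zmod_eq_zero_iff_dvd, hn]
    push_cast at hv ⊢
    rw [hv, hx, sub_self]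
  refine ⟨n, ⟨!![a - m 0 1 * M * (n : ℕ), m 0 1; M * p * b, m 1 1], ?_⟩, ?_, ?_⟩
  · rw [Matrix.det_fin_two_of]
    apply mul_left_cancel₀ hp0
    rw [ha, hc] at hd
    linear_combination hd + (p : ℤ) * M * m 0 1 * hb
  · refine mem_Gamma0_iff.mpr ?_
    change ((M * p : ℕ) : ℤ) ∣ M * p * b
    push_cast
    exact dvd_mul_right _ _
  · ext i j
    fin_cases i <;> fin_cases j <;> simp [uRep, Matrix.mul_apply, Fin.sum_univ_two]
    · linear_combination ha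
    · linear_combination hc + (p : ℤ) * M * hb

/-- Matrices of Atkin-Lehner type lie in the coset `Γ_0(M p) w`. -/
lemma M3Cov_decomp_w (hM : Nat.Coprime p M) (m : Mat) (hd : m.det = p) (ha : (p : ℤ) ∣ m 0 0)
    (hc : ((M * p : ℕ) : ℤ) ∣ m 1 0) (hu : (p : ℤ) ∣ m 1 1) :
    ∃ t ∈ Gamma0 (M * p), m = ((t : SL(2, ℤ)) : Mat) * wMat p M := by
  have hp0 : (p : ℤ) ≠ 0 := by exact_mod_cast hp.out.ne_zero
  have hb := M3Cov_bezout hM
  obtain ⟨a, ha⟩ := ha
  obtain ⟨c, hc⟩ := hc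
  obtain ⟨d, hd2⟩ := hu
  push_cast at hc
  rw [Matrix.det_fin_two] at hd
  have hd3 : (p : ℤ) * a * d - m 0 1 * M * c = 1 := by
    apply mul_left_cancel₀ hp0
    rw [ha, hc, hd2] at hd
    linear_combination hd
  refine ⟨⟨!![p * a - m 0 1 * M, a * Nat.gcdB p M + m 0 1 * Nat.gcdA p M;
    M * p * (c - d), M * c * Nat.gcdB p M + p * d * Nat.gcdA p M], ?_⟩, ?_, ?_⟩
  · rw [Matrix.det_fin_two_of]
    linear_combination ((p : ℤ) * a * d - m 0 1 * M * c) * hb + hd3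
  · refine mem_Gamma0_iff.mpr ?_
    change ((M * p : ℕ) : ℤ) ∣ M * p * (c - d)
    push_cast
    exact dvd_mul_right _ _
  · ext i j
    fin_cases i <;> fin_cases j <;> simp [wMat, Matrix.mul_apply, Fin.sum_univ_two]
    · linear_combination ha - (p : ℤ) * a * hb
    · linear_combination (-m 0 1) * hb
    · linear_combination hc - (p : ℤ) * M * c * hb
    · linear_combination hd2 - (p : ℤ) * d * hb

lemma M3Cov_ex_u {g : SL(2, ℤ)} (hg : g ∈ Gamma0 (M * p)) (a : Fin p) :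
    ∃ j, ∃ t ∈ Gamma0 (M * p), uRep p M a * (g : Mat) = ((t : SL(2, ℤ)) : Mat) * uRep p M j := by
  have hu := M3Cov_unit hg
  rw [mem_Gamma0_iff] at hg
  refine M3Cov_decomp_u _ (by rw [Matrix.det_mul, M3Cov_det_u, g.det_coe, mul_one]) ?_ ?_ ?_
  · simp [uRep, Matrix.mul_apply, Fin.sum_univ_two]
  · have e : (uRep p M a * (g : Mat)) 1 0 = ((M * p : ℕ) : ℤ) * ((a : ℕ) * g 0 0) + g 1 0 := by
      simp [uRep, Matrix.mul_apply, Fin.sum_univ_two]
      ring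
    rw [e]
    exact dvd_add (dvd_mul_right _ _) hg
  · have e : (uRep p M a * (g : Mat)) 1 1 = (p : ℤ) * (M * (a : ℕ) * g 0 1) + g 1 1 := by
      simp [uRep, Matrix.mul_apply, Fin.sum_univ_two]
      ring
    rw [e, dvd_add_right (dvd_mul_right _ _)]
    exact hu

lemma M3Cov_ex_w (hM : Nat.Coprime p M) {g : SL(2, ℤ)} (hg : g ∈ Gamma0 (M * p)) :
    ∃ t ∈ Gamma0 (M * p), wMat p M * (g : Mat) = ((t : SL(2, ℤ)) : Mat) * wMat p M := by
  rw [mem_Gamma0_iff] at hg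
  have h1 : (p : ℤ) ∣ g 1 0 := dvd_trans (by push_cast; exact dvd_mul_left _ _) hg
  refine M3Cov_decomp_w hM _ (by rw [Matrix.det_mul, M3Cov_det_w hM, g.det_coe, mul_one]) ?_ ?_ ?_
  · have e : (wMat p M * (g : Mat)) 0 0 =
        (p : ℤ) * (Nat.gcdA p M * g 0 0) - Nat.gcdB p M * g 1 0 := by
      simp [wMat, Matrix.mul_apply, Fin.sum_univ_two]
      ring
    rw [e]
    exact dvd_sub (dvd_mul_right _ _) (h1.mul_left _)
  · have e : (wMat p M * (g : Mat)) 1 0 = ((M * p : ℕ) : ℤ) * g 0 0 + p * g 1 0 := by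
      simp [wMat, Matrix.mul_apply, Fin.sum_univ_two, mul_comm]
    rw [e]
    exact dvd_add (dvd_mul_right _ _) (hg.mul_left _)
  · have e : (wMat p M * (g : Mat)) 1 1 = (p : ℤ) * (M * g 0 1 + g 1 1) := by
      simp [wMat, Matrix.mul_apply, Fin.sum_univ_two]
      ring
    rw [e]
    exact dvd_mul_right _ _

lemma M3Cov_inj_u (hM : M ≠ 0) (i j : Fin p) {t : SL(2, ℤ)} (ht : t ∈ Gamma0 (M * p))
    (h : uRep p M i = (t : Mat) * uRep p M j) : i = j := by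
  have hp0 : (p : ℤ) ≠ 0 := by exact_mod_cast hp.out.ne_zero
  have hM0 : (M : ℤ) ≠ 0 := by exact_mod_cast hM
  rw [mem_Gamma0_iff] at ht
  obtain ⟨c, hc⟩ := ht
  push_cast at hc
  have e10 : (p : ℤ) * M * (i : ℕ) = t 1 0 * p + t 1 1 * (p * M * (j : ℕ)) := by
    simpa [uRep, Matrix.mul_apply, Fin.sum_univ_two] using congrFun (congrFun h 1) 0
  have e11 : (1 : ℤ) = t 1 1 := by
    simpa [uRep, Matrix.mul_apply, Fin.sum_univ_two] using congrFun (congrFun h 1) 1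
  have e : ((i : ℕ) : ℤ) - (j : ℕ) = p * c := by
    apply mul_left_cancel₀ (mul_ne_zero hp0 hM0)
    rw [← e11, hc] at e10
    linear_combination e10
  have hi : ((i : ℕ) : ℤ) < p := by exact_mod_cast i.2
  have hj : ((j : ℕ) : ℤ) < p := by exact_mod_cast j.2
  have hi0 : (0 : ℤ) ≤ (i : ℕ) := Int.natCast_nonneg _
  have hj0 : (0 : ℤ) ≤ (j : ℕ) := Int.natCast_nonneg _
  have h0 : c = 0 := by
    by_contra hne
    rcases lt_or_gt_of_ne hne with h1 | h1 <;> nlinarith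
  rw [h0, mul_zero, sub_eq_zero] at e
  exact Fin.ext (by exact_mod_cast e)

lemma cov_uRep (M : ℕ) (hM : M ≠ 0) : Cov (Gamma0 (M * p)) (Gamma0 (M * p)) (uRep p M) where
  det_ne i := by
    rw [M3Cov_det_u]
    exact_mod_cast hp.out.ne_zero
  ex g hg i := M3Cov_ex_u hg i
  inj i j t ht h := M3Cov_inj_u hM i j ht h

lemma cov_wRep (hM : Nat.Coprime p M) : Cov (Gamma0 (M * p)) (Gamma0 (M * p)) (wRep p M) where
  det_ne i := by
    rw [wRep, M3Cov_det_w hM]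
    exact_mod_cast hp.out.ne_zero
  ex g hg i := ⟨(), M3Cov_ex_w hM hg⟩
  inj i j t ht h := rfl

lemma cov_bRep (hM : Nat.Coprime p M) : Cov (Gamma0 (M * p)) (Gamma0 (M * p)) (bRep p M) where
  det_ne i := by
    cases i with
    | none => exact (cov_wRep hM).det_ne ()
    | some a => exact (cov_uRep M (M3Cov_ne_zero hM)).det_ne a
  ex g hg i := by
    cases i with
    | none => exact ⟨none, M3Cov_ex_w hM hg⟩
    | some a =>
      obtain ⟨j, h⟩ := M3Cov_ex_u hg a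
      exact ⟨some j, h⟩
  inj i j t ht h := by
    have hq : Prime (p : ℤ) := Nat.prime_iff_prime_int.mp hp.out
    have hu := M3Cov_unit ht
    have h1 : (p : ℤ) ∣ t 1 0 :=
      dvd_trans (by push_cast; exact dvd_mul_left _ _) (mem_Gamma0_iff.mp ht)
    have e11 := congrFun (congrFun h 1) 1
    rcases i with _ | i <;> rcases j with _ | j
    · rfl
    · exfalso
      have e : (p : ℤ) = t 1 1 := by
        simpa [bRep, wMat, uRep, Matrix.mul_apply, Fin.sum_univ_two] using e11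
      exact hu (e ▸ dvd_rfl)
    · exfalso
      have e : (1 : ℤ) = -(t 1 0 * Nat.gcdB p M) + t 1 1 * p := by
        simpa [bRep, wMat, uRep, Matrix.mul_apply, Fin.sum_univ_two] using e11
      apply hq.not_dvd_one
      rw [e]
      exact dvd_add (dvd_neg.mpr (h1.mul_right _)) (dvd_mul_left _ _)
    · rw [M3Cov_inj_u (M3Cov_ne_zero hM) i j ht h]

lemma foxM_bRep (hM : Nat.Coprime p M) {ι : Type} [Fintype ι] (fb : FB (M * p) ι) :
    foxM fb (bRep p M) = foxM fb (uRep p M) + foxM fb (wRep p M) := by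
  funext k j
  have hg := (fb.gen j).2
  have e1 : step (Gamma0 (M * p)) (bRep p M) (fb.gen j) none =
      (none, (step (Gamma0 (M * p)) (wRep p M) (fb.gen j) ()).2) :=
    step_eq (cov_bRep hM) hg (step_spec (cov_wRep hM) hg ())
  have e2 : ∀ a : Fin p, step (Gamma0 (M * p)) (bRep p M) (fb.gen j) (some a) =
      (some (step (Gamma0 (M * p)) (uRep p M) (fb.gen j) a).1,
        (step (Gamma0 (M * p)) (uRep p M) (fb.gen j) a).2) := fun a =>
    step_eq (cov_bRep hM) hg (step_spec (cov_uRep M (M3Cov_ne_zero hM)) hg a)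
  simp only [Pi.add_apply, foxM, Fintype.sum_option, e1, e2, Fintype.sum_unique]
  rw [add_comm]
  rfl

variable (p) in
theorem adm_uRep (R : Type*) [CommRing R] {κ : ℕ} (hκ : Even κ) (hM : Nat.Coprime p M) :
    Adm ⊤ (Gamma0 (M * p)) (Gamma0 (M * p)) (uRep p M) (vact R κ) :=
  ⟨isAct_vact R hκ ⊤, fun _ _ => trivial, fun _ _ => trivial, fun _ => trivial,
    cov_uRep M (M3Cov_ne_zero hM), neg_one_mem_Gamma0 _⟩

variable (p) in
theorem adm_wRep (R : Type*) [CommRing R] {κ : ℕ} (hκ : Even κ) (hM : Nat.Coprime p M) :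
    Adm ⊤ (Gamma0 (M * p)) (Gamma0 (M * p)) (wRep p M) (vact R κ) :=
  ⟨isAct_vact R hκ ⊤, fun _ _ => trivial, fun _ _ => trivial, fun _ => trivial, cov_wRep hM,
    neg_one_mem_Gamma0 _⟩

variable (p) in
theorem adm_bRep (R : Type*) [CommRing R] {κ : ℕ} (hκ : Even κ) (hM : Nat.Coprime p M) :
    Adm ⊤ (Gamma0 (M * p)) (Gamma0 (M * p)) (bRep p M) (vact R κ) :=
  ⟨isAct_vact R hκ ⊤, fun _ _ => trivial, fun _ _ => trivial, fun _ => trivial, cov_bRep hM,
    neg_one_mem_Gamma0 _⟩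

theorem adm_uCl {K : Type} [NormedField K] {q h0 h : ℕ} [NeZero q] (e : q = p ^ h) (hh : h0 ≤ h)
    {ψ : ℤ → K} (hψ : IsChar p h0 ψ) {κ : ℕ} (hκ : Even κ) (M : ℕ) (hM : M ≠ 0) :
    Adm (Sg p) (Gamma0 (M * p)) (Gamma0 (M * p)) (uRep p M) (mact (actCl q q κ ψ)) :=
  ⟨isAct_actCl e hh hψ hκ, inside_Sg (dvd_mul_left p M), inside_Sg (dvd_mul_left p M),
    fun a => (uRep_UT M a).1, cov_uRep M hM, neg_one_mem_Gamma0 _⟩

end Pool.Agent.Lib.MP_88d29b_nt.G.M3
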