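import Pool.Agent.Lib.MP_88d29b_nt.HDefs
import Pool.Agent.Lib.MP_88d29b_nt.M3Cov
import Pool.Agent.Lib.MP_88d29b_nt.G0Cov
import Pool.Agent.Lib.MP_88d29b_nt.HExt64

/-!
Level raising and trace on cohomology.
-/

set_option autoImplicit false

noncomputable section

namespace Pool.Agent.Lib.MP_88d29b_nt.G

open Finset CongruenceSubgroup
open scoped MatrixGroups

lemma adm_of_cov (R : Type*) [CommRing R] {κ : ℕ} (hκ : Even κ) {J : Type*} {N : ℕ}
    {Γ' : Subgroup SL(2, ℤ)} {δ : J → Mat} (h : Cov (Gamma0 N) Γ' δ) :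
    Adm ⊤ (Gamma0 N) Γ' δ (vact R κ) :=
  ⟨isAct_vact R hκ ⊤, fun _ _ => trivial, fun _ _ => trivial, fun _ => trivial, h,
    neg_one_mem_Gamma0 N⟩

lemma cov_diag {p M : ℕ} (hp : p ≠ 0) :
    Cov (Gamma0 M) (Gamma0 (M * p)) (fun _ : Unit => tRep p none) where
  det_ne _ := by
    rw [det_tRep]
    exact_mod_cast hp
  ex g hg _ := by
    obtain ⟨c, hc⟩ := mem_Gamma0_iff.mp hg
    have hd := g.det_coe
    rw [Matrix.det_fin_two] at hd
    push_cast at hc
    refine ⟨(), ⟨!![g 0 0, p * g 0 1; M * c, g 1 1], ?_⟩, mem_Gamma0_iff.mpr ⟨c, rfl⟩, ?_⟩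
    · rw [Matrix.det_fin_two_of]
      linear_combination hd + g 0 1 * hc
    · ext i j
      fin_cases i <;> fin_cases j <;> simp [tRep, Matrix.mul_apply, Fin.sum_univ_two]
      · ring
      · linear_combination hc
  inj _ _ _ _ _ := rfl

lemma cov_res {N M : ℕ} (h : N ∣ M) : Cov (Gamma0 N) (Gamma0 M) (fun _ : Unit => (1 : Mat)) where
  det_ne _ := by simp
  ex g hg _ := ⟨(), g, Gamma0_le_of_dvd h hg, by simp⟩
  inj _ _ _ _ _ := rfl

/-- Restriction to a subgroup of finite index is injective in characteristic zero. -/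
lemma res_injective {K : Type*} [Field K] [CharZero K] {κ N M : ℕ} [NeZero M] (hκ : Even κ)
    (h : N ∣ M) : Function.Injective (dcH (adm_of_cov K hκ (cov_res h))) := by
  rw [injective_iff_map_eq_zero]
  intro x hx
  obtain ⟨c, rfl⟩ := Submodule.Quotient.mk_surjective _ x
  rw [dcH_mk, Submodule.Quotient.mk_eq_zero] at hx
  obtain ⟨v, hv⟩ := hx
  have hres : ∀ t : Gamma0 M, c.1 ⟨t, Gamma0_le_of_dvd h t.2⟩ = vact K κ (t : SL(2, ℤ)) v - v := by
    intro t
    have e := congrFun hv t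
    change _ = dcC (Gamma0 N) (Gamma0 M) (fun _ : Unit => (1 : Mat)) (vact K κ) c.1 t at e
    rw [dcC_apply, Fintype.sum_unique, step_eq (cov_res h) t.2 (j := ())
      (t := ⟨t, Gamma0_le_of_dvd h t.2⟩) (by simp), vact_one] at e
    exact e.symm
  obtain ⟨r, hr⟩ := exists_cov_rel (Γ := Gamma0 M) (Γ' := Gamma0 N)
  have hn : (((Gamma0 M).relIndex (Gamma0 N) : ℕ) : K) ≠ 0 :=
    Nat.cast_ne_zero.mpr Subgroup.FiniteIndex.index_ne_zero
  have ha := adm_of_cov K hκ hr
  rw [Submodule.Quotient.mk_eq_zero]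
  refine ⟨(((Gamma0 M).relIndex (Gamma0 N) : ℕ) : K)⁻¹ •
    ∑ i, (vact K κ (r i : SL(2, ℤ)) v - c.1 (r i)), ?_⟩
  funext g
  change _ = c.1 g
  have key : ∀ i, c.1 g = vact K κ (g : SL(2, ℤ)) (vact K κ (r i : SL(2, ℤ)) v - c.1 (r i)) -
      (vact K κ (r (step (Gamma0 M) (fun i => ((r i : SL(2, ℤ)) : Mat)) g i).1 : SL(2, ℤ)) v -
        c.1 (r (step (Gamma0 M) (fun i => ((r i : SL(2, ℤ)) : Mat)) g i).1)) := by
    intro i
    have e1 := step_spec hr g.2 i
    have e2 := ha.act_step g.2 i v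
    set j := (step (Gamma0 M) (fun i => ((r i : SL(2, ℤ)) : Mat)) g i).1
    set t := (step (Gamma0 M) (fun i => ((r i : SL(2, ℤ)) : Mat)) g i).2
    have e3 : r i * g = ⟨t, Gamma0_le_of_dvd h t.2⟩ * r j := Subtype.ext (Subtype.ext e1)
    have e4 := congrArg c.1 e3
    rw [c.2.1, c.2.1, hres, map_sub] at e4
    rw [map_sub, e2, eq_sub_of_add_eq' e4]
    abel
  rw [map_smul, Pi.smul_apply, cob_apply, map_sum,
    ← sum_step hr g.2 (fun i => vact K κ (r i : SL(2, ℤ)) v - c.1 (r i)), ← Finset.sum_sub_distrib,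
    Finset.sum_congr rfl (fun i _ => (key i).symm), Finset.sum_const, Finset.card_univ,
    Fintype.card_fin, ← Nat.cast_smul_eq_nsmul K, smul_smul, inv_mul_cancel₀ hn, one_smul]

variable (p : ℕ) [Fact p.Prime]

/-- `B = ι ∘ tr` and `T_p = tr ∘ ι` on cohomology. -/
theorem ext_hecke {M κ : ℕ} (hM : Nat.Coprime p M) (hκ : Even κ) :
    ∃ (J1 J2 : Type) (_ : Fintype J1) (_ : Fintype J2) (δ1 : J1 → Mat) (δ2 : J2 → Mat)
      (h1 : Adm ⊤ (Gamma0 M) (Gamma0 (M * p)) δ1 (vact (KP p) κ))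
      (h2 : Adm ⊤ (Gamma0 (M * p)) (Gamma0 M) δ2 (vact (KP p) κ)),
      dcH (M3.adm_bRep p (KP p) hκ hM) = dcH h1 ∘ₗ dcH h2 ∧
        Tl (KP p) M κ p = dcH h2 ∘ₗ dcH h1 := by
  have hp : p.Prime := Fact.out
  have h1 := adm_of_cov (KP p) hκ (cov_diag (M := M) hp.ne_zero)
  have h2 := adm_of_cov (KP p) hκ (cov_trRep hp hM)
  refine ⟨Unit, Option (Fin p), inferInstance, inferInstance, _, _, h1, h2, ?_, ?_⟩
  · have e : ∀ i, trRep p M i * tRep p none = M3.bRep p M i := by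
      intro i
      ext a b
      cases i <;> fin_cases a <;> fin_cases b <;>
        simp [trRep, lowRep, tRep, M3.bRep, M3.uRep, M3.wMat, Matrix.mul_apply,
          Fin.sum_univ_two] <;> ring
    have h3 := h2.prod h1 fun x y t ht hxy => Prod.ext
      ((M3.cov_bRep hM).inj _ _ t ht (by rw [← e, ← e]; exact hxy)) rfl
    rw [dcH_comp h2 h1 h3]
    exact dcH_eq_of_mem h3 _ (by simp) fun i => ⟨(i, ()), 1, one_mem _, by simp [e]⟩
  · have h3 := h1.prod h2 fun x y t ht hxy => by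
      obtain ⟨a, ha, ea⟩ := trRep_mem hM x.2
      obtain ⟨b, hb, eb⟩ := trRep_mem hM y.2
      refine Prod.ext rfl ((cov_trRep hp hM).inj _ _ (a * b⁻¹) ?_ ?_)
      · have e1 : tRep p none * ((a * b⁻¹ : SL(2, ℤ)) : Mat) = (t : Mat) * tRep p none := by
          rw [ea, eb, ← Matrix.mul_assoc] at hxy
          rw [Matrix.SpecialLinearGroup.coe_mul, ← Matrix.mul_assoc, hxy, Matrix.mul_assoc,
            ← Matrix.SpecialLinearGroup.coe_mul, mul_inv_cancel, Matrix.SpecialLinearGroup.coe_one,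
            Matrix.mul_one]
        have e2 := congrFun (congrFun e1 1) 0
        generalize a * b⁻¹ = s at e2 ⊢
        simp only [tRep, Matrix.mul_apply, Fin.sum_univ_two, Matrix.of_apply, Matrix.cons_val',
          Matrix.cons_val_zero, Matrix.cons_val_one, Matrix.cons_val_fin_one, zero_mul, one_mul,
          zero_add, mul_zero, add_zero] at e2
        rw [mem_Gamma0_iff] at ht ⊢
        rw [e2, Nat.cast_mul]
        exact mul_dvd_mul_right ht _
      · rw [ea, eb, ← Matrix.SpecialLinearGroup.coe_mul, inv_mul_cancel_right]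
    rw [dcH_comp h1 h2 h3, Tl_eq (KP p) hκ hp hM]
    refine (dcH_eq_of_mem _ h3 (by simp) fun x => ?_).symm
    obtain ⟨a, ha, ea⟩ := trRep_mem hM x.2
    refine tRep_decomp hp hM _ (by rw [Matrix.det_mul, det_tRep, ea, a.det_coe, mul_one]) ?_
    rw [ea]
    simpa [tRep, Matrix.mul_apply, Fin.sum_univ_two] using mem_Gamma0_iff.mp ha

/-- The eigenvalues at level `N` occur at level `M`. -/
theorem ext_le (N M : ℕ) [NeZero N] [NeZero M] (hNM : N ∣ M) (hM : Nat.Coprime p M) {κ : ℕ}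
    (hκ : Even κ) : slopes (KP p) N κ p ≤ slopes (KP p) M κ p := by
  have hp : p.Prime := Fact.out
  have hN : Nat.Coprime p N := hM.coprime_dvd_right hNM
  refine roots_le_of_injective _ (res_injective hκ hNM) _ _ fun x => ?_
  have r := adm_of_cov (KP p) hκ (cov_res hNM)
  have a := adm_tRep (KP p) hκ hp hN
  have a' := adm_tRep (KP p) hκ hp hM
  have b := a.prod r fun x y t _ e => Prod.ext (tRep_inj hp _ _ t (by simpa using e)) rfl
  have b' := r.prod a' fun x y t _ e => Prod.ext rfl (tRep_inj hp _ _ t (by simpa using e))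
  have e : dcH r ∘ₗ dcH a = dcH a' ∘ₗ dcH r := by
    rw [dcH_comp a r b, dcH_comp r a' b']
    exact dcH_eq_of_mem b' b (by simp) fun x => ⟨((), x.1), 1, one_mem _, by simp⟩
  rw [Tl_eq (KP p) hκ hp hN, Tl_eq (KP p) hκ hp hM]
  exact LinearMap.congr_fun e x

end Pool.Agent.Lib.MP_88d29b_nt.G
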