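import Pool.Agent.Lib.MP_88d29b_nt.KBound

set_option autoImplicit false

noncomputable section

namespace Pool.Agent.Lib.MP_88d29b_nt.G

open Finset CongruenceSubgroup Matrix
open scoped MatrixGroups

variable {p : ℕ} [Fact p.Prime]

lemma kdim_T_mem (N : ℕ) : ModularGroup.T ∈ Gamma0 N :=
  mem_Gamma0_iff.2 (by simp [ModularGroup.T])

lemma kdim_dg_const (c κ : ℕ) (v : Vk (KP p) κ) :
    ‖dg p (fun _ => c) κ v‖ ≤ ((p : ℝ)⁻¹) ^ c * ‖v‖ := by
  have e : dg p (fun _ => c) κ v = ((p : KP p) ^ c) • v := rfl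
  rw [e, norm_smul, norm_pow, norm_p]

lemma kdim_hq {Γ : Subgroup SL(2, ℤ)} {κ : ℕ} (c c' : Z1 Γ (vact (KP p) κ))
    (h : ∀ γ : Γ, c'.1 γ =
      (LinearMap.id : IV p Γ κ →ₗ[KP p] IV p Γ κ) (shap p (c : Γ → Vk (KP p) κ) γ) (x0 Γ)) :
    c' = c := by
  ext1
  funext γ
  rw [h γ, LinearMap.id_apply, shap_x0]

lemma kdim_stab {Γ : Subgroup SL(2, ℤ)} {κ : ℕ} : Stab p (⊤ : Submodule (KP p) (IV p Γ κ)) :=
  ⟨fun _ _ _ => trivial, fun _ _ _ => trivial⟩

variable (p) in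
/-- Upper bound for the dimension of cohomology. -/
theorem ext_dim (N : ℕ) [NeZero N] : ∃ C : ℕ, ∀ κ : ℕ, Even κ → 2 ≤ κ →
    6 * Module.finrank (KP p) (HH (KP p) N κ) ≤ (Gamma0 N).index * κ + C := by
  have hp : p.Prime := Fact.out
  have hp1 : (1 : ℝ) < p := by exact_mod_cast hp.one_lt
  refine ⟨37 * (Gamma0 N).index, fun κ hκ _ => ?_⟩
  obtain ⟨c, hc⟩ : ∃ c : ℕ, c = (κ + 1) * (Nat.log p (κ + 1) + 3) := ⟨_, rfl⟩
  have hc0 : (0 : ℝ) < c := by
    rw [hc]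
    positivity
  have hg : Good p (fun _ => c) (Gamma0 N) κ :=
    ⟨neg_one_mem_Gamma0 N, kdim_T_mem N, hκ, fun _ => ⟨le_rfl, Nat.le_succ _⟩, winvt_const c _⟩
  have h := det_bound hg kdim_stab LinearMap.id (fun _ => trivial) (fun _ _ => rfl) one_pos
    (fun F => by simp) (H := HH (KP p) N κ) LinearMap.id Function.surjective_id
    (fun c1 c2 h => by rw [kdim_hq c1 c2 h]) 1 (a := ((p : ℝ)⁻¹) ^ c) (by positivity)
    (fun c1 b hb => ⟨c1, rfl, fun γ => (kdim_dg_const c κ _).trans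
      (mul_le_mul_of_nonneg_left (hb γ) (by positivity))⟩) (by simp)
  rw [lidx_top_IV, map_one, norm_one, Real.logb_one, one_mul, Real.logb_pow, Real.logb_inv,
    Real.logb_self_eq_one hp1, errK] at h
  have e : ((κ : ℝ) + 1) * ((Nat.log p (κ + 1) : ℝ) + 3) = c := by
    rw [hc]
    push_cast
    ring
  rw [e] at h
  simp only [sum_const, card_range, nsmul_eq_mul, Nat.cast_add, Nat.cast_one] at h
  have h2 : (c : ℝ) * (6 * Module.finrank (KP p) (HH (KP p) N κ)) ≤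
      c * ((Gamma0 N).index * κ + 37 * (Gamma0 N).index) := by
    linarith
  exact_mod_cast le_of_mul_le_mul_left h2 hc0

end Pool.Agent.Lib.MP_88d29b_nt.G
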