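import Pool.Agent.Lib.MP_88d29b_nt.HDefs

set_option autoImplicit false

noncomputable section

namespace Pool.Agent.Lib.MP_88d29b_nt.G

open Finset CongruenceSubgroup Matrix
open scoped MatrixGroups

variable {K : Type} [NormedField K] {p : ℕ}

theorem np_nonneg (hp : 1 < p) (A : Multiset K) (h : ℝ) : 0 ≤ np p A h := by
  refine Multiset.sum_nonneg fun x hx => ?_
  obtain ⟨a, _, rfl⟩ := Multiset.mem_map.1 hx
  exact Real.logb_nonneg (by exact_mod_cast hp) (le_max_left _ _)

theorem np_add (A B : Multiset K) (h : ℝ) : np p (A + B) h = np p A h + np p B h := by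
  simp [np]

theorem np_le_of_le (hp : 1 < p) {A B : Multiset K} (hAB : A ≤ B) (h : ℝ) :
    np p A h ≤ np p B h := by
  obtain ⟨C, rfl⟩ := Multiset.le_iff_exists_add.1 hAB
  rw [np_add]
  linarith [np_nonneg hp C h]

theorem np_mono (hp : 1 < p) (A : Multiset K) {h h' : ℝ} (hh : h ≤ h') : np p A h ≤ np p A h' := by
  have h1 : (1 : ℝ) < p := by exact_mod_cast hp
  refine Multiset.sum_map_le_sum_map _ _ fun a _ => ?_
  refine Real.logb_le_logb_of_le h1 (lt_of_lt_of_le one_pos (le_max_left _ _)) ?_
  exact max_le_max le_rfl (mul_le_mul_of_nonneg_left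
    (Real.rpow_le_rpow_of_exponent_le h1.le hh) (norm_nonneg _))

theorem rpow_np (hp : 1 < p) (A : Multiset K) (h : ℝ) :
    (p : ℝ) ^ np p A h = (A.map fun a => max 1 (‖a‖ * (p : ℝ) ^ h)).prod := by
  have h1 : (1 : ℝ) < p := by exact_mod_cast hp
  induction A using Multiset.induction_on with
  | empty => simp [np]
  | cons a A ih =>
    unfold np at ih ⊢
    rw [Multiset.map_cons, Multiset.sum_cons, Multiset.map_cons, Multiset.prod_cons,
      Real.rpow_add (by linarith), ih, Real.rpow_logb (by linarith) h1.ne'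
        (lt_of_lt_of_le one_pos (le_max_left _ _))]

end Pool.Agent.Lib.MP_88d29b_nt.G
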