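import Pool.Agent.Lib.MP_88d29b_nt.HRootB
import Pool.Agent.Lib.MP_88d29b_nt.HNp

set_option autoImplicit false

noncomputable section

namespace Pool.Agent.Lib.MP_88d29b_nt.G

open Finset CongruenceSubgroup Matrix
open scoped MatrixGroups

variable {p : ℕ} [Fact p.Prime] {H H' : Type} [AddCommGroup H] [Module (KP p) H]
  [Module.Finite (KP p) H] [AddCommGroup H'] [Module (KP p) H'] [Module.Finite (KP p) H']

theorem knp_card (T : Module.End (KP p) H) :
    T.charpoly.roots.card = Module.finrank (KP p) H := by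
  rw [IsAlgClosed.card_roots_eq_natDegree, LinearMap.charpoly_natDegree]

theorem knp_det (T : Module.End (KP p) H) {x : KP p} (hx : x ≠ 0) :
    LinearMap.det (1 - x⁻¹ • T) = x⁻¹ ^ Module.finrank (KP p) H * T.charpoly.eval x := by
  rw [LinearMap.eval_charpoly, ← LinearMap.det_smul, smul_sub, Algebra.algebraMap_eq_smul_one,
    inv_smul_smul₀ hx]

theorem knp_np (A : Multiset (KP p)) (r : ℝ) :
    np p A r = A.card * r - (A.map fun β => vt p r (0 - β)).sum := by
  have h0 := p_pos p
  have h1 := one_lt_p p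
  induction A using Multiset.induction_on with
  | empty => simp [np]
  | cons a A ih =>
    unfold np at ih ⊢
    rw [Multiset.map_cons, Multiset.sum_cons, Multiset.map_cons, Multiset.sum_cons, ih,
      Multiset.card_cons]
    have h2 : (0 : ℝ) < (p : ℝ) ^ r := Real.rpow_pos_of_pos h0 r
    have h3 : (0 : ℝ) < max ((p : ℝ) ^ (-r)) ‖a‖ :=
      lt_of_lt_of_le (Real.rpow_pos_of_pos h0 _) (le_max_left _ _)
    have h4 : max 1 (‖a‖ * (p : ℝ) ^ r) = max ((p : ℝ) ^ (-r)) ‖a‖ * (p : ℝ) ^ r := by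
      rw [max_mul_of_nonneg _ _ h2.le, Real.rpow_neg h0.le, inv_mul_cancel₀ h2.ne']
    rw [h4, Real.logb_mul h3.ne' h2.ne', Real.logb_rpow h0 h1.ne']
    unfold vt
    rw [zero_sub, norm_neg]
    push_cast
    ring

theorem knp_norm_le (A : Multiset (KP p)) (h : ℝ) {y : KP p} (hy : ‖y‖ ≤ (p : ℝ) ^ (h + 1)) :
    ‖(A.map fun a => 1 - y * a).prod‖ ≤ (p : ℝ) ^ (np p A h + A.card) := by
  have h0 := p_pos p
  have h1 := one_lt_p p
  induction A using Multiset.induction_on with
  | empty => simp [np]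
  | cons a A ih =>
    have h3 : (0 : ℝ) < max 1 (‖a‖ * (p : ℝ) ^ h) := lt_of_lt_of_le one_pos (le_max_left _ _)
    have h4 : ‖1 - y * a‖ ≤ max 1 (‖a‖ * (p : ℝ) ^ h) * p := by
      rw [sub_eq_add_neg]
      refine (IsUltrametricDist.norm_add_le_max _ _).trans (max_le ?_ ?_)
      · rw [norm_one]
        exact one_le_mul_of_one_le_of_one_le (le_max_left _ _) h1.le
      · rw [norm_neg, norm_mul, mul_comm]
        refine (mul_le_mul_of_nonneg_left hy (norm_nonneg a)).trans ?_
        rw [Real.rpow_add h0, Real.rpow_one, ← mul_assoc]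
        exact mul_le_mul_of_nonneg_right (le_max_right _ _) h0.le
    have h5 : np p (a ::ₘ A) h + ((a ::ₘ A).card : ℝ)
        = Real.logb p (max 1 (‖a‖ * (p : ℝ) ^ h)) + 1 + (np p A h + A.card) := by
      unfold np
      rw [Multiset.map_cons, Multiset.sum_cons, Multiset.card_cons]
      push_cast
      ring
    rw [Multiset.map_cons, Multiset.prod_cons, norm_mul, h5, Real.rpow_add h0, Real.rpow_add h0,
      Real.rpow_logb h0 h1.ne' h3, Real.rpow_one]
    exact mul_le_mul h4 ih (norm_nonneg _) (by positivity)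

/-- `det (1 - y T) = ∏ (1 - y λ)` over the roots of the characteristic polynomial. -/
theorem det_one_sub_smul (T : Module.End (KP p) H) (y : KP p) :
    LinearMap.det (1 - y • T) = (T.charpoly.roots.map fun a => 1 - y * a).prod := by
  rcases eq_or_ne y 0 with rfl | hy
  · simp
  · have h1 := knp_det T (inv_ne_zero hy)
    rw [inv_inv] at h1
    rw [h1, (IsAlgClosed.splits _).eval_eq_prod_roots_of_monic T.charpoly_monic, ← knp_card,
      ← Multiset.prod_replicate, ← Multiset.map_const', ← Multiset.prod_map_mul]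
    refine congrArg Multiset.prod (Multiset.map_congr rfl fun a _ => ?_)
    rw [mul_sub, mul_inv_cancel₀ hy]

/-- Take `x` from `exists_generic_pt` for the characteristic polynomial with `h < r < h + 1` and
`y = x⁻¹`. -/
theorem exists_np_le_det (T : Module.End (KP p) H) (h : ℕ) : ∃ y : KP p,
    ‖y‖ ≤ (p : ℝ) ^ ((h : ℝ) + 1) ∧ LinearMap.det (1 - y • T) ≠ 0 ∧
      np p T.charpoly.roots h ≤ Real.logb p ‖LinearMap.det (1 - y • T)‖ := by
  have h0 := p_pos p
  have h1 := one_lt_p p
  obtain ⟨r, x, hr1, hr2, hx, hev, hg⟩ := exists_generic_pt T.charpoly T.charpoly_monic.ne_zero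
    (Nat.cast_nonneg h) (lt_add_one (h : ℝ))
  have hx0 : x ≠ 0 := by
    rw [← norm_pos_iff, hx]
    exact Real.rpow_pos_of_pos h0 _
  have hy : ‖x⁻¹‖ = (p : ℝ) ^ r := by rw [norm_inv, hx, Real.rpow_neg h0.le, inv_inv]
  refine ⟨x⁻¹, ?_, ?_, ?_⟩
  · rw [hy]
    exact Real.rpow_le_rpow_of_exponent_le h1.le hr2.le
  · rw [knp_det T hx0]
    exact mul_ne_zero (pow_ne_zero _ (inv_ne_zero hx0)) hev
  · refine (np_mono (Fact.out : p.Prime).one_lt _ hr1.le).trans (le_of_eq ?_)
    unfold gv at hg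
    rw [T.charpoly_monic.leadingCoeff, norm_one, Real.logb_one] at hg
    rw [knp_np, knp_det T hx0, norm_mul, norm_pow, hy,
      Real.logb_mul (pow_ne_zero _ (Real.rpow_pos_of_pos h0 r).ne') (norm_ne_zero_iff.mpr hev),
      Real.logb_pow, Real.logb_rpow h0 h1.ne', knp_card]
    linarith

theorem logb_det_le_np (T : Module.End (KP p) H) (h : ℕ) {y : KP p}
    (hy : ‖y‖ ≤ (p : ℝ) ^ ((h : ℝ) + 1)) :
    Real.logb p ‖LinearMap.det (1 - y • T)‖ ≤
      np p T.charpoly.roots h + Module.finrank (KP p) H := by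
  rcases eq_or_ne (LinearMap.det (1 - y • T)) 0 with h0 | h0
  · rw [h0, norm_zero, Real.logb_zero]
    exact add_nonneg (np_nonneg (Fact.out : p.Prime).one_lt _ _) (Nat.cast_nonneg _)
  · rw [Real.logb_le_iff_le_rpow (one_lt_p p) (norm_pos_iff.mpr h0), det_one_sub_smul, ← knp_card T]
    exact knp_norm_le _ _ hy

/-- `Matrix.det_one_sub_mul_comm`. -/
theorem det_one_sub_comp_comm (A : H →ₗ[KP p] H') (B : H' →ₗ[KP p] H) (y : KP p) :
    LinearMap.det (1 - y • (B ∘ₗ A)) = LinearMap.det (1 - y • (A ∘ₗ B)) := by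
  have b := Module.finBasis (KP p) H
  have b' := Module.finBasis (KP p) H'
  rw [← LinearMap.det_toMatrix b, ← LinearMap.det_toMatrix b', map_sub, map_sub, map_smul, map_smul,
    LinearMap.toMatrix_one, LinearMap.toMatrix_one, LinearMap.toMatrix_comp b b' b,
    LinearMap.toMatrix_comp b' b b', ← Matrix.smul_mul, Matrix.det_one_sub_mul_comm,
    Matrix.mul_smul]

/-- The determinant is multiplicative in the exact sequence `0 → H → H' → H' / range f → 0`. -/
theorem det_quot (f : H →ₗ[KP p] H') (hf : Function.Injective f) (T : Module.End (KP p) H)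
    (T' : Module.End (KP p) H') (h : f ∘ₗ T = T' ∘ₗ f) :
    ∃ T'' : Module.End (KP p) (H' ⧸ LinearMap.range f),
      (∀ x, T'' (Submodule.Quotient.mk x) = Submodule.Quotient.mk (T' x)) ∧
      LinearMap.det T' = LinearMap.det T * LinearMap.det T'' := by
  have he : LinearMap.range f ≤ (LinearMap.range f).comap T' := by
    rintro _ ⟨x, rfl⟩
    exact ⟨T x, LinearMap.congr_fun h x⟩
  refine ⟨(LinearMap.range f).mapQ _ T' he, fun x => rfl, ?_⟩
  rw [LinearMap.det_eq_det_mul_det _ T' he, ← LinearMap.det_conj T (LinearEquiv.ofInjective f hf)]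
  congr 2
  refine LinearMap.ext fun w => ?_
  obtain ⟨x, rfl⟩ := (LinearEquiv.ofInjective f hf).surjective w
  refine Subtype.ext ?_
  simp only [LinearMap.comp_apply, LinearEquiv.coe_coe, LinearEquiv.symm_apply_apply]
  exact (LinearMap.congr_fun h x).symm

end Pool.Agent.Lib.MP_88d29b_nt.G
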