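import Pool.Agent.Lib.MP_88d29b_nt.KDim
import Pool.Agent.Lib.MP_88d29b_nt.KNp
import Pool.Agent.Lib.MP_88d29b_nt.HExt0b

set_option autoImplicit false

noncomputable section

namespace Pool.Agent.Lib.MP_88d29b_nt.G

open Finset CongruenceSubgroup Matrix
open scoped MatrixGroups

variable {p : ℕ} [Fact p.Prime]

lemma khodge_good (N h : ℕ) {κ : ℕ} (hκ : Even κ) : Good p (fun j => h - j) (Gamma0 (N * p)) κ :=
  have hs : Steps fun j => h - j := fun j => by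
    beta_reduce
    omega
  ⟨neg_one_mem_Gamma0 _, kdim_T_mem _, hκ, hs, winvt_of_dvd hs (dvd_mul_left p N)⟩

omit [Fact p.Prime] in
lemma khodge_bRep (N : ℕ) (i : Option (Fin p)) :
    (p : ℤ) ∣ M3.bRep p N i 0 0 ∧ (p : ℤ) ∣ M3.bRep p N i 1 0 := by
  cases i with
  | none => simp [M3.bRep, M3.wMat]
  | some a => simp [M3.bRep, M3.uRep, mul_assoc]

/-- The cocycle `c - y B c` is small in the weighted norm. -/
lemma khodge_cocycle {N κ : ℕ} (hN : Nat.Coprime p N) (hκ : Even κ) (h : ℕ) {y : KP p}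
    (hy : ‖y‖ ≤ (p : ℝ) ^ ((h : ℝ) + 1)) (c : Z1 (Gamma0 (N * p)) (vact (KP p) κ)) (b : ℝ)
    (hb : ∀ γ, ‖c.1 γ‖ ≤ b) (γ : Gamma0 (N * p)) :
    ‖dg p (fun j => h - j) κ ((c - y • dcZ (M3.adm_bRep p (KP p) hκ hN) c).1 γ)‖ ≤ p * b := by
  have hp : p.Prime := Fact.out
  have hp1 : (1 : ℝ) < p := by exact_mod_cast hp.one_lt
  have hp0 : (0 : ℝ) < p := by linarith
  have hb0 : 0 ≤ b := (norm_nonneg _).trans (hb 1)
  have e : (c - y • dcZ (M3.adm_bRep p (KP p) hκ hN) c).1 γ =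
      c.1 γ + -(y • dcC (Gamma0 (N * p)) (Gamma0 (N * p)) (M3.bRep p N) (vact (KP p) κ) c γ) := by
    rw [← sub_eq_add_neg]
    rfl
  rw [e, map_add]
  refine (IsUltrametricDist.norm_add_le_max _ _).trans (max_le ?_ ?_)
  · exact (norm_dg_le _ _).trans ((hb γ).trans (le_mul_of_one_le_left hb0 hp1.le))
  · rw [map_neg, norm_neg, map_smul, norm_smul, dcC_apply, map_sum]
    have h1 : ‖∑ i, dg p (fun j => h - j) κ (vact (KP p) κ
        (M3.bRep p N (step (Gamma0 (N * p)) (M3.bRep p N) γ i).1)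
        (c.1 (step (Gamma0 (N * p)) (M3.bRep p N) γ i).2))‖ ≤ (p : ℝ) ^ (-(h : ℝ)) * b :=
      IsUltrametricDist.norm_sum_le_of_forall_le_of_nonneg (by positivity) fun i _ =>
        (dg_vact_U h _ (khodge_bRep N _).1 (khodge_bRep N _).2 _).trans
          (mul_le_mul_of_nonneg_left (hb _) (by positivity))
    refine (mul_le_mul hy h1 (norm_nonneg _) (by positivity)).trans (le_of_eq ?_)
    rw [← mul_assoc, ← Real.rpow_add hp0]
    simp

lemma khodge_mk {N κ : ℕ} (hN : Nat.Coprime p N) (hκ : Even κ) (y : KP p)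
    (c : Z1 (Gamma0 (N * p)) (vact (KP p) κ)) :
    (Submodule.Quotient.mk (c - y • dcZ (M3.adm_bRep p (KP p) hκ hN) c) : HH (KP p) (N * p) κ) =
      (1 - y • dcH (M3.adm_bRep p (KP p) hκ hN) : Module.End (KP p) _)
        (Submodule.Quotient.mk c) := by
  rw [Submodule.Quotient.mk_sub, Submodule.Quotient.mk_smul, ← dcH_mk]
  rfl

lemma khodge_det {N κ : ℕ} [NeZero N] (hN : Nat.Coprime p N) (hκ : Even κ) (y : KP p) :
    LinearMap.det (1 - y • Tl (KP p) N κ p : Module.End (KP p) _) =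
      LinearMap.det (1 - y • dcH (M3.adm_bRep p (KP p) hκ hN) : Module.End (KP p) _) := by
  have : NeZero p := ⟨(Fact.out : p.Prime).ne_zero⟩
  obtain ⟨J1, J2, _, _, δ1, δ2, h1, h2, eB, eT⟩ := ext_hecke p hN hκ
  rw [eB, eT]
  exact det_one_sub_comp_comm (H := HH (KP p) N κ) (H' := HH (KP p) (N * p) κ) _ _ y

lemma khodge_sum {κ h : ℕ} (hh : h ≤ κ) :
    ∑ j ∈ range (κ + 1), ((h - j : ℕ) : ℝ) = (h : ℝ) ^ 2 / 2 + h / 2 := by
  have h1 : ∀ n : ℕ, n ≤ h → ∑ j ∈ range n, ((h - j : ℕ) : ℝ) = n * h - n * (n - 1) / 2 := by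
    intro n hn
    induction n with
    | zero => simp
    | succ n ih =>
      rw [sum_range_succ, ih (by omega), Nat.cast_sub (by omega)]
      push_cast
      ring
  rw [← sum_range_add_sum_Ico _ (show h ≤ κ + 1 by omega), h1 h le_rfl,
    sum_eq_zero fun j hj => by rw [Nat.sub_eq_zero_of_le (mem_Ico.1 hj).1, Nat.cast_zero]]
  ring

lemma khodge_err {κ h : ℕ} (h2 : 2 ≤ κ) (hh : h ≤ κ) (Γ : Subgroup SL(2, ℤ)) :
    errK p (fun j => h - j) Γ κ ≤ 11 * Γ.index * κ * (Nat.log 2 κ : ℝ) := by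
  have hp : p.Prime := Fact.out
  have hL : 1 ≤ Nat.log 2 κ := Nat.log_pos one_lt_two h2
  have h1 : Nat.log p (κ + 1) ≤ Nat.log 2 κ + 1 := by
    refine (Nat.log_anti_left one_lt_two hp.two_le).trans ?_
    rw [← Nat.log_mul_base one_lt_two (by omega)]
    exact Nat.log_mono_right (by omega)
  have h3 : h + (κ + 1) * (Nat.log p (κ + 1) + 3) ≤ 11 * κ * Nat.log 2 κ := by
    have a1 : (κ + 1) * (Nat.log p (κ + 1) + 3) ≤ (2 * κ) * (5 * Nat.log 2 κ) :=
      Nat.mul_le_mul (by omega) (by omega)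
    have a2 : κ ≤ κ * Nat.log 2 κ := Nat.le_mul_of_pos_right _ hL
    nlinarith
  have h4 : (h : ℝ) + (κ + 1) * (Nat.log p (κ + 1) + 3) ≤ 11 * κ * Nat.log 2 κ := by
    exact_mod_cast h3
  have h5 := mul_le_mul_of_nonneg_left h4 (Nat.cast_nonneg Γ.index)
  simp only [errK, Nat.sub_zero]
  linarith

variable (p) in
lemma khodge_dim (N : ℕ) [NeZero N] : ∃ C : ℕ, ∀ κ : ℕ, Even κ → 2 ≤ κ →
    (Module.finrank (KP p) (HH (KP p) N κ) : ℝ) ≤ C * κ := by
  obtain ⟨C, h⟩ := ext_dim p N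
  refine ⟨(Gamma0 N).index + C, fun κ hκ h2 => ?_⟩
  have h1 := h κ hκ h2
  have h3 : C ≤ C * κ := Nat.le_mul_of_pos_right _ (by omega)
  have h4 : Module.finrank (KP p) (HH (KP p) N κ) ≤ ((Gamma0 N).index + C) * κ := by
    rw [add_mul]
    omega
  exact_mod_cast h4

variable (p) in
/-- The Hodge bound at level `N`. -/
theorem ext_hodge (N : ℕ) [NeZero N] (hN : Nat.Coprime p N) :
    ∃ C : ℕ, ∀ κ h : ℕ, Even κ → 2 ≤ κ → h ≤ κ → np p (slopes (KP p) N κ p) h ≤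
      ((p : ℝ) + 1) * (Gamma0 N).index / 6 * (h : ℝ) ^ 2 / 2 + C * κ * (Nat.log 2 κ : ℝ) := by
  have hp : p.Prime := Fact.out
  have hp1 : (1 : ℝ) < p := by exact_mod_cast hp.one_lt
  have : NeZero p := ⟨hp.ne_zero⟩
  obtain ⟨C, hC⟩ := khodge_dim p (N * p)
  refine ⟨C + 34 * (Gamma0 (N * p)).index, fun κ h hκ h2 hh => ?_⟩
  obtain ⟨y, hy, hd, hn⟩ := exists_np_le_det (Tl (KP p) N κ p) h
  rw [khodge_det hN hκ] at hd hn
  have hb := det_bound (khodge_good N h hκ) kdim_stab LinearMap.id (fun _ => trivial)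
    (fun _ _ => rfl) one_pos (fun F => by simp) (H := HH (KP p) (N * p) κ) LinearMap.id
    Function.surjective_id (fun c1 c2 h => by rw [kdim_hq c1 c2 h]) _ (a := p) (by positivity)
    (fun c b hb => ⟨_, khodge_mk hN hκ y c, khodge_cocycle hN hκ h hy c b hb⟩) hd
  rw [lidx_top_IV, khodge_sum hh, one_mul, Real.logb_self_eq_one hp1, mul_one] at hb
  have he := khodge_err (p := p) h2 hh (Gamma0 (N * p))
  have hi : ((Gamma0 (N * p)).index : ℝ) = (p + 1) * (Gamma0 N).index := by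
    exact_mod_cast index_mul_coprime hp hN
  have hL : (1 : ℝ) ≤ Nat.log 2 κ := by exact_mod_cast Nat.log_pos one_lt_two h2
  have hk : (h : ℝ) ≤ κ := by exact_mod_cast hh
  have h0 : (0 : ℝ) ≤ h := Nat.cast_nonneg h
  have hk2 : (κ : ℝ) ≤ κ * Nat.log 2 κ := le_mul_of_one_le_right (Nat.cast_nonneg κ) hL
  have a1 := mul_le_mul_of_nonneg_left hk2 (Nat.cast_nonneg C)
  have a2 := mul_le_mul_of_nonneg_left (hk.trans hk2) (Nat.cast_nonneg (Gamma0 (N * p)).index)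
  have a3 := mul_nonneg (Nat.cast_nonneg (Gamma0 (N * p)).index : (0 : ℝ) ≤ _) h0
  have a4 := hC κ hκ h2
  rw [← hi, slopes]
  push_cast
  linarith

end Pool.Agent.Lib.MP_88d29b_nt.G
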