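import Pool.Agent.Lib.MP_88d29b_nt.KInd

set_option autoImplicit false

noncomputable section

namespace Pool.Agent.Lib.MP_88d29b_nt.G

open Finset CongruenceSubgroup Matrix
open scoped MatrixGroups

variable {p : ℕ} [Fact p.Prime] {e : ℕ → ℕ} {Γ Γ1 : Subgroup SL(2, ℤ)} [Γ.FiniteIndex]
  [Γ1.FiniteIndex] {κ : ℕ}

open Classical in
omit [Γ1.FiniteIndex] in
/-- The fibres of `prj` have `Γ.relIndex Γ1` elements. -/
theorem card_fibre (h : Γ ≤ Γ1) (y : SL(2, ℤ) ⧸ Γ1) :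
    (univ.filter fun x' => prj h x' = y).card = Γ.relIndex Γ1 := by
  rw [← Fintype.card_subtype, ← Nat.card_eq_fintype_card, Nat.card_congr
    (((Subgroup.quotientEquivProdOfLE h).subtypeEquiv (q := fun z => z.1 = y) fun x => by
      induction x using QuotientGroup.induction_on
      rfl).trans (Equiv.prodSubtypeFstEquivSubtypeProd (p := fun a => a = y))),
    Nat.card_prod, Nat.card_unique, one_mul]
  rfl

open Classical in
omit [Γ1.FiniteIndex] in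
theorem kavg_apply (h : Γ ≤ Γ1) (F : IV p Γ κ) (x : SL(2, ℤ) ⧸ Γ) :
    avg p h κ F x = (Γ.relIndex Γ1 : KP p)⁻¹ •
      ∑ x' ∈ univ.filter fun x' => prj h x' = prj h x, F x' := by
  simp [avg]

omit [Γ.FiniteIndex] [Γ1.FiniteIndex] in
theorem kavg_smul (h : Γ ≤ Γ1) (g : SL(2, ℤ)) (x : SL(2, ℤ) ⧸ Γ) :
    prj h (g • x) = g • prj h x := by
  induction x using QuotientGroup.induction_on
  rfl

omit [Γ.FiniteIndex] [Γ1.FiniteIndex] in
theorem kavg_rp (h : Γ ≤ Γ1) (x : SL(2, ℤ) ⧸ Γ) : prj h x = (rp x : SL(2, ℤ)) := by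
  conv_lhs => rw [← mk_rp x]
  rfl

omit [Γ1.FiniteIndex] in
theorem kavg_rel (h : Γ ≤ Γ1) : Γ.relIndex Γ1 ≠ 0 ∧ Γ.relIndex Γ1 ≤ Γ.index :=
  have h1 := Subgroup.relIndex_dvd_index_of_le h
  ⟨ne_zero_of_dvd_ne_zero Subgroup.FiniteIndex.index_ne_zero h1,
    Nat.le_of_dvd (Nat.pos_of_ne_zero Subgroup.FiniteIndex.index_ne_zero) h1⟩

omit [Γ1.FiniteIndex] in
theorem kavg_const (h : Γ ≤ Γ1) {F : IV p Γ κ} (hF : ∀ x x', prj h x' = prj h x → F x' = F x) :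
    avg p h κ F = F := by
  classical
  ext1 x
  rw [kavg_apply, sum_congr rfl fun x' hx' => hF x x' (mem_filter.1 hx').2, sum_const, card_fibre,
    ← Nat.cast_smul_eq_nsmul (KP p), inv_smul_smul₀ (Nat.cast_ne_zero.2 (kavg_rel h).1)]

theorem kavg_norm {n : ℕ} (hn : n ≠ 0) : ‖(n : KP p)⁻¹‖ ≤ n := by
  have hp : p.Prime := Fact.out
  obtain ⟨k, m, hm, rfl⟩ := Nat.exists_eq_pow_mul_and_not_dvd hn p hp.ne_one
  have h1 : ‖(m : KP p)‖ = 1 := by
    rw [← map_natCast (algebraMap ℚ_[p] (KP p)), PadicAlgCl.norm_extends,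
      Padic.norm_natCast_eq_one_iff, hp.coprime_iff_not_dvd]
    exact hm
  have h2 : (1 : ℝ) ≤ m := Nat.one_le_cast.2 (Nat.pos_of_ne_zero (right_ne_zero_of_mul hn))
  rw [Nat.cast_mul, Nat.cast_mul, Nat.cast_pow, Nat.cast_pow, norm_inv, norm_mul, h1, mul_one,
    norm_pow, norm_p, inv_pow, inv_inv]
  exact le_mul_of_one_le_right (by positivity) h2

omit [Γ1.FiniteIndex] in
theorem kavg_le (h : Γ ≤ Γ1) (L : SL(2, ℤ) ⧸ Γ → Vk (KP p) κ →ₗ[KP p] Vk (KP p) κ)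
    (hL : ∀ x x' v, prj h x' = prj h x → ‖L x v‖ ≤ ‖L x' v‖) (F : IV p Γ κ) {a : ℝ} (ha : 0 ≤ a)
    (hF : ∀ x, ‖L x (F x)‖ ≤ a) (x : SL(2, ℤ) ⧸ Γ) :
    ‖L x (avg p h κ F x)‖ ≤ Γ.index * a ∧ ‖L x ((F - avg p h κ F) x)‖ ≤ Γ.index * a := by
  have h1 : ‖L x (avg p h κ F x)‖ ≤ Γ.index * a := by
    classical
    rw [kavg_apply, map_smul, norm_smul, map_sum]
    exact mul_le_mul ((kavg_norm (kavg_rel h).1).trans (Nat.cast_le.2 (kavg_rel h).2))
      (IsUltrametricDist.norm_sum_le_of_forall_le_of_nonneg ha fun x' hx' =>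
        (hL x x' _ (mem_filter.1 hx').2).trans (hF x')) (norm_nonneg _) (Nat.cast_nonneg _)
  refine ⟨h1, ?_⟩
  rw [Pi.sub_apply, map_sub, sub_eq_add_neg]
  refine (IsUltrametricDist.norm_add_le_max _ _).trans
    (max_le ((hF x).trans ?_) (by rwa [norm_neg]))
  exact le_mul_of_one_le_left ha
    (Nat.one_le_cast.2 (Nat.pos_of_ne_zero Subgroup.FiniteIndex.index_ne_zero))

omit [Γ1.FiniteIndex] in
theorem kavg_wt (hinv : WInvt p e κ Γ1) {g g' : SL(2, ℤ)} (h : (g : SL(2, ℤ) ⧸ Γ1) = g')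
    (v : Vk (KP p) κ) :
    ‖dg p e κ (vact (KP p) κ (g' : Mat) v)‖ ≤ ‖dg p e κ (vact (KP p) κ (g : Mat) v)‖ := by
  have := hinv _ (QuotientGroup.eq.1 h) (vact (KP p) κ (g : Mat) v)
  rwa [← LinearMap.comp_apply (vact _ _ _), ← vact_mul, ← Matrix.SpecialLinearGroup.coe_mul,
    mul_inv_cancel_left] at this

omit [Γ1.FiniteIndex] in
theorem avg_iact (h : Γ ≤ Γ1) (g : SL(2, ℤ)) (F : IV p Γ κ) :
    avg p h κ (iact p Γ κ g F) = iact p Γ κ g (avg p h κ F) := by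
  ext1 x
  rw [iact_apply, kavg_apply, kavg_apply, map_smul, map_sum]
  congr 1
  exact sum_equiv (MulAction.toPerm g) (fun x' => by simp [kavg_smul]) fun x' _ => rfl

omit [Γ1.FiniteIndex] in
theorem avg_avg (h : Γ ≤ Γ1) (F : IV p Γ κ) : avg p h κ (avg p h κ F) = avg p h κ F := by
  refine kavg_const h fun x x' hx => ?_
  rw [kavg_apply, kavg_apply, hx]

omit [Γ1.FiniteIndex] in
theorem stab_ker_avg (h : Γ ≤ Γ1) : Stab p (LinearMap.ker (avg p h κ)) := by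
  refine ⟨fun g F hF => ?_, fun N F hF => ?_⟩
  · rw [LinearMap.mem_ker] at hF ⊢
    rw [avg_iact, hF, map_zero]
  · rw [LinearMap.mem_ker] at hF ⊢
    ext1 x
    have := congrArg (der κ N) (congrFun hF x)
    rw [kavg_apply, map_smul, map_sum, Pi.zero_apply, map_zero] at this
    rw [kavg_apply]
    exact this

omit [Γ1.FiniteIndex] in
/-- For `x`, `x'` in the same fibre `r_x'⁻¹ r_x ∈ Γ1`; `‖relIndex‖⁻¹ ≤ relIndex ≤ Γ.index`. -/
theorem ph2_one_sub_avg (h : Γ ≤ Γ1) (hinv : WInvt p e κ Γ1) (F : IV p Γ κ) :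
    ‖ph2 p e Γ κ (F - avg p h κ F)‖ ≤ Γ.index * ‖ph2 p e Γ κ F‖ := by
  exact (norm_ph2_le (by positivity)).2 fun x => (kavg_le h
    (fun x => dg p e κ ∘ₗ vact (KP p) κ ((rp x : SL(2, ℤ)) : Mat))
    (fun x x' v hx => kavg_wt hinv (by rwa [← kavg_rp h, ← kavg_rp h]) v) F (norm_nonneg _)
    ((norm_ph2_le (norm_nonneg _)).1 le_rfl) x).2

/-- `lidx_prod` and `lidx_map_le` for `(F, F') ↦ F + F' ∘ prj`; then `lidx_top_IV` twice. -/
theorem lidx_ker_avg (h : Γ ≤ Γ1) (hinv : WInvt p e κ Γ1) :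
    lidx p (ph1 p Γ κ) (ph2 p e Γ κ) (LinearMap.ker (avg p h κ)) ≤
      ((Γ.index : ℝ) - Γ1.index) * ∑ j ∈ range (κ + 1), (e j : ℝ) +
        2 * Γ.index * (κ + 1) * Real.logb p Γ.index := by
  have hi : (1 : ℝ) ≤ Γ.index :=
    Nat.one_le_cast.2 (Nat.pos_of_ne_zero Subgroup.FiniteIndex.index_ne_zero)
  have key := lidx_map_le (p := p) (Fact.out : p.Prime).one_lt
    ((npair_ph (e := e) (Γ := Γ) (κ := κ)).pair (npair_ph (e := e) (Γ := Γ1) (κ := κ)))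
    (npair_ph (e := e) (Γ := Γ) (κ := κ))
    (LinearMap.id.coprod (LinearMap.funLeft (KP p) (Vk (KP p) κ) (prj h)))
    (E := (LinearMap.ker (avg p h κ)).prod ⊤) (E' := ⊤) (fun _ _ => trivial) hi le_rfl
    (fun u hu => ?_) fun u _ => ?_
  · rw [lidx_prod npair_ph npair_ph, lidx_top_IV, lidx_top_IV, Module.finrank_prod, finrank_IV,
      finrank_IV, mul_one] at key
    have h1 : (Γ1.index : ℝ) ≤ Γ.index := Nat.cast_le.2 (Subgroup.index_antitone h)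
    have h2 : 0 ≤ ((κ : ℝ) + 1) * Real.logb p Γ.index :=
      mul_nonneg (by positivity) (Real.logb_nonneg (one_lt_p p) hi)
    push_cast at key
    nlinarith [mul_le_mul_of_nonneg_right h1 h2]
  · obtain ⟨G, hG⟩ : ∃ G : IV p Γ κ, G = u.1 + u.2 ∘ prj h := ⟨_, rfl⟩
    have h1 : avg p h κ G = u.2 ∘ prj h := by
      rw [hG, map_add, LinearMap.mem_ker.1 hu.1, zero_add]
      exact kavg_const h fun x x' hx => congrArg u.2 hx
    have h2 := kavg_le h (fun _ => LinearMap.id) (fun _ _ _ _ => le_rfl) G (norm_nonneg _)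
      ((norm_ph1_le (norm_nonneg _)).1 le_rfl)
    change _ ≤ _ * ‖ph1 p Γ κ (u.1 + u.2 ∘ prj h)‖
    rw [norm_pairM, ← hG]
    refine max_le ((norm_ph1_le (by positivity)).2 fun x => ?_)
      ((norm_ph1_le (by positivity)).2 fun y => ?_)
    · have h3 := (h2 x).2
      rwa [h1, show G - u.2 ∘ prj h = u.1 by rw [hG, add_sub_cancel_right]] at h3
    · induction y using QuotientGroup.induction_on with
      | H g => exact (h1 ▸ (h2 g).1 :)
  · change ‖ph2 p e Γ κ (u.1 + u.2 ∘ prj h)‖ ≤ _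
    rw [norm_pairM, one_mul, map_add]
    refine (IsUltrametricDist.norm_add_le_max _ _).trans (max_le_max le_rfl ?_)
    exact (norm_ph2_le (norm_nonneg _)).2 fun x => (kavg_wt hinv
      ((mk_rp _).trans (kavg_rp h x)) _).trans ((norm_ph2_le (norm_nonneg _)).1 le_rfl (prj h x))

omit [Γ1.FiniteIndex] in
/-- For a cocycle `C` of the full group, `γ ↦ avg (C γ) x0` is a cocycle of `Γ1` (`avg_iact`;
`avg F` is constant on fibres). -/
theorem exists_avg_cocycle (h : Γ ≤ Γ1) (C : ZG p (⊤ : Submodule (KP p) (IV p Γ κ))) :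
    ∃ c1 : Z1 Γ1 (vact (KP p) κ), ∀ γ : Γ1, c1.1 γ = avg p h κ (C.1 γ) (x0 Γ) := by
  refine ⟨⟨fun γ => avg p h κ (C.1 γ) (x0 Γ), fun g g' => ?_, fun g hg => ?_⟩, fun _ => rfl⟩
  · have h1 : prj h ((g' : SL(2, ℤ)) • x0 Γ) = prj h (x0 Γ) := by
      change (((g' : SL(2, ℤ)) * 1 : SL(2, ℤ)) : SL(2, ℤ) ⧸ Γ1) = (1 : SL(2, ℤ))
      rw [QuotientGroup.eq]
      simp
    beta_reduce
    rw [Subgroup.coe_mul, C.2.1, map_add, Pi.add_apply, avg_iact, iact_apply, kavg_apply, h1,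
      ← kavg_apply]
  · beta_reduce
    rw [hg, C.2.2.1, map_zero]
    rfl

end Pool.Agent.Lib.MP_88d29b_nt.G
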