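import Pool.Agent.Lib.MP_88d29b_nt.M3Family

/-!
The matrix model: exported statements.
-/

set_option autoImplicit false

noncomputable section

namespace Pool.Agent.Lib.MP_88d29b_nt.G.M3

open Finset CongruenceSubgroup
open scoped MatrixGroups

variable (p : ℕ) [Fact p.Prime] {M : ℕ} {ι : Type} [Fintype ι] [DecidableEq ι]

/-- `B = U + W` for the bordered matrices. -/
theorem PV_bRep (fb : FB (M * p) ι) (hM : Nat.Coprime p M) (κ : ℕ) :
    PV p fb κ (bRep p M) = PV p fb κ (uRep p M) + PV p fb κ (wRep p M) := by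
  rw [PV, foxM_bRep hM fb, chM_add, PP_add, PV, PV]

/-- Row decay of the classical matrices (`U`, `W`, `B`). -/
theorem PV_row {N : ℕ} (fb : FB N ι) (hN : p ∣ N) (κ : ℕ) {J : Type} [Fintype J] (δ : J → Mat)
    (hδ : ∀ i, (p : ℤ) ∣ δ i 0 0 ∧ (p : ℤ) ∣ δ i 1 0) (x y : Option (ι × Fin (κ + 1))) :
    ‖PV p fb κ δ x y‖ ≤ (p : ℝ) ^ (1 - fl p (degO κ (fun m : Fin (κ + 1) => (m : ℕ)) x)) := by
  have hK := norm_p_Kp p
  have hc : ∀ t : Gamma0 N, (p : ℤ) ∣ ((t : SL(2, ℤ)) : Mat) 1 0 := fun t =>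
    (inside_Sg hN _ t.2).1
  have := PP_row (ρ := actV (Kp p) κ) (γ := fb.mat) (sbd_sd0 hK κ)
    (fun j x y => actV_norm hK κ (hc (fb.gen j)) x y) (A := chM (actV (Kp p) κ) (foxM fb δ))
    zero_le_one (fun x y => ?_) x y
  · rwa [one_mul] at this
  · rw [one_mul]
    refine lin_norm (zpow_pos' _).le fun g hg => ?_
    obtain ⟨t, i, rfl⟩ := foxM_supp fb δ _ _ hg
    refine actV_norm_row hK κ ?_ ?_ _ _
    · simp only [Matrix.mul_apply, Fin.sum_univ_two]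
      exact dvd_add ((hδ i).1.mul_left _) ((hδ i).2.mul_left _)
    · simp only [Matrix.mul_apply, Fin.sum_univ_two]
      exact dvd_add ((hδ i).1.mul_left _) ((hδ i).2.mul_left _)

/-- Column decay of the matrix of `W`. -/
theorem PV_col {N : ℕ} (fb : FB N ι) (hN : p ∣ N) (κ : ℕ) {J : Type} [Fintype J] (δ : J → Mat)
    (hδ : ∀ i, (p : ℤ) ∣ δ i 1 0 ∧ (p : ℤ) ∣ δ i 1 1) (x : Option (ι × Fin (κ + 1)))
    (y : ι × Fin (κ + 1)) :
    ‖PV p fb κ δ x (some y)‖ ≤ (p : ℝ) ^ ((Nat.log p (κ + 1) : ℤ) + (y.2 : ℕ) - κ) := by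
  have hK := norm_p_Kp p
  have hc : ∀ t : Gamma0 N, (p : ℤ) ∣ ((t : SL(2, ℤ)) : Mat) 1 0 := fun t =>
    (inside_Sg hN _ t.2).1
  have := PP_col (ρ := actV (Kp p) κ) (γ := fb.mat) (sbd_sd0 hK κ)
    (fun j x y => norm_int_le _) (A := chM (actV (Kp p) κ) (foxM fb δ))
    (a := (p : ℝ) ^ (((y.2 : ℕ) : ℤ) - κ)) (y := y) (fun x => ?_) x
  · rwa [← zpow_natCast, zpow_mul_zpow, ← add_sub_assoc] at this
  · refine lin_norm (zpow_pos' _).le fun g hg => ?_
    obtain ⟨t, i, rfl⟩ := foxM_supp fb δ _ _ hg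
    refine actV_norm_col hK κ ?_ ?_ _ _
    · simp only [Matrix.mul_apply, Fin.sum_univ_two]
      exact dvd_add ((hc t).mul_right _) ((hδ i).1.mul_left _)
    · simp only [Matrix.mul_apply, Fin.sum_univ_two]
      exact dvd_add ((hc t).mul_right _) ((hδ i).2.mul_left _)

omit [Fintype ι] [DecidableEq ι] in
lemma goodV {N : ℕ} (fb : FB N ι) (κ : ℕ) : (sd0 (Kp p) κ).Good (actV (Kp p) κ (fb.mat none)) := by
  rw [FB.mat, fb.gen_none]
  exact good_sd0 κ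

section Theta

variable {N : ℕ} (fb : FB N ι) {κ : ℕ}

theorem thetaV_surj (hκ : Even κ) :
    Function.Surjective (theta fb (vact (Kp p) κ) (sd0 (Kp p) κ)) := by
  exact theta_surj fb (ρ := actV (Kp p) κ) (isAct_vact _ hκ ⊤) (fun _ _ => trivial) (goodV p fb κ)

theorem thetaV_ker (hκ : Even κ) :
    Module.finrank (Kp p) (LinearMap.ker (theta fb (vact (Kp p) κ) (sd0 (Kp p) κ))) ≤ 1 := by
  exact theta_ker fb (ρ := actV (Kp p) κ) (isAct_vact _ hκ ⊤) (fun _ _ => trivial) (goodV p fb κ)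

theorem thetaV_dc {J : Type} [Fintype J] {δ : J → Mat}
    (h : Adm ⊤ (Gamma0 N) (Gamma0 N) δ (vact (Kp p) κ)) :
    theta fb (vact (Kp p) κ) (sd0 (Kp p) κ) ∘ₗ Matrix.toLin' (PV p fb κ δ) =
      dcH h ∘ₗ theta fb (vact (Kp p) κ) (sd0 (Kp p) κ) := by
  exact theta_dc fb (ρ := actV (Kp p) κ) h (goodV p fb κ)

/-- The class of an integral vector is the class of an integral cocycle. -/
theorem thetaV_int (hκ : Even κ) (x : Option (ι × Fin (κ + 1)) → Kp p) (a : ℝ)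
    (hx : ∀ i, ‖x i‖ ≤ a) : ∃ c : Z1 (Gamma0 N) (vact (Kp p) κ),
      theta fb (vact (Kp p) κ) (sd0 (Kp p) κ) x = Submodule.Quotient.mk c ∧
      ∀ g m, ‖(c : Gamma0 N → Vk (Kp p) κ) g m‖ ≤ a := by
  have ha : 0 ≤ a := (norm_nonneg _).trans (hx none)
  refine ⟨unvec fb (vact (Kp p) κ) ((jM ι (sd0 (Kp p) κ)).mulVec x), rfl, fun g m => ?_⟩
  refine cocycle_norm fb (ρ := actV (Kp p) κ) (isAct_vact _ hκ ⊤) (fun _ _ => trivial)
    (fun g x y => norm_int_le _) _ ha (fun z => ?_) g m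
  have e := vec_unvec fb (ρ := actV (Kp p) κ) (isAct_vact _ hκ ⊤) (fun _ _ => trivial)
    ((jM ι (sd0 (Kp p) κ)).mulVec x)
  refine (congrArg (fun v => ‖v z‖) e).trans_le ?_
  refine norm_sum_le' _ _ ha fun i _ => ?_
  simpa using norm_mul_le' (jM_norm (sbd_sd0 (norm_p_Kp p) κ) z i) (hx i)

/-- The class of an integral cocycle is the class of an almost integral vector. -/
theorem thetaV_lift (hκ : Even κ) (c : Z1 (Gamma0 N) (vact (Kp p) κ)) (a : ℝ)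
    (hc : ∀ g m, ‖(c : Gamma0 N → Vk (Kp p) κ) g m‖ ≤ a) :
    ∃ x : Option (ι × Fin (κ + 1)) → Kp p,
      theta fb (vact (Kp p) κ) (sd0 (Kp p) κ) x = Submodule.Quotient.mk c ∧
      ∀ i, ‖x i‖ ≤ a * (p : ℝ) ^ Nat.log p (κ + 1) := by
  have ha : 0 ≤ a := (norm_nonneg _).trans (hc 1 0)
  refine ⟨_, theta_piM fb (ρ := actV (Kp p) κ) (isAct_vact _ hκ ⊤) (fun _ _ => trivial)
    (goodV p fb κ) c, fun i => ?_⟩
  refine norm_sum_le' _ _ (mul_nonneg ha (pow_nonneg p_pos.le _)) fun z _ => ?_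
  rw [mul_comm a]
  exact norm_mul_le' (piM_norm (sbd_sd0 (norm_p_Kp p) κ) (fun j x y => norm_int_le _) i z)
    (hc _ _)

include fb in
/-- The dimension of cohomology. -/
theorem finrank_HH_le (hκ : Even κ) :
    Module.finrank (Kp p) (HH (Kp p) N κ) ≤ Fintype.card ι * (κ + 1) + 1 ∧
      Fintype.card ι * (κ + 1) ≤ Module.finrank (Kp p) (HH (Kp p) N κ) := by
  have := finrank_H1 fb (ρ := actV (Kp p) κ) (isAct_vact _ hκ ⊤) (fun _ _ => trivial)
    (goodV p fb κ)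
  rwa [Fintype.card_fin] at this

/-- The rank of the bordered matrix exceeds the rank on cohomology by at most one. -/
theorem PV_rank {J : Type} [Fintype J] {δ : J → Mat}
    (h : Adm ⊤ (Gamma0 N) (Gamma0 N) δ (vact (Kp p) κ)) :
    (PV p fb κ δ).rank ≤ Module.finrank (Kp p) (LinearMap.range (dcH h)) + 1 := by
  exact PP_rank fb (ρ := actV (Kp p) κ) h (goodV p fb κ)

end Theta

end Pool.Agent.Lib.MP_88d29b_nt.G.M3
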