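import Pool.Agent.Lib.MP_88d29b_nt.KDefs
import Pool.Agent.Lib.MP_88d29b_nt.M3Main

set_option autoImplicit false

noncomputable section

namespace Pool.Agent.Lib.MP_88d29b_nt.G

open Finset CongruenceSubgroup Matrix
open scoped MatrixGroups

variable {p : ℕ} [Fact p.Prime]

theorem resH_mk {N M κ : ℕ} (h : N ∣ M) (hκ : Even κ) (c1 : Z1 (Gamma0 N) (vact (KP p) κ))
    (c : Z1 (Gamma0 M) (vact (KP p) κ)) (hc : ∀ γ : Gamma0 M, c.1 γ = c1.1 ⟨γ, gamma0_le h γ.2⟩) :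
    resH (KP p) h hκ (Submodule.Quotient.mk c1) = Submodule.Quotient.mk c := by
  rw [resH, dcH_mk]
  congr 1
  refine Subtype.ext (funext fun g => ?_)
  have e : step (Gamma0 N) (fun _ : Unit => (1 : Mat)) g () = ((), ⟨g, gamma0_le h g.2⟩) :=
    step_eq (admRes (isAct_vact (KP p) hκ ⊤) (gamma0_le h) (neg_one_mem_Gamma0 N)).cov g.2
      (by simp)
  rw [coe_dcZ, dcC_apply, Fintype.sum_unique, e, hc, vact_one]
  rfl

/-- A cocycle that vanishes on a subgroup of finite index is a coboundary. -/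
lemma kres_transfer {K V : Type*} [Field K] [CharZero K] [AddCommGroup V] [Module K V]
    {ρ : Mat → V →ₗ[K] V} {Γ : Subgroup SL(2, ℤ)} (H : Subgroup Γ) [H.FiniteIndex] {c : Γ → V}
    (hc : c ∈ Z1 Γ ρ) (h0 : ∀ γ ∈ H, c γ = 0) : ∃ w, cob Γ ρ w = c := by
  have : Fintype (Γ ⧸ H) := Fintype.ofFinite _
  have hF : ∀ x : Γ, c ((x : Γ ⧸ H).out)⁻¹ = c x⁻¹ := by
    intro x
    obtain ⟨t, ht⟩ := QuotientGroup.mk_out_eq_mul H x
    rw [ht, _root_.mul_inv_rev, hc.1, h0 _ (H.inv_mem t.2), map_zero, zero_add]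
  have hn : (Fintype.card (Γ ⧸ H) : K) ≠ 0 := Nat.cast_ne_zero.2 Fintype.card_ne_zero
  refine ⟨-(Fintype.card (Γ ⧸ H) : K)⁻¹ • ∑ q : Γ ⧸ H, c q.out⁻¹, funext fun g => ?_⟩
  have h1 : ∀ q : Γ ⧸ H, c (g⁻¹ • q).out⁻¹ = ρ ((g : SL(2, ℤ)) : Mat) (c q.out⁻¹) + c g := by
    intro q
    obtain ⟨x, rfl⟩ := QuotientGroup.mk_surjective q
    rw [MulAction.Quotient.smul_mk, hF, hF, smul_eq_mul, _root_.mul_inv_rev, inv_inv, hc.1]
  have h2 : ∑ q : Γ ⧸ H, c (g⁻¹ • q).out⁻¹ = ∑ q : Γ ⧸ H, c q.out⁻¹ :=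
    (MulAction.bijective g⁻¹).sum_comp fun q : Γ ⧸ H => c q.out⁻¹
  simp only [h1, Finset.sum_add_distrib, Finset.sum_const, Finset.card_univ] at h2
  rw [← map_sum, ← Nat.cast_smul_eq_nsmul K] at h2
  rw [map_smul, Pi.smul_apply, cob_apply, neg_smul, ← smul_neg, neg_sub,
    sub_eq_iff_eq_add'.2 h2.symm, inv_smul_smul₀ hn]

/-- Transfer: if `c γ = v | γ - v` on the subgroup, then `x ↦ v | x + c x` is well defined on the
finitely many cosets `Γ_0(M) x` in `Γ_0(N)` and its average `w` satisfies `c γ = w | γ - w`. -/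
theorem resH_injective {N M κ : ℕ} [NeZero M] (h : N ∣ M) (hκ : Even κ) :
    Function.Injective (resH (KP p) h hκ) := by
  rw [injective_iff_map_eq_zero]
  intro x hx
  obtain ⟨c1, rfl⟩ := Submodule.Quotient.mk_surjective _ x
  have ha := admRes (isAct_vact (KP p) hκ ⊤) (gamma0_le h) (neg_one_mem_Gamma0 N)
  have hres : (fun γ : Gamma0 M => c1.1 ⟨γ, gamma0_le h γ.2⟩) ∈ Z1 (Gamma0 M) (vact (KP p) κ) :=
    ⟨fun g g' => c1.2.1 ⟨g, gamma0_le h g.2⟩ ⟨g', gamma0_le h g'.2⟩,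
      fun g hg => c1.2.2 ⟨g, gamma0_le h g.2⟩ hg⟩
  rw [resH_mk h hκ c1 ⟨_, hres⟩ fun _ => rfl, Submodule.Quotient.mk_eq_zero] at hx
  obtain ⟨v, hv⟩ := mem_B1.1 hx
  obtain ⟨w, hw⟩ := kres_transfer ((Gamma0 M).subgroupOf (Gamma0 N))
    (Submodule.sub_mem _ c1.2 (cob_mem ha.act ha.inside v)) fun γ hγ => by
      have := congrFun hv ⟨γ, hγ⟩
      rw [Pi.sub_apply, sub_eq_zero]
      exact this.symm
  rw [Submodule.Quotient.mk_eq_zero, mem_B1]
  exact ⟨w + v, by rw [map_add, hw, sub_add_cancel]⟩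

omit [Fact p.Prime] in
lemma kres_bRep {M : ℕ} (hM : Nat.Coprime p M) (i : Option (Fin p)) : (M3.bRep p M i).det = p ∧
    (p : ℤ) ∣ M3.bRep p M i 0 0 ∧ ((M * p : ℕ) : ℤ) ∣ M3.bRep p M i 1 0 := by
  cases i with
  | none =>
    refine ⟨M3.M3Cov_det_w hM, by simp [M3.bRep, M3.wMat], ?_⟩
    simp [M3.bRep, M3.wMat, mul_comm]
  | some a =>
    refine ⟨M3.M3Cov_det_u M a, by simp [M3.bRep, M3.uRep], ?_⟩
    have e : M3.bRep p M (some a) 1 0 = ((M * p : ℕ) : ℤ) * (a : ℕ) := by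
      simp [M3.bRep, M3.uRep, mul_comm]
    rw [e]
    exact dvd_mul_right _ _

/-- Both sides are double coset operators from level `N p` to level `M p` (`dcH_comp`, `Adm.prod`)
with `p + 1` representatives, and each `bRep p M i` lies in a coset `Γ_0(N p) bRep p N j`
(`dcH_eq_of_mem`). -/
theorem resH_bRep {N M κ : ℕ} (h : N ∣ M) (hκ : Even κ) (hN : Nat.Coprime p N)
    (hM : Nat.Coprime p M) :
    resH (KP p) (Nat.mul_dvd_mul_right h p) hκ ∘ₗ dcH (M3.adm_bRep p (KP p) hκ hN) =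
      dcH (M3.adm_bRep p (KP p) hκ hM) ∘ₗ resH (KP p) (Nat.mul_dvd_mul_right h p) hκ := by
  have hle := gamma0_le (Nat.mul_dvd_mul_right h p)
  have r := admRes (isAct_vact (KP p) hκ ⊤) hle (neg_one_mem_Gamma0 (N * p))
  have bN := M3.adm_bRep p (KP p) hκ hN
  have bM := M3.adm_bRep p (KP p) hκ hM
  have a1 := bN.prod r fun x y t ht e =>
    Prod.ext (bN.cov.inj _ _ t ht (by simpa using e)) rfl
  have a2 := r.prod bM fun x y t ht e => by
    rw [Matrix.one_mul, Matrix.one_mul] at e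
    refine Prod.ext rfl (bM.cov.inj _ _ t ?_ e)
    obtain ⟨-, -, h1⟩ := kres_bRep hM x.2
    obtain ⟨h2, -, h3⟩ := kres_bRep hM y.2
    have hco : IsCoprime (M : ℤ) (p : ℤ) := (Nat.isCoprime_iff_coprime.mpr hM).symm
    have hM1 : (M : ℤ) ∣ ((M * p : ℕ) : ℤ) := by
      push_cast
      exact dvd_mul_right _ _
    have h4 : (p : ℤ) ∣ t 1 0 :=
      dvd_trans (by push_cast; exact dvd_mul_left _ _) (mem_Gamma0_iff.1 ht)
    obtain ⟨u, hu⟩ := hM1.trans h1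
    obtain ⟨v, hv⟩ := hM1.trans h3
    have e10 := congrFun (congrFun e 1) 0
    rw [Matrix.mul_apply, Fin.sum_univ_two, hu, hv] at e10
    rw [Matrix.det_fin_two, hv] at h2
    have h5 : (M : ℤ) ∣ t 1 0 * p :=
      ⟨(u - t 1 1 * v) * M3.bRep p M y.2 1 1 - t 1 0 * M3.bRep p M y.2 0 1 * v, by
        linear_combination (-(M3.bRep p M y.2 1 1)) * e10 - t 1 0 * h2⟩
    rw [mem_Gamma0_iff]
    push_cast
    exact hco.mul_dvd (hco.dvd_of_dvd_mul_right h5) h4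
  rw [resH, dcH_comp bN r a1, dcH_comp r bM a2]
  refine (dcH_eq_of_mem a1 a2 (by simp) fun x => ?_).symm
  obtain ⟨h1, h2, h3⟩ := kres_bRep hM x.2
  have h4 : ((N * p : ℕ) : ℤ) ∣ M3.bRep p M x.2 1 0 :=
    (Int.natCast_dvd_natCast.2 (Nat.mul_dvd_mul_right h p)).trans h3
  by_cases h5 : (p : ℤ) ∣ M3.bRep p M x.2 1 1
  · obtain ⟨t, ht, e⟩ := M3.M3Cov_decomp_w hN _ h1 h2 h4 h5
    exact ⟨(none, ()), t, ht, by rw [Matrix.one_mul, Matrix.mul_one]; exact e⟩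
  · obtain ⟨j, t, ht, e⟩ := M3.M3Cov_decomp_u _ h1 h2 h4 h5
    exact ⟨(some j, ()), t, ht, by rw [Matrix.one_mul, Matrix.mul_one]; exact e⟩

lemma kres_coset {N L : ℕ} (x y : Gamma0 N) :
    (x : Gamma0 N ⧸ (Gamma0 L).subgroupOf (Gamma0 N)) = y ↔
      (L : ℤ) ∣ x.1 0 0 * y.1 1 0 - x.1 1 0 * y.1 0 0 := by
  rw [QuotientGroup.eq, Subgroup.mem_subgroupOf, mem_Gamma0_iff]
  have e : ((x⁻¹ * y : Gamma0 N) : SL(2, ℤ)) 1 0 = x.1 0 0 * y.1 1 0 - x.1 1 0 * y.1 0 0 := by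
    rw [Subgroup.coe_mul, Subgroup.coe_inv, Matrix.SpecialLinearGroup.coe_mul,
      Matrix.SpecialLinearGroup.coe_inv, Matrix.adjugate_fin_two, Matrix.mul_apply,
      Fin.sum_univ_two]
    simp
    ring
  rw [e]

/-- The cosets of `Γ_0(N p)` in `Γ_0(N)` are represented by `(1 0; N a 1)`, `a < p`, and one further
element. -/
theorem index_mul_prime {N : ℕ} [NeZero N] (hN : Nat.Coprime p N) :
    (Gamma0 (N * p)).index = (p + 1) * (Gamma0 N).index := by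
  have hq : Prime (p : ℤ) := Nat.prime_iff_prime_int.mp Fact.out
  have hN0 : (N : ℤ) ≠ 0 := by exact_mod_cast NeZero.ne N
  have hb := M3.M3Cov_bezout hN
  have hex : ∀ i : Option (Fin p), ∃ x : Gamma0 N,
      x.1 0 0 = i.elim (p : ℤ) (fun _ => 1) ∧ x.1 1 0 = N * i.elim 1 (fun a => ((a : ℕ) : ℤ)) := by
    rintro (_ | a)
    · refine ⟨⟨⟨!![(p : ℤ), -Nat.gcdB p N; N, Nat.gcdA p N], ?_⟩, mem_Gamma0_iff.2 ?_⟩, rfl,
        (mul_one _).symm⟩
      · rw [Matrix.det_fin_two_of]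
        linear_combination hb
      · exact dvd_rfl
    · refine ⟨⟨⟨!![1, 0; (N : ℤ) * (a : ℕ), 1], ?_⟩, mem_Gamma0_iff.2 ?_⟩, rfl, rfl⟩
      · rw [Matrix.det_fin_two_of]
        ring
      · exact dvd_mul_right (N : ℤ) ((a : ℕ) : ℤ)
  choose r hr0 hr1 using hex
  have key : ∀ (i : Option (Fin p)) (y : Gamma0 N) (c : ℤ), y.1 1 0 = N * c →
      ((r i : Gamma0 N ⧸ (Gamma0 (N * p)).subgroupOf (Gamma0 N)) = y ↔
        (p : ℤ) ∣ i.elim (p : ℤ) (fun _ => 1) * c - i.elim 1 (fun a => ((a : ℕ) : ℤ)) * y.1 0 0) := by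
    intro i y c hc
    rw [kres_coset, hr0, hr1, hc, ← mul_dvd_mul_iff_left hN0 (b := (p : ℤ))]
    push_cast
    exact iff_of_eq (congrArg _ (by ring))
  have hbij : Function.Bijective fun i : Option (Fin p) =>
      (r i : Gamma0 N ⧸ (Gamma0 (N * p)).subgroupOf (Gamma0 N)) := by
    constructor
    · intro i j hij
      have h1 := (key i (r j) _ (hr1 j)).1 hij
      rw [hr0] at h1
      rcases i with _ | i <;> rcases j with _ | j <;> simp only [Option.elim] at h1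
      · rfl
      · exfalso
        rw [mul_one, dvd_sub_right (dvd_mul_right _ _)] at h1
        exact hq.not_dvd_one h1
      · exfalso
        rw [mul_one, dvd_sub_left (dvd_mul_left _ _)] at h1
        exact hq.not_dvd_one h1
      · obtain ⟨c, e⟩ := h1
        have hi : ((i : ℕ) : ℤ) < p := by exact_mod_cast i.2
        have hj : ((j : ℕ) : ℤ) < p := by exact_mod_cast j.2
        have hi0 : (0 : ℤ) ≤ (i : ℕ) := Int.natCast_nonneg _
        have hj0 : (0 : ℤ) ≤ (j : ℕ) := Int.natCast_nonneg _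
        have h0 : c = 0 := by
          by_contra hne
          rcases lt_or_gt_of_ne hne with h1 | h1 <;> nlinarith
        rw [h0, mul_zero, one_mul, mul_one, sub_eq_zero] at e
        exact congrArg some (Fin.ext (by exact_mod_cast e.symm))
    · intro q
      obtain ⟨y, rfl⟩ := QuotientGroup.mk_surjective q
      obtain ⟨c, hc⟩ := mem_Gamma0_iff.1 y.2
      by_cases h0 : (p : ℤ) ∣ y.1 0 0
      · exact ⟨none, (key none y c hc).2 (dvd_sub (dvd_mul_right _ _) (h0.mul_left _))⟩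
      · have : NeZero p := ⟨(Fact.out : p.Prime).ne_zero⟩
        have h1 : ((y.1 0 0 : ℤ) : ZMod p) ≠ 0 := fun h =>
          h0 ((ZMod.intCast_zmod_eq_zero_iff_dvd _ _).mp h)
        obtain ⟨x, hx⟩ : ∃ x : ZMod p, ((c : ℤ) : ZMod p) = x * (y.1 0 0 : ℤ) :=
          ⟨(c : ℤ) / (y.1 0 0 : ℤ), by field_simp⟩
        refine ⟨some ⟨x.val, x.val_lt⟩, (key _ y c hc).2 ?_⟩
        rw [← ZMod.intCast_zmod_eq_zero_iff_dvd]
        simp [hx]
  rw [← Subgroup.relIndex_mul_index (gamma0_le (dvd_mul_right N p))]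
  congr 1
  rw [Subgroup.relIndex, Subgroup.index, ← Nat.card_eq_of_bijective _ hbij]
  simp

end Pool.Agent.Lib.MP_88d29b_nt.G
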