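import Pool.Agent.Lib.MP_88d29b_nt.KHodge
import Pool.Agent.Lib.MP_88d29b_nt.KAvg
import Pool.Agent.Lib.MP_88d29b_nt.KRes

set_option autoImplicit false

noncomputable section

namespace Pool.Agent.Lib.MP_88d29b_nt.G

open Finset CongruenceSubgroup Matrix
open scoped MatrixGroups

variable {p : ℕ} [Fact p.Prime]

/-- Subtracting the average changes a cocycle by a cocycle of the bigger group. -/
lemma krel_hq {N M κ : ℕ} [NeZero M] (h : N ∣ M) (hκ : Even κ)
    (c c' : Z1 (Gamma0 M) (vact (KP p) κ))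
    (hc : ∀ γ : Gamma0 M, c'.1 γ = (1 - avg p (gamma0_le h) κ : Module.End (KP p) _)
      (shap p (c : Gamma0 M → Vk (KP p) κ) γ) (x0 (Gamma0 M))) :
    (LinearMap.range (resH (KP p) h hκ)).mkQ (Submodule.Quotient.mk c') =
      (LinearMap.range (resH (KP p) h hκ)).mkQ (Submodule.Quotient.mk c) := by
  obtain ⟨c1, h1⟩ := exists_avg_cocycle (gamma0_le h) ⟨_, shap_mem (neg_one_mem_Gamma0 M) c⟩
  rw [Submodule.mkQ_apply, Submodule.mkQ_apply, eq_comm, Submodule.Quotient.eq,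
    ← Submodule.Quotient.mk_sub]
  refine ⟨Submodule.Quotient.mk c1, resH_mk h hκ c1 _ fun γ => ?_⟩
  rw [h1, Submodule.coe_sub, Pi.sub_apply, hc, LinearMap.sub_apply, Pi.sub_apply,
    Module.End.one_apply, shap_x0, sub_sub_cancel]

variable (p) in
/-- The Hodge bound for the complement of level `N` in level `M`. -/
theorem ext_rel (N M : ℕ) [NeZero N] [NeZero M] (hNM : N ∣ M) (hM : Nat.Coprime p M) :
    ∃ C : ℕ, ∀ κ h : ℕ, Even κ → 2 ≤ κ → h ≤ κ → np p (slopes (KP p) M κ p) h ≤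
      np p (slopes (KP p) N κ p) h +
      ((p : ℝ) + 1) * ((Gamma0 M).index - (Gamma0 N).index) / 6 * (h : ℝ) ^ 2 / 2 +
      C * κ * (Nat.log 2 κ : ℝ) := by
  have hp : p.Prime := Fact.out
  have hp1 : (1 : ℝ) < p := by exact_mod_cast hp.one_lt
  have : NeZero p := ⟨hp.ne_zero⟩
  have hN : Nat.Coprime p N := hM.coprime_dvd_right hNM
  have hd' : N * p ∣ M * p := Nat.mul_dvd_mul_right hNM p
  have hle := gamma0_le hd'
  obtain ⟨C1, hC1⟩ := khodge_dim p N
  obtain ⟨C2, hC2⟩ := khodge_dim p (M * p)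
  obtain ⟨I, hI⟩ : ∃ I, I = (Gamma0 (M * p)).index := ⟨_, rfl⟩
  have hI0 : (1 : ℝ) ≤ I := by
    rw [hI]
    exact_mod_cast Nat.one_le_iff_ne_zero.2 Subgroup.FiniteIndex.index_ne_zero
  obtain ⟨A, hA⟩ := exists_nat_ge (Real.logb p I)
  have hA0 : 0 ≤ Real.logb p I := Real.logb_nonneg hp1 hI0
  refine ⟨C1 + C2 * (A + 1) + 34 * I + I * A, fun κ h hκ h2 hh => ?_⟩
  obtain ⟨y, hy, hd, hn⟩ := exists_np_le_det (Tl (KP p) M κ p) h
  have hn' := logb_det_le_np (Tl (KP p) N κ p) h hy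
  rw [khodge_det hM hκ] at hd hn
  rw [khodge_det hN hκ] at hn'
  obtain ⟨T, hT, hdet⟩ := det_quot (resH (KP p) hd' hκ) (resH_injective hd' hκ)
    (1 - y • dcH (M3.adm_bRep p (KP p) hκ hN)) (1 - y • dcH (M3.adm_bRep p (KP p) hκ hM)) (by
      rw [LinearMap.comp_sub, LinearMap.sub_comp, LinearMap.comp_smul, LinearMap.smul_comp,
        resH_bRep hNM hκ hN hM]
      rfl)
  rw [hdet] at hd hn
  have hd1 := left_ne_zero_of_mul hd
  have hd2 := right_ne_zero_of_mul hd
  rw [norm_mul, Real.logb_mul (norm_ne_zero_iff.2 hd1) (norm_ne_zero_iff.2 hd2)] at hn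
  have hinv := (khodge_good (p := p) N h hκ).inv
  have hb := det_bound (khodge_good M h hκ) (stab_ker_avg hle)
    (1 - avg p hle κ : Module.End (KP p) _)
    (fun F => by
      rw [LinearMap.mem_ker, LinearMap.sub_apply, map_sub, avg_avg, Module.End.one_apply, sub_self])
    (fun g F => by
      rw [LinearMap.sub_apply, LinearMap.sub_apply, map_sub, avg_iact]
      rfl) (a0 := I) (by linarith) (fun F => hI ▸ ph2_one_sub_avg hle hinv F)
    (LinearMap.range (resH (KP p) hd' hκ)).mkQ (Submodule.mkQ_surjective _) (krel_hq hd' hκ) T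
    (a := p) (by positivity)
    (fun c b hb => ⟨_, by
      rw [khodge_mk hM hκ y c, Submodule.mkQ_apply, Submodule.mkQ_apply, hT],
      khodge_cocycle hM hκ h hy c b hb⟩) hd2
  have hl := lidx_ker_avg hle hinv
  have he := khodge_err (p := p) h2 hh (Gamma0 (M * p))
  rw [khodge_sum hh, ← hI] at hl
  rw [← hI] at he
  rw [Real.logb_mul (by linarith) (by linarith), Real.logb_self_eq_one hp1] at hb
  have hi : (I : ℝ) = (p + 1) * (Gamma0 M).index := by
    rw [hI]
    exact_mod_cast index_mul_coprime hp hM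
  have hi' : ((Gamma0 (N * p)).index : ℝ) = (p + 1) * (Gamma0 N).index := by
    exact_mod_cast index_mul_coprime hp hN
  have hL : (1 : ℝ) ≤ Nat.log 2 κ := by exact_mod_cast Nat.log_pos one_lt_two h2
  have hk : (h : ℝ) ≤ κ := by exact_mod_cast hh
  have hk1 : (2 : ℝ) ≤ κ := by exact_mod_cast h2
  have h0 : (0 : ℝ) ≤ h := Nat.cast_nonneg h
  have hk2 : (κ : ℝ) ≤ κ * Nat.log 2 κ := le_mul_of_one_le_right (Nat.cast_nonneg κ) hL
  have hq : (Module.finrank (KP p) (HH (KP p) (M * p) κ ⧸ LinearMap.range (resH (KP p) hd' hκ)) :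
      ℝ) ≤ C2 * (κ * Nat.log 2 κ) := by
    refine le_trans ?_ ((hC2 κ hκ h2).trans (mul_le_mul_of_nonneg_left hk2 (Nat.cast_nonneg C2)))
    exact_mod_cast Submodule.finrank_quotient_le _
  have a1 := (hC1 κ hκ h2).trans (mul_le_mul_of_nonneg_left hk2 (Nat.cast_nonneg C1))
  have a2 := mul_le_mul hq (add_le_add hA (le_refl (1 : ℝ))) (by linarith) (by positivity)
  have a3 := mul_le_mul_of_nonneg_left (hk.trans hk2) (Nat.cast_nonneg I)
  have a4 := mul_nonneg (Nat.cast_nonneg I : (0 : ℝ) ≤ _) h0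
  have a5 := mul_nonneg (Nat.cast_nonneg (Gamma0 (N * p)).index : (0 : ℝ) ≤ _) h0
  have a6 : (κ + 1) * Real.logb p I ≤ (3 * (κ * Nat.log 2 κ)) * A :=
    mul_le_mul (by linarith) hA hA0 (by positivity)
  have a7 := mul_le_mul_of_nonneg_left a6 (Nat.cast_nonneg I)
  rw [mul_sub, ← hi, ← hi', slopes, slopes]
  push_cast
  linarith

end Pool.Agent.Lib.MP_88d29b_nt.G
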