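import Pool.Agent.Lib.MP_88d29b_nt.HVol
import Pool.Agent.Lib.MP_88d29b_nt.HExt48

set_option autoImplicit false

noncomputable section

namespace Pool.Agent.Lib.MP_88d29b_nt.G

open Finset CongruenceSubgroup Matrix
open scoped MatrixGroups

variable {p : ℕ} [Fact p.Prime]

/-- `vact` is given by integer matrices, so the cochain formula `dcC_apply` preserves the bound. -/
theorem IntCl.dc {N N' κ : ℕ} {J : Type} [Fintype J] {δ : J → Mat}
    (h : Adm ⊤ (Gamma0 N) (Gamma0 N') δ (vact (KP p) κ)) {x : HH (KP p) N κ} {a : ℝ}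
    (hx : IntCl x a) : IntCl (N := N') (dcH h x) a := by
  obtain ⟨c, rfl, hc⟩ := hx
  have ha : 0 ≤ a := (norm_nonneg _).trans (hc 1 0)
  refine ⟨dcZ h c, rfl, fun g m => ?_⟩
  rw [coe_dcZ, dcC_apply, Finset.sum_apply]
  refine IsUltrametricDist.norm_sum_le_of_forall_le_of_nonneg ha fun i _ => ?_
  rw [vact_apply]
  refine IsUltrametricDist.norm_sum_le_of_forall_le_of_nonneg ha fun n _ => ?_
  rw [norm_mul]
  calc _ ≤ 1 * a := mul_le_mul (norm_int_le p _) (hc _ _) (norm_nonneg _) zero_le_one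
    _ = a := one_mul a

theorem hbra_cols {K : Type} [NormedField K] {m n W : Type} [Fintype m] [Fintype n] [DecidableEq n]
    [AddCommGroup W] [Module K W] (f : (m → K) →ₗ[K] W) (g : (n → K) →ₗ[K] W) (x : ℝ)
    (h : ∀ y : n, ∃ v : m → K, f v = g (Pi.single y 1) ∧ ∀ i, ‖v i‖ ≤ x) :
    ∃ b : Matrix m n K, EntLe b x ∧ f ∘ₗ Matrix.toLin' b = g := by
  choose v hv hx using h
  refine ⟨Matrix.of fun i y => v y i, fun i y => hx y i, (Pi.basisFun K n).ext fun y => ?_⟩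
  rw [Pi.basisFun_apply, LinearMap.comp_apply, Matrix.toLin'_apply, Matrix.mulVec_single_one,
    ← hv y]
  rfl

theorem hbra_single {K : Type} [NormedField K] {n : Type} [DecidableEq n] (y i : n) :
    ‖(Pi.single y 1 : n → K) i‖ ≤ 1 := by
  rw [Pi.single_apply]
  split_ifs <;> simp

/-- Take `h1`, `h2` from `ext_hecke`, `θ = theta fb ..`. The column `y` of `b` is a lift (`Z.lift`) of
`dcH h2 (θ e_y)`, integral by `M3.thetaV_int` and `IntCl.dc`; the column `y` of `a` is a lift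
(`M3.thetaV_lift`) of `dcH h1 (Z.cl e_y)` (`Z.int`). So `cl ∘ b = dcH h2 ∘ θ`, `θ ∘ a = dcH h1 ∘ cl`.
With `M3.thetaV_dc` the range of `PV - a b` and the image of the kernel of `cl` under `a` lie in the
kernel of `θ`, of dimension at most one (`M3.thetaV_ker`); the last part is `Z.comm`. -/
theorem exists_ab {M κ : ℕ} {ι α : Type} [Fintype ι] [DecidableEq ι] [Fintype α] [DecidableEq α]
    (fb : M3.FB (M * p) ι) (Z : ZModel (KP p) M κ α) (hM : Nat.Coprime p M) (hκ : Even κ) :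
    ∃ (a : Matrix (Option (ι × Fin (κ + 1))) α (KP p)) (b : Matrix α (Option (ι × Fin (κ + 1))) (KP p)),
      EntLe a ((p : ℝ) ^ Nat.log p (κ + 1)) ∧ EntLe b 1 ∧
      (M3.PV p fb κ (M3.bRep p M) - a * b).rank ≤ 1 ∧
      Module.finrank (KP p) ((LinearMap.ker Z.cl).map (Matrix.toLin' a)) ≤ 1 ∧
      Z.cl ∘ₗ Matrix.toLin' (b * a - zm (KP p) (Z.tc p)) = 0 := by
  obtain ⟨J1, J2, _, _, δ1, δ2, h1, h2, eB, eT⟩ := ext_hecke p hM hκ
  set θ := M3.theta fb (vact (KP p) κ) (M3.sd0 (KP p) κ) with hθ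
  obtain ⟨b, hb, eb⟩ := hbra_cols Z.cl (dcH h2 ∘ₗ θ) 1 fun y => by
    obtain ⟨c, e, hc⟩ := M3.thetaV_int p fb hκ (Pi.single y 1) 1 (hbra_single y)
    exact Z.lift _ 1 (IntCl.dc h2 ⟨c, e.symm, hc⟩)
  obtain ⟨a, ha, ea⟩ := hbra_cols θ (dcH h1 ∘ₗ Z.cl) ((p : ℝ) ^ Nat.log p (κ + 1)) fun y => by
    obtain ⟨c, e, hc⟩ := IntCl.dc h1 (Z.int (Pi.single y 1) 1 zero_le_one (hbra_single y))
    obtain ⟨x, e', hx⟩ := M3.thetaV_lift p fb hκ c 1 hc
    exact ⟨x, e'.trans e, fun i => by simpa using hx i⟩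
  have hk : Module.finrank (KP p) (LinearMap.ker θ) ≤ 1 := M3.thetaV_ker p fb hκ
  have eb' : ∀ v, Z.cl (Matrix.toLin' b v) = dcH h2 (θ v) := fun v => LinearMap.congr_fun eb v
  have ea' : ∀ v, θ (Matrix.toLin' a v) = dcH h1 (Z.cl v) := fun v => LinearMap.congr_fun ea v
  refine ⟨a, b, ha, hb, ?_, ?_, ?_⟩
  · refine le_trans (Submodule.finrank_mono ?_) hk
    rintro _ ⟨v, rfl⟩
    have e1 : θ (Matrix.toLin' (M3.PV p fb κ (M3.bRep p M)) v) = dcH h1 (dcH h2 (θ v)) := by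
      have := LinearMap.congr_fun (M3.thetaV_dc p fb (M3.adm_bRep p (KP p) hκ hM)) v
      rw [eB] at this
      exact this
    change θ (Matrix.toLin' (M3.PV p fb κ (M3.bRep p M) - a * b) v) = 0
    rw [map_sub, LinearMap.sub_apply, map_sub, Matrix.toLin'_mul, LinearMap.comp_apply, ea', eb',
      e1, sub_self]
  · refine le_trans (Submodule.finrank_mono ?_) hk
    rintro _ ⟨v, hv, rfl⟩
    have hv' : Z.cl v = 0 := hv
    rw [LinearMap.mem_ker, ea', hv', map_zero]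
  · refine LinearMap.ext fun v => ?_
    have e1 := LinearMap.congr_fun (Z.comm p Fact.out hM) v
    rw [eT] at e1
    rw [LinearMap.comp_apply, map_sub, LinearMap.sub_apply, map_sub, Matrix.toLin'_mul,
      LinearMap.comp_apply, eb', ea', LinearMap.zero_apply, sub_eq_zero]
    exact e1.symm

end Pool.Agent.Lib.MP_88d29b_nt.G
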