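import Pool.Agent.Lib.MP_88d29b_nt.HDefs
import Pool.Agent.Lib.MP_88d29b_nt.M3Main

/-!
Two further statements on the matrix model.
-/

set_option autoImplicit false

noncomputable section

namespace Pool.Agent.Lib.MP_88d29b_nt.G

open Finset CongruenceSubgroup
open scoped MatrixGroups

variable (p : ℕ) [Fact p.Prime]

/-- An invariant vector vanishes. -/
lemma hext32_inv {K : Type} [Field K] [CharZero K] {N κ : ℕ} [NeZero N] (h2 : 2 ≤ κ) (v : Vk K κ)
    (h : ∀ g : Gamma0 N, vact K κ ((g : SL(2, ℤ)) : Mat) v = v) : v = 0 := by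
  have hT : ∀ x : K, ev2 v (x + 1) 1 = ev2 v x 1 := by
    intro x
    have e := ev2_vact κ ((ModularGroup.T : SL(2, ℤ)) : Mat) v x 1
    rw [h ⟨ModularGroup.T, by simp [ModularGroup.T]⟩] at e
    simpa [ModularGroup.T] using e.symm
  have hn : ∀ n : ℕ, ev2 v (n : K) 1 = ev2 v 0 1 := by
    intro n
    induction n with
    | zero => simp
    | succ n ih => rw [Nat.cast_succ, hT, ih]
  have hc : ∀ x : K, ev2 v x 1 = ev2 v 0 1 := by
    have hP : ∀ x : K, (∑ j : Fin (κ + 1), Polynomial.monomial (j : ℕ) (v j)).eval x =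
        ev2 v x 1 := by
      intro x
      simp [ev2, Polynomial.eval_finsetSum]
    have e : (∑ j : Fin (κ + 1), Polynomial.monomial (j : ℕ) (v j)) =
        Polynomial.C (ev2 v 0 1) := by
      refine Polynomial.eq_of_infinite_eval_eq _ _ ?_
      refine (Set.infinite_range_of_injective (Nat.cast_injective (R := K))).mono ?_
      rintro _ ⟨n, rfl⟩
      change Polynomial.eval _ _ = Polynomial.eval _ _
      rw [hP, hn, Polynomial.eval_C]
    intro x
    rw [← hP, e, Polynomial.eval_C]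
  have hN : ((N : K) + 1) ≠ 0 := by exact_mod_cast Nat.succ_ne_zero N
  have hL : ev2 v 1 ((N : K) + 1) = ev2 v 1 1 := by
    let L : SL(2, ℤ) := ⟨!![1, 0; (N : ℤ), 1], by simp [Matrix.det_fin_two]⟩
    have e := ev2_vact κ (L : Mat) v 1 1
    rw [h ⟨L, by simp [L]⟩] at e
    simpa [L] using e.symm
  have e1 := ev2_scale v ((N : K) + 1) ((N : K) + 1)⁻¹ 1
  rw [mul_inv_cancel₀ hN, mul_one, hL, hc, hc ((N : K) + 1)⁻¹] at e1
  have hne : ((N : K) + 1) ^ κ ≠ 1 := by
    have h3 : 1 < (N + 1) ^ κ :=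
      Nat.one_lt_pow (by omega) (Nat.succ_lt_succ (Nat.pos_of_ne_zero (NeZero.ne N)))
    exact_mod_cast h3.ne'
  have h0 : ev2 v 0 1 = 0 := by
    by_contra c
    exact hne (mul_right_cancel₀ c (by rw [← e1, one_mul]))
  refine ev2_ext fun x => ?_
  rw [hc, h0]
  simp [ev2]

lemma hext32_d {K : Type} [Field K] {ι : Type} (κ : ℕ) (γ : Option ι → Mat) :
    zm K (fun (x : Option ι × Fin (κ + 1)) (y : Fin (κ + 1)) =>
      (actMat κ (γ x.1) - 1 : Matrix (Fin (κ + 1)) (Fin (κ + 1)) ℤ) x.2 y) =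
      M3.dM (M3.actV K κ) γ := by
  ext x y
  simp only [Matrix.map_apply, M3.dM, M3.actV, Matrix.sub_apply, Int.cast_sub, Matrix.one_apply]
  split_ifs <;> simp

lemma hext32_tc {K : Type} [Field K] {ι : Type} (κ : ℕ) (F : Option ι → Option ι → (Mat →₀ ℤ)) :
    zm K (fun (x y : Option ι × Fin (κ + 1)) =>
      ∑ g ∈ (F y.1 x.1).support, F y.1 x.1 g * actMat κ g x.2 y.2) =
      M3.chM (M3.actV K κ) F := by
  ext x y
  simp only [Matrix.map_apply, M3.chM, M3.lin, Finsupp.sum, Matrix.sum_apply, Matrix.smul_apply,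
    smul_eq_mul, M3.actV, Int.cast_sum, Int.cast_mul]

lemma hext32_t0 {K : Type} [Field K] {J : Type} [Fintype J] (κ : ℕ) (δ : J → Mat) :
    zm K (∑ i, actMat κ (δ i)) = ∑ i, M3.actV K κ (δ i) := by
  ext x y
  simp only [Matrix.map_apply, Matrix.sum_apply, M3.actV, Int.cast_sum]

/-- A free basis gives an integral model. -/
theorem ext_zmodel {N κ : ℕ} [NeZero N] {ι : Type} [Fintype ι] [DecidableEq ι] (fb : M3.FB N ι)
    (hκ : Even κ) (h2 : 2 ≤ κ) : Nonempty (ZModel (KP p) N κ (Option ι × Fin (κ + 1))) := by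
  have h : IsAct ⊤ (M3.mact (M3.actV (KP p) κ)) := isAct_vact (KP p) hκ ⊤
  have hS : Inside (Gamma0 N) ⊤ := fun _ _ => trivial
  refine ⟨{
    cl := (B1 (Gamma0 N) (M3.mact (M3.actV (KP p) κ))).mkQ ∘ₗ
      M3.unvec fb (M3.mact (M3.actV (KP p) κ))
    d := fun x y => (actMat κ (fb.mat x.1) - 1 : Matrix (Fin (κ + 1)) (Fin (κ + 1)) ℤ) x.2 y
    tc := fun l x y => ∑ g ∈ (M3.foxM fb (tRep l) y.1 x.1).support,
      M3.foxM fb (tRep l) y.1 x.1 g * actMat κ g x.2 y.2
    t0 := fun l => ∑ i, actMat κ (tRep l i)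
    surj := ?_, ker := ?_, inj := ?_, comm := ?_, cob := ?_, int := ?_, lift := ?_ }⟩
  · intro x
    obtain ⟨c, rfl⟩ := Submodule.Quotient.mk_surjective _ x
    exact ⟨M3.vec fb c.1, congrArg Submodule.Quotient.mk (M3.unvec_vec fb h hS c)⟩
  · rw [hext32_d]
    ext x
    rw [LinearMap.mem_ker, LinearMap.mem_range]
    refine (Submodule.Quotient.mk_eq_zero _).trans ⟨?_, ?_⟩
    · rintro ⟨v, hv⟩
      refine ⟨v, ?_⟩
      rw [Matrix.toLin'_apply, ← M3.vec_cob, hv]
      exact M3.vec_unvec fb h hS x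
    · rintro ⟨v, rfl⟩
      refine ⟨v, ?_⟩
      rw [Matrix.toLin'_apply, ← M3.vec_cob]
      exact congrArg Subtype.val (M3.unvec_vec fb h hS ⟨_, cob_mem h hS v⟩).symm
  · rw [hext32_d, injective_iff_map_eq_zero]
    intro v hv
    rw [Matrix.toLin'_apply, ← M3.vec_cob] at hv
    have e := (injective_iff_map_eq_zero _).1 (M3.vec_bijective fb h hS).1 ⟨_, cob_mem h hS v⟩ hv
    refine hext32_inv (N := N) h2 v fun g => ?_
    exact sub_eq_zero.1 (congrFun (congrArg Subtype.val e) g)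
  · intro l hl hN
    have ha : Adm ⊤ (Gamma0 N) (Gamma0 N) (tRep l) (M3.mact (M3.actV (KP p) κ)) :=
      adm_tRep (KP p) hκ hl hN
    rw [hext32_tc, Tl_eq (KP p) hκ hl hN]
    refine LinearMap.ext fun x => ?_
    have e := M3.vec_dc fb ha (M3.unvec fb (M3.mact (M3.actV (KP p) κ)) x).2
    rw [M3.vec_unvec fb h hS] at e
    have e2 := M3.unvec_vec fb h hS (dcZ ha (M3.unvec fb (M3.mact (M3.actV (KP p) κ)) x))
    rw [coe_dcZ, e] at e2
    exact congrArg Submodule.Quotient.mk e2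
  · intro l hl hN
    have ha : Adm ⊤ (Gamma0 N) (Gamma0 N) (tRep l) (M3.mact (M3.actV (KP p) κ)) :=
      adm_tRep (KP p) hκ hl hN
    have e := M3.chM_dM fb ha
    rw [← hext32_tc, ← hext32_d, ← hext32_t0] at e
    apply Matrix.map_injective (Int.cast_injective (α := KP p))
    exact (Matrix.map_mul (f := Int.castRingHom (KP p))).trans
      (e.trans (Matrix.map_mul (f := Int.castRingHom (KP p))).symm)
  · intro x a ha hx
    refine ⟨M3.unvec fb (M3.mact (M3.actV (KP p) κ)) x, rfl, ?_⟩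
    refine M3.cocycle_norm fb h hS (fun g x y => norm_int_le p _) _ ha fun i => ?_
    rw [M3.vec_unvec fb h hS]
    exact hx i
  · rintro _ a ⟨c, rfl, hc⟩
    exact ⟨M3.vec fb c.1, congrArg Submodule.Quotient.mk (M3.unvec_vec fb h hS c),
      fun i => hc _ _⟩

/-- Distances in weight space. -/
theorem ext_wy (y y' : ℕ) :
    ‖M3.wy p y - M3.wy p y'‖ = (p : ℝ) ^ (-(M3.bb p : ℝ)) * ‖(y : KP p) - y'‖ := by
  wlog hy : y' ≤ y generalizing y y'
  · rw [norm_sub_rev, norm_sub_rev (y : KP p)]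
    exact this y' y (le_of_not_ge hy)
  obtain ⟨n, rfl⟩ := Nat.exists_eq_add_of_le hy
  have hu : ‖(M3.gg p : KP p)‖ = 1 := by
    refine M3.norm_int_unit (norm_p p) fun h => ?_
    have h1 : (p : ℤ) ∣ (p : ℤ) ^ M3.bb p := dvd_pow_self _ (by
      have := M3.one_le_bb (p := p)
      omega)
    have h2 : (p : ℤ) ∣ 1 := (dvd_add_left h1).1 h
    exact (Nat.prime_iff_prime_int.1 Fact.out).not_dvd_one h2
  have e : M3.wy p (y' + n) - M3.wy p y' = (M3.gg p : KP p) ^ y' * ((M3.gg p : KP p) ^ n - 1) := by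
    unfold M3.wy
    ring
  rw [e, norm_mul, norm_pow, hu, one_pow, one_mul, M3.norm_gg_pow_sub_one (norm_p p),
    Nat.cast_add, add_sub_cancel_left, ← Real.rpow_intCast]
  simp

end Pool.Agent.Lib.MP_88d29b_nt.G
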