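import Pool.Agent.Lib.MP_88d29b_nt.HBrA
import Pool.Agent.Lib.MP_88d29b_nt.HExt32

set_option autoImplicit false

noncomputable section

namespace Pool.Agent.Lib.MP_88d29b_nt.G

open Finset CongruenceSubgroup Matrix
open scoped MatrixGroups

variable (p : ℕ) [Fact p.Prime] {M : ℕ} {ι : Type} [Fintype ι] [DecidableEq ι]

/-- The normalised matrix of `U`. -/
def nA (fb : M3.FB (M * p) ι) (L ell κ : ℕ) : Matrix (Jx ι L) (Jx ι L) (KP p) := fun x y =>
  (p : KP p) ^ ell * ((p : KP p) ^ (x.2 : ℕ))⁻¹ * M3.P0 p fb L κ x y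

/-- The norm of a normalised entry. -/
lemma hbrb_norm (ell i : ℕ) (z : KP p) (e : ℤ) (hz : ‖z‖ ≤ (p : ℝ) ^ e) (t : ℝ)
    (ht : (e : ℝ) + i - ell ≤ t) :
    ‖(p : KP p) ^ ell * ((p : KP p) ^ i)⁻¹ * z‖ ≤ (p : ℝ) ^ t := by
  have hp := p_pos p
  rw [norm_mul, norm_mul, norm_p_pow, norm_p_pow_inv]
  calc (p : ℝ) ^ (-(ell : ℝ)) * (p : ℝ) ^ (i : ℝ) * ‖z‖
      ≤ (p : ℝ) ^ (-(ell : ℝ)) * (p : ℝ) ^ (i : ℝ) * (p : ℝ) ^ ((e : ℤ) : ℝ) := by
        rw [Real.rpow_intCast]
        exact mul_le_mul_of_nonneg_left hz (by positivity)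
    _ = (p : ℝ) ^ ((e : ℝ) + i - ell) := by
        rw [← Real.rpow_add hp, ← Real.rpow_add hp]
        congr 1
        ring
    _ ≤ _ := Real.rpow_le_rpow_of_exponent_le (one_lt_p p).le ht

omit [Fact p.Prime] in
lemma hbrb_log {i L : ℕ} (h : i ≤ L) : Nat.log p (i + 1) ≤ Nat.log p (L + 1) :=
  Nat.log_mono_right (by omega)

/-- A normalised entry with row decay is integral. -/
lemma hbrb_row {L ell i : ℕ} (hell : 1 + 2 * Nat.log p (L + 1) ≤ ell) (hi : i ≤ L) (z : KP p)
    (hz : ‖z‖ ≤ (p : ℝ) ^ (1 - M3.fl p i)) :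
    ‖(p : KP p) ^ ell * ((p : KP p) ^ i)⁻¹ * z‖ ≤ 1 := by
  have h1 := hbrb_log p hi
  have h2 : ((Nat.log p (i + 1) : ℕ) : ℝ) + 1 ≤ ell := by
    exact_mod_cast (by omega : Nat.log p (i + 1) + 1 ≤ ell)
  have := hbrb_norm p ell i z _ hz 0 (by
    unfold M3.fl
    push_cast
    linarith)
  rwa [Real.rpow_zero] at this

theorem dmat_mul_nA (fb : M3.FB (M * p) ι) (L ell κ : ℕ) :
    dmat p ι L * nA p fb L ell κ = (p : KP p) ^ ell • M3.P0 p fb L κ := by
  ext x y
  have h : (p : KP p) ^ (x.2 : ℕ) ≠ 0 := pow_ne_zero _ (p_ne_zero p)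
  rw [dmat, Matrix.diagonal_mul, nA, Matrix.smul_apply, smul_eq_mul]
  field_simp

/-- `M3.P0_row`. -/
theorem nA_int (fb : M3.FB (M * p) ι) {L ell : ℕ} (hell : 1 + 2 * Nat.log p (L + 1) ≤ ell) (κ : ℕ) :
    EntLe (nA p fb L ell κ) 1 := fun x y =>
  hbrb_row p hell (Nat.lt_succ_iff.mp x.2.2) _ (M3.P0_row p fb L κ x y)

/-- `M3.P0_lip`. -/
theorem nA_lip (fb : M3.FB (M * p) ι) {L ell : ℕ} (hell : 1 + 2 * Nat.log p (L + 1) ≤ ell)
    (κ0 y y' r : ℕ) (h : y ≡ y' [MOD p ^ r]) :
    EntLe (nA p fb L ell (κ0 + M3.ph p * y) - nA p fb L ell (κ0 + M3.ph p * y'))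
      ((p : ℝ) ^ (-(r : ℝ))) := by
  intro x z
  have hd : ((M3.ph p * p ^ r : ℕ) : ℤ) ∣
      ((κ0 + M3.ph p * y : ℕ) : ℤ) - ((κ0 + M3.ph p * y' : ℕ) : ℤ) := by
    have := (Nat.modEq_iff_dvd.mp h.symm)
    have e : ((κ0 + M3.ph p * y : ℕ) : ℤ) - ((κ0 + M3.ph p * y' : ℕ) : ℤ) =
        (M3.ph p : ℤ) * ((y : ℤ) - y') := by
      push_cast
      ring
    rw [e, Nat.cast_mul]
    exact mul_dvd_mul_left _ this
  have h1 := M3.P0_lip p fb L _ _ r hd x z
  have h2 : (1 : ℝ) + 2 * ((Nat.log p (L + 1) : ℕ) : ℝ) ≤ ell := by exact_mod_cast hell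
  rw [Matrix.sub_apply, nA, nA, ← mul_sub]
  refine hbrb_norm p ell _ _ _ h1 _ ?_
  push_cast
  linarith

omit [Fact p.Prime] in
lemma hbrb_b (i : Option (Fin p)) :
    (p : ℤ) ∣ M3.bRep p M i 0 0 ∧ (p : ℤ) ∣ M3.bRep p M i 1 0 := by
  cases i with
  | none =>
    refine ⟨?_, ?_⟩
    · simp [M3.bRep, M3.wMat]
    · simp [M3.bRep, M3.wMat]
  | some a =>
    refine ⟨?_, ?_⟩
    · simp [M3.bRep, M3.uRep]
    · simp [M3.bRep, M3.uRep, mul_assoc]

omit [Fact p.Prime] in
lemma hbrb_w (i : Unit) :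
    (p : ℤ) ∣ M3.wRep p M i 1 0 ∧ (p : ℤ) ∣ M3.wRep p M i 1 1 := by
  refine ⟨?_, ?_⟩
  · simp [M3.wRep, M3.wMat]
  · simp [M3.wRep, M3.wMat]

/-- Removing a border from a factorisation. -/
lemma hbrb_fac {K H α β : Type} [Field K] [AddCommGroup H] [Module K H] [Fintype α]
    [DecidableEq α] [Fintype β] [DecidableEq β] (cl : (α → K) →ₗ[K] H)
    (P : Matrix (Option β) (Option β) K) (a : Matrix (Option β) α K) (b : Matrix α (Option β) K)
    (T : Matrix α α K) (c : K) (h1 : (P - a * b).rank ≤ 1)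
    (h2 : Module.finrank K ((LinearMap.ker cl).map (Matrix.toLin' a)) ≤ 1)
    (h3 : cl ∘ₗ Matrix.toLin' (b * a - T) = 0) :
    (c • P.submatrix some some - (c • a.submatrix some id) * b.submatrix id some).rank ≤ 1 ∧
    Module.finrank K ((LinearMap.ker cl).map (Matrix.toLin' (c • a.submatrix some id))) ≤ 1 ∧
    Module.finrank K (LinearMap.range (cl ∘ₗ Matrix.toLin'
      (b.submatrix id some * (c • a.submatrix some id) - c • T))) ≤ 1 := by
  refine ⟨?_, ?_, ?_⟩
  · have e : c • P.submatrix some some - (c • a.submatrix some id) * b.submatrix id some =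
        c • (P - a * b).submatrix some some := by
      ext i j
      simp [Matrix.mul_apply, mul_sub, Finset.mul_sum]
    rw [e]
    exact (rank_smul_le' _ _).trans ((rank_submatrix_le' _ _ _).trans h1)
  · have e : Matrix.toLin' (c • a.submatrix some id) =
        (c • LinearMap.funLeft K K (some : β → Option β)) ∘ₗ Matrix.toLin' a := by
      refine LinearMap.ext fun v => funext fun i => ?_
      simp [Matrix.mulVec, dotProduct, LinearMap.funLeft_apply, Finset.mul_sum]
    rw [e, Submodule.map_comp]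
    exact (Submodule.finrank_map_le _ _).trans h2
  · have hle : LinearMap.range (cl ∘ₗ Matrix.toLin'
        (b.submatrix id some * (c • a.submatrix some id) - c • T)) ≤
        Submodule.span K {cl fun i => b i none} := by
      rintro _ ⟨v, rfl⟩
      have h4 : cl ((b * a - T).mulVec v) = 0 := by
        have := LinearMap.congr_fun h3 v
        rwa [LinearMap.comp_apply, Matrix.toLin'_apply] at this
      have e : (b.submatrix id some * (c • a.submatrix some id) - c • T) =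
          c • (b * a - T) - c • Matrix.vecMulVec (fun i => b i none) (fun j => a none j) := by
        ext i j
        simp only [Matrix.mul_apply, Matrix.sub_apply, Matrix.smul_apply, Matrix.submatrix_apply,
          Fintype.sum_option, Matrix.vecMulVec_apply, smul_eq_mul, id_eq, mul_sub, mul_add,
          Finset.mul_sum]
        have : ∑ x, b i (some x) * (c * a (some x) j) = ∑ x, c * (b i (some x) * a (some x) j) :=
          Finset.sum_congr rfl fun x _ => by ring
        rw [this]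
        ring
      have e2 : (Matrix.vecMulVec (fun i => b i none) (fun j => a none j)).mulVec v =
          ((fun j => a none j) ⬝ᵥ v) • fun i => b i none := by
        funext i
        simp only [Matrix.mulVec, dotProduct, Matrix.vecMulVec_apply, Pi.smul_apply, smul_eq_mul,
          Finset.sum_mul]
        exact Finset.sum_congr rfl fun x _ => by ring
      rw [LinearMap.comp_apply, Matrix.toLin'_apply, e, Matrix.sub_mulVec, Matrix.smul_mulVec,
        Matrix.smul_mulVec, e2, map_sub, map_smul, h4, smul_zero, zero_sub, map_smul, map_smul]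
      exact Submodule.neg_mem _ (Submodule.smul_mem _ _
        (Submodule.smul_mem _ _ (Submodule.subset_span rfl)))
    refine (Submodule.finrank_mono hle).trans ?_
    simpa using finrank_span_le_card ({cl fun i => b i none} : Set H)

/-- Let `R = p ^ ell • (PV bRep).submatrix some some`, integral by `M3.PV_row`, and
`AW i j = R i j / p ^ deg i - blk h (nA ..) i j`. It is integral (`M3.PV_row`, `nA_int`), and by
`M3.PV_bRep` it is `p ^ (ell - deg i)` times `PV wRep + (PV uRep - P0)`; `M3.PV_col`, `M3.PV_P0` give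
the decay. Take `Z` from `ext_zmodel`, `a`, `b` from `exists_ab`,
`a1 = p ^ ell • a.submatrix some id`, `b1 = b.submatrix id some`; `b a - b1' a1'` is the rank one
matrix (column `none` of `b`) times (row `none` of `a`). -/
theorem bridge_cls [NeZero M] {ι' : Type} [Fintype ι'] (fb : M3.FB (M * p) ι) (fb' : M3.FB M ι')
    (hM : Nat.Coprime p M) {κ L ell : ℕ} (hκ : Even κ) (h2 : 2 ≤ κ) (h : κ ≤ L)
    (hell : 1 + 2 * Nat.log p (L + 1) ≤ ell) :
    ∃ AW : Matrix (Jx ι κ) (Jx ι κ) (KP p), Decay p AW ∧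
      EntLe (dmat p ι κ * (blk h (nA p fb L ell κ) + AW)) 1 ∧
      Factors p M κ ell (dmat p ι κ * (blk h (nA p fb L ell κ) + AW)) := by
  classical
  have hN : p ∣ M * p := Dvd.intro_left M rfl
  have hlog : Nat.log p (κ + 1) ≤ ell := by
    have := hbrb_log p h
    omega
  have hlogR : ((Nat.log p (κ + 1) : ℕ) : ℝ) ≤ ell := by exact_mod_cast hlog
  have hrow := M3.PV_row p fb hN κ (M3.bRep p M) (hbrb_b p)
  set P := M3.PV p fb κ (M3.bRep p M) with hP
  let Q : Matrix (Jx ι κ) (Jx ι κ) (KP p) := fun i j =>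
    (p : KP p) ^ ell * ((p : KP p) ^ (i.2 : ℕ))⁻¹ * P (some i) (some j)
  have hQ : EntLe Q 1 := fun i j =>
    hbrb_row p hell ((Nat.lt_succ_iff.mp i.2.2).trans h) _ (hrow (some i) (some j))
  have hR : dmat p ι κ * (blk h (nA p fb L ell κ) + (Q - blk h (nA p fb L ell κ))) =
      (p : KP p) ^ ell • P.submatrix some some := by
    rw [add_sub_cancel]
    ext x y
    have h : (p : KP p) ^ (x.2 : ℕ) ≠ 0 := pow_ne_zero _ (p_ne_zero p)
    rw [dmat, Matrix.diagonal_mul, Matrix.smul_apply, smul_eq_mul, Matrix.submatrix_apply]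
    simp only [Q]
    field_simp
  refine ⟨Q - blk h (nA p fb L ell κ), ⟨?_, ?_⟩, ?_, ?_⟩
  · exact hQ.sub fun i j => nA_int p fb hell κ _ _
  · intro i j
    have h1 := M3.PV_col p fb hN κ (M3.wRep p M) (hbrb_w p) (some i) j
    have h3 := M3.PV_P0 p fb (Nat.succ_le_succ h) i j
    have e : (Q - blk h (nA p fb L ell κ)) i j =
        (p : KP p) ^ ell * ((p : KP p) ^ (i.2 : ℕ))⁻¹ * M3.PV p fb κ (M3.wRep p M) (some i) (some j) +
        (p : KP p) ^ ell * ((p : KP p) ^ (i.2 : ℕ))⁻¹ *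
          (M3.PV p fb κ (M3.uRep p M) (some i) (some j) -
            M3.P0 p fb L κ (i.1, Fin.castLE (Nat.succ_le_succ h) i.2)
              (j.1, Fin.castLE (Nat.succ_le_succ h) j.2)) := by
      rw [Matrix.sub_apply]
      simp only [Q, blk, Matrix.submatrix_apply, nA, emb, hP,
        M3.PV_bRep p fb hM κ, Matrix.add_apply, Fin.val_castLE]
      ring
    rw [e]
    have hj : (0 : ℝ) ≤ ((j.2 : ℕ) : ℝ) := Nat.cast_nonneg _
    refine (IsUltrametricDist.norm_add_le_max _ _).trans (max_le ?_ ?_)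
    · refine hbrb_norm p ell _ _ _ h1 _ ?_
      push_cast
      linarith
    · refine hbrb_norm p ell _ _ _ h3 _ ?_
      unfold M3.fl
      push_cast
      linarith
  · rw [← add_sub_assoc, add_sub_cancel_left]
    have hd : EntLe (dmat p ι κ) 1 := by
      intro i j
      rw [dmat, Matrix.diagonal_apply]
      split_ifs
      · rw [norm_p_pow]
        exact Real.rpow_le_one_of_one_le_of_nonpos (one_lt_p p).le (by simp)
      · simp
    simpa using EntLe.mul zero_le_one zero_le_one hd hQ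
  · rw [hR]
    obtain ⟨Z⟩ := ext_zmodel p fb' hκ h2
    obtain ⟨a, b, ha, hb, r1, r2, r3⟩ := exists_ab fb Z hM hκ
    obtain ⟨s1, s2, s3⟩ := hbrb_fac Z.cl _ a b _ ((p : KP p) ^ ell) r1 r2 r3
    refine ⟨_, _, _, Z, (p : KP p) ^ ell • a.submatrix some id, b.submatrix id some, ?_,
      fun i j => hb _ _, s1, s2, s3⟩
    have ha' : EntLe (a.submatrix some id) ((p : ℝ) ^ Nat.log p (κ + 1)) := fun i j => ha _ _
    refine (EntLe.smul _ ha').mono ?_
    rw [norm_p_pow, ← Real.rpow_natCast, ← Real.rpow_add (p_pos p)]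
    exact Real.rpow_le_one_of_one_le_of_nonpos (one_lt_p p).le (by linarith)

end Pool.Agent.Lib.MP_88d29b_nt.G
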