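import Pool.Agent.Lib.MP_88d29b_nt.HMost
import Pool.Agent.Lib.MP_88d29b_nt.HNp

set_option autoImplicit false

noncomputable section

namespace Pool.Agent.Lib.MP_88d29b_nt.G

open Finset CongruenceSubgroup Matrix
open scoped MatrixGroups

variable (p : ℕ) [Fact p.Prime] (ι : Type) [Fintype ι] [DecidableEq ι]

/-- Families exist for indices close to any large number. -/
def FamAll (ph b pp C : ℕ) (S : ℕ → Multiset (KP p)) (q : ℕ → ℕ) (U1 U2 : ℕ → ℝ) : Prop :=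
  ∀ κ0, κ0 < ph → Even κ0 → ∀ δ : ℝ, 0 < δ → ∃ x0 : ℕ, ∀ x : ℕ, x0 ≤ x → ∃ n ell D : ℕ,
    |(n : ℝ) - x| ≤ δ * x ∧ 1 ≤ ell ∧ ell ≤ C * Nat.log 2 n ∧ n ^ 2 ≤ D ∧
      Nonempty (Fam p ι ph b pp κ0 n ell D S q U1 U2)

variable {p ι}

lemma hgrid_sq {t h m g T G ε e n v : ℝ} (ht : 0 ≤ t) (hh : 0 ≤ h) (hm : 0 ≤ m) (hg : 0 ≤ g)
    (hG : 0 < G) (h1 : h - 5 * g ≤ m) (h2 : h ≤ T) (h3 : G * g ≤ T) (h4 : 10 * t ≤ ε * G)
    (he : 0 ≤ e) (hn0 : 0 ≤ n) (hn : n ≤ t * T) (h5 : 2 * t ^ 2 * e ≤ ε)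
    (hv : t * m ^ 2 / 2 - e * n ^ 2 ≤ v) : t * h ^ 2 / 2 - ε * T ^ 2 ≤ v := by
  have hT : 0 ≤ T := hh.trans h2
  have a1 : h ^ 2 - 10 * g * h ≤ m ^ 2 := by
    rcases le_total 0 (h - 5 * g) with h6 | h6
    · nlinarith [mul_self_le_mul_self h6 h1, sq_nonneg g]
    · nlinarith [mul_nonneg hg hh, sq_nonneg m]
  have a2 : 10 * t * g ≤ ε * T := by
    have hε : 0 ≤ ε := nonneg_of_mul_nonneg_left (by linarith : 0 ≤ ε * G) hG
    calc 10 * t * g ≤ ε * G * g := mul_le_mul_of_nonneg_right h4 hg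
      _ = ε * (G * g) := by ring
      _ ≤ ε * T := mul_le_mul_of_nonneg_left h3 hε
  have a3 : 10 * t * g * h ≤ ε * T * T :=
    mul_le_mul a2 h2 hh (le_trans (by positivity) a2)
  have a4 : n ^ 2 ≤ (t * T) ^ 2 := pow_le_pow_left₀ hn0 hn 2
  have a5 : e * n ^ 2 ≤ ε * T ^ 2 / 2 := by
    calc e * n ^ 2 ≤ e * (t * T) ^ 2 := mul_le_mul_of_nonneg_left a4 he
      _ = 2 * t ^ 2 * e * T ^ 2 / 2 := by ring
      _ ≤ ε * T ^ 2 / 2 := by gcongr
  nlinarith [mul_le_mul_of_nonneg_left a1 ht]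

lemma hgrid_small {t h g T G ε : ℝ} (ht : 0 ≤ t) (hh : 0 ≤ h) (hg : 0 ≤ g) (hG : 0 < G)
    (h1 : h ≤ 3 * g) (h2 : h ≤ T) (h3 : G * g ≤ T) (h4 : 10 * t ≤ ε * G) :
    t * h ^ 2 / 2 - ε * T ^ 2 ≤ 0 := by
  have hε : 0 ≤ ε := nonneg_of_mul_nonneg_left (by linarith : 0 ≤ ε * G) hG
  have hT : 0 ≤ T := hh.trans h2
  have := hgrid_sq (t := t) (h := h) (m := 0) (g := g) (T := T) (G := G) (ε := ε) (e := 0)
    (n := 0) (v := 0) ht hh le_rfl hg hG (by linarith) h2 h3 h4 le_rfl le_rfl (by positivity)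
    (by simpa using hε) (by simp)
  exact this

/-- Fix a large natural `G`, `g = T / G`, `x i = t i g` for `1 ≤ i ≤ 2 G`, and for each even `κ0 < ph`
a family with index `n = n (κ0, i)` within `δ x i` of `x i`, `δ = 1 / (4 G ^ 2)`. `Bad` is the union of
the images under `y ↦ κ0 + ph y` of the exceptional sets of `most_good` (`Cw = 8 G`, small `ε'`).
For even `κ ≤ T`, `κ0 = κ % ph` is even. Given `h`, if `h < 3 g` use `np_nonneg`; otherwise take
`i = ⌊h / g⌋ - 2 ≥ 1`: then `n / t ≤ h - 1`, so `(p + 1) n ≤ t κ`, and `h - 4 g ≤ ⌊n / t⌋ ≤ h`; use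
`np_mono`. -/
theorem grid_lower {ph b pp C : ℕ} (P : Par p ph b pp) (ht : 0 < Fintype.card ι)
    {S : ℕ → Multiset (KP p)} {q : ℕ → ℕ} {U1 U2 : ℕ → ℝ}
    (hG : Grow p (Fintype.card ι) C q U1 U2) (hF : FamAll p ι ph b pp C S q U1 U2) {ε : ℝ}
    (hε : 0 < ε) : ∃ T0 : ℕ, ∀ T : ℕ, T0 ≤ T → ∃ Bad : Finset ℕ, (Bad.card : ℝ) ≤ ε * T ∧
      ∀ κ : ℕ, Even κ → κ ≤ T → κ ∉ Bad → ∀ h : ℝ, 0 ≤ h → h ≤ ((κ : ℝ) + 2) / (p + 1) →
        Fintype.card ι * h ^ 2 / 2 - ε * T ^ 2 ≤ np p (S κ) h := by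
  classical
  have hp : 1 < p := (Fact.out : p.Prime).one_lt
  have hp2 : (2 : ℝ) ≤ p := by exact_mod_cast hp
  have htR : (1 : ℝ) ≤ Fintype.card ι := by exact_mod_cast ht
  have hphR : (1 : ℝ) ≤ ph := by exact_mod_cast P.ph_pos
  obtain ⟨G, hG1, hG2⟩ : ∃ G : ℕ, 1 ≤ G ∧ 10 * (Fintype.card ι : ℝ) ≤ ε * G := by
    obtain ⟨G, hG⟩ := exists_nat_ge (10 * (Fintype.card ι : ℝ) / ε)
    refine ⟨G + 1, by omega, ?_⟩
    rw [div_le_iff₀ hε] at hG
    push_cast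
    nlinarith
  have hGR : (1 : ℝ) ≤ G := by exact_mod_cast hG1
  obtain ⟨e, he, he1, he2⟩ : ∃ e : ℝ, 0 < e ∧ 2 * (Fintype.card ι : ℝ) ^ 2 * e ≤ ε ∧
      ph * (G + 1) * (e * (2 * Fintype.card ι)) ≤ ε := by
    refine ⟨ε / (2 * (Fintype.card ι : ℝ) ^ 2 * (ph * (G + 1))), by positivity, ?_, ?_⟩
    · rw [← mul_div_assoc, div_le_iff₀ (by positivity), mul_comm _ ε]
      refine mul_le_mul_of_nonneg_left (le_mul_of_one_le_right (by positivity) ?_) hε.le
      nlinarith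
    · have : (ph : ℝ) * (G + 1) * (ε / (2 * (Fintype.card ι : ℝ) ^ 2 * (ph * (G + 1))) *
          (2 * Fintype.card ι)) = ε / Fintype.card ι := by
        field_simp
      rw [this]
      exact div_le_self hε.le htR
  obtain ⟨n0, hn0⟩ := most_good (p := p) (ι := ι) P ht (4 * G) C he
  have hδ : (0 : ℝ) < 1 / (2 * G) := by positivity
  choose! x0 hx0 using fun κ0 h1 h2 => hF κ0 h1 h2 _ hδ
  refine ⟨G * ((range ph).sup x0 + 2 * n0 + 4), fun T hT => ?_⟩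
  obtain ⟨g, hg⟩ : ∃ g, g = T / G := ⟨_, rfl⟩
  have hg1 : (range ph).sup x0 + 2 * n0 + 4 ≤ g := by
    rw [hg, Nat.le_div_iff_mul_le hG1, mul_comm]
    exact hT
  have hg2 : G * g ≤ T := hg ▸ Nat.mul_div_le T G
  have hg3 : T < G * (g + 1) := hg ▸ Nat.lt_mul_div_succ T hG1
  have hgR : (4 : ℝ) ≤ g := by exact_mod_cast (by omega : 4 ≤ g)
  have hg2R : (G : ℝ) * g ≤ T := by exact_mod_cast hg2
  have hg3R : (T : ℝ) < G * (g + 1) := by exact_mod_cast hg3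
  have hgT : (g : ℝ) ≤ T := le_trans (le_mul_of_one_le_left (by positivity) hGR) hg2R
  have key : ∀ κ0 i : ℕ, ∃ (n : ℕ) (B : Finset ℕ),
      (B.card : ℝ) ≤ e * (2 * Fintype.card ι) * T ∧ (κ0 < ph → Even κ0 → 1 ≤ i → i ≤ G →
        |(n : ℝ) - Fintype.card ι * i * g| ≤ Fintype.card ι * g / 2 ∧
        ∀ y, y ≤ T → (p + 1) * n ≤ Fintype.card ι * (κ0 + ph * y) → y ∉ B →
          Fintype.card ι * ((n / Fintype.card ι : ℕ) : ℝ) ^ 2 / 2 - e * n ^ 2 ≤
            np p (S (κ0 + ph * y)) (n / Fintype.card ι : ℕ)) := by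
    intro κ0 i
    by_cases hc : κ0 < ph ∧ Even κ0 ∧ 1 ≤ i ∧ i ≤ G
    swap
    · exact ⟨0, ∅, by simp only [card_empty, Nat.cast_zero]; positivity,
        fun a1 a2 a3 a4 => absurd ⟨a1, a2, a3, a4⟩ hc⟩
    obtain ⟨a1, a2, a3, a4⟩ := hc
    have hx : x0 κ0 ≤ Fintype.card ι * i * g := by
      have b1 : x0 κ0 ≤ (range ph).sup x0 := le_sup (mem_range.mpr a1)
      have b2 : g ≤ Fintype.card ι * i * g := Nat.le_mul_of_pos_left g (Nat.mul_pos ht a3)
      omega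
    obtain ⟨n, ell, D, b1, b2, b3, b4, ⟨F⟩⟩ := hx0 κ0 a1 a2 _ hx
    have hiR : (1 : ℝ) ≤ i := by exact_mod_cast a3
    have hiG : (i : ℝ) ≤ G := by exact_mod_cast a4
    have c1 : |(n : ℝ) - Fintype.card ι * i * g| ≤ Fintype.card ι * g / 2 := by
      push_cast at b1
      refine b1.trans ?_
      rw [one_div_mul_eq_div, div_le_div_iff₀ (by positivity) two_pos]
      have : (0 : ℝ) ≤ Fintype.card ι * g := by positivity
      nlinarith [mul_le_mul_of_nonneg_left hiG this]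
    obtain ⟨c2, c3⟩ := abs_le.mp c1
    have htg : (g : ℝ) ≤ Fintype.card ι * g := le_mul_of_one_le_left (by positivity) htR
    have c4 : (g : ℝ) ≤ 2 * n := by
      nlinarith [mul_le_mul_of_nonneg_left hiR (by positivity : (0 : ℝ) ≤ Fintype.card ι * g)]
    have c5 : g ≤ 2 * n := by exact_mod_cast c4
    have c6 : (n : ℝ) ≤ 2 * Fintype.card ι * T := by
      have d1 : (Fintype.card ι : ℝ) * (i * g) ≤ Fintype.card ι * T :=
        mul_le_mul_of_nonneg_left ((mul_le_mul_of_nonneg_right hiG (by positivity)).trans hg2R)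
          (by positivity)
      have d2 : (Fintype.card ι : ℝ) * g ≤ Fintype.card ι * T :=
        mul_le_mul_of_nonneg_left hgT (by positivity)
      nlinarith
    refine ⟨n, _, (hn0 κ0 n ell D S q U1 U2 F a1 (by omega) b2 b3 b4 hG).trans ?_,
      fun _ _ _ _ => ⟨c1, fun y hy h1 h2 => ?_⟩⟩
    · rw [mul_assoc]
      exact mul_le_mul_of_nonneg_left c6 he.le
    · by_contra h3
      refine h2 (mem_filter.mpr ⟨mem_range.mpr ?_, h1, not_le.mp h3⟩)
      have d1 : G * (g + 1) ≤ G * (4 * n) := Nat.mul_le_mul_left G (by omega)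
      calc y < G * (4 * n) := by omega
        _ = 4 * G * n := by ring
  choose nn B hB hB' using key
  refine ⟨(range ph ×ˢ range (G + 1)).biUnion fun x => (B x.1 x.2).image fun y => x.1 + ph * y,
    ?_, fun κ hκ hκT hκB h hh0 hh => ?_⟩
  · have d1 : (((range ph ×ˢ range (G + 1)).biUnion fun x =>
        (B x.1 x.2).image fun y => x.1 + ph * y).card : ℝ) ≤
        ∑ x ∈ range ph ×ˢ range (G + 1), ((B x.1 x.2).card : ℝ) := by
      exact_mod_cast card_biUnion_le.trans (sum_le_sum fun x _ => card_image_le)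
    refine d1.trans ((sum_le_sum fun x _ => hB x.1 x.2).trans ?_)
    rw [sum_const, card_product, card_range, card_range, nsmul_eq_mul, ← mul_assoc]
    push_cast
    exact mul_le_mul_of_nonneg_right he2 (by positivity)
  have hκR : (κ : ℝ) ≤ T := by exact_mod_cast hκT
  rw [le_div_iff₀ (by positivity)] at hh
  have hh3 : 3 * h ≤ κ + 2 := by nlinarith
  have hhT : h ≤ T := by linarith
  rcases le_total h (3 * g) with hs | hs
  · exact (hgrid_small (by positivity) hh0 (by positivity) (by positivity) hs hhT hg2R hG2).trans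
      (np_nonneg hp _ _)
  have hgpos : (0 : ℝ) < g := by positivity
  obtain ⟨j, hj⟩ : ∃ j : ℕ, j = ⌊h / g⌋₊ := ⟨_, rfl⟩
  have j1 : 3 ≤ j := by
    rw [hj]
    refine Nat.le_floor ?_
    rw [le_div_iff₀ hgpos]
    exact_mod_cast hs
  have j2 : (j : ℝ) * g ≤ h := by
    rw [← le_div_iff₀ hgpos, hj]
    exact Nat.floor_le (by positivity)
  have j3 : h < (j + 1) * g := by
    rw [← div_lt_iff₀ hgpos, hj]
    exact Nat.lt_floor_add_one _
  obtain ⟨i, rfl⟩ : ∃ i, j = i + 2 := ⟨j - 2, by omega⟩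
  push_cast at j2 j3
  have i1 : i ≤ G := by
    have d1 : (i : ℝ) * g ≤ G * g := by nlinarith
    exact_mod_cast le_of_mul_le_mul_right d1 hgpos
  have hk0 : Even (κ % ph) := by
    have := Nat.mod_add_div κ ph
    rw [← this] at hκ
    exact (Nat.even_add.mp hκ).mpr (P.even.mul_right _)
  obtain ⟨c1, c2⟩ := hB' (κ % ph) i (Nat.mod_lt _ P.ph_pos) hk0 (by omega) i1
  have hyB : κ / ph ∉ B (κ % ph) i := fun hy => hκB (mem_biUnion.mpr ⟨(κ % ph, i),
    mem_product.mpr ⟨mem_range.mpr (Nat.mod_lt _ P.ph_pos), mem_range.mpr (by omega)⟩,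
    mem_image.mpr ⟨_, hy, Nat.mod_add_div κ ph⟩⟩)
  generalize nn (κ % ph) i = n at c1 c2
  obtain ⟨c3, c4⟩ := abs_le.mp c1
  have htpos : (0 : ℝ) < Fintype.card ι := by positivity
  have c5 : (n : ℝ) ≤ Fintype.card ι * (h - 1) := by
    have : (i : ℝ) * g + g / 2 ≤ h - 1 := by linarith
    nlinarith [mul_le_mul_of_nonneg_left this htpos.le]
  have c6 : (p + 1) * n ≤ Fintype.card ι * κ := by
    have d1 : ((p : ℝ) + 1) * n ≤ (p + 1) * (Fintype.card ι * (h - 1)) :=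
      mul_le_mul_of_nonneg_left c5 (by positivity)
    have d2 : (h - 1) * (p + 1) ≤ κ := by linarith
    have d3 : ((p : ℝ) + 1) * n ≤ Fintype.card ι * κ := by
      nlinarith [mul_le_mul_of_nonneg_left d2 htpos.le]
    exact_mod_cast d3
  have c7 := c2 (κ / ph) ((Nat.div_le_self _ _).trans hκT) (by rwa [Nat.mod_add_div]) hyB
  rw [Nat.mod_add_div] at c7
  have m1 : (Fintype.card ι : ℝ) * (n / Fintype.card ι : ℕ) ≤ n := by
    exact_mod_cast Nat.mul_div_le n (Fintype.card ι)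
  have m2 : (n : ℝ) < Fintype.card ι * ((n / Fintype.card ι : ℕ) + 1) := by
    exact_mod_cast Nat.lt_mul_div_succ n ht
  generalize n / Fintype.card ι = m at c7 m1 m2
  have m3 : (m : ℝ) ≤ h := by
    have : (Fintype.card ι : ℝ) * m ≤ Fintype.card ι * h := by nlinarith
    exact le_of_mul_le_mul_left this htpos
  have m4 : h - 5 * g ≤ m := by
    have d1 : (Fintype.card ι : ℝ) * (i * g - g / 2) ≤ Fintype.card ι * (m + 1) := by nlinarith
    have d2 := le_of_mul_le_mul_left d1 htpos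
    linarith
  refine hgrid_sq htpos.le hh0 (by positivity) hgpos.le (by positivity) m4 hhT hg2R hG2 he.le
    (by positivity) (c5.trans (mul_le_mul_of_nonneg_left (by linarith) htpos.le)) he1
    (c7.trans (np_mono hp _ m3))

end Pool.Agent.Lib.MP_88d29b_nt.G
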