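import Pool.Agent.Lib.MP_88d29b_nt.HBrB
import Pool.Agent.Lib.MP_88d29b_nt.HGrid

set_option autoImplicit false

noncomputable section

namespace Pool.Agent.Lib.MP_88d29b_nt.G

open Finset CongruenceSubgroup Matrix
open scoped MatrixGroups

variable (p : ℕ) [Fact p.Prime] {M : ℕ} {ι : Type} [Fintype ι] [DecidableEq ι]

theorem par_std : Par p (M3.ph p) (M3.bb p) (p ^ M3.hh p) := by
  have hp : p.Prime := Fact.out
  have h2 := hp.two_le
  by_cases h : p = 2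
  · subst h
    exact ⟨by decide, by decide, by decide, by decide, by decide⟩
  · simp only [M3.ph, M3.bb, M3.hh, if_neg h]
    refine ⟨by omega, ?_, one_pos, by rw [pow_one], by rw [pow_one]; omega⟩
    exact hp.even_sub_one h

theorem hbrc_three_le : 3 ≤ p ^ M3.hh p := by
  have hp : p.Prime := Fact.out
  have h2 := hp.two_le
  by_cases h : p = 2
  · subst h
    decide
  · simp only [M3.hh, if_neg h, pow_one]
    omega

theorem hbrc_sq_le (L : ℕ) : (L + 1) ^ 2 ≤ 4 * 2 ^ L := by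
  induction L with
  | zero => norm_num
  | succ L ih =>
    have h := Nat.lt_two_pow_self (n := L)
    rcases Nat.eq_zero_or_pos L with rfl | hL
    · norm_num
    · rw [pow_succ 2 L]
      nlinarith

theorem hbrc_log_sq {x : ℕ} (hx : x ≠ 0) : (Nat.log p x + 1) ^ 2 ≤ 4 * x := by
  have hp : p.Prime := Fact.out
  refine (hbrc_sq_le _).trans (Nat.mul_le_mul_left _ ?_)
  exact (Nat.pow_le_pow_left hp.two_le _).trans (Nat.pow_log_le_self p hx)

theorem hbrc_log_cube (n : ℕ) : Nat.log p (n ^ 3 + 1) ≤ 3 * Nat.log 2 n + 3 := by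
  have hp : p.Prime := Fact.out
  have h1 : n < 2 ^ (Nat.log 2 n + 1) := Nat.lt_pow_succ_log_self one_lt_two n
  have h2 : n ^ 3 < (2 ^ (Nat.log 2 n + 1)) ^ 3 := Nat.pow_lt_pow_left h1 (by norm_num)
  rw [← pow_mul] at h2
  refine (Nat.log_anti_left one_lt_two hp.two_le).trans ?_
  refine (Nat.log_mono_right (Nat.succ_le_of_lt h2)).trans ?_
  rw [Nat.log_pow one_lt_two]
  omega

omit [Fact p.Prime] in
theorem hbrc_q {C δ x q l : ℝ} (hC : 0 ≤ C) (hδ : 0 < δ) (hx : 0 < x) (hl0 : 0 ≤ l)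
    (hl : l ^ 2 ≤ 4 * x) (hq : q ^ 2 ≤ C * x * l) (hx0 : 64 * C ^ 2 / δ ^ 4 ≤ x) :
    q ≤ δ * x / 2 := by
  rw [div_le_iff₀ (by positivity)] at hx0
  have h1 : C * l ≤ δ ^ 2 * x / 4 := by
    refine (pow_le_pow_iff_left₀ (by positivity) (by positivity) two_ne_zero).1 ?_
    have h2 := mul_le_mul_of_nonneg_left hl (sq_nonneg C)
    have h3 := mul_le_mul_of_nonneg_left hx0 hx.le
    nlinarith
  have h2 := mul_le_mul_of_nonneg_left h1 hx.le
  refine le_of_sq_le_sq ?_ (by positivity)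
  nlinarith

theorem hbrc_fam (fb : M3.FB (M * p) ι)
    {S : ℕ → Multiset (KP p)} {q : ℕ → ℕ} {U1 U2 : ℕ → ℝ}
    (hcls : ∀ (κ L ell : ℕ) (h : κ ≤ L), Even κ → 2 ≤ κ → 1 + 2 * Nat.log p (L + 1) ≤ ell →
      ∃ AW : Matrix (Jx ι κ) (Jx ι κ) (KP p), Decay p AW ∧
        Upper p ell (dmat p ι κ * (blk h (nA p fb L ell κ) + AW)) (S κ) (q κ) (U1 κ) (U2 κ))
    {κ0 κ' n L ell : ℕ} (hκ0 : Even κ0) (hn : κ' + 2 ≤ n)
    (hell : 1 + 2 * Nat.log p (L + 1) ≤ ell)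
    (hL : 2 * n ^ 2 + n + 1 + Nat.log p (L + 1) ≤ L) (c : Polynomial (KP p))
    (h1 : ∀ w : KP p, ‖w‖ ^ p ^ n ≤ (p : ℝ)⁻¹ → ‖c.eval w‖ ≤ (p : ℝ) ^ n)
    (h2 : ∃ w : KP p, ‖w‖ ^ (p - 1) ≤ (p : ℝ)⁻¹ ∧
      (p : ℝ) ^ (-((n : ℝ) ^ 2 / (2 * (Fintype.card ι * p ^ M3.hh p : ℕ)) + (κ' : ℕ) + 2)) ≤
        ‖c.eval w‖)
    (h3 : ∀ y : ℕ, ‖c.eval (M3.wy p y) - M3.cn (M3.P0 p fb L (κ0 + M3.ph p * y)) n‖ ≤
      (p : ℝ) ^ ((n : ℤ) + 1 - M3.fl p L)) :
    Nonempty (Fam p ι (M3.ph p) (M3.bb p) (p ^ M3.hh p) κ0 n ell L S q U1 U2) := by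
  have hp : p.Prime := Fact.out
  have hP := one_lt_p p
  have hP0 := p_pos p
  have hn0 : (0 : ℝ) < n := by exact_mod_cast (by omega : 0 < n)
  have hev : ∀ x, (Polynomial.C ((p : KP p) ^ (ell * n)) * c).eval x =
      (p : KP p) ^ (ell * n) * c.eval x := fun x => by
    rw [Polynomial.eval_mul, Polynomial.eval_C]
  have hle : ‖(p : KP p) ^ (ell * n)‖ ≤ 1 := by
    rw [norm_p_pow]
    exact Real.rpow_le_one_of_one_le_of_nonpos hP.le (neg_nonpos.2 (Nat.cast_nonneg _))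
  refine ⟨⟨M3.wy p, Polynomial.C ((p : KP p) ^ (ell * n)) * c,
    fun y => nA p fb L ell (κ0 + M3.ph p * y), by simp [M3.wy], ext_wy p, fun x hx => ?_, ?_,
    fun y => nA_int p fb hell _, fun y y' r h => nA_lip p fb hell κ0 y y' r h, fun y => ?_,
    fun y h h2 => hcls _ L ell h (hκ0.add ((par_std p).even.mul_right y)) h2 hell⟩⟩
  · rw [hev, norm_mul, Real.rpow_natCast]
    refine (mul_le_of_le_one_left (norm_nonneg _) hle).trans (h1 x ?_)
    have hx1 : ‖x‖ ≤ 1 := hx.trans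
      (Real.rpow_le_one_of_one_le_of_nonpos hP.le (neg_nonpos.2 (by positivity)))
    refine (pow_le_pow_of_le_one (norm_nonneg _) hx1 (Nat.lt_pow_self hp.one_lt).le).trans ?_
    refine (pow_le_pow_left₀ (norm_nonneg _) hx n).trans (le_of_eq ?_)
    rw [← Real.rpow_mul_natCast hP0.le, neg_mul, one_div_mul_cancel hn0.ne', Real.rpow_neg_one]
  · obtain ⟨w, hw1, hw2⟩ := h2
    refine ⟨w, ?_, ?_⟩
    · have hp1 : p - 1 ≠ 0 := by have := hp.two_le; omega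
      refine (pow_le_pow_iff_left₀ (norm_nonneg _) (by positivity) hp1).1
        (hw1.trans (le_of_eq ?_))
      rw [← Real.rpow_mul_natCast hP0.le, Nat.cast_sub hp.one_le, Nat.cast_one, neg_mul,
        one_div_mul_cancel (by linarith), Real.rpow_neg_one]
    · rw [hev, norm_mul, norm_p_pow]
      refine le_trans ?_ (mul_le_mul_of_nonneg_left hw2 (by positivity))
      rw [← Real.rpow_add hP0, Real.rpow_le_rpow_left_iff hP]
      have h4 : (κ' : ℝ) + 2 ≤ n := by exact_mod_cast hn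
      have h5 : (1 : ℝ) ≤ ell := by exact_mod_cast (by omega : 1 ≤ ell)
      have h6 := mul_le_mul_of_nonneg_left h5 hn0.le
      push_cast
      rw [← mul_assoc]
      linarith
  · rw [hev, dmat_mul_nA, cf_smul, ← pow_mul, ← mul_sub, norm_mul]
    refine (mul_le_of_le_one_left (norm_nonneg _) hle).trans ((h3 y).trans ?_)
    rw [← Real.rpow_intCast, Real.rpow_le_rpow_left_iff hP, M3.fl]
    have h4 : (2 * n ^ 2 + n + 1 + Nat.log p (L + 1) : ℝ) ≤ L := by exact_mod_cast hL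
    push_cast
    linarith

/-- Given `x`, put `y0 = x / (t pp ph)`, `κ' = κ0 + ph y0`, and take `n`, `q` from `M3.family`:
`n + q = t pp (κ' + 1) + 1` is within a constant of `x` and `q ^ 2 ≤ C κ' log κ'`, so `q ≤ δ x / 2`
(assume `δ ≤ 1 / 4`; then `κ' + 2 ≤ n`, as `pp ≥ 3`). Put `L = D = n ^ 3`,
`ell = 1 + 2 log_p (L + 1) ≤ 9 log_2 n`, `i0 = n` (`n ≤ p ^ n`), `f = p ^ (n ell) c`, `w = M3.wy p`
(`ext_wy`), `A y = nA p fb L ell (κ0 + ph y)` (`nA_int`, `nA_lip`, `dmat_mul_nA`, `cf_smul`;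
`cf` and `M3.cn` agree by definition). -/
theorem bridge_fam (fb : M3.FB (M * p) ι) (hM : Nat.Coprime p M) (hM0 : 0 < M)
    (ht : 0 < Fintype.card ι) {S : ℕ → Multiset (KP p)} {q : ℕ → ℕ} {U1 U2 : ℕ → ℝ}
    (hcls : ∀ (κ L ell : ℕ) (h : κ ≤ L), Even κ → 2 ≤ κ → 1 + 2 * Nat.log p (L + 1) ≤ ell →
      ∃ AW : Matrix (Jx ι κ) (Jx ι κ) (KP p), Decay p AW ∧
        Upper p ell (dmat p ι κ * (blk h (nA p fb L ell κ) + AW)) (S κ) (q κ) (U1 κ) (U2 κ)) :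
    FamAll p ι (M3.ph p) (M3.bb p) (p ^ M3.hh p) 9 S q U1 U2 := by
  intro κ0 hκ0 hev δ0 hδ0
  obtain ⟨C, hC⟩ := M3.family p fb hM hM0 ht
  have hδ : 0 < min δ0 (1 / 4) := lt_min hδ0 (by norm_num)
  have hδ1 : min δ0 (1 / 4) ≤ δ0 := min_le_left _ _
  have hδ2 : min δ0 (1 / 4) ≤ 1 / 4 := min_le_right _ _
  generalize min δ0 (1 / 4) = δ at hδ hδ1 hδ2
  have ha : 3 ≤ Fintype.card ι * p ^ M3.hh p :=
    (hbrc_three_le p).trans (Nat.le_mul_of_pos_left _ ht)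
  have hph := (par_std p).ph_pos
  obtain ⟨x0, hx0⟩ := exists_nat_ge (max (64 * max C 0 ^ 2 / δ ^ 4)
    (2 * ((Fintype.card ι * p ^ M3.hh p * M3.ph p + Fintype.card ι * p ^ M3.hh p + 1 : ℕ) : ℝ) / δ))
  refine ⟨x0, fun x hx => ?_⟩
  have hx' : (x0 : ℝ) ≤ x := by exact_mod_cast hx
  have hx1 := (le_max_left _ _).trans (hx0.trans hx')
  have hx2 := (le_max_right _ _).trans (hx0.trans hx')
  rw [div_le_iff₀ hδ] at hx2
  obtain ⟨n, q', hnq, hq, hfam⟩ := hC κ0 (x / (Fintype.card ι * p ^ M3.hh p * M3.ph p)) hev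
  have hd1 := Nat.div_mul_le_self x (Fintype.card ι * p ^ M3.hh p * M3.ph p)
  have hd2 := Nat.lt_div_mul_add (a := x)
    (Nat.mul_pos (by omega) hph : 0 < Fintype.card ι * p ^ M3.hh p * M3.ph p)
  generalize x / (Fintype.card ι * p ^ M3.hh p * M3.ph p) = y0 at *
  have hz : 3 * (κ0 + M3.ph p * y0 + 1) ≤ n + q' :=
    (Nat.mul_le_mul_right _ ha).trans (by omega)
  have e : Fintype.card ι * p ^ M3.hh p * (κ0 + M3.ph p * y0 + 1) =
      Fintype.card ι * p ^ M3.hh p * κ0 + y0 * (Fintype.card ι * p ^ M3.hh p * M3.ph p) +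
        Fintype.card ι * p ^ M3.hh p := by ring
  have hk : Fintype.card ι * p ^ M3.hh p * κ0 ≤ Fintype.card ι * p ^ M3.hh p * M3.ph p :=
    Nat.mul_le_mul_left _ hκ0.le
  have hB3 : 4 ≤ Fintype.card ι * p ^ M3.hh p * M3.ph p + Fintype.card ι * p ^ M3.hh p + 1 := by
    omega
  have hu : n + q' ≤
      x + (Fintype.card ι * p ^ M3.hh p * M3.ph p + Fintype.card ι * p ^ M3.hh p + 1) := by omega
  have hl : x ≤ n + q' +
      (Fintype.card ι * p ^ M3.hh p * M3.ph p + Fintype.card ι * p ^ M3.hh p + 1) := by omega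
  generalize Fintype.card ι * p ^ M3.hh p * M3.ph p + Fintype.card ι * p ^ M3.hh p + 1 = B
    at hx2 hB3 hu hl
  have hxn : (0 : ℝ) ≤ x := Nat.cast_nonneg _
  have hδx := mul_le_mul_of_nonneg_left hδ2 hxn
  have hB : 8 * B ≤ x := by
    have : (8 : ℝ) * B ≤ x := by linarith
    exact_mod_cast this
  have hzx : κ0 + M3.ph p * y0 + 1 ≤ x := by omega
  have hq2 : (q' : ℝ) ≤ δ * x / 2 := by
    refine hbrc_q (le_max_right C 0) hδ (by exact_mod_cast (by omega : 0 < x))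
      (l := (Nat.log p x : ℝ) + 1) (by positivity)
      (by exact_mod_cast hbrc_log_sq p (by omega : x ≠ 0)) (hq.trans ?_) hx1
    have h1 : ((κ0 + M3.ph p * y0 + 1 : ℕ) : ℝ) ≤ x := by exact_mod_cast hzx
    have h2 : (Nat.log p (κ0 + M3.ph p * y0 + 1) : ℝ) ≤ Nat.log p x := by
      exact_mod_cast Nat.log_mono_right hzx
    have h3 := le_max_left C 0
    have h4 := le_max_right C 0
    gcongr
  have hq3 : 8 * q' ≤ x := by
    have : (8 : ℝ) * q' ≤ x := by linarith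
    exact_mod_cast this
  have hn1 : κ0 + M3.ph p * y0 + 2 ≤ n := by omega
  have hn2 : 24 ≤ n := by omega
  have hlog := hbrc_log_cube p n
  have hl4 : 4 ≤ Nat.log 2 n := Nat.le_log_of_pow_le one_lt_two (by omega)
  have hl5 : Nat.log 2 n ≤ n := Nat.log_le_self 2 n
  have hn3 : 24 * n ≤ n ^ 2 := by rw [sq]; exact Nat.mul_le_mul_right _ hn2
  have hn4 : 24 * n ^ 2 ≤ n ^ 3 := by rw [pow_succ' n 2]; exact Nat.mul_le_mul_right _ hn2
  obtain ⟨c, h1, h2, h3⟩ := hfam n (n ^ 3) (by omega)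
  refine ⟨n, 1 + 2 * Nat.log p (n ^ 3 + 1), n ^ 3, ?_, by omega, by omega, by omega,
    hbrc_fam p fb hcls hev hn1 le_rfl (by omega) c h1 h2 h3⟩
  have hu' : (n : ℝ) + q' ≤ x + B := by exact_mod_cast hu
  have hl' : (x : ℝ) ≤ n + q' + B := by exact_mod_cast hl
  have hq0 : (0 : ℝ) ≤ q' := Nat.cast_nonneg _
  have h5 := mul_le_mul_of_nonneg_right hδ1 hxn
  rw [abs_le]
  constructor <;> linarith

end Pool.Agent.Lib.MP_88d29b_nt.G
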