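import Pool.Agent.Lib.MP_88d29b_nt.HDefs

set_option autoImplicit false

noncomputable section

namespace Pool.Agent.Lib.MP_88d29b_nt.G

open Finset CongruenceSubgroup Matrix
open scoped MatrixGroups

variable {K : Type} [NormedField K] [IsUltrametricDist K]

/-- Leibniz formula and the ultrametric inequality. -/
theorem norm_det_le_pow {n : Type} [Fintype n] [DecidableEq n] (Y : Matrix n n K) {x : ℝ}
    (hx : 0 ≤ x) (h : EntLe Y x) : ‖Y.det‖ ≤ x ^ Fintype.card n := by
  rw [Matrix.det_apply']
  refine IsUltrametricDist.norm_sum_le_of_forall_le_of_nonneg (pow_nonneg hx _) fun σ _ => ?_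
  rw [norm_mul, norm_prod]
  have h1 : ‖((Equiv.Perm.sign σ : ℤ) : K)‖ = 1 := by
    rcases Int.units_eq_one_or (Equiv.Perm.sign σ) with h | h <;> simp [h]
  rw [h1, one_mul, ← Finset.card_univ, ← Finset.prod_const]
  exact Finset.prod_le_prod (fun _ _ => norm_nonneg _) fun i _ => h _ _

omit [IsUltrametricDist K] in
lemma hcb_expand {s : ℕ} {k : Type} [Fintype k] (Y : Matrix (Fin s) k K)
    (Z : Matrix k (Fin s) K) :
    (Y * Z).det = ∑ φ : Fin s → k, (∏ i, Y i (φ i)) * (Z.submatrix φ id).det := by
  classical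
  rw [← Matrix.det_transpose, Matrix.det_apply']
  simp only [Matrix.transpose_apply, Matrix.mul_apply, Finset.prod_univ_sum, Finset.mul_sum,
    Fintype.piFinset_univ]
  rw [Finset.sum_comm]
  refine Finset.sum_congr rfl fun φ _ => ?_
  rw [← Matrix.det_transpose, Matrix.det_apply', Finset.mul_sum]
  refine Finset.sum_congr rfl fun σ _ => ?_
  simp only [Finset.prod_mul_distrib, Matrix.transpose_apply, Matrix.submatrix_apply, id]
  ring

/-- Cauchy-Binet in norm form. By multilinearity `det (Y Z) = ∑_φ (∏_i Y i (φ i)) det (Z_φ)`; only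
injective `φ` contribute. Put a linear order on `k`, write an injective `φ` uniquely as an
increasing map (`Finset.orderEmbOfFin` of its image) composed with a permutation, and sum over the
permutations: `det (Y Z) = ∑_(φ increasing) det (Y_φ) det (Z_φ)`. -/
theorem norm_det_mul_le {s : ℕ} {k : Type} [Fintype k] (Y : Matrix (Fin s) k K)
    (Z : Matrix k (Fin s) K) {x : ℝ} (hx : 0 ≤ x)
    (h : ∀ φ : Fin s → k, ‖(Y.submatrix id φ).det‖ * ‖(Z.submatrix φ id).det‖ ≤ x) :
    ‖(Y * Z).det‖ ≤ x := by
  classical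
  have h0 : ∀ φ : Fin s → k, ¬ Function.Injective φ →
      (∏ i, Y i (φ i)) * (Z.submatrix φ id).det = 0 := by
    intro φ hφ
    obtain ⟨i, j, hij, hne⟩ := Function.not_injective_iff.mp hφ
    rw [Matrix.det_zero_of_row_eq hne (by funext l; simp [hij]), mul_zero]
  have hcard : ∀ φ : Fin s → k, Function.Injective φ → (Finset.univ.image φ).card = s :=
    fun φ hφ => by rw [Finset.card_image_of_injective _ hφ, Finset.card_univ, Fintype.card_fin]
  rw [hcb_expand, ← Finset.sum_fiberwise Finset.univ fun φ : Fin s → k => Finset.univ.image φ]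
  refine IsUltrametricDist.norm_sum_le_of_forall_le_of_nonneg hx fun T _ => ?_
  by_cases hT : T.card = s
  · let e : Fin s → k := fun i => ((T.equivFinOfCardEq hT).symm i : k)
    have he : Function.Injective e := Subtype.val_injective.comp (Equiv.injective _)
    have e1 := hcb_expand (Y.submatrix id e) (Z.submatrix e id)
    have e2 : ∑ ψ : Fin s → Fin s, (∏ i, Y.submatrix id e i (ψ i)) *
        ((Z.submatrix e id).submatrix ψ id).det
        = ∑ φ ∈ Finset.univ.image fun ψ : Fin s → Fin s => e ∘ ψ,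
          (∏ i, Y i (φ i)) * (Z.submatrix φ id).det := by
      rw [Finset.sum_image fun ψ _ ψ' _ hψ => he.comp_left hψ]
      rfl
    have e3 : ∑ φ ∈ Finset.univ.filter fun φ : Fin s → k => Finset.univ.image φ = T,
        (∏ i, Y i (φ i)) * (Z.submatrix φ id).det
        = ∑ φ ∈ Finset.univ.image fun ψ : Fin s → Fin s => e ∘ ψ,
          (∏ i, Y i (φ i)) * (Z.submatrix φ id).det := by
      refine Finset.sum_subset (fun φ hφ => ?_) fun φ hφ hn => h0 φ fun hinj => hn ?_
      · have h1 := (Finset.mem_filter.mp hφ).2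
        have h2 : ∀ i, φ i ∈ T := fun i => h1 ▸ Finset.mem_image_of_mem φ (Finset.mem_univ i)
        exact Finset.mem_image.mpr ⟨fun i => T.equivFinOfCardEq hT ⟨φ i, h2 i⟩, Finset.mem_univ _,
          by funext i; simp [e]⟩
      · refine Finset.mem_filter.mpr ⟨Finset.mem_univ _, Finset.eq_of_subset_of_card_le ?_
          (by rw [hcard φ hinj, hT])⟩
        obtain ⟨ψ, -, rfl⟩ := Finset.mem_image.mp hφ
        intro a ha
        obtain ⟨i, -, rfl⟩ := Finset.mem_image.mp ha
        exact Subtype.property _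
    rw [e3, ← e2, ← e1, Matrix.det_mul, norm_mul]
    exact h e
  · rw [Finset.sum_eq_zero, norm_zero]
    · exact hx
    · intro φ hφ
      rw [Finset.mem_filter] at hφ
      exact h0 φ fun hinj => hT (hφ.2 ▸ hcard φ hinj)

end Pool.Agent.Lib.MP_88d29b_nt.G
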