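import Pool.Agent.Lib.MP_88d29b_nt.HNp

set_option autoImplicit false

noncomputable section

namespace Pool.Agent.Lib.MP_88d29b_nt.G

open Finset CongruenceSubgroup Matrix
open scoped MatrixGroups

variable {K : Type} [NormedField K] {p : ℕ}

open Classical in
theorem hcnt_term (hp : 1 < p) (a : K) (t : ℝ) :
    Real.logb p (max 1 (‖a‖ * (p : ℝ) ^ t)) =
      if a = 0 then 0 else max 0 (t - -Real.logb p ‖a‖) := by
  have hp1 : (1 : ℝ) < p := by exact_mod_cast hp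
  have hp0 : (0 : ℝ) < p := by linarith
  split_ifs with h
  · simp [h]
  · have ha : 0 < ‖a‖ := norm_pos_iff.2 h
    have hq : 0 < ‖a‖ * (p : ℝ) ^ t := by positivity
    have h1 : Real.logb p (‖a‖ * (p : ℝ) ^ t) = t - -Real.logb p ‖a‖ := by
      rw [Real.logb_mul ha.ne' (by positivity), Real.logb_rpow hp0 hp1.ne']
      ring
    rcases le_total 1 (‖a‖ * (p : ℝ) ^ t) with h2 | h2
    · rw [max_eq_right h2, max_eq_right, h1]
      rw [← h1]
      exact Real.logb_nonneg hp1 h2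
    · rw [max_eq_left h2, max_eq_left, Real.logb_one]
      rw [← h1]
      exact Real.logb_nonpos hp1 hq.le h2

open Classical in
theorem hcnt_cons (hp : 1 < p) (a : K) (A : Multiset K) (t : ℝ) :
    np p (a ::ₘ A) t = (if a = 0 then 0 else max 0 (t - -Real.logb p ‖a‖)) + np p A t := by
  unfold np
  rw [Multiset.map_cons, Multiset.sum_cons, hcnt_term hp]

open Classical in
/-- number of nonzero elements of slope at most `t` -/
def hcntN1 (p : ℕ) (A : Multiset K) (t : ℝ) : ℕ :=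
  (A.filter fun x => x ≠ 0 ∧ -Real.logb p ‖x‖ ≤ t).card

open Classical in
/-- number of nonzero elements of slope less than `t` -/
def hcntN0 (p : ℕ) (A : Multiset K) (t : ℝ) : ℕ :=
  (A.filter fun x => x ≠ 0 ∧ -Real.logb p ‖x‖ < t).card

theorem hcnt_upper (hp : 1 < p) (A : Multiset K) (t : ℝ) {h : ℝ} (hh : 0 ≤ h) :
    h * hcntN1 p A t + np p A t ≤ np p A (t + h) := by
  classical
  induction A using Multiset.induction_on with
  | empty => simp [hcntN1, np]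
  | cons a A ih =>
    rw [hcnt_cons hp, hcnt_cons hp]
    unfold hcntN1 at ih ⊢
    rw [Multiset.filter_cons, Multiset.card_add]
    by_cases h0 : a = 0
    · simpa [h0] using ih
    · rw [if_neg h0, if_neg h0]
      split_ifs with h1
      · rw [max_eq_right (by linarith [h1.2]), max_eq_right (by linarith [h1.2])]
        simp only [Multiset.card_singleton, Nat.cast_add, Nat.cast_one]
        linarith
      · have : max 0 (t - -Real.logb p ‖a‖) ≤ max 0 (t + h - -Real.logb p ‖a‖) :=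
          max_le_max le_rfl (by linarith)
        simp only [Multiset.card_zero, zero_add]
        linarith

theorem hcnt_lower (hp : 1 < p) (A : Multiset K) (t : ℝ) {h : ℝ} (hh : 0 ≤ h) :
    np p A t ≤ h * hcntN0 p A t + np p A (t - h) := by
  classical
  induction A using Multiset.induction_on with
  | empty => simp [hcntN0, np]
  | cons a A ih =>
    rw [hcnt_cons hp, hcnt_cons hp]
    unfold hcntN0 at ih ⊢
    rw [Multiset.filter_cons, Multiset.card_add]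
    by_cases h0 : a = 0
    · simpa [h0] using ih
    · rw [if_neg h0, if_neg h0]
      split_ifs with h1
      · have : max 0 (t - -Real.logb p ‖a‖) ≤ h + max 0 (t - h - -Real.logb p ‖a‖) :=
          max_le (by positivity) (by linarith [le_max_right 0 (t - h - -Real.logb p ‖a‖)])
        simp only [Multiset.card_singleton, Nat.cast_add, Nat.cast_one]
        linarith
      · have h2 : t ≤ -Real.logb p ‖a‖ := not_lt.1 fun h3 => h1 ⟨h0, h3⟩
        rw [max_eq_left (by linarith), max_eq_left (by linarith)]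
        simp only [Multiset.card_zero, zero_add]
        linarith

theorem hcnt_le (A : Multiset K) (t : ℝ) : hcntN0 p A t ≤ hcntN1 p A t := by
  classical
  unfold hcntN0 hcntN1
  exact Multiset.card_le_card (Multiset.monotone_filter_right _ fun _ h => ⟨h.1, h.2.le⟩)

theorem hcnt_split (A : Multiset K) {H a b : ℝ} (hH : 0 < H) (hab : a ≤ b) :
    cntIn p A H⁻¹ a b + hcntN0 p A (a * H) = hcntN1 p A (b * H) := by
  classical
  unfold cntIn hcntN0 hcntN1
  induction A using Multiset.induction_on with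
  | empty => simp
  | cons x A ih =>
    simp only [Multiset.filter_cons, Multiset.card_add]
    rw [← ih]
    have e1 : a ≤ H⁻¹ * -Real.logb p ‖x‖ ↔ a * H ≤ -Real.logb p ‖x‖ := by
      rw [le_inv_mul_iff₀ hH, mul_comm]
    have e2 : H⁻¹ * -Real.logb p ‖x‖ ≤ b ↔ -Real.logb p ‖x‖ ≤ b * H := by
      rw [inv_mul_le_iff₀ hH, mul_comm]
    have e3 : a * H ≤ b * H := by gcongr
    simp only [Set.mem_Icc, e1, e2]
    by_cases h0 : x = 0
    · simp [h0]
    · rcases lt_or_ge (-Real.logb p ‖x‖) (a * H) with h1 | h1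
      · rw [if_neg fun h => absurd h.2.1 (not_le.2 h1), if_pos ⟨h0, h1⟩,
          if_pos ⟨h0, h1.le.trans e3⟩]
        simp only [Multiset.card_singleton, Multiset.card_zero]
        omega
      · rw [if_neg (c := x ≠ 0 ∧ -Real.logb p ‖x‖ < a * H) fun h => absurd h.2 (not_lt.2 h1)]
        by_cases h2 : -Real.logb p ‖x‖ ≤ b * H
        · rw [if_pos ⟨h0, h1, h2⟩, if_pos ⟨h0, h2⟩]
          simp only [Multiset.card_singleton, Multiset.card_zero]
          omega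
        · rw [if_neg fun h => h2 h.2.2, if_neg fun h => h2 h.2]
          simp only [Multiset.card_zero]
          omega

theorem hcnt_log {δ : ℝ} (hδ : 0 < δ) :
    ∃ T0 : ℕ, ∀ T : ℕ, T0 ≤ T → (Nat.log 2 T : ℝ) ≤ δ * T := by
  obtain ⟨T0, hT0⟩ := exists_nat_ge ((4 / δ) ^ 2)
  refine ⟨T0 + 1, fun T hT => ?_⟩
  have hT1 : (0 : ℝ) < T := by exact_mod_cast (by omega : 0 < T)
  have hT2 : (4 / δ) ^ 2 ≤ (T : ℝ) := hT0.trans (by exact_mod_cast (by omega : T0 ≤ T))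
  have hs : 4 / δ ≤ √(T : ℝ) := Real.le_sqrt_of_sq_le hT2
  have hs0 : 0 < √(T : ℝ) := Real.sqrt_pos.2 hT1
  have hss : √(T : ℝ) * √(T : ℝ) = T := Real.mul_self_sqrt hT1.le
  have h1 : ((2 : ℝ) ^ Nat.log 2 T) ≤ T := by
    exact_mod_cast Nat.pow_log_le_self 2 (by omega : T ≠ 0)
  have h2 : (Nat.log 2 T : ℝ) * Real.log 2 ≤ Real.log T := by
    rw [← Real.log_pow]
    exact Real.log_le_log (by positivity) h1
  have h3 : Real.log T = 2 * Real.log √(T : ℝ) := by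
    rw [Real.log_sqrt hT1.le]
    ring
  have h4 := Real.log_le_sub_one_of_pos hs0
  have h5 := Real.log_two_gt_d9
  have h6 : (0 : ℝ) ≤ Nat.log 2 T := Nat.cast_nonneg _
  have h7 : (Nat.log 2 T : ℝ) ≤ 4 * √(T : ℝ) := by nlinarith
  rw [div_le_iff₀ hδ] at hs
  nlinarith

theorem hcnt_sq {x y T : ℝ} (hx : 0 ≤ x) (hxy : x ≤ y + 1) (hy : y + 1 ≤ T) :
    x ^ 2 ≤ y ^ 2 + 2 * T := by
  have h := pow_le_pow_left₀ hx hxy 2
  nlinarith

theorem hcnt_min {tN ε : ℝ} (h0 : 0 ≤ tN) (hε : 0 < ε) :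
    ∃ e : ℝ, 0 < e ∧ e ≤ 1 ∧ 16 * e ≤ ε ∧ (2 * tN + 4) * e ≤ ε := by
  have h1 : min 1 (ε / (2 * tN + 16)) ≤ ε / (2 * tN + 16) := min_le_right _ _
  rw [le_div_iff₀ (by positivity)] at h1
  have h2 : 0 ≤ min 1 (ε / (2 * tN + 16)) := le_min zero_le_one (by positivity)
  have h3 := mul_nonneg h0 h2
  exact ⟨min 1 (ε / (2 * tN + 16)), lt_min one_pos (by positivity), min_le_left _ _,
    by linarith, by linarith⟩

/-- As in the file `Count.lean` of this directory. Let `N1 h`, `N0 h` be the numbers of nonzero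
elements of slope `≤ h`, `< h`. Then `η N1 h ≤ np (h + η) - np h`, `np h - np (h - η) ≤ η N0 h`, so
`t h - (t + 2) η ≤ N0 h ≤ N1 h ≤ t h + (t + 2) η` for `0 ≤ h ≤ H`, and the count is
`N1 (b H) - N0 (a H)`. -/
theorem cnt_est (hp : 1 < p) (A : Multiset K) {t H η a b : ℝ} (ht : 0 ≤ t) (hH : 0 < H) (hη : 0 < η)
    (ha : 0 ≤ a) (hab : a ≤ b) (hb : b ≤ 1)
    (hU : ∀ h, 0 ≤ h → h ≤ H + η → np p A h ≤ t * h ^ 2 / 2 + η ^ 2)
    (hL : ∀ h, 0 ≤ h → h ≤ H → t * h ^ 2 / 2 - η ^ 2 ≤ np p A h) :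
    |(cntIn p A H⁻¹ a b : ℝ) - (b - a) * t * H| ≤ (2 * t + 4) * η := by
  have up : ∀ h, 0 ≤ h → h ≤ H → (hcntN1 p A h : ℝ) ≤ t * h + (t + 2) * η := by
    intro h h0 h1
    have h2 := hcnt_upper hp A h hη.le
    have h3 := hU (h + η) (by linarith) (by linarith)
    have h4 := hL h h0 h1
    refine le_of_mul_le_mul_left ?_ hη
    have h5 : 0 ≤ t * η ^ 2 := by positivity
    nlinarith
  have low : ∀ h, 0 ≤ h → h ≤ H → t * h - (t + 2) * η ≤ (hcntN0 p A h : ℝ) := by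
    intro h h0 h1
    rcases le_total h η with h5 | h5
    · have : (0 : ℝ) ≤ hcntN0 p A h := Nat.cast_nonneg _
      have := mul_le_mul_of_nonneg_left h5 ht
      linarith
    · have h2 := hcnt_lower hp A h hη.le
      have h3 := hU (h - η) (by linarith) (by linarith)
      have h4 := hL h h0 h1
      refine le_of_mul_le_mul_left ?_ hη
      have h5 : 0 ≤ t * η ^ 2 := by positivity
      nlinarith
  have hs : (cntIn p A H⁻¹ a b : ℝ) + hcntN0 p A (a * H) = hcntN1 p A (b * H) := by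
    exact_mod_cast hcnt_split A hH hab
  have ha0 : 0 ≤ a * H := by positivity
  have hb0 : 0 ≤ b * H := by have := ha.trans hab; positivity
  have hb1 : b * H ≤ H := by nlinarith
  have ha1 : a * H ≤ H := by nlinarith
  have h1 := up _ ha0 ha1
  have h2 := up _ hb0 hb1
  have h3 := low _ ha0 ha1
  have h4 := low _ hb0 hb1
  have h5 : (hcntN0 p A (a * H) : ℝ) ≤ hcntN1 p A (a * H) := by exact_mod_cast hcnt_le A _
  have h6 : (hcntN0 p A (b * H) : ℝ) ≤ hcntN1 p A (b * H) := by exact_mod_cast hcnt_le A _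
  rw [abs_le]
  constructor <;> linarith

/-- Put `η = ε' T`. Add the `κ < 4 η + 8` to the bad set. For the other good `κ` apply `cnt_est` with
`H = (κ + 2) / (p + 1)`: the upper bound at a real `h` comes from `⌈h⌉ ≤ κ` and `np_mono`, the lower
bound from `⌊h⌋`, `hrel` and `hlow`; `C κ log κ + O(T) ≤ η ^ 2 / 2` for large `T`. -/
theorem weight_abs (hp : 1 < p) (SN SM : ℕ → Multiset K) {tN tM : ℝ} (h0 : 0 ≤ tN) (C : ℕ)
    (hup : ∀ κ h : ℕ, Even κ → 2 ≤ κ → h ≤ κ →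
      np p (SN κ) h ≤ tN * (h : ℝ) ^ 2 / 2 + C * κ * (Nat.log 2 κ : ℝ))
    (hrel : ∀ κ h : ℕ, Even κ → 2 ≤ κ → h ≤ κ →
      np p (SM κ) h ≤ np p (SN κ) h + (tM - tN) * (h : ℝ) ^ 2 / 2 + C * κ * (Nat.log 2 κ : ℝ))
    (hlow : ∀ ε : ℝ, 0 < ε → ∃ T0 : ℕ, ∀ T : ℕ, T0 ≤ T → ∃ Bad : Finset ℕ,
      (Bad.card : ℝ) ≤ ε * T ∧ ∀ κ : ℕ, Even κ → κ ≤ T → κ ∉ Bad → ∀ h : ℝ, 0 ≤ h →
        h ≤ ((κ : ℝ) + 2) / (p + 1) → tM * h ^ 2 / 2 - ε * T ^ 2 ≤ np p (SM κ) h)
    {a b : ℝ} (ha : 0 ≤ a) (hab : a ≤ b) (hb : b ≤ 1) {ε : ℝ} (hε : 0 < ε) :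
    ∃ T0 : ℕ, ∀ T : ℕ, T0 ≤ T → ∃ Bad : Finset ℕ, (Bad.card : ℝ) ≤ ε * T ∧
      ∀ κ : ℕ, Even κ → κ ≤ T → κ ∉ Bad →
        |(cntIn p (SN κ) (((p : ℝ) + 1) / ((κ : ℝ) + 2)) a b : ℝ) -
          (b - a) * tN * (((κ : ℝ) + 2) / (p + 1))| ≤ ε * T := by
  classical
  obtain ⟨e, he0, he1, he2, he3⟩ := hcnt_min h0 hε
  obtain ⟨T1, hT1⟩ := hlow (e ^ 2 / 2) (by positivity)
  obtain ⟨T2, hT2⟩ := hcnt_log (δ := e ^ 2 / (4 * (C + 1))) (by positivity)
  obtain ⟨T3, hT3⟩ := exists_nat_ge (4 * tN / e ^ 2 + 36 / ε + 1)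
  refine ⟨T1 + T2 + T3, fun T hT => ?_⟩
  obtain ⟨Bad, hBad, hgood⟩ := hT1 T (by omega)
  have hL := hT2 T (by omega)
  have hT3' : 4 * tN / e ^ 2 + 36 / ε + 1 ≤ (T : ℝ) :=
    hT3.trans (by exact_mod_cast (by omega : T3 ≤ T))
  have q1 : 0 ≤ 4 * tN / e ^ 2 := by positivity
  have q2 : 0 ≤ 36 / ε := by positivity
  have hT0 : (0 : ℝ) < T := by linarith
  have q3 : 4 * tN ≤ T * e ^ 2 := by
    rw [← div_le_iff₀ (by positivity)]
    linarith
  have q4 : 36 ≤ T * ε := by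
    rw [← div_le_iff₀ hε]
    linarith
  have q5 : (C : ℝ) * Nat.log 2 T ≤ e ^ 2 * T / 4 := by
    have h1 : (C : ℝ) * Nat.log 2 T ≤ (C + 1) * (e ^ 2 / (4 * (C + 1)) * T) :=
      mul_le_mul (by linarith) hL (Nat.cast_nonneg _) (by positivity)
    refine h1.trans (le_of_eq ?_)
    field_simp
  obtain ⟨η, hη⟩ : ∃ η : ℝ, η = e * T := ⟨_, rfl⟩
  have hη0 : 0 < η := by rw [hη]; positivity
  have q6 : tN * T + C * T * (Nat.log 2 T : ℝ) ≤ η ^ 2 / 2 := by
    have h1 := mul_le_mul_of_nonneg_left q5 hT0.le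
    have h2 := mul_le_mul_of_nonneg_left q3 hT0.le
    rw [hη]
    linarith
  refine ⟨Bad ∪ range ⌈4 * η + 8⌉₊, ?_, fun κ hκ hκT hκB => ?_⟩
  · have h1 : ((Bad ∪ range ⌈4 * η + 8⌉₊).card : ℝ) ≤ Bad.card + ⌈4 * η + 8⌉₊ := by
      have := card_union_le Bad (range ⌈4 * η + 8⌉₊)
      rw [card_range] at this
      exact_mod_cast this
    have h2 := (Nat.ceil_lt_add_one (by positivity : 0 ≤ 4 * η + 8)).le
    have h3 : e ^ 2 / 2 * T ≤ e * T := mul_le_mul_of_nonneg_right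
      (by linarith [mul_le_mul_of_nonneg_left he1 he0.le]) hT0.le
    have h4 := mul_le_mul_of_nonneg_right he2 hT0.le
    linarith
  · rw [mem_union, not_or, mem_range, not_lt, Nat.ceil_le] at hκB
    have hκ8 := hκB.2
    have hκ2 : 2 ≤ κ := by
      have : (2 : ℝ) ≤ κ := by linarith
      exact_mod_cast this
    have hκT' : (κ : ℝ) ≤ T := by exact_mod_cast hκT
    have hp2 : (2 : ℝ) ≤ p := by exact_mod_cast hp
    obtain ⟨H, hH⟩ : ∃ H : ℝ, H = ((κ : ℝ) + 2) / (p + 1) := ⟨_, rfl⟩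
    have hH0 : 0 < H := by rw [hH]; positivity
    have hH3 : H ≤ ((κ : ℝ) + 2) / 3 := by
      rw [hH]
      exact div_le_div_of_nonneg_left (by positivity) (by norm_num) (by linarith)
    have hlog : (C : ℝ) * κ * (Nat.log 2 κ : ℝ) ≤ C * T * (Nat.log 2 T : ℝ) := by
      have : (Nat.log 2 κ : ℝ) ≤ Nat.log 2 T := by exact_mod_cast Nat.log_mono_right hκT
      gcongr
    have e1 : ((p : ℝ) + 1) / ((κ : ℝ) + 2) = H⁻¹ := by rw [hH, inv_div]
    rw [e1, ← hH]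
    refine (cnt_est hp (SN κ) h0 hH0 hη0 ha hab hb ?_ ?_).trans ?_
    · intro h hh0 hh1
      have c1 := (Nat.ceil_lt_add_one hh0).le
      have c2 := Nat.le_ceil h
      have c3 : (⌈h⌉₊ : ℝ) ≤ κ := by linarith
      have c4 := hup κ ⌈h⌉₊ hκ hκ2 (by exact_mod_cast c3)
      have c5 := np_mono hp (SN κ) c2
      have c6 : (⌈h⌉₊ : ℝ) ^ 2 ≤ h ^ 2 + 2 * T :=
        hcnt_sq (Nat.cast_nonneg _) c1 (by linarith)
      have c7 := mul_le_mul_of_nonneg_left c6 h0
      have c8 : 0 ≤ η ^ 2 := by positivity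
      linarith
    · intro h hh0 hh1
      have c1 := (Nat.lt_floor_add_one h).le
      have c2 := Nat.floor_le hh0
      have c0 : (0 : ℝ) ≤ ⌊h⌋₊ := Nat.cast_nonneg _
      have c3 : (⌊h⌋₊ : ℝ) ≤ κ := by linarith
      have c4 := hrel κ ⌊h⌋₊ hκ hκ2 (by exact_mod_cast c3)
      have c5 := np_mono hp (SN κ) c2
      have c9 := hgood κ hκ hκT hκB.1 ⌊h⌋₊ c0 (by rw [← hH]; linarith)
      have c6 : h ^ 2 ≤ (⌊h⌋₊ : ℝ) ^ 2 + 2 * T := hcnt_sq hh0 c1 (by linarith)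
      have c7 := mul_le_mul_of_nonneg_left c6 h0
      have c8 : e ^ 2 / 2 * (T : ℝ) ^ 2 = η ^ 2 / 2 := by rw [hη]; ring
      linarith
    · have := mul_le_mul_of_nonneg_right he3 hT0.le
      rw [hη]
      linarith

end Pool.Agent.Lib.MP_88d29b_nt.G
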