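import Pool.Agent.Lib.MP_88d29b_nt.HVol

set_option autoImplicit false

noncomputable section

namespace Pool.Agent.Lib.MP_88d29b_nt.G

open Finset CongruenceSubgroup Matrix
open scoped MatrixGroups

variable {K : Type} [NormedField K] [IsUltrametricDist K] {m n : Type} [Fintype m] [Fintype n]

theorem hproj_aux [DecidableEq n] (W : Submodule K (n → K)) :
    ∃ P : Matrix n n K, EntLe P 1 ∧ (∀ y, P *ᵥ y ∈ W) ∧ ∀ y ∈ W, P *ᵥ y = y := by
  induction W using WellFoundedLT.induction with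
  | _ W ih =>
  by_cases hW : W = ⊥
  · subst hW
    refine ⟨0, fun i j => by simp, fun y => by simp, fun y hy => ?_⟩
    rw [Submodule.mem_bot] at hy
    simp [hy]
  obtain ⟨x, hxW, hx0⟩ := Submodule.exists_mem_ne_zero_of_ne_bot hW
  obtain ⟨j0, hj0⟩ := Function.ne_iff.1 hx0
  have : Nonempty n := ⟨j0⟩
  obtain ⟨i, hi⟩ := Finite.exists_max fun j => ‖x j‖
  have hpos : 0 < ‖x i‖ := (norm_pos_iff.2 hj0).trans_le (hi j0)
  have hxi : x i ≠ 0 := norm_pos_iff.1 hpos
  set u : n → K := (x i)⁻¹ • x with hu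
  have huW : u ∈ W := W.smul_mem _ hxW
  have hui : u i = 1 := by simp [hu, hxi]
  have hu1 : ∀ j, ‖u j‖ ≤ 1 := fun j => by
    rw [hu, Pi.smul_apply, smul_eq_mul, norm_mul, norm_inv, inv_mul_le_iff₀ hpos, mul_one]
    exact hi j
  obtain ⟨P', h1, h2, h3⟩ := ih (W ⊓ LinearMap.ker (LinearMap.proj i)) (by
    refine lt_of_le_of_ne inf_le_left fun e => ?_
    have := (e.ge huW).2
    simp [hui] at this)
  let P1 : Matrix n n K := vecMulVec u (Pi.single i 1)
  have hP1 : EntLe P1 1 := fun a b => by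
    simp only [P1, vecMulVec_apply, Pi.single_apply]
    split_ifs
    · simpa using hu1 a
    · simp
  have hmul : ∀ y, P1 *ᵥ y = y i • u := fun y => by
    simp [P1, vecMulVec_mulVec]
  refine ⟨P1 + P' * (1 - P1), hP1.add ?_, fun y => ?_, fun y hy => ?_⟩
  · simpa using EntLe.mul zero_le_one zero_le_one h1 (entLe_one.sub hP1)
  · rw [add_mulVec, hmul, ← mulVec_mulVec]
    exact W.add_mem (W.smul_mem _ huW) (h2 _).1
  · rw [add_mulVec, ← mulVec_mulVec, sub_mulVec, one_mulVec, hmul, h3, add_sub_cancel]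
    refine ⟨W.sub_mem hy (W.smul_mem _ huW), ?_⟩
    simp [hui]

omit [IsUltrametricDist K] in
theorem hproj_idem [DecidableEq n] {W : Submodule K (n → K)} {P : Matrix n n K}
    (h2 : ∀ y, P *ᵥ y ∈ W) (h3 : ∀ y ∈ W, P *ᵥ y = y) : P * P = P := by
  apply Matrix.toLin'.injective
  refine LinearMap.ext fun y => ?_
  rw [toLin'_apply, toLin'_apply, ← mulVec_mulVec, h3 _ (h2 y)]

/-- Every subspace is the range of an integral idempotent. Induction on the dimension of `W`: take
`0 ≠ x ∈ W`, scale it so that a coordinate `i` of maximal norm equals `1`, let `P'` be the idempotent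
of `W' = W ∩ {y_i = 0}` and `P1 y = y_i x`; then `P = P1 + P' (1 - P1)`. (Alternatively choose a
basis matrix of `W` and a maximal minor of maximal norm, and use Cramer's rule.) -/
theorem exists_proj [DecidableEq n] (W : Submodule K (n → K)) :
    ∃ P : Matrix n n K, EntLe P 1 ∧ P * P = P ∧ LinearMap.range (Matrix.toLin' P) = W := by
  obtain ⟨P, h1, h2, h3⟩ := hproj_aux W
  refine ⟨P, h1, hproj_idem h2 h3, le_antisymm ?_ fun y hy => ⟨y, h3 y hy⟩⟩
  rintro _ ⟨y, rfl⟩
  exact h2 y

/-- An integral idempotent with prescribed kernel: `1 - P`. -/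
theorem exists_proj_ker [DecidableEq n] (W : Submodule K (n → K)) :
    ∃ Q : Matrix n n K, EntLe Q 1 ∧ Q * Q = Q ∧ LinearMap.ker (Matrix.toLin' Q) = W := by
  obtain ⟨P, h1, h2, h3⟩ := hproj_aux W
  refine ⟨1 - P, entLe_one.sub h1, ?_, ?_⟩
  · rw [Matrix.mul_sub, Matrix.sub_mul, Matrix.sub_mul, hproj_idem h2 h3]
    simp
  · ext y
    rw [LinearMap.mem_ker, toLin'_apply, sub_mulVec, one_mulVec, sub_eq_zero]
    exact ⟨fun e => e ▸ h2 y, fun hy => (h3 y hy).symm⟩

/-- Perturbation of small rank. Let `P` be an integral idempotent onto the kernel of `Y - Y'`. Then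
`Y = Y' P + Y (1 - P)` and `1 - P` has rank at most `q`. -/
theorem VolLe.of_rank {Y Y' : Matrix m n K} {q : ℕ} (hq : (Y - Y').rank ≤ q) {x y : ℝ}
    (h : EntLe Y x) (hx : 1 ≤ x) (h' : VolLe Y' y) : VolLe Y (x ^ q * y) := by
  classical
  obtain ⟨P, h1, h2, h3⟩ := exists_proj (LinearMap.ker (Matrix.toLin' (Y - Y')))
  have h4 : (Y - Y') * P = 0 := by
    apply Matrix.toLin'.injective
    rw [toLin'_mul, map_zero]
    exact LinearMap.range_le_ker_iff.1 h3.le
  have h5 : Y = Y * (1 - P) + Y' * P := by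
    rw [Matrix.sub_mul, sub_eq_zero] at h4
    rw [Matrix.mul_sub, Matrix.mul_one, h4, sub_add_cancel]
  have h6 : (1 - P).rank ≤ q := by
    have e1 := rank_one_sub_add P h2
    have e2 := LinearMap.finrank_range_add_finrank_ker (Matrix.toLin' (Y - Y'))
    rw [← h3, Module.finrank_fintype_fun_eq_card] at e2
    have e3 : Module.finrank K (LinearMap.range (Matrix.toLin' P)) = P.rank := rfl
    have e4 : Module.finrank K (LinearMap.range (Matrix.toLin' (Y - Y'))) = (Y - Y').rank := rfl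
    omega
  have h7 : VolLe (Y * (1 - P)) (x ^ q) := by
    refine volLe_of_rank ((rank_mul_le_right _ _).trans h6) ?_ hx
    simpa using EntLe.mul (zero_le_one.trans hx) zero_le_one h (entLe_one.sub h1)
  have h8 := h7.add (h'.mul h1.volLe)
  rwa [← h5, mul_one] at h8

end Pool.Agent.Lib.MP_88d29b_nt.G
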