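import Pool.Agent.Lib.MP_88d29b_nt.HFix
import Pool.Agent.Lib.MP_88d29b_nt.HProj

set_option autoImplicit false

noncomputable section

namespace Pool.Agent.Lib.MP_88d29b_nt.G

open Finset CongruenceSubgroup Matrix
open scoped MatrixGroups

variable {K : Type} [NormedField K] [IsUltrametricDist K] {n : Type} [Fintype n] [DecidableEq n]

/-- Write `1 - ζ X = diag(d) Y`, `d_i = - ζ π_i` on `F` and `1` off `F`. Then `Y = Y0 + Z` with `Z`
of norm at most `R'⁻¹`, so `Y = Y0 (1 + Y0⁻¹ Z)` and `norm_det_one_add'` applies. -/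
theorem norm_det_one_sub_eq (X Y0 : Matrix n n K) (F : Finset n) (π : n → K) {R R' : ℝ}
    (hR : 0 < R) (hRR : R < R') (hdet : Y0.det ≠ 0) (hinv : EntLe Y0⁻¹ R)
    (h1 : ∀ i ∈ F, R' ≤ ‖π i‖ ∧ ∀ j, X i j = π i * Y0 i j)
    (h2 : ∀ i, i ∉ F → (∀ j, ‖X i j‖ ≤ R'⁻¹) ∧ Y0 i = (1 : Matrix n n K) i) (ζ : K)
    (hζ : ‖ζ‖ = 1) : ‖(1 - ζ • X).det‖ = (∏ i ∈ F, ‖π i‖) * ‖Y0.det‖ := by
  classical
  have hR' : 0 < R' := hR.trans hRR
  have hζ0 : ζ ≠ 0 := fun h => by simp [h] at hζ
  have hπ0 : ∀ i ∈ F, π i ≠ 0 := fun i hi => norm_pos_iff.mp (hR'.trans_le (h1 i hi).1)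
  set d : n → K := fun i => if i ∈ F then -ζ * π i else 1 with hd
  set Z : Matrix n n K := Matrix.of fun i j =>
    if i ∈ F then -(ζ * π i)⁻¹ * (1 : Matrix n n K) i j else -ζ * X i j with hZ
  have e1 : 1 - ζ • X = Matrix.diagonal d * (Y0 + Z) := by
    ext i j
    rw [Matrix.diagonal_mul]
    by_cases hi : i ∈ F
    · have := hπ0 i hi
      simp only [hd, hZ, hi, if_true, Matrix.sub_apply, Matrix.smul_apply, smul_eq_mul,
        Matrix.add_apply, Matrix.of_apply, (h1 i hi).2 j]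
      field_simp
      ring
    · simp only [hd, hZ, hi, if_false, Matrix.sub_apply, Matrix.smul_apply, smul_eq_mul,
        Matrix.add_apply, Matrix.of_apply, (h2 i hi).2]
      ring
  have hZe : EntLe Z R'⁻¹ := by
    intro i j
    by_cases hi : i ∈ F
    · simp only [hZ, hi, if_true, Matrix.of_apply, norm_mul, norm_neg, norm_inv, hζ, one_mul]
      exact (mul_le_of_le_one_right (by positivity) (entLe_one i j)).trans
        (inv_anti₀ hR' (h1 i hi).1)
    · simp only [hZ, hi, if_false, Matrix.of_apply, norm_mul, norm_neg, hζ, one_mul]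
      exact (h2 i hi).1 j
  have e2 : Y0 + Z = Y0 * (1 + Y0⁻¹ * Z) := by
    rw [Matrix.mul_add, Matrix.mul_one, Matrix.mul_nonsing_inv_cancel_left _ _ (Ne.isUnit hdet)]
  have e3 : ‖(1 + Y0⁻¹ * Z).det‖ = 1 := norm_det_one_add' _ fun i j =>
    (EntLe.mul hR.le (by positivity) hinv hZe i j).trans_lt (by
      rw [← div_eq_mul_inv, div_lt_one hR']; exact hRR)
  rw [e1, e2, Matrix.det_mul, Matrix.det_mul, norm_mul, norm_mul, e3, mul_one, Matrix.det_diagonal,
    norm_prod]
  congr 1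
  rw [← Finset.prod_subset (Finset.subset_univ F) fun i _ hi => by simp [hd, hi]]
  exact Finset.prod_congr rfl fun i hi => by simp [hd, hi, hζ]

/-- `1 - X ^ m = ∏_ζ (1 - ζ X)` over the roots of `T ^ m - 1` with multiplicity (evaluate the
polynomial identity `1 - T ^ m = ∏ (1 - ζ T)` at `X`). -/
theorem norm_det_one_sub_pow [IsAlgClosed K] (X : Matrix n n K) {y : ℝ} {m : ℕ} (hm : 1 ≤ m)
    (h : ∀ ζ : K, ‖ζ‖ = 1 → ‖(1 - ζ • X).det‖ = y) : ‖(1 - X ^ m).det‖ = y ^ m := by
  classical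
  have key : ∀ s : Multiset K, (∀ ζ ∈ s, ‖ζ‖ = 1) →
      ‖(Polynomial.aeval X (s.map fun a => Polynomial.X - Polynomial.C a).prod).det‖
        = y ^ Multiset.card s := by
    intro s
    induction s using Multiset.induction_on with
    | empty => intro _; simp
    | cons a s ih =>
      intro hs
      have ha : ‖a‖ = 1 := hs a (Multiset.mem_cons_self a s)
      have ha0 : a ≠ 0 := fun h => by simp [h] at ha
      rw [Multiset.map_cons, Multiset.prod_cons, map_mul, Matrix.det_mul, norm_mul,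
        ih fun ζ hζ => hs ζ (Multiset.mem_cons_of_mem hζ), Multiset.card_cons, pow_succ']
      congr 1
      have e : Polynomial.aeval X (Polynomial.X - Polynomial.C a) = (-a) • (1 - a⁻¹ • X) := by
        rw [map_sub, Polynomial.aeval_X, Polynomial.aeval_C, Algebra.algebraMap_eq_smul_one,
          smul_sub, smul_smul, neg_mul, mul_inv_cancel₀ ha0]
        simp only [neg_smul, one_smul]
        abel
      rw [e, Matrix.det_smul, norm_mul, norm_pow, norm_neg, ha, one_pow, one_mul]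
      exact h _ (by rw [norm_inv, ha, inv_one])
  have hm0 : m ≠ 0 := by omega
  have hmon : (Polynomial.X ^ m - Polynomial.C (1 : K)).Monic := Polynomial.monic_X_pow_sub_C 1 hm0
  have hsp := IsAlgClosed.splits (Polynomial.X ^ m - Polynomial.C (1 : K))
  have hcard : Multiset.card (Polynomial.X ^ m - Polynomial.C (1 : K)).roots = m := by
    rw [← hsp.natDegree_eq_card_roots, Polynomial.natDegree_X_pow_sub_C]
  have h3 := key (Polynomial.X ^ m - Polynomial.C (1 : K)).roots fun ζ hζ => by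
    have h4 := (Polynomial.mem_roots hmon.ne_zero).mp hζ
    simp only [Polynomial.IsRoot.def, Polynomial.eval_sub, Polynomial.eval_pow, Polynomial.eval_X,
      Polynomial.eval_C, sub_eq_zero] at h4
    have h5 : ‖ζ‖ ^ m = 1 := by rw [← norm_pow, h4, norm_one]
    exact (pow_eq_one_iff_of_nonneg (norm_nonneg _) hm0).mp h5
  rw [← hsp.eq_prod_roots_of_monic hmon, hcard] at h3
  rw [← h3, ← neg_sub, Matrix.det_neg, norm_mul, norm_pow, norm_neg, norm_one, one_pow, one_mul]
  simp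

/-- Apply `exists_fix` to the matrix with the rows of `A` on `I0` and unit rows off `I0`; get `Y0`,
`S`, `q = |S|`. Put `F = I0 ∪ S`, `π' i = π i` if `i ∈ I0` and `R' ≤ ‖π i‖`, else `ϖ'`. Let `X'` have
rows `π' i • Y0 i` on `F`, zero on `Mid \ F`, and the rows of `X` elsewhere. `X'` differs from `X`
only in the rows of `S ∪ Mid`, has entries at most `H`; use `rank_pow_sub_pow`, `VolLe.of_rank`,
`VolLe.det_one_sub` and the two lemmas above. -/
theorem core_lower [IsAlgClosed K] (A : Matrix n n K) (hA : EntLe A 1) (π : n → K) (I0 Mid : Finset n)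
    (ϖ ϖ' : K) {R R' H Δ : ℝ} (hϖ : ‖ϖ‖ = R) (hϖ' : ‖ϖ'‖ = R') (hR : 1 ≤ R) (hRR : R < R')
    (hH : R' ≤ H) (hΔ : 0 < Δ) (hπ : ∀ i, ‖π i‖ ≤ H)
    (h1 : ∀ i ∈ I0, i ∉ Mid → R' ≤ ‖π i‖) (h2 : ∀ i, i ∉ I0 → i ∉ Mid → ‖π i‖ ≤ R'⁻¹)
    (h : ∀ x, VolLe (ϖ • Matrix.of (I0.piecewise A (1 : Matrix n n K))) x →
      R ^ Fintype.card n ≤ x * Δ) :
    ∃ q : ℕ, R ^ q ≤ Δ ∧ ∀ (m : ℕ) (x : ℝ), 1 ≤ m → VolLe ((Matrix.diagonal π * A) ^ m) x →
      ((∏ i ∈ I0, ‖π i‖) / Δ) ^ m ≤ x * H ^ (m * m * (q + Mid.card)) := by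
  classical
  have hR0 : 0 < R := by linarith
  have hR' : 1 ≤ R' := by linarith
  have hH1 : 1 ≤ H := by linarith
  have hY : EntLe (Matrix.of (I0.piecewise A (1 : Matrix n n K))) 1 := by
    intro i j
    by_cases hi : i ∈ I0
    · simpa [Finset.piecewise_eq_of_mem _ _ _ hi] using hA i j
    · simpa [Finset.piecewise_eq_of_notMem _ _ _ hi] using entLe_one (K := K) i j
  obtain ⟨Y0, S, hY0, hS, hq, hdet, hinv⟩ := exists_fix _ hY ϖ hϖ hR hΔ h
  refine ⟨S.card, hq, fun m x hm hx => ?_⟩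
  set π' : n → K := fun i => if i ∈ I0 ∧ R' ≤ ‖π i‖ then π i else ϖ' with hπ'
  have p1 : ∀ i, R' ≤ ‖π' i‖ := fun i => by
    simp only [hπ']
    split_ifs with hi
    exacts [hi.2, hϖ'.ge]
  have p2 : ∀ i, ‖π' i‖ ≤ H := fun i => by
    simp only [hπ']
    split_ifs
    exacts [hπ i, hϖ'.le.trans hH]
  have p3 : ∀ i ∈ I0, ‖π i‖ ≤ ‖π' i‖ := fun i hi => by
    by_cases hi' : R' ≤ ‖π i‖
    · simp [hπ', hi, hi']
    · exact (not_le.mp hi').le.trans (p1 i)
  set X' : Matrix n n K := Matrix.of fun i j =>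
    if i ∈ I0 ∪ S then π' i * Y0 i j else if i ∈ Mid then 0 else π i * A i j with hX'
  have hdet0 : Y0.det ≠ 0 := norm_pos_iff.mp ((inv_pos.mpr hΔ).trans_le hdet)
  have e1 := norm_det_one_sub_pow X' hm (norm_det_one_sub_eq X' Y0 (I0 ∪ S) π' hR0 hRR hdet0 hinv
    (fun i hi => ⟨p1 i, fun j => by simp only [hX', Matrix.of_apply, if_pos hi]⟩)
    (fun i hi => by
      have hi1 : i ∉ I0 := fun h => hi (Finset.mem_union_left _ h)
      have hi2 : i ∉ S := fun h => hi (Finset.mem_union_right _ h)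
      refine ⟨fun j => ?_, ?_⟩
      · simp only [hX', Matrix.of_apply, if_neg hi]
        split_ifs with hM
        · rw [norm_zero]; positivity
        · rw [norm_mul]
          exact (mul_le_of_le_one_right (norm_nonneg _) (hA i j)).trans (h2 i hi1 hM)
      · rw [hS i hi2]
        funext j
        simp [Finset.piecewise_eq_of_notMem _ _ _ hi1]))
  have hXe : EntLe X' H := by
    intro i j
    simp only [hX', Matrix.of_apply]
    split_ifs
    · rw [norm_mul]; exact (mul_le_of_le_one_right (norm_nonneg _) (hY0 i j)).trans (p2 i)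
    · rw [norm_zero]; linarith
    · rw [norm_mul]; exact (mul_le_of_le_one_right (norm_nonneg _) (hA i j)).trans (hπ i)
  have hrk : (X' - Matrix.diagonal π * A).rank ≤ S.card + Mid.card := by
    refine (rank_le_of_rows _ (S ∪ Mid) fun i hi j => ?_).trans (Finset.card_union_le _ _)
    have hi1 : i ∉ S := fun h => hi (Finset.mem_union_left _ h)
    have hi2 : i ∉ Mid := fun h => hi (Finset.mem_union_right _ h)
    rw [Matrix.sub_apply, Matrix.diagonal_mul, sub_eq_zero]
    by_cases hi0 : i ∈ I0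
    · simp [hX', hπ', hi0, h1 i hi0 hi2, hS i hi1, Finset.piecewise_eq_of_mem _ _ _ hi0]
    · simp [hX', hi0, hi1, hi2]
  have hv := (VolLe.of_rank ((rank_pow_sub_pow X' _ m).trans (Nat.mul_le_mul_left m hrk))
    (hXe.pow (by linarith) m) (one_le_pow₀ hH1) hx).det_one_sub
  rw [e1, ← pow_mul, ← mul_assoc, mul_comm _ x] at hv
  refine le_trans (pow_le_pow_left₀ (div_nonneg (Finset.prod_nonneg fun _ _ => norm_nonneg _) hΔ.le)
    ?_ m) hv
  rw [div_eq_mul_inv]
  refine mul_le_mul ?_ hdet (by positivity) (Finset.prod_nonneg fun _ _ => norm_nonneg _)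
  exact (Finset.prod_le_prod (fun _ _ => norm_nonneg _) p3).trans
    (Finset.prod_le_prod_of_subset_of_one_le Finset.subset_union_left
      (fun _ _ => norm_nonneg _) fun i _ _ => hR'.trans (p1 i))

end Pool.Agent.Lib.MP_88d29b_nt.G
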