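import Pool.Agent.Lib.MP_88d29b_nt.HHodge

set_option autoImplicit false

noncomputable section

namespace Pool.Agent.Lib.MP_88d29b_nt.G

open Finset CongruenceSubgroup Matrix
open scoped MatrixGroups

variable {p : ℕ} [Fact p.Prime] {ι : Type} [Fintype ι] [DecidableEq ι]

/-- the determinant of a matrix that is of low rank modulo `p ^ r` -/
lemma hghost_det {m : Type} [Fintype m] [DecidableEq m] (Y X : Matrix m m (KP p)) (r q : ℕ)
    (S T : Finset m) (hY : EntLe Y 1) (hX : EntLe X 1) (hq : X.rank ≤ q)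
    (hs : ∀ i, i ∉ S → ∀ j, j ∉ T → ‖(Y - X) i j‖ ≤ (p : ℝ) ^ (-(r : ℝ))) :
    (p : ℝ) ^ ((r : ℝ) * Fintype.card m) * ‖Y.det‖ ≤
      (p : ℝ) ^ ((r : ℝ) * ((q : ℝ) + S.card + T.card)) := by
  have hp0 := p_pos p
  have hp1 := one_lt_p p
  set Y2 : Matrix m m (KP p) := fun i j => if i ∈ S ∨ j ∈ T then (Y - X) i j else 0 with hY2
  set Y1 : Matrix m m (KP p) := fun i j => if i ∈ S ∨ j ∈ T then 0 else (Y - X) i j with hY1
  set c : KP p := ((p : KP p) ^ r)⁻¹ with hc
  have hcn : ‖c‖ = (p : ℝ) ^ (r : ℝ) := norm_p_pow_inv p r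
  have e : c • Y = c • (X + Y2) + c • Y1 := by
    rw [← smul_add]
    congr 1
    ext i j
    simp only [hY1, hY2, Matrix.add_apply, Matrix.sub_apply]
    split_ifs <;> ring
  have h1 : EntLe Y2 1 := by
    intro i j
    simp only [hY2]
    split_ifs
    · exact hY.sub hX i j
    · simp
  have h2 : EntLe Y1 ((p : ℝ) ^ (-(r : ℝ))) := by
    intro i j
    simp only [hY1]
    split_ifs with h
    · rw [norm_zero]; positivity
    · push Not at h
      exact hs i h.1 j h.2
  have h3 : Y2.rank ≤ S.card + T.card := by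
    refine rank_le_of_rows_cols Y2 S T fun i hi j hj => ?_
    simp only [hY2]
    rw [if_neg (by tauto)]
  have h4 : (c • (X + Y2)).rank ≤ q + S.card + T.card :=
    (rank_smul_le' _ _).trans ((rank_add_le' _ _).trans (by omega))
  have h5 : EntLe (c • (X + Y2)) ((p : ℝ) ^ (r : ℝ)) := by
    have := (hX.add h1).smul c
    rwa [hcn, mul_one] at this
  have h6 : EntLe (c • Y1) 1 := by
    have := h2.smul c
    rwa [hcn, ← Real.rpow_add hp0, add_neg_cancel, Real.rpow_zero] at this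
  have h7 := ((volLe_of_rank h4 h5 (Real.one_le_rpow hp1.le (by positivity))).add h6.volLe).det_le
  rw [← e, Matrix.det_smul, norm_mul, norm_pow, hcn, mul_one, ← Real.rpow_natCast,
    ← Real.rpow_natCast, ← Real.rpow_mul hp0.le, ← Real.rpow_mul hp0.le] at h7
  push_cast at h7
  exact h7

lemma hghost_rank {κ q : ℕ} (Z : Matrix (Jx ι κ) (Jx ι κ) (KP p))
    (hq : (dmat p ι κ * Z).rank ≤ q) : Z.rank ≤ q := by
  have e : Z = (Matrix.diagonal fun i : Jx ι κ => ((p : KP p) ^ (i.2 : ℕ))⁻¹) *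
      (dmat p ι κ * Z) := by
    rw [← Matrix.mul_assoc, dmat, Matrix.diagonal_mul_diagonal]
    have : (fun i : Jx ι κ => ((p : KP p) ^ (i.2 : ℕ))⁻¹ * (p : KP p) ^ (i.2 : ℕ)) =
        fun _ => 1 := by
      funext i
      exact inv_mul_cancel₀ (pow_ne_zero _ (p_ne_zero p))
    rw [this, Matrix.diagonal_one, Matrix.one_mul]
  rw [e]
  exact (Matrix.rank_mul_le_right _ _).trans hq

/-- retraction onto the degrees at most `κ` -/
def hghost_ret {D : ℕ} (κ : ℕ) (i : Jx ι D) : Jx ι κ :=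
  (i.1, ⟨min (i.2 : ℕ) κ, Nat.lt_succ_of_le (min_le_right _ _)⟩)

omit [Fintype ι] [DecidableEq ι] in
lemma hghost_emb_ret {D κ : ℕ} (h : κ ≤ D) {i : Jx ι D} (hi : (i.2 : ℕ) ≤ κ) :
    emb h (hghost_ret κ i) = i :=
  Prod.ext rfl (Fin.ext (min_eq_left hi))

omit [Fintype ι] [DecidableEq ι] in
lemma hghost_ret_deg {D κ : ℕ} {i : Jx ι D} (hi : (i.2 : ℕ) ≤ κ) :
    ((hghost_ret κ i).2 : ℕ) = i.2 := min_eq_left hi

/-- Let `t = |ι|`, `J = n / t` (real). If `κ < J + 2 r` the bracket is negative: use `cf_hodge`.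
Otherwise use `cf_le`. Fix `I` and let `a` be the number of `i ∈ I` of degree `> J + 2 r`;
`hodge_pen` gives `∑_I deg ≥ hpl + 2 r a`. Let `X1` on `I × I` be `(A0 + AW)` at pairs of indices of
degree `≤ J + 2 r` and zero elsewhere (rank at most `q`: a submatrix of `A0 + AW` times 0-1 matrices;
`dmat` is invertible). `A_I - X1` has entries at most `p ^ (-r)` outside the rows and columns of degree
`> J + 2 r` and the rows of degree in `[κ - J - 3 r, J + 2 r]` (at most
`b = t max 0 (2 J - κ + 5 r + 1)`, `card_band`). So `p ^ (-r) A_I` is a matrix of rank at most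
`q + 2 a + b` with entries at most `p ^ r` plus an integral matrix; `volLe_of_rank`, `VolLe.add`,
`VolLe.det_le` give `p ^ (r n) ‖det A_I‖ ≤ p ^ (r (q + 2 a + b))`. -/
theorem ghost_bound (ht : 0 < Fintype.card ι) {D κ n r q : ℕ} (h : κ ≤ D)
    (A : Matrix (Jx ι D) (Jx ι D) (KP p)) (hA : EntLe A 1) (A0 AW : Matrix (Jx ι κ) (Jx ι κ) (KP p))
    (hA0 : EntLe A0 1) (hc : EntLe (blk h A - A0) ((p : ℝ) ^ (-(r : ℝ)))) (hW : Decay p AW)
    (hq : (dmat p ι κ * (A0 + AW)).rank ≤ q) :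
    ‖cf (dmat p ι D * A) n‖ ≤ (p : ℝ) ^ (-(hpl (Fintype.card ι) n + r *
      (min ((n : ℝ) - q) ((Fintype.card ι : ℝ) * κ - n - q) - Fintype.card ι * (5 * r + 1)))) := by
  classical
  have hp0 := p_pos p
  have hp1 := one_lt_p p
  have ht' : (0 : ℝ) < Fintype.card ι := by exact_mod_cast ht
  have hr0 : (0 : ℝ) ≤ r := by positivity
  have hq0 : (0 : ℝ) ≤ q := by positivity
  set t : ℝ := (Fintype.card ι : ℝ) with htd
  set J : ℝ := (n : ℝ) / t with hJ
  have hJt : t * J = n := by rw [hJ]; field_simp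
  set B : ℝ := min ((n : ℝ) - q) (t * κ - n - q) - t * (5 * r + 1) with hB
  rcases le_or_gt B 0 with hB0 | hB0
  · refine (cf_hodge ht A hA n).trans (Real.rpow_le_rpow_of_exponent_le hp1.le ?_)
    have := mul_nonpos_of_nonneg_of_nonpos hr0 hB0
    linarith
  have hm1 := min_le_left ((n : ℝ) - q) (t * κ - n - q)
  have hm2 := min_le_right ((n : ℝ) - q) (t * κ - n - q)
  have hκ : J + 2 * r ≤ κ := by
    have h1 : t * (J + 2 * r) ≤ t * κ := by nlinarith
    exact le_of_mul_le_mul_left h1 ht'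
  refine cf_le A n (by positivity) fun I hI => ?_
  set T : Finset I := univ.filter fun i => J + 2 * r < ((i.1.2 : ℕ) : ℝ) with hT
  set W : Finset I := univ.filter fun i =>
    (κ : ℝ) - J - 3 * r ≤ ((i.1.2 : ℕ) : ℝ) ∧ ((i.1.2 : ℕ) : ℝ) ≤ J + 2 * r with hWd
  have hdeg : ∀ i : I, i ∉ T → ((i.1.2 : ℕ) : ℝ) ≤ J + 2 * r := by
    intro i hi
    simpa [hT] using hi
  have hdeg' : ∀ i : I, i ∉ T → (i.1.2 : ℕ) ≤ κ := by
    intro i hi
    exact_mod_cast (hdeg i hi).trans hκ
  have hdet := hghost_det (A.submatrix (Subtype.val : I → Jx ι D) (Subtype.val : I → Jx ι D))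
    ((A0 + AW).submatrix (fun i : I => hghost_ret κ i.1) (fun i : I => hghost_ret κ i.1)) r q
    (T ∪ W) T (fun i j => hA _ _) (fun i j => hA0.add hW.1 _ _)
    ((rank_submatrix_le' _ _ _).trans (hghost_rank _ hq)) (by
      intro i hi j hj
      rw [Finset.mem_union, not_or] at hi
      have a1 := hdeg i hi.1
      have a2 := hdeg j hj
      have a3 : ((i.1.2 : ℕ) : ℝ) < κ - J - 3 * r := by
        by_contra hcon
        exact hi.2 (by simpa [hWd] using And.intro (not_lt.1 hcon) a1)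
      have b1 := hc (hghost_ret κ i.1) (hghost_ret κ j.1)
      have b2 := hW.2 (hghost_ret κ i.1) (hghost_ret κ j.1)
      rw [hghost_ret_deg (hdeg' i hi.1), hghost_ret_deg (hdeg' j hj)] at b2
      have b3 : ‖AW (hghost_ret κ i.1) (hghost_ret κ j.1)‖ ≤ (p : ℝ) ^ (-(r : ℝ)) :=
        b2.trans (Real.rpow_le_rpow_of_exponent_le hp1.le (by linarith))
      have e : (A.submatrix (Subtype.val : I → Jx ι D) (Subtype.val : I → Jx ι D) -
          (A0 + AW).submatrix (fun i : I => hghost_ret κ i.1) (fun i : I => hghost_ret κ i.1)) i j =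
          (blk h A - A0) (hghost_ret κ i.1) (hghost_ret κ j.1) +
            -AW (hghost_ret κ i.1) (hghost_ret κ j.1) := by
        simp only [blk, Matrix.sub_apply, Matrix.submatrix_apply, Matrix.add_apply,
          hghost_emb_ret h (hdeg' i hi.1), hghost_emb_ret h (hdeg' j hj)]
        ring
      rw [e]
      refine (IsUltrametricDist.norm_add_le_max _ _).trans (max_le b1 ?_)
      rwa [norm_neg])
  rw [Fintype.card_coe, hI] at hdet
  have hpen := hodge_pen ht I hI
  have hs2 : 0 ≤ ∑ i ∈ Iᶜ, max 0 ((n : ℝ) / Fintype.card ι - ((i.2 : ℕ) : ℝ)) :=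
    Finset.sum_nonneg fun _ _ => le_max_left _ _
  have hs1 : (T.card : ℝ) * (2 * r) ≤
      ∑ i ∈ I, max 0 (((i.2 : ℕ) : ℝ) - (n : ℝ) / Fintype.card ι) := by
    rw [← Finset.sum_coe_sort I, ← nsmul_eq_mul, ← Finset.sum_const]
    refine le_trans (Finset.sum_le_sum fun i hi => ?_)
      (Finset.sum_le_sum_of_subset_of_nonneg (Finset.subset_univ T) fun _ _ _ => le_max_left _ _)
    have := (Finset.mem_filter.1 hi).2
    exact le_max_of_le_right (by linarith)
  have hW1 : (W.card : ℝ) ≤ t * max 0 (J + 2 * r - (κ - J - 3 * r) + 1) := by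
    refine le_trans ?_ (card_band D ((κ : ℝ) - J - 3 * r) (J + 2 * r))
    refine Nat.cast_le.2 (Finset.card_le_card_of_injOn Subtype.val (fun i hi => ?_)
      (Subtype.val_injective.injOn))
    have := (Finset.mem_filter.1 (Finset.mem_coe.1 hi)).2
    exact Finset.mem_coe.2 (Finset.mem_filter.2 ⟨Finset.mem_univ _, this⟩)
  have hW2 : B ≤ (n : ℝ) - q - W.card := by
    rcases le_total 0 (J + 2 * r - (κ - J - 3 * r) + 1) with h0 | h0
    · rw [max_eq_right h0] at hW1
      nlinarith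
    · rw [max_eq_left h0, mul_zero] at hW1
      have : 0 ≤ t * (5 * r + 1) := by positivity
      linarith
  have hU : (((T ∪ W).card : ℕ) : ℝ) ≤ T.card + W.card := by
    exact_mod_cast Finset.card_union_le T W
  have hle : ‖(A.submatrix (Subtype.val : I → Jx ι D) (Subtype.val : I → Jx ι D)).det‖ ≤
      (p : ℝ) ^ ((r : ℝ) * ((q : ℝ) + ((T ∪ W).card : ℕ) + T.card) - (r : ℝ) * n) := by
    rw [Real.rpow_sub hp0, le_div_iff₀ (by positivity), mul_comm]
    exact hdet
  refine (mul_le_mul_of_nonneg_left hle (by positivity)).trans ?_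
  rw [← Real.rpow_add hp0]
  refine Real.rpow_le_rpow_of_exponent_le hp1.le ?_
  have c1 := mul_le_mul_of_nonneg_left hU hr0
  have c2 := mul_le_mul_of_nonneg_left hW2 hr0
  linarith

end Pool.Agent.Lib.MP_88d29b_nt.G
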