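import Pool.Agent.Lib.MP_88d29b_nt.HDefs

set_option autoImplicit false

noncomputable section

namespace Pool.Agent.Lib.MP_88d29b_nt.G

open Finset CongruenceSubgroup Matrix
open scoped MatrixGroups

lemma htent_lo (x : ℝ) {h : ℝ} (hh : 0 ≤ h) :
    max x 0 ^ 2 + 2 * h * max x 0 ≤ max (x + h) 0 ^ 2 := by
  rcases le_total x 0 with a | a
  · rw [max_eq_right a]
    simp
  · rw [max_eq_left a, max_eq_left (by linarith)]
    nlinarith

lemma htent_hi (x : ℝ) {h : ℝ} (hh : 0 ≤ h) :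
    max (x + h) 0 ^ 2 ≤ max x 0 ^ 2 + 2 * h * max x 0 + h ^ 2 := by
  have h1 : max (x + h) 0 ≤ max x 0 + h :=
    max_le (by linarith [le_max_left x 0]) (by linarith [le_max_right x 0])
  have h2 := pow_le_pow_left₀ (le_max_right _ _) h1 2
  nlinarith

/-- A piecewise quadratic primitive of the tent function. -/
def htentG (p n s : ℝ) : ℝ :=
  max (p * s - n) 0 ^ 2 / (2 * p) - max ((p + 1) * s - 2 * n) 0 ^ 2 / (2 * (p + 1)) +
    max (s - n) 0 ^ 2 / 2

lemma htent_eq {p n : ℝ} (hp : 2 ≤ p) (hn : 0 ≤ n) {s : ℝ} (hs : 0 ≤ s) :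
    max (p * s - n) 0 - max ((p + 1) * s - 2 * n) 0 + max (s - n) 0 =
      max 0 (min (n - s) (p * s - n)) := by
  have h1 : 2 * s ≤ p * s := mul_le_mul_of_nonneg_right hp hs
  have h2 : (p + 1) * s = p * s + s := by ring
  rw [h2]
  generalize p * s = u at h1
  simp only [max_def, min_def]
  split_ifs <;> linarith

lemma htent_step {p n : ℝ} (hp : 2 ≤ p) (hn : 0 ≤ n) {s h : ℝ} (hs : 0 ≤ s) (hh : 0 ≤ h) :
    htentG p n (s + h) - htentG p n s ≤
      h * max 0 (min (n - s) (p * s - n)) + (p + 1) * h ^ 2 / 2 := by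
  have hp0 : 0 < p := by linarith
  have a1 := htent_hi (p * s - n) (h := p * h) (by positivity)
  have a2 := htent_lo ((p + 1) * s - 2 * n) (h := (p + 1) * h) (by positivity)
  have a3 := htent_hi (s - n) hh
  rw [← htent_eq hp hn hs, htentG, htentG, show p * (s + h) - n = p * s - n + p * h by ring,
    show (p + 1) * (s + h) - 2 * n = (p + 1) * s - 2 * n + (p + 1) * h by ring,
    show s + h - n = s - n + h by ring]
  generalize max (p * s - n + p * h) 0 ^ 2 = A1 at a1 ⊢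
  generalize max ((p + 1) * s - 2 * n + (p + 1) * h) 0 ^ 2 = A2 at a2 ⊢
  generalize max (s - n + h) 0 ^ 2 = A3 at a3 ⊢
  generalize max (p * s - n) 0 = B1 at a1 ⊢
  generalize max ((p + 1) * s - 2 * n) 0 = B2 at a2 ⊢
  generalize max (s - n) 0 = B3 at a3 ⊢
  have b1 : A1 / (2 * p) ≤ B1 ^ 2 / (2 * p) + h * B1 + p * h ^ 2 / 2 := by
    refine (div_le_div_of_nonneg_right a1 (by positivity)).trans (le_of_eq ?_)
    field_simp
  have b2 : B2 ^ 2 / (2 * (p + 1)) + h * B2 ≤ A2 / (2 * (p + 1)) := by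
    refine (le_of_eq ?_).trans (div_le_div_of_nonneg_right a2 (by positivity))
    field_simp
  linarith

lemma htent_zero {p n : ℝ} (hn : 0 ≤ n) : htentG p n 0 = 0 := by
  rw [htentG, max_eq_right (by linarith), max_eq_right (by linarith), max_eq_right (by linarith)]
  simp

lemma htent_top {p n s : ℝ} (hp : 2 ≤ p) (hn : 0 ≤ n) (hs : n ≤ s) :
    htentG p n s = n ^ 2 * (p - 1) ^ 2 / (2 * p * (p + 1)) := by
  have h1 : 2 * s ≤ p * s := mul_le_mul_of_nonneg_right hp (hn.trans hs)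
  have hp0 : 0 < p := by linarith
  rw [htentG, max_eq_left (by linarith), max_eq_left (by linarith), max_eq_left (by linarith)]
  field_simp
  ring

/-- The tent function `g κ = max 0 (min (n - τ κ) (p τ κ - n))`, `τ = t / (p + 1)`, has area
`n ^ 2 / (2 t) * (p - 1) ^ 2 / p`, is supported in `[n / (p τ), n / τ]`, bounded by `n` and Lipschitz.
The sum over `κ0 + ph y` is the area divided by `ph` up to `O(n)`, and `ph p = (p - 1) pp`.
(Either compare with the integral of `g`, or telescope a piecewise quadratic primitive `G`: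
`G (x + ph) - G x ≤ ph g x + t ph ^ 2`; only the `y ≤ (p + 1) n` matter.) -/
theorem tent_sum {p ph b pp : ℕ} (hp : 2 ≤ p) (P : Par p ph b pp) {t : ℕ} (ht : 0 < t) :
    ∃ C : ℝ, ∀ κ0 n Y : ℕ, κ0 < ph → (p + 1) * n ≤ Y →
      (n : ℝ) ^ 2 / (2 * t) * (((p : ℝ) - 1) / pp) - C * (n + 1) ≤
        ∑ y ∈ range Y, max 0 (min ((n : ℝ) - t * (κ0 + ph * y : ℕ) / (p + 1))
          ((p : ℝ) * t * (κ0 + ph * y : ℕ) / (p + 1) - n)) := by
  have hp' : (2 : ℝ) ≤ p := by exact_mod_cast hp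
  have hp0 : (0 : ℝ) < p := by linarith
  have ht' : (1 : ℝ) ≤ t := by exact_mod_cast ht
  have hph : (1 : ℝ) ≤ ph := by exact_mod_cast P.ph_pos
  have h1 : (ph : ℝ) * p = (p - 1) * pp := by
    have := congrArg (Nat.cast : ℕ → ℝ) P.h1
    rwa [Nat.cast_mul, Nat.cast_mul, Nat.cast_sub (by omega), Nat.cast_one] at this
  have hpp : (0 : ℝ) < pp := by
    have : 0 < pp := by have := P.h2; omega
    exact_mod_cast this
  set h : ℝ := t * ph / (p + 1) with hh
  have hh0 : 0 < h := by positivity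
  refine ⟨((p : ℝ) + 1) ^ 2 * h, fun κ0 n Y hκ hY => ?_⟩
  have hn : (0 : ℝ) ≤ n := Nat.cast_nonneg n
  set s0 : ℝ := t * κ0 / (p + 1) with hs0
  have hs00 : 0 ≤ s0 := by positivity
  have hs0h : s0 ≤ h := by
    have : (κ0 : ℝ) ≤ ph := by exact_mod_cast hκ.le
    rw [hs0, hh]
    gcongr
  have e : ∀ y : ℕ, max 0 (min ((n : ℝ) - t * (κ0 + ph * y : ℕ) / (p + 1))
      ((p : ℝ) * t * (κ0 + ph * y : ℕ) / (p + 1) - n)) =
      max 0 (min ((n : ℝ) - (s0 + y * h)) (p * (s0 + y * h) - n)) := fun y => by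
    have : (t : ℝ) * (κ0 + ph * y : ℕ) / (p + 1) = s0 + y * h := by
      rw [hs0, hh]
      push_cast
      ring
    rw [mul_assoc, mul_div_assoc (p : ℝ), this]
  simp only [e]
  refine le_trans ?_ (Finset.sum_le_sum_of_subset_of_nonneg (Finset.range_mono hY)
    fun _ _ _ => le_max_left _ _)
  have key : ∀ m : ℕ, htentG p n (s0 + m * h) - htentG p n s0 ≤
      h * ∑ y ∈ range m, max 0 (min ((n : ℝ) - (s0 + y * h)) (p * (s0 + y * h) - n)) +
        m * ((p + 1) * h ^ 2 / 2) := by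
    intro m
    induction m with
    | zero => simp
    | succ m ih =>
      have := htent_step hp' hn (s := s0 + m * h) (by positivity) hh0.le
      rw [Finset.sum_range_succ, Nat.cast_succ, show s0 + (m + 1) * h = s0 + m * h + h by ring]
      linarith
  have k1 := key ((p + 1) * n)
  have k2 := htent_step hp' hn (s := 0) le_rfl hs00
  rw [zero_add, htent_zero hn, max_eq_left (min_le_of_right_le (by linarith))] at k2
  have k3 : (p + 1) * s0 ^ 2 / 2 ≤ (p + 1) * h ^ 2 / 2 := by gcongr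
  have k4 : (n : ℝ) ≤ s0 + ((p + 1) * n : ℕ) * h := by
    have : (((p + 1) * n : ℕ) : ℝ) * h = n * (t * ph) := by
      rw [hh]
      push_cast
      field_simp
    rw [this]
    have h2 : (1 : ℝ) ≤ t * ph := one_le_mul_of_one_le_of_one_le ht' hph
    nlinarith
  rw [htent_top hp' hn k4] at k1
  have k5 : (n : ℝ) ^ 2 * (p - 1) ^ 2 / (2 * p * (p + 1)) =
      h * ((n : ℝ) ^ 2 / (2 * t) * (((p : ℝ) - 1) / pp)) := by
    have : (ph : ℝ) = (p - 1) * pp / p := by rw [← h1]; field_simp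
    rw [hh, this]
    field_simp
  rw [k5] at k1
  refine le_of_mul_le_mul_left ?_ hh0
  push_cast at k1
  have k6 : ((p : ℝ) + 1) * n * ((p + 1) * h ^ 2 / 2) + (p + 1) * h ^ 2 / 2 ≤
      h * ((p + 1) ^ 2 * h * (n + 1)) := by
    have b1 : 0 ≤ ((p : ℝ) + 1) ^ 2 * h ^ 2 * n := by positivity
    have b2 : 0 ≤ ((p : ℝ) + 1) * h ^ 2 * p := by positivity
    have b3 : 0 ≤ ((p : ℝ) + 1) * h ^ 2 := by positivity
    linarith
  rw [mul_sub]
  linarith

/-- Elementary estimates: `1 / (1 / (p - 1) - 2 / n) ≤ (p - 1) (1 + 4 (p - 1) / n)` for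
`n ≥ 4 (p - 1)`, and `1 + b (p - 1) = pp`. -/
theorem num_lambda {p ph b pp : ℕ} (hp : 2 ≤ p) (P : Par p ph b pp) {t : ℕ} (ht : 0 < t) :
    ∃ (C : ℝ) (n0 : ℕ), ∀ n ell : ℕ, n0 ≤ n → 1 ≤ ell → ∀ S lam : ℝ,
      S = (n : ℝ) ^ 2 / (2 * t * pp) + 2 * n * ell →
      lam = (S + n) / (1 / ((p : ℝ) - 1) - 2 * (1 / (n : ℝ))) →
      2 * (1 / (n : ℝ)) < 1 / ((p : ℝ) - 1) ∧ 0 ≤ lam ∧
        lam ≤ (n : ℝ) ^ 2 / (2 * t) * (((p : ℝ) - 1) / pp) + C * n * ell ∧
        S + lam * b - hpl t n ≤ C * n * ell := by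
  have hp' : (2 : ℝ) ≤ p := by exact_mod_cast hp
  have ht' : (1 : ℝ) ≤ t := by exact_mod_cast ht
  have h2 : (b : ℝ) * (p - 1) + 1 = pp := by
    have := congrArg (Nat.cast : ℕ → ℝ) P.h2
    rwa [Nat.cast_add, Nat.cast_mul, Nat.cast_sub (by omega), Nat.cast_one] at this
  have hb : (0 : ℝ) ≤ b := Nat.cast_nonneg b
  obtain ⟨q, hq⟩ : ∃ q : ℝ, q = p - 1 := ⟨_, rfl⟩
  have hq1 : 1 ≤ q := by linarith
  rw [← hq] at h2 ⊢
  have hpp : (1 : ℝ) ≤ pp := by nlinarith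
  refine ⟨(3 * q + 16 * q ^ 2) + (3 + b * (3 * q + 16 * q ^ 2) + t), 4 * p,
    fun n ell hn hell S lam hS hlam => ?_⟩
  have hn' : 4 * q ≤ (n : ℝ) := by
    have : (4 : ℝ) * p ≤ n := by exact_mod_cast hn
    linarith
  have hell' : (1 : ℝ) ≤ ell := by exact_mod_cast hell
  have hn0 : (0 : ℝ) < n := by linarith
  have hq0 : 0 < q := by linarith
  have hd : 0 < n - 2 * q := by linarith
  have e1 : 1 / q - 2 * (1 / (n : ℝ)) = (n - 2 * q) / (q * n) := by field_simp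
  have hD : 0 < 1 / q - 2 * (1 / (n : ℝ)) := by rw [e1]; positivity
  obtain ⟨a, ha⟩ : ∃ a : ℝ, a = 1 / (2 * t * pp) := ⟨_, rfl⟩
  have ha0 : 0 ≤ a := by rw [ha]; positivity
  have ha1 : a ≤ 1 := by
    rw [ha, div_le_one (by positivity)]
    nlinarith
  have hS' : S = n ^ 2 * a + 2 * n * ell := by rw [hS, ha]; ring
  obtain ⟨w, hw⟩ : ∃ w : ℝ, w = n * ell := ⟨_, rfl⟩
  have hn1 : (1 : ℝ) ≤ n := by linarith
  have hwn : (n : ℝ) ≤ w := by rw [hw]; nlinarith
  have hwe : (ell : ℝ) ≤ w := by rw [hw]; nlinarith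
  have hS0 : 0 ≤ S + n := by rw [hS']; positivity
  have hl0 : 0 ≤ lam := by rw [hlam]; positivity
  have hl1 : lam ≤ (S + n) * q + 4 * q ^ 2 * (n * a + 2 * ell + 1) := by
    have e2 : (S + n) * q + 4 * q ^ 2 * (n * a + 2 * ell + 1) = (S + n) * (q * (n + 4 * q) / n) := by
      rw [hS']
      field_simp
    rw [e2, hlam, e1, div_div_eq_mul_div, mul_div_assoc]
    refine mul_le_mul_of_nonneg_left ?_ hS0
    rw [div_le_div_iff₀ hd hn0]
    nlinarith [mul_nonneg (mul_nonneg hq0.le hq0.le) (sub_nonneg.2 hn')]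
  have hl2 : lam ≤ n ^ 2 * a * q + (3 * q + 16 * q ^ 2) * w := by
    have b1 : n * a + 2 * ell + 1 ≤ 4 * w := by nlinarith
    have b2 := mul_le_mul_of_nonneg_left b1 (by positivity : 0 ≤ 4 * q ^ 2)
    have b3 := mul_le_mul_of_nonneg_left hwn hq0.le
    have b4 : (S + n) * q = n ^ 2 * a * q + 2 * (q * w) + q * n := by rw [hS', hw]; ring
    linarith
  have hw0 : 0 ≤ w := by linarith
  refine ⟨by linarith, hl0, ?_, ?_⟩
  · have e3 : (n : ℝ) ^ 2 / (2 * t) * (q / pp) = n ^ 2 * a * q := by rw [ha]; field_simp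
    have b1 : 0 ≤ (3 + b * (3 * q + 16 * q ^ 2) + t) * w := by positivity
    rw [e3, mul_assoc _ (n : ℝ), ← hw]
    linarith
  · have e3 : (n : ℝ) ^ 2 / (2 * t) = n ^ 2 * a * (b * q + 1) := by rw [ha, h2]; field_simp
    have b1 := mul_le_mul_of_nonneg_right hl2 hb
    have b2 : 0 ≤ (3 * q + 16 * q ^ 2) * w := by positivity
    have b3 : (t : ℝ) ≤ t * w := le_mul_of_one_le_right (by linarith) (by linarith)
    rw [hpl, e3, mul_assoc _ (n : ℝ), ← hw, hS', mul_assoc 2, ← hw]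
    linarith

/-- A tenth root up to a factor two. -/
theorem exists_root10 {n : ℕ} (hn : 1 ≤ n) : ∃ u : ℕ, 1 ≤ u ∧ u ^ 10 ≤ n ∧ n ≤ 1024 * u ^ 10 := by
  have hex : ∃ u : ℕ, n < (u + 1) ^ 10 :=
    ⟨n, (Nat.lt_succ_self n).trans_le (Nat.le_self_pow (by norm_num) _)⟩
  have h1 := Nat.find_spec hex
  have h2 : Nat.find hex ≠ 0 := fun h => by
    rw [h] at h1
    omega
  obtain ⟨v, hv⟩ := Nat.exists_eq_succ_of_ne_zero h2
  have h3 := Nat.find_min hex (m := v) (by omega)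
  rw [hv] at h1
  refine ⟨v + 1, by omega, not_lt.1 h3, h1.le.trans ?_⟩
  calc (v + 1 + 1) ^ 10 ≤ (2 * (v + 1)) ^ 10 := Nat.pow_le_pow_left (by omega) _
    _ = 1024 * (v + 1) ^ 10 := by rw [mul_pow]; norm_num

/-- Powers of logarithms are small against the tenth root. -/
theorem log_small (C k : ℕ) {δ : ℝ} (hδ : 0 < δ) : ∃ n0 : ℕ, ∀ n u : ℕ, n0 ≤ n → n ≤ 1024 * u ^ 10 →
    (C : ℝ) ≤ δ * u ∧ ∀ κ : ℕ, κ ≤ C * n → (C : ℝ) * (Nat.log 2 κ : ℝ) ^ k ≤ δ * u := by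
  have h1 := (Real.isLittleO_pow_log_id_atTop (n := k)).bound
    (c := δ / ((C + 1) * 22 ^ k)) (by positivity)
  obtain ⟨x0, hx0⟩ := Filter.eventually_atTop.1 h1
  obtain ⟨u0, hu0⟩ := exists_nat_ge (max (max x0 (C / δ)) (1024 * C + 1))
  refine ⟨1024 * u0 ^ 10, fun n u hn hu => ?_⟩
  have h2 : u0 ≤ u := by
    by_contra h
    have := Nat.pow_lt_pow_left (not_le.1 h) (n := 10) (by norm_num)
    omega
  have h3 : (u0 : ℝ) ≤ u := by exact_mod_cast h2
  have h4 : x0 ≤ u := ((le_max_left _ _).trans (le_max_left _ _)).trans (hu0.trans h3)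
  have h5 : C / δ ≤ u := ((le_max_right _ _).trans (le_max_left _ _)).trans (hu0.trans h3)
  have h6 : 1024 * (C : ℝ) + 1 ≤ u := (le_max_right _ _).trans (hu0.trans h3)
  have h6' : 1024 * C + 1 ≤ u := by exact_mod_cast h6
  refine ⟨by rwa [div_le_iff₀' hδ] at h5, fun κ hκ => ?_⟩
  have hu1 : (1 : ℝ) ≤ u := by exact_mod_cast (by omega : 1 ≤ u)
  have h7 : κ ≤ u ^ 11 := by
    calc κ ≤ C * (1024 * u ^ 10) := hκ.trans (Nat.mul_le_mul_left _ hu)
      _ = (1024 * C) * u ^ 10 := by ring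
      _ ≤ u * u ^ 10 := Nat.mul_le_mul_right _ (by omega)
      _ = u ^ 11 := by ring
  have hlog : 0 ≤ Real.log u := Real.log_nonneg hu1
  have h8 : (Nat.log 2 κ : ℝ) ≤ 22 * Real.log u := by
    have a1 : 2 ^ Nat.log 2 (u ^ 11) ≤ u ^ 11 :=
      Nat.pow_log_le_self 2 (pow_ne_zero _ (by omega))
    have a2 : Nat.log 2 κ ≤ Nat.log 2 (u ^ 11) := Nat.log_mono_right h7
    have a3 : (2 : ℝ) ^ Nat.log 2 κ ≤ (u : ℝ) ^ 11 := by
      exact_mod_cast (Nat.pow_le_pow_right (by norm_num) a2).trans a1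
    have a4 := Real.log_le_log (by positivity) a3
    rw [Real.log_pow, Real.log_pow] at a4
    have a5 := Real.log_two_gt_d9
    have a6 : (0 : ℝ) ≤ Nat.log 2 κ := Nat.cast_nonneg _
    push_cast at a4
    nlinarith
  have h9 := hx0 u h4
  rw [Real.norm_of_nonneg (by positivity), id, Real.norm_of_nonneg (by positivity)] at h9
  calc (C : ℝ) * (Nat.log 2 κ : ℝ) ^ k ≤ (C + 1) * (22 * Real.log u) ^ k := by
        gcongr
        linarith
    _ = (C + 1) * 22 ^ k * Real.log u ^ k := by rw [mul_pow]; ring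
    _ ≤ (C + 1) * 22 ^ k * (δ / ((C + 1) * 22 ^ k) * u) := by gcongr
    _ = δ * u := by field_simp

end Pool.Agent.Lib.MP_88d29b_nt.G
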