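import Pool.Agent.Lib.MP_88d29b_nt.HRoot
import Pool.Agent.Lib.MP_88d29b_nt.HGhost
import Pool.Agent.Lib.MP_88d29b_nt.HTent

set_option autoImplicit false

noncomputable section

namespace Pool.Agent.Lib.MP_88d29b_nt.G

open Finset CongruenceSubgroup Matrix
open scoped MatrixGroups

variable {p : ℕ} [Fact p.Prime] {ι : Type} [Fintype ι] [DecidableEq ι]

lemma hcount_hpl_le {t : ℕ} (ht : 0 < t) (n : ℕ) : hpl t n ≤ (n : ℝ) ^ 2 / 2 := by
  unfold hpl
  have h1 : (1 : ℝ) ≤ t := by exact_mod_cast ht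
  have h2 : (n : ℝ) ^ 2 / (2 * t) ≤ (n : ℝ) ^ 2 / 2 :=
    div_le_div_of_nonneg_left (by positivity) (by norm_num) (by linarith)
  have h3 : (0 : ℝ) ≤ n := Nat.cast_nonneg n
  linarith

lemma hcount_pow {c : ℕ} (hc : 1 < c) : ∃ m : ℕ, c ≤ p ^ m ∧ p ^ m ≤ p * c := by
  have hp : 1 < p := (Fact.out : p.Prime).one_lt
  refine ⟨Nat.clog p c, Nat.le_pow_clog hp c, ?_⟩
  have h1 := Nat.pow_pred_clog_lt_self hp hc
  have h2 := Nat.clog_pos hp hc
  obtain ⟨k, hk⟩ : ∃ k, Nat.clog p c = k + 1 := ⟨Nat.clog p c - 1, by omega⟩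
  rw [hk] at h1 ⊢
  rw [pow_succ, mul_comm]
  exact Nat.mul_le_mul_left _ (by simpa using h1.le)

lemma hcount_exp {a x : ℝ} {n : ℕ} {u v : KP p} (h1 : (p : ℝ) ^ (-a) ≤ ‖u‖)
    (h2 : ‖u - v‖ ≤ (p : ℝ) ^ (-(2 * (n : ℝ) ^ 2))) (h3 : ‖v‖ ≤ (p : ℝ) ^ (-x))
    (hx : x ≤ 2 * (n : ℝ) ^ 2) : x ≤ a := by
  have hp := one_lt_p p
  have h4 : ‖u‖ ≤ (p : ℝ) ^ (-x) := by
    have e : u = (u - v) + v := by ring
    rw [e]
    refine (IsUltrametricDist.norm_add_le_max _ _).trans (max_le (h2.trans ?_) h3)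
    exact Real.rpow_le_rpow_of_exponent_le hp.le (by linarith)
  have h5 := (Real.rpow_le_rpow_left_iff hp).1 (h1.trans h4)
  linarith

lemma hcount_ghost {ph b pp : ℕ} (ht : 0 < Fintype.card ι) {Cq κ0 n ell D r0 : ℕ}
    {S : ℕ → Multiset (KP p)} {q : ℕ → ℕ} {U1 U2 : ℕ → ℝ}
    (F : Fam p ι ph b pp κ0 n ell D S q U1 U2) (hr : r0 ≤ n)
    (hq : ∀ κ, (p + 1) * q κ ≤ Fintype.card ι * κ + Cq) {y y' : ℕ} (h : κ0 + ph * y ≤ D)
    (h2 : 2 ≤ κ0 + ph * y) (hy : y' ≡ y [MOD p ^ r0]) {a : ℝ}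
    (ha : (p : ℝ) ^ (-(hpl (Fintype.card ι) n + a)) ≤ ‖F.f.eval (F.w y')‖) :
    (r0 : ℝ) * (min ((n : ℝ) - (Fintype.card ι : ℝ) * (κ0 + ph * y : ℕ) / (p + 1))
      ((p : ℝ) * (Fintype.card ι : ℝ) * (κ0 + ph * y : ℕ) / (p + 1) - n) -
        (Cq + Fintype.card ι * (5 * r0 + 1))) ≤ a := by
  obtain ⟨AW, hW, hU⟩ := F.cls y h h2
  have hg := ghost_bound ht (n := n) (r := r0) h (F.A y') (F.int y') (blk h (F.A y)) AW
    (fun i j => F.int y _ _) (fun i j => F.lip y' y r0 hy _ _) hW hU.1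
  have hqr : ((p : ℝ) + 1) * q (κ0 + ph * y) ≤
      (Fintype.card ι : ℝ) * (κ0 + ph * y : ℕ) + Cq := by exact_mod_cast hq (κ0 + ph * y)
  generalize q (κ0 + ph * y) = qq at hg hqr
  generalize κ0 + ph * y = κ at hg hqr
  have hp0 := p_pos p
  have hp1 : (0 : ℝ) < (p : ℝ) + 1 := by linarith
  have hq0 : (0 : ℝ) ≤ qq := Nat.cast_nonneg _
  have hC0 : (0 : ℝ) ≤ Cq := Nat.cast_nonneg _
  have hr0 : (0 : ℝ) ≤ r0 := Nat.cast_nonneg _
  have hn0 : (0 : ℝ) ≤ n := Nat.cast_nonneg _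
  have hrn : (r0 : ℝ) ≤ n := by exact_mod_cast hr
  have hq1 : (qq : ℝ) ≤ (Fintype.card ι : ℝ) * κ / (p + 1) + Cq := by
    have : (qq : ℝ) - Cq ≤ (Fintype.card ι : ℝ) * κ / (p + 1) := by
      rw [le_div_iff₀ hp1]
      nlinarith
    linarith
  have e1 : (p : ℝ) * (Fintype.card ι : ℝ) * κ / (p + 1) =
      (Fintype.card ι : ℝ) * κ - (Fintype.card ι : ℝ) * κ / (p + 1) := by
    field_simp
    ring
  have hmin : min ((n : ℝ) - (Fintype.card ι : ℝ) * κ / (p + 1))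
      ((p : ℝ) * (Fintype.card ι : ℝ) * κ / (p + 1) - n) - Cq ≤
      min ((n : ℝ) - qq) ((Fintype.card ι : ℝ) * κ - n - qq) := by
    refine le_min ?_ ?_
    · have := min_le_left ((n : ℝ) - (Fintype.card ι : ℝ) * κ / (p + 1))
        ((p : ℝ) * (Fintype.card ι : ℝ) * κ / (p + 1) - n)
      linarith
    · have := min_le_right ((n : ℝ) - (Fintype.card ι : ℝ) * κ / (p + 1))
        ((p : ℝ) * (Fintype.card ι : ℝ) * κ / (p + 1) - n)
      linarith
  have hmn : min ((n : ℝ) - qq) ((Fintype.card ι : ℝ) * κ - n - qq) ≤ n :=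
    (min_le_left _ _).trans (by linarith)
  have hB : (0 : ℝ) ≤ (Fintype.card ι : ℝ) * (5 * r0 + 1) := by positivity
  have hh := hcount_hpl_le ht n
  generalize min ((n : ℝ) - qq) ((Fintype.card ι : ℝ) * κ - n - qq) = mu at hg hmin hmn
  have hx : hpl (Fintype.card ι) n + r0 * (mu - Fintype.card ι * (5 * r0 + 1)) ≤
      2 * (n : ℝ) ^ 2 := by
    have t1 : (r0 : ℝ) * (mu - Fintype.card ι * (5 * r0 + 1)) ≤ r0 * n :=
      mul_le_mul_of_nonneg_left (by linarith) hr0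
    have t2 : (r0 : ℝ) * n ≤ n * n := mul_le_mul_of_nonneg_right hrn hn0
    have t4 := sq_nonneg (n : ℝ)
    have t5 : (n : ℝ) * n = (n : ℝ) ^ 2 := by ring
    linarith
  have key := hcount_exp ha (F.cong y') hg hx
  have t3 := mul_le_mul_of_nonneg_left hmin hr0
  linarith

lemma hcount_supp {p t n κ : ℕ} (hp : 0 < p) (hn : 2 * t ≤ n)
    (h : 0 < min ((n : ℝ) - (t : ℝ) * κ / (p + 1)) ((p : ℝ) * (t : ℝ) * κ / (p + 1) - n)) :
    t * κ < (p + 1) * n ∧ 2 ≤ κ := by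
  have hp0 : (0 : ℝ) < p := by exact_mod_cast hp
  have hp1 : (0 : ℝ) < (p : ℝ) + 1 := by linarith
  have h1 := lt_of_lt_of_le h (min_le_left _ _)
  have h2 := lt_of_lt_of_le h (min_le_right _ _)
  rw [sub_pos, div_lt_iff₀ hp1] at h1
  rw [sub_pos, lt_div_iff₀ hp1] at h2
  have h3 : t * κ < n * (p + 1) := by exact_mod_cast h1
  have h4 : n * (p + 1) < p * t * κ := by exact_mod_cast h2
  refine ⟨by rwa [mul_comm n] at h3, ?_⟩
  by_contra hc
  have h5 : κ ≤ 1 := by omega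
  have h6 : p * t * κ ≤ p * t * 1 := Nat.mul_le_mul_left _ h5
  have h7 : 2 * t * (p + 1) ≤ n * (p + 1) := Nat.mul_le_mul_right _ hn
  nlinarith

/-- Take `Y = p ^ m` with `C' n ≤ Y ≤ p C' n`, `C' = max Cw (p + 1)`, and `N`, `G` from `root_count`
(`ρ = 1 / (p - 1)`, `ρ' = 1 / n`, `L = n`); `E y = G y + 2 N y - hpl`. `E y ≥ 0` by `cf_hodge`,
`F.cong` and `hpl ≤ 2 n ^ 2`. `∑ E ≤ Y (S + lam b - hpl) + 2 lam` (`num_lambda`). If the tent function
`g y` of `tent_sum` is positive then `2 ≤ κ ≤ D`, and `ghost_bound` for `A y'`, `A0 = blk (A y)`,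
`y' ≡ y` modulo `p ^ r0` gives `r0 (g y - Cq - t (5 r0 + 1)) ≤ E y + r0 N y`
(`hpl + r0 n ≤ 2 n ^ 2`). There are at most `(p + 1) n` such `y`, and none of them is old. So
`∑_old N ≤ lam - ∑ g + (p + 1) n (Cq + t (5 r0 + 1)) + ∑ E / r0`. -/
theorem count_main {ph b pp : ℕ} (P : Par p ph b pp) (ht : 0 < Fintype.card ι) (Cw Cq : ℕ) :
    ∃ (C : ℝ) (n0 : ℕ), ∀ (κ0 n ell D r0 : ℕ) (S : ℕ → Multiset (KP p)) (q : ℕ → ℕ)
      (U1 U2 : ℕ → ℝ) (F : Fam p ι ph b pp κ0 n ell D S q U1 U2), κ0 < ph → n0 ≤ n → 1 ≤ ell →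
      n ^ 2 ≤ D → 1 ≤ r0 → r0 ≤ n → (∀ κ, (p + 1) * q κ ≤ Fintype.card ι * κ + Cq) →
      ∃ N E : ℕ → ℝ, (∀ y, 0 ≤ N y) ∧ (∀ y, 0 ≤ E y) ∧
        ∑ y ∈ range (Cw * n), E y ≤ C * n ^ 2 * ell ∧
        ∑ y ∈ (range (Cw * n)).filter (fun y => (p + 1) * n ≤ Fintype.card ι * (κ0 + ph * y)), N y ≤
          C * (n * ell + n * r0 + n ^ 2 * ell / r0) ∧
        ∀ y r : ℕ, ∃ y', y' ≡ y [MOD p ^ r] ∧
          (p : ℝ) ^ (-(hpl (Fintype.card ι) n + E y + r * N y)) ≤ ‖F.f.eval (F.w y')‖ := by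
  classical
  have hp2 : 2 ≤ p := (Fact.out : p.Prime).two_le
  have hp2r : (2 : ℝ) ≤ p := by exact_mod_cast hp2
  obtain ⟨C1, n1, hlam⟩ := num_lambda hp2 P ht
  obtain ⟨C2, htent⟩ := tent_sum hp2 P ht
  set t := Fintype.card ι with htdef
  have htr : (1 : ℝ) ≤ t := by exact_mod_cast ht
  set a : ℝ := 1 / (2 * t) * (((p : ℝ) - 1) / pp) with hadef
  have ha0 : 0 ≤ a := by
    have : (0 : ℝ) ≤ (p : ℝ) - 1 := by linarith
    positivity
  set CE : ℝ := (p : ℝ) * ((Cw + p + 1 : ℕ) : ℝ) * |C1| + 2 * (a + |C1|) with hCE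
  have hCE0 : 0 ≤ CE := by positivity
  set CB : ℝ := ((p : ℝ) + 1) * (Cq + 6 * t) with hCB
  have hCB0 : 0 ≤ CB := by positivity
  have hA1 := abs_nonneg C1
  have hA2 := abs_nonneg C2
  refine ⟨CE + (|C1| + 2 * |C2|) + CB, n1 + 2 * t + p + 1,
    fun κ0 n ell D r0 S q U1 U2 F hκ hn hell hD hr1 hrn hq => ?_⟩
  have hn1 : 1 ≤ n := by omega
  have hnr : (1 : ℝ) ≤ n := by exact_mod_cast hn1
  have hellr : (1 : ℝ) ≤ ell := by exact_mod_cast hell
  have hr1r : (1 : ℝ) ≤ r0 := by exact_mod_cast hr1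
  obtain ⟨m, hm1, hm2⟩ := hcount_pow (p := p) (c := (Cw + p + 1) * n)
    (lt_of_lt_of_le (by omega) (Nat.le_mul_of_pos_right _ hn1))
  obtain ⟨l1, l2, l3, l4⟩ := hlam n ell (by omega) hell _ _ rfl rfl
  have hb1 : 1 / ((p : ℝ) - 1) ≤ b := by
    have hb : (1 : ℝ) ≤ b := by exact_mod_cast P.b_pos
    refine le_trans ?_ hb
    rw [div_le_one (by linarith)]
    linarith
  obtain ⟨N, G, s1, s2, s3⟩ := root_count F.f F.w b F.w_zero F.w_dist
    (show (0 : ℝ) < 1 / (n : ℝ) by positivity) l1 hb1 F.halo F.touch m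
  rw [add_sub_cancel_right] at s2
  generalize ((n : ℝ) ^ 2 / (2 * t * pp) + 2 * n * ell + n) /
    (1 / ((p : ℝ) - 1) - 2 * (1 / (n : ℝ))) = lam at *
  generalize (n : ℝ) ^ 2 / (2 * t * pp) + 2 * n * ell = S0 at *
  have s4 : ∀ y r : ℕ, ∃ y', y' ≡ y [MOD p ^ r] ∧
      (p : ℝ) ^ (-(hpl t n + (G y + 2 * N y - hpl t n) + r * (N y : ℝ))) ≤ ‖F.f.eval (F.w y')‖ := by
    intro y r
    obtain ⟨y', h1, h2⟩ := s3 y r
    refine ⟨y', h1, ?_⟩
    have e : hpl t n + (G y + 2 * N y - hpl t n) + r * (N y : ℝ) = G y + ((r : ℝ) + 2) * N y := by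
      ring
    rw [e]
    exact h2
  have hE0 : ∀ y, 0 ≤ G y + 2 * N y - hpl t n := by
    intro y
    obtain ⟨y', -, h2⟩ := s4 y 0
    have hh := hcount_hpl_le ht n
    have := hcount_exp h2 (F.cong y') (cf_hodge ht (F.A y') (F.int y') n)
      (by linarith [sq_nonneg (n : ℝ)])
    simp only [Nat.cast_zero, zero_mul, add_zero] at this
    linarith
  have hne : (n : ℝ) * ell ≤ (n : ℝ) ^ 2 * ell := by
    have : (n : ℝ) ≤ (n : ℝ) ^ 2 := le_self_pow₀ hnr (by norm_num)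
    exact mul_le_mul_of_nonneg_right this (by linarith)
  have hne0 : (0 : ℝ) ≤ (n : ℝ) * ell := by positivity
  have l3' : lam ≤ a * (n : ℝ) ^ 2 + |C1| * (n * ell) := by
    have e : (n : ℝ) ^ 2 / (2 * t) * (((p : ℝ) - 1) / pp) = a * (n : ℝ) ^ 2 := by
      rw [hadef]
      ring
    have := mul_le_mul_of_nonneg_right (le_abs_self C1) hne0
    rw [e] at l3
    linarith
  have l4' : S0 + lam * b - hpl t n ≤ |C1| * (n * ell) := by
    have := mul_le_mul_of_nonneg_right (le_abs_self C1) hne0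
    linarith
  have hEsum : ∑ y ∈ range (p ^ m), (G y + 2 * N y - hpl t n) ≤ CE * ((n : ℝ) ^ 2 * ell) := by
    rw [Finset.sum_sub_distrib, Finset.sum_add_distrib, ← Finset.mul_sum, Finset.sum_const,
      Finset.card_range, nsmul_eq_mul]
    have hY : (p : ℝ) ^ m ≤ (p : ℝ) * (((Cw + p + 1 : ℕ) : ℝ) * n) := by exact_mod_cast hm2
    have hY0 : (0 : ℝ) ≤ (p : ℝ) ^ m := by positivity
    have t1 : (p : ℝ) ^ m * (S0 + lam * b - hpl t n) ≤ (p : ℝ) ^ m * (|C1| * (n * ell)) :=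
      mul_le_mul_of_nonneg_left l4' hY0
    have t2 : (p : ℝ) ^ m * (|C1| * (n * ell)) ≤
        (p : ℝ) * (((Cw + p + 1 : ℕ) : ℝ) * n) * (|C1| * (n * ell)) :=
      mul_le_mul_of_nonneg_right hY (by positivity)
    have t3 : a * (n : ℝ) ^ 2 ≤ a * ((n : ℝ) ^ 2 * ell) :=
      mul_le_mul_of_nonneg_left (le_mul_of_one_le_right (by positivity) hellr) ha0
    have t4 : |C1| * (n * ell) ≤ |C1| * ((n : ℝ) ^ 2 * ell) := mul_le_mul_of_nonneg_left hne hA1
    have e1 : ((p ^ m : ℕ) : ℝ) = (p : ℝ) ^ m := by push_cast; rfl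
    have e2 : CE * ((n : ℝ) ^ 2 * ell) = (p : ℝ) * (((Cw + p + 1 : ℕ) : ℝ) * n) *
        (|C1| * (n * ell)) + 2 * (a * ((n : ℝ) ^ 2 * ell) + |C1| * ((n : ℝ) ^ 2 * ell)) := by
      rw [hCE]
      ring
    rw [e1, e2]
    linarith
  have hsub : range (Cw * n) ⊆ range (p ^ m) := by
    refine Finset.range_subset_range.2 (le_trans ?_ hm1)
    exact Nat.mul_le_mul_right _ (by omega)
  have hpn : (p + 1) * n ≤ p ^ m := le_trans (Nat.mul_le_mul_right _ (by omega)) hm1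
  refine ⟨fun y => (N y : ℝ), fun y => G y + 2 * N y - hpl t n, fun y => Nat.cast_nonneg _, hE0,
    ?_, ?_, s4⟩
  · refine (Finset.sum_le_sum_of_subset_of_nonneg hsub (fun y _ _ => hE0 y)).trans
      (hEsum.trans ?_)
    have h0 : (0 : ℝ) ≤ (n : ℝ) ^ 2 * ell := by positivity
    have := mul_nonneg (show 0 ≤ (|C1| + 2 * |C2|) + CB by positivity) h0
    linarith
  · have hr0 : (0 : ℝ) < r0 := by linarith
    set B : ℝ := Cq + t * (5 * r0 + 1) with hB
    have hB0 : 0 ≤ B := by positivity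
    have hpt : ∀ y, (if (p + 1) * n ≤ t * (κ0 + ph * y) then (N y : ℝ) else 0) ≤
        N y - max 0 (min ((n : ℝ) - t * (κ0 + ph * y : ℕ) / (p + 1))
          ((p : ℝ) * t * (κ0 + ph * y : ℕ) / (p + 1) - n)) +
          (if y < (p + 1) * n then B else 0) + (G y + 2 * N y - hpl t n) / r0 := by
      intro y
      have hN0 : (0 : ℝ) ≤ N y := Nat.cast_nonneg _
      have hEr : 0 ≤ (G y + 2 * N y - hpl t n) / r0 := div_nonneg (hE0 y) hr0.le
      rcases le_or_gt (min ((n : ℝ) - t * (κ0 + ph * y : ℕ) / (p + 1))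
          ((p : ℝ) * t * (κ0 + ph * y : ℕ) / (p + 1) - n)) 0 with h | h
      · rw [max_eq_left h]
        split_ifs <;> linarith
      · obtain ⟨k1, k2⟩ := hcount_supp (by omega) (by omega) h
        have k3 : κ0 + ph * y ≤ t * (κ0 + ph * y) := Nat.le_mul_of_pos_left _ ht
        have k4 : y ≤ ph * y := Nat.le_mul_of_pos_left _ P.ph_pos
        have k5 : (p + 1) * n ≤ n ^ 2 := by
          rw [pow_two]
          exact Nat.mul_le_mul_right _ (by omega)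
        obtain ⟨y', y1, y2⟩ := s4 y r0
        rw [add_assoc] at y2
        have k6 := hcount_ghost ht F hrn hq (by omega) k2 y1 y2
        rw [max_eq_right h.le, if_neg (by omega), if_pos (by omega)]
        have k7 : min ((n : ℝ) - t * (κ0 + ph * y : ℕ) / (p + 1))
            ((p : ℝ) * t * (κ0 + ph * y : ℕ) / (p + 1) - n) - B - N y ≤
            (G y + 2 * N y - hpl t n) / r0 := by
          rw [le_div_iff₀ hr0]
          linarith
        linarith
    have h1 : ∑ y ∈ (range (Cw * n)).filter (fun y => (p + 1) * n ≤ t * (κ0 + ph * y)), (N y : ℝ) ≤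
        ∑ y ∈ range (p ^ m), (if (p + 1) * n ≤ t * (κ0 + ph * y) then (N y : ℝ) else 0) := by
      rw [← Finset.sum_filter]
      exact Finset.sum_le_sum_of_subset_of_nonneg (Finset.filter_subset_filter _ hsub)
        (fun y _ _ => Nat.cast_nonneg _)
    have h2 := Finset.sum_le_sum (s := range (p ^ m)) (fun y _ => hpt y)
    rw [Finset.sum_add_distrib, Finset.sum_add_distrib, Finset.sum_sub_distrib,
      ← Finset.sum_div] at h2
    have h3 : ∑ y ∈ range (p ^ m), (if y < (p + 1) * n then B else 0) ≤ CB * (n * r0) := by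
      rw [← Finset.sum_filter, Finset.sum_const, nsmul_eq_mul]
      have c1 : ((range (p ^ m)).filter (fun y => y < (p + 1) * n)).card ≤ (p + 1) * n := by
        refine le_trans (Finset.card_le_card (t := range ((p + 1) * n)) (fun y hy => ?_)) ?_
        · exact Finset.mem_range.2 (Finset.mem_filter.1 hy).2
        · rw [Finset.card_range]
      have c2 : (((range (p ^ m)).filter (fun y => y < (p + 1) * n)).card : ℝ) ≤
          ((p : ℝ) + 1) * n := by exact_mod_cast c1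
      have c3 : B ≤ (Cq + 6 * t) * r0 := by
        have hC0 : (Cq : ℝ) ≤ Cq * r0 := le_mul_of_one_le_right (Nat.cast_nonneg _) hr1r
        have hC1 : (t : ℝ) ≤ t * r0 := le_mul_of_one_le_right (Nat.cast_nonneg _) hr1r
        rw [hB]
        linarith
      calc _ ≤ ((p : ℝ) + 1) * n * ((Cq + 6 * t) * r0) :=
            mul_le_mul c2 c3 hB0 (by positivity)
        _ = CB * (n * r0) := by
            rw [hCB]
            ring
    have h4 := htent κ0 n (p ^ m) hκ hpn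
    have e : (n : ℝ) ^ 2 / (2 * t) * (((p : ℝ) - 1) / pp) = a * (n : ℝ) ^ 2 := by
      rw [hadef]
      ring
    rw [e] at h4
    have h5 : C2 * (n + 1) ≤ 2 * |C2| * (n * ell) := by
      have u1 : C2 * (n + 1) ≤ |C2| * (n + 1) :=
        mul_le_mul_of_nonneg_right (le_abs_self C2) (by positivity)
      have u2 : (n : ℝ) + 1 ≤ 2 * (n * ell) := by
        have : (n : ℝ) ≤ n * ell := le_mul_of_one_le_right (Nat.cast_nonneg _) hellr
        linarith
      have u3 := mul_le_mul_of_nonneg_left u2 hA2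
      linarith
    have h6 : (∑ y ∈ range (p ^ m), (G y + 2 * N y - hpl t n)) / r0 ≤
        CE * ((n : ℝ) ^ 2 * ell / r0) := by
      rw [← mul_div_assoc]
      exact div_le_div_of_nonneg_right hEsum hr0.le
    have z2 : (0 : ℝ) ≤ (n : ℝ) * r0 := by positivity
    have z3 : (0 : ℝ) ≤ (n : ℝ) ^ 2 * ell / r0 := by positivity
    generalize (n : ℝ) ^ 2 * ell / r0 = x3 at *
    generalize (n : ℝ) * r0 = x2 at *
    generalize (n : ℝ) * ell = x1 at *
    have w1 := mul_nonneg hCE0 hne0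
    have w2 := mul_nonneg hCE0 z2
    have w3 := mul_nonneg hCB0 hne0
    have w4 := mul_nonneg hCB0 z3
    have w5 := mul_nonneg hA1 z2
    have w6 := mul_nonneg hA1 z3
    have w7 := mul_nonneg hA2 z2
    have w8 := mul_nonneg hA2 z3
    have e3 : (CE + (|C1| + 2 * |C2|) + CB) * (x1 + x2 + x3) =
        CE * x1 + CE * x2 + CE * x3 + |C1| * x1 + |C1| * x2 + |C1| * x3 +
          2 * |C2| * x1 + 2 * (|C2| * x2) + 2 * (|C2| * x3) + CB * x1 + CB * x2 + CB * x3 := by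
      ring
    rw [e3]
    linarith

end Pool.Agent.Lib.MP_88d29b_nt.G
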