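import Pool.Agent.Lib.MP_88d29b_nt.HMinor

set_option autoImplicit false

noncomputable section

namespace Pool.Agent.Lib.MP_88d29b_nt.G

open Finset CongruenceSubgroup Matrix
open scoped MatrixGroups

variable {K V : Type} [Field K] [AddCommGroup V] [Module K V] [Module.Finite K V]

theorem heig_basis {d : ℕ} (v : Fin d → V) (hv : LinearIndependent K v) :
    ∃ (m : ℕ) (b : Module.Basis (Fin d ⊕ Fin m) K V), ∀ j, b (Sum.inl j) = v j := by
  obtain ⟨W, hW⟩ := Submodule.exists_isCompl (Submodule.span K (Set.range v))
  refine ⟨Module.finrank K W, ((Module.Basis.span hv).prod (Module.finBasis K W)).map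
    (Submodule.prodEquivOfIsCompl _ _ hW), fun j => ?_⟩
  simp [Module.Basis.prod_apply]

omit [Module.Finite K V] in
theorem heig_block {d m : ℕ} (b : Module.Basis (Fin d ⊕ Fin m) K V) (T : Module.End K V)
    (μ : Fin d → K) (h : ∀ j, T (b (Sum.inl j)) = μ j • b (Sum.inl j)) :
    LinearMap.toMatrix b b T = fromBlocks (diagonal μ) (LinearMap.toMatrix b b T).toBlocks₁₂ 0
      (LinearMap.toMatrix b b T).toBlocks₂₂ := by
  ext (i | i) (j | j)
  · simp only [LinearMap.toMatrix_apply, h, fromBlocks_apply₁₁, diagonal_apply, map_smul,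
      Module.Basis.repr_self, Finsupp.smul_apply, Finsupp.single_apply, Sum.inl.injEq,
      smul_eq_mul]
    by_cases hij : i = j
    · simp [hij]
    · simp [hij, Ne.symm hij]
  · rfl
  · simp [LinearMap.toMatrix_apply, h]
  · rfl

/-- Extend `v` to a basis: the matrix of `T` is block triangular with diagonal upper left block, so
`∏ (X - μ j)` divides the characteristic polynomial. -/
theorem eig_le_roots (T : Module.End K V) {d : ℕ} (v : Fin d → V) (hv : LinearIndependent K v)
    (μ : Fin d → K) (h : ∀ j, T (v j) = μ j • v j) : univ.val.map μ ≤ T.charpoly.roots := by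
  obtain ⟨m, b, hb⟩ := heig_basis v hv
  have hm := heig_block b T μ (fun j => by rw [hb, h])
  rw [← Polynomial.roots_multiset_prod_X_sub_C (univ.val.map μ)]
  refine Polynomial.roots.le_of_dvd T.charpoly_monic.ne_zero ?_
  rw [← LinearMap.charpoly_toMatrix T b, hm, charpoly_fromBlocks_zero₂₁, charpoly_diagonal,
    Multiset.map_map]
  exact Dvd.intro _ rfl

/-- Extend `v` to a basis. The trace of `T n * T n'` is `∑ μ j n μ j n'` plus the trace of the product
of the lower right blocks, `∑_(a, b) B n a b * B n' b a`, and there are at most `c ^ 2` pairs. -/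
theorem trace_gram {N : Type} [Fintype N] (T : N → Module.End K V) {d c : ℕ} (v : Fin d → V)
    (hv : LinearIndependent K v) (hc : Module.finrank K V ≤ d + c) (μ : Fin d → N → K)
    (h : ∀ n j, T n (v j) = μ j n • v j) :
    (Matrix.of fun n n' => LinearMap.trace K V (T n * T n') - ∑ j, μ j n * μ j n').rank ≤ c ^ 2 := by
  obtain ⟨m, b, hb⟩ := heig_basis v hv
  have hm := fun n => heig_block b (T n) (fun j => μ j n) (fun j => by rw [hb, h])
  have hmc : m ≤ c := by
    have := Module.finrank_eq_card_basis b
    simp only [Fintype.card_sum, Fintype.card_fin] at this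
    omega
  have e : (Matrix.of fun n n' => LinearMap.trace K V (T n * T n') - ∑ j, μ j n * μ j n') =
      (Matrix.of fun n (x : Fin m × Fin m) => (LinearMap.toMatrix b b (T n)).toBlocks₂₂ x.1 x.2) *
        Matrix.of fun (x : Fin m × Fin m) n' =>
          (LinearMap.toMatrix b b (T n')).toBlocks₂₂ x.2 x.1 := by
    ext n n'
    rw [Matrix.of_apply, LinearMap.trace_eq_matrix_trace K b, LinearMap.toMatrix_mul,
      Matrix.mul_apply, Fintype.sum_prod_type]
    simp only [Matrix.of_apply]
    have h1 := hm n
    have h2 := hm n'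
    generalize (LinearMap.toMatrix b b (T n)).toBlocks₂₂ = B at h1 ⊢
    generalize (LinearMap.toMatrix b b (T n')).toBlocks₂₂ = B' at h2 ⊢
    generalize (LinearMap.toMatrix b b (T n)).toBlocks₁₂ = A at h1
    generalize (LinearMap.toMatrix b b (T n')).toBlocks₁₂ = A' at h2
    rw [h1, h2, fromBlocks_multiply]
    simp [Matrix.trace, Matrix.mul_apply, Fintype.sum_sum_type]
  rw [e]
  refine (rank_mul_le_left _ _).trans ((rank_le_card_width _).trans ?_)
  simp only [Fintype.card_prod, Fintype.card_fin, sq]
  exact Nat.mul_le_mul hmc hmc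

end Pool.Agent.Lib.MP_88d29b_nt.G
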