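import Pool.Agent.Lib.MP_88d29b_nt.GTl

/-!
The matrix model: definitions.
-/

set_option autoImplicit false

noncomputable section

namespace Pool.Agent.Lib.MP_88d29b_nt.G.M3

open Finset CongruenceSubgroup
open scoped MatrixGroups

/-- The algebraic closure of `ℚ_p`. -/
abbrev Kp (p : ℕ) [Fact p.Prime] : Type := PadicAlgCl p

/-- A free basis of `Γ_0(N) / ± 1` that contains `T`. -/
structure FB (N : ℕ) (ι : Type) where
  gen : Option ι → Gamma0 N
  gen_none : ((gen none : Gamma0 N) : SL(2, ℤ)) = ModularGroup.T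
  span : ∀ g : Gamma0 N, ∃ w : FreeGroup (Option ι),
    ((FreeGroup.lift gen w : Gamma0 N) : SL(2, ℤ)) = g ∨
      ((FreeGroup.lift gen w : Gamma0 N) : SL(2, ℤ)) = -g
  free : ∀ w : FreeGroup (Option ι), ((FreeGroup.lift gen w : Gamma0 N) : SL(2, ℤ)) = 1 ∨
    ((FreeGroup.lift gen w : Gamma0 N) : SL(2, ℤ)) = -1 → w = 1

/-- The generators as integer matrices. -/
def FB.mat {N : ℕ} {ι : Type} (fb : FB N ι) (k : Option ι) : Mat :=
  ((fb.gen k : Gamma0 N) : SL(2, ℤ))

/-- The monoid of matrices with `p ∣ c`, `p ∤ d` and nonzero determinant. -/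
def Sg (p : ℕ) [hp : Fact p.Prime] : Submonoid Mat where
  carrier := {g | (p : ℤ) ∣ g 1 0 ∧ ¬ (p : ℤ) ∣ g 1 1 ∧ g.det ≠ 0}
  one_mem' := by
    refine ⟨by simp, ?_, by simp⟩
    have := hp.out.one_lt
    simp only [Matrix.one_apply_eq]
    intro h
    have := Int.eq_one_of_dvd_one (by omega) h
    omega
  mul_mem' := by
    rintro g g' ⟨h1, h2, h3⟩ ⟨h4, h5, h6⟩
    have hq : Prime (p : ℤ) := Nat.prime_iff_prime_int.mp hp.out
    refine ⟨?_, ?_, by rw [Matrix.det_mul]; exact mul_ne_zero h3 h6⟩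
    · simp only [Matrix.mul_apply, Fin.sum_univ_two]
      exact dvd_add (h1.mul_right _) (h4.mul_left _)
    · simp only [Matrix.mul_apply, Fin.sum_univ_two]
      intro h
      rcases hq.dvd_or_dvd ((dvd_add_right (h1.mul_right _)).mp h) with h | h
      exacts [h2 h, h5 h]

/-- Matrices of type `U`: `p ∣ a`, `p ∣ c`, `p ∤ d`. -/
def UT (p : ℕ) [Fact p.Prime] (g : Mat) : Prop := g ∈ Sg p ∧ (p : ℤ) ∣ g 0 0

/-- The representatives `(p 0; p M a 1)` of the operator `U`. -/
def uRep (p M : ℕ) (a : Fin p) : Mat := !![(p : ℤ), 0; (p : ℤ) * M * (a : ℕ), 1]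

/-- The Atkin-Lehner element `(p α, β; p M, p)` with `α p - β M = 1`. -/
def wMat (p M : ℕ) : Mat := !![(p : ℤ) * Nat.gcdA p M, -Nat.gcdB p M; (p : ℤ) * M, (p : ℤ)]

/-- The representative of the operator `W`. -/
def wRep (p M : ℕ) (_ : Unit) : Mat := wMat p M

/-- The representatives of the operator `B = U + W`. -/
def bRep (p M : ℕ) : Option (Fin p) → Mat
  | none => wMat p M
  | some a => uRep p M a

/-- The loss function `m - log_p (m + 1)`. -/
def fl (p m : ℕ) : ℤ := (m : ℤ) - Nat.log p (m + 1)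

section Entries

variable {K : Type} [Field K]

/-- The binomial coefficient `s (s - 1) ⋯ (s - j + 1) / j !`. -/
def bin (s : K) (j : ℕ) : K := (∏ i ∈ range j, (s - i)) / (j.factorial : K)

/-- The coefficient of `t ^ m` in `(1 + (c / d) t) ^ s ((a t + b) / (c t + d)) ^ n`. -/
def ent (s : K) (g : Mat) (m n : ℕ) : K :=
  (∑ j ∈ range (m + 1), bin (s - n) j * ((g 1 0 : K) / (g 1 1 : K)) ^ j *
    ((n.choose (m - j) : K) * (g 0 0 : K) ^ (m - j) * (g 0 1 : K) ^ (n - (m - j)))) /
    (g 1 1 : K) ^ n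

/-- The matrix of `t ↦ i + q t`. -/
def uu (q : ℕ) (i : ℤ) : Mat := !![(q : ℤ), i; 0, 1]

/-- The class of `(a i + b) / (c i + d)` modulo `q`. -/
def disc (q : ℕ) (g : Mat) (i : ℤ) : ZMod q :=
  ((g 0 0 * i + g 0 1 : ℤ) : ZMod q) * ((g 1 0 * i + g 1 1 : ℤ) : ZMod q)⁻¹

/-- The matrix `g` in the local coordinates of the disc `i` modulo `q2` and of its image modulo
`q1`: `uu q1 j * loc q1 q2 g i = g * uu q2 i`. -/
def loc (q1 q2 : ℕ) (g : Mat) (i : ZMod q2) : Mat :=
  !![(g 0 0 - (disc q1 g i.val).val * g 1 0) * q2 / q1,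
      (g 0 0 * i.val + g 0 1 - (disc q1 g i.val).val * (g 1 0 * i.val + g 1 1)) / q1;
    g 1 0 * q2, g 1 0 * i.val + g 1 1]

/-- Index set: a disc modulo `q` and a degree at most `L`. -/
abbrev Ix (q L : ℕ) : Type := ZMod q × Fin (L + 1)

/-- The inclusion of index sets. -/
def Ix.up {q L L' : ℕ} (h : L + 1 ≤ L' + 1) (x : Ix q L) : Ix q L' := (x.1, Fin.castLE h x.2)

/-- The matrix of `g` at level `q` in the weight `(u, s)`, cut at degree `L`. -/
def actM (q L : ℕ) (u : ℤ → K) (s : K) (g : Mat) : Matrix (Ix q L) (Ix q L) K := fun x y =>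
  if y.1 = disc q g x.1.val then u (loc q q g x.1 1 1) * ent s (loc q q g x.1) x.2 y.2 else 0

/-- The matrix of `g` at level one in the integer weight `κ`, cut at degree `L`. -/
def actZ (K : Type) [Field K] (L κ : ℕ) (g : Mat) : Matrix (Fin (L + 1)) (Fin (L + 1)) K :=
  fun m n => (g 1 1 : K) ^ κ * ent (κ : K) g m n

/-- The matrix of `g` from locally polynomial functions of level `q1` to level `q2`, in the
classical weight `κ` with character `ψ`. -/
def actCl (q1 q2 κ : ℕ) (ψ : ℤ → K) (g : Mat) : Matrix (Ix q2 κ) (Ix q1 κ) K := fun x y =>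
  if y.1 = disc q1 g x.1.val then
    ψ (loc q1 q2 g x.1 1 1) * (actMat κ (loc q1 q2 g x.1) x.2 y.2 : K) else 0

/-- The matrix of `g` on polynomials of degree at most `κ`. -/
def actV (K : Type) [Field K] (κ : ℕ) (g : Mat) : Matrix (Fin (κ + 1)) (Fin (κ + 1)) K :=
  (actMat κ g).map (Int.cast : ℤ → K)

/-- The polynomial `S` with `S (0) = 0` and `S (t + 1) - S (t) = t ^ l`. -/
def sigP (K : Type) [Field K] (l : ℕ) : Polynomial K :=
  ∑ k ∈ range (l + 1), Polynomial.C ((Nat.stirlingSecond l k : K) / ((k : K) + 1)) *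
    descPochhammer K (k + 1)

/-- The matrix of the summation operator. -/
def sig (K : Type) [Field K] (m l : ℕ) : K := (sigP K l).coeff m

end Entries

section Model

variable {K : Type} [Field K] {I : Type} [Fintype I] [DecidableEq I] {ι : Type} [Fintype ι]
  [DecidableEq ι]

/-- Summation data: a matrix `s`, a row `lam`, a column `e` and an index `z`. -/
structure SD (I K : Type) where
  s : Matrix I I K
  lam : I → K
  e : I → K
  z : I

/-- The summation data at level `q`. -/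
def sdq (K : Type) [Field K] (q L : ℕ) : SD (Ix q L) K where
  s := fun x y => (if (y.2 : ℕ) < L then sig K x.2 y.2 else 0) +
    (if y.1.val < x.1.val ∧ x.2 = y.2 then 1 else 0)
  lam := fun y => if y.2 = Fin.last L then 1 else 0
  e := fun x => if x = (-1, Fin.last L) then 1 else 0
  z := (0, 0)

/-- The summation data at level one. -/
def sd0 (K : Type) [Field K] (L : ℕ) : SD (Fin (L + 1)) K where
  s := fun m l => if (l : ℕ) < L then sig K m l else 0
  lam := fun l => if l = Fin.last L then 1 else 0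
  e := fun m => if m = Fin.last L then 1 else 0
  z := 0

/-- `s` inverts `T - 1` up to the rank one term `e ⊗ lam`, and its values vanish at `z`. -/
def SD.Good (sd : SD I K) (T : Matrix I I K) : Prop :=
  (T - 1) * sd.s + Matrix.vecMulVec sd.e sd.lam = 1 ∧ ∀ y, sd.s sd.z y = 0

/-- The projection that kills the coordinate `z`. -/
def SD.E (sd : SD I K) : Matrix I I K := Matrix.diagonal fun x => if x = sd.z then 0 else 1

/-- The linear extension of `ρ`. -/
def lin {J : Type} (ρ : Mat → Matrix I J K) (F : Mat →₀ ℤ) : Matrix I J K :=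
  F.sum fun g n => (n : K) • ρ g

/-- The block matrix of `(x_k)_k ↦ (∑_k x_k | F k j)_j`. -/
def chM {J : Type} (ρ : Mat → Matrix I J K) (F : Option ι → Option ι → (Mat →₀ ℤ)) :
    Matrix (Option ι × I) (Option ι × J) K := fun x y => lin ρ (F y.1 x.1) x.2 y.2

/-- The coboundary map `v ↦ (v | γ_j - v)_j`. -/
def dM (ρ : Mat → Matrix I I K) (γ : Option ι → Mat) : Matrix (Option ι × I) I K :=
  fun x y => (ρ (γ x.1) - 1 : Matrix I I K) x.2 y

/-- The summation operator applied to the first slot. -/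
def sZ (ι : Type) [DecidableEq ι] (sd : SD I K) : Matrix I (Option ι × I) K :=
  fun x y => if y.1 = none then sd.s x y.2 else 0

/-- The projection from cocycles to cocycles modulo coboundaries of vectors that vanish at `z`. -/
def piM (ρ : Mat → Matrix I I K) (γ : Option ι → Mat) (sd : SD I K) :
    Matrix (Option (ι × I)) (Option ι × I) K
  | none, y => if y.1 = none then sd.lam y.2 else 0
  | some x, y => (1 - dM ρ γ * sZ ι sd : Matrix (Option ι × I) (Option ι × I) K) (some x.1, x.2) y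

/-- The section of `piM`. -/
def jM (ι : Type) [DecidableEq ι] (sd : SD I K) : Matrix (Option ι × I) (Option (ι × I)) K
  | x, none => if x.1 = none then sd.e x.2 else 0
  | x, some y => if x = (some y.1, y.2) then 1 else 0

/-- The matrix induced by the cochain matrix `A`. -/
def PP (ρ : Mat → Matrix I I K) (γ : Option ι → Mat) (sd : SD I K)
    (A : Matrix (Option ι × I) (Option ι × I) K) : Matrix (Option (ι × I)) (Option (ι × I)) K :=
  piM ρ γ sd * A * jM ι sd

/-- The same matrix without its border. -/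
def Ptr (ρ : Mat → Matrix I I K) (γ : Option ι → Mat) (sd : SD I K)
    (A : Matrix (Option ι × I) (Option ι × I) K) : Matrix (ι × I) (ι × I) K :=
  (PP ρ γ sd A).submatrix some some

/-- The degree of an index of the bordered matrix. -/
def degO (L : ℕ) (deg : I → ℕ) : Option (ι × I) → ℕ
  | none => L
  | some x => deg x.2

/-- The coefficient of `T ^ n` in `det (1 - T P)`. -/
def cn (P : Matrix I I K) (n : ℕ) : K := P.charpolyRev.coeff n

/-- The values of a cochain at the generators. -/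
def vec {N : ℕ} (fb : FB N ι) : (Gamma0 N → I → K) →ₗ[K] (Option ι × I → K) where
  toFun c := fun x => c (fb.gen x.1) x.2
  map_add' _ _ := rfl
  map_smul' _ _ := rfl

/-- The cocycle with the given values at the generators (zero if there is none). -/
def unvec {N : ℕ} (fb : FB N ι) (ρ : Mat → (I → K) →ₗ[K] (I → K)) :
    (Option ι × I → K) →ₗ[K] Z1 (Gamma0 N) ρ := by
  classical
  exact if h : Function.Bijective (vec fb ∘ₗ (Z1 (Gamma0 N) ρ).subtype) then
    (LinearEquiv.ofBijective _ h).symm.toLinearMap else 0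

/-- The map from the bordered model to cohomology. -/
def theta {N : ℕ} (fb : FB N ι) (ρ : Mat → (I → K) →ₗ[K] (I → K)) (sd : SD I K) :
    (Option (ι × I) → K) →ₗ[K] H1 (Gamma0 N) ρ :=
  (B1 (Gamma0 N) ρ).mkQ ∘ₗ unvec fb ρ ∘ₗ Matrix.toLin' (jM ι sd)

/-- The action on vectors defined by the matrices `ρ g`. -/
def mact (ρ : Mat → Matrix I I K) (g : Mat) : (I → K) →ₗ[K] (I → K) := Matrix.toLin' (ρ g)

end Model

section Fox

variable {N : ℕ} {ι : Type} [Fintype ι]

/-- `D` is a family of Fox derivatives of `g`. -/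
def IsFox (fb : FB N ι) (g : Gamma0 N) (D : Option ι → (Gamma0 N →₀ ℤ)) : Prop :=
  ∀ (R V : Type) [CommRing R] [AddCommGroup V] [Module R V] (S : Submonoid Mat)
    (ρ : Mat → V →ₗ[R] V), IsAct S ρ → Inside (Gamma0 N) S → ∀ c ∈ Z1 (Gamma0 N) ρ,
    c g = ∑ k, (D k).sum fun t n => n • ρ ((t : SL(2, ℤ)) : Mat) (c (fb.gen k))

open Classical in
/-- A choice of Fox derivatives. -/
def fox (fb : FB N ι) (g : Gamma0 N) : Option ι → (Gamma0 N →₀ ℤ) :=
  if h : ∃ D, IsFox fb g D then h.choose else 0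

/-- The Fox matrix of a double coset operator. -/
def foxM (fb : FB N ι) {J : Type} [Fintype J] (δ : J → Mat) (k j : Option ι) : Mat →₀ ℤ :=
  ∑ i, (fox fb (step (Gamma0 N) δ (fb.gen j) i).2 k).mapDomain
    fun t : Gamma0 N => ((t : SL(2, ℤ)) : Mat) * δ (step (Gamma0 N) δ (fb.gen j) i).1

end Fox

section Weights

variable {K : Type} [NormedField K]

/-- `ψ` is an even character modulo `p ^ (h + 1)`. -/
structure IsChar (p h : ℕ) (ψ : ℤ → K) : Prop where
  one : ψ 1 = 1
  neg_one : ψ (-1) = 1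
  mul : ∀ x y : ℤ, ¬ (p : ℤ) ∣ x → ¬ (p : ℤ) ∣ y → ψ (x * y) = ψ x * ψ y
  congr : ∀ x y : ℤ, ¬ (p : ℤ) ∣ x → (p : ℤ) ^ (h + 1) ∣ x - y → ψ x = ψ y
  norm : ∀ x : ℤ, ¬ (p : ℤ) ∣ x → ‖ψ x‖ ≤ 1

/-- `ψ` is primitive modulo `p ^ (h + 1)`. -/
def Prim (p h : ℕ) (ψ : ℤ → K) : Prop :=
  ∀ a : ℤ, ¬ (p : ℤ) ∣ a → ∑ b : Fin p, ψ (1 + (p : ℤ) ^ h * a * (b : ℕ)) = 0

/-- The weight `(u, s)` is analytic on discs modulo `p ^ h`. -/
structure Wt (p h : ℕ) (u : ℤ → K) (s : K) : Prop where
  norm : ∀ x : ℤ, ¬ (p : ℤ) ∣ x → ‖u x‖ ≤ 1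
  bin : ∀ n j : ℕ, ‖bin (s - n) j‖ ≤ (p : ℝ) ^ (h * j)

/-- Size and support conditions for summation data. -/
structure SBd (p : ℕ) {I : Type} (sd : SD I K) (deg : I → ℕ) (L : ℕ) : Prop where
  deg_le : ∀ x, deg x ≤ L
  s_zero : ∀ x y, deg y + 1 < deg x → sd.s x y = 0
  s_norm : ∀ x y, ‖sd.s x y‖ ≤ (p : ℝ) ^ Nat.log p (deg y + 1)
  lam_zero : ∀ y, deg y < L → sd.lam y = 0
  lam_norm : ∀ y, ‖sd.lam y‖ ≤ 1
  e_norm : ∀ x, ‖sd.e x‖ ≤ 1

/-- `f` is a polynomial function. -/
def IsPoly (f : K → K) : Prop := ∃ c : Polynomial K, ∀ w, f w = c.eval w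

/-- `b = 1` for odd `p` and `b = 3` for `p = 2`. -/
def bb (p : ℕ) : ℕ := if p = 2 then 3 else 1

/-- `φ = p - 1` for odd `p` and `φ = 2` for `p = 2`. -/
def ph (p : ℕ) : ℕ := if p = 2 then 2 else p - 1

/-- The generator `1 + p ^ b`. -/
def gg (p : ℕ) : ℤ := 1 + (p : ℤ) ^ bb p

/-- The level of the touching character: `1` for odd `p` and `2` for `p = 2`. -/
def hh (p : ℕ) : ℕ := if p = 2 then 2 else 1

open Classical in
/-- A logarithm: `g ^ l = x ^ φ` modulo `p ^ R`. -/
def lgn (p R : ℕ) (x : ℤ) : ℕ :=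
  if h : ∃ l : ℕ, (p : ℤ) ^ R ∣ gg p ^ l - x ^ ph p then h.choose else 0

variable (p : ℕ)

/-- The character of the family at the point `w`. -/
def uFam (κ R : ℕ) (w : K) (x : ℤ) : K := (x : K) ^ κ * (1 + w) ^ lgn p R x

/-- The exponent of the family at the point `w`. -/
def sFam (κ R : ℕ) (w : K) : K :=
  κ + ph p * (((1 + w) ^ p ^ R - 1) / ((gg p : K) ^ p ^ R - 1))

/-- The character of conductor `p ^ (hh p + 1)` attached to a `p`-th root of unity. -/
def psi (ζ : K) (x : ℤ) : K :=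
  ζ ^ (((x ^ ph p - 1) / (p : ℤ) ^ bb p : ℤ) : ZMod p).val

/-- The point of weight space of the integer `y`. -/
def wy [Fact p.Prime] (y : ℕ) : Kp p := (gg p : Kp p) ^ y - 1

end Weights

section Export

variable {K : Type} [Field K] (p : ℕ) {M : ℕ} {ι : Type} [Fintype ι] [DecidableEq ι]

/-- The Fox matrix of `U`. -/
def foxU (fb : FB (M * p) ι) : Option ι → Option ι → (Mat →₀ ℤ) := foxM fb (uRep p M)

/-- The matrix of `U` at level one in the integer weight `κ`, cut at degree `L`. -/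
def P0 [Fact p.Prime] (fb : FB (M * p) ι) (L κ : ℕ) :
    Matrix (ι × Fin (L + 1)) (ι × Fin (L + 1)) (Kp p) :=
  Ptr (actZ (Kp p) L κ) fb.mat (sd0 (Kp p) L) (chM (actZ (Kp p) L κ) (foxU p fb))

/-- The matrix of `U` at level `q` in the weight `(u, s)`, cut at degree `L`. -/
def Pq (fb : FB (M * p) ι) (q : ℕ) [NeZero q] (L : ℕ) (u : ℤ → K) (s : K) :
    Matrix (ι × Ix q L) (ι × Ix q L) K :=
  Ptr (actM q L u s) fb.mat (sdq K q L) (chM (actM q L u s) (foxU p fb))

/-- The bordered matrix of `U` at level `q` in the classical weight `κ` with character `ψ`. -/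
def PCl (fb : FB (M * p) ι) (q : ℕ) [NeZero q] (κ : ℕ) (ψ : ℤ → K) :
    Matrix (Option (ι × Ix q κ)) (Option (ι × Ix q κ)) K :=
  PP (actCl q q κ ψ) fb.mat (sdq K q κ) (chM (actCl q q κ ψ) (foxU p fb))

/-- The bordered matrix at level one of the double coset operator with representatives `δ`. -/
def PV [Fact p.Prime] {N : ℕ} (fb : FB N ι) (κ : ℕ) {J : Type} [Fintype J] (δ : J → Mat) :
    Matrix (Option (ι × Fin (κ + 1))) (Option (ι × Fin (κ + 1))) (Kp p) :=
  PP (actV (Kp p) κ) fb.mat (sd0 (Kp p) κ) (chM (actV (Kp p) κ) (foxM fb δ))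

end Export

end Pool.Agent.Lib.MP_88d29b_nt.G.M3
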