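import Pool.Agent.Lib.MP_88d29b_nt.HDefs
import Pool.Agent.Lib.MP_88d29b_nt.M3Defs
import Pool.Agent.Lib.MP_88d29b_nt.G0Cov
import Pool.Agent.Lib.MP_88d29b_nt.G0Sch
import Pool.Agent.Lib.MP_88d29b_nt.G0Ping

/-!
Torsion free levels.
-/

set_option autoImplicit false

noncomputable section

namespace Pool.Agent.Lib.MP_88d29b_nt.G

open Finset CongruenceSubgroup
open scoped MatrixGroups

lemma coe_lift_mk {A : Type} {Γ : Subgroup SL(2, ℤ)} (gen : A → SL(2, ℤ)) (h : ∀ a, gen a ∈ Γ)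
    (w : FreeGroup A) :
    ((FreeGroup.lift (fun a => (⟨gen a, h a⟩ : Γ)) w : Γ) : SL(2, ℤ)) = FreeGroup.lift gen w := by
  have : Γ.subtype.comp (FreeGroup.lift (fun a => (⟨gen a, h a⟩ : Γ))) = FreeGroup.lift gen := by
    ext1 a
    simp
  exact DFunLike.congr_fun this w

theorem fb_four : Nonempty (M3.FB 4 Unit) :=
  ⟨{ gen := fun i => ⟨gen4 i, gen4_mem i⟩
     gen_none := rfl
     span := fun g => by
       simp only [coe_lift_mk]
       exact span4 g.2
     free := fun w => by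
       simp only [coe_lift_mk]
       exact free4 w }⟩

theorem fb_nine : Nonempty (M3.FB 9 Bool) :=
  ⟨{ gen := fun i => ⟨gen9 i, gen9_mem i⟩
     gen_none := rfl
     span := fun g => by
       simp only [coe_lift_mk]
       exact span9 g.2
     free := fun w => by
       simp only [coe_lift_mk]
       exact free9 w }⟩

theorem fb_up {M₀ M : ℕ} (h : M₀ ∣ M) (h0 : M ≠ 0) {ι : Type} [Fintype ι] (fb : M3.FB M₀ ι) :
    ∃ (ι' : Type) (_ : Fintype ι'), Nonempty (M3.FB M ι') ∧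
      Fintype.card ι' * (Gamma0 M₀).index = Fintype.card ι * (Gamma0 M).index := by
  have : NeZero M := ⟨h0⟩
  let ψ : FreeGroup (Option ι) →* SL(2, ℤ) := (Gamma0 M₀).subtype.comp (FreeGroup.lift fb.gen)
  have hψ : ∀ w, ψ w = ((FreeGroup.lift fb.gen w : Gamma0 M₀) : SL(2, ℤ)) := fun _ => rfl
  have hne : (Gamma0 M).relIndex ψ.range ≠ 0 := Subgroup.FiniteIndex.index_ne_zero
  have hidx : ((Gamma0 M).comap ψ).index = (Gamma0 M).relIndex (Gamma0 M₀) := by
    rw [Subgroup.index_comap]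
    obtain ⟨r, hr⟩ := exists_cov_rel (Γ := Gamma0 M) (Γ' := ψ.range)
    have : Nonempty (Fin ((Gamma0 M).relIndex ψ.range)) := ⟨⟨0, Nat.pos_of_ne_zero hne⟩⟩
    have hc : Cov (Gamma0 M) (Gamma0 M₀) (fun i => ((r i : SL(2, ℤ)) : Mat)) := by
      refine ⟨hr.det_ne, fun g hg i => ?_, hr.inj⟩
      obtain ⟨w, hw | hw⟩ := fb.span ⟨g, hg⟩
      · exact hr.ex g ⟨w, hw⟩ i
      · obtain ⟨j, t, ht, e⟩ := hr.ex (-g) ⟨w, hw⟩ i
        refine ⟨j, -1 * t, (Gamma0 M).mul_mem (neg_one_mem_Gamma0 M) ht, ?_⟩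
        rw [Matrix.SpecialLinearGroup.coe_neg, Matrix.mul_neg] at e
        rw [neg_one_mul, Matrix.SpecialLinearGroup.coe_neg, Matrix.neg_mul, ← e, neg_neg]
    rw [relIndex_of_cov hc (fun i => ⟨r i, ?_, rfl⟩), Fintype.card_fin]
    obtain ⟨w, hw⟩ := (r i).2
    rw [← hw, hψ]
    exact Subtype.prop _
  have : ((Gamma0 M).comap ψ).FiniteIndex := ⟨by rwa [Subgroup.index_comap]⟩
  have hT : ψ (FreeGroup.of none) = ModularGroup.T := by
    rw [hψ, FreeGroup.lift_apply_of, fb.gen_none]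
  obtain ⟨ι', _, b, hb0, hbi, hbr, hcard⟩ := schreier ((Gamma0 M).comap ψ) (by
    rw [Subgroup.mem_comap, hT, mem_Gamma0_iff]
    simp [ModularGroup.T])
  have hmem : ∀ k, ψ (b k) ∈ Gamma0 M := fun k => by
    rw [← Subgroup.mem_comap, ← hbr]
    exact ⟨FreeGroup.of k, FreeGroup.lift_apply_of⟩
  have hl : ∀ u, FreeGroup.lift (fun k => ψ (b k)) u = ψ (FreeGroup.lift b u) := fun u => by
    have : FreeGroup.lift (fun k => ψ (b k)) = ψ.comp (FreeGroup.lift b) := by
      ext1 a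
      simp
    exact DFunLike.congr_fun this u
  refine ⟨ι', inferInstance, ⟨{ gen := fun k => ⟨ψ (b k), hmem k⟩
                                gen_none := by simp only [hb0, hT]
                                span := fun g => ?_
                                free := fun u hu => ?_ }⟩, ?_⟩
  · simp only [coe_lift_mk, hl]
    obtain ⟨w, hw⟩ := fb.span ⟨g, Gamma0_le_of_dvd h g.2⟩
    have hw' : w ∈ (FreeGroup.lift b).range := by
      rw [hbr, Subgroup.mem_comap, hψ]
      rcases hw with hw | hw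
      · rw [hw]
        exact g.2
      · rw [hw, ← neg_one_mul]
        exact (Gamma0 M).mul_mem (neg_one_mem_Gamma0 M) g.2
    obtain ⟨u, rfl⟩ := hw'
    exact ⟨u, hw⟩
  · simp only [coe_lift_mk, hl] at hu
    exact hbi ((fb.free _ hu).trans (map_one _).symm)
  · rw [hcard, hidx, ← Subgroup.relIndex_mul_index (Gamma0_le_of_dvd h)]
    ring

variable (p : ℕ) [Fact p.Prime]

/-- A torsion free level with free bases at levels `M` and `M p`. -/
theorem ext_level (N : ℕ) [NeZero N] (hN : Nat.Coprime p N) :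
    ∃ (M : ℕ) (ι ι' : Type) (_ : Fintype ι) (_ : Fintype ι'), M ≠ 0 ∧ N ∣ M ∧ Nat.Coprime p M ∧
      Nonempty (M3.FB (M * p) ι) ∧ Nonempty (M3.FB M ι') ∧
      6 * Fintype.card ι = (p + 1) * (Gamma0 M).index := by
  have hp : p.Prime := Fact.out
  have hN0 : N ≠ 0 := NeZero.ne N
  by_cases h2 : p = 2
  · obtain ⟨fb⟩ := fb_nine
    have hc : Nat.Coprime p (N * 9) := Nat.Coprime.mul_right hN (by rw [h2]; norm_num)
    obtain ⟨ι, _, h1, h3⟩ := fb_up (M := N * 9 * p) ⟨N * p, by ring⟩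
      (mul_ne_zero (by omega) hp.ne_zero) fb
    obtain ⟨ι', _, h4, -⟩ := fb_up (M := N * 9) ⟨N, by ring⟩ (by omega) fb
    refine ⟨N * 9, ι, ι', inferInstance, inferInstance, by omega, dvd_mul_right _ _, hc, h1, h4, ?_⟩
    rw [index_nine, index_mul_coprime hp hc, Fintype.card_bool] at h3
    omega
  · obtain ⟨fb⟩ := fb_four
    have hc : Nat.Coprime p (N * 4) := Nat.Coprime.mul_right hN
      (((Nat.coprime_primes hp Nat.prime_two).mpr h2).pow_right 2)
    obtain ⟨ι, _, h1, h3⟩ := fb_up (M := N * 4 * p) ⟨N * p, by ring⟩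
      (mul_ne_zero (by omega) hp.ne_zero) fb
    obtain ⟨ι', _, h4, -⟩ := fb_up (M := N * 4) ⟨N, by ring⟩ (by omega) fb
    refine ⟨N * 4, ι, ι', inferInstance, inferInstance, by omega, dvd_mul_right _ _, hc, h1, h4, ?_⟩
    rw [index_four, index_mul_coprime hp hc, Fintype.card_unit] at h3
    omega

end Pool.Agent.Lib.MP_88d29b_nt.G
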