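import Pool.Agent.Lib.MP_88d29b_nt.HDefs

set_option autoImplicit false

noncomputable section

namespace Pool.Agent.Lib.MP_88d29b_nt.G

open Finset CongruenceSubgroup Matrix
open scoped MatrixGroups

open Filter Topology

lemma hfinsum_lower (d : ℕ → ℕ) {τ C : ℝ} (hτ : 0 < τ) (hC : 0 ≤ C)
    (heven : ∀ k, Even k → 4 ≤ k → |(d k : ℝ) - τ * k| ≤ C) (n : ℕ) :
    τ * ((n : ℝ) + 1) ^ 2 / 4 - (C + 4 * τ) * (n + 1) ≤ ∑ k ∈ Icc 2 (n + 1), (d k : ℝ) := by
  induction n using Nat.twoStepInduction with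
  | zero => norm_num; linarith
  | one =>
    have : (0 : ℝ) ≤ ∑ k ∈ Icc 2 (1 + 1), (d k : ℝ) := by positivity
    push_cast
    linarith
  | more n ih _ =>
    rw [Finset.sum_Icc_succ_top (by omega), Finset.sum_Icc_succ_top (by omega)]
    have h1 : (0 : ℝ) ≤ d (n + 1 + 1) := Nat.cast_nonneg _
    have h2 : (0 : ℝ) ≤ d (n + 2 + 1) := Nat.cast_nonneg _
    rcases Nat.even_or_odd n with h | h
    · rcases Nat.eq_zero_or_pos n with rfl | hn
      · push_cast at ih ⊢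
        linarith
      · have h4 : 4 ≤ n + 1 + 1 := by obtain ⟨m, rfl⟩ := h; omega
        have := (abs_le.1 (heven (n + 1 + 1) (by simpa [add_assoc] using h.add even_two) h4)).1
        push_cast at this ⊢
        nlinarith
    · have h4 : 4 ≤ n + 2 + 1 := by obtain ⟨m, rfl⟩ := h; omega
      have := (abs_le.1 (heven (n + 2 + 1) ((h.add_even even_two).add_one) h4)).1
      push_cast at this ⊢
      nlinarith

/-- As in the file `FinalSum.lean` of this directory: `∑ d k ≥ τ T ^ 2 / 5` for large `T`, and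
`|∑ c k - θ ∑ d k| ≤ O(ε T ^ 2)`. -/
theorem final_sum' (c d : ℕ → ℕ) {θ τ C : ℝ} (h0 : 0 ≤ θ) (h1 : θ ≤ 1) (hτ : 0 < τ)
    (hcd : ∀ k, c k ≤ d k) (hodd : ∀ k, Odd k → d k = 0)
    (heven : ∀ k, Even k → 4 ≤ k → |(d k : ℝ) - τ * k| ≤ C)
    (h : ∀ ε : ℝ, 0 < ε → ∃ T0 : ℕ, ∀ T : ℕ, T0 ≤ T → ∃ Bad : Finset ℕ, (Bad.card : ℝ) ≤ ε * T ∧
      ∀ k : ℕ, Even k → 4 ≤ k → k ≤ T → k ∉ Bad → |(c k : ℝ) - θ * τ * k| ≤ ε * T) :
    Tendsto (fun T : ℕ => ((∑ k ∈ Icc 2 T, c k : ℕ) : ℝ) / ((∑ k ∈ Icc 2 T, d k : ℕ) : ℝ))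
      atTop (𝓝 θ) := by
  classical
  have hC : 0 ≤ C := (abs_nonneg _).trans (heven 4 (by decide) le_rfl)
  rw [Metric.tendsto_atTop]
  intro δ hδ
  set ε := δ * τ / (5 * (3 + τ)) with hε
  have hε0 : 0 < ε := by positivity
  have hε1 : ε * (3 + τ) = δ * τ / 5 := by rw [hε]; field_simp
  obtain ⟨T0, hT0⟩ := h ε hε0
  obtain ⟨T1, hT1⟩ := exists_nat_ge ((C + ε * C + d 2) / ε + 20 * (C + 4 * τ) / τ + 1)
  refine ⟨max T0 T1, fun T hT => ?_⟩
  obtain ⟨Bad, hBad, hgood⟩ := hT0 T (le_of_max_le_left hT)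
  have hT2 : (T1 : ℝ) ≤ T := by exact_mod_cast le_of_max_le_right hT
  have p1 : 0 ≤ (C + ε * C + d 2) / ε := by positivity
  have p2 : 0 ≤ 20 * (C + 4 * τ) / τ := by positivity
  have hT3 : (1 : ℝ) ≤ T := by linarith
  have hT4 : C + ε * C + d 2 ≤ T * ε := (div_le_iff₀ hε0).1 (by linarith)
  have hT5 : 20 * (C + 4 * τ) ≤ T * τ := (div_le_iff₀ hτ).1 (by linarith)
  have hD : τ * (T : ℝ) ^ 2 / 5 ≤ ∑ k ∈ Icc 2 T, (d k : ℝ) := by
    obtain ⟨n, rfl⟩ : ∃ n, T = n + 1 := ⟨T - 1, by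
      have : 1 ≤ T := by exact_mod_cast hT3
      omega⟩
    refine le_trans ?_ (hfinsum_lower d hτ hC heven n)
    push_cast at hT3 hT5 ⊢
    nlinarith
  have hD0 : (0 : ℝ) < ∑ k ∈ Icc 2 T, (d k : ℝ) := lt_of_lt_of_le (by positivity) hD
  have hterm : ∀ k ∈ Icc 2 T, |(c k : ℝ) - θ * d k| ≤ (ε * T + C) +
      ((d 2 : ℝ) * (if k = 2 then 1 else 0) + (τ * T + C) * (if k ∈ Bad then 1 else 0)) := by
    intro k hk
    have hkT : (k : ℝ) ≤ T := by exact_mod_cast (Finset.mem_Icc.1 hk).2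
    have hc : (c k : ℝ) ≤ d k := by exact_mod_cast hcd k
    have hc0 : (0 : ℝ) ≤ c k := Nat.cast_nonneg _
    have hp : 0 ≤ ε * T + C := by positivity
    have i1 : (0 : ℝ) ≤ (d 2 : ℝ) * (if k = 2 then 1 else 0) := by split_ifs <;> positivity
    have i2 : (0 : ℝ) ≤ (τ * T + C) * (if k ∈ Bad then 1 else 0) := by split_ifs <;> positivity
    have h3 : |(c k : ℝ) - θ * d k| ≤ d k := by
      rw [abs_le]
      constructor <;> nlinarith
    rcases Nat.even_or_odd k with he | ho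
    · by_cases h4 : k = 2
      · rw [if_pos h4]
        subst h4
        linarith
      have h6 : 4 ≤ k := by
        have := (Finset.mem_Icc.1 hk).1
        obtain ⟨m, rfl⟩ := he
        omega
      have h2 := abs_le.1 (heven k he h6)
      by_cases h5 : k ∈ Bad
      · rw [if_pos h5]
        have := mul_le_mul_of_nonneg_left hkT hτ.le
        linarith
      have h7 := abs_le.1 (hgood k he h6 (Finset.mem_Icc.1 hk).2 h5)
      have h9 : |(c k : ℝ) - θ * d k| ≤ ε * T + C := by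
        rw [abs_le]
        constructor <;> nlinarith
      linarith
    · rw [hodd k ho] at h3 ⊢
      simp only [Nat.cast_zero] at h3 ⊢
      linarith
  have hsum : |∑ k ∈ Icc 2 T, (c k : ℝ) - θ * ∑ k ∈ Icc 2 T, (d k : ℝ)| ≤
      ε * (2 + τ) * T ^ 2 := by
    rw [Finset.mul_sum, ← Finset.sum_sub_distrib]
    refine (Finset.abs_sum_le_sum_abs _ _).trans ((Finset.sum_le_sum hterm).trans ?_)
    rw [Finset.sum_add_distrib, Finset.sum_const, Finset.sum_add_distrib, ← Finset.mul_sum,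
      ← Finset.mul_sum, Finset.sum_boole, Finset.sum_boole, nsmul_eq_mul]
    have a1 : ((Icc 2 T).card : ℝ) ≤ T := by
      have : (Icc 2 T).card ≤ T := by simp
      exact_mod_cast this
    have a2 : (((Icc 2 T).filter (fun k => k = 2)).card : ℝ) ≤ 1 := by
      have : ((Icc 2 T).filter (fun k => k = 2)).card ≤ 1 :=
        (Finset.card_le_card (t := {2}) fun k hk =>
          Finset.mem_singleton.2 (Finset.mem_filter.1 hk).2).trans (by simp)
      exact_mod_cast this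
    have a3 : (((Icc 2 T).filter (fun k => k ∈ Bad)).card : ℝ) ≤ ε * T := by
      have h2 : ((Icc 2 T).filter (fun k => k ∈ Bad)).card ≤ Bad.card :=
        Finset.card_le_card fun k hk => (Finset.mem_filter.1 hk).2
      exact le_trans (by exact_mod_cast h2) hBad
    have b1 := mul_le_mul_of_nonneg_right a1 (show 0 ≤ ε * T + C by positivity)
    have b2 := mul_le_mul_of_nonneg_left a2 (show (0 : ℝ) ≤ d 2 by positivity)
    have b3 := mul_le_mul_of_nonneg_left a3 (show 0 ≤ τ * T + C by positivity)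
    have b4 := mul_le_mul_of_nonneg_right hT4 (show (0 : ℝ) ≤ T by positivity)
    have b5 := mul_le_mul_of_nonneg_left hT3 (show (0 : ℝ) ≤ d 2 by positivity)
    nlinarith
  push_cast
  rw [Real.dist_eq, div_sub' hD0.ne', abs_div, abs_of_pos hD0, div_lt_iff₀ hD0, mul_comm _ θ]
  have b1 := mul_le_mul_of_nonneg_left hD hδ.le
  have b2 : 0 < ε * (T : ℝ) ^ 2 := by positivity
  have b3 : ε * (3 + τ) * (T : ℝ) ^ 2 = δ * τ / 5 * T ^ 2 := by rw [hε1]
  nlinarith

end Pool.Agent.Lib.MP_88d29b_nt.G
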