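import Pool.Agent.Lib.MP_88d29b_nt.HDefs

set_option autoImplicit false

noncomputable section

namespace Pool.Agent.Lib.MP_88d29b_nt.G

open Finset CongruenceSubgroup Matrix
open scoped MatrixGroups

open Cardinal in
lemma hpsi_card_padic (p : ℕ) [Fact p.Prime] : Cardinal.mk ℚ_[p] = continuum := by
  refine le_antisymm ?_ (continuum_le_cardinal_of_nontriviallyNormedField ℚ_[p])
  have h1 : Cardinal.mk ℚ_[p] ≤ Cardinal.mk (CauSeq ℚ (padicNorm p)) := Cardinal.mk_quotient_le
  have h2 : Cardinal.mk (CauSeq ℚ (padicNorm p)) ≤ Cardinal.mk (ℕ → ℚ) := Cardinal.mk_subtype_le _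
  refine h1.trans (h2.trans (le_of_eq ?_))
  simp

open Cardinal in
lemma hpsi_card_KP (p : ℕ) [Fact p.Prime] : Cardinal.mk (KP p) = continuum := by
  refine le_antisymm ?_ ?_
  · refine (Algebra.IsAlgebraic.cardinalMk_le_max ℚ_[p] (KP p)).trans ?_
    rw [hpsi_card_padic]
    exact max_le le_rfl aleph0_le_continuum
  · rw [← hpsi_card_padic p]
    exact Cardinal.mk_le_of_injective (algebraMap ℚ_[p] (KP p)).injective

lemma hpsi_card_closure (F E : Type) [Field F] [Field E] [Algebra F E] :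
    Cardinal.mk (algebraicClosure F E) ≤ max (Cardinal.mk F) Cardinal.aleph0 :=
  Algebra.IsAlgebraic.cardinalMk_le_max F (algebraicClosure F E)

open Cardinal in
lemma hpsi_equiv {F K L : Type} [Field F] [Field K] [Field L] [Algebra F K] [Algebra F L]
    [IsAlgClosed K] [IsAlgClosed L] (hF : Cardinal.mk F ≤ aleph0) (hK : aleph0 < Cardinal.mk K)
    (hKL : Cardinal.mk K = Cardinal.mk L) :
    ∃ ψ : K ≃+* L, ∀ x : F, ψ (algebraMap F K x) = algebraMap F L x := by
  obtain ⟨s, hs⟩ := exists_isTranscendenceBasis F K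
  obtain ⟨t, ht⟩ := exists_isTranscendenceBasis F L
  have h1 := IsAlgClosed.cardinal_eq_cardinal_transcendence_basis_of_aleph0_lt' _ hs hF hK
  have h2 := IsAlgClosed.cardinal_eq_cardinal_transcendence_basis_of_aleph0_lt' _ ht hF (hKL ▸ hK)
  obtain ⟨e⟩ := Cardinal.eq.1 (h1.symm.trans (hKL.trans h2))
  letI := IsAlgClosed.isAlgClosure_of_transcendence_basis _ hs
  letI := IsAlgClosed.isAlgClosure_of_transcendence_basis _ ht
  let e' : Algebra.adjoin F (Set.range (Subtype.val : s → K)) ≃ₐ[F]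
      Algebra.adjoin F (Set.range (Subtype.val : t → L)) :=
    hs.1.aevalEquiv.symm.trans ((MvPolynomial.renameEquiv F e).trans ht.1.aevalEquiv)
  refine ⟨IsAlgClosure.equivOfEquiv K L e'.toRingEquiv, fun x => ?_⟩
  rw [IsScalarTower.algebraMap_apply F (Algebra.adjoin F (Set.range (Subtype.val : s → K))) K,
    IsAlgClosure.equivOfEquiv_algebraMap,
    IsScalarTower.algebraMap_apply F (Algebra.adjoin F (Set.range (Subtype.val : t → L))) L]
  congr 1
  exact e'.commutes x

/-- View `ℂ` and `KP p` as algebras over `F = algebraicClosure ℚ ℂ` (countable). Both are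
algebraically closed of cardinality continuum, so transcendence bases over `F` have the same
cardinality (`IsAlgClosed.cardinal_eq_cardinal_transcendence_basis_of_aleph0_lt`). Follow
`IsAlgClosed.equivOfTranscendenceBasis`: the subalgebras generated by the bases are isomorphic over
`F`, and `IsAlgClosure.equivOfEquiv` extends this (`IsAlgClosure.equivOfEquiv_algebraMap`). -/
theorem exists_psi (p : ℕ) [Fact p.Prime] (ι : algebraicClosure ℚ ℂ →+* KP p) :
    ∃ ψ : ℂ ≃+* KP p, ∀ x : algebraicClosure ℚ ℂ, ψ x = ι x := by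
  letI : Algebra (algebraicClosure ℚ ℂ) (KP p) := ι.toAlgebra
  have hF : Cardinal.mk (algebraicClosure ℚ ℂ) ≤ Cardinal.aleph0 := by
    refine (hpsi_card_closure ℚ ℂ).trans ?_
    simp
  obtain ⟨ψ, hψ⟩ := hpsi_equiv (F := algebraicClosure ℚ ℂ) (K := ℂ) (L := KP p) hF
    (by rw [Cardinal.mk_complex]; exact Cardinal.aleph0_lt_continuum)
    (by rw [Cardinal.mk_complex, hpsi_card_KP])
  exact ⟨ψ, hψ⟩

end Pool.Agent.Lib.MP_88d29b_nt.G
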