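import Pool.Agent.Lib.MP_88d29b_nt.HLower
import Pool.Agent.Lib.MP_88d29b_nt.HCnt
import Pool.Agent.Lib.MP_88d29b_nt.HFinSum
import Pool.Agent.Lib.MP_88d29b_nt.HPsi

set_option autoImplicit false

noncomputable section

namespace Pool.Agent.Lib.MP_88d29b_nt.G

open Finset CongruenceSubgroup Matrix Filter Topology
open scoped MatrixGroups

variable {p : ℕ} [Fact p.Prime]

theorem cntIn_add (A B : Multiset (KP p)) (c a b : ℝ) :
    cntIn p (A + B) c a b = cntIn p A c a b + cntIn p B c a b := by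
  simp [cntIn, Multiset.filter_add]

theorem cntIn_le (A : Multiset (KP p)) (c a b : ℝ) : cntIn p A c a b ≤ A.card := by
  classical
  exact Multiset.card_le_card (Multiset.filter_le _ _)

open Classical in
theorem cntIn_map (ι : algebraicClosure ℚ ℂ →+* KP p) (ψ : ℂ ≃+* KP p)
    (hψ : ∀ x : algebraicClosure ℚ ℂ, ψ x = ι x) (E : Multiset ℂ)
    (hE : ∀ z ∈ E, IsIntegral ℤ (ψ z)) (k : ℕ) (a b : ℝ) :
    cntIn p (E.map ψ) (((p : ℝ) + 1) / (k : ℝ)) a b = (E.filter (SlopeIn p ι k a b)).card := by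
  rw [cntIn, Multiset.filter_map, Multiset.card_map]
  congr 1
  refine Multiset.filter_congr fun z hz => ?_
  have h1 : IsIntegral ℤ z := by
    have := (hE z hz).map (ψ.symm : KP p →+* ℂ).toIntAlgHom
    simpa using this
  have h2 : z ∈ algebraicClosure ℚ ℂ :=
    mem_algebraicClosure_iff.2 (IsIntegral.tower_top (A := ℚ) h1).isAlgebraic
  simp only [Function.comp_apply, SlopeIn]
  constructor
  · rintro ⟨h3, h4⟩
    refine ⟨⟨z, h2⟩, rfl, fun h => h3 ?_, ?_⟩
    · have : z = 0 := congrArg Subtype.val h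
      rw [this, map_zero]
    · rw [← hψ]
      exact h4
  · rintro ⟨x, rfl, h3, h4⟩
    rw [hψ]
    exact ⟨(map_ne_zero ι).2 h3, h4⟩

theorem equidistribution (N : ℕ) [NeZero N] (hN : Nat.Coprime p N)
    (ι : algebraicClosure ℚ ℂ →+* PadicAlgCl p) {a b : ℝ} (ha : 0 ≤ a) (hab : a ≤ b) (hb : b ≤ 1) :
    Tendsto (fun T : ℕ => (countIn p N hN ι a b T : ℝ) / (countAll p N hN T : ℝ)) atTop
      (𝓝 (b - a)) := by
  classical
  have hp : p.Prime := Fact.out
  obtain ⟨ψ, hψ⟩ := exists_psi p ι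
  obtain ⟨M, _, hNM, hM, hint, hlow⟩ := lower_level ψ N hN
  obtain ⟨C1, h1⟩ := ext_hodge p N hN
  obtain ⟨C2, h2⟩ := ext_rel p N M hNM hM
  obtain ⟨C3, h3⟩ := codim_le ψ N
  obtain ⟨C4, h4⟩ := ext_lower N
  obtain ⟨C5, h5⟩ := ext_dim p N
  have hμ : (0 : ℝ) < (Gamma0 N).index := by
    exact_mod_cast Nat.pos_of_ne_zero Subgroup.FiniteIndex.index_ne_zero
  have hlog : ∀ κ : ℕ, (0 : ℝ) ≤ κ * (Nat.log 2 κ : ℝ) := fun κ => by positivity
  refine final_sum' (fun k => ((eigenvalues p N hN k).filter (SlopeIn p ι k a b)).card)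
    (fun k => (eigenvalues p N hN k).card) (τ := (Gamma0 N).index / 12) (C := C4 + C5)
    (by linarith) (by linarith) (by positivity)
    (fun k => Multiset.card_le_card (Multiset.filter_le _ _))
    (fun k hk => by rw [ext_card, ext_odd N hk]) (fun k hk h => ?_) (fun ε hε => ?_)
  · obtain ⟨κ, rfl⟩ : ∃ κ, k = κ + 2 := ⟨k - 2, by omega⟩
    have hκ : Even κ := (Nat.even_add.1 hk).2 even_two
    have a1 := h4 (κ + 2) hk
    have a2 := h5 κ hκ (by omega)
    have a3 := ext_two_dim_le N hκ (by omega)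
    rw [finrank_HH_trans ψ] at a2
    have a4 : 12 * dimS N (κ + 2) ≤ (Gamma0 N).index * (κ + 2) + C5 := by
      rw [mul_add]
      omega
    have b1 : (((Gamma0 N).index * (κ + 2) : ℕ) : ℝ) ≤ (12 * dimS N (κ + 2) + C4 : ℕ) := by
      exact_mod_cast a1
    have b4 : ((12 * dimS N (κ + 2) : ℕ) : ℝ) ≤ ((Gamma0 N).index * (κ + 2) + C5 : ℕ) := by
      exact_mod_cast a4
    rw [ext_card, abs_le]
    push_cast at b1 b4 ⊢
    have c4 : (0 : ℝ) ≤ C4 := Nat.cast_nonneg _
    have c5 : (0 : ℝ) ≤ C5 := Nat.cast_nonneg _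
    constructor <;> linarith
  · obtain ⟨T0, hT0⟩ := weight_abs hp.one_lt (fun κ => slopes (KP p) N κ p)
      (fun κ => slopes (KP p) M κ p) (tN := ((p : ℝ) + 1) * (Gamma0 N).index / 6)
      (tM := ((p : ℝ) + 1) * (Gamma0 M).index / 6) (by positivity) (C1 + C2)
      (fun κ h a1 a2 a3 => by
        have := h1 κ h a1 a2 a3
        have := mul_nonneg (Nat.cast_nonneg C2 : (0 : ℝ) ≤ C2) (hlog κ)
        push_cast
        linarith)
      (fun κ h a1 a2 a3 => by
        have := h2 κ h a1 a2 a3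
        have := mul_nonneg (Nat.cast_nonneg C1 : (0 : ℝ) ≤ C1) (hlog κ)
        push_cast
        linarith) hlow ha hab hb hε
    obtain ⟨T1, hT1⟩ := exists_nat_ge ((C3 : ℝ) / ε)
    refine ⟨max T0 T1, fun T hT => ?_⟩
    obtain ⟨Bad, b1, b2⟩ := hT0 T (le_of_max_le_left hT)
    refine ⟨Bad.image (· + 2), le_trans (by exact_mod_cast Finset.card_image_le) b1,
      fun k hk h hkT hB => ?_⟩
    obtain ⟨κ, rfl⟩ : ∃ κ, k = κ + 2 := ⟨k - 2, by omega⟩
    have hκ : Even κ := (Nat.even_add.1 hk).2 even_two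
    have b3 := b2 κ hκ (by omega) fun h => hB (Finset.mem_image_of_mem _ h)
    obtain ⟨rest, hrest⟩ := ext_slopes p N hN hκ (by omega)
    have hs := slopes_trans ψ N κ p
    have hcard : rest.card ≤ C3 := by
      have e1 : (slopes ℂ N κ p).card = Module.finrank ℂ (HH ℂ N κ) := by
        rw [slopes, ← (IsAlgClosed.splits _).natDegree_eq_card_roots, LinearMap.charpoly_natDegree]
      have e2 := h3 κ hκ (by omega)
      rw [hrest, Multiset.card_add, Multiset.card_add, ext_card] at e1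
      omega
    have hE : ∀ z ∈ eigenvalues p N hN (κ + 2), IsIntegral ℤ (ψ z) := fun z hz => by
      refine hint κ hκ (by omega) _ (Multiset.mem_of_le (ext_le p N M hNM hM hκ) ?_)
      rw [hs, hrest]
      exact Multiset.mem_map_of_mem _ (by simp [hz])
    have e3 := cntIn_map ι ψ hψ _ hE (κ + 2) a b
    have e4 := cntIn_le (rest.map ψ) (((p : ℝ) + 1) / ((κ : ℝ) + 2)) a b
    rw [Multiset.card_map] at e4
    push_cast at e3
    rw [hs, hrest, Multiset.map_add, Multiset.map_add, cntIn_add, cntIn_add, e3] at b3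
    have e5 : (cntIn p (rest.map ψ) (((p : ℝ) + 1) / ((κ : ℝ) + 2)) a b : ℝ) ≤ ε * T := by
      have c1 : (T1 : ℝ) ≤ T := by exact_mod_cast le_of_max_le_right hT
      have c2 : (cntIn p (rest.map ψ) (((p : ℝ) + 1) / ((κ : ℝ) + 2)) a b : ℝ) ≤ C3 := by
        exact_mod_cast e4.trans hcard
      rw [div_le_iff₀ hε] at hT1
      nlinarith
    have e6 : (b - a) * (((p : ℝ) + 1) * (Gamma0 N).index / 6) * (((κ : ℝ) + 2) / (p + 1)) =
        2 * ((b - a) * ((Gamma0 N).index / 12) * ((κ : ℝ) + 2)) := by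
      field_simp
      ring
    have e7 : (0 : ℝ) ≤ cntIn p (rest.map ψ) (((p : ℝ) + 1) / ((κ : ℝ) + 2)) a b :=
      Nat.cast_nonneg _
    rw [e6, abs_le] at b3
    rw [abs_le]
    push_cast at b3 ⊢
    constructor <;> linarith [b3.1, b3.2]

end Pool.Agent.Lib.MP_88d29b_nt.G
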