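import Pool.Agent.Lib.MP_88d29b_nt.HVol

set_option autoImplicit false

noncomputable section

namespace Pool.Agent.Lib.MP_88d29b_nt.G

open Finset CongruenceSubgroup Matrix
open scoped MatrixGroups

variable {K : Type} [NormedField K] [IsUltrametricDist K] {n : Type} [Fintype n] [DecidableEq n]

/-- The matrix whose row `i` is that of `Y` or a unit vector, as `τ i` says. -/
def fixRows (Y : Matrix n n K) (τ : n → Option n) : Matrix n n K :=
  fun i => (τ i).elim (Y i) (fun j => Pi.single j 1)

omit [IsUltrametricDist K] in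
theorem norm_det_submatrix_equiv {m : Type} [Fintype m] [DecidableEq m] (A : Matrix n n K)
    (e₁ e₂ : m ≃ n) : ‖(A.submatrix e₁ e₂).det‖ = ‖A.det‖ := by
  have h : A.submatrix e₁ e₂ = (A.submatrix id (e₁.symm.trans e₂)).submatrix e₁ e₁ := by
    ext i j; simp
  rw [h, det_submatrix_equiv_self, det_permute', norm_mul]
  rcases Int.units_eq_one_or (Equiv.Perm.sign (e₁.symm.trans e₂)) with h | h <;> simp [h]

omit [IsUltrametricDist K] in
theorem exists_fixRows (Y : Matrix n n K) {s : ℕ} (f g : Fin s → n) (hf : Function.Injective f)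
    (hg : Function.Injective g) : ∃ τ : n → Option n,
      (univ.filter fun i => τ i = none).card = s ∧
        ‖(fixRows Y τ).det‖ = ‖(Y.submatrix f g).det‖ := by
  classical
  have hc : Fintype.card ↥(Set.range f)ᶜ = Fintype.card ↥(Set.range g)ᶜ := by
    rw [Fintype.card_compl_set, Fintype.card_compl_set, Set.card_range_of_injective hf,
      Set.card_range_of_injective hg]
  let σ := Fintype.equivOfCardEq hc
  let ef : Fin s ⊕ ↥(Set.range f)ᶜ ≃ n :=
    ((Equiv.ofInjective f hf).sumCongr (Equiv.refl _)).trans (Equiv.Set.sumCompl _)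
  let eg : Fin s ⊕ ↥(Set.range f)ᶜ ≃ n :=
    ((Equiv.ofInjective g hg).sumCongr σ).trans (Equiv.Set.sumCompl _)
  have ef1 : ∀ a, ef (Sum.inl a) = f a := fun a => rfl
  have eg1 : ∀ a, eg (Sum.inl a) = g a := fun a => rfl
  refine ⟨fun i => (ef.symm i).elim (fun _ => none) (fun t => some (eg (Sum.inr t))), ?_, ?_⟩
  · have : (univ.filter fun i => (ef.symm i).elim (fun _ => none)
        (fun t => some (eg (Sum.inr t))) = none) = univ.image f := by
      ext i
      obtain ⟨a, rfl⟩ := ef.surjective i
      rcases a with a | a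
      · simp only [mem_filter, mem_univ, true_and, Equiv.symm_apply_apply, Sum.elim_inl,
          mem_image, true_iff]
        exact ⟨a, rfl⟩
      · simp only [mem_filter, mem_univ, true_and, Equiv.symm_apply_apply, Sum.elim_inr,
          reduceCtorEq, mem_image, false_iff, not_exists]
        intro x hx
        rw [← ef1] at hx
        simpa using ef.injective hx
    rw [this, card_image_of_injective _ hf, card_univ, Fintype.card_fin]
  · rw [← norm_det_submatrix_equiv _ ef eg]
    have : (fixRows Y fun i => (ef.symm i).elim (fun _ => none)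
        (fun t => some (eg (Sum.inr t)))).submatrix ef eg = fromBlocks (Y.submatrix f g)
          (Matrix.of fun a t => Y (f a) (eg (Sum.inr t))) 0 1 := by
      ext a b
      rcases a with a | a <;> rcases b with b | b <;>
        simp [fixRows, ← ef1, ← eg1, Pi.single_apply, one_apply, eq_comm]
    rw [this, det_fromBlocks_zero₂₁, det_one, mul_one]

/-- Take a minor of `ϖ • Y` of maximal norm `x` (finitely many with injective `f`, `g`; the others
vanish), of size `s`, rows `f`, columns `g`, `B = Y.submatrix f g`, so `x = R ^ s ‖det B‖` and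
`R ^ |n| / Δ ≤ x ≤ R ^ s`. Put `S` = complement of the range of `f`; `R ^ |S| ≤ Δ` and
`Δ⁻¹ ≤ ‖det B‖`. By maximality (minors of size `s - 1`, adjugate) `B⁻¹` has entries at most `R`.
Choose a bijection `σ` from `S` to the complement of the range of `g`, and let the row `i ∈ S` of `Y0`
be the unit vector at `σ i`. After reindexing `Y0 = [[B, C], [0, 1]]`, whose inverse is
`[[B⁻¹, - B⁻¹ C], [0, 1]]`. -/
theorem exists_fix (Y : Matrix n n K) (hY : EntLe Y 1) (ϖ : K) {R Δ : ℝ} (hϖ : ‖ϖ‖ = R)
    (hR : 1 ≤ R) (hΔ : 0 < Δ) (h : ∀ x, VolLe (ϖ • Y) x → R ^ Fintype.card n ≤ x * Δ) :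
    ∃ (Y0 : Matrix n n K) (S : Finset n), EntLe Y0 1 ∧ (∀ i, i ∉ S → Y0 i = Y i) ∧
      R ^ S.card ≤ Δ ∧ Δ⁻¹ ≤ ‖Y0.det‖ ∧ EntLe Y0⁻¹ R := by
  classical
  have hR0 : 0 < R := by linarith
  obtain ⟨τ, -, hmax⟩ := exists_max_image (univ : Finset (n → Option n))
    (fun τ => R ^ (univ.filter fun i => τ i = none).card * ‖(fixRows Y τ).det‖) univ_nonempty
  have hE : EntLe (fixRows Y τ) 1 := by
    intro i j
    unfold fixRows
    rcases τ i with _ | l
    · exact hY i j
    · simp only [Option.elim, Pi.single_apply]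
      split_ifs <;> simp
  have hd : ‖(fixRows Y τ).det‖ ≤ 1 := by simpa using norm_det_le_pow _ zero_le_one hE
  set c := (univ.filter fun i => τ i = none).card with hc
  have hx0 : 0 ≤ R ^ c * ‖(fixRows Y τ).det‖ := by positivity
  have hV : VolLe (ϖ • Y) (R ^ c * ‖(fixRows Y τ).det‖) := by
    intro s f g
    by_cases hf : Function.Injective f
    swap
    · obtain ⟨a, b, h1, h2⟩ := Function.not_injective_iff.1 hf
      rw [det_zero_of_row_eq h2 (by ext j; simp [h1]), norm_zero]
      exact hx0
    by_cases hg : Function.Injective g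
    swap
    · obtain ⟨a, b, h1, h2⟩ := Function.not_injective_iff.1 hg
      rw [det_zero_of_column_eq h2 (by intro j; simp [h1]), norm_zero]
      exact hx0
    obtain ⟨τ', h1, h2⟩ := exists_fixRows Y f g hf hg
    have h3 := hmax τ' (mem_univ _)
    rw [h1, h2] at h3
    rw [submatrix_smul, Pi.smul_apply, Pi.smul_apply, det_smul, norm_mul, norm_pow, hϖ,
      Fintype.card_fin]
    exact h3
  have h1 := h _ hV
  have h2 := card_filter_add_card_filter_not (s := (univ : Finset n)) (fun i => τ i = none)
  rw [card_univ, ← hc] at h2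
  rw [← h2, pow_add, mul_assoc] at h1
  have h3 := le_of_mul_le_mul_left h1 (pow_pos hR0 c)
  have h4 : 1 ≤ ‖(fixRows Y τ).det‖ * Δ := (one_le_pow₀ hR).trans h3
  have h5 : 0 < ‖(fixRows Y τ).det‖ := by
    refine (norm_nonneg _).lt_of_ne' fun e => ?_
    rw [e, zero_mul] at h4
    linarith
  refine ⟨fixRows Y τ, univ.filter fun i => ¬ τ i = none, hE, ?_, ?_, ?_, ?_⟩
  · intro i hi
    have : τ i = none := by simpa using hi
    simp [fixRows, this]
  · nlinarith
  · rw [inv_eq_one_div, div_le_iff₀ hΔ]
    exact h4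
  · intro i j
    have e : (fixRows Y τ).updateRow j (Pi.single i 1) =
        fixRows Y (Function.update τ j (some i)) := by
      ext a b
      by_cases ha : a = j
      · subst ha; simp [fixRows]
      · simp [fixRows, updateRow_ne ha, Function.update_of_ne ha]
    rw [Matrix.inv_def, Matrix.smul_apply, adjugate_apply, e, Ring.inverse_eq_inv', smul_eq_mul, norm_mul,
      norm_inv, inv_mul_le_iff₀ h5]
    have h6 := hmax (Function.update τ j (some i)) (mem_univ _)
    set c' := (univ.filter fun a => Function.update τ j (some i) a = none).card with hc'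
    have h7 : c ≤ c' + 1 := by
      refine le_trans (card_le_card ?_) (card_insert_le j _)
      intro a ha
      by_cases e : a = j
      · exact mem_insert.2 (Or.inl e)
      · refine mem_insert.2 (Or.inr ?_)
        simpa [Function.update_of_ne e] using ha
    have h8 : R ^ c ≤ R ^ c' * R := by
      rw [← pow_succ]
      exact pow_le_pow_right₀ hR h7
    refine le_of_mul_le_mul_left (h6.trans ?_) (pow_pos hR0 c')
    nlinarith

end Pool.Agent.Lib.MP_88d29b_nt.G
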