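import Pool.Agent.Lib.MP_88d29b_nt.HOld
import Pool.Agent.Lib.MP_88d29b_nt.HTent

set_option autoImplicit false

noncomputable section

namespace Pool.Agent.Lib.MP_88d29b_nt.G

open Finset CongruenceSubgroup Matrix
open scoped MatrixGroups

variable {p : ℕ} [Fact p.Prime] {ι : Type} [Fintype ι] [DecidableEq ι]

/-- The final real estimate: five error terms, each at most a multiple of `δ u n ^ 2`. -/
lemma hgood_real {u n δ ε H ell q U1 U2 t Q a b : ℝ} (hu : 1 ≤ u) (hun : u ^ 10 ≤ n) (hδ : 0 < δ)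
    (hδε : 6 * δ ≤ ε) (h14 : 14 ≤ δ * u) (ht : 0 ≤ t) (htu : 9 * t ≤ u) (hH0 : 0 ≤ H)
    (hH : H ≤ 2 * n) (hell : ell ≤ u) (hq : q ≤ Q * n) (hQ0 : 0 ≤ Q)
    (hQ : 2 * Q ≤ δ * u) (hU1 : U1 ≤ δ * u * n ^ 2) (hU2 : U2 ≤ δ * u)
    (h : u * (a - 3 * (2 * u ^ 13)) ≤ u * b + U1 + H * q + U2 * u ^ 2 * H +
      u ^ 2 * H * (3 * (2 * u ^ 13) / u ^ 6 + t * (2 * (u ^ 6 + ell + 2) + 1))) :
    a - ε * n ^ 2 ≤ b := by
  have hu0 : 0 < u := by linarith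
  have hn0 : 0 ≤ n := le_trans (by positivity) hun
  have hp : ∀ i j : ℕ, i ≤ j → u ^ i ≤ u ^ j := fun i j hij => pow_le_pow_right₀ hu hij
  have hd : 0 ≤ δ * u := by positivity
  have hn2 : u ^ 20 ≤ n ^ 2 := by
    calc u ^ 20 = (u ^ 10) ^ 2 := by ring
      _ ≤ n ^ 2 := pow_le_pow_left₀ (by positivity) hun 2
  have e1 : 6 * u ^ 14 ≤ δ * u * n ^ 2 :=
    mul_le_mul (by linarith) ((hp 14 20 (by norm_num)).trans hn2) (by positivity) hd
  have e2 : H * q ≤ δ * u * n ^ 2 := by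
    calc H * q ≤ H * (Q * n) := mul_le_mul_of_nonneg_left hq hH0
      _ ≤ 2 * n * (Q * n) := mul_le_mul_of_nonneg_right hH (by positivity)
      _ = 2 * Q * n ^ 2 := by ring
      _ ≤ δ * u * n ^ 2 := mul_le_mul_of_nonneg_right hQ (by positivity)
  have e3 : U2 * u ^ 2 * H ≤ 2 * (δ * u * n ^ 2) := by
    calc U2 * u ^ 2 * H = U2 * (u ^ 2 * H) := by ring
      _ ≤ δ * u * (u ^ 2 * H) := mul_le_mul_of_nonneg_right hU2 (by positivity)
      _ ≤ δ * u * (n * (2 * n)) := mul_le_mul_of_nonneg_left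
          (mul_le_mul ((hp 2 10 (by norm_num)).trans hun) hH hH0 hn0) hd
      _ = 2 * (δ * u * n ^ 2) := by ring
  have e4 : 3 * (2 * u ^ 13) / u ^ 6 + t * (2 * (u ^ 6 + ell + 2) + 1) ≤ 7 * u ^ 7 := by
    have h1 : 3 * (2 * u ^ 13) / u ^ 6 = 6 * u ^ 7 := by
      field_simp
      norm_num
    have h2 : u ≤ u ^ 6 := by simpa using hp 1 6 (by norm_num)
    have h3 : 2 * (u ^ 6 + ell + 2) + 1 ≤ 9 * u ^ 6 := by linarith
    have h4 : t * (2 * (u ^ 6 + ell + 2) + 1) ≤ u ^ 7 := by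
      calc t * (2 * (u ^ 6 + ell + 2) + 1) ≤ t * (9 * u ^ 6) := mul_le_mul_of_nonneg_left h3 ht
        _ = 9 * t * u ^ 6 := by ring
        _ ≤ u * u ^ 6 := mul_le_mul_of_nonneg_right htu (by positivity)
        _ = u ^ 7 := by ring
    linarith
  have e5 : u ^ 2 * H * (3 * (2 * u ^ 13) / u ^ 6 + t * (2 * (u ^ 6 + ell + 2) + 1)) ≤
      δ * u * n ^ 2 := by
    calc u ^ 2 * H * (3 * (2 * u ^ 13) / u ^ 6 + t * (2 * (u ^ 6 + ell + 2) + 1))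
        ≤ u ^ 2 * H * (7 * u ^ 7) := mul_le_mul_of_nonneg_left e4 (by positivity)
      _ ≤ u ^ 2 * (2 * n) * (7 * u ^ 7) := mul_le_mul_of_nonneg_right
          (mul_le_mul_of_nonneg_left hH (by positivity)) (by positivity)
      _ = 14 * (u ^ 9 * n) := by ring
      _ ≤ δ * u * (n * n) := mul_le_mul h14
          (mul_le_mul_of_nonneg_right ((hp 9 10 (by norm_num)).trans hun) hn0) (by positivity) hd
      _ = δ * u * n ^ 2 := by ring
  have e6 : 6 * (δ * u * n ^ 2) ≤ u * (ε * n ^ 2) := by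
    calc 6 * (δ * u * n ^ 2) = 6 * δ * (u * n ^ 2) := by ring
      _ ≤ ε * (u * n ^ 2) := mul_le_mul_of_nonneg_right hδε (by positivity)
      _ = u * (ε * n ^ 2) := by ring
  have e7 : u * (a - ε * n ^ 2) ≤ u * b := by
    have : u * (a - 3 * (2 * u ^ 13)) = u * a - 6 * u ^ 14 := by ring
    have h' : u * (a - ε * n ^ 2) = u * a - u * (ε * n ^ 2) := by ring
    linarith
  exact le_of_mul_le_mul_left e7 hu0

omit [Fact p.Prime] in
lemma hgood_ultra {K : Type} [NormedField K] [IsUltrametricDist K] {a c : K} {x y : ℝ}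
    (h1 : ‖a - c‖ ≤ y) (h2 : y < x) (h3 : x ≤ ‖a‖) : x ≤ ‖c‖ := by
  have h := IsUltrametricDist.norm_add_le_max (a - c) c
  rw [sub_add_cancel] at h
  rcases le_max_iff.1 (h3.trans h) with h4 | h4
  · linarith
  · exact h4

/-- Apply `old_bound` with `r = u ^ 6`, `m = u`, `Λ = 2 u ^ 13`, `A = F.A y'`, `A0 = blk (F.A y)`
(`F.lip`, `F.cls`; `κ ≤ ph (Cw + 1) n ≤ n ^ 2 ≤ D`, `κ ≥ 3 n / t`). As `hpl + Λ < 2 n ^ 2`, `F.cong`
and the ultrametric inequality give `hΛ`. Divide by `u`: all error terms are at most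
`δ u ^ 20 ≤ δ n ^ 2` by `log_small` (`U1 / u ≤ δ' κ ^ 2`, `(h + ell) q / u`, `U2 u (h + ell)`, ...). -/
theorem good_weight {ph b pp : ℕ} (P : Par p ph b pp) (ht : 0 < Fintype.card ι) (Cw C : ℕ) {ε : ℝ}
    (hε : 0 < ε) : ∃ n0 : ℕ, ∀ (κ0 n ell D u y y' : ℕ) (S : ℕ → Multiset (KP p)) (q : ℕ → ℕ)
      (U1 U2 : ℕ → ℝ) (F : Fam p ι ph b pp κ0 n ell D S q U1 U2), κ0 < ph → n0 ≤ n →
      ell ≤ C * Nat.log 2 n → n ^ 2 ≤ D → Grow p (Fintype.card ι) C q U1 U2 → u ^ 10 ≤ n →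
      n ≤ 1024 * u ^ 10 → y < Cw * n → (p + 1) * n ≤ Fintype.card ι * (κ0 + ph * y) →
      y' ≡ y [MOD p ^ u ^ 6] →
      (p : ℝ) ^ (-(hpl (Fintype.card ι) n + 2 * (u : ℝ) ^ 13)) ≤ ‖F.f.eval (F.w y')‖ →
      Fintype.card ι * ((n / Fintype.card ι : ℕ) : ℝ) ^ 2 / 2 - ε * n ^ 2 ≤
        np p (S (κ0 + ph * y)) (n / Fintype.card ι : ℕ) := by
  set t := Fintype.card ι with htdef
  obtain ⟨δ, hδ, hδ1, hδε⟩ : ∃ δ : ℝ, 0 < δ ∧ δ ≤ 1 ∧ 6 * δ ≤ ε :=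
    ⟨min 1 (ε / 6), lt_min one_pos (by positivity), min_le_left _ _, by
      linarith [min_le_right 1 (ε / 6)]⟩
  obtain ⟨K, hK⟩ : ∃ K, K = ph * Cw := ⟨_, rfl⟩
  obtain ⟨B, hB1, hB2, hB3, hB4, hB5, hB6⟩ : ∃ B : ℕ, C * K ^ 2 ≤ B ∧ K ≤ B ∧ 2 * (t * K + C) ≤ B ∧
      14 ≤ B ∧ 9 * t ≤ B ∧ C ≤ B :=
    ⟨C * K ^ 2 + K + 2 * (t * K + C) + 14 + 9 * t + C, by omega, by omega, by omega, by omega,
      by omega, by omega⟩
  obtain ⟨n1, hn1⟩ := log_small B C hδ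
  obtain ⟨n2, hn2⟩ := log_small B 1 hδ
  refine ⟨max n1 n2, ?_⟩
  intro κ0 n ell D u y y' S q U1 U2 F hκ0 hn hell hD hG hun hnu hy hold hyy hf
  obtain ⟨hBu, hlog⟩ := hn1 n u (le_of_max_le_left hn) hnu
  have hlog1 := (hn2 n u (le_of_max_le_right hn) hnu).2 n
    (Nat.le_mul_of_pos_left n (by omega))
  have hu0 : (0 : ℝ) ≤ u := Nat.cast_nonneg u
  have hδu : δ * u ≤ u := by nlinarith
  have hBu' : B ≤ u := by exact_mod_cast hBu.trans hδu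
  have hu1 : 1 ≤ u := by omega
  have hpw : ∀ i j : ℕ, i ≤ j → u ^ i ≤ u ^ j := fun i j hij => Nat.pow_le_pow_right hu1 hij
  have hu6 : u ≤ u ^ 6 := by simpa using hpw 1 6 (by norm_num)
  have hun1 : u ≤ n := le_trans (by simpa using hpw 1 10 (by norm_num)) hun
  have hellu : ell ≤ u := by
    have h1 : (ell : ℝ) ≤ (C : ℝ) * (Nat.log 2 n : ℝ) := by exact_mod_cast hell
    have h2 : (C : ℝ) * (Nat.log 2 n : ℝ) ≤ (B : ℝ) * (Nat.log 2 n : ℝ) ^ 1 := by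
      rw [pow_one]
      exact mul_le_mul_of_nonneg_right (by exact_mod_cast hB6) (Nat.cast_nonneg _)
    exact_mod_cast h1.trans (h2.trans (hlog1.trans hδu))
  have h9 : t * (9 * u ^ 6) ≤ n := by
    calc t * (9 * u ^ 6) = 9 * t * u ^ 6 := by ring
      _ ≤ u * u ^ 6 := Nat.mul_le_mul_right _ (by omega)
      _ = u ^ 7 := by ring
      _ ≤ n := (hpw 7 10 (by norm_num)).trans hun
  have hκK : κ0 + ph * y ≤ K * n := by
    calc κ0 + ph * y ≤ ph * (y + 1) := by rw [mul_add, mul_one]; omega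
      _ ≤ ph * (Cw * n) := Nat.mul_le_mul_left _ hy
      _ = K * n := by rw [hK, mul_assoc]
  have hκD : κ0 + ph * y ≤ D := by
    calc κ0 + ph * y ≤ K * n := hκK
      _ ≤ n * n := Nat.mul_le_mul_right _ (by omega)
      _ = n ^ 2 := by ring
      _ ≤ D := hD
  have hp2 : 2 ≤ p := (Fact.out : p.Prime).two_le
  have h3n : 3 * n ≤ t * (κ0 + ph * y) := (Nat.mul_le_mul_right n (by omega)).trans hold
  have hκ2 : 2 ≤ κ0 + ph * y := by
    have h1 : t * 2 ≤ t * (9 * u ^ 6) := Nat.mul_le_mul_left _ (by omega)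
    exact Nat.le_of_mul_le_mul_left (by omega : t * 2 ≤ t * (κ0 + ph * y)) ht
  obtain ⟨AW, hW, hU⟩ := F.cls y hκD hκ2
  have htR : (0 : ℝ) < t := by exact_mod_cast ht
  have hnR : (1 : ℝ) ≤ n := by exact_mod_cast hu1.trans hun1
  have huR : (1 : ℝ) ≤ u := by exact_mod_cast hu1
  have hunR : (u : ℝ) ^ 10 ≤ n := by exact_mod_cast hun
  have hΛ : (p : ℝ) ^ (-(hpl t n + 2 * (u : ℝ) ^ 13)) ≤ ‖cf (dmat p ι D * F.A y') n‖ := by
    refine hgood_ultra (F.cong y') ?_ hf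
    refine Real.rpow_lt_rpow_of_exponent_lt (one_lt_p p) (neg_lt_neg ?_)
    have h1 : (n : ℝ) ^ 2 / (2 * t) ≤ (n : ℝ) ^ 2 / 2 := by
      have : (1 : ℝ) ≤ t := by exact_mod_cast ht
      exact div_le_div_of_nonneg_left (by positivity) (by norm_num) (by linarith)
    have h2 : 2 * (u : ℝ) ^ 13 ≤ (n : ℝ) ^ 2 := by
      have h14 : (2 : ℝ) ≤ u := by exact_mod_cast (by omega : 2 ≤ u)
      calc 2 * (u : ℝ) ^ 13 ≤ u * (u : ℝ) ^ 13 := mul_le_mul_of_nonneg_right h14 (by positivity)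
        _ = (u : ℝ) ^ 14 := by ring
        _ ≤ (u : ℝ) ^ 20 := pow_le_pow_right₀ huR (by norm_num)
        _ = ((u : ℝ) ^ 10) ^ 2 := by ring
        _ ≤ (n : ℝ) ^ 2 := pow_le_pow_left₀ (by positivity) hunR 2
    have h3 : (0 : ℝ) < (n : ℝ) ^ 2 := by positivity
    unfold hpl
    linarith
  have hκ : 2 * ((n : ℝ) / t + (((u ^ 6 : ℕ) : ℝ) + ell + 2)) + ((u ^ 6 : ℕ) : ℝ) ≤
      ((κ0 + ph * y : ℕ) : ℝ) := by
    have h1 : 3 * ((n : ℝ) / t) ≤ ((κ0 + ph * y : ℕ) : ℝ) := by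
      rw [← mul_div_assoc, div_le_iff₀' htR]
      exact_mod_cast h3n
    have h2 : ((9 * u ^ 6 : ℕ) : ℝ) ≤ (n : ℝ) / t := by
      rw [le_div_iff₀' htR]
      exact_mod_cast h9
    have h3 : ((3 * u ^ 6 + 2 * ell + 4 : ℕ) : ℝ) ≤ ((9 * u ^ 6 : ℕ) : ℝ) := by
      exact_mod_cast (by omega : 3 * u ^ 6 + 2 * ell + 4 ≤ 9 * u ^ 6)
    push_cast at h2 h3 ⊢
    push_cast at h1
    linarith
  have hH : u ^ 6 + 1 ≤ n / t + ell := by
    have h1 : 9 * u ^ 6 ≤ n / t := (Nat.le_div_iff_mul_le ht).2 (by rw [mul_comm]; exact h9)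
    omega
  have hmain := old_bound ht (r := u ^ 6) (m := u) hκD (F.A y') (F.int y') (blk hκD (F.A y)) AW
    (fun i j => F.int y _ _) (fun i j => F.lip y' y (u ^ 6) hyy _ _) hW _ hU (by omega) hu1 hΛ hκ hH
  rw [Nat.cast_pow] at hmain
  have hκB : κ0 + ph * y ≤ B * n := hκK.trans (Nat.mul_le_mul_right _ hB2)
  have hl := hlog _ hκB
  have hl0 : (0 : ℝ) ≤ (Nat.log 2 (κ0 + ph * y) : ℝ) ^ C := by positivity
  refine hgood_real (Q := ((t * K + C : ℕ) : ℝ)) huR hunR hδ hδε ?_ htR.le ?_ (by positivity) ?_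
    (by exact_mod_cast hellu) ?_ (Nat.cast_nonneg _) ?_ ?_ ?_ hmain
  · exact le_trans (by exact_mod_cast hB4) hBu
  · exact_mod_cast hB5.trans hBu'
  · have h1 : n / t + ell ≤ 2 * n := by
      have := Nat.div_le_self n t
      omega
    exact_mod_cast h1
  · have h1 : q (κ0 + ph * y) ≤ (t * K + C) * n := by
      calc q (κ0 + ph * y) ≤ (p + 1) * q (κ0 + ph * y) := Nat.le_mul_of_pos_left _ (by omega)
        _ ≤ t * (κ0 + ph * y) + C := hG.q_le _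
        _ ≤ t * (K * n) + C * n := add_le_add (Nat.mul_le_mul_left _ hκK)
            (Nat.le_mul_of_pos_right _ (by omega))
        _ = (t * K + C) * n := by ring
    exact_mod_cast h1
  · exact le_trans (by exact_mod_cast hB3) hBu
  · have h1 : ((κ0 + ph * y : ℕ) : ℝ) ≤ (K : ℝ) * n := by exact_mod_cast hκK
    have h2 : (C : ℝ) * (K : ℝ) ^ 2 ≤ B := by exact_mod_cast hB1
    calc U1 (κ0 + ph * y) ≤ _ := hG.u1 _ hκ2
      _ ≤ (C : ℝ) * ((K : ℝ) * n) ^ 2 * (Nat.log 2 (κ0 + ph * y) : ℝ) ^ C :=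
          mul_le_mul_of_nonneg_right (mul_le_mul_of_nonneg_left
            (pow_le_pow_left₀ (Nat.cast_nonneg _) h1 2) (Nat.cast_nonneg _)) hl0
      _ = (C : ℝ) * (K : ℝ) ^ 2 * (Nat.log 2 (κ0 + ph * y) : ℝ) ^ C * (n : ℝ) ^ 2 := by ring
      _ ≤ δ * u * (n : ℝ) ^ 2 := mul_le_mul_of_nonneg_right
          ((mul_le_mul_of_nonneg_right h2 hl0).trans hl) (by positivity)
  · exact (hG.u2 _ hκ2).trans ((mul_le_mul_of_nonneg_right (by exact_mod_cast hB6) hl0).trans hl)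

end Pool.Agent.Lib.MP_88d29b_nt.G
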