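import Pool.Agent.Lib.MP_88d29b_nt.HVol

set_option autoImplicit false

noncomputable section

namespace Pool.Agent.Lib.MP_88d29b_nt.G

open Finset CongruenceSubgroup Matrix
open scoped MatrixGroups

variable (p : ℕ) [Fact p.Prime]

/-- A nonzero integer has `p`-adic norm at least the inverse of its absolute value. -/
theorem inv_le_norm_int {z : ℤ} (hz : z ≠ 0) : |(z : ℝ)|⁻¹ ≤ ‖(z : KP p)‖ := by
  have h1 : (p : ℤ) ^ padicValInt p z ≤ |z| :=
    Int.le_of_dvd (abs_pos.2 hz) ((dvd_abs _ _).2 (padicValInt_dvd z))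
  have h2 : (p : ℝ) ^ padicValInt p z ≤ |(z : ℝ)| := by exact_mod_cast h1
  rw [norm_int_eq, Padic.norm_eq_zpow_neg_valuation (by exact_mod_cast hz),
    Padic.valuation_intCast, _root_.zpow_neg, _root_.zpow_natCast]
  exact inv_anti₀ (pow_pos (p_pos p) _) h2

/-- Finitely many numbers below `δ` have a common bound below `δ`. -/
theorem gram_fin {T : Type} [Finite T] (v : T → ℝ) {δ : ℝ} (hδ : 0 < δ) (h : ∀ t, v t < δ) :
    ∃ x, 0 ≤ x ∧ x < δ ∧ ∀ t, v t ≤ x := by
  cases isEmpty_or_nonempty T with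
  | inl _ => exact ⟨0, le_rfl, hδ, fun t => isEmptyElim t⟩
  | inr _ =>
    obtain ⟨t0, ht0⟩ := Finite.exists_max v
    exact ⟨max 0 (v t0), le_max_left _ _, max_lt hδ (h t0),
      fun t => (ht0 t).trans (le_max_right _ _)⟩

/-- The weighted Gram matrix of independent rows has full rank. -/
theorem gram_rank {K Λ N : Type} [Field K] [Fintype Λ] [DecidableEq Λ] [Fintype N] [DecidableEq N]
    (E : Matrix Λ N K) (hind : ∀ a : Λ → K, a ᵥ* E = 0 → a = 0) (w : Λ → K) (hw : ∀ i, w i ≠ 0) :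
    Fintype.card Λ ≤ (Eᵀ * Matrix.diagonal w * E).rank := by
  obtain ⟨L, hL⟩ := (Matrix.toLin' Eᵀ).exists_leftInverse_of_injective (by
    rw [LinearMap.ker_eq_bot']
    intro a ha
    rw [Matrix.toLin'_apply, Matrix.mulVec_transpose] at ha
    exact hind a ha)
  have h1 : LinearMap.toMatrix' L * Eᵀ = 1 := by
    have := congrArg LinearMap.toMatrix' hL
    rwa [LinearMap.toMatrix'_comp, LinearMap.toMatrix'_toLin', LinearMap.toMatrix'_id] at this
  have h2 : E * (LinearMap.toMatrix' L)ᵀ = 1 := by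
    have := congrArg Matrix.transpose h1
    rwa [Matrix.transpose_mul, Matrix.transpose_transpose, Matrix.transpose_one] at this
  have h3 : LinearMap.toMatrix' L * (Eᵀ * Matrix.diagonal w * E) * (LinearMap.toMatrix' L)ᵀ =
      Matrix.diagonal w := by
    rw [← Matrix.mul_assoc, ← Matrix.mul_assoc, h1, Matrix.one_mul, Matrix.mul_assoc, h2,
      Matrix.mul_one]
  have h4 : (Matrix.diagonal w).rank = Fintype.card Λ := by
    refine Matrix.rank_of_isUnit _ ((Matrix.isUnit_iff_isUnit_det _).2 (Ne.isUnit ?_))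
    rw [Matrix.det_diagonal]
    exact Finset.prod_ne_zero_iff.2 fun i _ => hw i
  rw [← h4]
  exact (congrArg Matrix.rank h3).ge.trans
    ((Matrix.rank_mul_le_left _ _).trans (Matrix.rank_mul_le_right _ _))

/-- The archimedean bound for an integer minor. -/
theorem gram_abs {N : Type} (G : Matrix N N ℤ) {X : ℝ} (hX : 1 ≤ X)
    (hG : ∀ i j, |(G i j : ℝ)| ≤ X) {w σ : ℕ} (hw : w ≤ σ) (hσ : 1 ≤ σ) (f g : Fin w → N) :
    |(((G.submatrix f g).det : ℤ) : ℝ)| ≤ ((σ : ℝ) * X) ^ σ := by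
  have h1 : (((G.submatrix f g).det : ℤ) : ℝ) =
      ((G.submatrix f g).map (Int.castRingHom ℝ)).det := by
    rw [← RingHom.mapMatrix_apply, ← RingHom.map_det]
    rfl
  have h2 := Matrix.det_le (A := (G.submatrix f g).map (Int.castRingHom ℝ))
    (abv := AbsoluteValue.abs) (x := X) fun i j => hG _ _
  rw [Fintype.card_fin, nsmul_eq_mul] at h2
  have hσ' : (1 : ℝ) ≤ σ := by exact_mod_cast hσ
  have h3 : (w.factorial : ℝ) ≤ (σ : ℝ) ^ σ := by
    have : w.factorial ≤ σ ^ σ := (Nat.factorial_le hw).trans (Nat.factorial_le_pow σ)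
    exact_mod_cast this
  rw [h1, mul_pow]
  exact h2.trans (mul_le_mul h3 (pow_le_pow_right₀ hX hw) (by positivity) (by positivity))

/-- Let `σ = |Λ|`. If `σ ≤ 2 q` take `s = 0`. Otherwise `G_c = Eᵀ diag(mult) E` has rank `σ`, so `G`
has rank at least `w = σ - q` and a nonzero minor of size `w`, an integer of absolute value at most
`w ! X ^ w ≤ (σ X) ^ σ` (`Matrix.det_le`). Write `G = G_c + G'`; `G'` is integral of rank at most `q`.
By `norm_det_add_le` some minor of `G_c` of size at least `w - q` has norm at least `(σ X) ^ (-σ)`,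
and by `norm_det_mul_le` so has a minor of `E` of the same size. -/
theorem gram_minor {Λ N : Type} [Fintype Λ] [DecidableEq Λ] [Fintype N] [DecidableEq N]
    (E : Matrix Λ N (KP p)) (hE : EntLe E 1) (hind : ∀ a : Λ → KP p, a ᵥ* E = 0 → a = 0)
    (mult : Λ → ℕ) (hm : ∀ i, 0 < mult i) (G : Matrix N N ℤ) {X : ℝ} (hX : 1 ≤ X)
    (hG : ∀ i j, |(G i j : ℝ)| ≤ X) {q : ℕ}
    (hq : (zm (KP p) G - Eᵀ * Matrix.diagonal (fun i => (mult i : KP p)) * E).rank ≤ q) :
    ∃ (s : ℕ) (f : Fin s → Λ) (g : Fin s → N), Function.Injective f ∧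
      Fintype.card Λ ≤ s + 2 * q ∧
      (((Fintype.card Λ : ℝ) * X) ^ Fintype.card Λ)⁻¹ ≤ ‖(E.submatrix f g).det‖ := by
  obtain ⟨σ, hσ⟩ : ∃ σ, σ = Fintype.card Λ := ⟨_, rfl⟩
  rw [← hσ]
  by_cases hq2 : σ ≤ 2 * q
  · refine ⟨0, Fin.elim0, Fin.elim0, fun a => a.elim0, by omega, ?_⟩
    rw [Matrix.det_isEmpty, norm_one]
    refine inv_le_one_of_one_le₀ ?_
    rcases Nat.eq_zero_or_pos σ with h | h
    · rw [h, pow_zero]
    · have : (1 : ℝ) ≤ σ := by exact_mod_cast h
      exact one_le_pow₀ (one_le_mul_of_one_le_of_one_le this hX)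
  have hσ1 : 1 ≤ σ := by omega
  have hσ' : (1 : ℝ) ≤ σ := by exact_mod_cast hσ1
  have hδ : 0 < (((σ : ℝ) * X) ^ σ)⁻¹ := by positivity
  by_contra hcon
  have hlt : ∀ (s : ℕ) (f : Fin s → Λ) (g : Fin s → N), σ ≤ s + 2 * q →
      ‖(E.submatrix f g).det‖ < (((σ : ℝ) * X) ^ σ)⁻¹ := by
    intro s f g hs
    by_cases hf : Function.Injective f
    · by_contra c
      exact hcon ⟨s, f, g, hf, hs, not_lt.1 c⟩
    · obtain ⟨i, j, hij, hne⟩ := Function.not_injective_iff.1 hf
      rw [Matrix.det_zero_of_row_eq hne (by funext k; simp [hij]), norm_zero]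
      exact hδ
  obtain ⟨x, hx0, hxδ, hx⟩ := gram_fin
    (T := {t : Σ s : Fin (σ + 1), (Fin s → Λ) × (Fin s → N) // σ ≤ t.1 + 2 * q})
    (fun t => ‖(E.submatrix t.1.2.1 t.1.2.2).det‖) hδ fun t => hlt _ _ _ t.2
  have hx' : ∀ (s : ℕ) (f : Fin s → Λ) (g : Fin s → N), s ≤ σ → σ ≤ s + 2 * q →
      ‖(E.submatrix f g).det‖ ≤ x := fun s f g h1 h2 =>
    hx ⟨⟨⟨s, Nat.lt_succ_of_le h1⟩, f, g⟩, h2⟩
  obtain ⟨D, hD⟩ : ∃ D, D = Matrix.diagonal (fun i => (mult i : KP p)) := ⟨_, rfl⟩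
  have hD1 : EntLe D 1 := by
    intro i j
    rw [hD, Matrix.diagonal_apply]
    split_ifs
    · exact IsUltrametricDist.norm_natCast_le_one _ _
    · simp
  have hrk : σ ≤ (Eᵀ * D * E).rank := by
    rw [hσ, hD]
    exact gram_rank E hind _ fun i => by exact_mod_cast (hm i).ne'
  rw [← hD] at hq
  have hED : EntLe (Eᵀ * D) 1 := by
    have := EntLe.mul zero_le_one zero_le_one (Y := Eᵀ) (fun i j => hE j i) hD1
    rwa [one_mul] at this
  have hGc : EntLe (Eᵀ * D * E) 1 := by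
    have := EntLe.mul zero_le_one zero_le_one hED hE
    rwa [one_mul] at this
  have hG' : EntLe (zm (KP p) G - Eᵀ * D * E) 1 := (entLe_zm G).sub hGc
  have hrkG : σ - q ≤ (zm (KP p) G).rank := by
    have := rank_sub_le' (zm (KP p) G) (zm (KP p) G - Eᵀ * D * E)
    rw [sub_sub_cancel] at this
    omega
  obtain ⟨f, g, hfg⟩ := exists_minor_ne_zero _ hrkG
  have e1 : ((zm (KP p) G).submatrix f g).det = (((G.submatrix f g).det : ℤ) : KP p) := by
    have := (Int.castRingHom (KP p)).map_det (G.submatrix f g)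
    exact this.symm
  have hz : (G.submatrix f g).det ≠ 0 := by
    intro h
    rw [e1, h, Int.cast_zero] at hfg
    exact hfg rfl
  have hlow : (((σ : ℝ) * X) ^ σ)⁻¹ ≤ ‖((zm (KP p) G).submatrix f g).det‖ := by
    rw [e1]
    refine le_trans ?_ (inv_le_norm_int p hz)
    exact inv_anti₀ (abs_pos.2 (by exact_mod_cast hz))
      (gram_abs G hX hG (Nat.sub_le _ _) hσ1 f g)
  have hup : ‖((zm (KP p) G).submatrix f g).det‖ ≤ x := by
    have e2 : (zm (KP p) G).submatrix f g =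
        (Eᵀ * D * E).submatrix f g + (zm (KP p) G - Eᵀ * D * E).submatrix f g := by
      ext i j
      simp
    rw [e2]
    refine norm_det_add_le _ _ hx0 fun a b f1 g1 f2 g2 hab => ?_
    rw [Matrix.submatrix_submatrix, Matrix.submatrix_submatrix]
    by_cases hb : q < b
    · rw [det_minor_eq_zero _ (hq.trans_lt hb), norm_zero, mul_zero]
      exact hx0
    · have h1 : ‖((Eᵀ * D * E).submatrix (f ∘ f1) (g ∘ g1)).det‖ ≤ x := by
        rw [Matrix.submatrix_mul _ _ _ id _ Function.bijective_id]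
        refine norm_det_mul_le _ _ hx0 fun φ => ?_
        rw [Matrix.submatrix_submatrix, Matrix.submatrix_submatrix]
        have a1 := hED.volLe a ((f ∘ f1) ∘ id) (id ∘ φ)
        have a2 := hx' a (id ∘ φ) ((g ∘ g1) ∘ id) (by omega) (by omega)
        exact (mul_le_mul a1 a2 (norm_nonneg _) zero_le_one).trans (one_mul x).le
      have h2 := hG'.volLe b (f ∘ f2) (g ∘ g2)
      exact (mul_le_mul h1 h2 (norm_nonneg _) hx0).trans (mul_one x).le
  linarith

end Pool.Agent.Lib.MP_88d29b_nt.G
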