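import Pool.Agent.Lib.MP_88d29b_nt.HDefs

set_option autoImplicit false

noncomputable section

namespace Pool.Agent.Lib.MP_88d29b_nt.G

open Finset CongruenceSubgroup Matrix
open scoped MatrixGroups

lemma hgrow_log {p A C κ e : ℕ} (hp : 2 ≤ p) (hκ : 2 ≤ κ) (he : e ≤ A * κ) :
    (e : ℝ) * Real.logb p ((e : ℝ) * ((κ : ℝ) + 2) ^ (C * (κ + 2)))
      ≤ ((A * κ * ((A + 2 + 6 * C) * κ * Nat.log 2 κ) : ℕ) : ℝ) := by
  rcases Nat.eq_zero_or_pos e with rfl | he0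
  · rw [Nat.cast_zero, zero_mul]
    exact Nat.cast_nonneg _
  set L := Nat.log 2 κ with hL
  have hL1 : 1 ≤ L := Nat.log_pos (by norm_num) hκ
  have h1 : κ < 2 ^ (L + 1) := Nat.lt_pow_succ_log_self (by norm_num) κ
  have h2 : κ + 2 ≤ 2 ^ (L + 2) := by rw [pow_succ]; omega
  have h3 : A ≤ 2 ^ A := Nat.lt_two_pow_self.le
  have h4 : e * (κ + 2) ^ (C * (κ + 2)) ≤ 2 ^ (A + (L + 1) + (L + 2) * (C * (κ + 2))) := by
    rw [pow_add, pow_add, pow_mul]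
    exact Nat.mul_le_mul (he.trans (Nat.mul_le_mul h3 h1.le)) (by
      rw [← pow_mul, pow_mul 2]; exact Nat.pow_le_pow_left h2 _)
  have h5 : A + (L + 1) + (L + 2) * (C * (κ + 2)) ≤ (A + 2 + 6 * C) * κ * L := by
    have a1 : 1 ≤ κ * L := Nat.mul_pos (by omega) hL1
    have a2 : A ≤ A * (κ * L) := Nat.le_mul_of_pos_right _ a1
    have a3 : L ≤ κ * L := Nat.le_mul_of_pos_left _ (by omega)
    have a4 : (L + 2) * (C * (κ + 2)) ≤ (3 * L) * (C * (2 * κ)) :=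
      Nat.mul_le_mul (by omega) (Nat.mul_le_mul_left _ (by omega))
    have a5 : (A + 2 + 6 * C) * κ * L = A * (κ * L) + 2 * (κ * L) + (3 * L) * (C * (2 * κ)) := by
      ring
    omega
  have h6 : e * (κ + 2) ^ (C * (κ + 2)) ≤ p ^ ((A + 2 + 6 * C) * κ * L) :=
    h4.trans ((Nat.pow_le_pow_right (by norm_num) h5).trans (Nat.pow_le_pow_left hp _))
  have hp1 : (1 : ℝ) < p := by exact_mod_cast hp
  have he1 : (0 : ℝ) < e := by exact_mod_cast he0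
  have h7 : Real.logb p ((e : ℝ) * ((κ : ℝ) + 2) ^ (C * (κ + 2)))
      ≤ (((A + 2 + 6 * C) * κ * L : ℕ) : ℝ) := by
    rw [Real.logb_le_iff_le_rpow hp1 (by positivity), Real.rpow_natCast]
    exact_mod_cast h6
  rw [Nat.cast_mul (A * κ)]
  exact (mul_le_mul_of_nonneg_left h7 he1.le).trans
    (mul_le_mul_of_nonneg_right (by exact_mod_cast he) (Nat.cast_nonneg _))

open Classical in
/-- Elementary estimates: `d κ ≤ C1 κ`, `log_p (d X) ≤ log_2 (d X) ≤ C2 κ log_2 κ` for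
`X = (κ + 2) ^ (C (κ + 2))`. -/
theorem grow_std {p t : ℕ} (hp : 2 ≤ p) (μ C : ℕ) (ht : 6 * t = (p + 1) * μ) (d : ℕ → ℕ)
    (hd : ∀ κ, Even κ → 2 ≤ κ → 6 * d κ ≤ μ * κ + C) : ∃ C' : ℕ, 9 ≤ C' ∧ Grow p t C'
      (fun κ => if Even κ ∧ 2 ≤ κ then d κ + 2 else 0)
      (fun κ => if Even κ then 2 * ((C * Nat.log 2 κ ^ C : ℕ) : ℝ) *
        ((d κ : ℝ) * Real.logb p ((d κ : ℝ) * ((κ : ℝ) + 2) ^ (C * (κ + 2)))) else 0)
      (fun κ => 3 + (C : ℝ) + 2 * (C : ℝ) ^ 2 * ((C * Nat.log 2 κ ^ C : ℕ) : ℝ)) := by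
  obtain ⟨C', h9, hq, hu, hC1, hv⟩ : ∃ C' : ℕ, 9 ≤ C' ∧ (p + 1) * (C + 2) ≤ C' ∧
      2 * C * (μ + C) * (μ + C + 2 + 6 * C) ≤ C' ∧ C + 1 ≤ C' ∧ 3 + C + 2 * C ^ 3 ≤ C' :=
    ⟨9 + (p + 1) * (C + 2) + 2 * C * (μ + C) * (μ + C + 2 + 6 * C) + (C + 1) + (3 + C + 2 * C ^ 3),
      by omega, by omega, by omega, by omega, by omega⟩
  refine ⟨C', h9, fun κ => ?_, fun κ hκ => ?_, fun κ hκ => ?_⟩
  · split_ifs with h
    · have h1 := Nat.mul_le_mul_left (p + 1) (hd κ h.1 h.2)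
      have h2 : (p + 1) * (μ * κ + C) = 6 * (t * κ) + (p + 1) * C := by
        rw [mul_add, ← mul_assoc, ← ht, mul_assoc]
      have h3 : (p + 1) * (6 * d κ) = 6 * ((p + 1) * d κ) := by ring
      have h4 : (p + 1) * (d κ + 2) = (p + 1) * d κ + (p + 1) * 2 := by ring
      have h5 : (p + 1) * (C + 2) = (p + 1) * C + (p + 1) * 2 := by ring
      omega
    · simp
  · split_ifs with h
    · have hL1 : 1 ≤ Nat.log 2 κ := Nat.log_pos (by norm_num) hκ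
      have he : d κ ≤ (μ + C) * κ := by
        have h1 := hd κ h hκ
        have h2 : C ≤ C * κ := Nat.le_mul_of_pos_right _ (by omega)
        rw [add_mul]
        omega
      refine (mul_le_mul_of_nonneg_left (hgrow_log (C := C) hp hκ he) (by positivity)).trans ?_
      have h3 : 2 * (C * Nat.log 2 κ ^ C) *
          ((μ + C) * κ * ((μ + C + 2 + 6 * C) * κ * Nat.log 2 κ))
          ≤ C' * κ ^ 2 * Nat.log 2 κ ^ C' := by
        calc 2 * (C * Nat.log 2 κ ^ C) * ((μ + C) * κ * ((μ + C + 2 + 6 * C) * κ * Nat.log 2 κ))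
            = 2 * C * (μ + C) * (μ + C + 2 + 6 * C) * κ ^ 2 * Nat.log 2 κ ^ (C + 1) := by ring
          _ ≤ _ := Nat.mul_le_mul (Nat.mul_le_mul_right _ hu) (Nat.pow_le_pow_right hL1 hC1)
      exact_mod_cast h3
    · positivity
  · have hL1 : 1 ≤ Nat.log 2 κ := Nat.log_pos (by norm_num) hκ
    have h1 : 1 ≤ Nat.log 2 κ ^ C := Nat.one_le_pow _ _ hL1
    have h3 : 3 + C + 2 * C ^ 2 * (C * Nat.log 2 κ ^ C) ≤ C' * Nat.log 2 κ ^ C' := by
      calc 3 + C + 2 * C ^ 2 * (C * Nat.log 2 κ ^ C)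
          ≤ (3 + C) * Nat.log 2 κ ^ C + 2 * C ^ 2 * (C * Nat.log 2 κ ^ C) :=
            Nat.add_le_add_right (Nat.le_mul_of_pos_right _ h1) _
        _ = (3 + C + 2 * C ^ 3) * Nat.log 2 κ ^ C := by ring
        _ ≤ _ := Nat.mul_le_mul hv (Nat.pow_le_pow_right hL1 (by omega))
    exact_mod_cast h3

end Pool.Agent.Lib.MP_88d29b_nt.G
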