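import Pool.Agent.Lib.MP_88d29b_nt.HVol

set_option autoImplicit false

noncomputable section

namespace Pool.Agent.Lib.MP_88d29b_nt.G

open Finset CongruenceSubgroup Matrix
open scoped MatrixGroups

variable {p : ℕ} [Fact p.Prime] {ι : Type} [Fintype ι] [DecidableEq ι]

theorem hhodge_sum_le (m : ℕ) (J : ℝ) (hJ : -1 ≤ J) :
    ∑ d ∈ range m, max 0 (J - (d : ℝ)) ≤ (J + 1) ^ 2 / 2 := by
  induction m generalizing J with
  | zero =>
    rw [sum_range_zero]
    positivity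
  | succ m ih =>
    by_cases h0 : 0 ≤ J
    · rw [sum_range_succ']
      have h1 := ih (J - 1) (by linarith)
      have h2 : ∑ d ∈ range m, max 0 (J - ((d + 1 : ℕ) : ℝ))
          = ∑ d ∈ range m, max 0 (J - 1 - (d : ℝ)) := by
        refine sum_congr rfl fun d _ => ?_
        push_cast
        rw [show J - ((d : ℝ) + 1) = J - 1 - d by ring]
      rw [h2, Nat.cast_zero, sub_zero, max_eq_right h0]
      nlinarith
    · rw [sum_eq_zero]
      · positivity
      · intro d _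
        have h3 : (0 : ℝ) ≤ d := Nat.cast_nonneg d
        exact max_eq_left (by linarith)

theorem hhodge_cf_eq {K n : Type} [NormedField K] [Fintype n] [DecidableEq n] (P : Matrix n n K)
    (k : ℕ) : cf P k = ∑ s ∈ (univ : Finset n).powersetCard k,
      (-1) ^ k * (P.submatrix (Subtype.val : s → n) (Subtype.val : s → n)).det := by
  have h : P.charpolyRev = det (1 + (Polynomial.X : Polynomial K) • (-P).map Polynomial.C) := by
    simp only [charpolyRev, sub_eq_add_neg]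
    congr 2
    rw [Matrix.map_neg Polynomial.C (map_neg Polynomial.C) P, smul_neg]
  rw [cf, h, coeff_det_one_add_X_smul_eq_sum_minors]
  simp only [submatrix_neg, Pi.neg_apply, det_neg, Fintype.card_coe]
  exact sum_congr rfl fun s hs => by rw [(mem_powersetCard.1 hs).2]

theorem hhodge_minor {D : ℕ} (A : Matrix (Jx ι D) (Jx ι D) (KP p)) (I : Finset (Jx ι D)) (n : ℕ) :
    ‖(-1) ^ n * ((dmat p ι D * A).submatrix (Subtype.val : I → Jx ι D)
      (Subtype.val : I → Jx ι D)).det‖ = (p : ℝ) ^ (-(∑ i ∈ I, ((i.2 : ℕ) : ℝ))) *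
        ‖(A.submatrix (Subtype.val : I → Jx ι D) (Subtype.val : I → Jx ι D)).det‖ := by
  have h1 : (dmat p ι D * A).submatrix (Subtype.val : I → Jx ι D) (Subtype.val : I → Jx ι D)
      = Matrix.diagonal (fun i : I => (p : KP p) ^ (i.1.2 : ℕ)) *
        A.submatrix (Subtype.val : I → Jx ι D) (Subtype.val : I → Jx ι D) := by
    ext i j
    simp [dmat, Matrix.diagonal_mul]
  rw [h1, det_mul, det_diagonal, prod_coe_sort I (fun i => (p : KP p) ^ (i.2 : ℕ)),
    prod_pow_eq_pow_sum, norm_mul, norm_mul, norm_pow, norm_neg, norm_one, one_pow, one_mul,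
    norm_p_pow, Nat.cast_sum]

/-- With `J = n / t`: `∑_I (J - deg) = ∑_all (J - deg)⁺ - ∑_(Iᶜ) (J - deg)⁺ - ∑_I (deg - J)⁺` and
`∑_all (J - deg)⁺ ≤ t (J + 1) ^ 2 / 2`. -/
theorem hodge_pen (ht : 0 < Fintype.card ι) {D n : ℕ} (I : Finset (Jx ι D)) (hI : I.card = n) :
    hpl (Fintype.card ι) n + ∑ i ∈ I, max 0 (((i.2 : ℕ) : ℝ) - (n : ℝ) / Fintype.card ι) +
      ∑ i ∈ Iᶜ, max 0 ((n : ℝ) / Fintype.card ι - ((i.2 : ℕ) : ℝ)) ≤ ∑ i ∈ I, ((i.2 : ℕ) : ℝ) := by
  have ht' : (0 : ℝ) < Fintype.card ι := by exact_mod_cast ht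
  set J : ℝ := (n : ℝ) / Fintype.card ι with hJ
  have hJ0 : 0 ≤ J := by positivity
  have h1 : ∑ i : Jx ι D, max 0 (J - ((i.2 : ℕ) : ℝ)) ≤ Fintype.card ι * ((J + 1) ^ 2 / 2) := by
    rw [Fintype.sum_prod_type]
    simp only [Fin.sum_univ_eq_sum_range (fun d => max 0 (J - (d : ℝ))) (D + 1)]
    rw [sum_const, card_univ, nsmul_eq_mul]
    exact mul_le_mul_of_nonneg_left (hhodge_sum_le _ J (by linarith)) ht'.le
  have h2 := sum_add_sum_compl I (fun i : Jx ι D => max 0 (J - ((i.2 : ℕ) : ℝ)))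
  have h3 : ∑ i ∈ I, ((i.2 : ℕ) : ℝ) = ∑ i ∈ I, (J - max 0 (J - ((i.2 : ℕ) : ℝ)) +
      max 0 (((i.2 : ℕ) : ℝ) - J)) := by
    refine sum_congr rfl fun i _ => ?_
    rcases le_total J ((i.2 : ℕ) : ℝ) with h | h
    · rw [max_eq_left (by linarith), max_eq_right (by linarith)]
      ring
    · rw [max_eq_right (by linarith), max_eq_left (by linarith)]
      ring
  rw [sum_add_distrib, sum_sub_distrib, sum_const, hI, nsmul_eq_mul] at h3
  have h4 : hpl (Fintype.card ι) n = n * J - Fintype.card ι * ((J + 1) ^ 2 / 2) := by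
    rw [hpl, hJ]
    field_simp
    ring
  linarith

/-- `cf P n` is, up to sign, the sum of the principal minors of size `n`
(`Matrix.coeff_det_one_add_X_smul_eq_sum_minors` for `- P`). -/
theorem cf_le {D : ℕ} (A : Matrix (Jx ι D) (Jx ι D) (KP p)) (n : ℕ) {x : ℝ} (hx : 0 ≤ x)
    (h : ∀ I : Finset (Jx ι D), I.card = n → (p : ℝ) ^ (-(∑ i ∈ I, ((i.2 : ℕ) : ℝ))) *
      ‖(A.submatrix (Subtype.val : I → Jx ι D) (Subtype.val : I → Jx ι D)).det‖ ≤ x) :
    ‖cf (dmat p ι D * A) n‖ ≤ x := by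
  rw [hhodge_cf_eq]
  refine IsUltrametricDist.norm_sum_le_of_forall_le_of_nonneg hx fun I hI => ?_
  rw [hhodge_minor]
  exact h I (mem_powersetCard.1 hI).2

/-- One of the principal minors is as large as their sum. -/
theorem exists_le_minor {D : ℕ} (A : Matrix (Jx ι D) (Jx ι D) (KP p)) (n : ℕ) {x : ℝ} (hx : 0 < x)
    (h : x ≤ ‖cf (dmat p ι D * A) n‖) : ∃ I : Finset (Jx ι D), I.card = n ∧
      x ≤ (p : ℝ) ^ (-(∑ i ∈ I, ((i.2 : ℕ) : ℝ))) *
        ‖(A.submatrix (Subtype.val : I → Jx ι D) (Subtype.val : I → Jx ι D)).det‖ := by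
  rw [hhodge_cf_eq] at h
  rcases ((univ : Finset (Jx ι D)).powersetCard n).eq_empty_or_nonempty with h0 | h0
  · rw [h0, sum_empty, norm_zero] at h
    exact absurd hx (not_lt.2 h)
  · obtain ⟨I, hI, hle⟩ := IsUltrametricDist.exists_norm_finsetSum_le_of_nonempty h0
      (fun I : Finset (Jx ι D) => (-1) ^ n * ((dmat p ι D * A).submatrix
        (Subtype.val : I → Jx ι D) (Subtype.val : I → Jx ι D)).det)
    refine ⟨I, (mem_powersetCard.1 hI).2, ?_⟩
    rw [← hhodge_minor A I n]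
    exact h.trans hle

theorem cf_hodge (ht : 0 < Fintype.card ι) {D : ℕ} (A : Matrix (Jx ι D) (Jx ι D) (KP p))
    (hA : EntLe A 1) (n : ℕ) :
    ‖cf (dmat p ι D * A) n‖ ≤ (p : ℝ) ^ (-hpl (Fintype.card ι) n) := by
  refine cf_le A n (Real.rpow_nonneg (p_pos p).le _) fun I hI => ?_
  have h1 : ‖(A.submatrix (Subtype.val : I → Jx ι D) (Subtype.val : I → Jx ι D)).det‖ ≤ 1 :=
    (hA.volLe.submatrix _ _).det_le
  have h2 := hodge_pen ht I hI
  have h3 : 0 ≤ ∑ i ∈ I, max 0 (((i.2 : ℕ) : ℝ) - (n : ℝ) / Fintype.card ι) :=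
    sum_nonneg fun i _ => le_max_left _ _
  have h4 : 0 ≤ ∑ i ∈ Iᶜ, max 0 ((n : ℝ) / Fintype.card ι - ((i.2 : ℕ) : ℝ)) :=
    sum_nonneg fun i _ => le_max_left _ _
  refine (mul_le_of_le_one_right (Real.rpow_nonneg (p_pos p).le _) h1).trans ?_
  exact Real.rpow_le_rpow_of_exponent_le (one_lt_p p).le (by linarith)

theorem cf_smul {n : Type} [Fintype n] [DecidableEq n] (a : KP p) (P : Matrix n n (KP p)) (k : ℕ) :
    cf (a • P) k = a ^ k * cf P k := by
  rw [hhodge_cf_eq, hhodge_cf_eq, mul_sum]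
  refine sum_congr rfl fun s hs => ?_
  have h1 : (a • P).submatrix (Subtype.val : s → n) (Subtype.val : s → n)
      = a • P.submatrix (Subtype.val : s → n) (Subtype.val : s → n) := rfl
  rw [h1, det_smul, Fintype.card_coe, (mem_powersetCard.1 hs).2]
  ring

open Classical in
omit [DecidableEq ι] in
/-- The number of indices with degree in `[a, b]`. -/
theorem card_band (D : ℕ) (a b : ℝ) :
    ((univ.filter fun i : Jx ι D => a ≤ ((i.2 : ℕ) : ℝ) ∧ ((i.2 : ℕ) : ℝ) ≤ b).card : ℝ) ≤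
      Fintype.card ι * max 0 (b - a + 1) := by
  have h1 : (univ.filter fun i : Jx ι D => a ≤ ((i.2 : ℕ) : ℝ) ∧ ((i.2 : ℕ) : ℝ) ≤ b).card
      ≤ ((univ : Finset ι) ×ˢ Icc ⌈a⌉ ⌊b⌋).card := by
    refine card_le_card_of_injOn (fun i => (i.1, ((i.2 : ℕ) : ℤ))) ?_ ?_
    · intro i hi
      have h2 := (mem_filter.1 (mem_coe.1 hi)).2
      refine mem_coe.2 (mem_product.2 ⟨mem_univ _, mem_Icc.2 ⟨?_, ?_⟩⟩)
      · exact Int.ceil_le.2 (by exact_mod_cast h2.1)
      · exact Int.le_floor.2 (by exact_mod_cast h2.2)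
    · intro i _ j _ hij
      have h2 := Prod.ext_iff.1 hij
      exact Prod.ext h2.1 (Fin.ext (Int.natCast_inj.1 h2.2))
  rw [card_product, card_univ, Int.card_Icc] at h1
  have h3 : (((⌊b⌋ + 1 - ⌈a⌉).toNat : ℕ) : ℝ) ≤ max 0 (b - a + 1) := by
    rcases le_total 0 (⌊b⌋ + 1 - ⌈a⌉) with h | h
    · have h4 : (((⌊b⌋ + 1 - ⌈a⌉).toNat : ℕ) : ℝ) = ((⌊b⌋ + 1 - ⌈a⌉ : ℤ) : ℝ) := by
        rw [← Int.cast_natCast, Int.toNat_of_nonneg h]
      rw [h4]
      push_cast
      refine le_trans ?_ (le_max_right _ _)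
      linarith [Int.floor_le b, Int.le_ceil a]
    · rw [Int.toNat_of_nonpos h, Nat.cast_zero]
      exact le_max_left _ _
  refine le_trans ?_ (mul_le_mul_of_nonneg_left h3 (Nat.cast_nonneg _))
  exact_mod_cast h1

end Pool.Agent.Lib.MP_88d29b_nt.G
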