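import Pool.Agent.Lib.MP_88d29b_nt.HProj

set_option autoImplicit false

noncomputable section

namespace Pool.Agent.Lib.MP_88d29b_nt.G

open Finset CongruenceSubgroup Matrix
open scoped MatrixGroups

variable {K : Type} [NormedField K] [IsUltrametricDist K] {n : Type} [Fintype n] [DecidableEq n]

omit [IsUltrametricDist K] in
lemma hidem_mul {A B : Matrix n n K} (hA : A * A = A)
    (h : LinearMap.range (Matrix.toLin' B) ≤ LinearMap.range (Matrix.toLin' A)) : A * B = B := by
  apply Matrix.toLin'.injective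
  refine LinearMap.ext fun x => ?_
  obtain ⟨y, hy⟩ := h (LinearMap.mem_range_self _ x)
  rw [Matrix.toLin'_mul, LinearMap.comp_apply, ← hy, ← LinearMap.comp_apply, ← Matrix.toLin'_mul, hA]

omit [Fintype n] [DecidableEq n] in
lemma hidem_eta {s : ℕ} (E : Fin (s + 1) → Matrix n n K) (c : Matrix (Fin (s + 1)) (Fin (s + 1)) K)
    (hc : EntLe c 1) (hdet : c.det ≠ 0) (hint : ∀ a, EntLe (∑ j, c j a • E j) 1) :
    ∃ (a0 : Fin (s + 1)) (η : K), η ≠ 0 ∧ ‖η‖ ≤ 1 ∧ EntLe (η • E 0) 1 ∧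
      ‖c.det‖ = ‖η‖ * ‖(c.submatrix Fin.succ a0.succAbove).det‖ := by
  obtain ⟨a0, -, ha0⟩ := exists_max_image univ (fun a => ‖c.adjugate a 0‖) univ_nonempty
  have key : ∀ j, ∑ a, c j a * c.adjugate a 0 = if j = 0 then c.det else 0 := fun j => by
    rw [← Matrix.mul_apply, Matrix.mul_adjugate, Matrix.smul_apply, Matrix.one_apply]
    simp
  have hμ : c.adjugate a0 0 ≠ 0 := by
    intro h
    apply hdet
    have h1 := key 0
    rw [if_pos rfl] at h1
    rw [← h1]
    refine sum_eq_zero fun a _ => ?_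
    have h2 := ha0 a (mem_univ a)
    rw [h, norm_zero] at h2
    rw [norm_le_zero_iff.mp h2, mul_zero]
  have hu : ∀ a, ‖c.adjugate a 0 / c.adjugate a0 0‖ ≤ 1 := fun a => by
    rw [norm_div]
    exact div_le_one_of_le₀ (ha0 a (mem_univ a)) (norm_nonneg _)
  have key' : ∀ j, ∑ a, c j a * (c.adjugate a 0 / c.adjugate a0 0) =
      if j = 0 then c.det / c.adjugate a0 0 else 0 := fun j => by
    simp only [← mul_div_assoc, ← sum_div, key]
    split_ifs
    · rfl
    · exact zero_div _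
  refine ⟨a0, c.det / c.adjugate a0 0, div_ne_zero hdet hμ, ?_, ?_, ?_⟩
  · have h1 := key' 0
    rw [if_pos rfl] at h1
    rw [← h1]
    refine IsUltrametricDist.norm_sum_le_of_forall_le_of_nonneg zero_le_one fun a _ => ?_
    rw [norm_mul]
    exact mul_le_one₀ (hc _ _) (norm_nonneg _) (hu a)
  · have e : (c.det / c.adjugate a0 0) • E 0 =
        ∑ a, (c.adjugate a 0 / c.adjugate a0 0) • ∑ j, c j a • E j := by
      simp only [smul_sum, smul_smul]
      rw [sum_comm]
      simp only [← sum_smul, mul_comm (_ / _), key', ite_smul, zero_smul, sum_ite_eq', mem_univ,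
        if_true]
    rw [e]
    intro i j
    rw [Matrix.sum_apply]
    refine IsUltrametricDist.norm_sum_le_of_forall_le_of_nonneg zero_le_one fun a _ => ?_
    rw [Matrix.smul_apply, smul_eq_mul, norm_mul]
    exact mul_le_one₀ (hu a) (norm_nonneg _) (hint a i j)
  · have h1 : ‖c.adjugate a0 0‖ = ‖(c.submatrix Fin.succ a0.succAbove).det‖ := by
      rw [Matrix.adjugate_fin_succ_eq_det_submatrix, norm_mul, norm_pow, norm_neg, norm_one,
        one_pow, one_mul, Fin.succAbove_zero]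
    rw [← h1, ← norm_mul, div_mul_cancel₀ _ hμ]

/-- Induction on `s`. Let `μ = adj(c) a0 0` be an entry of maximal norm of the column `0` of the
adjugate of `c` (it is `± det c'`, `c'` = `c` without row `0` and column `a0`), `u a = adj(c) a 0 / μ`,
`η = det c / μ`. Then `∑_a u a • (∑_j c j a • E j) = η • E 0` is integral and `‖η‖ ≤ 1`. Let `P` be an
integral idempotent onto the range of `E 0` and `E' j = (1 - P) E (j + 1) (1 - P)`: these satisfy the
hypotheses with `c'` (`E (j + 1) P = 0`, `(1 - P) E 0 = 0`). Finally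
`∑ f j E j = f 0 E 0 + (1 - E 0) ∑ f (j + 1) E' j`, and `f 0 E 0`, `E 0` have rank at most `ρ 0` and
entries at most `‖f 0‖ / ‖η‖`, `1 / ‖η‖`. -/
theorem volLe_idem {s : ℕ} (E : Fin s → Matrix n n K)
    (hE : ∀ i j, E i * E j = if i = j then E i else 0) (c : Matrix (Fin s) (Fin s) K)
    (hc : EntLe c 1) (hdet : c.det ≠ 0) (hint : ∀ a, EntLe (∑ j, c j a • E j) 1) (ρ : Fin s → ℕ)
    {r : ℕ} (hρ : ∀ j, (E j).rank ≤ ρ j) (hr : ∀ j, ρ j ≤ r) (f : Fin s → K) :
    VolLe (∑ j, f j • E j) ((∏ j, max 1 ‖f j‖ ^ ρ j) * ‖c.det‖⁻¹ ^ (2 * r)) := by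
  induction s with
  | zero =>
    simp only [univ_eq_empty, sum_empty, prod_empty, det_isEmpty, norm_one, inv_one, one_pow,
      mul_one]
    exact EntLe.volLe fun _ _ => by simp
  | succ s ih =>
    obtain ⟨a0, η, hη0, hη1, hηE, hηc⟩ := hidem_eta E c hc hdet hint
    have h00 : E 0 * E 0 = E 0 := by rw [hE, if_pos rfl]
    have h0s : ∀ j : Fin s, E 0 * E j.succ = 0 := fun j => by
      rw [hE, if_neg (Fin.succ_ne_zero j).symm]
    have hs0 : ∀ j : Fin s, E j.succ * E 0 = 0 := fun j => by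
      rw [hE, if_neg (Fin.succ_ne_zero j)]
    obtain ⟨P, hP1, hPP, hPr⟩ := exists_proj (LinearMap.range (Matrix.toLin' (E 0)))
    have hPE : P * E 0 = E 0 := hidem_mul hPP hPr.ge
    have hEP : E 0 * P = P := hidem_mul h00 hPr.le
    have hsP : ∀ j : Fin s, E j.succ * (1 - P) = E j.succ := fun j => by
      rw [Matrix.mul_sub, Matrix.mul_one, ← hEP, ← Matrix.mul_assoc, hs0, Matrix.zero_mul, sub_zero]
    have hQ : EntLe (1 - P) 1 := entLe_one.sub hP1
    have hdet' : (c.submatrix Fin.succ a0.succAbove).det ≠ 0 := by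
      intro h
      rw [h, norm_zero, mul_zero, norm_eq_zero] at hηc
      exact hdet hηc
    have h1 := ih (fun j => (1 - P) * E j.succ) ?_ (c.submatrix Fin.succ a0.succAbove)
      (fun i j => hc _ _) hdet' ?_ (fun j => ρ j.succ)
      (fun j => (Matrix.rank_mul_le_right _ _).trans (hρ _)) (fun j => hr _) (fun j => f j.succ)
    · have hn : 0 < ‖η‖ := norm_pos_iff.mpr hη0
      have hy : 1 ≤ ‖η‖⁻¹ := (one_le_inv₀ hn).mpr hη1
      have hE0 : EntLe (E 0) ‖η‖⁻¹ := by
        have := hηE.smul η⁻¹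
        rwa [smul_smul, inv_mul_cancel₀ hη0, one_smul, norm_inv, mul_one] at this
      have h2 : VolLe (f 0 • E 0) ((max 1 ‖f 0‖ * ‖η‖⁻¹) ^ ρ 0) :=
        volLe_of_rank ((rank_smul_le' _ _).trans (hρ 0))
          ((hE0.smul (f 0)).mono (mul_le_mul_of_nonneg_right (le_max_right _ _) (by positivity)))
          (one_le_mul_of_one_le_of_one_le (le_max_left _ _) hy)
      have h3 : VolLe ((-1 : K) • E 0) (‖η‖⁻¹ ^ ρ 0) :=
        volLe_of_rank ((rank_smul_le' _ _).trans (hρ 0))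
          ((hE0.smul (-1)).mono (by rw [norm_neg, norm_one, one_mul])) hy
      have h4 := h2.add (((entLe_one (K := K) (n := n)).volLe.add h3).mul h1)
      have e : f 0 • E 0 + (1 + (-1 : K) • E 0) * ∑ j : Fin s, f j.succ • ((1 - P) * E j.succ) =
          ∑ j, f j • E j := by
        rw [Fin.sum_univ_succ, Matrix.mul_sum]
        congr 1
        refine sum_congr rfl fun j _ => ?_
        rw [Matrix.mul_smul, neg_one_smul, ← sub_eq_add_neg, ← Matrix.mul_assoc,
          Matrix.mul_sub, Matrix.mul_one, Matrix.sub_mul (1 : Matrix n n K) (E 0) P, Matrix.one_mul,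
          hEP, sub_self, sub_zero, Matrix.sub_mul, Matrix.one_mul, h0s, sub_zero]
      rw [e] at h4
      refine h4.mono ?_
      have h5 : ‖η‖⁻¹ ^ ρ 0 * ‖η‖⁻¹ ^ ρ 0 ≤ ‖η‖⁻¹ ^ (2 * r) := by
        rw [← pow_add]
        exact pow_le_pow_right₀ hy (by have := hr 0; omega)
      rw [Fin.prod_univ_succ, hηc, mul_inv, mul_pow, mul_pow, one_mul]
      calc _ = (max 1 ‖f 0‖ ^ ρ 0 * (∏ j : Fin s, max 1 ‖f j.succ‖ ^ ρ j.succ) *
            ‖(c.submatrix Fin.succ a0.succAbove).det‖⁻¹ ^ (2 * r)) *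
            (‖η‖⁻¹ ^ ρ 0 * ‖η‖⁻¹ ^ ρ 0) := by ring
        _ ≤ (max 1 ‖f 0‖ ^ ρ 0 * (∏ j : Fin s, max 1 ‖f j.succ‖ ^ ρ j.succ) *
            ‖(c.submatrix Fin.succ a0.succAbove).det‖⁻¹ ^ (2 * r)) * ‖η‖⁻¹ ^ (2 * r) :=
          mul_le_mul_of_nonneg_left h5 (by positivity)
        _ = _ := by ring
    · intro i j
      rw [Matrix.mul_assoc, ← Matrix.mul_assoc (E i.succ), hsP, hE]
      simp only [Fin.succ_inj]
      split_ifs
      · rfl
      · exact Matrix.mul_zero _
    · intro a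
      have h2 := EntLe.mul zero_le_one zero_le_one hQ (hint (a0.succAbove a))
      rw [mul_one, Fin.sum_univ_succ, Matrix.mul_add, Matrix.mul_smul, Matrix.sub_mul,
        Matrix.one_mul, hPE, sub_self, smul_zero, zero_add, Matrix.mul_sum] at h2
      simpa only [Matrix.mul_smul, Matrix.submatrix_apply] using h2

end Pool.Agent.Lib.MP_88d29b_nt.G
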