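import Pool.Agent.Lib.MP_88d29b_nt.HDefs

set_option autoImplicit false

noncomputable section

namespace Pool.Agent.Lib.MP_88d29b_nt.G

open Finset CongruenceSubgroup Matrix
open scoped MatrixGroups

section Ring

variable {K L : Type*} [CommRing K] [CommRing L] (φ : K →+* L)

/-- Change of coefficients on polynomials. -/
def bcV (κ : ℕ) : Vk K κ →ₛₗ[φ] Vk L κ where
  toFun v := fun j => φ (v j)
  map_add' v w := by ext j; simp
  map_smul' a v := by ext j; simp

@[simp] lemma bcV_apply (κ : ℕ) (v : Vk K κ) (j : Fin (κ + 1)) : bcV φ κ v j = φ (v j) := rfl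

lemma bcV_vact (κ : ℕ) (g : Mat) (v : Vk K κ) :
    bcV φ κ (vact K κ g v) = vact L κ g (bcV φ κ v) := by
  ext m
  simp [vact_apply]

/-- Change of coefficients on cocycles. -/
def bcZ (Γ : Subgroup SL(2, ℤ)) (κ : ℕ) : Z1 Γ (vact K κ) →ₛₗ[φ] Z1 Γ (vact L κ) where
  toFun c := ⟨fun g => bcV φ κ (c.1 g), fun g g' => by
      beta_reduce
      rw [c.2.1, map_add, bcV_vact],
    fun g hg => by
      beta_reduce
      rw [c.2.2 g hg, map_zero]⟩
  map_add' c c' := by ext g j; simp
  map_smul' a c := by ext g j; simp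

@[simp] lemma bcZ_apply (Γ : Subgroup SL(2, ℤ)) (κ : ℕ) (c : Z1 Γ (vact K κ)) (g : Γ) :
    (bcZ φ Γ κ c).1 g = bcV φ κ (c.1 g) := rfl

/-- Change of coefficients on cohomology. -/
def bcH (Γ : Subgroup SL(2, ℤ)) (κ : ℕ) : H1 Γ (vact K κ) →ₛₗ[φ] H1 Γ (vact L κ) :=
  (B1 Γ (vact K κ)).mapQ (B1 Γ (vact L κ)) (bcZ φ Γ κ) (by
    rintro c ⟨v, hv⟩
    refine ⟨bcV φ κ v, ?_⟩
    ext1 g
    change _ = bcV φ κ (c.1 g)
    have : c.1 g = cob Γ (vact K κ) v g := (congrFun hv g).symm
    rw [this, cob_apply, cob_apply, map_sub, bcV_vact])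

@[simp] lemma bcH_mk (Γ : Subgroup SL(2, ℤ)) (κ : ℕ) (c : Z1 Γ (vact K κ)) :
    bcH φ Γ κ (Submodule.Quotient.mk c) = Submodule.Quotient.mk (bcZ φ Γ κ c) := rfl

lemma bcH_dcH {ι : Type*} [Fintype ι] {S : Submonoid Mat} {Γ Γ' : Subgroup SL(2, ℤ)} {δ : ι → Mat}
    {κ : ℕ} (h : Adm S Γ Γ' δ (vact K κ)) (h' : Adm S Γ Γ' δ (vact L κ)) (x : H1 Γ (vact K κ)) :
    bcH φ Γ' κ (dcH h x) = dcH h' (bcH φ Γ κ x) := by
  obtain ⟨c, rfl⟩ := Submodule.Quotient.mk_surjective _ x
  rw [dcH_mk, bcH_mk, bcH_mk, dcH_mk]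
  congr 1
  ext1
  funext g
  rw [bcZ_apply, coe_dcZ, coe_dcZ, dcC_apply, dcC_apply, map_sum]
  exact Finset.sum_congr rfl fun i _ => bcV_vact φ κ _ _

lemma bcH_Tl (N κ l : ℕ) (x : HH K N κ) :
    bcH φ (Gamma0 N) κ (Tl K N κ l x) = Tl L N κ l (bcH φ (Gamma0 N) κ x) := by
  by_cases h : Even κ ∧ l.Prime ∧ Nat.Coprime l N
  · rw [Tl_eq K h.1 h.2.1 h.2.2, Tl_eq L h.1 h.2.1 h.2.2, bcH_dcH]
  · rw [Tl, Tl, dif_neg h, dif_neg h]
    simp

lemma bcH_comp {M : Type*} [CommRing M] (ψ : L →+* M) (Γ : Subgroup SL(2, ℤ)) (κ : ℕ)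
    (x : H1 Γ (vact K κ)) : bcH ψ Γ κ (bcH φ Γ κ x) = bcH (ψ.comp φ) Γ κ x := by
  obtain ⟨c, rfl⟩ := Submodule.Quotient.mk_surjective _ x
  rfl

lemma bcH_id (Γ : Subgroup SL(2, ℤ)) (κ : ℕ) (x : H1 Γ (vact K κ)) :
    bcH (RingHom.id K) Γ κ x = x := by
  obtain ⟨c, rfl⟩ := Submodule.Quotient.mk_surjective _ x
  rfl

end Ring

variable {K K' : Type} [Field K] [Field K']

/-- Apply `ψ` to the values of cocycles; `vact` is given by integer matrices. -/
theorem exists_trans (ψ : K ≃+* K') (N κ : ℕ) : ∃ e : HH K N κ ≃+ HH K' N κ,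
    (∀ (a : K) x, e (a • x) = ψ a • e x) ∧ ∀ l x, e (Tl K N κ l x) = Tl K' N κ l (e x) := by
  refine ⟨{ toFun := bcH (ψ : K →+* K') (Gamma0 N) κ
            invFun := bcH (ψ.symm : K' →+* K) (Gamma0 N) κ
            left_inv := fun x => ?_
            right_inv := fun x => ?_
            map_add' := map_add _ }, fun a x => ?_, fun l x => bcH_Tl _ N κ l x⟩
  · rw [bcH_comp, RingEquiv.symm_comp, bcH_id]
  · rw [bcH_comp, RingEquiv.comp_symm, bcH_id]
  · exact map_smulₛₗ (bcH (ψ : K →+* K') (Gamma0 N) κ) a x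

section Abstract

variable {V V' : Type} [AddCommGroup V] [Module K V] [AddCommGroup V'] [Module K' V']
  [Module.Finite K V] [Module.Finite K' V'] (ψ : K ≃+* K') (e : V ≃+ V')
  (he : ∀ (a : K) x, e (a • x) = ψ a • e x)

include he

omit [Module.Finite K V] [Module.Finite K' V'] in
theorem trans_linInd {d : Type} {v : d → V} (hv : LinearIndependent K v) :
    LinearIndependent K' fun j => e (v j) := by
  rw [linearIndependent_iff'] at hv ⊢
  intro s g hg i hi
  have h1 : e (∑ j ∈ s, ψ.symm (g j) • v j) = 0 := by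
    rw [map_sum, ← hg]
    exact Finset.sum_congr rfl fun j _ => by rw [he, RingEquiv.apply_symm_apply]
  have h2 := hv s (fun j => ψ.symm (g j)) ((map_eq_zero_iff e e.injective).mp h1) i hi
  exact (map_eq_zero_iff ψ.symm ψ.symm.injective).mp h2

omit [Module.Finite K V] [Module.Finite K' V'] in
lemma htrans_basis {d : Type} [Fintype d] (b : Module.Basis d K V) :
    ∃ b' : Module.Basis d K' V', ∀ j, b' j = e (b j) := by
  refine ⟨Module.Basis.mk (trans_linInd ψ e he b.linearIndependent) ?_,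
    fun j => Module.Basis.mk_apply _ _ j⟩
  intro y _
  obtain ⟨x, rfl⟩ := e.surjective y
  rw [← b.sum_repr x, map_sum]
  refine Submodule.sum_mem _ fun j _ => ?_
  rw [he]
  exact Submodule.smul_mem _ _ (Submodule.subset_span ⟨j, rfl⟩)

omit [Module.Finite K V] [Module.Finite K' V'] in
lemma htrans_matrix {d : Type} [Fintype d] [DecidableEq d] (b : Module.Basis d K V)
    (b' : Module.Basis d K' V') (hb : ∀ j, b' j = e (b j)) (T : Module.End K V)
    (T' : Module.End K' V') (h : ∀ x, e (T x) = T' (e x)) :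
    LinearMap.toMatrix b' b' T' = (LinearMap.toMatrix b b T).map (ψ : K →+* K') := by
  ext i j
  rw [Matrix.map_apply, LinearMap.toMatrix_apply, LinearMap.toMatrix_apply, hb, ← h]
  have : e (T (b j)) = ∑ i, ψ (b.repr (T (b j)) i) • b' i := by
    conv_lhs => rw [← b.sum_repr (T (b j)), map_sum]
    exact Finset.sum_congr rfl fun i _ => by rw [he, hb]
  rw [this, b'.repr_sum_self]
  rfl

omit [Module.Finite K' V'] in
theorem trans_finrank : Module.finrank K' V' = Module.finrank K V := by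
  obtain ⟨b', -⟩ := htrans_basis ψ e he (Module.finBasis K V)
  rw [Module.finrank_eq_card_basis b', Fintype.card_fin]

/-- The image of a basis `b` is a basis `b'` and the matrix of `T'` in `b'` is the image under `ψ` of
the matrix of `T` in `b`. -/
theorem trans_charpoly (T : Module.End K V) (T' : Module.End K' V') (h : ∀ x, e (T x) = T' (e x)) :
    T'.charpoly = T.charpoly.map (ψ : K →+* K') := by
  obtain ⟨b', hb⟩ := htrans_basis ψ e he (Module.finBasis K V)
  rw [← LinearMap.charpoly_toMatrix T' b', ← LinearMap.charpoly_toMatrix T (Module.finBasis K V),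
    htrans_matrix ψ e he _ b' hb T T' h, Matrix.charpoly_map]

omit [Module.Finite K' V'] in
theorem trans_trace (T : Module.End K V) (T' : Module.End K' V') (h : ∀ x, e (T x) = T' (e x)) :
    LinearMap.trace K' V' T' = ψ (LinearMap.trace K V T) := by
  obtain ⟨b', hb⟩ := htrans_basis ψ e he (Module.finBasis K V)
  rw [LinearMap.trace_eq_matrix_trace K' b', LinearMap.trace_eq_matrix_trace K (Module.finBasis K V),
    htrans_matrix ψ e he _ b' hb T T' h]
  simp [Matrix.trace, map_sum]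

end Abstract

theorem finrank_HH_trans (ψ : K ≃+* K') (N κ : ℕ) [NeZero N] :
    Module.finrank K' (HH K' N κ) = Module.finrank K (HH K N κ) := by
  obtain ⟨e, he, -⟩ := exists_trans ψ N κ
  exact trans_finrank ψ e he

theorem slopes_trans (ψ : K ≃+* K') (N κ l : ℕ) [NeZero N] :
    slopes K' N κ l = (slopes K N κ l).map ψ := by
  obtain ⟨e, he, hT⟩ := exists_trans ψ N κ
  rw [slopes, slopes, trans_charpoly ψ e he _ _ (hT l)]
  classical
  have := Polynomial.filter_roots_map_range_eq_map_roots (f := (ψ : K →+* K')) ψ.injective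
    (Tl K N κ l).charpoly
  exact (Multiset.filter_eq_self.mpr (fun a _ => ψ.surjective a)).symm.trans this

lemma htrans_mon (ψ : K ≃+* K') (x : ℕ → K) (n : ℕ) : mon (fun l => ψ (x l)) n = ψ (mon x n) := by
  rw [mon, mon, map_list_prod, List.map_map]
  rfl

theorem Arch.trans (ψ : K ≃+* K') {M κ B r c : ℕ} [NeZero M] {X : ℝ} (h : Arch K M κ B r c X) :
    Arch K' M κ B r c X := by
  classical
  obtain ⟨e, he, hT⟩ := exists_trans ψ M κ
  have hS : ∀ x y : ℕ → K, Same M (fun l => ψ (x l)) (fun l => ψ (y l)) ↔ Same M x y :=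
    fun x y => by simp only [Same, ψ.injective.eq_iff]
  constructor
  · obtain ⟨d, v, lam, h1, h2, h3, h4, h5⟩ := h.eig
    refine ⟨d, fun j => e (v j), fun j l => ψ (lam j l), trans_linInd ψ e he h1, ?_, ?_, ?_, ?_⟩
    · rwa [trans_finrank ψ e he]
    · intro j l hl hM
      rw [← hT, h3 j l hl hM, he]
    · intro s hs a ha j hj
      have := h4 s (fun i hi j hj hij => hs i hi j hj ((hS _ _).mpr hij)) (fun j => ψ.symm (a j))
        (fun n h1 h2 h3 => by
          apply ψ.injective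
          rw [map_zero, ← ha n h1 h2 h3, map_sum]
          exact Finset.sum_congr rfl fun i _ => by
            rw [map_mul, RingEquiv.apply_symm_apply, htrans_mon]) j hj
      exact (map_eq_zero_iff ψ.symm ψ.symm.injective).mp this
    · intro i
      simp only [hS]
      convert h5 i
  · intro n n' a1 a2 a3 a4 a5 a6 z hz
    have hw : ∀ m x, e (Tw K M κ m x) = Tw K' M κ m (e x) := by
      intro m
      unfold Tw
      induction m.primeFactorsList with
      | nil => intro x; rfl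
      | cons l L ih =>
        intro x
        rw [List.map_cons, List.prod_cons, List.map_cons, List.prod_cons, Module.End.mul_apply,
          Module.End.mul_apply, hT, ih]
    refine h.tr n n' a1 a2 a3 a4 a5 a6 z (ψ.injective ?_)
    rw [← trans_trace ψ e he _ (Tw K' M κ n * Tw K' M κ n') (fun x => by
      rw [Module.End.mul_apply, Module.End.mul_apply, hw, hw]), hz, map_intCast]

end Pool.Agent.Lib.MP_88d29b_nt.G
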