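import Pool.Agent.Lib.MP_88d29b_nt.HSix

set_option autoImplicit false

noncomputable section

namespace Pool.Agent.Lib.MP_88d29b_nt.G

open Finset CongruenceSubgroup Matrix
open scoped MatrixGroups

variable {p : ℕ} [Fact p.Prime] {M κ : ℕ} [NeZero M]

lemma hup_rank {K : Type} [Field K] {m n : Type} [Fintype n] [DecidableEq n] (Y : Matrix m n K) :
    Y.rank = Module.finrank K (LinearMap.range (Matrix.toLin' Y)) := by
  rw [Matrix.toLin'_apply']
  rfl

lemma hup_ker {K V W W' : Type} [Field K] [AddCommGroup V] [Module K V] [Module.Finite K V]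
    [AddCommGroup W] [Module K W] [AddCommGroup W'] [Module K W'] (f : V →ₗ[K] W) (g : V →ₗ[K] W')
    (h : LinearMap.ker f = LinearMap.ker g) :
    Module.finrank K (LinearMap.range f) = Module.finrank K (LinearMap.range g) := by
  have h1 := f.finrank_range_add_finrank_ker
  have h2 := g.finrank_range_add_finrank_ker
  rw [h] at h1
  omega

lemma hup_pow {K : Type} [Field K] {m n : Type} [Fintype m] [Fintype n] [DecidableEq m]
    [DecidableEq n] (a : Matrix m n K) (b : Matrix n m K) (k : ℕ) :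
    (a * b) ^ (k + 1) = a * (b * a) ^ k * b := by
  induction k with
  | zero => simp
  | succ k ih => rw [pow_succ, ih, pow_succ]; simp only [Matrix.mul_assoc]

/-- Take `Q` from `exists_proj_ker`, `a = a1 Q`, `b = Q b1`, `T = Q (tc p) Q`, `π = p ^ (-(h + ell))`.
Then `R - a b` has rank at most `2` (the range of `1 - Q` is the kernel of `cl`),
`b a - p ^ ell T = Q (b1 a1 - p ^ ell tc p) Q` has rank at most `1`, `a` has rank at most
`rank Q = dim H`. So `(π R) ^ m - (π a) (p ^ (-h) T) ^ (m - 1) b` has rank at most `3 m`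
(`rank_pow_sub_pow`, `(a b) ^ m = a (b a) ^ (m - 1) b`). Use `VolLe.of_rank`, `VolLe.mul`,
`volLe_of_rank` for `π a`, and `six`. -/
theorem upper_of_factors {B r c ell : ℕ} {X : ℝ} (hX : 1 ≤ X) (hA : Arch (KP p) M κ B r c X)
    (hM : Nat.Coprime p M) {β : Type} [Fintype β] [DecidableEq β] (R : Matrix β β (KP p))
    (hR : EntLe R 1) (hF : Factors p M κ ell R) :
    Upper p ell R (slopes (KP p) M κ p) (Module.finrank (KP p) (HH (KP p) M κ) + 2)
      (2 * r * ((Module.finrank (KP p) (HH (KP p) M κ) : ℝ) *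
          Real.logb p ((Module.finrank (KP p) (HH (KP p) M κ) : ℝ) * X)))
      (3 + c + 2 * c ^ 2 * r) := by
  obtain ⟨α, _, _, Z, a1, b1, ha1, hb1, h1, h2, h3⟩ := hF
  obtain ⟨Q, hQ, hQQ, hk⟩ := exists_proj_ker (LinearMap.ker Z.cl)
  have hp1 := one_lt_p p
  have hp0 := p_pos p
  have rQ : Q.rank = Module.finrank (KP p) (HH (KP p) M κ) := by
    rw [hup_rank, hup_ker _ _ hk, LinearMap.range_eq_top.2 Z.surj, finrank_top]
  have r1 : (R - a1 * Q * (Q * b1)).rank ≤ 2 := by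
    have e : R - a1 * Q * (Q * b1) = (R - a1 * b1) + a1 * (1 - Q) * b1 := by
      rw [Matrix.mul_assoc a1 Q, ← Matrix.mul_assoc Q Q, hQQ, Matrix.mul_sub, Matrix.mul_one,
        Matrix.sub_mul, Matrix.mul_assoc a1 Q]
      abel
    have h4 : (a1 * (1 - Q)).rank ≤ 1 := by
      rw [hup_rank, Matrix.toLin'_mul, LinearMap.range_comp]
      refine le_trans (Submodule.finrank_mono (Submodule.map_mono ?_)) h2
      rintro _ ⟨x, rfl⟩
      rw [← hk, LinearMap.mem_ker, ← LinearMap.comp_apply, ← Matrix.toLin'_mul, Matrix.mul_sub,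
        hQQ, Matrix.mul_one, sub_self, map_zero, LinearMap.zero_apply]
    rw [e]
    have h5 := rank_add_le' (R - a1 * b1) (a1 * (1 - Q) * b1)
    have h6 := Matrix.rank_mul_le_left (a1 * (1 - Q)) b1
    omega
  have ra : (a1 * Q).rank ≤ Module.finrank (KP p) (HH (KP p) M κ) :=
    rQ ▸ Matrix.rank_mul_le_right a1 Q
  have r2 : (Q * b1 * (a1 * Q) - (p : KP p) ^ ell • (Q * zm (KP p) (Z.tc p) * Q)).rank ≤ 1 := by
    have e : Q * b1 * (a1 * Q) - (p : KP p) ^ ell • (Q * zm (KP p) (Z.tc p) * Q) =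
        Q * (b1 * a1 - (p : KP p) ^ ell • zm (KP p) (Z.tc p)) * Q := by
      simp only [Matrix.mul_sub, Matrix.sub_mul, Matrix.mul_smul, Matrix.smul_mul, Matrix.mul_assoc]
    rw [e]
    refine (Matrix.rank_mul_le_left _ _).trans (le_trans (le_of_eq ?_) h3)
    rw [hup_rank, Matrix.toLin'_mul]
    exact hup_ker _ _ (by rw [LinearMap.ker_comp, LinearMap.ker_comp, hk])
  refine ⟨?_, fun h m hm => ?_⟩
  · have h5 := rank_add_le' (R - a1 * Q * (Q * b1)) (a1 * Q * (Q * b1))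
    have h6 := Matrix.rank_mul_le_left (a1 * Q) (Q * b1)
    rw [sub_add_cancel] at h5
    omega
  obtain ⟨k, rfl⟩ : ∃ k, m = k + 1 := ⟨m - 1, by omega⟩
  have hs := six hX hA hM Z Q hQ hQQ hk h k
  set π : KP p := ((p : KP p) ^ (h + ell))⁻¹ with hπ
  set T := ((p : KP p) ^ h)⁻¹ • (Q * zm (KP p) (Z.tc p) * Q) with hT
  have nπ : ‖π‖ = (p : ℝ) ^ ((h : ℝ) + ell) := by
    rw [hπ, norm_p_pow_inv, Nat.cast_add]
  have hx0 : (0 : ℝ) ≤ (h : ℝ) + ell := by positivity
  have hx1 : 1 ≤ ‖π‖ := nπ ▸ Real.one_le_rpow hp1.le hx0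
  have r3 : ((π • R) ^ (k + 1) - π • (a1 * Q) * T ^ k * (Q * b1)).rank ≤ 3 * (k + 1) := by
    have e : (π • R) ^ (k + 1) - π • (a1 * Q) * T ^ k * (Q * b1) =
        ((π • R) ^ (k + 1) - (π • (a1 * Q) * (Q * b1)) ^ (k + 1)) +
          π • (a1 * Q) * ((Q * b1 * π • (a1 * Q)) ^ k - T ^ k) * (Q * b1) := by
      rw [hup_pow, Matrix.mul_sub, Matrix.sub_mul]
      abel
    have h5 := rank_pow_sub_pow (π • R) (π • (a1 * Q) * (Q * b1)) (k + 1)
    have h6 := rank_pow_sub_pow (Q * b1 * π • (a1 * Q)) T k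
    have h7 : (π • R - π • (a1 * Q) * (Q * b1)).rank ≤ 2 := by
      rw [Matrix.smul_mul, ← smul_sub]
      exact (rank_smul_le' _ _).trans r1
    have h8 : (Q * b1 * π • (a1 * Q) - T).rank ≤ 1 := by
      have e2 : T = π • (p : KP p) ^ ell • (Q * zm (KP p) (Z.tc p) * Q) := by
        rw [smul_smul, hT, hπ, pow_add, mul_inv,
          inv_mul_cancel_right₀ (pow_ne_zero _ (p_ne_zero p))]
      rw [e2, Matrix.mul_smul, ← smul_sub]
      exact (rank_smul_le' _ _).trans r2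
    have h9 := (Matrix.rank_mul_le_left (π • (a1 * Q) * ((Q * b1 * π • (a1 * Q)) ^ k - T ^ k))
      (Q * b1)).trans (Matrix.rank_mul_le_right _ _)
    have h10 := Nat.mul_le_mul_left (k + 1) h7
    have h11 := Nat.mul_le_mul_left k h8
    rw [e]
    refine (rank_add_le' _ _).trans ?_
    omega
  have ea : EntLe (π • (a1 * Q)) ‖π‖ := by
    simpa using (EntLe.mul zero_le_one zero_le_one ha1 hQ).smul π
  have eb : EntLe (Q * b1) 1 := by simpa using EntLe.mul zero_le_one zero_le_one hQ hb1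
  have eR : EntLe ((π • R) ^ (k + 1)) (‖π‖ ^ (k + 1)) := by
    simpa using (hR.smul π).pow (by positivity) (k + 1)
  have va := volLe_of_rank ((rank_smul_le' π _).trans (ra.trans (Nat.le_add_right _ 2))) ea hx1
  refine (VolLe.of_rank r3 eR (one_le_pow₀ hx1) ((va.mul hs).mul eb.volLe)).mono ?_
  rw [mul_one, nπ, ← pow_mul, ← Real.rpow_natCast, ← Real.rpow_natCast, ← Real.rpow_mul hp0.le,
    ← Real.rpow_mul hp0.le, ← Real.rpow_add hp0, ← Real.rpow_add hp0]
  refine Real.rpow_le_rpow_of_exponent_le hp1.le ?_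
  have n0 := np_nonneg (Fact.out : p.Prime).one_lt (slopes (KP p) M κ p) (h : ℝ)
  have c0 : (0 : ℝ) ≤ (c : ℝ) + 2 * c ^ 2 * r := by positivity
  have k0 : (k : ℝ) * h ≤ ((k : ℝ) + 1) ^ 2 * ((h : ℝ) + ell) :=
    mul_le_mul (by nlinarith [(Nat.cast_nonneg k : (0 : ℝ) ≤ k)])
      (le_add_of_nonneg_right (Nat.cast_nonneg _)) (Nat.cast_nonneg _) (by positivity)
  have k1 := mul_le_mul_of_nonneg_left k0 c0
  push_cast
  nlinarith [k1, n0]

end Pool.Agent.Lib.MP_88d29b_nt.G
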