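import Pool.Agent.Lib.MP_88d29b_nt.HBrC
import Pool.Agent.Lib.MP_88d29b_nt.HGrow
import Pool.Agent.Lib.MP_88d29b_nt.HUp
import Pool.Agent.Lib.MP_88d29b_nt.HTrans
import Pool.Agent.Lib.MP_88d29b_nt.HExt64

set_option autoImplicit false

noncomputable section

namespace Pool.Agent.Lib.MP_88d29b_nt.G

open Finset CongruenceSubgroup Matrix
open scoped MatrixGroups

theorem Arch.mono {K : Type} [Field K] {M κ B r c r' c' : ℕ} {X X' : ℝ} (h : Arch K M κ B r c X)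
    (hr : r ≤ r') (hc : c ≤ c') (hX : X ≤ X') : Arch K M κ B r' c' X' := by
  obtain ⟨⟨d, v, lam, h1, h2, h3, h4, h5⟩, h6⟩ := h
  exact ⟨⟨d, v, lam, h1, by omega, h3, h4, fun i => (h5 i).trans hr⟩,
    fun n n' a1 a2 a3 a4 a5 a6 z hz => (h6 n n' a1 a2 a3 a4 a5 a6 z hz).trans hX⟩

variable {p : ℕ} [Fact p.Prime]

theorem codim_le (ψ : ℂ ≃+* KP p) (N : ℕ) [NeZero N] : ∃ C : ℕ, ∀ κ : ℕ, Even κ → 2 ≤ κ →
    Module.finrank ℂ (HH ℂ N κ) ≤ 2 * dimS N (κ + 2) + C := by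
  obtain ⟨C1, h1⟩ := ext_dim p N
  obtain ⟨C2, h2⟩ := ext_lower N
  refine ⟨C1 + C2, fun κ hκ h => ?_⟩
  have a1 := h1 κ hκ h
  have a2 := h2 (κ + 2) (hκ.add even_two)
  rw [finrank_HH_trans ψ] at a1
  rw [mul_add] at a2
  omega

theorem arch_KP (ψ : ℂ ≃+* KP p) (M : ℕ) [NeZero M] : ∃ (B : ℕ → ℕ) (C : ℕ),
    (∀ κ : ℕ, Even κ → 2 ≤ κ →
      6 * Module.finrank (KP p) (HH (KP p) M κ) ≤ (Gamma0 M).index * κ + C) ∧
    ∀ κ : ℕ, Even κ → 2 ≤ κ →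
      Arch (KP p) M κ (B κ) (C * Nat.log 2 κ ^ C) C (((κ : ℝ) + 2) ^ (C * (κ + 2))) := by
  obtain ⟨C1, h1⟩ := ext_dim p M
  obtain ⟨C2, h2⟩ := codim_le ψ M
  obtain ⟨C3, C4, h3⟩ := ext_arch M
  refine ⟨fun κ => (κ + 2) ^ C3, C1 + C2 + C4, fun κ hκ h => ?_, fun κ hκ h => ?_⟩
  · have := h1 κ hκ h
    omega
  · have hL : 1 ≤ Nat.log 2 κ := Nat.log_pos one_lt_two h
    have := h2 κ hκ h
    refine ((h3 κ hκ h).trans ψ).mono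
      (Nat.mul_le_mul (by omega) (Nat.pow_le_pow_right hL (by omega))) (by omega)
      (pow_le_pow_right₀ ?_ (Nat.mul_le_mul_right _ (by omega)))
    have : (0 : ℝ) ≤ κ := Nat.cast_nonneg κ
    linarith

theorem lower_level (ψ : ℂ ≃+* KP p) (N : ℕ) [NeZero N] (hN : Nat.Coprime p N) :
    ∃ (M : ℕ) (_ : NeZero M), N ∣ M ∧ Nat.Coprime p M ∧
      (∀ κ : ℕ, Even κ → 2 ≤ κ → ∀ x ∈ slopes (KP p) M κ p, IsIntegral ℤ x) ∧
      ∀ ε : ℝ, 0 < ε → ∃ T0 : ℕ, ∀ T : ℕ, T0 ≤ T → ∃ Bad : Finset ℕ, (Bad.card : ℝ) ≤ ε * T ∧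
        ∀ κ : ℕ, Even κ → κ ≤ T → κ ∉ Bad → ∀ h : ℝ, 0 ≤ h → h ≤ ((κ : ℝ) + 2) / (p + 1) →
          ((p : ℝ) + 1) * (Gamma0 M).index / 6 * h ^ 2 / 2 - ε * T ^ 2 ≤
            np p (slopes (KP p) M κ p) h := by
  classical
  obtain ⟨M, ι, ι', _, _, hM0, hNM, hM, ⟨fb⟩, ⟨fb'⟩, ht⟩ := ext_level p N hN
  have : NeZero M := ⟨hM0⟩
  have hp : p.Prime := Fact.out
  refine ⟨M, inferInstance, hNM, hM, fun κ hκ h2 x hx => ?_, fun ε hε => ?_⟩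
  · obtain ⟨Z⟩ := ext_zmodel p fb' hκ h2
    exact (Z.slopes_int hp hM hx).1
  obtain ⟨B, C, hd, hA⟩ := arch_KP ψ M
  obtain ⟨C', h9, hG⟩ := grow_std hp.two_le (Gamma0 M).index C ht
    (fun κ => Module.finrank (KP p) (HH (KP p) M κ)) hd
  have ht0 : 0 < Fintype.card ι := by
    have h1 : (Gamma0 M).index ≠ 0 := Subgroup.FiniteIndex.index_ne_zero
    have h2 : 0 < (p + 1) * (Gamma0 M).index := by positivity
    omega
  have hF := bridge_fam p fb hM (Nat.pos_of_ne_zero hM0) ht0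
    (S := fun κ => slopes (KP p) M κ p)
    (q := fun κ => if Even κ ∧ 2 ≤ κ then Module.finrank (KP p) (HH (KP p) M κ) + 2 else 0)
    (U1 := fun κ => if Even κ then 2 * ((C * Nat.log 2 κ ^ C : ℕ) : ℝ) *
        ((Module.finrank (KP p) (HH (KP p) M κ) : ℝ) *
          Real.logb p ((Module.finrank (KP p) (HH (KP p) M κ) : ℝ) *
            ((κ : ℝ) + 2) ^ (C * (κ + 2)))) else 0)
    (U2 := fun κ => 3 + (C : ℝ) + 2 * (C : ℝ) ^ 2 * ((C * Nat.log 2 κ ^ C : ℕ) : ℝ))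
    (fun κ L ell h hκ h2 hell => by
      obtain ⟨AW, a1, a2, a3⟩ := bridge_cls p fb fb' hM hκ h2 h hell
      refine ⟨AW, a1, ?_⟩
      rw [if_pos ⟨hκ, h2⟩, if_pos hκ]
      refine upper_of_factors (one_le_pow₀ ?_) (hA κ hκ h2) hM _ a2 a3
      have : (0 : ℝ) ≤ κ := Nat.cast_nonneg κ
      linarith)
  obtain ⟨T0, hT0⟩ := grid_lower (par_std p) ht0 hG (fun κ0 a1 a2 δ hδ => by
    obtain ⟨x0, hx0⟩ := hF κ0 a1 a2 δ hδ
    refine ⟨x0, fun x hx => ?_⟩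
    obtain ⟨n, ell, D, b1, b2, b3, b4, b5⟩ := hx0 x hx
    exact ⟨n, ell, D, b1, b2, b3.trans (Nat.mul_le_mul_right _ h9), b4, b5⟩) hε
  refine ⟨T0, fun T hT => ?_⟩
  obtain ⟨Bad, b1, b2⟩ := hT0 T hT
  refine ⟨Bad, b1, fun κ hκ hT hB h h0 h1 => ?_⟩
  have e : ((p : ℝ) + 1) * (Gamma0 M).index / 6 = Fintype.card ι := by
    have : ((6 * Fintype.card ι : ℕ) : ℝ) = ((p + 1) * (Gamma0 M).index : ℕ) := by rw [ht]
    push_cast at this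
    linarith
  rw [e]
  exact b2 κ hκ hT hB h h0 h1

end Pool.Agent.Lib.MP_88d29b_nt.G
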