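import Pool.Agent.Lib.MP_88d29b_nt.HDefs

set_option autoImplicit false

noncomputable section

namespace Pool.Agent.Lib.MP_88d29b_nt.G

open Finset CongruenceSubgroup Matrix
open scoped MatrixGroups

variable {K : Type} [Field K] {m n : Type} [Fintype m] [Fintype n]

/-- A minor of size larger than the rank vanishes. -/
theorem det_minor_eq_zero (Y : Matrix m n K) {s : ℕ} (h : Y.rank < s) (f : Fin s → m)
    (g : Fin s → n) : (Y.submatrix f g).det = 0 := by
  by_contra hne
  have h1 := Matrix.rank_of_det_ne_zero hne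
  have h2 := Matrix.rank_submatrix_le Y f g
  rw [Fintype.card_fin] at h1
  omega

theorem hminor_rows (Y : Matrix m n K) {s : ℕ} (h : s ≤ Y.rank) :
    ∃ f : Fin s → m, LinearIndependent K (Y.submatrix f id).row := by
  classical
  obtain ⟨κ, a, ha, hsp, hli⟩ := exists_linearIndependent' K Y.row
  have : Finite κ := Finite.of_injective a ha
  have := Fintype.ofFinite κ
  have hc : Fintype.card κ = Y.rank := by
    rw [Matrix.rank_eq_finrank_span_row, ← hsp, linearIndependent_iff_card_eq_finrank_span.mp hli,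
      Set.finrank]
  obtain ⟨e⟩ : Nonempty (Fin s ↪ κ) :=
    Function.Embedding.nonempty_of_card_le (by rw [Fintype.card_fin, hc]; exact h)
  exact ⟨a ∘ e, hli.comp e e.injective⟩

/-- There is a nonzero minor of every size up to the rank: choose independent columns, then
independent rows. -/
theorem exists_minor_ne_zero (Y : Matrix m n K) {s : ℕ} (h : s ≤ Y.rank) :
    ∃ (f : Fin s → m) (g : Fin s → n), (Y.submatrix f g).det ≠ 0 := by
  obtain ⟨f, hf⟩ := hminor_rows Y h
  have h1 := hf.rank_matrix
  rw [Fintype.card_fin, ← Matrix.rank_transpose] at h1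
  obtain ⟨g, hg⟩ := hminor_rows _ h1.ge
  refine ⟨f, g, ?_⟩
  rw [← Matrix.det_transpose]
  exact ((Matrix.isUnit_iff_isUnit_det _).mp
    (Matrix.linearIndependent_rows_iff_isUnit.mp hg)).ne_zero

theorem rank_add_le' (Y Z : Matrix m n K) : (Y + Z).rank ≤ Y.rank + Z.rank := by
  unfold Matrix.rank
  rw [Matrix.mulVecLin_add]
  exact (Submodule.finrank_mono (LinearMap.range_add_le _ _)).trans
    (Submodule.finrank_add_le_finrank_add_finrank _ _)

omit [Fintype m] in
theorem hminor_smul (a : K) (Y : Matrix m n K) : (a • Y).rank ≤ Y.rank := by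
  classical
  have e : a • Y = Y * (a • (1 : Matrix n n K)) := by rw [Matrix.mul_smul, Matrix.mul_one]
  rw [e]
  exact Matrix.rank_mul_le_left _ _

theorem rank_sub_le' (Y Z : Matrix m n K) : (Y - Z).rank ≤ Y.rank + Z.rank := by
  rw [sub_eq_add_neg, ← neg_one_smul K Z]
  exact (rank_add_le' _ _).trans (Nat.add_le_add_left (hminor_smul _ _) _)

theorem rank_smul_le' (a : K) (Y : Matrix m n K) : (a • Y).rank ≤ Y.rank := by
  exact hminor_smul a Y

theorem rank_submatrix_le' {m' n' : Type} [Fintype m'] [Fintype n'] (Y : Matrix m n K)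
    (f : m' → m) (g : n' → n) : (Y.submatrix f g).rank ≤ Y.rank := by
  exact Matrix.rank_submatrix_le Y f g

/-- A matrix supported on the rows of `S` has rank at most `|S|`. -/
theorem rank_le_of_rows (Y : Matrix m n K) (S : Finset m) (h : ∀ i, i ∉ S → ∀ j, Y i j = 0) :
    Y.rank ≤ S.card := by
  refine Matrix.rank_le_card_of_support_subset Y S fun i hi => ?_
  by_contra hn
  exact hi (funext (h i hn))

/-- A matrix supported on the rows of `S` and the columns of `T`. -/
theorem rank_le_of_rows_cols (Y : Matrix m n K) (S : Finset m) (T : Finset n)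
    (h : ∀ i, i ∉ S → ∀ j, j ∉ T → Y i j = 0) : Y.rank ≤ S.card + T.card := by
  classical
  have e : Y = (Matrix.of fun i j => if i ∈ S then Y i j else 0)
      + (Matrix.of fun j i => if i ∈ S then 0 else Y i j)ᵀ := by
    ext i j
    by_cases hi : i ∈ S <;> simp [hi]
  rw [e]
  refine (rank_add_le' _ _).trans (Nat.add_le_add (rank_le_of_rows _ S fun i hi j => ?_) ?_)
  · simp [hi]
  · rw [Matrix.rank_transpose]
    refine rank_le_of_rows _ T fun j hj i => ?_
    by_cases hi : i ∈ S
    · simp [hi]
    · simp [hi, h i hi j hj]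

/-- `Y ^ (k + 1) - Z ^ (k + 1) = (Y ^ k - Z ^ k) Y + Z ^ k (Y - Z)`. -/
theorem rank_pow_sub_pow [DecidableEq n] (Y Z : Matrix n n K) (k : ℕ) :
    (Y ^ k - Z ^ k).rank ≤ k * (Y - Z).rank := by
  induction k with
  | zero => simp
  | succ k ih =>
    have e : Y ^ (k + 1) - Z ^ (k + 1) = (Y ^ k - Z ^ k) * Y + Z ^ k * (Y - Z) := by
      rw [pow_succ, pow_succ, sub_mul, mul_sub]
      abel
    rw [e, Nat.succ_mul]
    exact (rank_add_le' _ _).trans (Nat.add_le_add ((Matrix.rank_mul_le_left _ _).trans ih)
      (Matrix.rank_mul_le_right _ _))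

/-- The rank of the complement of an idempotent. -/
theorem rank_one_sub_add [DecidableEq n] (P : Matrix n n K) (h : P * P = P) :
    (1 - P).rank + P.rank = Fintype.card n := by
  apply le_antisymm
  · exact Matrix.rank_add_rank_le_card_of_mul_eq_zero (by rw [sub_mul, one_mul, h, sub_self])
  · have := rank_add_le' (1 - P) P
    rwa [sub_add_cancel, Matrix.rank_one] at this

end Pool.Agent.Lib.MP_88d29b_nt.G
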