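import Pool.Agent.Lib.MP_88d29b_nt.HGood
import Pool.Agent.Lib.MP_88d29b_nt.HCount

set_option autoImplicit false

noncomputable section

namespace Pool.Agent.Lib.MP_88d29b_nt.G

open Finset CongruenceSubgroup Matrix
open scoped MatrixGroups

variable {p : ℕ} [Fact p.Prime] {ι : Type} [Fintype ι] [DecidableEq ι]

theorem hmost_markov (s : Finset ℕ) (f : ℕ → ℝ) (hf : ∀ y, 0 ≤ f y) (a : ℝ)
    [DecidablePred fun y => a < f y] :
    ((s.filter fun y => a < f y).card : ℝ) * a ≤ ∑ y ∈ s, f y := by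
  calc ((s.filter fun y => a < f y).card : ℝ) * a = ∑ _y ∈ s.filter fun y => a < f y, a := by
        rw [sum_const, nsmul_eq_mul]
    _ ≤ ∑ y ∈ s.filter fun y => a < f y, f y :=
        sum_le_sum fun y hy => (mem_filter.1 hy).2.le
    _ ≤ ∑ y ∈ s, f y := sum_le_sum_of_subset_of_nonneg (filter_subset _ _) fun y _ _ => hf y

theorem hmost_num1 {x K C1 n u ell δ : ℝ} (hu : 1 ≤ u) (hn : 0 ≤ n) (hn' : n ≤ 1024 * u ^ 10)
    (hell : 1 ≤ ell) (hK : 0 ≤ K) (hC : C1 ≤ K) (hδ : 1026 * K * ell ≤ δ * u)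
    (hx : x * u ^ 7 ≤ C1 * (n * ell + n * u ^ 5 + n ^ 2 * ell / u ^ 5)) : x ≤ δ * n := by
  have hu0 : 0 < u := by linarith
  have h5 : 1 ≤ u ^ 5 := one_le_pow₀ hu
  have h5' : 0 < u ^ 5 := by positivity
  have a1 : n * ell ≤ n * (u ^ 5 * ell) :=
    mul_le_mul_of_nonneg_left (le_mul_of_one_le_left (by linarith) h5) hn
  have a2 : n * u ^ 5 ≤ n * (u ^ 5 * ell) :=
    mul_le_mul_of_nonneg_left (le_mul_of_one_le_right h5'.le hell) hn
  have a3 : n ^ 2 * ell / u ^ 5 ≤ 1024 * (n * (u ^ 5 * ell)) := by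
    rw [div_le_iff₀ h5']
    have : n * (n * ell) ≤ 1024 * u ^ 10 * (n * ell) :=
      mul_le_mul_of_nonneg_right hn' (mul_nonneg hn (by linarith))
    calc n ^ 2 * ell = n * (n * ell) := by ring
      _ ≤ 1024 * u ^ 10 * (n * ell) := this
      _ = 1024 * (n * (u ^ 5 * ell)) * u ^ 5 := by ring
  have a4 : 0 ≤ n * ell + n * u ^ 5 + n ^ 2 * ell / u ^ 5 := by positivity
  have a5 : C1 * (n * ell + n * u ^ 5 + n ^ 2 * ell / u ^ 5) ≤ K * (1026 * (n * (u ^ 5 * ell))) :=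
    (mul_le_mul_of_nonneg_right hC a4).trans (mul_le_mul_of_nonneg_left (by linarith) hK)
  have a6 : 1026 * K * ell * (n * u ^ 5) ≤ δ * u * (n * u ^ 5) :=
    mul_le_mul_of_nonneg_right hδ (by positivity)
  have a7 : 0 ≤ δ * u := le_trans (by positivity) hδ
  have a8 : δ * u * (n * u ^ 5) ≤ δ * u * (n * u ^ 5) * u :=
    le_mul_of_one_le_right (by positivity) hu
  refine le_of_mul_le_mul_right (a := u ^ 7) ?_ (by positivity)
  calc x * u ^ 7 ≤ K * (1026 * (n * (u ^ 5 * ell))) := hx.trans a5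
    _ = 1026 * K * ell * (n * u ^ 5) := by ring
    _ ≤ δ * u * (n * u ^ 5) * u := a6.trans a8
    _ = δ * n * u ^ 7 := by ring

theorem hmost_num2 {x K C1 n u ell δ : ℝ} (hu : 1 ≤ u) (hn : 0 ≤ n) (hn' : n ≤ 1024 * u ^ 10)
    (hell : 1 ≤ ell) (hK : 0 ≤ K) (hC : C1 ≤ K) (hδ : 1026 * K * ell ≤ δ * u)
    (hx : x * u ^ 12 ≤ C1 * n ^ 2 * ell) : x ≤ δ * n := by
  have hu0 : 0 < u := by linarith
  have a1 : C1 * (n ^ 2 * ell) ≤ K * (n ^ 2 * ell) :=
    mul_le_mul_of_nonneg_right hC (by positivity)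
  have a2 : n * (K * ell * n) ≤ 1026 * u ^ 10 * (K * ell * n) :=
    mul_le_mul_of_nonneg_right (by nlinarith [pow_pos hu0 10]) (by positivity)
  have a6 : 1026 * K * ell * (n * u ^ 10) ≤ δ * u * (n * u ^ 10) :=
    mul_le_mul_of_nonneg_right hδ (by positivity)
  have a7 : 0 ≤ δ * u := le_trans (by positivity) hδ
  have a8 : δ * u * (n * u ^ 10) ≤ δ * u * (n * u ^ 10) * u :=
    le_mul_of_one_le_right (by positivity) hu
  refine le_of_mul_le_mul_right (a := u ^ 12) ?_ (by positivity)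
  calc x * u ^ 12 ≤ C1 * (n ^ 2 * ell) := by rw [← mul_assoc]; exact hx
    _ ≤ n * (K * ell * n) := a1.trans (le_of_eq (by ring))
    _ ≤ 1026 * K * ell * (n * u ^ 10) := a2.trans (le_of_eq (by ring))
    _ ≤ δ * u * (n * u ^ 10) * u := a6.trans a8
    _ = δ * n * u ^ 12 := by ring

open Classical in
/-- Take `u` from `exists_root10`, `r0 = u ^ 5` in `count_main`. An old `y` with `N y ≤ u ^ 7` and
`E y ≤ u ^ 12` is good by `good_weight` (`r = u ^ 6`). By Markov's inequality there are at most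
`C' u ^ 8 ell ≤ ε n` other old `y` (`log_small`). -/
theorem most_good {ph b pp : ℕ} (P : Par p ph b pp) (ht : 0 < Fintype.card ι) (Cw C : ℕ) {ε : ℝ}
    (hε : 0 < ε) : ∃ n0 : ℕ, ∀ (κ0 n ell D : ℕ) (S : ℕ → Multiset (KP p)) (q : ℕ → ℕ)
      (U1 U2 : ℕ → ℝ) (_ : Fam p ι ph b pp κ0 n ell D S q U1 U2), κ0 < ph → n0 ≤ n → 1 ≤ ell →
      ell ≤ C * Nat.log 2 n → n ^ 2 ≤ D → Grow p (Fintype.card ι) C q U1 U2 →
      (((range (Cw * n)).filter fun y => (p + 1) * n ≤ Fintype.card ι * (κ0 + ph * y) ∧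
        np p (S (κ0 + ph * y)) (n / Fintype.card ι : ℕ) <
          Fintype.card ι * ((n / Fintype.card ι : ℕ) : ℝ) ^ 2 / 2 - ε * n ^ 2).card : ℝ) ≤
        ε * n := by
  obtain ⟨C1, n1, h1⟩ := count_main (ι := ι) P ht Cw C
  obtain ⟨n2, h2⟩ := good_weight (ι := ι) P ht Cw C hε
  obtain ⟨n3, h3⟩ := log_small (1026 * ⌈C1⌉₊ * C + 1) 1 (half_pos hε)
  refine ⟨max 1 (max n1 (max n2 n3)), ?_⟩
  intro κ0 n ell D S q U1 U2 F hκ0 hn hell hellC hD hG
  have hn0 : 1 ≤ n := (le_max_left _ _).trans hn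
  have hn1 : n1 ≤ n := ((le_max_left _ _).trans (le_max_right _ _)).trans hn
  have hn2 : n2 ≤ n :=
    (((le_max_left _ _).trans (le_max_right _ _)).trans (le_max_right _ _)).trans hn
  have hn3 : n3 ≤ n :=
    (((le_max_right _ _).trans (le_max_right _ _)).trans (le_max_right _ _)).trans hn
  obtain ⟨u, hu1, hu2, hu3⟩ := exists_root10 hn0
  obtain ⟨N, E, hN, hE, sE, sN, hy⟩ := h1 κ0 n ell D (u ^ 5) S q U1 U2 F hκ0 hn1 hell hD
    (Nat.one_le_pow _ _ hu1) ((Nat.pow_le_pow_right hu1 (by norm_num)).trans hu2) hG.q_le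
  have hu1' : (1 : ℝ) ≤ u := by exact_mod_cast hu1
  have hu3' : (n : ℝ) ≤ 1024 * (u : ℝ) ^ 10 := by exact_mod_cast hu3
  have hell' : (1 : ℝ) ≤ ell := by exact_mod_cast hell
  have hδ : 1026 * (⌈C1⌉₊ : ℝ) * ell ≤ ε / 2 * u := by
    have a1 := (h3 n u hn3 hu3).2 n (Nat.le_mul_of_pos_left _ (Nat.succ_pos _))
    refine le_trans ?_ a1
    have a2 : 1026 * ⌈C1⌉₊ * ell ≤ (1026 * ⌈C1⌉₊ * C + 1) * Nat.log 2 n ^ 1 := by
      rw [pow_one, add_mul, mul_assoc _ C]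
      exact (Nat.mul_le_mul_left _ hellC).trans (Nat.le_add_right _ _)
    exact_mod_cast a2
  have m1 := hmost_markov ((range (Cw * n)).filter
    (fun y => (p + 1) * n ≤ Fintype.card ι * (κ0 + ph * y))) N hN ((u : ℝ) ^ 7)
  have m2 := hmost_markov (range (Cw * n)) E hE ((u : ℝ) ^ 12)
  have b1 := hmost_num1 hu1' (Nat.cast_nonneg n) hu3' hell' (Nat.cast_nonneg _) (Nat.le_ceil C1)
    hδ (m1.trans (by exact_mod_cast sN))
  have b2 := hmost_num2 hu1' (Nat.cast_nonneg n) hu3' hell' (Nat.cast_nonneg _) (Nat.le_ceil C1)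
    hδ (m2.trans sE)
  have hsub : ((range (Cw * n)).filter fun y => (p + 1) * n ≤ Fintype.card ι * (κ0 + ph * y) ∧
        np p (S (κ0 + ph * y)) (n / Fintype.card ι : ℕ) <
          Fintype.card ι * ((n / Fintype.card ι : ℕ) : ℝ) ^ 2 / 2 - ε * n ^ 2) ⊆
      (((range (Cw * n)).filter
        (fun y => (p + 1) * n ≤ Fintype.card ι * (κ0 + ph * y))).filter
          fun y => (u : ℝ) ^ 7 < N y) ∪ (range (Cw * n)).filter fun y => (u : ℝ) ^ 12 < E y := by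
    intro y hyB
    obtain ⟨hy1, hy2, hy3⟩ := mem_filter.1 hyB
    by_contra hno
    rw [mem_union, not_or] at hno
    have c1 : N y ≤ (u : ℝ) ^ 7 :=
      not_lt.1 fun h => hno.1 (mem_filter.2 ⟨mem_filter.2 ⟨hy1, hy2⟩, h⟩)
    have c2 : E y ≤ (u : ℝ) ^ 12 := not_lt.1 fun h => hno.2 (mem_filter.2 ⟨hy1, h⟩)
    obtain ⟨y', hy', hle⟩ := hy y (u ^ 6)
    refine absurd hy3 (not_lt.2 (h2 κ0 n ell D u y y' S q U1 U2 F hκ0 hn2 hellC hD hG hu2 hu3
      (mem_range.1 hy1) hy2 hy' (le_trans ?_ hle)))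
    refine Real.rpow_le_rpow_of_exponent_le (one_lt_p p).le (neg_le_neg ?_)
    have c3 : ((u ^ 6 : ℕ) : ℝ) * N y ≤ (u : ℝ) ^ 13 := by
      push_cast
      calc (u : ℝ) ^ 6 * N y ≤ (u : ℝ) ^ 6 * (u : ℝ) ^ 7 :=
            mul_le_mul_of_nonneg_left c1 (by positivity)
        _ = (u : ℝ) ^ 13 := by ring
    have c4 : (u : ℝ) ^ 12 ≤ (u : ℝ) ^ 13 := pow_le_pow_right₀ hu1' (by norm_num)
    linarith
  have hc := (Nat.cast_le (α := ℝ)).2 ((card_le_card hsub).trans (card_union_le _ _))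
  rw [Nat.cast_add] at hc
  linarith

end Pool.Agent.Lib.MP_88d29b_nt.G
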