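import Pool.Agent.Lib.MP_88d29b_nt.HOldA
import Pool.Agent.Lib.MP_88d29b_nt.HCore
import Pool.Agent.Lib.MP_88d29b_nt.HHodge

set_option autoImplicit false

noncomputable section

namespace Pool.Agent.Lib.MP_88d29b_nt.G

open Finset CongruenceSubgroup Matrix
open scoped MatrixGroups

variable {p : ℕ} [Fact p.Prime] {ι : Type} [Fintype ι] [DecidableEq ι]

omit [Fintype ι] [DecidableEq ι] in
theorem hold_emb_inj {κ D : ℕ} (h : κ ≤ D) : Function.Injective (emb (ι := ι) h) := by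
  rintro ⟨a, i⟩ ⟨b, j⟩ hab
  simp only [emb, Prod.mk.injEq] at hab
  exact Prod.ext hab.1 (Fin.castLE_injective _ hab.2)

theorem hold_card_le {α β : Type} [DecidableEq β] (e : α → β) (he : Function.Injective e)
    (T : Finset α) (I : Finset β) (g : β → ℝ) (hg : ∀ j, 0 ≤ g j) {s : ℝ}
    (h : ∀ i ∈ T, e i ∈ I ∧ s ≤ g (e i)) : T.card * s ≤ ∑ j ∈ I, g j := by
  have h1 := Finset.card_nsmul_le_sum T (fun i => g (e i)) s fun i hi => (h i hi).2
  rw [nsmul_eq_mul, ← Finset.sum_image (f := g) he.injOn] at h1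
  refine h1.trans (Finset.sum_le_sum_of_subset_of_nonneg ?_ fun j _ _ => hg j)
  intro j hj
  obtain ⟨i, hi, rfl⟩ := Finset.mem_image.1 hj
  exact (h i hi).1

theorem hold_num {t n : ℕ} (ht : 0 < t) (ell : ℕ) :
    (t : ℝ) * ((n / t : ℕ) : ℝ) ^ 2 / 2 ≤ n * (((n / t : ℕ) : ℝ) + ell) - hpl t n := by
  have ht0 : (0 : ℝ) < t := by exact_mod_cast ht
  have h1 : ((n / t : ℕ) : ℝ) ≤ (n : ℝ) / t := Nat.cast_div_le
  have h2 : (n : ℝ) / t < ((n / t : ℕ) : ℝ) + 1 := by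
    rw [div_lt_iff₀ ht0]
    have := Nat.lt_div_mul_add (a := n) ht
    have h3 : (n : ℝ) < (n / t : ℕ) * t + t := by exact_mod_cast this
    linarith
  unfold hpl
  have e : (n : ℝ) = t * ((n : ℝ) / t) := by field_simp
  have e2 : (n : ℝ) ^ 2 / (2 * t) = t * ((n : ℝ) / t) ^ 2 / 2 := by field_simp
  have hJ : 0 ≤ (n : ℝ) / t := by positivity
  have h4 : 0 ≤ (n : ℝ) * ell := by positivity
  rw [e2]
  generalize ((n / t : ℕ) : ℝ) = k at *
  generalize (n : ℝ) / t = J at *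
  have h5 : (J - k) ^ 2 ≤ 1 := by nlinarith
  have h6 := mul_le_mul_of_nonneg_left h5 ht0.le
  have h7 := mul_nonneg ht0.le hJ
  have h8 : (n : ℝ) * k = t * J * k := by rw [← e]
  nlinarith

/-- Let `t = |ι|`, `J = n / t` (real), `h = n / t` (natural), `H = h + ell`, `s = r + ell + 2`. Take `I`
from `exists_le_minor`; by `hodge_pen` the two penalty sums, `v (det A_I)` and `∑_I deg - hpl` are at
most `Λ`. Let `I0` be the set of `i : Jx ι κ` with `emb h i ∈ I` and degree at most `J + s`;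
`a = n - |I0| ≤ Λ / s`. Apply `core_lower` to `A0 + AW`, `π i = p ^ deg i / p ^ H`, `R = p ^ r`,
`R' = p ^ (r + 1)`, `Δ = R ^ a / ‖det A_I‖ ≤ p ^ (2 Λ)` (`old_minor`; `AW` is at most `p ^ (-r)` on
`I0 × I0`), `Mid` = indices of degree in `[J - s, J + s]` or of degree `< J - s` with `emb h i ∉ I`
(at most `t (2 s + 1) + Λ / s`). `∑_(I0) (H - deg) ≥ ∑_I (H - deg) ≥ n H - hpl - Λ ≥ t h ^ 2 / 2 - Λ`.
Compare with `hU.2 h m` and take logarithms. -/
theorem old_bound (ht : 0 < Fintype.card ι) {D κ n r ell m q : ℕ} {Λ U1 U2 : ℝ} (h : κ ≤ D)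
    (A : Matrix (Jx ι D) (Jx ι D) (KP p)) (hA : EntLe A 1) (A0 AW : Matrix (Jx ι κ) (Jx ι κ) (KP p))
    (hA0 : EntLe A0 1) (hc : EntLe (blk h A - A0) ((p : ℝ) ^ (-(r : ℝ)))) (hW : Decay p AW)
    (S : Multiset (KP p)) (hU : Upper p ell (dmat p ι κ * (A0 + AW)) S q U1 U2) (hr : 1 ≤ r)
    (hm : 1 ≤ m) (hΛ : (p : ℝ) ^ (-(hpl (Fintype.card ι) n + Λ)) ≤ ‖cf (dmat p ι D * A) n‖)
    (hκ : 2 * ((n : ℝ) / Fintype.card ι + (r + ell + 2)) + r ≤ κ)
    (hH : r + 1 ≤ n / Fintype.card ι + ell) :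
    m * (Fintype.card ι * ((n / Fintype.card ι : ℕ) : ℝ) ^ 2 / 2 - 3 * Λ) ≤
      m * np p S (n / Fintype.card ι : ℕ) + U1 + (((n / Fintype.card ι : ℕ) : ℝ) + ell) * q +
        U2 * m ^ 2 * (((n / Fintype.card ι : ℕ) : ℝ) + ell) +
        m ^ 2 * (((n / Fintype.card ι : ℕ) : ℝ) + ell) *
          (3 * Λ / r + Fintype.card ι * (2 * (r + ell + 2) + 1)) := by
  classical
  have hP := one_lt_p p
  have hP0 := p_pos p
  have ht0 : (0 : ℝ) < Fintype.card ι := by exact_mod_cast ht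
  have hr0 : (1 : ℝ) ≤ r := by exact_mod_cast hr
  have hnum := hold_num (n := n) ht ell
  have hk1 : ((n / Fintype.card ι : ℕ) : ℝ) ≤ (n : ℝ) / Fintype.card ι := Nat.cast_div_le
  have hk2 : (n : ℝ) / Fintype.card ι < ((n / Fintype.card ι : ℕ) : ℝ) + 1 := by
    rw [div_lt_iff₀ ht0]
    have := Nat.lt_div_mul_add (a := n) ht
    have h3 : (n : ℝ) < (n / Fintype.card ι : ℕ) * (Fintype.card ι : ℝ) + Fintype.card ι := by
      exact_mod_cast this
    linarith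
  have hvol := hU.2 (n / Fintype.card ι) m hm
  obtain ⟨I, hI, hδ⟩ := exists_le_minor A n (Real.rpow_pos_of_pos hP0 _) hΛ
  have hpen := hodge_pen ht I hI
  generalize n / Fintype.card ι = k at *
  have hJ0 : 0 ≤ (n : ℝ) / Fintype.card ι := by positivity
  generalize (n : ℝ) / Fintype.card ι = J at *
  have hell : (0 : ℝ) ≤ ell := Nat.cast_nonneg _
  have hk0 : (0 : ℝ) ≤ k := Nat.cast_nonneg _
  set s : ℝ := r + ell + 2 with hs
  set δ := ‖(A.submatrix (Subtype.val : I → Jx ι D) (Subtype.val : I → Jx ι D)).det‖ with hδd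
  have hδ1 : δ ≤ 1 := by
    have := norm_det_le_pow (A.submatrix (Subtype.val : I → Jx ι D) (Subtype.val : I → Jx ι D))
      zero_le_one fun i j => hA _ _
    rwa [one_pow] at this
  have hp1 : 0 ≤ ∑ i ∈ I, max 0 (((i.2 : ℕ) : ℝ) - J) :=
    Finset.sum_nonneg fun _ _ => le_max_left _ _
  have hp2 : 0 ≤ ∑ i ∈ Iᶜ, max 0 (J - ((i.2 : ℕ) : ℝ)) :=
    Finset.sum_nonneg fun _ _ => le_max_left _ _
  have hsum : ∑ i ∈ I, ((i.2 : ℕ) : ℝ) ≤ hpl (Fintype.card ι) n + Λ := by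
    have h1 := hδ.trans (mul_le_of_le_one_right (Real.rpow_pos_of_pos hP0 _).le hδ1)
    rw [Real.rpow_le_rpow_left_iff hP] at h1
    linarith
  have hδ2 : (p : ℝ) ^ (-Λ) ≤ δ := by
    have h1 : (p : ℝ) ^ (-(∑ i ∈ I, ((i.2 : ℕ) : ℝ))) * (p : ℝ) ^ (-Λ) ≤
        (p : ℝ) ^ (-(hpl (Fintype.card ι) n + Λ)) := by
      rw [← Real.rpow_add hP0, Real.rpow_le_rpow_left_iff hP]
      linarith
    exact le_of_mul_le_mul_left (h1.trans hδ) (Real.rpow_pos_of_pos hP0 _)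
  have hδ0 : 0 < δ := (Real.rpow_pos_of_pos hP0 _).trans_le hδ2
  let I0 : Finset (Jx ι κ) := univ.filter fun i => emb h i ∈ I ∧ ((i.2 : ℕ) : ℝ) ≤ J + s
  let M1 : Finset (Jx ι κ) := univ.filter fun i => J - s ≤ ((i.2 : ℕ) : ℝ) ∧ ((i.2 : ℕ) : ℝ) ≤ J + s
  let M2 : Finset (Jx ι κ) := univ.filter fun i => ((i.2 : ℕ) : ℝ) < J - s ∧ emb h i ∉ I
  have mI0 : ∀ i, i ∈ I0 ↔ emb h i ∈ I ∧ ((i.2 : ℕ) : ℝ) ≤ J + s := fun i => by simp [I0]
  have mM : ∀ i, i ∉ M1 ∪ M2 → (J + s < ((i.2 : ℕ) : ℝ) ∨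
      (((i.2 : ℕ) : ℝ) < J - s ∧ emb h i ∈ I)) := by
    intro i hi
    simp only [M1, M2, Finset.mem_union, Finset.mem_filter, Finset.mem_univ, true_and, not_or,
      not_and, not_le, not_not] at hi
    rcases lt_or_ge ((i.2 : ℕ) : ℝ) (J - s) with h1 | h1
    · exact Or.inr ⟨h1, hi.2 h1⟩
    · exact Or.inl (hi.1 h1)
  have hsub : I0.image (emb h) ⊆ I := by
    intro j hj
    obtain ⟨i, hi, rfl⟩ := Finset.mem_image.1 hj
    exact ((mI0 i).1 hi).1
  have hout : ∀ j ∈ I \ I0.image (emb h), J + s < ((j.2 : ℕ) : ℝ) := by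
    intro j hj
    rw [Finset.mem_sdiff] at hj
    by_contra hc
    push Not at hc
    have h1 : (j.2 : ℕ) ≤ κ := by
      have : ((j.2 : ℕ) : ℝ) ≤ κ := by linarith
      exact_mod_cast this
    refine hj.2 (Finset.mem_image.2 ⟨(j.1, ⟨j.2, Nat.lt_succ_of_le h1⟩), ?_, rfl⟩)
    exact (mI0 _).2 ⟨hj.1, hc⟩
  have ha : ((I.card - I0.card : ℕ) : ℝ) * s ≤ Λ := by
    have h1 := hold_card_le id Function.injective_id (I \ I0.image (emb h)) I
      (fun i => max 0 (((i.2 : ℕ) : ℝ) - J)) (fun _ => le_max_left _ _) (s := s) fun j hj =>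
        ⟨(Finset.mem_sdiff.1 hj).1, le_max_of_le_right (by
          have := hout j hj
          simp only [id]
          linarith)⟩
    rw [Finset.card_sdiff_of_subset hsub, Finset.card_image_of_injective _ (hold_emb_inj h)] at h1
    linarith
  have hM2 : (M2.card : ℝ) * s ≤ Λ := by
    have h1 := hold_card_le (emb h) (hold_emb_inj h) M2 Iᶜ
      (fun i => max 0 (J - ((i.2 : ℕ) : ℝ))) (fun _ => le_max_left _ _) (s := s) fun j hj => by
        simp only [M2, Finset.mem_filter, Finset.mem_univ, true_and] at hj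
        refine ⟨Finset.mem_compl.2 hj.2, le_max_of_le_right ?_⟩
        change s ≤ J - ((j.2 : ℕ) : ℝ)
        linarith [hj.1]
    linarith
  have hM1 : (M1.card : ℝ) ≤ Fintype.card ι * (2 * s + 1) := by
    refine (card_band (ι := ι) κ (J - s) (J + s)).trans (le_of_eq ?_)
    rw [max_eq_right (by linarith)]
    ring
  have hI0 : Fintype.card ι * (k : ℝ) ^ 2 / 2 - Λ ≤
      ∑ i ∈ I0, (((k + ell : ℕ) : ℝ) - ((i.2 : ℕ) : ℝ)) := by
    have h1 := Finset.sum_sdiff hsub (f := fun i : Jx ι D => ((k + ell : ℕ) : ℝ) - ((i.2 : ℕ) : ℝ))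
    rw [Finset.sum_image (hold_emb_inj h).injOn, Finset.sum_sub_distrib (s := I),
      Finset.sum_const, hI, nsmul_eq_mul] at h1
    have h2 : ∑ j ∈ I \ I0.image (emb h), (((k + ell : ℕ) : ℝ) - ((j.2 : ℕ) : ℝ)) ≤ 0 :=
      Finset.sum_nonpos fun j hj => by
        have := hout j hj
        push_cast
        linarith
    have h3 : ∑ i ∈ I0, (((k + ell : ℕ) : ℝ) - (((emb h i).2 : ℕ) : ℝ)) =
        ∑ i ∈ I0, (((k + ell : ℕ) : ℝ) - ((i.2 : ℕ) : ℝ)) := rfl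
    rw [h3] at h1
    push_cast at h1 h2 ⊢
    linarith
  have hA1 : EntLe (A0 + AW) 1 := hA0.add hW.1
  let π : Jx ι κ → KP p := fun i => ((p : KP p) ^ (k + ell))⁻¹ * (p : KP p) ^ (i.2 : ℕ)
  have hπ : ∀ i, ‖π i‖ = (p : ℝ) ^ (((k + ell : ℕ) : ℝ) - ((i.2 : ℕ) : ℝ)) := fun i => by
    rw [norm_mul, norm_p_pow_inv, norm_p_pow, ← Real.rpow_add hP0, sub_eq_add_neg]
  have hR1 : 1 ≤ (p : ℝ) ^ (r : ℝ) := Real.one_le_rpow hP.le (by linarith)
  have hHr : (r : ℝ) + 1 ≤ k + ell := by exact_mod_cast hH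
  obtain ⟨q', hq1, hq2⟩ := core_lower (A0 + AW) hA1 π I0 (M1 ∪ M2) ((p : KP p) ^ r)⁻¹
    ((p : KP p) ^ (r + 1))⁻¹ (H := (p : ℝ) ^ ((k + ell : ℕ) : ℝ))
    (Δ := ((p : ℝ) ^ (r : ℝ)) ^ (I.card - I0.card) / δ) (norm_p_pow_inv p r)
    (norm_p_pow_inv p (r + 1)) hR1
    (by rw [Real.rpow_lt_rpow_left_iff hP]; push_cast; linarith)
    (by rw [Real.rpow_le_rpow_left_iff hP]; push_cast; linarith) (by positivity)
    (fun i => by
      rw [hπ, Real.rpow_le_rpow_left_iff hP]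
      linarith [Nat.cast_nonneg (α := ℝ) (i.2 : ℕ)])
    (fun i hi hi' => by
      rw [hπ, Real.rpow_le_rpow_left_iff hP]
      have h1 := ((mI0 i).1 hi).2
      rcases mM i hi' with h2 | h2
      · linarith
      · push_cast
        linarith [h2.1])
    (fun i hi hi' => by
      rw [hπ, ← Real.rpow_neg hP0.le, Real.rpow_le_rpow_left_iff hP]
      rcases mM i hi' with h2 | h2
      · push_cast
        linarith
      · exact absurd ((mI0 i).2 ⟨h2.2, by linarith [h2.1]⟩) hi)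
    (fun x hx => by
      have h1 := old_minor (emb h) (hold_emb_inj h) A hA (A0 + AW) hA1 I I0
        (fun i hi => ((mI0 i).1 hi).1) _ (norm_p_pow_inv p r) hR1 (fun i hi j hj => by
          have e : A (emb h i) (emb h j) - (A0 + AW) i j = (blk h A - A0) i j + -AW i j := by
            simp only [blk, Matrix.sub_apply, Matrix.add_apply, Matrix.submatrix_apply]
            ring
          rw [e, ← Real.rpow_neg hP0.le]
          refine (IsUltrametricDist.norm_add_le_max _ _).trans (max_le (hc i j) ?_)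
          rw [norm_neg]
          refine (hW.2 i j).trans ?_
          rw [Real.rpow_le_rpow_left_iff hP]
          linarith [((mI0 i).1 hi).2, ((mI0 j).1 hj).2]) hx
      rw [← mul_div_assoc, le_div_iff₀ hδ0]
      exact h1)
  have hΔ : ((p : ℝ) ^ (r : ℝ)) ^ (I.card - I0.card) / δ ≤ (p : ℝ) ^ (2 * Λ) := by
    rw [div_le_iff₀ hδ0]
    refine le_trans ?_ (mul_le_mul_of_nonneg_left hδ2 (Real.rpow_pos_of_pos hP0 _).le)
    rw [← Real.rpow_mul_natCast hP0.le, ← Real.rpow_add hP0, Real.rpow_le_rpow_left_iff hP]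
    have := mul_le_mul_of_nonneg_left (by linarith : (r : ℝ) ≤ s)
      (Nat.cast_nonneg (α := ℝ) (I.card - I0.card))
    linarith
  have hq3 : (q' : ℝ) ≤ 2 * Λ / r := by
    have h1 := hq1.trans hΔ
    rw [← Real.rpow_mul_natCast hP0.le, Real.rpow_le_rpow_left_iff hP] at h1
    rw [le_div_iff₀ (by linarith)]
    linarith
  have hM3 : (M2.card : ℝ) ≤ Λ / r := by
    rw [le_div_iff₀ (by linarith)]
    have := mul_le_mul_of_nonneg_left (by linarith : (r : ℝ) ≤ s)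
      (Nat.cast_nonneg (α := ℝ) M2.card)
    linarith
  have hM : ((q' + (M1 ∪ M2).card : ℕ) : ℝ) ≤ 3 * Λ / r + Fintype.card ι * (2 * s + 1) := by
    have h1 : ((M1 ∪ M2).card : ℝ) ≤ M1.card + M2.card := by
      exact_mod_cast Finset.card_union_le M1 M2
    have e : 3 * Λ / r = 2 * Λ / r + Λ / r := by ring
    push_cast
    linarith
  have hdiag : Matrix.diagonal π * (A0 + AW) =
      ((p : KP p) ^ (k + ell))⁻¹ • (dmat p ι κ * (A0 + AW)) := by
    ext i j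
    simp only [dmat, Matrix.diagonal_mul, Matrix.smul_apply, smul_eq_mul, π, mul_assoc]
  have h1 := hq2 m _ hm (hdiag ▸ hvol)
  have h2 : (p : ℝ) ^ (Fintype.card ι * (k : ℝ) ^ 2 / 2 - 3 * Λ) ≤
      (∏ i ∈ I0, ‖π i‖) / (((p : ℝ) ^ (r : ℝ)) ^ (I.card - I0.card) / δ) := by
    rw [le_div_iff₀ (by positivity)]
    refine (mul_le_mul_of_nonneg_left hΔ (Real.rpow_pos_of_pos hP0 _).le).trans ?_
    rw [Finset.prod_congr rfl fun i _ => hπ i, ← Real.rpow_sum_of_pos hP0, ← Real.rpow_add hP0,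
      Real.rpow_le_rpow_left_iff hP]
    linarith
  have h3 := (pow_le_pow_left₀ (Real.rpow_pos_of_pos hP0 _).le h2 m).trans h1
  rw [← Real.rpow_mul_natCast hP0.le, ← Real.rpow_mul_natCast hP0.le, ← Real.rpow_add hP0,
    Real.rpow_le_rpow_left_iff hP] at h3
  have h4 := mul_le_mul_of_nonneg_left hM (by positivity : (0 : ℝ) ≤ m ^ 2 * ((k : ℝ) + ell))
  push_cast at h3 h4
  linarith

end Pool.Agent.Lib.MP_88d29b_nt.G
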