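import Pool.Agent.Lib.MP_88d29b_nt.HProj

set_option autoImplicit false

noncomputable section

namespace Pool.Agent.Lib.MP_88d29b_nt.G

open Finset CongruenceSubgroup Matrix
open scoped MatrixGroups

variable {K : Type} [NormedField K] [IsUltrametricDist K]

/-- The block of `A` on `e (I0)`, completed by the identity. -/
theorem holda_block {m n : Type} [Fintype m] [DecidableEq m] (e : m → n) (A : Matrix n n K)
    (A1 : Matrix m m K) (hA1 : EntLe A1 1) (I0 : Finset m) (ϖ : K) {R : ℝ} (hϖ : ‖ϖ‖ = R)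
    (hR : 1 ≤ R) (hc : ∀ i ∈ I0, ∀ j ∈ I0, ‖A (e i) (e j) - A1 i j‖ ≤ R⁻¹) {x : ℝ}
    (hx : VolLe (ϖ • Matrix.of (I0.piecewise A1 (1 : Matrix m m K))) x) :
    VolLe (Matrix.of fun i j : m => ϖ * (if i ∈ I0 then (if j ∈ I0 then A (e i) (e j) else 0)
      else if i = j then 1 else 0)) x := by
  have hU : EntLe (Matrix.of fun i j : m => if i ∈ I0 ∧ j ∉ I0 then A1 i j else 0) 1 := by
    intro i j
    rw [Matrix.of_apply]
    split_ifs
    · exact hA1 i j
    · simp
  have hE : EntLe (Matrix.of fun i j : m =>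
      if i ∈ I0 ∧ j ∈ I0 then ϖ * (A (e i) (e j) - A1 i j) else 0) 1 := by
    intro i j
    rw [Matrix.of_apply]
    split_ifs with h
    · rw [norm_mul, hϖ]
      have h0 : 0 < R := by linarith
      calc R * ‖A (e i) (e j) - A1 i j‖ ≤ R * R⁻¹ :=
            mul_le_mul_of_nonneg_left (hc i h.1 j h.2) h0.le
        _ = 1 := mul_inv_cancel₀ h0.ne'
    · simp
  obtain ⟨Y, hY⟩ : ∃ Y : Matrix m m K, Y = Matrix.of (I0.piecewise A1 (1 : Matrix m m K)) :=
    ⟨_, rfl⟩
  have hYa : ∀ i j, Y i j = if i ∈ I0 then A1 i j else if i = j then 1 else 0 := by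
    intro i j
    rw [hY]
    change (if i ∈ I0 then A1 i else (1 : Matrix m m K) i) j = _
    split_ifs with h1 h2
    · rfl
    · rw [h2, Matrix.one_apply_eq]
    · exact Matrix.one_apply_ne h2
  rw [← hY] at hx
  have h1 := (((entLe_one.sub hU).volLe).mul hx).add hE.volLe
  rw [one_mul, mul_one] at h1
  have hN : ∀ i j : m, ((Matrix.of fun i j : m => if i ∈ I0 ∧ j ∉ I0 then A1 i j else 0) *
      Y) i j = if i ∈ I0 ∧ j ∉ I0 then A1 i j else 0 := by
    intro i j
    rw [Matrix.mul_apply, Finset.sum_eq_single j]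
    · by_cases hj : j ∈ I0
      · simp [hj]
      · simp [hj, hYa]
    · intro k _ hk
      by_cases hk0 : k ∈ I0
      · simp [hk0]
      · simp [hk0, hYa, hk]
    · simp
  have e1 : (Matrix.of fun i j : m => ϖ * (if i ∈ I0 then (if j ∈ I0 then A (e i) (e j) else 0)
      else if i = j then 1 else 0)) =
      (1 - Matrix.of fun i j : m => if i ∈ I0 ∧ j ∉ I0 then A1 i j else 0) *
        (ϖ • Y) +
      Matrix.of fun i j : m => if i ∈ I0 ∧ j ∈ I0 then ϖ * (A (e i) (e j) - A1 i j) else 0 := by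
    ext i j
    rw [Matrix.mul_smul, Matrix.sub_mul, Matrix.one_mul, Matrix.add_apply, Matrix.smul_apply,
      Matrix.sub_apply, hN, hYa]
    by_cases hi : i ∈ I0
    · by_cases hj : j ∈ I0
      · simp [hi, hj]
        ring
      · simp [hi, hj]
    · simp [hi]
  rw [e1]
  exact h1

/-- Let `Y1` be the matrix with the rows of `A1` on `I0` and unit rows off `I0`, `A00` the block of
`A1` on `I0`. Multiplying by an integral unipotent matrix turns `Y1` into `A00 ⊕ 1`; a minor of
`ϖ • A00` times `R ^ (|m| - |I0|)` is a minor of `ϖ • (A00 ⊕ 1)`. So `ϖ • A00` has minors at most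
`x' = x / R ^ (|m| - |I0|)`, and so has `ϖ •` (the block of `A` on `e(I0)`), which differs by an
integral matrix. Extend this block by zero to `I`; it differs from `ϖ • A_I` in `a = |I| - |I0|` rows
and columns, so `R ^ |I| ‖det A_I‖ ≤ R ^ (2 a) x'` by `VolLe.of_rank`. -/
theorem old_minor {m n : Type} [Fintype m] [DecidableEq m] [Fintype n] [DecidableEq n] (e : m → n)
    (he : Function.Injective e) (A : Matrix n n K) (hA : EntLe A 1) (A1 : Matrix m m K)
    (hA1 : EntLe A1 1) (I : Finset n) (I0 : Finset m) (hI : ∀ i ∈ I0, e i ∈ I) (ϖ : K) {R : ℝ}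
    (hϖ : ‖ϖ‖ = R) (hR : 1 ≤ R) (hc : ∀ i ∈ I0, ∀ j ∈ I0, ‖A (e i) (e j) - A1 i j‖ ≤ R⁻¹) {x : ℝ}
    (hx : VolLe (ϖ • Matrix.of (I0.piecewise A1 (1 : Matrix m m K))) x) :
    R ^ Fintype.card m * ‖(A.submatrix (Subtype.val : I → n) (Subtype.val : I → n)).det‖ ≤
      x * R ^ (I.card - I0.card) := by
  classical
  have h0 : 0 < R := by linarith
  have hx1 := hx.one_le
  rcases isEmpty_or_nonempty m with hm | hm
  · have h1 : ‖(A.submatrix (Subtype.val : I → n) (Subtype.val : I → n)).det‖ ≤ 1 :=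
      (hA.volLe.submatrix _ _).det_le
    rw [Fintype.card_eq_zero, pow_zero, one_mul]
    exact h1.trans (one_le_mul_of_one_le_of_one_le hx1 (one_le_pow₀ hR))
  have hC := holda_block e A A1 hA1 I0 ϖ hϖ hR hc hx
  obtain ⟨C, hC1⟩ : ∃ C : Matrix m m K, C = Matrix.of fun i j : m =>
    ϖ * (if i ∈ I0 then (if j ∈ I0 then A (e i) (e j) else 0) else if i = j then 1 else 0) :=
    ⟨_, rfl⟩
  rw [← hC1] at hC
  let g : I ⊕ (I0ᶜ : Finset m) → m := Sum.elim (fun i => Function.invFun e i.1) Subtype.val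
  let S : Finset (I ⊕ (I0ᶜ : Finset m)) :=
    (univ.filter fun i : I => i.1 ∉ I0.image e).image Sum.inl
  have hsub : I0.image e ⊆ I := by
    intro i hi
    obtain ⟨j, hj, rfl⟩ := mem_image.1 hi
    exact hI j hj
  have hle : I0.card ≤ I.card := by
    rw [← card_image_of_injective I0 he]
    exact card_le_card hsub
  have hS : S.card ≤ I.card - I0.card := by
    refine card_image_le.trans ?_
    rw [← card_image_of_injective I0 he, ← card_sdiff_of_subset hsub]
    refine card_le_card_of_injOn Subtype.val ?_ Subtype.val_injective.injOn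
    intro i hi
    exact mem_coe.2 (mem_sdiff.2 ⟨i.2, (mem_filter.1 hi).2⟩)
  have hcase : ∀ i : I, Sum.inl i ∉ S → ∃ j ∈ I0, e j = i.1 ∧ g (Sum.inl i) = j := by
    intro i hi
    have h1 : i.1 ∈ I0.image e := by
      by_contra h
      exact hi (mem_image_of_mem _ (mem_filter.2 ⟨mem_univ _, h⟩))
    obtain ⟨j, hj, hj'⟩ := mem_image.1 h1
    refine ⟨j, hj, hj', ?_⟩
    change Function.invFun e i.1 = j
    rw [← hj']
    exact Function.leftInverse_invFun he j
  obtain ⟨Z, hZ⟩ : ∃ Z : Matrix (I ⊕ (I0ᶜ : Finset m)) (I ⊕ (I0ᶜ : Finset m)) K,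
      Z = ϖ • Matrix.fromBlocks (A.submatrix (Subtype.val : I → n) (Subtype.val : I → n)) 0 0 1 :=
    ⟨_, rfl⟩
  have hZ1 : EntLe Z R := by
    have h1 : EntLe (Matrix.fromBlocks (A.submatrix (Subtype.val : I → n) (Subtype.val : I → n))
        0 0 (1 : Matrix (I0ᶜ : Finset m) (I0ᶜ : Finset m) K)) 1 := by
      rintro (i | i) (j | j)
      · exact hA _ _
      · simp
      · simp
      · exact entLe_one i j
    have h2 := h1.smul ϖ
    rwa [hϖ, mul_one, ← hZ] at h2
  have hrk : (Z - C.submatrix g g).rank ≤ 2 * (I.card - I0.card) := by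
    refine (rank_le_of_rows_cols _ S S ?_).trans (by omega)
    rintro (i | i) hi (j | j) hj
    · obtain ⟨a, ha, ha1, ha2⟩ := hcase i hi
      obtain ⟨b, hb, hb1, hb2⟩ := hcase j hj
      rw [Matrix.sub_apply, Matrix.submatrix_apply, ha2, hb2, hZ, hC1]
      simp [ha, hb, ha1, hb1]
    · obtain ⟨a, ha, ha1, ha2⟩ := hcase i hi
      have hb : j.1 ∉ I0 := mem_compl.1 j.2
      rw [Matrix.sub_apply, Matrix.submatrix_apply, ha2, hZ, hC1]
      simp [ha, hb, g]
    · obtain ⟨b, hb, hb1, hb2⟩ := hcase j hj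
      have ha : i.1 ∉ I0 := mem_compl.1 i.2
      have hab : i.1 ≠ b := fun h => ha (h ▸ hb)
      rw [Matrix.sub_apply, Matrix.submatrix_apply, hb2, hZ, hC1]
      simp [ha, hab, g]
    · have ha : i.1 ∉ I0 := mem_compl.1 i.2
      rw [Matrix.sub_apply, Matrix.submatrix_apply, hZ, hC1]
      by_cases hij : i = j
      · simp [g, hij, mem_compl.1 j.2]
      · have hij' : i.1 ≠ j.1 := fun h => hij (Subtype.ext h)
        simp [ha, g, hij, hij']
  have h3 := (VolLe.of_rank hrk hZ1 hR (hC.submatrix g g)).det_le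
  rw [hZ, Matrix.det_smul, Matrix.det_fromBlocks_zero₂₁, Matrix.det_one, mul_one, norm_mul,
    norm_pow, hϖ, Fintype.card_sum, Fintype.card_coe, Fintype.card_coe, card_compl] at h3
  have hm0 : I0.card ≤ Fintype.card m := card_le_univ _
  have e1 : I.card + (Fintype.card m - I0.card) = (I.card - I0.card) + Fintype.card m := by omega
  rw [e1, pow_add, two_mul, pow_add, mul_assoc, mul_assoc] at h3
  rw [mul_comm x]
  exact le_of_mul_le_mul_left h3 (pow_pos h0 _)

end Pool.Agent.Lib.MP_88d29b_nt.G
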