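import Pool.Agent.Lib.MP_88d29b_nt.HRootB

set_option autoImplicit false

noncomputable section

namespace Pool.Agent.Lib.MP_88d29b_nt.G

open Finset CongruenceSubgroup Matrix
open scoped MatrixGroups

variable {p : ℕ} [Fact p.Prime]

lemma hrootd_swap {α : Type*} (s : Multiset α) (R : Finset ℕ) (F : ℕ → α → ℝ) :
    ∑ u ∈ R, (s.map (F u)).sum = (s.map fun β => ∑ u ∈ R, F u β).sum := by
  induction s using Multiset.induction_on with
  | empty => simp
  | cons a s ih => simp only [Multiset.map_cons, Multiset.sum_cons, Finset.sum_add_distrib, ih]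

lemma hrootd_ite {α : Type*} (s : Multiset α) (P : α → Prop) [DecidablePred P] (c : ℝ) :
    (s.map fun β => if P β then c else 0).sum = (s.filter P).card * c := by
  induction s using Multiset.induction_on with
  | empty => simp
  | cons a s ih =>
    rw [Multiset.map_cons, Multiset.sum_cons, ih]
    by_cases h : P a
    · rw [if_pos h, Multiset.filter_cons_of_pos _ h, Multiset.card_cons]
      push_cast
      ring
    · rw [if_neg h, Multiset.filter_cons_of_neg _ h, zero_add]

lemma hrootd_vt_nonneg (e u u' : ℕ) : 0 ≤ vt p e ((u : KP p) - u') := by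
  have h1 : (1 : ℝ) < p := by exact_mod_cast (Fact.out : p.Prime).one_lt
  rw [vt, neg_nonneg]
  refine Real.logb_nonpos h1 (le_max_of_le_right (norm_nonneg _)) (max_le ?_ ?_)
  · exact Real.rpow_le_one_of_one_le_of_nonpos h1.le (neg_nonpos.mpr (Nat.cast_nonneg e))
  · have := norm_int_le p ((u : ℤ) - u')
    push_cast at this
    exact this

/-- Let `N` be the number of roots in the disc, `p ^ e ≥ 2 N + 1`, `y u = y + p ^ m u`, `u < p ^ e`.
For a root `β` in the disc let `u_β` minimise `‖w (y u) - β‖`; for `u ≠ u_β` one has `w (y u) ≠ β` and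
`v (w (y u) - β) ≤ b + m + v (u - u_β) = b + m + vt e (u - u_β)`. Roots outside the disc have
`‖w (y u) - β‖ = ‖w y - β‖`. At least `p ^ e / 2` values of `u` differ from all `u_β`, and the sum over
them of `∑_β vt e (u - u_β)` is at most `N p ^ e` (`sum_vt_le`), so one of them has at most `2 N`. -/
theorem exists_near (f : Polynomial (KP p)) (hf : f ≠ 0) (w : ℕ → KP p) (b : ℕ)
    (hw : ∀ y y' : ℕ, ‖w y - w y'‖ = (p : ℝ) ^ (-(b : ℝ)) * ‖(y : KP p) - y'‖) (y m : ℕ) :
    ∃ y', y' ≡ y [MOD p ^ m] ∧ f.eval (w y') ≠ 0 ∧ -Real.logb p ‖f.eval (w y')‖ ≤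
      gv p f (w y) ((b : ℝ) + m) + 2 * nr p f (w y) ((b : ℝ) + m) := by
  classical
  have h1 : (1 : ℝ) < p := by exact_mod_cast (Fact.out : p.Prime).one_lt
  have h2 : (2 : ℝ) ≤ p := by exact_mod_cast (Fact.out : p.Prime).two_le
  have h0 : (0 : ℝ) < p := by linarith
  set r : ℝ := (b : ℝ) + m with hr
  set ρ : ℝ := (p : ℝ) ^ (-r) with hρ
  have hρ0 : 0 < ρ := Real.rpow_pos_of_pos h0 _
  set N := nr p f (w y) r with hN
  obtain ⟨e, he⟩ : ∃ e : ℕ, 2 * N < p ^ e :=
    ⟨2 * N, Nat.lt_pow_self (Fact.out : p.Prime).one_lt⟩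
  let x : ℕ → KP p := fun u => w (y + p ^ m * u)
  have hx : ∀ u u', ‖x u - x u'‖ = ρ * ‖(u : KP p) - u'‖ := by
    intro u u'
    have e1 : ((y + p ^ m * u : ℕ) : KP p) - (y + p ^ m * u' : ℕ) = (p : KP p) ^ m * (u - u') := by
      push_cast
      ring
    simp only [x]
    rw [hw, e1, norm_mul, norm_p_pow, ← mul_assoc, ← Real.rpow_add h0, hρ, hr, neg_add]
  have hx0 : ∀ u, ‖x u - w y‖ ≤ ρ := by
    intro u
    have e1 : w y = x 0 := by simp [x]
    rw [e1, hx]
    have := norm_int_le p ((u : ℤ) - (0 : ℕ))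
    push_cast at this ⊢
    exact mul_le_of_le_one_right hρ0.le this
  have hne : (range (p ^ e)).Nonempty := nonempty_range_iff.mpr (by omega)
  choose U hU hmin using fun β : KP p => exists_min_image (range (p ^ e)) (fun u => ‖x u - β‖) hne
  have hlow : ∀ u ∈ range (p ^ e), ∀ β, ρ * ‖(u : KP p) - U β‖ ≤ ‖x u - β‖ := by
    intro u hu β
    rw [← hx]
    have e1 : x u - x (U β) = (x u - β) + -(x (U β) - β) := by ring
    rw [e1]
    refine (IsUltrametricDist.norm_add_le_max _ _).trans (max_le le_rfl ?_)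
    rw [norm_neg]
    exact hmin β u hu
  let D : Multiset (KP p) := f.roots.filter fun β => ‖w y - β‖ ≤ ρ
  have hD : D.card = N := by
    rw [hN, nr]
  let G : Finset ℕ := range (p ^ e) \ D.toFinset.image U
  have hG : p ^ e ≤ G.card + N := by
    have a1 := le_card_sdiff (D.toFinset.image U) (range (p ^ e))
    have a2 : (D.toFinset.image U).card ≤ N :=
      card_image_le.trans (hD ▸ Multiset.toFinset_card_le D)
    rw [card_range] at a1
    simp only [G]
    omega
  let T : ℕ → ℝ := fun u =>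
    (f.roots.map fun β => if ‖w y - β‖ ≤ ρ then vt p e ((u : KP p) - U β) else 0).sum
  have hT0 : ∀ u, 0 ≤ T u := by
    intro u
    refine Multiset.sum_nonneg fun a ha => ?_
    obtain ⟨β, -, rfl⟩ := Multiset.mem_map.mp ha
    split_ifs
    · exact hrootd_vt_nonneg _ _ _
    · exact le_rfl
  have hT : ∑ u ∈ range (p ^ e), T u ≤ N * (p : ℝ) ^ e := by
    simp only [T]
    rw [hrootd_swap, ← hD, ← hrootd_ite]
    refine Multiset.sum_map_le_sum_map _ _ fun β _ => ?_
    split_ifs
    · refine (sum_vt_le p e (U β)).trans (div_le_self (by positivity) (by linarith))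
    · simp
  have hGne : G.Nonempty := card_pos.mp (by omega)
  obtain ⟨u, hu, hTu⟩ := exists_le_of_sum_le (f := T) (g := fun _ => 2 * (N : ℝ)) hGne (by
    refine (sum_le_sum_of_subset_of_nonneg sdiff_subset fun u _ _ => hT0 u).trans (hT.trans ?_)
    rw [sum_const, nsmul_eq_mul]
    have a1 : p ^ e ≤ 2 * G.card := by omega
    have a2 : (p : ℝ) ^ e ≤ 2 * G.card := by exact_mod_cast a1
    have a3 : (0 : ℝ) ≤ N := Nat.cast_nonneg N
    nlinarith)
  obtain ⟨hu1, hu2⟩ := mem_sdiff.mp hu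
  have hfar : ∀ β ∈ f.roots, ‖w y - β‖ ≤ ρ → (p : ℝ) ^ (-(e : ℝ)) < ‖(u : KP p) - U β‖ := by
    intro β hβ hd
    refine lt_norm_sub p (mem_range.mp hu1) (mem_range.mp (hU β)) fun h => hu2 ?_
    exact mem_image.mpr ⟨β, Multiset.mem_toFinset.mpr (Multiset.mem_filter.mpr ⟨hβ, hd⟩), h.symm⟩
  have hev : f.eval (x u) ≠ 0 := by
    intro h
    have a1 := hfar (x u) ((Polynomial.mem_roots hf).mpr h) (by rw [norm_sub_rev]; exact hx0 u)
    have a2 := hlow u hu1 (x u)
    rw [sub_self, norm_zero] at a2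
    have a3 := (Real.rpow_pos_of_pos h0 (-(e : ℝ))).trans a1
    exact absurd a2 (not_le.mpr (mul_pos hρ0 a3))
  refine ⟨y + p ^ m * u, ?_, hev, ?_⟩
  · exact Nat.add_mul_mod_self_left y (p ^ m) u
  · change -Real.logb p ‖f.eval (x u)‖ ≤ _
    rw [logb_eval hev, gv, add_assoc]
    refine add_le_add le_rfl (le_trans ?_ (add_le_add le_rfl hTu))
    simp only [T]
    rw [← Multiset.sum_map_add]
    refine Multiset.sum_map_le_sum_map _ _ fun β hβ => ?_
    split_ifs with hd
    · have a1 := hfar β hβ hd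
      have a3 := (Real.rpow_pos_of_pos h0 (-(e : ℝ))).trans a1
      rw [vt, vt, max_eq_left hd, max_eq_right a1.le, ← neg_add, neg_le_neg_iff,
        ← Real.logb_mul hρ0.ne' a3.ne']
      exact Real.logb_le_logb_of_le h1 (mul_pos hρ0 a3) (hlow u hu1 β)
    · push Not at hd
      have e1 : x u - β = (x u - w y) + (w y - β) := by ring
      rw [vt, max_eq_right hd.le, add_zero, e1,
        IsUltrametricDist.norm_add_eq_max_of_norm_ne_norm ((hx0 u).trans_lt hd).ne,
        max_eq_right ((hx0 u).trans hd.le)]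

end Pool.Agent.Lib.MP_88d29b_nt.G
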