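import Pool.Agent.Lib.MP_88d29b_nt.HRootC
import Pool.Agent.Lib.MP_88d29b_nt.HRootD

set_option autoImplicit false

noncomputable section

namespace Pool.Agent.Lib.MP_88d29b_nt.G

open Finset CongruenceSubgroup Matrix
open scoped MatrixGroups

variable {p : ℕ} [Fact p.Prime]

/-- `N y = nr f (w y) (b + m)`, `G y = gv f (w y) (b + m)`. `gv f 0 ρ ≤ S` (`gv_le_eval`), and for a
generic `ρ' < r < 2 ρ'` one has `- L ≤ gv f 0 r`; `add_le_gv` gives `nr f 0 ρ ≤ (S + L) / (ρ - 2 ρ')`.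
The last part is `exists_near` at level `m + r` with `gv_le_add` and `nr_anti`. -/
theorem root_count (f : Polynomial (KP p)) (w : ℕ → KP p) (b : ℕ) (hw0 : w 0 = 0)
    (hw : ∀ y y' : ℕ, ‖w y - w y'‖ = (p : ℝ) ^ (-(b : ℝ)) * ‖(y : KP p) - y'‖) {ρ ρ' S L : ℝ}
    (h0 : 0 < ρ') (h1 : 2 * ρ' < ρ) (hb : ρ ≤ b)
    (hhalo : ∀ x : KP p, ‖x‖ ≤ (p : ℝ) ^ (-ρ') → ‖f.eval x‖ ≤ (p : ℝ) ^ L)
    (htouch : ∃ x : KP p, ‖x‖ ≤ (p : ℝ) ^ (-ρ) ∧ (p : ℝ) ^ (-S) ≤ ‖f.eval x‖) (m : ℕ) :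
    ∃ (N : ℕ → ℕ) (G : ℕ → ℝ), ∑ y ∈ range (p ^ m), (N y : ℝ) ≤ (S + L) / (ρ - 2 * ρ') ∧
      ∑ y ∈ range (p ^ m), G y ≤
        (p : ℝ) ^ m * (S + (S + L) / (ρ - 2 * ρ') * ((b : ℝ) + 1 / ((p : ℝ) - 1) - ρ)) ∧
      ∀ y r : ℕ, ∃ y', y' ≡ y [MOD p ^ r] ∧
        (p : ℝ) ^ (-(G y + ((r : ℝ) + 2) * N y)) ≤ ‖f.eval (w y')‖ := by
  have hp1 : (1 : ℝ) < p := by exact_mod_cast (Fact.out : p.Prime).one_lt
  have hp0 : (0 : ℝ) < p := by linarith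
  obtain ⟨x0, hx0, hx1⟩ := htouch
  have hpos : 0 < ‖f.eval x0‖ := lt_of_lt_of_le (Real.rpow_pos_of_pos hp0 _) hx1
  have hne : f.eval x0 ≠ 0 := norm_pos_iff.1 hpos
  have hf : f ≠ 0 := fun h => hne (by rw [h, Polynomial.eval_zero])
  have hS : gv p f 0 ρ ≤ S := by
    have h2 := gv_le_eval (x0 := 0) (r := ρ) hne (by rwa [sub_zero])
    have h3 := (Real.le_logb_iff_rpow_le hp1 hpos).2 hx1
    linarith
  obtain ⟨r0, x, hr1, hr2, hx, hxne, hxe⟩ := exists_generic_pt f hf h0.le (by linarith : ρ' < 2 * ρ')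
  have hL : -L ≤ gv p f 0 r0 := by
    have h2 := hhalo x (by
      rw [hx]
      exact Real.rpow_le_rpow_of_exponent_le hp1.le (by linarith))
    have h3 := (Real.logb_le_iff_le_rpow hp1 (norm_pos_iff.2 hxne)).2 h2
    linarith
  have hN : (nr p f 0 ρ : ℝ) ≤ (S + L) / (ρ - 2 * ρ') := by
    have h2 := add_le_gv f 0 (by linarith : r0 ≤ ρ)
    have h3 : (ρ - 2 * ρ') * nr p f 0 ρ ≤ (ρ - r0) * nr p f 0 ρ :=
      mul_le_mul_of_nonneg_right (by linarith) (Nat.cast_nonneg _)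
    rw [le_div_iff₀ (by linarith)]
    linarith
  refine ⟨fun y => nr p f (w y) ((b : ℝ) + m), fun y => gv p f (w y) ((b : ℝ) + m), ?_, ?_, ?_⟩
  · refine le_trans ?_ hN
    exact_mod_cast sum_nr_le f w b hw0 hw hb m
  · refine (sum_gv_le f w b hw0 hw hb m).trans (mul_le_mul_of_nonneg_left ?_ (by positivity))
    have h2 : 0 ≤ 1 / ((p : ℝ) - 1) := div_nonneg zero_le_one (by linarith)
    exact add_le_add hS (mul_le_mul_of_nonneg_right hN (by linarith))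
  · intro y r
    obtain ⟨y', hy1, hy2, hy3⟩ := exists_near f hf w b hw y (m + r)
    refine ⟨y', hy1.of_dvd (pow_dvd_pow p (Nat.le_add_left r m)), ?_⟩
    rw [← Real.le_logb_iff_rpow_le hp1 (norm_pos_iff.2 hy2)]
    have hle : (b : ℝ) + m ≤ (b : ℝ) + (m + r : ℕ) := by
      push_cast
      linarith [(Nat.cast_nonneg r : (0 : ℝ) ≤ r)]
    have h2 := gv_le_add f (w y) hle
    have h3 : (nr p f (w y) ((b : ℝ) + (m + r : ℕ)) : ℝ) ≤ nr p f (w y) ((b : ℝ) + m) := by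
      exact_mod_cast nr_anti f (w y) hle
    have h4 : (b : ℝ) + (m + r : ℕ) - (b + m) = r := by
      push_cast
      ring
    rw [h4] at h2
    linarith

end Pool.Agent.Lib.MP_88d29b_nt.G
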