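import Pool.Agent.Lib.MP_88d29b_nt.HDefs

set_option autoImplicit false

noncomputable section

namespace Pool.Agent.Lib.MP_88d29b_nt.G

open Finset CongruenceSubgroup Matrix
open scoped MatrixGroups

variable (p : ℕ) [Fact p.Prime]

/-- The truncated valuation `min r (v z)`. -/
def vt (r : ℝ) (z : KP p) : ℝ := -Real.logb p (max ((p : ℝ) ^ (-r)) ‖z‖)

/-- The valuation of `f` at the generic point of the disc of centre `x` and radius `p ^ (-r)`. -/
def gv (f : Polynomial (KP p)) (x : KP p) (r : ℝ) : ℝ :=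
  -Real.logb p ‖f.leadingCoeff‖ + (f.roots.map fun β => vt p r (x - β)).sum

open Classical in
/-- The number of roots of `f` in the closed disc of centre `x` and radius `p ^ (-r)`. -/
def nr (f : Polynomial (KP p)) (x : KP p) (r : ℝ) : ℕ :=
  (f.roots.filter fun β => ‖x - β‖ ≤ (p : ℝ) ^ (-r)).card

lemma hroota_rpow (r : ℕ) : (p : ℝ) ^ (-(r : ℝ)) = (p : ℝ) ^ (-(r : ℤ)) := by
  rw [← Real.rpow_intCast]
  push_cast
  rfl

lemma hroota_dvd (z : ℤ) (r : ℕ) : ‖(z : KP p)‖ ≤ (p : ℝ) ^ (-(r : ℝ)) ↔ (p : ℤ) ^ r ∣ z := by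
  rw [norm_int_eq, hroota_rpow, Padic.norm_int_le_pow_iff_dvd]

lemma hroota_ge {z : ℤ} {r : ℕ} (h : ¬ (p : ℤ) ^ (r + 1) ∣ z) :
    (p : ℝ) ^ (-(r : ℝ)) ≤ ‖(z : KP p)‖ := by
  rw [← hroota_dvd, norm_int_eq, hroota_rpow, Padic.norm_le_pow_iff_norm_lt_pow_add_one] at h
  rw [norm_int_eq, hroota_rpow]
  have e : -((r + 1 : ℕ) : ℤ) + 1 = -(r : ℤ) := by
    push_cast
    ring
  rw [e] at h
  exact not_lt.mp h

lemma hroota_vt (m : ℕ) (z : ℤ) :
    vt p m (z : KP p) ≤ ((range m).filter fun j => (p : ℤ) ^ (j + 1) ∣ z).card := by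
  obtain ⟨c, hc⟩ : ∃ c, c = ((range m).filter fun j => (p : ℤ) ^ (j + 1) ∣ z).card := ⟨_, rfl⟩
  have hcm : c ≤ m := by
    rw [hc]
    exact (card_filter_le _ _).trans (card_range m).le
  have h1 : (p : ℝ) ^ (-(c : ℝ)) ≤ max ((p : ℝ) ^ (-(m : ℝ))) ‖(z : KP p)‖ := by
    rcases hcm.eq_or_lt with h | h
    · rw [h]
      exact le_max_left _ _
    · refine le_max_of_le_right (hroota_ge p fun hd => ?_)
      have h2 : range (c + 1) ⊆ (range m).filter fun j => (p : ℤ) ^ (j + 1) ∣ z := fun j hj => by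
        have := mem_range.mp hj
        exact mem_filter.mpr ⟨mem_range.mpr (by omega), (pow_dvd_pow _ (by omega)).trans hd⟩
      have := card_le_card h2
      rw [card_range, ← hc] at this
      omega
  rw [← hc, vt, neg_le]
  exact (Real.le_logb_iff_rpow_le (one_lt_p p)
    ((Real.rpow_pos_of_pos (p_pos p) _).trans_le (le_max_left _ _))).mpr h1

lemma hroota_count {m j : ℕ} (hj : j < m) (u0 : ℕ) :
    ((range (p ^ m)).filter fun u : ℕ => (p : ℤ) ^ (j + 1) ∣ (u : ℤ) - u0).card ≤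
      p ^ (m - (j + 1)) := by
  have hp : 0 < p ^ (j + 1) := pow_pos (Fact.out : p.Prime).pos _
  rw [← card_range (p ^ (m - (j + 1)))]
  refine card_le_card_of_injOn (fun u => u / p ^ (j + 1)) (fun u hu => ?_) fun u hu u' hu' h => ?_
  · have h1 := mem_range.mp (mem_filter.mp (mem_coe.mp hu)).1
    refine mem_coe.mpr (mem_range.mpr ?_)
    rw [Nat.div_lt_iff_lt_mul hp, ← pow_add, Nat.sub_add_cancel hj]
    exact h1
  · have h1 := (mem_filter.mp (mem_coe.mp hu)).2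
    have h2 := (mem_filter.mp (mem_coe.mp hu')).2
    have h3 : ((p ^ (j + 1) : ℕ) : ℤ) ∣ (u' : ℤ) - u := by
      have := dvd_sub h2 h1
      push_cast
      rwa [sub_sub_sub_cancel_right] at this
    have h4 : u % p ^ (j + 1) = u' % p ^ (j + 1) := Nat.modEq_iff_dvd.mpr h3
    simp only at h
    rw [← Nat.mod_add_div u (p ^ (j + 1)), ← Nat.mod_add_div u' (p ^ (j + 1)), h, h4]

/-- `min m (v (u - u0))` is the number of `1 ≤ j ≤ m` with `p ^ j ∣ u - u0`, and for each `j` there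
are `p ^ (m - j)` such `u < p ^ m`. -/
theorem sum_vt_le (m u0 : ℕ) :
    ∑ u ∈ range (p ^ m), vt p m ((u : KP p) - u0) ≤ (p : ℝ) ^ m / ((p : ℝ) - 1) := by
  have hp := one_lt_p p
  have h1 : ∀ u ∈ range (p ^ m), vt p m ((u : KP p) - u0) ≤
      ∑ j ∈ range m, if (p : ℤ) ^ (j + 1) ∣ (u : ℤ) - u0 then (1 : ℝ) else 0 := fun u _ => by
    have := hroota_vt p m ((u : ℤ) - u0)
    push_cast at this
    rwa [sum_boole]
  refine (sum_le_sum h1).trans ?_
  rw [sum_comm]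
  have h2 : ∀ j ∈ range m, (∑ u ∈ range (p ^ m),
      if (p : ℤ) ^ (j + 1) ∣ (u : ℤ) - u0 then (1 : ℝ) else 0) ≤ (p : ℝ) ^ (m - 1 - j) :=
    fun j hj => by
      rw [sum_boole, show m - 1 - j = m - (j + 1) by omega]
      exact_mod_cast hroota_count p (mem_range.mp hj) u0
  refine (sum_le_sum h2).trans ?_
  rw [sum_range_reflect (fun j => (p : ℝ) ^ j) m, geom_sum_eq hp.ne']
  exact div_le_div_of_nonneg_right (by linarith) (by linarith)

/-- Two distinct natural numbers below `p ^ m` are not congruent modulo `p ^ m`. -/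
theorem lt_norm_sub {m u u' : ℕ} (hu : u < p ^ m) (hu' : u' < p ^ m) (h : u ≠ u') :
    (p : ℝ) ^ (-(m : ℝ)) < ‖(u : KP p) - u'‖ := by
  by_contra h1
  have h2 : ‖(((u : ℤ) - u' : ℤ) : KP p)‖ ≤ (p : ℝ) ^ (-(m : ℝ)) := by
    push_cast
    exact not_lt.mp h1
  have h3 : ((p ^ m : ℕ) : ℤ) ∣ (u : ℤ) - u' := by
    push_cast
    exact (hroota_dvd p _ m).mp h2
  exact h ((Nat.modEq_iff_dvd.mpr h3).eq_of_lt_of_lt hu' hu).symm

theorem norm_sub_le_of_modEq {r u u' : ℕ} (h : u ≡ u' [MOD p ^ r]) :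
    ‖(u : KP p) - u'‖ ≤ (p : ℝ) ^ (-(r : ℝ)) := by
  have h3 : ((p ^ r : ℕ) : ℤ) ∣ (u : ℤ) - u' := Nat.modEq_iff_dvd.mp h.symm
  push_cast at h3
  have := (hroota_dvd p _ r).mpr h3
  push_cast at this
  exact this

end Pool.Agent.Lib.MP_88d29b_nt.G
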