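import Pool.Agent.Lib.MP_88d29b_nt.HRootA

set_option autoImplicit false

noncomputable section

namespace Pool.Agent.Lib.MP_88d29b_nt.G

open Finset CongruenceSubgroup Matrix
open scoped MatrixGroups

variable {p : ℕ} [Fact p.Prime]

theorem hrootb_one_lt : (1 : ℝ) < p := by exact_mod_cast (Fact.out : p.Prime).one_lt

theorem hrootb_pos (r : ℝ) : 0 < (p : ℝ) ^ r :=
  Real.rpow_pos_of_pos (zero_lt_one.trans hrootb_one_lt) r

theorem hrootb_anti {r r' : ℝ} (h : r ≤ r') : (p : ℝ) ^ (-r') ≤ (p : ℝ) ^ (-r) :=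
  Real.rpow_le_rpow_of_exponent_le hrootb_one_lt.le (neg_le_neg h)

theorem hrootb_vt_of_le {r : ℝ} {z : KP p} (h : ‖z‖ ≤ (p : ℝ) ^ (-r)) : vt p r z = r := by
  rw [vt, max_eq_left h, Real.logb_rpow (zero_lt_one.trans hrootb_one_lt) hrootb_one_lt.ne',
    neg_neg]

theorem hrootb_vt_le (r : ℝ) (z : KP p) : vt p r z ≤ r := by
  have h := Real.logb_le_logb_of_le (hrootb_one_lt (p := p)) (hrootb_pos (p := p) (-r))
    (le_max_left _ ‖z‖)
  rw [Real.logb_rpow (zero_lt_one.trans hrootb_one_lt) hrootb_one_lt.ne'] at h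
  rw [vt]
  linarith

theorem hrootb_card {α : Type} (s : Multiset α) (P : α → Prop) [DecidablePred P] (c : ℝ) :
    c * ((s.filter P).card : ℝ) = (s.map fun a => if P a then c else 0).sum := by
  induction s using Multiset.induction_on with
  | empty => simp
  | cons a s ih =>
    rw [Multiset.map_cons, Multiset.sum_cons, ← ih]
    by_cases h : P a
    · rw [Multiset.filter_cons_of_pos _ h, Multiset.card_cons, if_pos h]
      push_cast
      ring
    · rw [Multiset.filter_cons_of_neg _ h, if_neg h, zero_add]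

theorem hrootb_prod (s : Multiset (KP p)) (g : KP p → KP p) (h : (s.map g).prod ≠ 0) :
    -Real.logb p ‖(s.map g).prod‖ = (s.map fun β => -Real.logb p ‖g β‖).sum := by
  induction s using Multiset.induction_on with
  | empty => simp
  | cons a s ih =>
    rw [Multiset.map_cons, Multiset.prod_cons] at h
    have h1 := left_ne_zero_of_mul h
    have h2 := right_ne_zero_of_mul h
    rw [Multiset.map_cons, Multiset.prod_cons, Multiset.map_cons, Multiset.sum_cons, norm_mul,
      Real.logb_mul (norm_ne_zero_iff.2 h1) (norm_ne_zero_iff.2 h2), neg_add, ih h2]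

/-- `f = lead ∏ (X - β)` over the algebraically closed field. -/
theorem logb_eval {f : Polynomial (KP p)} {x : KP p} (h : f.eval x ≠ 0) :
    -Real.logb p ‖f.eval x‖ =
      -Real.logb p ‖f.leadingCoeff‖ + (f.roots.map fun β => -Real.logb p ‖x - β‖).sum := by
  have e := (IsAlgClosed.splits f).eval_eq_prod_roots x
  rw [e] at h ⊢
  have h1 := left_ne_zero_of_mul h
  have h2 := right_ne_zero_of_mul h
  rw [norm_mul, Real.logb_mul (norm_ne_zero_iff.2 h1) (norm_ne_zero_iff.2 h2), neg_add,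
    hrootb_prod _ _ h2]

/-- `‖x - β‖ ≤ max (p ^ (-r)) ‖x0 - β‖`. -/
theorem gv_le_eval {f : Polynomial (KP p)} {x x0 : KP p} {r : ℝ} (h : f.eval x ≠ 0)
    (hx : ‖x - x0‖ ≤ (p : ℝ) ^ (-r)) : gv p f x0 r ≤ -Real.logb p ‖f.eval x‖ := by
  rw [logb_eval h, gv]
  refine add_le_add le_rfl (Multiset.sum_map_le_sum_map _ _ fun β hβ => ?_)
  have h1 : x - β ≠ 0 := by
    intro h0
    rw [sub_eq_zero.1 h0] at h
    exact h (Polynomial.isRoot_of_mem_roots hβ)
  rw [vt]
  refine neg_le_neg (Real.logb_le_logb_of_le hrootb_one_lt (norm_pos_iff.2 h1) ?_)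
  have h2 := IsUltrametricDist.norm_add_le_max (x - x0) (x0 - β)
  rw [sub_add_sub_cancel] at h2
  exact h2.trans (max_le_max hx le_rfl)

theorem gv_le_add (f : Polynomial (KP p)) (x : KP p) {r r' : ℝ} (h : r ≤ r') :
    gv p f x r' ≤ gv p f x r + (r' - r) * nr p f x r := by
  classical
  rw [gv, gv, nr, add_assoc, hrootb_card, ← Multiset.sum_map_add]
  refine add_le_add le_rfl (Multiset.sum_map_le_sum_map _ _ fun β _ => ?_)
  split_ifs with hβ
  · have := hrootb_vt_le r' (x - β)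
    rw [hrootb_vt_of_le hβ]
    linarith
  · have h1 := (not_le.1 hβ).le
    rw [vt, vt, max_eq_right h1, max_eq_right ((hrootb_anti h).trans h1), add_zero]

theorem add_le_gv (f : Polynomial (KP p)) (x : KP p) {r r' : ℝ} (h : r ≤ r') :
    gv p f x r + (r' - r) * nr p f x r' ≤ gv p f x r' := by
  classical
  rw [gv, gv, nr, add_assoc, hrootb_card, ← Multiset.sum_map_add]
  refine add_le_add le_rfl (Multiset.sum_map_le_sum_map _ _ fun β _ => ?_)
  split_ifs with hβ
  · have := hrootb_vt_le r (x - β)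
    rw [hrootb_vt_of_le hβ]
    linarith
  · rw [add_zero, vt, vt]
    refine neg_le_neg (Real.logb_le_logb_of_le hrootb_one_lt
      (lt_max_of_lt_left (hrootb_pos _)) (max_le_max (hrootb_anti h) le_rfl))

theorem nr_anti (f : Polynomial (KP p)) (x : KP p) {r r' : ℝ} (h : r ≤ r') :
    nr p f x r' ≤ nr p f x r := by
  classical
  rw [nr, nr]
  exact Multiset.card_le_card
    (Multiset.monotone_filter_right _ fun β hβ => le_trans hβ (hrootb_anti h))

/-- Choose a rational `r = i / j` in `(a, b)` with `p ^ (-r)` different from the norms of the roots,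
and `x` with `x ^ j = p ^ i`. -/
theorem exists_generic_pt (f : Polynomial (KP p)) (hf : f ≠ 0) {a b : ℝ} (ha : 0 ≤ a) (hab : a < b) :
    ∃ (r : ℝ) (x : KP p), a < r ∧ r < b ∧ ‖x‖ = (p : ℝ) ^ (-r) ∧ f.eval x ≠ 0 ∧
      -Real.logb p ‖f.eval x‖ = gv p f 0 r := by
  classical
  obtain ⟨q1, h1, h2⟩ := exists_rat_btwn hab
  obtain ⟨q2, h3, h4⟩ := exists_rat_btwn h2
  have hfin : ((fun q : ℚ => (q : ℝ)) ⁻¹'
      ((f.roots.toFinset.image fun β => -Real.logb p ‖β‖ : Finset ℝ) : Set ℝ)).Finite :=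
    (Finset.finite_toSet _).preimage Rat.cast_injective.injOn
  obtain ⟨q, ⟨h5, h6⟩, hq⟩ :=
    (Set.Ioo_infinite (show q1 < q2 by exact_mod_cast h3)).exists_notMem_finite hfin
  have h7 : a < q := h1.trans (by exact_mod_cast h5)
  have h8 : (q : ℝ) < b := lt_trans (by exact_mod_cast h6) h4
  have hq0 : 0 ≤ q := by exact_mod_cast ha.trans h7.le
  obtain ⟨x, hx⟩ := IsAlgClosed.exists_pow_nat_eq ((p : KP p) ^ q.num.toNat) q.den_pos
  have hn : ‖x‖ = (p : ℝ) ^ (-(q : ℝ)) := by
    refine (pow_left_inj₀ (norm_nonneg _) (hrootb_pos _).le q.den_nz).1 ?_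
    rw [← norm_pow, hx, norm_p_pow, ← Real.rpow_natCast,
      ← Real.rpow_mul (zero_lt_one.trans hrootb_one_lt).le]
    congr 1
    have e1 : ((q.num.toNat : ℕ) : ℝ) = (q.num : ℝ) := by
      exact_mod_cast Int.toNat_of_nonneg (Rat.num_nonneg.2 hq0)
    have e2 : (q : ℝ) * q.den = q.num := by exact_mod_cast Rat.mul_den_eq_num q
    rw [e1, neg_mul, e2]
  have hne : ∀ β ∈ f.roots, ‖x‖ ≠ ‖β‖ := by
    intro β hβ he
    refine hq (Finset.mem_coe.2 (Finset.mem_image.2 ⟨β, Multiset.mem_toFinset.2 hβ, ?_⟩))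
    rw [← he, hn, Real.logb_rpow (zero_lt_one.trans hrootb_one_lt) hrootb_one_lt.ne', neg_neg]
  have hev : f.eval x ≠ 0 := fun h0 => hne x ((Polynomial.mem_roots hf).2 h0) rfl
  refine ⟨q, x, h7, h8, hn, hev, ?_⟩
  rw [logb_eval hev, gv]
  congr 2
  refine Multiset.map_congr rfl fun β hβ => ?_
  rw [vt, zero_sub, norm_neg, ← hn, sub_eq_add_neg,
    IsUltrametricDist.norm_add_eq_max_of_norm_ne_norm (by rw [norm_neg]; exact hne β hβ), norm_neg]

end Pool.Agent.Lib.MP_88d29b_nt.G
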