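import Pool.Agent.Lib.MP_88d29b_nt.HRootB

set_option autoImplicit false

noncomputable section

namespace Pool.Agent.Lib.MP_88d29b_nt.G

open Finset CongruenceSubgroup Matrix
open scoped MatrixGroups

variable {p : ℕ} [Fact p.Prime]

theorem hrootc_one_lt : (1 : ℝ) < p := by exact_mod_cast (Fact.out : p.Prime).one_lt

theorem hrootc_anti {r r' : ℝ} (h : r ≤ r') : (p : ℝ) ^ (-r') ≤ (p : ℝ) ^ (-r) :=
  Real.rpow_le_rpow_of_exponent_le hrootc_one_lt.le (by linarith)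

theorem hrootc_pos (r : ℝ) : 0 < (p : ℝ) ^ r :=
  Real.rpow_pos_of_pos (by linarith [hrootc_one_lt (p := p)]) r

theorem hrootc_split (b m : ℝ) : (p : ℝ) ^ (-(b + m)) = (p : ℝ) ^ (-b) * (p : ℝ) ^ (-m) := by
  rw [neg_add, Real.rpow_add (by linarith [hrootc_one_lt (p := p)])]

theorem hrootc_tri (x y z : KP p) : ‖x - z‖ ≤ max ‖x - y‖ ‖z - y‖ := by
  have := IsUltrametricDist.norm_add_le_max (x - y) (y - z)
  rwa [sub_add_sub_cancel, norm_sub_rev y z] at this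

theorem hrootc_w {w : ℕ → KP p} {b : ℕ} (hw0 : w 0 = 0)
    (hw : ∀ y y' : ℕ, ‖w y - w y'‖ = (p : ℝ) ^ (-(b : ℝ)) * ‖(y : KP p) - y'‖) {ρ : ℝ} (hb : ρ ≤ b)
    (y : ℕ) : ‖w y‖ ≤ (p : ℝ) ^ (-ρ) := by
  have h := hw y 0
  rw [hw0, sub_zero, Nat.cast_zero, sub_zero] at h
  rw [h]
  exact (mul_le_of_le_one_right (hrootc_pos _).le
    (IsUltrametricDist.norm_natCast_le_one _ y)).trans (hrootc_anti hb)

open Classical in
theorem hrootc_gv (w : ℕ → KP p) (b : ℕ) (hw0 : w 0 = 0)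
    (hw : ∀ y y' : ℕ, ‖w y - w y'‖ = (p : ℝ) ^ (-(b : ℝ)) * ‖(y : KP p) - y'‖) {ρ : ℝ} (hb : ρ ≤ b)
    (m : ℕ) (β : KP p) : ∑ y ∈ range (p ^ m), vt p ((b : ℝ) + m) (w y - β) ≤
      (p : ℝ) ^ m * (vt p ρ (0 - β) + (if ‖0 - β‖ ≤ (p : ℝ) ^ (-ρ) then 1 else 0) *
        ((b : ℝ) + 1 / ((p : ℝ) - 1) - ρ)) := by
  have h1 := hrootc_one_lt (p := p)
  have hm : (0 : ℝ) ≤ m := Nat.cast_nonneg m
  split_ifs with hβ
  · have e : vt p ρ (0 - β) = ρ := by
      rw [vt, max_eq_left hβ, Real.logb_rpow (by linarith) h1.ne', neg_neg]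
    obtain ⟨y0, -, h0⟩ := exists_min_image (range (p ^ m)) (fun y => ‖w y - β‖)
      ⟨0, mem_range.2 (pow_pos (Fact.out : p.Prime).pos m)⟩
    have key : ∀ y ∈ range (p ^ m),
        vt p ((b : ℝ) + m) (w y - β) ≤ b + vt p m ((y : KP p) - y0) := by
      intro y hy
      have a1 : ‖w y - w y0‖ ≤ ‖w y - β‖ :=
        (hrootc_tri _ β _).trans (max_le le_rfl (h0 y hy))
      have a2 : (p : ℝ) ^ (-(b : ℝ)) * max ((p : ℝ) ^ (-(m : ℝ))) ‖(y : KP p) - y0‖ ≤
          max ((p : ℝ) ^ (-((b : ℝ) + m))) ‖w y - β‖ := by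
        rw [mul_max_of_nonneg _ _ (hrootc_pos _).le, ← hrootc_split, ← hw]
        exact max_le_max le_rfl a1
      have a3 : 0 < max ((p : ℝ) ^ (-(m : ℝ))) ‖(y : KP p) - y0‖ :=
        lt_max_of_lt_left (hrootc_pos _)
      have a4 := Real.logb_le_logb_of_le h1 (mul_pos (hrootc_pos _) a3) a2
      rw [Real.logb_mul (hrootc_pos _).ne' a3.ne', Real.logb_rpow (by linarith) h1.ne'] at a4
      unfold vt
      linarith
    refine (sum_le_sum key).trans ?_
    rw [sum_add_distrib, sum_const, card_range, nsmul_eq_mul, e]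
    have := sum_vt_le p m y0
    push_cast
    rw [div_eq_mul_one_div] at this
    linarith
  · push Not at hβ
    rw [zero_sub, norm_neg] at hβ
    have e : ∀ y ∈ range (p ^ m), vt p ((b : ℝ) + m) (w y - β) = vt p ρ (0 - β) := by
      intro y _
      have a1 : ‖w y - β‖ = ‖β‖ := by
        rw [sub_eq_add_neg, IsUltrametricDist.norm_add_eq_max_of_norm_ne_norm, norm_neg,
          max_eq_right ((hrootc_w hw0 hw hb y).trans hβ.le)]
        rw [norm_neg]
        exact ((hrootc_w hw0 hw hb y).trans_lt hβ).ne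
      rw [vt, vt, a1, zero_sub, norm_neg, max_eq_right hβ.le,
        max_eq_right ((hrootc_anti (by linarith)).trans hβ.le)]
    rw [sum_congr rfl e, sum_const, card_range, nsmul_eq_mul]
    push_cast
    linarith

open Classical in
theorem hrootc_nr (w : ℕ → KP p) (b : ℕ) (hw0 : w 0 = 0)
    (hw : ∀ y y' : ℕ, ‖w y - w y'‖ = (p : ℝ) ^ (-(b : ℝ)) * ‖(y : KP p) - y'‖) {ρ : ℝ} (hb : ρ ≤ b)
    (m : ℕ) (β : KP p) :
    ∑ y ∈ range (p ^ m), (if ‖w y - β‖ ≤ (p : ℝ) ^ (-((b : ℝ) + m)) then 1 else 0) ≤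
      (if ‖0 - β‖ ≤ (p : ℝ) ^ (-ρ) then 1 else 0 : ℕ) := by
  have hm : (0 : ℝ) ≤ m := Nat.cast_nonneg m
  rw [← card_filter]
  split_ifs with hβ
  · refine card_le_one.2 fun y hy y' hy' => ?_
    rw [mem_filter, mem_range] at hy hy'
    by_contra hne
    have a1 := (hrootc_tri (w y) β (w y')).trans (max_le hy.2 hy'.2)
    rw [hw, hrootc_split] at a1
    exact absurd (lt_norm_sub p hy.1 hy'.1 hne)
      (not_lt.2 (le_of_mul_le_mul_left a1 (hrootc_pos _)))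
  · refine le_of_eq (card_eq_zero.2 (filter_eq_empty_iff.2 fun y _ hy => hβ ?_))
    refine (hrootc_tri 0 (w y) β).trans (max_le ?_ ?_)
    · rw [zero_sub, norm_neg]
      exact hrootc_w hw0 hw hb y
    · rw [norm_sub_rev]
      exact hy.trans (hrootc_anti (by linarith))

theorem hrootc_card {α : Type} (q : α → Prop) [DecidablePred q] (a : α) (s : Multiset α) :
    (Multiset.filter q (a ::ₘ s)).card = (if q a then 1 else 0) + (Multiset.filter q s).card := by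
  rw [Multiset.filter_cons, Multiset.card_add]
  split_ifs <;> simp

/-- Root by root. If `‖β‖ > p ^ (-ρ)` then `‖w y - β‖ = ‖β‖` and both truncated valuations equal
`v β`. Otherwise let `y0 < p ^ m` minimise `‖w y - β‖`; then `‖w y - w y0‖ ≤ ‖w y - β‖`, so
`vt (b + m) (w y - β) ≤ b + vt m (y - y0)`, and `sum_vt_le` applies, while `vt ρ (0 - β) = ρ`. -/
theorem sum_gv_le (f : Polynomial (KP p)) (w : ℕ → KP p) (b : ℕ) (hw0 : w 0 = 0)
    (hw : ∀ y y' : ℕ, ‖w y - w y'‖ = (p : ℝ) ^ (-(b : ℝ)) * ‖(y : KP p) - y'‖) {ρ : ℝ} (hb : ρ ≤ b)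
    (m : ℕ) : ∑ y ∈ range (p ^ m), gv p f (w y) ((b : ℝ) + m) ≤
      (p : ℝ) ^ m * (gv p f 0 ρ + nr p f 0 ρ * ((b : ℝ) + 1 / ((p : ℝ) - 1) - ρ)) := by
  unfold gv nr
  rw [sum_add_distrib, sum_const, card_range, nsmul_eq_mul, add_assoc, mul_add, Nat.cast_pow]
  refine add_le_add le_rfl ?_
  induction f.roots using Multiset.induction_on with
  | empty => simp
  | cons β s ih =>
    have := hrootc_gv w b hw0 hw hb m β
    simp only [Multiset.map_cons, Multiset.sum_cons, sum_add_distrib, hrootc_card]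
    push_cast
    linarith

/-- The discs are disjoint (`lt_norm_sub`) and lie in the disc of radius `p ^ (-ρ)`. -/
theorem sum_nr_le (f : Polynomial (KP p)) (w : ℕ → KP p) (b : ℕ) (hw0 : w 0 = 0)
    (hw : ∀ y y' : ℕ, ‖w y - w y'‖ = (p : ℝ) ^ (-(b : ℝ)) * ‖(y : KP p) - y'‖) {ρ : ℝ} (hb : ρ ≤ b)
    (m : ℕ) : ∑ y ∈ range (p ^ m), nr p f (w y) ((b : ℝ) + m) ≤ nr p f 0 ρ := by
  unfold nr
  induction f.roots using Multiset.induction_on with
  | empty => simp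
  | cons β s ih =>
    simp only [sum_add_distrib, hrootc_card]
    exact add_le_add (hrootc_nr w b hw0 hw hb m β) ih

end Pool.Agent.Lib.MP_88d29b_nt.G
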