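import Pool.Agent.Lib.MP_88d29b_nt.HVol

set_option autoImplicit false

noncomputable section

namespace Pool.Agent.Lib.MP_88d29b_nt.G

open Finset CongruenceSubgroup Matrix
open scoped MatrixGroups

variable {p : ℕ} [Fact p.Prime] {M κ : ℕ} [NeZero M] {α : Type} [Fintype α] [DecidableEq α]

section Aux

variable {K U V W : Type} [Field K] [AddCommGroup U] [Module K U] [Module.Finite K U]
  [AddCommGroup V] [Module K V] [Module.Finite K V] [AddCommGroup W] [Module K W]
  [Module.Finite K W]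

/-- Block form of an endomorphism of the middle term of a short exact sequence. -/
theorem htrace_block (i : U →ₗ[K] V) (π : V →ₗ[K] W) (hi : Function.Injective i)
    (hπ : Function.Surjective π) (hk : LinearMap.ker π = LinearMap.range i) (f : V →ₗ[K] V)
    (f0 : U →ₗ[K] U) (T : W →ₗ[K] W) (h0 : f ∘ₗ i = i ∘ₗ f0) (h : π ∘ₗ f = T ∘ₗ π) :
    ∃ (b : Module.Basis (Module.Free.ChooseBasisIndex K U ⊕ Module.Free.ChooseBasisIndex K W) K V)
      (B : Matrix (Module.Free.ChooseBasisIndex K U) (Module.Free.ChooseBasisIndex K W) K),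
      LinearMap.toMatrix b b f = Matrix.fromBlocks
        (LinearMap.toMatrix (Module.Free.chooseBasis K U) (Module.Free.chooseBasis K U) f0) B 0
        (LinearMap.toMatrix (Module.Free.chooseBasis K W) (Module.Free.chooseBasis K W) T) := by
  obtain ⟨s, hs⟩ := π.exists_rightInverse_of_surjective (LinearMap.range_eq_top.2 hπ)
  have hs' : ∀ w, π (s w) = w := fun w => LinearMap.congr_fun hs w
  have hπi : ∀ u, π (i u) = 0 := fun u => by
    rw [← LinearMap.mem_ker, hk]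
    exact LinearMap.mem_range_self _ _
  have hbij : Function.Bijective (i.coprod s) := by
    constructor
    · rw [injective_iff_map_eq_zero]
      rintro ⟨u, w⟩ hw
      simp only [LinearMap.coprod_apply] at hw
      have k1 := congrArg π hw
      rw [map_add, hπi, hs', zero_add, map_zero] at k1
      rw [k1, map_zero, add_zero] at hw
      have k2 : u = 0 := hi (by rw [hw, map_zero])
      rw [k1, k2]
      rfl
    · intro v
      have k1 : v - s (π v) ∈ LinearMap.range i := by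
        rw [← hk, LinearMap.mem_ker, map_sub, hs', sub_self]
      obtain ⟨u, hu⟩ := k1
      exact ⟨(u, π v), by simp [hu]⟩
  let e : (U × W) ≃ₗ[K] V := LinearEquiv.ofBijective _ hbij
  have he : ∀ u w, e (u, w) = i u + s w := fun _ _ => rfl
  have he1 : ∀ u, e.symm (i u) = (u, 0) := fun u => by
    rw [LinearEquiv.symm_apply_eq, he, map_zero, add_zero]
  have he2 : ∀ v, (e.symm v).2 = π v := fun v => by
    obtain ⟨⟨u, w⟩, rfl⟩ := e.surjective v
    rw [e.symm_apply_apply, he, map_add, hπi, hs', zero_add]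
  let b1 := Module.Free.chooseBasis K U
  let b2 := Module.Free.chooseBasis K W
  let b := (b1.prod b2).map e
  have hb1 : ∀ j, b (Sum.inl j) = i (b1 j) := fun j => by
    simp only [b, Module.Basis.map_apply, Module.Basis.prod_apply, Sum.elim_inl,
      Function.comp_apply, LinearMap.coe_inl]
    rw [he, map_zero, add_zero]
  have hb2 : ∀ j, b (Sum.inr j) = s (b2 j) := fun j => by
    simp only [b, Module.Basis.map_apply, Module.Basis.prod_apply, Sum.elim_inr,
      Function.comp_apply, LinearMap.coe_inr]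
    rw [he, map_zero, zero_add]
  have hr1 : ∀ v j, b.repr v (Sum.inl j) = b1.repr (e.symm v).1 j := fun v j => by
    simp [b]
  have hr2 : ∀ v j, b.repr v (Sum.inr j) = b2.repr (e.symm v).2 j := fun v j => by
    simp [b]
  have h0' : ∀ u, f (i u) = i (f0 u) := fun u => LinearMap.congr_fun h0 u
  have h' : ∀ v, π (f v) = T (π v) := fun v => LinearMap.congr_fun h v
  refine ⟨b, (LinearMap.toMatrix b b f).toBlocks₁₂, ?_⟩
  ext (x | x) (y | y)
  · rw [Matrix.fromBlocks_apply₁₁, LinearMap.toMatrix_apply, LinearMap.toMatrix_apply, hr1, hb1,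
      h0', he1]
  · rfl
  · rw [Matrix.fromBlocks_apply₂₁, LinearMap.toMatrix_apply, hr2, hb1, h0', he1]
    simp
  · rw [Matrix.fromBlocks_apply₂₂, LinearMap.toMatrix_apply, LinearMap.toMatrix_apply, hr2, hb2,
      he2, h', hs']

theorem htrace_exact (i : U →ₗ[K] V) (π : V →ₗ[K] W) (hi : Function.Injective i)
    (hπ : Function.Surjective π) (hk : LinearMap.ker π = LinearMap.range i) (f : V →ₗ[K] V)
    (f0 : U →ₗ[K] U) (T : W →ₗ[K] W) (h0 : f ∘ₗ i = i ∘ₗ f0) (h : π ∘ₗ f = T ∘ₗ π) :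
    f.charpoly = f0.charpoly * T.charpoly := by
  obtain ⟨b, B, hB⟩ := htrace_block i π hi hπ hk f f0 T h0 h
  rw [← LinearMap.charpoly_toMatrix f b, hB, Matrix.charpoly_fromBlocks_zero₂₁,
    LinearMap.charpoly_toMatrix, LinearMap.charpoly_toMatrix]

theorem htrace_exact_trace (i : U →ₗ[K] V) (π : V →ₗ[K] W) (hi : Function.Injective i)
    (hπ : Function.Surjective π) (hk : LinearMap.ker π = LinearMap.range i) (f : V →ₗ[K] V)
    (f0 : U →ₗ[K] U) (T : W →ₗ[K] W) (h0 : f ∘ₗ i = i ∘ₗ f0) (h : π ∘ₗ f = T ∘ₗ π) :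
    LinearMap.trace K V f = LinearMap.trace K U f0 + LinearMap.trace K W T := by
  obtain ⟨b, B, hB⟩ := htrace_block i π hi hπ hk f f0 T h0 h
  rw [LinearMap.trace_eq_matrix_trace K b, hB,
    LinearMap.trace_eq_matrix_trace K (Module.Free.chooseBasis K U),
    LinearMap.trace_eq_matrix_trace K (Module.Free.chooseBasis K W)]
  simp [Matrix.trace]

theorem htrace_zm_mul {a b c : Type} [Fintype b] (A : Matrix a b ℤ) (B : Matrix b c ℤ) :
    zm K (A * B) = zm K A * zm K B :=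
  Matrix.map_mul (f := Int.castRingHom K)

end Aux

omit [NeZero M] in
theorem ZModel.htrace_mul (Z : ZModel (KP p) M κ α) {A B : Matrix α α ℤ}
    {A0 B0 : Matrix (Fin (κ + 1)) (Fin (κ + 1)) ℤ} {S T : Module.End (KP p) (HH (KP p) M κ)}
    (h1 : Z.cl ∘ₗ Matrix.toLin' (zm (KP p) A) = S ∘ₗ Z.cl) (h2 : A * Z.d = Z.d * A0)
    (h3 : Z.cl ∘ₗ Matrix.toLin' (zm (KP p) B) = T ∘ₗ Z.cl) (h4 : B * Z.d = Z.d * B0) :
    Z.cl ∘ₗ Matrix.toLin' (zm (KP p) (A * B)) = (S * T) ∘ₗ Z.cl ∧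
      A * B * Z.d = Z.d * (A0 * B0) := by
  constructor
  · rw [htrace_zm_mul, Matrix.toLin'_mul, ← LinearMap.comp_assoc, h1, LinearMap.comp_assoc, h3,
      Module.End.mul_eq_comp, LinearMap.comp_assoc]
  · rw [Matrix.mul_assoc, h4, ← Matrix.mul_assoc, h2, Matrix.mul_assoc]

omit [NeZero M] in
theorem ZModel.htrace_list (Z : ZModel (KP p) M κ α) (L : List ℕ)
    (hL : ∀ l ∈ L, l.Prime ∧ Nat.Coprime l M) :
    ∃ (A : Matrix α α ℤ) (A0 : Matrix (Fin (κ + 1)) (Fin (κ + 1)) ℤ),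
      Z.cl ∘ₗ Matrix.toLin' (zm (KP p) A) = (L.map (Tl (KP p) M κ)).prod ∘ₗ Z.cl ∧
        A * Z.d = Z.d * A0 := by
  induction L with
  | nil =>
    refine ⟨1, 1, ?_, by simp⟩
    have : zm (KP p) (1 : Matrix α α ℤ) = 1 := Matrix.map_one _ (by simp) (by simp)
    rw [this, Matrix.toLin'_one, List.map_nil, List.prod_nil, Module.End.one_eq_id,
      LinearMap.comp_id, LinearMap.id_comp]
  | cons l L ih =>
    obtain ⟨B, B0, h3, h4⟩ := ih fun x hx => hL x (List.mem_cons_of_mem _ hx)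
    obtain ⟨k1, k2⟩ := hL l List.mem_cons_self
    obtain ⟨h5, h6⟩ := Z.htrace_mul (Z.comm l k1 k2) (Z.cob l k1 k2) h3 h4
    exact ⟨_, _, by rw [List.map_cons, List.prod_cons]; exact h5, h6⟩

theorem htrace_norm_le {x : KP p} (hx : IsIntegral ℤ x) : ‖x‖ ≤ 1 := by
  by_contra hn
  have h1 : 1 < ‖x‖ := not_le.1 hn
  obtain ⟨f, hf, h0⟩ := hx
  rw [Polynomial.eval₂_eq_sum_range, Finset.sum_range_succ, hf.coeff_natDegree, map_one,
    one_mul] at h0
  have h2 : x ^ f.natDegree = -∑ i ∈ Finset.range f.natDegree,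
      algebraMap ℤ (KP p) (f.coeff i) * x ^ i := by linear_combination h0
  rcases Nat.eq_zero_or_pos f.natDegree with h3 | h3
  · rw [h3] at h2
    simp at h2
  · have h4 : ‖∑ i ∈ Finset.range f.natDegree, algebraMap ℤ (KP p) (f.coeff i) * x ^ i‖ ≤
        ‖x‖ ^ (f.natDegree - 1) := by
      refine IsUltrametricDist.norm_sum_le_of_forall_le_of_nonneg (by positivity) fun i hi => ?_
      rw [norm_mul, norm_pow]
      have k1 : ‖algebraMap ℤ (KP p) (f.coeff i)‖ ≤ 1 := norm_int_le p _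
      have k2 : ‖x‖ ^ i ≤ ‖x‖ ^ (f.natDegree - 1) :=
        pow_le_pow_right₀ h1.le (by have := Finset.mem_range.1 hi; omega)
      exact (mul_le_of_le_one_left (by positivity) k1).trans k2
    rw [← norm_neg, ← h2, norm_pow] at h4
    exact absurd h4 (not_le.2 (pow_lt_pow_right₀ h1 (by omega)))

/-- Products of the matrices `tc l` and `t0 l` over the prime factors of `n`. -/
theorem ZModel.word (Z : ZModel (KP p) M κ α) {n : ℕ} (hn : Nat.Coprime n M) :
    ∃ (A : Matrix α α ℤ) (A0 : Matrix (Fin (κ + 1)) (Fin (κ + 1)) ℤ),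
      Z.cl ∘ₗ Matrix.toLin' (zm (KP p) A) = Tw (KP p) M κ n ∘ₗ Z.cl ∧ A * Z.d = Z.d * A0 := by
  refine Z.htrace_list n.primeFactorsList fun l hl => ⟨Nat.prime_of_mem_primeFactorsList hl, ?_⟩
  exact Nat.Coprime.coprime_dvd_left (Nat.dvd_of_mem_primeFactorsList hl) hn

/-- The sequence `0 → V → K ^ α → H → 0` is exact, so the characteristic polynomial of `A` is the
product of those of `A0` and `T` (choose a basis of `K ^ α` that extends the columns of `d`). -/
theorem ZModel.charpoly_eq (Z : ZModel (KP p) M κ α) (A : Matrix α α ℤ)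
    (A0 : Matrix (Fin (κ + 1)) (Fin (κ + 1)) ℤ) (T : Module.End (KP p) (HH (KP p) M κ))
    (h : Z.cl ∘ₗ Matrix.toLin' (zm (KP p) A) = T ∘ₗ Z.cl) (h0 : A * Z.d = Z.d * A0) :
    (zm (KP p) A).charpoly = (zm (KP p) A0).charpoly * T.charpoly := by
  rw [← Matrix.charpoly_toLin', ← Matrix.charpoly_toLin' (zm (KP p) A0)]
  refine htrace_exact (Matrix.toLin' (zm (KP p) Z.d)) Z.cl Z.inj Z.surj Z.ker _ _ _ ?_ h
  rw [← Matrix.toLin'_mul, ← Matrix.toLin'_mul, ← htrace_zm_mul, ← htrace_zm_mul, h0]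

/-- The trace is `tr A - tr A0`. -/
theorem ZModel.trace_int (Z : ZModel (KP p) M κ α) {n n' : ℕ} (hn : Nat.Coprime n M)
    (hn' : Nat.Coprime n' M) :
    ∃ z : ℤ, LinearMap.trace (KP p) _ (Tw (KP p) M κ n * Tw (KP p) M κ n') = z := by
  obtain ⟨A, A0, h1, h2⟩ := Z.word hn
  obtain ⟨B, B0, h3, h4⟩ := Z.word hn'
  obtain ⟨h5, h6⟩ := Z.htrace_mul h1 h2 h3 h4
  have h7 := htrace_exact_trace (Matrix.toLin' (zm (KP p) Z.d)) Z.cl Z.inj Z.surj Z.ker
    (Matrix.toLin' (zm (KP p) (A * B))) (Matrix.toLin' (zm (KP p) (A0 * B0))) _ (by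
      rw [← Matrix.toLin'_mul, ← Matrix.toLin'_mul, ← htrace_zm_mul, ← htrace_zm_mul, h6]) h5
  rw [Matrix.trace_toLin'_eq, Matrix.trace_toLin'_eq] at h7
  refine ⟨(A * B).trace - (A0 * B0).trace, ?_⟩
  have e1 : (zm (KP p) (A * B)).trace = (((A * B).trace : ℤ) : KP p) := by
    simp [Matrix.trace]
  have e2 : (zm (KP p) (A0 * B0)).trace = (((A0 * B0).trace : ℤ) : KP p) := by
    simp [Matrix.trace]
  rw [Int.cast_sub, ← e1, ← e2, h7, Module.End.mul_eq_comp]
  ring

/-- Eigenvalues are roots of a monic integer polynomial. -/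
theorem ZModel.slopes_int (Z : ZModel (KP p) M κ α) {l : ℕ} (hl : l.Prime) (hM : Nat.Coprime l M)
    {x : KP p} (hx : x ∈ slopes (KP p) M κ l) : IsIntegral ℤ x ∧ ‖x‖ ≤ 1 := by
  have h1 := Z.charpoly_eq _ _ _ (Z.comm l hl hM) (Z.cob l hl hM)
  have h2 : (Tl (KP p) M κ l).charpoly.IsRoot x := Polynomial.isRoot_of_mem_roots hx
  have h3 : (zm (KP p) (Z.tc l)).charpoly.eval x = 0 := by
    rw [h1, Polynomial.eval_mul, h2.eq_zero, mul_zero]
  have h4 : (zm (KP p) (Z.tc l)).charpoly = (Z.tc l).charpoly.map (algebraMap ℤ (KP p)) :=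
    Matrix.charpoly_map _ (algebraMap ℤ (KP p))
  have h5 : IsIntegral ℤ x := by
    refine ⟨(Z.tc l).charpoly, Matrix.charpoly_monic _, ?_⟩
    rw [Polynomial.eval₂_eq_eval_map, ← h4, h3]
  exact ⟨h5, htrace_norm_le h5⟩

theorem ZModel.eig_le (Z : ZModel (KP p) M κ α) {l : ℕ} (hl : l.Prime) (hM : Nat.Coprime l M)
    {v : HH (KP p) M κ} (hv : v ≠ 0) {μ : KP p} (h : Tl (KP p) M κ l v = μ • v) : ‖μ‖ ≤ 1 := by
  refine (Z.slopes_int hl hM ?_).2
  have h1 : Module.End.HasEigenvalue (Tl (KP p) M κ l) μ :=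
    Module.End.hasEigenvalue_of_hasEigenvector ⟨Module.End.mem_eigenspace_iff.2 h, hv⟩
  rw [slopes, Polynomial.mem_roots (LinearMap.charpoly_monic _).ne_zero]
  exact (Module.End.hasEigenvalue_iff_isRoot_charpoly _ _).1 h1

end Pool.Agent.Lib.MP_88d29b_nt.G
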