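import Pool.Agent.Lib.MP_88d29b_nt.HSixA
import Pool.Agent.Lib.MP_88d29b_nt.HGram
import Pool.Agent.Lib.MP_88d29b_nt.HEig
import Pool.Agent.Lib.MP_88d29b_nt.HTrace
import Pool.Agent.Lib.MP_88d29b_nt.HNp

set_option autoImplicit false

noncomputable section

namespace Pool.Agent.Lib.MP_88d29b_nt.G

open Finset CongruenceSubgroup Matrix
open scoped MatrixGroups

variable {p : ℕ} [Fact p.Prime] {M κ : ℕ} [NeZero M] {α : Type} [Fintype α] [DecidableEq α]

omit [Fact p.Prime] [NeZero M] in
lemma hsix_mon_congr {A : Type} [CommRing A] {x y : ℕ → A} (h : Same M x y) {n : ℕ}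
    (hn : Nat.Coprime n M) : mon x n = mon y n := by
  unfold mon
  congr 1
  refine List.map_congr_left fun l hl => h l (Nat.prime_of_mem_primeFactorsList hl) ?_
  exact Nat.Coprime.coprime_dvd_left (Nat.dvd_of_mem_primeFactorsList hl) hn

lemma hsix_list_eig {K V : Type} [Field K] [AddCommGroup V] [Module K V] (T : ℕ → Module.End K V)
    (x : ℕ → K) (v : V) (L : List ℕ) (h : ∀ l ∈ L, T l v = x l • v) :
    (L.map T).prod v = (L.map x).prod • v := by
  induction L with
  | nil => simp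
  | cons a L ih =>
    rw [List.map_cons, List.prod_cons, List.map_cons, List.prod_cons, Module.End.mul_apply,
      ih fun l hl => h l (List.mem_cons_of_mem _ hl), map_smul, h a List.mem_cons_self, smul_smul,
      mul_comm]

lemma hsix_list_norm {K : Type} [NormedField K] (x : ℕ → K) (L : List ℕ)
    (h : ∀ l ∈ L, ‖x l‖ ≤ 1) : ‖(L.map x).prod‖ ≤ 1 := by
  induction L with
  | nil => simp
  | cons a L ih =>
    rw [List.map_cons, List.prod_cons, norm_mul]
    exact mul_le_one₀ (h a List.mem_cons_self) (norm_nonneg _)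
      (ih fun l hl => h l (List.mem_cons_of_mem _ hl))

lemma hsix_pow_eig {K n : Type} [Field K] [Fintype n] [DecidableEq n] (Y : Matrix n n K)
    (x : n → K) (a : K) (h : Y *ᵥ x = a • x) (m : ℕ) : (Y ^ m) *ᵥ x = a ^ m • x := by
  induction m with
  | zero => simp
  | succ m ih =>
    rw [pow_succ, ← Matrix.mulVec_mulVec, h, Matrix.mulVec_smul, ih, smul_smul, pow_succ,
      mul_comm]

lemma hsix_one_le_pow (σ : ℕ) {X : ℝ} (hX : 1 ≤ X) : 1 ≤ ((σ : ℝ) * X) ^ σ := by
  rcases Nat.eq_zero_or_pos σ with rfl | h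
  · simp
  · have h1 : (1 : ℝ) ≤ σ := by exact_mod_cast h
    exact one_le_pow₀ (one_le_mul_of_one_le_of_one_le h1 hX)

lemma hsix_pow_le {σ D : ℕ} (h : σ ≤ D) {X : ℝ} (hX : 1 ≤ X) :
    ((σ : ℝ) * X) ^ σ ≤ (p : ℝ) ^ ((D : ℝ) * Real.logb p ((D : ℝ) * X)) := by
  rcases Nat.eq_zero_or_pos D with rfl | hD
  · obtain rfl : σ = 0 := by omega
    simp
  · have h1 : (1 : ℝ) ≤ D := by exact_mod_cast hD
    have h2 : (1 : ℝ) ≤ D * X := one_le_mul_of_one_le_of_one_le h1 hX
    have h3 : (σ : ℝ) ≤ D := by exact_mod_cast h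
    rw [mul_comm (D : ℝ) (Real.logb _ _), Real.rpow_mul (p_pos p).le,
      Real.rpow_logb (p_pos p) (one_lt_p p).ne' (by linarith), Real.rpow_natCast]
    calc ((σ : ℝ) * X) ^ σ ≤ ((D : ℝ) * X) ^ σ :=
          pow_le_pow_left₀ (by positivity) (mul_le_mul_of_nonneg_right h3 (by linarith)) _
      _ ≤ _ := pow_le_pow_right₀ h2 h

omit [NeZero M] in
lemma hsix_rank (Z : ZModel (KP p) M κ α) (Q : Matrix α α (KP p))
    (hk : LinearMap.ker (Matrix.toLin' Q) = LinearMap.ker Z.cl) :
    Q.rank = Module.finrank (KP p) (HH (KP p) M κ) := by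
  have h1 := LinearMap.finrank_range_add_finrank_ker (Matrix.toLin' Q)
  have h2 := LinearMap.finrank_range_add_finrank_ker Z.cl
  rw [LinearMap.range_eq_top.2 Z.surj, finrank_top] at h2
  rw [hk] at h1
  have h3 : Q.rank = Module.finrank (KP p) (LinearMap.range (Matrix.toLin' Q)) := by
    rw [Matrix.toLin'_apply']
    rfl
  omega

/-- Counting the indices outside the selected classes. -/
lemma hsix_count {d s r q : ℕ} {Λ : Type} [Fintype Λ] [DecidableEq Λ] (π : Fin d → Λ)
    (hr : ∀ a, (univ.filter fun j => π j = a).card ≤ r) (f : Fin s → Λ)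
    (hf : Function.Injective f) (hc : Fintype.card Λ ≤ s + q) (S : Finset (Fin d))
    (hS : ∀ j, j ∉ S → ∀ i, f i ≠ π j) : d ≤ S.card + q * r := by
  have h1 : Sᶜ.card ≤ r * (univ.image f)ᶜ.card := by
    refine Finset.card_le_mul_card_image_of_maps_to (f := π) (fun j hj => ?_) r fun a _ => ?_
    · rw [Finset.mem_compl] at hj ⊢
      intro h
      obtain ⟨i, _, hi⟩ := Finset.mem_image.1 h
      exact hS j hj i hi
    · exact (Finset.card_le_card (Finset.filter_subset_filter _ (Finset.subset_univ _))).trans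
        (hr a)
  have h2 : (univ.image f)ᶜ.card ≤ q := by
    rw [Finset.card_compl, Finset.card_image_of_injective _ hf, Finset.card_univ, Fintype.card_fin]
    omega
  have h3 : S.card + Sᶜ.card = d := by
    rw [Finset.card_add_card_compl, Fintype.card_fin]
  have h4 : r * (univ.image f)ᶜ.card ≤ q * r := by
    rw [mul_comm]
    exact Nat.mul_le_mul_right _ h2
  omega

/-- The selection of classes and of indices with a large minor. -/
lemma hsix_select {B r c : ℕ} {X : ℝ} (hX : 1 ≤ X) (hA : Arch (KP p) M κ B r c X)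
    (Z : ZModel (KP p) M κ α) :
    ∃ (d s : ℕ) (v : Fin d → HH (KP p) M κ) (lam : Fin d → ℕ → KP p)
      (cls : Fin d → Option (Fin s)) (ρ : Fin s → Fin d) (g : Fin s → ℕ),
      LinearIndependent (KP p) v ∧
      (∀ j l, l.Prime → Nat.Coprime l M → Tl (KP p) M κ l (v j) = lam j l • v j) ∧
      (∀ j n, Nat.Coprime n M → Tw (KP p) M κ n (v j) = mon (lam j) n • v j) ∧
      (∀ j n, Nat.Coprime n M → ‖mon (lam j) n‖ ≤ 1) ∧
      (∀ a, Nat.Coprime (g a) M) ∧
      (∀ j i, cls j = some i → Same M (lam j) (lam (ρ i))) ∧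
      (∀ i, (univ.filter fun j => cls j = some i).card ≤ r) ∧
      Module.finrank (KP p) (HH (KP p) M κ) ≤
        (univ.filter fun j => cls j ≠ none).card + (c + 2 * c ^ 2 * r) ∧
      (Matrix.of fun i a => mon (lam (ρ i)) (g a)).det ≠ 0 ∧
      ‖(Matrix.of fun i a => mon (lam (ρ i)) (g a)).det‖⁻¹ ≤
        (p : ℝ) ^ ((Module.finrank (KP p) (HH (KP p) M κ) : ℝ) *
          Real.logb p ((Module.finrank (KP p) (HH (KP p) M κ) : ℝ) * X)) := by
  classical
  obtain ⟨d, v, lam, hv, hd, heig, hind, hmult⟩ := hA.eig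
  have hco : ∀ {n l : ℕ}, Nat.Coprime n M → l ∈ n.primeFactorsList → Nat.Coprime l M :=
    fun hn hl => Nat.Coprime.coprime_dvd_left (Nat.dvd_of_mem_primeFactorsList hl) hn
  have hw : ∀ j n, Nat.Coprime n M → Tw (KP p) M κ n (v j) = mon (lam j) n • v j :=
    fun j n hn => hsix_list_eig _ _ _ _ fun l hl =>
      heig j l (Nat.prime_of_mem_primeFactorsList hl) (hco hn hl)
  have hn1 : ∀ j n, Nat.Coprime n M → ‖mon (lam j) n‖ ≤ 1 :=
    fun j n hn => hsix_list_norm _ _ fun l hl =>
      Z.eig_le (Nat.prime_of_mem_primeFactorsList hl) (hco hn hl) (hv.ne_zero j)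
        (heig j l (Nat.prime_of_mem_primeFactorsList hl) (hco hn hl))
  let St : Setoid (Fin d) := ⟨fun i j => Same M (lam i) (lam j),
    ⟨fun _ _ _ _ => rfl, fun h l h1 h2 => (h l h1 h2).symm,
      fun h h' l h1 h2 => (h l h1 h2).trans (h' l h1 h2)⟩⟩
  let Λ := Quotient St
  let π : Fin d → Λ := Quotient.mk St
  have hout : ∀ j a, π j = a → Same M (lam j) (lam a.out) := by
    intro j a h
    have : π j = π a.out := by rw [h]; exact (Quotient.out_eq a).symm
    exact Quotient.exact this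
  have hπo : ∀ a : Λ, π a.out = a := fun a => Quotient.out_eq a
  have hr : ∀ a : Λ, (univ.filter fun j => π j = a).card ≤ r := by
    intro a
    refine le_trans (Finset.card_le_card fun j hj => ?_) (hmult a.out)
    rw [Finset.mem_filter] at hj ⊢
    exact ⟨hj.1, hout j a hj.2⟩
  let N := {n : ℕ // n ∈ (Finset.Icc 1 B).filter fun n => Nat.Coprime n M}
  let _ : Fintype N := Finset.Subtype.fintype _
  have hN : ∀ n : N, 1 ≤ n.1 ∧ n.1 ≤ B ∧ Nat.Coprime n.1 M := by
    intro n
    have := n.2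
    rw [Finset.mem_filter, Finset.mem_Icc] at this
    exact ⟨this.1.1, this.1.2, this.2⟩
  let E : Matrix Λ N (KP p) := Matrix.of fun a n => mon (lam a.out) n.1
  have hE : EntLe E 1 := fun a n => hn1 _ _ (hN n).2.2
  have hEi : ∀ a : Λ → KP p, a ᵥ* E = 0 → a = 0 := by
    intro a ha
    have hinj : Function.Injective (Quotient.out : Λ → Fin d) := Quotient.out_injective
    have := hind (univ.image (Quotient.out : Λ → Fin d)) (by
      intro i hi j hj hs
      obtain ⟨i', _, rfl⟩ := Finset.mem_image.1 hi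
      obtain ⟨j', _, rfl⟩ := Finset.mem_image.1 hj
      have h1 : π i'.out = π j'.out := Quotient.sound hs
      rw [hπo, hπo] at h1
      rw [h1]) (fun j => a (π j)) (by
      intro n h1 h2 h3
      rw [Finset.sum_image fun x _ y _ h => hinj h]
      have := congrFun ha ⟨n, by rw [Finset.mem_filter, Finset.mem_Icc]; exact ⟨⟨h1, h2⟩, h3⟩⟩
      simp only [Matrix.vecMul, dotProduct, E, Matrix.of_apply, Pi.zero_apply] at this
      simpa only [hπo] using this)
    funext b
    have h2 := this b.out (Finset.mem_image_of_mem _ (Finset.mem_univ b))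
    rw [hπo] at h2
    exact h2
  let mult : Λ → ℕ := fun a => (univ.filter fun j => π j = a).card
  have hm : ∀ a, 0 < mult a := fun a =>
    Finset.card_pos.2 ⟨a.out, Finset.mem_filter.2 ⟨Finset.mem_univ _, hπo a⟩⟩
  choose G hG using fun n n' : N => Z.trace_int (hN n).2.2 (hN n').2.2
  have hGX : ∀ n n', |((Matrix.of G n n' : ℤ) : ℝ)| ≤ X := fun n n' =>
    hA.tr n.1 n'.1 (hN n).1 (hN n).2.1 (hN n).2.2 (hN n').1 (hN n').2.1 (hN n').2.2 _ (hG n n')
  have hq := trace_gram (fun n : N => Tw (KP p) M κ n.1) v hv hd (fun j n => mon (lam j) n.1)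
    (fun n j => hw j n.1 (hN n).2.2)
  have hEq : zm (KP p) (Matrix.of G) - Eᵀ * Matrix.diagonal (fun i => (mult i : KP p)) * E =
      Matrix.of fun n n' : N => LinearMap.trace (KP p) _ (Tw (KP p) M κ n.1 * Tw (KP p) M κ n'.1) -
        ∑ j, mon (lam j) n.1 * mon (lam j) n'.1 := by
    ext n n'
    rw [Matrix.sub_apply, Matrix.of_apply, hG, Matrix.mul_apply]
    congr 1
    rw [← Finset.sum_fiberwise univ π]
    refine Finset.sum_congr rfl fun a _ => ?_
    rw [Matrix.mul_diagonal, Matrix.transpose_apply, Finset.sum_congr rfl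
      (g := fun _ => E a n * E a n') fun j hj => ?_]
    · rw [Finset.sum_const, nsmul_eq_mul]
      ring
    · have h1 := hout j a (Finset.mem_filter.1 hj).2
      rw [hsix_mon_congr h1 (hN n).2.2, hsix_mon_congr h1 (hN n').2.2]
      rfl
  obtain ⟨s, f, g, hf, hcard, hdet⟩ := gram_minor p E hE hEi mult hm (Matrix.of G) hX hGX
    (q := c ^ 2) (by rw [hEq]; exact hq)
  let cls : Fin d → Option (Fin s) := fun j =>
    if h : ∃ i, f i = π j then some h.choose else none
  have hcls : ∀ j i, cls j = some i → f i = π j := by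
    intro j i h
    by_cases h' : ∃ i, f i = π j
    · simp only [cls, dif_pos h', Option.some.injEq] at h
      rw [← h]
      exact h'.choose_spec
    · simp [cls, dif_neg h'] at h
  have h1 := hsix_one_le_pow (Fintype.card Λ) hX
  have hpos : 0 < ‖(E.submatrix f g).det‖ := lt_of_lt_of_le (inv_pos.2 (by linarith)) hdet
  have hσ : Fintype.card Λ ≤ Module.finrank (KP p) (HH (KP p) M κ) := by
    refine le_trans ?_ hv.fintype_card_le_finrank
    exact Fintype.card_le_of_surjective π Quotient.mk_surjective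
  refine ⟨d, s, v, lam, cls, fun i => (f i).out, fun a => (g a).1, hv, heig, hw, hn1,
    fun a => (hN _).2.2, fun j i h => hout j _ (hcls j i h).symm, fun i => ?_, ?_,
    norm_pos_iff.1 hpos, ?_⟩
  · refine le_trans (Finset.card_le_card fun j hj => ?_) (hr (f i))
    rw [Finset.mem_filter] at hj ⊢
    exact ⟨hj.1, (hcls j i hj.2).symm⟩
  · have := hsix_count π hr f hf hcard (univ.filter fun j => cls j ≠ none) (by
      intro j hj i hi
      apply hj
      have h' : ∃ i, f i = π j := ⟨i, hi⟩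
      refine Finset.mem_filter.2 ⟨Finset.mem_univ _, ?_⟩
      simp only [cls, dif_pos h']
      exact Option.some_ne_none _)
    omega
  · exact le_trans (inv_le_of_inv_le₀ (by linarith) hdet) (hsix_pow_le hσ hX)

/-- For `m = 0` the matrix is `1`. Let `m ≥ 1`, take `d, v, lam` from `hA.eig`. Let `Λ ⊆ Fin d` be a
set of representatives of the classes of `Same M`, `mult` the class sizes, `N` the set of
`1 ≤ n ≤ B` coprime to `M`, `E i n = mon (lam i) n` (integral by `ZModel.eig_le`), `G` the integer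
matrix of traces (`ZModel.trace_int`, `hA.tr`). `trace_gram` gives the hypothesis of `gram_minor` with
`q = c ^ 2`; get `s, f, g`. Apply `six_abs` with `x j = Q *ᵥ (a lift of v j)`, `cls j = some i` if
`lam j` is in the class of `f i`, `T a = Q * A * Q` for the matrix `A` of `ZModel.word` at `g a`,
`μ i = (lam (f i) p / p ^ h) ^ m`, `y = p ^ (h m)`, `u = c + 2 c ^ 2 r` (`rank Q` is the dimension of
cohomology). If `cl x = cl x'` then `Q x = Q x'`, and `cl (Q x) = cl x`. The product is at most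
`p ^ (m np)` by `eig_le_roots`, `np_le_of_le` and `rpow_np`. -/
theorem six {B r c : ℕ} {X : ℝ} (hX : 1 ≤ X) (hA : Arch (KP p) M κ B r c X)
    (hM : Nat.Coprime p M) (Z : ZModel (KP p) M κ α) (Q : Matrix α α (KP p)) (hQ : EntLe Q 1)
    (hQQ : Q * Q = Q) (hk : LinearMap.ker (Matrix.toLin' Q) = LinearMap.ker Z.cl) (h m : ℕ) :
    VolLe ((((p : KP p) ^ h)⁻¹ • (Q * zm (KP p) (Z.tc p) * Q)) ^ m)
      ((p : ℝ) ^ (m * np p (slopes (KP p) M κ p) h +
        2 * r * ((Module.finrank (KP p) (HH (KP p) M κ) : ℝ) *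
          Real.logb p ((Module.finrank (KP p) (HH (KP p) M κ) : ℝ) * X)) +
        ((c : ℝ) + 2 * c ^ 2 * r) * m * h)) := by
  classical
  have hp : p.Prime := Fact.out
  have hp1 := one_lt_p p
  have hp0 := p_pos p
  set L : ℝ := (Module.finrank (KP p) (HH (KP p) M κ) : ℝ) *
    Real.logb p ((Module.finrank (KP p) (HH (KP p) M κ) : ℝ) * X) with hL
  rcases Nat.eq_zero_or_pos m with rfl | hm
  · rw [pow_zero]
    refine entLe_one.volLe.mono ?_
    have h1 : (1 : ℝ) ≤ (p : ℝ) ^ L := by
      have := hsix_pow_le (p := p) (Nat.zero_le (Module.finrank (KP p) (HH (KP p) M κ))) hX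
      simpa using this
    have h2 : 0 ≤ L := by
      by_contra h3
      have := Real.rpow_lt_one_of_one_lt_of_neg hp1 (not_le.1 h3)
      linarith
    refine Real.one_le_rpow hp1.le ?_
    simp only [Nat.cast_zero, zero_mul, mul_zero, zero_add, add_zero]
    positivity
  obtain ⟨d, s, v, lam, cls, ρ, g, hv, heig, hw, hn1, hg, hcls, hr, hu, hdet, hdet'⟩ :=
    hsix_select hX hA Z
  have hQeq : ∀ x y : α → KP p, Z.cl x = Z.cl y → Q *ᵥ x = Q *ᵥ y := by
    intro x y hxy
    have : x - y ∈ LinearMap.ker (Matrix.toLin' Q) := by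
      rw [hk, LinearMap.mem_ker, map_sub, hxy, sub_self]
    rw [LinearMap.mem_ker, map_sub, Matrix.toLin'_apply, Matrix.toLin'_apply] at this
    exact sub_eq_zero.1 this
  have hclQ : ∀ x : α → KP p, Z.cl (Q *ᵥ x) = Z.cl x := by
    intro x
    have : Q *ᵥ x - x ∈ LinearMap.ker Z.cl := by
      rw [← hk, LinearMap.mem_ker, map_sub, Matrix.toLin'_apply, Matrix.toLin'_apply,
        Matrix.mulVec_mulVec, hQQ, sub_self]
    rw [LinearMap.mem_ker, map_sub] at this
    exact sub_eq_zero.1 this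
  choose w hwv using fun j => Z.surj (v j)
  let x : Fin d → α → KP p := fun j => Q *ᵥ w j
  have hxv : ∀ j, Z.cl (x j) = v j := fun j => by rw [hclQ, hwv]
  have hxQ : ∀ j, Q *ᵥ x j = x j := fun j => by
    simp only [x]
    rw [Matrix.mulVec_mulVec, hQQ]
  have hx : LinearIndependent (KP p) x := by
    refine LinearIndependent.of_comp Z.cl ?_
    have : Z.cl ∘ x = v := funext hxv
    rw [this]
    exact hv
  have hact : ∀ (A : Matrix α α (KP p)) (T : Module.End (KP p) (HH (KP p) M κ)),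
      Z.cl ∘ₗ Matrix.toLin' A = T ∘ₗ Z.cl → ∀ j (a : KP p), T (v j) = a • v j →
        (Q * A * Q) *ᵥ x j = a • x j := by
    intro A T hAT j a ha
    rw [← Matrix.mulVec_mulVec, hxQ, ← Matrix.mulVec_mulVec, hQeq (A *ᵥ x j) (a • x j),
      Matrix.mulVec_smul, hxQ]
    have := LinearMap.congr_fun hAT (x j)
    rw [LinearMap.comp_apply, LinearMap.comp_apply, Matrix.toLin'_apply] at this
    rw [this, hxv, ha, map_smul, hxv]
  have hint : ∀ A : Matrix α α ℤ, EntLe (Q * zm (KP p) A * Q) 1 := by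
    intro A
    have := (hQ.mul zero_le_one zero_le_one (entLe_zm A)).mul (by norm_num) zero_le_one hQ
    simpa using this
  choose A A0 hAw _ using fun a => Z.word (hg a)
  have hyy : (1 : ℝ) ≤ ((p : ℝ) ^ (h : ℝ)) ^ m :=
    one_le_pow₀ (Real.one_le_rpow hp1.le (Nat.cast_nonneg h))
  have key := six_abs Q hQ hQQ x hx hxQ cls hr (fun a => Q * zm (KP p) (A a) * Q)
    (fun a => hint _) (Matrix.of fun i a => mon (lam (ρ i)) (g a)) (fun i a => hn1 _ _ (hg a)) hdet
    (fun a j i hji => hact _ _ (hAw a) j _ (by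
      rw [hw j _ (hg a), hsix_mon_congr (hcls j i hji) (hg a)]
      rfl))
    ((((p : KP p) ^ h)⁻¹ • (Q * zm (KP p) (Z.tc p) * Q)) ^ m) (by
      obtain ⟨m', rfl⟩ : ∃ m', m = m' + 1 := ⟨m - 1, by omega⟩
      rw [pow_succ, Matrix.mul_assoc, Matrix.smul_mul, Matrix.mul_assoc _ Q Q, hQQ])
    (fun i => (((p : KP p) ^ h)⁻¹ * lam (ρ i) p) ^ m) (fun j i hji => by
      refine hsix_pow_eig _ _ _ ?_ m
      rw [Matrix.smul_mulVec, hact _ _ (Z.comm p hp hM) j _ (heig j p hp hM), smul_smul,
        hcls j i hji p hp hM])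
    hyy (by
      refine EntLe.pow (by positivity) ?_ m
      have := (hint (Z.tc p)).smul (((p : KP p) ^ h)⁻¹)
      rwa [norm_p_pow_inv, mul_one] at this)
    (u := c + 2 * c ^ 2 * r) (by rw [hsix_rank Z Q hk]; exact hu)
  refine key.mono ?_
  have e1 : (((p : ℝ) ^ (h : ℝ)) ^ m) ^ (c + 2 * c ^ 2 * r) =
      (p : ℝ) ^ (((c : ℝ) + 2 * c ^ 2 * r) * m * h) := by
    rw [← pow_mul, ← Real.rpow_natCast, ← Real.rpow_mul hp0.le]
    congr 1
    push_cast
    ring
  have e2 : (∏ j, (cls j).elim 1 fun i => max 1 ‖(((p : KP p) ^ h)⁻¹ * lam (ρ i) p) ^ m‖) ≤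
      (p : ℝ) ^ (m * np p (slopes (KP p) M κ p) h) := by
    have h1 := np_le_of_le hp.one_lt (eig_le_roots (Tl (KP p) M κ p) v hv (fun j => lam j p)
      fun j => heig j p hp hM) (h : ℝ)
    calc _ ≤ ∏ j, (max 1 (‖lam j p‖ * (p : ℝ) ^ (h : ℝ))) ^ m := by
          refine Finset.prod_le_prod (fun j _ => ?_) fun j _ => ?_
          · cases cls j with
            | none => exact zero_le_one
            | some i => exact le_trans zero_le_one (le_max_left _ _)
          · have h2 : (1 : ℝ) ≤ (max 1 (‖lam j p‖ * (p : ℝ) ^ (h : ℝ))) ^ m :=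
              one_le_pow₀ (le_max_left _ _)
            rcases hc : cls j with _ | i
            · exact h2
            · refine max_le h2 ?_
              rw [norm_pow, norm_mul, norm_p_pow_inv, ← hcls j i hc p hp hM, mul_comm]
              exact pow_le_pow_left₀ (by positivity) (le_max_right _ _) _
      _ = ((p : ℝ) ^ np p (univ.val.map fun j => lam j p) h) ^ m := by
          rw [rpow_np hp.one_lt, Multiset.map_map, Finset.prod_pow]
          rfl
      _ ≤ ((p : ℝ) ^ np p (slopes (KP p) M κ p) h) ^ m :=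
          pow_le_pow_left₀ (by positivity) (Real.rpow_le_rpow_of_exponent_le hp1.le h1) _
      _ = _ := by rw [← Real.rpow_natCast, ← Real.rpow_mul hp0.le, mul_comm]
  have e3 : ‖(Matrix.of fun i a => mon (lam (ρ i)) (g a)).det‖⁻¹ ^ (2 * r) ≤
      (p : ℝ) ^ (2 * r * L) := by
    calc _ ≤ ((p : ℝ) ^ L) ^ (2 * r) := pow_le_pow_left₀ (by positivity) hdet' _
      _ = _ := by
          rw [← Real.rpow_natCast, ← Real.rpow_mul hp0.le]
          congr 1
          push_cast
          ring
  rw [e1, Real.rpow_add hp0, Real.rpow_add hp0, mul_comm]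
  refine mul_le_mul_of_nonneg_right ?_ (by positivity)
  exact mul_le_mul e2 e3 (by positivity) (by positivity)

end Pool.Agent.Lib.MP_88d29b_nt.G
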