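import Pool.Agent.Lib.MP_88d29b_nt.HIdem

set_option autoImplicit false

noncomputable section

namespace Pool.Agent.Lib.MP_88d29b_nt.G

open Finset CongruenceSubgroup Matrix
open scoped MatrixGroups

variable {K : Type} [NormedField K] [IsUltrametricDist K] {n : Type} [Fintype n] [DecidableEq n]

omit [IsUltrametricDist K] in
lemma hsixa_left {d : ℕ} (x : Fin d → n → K) (hx : LinearIndependent K x) :
    ∃ L : Matrix (Fin d) n K, L * (Matrix.of fun a j => x j a) = 1 := by
  have hinj : LinearMap.ker (Matrix.toLin' (Matrix.of fun a j => x j a : Matrix n (Fin d) K)) = ⊥ := by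
    rw [LinearMap.ker_eq_bot']
    intro c hc
    funext j
    refine Fintype.linearIndependent_iff.1 hx c ?_ j
    funext a
    have := congrFun hc a
    simp only [Matrix.toLin'_apply, Matrix.mulVec, dotProduct, Matrix.of_apply,
      Pi.zero_apply] at this
    simp only [Finset.sum_apply, Pi.smul_apply, smul_eq_mul, Pi.zero_apply]
    rw [← this]
    exact sum_congr rfl fun j _ => mul_comm _ _
  obtain ⟨g, hg⟩ := LinearMap.exists_leftInverse_of_injective _ hinj
  refine ⟨LinearMap.toMatrix' g, Matrix.toLin'.injective ?_⟩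
  rw [Matrix.toLin'_mul, Matrix.toLin'_toMatrix', hg, Matrix.toLin'_one]

omit [IsUltrametricDist K] in
lemma hsixa_range {k : Type} [Fintype k] [DecidableEq k] (P : Matrix n n K) (hP : P * P = P)
    (A : Matrix n k K) (h : LinearMap.range (Matrix.toLin' P) = LinearMap.range (Matrix.toLin' A))
    (B : Matrix n n K) (hB : B * A = A) : B * P = P ∧ P * A = A := by
  constructor
  · refine Matrix.toLin'.injective (LinearMap.ext fun v => ?_)
    have h1 : Matrix.toLin' P v ∈ LinearMap.range (Matrix.toLin' A) := h ▸ ⟨v, rfl⟩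
    obtain ⟨c, hc⟩ := h1
    rw [Matrix.toLin'_mul, LinearMap.comp_apply, ← hc, ← LinearMap.comp_apply,
      ← Matrix.toLin'_mul, hB]
  · refine Matrix.toLin'.injective (LinearMap.ext fun c => ?_)
    have h1 : Matrix.toLin' A c ∈ LinearMap.range (Matrix.toLin' P) := h ▸ ⟨c, rfl⟩
    obtain ⟨v, hv⟩ := h1
    rw [Matrix.toLin'_mul, LinearMap.comp_apply, ← hv, ← LinearMap.comp_apply,
      ← Matrix.toLin'_mul, hP]

omit [IsUltrametricDist K] [DecidableEq n] in
lemma hsixa_rank (P Q : Matrix n n K) (hPP : P * P = P) (hQQ : Q * Q = Q) (hPQ : P * Q = P)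
    (hQP : Q * P = P) : (Q - P).rank + P.rank ≤ Q.rank := by
  unfold Matrix.rank
  rw [← Submodule.finrank_sup_add_finrank_inf_eq]
  have h1 : LinearMap.range (Q - P).mulVecLin ⊓ LinearMap.range P.mulVecLin = ⊥ := by
    rw [eq_bot_iff]
    rintro v ⟨⟨a, ha⟩, ⟨b, hb⟩⟩
    simp only [Matrix.mulVecLin_apply] at ha hb
    have h2 : P *ᵥ v = v := by rw [← hb, Matrix.mulVec_mulVec, hPP]
    have h3 : P *ᵥ v = 0 := by
      rw [← ha, Matrix.mulVec_mulVec, Matrix.mul_sub, hPQ, hPP, sub_self, Matrix.zero_mulVec]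
    rw [Submodule.mem_bot, ← h2, h3]
  rw [h1, finrank_bot, add_zero]
  refine Submodule.finrank_mono (sup_le ?_ ?_)
  · rintro v ⟨a, ha⟩
    refine ⟨v, ?_⟩
    simp only [Matrix.mulVecLin_apply] at ha ⊢
    rw [← ha, Matrix.mulVec_mulVec, Matrix.mul_sub, hQQ, hQP]
  · rintro v ⟨a, ha⟩
    refine ⟨v, ?_⟩
    simp only [Matrix.mulVecLin_apply] at ha ⊢
    rw [← ha, Matrix.mulVec_mulVec, hQP]

omit [IsUltrametricDist K] in
lemma hsixa_diag_rank {d : ℕ} (p : Fin d → Prop) [DecidablePred p] :
    (Matrix.diagonal fun j => if p j then (1 : K) else 0).rank = (univ.filter p).card := by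
  classical
  rw [Matrix.rank_diagonal, Fintype.card_subtype]
  congr 1
  ext j
  by_cases h : p j <;> simp [h]

omit [IsUltrametricDist K] [DecidableEq n] in
lemma hsixa_eig {d s : ℕ} (x : Fin d → n → K) (cls : Fin d → Option (Fin s)) (M : Matrix n n K)
    (f : Fin s → K) (h : ∀ j i, cls j = some i → M *ᵥ x j = f i • x j) :
    M * ((Matrix.of fun a j => x j a : Matrix n (Fin d) K) *
        Matrix.diagonal fun j => if cls j ≠ none then (1 : K) else 0) =
      ∑ i, f i • ((Matrix.of fun a j => x j a : Matrix n (Fin d) K) *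
        Matrix.diagonal fun j => if cls j = some i then (1 : K) else 0) := by
  ext b j
  rw [← Matrix.mul_assoc, Matrix.mul_diagonal, Matrix.sum_apply]
  simp only [Matrix.smul_apply, Matrix.mul_diagonal, Matrix.of_apply, smul_eq_mul]
  rcases hj : cls j with _ | i
  · simp
  · have h1 : (M * (Matrix.of fun a j => x j a : Matrix n (Fin d) K)) b j = f i * x j b :=
      congrFun (h j i hj) b
    rw [h1, sum_eq_single i]
    · simp
    · intro i' _ hi'
      simp [hi'.symm]
    · simp

lemma hsixa_prod {d s : ℕ} (cls : Fin d → Option (Fin s)) (m : Fin s → ℝ) :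
    ∏ i, m i ^ (univ.filter fun j => cls j = some i).card = ∏ j, (cls j).elim 1 m := by
  have h1 : ∀ i, m i ^ (univ.filter fun j => cls j = some i).card
      = ∏ j, if cls j = some i then m i else 1 := fun i => by
    rw [← prod_filter, prod_const]
  simp only [h1]
  rw [prod_comm]
  refine prod_congr rfl fun j _ => ?_
  rcases cls j with _ | i
  · simp
  · simp

open Classical in
/-- Let `W` be the span of the `x j` with `cls j ≠ none`, `P0` an integral idempotent onto `W` and
`P = P0 Q` (again an integral idempotent onto `W`, with `Q P = P`, `P Q = P`). For a class `i` let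
`E i` be the matrix of `P` followed by the projection of `W` onto the span of the `x j` with
`cls j = some i` (extend `x` to a basis, or use `LinearIndependent.repr`). Then
`T a * P = ∑ e i a • E i`, `Y * P = ∑ μ i • E i`, `Y - Y P = Y (Q - P)` and `Q - P` is an idempotent
of rank `rank Q - dim W ≤ u`. Use `volLe_idem` and `VolLe.of_rank`. -/
theorem six_abs {d s r u : ℕ} (Q : Matrix n n K) (hQ : EntLe Q 1) (hQQ : Q * Q = Q)
    (x : Fin d → n → K) (hx : LinearIndependent K x) (hxQ : ∀ j, Q *ᵥ x j = x j)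
    (cls : Fin d → Option (Fin s)) (hr : ∀ i, (univ.filter fun j => cls j = some i).card ≤ r)
    (T : Fin s → Matrix n n K) (hT : ∀ a, EntLe (T a) 1) (e : Matrix (Fin s) (Fin s) K)
    (he : EntLe e 1) (hdet : e.det ≠ 0)
    (hTx : ∀ a j i, cls j = some i → T a *ᵥ x j = e i a • x j) (Y : Matrix n n K) (hY : Y * Q = Y)
    (μ : Fin s → K) (hYx : ∀ j i, cls j = some i → Y *ᵥ x j = μ i • x j) {y : ℝ} (hy1 : 1 ≤ y)
    (hy : EntLe Y y) (hu : Q.rank ≤ (univ.filter fun j => cls j ≠ none).card + u) :
    VolLe Y (y ^ u * ((∏ j, (cls j).elim 1 fun i => max 1 ‖μ i‖) * ‖e.det‖⁻¹ ^ (2 * r))) := by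
  obtain ⟨L, hL⟩ := hsixa_left x hx
  have hTX := fun a => hsixa_eig x cls (T a) (fun i => e i a) (hTx a)
  have hYX := hsixa_eig x cls Y μ hYx
  have hQX : Q * (Matrix.of fun a j => x j a : Matrix n (Fin d) K) = Matrix.of fun a j => x j a := by
    ext b j
    exact congrFun (hxQ j) b
  generalize (Matrix.of fun a j => x j a : Matrix n (Fin d) K) = X at hL hTX hYX hQX
  obtain ⟨D, hD⟩ : ∃ D : Matrix (Fin d) (Fin d) K,
    D = Matrix.diagonal fun j => if cls j ≠ none then (1 : K) else 0 := ⟨_, rfl⟩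
  obtain ⟨F, hF⟩ : ∃ F : Fin s → Matrix (Fin d) (Fin d) K,
    ∀ i, F i = Matrix.diagonal fun j => if cls j = some i then (1 : K) else 0 := ⟨_, fun _ => rfl⟩
  simp only [← hD, ← hF] at hTX hYX
  have hDD : D * D = D := by
    rw [hD, Matrix.diagonal_mul_diagonal]
    congr 1
    funext j
    split_ifs <;> simp
  have hDF : ∀ i, D * F i = F i := fun i => by
    rw [hD, hF, Matrix.diagonal_mul_diagonal]
    congr 1
    funext j
    by_cases h : cls j = some i <;> simp [h]
  have hFF : ∀ i i', F i * F i' = if i = i' then F i else 0 := fun i i' => by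
    rw [hF, hF, Matrix.diagonal_mul_diagonal]
    split_ifs with h
    · subst h
      congr 1
      funext j
      split_ifs <;> simp
    · rw [← Matrix.diagonal_zero]
      congr 1
      funext j
      by_cases h1 : cls j = some i
      · simp [h1, h]
      · simp [h1]
  obtain ⟨P0, hP0, hP0P0, hrange⟩ := exists_proj (LinearMap.range (Matrix.toLin' (X * D)))
  have hB : X * D * L * (X * D) = X * D := by
    rw [Matrix.mul_assoc (X * D), ← Matrix.mul_assoc L, hL, Matrix.one_mul, Matrix.mul_assoc, hDD]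
  obtain ⟨h1, h2⟩ := hsixa_range P0 hP0P0 (X * D) hrange (X * D * L) hB
  obtain ⟨P, hP⟩ : ∃ P : Matrix n n K, P = P0 * Q := ⟨_, rfl⟩
  have hPe : EntLe P 1 := by
    have := EntLe.mul zero_le_one zero_le_one hP0 hQ
    rwa [one_mul, ← hP] at this
  have hPX : P * (X * D) = X * D := by
    rw [hP, Matrix.mul_assoc, ← Matrix.mul_assoc Q, hQX, h2]
  have hXP : X * D * L * P = P := by rw [hP, ← Matrix.mul_assoc, h1]
  have hXP' : X * D * (L * P) = P := by rw [← Matrix.mul_assoc, hXP]
  have hPP : P * P = P := by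
    calc P * P = P * (X * D * (L * P)) := by rw [hXP']
      _ = P := by rw [← Matrix.mul_assoc, hPX, hXP']
  have hPQ : P * Q = P := by rw [hP, Matrix.mul_assoc, hQQ]
  have hQP : Q * P = P := by
    calc Q * P = Q * (X * D * (L * P)) := by rw [hXP']
      _ = P := by rw [← Matrix.mul_assoc, ← Matrix.mul_assoc Q X, hQX, hXP']
  have hPF : ∀ i, P * (X * F i) = X * F i := fun i => by
    rw [← hDF i, ← Matrix.mul_assoc X, ← Matrix.mul_assoc, hPX]
  have hE : ∀ i i', X * F i * (L * P) * (X * F i' * (L * P))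
      = if i = i' then X * F i * (L * P) else 0 := fun i i' => by
    have h3 : L * P * (X * F i' * (L * P)) = F i' * (L * P) := by
      rw [← Matrix.mul_assoc, Matrix.mul_assoc L, hPF, ← Matrix.mul_assoc L, hL, Matrix.one_mul]
    rw [Matrix.mul_assoc (X * F i), h3, ← Matrix.mul_assoc, Matrix.mul_assoc X, hFF]
    split_ifs <;> simp
  have hM : ∀ (M : Matrix n n K) (f : Fin s → K), M * (X * D) = ∑ i, f i • (X * F i) →
      ∑ i, f i • (X * F i * (L * P)) = M * P := fun M f h => by
    calc ∑ i, f i • (X * F i * (L * P)) = (∑ i, f i • (X * F i)) * (L * P) := by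
          rw [Matrix.sum_mul]
          exact sum_congr rfl fun i _ => (Matrix.smul_mul _ _ _).symm
      _ = M * P := by rw [← h, Matrix.mul_assoc, hXP']
  have hV := volLe_idem (fun i => X * F i * (L * P)) hE e he hdet
    (fun a => by
      rw [hM (T a) (fun i => e i a) (hTX a)]
      simpa using EntLe.mul zero_le_one zero_le_one (hT a) hPe)
    (fun i => (univ.filter fun j => cls j = some i).card)
    (fun i => by
      refine (Matrix.rank_mul_le_left _ _).trans ((Matrix.rank_mul_le_right _ _).trans ?_)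
      rw [hF, hsixa_diag_rank]) hr μ
  rw [hM Y μ hYX, hsixa_prod cls fun i => max 1 ‖μ i‖] at hV
  refine VolLe.of_rank ?_ hy hy1 hV
  have h4 : Y - Y * P = Y * (Q - P) := by rw [Matrix.mul_sub, hY]
  have h5 := hsixa_rank P Q hPP hQQ hPQ hQP
  have h6 : (univ.filter fun j => cls j ≠ none).card ≤ P.rank := by
    have h7 : L * (P * (X * D)) = D := by rw [hPX, ← Matrix.mul_assoc, hL, Matrix.one_mul]
    rw [← hsixa_diag_rank (K := K), ← hD, ← h7]
    exact (Matrix.rank_mul_le_right _ _).trans (Matrix.rank_mul_le_left _ _)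
  have h8 : (Y * (Q - P)).rank ≤ (Q - P).rank := Matrix.rank_mul_le_right _ _
  rw [h4]
  omega

end Pool.Agent.Lib.MP_88d29b_nt.G
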