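import Pool.Agent.Lib.MP_88d29b_nt.HCB

set_option autoImplicit false

noncomputable section

namespace Pool.Agent.Lib.MP_88d29b_nt.G

open Finset CongruenceSubgroup Matrix
open scoped MatrixGroups

variable {K : Type} [NormedField K] [IsUltrametricDist K]

omit [IsUltrametricDist K] in
lemma hsum_unit {n : Type} [Fintype n] [DecidableEq n] (M : Matrix n n K) (p : n → Prop)
    [DecidablePred p] (g : n → n) (hM : ∀ i, p i → ∀ j, M i j = if g i = j then 1 else 0) :
    ∃ f f' : Fin (Fintype.card {i // ¬ p i}) → n, (∀ j, ¬ p (f j)) ∧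
      ‖M.det‖ ≤ ‖(M.submatrix f f').det‖ := by
  let e := (Fintype.equivFin {i // ¬ p i}).symm
  by_cases hg : Function.Injective fun i : {i // p i} => g i
  · obtain ⟨σ, hσ⟩ := Equiv.Perm.exists_extending_pair _ _ Subtype.val_injective hg
    refine ⟨fun j => e j, fun j => σ (e j), fun j => (e j).2, le_of_eq ?_⟩
    have h0 : ∀ i, p i → ∀ j, M.submatrix id σ i j = if i = j then 1 else 0 := by
      intro i hi j
      have := hσ ⟨i, hi⟩
      simp only at this
      simp only [Matrix.submatrix_apply, id, hM i hi, ← this, σ.apply_eq_iff_eq]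
    have h1 := Matrix.twoBlockTriangular_det' (M.submatrix id σ) p fun i hi j hj => by
      rw [h0 i hi, if_neg fun h : i = j => hj (h ▸ hi)]
    have h2 : Matrix.toSquareBlockProp (M.submatrix id σ) p = 1 := by
      ext i j
      rw [Matrix.toSquareBlockProp_def, Matrix.of_apply, h0 _ i.2, Matrix.one_apply]
      simp only [Subtype.ext_iff]
    have h3 : ‖((Equiv.Perm.sign σ : ℤ) : K)‖ = 1 := by
      rcases Int.units_eq_one_or (Equiv.Perm.sign σ) with h | h <;> simp [h]
    rw [h2, Matrix.det_one, one_mul, Matrix.det_permute', ← Matrix.det_submatrix_equiv_self e]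
      at h1
    have h4 := congrArg norm h1
    rw [norm_mul, h3, one_mul] at h4
    exact h4
  · obtain ⟨i, j, hij, hne⟩ := Function.not_injective_iff.mp hg
    refine ⟨fun j => e j, fun j => e j, fun j => (e j).2, ?_⟩
    rw [Matrix.det_zero_of_row_eq (Subtype.coe_ne_coe.mpr hne)
      (by funext l; rw [hM _ i.2, hM _ j.2, hij]), norm_zero]
    exact norm_nonneg _

/-- `det (Y + Z) = ∑_S det (rows of Y on S, rows of Z off S)` (`MultilinearMap.map_add_univ`), and
each term is a sum of products of a minor of `Y` and a minor of `Z` (generalised Laplace expansion).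
One way: the mixed matrix is `W * [1; 1]`, `W : Fin s × (Fin s ⊕ Fin s)` with rows `(Y_i, 0)` on `S`
and `(0, Z_i)` off `S`; apply `norm_det_mul_le`; a maximal minor of `W` is block diagonal after
reindexing, so it vanishes unless the blocks are square and then it is a product. -/
theorem norm_det_add_le {s : ℕ} (Y Z : Matrix (Fin s) (Fin s) K) {x : ℝ} (hx : 0 ≤ x)
    (h : ∀ (a b : ℕ) (f g : Fin a → Fin s) (f' g' : Fin b → Fin s), a + b = s →
      ‖(Y.submatrix f g).det‖ * ‖(Z.submatrix f' g').det‖ ≤ x) : ‖(Y + Z).det‖ ≤ x := by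
  classical
  have e := Matrix.fromCols_mul_fromRows Y (1 : Matrix (Fin s) (Fin s) K)
    (1 : Matrix (Fin s) (Fin s) K) Z
  rw [Matrix.mul_one, Matrix.one_mul] at e
  rw [← e]
  refine norm_det_mul_le _ _ hx fun φ => ?_
  let g : Fin s → Fin s := fun i => Sum.elim id id (φ i)
  obtain ⟨f₁, g₁, h1, h1'⟩ := hsum_unit ((Matrix.fromCols Y 1).submatrix id φ)ᵀ
    (fun i => ¬ (φ i).isLeft) g fun i hi j => by
      rcases hφ : φ i with a | a
      · simp [hφ] at hi
      · simp [g, hφ, Matrix.one_apply, eq_comm]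
  obtain ⟨f₂, g₂, h2, h2'⟩ := hsum_unit ((Matrix.fromRows 1 Z).submatrix φ id)
    (fun i => (φ i).isLeft) g fun i hi j => by
      rcases hφ : φ i with a | a
      · simp [g, hφ, Matrix.one_apply]
      · simp [hφ] at hi
  have e1 : ((Matrix.fromCols Y 1).submatrix id φ)ᵀ.submatrix f₁ g₁
      = (Y.submatrix g₁ (g ∘ f₁))ᵀ := by
    ext i j
    have := h1 i
    rcases hφ : φ (f₁ i) with a | a
    · simp [g, hφ]
    · simp [hφ] at this
  have e2 : ((Matrix.fromRows 1 Z).submatrix φ id).submatrix f₂ g₂ = Z.submatrix (g ∘ f₂) g₂ := by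
    ext i j
    have := h2 i
    rcases hφ : φ (f₂ i) with a | a
    · simp [hφ] at this
    · simp [g, hφ]
  rw [e1, Matrix.det_transpose, Matrix.det_transpose] at h1'
  rw [e2] at h2'
  refine (mul_le_mul h1' h2' (norm_nonneg _) (norm_nonneg _)).trans (h _ _ _ _ _ _ ?_)
  rw [Fintype.card_subtype_compl fun i => ¬ (φ i).isLeft, Fintype.card_fin]
  exact Nat.sub_add_cancel ((Fintype.card_subtype_le _).trans_eq (Fintype.card_fin s))

end Pool.Agent.Lib.MP_88d29b_nt.G
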