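import Pool.Agent.Lib.MP_88d29b_nt.HSum
import Pool.Agent.Lib.MP_88d29b_nt.HMinor

set_option autoImplicit false

noncomputable section

namespace Pool.Agent.Lib.MP_88d29b_nt.G

open Finset CongruenceSubgroup Matrix
open scoped MatrixGroups

variable {K : Type} [NormedField K] [IsUltrametricDist K] {m n k : Type}

omit [IsUltrametricDist K] in
theorem EntLe.mono {Y : Matrix m n K} {x y : ℝ} (h : EntLe Y x) (hxy : x ≤ y) : EntLe Y y :=
  fun i j => (h i j).trans hxy

theorem EntLe.add {Y Z : Matrix m n K} {x : ℝ} (h : EntLe Y x) (h' : EntLe Z x) :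
    EntLe (Y + Z) x := fun i j => by
  rw [Matrix.add_apply]
  exact (IsUltrametricDist.norm_add_le_max _ _).trans (max_le (h i j) (h' i j))

theorem EntLe.sub {Y Z : Matrix m n K} {x : ℝ} (h : EntLe Y x) (h' : EntLe Z x) :
    EntLe (Y - Z) x := by
  rw [sub_eq_add_neg]
  exact h.add fun i j => by rw [Matrix.neg_apply, norm_neg]; exact h' i j

omit [IsUltrametricDist K] in
theorem EntLe.smul {Y : Matrix m n K} {x : ℝ} (a : K) (h : EntLe Y x) :
    EntLe (a • Y) (‖a‖ * x) := fun i j => by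
  rw [Matrix.smul_apply, smul_eq_mul, norm_mul]
  exact mul_le_mul_of_nonneg_left (h i j) (norm_nonneg _)

theorem EntLe.mul [Fintype k] {Y : Matrix m k K} {Z : Matrix k n K} {x y : ℝ} (hx : 0 ≤ x)
    (hy : 0 ≤ y) (h : EntLe Y x) (h' : EntLe Z y) : EntLe (Y * Z) (x * y) := fun i j => by
  rw [Matrix.mul_apply]
  refine IsUltrametricDist.norm_sum_le_of_forall_le_of_nonneg (mul_nonneg hx hy) fun l _ => ?_
  rw [norm_mul]
  exact mul_le_mul (h i l) (h' l j) (norm_nonneg _) hx

omit [IsUltrametricDist K] in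
theorem entLe_one [DecidableEq n] : EntLe (1 : Matrix n n K) 1 := fun i j => by
  rw [Matrix.one_apply]
  split_ifs <;> simp

theorem EntLe.pow [Fintype n] [DecidableEq n] {Y : Matrix n n K} {x : ℝ} (hx : 0 ≤ x)
    (h : EntLe Y x) (j : ℕ) : EntLe (Y ^ j) (x ^ j) := by
  induction j with
  | zero => simpa using (entLe_one : EntLe (1 : Matrix n n K) 1)
  | succ j ih =>
    rw [pow_succ, pow_succ]
    exact EntLe.mul (pow_nonneg hx j) hx ih h

theorem entLe_zm (A : Matrix m n ℤ) : EntLe (zm K A) 1 := fun i j =>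
  IsUltrametricDist.norm_intCast_le_one K (A i j)

omit [IsUltrametricDist K] in
theorem VolLe.one_le {Y : Matrix m n K} {x : ℝ} (h : VolLe Y x) : 1 ≤ x := by
  have := h 0 Fin.elim0 Fin.elim0
  simpa using this

omit [IsUltrametricDist K] in
theorem VolLe.mono {Y : Matrix m n K} {x y : ℝ} (h : VolLe Y x) (hxy : x ≤ y) : VolLe Y y :=
  fun s f g => (h s f g).trans hxy

omit [IsUltrametricDist K] in
theorem VolLe.submatrix {m' n' : Type} {Y : Matrix m n K} {x : ℝ} (h : VolLe Y x) (f : m' → m)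
    (g : n' → n) : VolLe (Y.submatrix f g) x := fun s f' g' => by
  rw [Matrix.submatrix_submatrix]
  exact h s _ _

omit [IsUltrametricDist K] in
theorem VolLe.det_le [Fintype n] [DecidableEq n] {Y : Matrix n n K} {x : ℝ} (h : VolLe Y x) :
    ‖Y.det‖ ≤ x := by
  have e := (Fintype.equivFin n).symm
  rw [← Matrix.det_submatrix_equiv_self e]
  exact h _ e e

theorem VolLe.mul [Fintype k] {Y : Matrix m k K} {Z : Matrix k n K} {x y : ℝ} (h : VolLe Y x)
    (h' : VolLe Z y) : VolLe (Y * Z) (x * y) := fun s f g => by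
  have hx : 0 ≤ x := zero_le_one.trans h.one_le
  have hy : 0 ≤ y := zero_le_one.trans h'.one_le
  have e : (Y * Z).submatrix f g = Y.submatrix f id * Z.submatrix id g := by
    ext i j
    simp [Matrix.mul_apply]
  rw [e]
  refine norm_det_mul_le _ _ (mul_nonneg hx hy) fun φ => ?_
  rw [Matrix.submatrix_submatrix, Matrix.submatrix_submatrix]
  exact mul_le_mul (h s _ _) (h' s _ _) (norm_nonneg _) hx

theorem VolLe.add {Y Z : Matrix m n K} {x y : ℝ} (h : VolLe Y x) (h' : VolLe Z y) :
    VolLe (Y + Z) (x * y) := fun s f g => by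
  have hx : 0 ≤ x := zero_le_one.trans h.one_le
  have hy : 0 ≤ y := zero_le_one.trans h'.one_le
  have e : (Y + Z).submatrix f g = Y.submatrix f g + Z.submatrix f g := rfl
  rw [e]
  refine norm_det_add_le _ _ (mul_nonneg hx hy) fun a b f1 g1 f2 g2 _ => ?_
  rw [Matrix.submatrix_submatrix, Matrix.submatrix_submatrix]
  exact mul_le_mul (h a _ _) (h' b _ _) (norm_nonneg _) hx

theorem EntLe.volLe {Y : Matrix m n K} (h : EntLe Y 1) : VolLe Y 1 := fun s f g => by
  have := norm_det_le_pow (Y.submatrix f g) zero_le_one (fun i j => h (f i) (g j))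
  simpa using this

theorem volLe_of_rank [Fintype m] [Fintype n] {Y : Matrix m n K} {q : ℕ} {x : ℝ} (hq : Y.rank ≤ q)
    (h : EntLe Y x) (hx : 1 ≤ x) : VolLe Y (x ^ q) := fun s f g => by
  by_cases hs : s ≤ q
  · have := norm_det_le_pow (Y.submatrix f g) (zero_le_one.trans hx) (fun i j => h (f i) (g j))
    rw [Fintype.card_fin] at this
    exact this.trans (pow_le_pow_right₀ hx hs)
  · rw [det_minor_eq_zero Y (lt_of_le_of_lt hq (not_le.1 hs)) f g, norm_zero]
    exact pow_nonneg (zero_le_one.trans hx) q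

omit [IsUltrametricDist K] in
theorem hvol_neg {Y : Matrix m n K} {x : ℝ} (h : VolLe Y x) : VolLe (-Y) x := fun s f g => by
  have e : (-Y).submatrix f g = -(Y.submatrix f g) := rfl
  rw [e, Matrix.det_neg, norm_mul, norm_pow, norm_neg, norm_one, one_pow, one_mul]
  exact h s f g

theorem VolLe.det_one_sub [Fintype n] [DecidableEq n] {Y : Matrix n n K} {x : ℝ} (h : VolLe Y x) :
    ‖(1 - Y).det‖ ≤ x := by
  have h1 := ((entLe_one : EntLe (1 : Matrix n n K) 1).volLe.add (hvol_neg h)).det_le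
  rwa [one_mul, ← sub_eq_add_neg] at h1

theorem hvol_prod_sub {ι : Type} (s : Finset ι) (a b : ι → K) (ha : ∀ i, ‖a i‖ ≤ 1)
    (hb : ∀ i, ‖b i‖ ≤ 1) (hab : ∀ i, ‖a i - b i‖ < 1) :
    ‖∏ i ∈ s, a i - ∏ i ∈ s, b i‖ < 1 := by
  classical
  induction s using Finset.induction_on with
  | empty => simp
  | insert i s hi ih =>
    rw [Finset.prod_insert hi, Finset.prod_insert hi]
    have e : a i * ∏ j ∈ s, a j - b i * ∏ j ∈ s, b j =
        a i * (∏ j ∈ s, a j - ∏ j ∈ s, b j) + (a i - b i) * ∏ j ∈ s, b j := by ring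
    rw [e]
    refine lt_of_le_of_lt (IsUltrametricDist.norm_add_le_max _ _) (max_lt ?_ ?_)
    · rw [norm_mul]
      exact lt_of_le_of_lt (mul_le_of_le_one_left (norm_nonneg _) (ha i)) ih
    · rw [norm_mul]
      refine lt_of_le_of_lt (mul_le_of_le_one_right (norm_nonneg _) ?_) (hab i)
      rw [norm_prod]
      exact Finset.prod_le_one (fun j _ => norm_nonneg _) fun j _ => hb j

theorem hvol_sum_lt {ι : Type} (s : Finset ι) (a : ι → K) (ha : ∀ i, ‖a i‖ < 1) :
    ‖∑ i ∈ s, a i‖ < 1 := by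
  classical
  induction s using Finset.induction_on with
  | empty => simp
  | insert i s hi ih =>
    rw [Finset.sum_insert hi]
    exact lt_of_le_of_lt (IsUltrametricDist.norm_add_le_max _ _) (max_lt (ha i) ih)

/-- A matrix congruent to `1` has determinant of norm one. -/
theorem norm_det_one_add' [Fintype n] [DecidableEq n] (H : Matrix n n K) (h : ∀ i j, ‖H i j‖ < 1) :
    ‖(1 + H).det‖ = 1 := by
  have h1 : EntLe (1 : Matrix n n K) 1 := entLe_one
  have h2 : EntLe (1 + H) 1 := h1.add fun i j => (h i j).le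
  have h3 : ‖(1 + H).det - (1 : Matrix n n K).det‖ < 1 := by
    rw [Matrix.det_apply, Matrix.det_apply, ← Finset.sum_sub_distrib]
    refine hvol_sum_lt _ _ fun σ => ?_
    rw [← smul_sub]
    have h4 := hvol_prod_sub Finset.univ (fun i => (1 + H) (σ i) i)
      (fun i => (1 : Matrix n n K) (σ i) i) (fun i => h2 _ _) (fun i => h1 _ _)
      (fun i => by simpa using h (σ i) i)
    rcases Int.units_eq_one_or (Equiv.Perm.sign σ) with hs | hs
    · rw [hs, one_smul]
      exact h4
    · rw [hs, Units.neg_smul, one_smul, norm_neg]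
      exact h4
  rw [Matrix.det_one] at h3
  have e : (1 + H).det = 1 + ((1 + H).det - 1) := by ring
  rw [e, IsUltrametricDist.norm_add_eq_max_of_norm_ne_norm (by rw [norm_one]; exact h3.ne'),
    norm_one]
  exact max_eq_left h3.le

end Pool.Agent.Lib.MP_88d29b_nt.G
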