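import Mathlib

/-!
The Hecke operator `T_2` on cusp forms of level one, its eigenvalues and their `2`-adic slopes.
-/

set_option autoImplicit false

noncomputable section

namespace Pool.Agent.Lib.MP_88d29b_nt

open UpperHalfPlane ModularGroup Filter Topology
open scoped MatrixGroups ModularForm Manifold

/-- The point `2 z`. -/
def dbl (z : ℍ) : ℍ := ⟨2 * (z : ℂ), by simpa using z.im_pos⟩

/-- The point `z / 2`. -/
def hlf (z : ℍ) : ℍ := ⟨(z : ℂ) / 2, by simpa using z.im_pos⟩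

/-- The point `(z + 1) / 2`. -/
def hlfOne (z : ℍ) : ℍ := ⟨((z : ℂ) + 1) / 2, by simpa using z.im_pos⟩

/-- The classical formula
`(T_2 f)(z) = 2 ^ (k - 1) f(2 z) + (f(z / 2) + f((z + 1) / 2)) / 2`. -/
def heckeFun (k : ℤ) (f : ℍ → ℂ) (z : ℍ) : ℂ :=
  2 ^ (k - 1) * f (dbl z) + (f (hlf z) + f (hlfOne z)) / 2

@[simp] lemma coe_dbl (z : ℍ) : (dbl z : ℂ) = 2 * z := rfl
@[simp] lemma coe_hlf (z : ℍ) : (hlf z : ℂ) = z / 2 := rfl
@[simp] lemma coe_hlfOne (z : ℍ) : (hlfOne z : ℂ) = (z + 1) / 2 := rfl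

lemma coe_S_smul (z : ℍ) : ((S • z : ℍ) : ℂ) = -(z : ℂ)⁻¹ := by
  rw [modular_S_smul]
  simp [inv_neg]

lemma coe_T_smul (z : ℍ) : ((T • z : ℍ) : ℂ) = z + 1 := by
  rw [modular_T_smul]
  simp [add_comm]

lemma dbl_S (z : ℍ) : dbl (S • z) = S • hlf z := by
  ext1
  have := z.ne_zero
  simp only [coe_dbl, coe_S_smul, coe_hlf]
  field_simp

lemma hlf_S (z : ℍ) : hlf (S • z) = S • dbl z := by
  ext1
  have := z.ne_zero
  simp only [coe_dbl, coe_S_smul, coe_hlf]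
  field_simp

lemma hlfOne_S (z : ℍ) : T • T • S • hlfOne (S • z) = S • T⁻¹ • hlfOne z := by
  have h1 : ((T⁻¹ • hlfOne z : ℍ) : ℂ) = (z - 1) / 2 := by
    have := coe_T_smul (T⁻¹ • hlfOne z)
    rw [smul_inv_smul, coe_hlfOne] at this
    linear_combination -this
  have h2 := (T⁻¹ • hlfOne z).ne_zero
  have h3 := z.ne_zero
  rw [h1] at h2
  have h4 : (z : ℂ) - 1 ≠ 0 := fun h => h2 (by rw [h]; simp)
  have h5 : -1 + (z : ℂ) ≠ 0 := fun h => h4 (by linear_combination h)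
  ext1
  simp only [coe_S_smul, coe_T_smul, coe_hlfOne, h1]
  field_simp
  ring

lemma dbl_T (z : ℍ) : dbl (T • z) = T • T • dbl z := by
  ext1
  simp only [coe_dbl, coe_T_smul]
  ring

lemma hlf_T (z : ℍ) : hlf (T • z) = hlfOne z := by
  ext1
  simp only [coe_hlf, coe_T_smul, coe_hlfOne]

lemma hlfOne_T (z : ℍ) : hlfOne (T • z) = T • hlf z := by
  ext1
  simp only [coe_hlf, coe_T_smul, coe_hlfOne]
  ring

lemma hlf_dbl (z : ℍ) : hlf (dbl z) = z := by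
  ext1
  simp

lemma dbl_hlf (z : ℍ) : dbl (hlf z) = z := by
  ext1
  simp only [coe_dbl, coe_hlf]
  ring

lemma dbl_hlfOne (z : ℍ) : dbl (hlfOne z) = T • z := by
  ext1
  simp only [coe_dbl, coe_hlfOne, coe_T_smul]
  ring

/-- The transformation laws of weight `k` under the two generators. -/
structure WInv (k : ℤ) (f : ℍ → ℂ) : Prop where
  hS : ∀ z : ℍ, f (S • z) = (z : ℂ) ^ k * f z
  hT : ∀ z : ℍ, f (T • z) = f z

lemma inv_of_form {F : Type*} [FunLike F ℍ ℂ] {k : ℤ} [SlashInvariantFormClass F 𝒮ℒ k] (f : F) :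
    WInv k f := by
  have : SlashInvariantFormClass F (CongruenceSubgroup.Gamma 1) k :=
    CongruenceSubgroup.Gamma_one_coe_eq_SL ▸ ‹_›
  constructor
  · intro z
    simpa using SlashInvariantForm.slash_action_eqn_SL'' f (CongruenceSubgroup.mem_Gamma_one S) z
  · intro z
    simpa [T, denom_apply] using
      SlashInvariantForm.slash_action_eqn_SL'' f (CongruenceSubgroup.mem_Gamma_one T) z

lemma WInv.slash {k : ℤ} {f : ℍ → ℂ} (h : WInv k f) (γ : SL(2, ℤ)) : f ∣[k] γ = f := by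
  refine SlashInvariantForm.slash_action_generators_SL2Z ?_ ?_ γ
  · ext z
    have := z.ne_zero
    rw [ModularForm.SL_slash_apply, h.hS, denom_S, zpow_neg]
    field_simp
  · ext z
    rw [ModularForm.SL_slash_apply, h.hT]
    simp [T, denom_apply]

lemma WInv.hT_inv {k : ℤ} {f : ℍ → ℂ} (h : WInv k f) (z : ℍ) : f (T⁻¹ • z) = f z := by
  rw [← h.hT (T⁻¹ • z), smul_inv_smul]

lemma WInv.dbl_S {k : ℤ} {f : ℍ → ℂ} (h : WInv k f) (z : ℍ) :
    2 ^ k * f (dbl (S • z)) = (z : ℂ) ^ k * f (hlf z) := by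
  rw [Pool.Agent.Lib.MP_88d29b_nt.dbl_S, h.hS, coe_hlf, div_zpow]
  have : (2 : ℂ) ^ k ≠ 0 := zpow_ne_zero _ two_ne_zero
  field_simp

lemma WInv.hlf_S {k : ℤ} {f : ℍ → ℂ} (h : WInv k f) (z : ℍ) :
    f (hlf (S • z)) = (z : ℂ) ^ k * (2 ^ k * f (dbl z)) := by
  rw [Pool.Agent.Lib.MP_88d29b_nt.hlf_S, h.hS, coe_dbl, mul_zpow]
  ring

lemma WInv.hlfOne_S {k : ℤ} {f : ℍ → ℂ} (h : WInv k f) (z : ℍ) :
    f (hlfOne (S • z)) = (z : ℂ) ^ k * f (hlfOne z) := by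
  have h1 : ((T⁻¹ • hlfOne z : ℍ) : ℂ) = (z - 1) / 2 := by
    have := coe_T_smul (T⁻¹ • hlfOne z)
    rw [smul_inv_smul, coe_hlfOne] at this
    linear_combination -this
  have h2 := (T⁻¹ • hlfOne z).ne_zero
  have h3 := z.ne_zero
  have h0 := congrArg f (Pool.Agent.Lib.MP_88d29b_nt.hlfOne_S z)
  rw [h.hT, h.hT, h.hS, h.hS, h.hT_inv] at h0
  have h4 : ((T⁻¹ • hlfOne z : ℍ) : ℂ) = z * (hlfOne (S • z) : ℂ) := by
    rw [h1, coe_hlfOne, coe_S_smul]
    field_simp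
    ring
  rw [h4, mul_zpow] at h0
  have h5 : (hlfOne (S • z) : ℂ) ^ k ≠ 0 := zpow_ne_zero _ (hlfOne (S • z)).ne_zero
  apply mul_left_cancel₀ h5
  linear_combination h0

lemma WInv.dbl_T {k : ℤ} {f : ℍ → ℂ} (h : WInv k f) (z : ℍ) : f (dbl (T • z)) = f (dbl z) := by
  rw [Pool.Agent.Lib.MP_88d29b_nt.dbl_T, h.hT, h.hT]

lemma WInv.hlfOne_T {k : ℤ} {f : ℍ → ℂ} (h : WInv k f) (z : ℍ) :
    f (hlfOne (T • z)) = f (hlf z) := by
  rw [Pool.Agent.Lib.MP_88d29b_nt.hlfOne_T, h.hT]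

lemma WInv.hecke {k : ℤ} {f : ℍ → ℂ} (h : WInv k f) : WInv k (heckeFun k f) := by
  have e : (2 : ℂ) ^ (k - 1) = 2 ^ k / 2 := by rw [zpow_sub_one₀ two_ne_zero, div_eq_mul_inv]
  constructor
  · intro z
    simp only [heckeFun, e, h.hlf_S, h.hlfOne_S]
    linear_combination (1 / 2 : ℂ) * h.dbl_S z
  · intro z
    simp only [heckeFun, h.dbl_T, h.hlfOne_T, hlf_T]
    ring

lemma mdiff_aff {φ : ℍ → ℍ} (a b : ℂ) (hφ : ∀ z : ℍ, (φ z : ℂ) = a * z + b) {f : ℍ → ℂ}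
    (hf : MDifferentiable 𝓘(ℂ) 𝓘(ℂ) f) : MDifferentiable 𝓘(ℂ) 𝓘(ℂ) (fun z => f (φ z)) := by
  rw [UpperHalfPlane.mdifferentiable_iff] at hf ⊢
  have h1 : DifferentiableOn ℂ ((f ∘ ofComplex) ∘ fun w : ℂ => a * w + b) {z | 0 < z.im} := by
    refine hf.comp (by fun_prop) (fun w hw => ?_)
    have := (φ ⟨w, hw⟩).im_pos
    rw [← coe_im, hφ] at this
    exact this
  refine h1.congr (fun w hw => ?_)
  have h2 : a * w + b = (φ ⟨w, hw⟩ : ℂ) := (hφ ⟨w, hw⟩).symm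
  simp only [Function.comp_apply, ofComplex_apply_of_im_pos hw, h2, ofComplex_apply]

lemma mdiff_dbl {f : ℍ → ℂ} (hf : MDifferentiable 𝓘(ℂ) 𝓘(ℂ) f) :
    MDifferentiable 𝓘(ℂ) 𝓘(ℂ) (fun z => f (dbl z)) :=
  mdiff_aff 2 0 (fun z => by simp) hf

lemma mdiff_hlf {f : ℍ → ℂ} (hf : MDifferentiable 𝓘(ℂ) 𝓘(ℂ) f) :
    MDifferentiable 𝓘(ℂ) 𝓘(ℂ) (fun z => f (hlf z)) :=
  mdiff_aff (1 / 2) 0 (fun z => by simp only [coe_hlf]; ring) hf

lemma mdiff_hlfOne {f : ℍ → ℂ} (hf : MDifferentiable 𝓘(ℂ) 𝓘(ℂ) f) :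
    MDifferentiable 𝓘(ℂ) 𝓘(ℂ) (fun z => f (hlfOne z)) :=
  mdiff_aff (1 / 2) (1 / 2) (fun z => by simp only [coe_hlfOne]; ring) hf

lemma mdiff_hecke (k : ℤ) {f : ℍ → ℂ} (hf : MDifferentiable 𝓘(ℂ) 𝓘(ℂ) f) :
    MDifferentiable 𝓘(ℂ) 𝓘(ℂ) (heckeFun k f) := by
  have h1 := mdiff_dbl hf
  have h2 := mdiff_hlf hf
  have h3 := mdiff_hlfOne hf
  have : heckeFun k f = ((2 : ℂ) ^ (k - 1)) • (fun z => f (dbl z)) +
      (1 / 2 : ℂ) • ((fun z => f (hlf z)) + fun z => f (hlfOne z)) := by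
    ext z
    simp only [heckeFun, Pi.add_apply, Pi.smul_apply, smul_eq_mul]
    ring
  rw [this]
  exact (h1.const_smul _).add ((h2.add h3).const_smul _)

lemma tendsto_of_im {φ : ℍ → ℍ} (hφ : ∀ z : ℍ, z.im / 2 ≤ (φ z).im) :
    Tendsto φ atImInfty atImInfty := by
  intro U hU
  obtain ⟨A, hA⟩ := (atImInfty_mem U).mp hU
  rw [mem_map, atImInfty_mem]
  exact ⟨2 * A, fun z hz => hA _ (by have := hφ z; linarith)⟩

lemma tendsto_dbl : Tendsto dbl atImInfty atImInfty :=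
  tendsto_of_im (fun z => by
    have := z.im_pos
    have h : (dbl z).im = 2 * z.im := by rw [← coe_im, coe_dbl]; simp
    linarith)

lemma tendsto_hlf : Tendsto hlf atImInfty atImInfty :=
  tendsto_of_im (fun z => by
    have h : (hlf z).im = z.im / 2 := by rw [← coe_im, coe_hlf]; simp
    linarith)

lemma tendsto_hlfOne : Tendsto hlfOne atImInfty atImInfty :=
  tendsto_of_im (fun z => by
    have h : (hlfOne z).im = z.im / 2 := by rw [← coe_im, coe_hlfOne]; simp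
    linarith)

lemma tendsto_hecke (k : ℤ) {f : ℍ → ℂ} {c : ℂ} (hf : Tendsto f atImInfty (𝓝 c)) :
    Tendsto (heckeFun k f) atImInfty (𝓝 ((2 ^ (k - 1) + 1) * c)) := by
  have h := ((hf.comp tendsto_dbl).const_mul ((2 : ℂ) ^ (k - 1))).add
    (((hf.comp tendsto_hlf).add (hf.comp tendsto_hlfOne)).div_const 2)
  have e : (2 : ℂ) ^ (k - 1) * c + (c + c) / 2 = (2 ^ (k - 1) + 1) * c := by ring
  rw [e] at h
  exact h

/-- A level one cusp form from a function with the right properties. -/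
def mkCusp (k : ℤ) (f : ℍ → ℂ) (h1 : WInv k f) (h2 : MDifferentiable 𝓘(ℂ) 𝓘(ℂ) f)
    (h3 : Tendsto f atImInfty (𝓝 0)) : CuspForm 𝒮ℒ k where
  toFun := f
  slash_action_eq' A hA := by
    obtain ⟨A, rfl⟩ := hA
    exact h1.slash A
  holo' := h2
  zero_at_cusps' hc := by
    rw [Subgroup.IsArithmetic.isCusp_iff_isCusp_SL2Z] at hc
    rw [OnePoint.isZeroAt_iff_forall_SL2Z hc]
    intro γ _
    rw [h1.slash]
    exact h3

/-- The Hecke operator `T_2` on the space of cusp forms of weight `k` for `SL(2, ℤ)`. -/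
def hecke (k : ℤ) : CuspForm 𝒮ℒ k →ₗ[ℂ] CuspForm 𝒮ℒ k where
  toFun f := mkCusp k (heckeFun k f) (inv_of_form f).hecke (mdiff_hecke k f.holo')
    (by simpa using tendsto_hecke k (CuspFormClass.zero_at_infty f))
  map_add' f g := by
    ext z
    change heckeFun k (⇑(f + g)) z = heckeFun k f z + heckeFun k g z
    simp only [heckeFun, add_apply]
    ring
  map_smul' c f := by
    ext z
    change heckeFun k (⇑(c • f)) z = c * heckeFun k f z
    simp only [heckeFun, smul_apply, smul_eq_mul]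
    ring

lemma hecke_apply (k : ℤ) (f : CuspForm 𝒮ℒ k) (z : ℍ) : hecke k f z = heckeFun k f z := rfl

lemma finite_cusp (k : ℤ) : Module.Finite ℂ (CuspForm 𝒮ℒ k) :=
  Module.Finite.of_injective _ CuspForm.toModularFormₗ_injective

/-- The eigenvalues of `T_2` on cusp forms of weight `k` and level one, with multiplicity: the
roots of the characteristic polynomial. -/
def eigenvalues (k : ℕ) : Multiset ℂ :=
  haveI := finite_cusp k
  (hecke k).charpoly.roots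

/-- The complex number `z` is algebraic, nonzero, and its normalised slope
`(3 / k) * v_2(z)` lies in `[a, b]`, where `v_2 = - log_2 ‖ι ·‖` is the valuation with
`v_2(2) = 1` attached to the embedding `ι` of the algebraic numbers into `\bar ℚ_2`. -/
def SlopeIn (ι : algebraicClosure ℚ ℂ →+* PadicAlgCl 2) (k : ℕ) (a b : ℝ) (z : ℂ) : Prop :=
  ∃ x : algebraicClosure ℚ ℂ, (x : ℂ) = z ∧ x ≠ 0 ∧
    (3 / (k : ℝ)) * (-Real.logb 2 ‖ι x‖) ∈ Set.Icc a b

open Classical in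
/-- The number of elements of `X_T` in `[a, b]`. -/
def countIn (ι : algebraicClosure ℚ ℂ →+* PadicAlgCl 2) (a b : ℝ) (T : ℕ) : ℕ :=
  ∑ k ∈ Finset.Icc 2 T, ((eigenvalues k).filter (SlopeIn ι k a b)).card

/-- The number of elements of `X_T`. -/
def countAll (T : ℕ) : ℕ := ∑ k ∈ Finset.Icc 2 T, (eigenvalues k).card

end Pool.Agent.Lib.MP_88d29b_nt
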