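import Pool.Agent.Lib.MP_88d29b_nt.Defs

set_option autoImplicit false

noncomputable section

namespace Pool.Agent.Lib.MP_88d29b_nt

open Finset UpperHalfPlane ModularGroup Filter Topology
open scoped MatrixGroups ModularForm Manifold


lemma inv_e4 : WInv 4 e4 := inv_of_form ModularForm.E₄

lemma inv_e6 : WInv 6 e6 := inv_of_form ModularForm.E₆

lemma mdiff_e4 : MDifferentiable 𝓘(ℂ) 𝓘(ℂ) e4 := ModularForm.E₄.holo'

lemma mdiff_e6 : MDifferentiable 𝓘(ℂ) 𝓘(ℂ) e6 := ModularForm.E₆.holo'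

/-- A level one modular form tends to the constant term of its `q`-expansion
(`ModularFormClass.analyticAt_cuspFunction_zero`, `qParam_tendsto_atImInfty`, see the proof of
`ModularForm.isZeroAtImInfty_of_valueAtInfty_eq_zero`). -/
lemma tendsto_form {k : ℤ} (f : ModularForm 𝒮ℒ k) :
    Tendsto f atImInfty (𝓝 ((qExpansion 1 f).coeff 0)) := by
  have hanal := ModularFormClass.analyticAt_cuspFunction_zero f one_pos one_mem_strictPeriods_SL
  have hper := SlashInvariantFormClass.periodic_comp_ofComplex f one_mem_strictPeriods_SL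
  rw [qExpansion_coeff_zero one_pos hanal hper, ← cuspFunction_apply_zero one_pos hanal hper]
  exact (hanal.continuousAt.tendsto.comp (qParam_tendsto_atImInfty one_pos)).congr
    (fun τ => SlashInvariantFormClass.eq_cuspFunction f τ one_mem_strictPeriods_SL one_ne_zero)

lemma tendsto_e4 : Tendsto e4 atImInfty (𝓝 1) := by
  have h := tendsto_form ModularForm.E₄
  rwa [EisensteinSeries.E_qExpansion_coeff_zero _ ⟨2, rfl⟩] at h

lemma tendsto_e6 : Tendsto e6 atImInfty (𝓝 1) := by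
  have h := tendsto_form ModularForm.E₆
  rwa [EisensteinSeries.E_qExpansion_coeff_zero _ ⟨3, rfl⟩] at h

lemma WInv.mul {k l : ℤ} {f g : ℍ → ℂ} (hf : WInv k f) (hg : WInv l g) :
    WInv (k + l) (fun z => f z * g z) := by
  constructor
  · intro z
    rw [hf.hS, hg.hS, zpow_add₀ z.ne_zero]
    ring
  · intro z
    rw [hf.hT, hg.hT]

/-- `mkCusp` and the vanishing of cusp forms of weight `< 12` and of weight `14`
(`CuspForm.discriminantEquiv`, `ModularForm.levelOne_weight_two_rank_zero`). -/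
lemma eq_zero_of_weight {k : ℤ} (hk : k < 12 ∨ k = 14) {f : ℍ → ℂ} (h1 : WInv k f)
    (h2 : MDifferentiable 𝓘(ℂ) 𝓘(ℂ) f) (h3 : Tendsto f atImInfty (𝓝 0)) (z : ℍ) : f z = 0 := by
  have hr : Module.rank ℂ (CuspForm 𝒮ℒ k) = 0 := by
    rcases hk with hk | rfl
    · exact CuspForm.rank_eq_zero_of_weight_lt_twelve hk
    · exact CuspForm.discriminantEquiv.rank_eq.trans ModularForm.levelOne_weight_two_rank_zero
  have h0 := rank_zero_iff_forall_zero.mp hr (mkCusp k f h1 h2 h3)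
  exact congrArg (fun F : CuspForm 𝒮ℒ k => F z) h0

lemma ident1_inv {k : ℤ} {f : ℍ → ℂ} (h1 : WInv k f) :
    WInv k (fun z => heckeFun k f z - (2 ^ (k - 1) + 1) * f z) := by
  constructor
  · intro z
    rw [h1.hecke.hS, h1.hS]
    ring
  · intro z
    rw [h1.hecke.hT, h1.hT]

lemma ident1_mdiff (k : ℤ) {f : ℍ → ℂ} (h2 : MDifferentiable 𝓘(ℂ) 𝓘(ℂ) f) :
    MDifferentiable 𝓘(ℂ) 𝓘(ℂ) (fun z => heckeFun k f z - (2 ^ (k - 1) + 1) * f z) :=
  (mdiff_hecke k h2).sub (h2.const_smul ((2 : ℂ) ^ (k - 1) + 1))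

lemma ident1_tendsto (k : ℤ) {f : ℍ → ℂ} {c : ℂ} (h3 : Tendsto f atImInfty (𝓝 c)) :
    Tendsto (fun z => heckeFun k f z - (2 ^ (k - 1) + 1) * f z) atImInfty (𝓝 0) := by
  have h := (tendsto_hecke k h3).sub (h3.const_mul ((2 : ℂ) ^ (k - 1) + 1))
  rwa [sub_self] at h

lemma ident1_eigen {k : ℤ} (hk : k < 12 ∨ k = 14) {f : ℍ → ℂ} {c : ℂ} (h1 : WInv k f)
    (h2 : MDifferentiable 𝓘(ℂ) 𝓘(ℂ) f) (h3 : Tendsto f atImInfty (𝓝 c)) (z : ℍ) :
    heckeFun k f z - (2 ^ (k - 1) + 1) * f z = 0 :=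
  eq_zero_of_weight hk (ident1_inv h1) (ident1_mdiff k h2) (ident1_tendsto k h3) z

/-! The five relations below: apply `eq_zero_of_weight` to
`heckeFun k f - (2 ^ (k - 1) + 1) f` (`WInv.hecke`, `mdiff_hecke`, `tendsto_hecke`). -/

lemma rel4 (z : ℍ) : e4 (hlf z) + e4 (hlfOne z) + 16 * e4 (dbl z) = 18 * e4 z := by
  have h := ident1_eigen (Or.inl (by norm_num)) inv_e4 mdiff_e4 tendsto_e4 z
  have e : (2 : ℂ) ^ ((4 : ℤ) - 1) = 8 := by norm_num
  simp only [heckeFun, e] at h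
  linear_combination 2 * h

lemma rel6 (z : ℍ) : e6 (hlf z) + e6 (hlfOne z) + 64 * e6 (dbl z) = 66 * e6 z := by
  have h := ident1_eigen (Or.inl (by norm_num)) inv_e6 mdiff_e6 tendsto_e6 z
  have e : (2 : ℂ) ^ ((6 : ℤ) - 1) = 32 := by norm_num
  simp only [heckeFun, e] at h
  linear_combination 2 * h

lemma rel8 (z : ℍ) :
    e4 (hlf z) ^ 2 + e4 (hlfOne z) ^ 2 + 256 * e4 (dbl z) ^ 2 = 258 * e4 z ^ 2 := by
  have h := ident1_eigen (Or.inl (by norm_num)) (inv_e4.mul inv_e4) (mdiff_e4.mul mdiff_e4)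
    (tendsto_e4.mul tendsto_e4) z
  have e : (2 : ℂ) ^ ((4 : ℤ) + 4 - 1) = 128 := by norm_num
  simp only [heckeFun, e] at h
  linear_combination 2 * h

lemma rel10 (z : ℍ) :
    e4 (hlf z) * e6 (hlf z) + e4 (hlfOne z) * e6 (hlfOne z) + 1024 * (e4 (dbl z) * e6 (dbl z)) =
      1026 * (e4 z * e6 z) := by
  have h := ident1_eigen (Or.inl (by norm_num)) (inv_e4.mul inv_e6) (mdiff_e4.mul mdiff_e6)
    (tendsto_e4.mul tendsto_e6) z
  have e : (2 : ℂ) ^ ((4 : ℤ) + 6 - 1) = 512 := by norm_num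
  simp only [heckeFun, e] at h
  linear_combination 2 * h

lemma rel14 (z : ℍ) :
    e4 (hlf z) ^ 2 * e6 (hlf z) + e4 (hlfOne z) ^ 2 * e6 (hlfOne z) +
      16384 * (e4 (dbl z) ^ 2 * e6 (dbl z)) = 16386 * (e4 z ^ 2 * e6 z) := by
  have h := ident1_eigen (Or.inr (by norm_num)) ((inv_e4.mul inv_e4).mul inv_e6)
    ((mdiff_e4.mul mdiff_e4).mul mdiff_e6) ((tendsto_e4.mul tendsto_e4).mul tendsto_e6) z
  have e : (2 : ℂ) ^ ((4 : ℤ) + 4 + 6 - 1) = 8192 := by norm_num
  simp only [heckeFun, e] at h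
  linear_combination 2 * h

lemma ident1_ne_zero {f : ℍ → ℂ} (hf : Tendsto f atImInfty (𝓝 1)) : f ≠ 0 := by
  rintro rfl
  exact zero_ne_one (tendsto_nhds_unique tendsto_const_nhds hf)

lemma ident1_mdiff_uu : MDifferentiable 𝓘(ℂ) 𝓘(ℂ) uu := by
  have h : uu = (1 / 240 : ℂ) • (e4 - fun z => e4 (dbl z)) := by
    ext z
    simp only [uu, Pi.smul_apply, Pi.sub_apply, smul_eq_mul]
    ring
  rw [h]
  exact (mdiff_e4.sub (mdiff_dbl mdiff_e4)).const_smul _

lemma ident1_mdiff_ww : MDifferentiable 𝓘(ℂ) 𝓘(ℂ) ww := by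
  have h : ww = (1 / 15 : ℂ) • (((16 : ℂ) • fun z => e4 (dbl z)) - e4) := by
    ext z
    simp only [ww, Pi.smul_apply, Pi.sub_apply, smul_eq_mul]
    ring
  rw [h]
  exact (((mdiff_dbl mdiff_e4).const_smul _).sub mdiff_e4).const_smul _

lemma ident1_ww_ne : ww ≠ 0 := by
  refine ident1_ne_zero ?_
  have h := (((tendsto_e4.comp tendsto_dbl).const_mul 16).sub tendsto_e4).div_const 15
  have e : ((16 : ℂ) * 1 - 1) / 15 = 1 := by norm_num
  rw [e] at h
  exact h

lemma ident1_uu_ne : uu ≠ 0 := by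
  intro h
  have h1 : ∀ z, e4 (dbl z) = e4 z := fun z => by
    have := congrFun h z
    simp only [uu, Pi.zero_apply] at this
    linear_combination (-240) * this
  refine ident1_ne_zero tendsto_e4 (funext fun z => ?_)
  have h2 := inv_e4.dbl_S z
  rw [h1, inv_e4.hS, ← h1 (hlf z), dbl_hlf] at h2
  have h3 : (z : ℂ) ^ (4 : ℤ) ≠ 0 := zpow_ne_zero _ z.ne_zero
  have e : (2 : ℂ) ^ (4 : ℤ) = 16 := by norm_num
  rw [e] at h2
  apply mul_left_cancel₀ h3
  rw [Pi.zero_apply]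
  linear_combination (1 / 15 : ℂ) * h2

/-- With `E, A, B, C` the values of `e4` at `z, 2 z, z / 2, (z + 1) / 2`: the cusp form
`B^3 + C^3 + 4096 A^3 - 4098 E^3` of weight `12` is `y Δ`
(`CuspForm.exists_smul_discriminant_of_weight_eq_twelve`), and by `rel4`, `rel8` it equals
`-48 (E - A) (16 A - E) ^ 2 = -2592000 uu ww ^ 2` (`B C = 33 E^2 - 288 A E + 256 A^2`). If `y = 0`
then `uu * ww * ww = 0`, so by `UpperHalfPlane.mul_eq_zero_iff` either `ww = 0`, which contradicts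
`ww → 1`, or `uu = 0`; then `e4 z = e4 (2 ^ n z) → 1`, so `e4` is the constant `1`, which
contradicts `inv_e4.hS` at `z = 2 i`. -/
theorem delta_eq : ∃ c : ℂ, c ≠ 0 ∧ ∀ z : ℍ,
    ModularForm.discriminant z = c * (uu z * ww z ^ 2) := by
  have h1 : WInv 12 (fun z => e4 z * e4 z * e4 z) := (inv_e4.mul inv_e4).mul inv_e4
  have h2 : MDifferentiable 𝓘(ℂ) 𝓘(ℂ) (fun z => e4 z * e4 z * e4 z) :=
    (mdiff_e4.mul mdiff_e4).mul mdiff_e4
  have h3 := (tendsto_e4.mul tendsto_e4).mul tendsto_e4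
  obtain ⟨y, hy⟩ := CuspForm.exists_smul_discriminant_of_weight_eq_twelve
    (mkCusp 12 _ (ident1_inv h1) (ident1_mdiff 12 h2) (ident1_tendsto 12 h3))
  have key : ∀ z : ℍ, y * ModularForm.discriminant z = -1296000 * (uu z * ww z ^ 2) := by
    intro z
    have h4 : y * ModularForm.discriminant z =
        heckeFun 12 (fun z => e4 z * e4 z * e4 z) z -
          (2 ^ ((12 : ℤ) - 1) + 1) * (e4 z * e4 z * e4 z) :=
      congrArg (fun F : CuspForm 𝒮ℒ 12 => F z) hy
    have e : (2 : ℂ) ^ ((12 : ℤ) - 1) = 2048 := by norm_num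
    simp only [heckeFun, e] at h4
    have r4 := rel4 z
    have r8 := rel8 z
    simp only [uu, ww]
    rw [h4]
    generalize e4 z = E at *
    generalize e4 (dbl z) = A at *
    generalize e4 (hlf z) = B at *
    generalize e4 (hlfOne z) = C at *
    have hC : C = 18 * E - 16 * A - B := by linear_combination r4
    subst hC
    linear_combination (3 / 4 * (18 * E - 16 * A)) * r8
  have hy0 : y ≠ 0 := by
    rintro rfl
    have h5 : uu * (ww * ww) = 0 := by
      ext z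
      have := key z
      simp only [Pi.mul_apply, Pi.zero_apply]
      linear_combination (1 / 1296000 : ℂ) * this
    rcases (UpperHalfPlane.mul_eq_zero_iff ident1_mdiff_uu
      (ident1_mdiff_ww.mul ident1_mdiff_ww)).mp h5 with h | h
    · exact ident1_uu_ne h
    · rcases (UpperHalfPlane.mul_eq_zero_iff ident1_mdiff_ww ident1_mdiff_ww).mp h with h | h
      · exact ident1_ww_ne h
      · exact ident1_ww_ne h
  refine ⟨-1296000 / y, div_ne_zero (by norm_num) hy0, fun z => ?_⟩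
  apply mul_left_cancel₀ hy0
  rw [key]
  field_simp

end Pool.Agent.Lib.MP_88d29b_nt
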