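import Pool.Agent.Lib.MP_88d29b_nt.Ident1

set_option autoImplicit false

noncomputable section

namespace Pool.Agent.Lib.MP_88d29b_nt

open Finset UpperHalfPlane ModularGroup Filter Topology
open scoped MatrixGroups ModularForm Manifold


lemma uu_ne (z : ℍ) : uu z ≠ 0 := by
  obtain ⟨c, -, h⟩ := delta_eq
  intro h0
  exact ModularForm.discriminant_ne_zero z (by rw [h, h0, zero_mul, mul_zero])

lemma ww_ne (z : ℍ) : ww z ≠ 0 := by
  obtain ⟨c, -, h⟩ := delta_eq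
  intro h0
  exact ModularForm.discriminant_ne_zero z (by rw [h, h0]; simp)

lemma e4_eq (z : ℍ) : e4 z = ww z + 256 * uu z := by
  simp only [uu, ww]
  ring

lemma ident2_mul (z : ℍ) : e4 (hlf z) * e4 (hlfOne z) =
    33 * e4 z ^ 2 - 288 * (e4 (dbl z) * e4 z) + 256 * e4 (dbl z) ^ 2 := by
  linear_combination (1 / 2 : ℂ) * (e4 (hlf z) + e4 (hlfOne z) + 18 * e4 z - 16 * e4 (dbl z)) *
    rel4 z - (1 / 2 : ℂ) * rel8 z

lemma ident2_e6 (z : ℍ) : e6 (dbl z) = e6 z + 504 * uu z * ee z := by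
  have h := uu_ne z
  rw [ee]
  field_simp
  ring

/-! In the next four identities unfold `uu`, `ww`, use `dbl_hlf`, `dbl_hlfOne`, `inv_e4.hT` and
`linear_combination` of `rel4`, `rel8`. -/

lemma uu_add (z : ℍ) : uu (hlf z) + uu (hlfOne z) = 16 * uu z := by
  simp only [uu, dbl_hlf, dbl_hlfOne, inv_e4.hT]
  linear_combination (1 / 240 : ℂ) * rel4 z

lemma uu_mul (z : ℍ) : uu (hlf z) * uu (hlfOne z) = -(uu z * ww z) := by
  simp only [uu, ww, dbl_hlf, dbl_hlfOne, inv_e4.hT]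
  linear_combination (1 / 57600 : ℂ) * ident2_mul z - (e4 z / 57600) * rel4 z

lemma ww_hlf (z : ℍ) : ww (hlf z) = ww z + 16 * uu (hlfOne z) := by
  simp only [uu, ww, dbl_hlf, dbl_hlfOne, inv_e4.hT]
  linear_combination (-1 / 15 : ℂ) * rel4 z

lemma ww_hlfOne (z : ℍ) : ww (hlfOne z) = ww z + 16 * uu (hlf z) := by
  simp only [uu, ww, dbl_hlf, dbl_hlfOne, inv_e4.hT]
  linear_combination (-1 / 15 : ℂ) * rel4 z

/-- Eliminate the values of `e6` at `z / 2`, `(z + 1) / 2` from `rel6`, `rel10`, `rel14`: the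
combination `rel14 - (B + C) rel10 + B C rel6` gives
`64 A6 (16 A - B) (16 A - C) = E6 (16386 E^2 - 1026 E (B + C) + 66 B C)`, that is
`14400 ww (ww - 512 uu) A6 = 14400 ww (ww - 8 uu) E6`. Cancel `ww`, then use the definition of
`ee`. -/
lemma e6_eq (z : ℍ) : e6 z = ee z * (ww z - 512 * uu z) := by
  have key : ww z * ((ww z - 512 * uu z) * e6 (dbl z)) = ww z * ((ww z - 8 * uu z) * e6 z) := by
    simp only [uu, ww]
    linear_combination (1 / 14400 : ℂ) * (rel14 z - (e4 (hlf z) + e4 (hlfOne z)) * rel10 z +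
      e4 (hlf z) * e4 (hlfOne z) * rel6 z +
      (1024 * (e4 (dbl z) * e6 (dbl z)) - 1026 * (e4 z * e6 z)) * rel4 z -
      (64 * e6 (dbl z) - 66 * e6 z) * ident2_mul z)
  have h := mul_left_cancel₀ (ww_ne z) key
  rw [ident2_e6] at h
  apply mul_left_cancel₀ (uu_ne z)
  linear_combination (-1 / 504 : ℂ) * h

/-- `504 ee (hlf z) uu (hlf z) = E6 - B6` and similarly for `hlfOne`; use `rel6`. -/
lemma ee_uu_add (z : ℍ) :
    ee (hlf z) * uu (hlf z) + ee (hlfOne z) * uu (hlfOne z) = 64 * (uu z * ee z) := by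
  have h1 := ident2_e6 (hlf z)
  have h2 := ident2_e6 (hlfOne z)
  rw [dbl_hlf] at h1
  rw [dbl_hlfOne, inv_e6.hT] at h2
  linear_combination (-1 / 504 : ℂ) * (h1 + h2 + rel6 z - 64 * ident2_e6 z)

/-- Multiply by `uu (hlf z) * uu (hlfOne z) = -(uu z * ww z) ≠ 0` and use `rel4`, `rel6`, `rel10`,
`e6_eq` and `e6 (dbl z) = e6 z + 504 uu z ee z`. -/
lemma ee_add (z : ℍ) : ee (hlf z) + ee (hlfOne z) = 2 * ee z := by
  have h1 := ident2_e6 (hlf z)
  have h2 := ident2_e6 (hlfOne z)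
  rw [dbl_hlf] at h1
  rw [dbl_hlfOne, inv_e6.hT] at h2
  have hB : e4 (hlf z) = e4 z + 240 * uu (hlf z) := by
    simp only [uu, dbl_hlf]
    ring
  have hC : e4 (hlfOne z) = e4 z + 240 * uu (hlfOne z) := by
    simp only [uu, dbl_hlfOne, inv_e4.hT]
    ring
  have hA : e4 (dbl z) = ww z + 16 * uu z := by
    simp only [uu, ww]
    ring
  have h10 := rel10 z
  rw [hB, hC, hA, ident2_e6, ← sub_eq_iff_eq_add.mpr h1, ← sub_eq_iff_eq_add.mpr h2, e4_eq z,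
    e6_eq z] at h10
  apply mul_left_cancel₀ (mul_ne_zero (uu_ne (hlf z)) (uu_ne (hlfOne z)))
  linear_combination (1 / 120960 : ℂ) * h10 +
    (uu (hlf z) + uu (hlfOne z) + (ww z + 256 * uu z) / 240) * ee_uu_add z +
    (64 * (uu z * ee z) - ee z * (ww z - 512 * uu z) / 504) * uu_add z - 2 * ee z * uu_mul z

lemma mdiff_uu : MDifferentiable 𝓘(ℂ) 𝓘(ℂ) uu := by
  exact (mdiff_e4.sub (mdiff_dbl mdiff_e4)).div mdifferentiable_const fun _ => by norm_num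

lemma mdiff_ww : MDifferentiable 𝓘(ℂ) 𝓘(ℂ) ww := by
  exact ((mdifferentiable_const.mul (mdiff_dbl mdiff_e4)).sub mdiff_e4).div mdifferentiable_const
    fun _ => by norm_num

lemma mdiff_ee : MDifferentiable 𝓘(ℂ) 𝓘(ℂ) ee := by
  exact ((mdiff_dbl mdiff_e6).sub mdiff_e6).div (mdifferentiable_const.mul mdiff_uu)
    fun z => mul_ne_zero (by norm_num) (uu_ne z)

lemma tendsto_uu : Tendsto uu atImInfty (𝓝 0) := by
  have h := (tendsto_e4.sub (tendsto_e4.comp tendsto_dbl)).div_const 240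
  rw [sub_self, zero_div] at h
  exact h

lemma tendsto_ww : Tendsto ww atImInfty (𝓝 1) := by
  have h := (((tendsto_e4.comp tendsto_dbl).const_mul 16).sub tendsto_e4).div_const 15
  rw [show ((16 : ℂ) * 1 - 1) / 15 = 1 by norm_num] at h
  exact h

/-- Eventually `ee = e6 / (ww - 512 uu)`. -/
lemma tendsto_ee : Tendsto ee atImInfty (𝓝 1) := by
  have h1 := tendsto_ww.sub (tendsto_uu.const_mul 512)
  rw [mul_zero, sub_zero] at h1
  have h := tendsto_e6.div h1 one_ne_zero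
  rw [div_one] at h
  refine h.congr' ?_
  filter_upwards [h1.eventually_ne one_ne_zero] with z hz
  rw [Pi.div_apply, e6_eq, mul_div_cancel_right₀ _ hz]

lemma uu_T (z : ℍ) : uu (T • z) = uu z := by
  rw [uu, uu, inv_e4.hT, inv_e4.dbl_T]

lemma ww_T (z : ℍ) : ww (T • z) = ww z := by
  rw [ww, ww, inv_e4.hT, inv_e4.dbl_T]

lemma ee_T (z : ℍ) : ee (T • z) = ee z := by
  rw [ee, ee, inv_e6.hT, inv_e6.dbl_T, uu_T]

/-! Use `WInv.hlf_S`, `WInv.hlfOne_S`, `WInv.hS`, `dbl_hlf`, `dbl_hlfOne`. -/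

lemma uu_hlf_S (z : ℍ) : uu (hlf (S • z)) = (z : ℂ) ^ 4 * (ww z / 16) := by
  simp only [uu, ww, dbl_hlf, inv_e4.hlf_S, inv_e4.hS, zpow_ofNat]
  ring

lemma ww_hlf_S (z : ℍ) : ww (hlf (S • z)) = (z : ℂ) ^ 4 * (256 * uu z) := by
  simp only [uu, ww, dbl_hlf, inv_e4.hlf_S, inv_e4.hS, zpow_ofNat]
  ring

lemma ee_hlf_S (z : ℍ) : ee (hlf (S • z)) = (z : ℂ) ^ 2 * (-2 * ee z) := by
  have h1 := ww_ne z
  have h2 := z.ne_zero
  rw [ee, uu_hlf_S, dbl_hlf, inv_e6.hlf_S, inv_e6.hS, ident2_e6, e6_eq]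
  simp only [zpow_ofNat]
  field_simp
  ring

lemma uu_hlfOne_S (z : ℍ) : uu (hlfOne (S • z)) = (z : ℂ) ^ 4 * uu (hlfOne z) := by
  simp only [uu, dbl_hlfOne, inv_e4.hlfOne_S, inv_e4.hT, inv_e4.hS, zpow_ofNat]
  ring

lemma ww_hlfOne_S (z : ℍ) : ww (hlfOne (S • z)) = (z : ℂ) ^ 4 * ww (hlfOne z) := by
  simp only [ww, dbl_hlfOne, inv_e4.hlfOne_S, inv_e4.hT, inv_e4.hS, zpow_ofNat]
  ring

lemma ee_hlfOne_S (z : ℍ) : ee (hlfOne (S • z)) = (z : ℂ) ^ 2 * ee (hlfOne z) := by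
  have h1 := uu_ne (hlfOne z)
  have h2 := z.ne_zero
  rw [ee, ee, uu_hlfOne_S, dbl_hlfOne, dbl_hlfOne, inv_e6.hlfOne_S, inv_e6.hT, inv_e6.hT,
    inv_e6.hS]
  simp only [zpow_ofNat]
  field_simp

end Pool.Agent.Lib.MP_88d29b_nt
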