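import Pool.Agent.Lib.MP_88d29b_nt.KIdx

set_option autoImplicit false

noncomputable section

namespace Pool.Agent.Lib.MP_88d29b_nt.G

open Finset CongruenceSubgroup Matrix
open scoped MatrixGroups

variable {K : Type} [NormedField K] [IsUltrametricDist K] {U : Type} [AddCommGroup U] [Module K U]
  [Module.Finite K U] {m : Type} [Fintype m] {p : ℕ} {φ1 φ2 : U →ₗ[K] (m → K)}

omit [IsUltrametricDist K] [Module.Finite K U] [Fintype m] in
lemma kdet_famM_elim (φ : U →ₗ[K] (m → K)) {ι ι' : Type} (b : ι → U) (w : ι' → U) :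
    famM φ (Sum.elim b w) = Matrix.fromCols (famM φ b) (famM φ w) := by
  ext i (j | j) <;> rfl

omit [IsUltrametricDist K] [Module.Finite K U] [Fintype m] in
lemma kdet_famM_comb (φ : U →ₗ[K] (m → K)) {ι ι' : Type} [Fintype ι] [Fintype ι'] (b : ι → U)
    (w : ι' → U) (g : Matrix ι' ι' K) (u : Matrix ι ι' K) :
    famM φ (fun j => ∑ k, g k j • w k + ∑ i, u i j • b i) = famM φ w * g + famM φ b * u := by
  ext i j
  simp [famM, Matrix.mul_apply, map_sum, mul_comm]

omit [IsUltrametricDist K] in
lemma kdet_plk {ι ι' : Type} [Fintype ι] [DecidableEq ι] [Fintype ι'] [DecidableEq ι']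
    (C1 : Matrix m ι K) (C2 : Matrix m ι' K) (g : Matrix ι' ι' K) (u : Matrix ι ι' K) :
    plk (Matrix.fromCols C1 (C2 * g + C1 * u)) = plk (Matrix.fromCols C1 C2) * ‖g.det‖ := by
  have h : Matrix.fromCols C1 (C2 * g + C1 * u) =
      Matrix.fromCols C1 C2 * Matrix.fromBlocks 1 u 0 g := by
    rw [Matrix.fromCols_mul_fromBlocks]
    simp [add_comm]
  rw [h, plk_mul, Matrix.det_fromBlocks_zero₂₁]
  simp

omit [IsUltrametricDist K] [Module.Finite K U] in
lemma kdet_inj (hφ : NPair φ1 φ2) {ι : Type} [Fintype ι] (v : ι → U)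
    (hv : LinearIndependent K v) : Function.Injective (famM φ1 v).mulVec := by
  have h1 : ∀ x : ι → K, (famM φ1 v).mulVec x = φ1 (∑ j, x j • v j) := by
    intro x
    ext i
    simp [famM, Matrix.mulVec, dotProduct, map_sum, mul_comm]
  have h2 : ∀ u, φ1 u = 0 → u = 0 := by
    intro u hu
    have := hφ.le u
    rw [hu, norm_zero] at this
    exact hφ.inj ((norm_le_zero_iff.1 this).trans (map_zero _).symm)
  change Function.Injective (Matrix.mulVecLin (famM φ1 v))
  refine (injective_iff_map_eq_zero _).2 fun x hx => ?_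
  rw [Matrix.mulVecLin_apply, h1] at hx
  funext j
  exact Fintype.linearIndependent_iff.1 hv x (h2 _ hx) j

/-- Let `b` be a basis of the kernel of `ev`, extended by vectors `z j` with `‖φ1 (z j)‖ ≤ 1` to a basis
of `U` with `plk1 (b, z) = plk1 b` (`exists_orth`). The `ev (z j)` form a basis of `H`. Let `z' j` be
given by `h`. Then `(b, z') = (b, z) * [[1, *], [0, matrix of T]]`, so
`plk2 (b, z) ‖det T‖ = plk2 (b, z') ≤ plk2 b * a ^ dim H` (`plk_mul`, `plk_fromCols_le`). -/
theorem det_le_lidx (hp : 1 < p) (hφ : NPair φ1 φ2) {H : Type} [AddCommGroup H] [Module K H]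
    (ev : U →ₗ[K] H) (hev : Function.Surjective ev) (T : Module.End K H) {a : ℝ} (ha : 0 < a)
    (h : ∀ z, ∃ z', ev z' = T (ev z) ∧ ‖φ2 z'‖ ≤ a * ‖φ1 z‖) (hT : LinearMap.det T ≠ 0) :
    Real.logb p ‖LinearMap.det T‖ + lidx p φ1 φ2 (LinearMap.ker ev) ≤
      Module.finrank K H * Real.logb p a + lidx p φ1 φ2 ⊤ := by
  classical
  have : Module.Finite K H := Module.Finite.of_surjective ev hev
  set bE := Module.finBasis K (LinearMap.ker ev) with hbE
  set c := Module.finBasis K H with hc
  set b : Fin (Module.finrank K (LinearMap.ker ev)) → U := fun j => (bE j : U) with hb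
  choose w hw using fun j => hev (c j)
  have hb0 : ∀ j, ev (b j) = 0 := fun j => (bE j).2
  have hbi : LinearIndependent K b :=
    bE.linearIndependent.map' (LinearMap.ker ev).subtype (Submodule.ker_subtype _)
  have hker : ∀ x, ev x = 0 → ∃ t : Fin (Module.finrank K (LinearMap.ker ev)) → K,
      x = ∑ i, t i • b i := by
    intro x hx
    refine ⟨fun i => bE.repr ⟨x, hx⟩ i, ?_⟩
    have := congrArg (Subtype.val) (bE.sum_repr ⟨x, hx⟩)
    rw [Submodule.coe_sum] at this
    exact this.symm
  have hbs : Submodule.span K (Set.range b) = LinearMap.ker ev := by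
    refine le_antisymm (Submodule.span_le.2 ?_) fun x hx => ?_
    · rintro _ ⟨j, rfl⟩
      exact hb0 j
    · obtain ⟨t, rfl⟩ := hker x hx
      exact Submodule.sum_mem _ fun i _ =>
        Submodule.smul_mem _ _ (Submodule.subset_span ⟨i, rfl⟩)
  have hdec : ∀ (x : U) (s : Fin (Module.finrank K H) → K), ev x = ∑ k, s k • c k →
      ∃ t : Fin (Module.finrank K (LinearMap.ker ev)) → K,
        x = ∑ k, s k • w k + ∑ i, t i • b i := by
    intro x s hx
    obtain ⟨t, ht⟩ := hker (x - ∑ k, s k • w k) (by simp [map_sum, hw, hx])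
    exact ⟨t, by rw [← ht]; abel⟩
  have hvi : LinearIndependent K (Sum.elim b w) := by
    rw [Fintype.linearIndependent_iff]
    intro x hx
    rw [Fintype.sum_sum_type] at hx
    simp only [Sum.elim_inl, Sum.elim_inr] at hx
    have h1 := congrArg ev hx
    simp only [map_add, map_sum, map_smul, hb0, hw, smul_zero, Finset.sum_const_zero, zero_add,
      map_zero] at h1
    have h2 := Fintype.linearIndependent_iff.1 c.linearIndependent _ h1
    simp only [h2, zero_smul, Finset.sum_const_zero, add_zero] at hx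
    have h3 := Fintype.linearIndependent_iff.1 hbi _ hx
    rintro (j | j)
    · exact h3 j
    · exact h2 j
  have hvs : Submodule.span K (Set.range (Sum.elim b w)) = ⊤ := by
    refine eq_top_iff.2 fun x _ => ?_
    obtain ⟨t, ht⟩ := hdec x (c.repr (ev x)) (c.sum_repr _).symm
    rw [ht]
    exact Submodule.add_mem _
      (Submodule.sum_mem _ fun i _ =>
        Submodule.smul_mem _ _ (Submodule.subset_span ⟨Sum.inr i, rfl⟩))
      (Submodule.sum_mem _ fun i _ =>
        Submodule.smul_mem _ _ (Submodule.subset_span ⟨Sum.inl i, rfl⟩))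
  obtain ⟨a1, a2, a3⟩ := lidx_eq (p := p) hφ _ b hbi hbs
  obtain ⟨b1, b2, b3⟩ := lidx_eq (p := p) hφ _ _ hvi hvs
  have hinj := kdet_inj hφ _ hvi
  rw [kdet_famM_elim] at hinj b1 b2 b3
  rw [kdet_famM_elim] at b3
  obtain ⟨g, u, hg, hE, hplk⟩ := exists_orth _ _ hinj
  rw [kdet_plk] at hplk
  rw [← kdet_famM_comb] at hE
  set z : Fin (Module.finrank K H) → U := fun j => ∑ k, g k j • w k + ∑ i, u i j • b i with hz
  have hz1 : ∀ j, ‖φ1 (z j)‖ ≤ 1 := fun j =>
    (pi_norm_le_iff_of_nonneg zero_le_one).2 fun i => hE i j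
  choose z' hz' hn using fun j => h (z j)
  set M := LinearMap.toMatrix c c T with hM
  have hTc : ∀ k, T (c k) = ∑ l, M l k • c l := by
    intro k
    simp only [hM, LinearMap.toMatrix_apply]
    exact (c.sum_repr _).symm
  have hev' : ∀ j, ev (z' j) = ∑ l, (M * g) l j • c l := by
    intro j
    rw [hz' j]
    simp only [hz, map_add, map_sum, map_smul, hb0, hw, smul_zero, Finset.sum_const_zero, add_zero,
      hTc, Finset.smul_sum, Matrix.mul_apply, Finset.sum_smul, smul_smul]
    rw [Finset.sum_comm]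
    exact Finset.sum_congr rfl fun l _ => Finset.sum_congr rfl fun k _ => by rw [mul_comm]
  choose t ht using fun j => hdec (z' j) _ (hev' j)
  have hfam : famM φ2 z' = famM φ2 w * (M * g) + famM φ2 b * Matrix.of fun i j => t j i := by
    rw [← kdet_famM_comb]
    congr 1
    funext j
    exact ht j
  have hE' : EntLe (famM φ2 z') a := fun i j =>
    (norm_le_pi_norm (φ2 (z' j)) i).trans ((hn j).trans (mul_le_of_le_one_right ha.le (hz1 j)))
  have hle := plk_fromCols_le (famM φ2 b) _ ha.le hE'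
  rw [hfam, kdet_plk, Matrix.det_mul, norm_mul, hM, LinearMap.det_toMatrix, Fintype.card_fin] at hle
  have hp' : (1 : ℝ) < p := by exact_mod_cast hp
  have hT' : 0 < ‖LinearMap.det T‖ := norm_pos_iff.2 hT
  have hg' : 0 < ‖g.det‖ := norm_pos_iff.2 hg
  have h1 := Real.logb_le_logb_of_le hp' (by positivity) hle
  rw [Real.logb_mul b2.ne' (by positivity), Real.logb_mul hT'.ne' hg'.ne',
    Real.logb_mul a2.ne' (by positivity), Real.logb_pow] at h1
  have h2 := congrArg (Real.logb p) hplk
  rw [Real.logb_mul b1.ne' hg'.ne'] at h2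
  rw [a3, b3]
  linarith

end Pool.Agent.Lib.MP_88d29b_nt.G
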