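import Pool.Agent.Lib.MP_88d29b_nt.KInd

set_option autoImplicit false

noncomputable section

namespace Pool.Agent.Lib.MP_88d29b_nt.G

open Finset CongruenceSubgroup Matrix
open scoped MatrixGroups

variable {p : ℕ} [Fact p.Prime] {e : ℕ → ℕ} {Γ : Subgroup SL(2, ℤ)} [Γ.FiniteIndex] {κ : ℕ}

/-- Let `W0` be the set of `F ∈ W` with `F x0 0 = 0` (codimension at most one, `lidx_le_of_codim`).
The coboundary map sends `W` to `B` (to apply `lidx_map_le`, take `U = W` as a type with the norms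
composed with the inclusion, or extend the map; `lidx_eq` compares). It does not increase the weighted
norm (`ph2_iact`). If the coboundary `C` of `F ∈ W0` has `‖z1 C‖ = a` then all values of `C` are
at most `a` (`norm_ZG_le`), `C T x0 = v | T - v` for `v = F x0`, so `‖v‖ ≤ p ^ log a`
(`norm_le_diff`), and `F (g x0) | g = v + C g x0`. -/
theorem core_lower2 (h : Good p e Γ κ) {W : Submodule (KP p) (IV p Γ κ)} (hW : Stab p W)
    (B : Submodule (KP p) (ZG p W)) (hB : ∀ C : ZG p W, ∀ F ∈ W, C.1 = cobG p F → C ∈ B) :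
    lidx p (ph1 p Γ κ) (ph2 p e Γ κ) W ≤ lidx p (z1 p W) (z2 p e W) B + errK p e Γ κ := by
  have hp : 1 < p := (Fact.out : p.Prime).one_lt
  have hp' : (1 : ℝ) < p := by exact_mod_cast hp
  let f0 : W →ₗ[KP p] ZG p W :=
    { toFun := fun F => ⟨cobG p F.1, cobG_mem h.neg h.even hW F.2⟩
      map_add' := fun F F' => Subtype.ext (funext fun g => by
        simp only [cobG, Submodule.coe_add, map_add, Pi.add_apply]
        abel)
      map_smul' := fun a F => Subtype.ext (funext fun g => by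
        simp only [cobG, Submodule.coe_smul, map_smul, RingHom.id_apply, Pi.smul_apply, smul_sub]) }
  obtain ⟨f, hf⟩ := f0.exists_extend
  have hf' : ∀ F ∈ W, (f F).1 = cobG p F := fun F hF =>
    congrArg Subtype.val (LinearMap.congr_fun hf ⟨F, hF⟩)
  let l : IV p Γ κ →ₗ[KP p] KP p :=
    (LinearMap.proj (0 : Fin (κ + 1)) : Vk (KP p) κ →ₗ[KP p] KP p) ∘ₗ LinearMap.proj (x0 Γ)
  let W0 := (LinearMap.ker (l.domRestrict W)).map W.subtype
  have hW0 : ∀ F ∈ W0, F ∈ W ∧ F (x0 Γ) 0 = 0 := by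
    rintro _ ⟨F, hF, rfl⟩
    exact ⟨F.2, hF⟩
  have hc : Module.finrank (KP p) W ≤ Module.finrank (KP p) W0 + 1 := by
    have h1 := (l.domRestrict W).finrank_range_add_finrank_ker
    have h2 := (LinearMap.range (l.domRestrict W)).finrank_le
    rw [Module.finrank_self] at h2
    have h3 : Module.finrank (KP p) W0 = _ := Submodule.finrank_map_subtype_eq _ _
    omega
  have hA : (1 : ℝ) ≤ (p : ℝ) ^ e 0 := one_le_pow₀ hp'.le
  have ha : (1 : ℝ) ≤ (p : ℝ) ^ Nat.log p (κ + 1) := one_le_pow₀ hp'.le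
  have k1 := lidx_le_of_codim hp npair_ph (fun F hF => (hW0 F hF).1) hc hA (ph1_le_ph2 h.steps)
  have k2 := lidx_map_le hp (npair_ph (e := e)) (npair_z (e := e) W) f (E := W0) (E' := B)
    (fun F hF => hB _ F (hW0 F hF).1 (hf' F (hW0 F hF).1)) ha le_rfl (fun F hF => ?_)
    fun F hF => ?_
  · rw [Real.logb_pow, Real.logb_self_eq_one hp'] at k1
    rw [mul_one, Real.logb_pow, Real.logb_self_eq_one hp', finrank_IV] at k2
    have hi : (1 : ℝ) ≤ Γ.index := by
      exact_mod_cast Nat.one_le_iff_ne_zero.2 Subgroup.FiniteIndex.index_ne_zero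
    have h1 : (e 0 : ℝ) ≤ Γ.index * (e 0 : ℝ) := le_mul_of_one_le_left (Nat.cast_nonneg _) hi
    have h2 : (0 : ℝ) ≤ Γ.index * ((κ : ℝ) + 1) := by positivity
    rw [errK]
    push_cast at k1 k2
    linarith
  · obtain ⟨hFW, hF0⟩ := hW0 F hF
    have hn := norm_nonneg (z1 p W (f F))
    have hle : ‖z1 p W (f F)‖ ≤ (p : ℝ) ^ Nat.log p (κ + 1) * ‖z1 p W (f F)‖ :=
      le_mul_of_one_le_left hn ha
    have hC : ∀ g : SL(2, ℤ),
        ‖vact (KP p) κ (g : Mat) (F (g • x0 Γ)) - F (x0 Γ)‖ ≤ ‖z1 p W (f F)‖ := fun g => by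
      have := norm_ZG_le (f F) g (x0 Γ)
      rwa [hf' F hFW] at this
    have hT : ModularGroup.T • x0 Γ = x0 Γ := by
      change ((ModularGroup.T * 1 : SL(2, ℤ)) : SL(2, ℤ) ⧸ Γ) = _
      rw [QuotientGroup.eq]
      simpa using h.T
    have hv : ‖F (x0 Γ)‖ ≤ (p : ℝ) ^ Nat.log p (κ + 1) * ‖z1 p W (f F)‖ := by
      have := hC ModularGroup.T
      rw [hT] at this
      exact (norm_le_diff _ hF0).trans (mul_le_mul_of_nonneg_left this (by positivity))
    refine (norm_ph1_le (by positivity)).2 fun x => ?_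
    have hx : rp x • x0 Γ = x := by
      change ((rp x * 1 : SL(2, ℤ)) : SL(2, ℤ) ⧸ Γ) = _
      rw [mul_one, mk_rp]
    have h1 := hC (rp x)
    rw [hx] at h1
    rw [← norm_vact_SL (rp x), ← sub_add_cancel (vact (KP p) κ _ (F x)) (F (x0 Γ))]
    exact (IsUltrametricDist.norm_add_le_max _ _).trans (max_le (h1.trans hle) hv)
  · have hC : ∀ g : SL(2, ℤ), ‖ph2 p e Γ κ ((f F).1 g)‖ ≤ ‖ph2 p e Γ κ F‖ := fun g => by
      rw [hf' F (hW0 F hF).1, cobG, map_sub, sub_eq_add_neg]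
      exact (IsUltrametricDist.norm_add_le_max _ _).trans
        (max_le (ph2_iact h.inv g F) (norm_neg _).le)
    rw [one_mul, z2, LinearMap.comp_apply, norm_pairM]
    exact max_le (hC _) (hC _)

end Pool.Agent.Lib.MP_88d29b_nt.G
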