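import Pool.Agent.Lib.MP_88d29b_nt.KUp
import Pool.Agent.Lib.MP_88d29b_nt.KLow
import Pool.Agent.Lib.MP_88d29b_nt.KDet

set_option autoImplicit false

noncomputable section

namespace Pool.Agent.Lib.MP_88d29b_nt.G

open Finset CongruenceSubgroup Matrix
open scoped MatrixGroups

variable {p : ℕ} [Fact p.Prime] {e : ℕ → ℕ} {Γ : Subgroup SL(2, ℤ)} [Γ.FiniteIndex] {κ : ℕ}

/-- Apply `det_le_lidx` to `ev = q ∘ mkQ ∘ evG` on `ZG W`. For a cocycle `c` of `Γ` the function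
`g ↦ e0 (shap c g)` lies in `ZG W` (`shap_mem`), and `ev` sends it to `q [c]` by `hq`, so `ev` is onto.
Given `z`, the values of `evG z` are bounded by `‖z1 z‖` (`norm_ZG_le`); take `c'` from `hT` and
`z' = e0 ∘ shap c'` (`ph2_shap`). Coboundaries lie in the kernel of `ev`. Finish with `core_upper` and
`core_lower2`. -/
theorem det_bound (h : Good p e Γ κ) {W : Submodule (KP p) (IV p Γ κ)} (hW : Stab p W)
    (e0 : IV p Γ κ →ₗ[KP p] IV p Γ κ) (he0W : ∀ F, e0 F ∈ W)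
    (he0g : ∀ g F, e0 (iact p Γ κ g F) = iact p Γ κ g (e0 F)) {a0 : ℝ} (ha0 : 0 < a0)
    (he0n : ∀ F, ‖ph2 p e Γ κ (e0 F)‖ ≤ a0 * ‖ph2 p e Γ κ F‖) {H : Type} [AddCommGroup H]
    [Module (KP p) H] (q : H1 Γ (vact (KP p) κ) →ₗ[KP p] H) (hsurj : Function.Surjective q)
    (hq : ∀ c c' : Z1 Γ (vact (KP p) κ),
      (∀ γ : Γ, c'.1 γ = e0 (shap p (c : Γ → Vk (KP p) κ) γ) (x0 Γ)) →
      q (Submodule.Quotient.mk c') = q (Submodule.Quotient.mk c))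
    (T : Module.End (KP p) H) {a : ℝ} (ha : 0 < a)
    (hT : ∀ (c : Z1 Γ (vact (KP p) κ)) (b : ℝ), (∀ γ, ‖c.1 γ‖ ≤ b) → ∃ c' : Z1 Γ (vact (KP p) κ),
      q (Submodule.Quotient.mk c') = T (q (Submodule.Quotient.mk c)) ∧
        ∀ γ, ‖dg p e κ (c'.1 γ)‖ ≤ a * b) (hdet : LinearMap.det T ≠ 0) :
    Real.logb p ‖LinearMap.det T‖ ≤ Module.finrank (KP p) H * Real.logb p (a0 * a) +
      lidx p (ph1 p Γ κ) (ph2 p e Γ κ) W / 6 + 3 * errK p e Γ κ := by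
  have hp1 : 1 < p := (Fact.out : p.Prime).one_lt
  let ev : ZG p W →ₗ[KP p] H := q ∘ₗ (B1 Γ (vact (KP p) κ)).mkQ ∘ₗ evG p W
  have hlift : ∀ c : Z1 Γ (vact (KP p) κ), ∃ z : ZG p W,
      (∀ g, z.1 g = e0 (shap p (c : Γ → Vk (KP p) κ) g)) ∧ ev z = q (Submodule.Quotient.mk c) := by
    intro c
    obtain ⟨h1, h2, -⟩ := shap_mem (p := p) h.neg c
    refine ⟨⟨fun g => e0 (shap p (c : Γ → Vk (KP p) κ) g), fun g g' => ?_, ?_, fun g => he0W _⟩,
      fun _ => rfl, hq c _ fun γ => rfl⟩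
    · beta_reduce
      rw [h1, map_add, he0g]
    · beta_reduce
      rw [h2, map_zero]
  have hev : Function.Surjective ev := fun y => by
    obtain ⟨x, rfl⟩ := hsurj y
    obtain ⟨c, rfl⟩ := Submodule.Quotient.mk_surjective _ x
    obtain ⟨z, -, hz⟩ := hlift c
    exact ⟨z, hz⟩
  have h1 := det_le_lidx hp1 (npair_z (e := e) W) ev hev T (mul_pos ha0 ha) (fun z => by
    obtain ⟨c', hc1, hc2⟩ := hT (evG p W z) ‖z1 p W z‖ fun γ => norm_ZG_le z γ (x0 Γ)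
    obtain ⟨z', hz1, hz2⟩ := hlift c'
    refine ⟨z', hz2.trans hc1, ?_⟩
    have hb : ∀ g, ‖ph2 p e Γ κ (z'.1 g)‖ ≤ a0 * a * ‖z1 p W z‖ := fun g => by
      rw [hz1, mul_assoc]
      exact (he0n _).trans (mul_le_mul_of_nonneg_left
        (ph2_shap _ (mul_nonneg ha.le (norm_nonneg _)) hc2 g) ha0.le)
    change ‖pairM (ph2 p e Γ κ) (ph2 p e Γ κ) (evSR p W z')‖ ≤ _
    rw [norm_pairM]
    exact max_le (hb _) (hb _)) hdet
  have h2 := core_upper h hW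
  have h3 := core_lower2 h hW (LinearMap.ker ev) fun C F _ hC => by
    have h0 : (B1 Γ (vact (KP p) κ)).mkQ (evG p W C) = 0 := by
      rw [Submodule.mkQ_apply, Submodule.Quotient.mk_eq_zero]
      refine ⟨F (x0 Γ), funext fun γ => ?_⟩
      have hx : (γ : SL(2, ℤ)) • x0 Γ = x0 Γ := by
        change (((γ : SL(2, ℤ)) * 1 : SL(2, ℤ)) : SL(2, ℤ) ⧸ Γ) = _
        rw [QuotientGroup.eq]
        simp
      change _ = C.1 γ (x0 Γ)
      rw [hC, cob_apply, cobG, Pi.sub_apply, iact_apply, hx]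
    change q ((B1 Γ (vact (KP p) κ)).mkQ (evG p W C)) = 0
    rw [h0, map_zero]
  linarith

end Pool.Agent.Lib.MP_88d29b_nt.G
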