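import Pool.Agent.Lib.MP_88d29b_nt.HDefs

/-!
Definitions for the Hodge bound: relative covolumes of two norms, derivations, induced modules.
-/

set_option autoImplicit false

noncomputable section

namespace Pool.Agent.Lib.MP_88d29b_nt.G

open Finset CongruenceSubgroup Matrix
open scoped MatrixGroups

section Idx

variable {K : Type} [NormedField K] {U U' : Type} [AddCommGroup U] [Module K U] [AddCommGroup U']
  [Module K U'] {m m' : Type}

/-- The largest norm of a maximal minor. -/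
def plk {ι : Type} [Fintype ι] [DecidableEq ι] (C : Matrix m ι K) : ℝ :=
  ⨆ f : ι → m, ‖(C.submatrix f id).det‖

/-- The matrix whose columns are the vectors `φ (v j)`. -/
def famM (φ : U →ₗ[K] (m → K)) {ι : Type} (v : ι → U) : Matrix m ι K :=
  Matrix.of fun i j => φ (v j) i

/-- The logarithm of the ratio of the covolumes of `E` for the norms `‖φ1 ·‖` and `‖φ2 ·‖`. -/
def lidx (p : ℕ) [Module.Finite K U] (φ1 φ2 : U →ₗ[K] (m → K)) (E : Submodule K U) : ℝ :=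
  Real.logb p (plk (famM φ1 fun j => (Module.finBasis K E j : U)) /
    plk (famM φ2 fun j => (Module.finBasis K E j : U)))

/-- A pair of norms, the second one smaller. -/
structure NPair [Fintype m] (φ1 φ2 : U →ₗ[K] (m → K)) : Prop where
  inj : Function.Injective φ2
  le : ∀ u, ‖φ2 u‖ ≤ ‖φ1 u‖

/-- The maximum of two norms on a product. -/
def pairM (φ : U →ₗ[K] (m → K)) (ψ : U' →ₗ[K] (m' → K)) : U × U' →ₗ[K] (m ⊕ m' → K) where
  toFun x := Sum.elim (φ x.1) (ψ x.2)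
  map_add' x y := by
    ext (i | i) <;> simp
  map_smul' a x := by
    ext (i | i) <;> simp

lemma norm_pairM [Fintype m] [Fintype m'] (φ : U →ₗ[K] (m → K)) (ψ : U' →ₗ[K] (m' → K))
    (x : U × U') : ‖pairM φ ψ x‖ = max ‖φ x.1‖ ‖ψ x.2‖ := by
  refine le_antisymm ((pi_norm_le_iff_of_nonneg (by positivity)).2 ?_) (max_le ?_ ?_)
  · rintro (i | i)
    · exact (norm_le_pi_norm (φ x.1) i).trans (le_max_left _ _)
    · exact (norm_le_pi_norm (ψ x.2) i).trans (le_max_right _ _)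
  · exact (pi_norm_le_iff_of_nonneg (norm_nonneg _)).2 fun i =>
      norm_le_pi_norm (pairM φ ψ x) (Sum.inl i)
  · exact (pi_norm_le_iff_of_nonneg (norm_nonneg _)).2 fun i =>
      norm_le_pi_norm (pairM φ ψ x) (Sum.inr i)

/-- The diagonal map with entries `δ`. -/
def diagM (δ : m → K) : (m → K) →ₗ[K] (m → K) where
  toFun v := fun i => δ i * v i
  map_add' x y := by
    ext i
    simp [mul_add]
  map_smul' a x := by
    ext i
    simp [mul_left_comm]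

end Idx

section Der

variable {K : Type} [Field K]

/-- The derivation `(a x + b y) ∂_x + (c x + d y) ∂_y` on forms of degree `κ`. -/
def der (κ : ℕ) (N : Matrix (Fin 2) (Fin 2) K) : Vk K κ →ₗ[K] Vk K κ :=
  Matrix.toLin' fun m n : Fin (κ + 1) =>
    (if m = n then N 0 0 * (n : ℕ) + N 1 1 * ((κ - n : ℕ) : K) else 0) +
      (if (m : ℕ) + 1 = n then N 0 1 * (n : ℕ) else 0) +
      (if (m : ℕ) = n + 1 then N 1 0 * ((κ - n : ℕ) : K) else 0)

/-- The nilpotent matrix `(x, y) ↦ (x - z y) (z, 1)`. -/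
def nil (z : K) : Matrix (Fin 2) (Fin 2) K := !![z, -z ^ 2; 1, -z]

end Der

section Ind

variable (p : ℕ) [Fact p.Prime]

/-- Multiplication of the coefficient of degree `j` by `p ^ e j`. -/
def dg (e : ℕ → ℕ) (κ : ℕ) : Vk (KP p) κ →ₗ[KP p] Vk (KP p) κ :=
  diagM fun j : Fin (κ + 1) => (p : KP p) ^ e j

/-- The exponents decrease by steps of at most one. -/
def Steps (e : ℕ → ℕ) : Prop := ∀ j, e (j + 1) ≤ e j ∧ e j ≤ e (j + 1) + 1

/-- The weighted norm is invariant under `Γ`. -/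
def WInvt (e : ℕ → ℕ) (κ : ℕ) (Γ : Subgroup SL(2, ℤ)) : Prop :=
  ∀ γ ∈ Γ, ∀ v, ‖dg p e κ (vact (KP p) κ (γ : Mat) v)‖ ≤ ‖dg p e κ v‖

instance fintypeCos (Γ : Subgroup SL(2, ℤ)) [Γ.FiniteIndex] : Fintype (SL(2, ℤ) ⧸ Γ) :=
  Fintype.ofFinite _

/-- The base point. -/
abbrev x0 (Γ : Subgroup SL(2, ℤ)) : SL(2, ℤ) ⧸ Γ := ((1 : SL(2, ℤ)) : SL(2, ℤ) ⧸ Γ)

open Classical in
/-- Representatives of the cosets, `1` for the base point. -/
def rp {Γ : Subgroup SL(2, ℤ)} (x : SL(2, ℤ) ⧸ Γ) : SL(2, ℤ) := if x = x0 Γ then 1 else x.out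

lemma rp_x0 (Γ : Subgroup SL(2, ℤ)) : rp (x0 Γ) = 1 := if_pos rfl

lemma mk_rp {Γ : Subgroup SL(2, ℤ)} (x : SL(2, ℤ) ⧸ Γ) : ((rp x : SL(2, ℤ)) : SL(2, ℤ) ⧸ Γ) = x := by
  unfold rp
  split_ifs with h
  · exact h.symm
  · exact x.out_eq

lemma rp_mem {Γ : Subgroup SL(2, ℤ)} (g : SL(2, ℤ)) (x : SL(2, ℤ) ⧸ Γ) :
    (rp (g • x))⁻¹ * (g * rp x) ∈ Γ := by
  rw [← QuotientGroup.eq, mk_rp]
  conv_lhs => rw [← mk_rp x]
  rfl

/-- The element of `Γ` attached to `g` and `x`. -/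
def cc {Γ : Subgroup SL(2, ℤ)} (g : SL(2, ℤ)) (x : SL(2, ℤ) ⧸ Γ) : Γ :=
  ⟨(rp (g • x))⁻¹ * (g * rp x), rp_mem g x⟩

/-- The induced module. -/
abbrev IV (Γ : Subgroup SL(2, ℤ)) (κ : ℕ) : Type := (SL(2, ℤ) ⧸ Γ) → Vk (KP p) κ

variable {Γ : Subgroup SL(2, ℤ)} {κ : ℕ}

/-- The right action `(F | g)(x) = F(g x) | g`. -/
def iact (Γ : Subgroup SL(2, ℤ)) (κ : ℕ) (g : SL(2, ℤ)) : IV p Γ κ →ₗ[KP p] IV p Γ κ :=
  LinearMap.pi fun x => vact (KP p) κ (g : Mat) ∘ₗ LinearMap.proj (g • x)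

lemma iact_apply (g : SL(2, ℤ)) (F : IV p Γ κ) (x : SL(2, ℤ) ⧸ Γ) :
    iact p Γ κ g F x = vact (KP p) κ (g : Mat) (F (g • x)) := rfl

lemma iact_mul (g g' : SL(2, ℤ)) (F : IV p Γ κ) :
    iact p Γ κ (g * g') F = iact p Γ κ g' (iact p Γ κ g F) := by
  ext1 x
  simp only [iact_apply, Matrix.SpecialLinearGroup.coe_mul, vact_mul, mul_smul,
    LinearMap.comp_apply]

/-- The derivation applied to all values. -/
def ider (Γ : Subgroup SL(2, ℤ)) (κ : ℕ) (N : Matrix (Fin 2) (Fin 2) (KP p)) :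
    IV p Γ κ →ₗ[KP p] IV p Γ κ :=
  LinearMap.pi fun x => der κ N ∘ₗ LinearMap.proj x

/-- Cocycles of `SL(2, ℤ)` with values in `W` that vanish at `-1`. -/
def ZG (W : Submodule (KP p) (IV p Γ κ)) : Submodule (KP p) (SL(2, ℤ) → IV p Γ κ) where
  carrier := {C | (∀ g g', C (g * g') = iact p Γ κ g' (C g) + C g') ∧ C (-1) = 0 ∧ ∀ g, C g ∈ W}
  add_mem' := by
    rintro C C' ⟨h1, h2, h3⟩ ⟨h4, h5, h6⟩
    refine ⟨fun g g' => ?_, by simp [h2, h5], fun g => W.add_mem (h3 g) (h6 g)⟩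
    simp only [Pi.add_apply, h1, h4, map_add]
    abel
  zero_mem' := ⟨fun g g' => by simp, rfl, fun _ => W.zero_mem⟩
  smul_mem' := by
    rintro a C ⟨h1, h2, h3⟩
    refine ⟨fun g g' => ?_, by simp [h2], fun g => W.smul_mem a (h3 g)⟩
    simp only [Pi.smul_apply, h1, map_smul, smul_add]

/-- The values at `S` and `S T`. -/
def evSR (W : Submodule (KP p) (IV p Γ κ)) : ZG p W →ₗ[KP p] IV p Γ κ × IV p Γ κ :=
  (LinearMap.proj ModularGroup.S ∘ₗ (ZG p W).subtype).prod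
    (LinearMap.proj (ModularGroup.S * ModularGroup.T) ∘ₗ (ZG p W).subtype)

/-- Evaluation at the base point. -/
def evG (W : Submodule (KP p) (IV p Γ κ)) : ZG p W →ₗ[KP p] Z1 Γ (vact (KP p) κ) where
  toFun C := ⟨fun γ => C.1 γ (x0 Γ), fun g g' => by
      have h : (g' : SL(2, ℤ)) • x0 Γ = x0 Γ := by
        change (((g' : SL(2, ℤ)) * 1 : SL(2, ℤ)) : SL(2, ℤ) ⧸ Γ) = _
        rw [QuotientGroup.eq]
        simp
      beta_reduce
      rw [Subgroup.coe_mul, C.2.1, Pi.add_apply, iact_apply, h], fun g hg => by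
      beta_reduce
      rw [hg, C.2.2.1]
      rfl⟩
  map_add' _ _ := rfl
  map_smul' _ _ := rfl

/-- The Shapiro lift of a cochain. -/
def shap (c : Γ → Vk (KP p) κ) : SL(2, ℤ) → IV p Γ κ :=
  fun g x => vact (KP p) κ (((rp x)⁻¹ : SL(2, ℤ)) : Mat) (c (cc g x))

/-- The coboundary of `F`. -/
def cobG (F : IV p Γ κ) : SL(2, ℤ) → IV p Γ κ := fun g => iact p Γ κ g F - F

/-- The standard norm on the induced module. -/
def ph1 (Γ : Subgroup SL(2, ℤ)) (κ : ℕ) :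
    IV p Γ κ →ₗ[KP p] ((SL(2, ℤ) ⧸ Γ) × Fin (κ + 1) → KP p) where
  toFun F := fun x => F x.1 x.2
  map_add' _ _ := rfl
  map_smul' _ _ := rfl

/-- The weighted norm on the induced module. -/
def ph2 (e : ℕ → ℕ) (Γ : Subgroup SL(2, ℤ)) (κ : ℕ) :
    IV p Γ κ →ₗ[KP p] ((SL(2, ℤ) ⧸ Γ) × Fin (κ + 1) → KP p) where
  toFun F := fun x => dg p e κ (vact (KP p) κ ((rp x.1 : SL(2, ℤ)) : Mat) (F x.1)) x.2
  map_add' F F' := by
    ext x
    simp
  map_smul' a F := by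
    ext x
    simp

/-- The standard norm on cocycles. -/
def z1 (W : Submodule (KP p) (IV p Γ κ)) : ZG p W →ₗ[KP p]
    (((SL(2, ℤ) ⧸ Γ) × Fin (κ + 1)) ⊕ ((SL(2, ℤ) ⧸ Γ) × Fin (κ + 1)) → KP p) :=
  pairM (ph1 p Γ κ) (ph1 p Γ κ) ∘ₗ evSR p W

/-- The weighted norm on cocycles. -/
def z2 (e : ℕ → ℕ) (W : Submodule (KP p) (IV p Γ κ)) : ZG p W →ₗ[KP p]
    (((SL(2, ℤ) ⧸ Γ) × Fin (κ + 1)) ⊕ ((SL(2, ℤ) ⧸ Γ) × Fin (κ + 1)) → KP p) :=
  pairM (ph2 p e Γ κ) (ph2 p e Γ κ) ∘ₗ evSR p W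

lemma closure_S_ST : Subgroup.closure ({ModularGroup.S, ModularGroup.S * ModularGroup.T} :
    Set SL(2, ℤ)) = ⊤ := by
  rw [eq_top_iff, ← SpecialLinearGroup.SL2Z_generators, Subgroup.closure_le]
  have h1 : ModularGroup.S ∈ Subgroup.closure ({ModularGroup.S, ModularGroup.S * ModularGroup.T} :
    Set SL(2, ℤ)) := Subgroup.subset_closure (by simp)
  have h2 : ModularGroup.S * ModularGroup.T ∈ Subgroup.closure
    ({ModularGroup.S, ModularGroup.S * ModularGroup.T} : Set SL(2, ℤ)) :=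
    Subgroup.subset_closure (by simp)
  rintro g (rfl | rfl)
  · exact h1
  · simpa using Subgroup.mul_mem _ (Subgroup.inv_mem _ h1) h2

lemma iact_one (F : IV p Γ κ) : iact p Γ κ 1 F = F := by
  ext1 x
  simp [iact_apply, vact_one]

lemma ZG_one {W : Submodule (KP p) (IV p Γ κ)} (C : ZG p W) : C.1 1 = 0 := by
  have := C.2.1 1 1
  rw [mul_one, iact_one] at this
  exact left_eq_add.mp this

lemma evSR_injective (W : Submodule (KP p) (IV p Γ κ)) : Function.Injective (evSR p W) := by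
  refine (injective_iff_map_eq_zero _).2 fun C hC => ?_
  ext1
  funext g
  have hg : g ∈ Subgroup.closure ({ModularGroup.S, ModularGroup.S * ModularGroup.T} :
    Set SL(2, ℤ)) := closure_S_ST ▸ Subgroup.mem_top g
  change C.1 g = 0
  induction hg using Subgroup.closure_induction with
  | mem x hx =>
    rcases hx with rfl | rfl
    · exact congrArg Prod.fst hC
    · exact congrArg Prod.snd hC
  | one => exact ZG_one p C
  | mul x y _ _ hx hy => rw [C.2.1, hx, hy, map_zero, add_zero]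
  | inv x _ hx =>
    have := C.2.1 x x⁻¹
    rw [mul_inv_cancel, ZG_one, hx, map_zero, zero_add] at this
    exact this.symm

instance finite_ZG [Γ.FiniteIndex] (W : Submodule (KP p) (IV p Γ κ)) :
    Module.Finite (KP p) (ZG p W) :=
  Module.Finite.of_injective _ (evSR_injective p W)

/-- `W` is stable under the group and under derivations. -/
structure Stab (W : Submodule (KP p) (IV p Γ κ)) : Prop where
  act : ∀ g, ∀ F ∈ W, iact p Γ κ g F ∈ W
  der : ∀ N, ∀ F ∈ W, ider p Γ κ N F ∈ W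

/-- The standing assumptions on the group, the weight and the exponents. -/
structure Good (e : ℕ → ℕ) (Γ : Subgroup SL(2, ℤ)) (κ : ℕ) : Prop where
  neg : (-1 : SL(2, ℤ)) ∈ Γ
  T : ModularGroup.T ∈ Γ
  even : Even κ
  steps : Steps e
  inv : WInvt p e κ Γ

/-- The error term. -/
def errK (e : ℕ → ℕ) (Γ : Subgroup SL(2, ℤ)) (κ : ℕ) : ℝ :=
  (Γ.index : ℝ) * ((e 0 : ℝ) + ((κ : ℝ) + 1) * ((Nat.log p (κ + 1) : ℝ) + 3))

/-- The map between coset spaces. -/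
def prj {Γ Γ1 : Subgroup SL(2, ℤ)} (h : Γ ≤ Γ1) : SL(2, ℤ) ⧸ Γ → SL(2, ℤ) ⧸ Γ1 :=
  Subgroup.quotientMapOfLE h

open Classical in
/-- The average over the fibres of `prj`. -/
def avg {Γ Γ1 : Subgroup SL(2, ℤ)} [Γ.FiniteIndex] (h : Γ ≤ Γ1) (κ : ℕ) :
    IV p Γ κ →ₗ[KP p] IV p Γ κ :=
  LinearMap.pi fun x => ((Γ.relIndex Γ1 : KP p)⁻¹) •
    ∑ x' ∈ univ.filter fun x' => prj h x' = prj h x, LinearMap.proj x'

lemma admRes {R V : Type*} [CommRing R] [AddCommGroup V] [Module R V] {ρ : Mat → V →ₗ[R] V}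
    (hρ : IsAct ⊤ ρ) {Γ Γ1 : Subgroup SL(2, ℤ)} (h : Γ ≤ Γ1) (hneg : (-1 : SL(2, ℤ)) ∈ Γ1) :
    Adm ⊤ Γ1 Γ (fun _ : Unit => (1 : Mat)) ρ :=
  ⟨hρ, fun _ _ => trivial, fun _ _ => trivial, fun _ => trivial,
    ⟨fun _ => by simp, fun g hg _ => ⟨(), g, h hg, by simp⟩, fun _ _ _ _ _ => rfl⟩, hneg⟩

lemma gamma0_le {N M : ℕ} (h : N ∣ M) : Gamma0 M ≤ Gamma0 N := fun _ hg =>
  mem_Gamma0_iff.2 ((Int.natCast_dvd_natCast.2 h).trans (mem_Gamma0_iff.1 hg))

/-- Restriction from level `N` to level `M`. -/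
def resH (K : Type) [Field K] {N M κ : ℕ} (h : N ∣ M) (hκ : Even κ) : HH K N κ →ₗ[K] HH K M κ :=
  dcH (admRes (isAct_vact K hκ ⊤) (gamma0_le h) (neg_one_mem_Gamma0 N))

end Ind

end Pool.Agent.Lib.MP_88d29b_nt.G
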