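import Pool.Agent.Lib.MP_88d29b_nt.KDefs

set_option autoImplicit false

noncomputable section

namespace Pool.Agent.Lib.MP_88d29b_nt.G

open Finset CongruenceSubgroup Matrix
open scoped MatrixGroups

variable {p : ℕ} [Fact p.Prime]

lemma kder_apply {K : Type} [Field K] (κ : ℕ) (N : Matrix (Fin 2) (Fin 2) K) (v : Vk K κ)
    (m : Fin (κ + 1)) : der κ N v m = ∑ n : Fin (κ + 1),
      ((if m = n then N 0 0 * (n : ℕ) + N 1 1 * ((κ - n : ℕ) : K) else 0) +
        (if (m : ℕ) + 1 = n then N 0 1 * (n : ℕ) else 0) +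
        (if (m : ℕ) = n + 1 then N 1 0 * ((κ - n : ℕ) : K) else 0)) * v n := rfl

theorem der_smul {K : Type} [Field K] (κ : ℕ) (a : K) (N : Matrix (Fin 2) (Fin 2) K) :
    der κ (a • N) = a • der κ N := by
  refine LinearMap.ext fun v => funext fun m => ?_
  rw [LinearMap.smul_apply, Pi.smul_apply, kder_apply, kder_apply, smul_eq_mul, Finset.mul_sum]
  refine Finset.sum_congr rfl fun n _ => ?_
  simp only [Matrix.smul_apply, smul_eq_mul]
  split_ifs <;> ring

lemma kder_ev2 {K : Type} [Field K] (κ : ℕ) (N : Matrix (Fin 2) (Fin 2) K) (v : Vk K κ) (x y : K) :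
    ev2 (der κ N v) x y = ∑ n : Fin (κ + 1), v n *
      (((n : ℕ) : K) * x ^ ((n : ℕ) - 1) * (N 0 0 * x + N 0 1 * y) * y ^ (κ - n) +
        x ^ (n : ℕ) * (((κ - n : ℕ) : K) * y ^ (κ - n - 1) * (N 1 0 * x + N 1 1 * y))) := by
  simp only [ev2, kder_apply, Finset.sum_mul]
  rw [Finset.sum_comm]
  refine Finset.sum_congr rfl fun n _ => ?_
  simp only [add_mul, Finset.sum_add_distrib, ite_mul, zero_mul]
  have h1 : (∑ m : Fin (κ + 1), if m = n then
      (N 0 0 * ((n : ℕ) : K) * v n * x ^ (m : ℕ) * y ^ (κ - m) +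
        N 1 1 * ((κ - n : ℕ) : K) * v n * x ^ (m : ℕ) * y ^ (κ - m)) else 0) =
      N 0 0 * ((n : ℕ) : K) * v n * x ^ (n : ℕ) * y ^ (κ - n) +
        N 1 1 * ((κ - n : ℕ) : K) * v n * x ^ (n : ℕ) * y ^ (κ - n) := by
    simp
  have h2 : (∑ m : Fin (κ + 1), if (m : ℕ) + 1 = n then
      N 0 1 * ((n : ℕ) : K) * v n * x ^ (m : ℕ) * y ^ (κ - m) else 0) =
      N 0 1 * ((n : ℕ) : K) * v n * x ^ ((n : ℕ) - 1) * (y * y ^ (κ - n)) := by
    obtain ⟨n, hn⟩ := n
    rcases n with _ | k
    · simp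
    · rw [Finset.sum_eq_single (⟨k, by omega⟩ : Fin (κ + 1))]
      · have : κ - k = (κ - (k + 1)) + 1 := by omega
        simp only [if_true, Nat.add_sub_cancel]
        rw [this, pow_succ y]
        ring
      · intro b _ hb
        rw [if_neg]
        intro h
        exact hb (Fin.ext (by simpa using h))
      · simp
  have h3 : (∑ m : Fin (κ + 1), if (m : ℕ) = n + 1 then
      N 1 0 * ((κ - n : ℕ) : K) * v n * x ^ (m : ℕ) * y ^ (κ - m) else 0) =
      N 1 0 * ((κ - n : ℕ) : K) * v n * (x * x ^ (n : ℕ)) * y ^ (κ - n - 1) := by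
    obtain ⟨n, hn⟩ := n
    by_cases hκ : n = κ
    · subst hκ
      simp
    · rw [Finset.sum_eq_single (⟨n + 1, by omega⟩ : Fin (κ + 1))]
      · simp only [if_true]
        rw [Nat.sub_sub, pow_succ x]
        ring
      · intro b _ hb
        rw [if_neg]
        intro h
        exact hb (Fin.ext h)
      · simp
  rw [h1, h2, h3]
  have h4 : ((n : ℕ) : K) * x ^ (n : ℕ) = ((n : ℕ) : K) * (x * x ^ ((n : ℕ) - 1)) := by
    rcases (n : ℕ) with _ | k
    · simp
    · rw [Nat.add_sub_cancel, pow_succ x]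
      ring
  have h5 : ((κ - n : ℕ) : K) * y ^ (κ - n) = ((κ - n : ℕ) : K) * (y * y ^ (κ - n - 1)) := by
    rcases (κ - n : ℕ) with _ | k
    · simp
    · rw [Nat.add_sub_cancel, pow_succ y]
      ring
  linear_combination (N 0 0 * v n * y ^ (κ - n)) * h4 + (N 1 1 * v n * x ^ (n : ℕ)) * h5

lemma kder_hasDerivAt (κ : ℕ) (N : Matrix (Fin 2) (Fin 2) (KP p)) (v : Vk (KP p) κ) (x y : KP p) :
    HasDerivAt (fun t : KP p => ev2 v (x + t * (N 0 0 * x + N 0 1 * y))
      (y + t * (N 1 0 * x + N 1 1 * y))) (ev2 (der κ N v) x y) 0 := by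
  rw [kder_ev2]
  unfold ev2
  refine HasDerivAt.fun_sum fun n _ => ?_
  have hx : HasDerivAt (fun t : KP p => x + t * (N 0 0 * x + N 0 1 * y))
      (N 0 0 * x + N 0 1 * y) 0 := by
    simpa using ((hasDerivAt_id (0 : KP p)).mul_const (N 0 0 * x + N 0 1 * y)).const_add x
  have hy : HasDerivAt (fun t : KP p => y + t * (N 1 0 * x + N 1 1 * y))
      (N 1 0 * x + N 1 1 * y) 0 := by
    simpa using ((hasDerivAt_id (0 : KP p)).mul_const (N 1 0 * x + N 1 1 * y)).const_add y
  refine (((hx.fun_pow (n : ℕ)).const_mul (v n)).fun_mul (hy.fun_pow (κ - n))).congr_deriv ?_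
  simp only [zero_mul, add_zero]
  ring

/-- `ev2 (der κ N v) x y` is the derivative at `t = 0` of
`ev2 v (x + t (N 0 0 x + N 0 1 y)) (y + t (N 1 0 x + N 1 1 y))`; use `ev2_vact`, `HasDerivAt.unique`
and `ev2_ext`. -/
theorem vact_der (κ : ℕ) (g : Mat) (N N' : Matrix (Fin 2) (Fin 2) (KP p))
    (h : N * zm (KP p) g = zm (KP p) g * N') (v : Vk (KP p) κ) :
    vact (KP p) κ g (der κ N v) = der κ N' (vact (KP p) κ g v) := by
  refine ev2_ext fun x => ?_
  have h1 := kder_hasDerivAt κ N' (vact (KP p) κ g v) x 1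
  have h2 := kder_hasDerivAt κ N v (g 0 0 * x + g 0 1 * 1) (g 1 0 * x + g 1 1 * 1)
  rw [ev2_vact]
  refine h2.unique ?_
  have e00 := congrFun (congrFun h 0) 0
  have e01 := congrFun (congrFun h 0) 1
  have e10 := congrFun (congrFun h 1) 0
  have e11 := congrFun (congrFun h 1) 1
  simp only [Matrix.mul_apply, Fin.sum_univ_two, Matrix.map_apply] at e00 e01 e10 e11
  refine h1.congr_of_eventuallyEq (Filter.Eventually.of_forall fun t => ?_)
  simp only [ev2_vact]
  congr 1
  · linear_combination (t * x) * e00 + t * e01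
  · linear_combination (t * x) * e10 + t * e11

lemma kder_taylor_le {z : KP p} (hz : ‖z‖ ≤ 1) (q : Polynomial (KP p)) {B : ℝ} (hB : 0 ≤ B)
    (hq : ∀ i, ‖q.coeff i‖ ≤ B) (i : ℕ) : ‖(Polynomial.taylor z q).coeff i‖ ≤ B := by
  rw [Polynomial.taylor_coeff, Polynomial.eval_eq_sum_range]
  refine IsUltrametricDist.norm_sum_le_of_forall_le_of_nonneg hB fun j _ => ?_
  rw [Polynomial.hasseDeriv_coeff, norm_mul, norm_mul, norm_pow]
  have h1 : ‖(((j + i).choose i : ℕ) : KP p)‖ ≤ 1 := IsUltrametricDist.norm_natCast_le_one _ _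
  have h2 : ‖z‖ ^ j ≤ 1 := pow_le_one₀ (norm_nonneg _) hz
  calc _ ≤ 1 * B * 1 := by gcongr; exact hq _
    _ = B := by ring

lemma kder_nat (κ n : ℕ) (h0 : n ≠ 0) (hn : n ≤ κ + 1) :
    1 ≤ (p : ℝ) ^ Nat.log p (κ + 1) * ‖(n : KP p)‖ := by
  have h1 : ‖(n : KP p)‖ = (p : ℝ) ^ (-(padicValNat p n : ℤ)) := by
    have := norm_int_eq p (n : ℤ)
    rw [Int.cast_natCast, Int.cast_natCast] at this
    rw [this, Padic.norm_eq_zpow_neg_valuation (by exact_mod_cast h0), Padic.valuation_natCast]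
  have h2 : padicValNat p n ≤ Nat.log p (κ + 1) :=
    (padicValNat_le_nat_log n).trans (Nat.log_mono_right hn)
  rw [h1, ← zpow_natCast, ← zpow_add₀ (p_pos p).ne']
  exact one_le_zpow₀ (one_lt_p p).le (by omega)

/-- The polynomial with coefficient vector `v`. -/
def kderP {K : Type} [Field K] {κ : ℕ} (v : Vk K κ) : Polynomial K :=
  ∑ j : Fin (κ + 1), Polynomial.monomial (j : ℕ) (v j)

lemma kderP_coeff {K : Type} [Field K] {κ : ℕ} (v : Vk K κ) (i : ℕ) :
    (kderP v).coeff i = if h : i < κ + 1 then v ⟨i, h⟩ else 0 := by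
  simp only [kderP, Polynomial.finsetSum_coeff, Polynomial.coeff_monomial]
  split_ifs with h
  · rw [Finset.sum_eq_single (⟨i, h⟩ : Fin (κ + 1))]
    · simp
    · intro b _ hb
      rw [if_neg]
      intro h'
      exact hb (Fin.ext h')
    · simp
  · refine Finset.sum_eq_zero fun b _ => if_neg ?_
    have := b.2
    omega

lemma kderP_eval {K : Type} [Field K] {κ : ℕ} (v : Vk K κ) (x : K) :
    (kderP v).eval x = ev2 v x 1 := by
  simp [kderP, ev2, Polynomial.eval_finsetSum]

lemma kderP_nil {K : Type} [Field K] [Infinite K] {κ : ℕ} (z : K) (v : Vk K κ) :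
    kderP (der κ (nil z) v) = (Polynomial.X - Polynomial.C z) *
      (Polynomial.C (κ : K) * kderP v - (Polynomial.X - Polynomial.C z) * (kderP v).derivative) := by
  apply Polynomial.funext
  intro x
  rw [kderP_eval, kder_ev2]
  simp only [kderP, Polynomial.eval_mul, Polynomial.eval_sub, Polynomial.eval_X, Polynomial.eval_C,
    Polynomial.derivative_sum, Polynomial.derivative_monomial, Polynomial.eval_finsetSum,
    Polynomial.eval_monomial, Finset.mul_sum, ← Finset.sum_sub_distrib]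
  refine Finset.sum_congr rfl fun n _ => ?_
  have hn : (n : ℕ) ≤ κ := by have := n.2; omega
  have h4 : ((n : ℕ) : K) * x ^ (n : ℕ) = ((n : ℕ) : K) * (x * x ^ ((n : ℕ) - 1)) := by
    rcases (n : ℕ) with _ | k
    · simp
    · rw [Nat.add_sub_cancel, pow_succ x]
      ring
  simp only [nil, Matrix.of_apply, Matrix.cons_val', Matrix.cons_val_zero, Matrix.cons_val_one,
    Matrix.cons_val_fin_one, one_pow, Nat.cast_sub hn]
  linear_combination (-(v n) * (x - z)) * h4

/-- For `f = ∑ v j X ^ j` of degree less than `κ`, `der κ (nil z) v` is the coefficient vector of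
`(X - z) (κ f - (X - z) f')`. Pass to Taylor expansions at `z` (`Polynomial.taylor`), which preserves the
largest norm of the coefficients as `‖z‖ ≤ 1`: if `f = ∑ a j (X - z) ^ j` the image is
`∑ (κ - j) a j (X - z) ^ (j + 1)`, and `‖κ - j‖⁻¹ ≤ p ^ log_p (κ + 1)` for `j < κ`. -/
theorem der_lower (κ : ℕ) {z : KP p} (hz : ‖z‖ ≤ 1) (v : Vk (KP p) κ) (hv : v (Fin.last κ) = 0) :
    ‖v‖ ≤ (p : ℝ) ^ Nat.log p (κ + 1) * ‖der κ (nil z) v‖ := by
  set B := ‖der κ (nil z) v‖ with hB
  have hB0 : 0 ≤ B := norm_nonneg _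
  have hL : (0 : ℝ) ≤ (p : ℝ) ^ Nat.log p (κ + 1) := by positivity
  have hF : ∀ i, ‖(kderP (der κ (nil z) v)).coeff i‖ ≤ B := fun i => by
    rw [kderP_coeff]
    split_ifs
    · exact norm_le_pi_norm _ _
    · simpa using hB0
  set g := Polynomial.taylor z (kderP v) with hg
  have hT : Polynomial.taylor z (kderP (der κ (nil z) v)) =
      Polynomial.X * (Polynomial.C (κ : KP p) * g - Polynomial.X * g.derivative) := by
    have hd : Polynomial.taylor z (kderP v).derivative = g.derivative := by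
      rw [hg, Polynomial.taylor_apply, Polynomial.taylor_apply, Polynomial.derivative_comp]
      simp
    rw [kderP_nil, Polynomial.taylor_mul, map_sub, map_sub, Polynomial.taylor_mul,
      Polynomial.taylor_mul, map_sub, Polynomial.taylor_X, Polynomial.taylor_C,
      Polynomial.taylor_C, hd, add_sub_cancel_right]
  have hdeg : g.degree < κ := by
    rw [hg, Polynomial.degree_taylor, Polynomial.degree_lt_iff_coeff_zero]
    intro m hm
    rw [kderP_coeff]
    split_ifs with h
    · have : (⟨m, h⟩ : Fin (κ + 1)) = Fin.last κ := Fin.ext (by simp only [Fin.val_last]; omega)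
      rw [this, hv]
    · rfl
  have hgc : ∀ i, ‖g.coeff i‖ ≤ (p : ℝ) ^ Nat.log p (κ + 1) * B := fun i => by
    by_cases hi : i < κ
    · have h1 := kder_taylor_le hz _ hB0 hF (i + 1)
      have h2 : (Polynomial.X * g.derivative).coeff i = (i : KP p) * g.coeff i := by
        rcases i with _ | k
        · simp
        · rw [Polynomial.coeff_X_mul, Polynomial.coeff_derivative]
          push_cast
          ring
      rw [hT, Polynomial.coeff_X_mul, Polynomial.coeff_sub, Polynomial.coeff_C_mul, h2, ← sub_mul,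
        ← Nat.cast_sub hi.le, norm_mul] at h1
      have h3 := kder_nat (p := p) κ (κ - i) (by omega) (by omega)
      calc ‖g.coeff i‖ = 1 * ‖g.coeff i‖ := (one_mul _).symm
        _ ≤ ((p : ℝ) ^ Nat.log p (κ + 1) * ‖((κ - i : ℕ) : KP p)‖) * ‖g.coeff i‖ := by gcongr
        _ ≤ _ := by
          rw [mul_assoc]
          gcongr
    · rw [(Polynomial.degree_lt_iff_coeff_zero _ _).1 hdeg i (by omega), norm_zero]
      positivity
  have hf : kderP v = Polynomial.taylor (-z) g := by
    rw [hg, Polynomial.taylor_taylor, neg_add_cancel, Polynomial.taylor_zero]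
  refine (pi_norm_le_iff_of_nonneg (by positivity)).2 fun j => ?_
  have := kder_taylor_le (z := -z) (by rwa [norm_neg]) g (by positivity) hgc j
  rwa [← hf, kderP_coeff, dif_pos j.2] at this

theorem nil_S {z : KP p} (hz : z ^ 2 + 1 = 0) :
    nil z * zm (KP p) ((ModularGroup.S : SL(2, ℤ)) : Mat) =
      zm (KP p) ((ModularGroup.S : SL(2, ℤ)) : Mat) * ((-1 : KP p) • nil z) := by
  ext i j
  fin_cases i <;> fin_cases j <;>
    simp [nil, ModularGroup.S, Matrix.mul_apply, Fin.sum_univ_two] <;>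
    first | linear_combination hz | linear_combination -hz

theorem nil_ST {z : KP p} (hz : z ^ 2 + z + 1 = 0) :
    nil z * zm (KP p) ((ModularGroup.S * ModularGroup.T : SL(2, ℤ)) : Mat) =
      zm (KP p) ((ModularGroup.S * ModularGroup.T : SL(2, ℤ)) : Mat) * (z ^ 2 • nil z) := by
  have h : ((ModularGroup.S * ModularGroup.T : SL(2, ℤ)) : Mat) = !![0, -1; 1, 1] := by
    rw [Matrix.SpecialLinearGroup.coe_mul, ModularGroup.coe_S, ModularGroup.coe_T]
    simp
  rw [h]
  ext i j
  fin_cases i <;> fin_cases j <;>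
    simp [nil, Matrix.mul_apply, Fin.sum_univ_two]
  · linear_combination (-z) * hz
  · linear_combination (-z) * hz
  · linear_combination (z ^ 2 - 1) * hz

end Pool.Agent.Lib.MP_88d29b_nt.G
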