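import Pool.Agent.Lib.MP_88d29b_nt.KPlk

set_option autoImplicit false

noncomputable section

namespace Pool.Agent.Lib.MP_88d29b_nt.G

open Finset CongruenceSubgroup Matrix
open scoped MatrixGroups

variable {K : Type} [NormedField K] [IsUltrametricDist K] {U U' : Type} [AddCommGroup U] [Module K U]
  [Module.Finite K U] [AddCommGroup U'] [Module K U'] [Module.Finite K U'] {m m' : Type} [Fintype m]
  [Fintype m'] {p : ℕ} {φ1 φ2 : U →ₗ[K] (m → K)} {ψ1 ψ2 : U' →ₗ[K] (m' → K)}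

section Aux

variable {ι ι' : Type} [Fintype ι] [DecidableEq ι] [Fintype ι'] [DecidableEq ι']

omit [IsUltrametricDist K] [Module.Finite K U] [Fintype m] [DecidableEq ι] in
theorem kidx_mulVec (φ : U →ₗ[K] (m → K)) (v : ι → U) (x : ι → K) :
    famM φ v *ᵥ x = φ (∑ j, x j • v j) := by
  ext i
  simp [famM, Matrix.mulVec, dotProduct, map_sum, mul_comm]

omit [IsUltrametricDist K] [Module.Finite K U] [Fintype m] [DecidableEq ι] in
theorem kidx_inj {φ : U →ₗ[K] (m → K)} (hφ : Function.Injective φ) {v : ι → U}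
    (hv : LinearIndependent K v) : Function.Injective (famM φ v).mulVec := by
  intro x y h
  rw [kidx_mulVec, kidx_mulVec] at h
  exact funext (Fintype.linearIndependent_iffₛ.1 hv x y (hφ h))

omit [IsUltrametricDist K] [Module.Finite K U] in
theorem kidx_inj1 (hφ : NPair φ1 φ2) : Function.Injective φ1 := by
  refine (injective_iff_map_eq_zero _).2 fun u hu => hφ.inj ?_
  have h := hφ.le u
  rw [hu, norm_zero, norm_le_zero_iff] at h
  rw [h, map_zero]

omit [IsUltrametricDist K] [Module.Finite K U] [Fintype m] [DecidableEq ι] [Fintype ι']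
  [DecidableEq ι'] in
theorem kidx_comb (φ : U →ₗ[K] (m → K)) (v : ι → U) (g : Matrix ι ι' K) :
    famM φ (fun j => ∑ i, g i j • v i) = famM φ v * g := by
  ext i j
  simp [famM, Matrix.mul_apply, map_sum, mul_comm]

omit [IsUltrametricDist K] [Module.Finite K U] [Fintype m] [Fintype ι] [DecidableEq ι] [Fintype ι']
  [DecidableEq ι'] in
theorem kidx_elim (φ : U →ₗ[K] (m → K)) (v : ι → U) (w : ι' → U) :
    famM φ (Sum.elim v w) = Matrix.fromCols (famM φ v) (famM φ w) := by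
  ext i (j | j) <;> rfl

omit [IsUltrametricDist K] [Module.Finite K U] [Fintype m] in
theorem kidx_li {φ : U →ₗ[K] (m → K)} {v : ι → U} (h : 0 < plk (famM φ v)) :
    LinearIndependent K v := by
  rw [Fintype.linearIndependent_iff]
  intro x hx
  by_contra hc
  have hx0 : x ≠ 0 := fun e => hc fun i => congrFun e i
  refine absurd h (not_lt.2 (plk_le _ le_rfl fun f => ?_))
  rw [norm_le_zero_iff, ← Matrix.exists_mulVec_eq_zero_iff]
  refine ⟨x, hx0, funext fun i => ?_⟩
  have h1 := congrFun (kidx_mulVec φ v x) (f i)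
  rw [hx, map_zero] at h1
  exact h1

omit [IsUltrametricDist K] in
theorem kidx_basis (E : Submodule K U) :
    LinearIndependent K (fun j => (Module.finBasis K E j : U)) ∧
      Submodule.span K (Set.range fun j => (Module.finBasis K E j : U)) = E := by
  refine ⟨(Module.finBasis K E).linearIndependent.map' E.subtype E.ker_subtype, ?_⟩
  have h : (Set.range fun j => (Module.finBasis K E j : U)) =
      E.subtype '' Set.range (Module.finBasis K E) := Set.range_comp E.subtype _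
  rw [h, Submodule.span_image, Module.Basis.span_eq, Submodule.map_top, Submodule.range_subtype]

omit [IsUltrametricDist K] [Module.Finite K U] [Fintype ι] [DecidableEq ι] in
theorem kidx_col {φ : U →ₗ[K] (m → K)} {w : ι → U} (h : EntLe (famM φ w) 1) (j : ι) :
    ‖φ (w j)‖ ≤ 1 :=
  (pi_norm_le_iff_of_nonneg zero_le_one).2 fun i => h i j

/-- A basis of `E` extends to a basis of `E'` that is orthogonal for `φ`. -/
theorem kidx_ext {φ : U →ₗ[K] (m → K)} (hφ : Function.Injective φ) {E E' : Submodule K U}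
    (h : E ≤ E') : ∃ (n c : ℕ) (v : Fin n → U) (w : Fin c → U), LinearIndependent K v ∧
      Submodule.span K (Set.range v) = E ∧ LinearIndependent K (Sum.elim v w) ∧
      Submodule.span K (Set.range (Sum.elim v w)) = E' ∧
      Module.finrank K E' = Module.finrank K E + c ∧ (∀ j, ‖φ (w j)‖ ≤ 1) ∧
      plk (famM φ (Sum.elim v w)) = plk (famM φ v) := by
  obtain ⟨Q, hQ⟩ := E.exists_isCompl
  obtain ⟨hv, hvE⟩ := kidx_basis E
  obtain ⟨hw, hwE⟩ := kidx_basis (Q ⊓ E')
  generalize (fun j => (Module.finBasis K (Q ⊓ E' : Submodule K U) j : U)) = w at hw hwE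
  generalize (fun j => (Module.finBasis K E j : U)) = v at hv hvE
  have hli : LinearIndependent K (Sum.elim v w) := hv.sum_type hw (by
    rw [hvE, hwE]
    exact hQ.disjoint.mono_right inf_le_left)
  have hsp : Submodule.span K (Set.range (Sum.elim v w)) = E' := by
    rw [Set.Sum.elim_range, Submodule.span_union, hvE, hwE, ← sup_inf_assoc_of_le _ h,
      hQ.sup_eq_top, top_inf_eq]
  have hrk : Module.finrank K E' =
      Fintype.card (Fin (Module.finrank K E) ⊕ Fin (Module.finrank K (Q ⊓ E' : Submodule K U))) := by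
    rw [← finrank_span_eq_card hli, hsp]
  obtain ⟨g, u, -, h1, h2⟩ := exists_orth (famM φ v) (famM φ w) (by
    rw [← kidx_elim]
    exact kidx_inj hφ hli)
  have e : famM φ (fun j => ∑ i, g i j • w i + ∑ i, u i j • v i) = famM φ w * g + famM φ v * u := by
    rw [← kidx_comb, ← kidx_comb]
    ext i j
    simp only [famM, Matrix.of_apply, Matrix.add_apply, map_add, Pi.add_apply]
  rw [← e] at h1
  rw [← e, ← kidx_elim] at h2
  have hli' := kidx_li (h2 ▸ plk_pos _ (kidx_inj hφ hv) :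
    0 < plk (famM φ (Sum.elim v fun j => ∑ i, g i j • w i + ∑ i, u i j • v i)))
  refine ⟨_, _, v, _, hv, hvE, hli', ?_, by simpa using hrk, kidx_col h1, h2⟩
  refine Submodule.eq_of_le_of_finrank_eq (Submodule.span_le.2 ?_) ?_
  · have a1 : ∀ j, v j ∈ E' := fun j => h (hvE ▸ Submodule.subset_span ⟨j, rfl⟩)
    have a2 : ∀ j, w j ∈ E' := fun j =>
      (inf_le_right : Q ⊓ E' ≤ E') (hwE ▸ Submodule.subset_span ⟨j, rfl⟩)
    rintro _ ⟨j | j, rfl⟩
    · exact a1 j
    · exact E'.add_mem (E'.sum_mem fun i _ => E'.smul_mem _ (a2 i))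
        (E'.sum_mem fun i _ => E'.smul_mem _ (a1 i))
  · rw [finrank_span_eq_card hli', hrk]

end Aux

omit [IsUltrametricDist K] in
/-- Independence of the basis (`plk_reindex`, `plk_mul`, `plk_pos`). -/
theorem lidx_eq (hφ : NPair φ1 φ2) (E : Submodule K U) {ι : Type} [Fintype ι] [DecidableEq ι]
    (v : ι → U) (hv : LinearIndependent K v) (hE : Submodule.span K (Set.range v) = E) :
    0 < plk (famM φ1 v) ∧ 0 < plk (famM φ2 v) ∧
      lidx p φ1 φ2 E = Real.logb p (plk (famM φ1 v)) - Real.logb p (plk (famM φ2 v)) := by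
  have h1 := plk_pos _ (kidx_inj (kidx_inj1 hφ) hv)
  have h2 := plk_pos _ (kidx_inj hφ.inj hv)
  refine ⟨h1, h2, ?_⟩
  have hc : Fintype.card ι = Module.finrank K E := by rw [← finrank_span_eq_card hv, hE]
  let e : ι ≃ Fin (Module.finrank K E) := Fintype.equivFinOfCardEq hc
  have hm : ∀ j, v j ∈ E := fun j => hE ▸ Submodule.subset_span ⟨j, rfl⟩
  let g : Matrix ι ι K := fun i j => (Module.finBasis K E).repr ⟨v j, hm j⟩ (e i)
  have hg : v = fun j => ∑ i, g i j • (Module.finBasis K E (e i) : U) := by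
    funext j
    have h3 := congrArg E.subtype ((Module.finBasis K E).sum_repr ⟨v j, hm j⟩)
    rw [map_sum, ← e.sum_comp] at h3
    exact h3.symm
  have key : ∀ φ : U →ₗ[K] (m → K), plk (famM φ v) =
      plk (famM φ fun j => (Module.finBasis K E j : U)) * ‖g.det‖ := fun φ => by
    rw [← plk_reindex _ e, ← plk_mul]
    conv_lhs => rw [hg, kidx_comb]
    rfl
  rw [key] at h1 h2
  rw [key, key, ← Real.logb_div h1.ne' h2.ne', lidx,
    mul_div_mul_right _ _ (right_ne_zero_of_mul h1.ne')]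

/-- Extend a basis of `E` to a basis of `E'` that is orthogonal for `φ1` (`exists_orth`); the new
vectors have `φ2`-norm at most one (`plk_fromCols_le`). -/
theorem lidx_mono (hp : 1 < p) (hφ : NPair φ1 φ2) {E E' : Submodule K U} (h : E ≤ E') :
    lidx p φ1 φ2 E ≤ lidx p φ1 φ2 E' := by
  have hp' : (1 : ℝ) < p := by exact_mod_cast hp
  obtain ⟨n, c, v, w, hv, hE, hw, hE', -, h1, h2⟩ := kidx_ext (kidx_inj1 hφ) h
  obtain ⟨-, -, e1⟩ := lidx_eq (p := p) hφ E v hv hE
  obtain ⟨-, a2, e2⟩ := lidx_eq (p := p) hφ E' _ hw hE'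
  have h3 := plk_fromCols_le (famM φ2 v) (famM φ2 w) zero_le_one fun i j =>
    (norm_le_pi_norm (φ2 (w j)) i).trans ((hφ.le _).trans (h1 j))
  rw [one_pow, mul_one, ← kidx_elim] at h3
  have h4 := Real.logb_le_logb_of_le hp' a2 h3
  rw [e1, e2, h2]
  linarith

/-- The same with a basis that is orthogonal for `φ2`. -/
theorem lidx_le_of_codim (hp : 1 < p) (hφ : NPair φ1 φ2) {E E' : Submodule K U} (h : E ≤ E') {c : ℕ}
    (hc : Module.finrank K E' ≤ Module.finrank K E + c) {A : ℝ} (hA : 1 ≤ A)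
    (hn : ∀ u, ‖φ1 u‖ ≤ A * ‖φ2 u‖) :
    lidx p φ1 φ2 E' ≤ lidx p φ1 φ2 E + c * Real.logb p A := by
  have hp' : (1 : ℝ) < p := by exact_mod_cast hp
  have hA0 : 0 < A := zero_lt_one.trans_le hA
  obtain ⟨n, c', v, w, hv, hE, hw, hE', hrk, h1, h2⟩ := kidx_ext hφ.inj h
  obtain ⟨a1, -, e1⟩ := lidx_eq (p := p) hφ E v hv hE
  obtain ⟨a2, -, e2⟩ := lidx_eq (p := p) hφ E' _ hw hE'
  have h3 := plk_fromCols_le (famM φ1 v) (famM φ1 w) hA0.le fun i j =>
    (norm_le_pi_norm (φ1 (w j)) i).trans ((hn _).trans (mul_le_of_le_one_right hA0.le (h1 j)))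
  rw [← kidx_elim, Fintype.card_fin] at h3
  have h4 := Real.logb_le_logb_of_le hp' a2 h3
  rw [Real.logb_mul a1.ne' (pow_pos hA0 _).ne', Real.logb_pow] at h4
  have h5 : (c' : ℝ) ≤ c := by exact_mod_cast (by omega : c' ≤ c)
  have h6 := mul_le_mul_of_nonneg_right h5 (Real.logb_nonneg hp' hA)
  rw [e1, e2, h2]
  linarith

/-- `f` is injective on `E`; compare `E` with `E.map f` by `plk_le_of_norm`, then `lidx_mono`. -/
theorem lidx_map_le (hp : 1 < p) (hφ : NPair φ1 φ2) (hψ : NPair ψ1 ψ2) (f : U →ₗ[K] U')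
    {E : Submodule K U} {E' : Submodule K U'} (hE : ∀ u ∈ E, f u ∈ E') {a1 a2 : ℝ} (ha1 : 1 ≤ a1)
    (ha2 : 1 ≤ a2) (h1 : ∀ u ∈ E, ‖φ1 u‖ ≤ a1 * ‖ψ1 (f u)‖)
    (h2 : ∀ u ∈ E, ‖ψ2 (f u)‖ ≤ a2 * ‖φ2 u‖) :
    lidx p φ1 φ2 E ≤ lidx p ψ1 ψ2 E' + Module.finrank K U * Real.logb p (a1 * a2) := by
  have hp' : (1 : ℝ) < p := by exact_mod_cast hp
  have ha1' : 0 < a1 := zero_lt_one.trans_le ha1
  have ha2' : 0 < a2 := zero_lt_one.trans_le ha2
  obtain ⟨hv, hvE⟩ := kidx_basis E
  have hn : (Module.finrank K E : ℝ) ≤ Module.finrank K U := by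
    exact_mod_cast Submodule.finrank_le E
  generalize (fun j => (Module.finBasis K E j : U)) = v at hv hvE
  obtain ⟨b1, b2, e1⟩ := lidx_eq (p := p) hφ E v hv hvE
  have hm : ∀ j, v j ∈ E := fun j => hvE ▸ Submodule.subset_span ⟨j, rfl⟩
  have hs : ∀ x : Fin (Module.finrank K E) → K, ∑ j, x j • v j ∈ E := fun x =>
    E.sum_mem fun j _ => E.smul_mem _ (hm j)
  have hf : ∀ x : Fin (Module.finrank K E) → K, ∑ j, x j • f (v j) = f (∑ j, x j • v j) :=
    fun x => by simp only [map_sum, map_smul]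
  have c1 := plk_le_of_norm (famM φ1 v) (famM ψ1 fun j => f (v j)) ha1'.le fun x => by
    rw [kidx_mulVec, kidx_mulVec, hf]
    exact h1 _ (hs x)
  have c2 := plk_le_of_norm (famM ψ2 fun j => f (v j)) (famM φ2 v) ha2'.le fun x => by
    rw [kidx_mulVec, kidx_mulVec, hf]
    exact h2 _ (hs x)
  rw [Fintype.card_fin] at c1 c2
  have hli : LinearIndependent K fun j => f (v j) :=
    kidx_li (φ := ψ1) ((mul_pos_iff_of_pos_left (pow_pos ha1' _)).1 (b1.trans_le c1))
  obtain ⟨b3, b4, e2⟩ := lidx_eq (p := p) hψ _ _ hli rfl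
  have h3 := lidx_mono hp hψ (E := Submodule.span K (Set.range fun j => f (v j))) (E' := E')
    (Submodule.span_le.2 (by
      rintro _ ⟨j, rfl⟩
      exact hE _ (hm j)))
  have d1 := Real.logb_le_logb_of_le hp' b1 c1
  have d2 := Real.logb_le_logb_of_le hp' b4 c2
  rw [Real.logb_mul (pow_pos ha1' _).ne' b3.ne', Real.logb_pow] at d1
  rw [Real.logb_mul (pow_pos ha2' _).ne' b2.ne', Real.logb_pow] at d2
  have h4 := mul_le_mul_of_nonneg_right hn
    (add_nonneg (Real.logb_nonneg hp' ha1) (Real.logb_nonneg hp' ha2))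
  rw [Real.logb_mul ha1'.ne' ha2'.ne', e1]
  linarith

omit [IsUltrametricDist K] [Module.Finite K U] [Module.Finite K U'] in
theorem NPair.pair (hφ : NPair φ1 φ2) (hψ : NPair ψ1 ψ2) : NPair (pairM φ1 ψ1) (pairM φ2 ψ2) := by
  refine ⟨fun x y h => Prod.ext (hφ.inj (funext fun i => congrFun h (Sum.inl i)))
    (hψ.inj (funext fun i => congrFun h (Sum.inr i))), fun u => ?_⟩
  rw [norm_pairM, norm_pairM]
  exact max_le_max (hφ.le _) (hψ.le _)

theorem lidx_prod (hφ : NPair φ1 φ2) (hψ : NPair ψ1 ψ2) (E : Submodule K U) (E' : Submodule K U') :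
    lidx p (pairM φ1 ψ1) (pairM φ2 ψ2) (E.prod E') = lidx p φ1 φ2 E + lidx p ψ1 ψ2 E' := by
  obtain ⟨hv, hvE⟩ := kidx_basis E
  obtain ⟨hw, hwE⟩ := kidx_basis E'
  generalize (fun j => (Module.finBasis K E j : U)) = v at hv hvE
  generalize (fun j => (Module.finBasis K E' j : U')) = w at hw hwE
  obtain ⟨a1, a2, e1⟩ := lidx_eq (p := p) hφ E v hv hvE
  obtain ⟨b1, b2, e2⟩ := lidx_eq (p := p) hψ E' w hw hwE
  have key : ∀ (φ : U →ₗ[K] (m → K)) (ψ : U' →ₗ[K] (m' → K)),
      plk (famM (pairM φ ψ) (Sum.elim (LinearMap.inl K U U' ∘ v) (LinearMap.inr K U U' ∘ w))) =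
        plk (famM φ v) * plk (famM ψ w) := fun φ ψ => by
    rw [← plk_fromBlocks]
    congr 1
    ext (i | i) (j | j) <;> simp [famM, pairM]
  have hli := kidx_li ((key φ1 ψ1).symm ▸ mul_pos a1 b1 : 0 < plk (famM (pairM φ1 ψ1)
    (Sum.elim (LinearMap.inl K U U' ∘ v) (LinearMap.inr K U U' ∘ w))))
  obtain ⟨-, -, e3⟩ := lidx_eq (p := p) (hφ.pair hψ) (E.prod E') _ hli (by
    rw [Set.Sum.elim_range, Set.range_comp, Set.range_comp, LinearMap.span_inl_union_inr, hvE, hwE])
  rw [e1, e2, e3, key, key, Real.logb_mul a1.ne' b1.ne', Real.logb_mul a2.ne' b2.ne']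
  ring

omit [IsUltrametricDist K] in
theorem lidx_top_diag (δ : m → K) (h0 : ∀ i, δ i ≠ 0) (h1 : ∀ i, ‖δ i‖ ≤ 1) :
    NPair (LinearMap.id : (m → K) →ₗ[K] (m → K)) (diagM δ) ∧
      lidx p (LinearMap.id : (m → K) →ₗ[K] (m → K)) (diagM δ) ⊤ = -∑ i, Real.logb p ‖δ i‖ := by
  classical
  have hN : NPair (LinearMap.id : (m → K) →ₗ[K] (m → K)) (diagM δ) := by
    refine ⟨fun x y h => funext fun i => mul_left_cancel₀ (h0 i) (congrFun h i), fun u => ?_⟩
    refine (pi_norm_le_iff_of_nonneg (norm_nonneg _)).2 fun i => ?_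
    change ‖δ i * u i‖ ≤ ‖u‖
    rw [norm_mul]
    exact (mul_le_of_le_one_left (norm_nonneg _) (h1 i)).trans (norm_le_pi_norm u i)
  refine ⟨hN, ?_⟩
  obtain ⟨a1, -, e1⟩ := lidx_eq (p := p) hN ⊤ _ (Pi.basisFun K m).linearIndependent
    (Pi.basisFun K m).span_eq
  have e2 : famM (diagM δ) (Pi.basisFun K m) =
      famM (LinearMap.id : (m → K) →ₗ[K] (m → K)) (Pi.basisFun K m) * Matrix.diagonal δ := by
    ext i j
    rw [Matrix.mul_diagonal]
    by_cases h : i = j
    · subst h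
      simp [famM, diagM]
    · simp [famM, diagM, h]
  have hne : ∀ i ∈ (univ : Finset m), ‖δ i‖ ≠ 0 := fun i _ => norm_ne_zero_iff.2 (h0 i)
  rw [e1, e2, plk_mul, Matrix.det_diagonal, norm_prod,
    Real.logb_mul a1.ne' (Finset.prod_ne_zero_iff.2 hne), Real.logb_prod _ _ hne]
  ring

end Pool.Agent.Lib.MP_88d29b_nt.G
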