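import Pool.Agent.Lib.MP_88d29b_nt.KWt
import Pool.Agent.Lib.MP_88d29b_nt.KDer
import Pool.Agent.Lib.MP_88d29b_nt.KIdx

set_option autoImplicit false

noncomputable section

namespace Pool.Agent.Lib.MP_88d29b_nt.G

open Finset CongruenceSubgroup Matrix
open scoped MatrixGroups

variable {p : ℕ} [Fact p.Prime] {e : ℕ → ℕ} {Γ : Subgroup SL(2, ℤ)} [Γ.FiniteIndex] {κ : ℕ}

theorem kind_vact_mul (g g' : SL(2, ℤ)) (v : Vk (KP p) κ) :
    vact (KP p) κ ((g * g' : SL(2, ℤ)) : Mat) v =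
      vact (KP p) κ (g' : Mat) (vact (KP p) κ (g : Mat) v) := by
  rw [Matrix.SpecialLinearGroup.coe_mul, vact_mul, LinearMap.comp_apply]

theorem kind_vact_one (v : Vk (KP p) κ) : vact (KP p) κ ((1 : SL(2, ℤ)) : Mat) v = v := by
  rw [Matrix.SpecialLinearGroup.coe_one, vact_one, LinearMap.id_apply]

theorem kind_vact_inv (g : SL(2, ℤ)) (v : Vk (KP p) κ) :
    vact (KP p) κ ((g⁻¹ : SL(2, ℤ)) : Mat) (vact (KP p) κ (g : Mat) v) = v := by
  rw [← kind_vact_mul, mul_inv_cancel, kind_vact_one]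

theorem kind_vact_inv' (g : SL(2, ℤ)) (v : Vk (KP p) κ) :
    vact (KP p) κ (g : Mat) (vact (KP p) κ ((g⁻¹ : SL(2, ℤ)) : Mat) v) = v := by
  rw [← kind_vact_mul, inv_mul_cancel, kind_vact_one]

omit [Γ.FiniteIndex] in
theorem kind_neg_smul (hneg : (-1 : SL(2, ℤ)) ∈ Γ) (x : SL(2, ℤ) ⧸ Γ) :
    (-1 : SL(2, ℤ)) • x = x := by
  induction x using QuotientGroup.induction_on with
  | H g =>
    change (((-1 : SL(2, ℤ)) * g : SL(2, ℤ)) : SL(2, ℤ) ⧸ Γ) = _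
    rw [QuotientGroup.eq]
    simpa using hneg

omit [Γ.FiniteIndex] in
theorem kind_smul_x0 (γ : Γ) : (γ : SL(2, ℤ)) • x0 Γ = x0 Γ := by
  change (((γ : SL(2, ℤ)) * 1 : SL(2, ℤ)) : SL(2, ℤ) ⧸ Γ) = _
  rw [QuotientGroup.eq]
  simp

omit [Γ.FiniteIndex] in
theorem kind_cc_mul (g g' : SL(2, ℤ)) (x : SL(2, ℤ) ⧸ Γ) :
    cc (g * g') x = cc g (g' • x) * cc g' x := by
  apply Subtype.ext
  simp only [cc, Subgroup.coe_mul, mul_smul]
  group

theorem norm_ph1_le {F : IV p Γ κ} {a : ℝ} (ha : 0 ≤ a) : ‖ph1 p Γ κ F‖ ≤ a ↔ ∀ x, ‖F x‖ ≤ a := by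
  rw [pi_norm_le_iff_of_nonneg ha, Prod.forall]
  exact forall_congr' fun x => (pi_norm_le_iff_of_nonneg ha).symm

theorem norm_ph2_le {F : IV p Γ κ} {a : ℝ} (ha : 0 ≤ a) : ‖ph2 p e Γ κ F‖ ≤ a ↔
    ∀ x, ‖dg p e κ (vact (KP p) κ ((rp x : SL(2, ℤ)) : Mat) (F x))‖ ≤ a := by
  rw [pi_norm_le_iff_of_nonneg ha, Prod.forall]
  exact forall_congr' fun x => (pi_norm_le_iff_of_nonneg ha).symm

theorem npair_ph : NPair (ph1 p Γ κ) (ph2 p e Γ κ) := by
  refine ⟨(injective_iff_map_eq_zero _).2 fun F hF => ?_, fun F => ?_⟩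
  · funext x
    have h1 : vact (KP p) κ ((rp x : SL(2, ℤ)) : Mat) (F x) = 0 := by
      funext j
      have h2 : (p : KP p) ^ e j * vact (KP p) κ ((rp x : SL(2, ℤ)) : Mat) (F x) j = 0 :=
        congrFun hF (x, j)
      exact (mul_eq_zero.1 h2).resolve_left (pow_ne_zero _ (p_ne_zero p))
    rw [← kind_vact_inv (rp x) (F x), h1, map_zero]
    rfl
  · refine (norm_ph2_le (norm_nonneg _)).2 fun x => ?_
    exact (norm_dg_le e _).trans ((norm_vact_le _ _).trans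
      ((norm_ph1_le (norm_nonneg _)).1 le_rfl x))

theorem npair_z (W : Submodule (KP p) (IV p Γ κ)) : NPair (z1 p W) (z2 p e W) := by
  have h := (npair_ph (p := p) (e := e) (Γ := Γ) (κ := κ)).pair
    (npair_ph (p := p) (e := e) (Γ := Γ) (κ := κ))
  exact ⟨h.inj.comp (evSR_injective p W), fun C => h.le (evSR p W C)⟩

theorem ph1_le_ph2 (he : Steps e) (F : IV p Γ κ) :
    ‖ph1 p Γ κ F‖ ≤ (p : ℝ) ^ e 0 * ‖ph2 p e Γ κ F‖ := by
  have hp : (0 : ℝ) ≤ (p : ℝ) ^ e 0 := by positivity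
  refine (norm_ph1_le (mul_nonneg hp (norm_nonneg _))).2 fun x => ?_
  rw [← norm_vact_SL (rp x) (F x)]
  exact (norm_le_dg he _).trans
    (mul_le_mul_of_nonneg_left ((norm_ph2_le (norm_nonneg _)).1 le_rfl x) hp)

theorem ph1_iact (g : SL(2, ℤ)) (F : IV p Γ κ) : ‖ph1 p Γ κ (iact p Γ κ g F)‖ ≤ ‖ph1 p Γ κ F‖ := by
  refine (norm_ph1_le (norm_nonneg _)).2 fun x => ?_
  rw [iact_apply]
  exact (norm_vact_le _ _).trans ((norm_ph1_le (norm_nonneg _)).1 le_rfl _)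

/-- `F(g x) | g r_x = (F(g x) | r_(g x)) | cc g x`. -/
theorem ph2_iact (h : WInvt p e κ Γ) (g : SL(2, ℤ)) (F : IV p Γ κ) :
    ‖ph2 p e Γ κ (iact p Γ κ g F)‖ ≤ ‖ph2 p e Γ κ F‖ := by
  refine (norm_ph2_le (norm_nonneg _)).2 fun x => ?_
  have e1 : g * rp x = rp (g • x) * (cc g x : SL(2, ℤ)) := by
    simp only [cc]
    group
  rw [iact_apply, ← kind_vact_mul, e1, kind_vact_mul]
  exact (h _ (cc g x).2 _).trans ((norm_ph2_le (norm_nonneg _)).1 le_rfl _)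

/-- `vact_der` with `N' = r⁻¹ N r`, and `dg_der`. -/
theorem ph2_ider (he : Steps e) (N : Matrix (Fin 2) (Fin 2) (KP p)) (hN : EntLe N 1) (F : IV p Γ κ) :
    ‖ph2 p e Γ κ (ider p Γ κ ((p : KP p) • N) F)‖ ≤ ‖ph2 p e Γ κ F‖ := by
  refine (norm_ph2_le (norm_nonneg _)).2 fun x => ?_
  have h1 : EntLe (zm (KP p) (((rp x)⁻¹ : SL(2, ℤ)) : Mat) * N *
      zm (KP p) ((rp x : SL(2, ℤ)) : Mat)) 1 := by
    have h2 := EntLe.mul (mul_nonneg zero_le_one zero_le_one) zero_le_one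
      (EntLe.mul zero_le_one zero_le_one (entLe_zm (K := KP p) (((rp x)⁻¹ : SL(2, ℤ)) : Mat)) hN)
      (entLe_zm (K := KP p) ((rp x : SL(2, ℤ)) : Mat))
    rwa [mul_one, mul_one] at h2
  have h3 : zm (KP p) ((rp x : SL(2, ℤ)) : Mat) * zm (KP p) (((rp x)⁻¹ : SL(2, ℤ)) : Mat) = 1 := by
    have h4 := Matrix.map_mul (L := ((rp x : SL(2, ℤ)) : Mat)) (M := (((rp x)⁻¹ : SL(2, ℤ)) : Mat))
      (f := Int.castRingHom (KP p))
    rw [← Matrix.SpecialLinearGroup.coe_mul, mul_inv_cancel, Matrix.SpecialLinearGroup.coe_one,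
      Matrix.map_one _ (map_zero _) (map_one _)] at h4
    exact h4.symm
  have h5 : ider p Γ κ ((p : KP p) • N) F x = der κ ((p : KP p) • N) (F x) := rfl
  rw [h5, vact_der κ _ ((p : KP p) • N) ((p : KP p) • (zm (KP p) (((rp x)⁻¹ : SL(2, ℤ)) : Mat) * N *
    zm (KP p) ((rp x : SL(2, ℤ)) : Mat)))]
  · exact (dg_der he _ h1 _).trans ((norm_ph2_le (norm_nonneg _)).1 le_rfl x)
  · rw [Matrix.smul_mul, Matrix.mul_smul, ← Matrix.mul_assoc, ← Matrix.mul_assoc, h3,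
      Matrix.one_mul]

theorem finrank_IV : Module.finrank (KP p) (IV p Γ κ) = Γ.index * (κ + 1) := by
  rw [Module.finrank_pi_fintype, sum_const, card_univ, smul_eq_mul, Module.finrank_fin_fun,
    Subgroup.index, Nat.card_eq_fintype_card]

/-- The isomorphism with functions on the product. -/
def kind_to (p : ℕ) [Fact p.Prime] (Γ : Subgroup SL(2, ℤ)) (κ : ℕ) :
    IV p Γ κ →ₗ[KP p] ((SL(2, ℤ) ⧸ Γ) × Fin (κ + 1) → KP p) where
  toFun F := fun x => vact (KP p) κ ((rp x.1 : SL(2, ℤ)) : Mat) (F x.1) x.2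
  map_add' F F' := by
    ext x
    simp
  map_smul' a F := by
    ext x
    simp

/-- The inverse isomorphism. -/
def kind_of (p : ℕ) [Fact p.Prime] (Γ : Subgroup SL(2, ℤ)) (κ : ℕ) :
    ((SL(2, ℤ) ⧸ Γ) × Fin (κ + 1) → KP p) →ₗ[KP p] IV p Γ κ :=
  LinearMap.pi fun x => vact (KP p) κ (((rp x)⁻¹ : SL(2, ℤ)) : Mat) ∘ₗ
    LinearMap.funLeft (KP p) (KP p) (fun j => (x, j))

omit [Γ.FiniteIndex] in
theorem kind_to_of (G : (SL(2, ℤ) ⧸ Γ) × Fin (κ + 1) → KP p) :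
    kind_to p Γ κ (kind_of p Γ κ G) = G := by
  funext x
  exact congrFun (kind_vact_inv' (rp x.1) (fun j => G (x.1, j))) x.2

theorem kind_norm_to (F : IV p Γ κ) : ‖kind_to p Γ κ F‖ = ‖ph1 p Γ κ F‖ := by
  have h : ∀ a : ℝ, 0 ≤ a → (‖kind_to p Γ κ F‖ ≤ a ↔ ‖ph1 p Γ κ F‖ ≤ a) := by
    intro a ha
    rw [norm_ph1_le ha, pi_norm_le_iff_of_nonneg ha, Prod.forall]
    refine forall_congr' fun x => ?_
    rw [← norm_vact_SL (rp x) (F x)]
    exact (pi_norm_le_iff_of_nonneg ha).symm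
  exact le_antisymm ((h _ (norm_nonneg _)).2 le_rfl) ((h _ (norm_nonneg _)).1 le_rfl)

/-- Compare with the diagonal pair on `X × Fin (κ + 1) → K` through the isomorphism
`F ↦ (x, j) ↦ (F x | r_x) j` and its inverse (`lidx_map_le` with constants `1`, `lidx_top_diag`). -/
theorem lidx_top_IV :
    lidx p (ph1 p Γ κ) (ph2 p e Γ κ) ⊤ = Γ.index * ∑ j ∈ range (κ + 1), (e j : ℝ) := by
  have hp : 1 < p := (Fact.out : p.Prime).one_lt
  obtain ⟨hd, hval⟩ := lidx_top_diag (p := p)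
    (fun x : (SL(2, ℤ) ⧸ Γ) × Fin (κ + 1) => (p : KP p) ^ e x.2)
    (fun x => pow_ne_zero _ (p_ne_zero p)) (fun x => by
      rw [norm_p_pow]
      exact Real.rpow_le_one_of_one_le_of_nonpos (one_lt_p p).le (by simp))
  have h2 : ∀ F : IV p Γ κ, ph2 p e Γ κ F =
      diagM (fun x : (SL(2, ℤ) ⧸ Γ) × Fin (κ + 1) => (p : KP p) ^ e x.2) (kind_to p Γ κ F) :=
    fun F => rfl
  have h3 := lidx_map_le hp (npair_ph (p := p) (e := e) (Γ := Γ) (κ := κ)) hd (kind_to p Γ κ)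
    (E := ⊤) (E' := ⊤) (fun _ _ => trivial) le_rfl le_rfl
    (fun F _ => by rw [one_mul, LinearMap.id_apply, kind_norm_to])
    (fun F _ => by rw [one_mul, h2])
  have h4 := lidx_map_le hp hd (npair_ph (p := p) (e := e) (Γ := Γ) (κ := κ)) (kind_of p Γ κ)
    (E := ⊤) (E' := ⊤) (fun _ _ => trivial) le_rfl le_rfl
    (fun G _ => by rw [one_mul, LinearMap.id_apply, ← kind_norm_to, kind_to_of])
    (fun G _ => by rw [one_mul, h2, kind_to_of])
  rw [mul_one, Real.logb_one, mul_zero, add_zero] at h3 h4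
  rw [le_antisymm h3 h4, hval, Fintype.sum_prod_type]
  have h5 : ∀ j : Fin (κ + 1), Real.logb p ‖(p : KP p) ^ e j‖ = -(e j : ℝ) := fun j => by
    rw [norm_p_pow, Real.logb_rpow (p_pos p) (one_lt_p p).ne']
  simp only [h5]
  rw [sum_const, card_univ, nsmul_eq_mul, sum_neg_distrib,
    Fin.sum_univ_eq_sum_range (fun j => (e j : ℝ)) (κ + 1), Subgroup.index,
    Nat.card_eq_fintype_card]
  ring

/-- All values of a cocycle are bounded by its values at the generators (`closure_S_ST`). -/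
theorem norm_ZG_le {W : Submodule (KP p) (IV p Γ κ)} (C : ZG p W) (g : SL(2, ℤ))
    (x : SL(2, ℤ) ⧸ Γ) : ‖C.1 g x‖ ≤ ‖z1 p W C‖ := by
  have hz : ‖z1 p W C‖ = max ‖ph1 p Γ κ (C.1 ModularGroup.S)‖
      ‖ph1 p Γ κ (C.1 (ModularGroup.S * ModularGroup.T))‖ := norm_pairM _ _ (evSR p W C)
  have key : ‖ph1 p Γ κ (C.1 g)‖ ≤ ‖z1 p W C‖ := by
    have hg : g ∈ Subgroup.closure ({ModularGroup.S, ModularGroup.S * ModularGroup.T} :
      Set SL(2, ℤ)) := closure_S_ST ▸ Subgroup.mem_top g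
    induction hg using Subgroup.closure_induction with
    | mem y hy =>
      rw [hz]
      rcases hy with rfl | rfl
      · exact le_max_left _ _
      · exact le_max_right _ _
    | one =>
      rw [ZG_one, map_zero, norm_zero]
      exact norm_nonneg _
    | mul y y' _ _ hy hy' =>
      rw [C.2.1, map_add]
      refine (pi_norm_le_iff_of_nonneg (norm_nonneg _)).2 fun i => ?_
      refine (IsUltrametricDist.norm_add_le_max _ _).trans (max_le ?_ ?_)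
      · exact (norm_le_pi_norm _ i).trans ((ph1_iact y' _).trans hy)
      · exact (norm_le_pi_norm _ i).trans hy'
    | inv y _ hy =>
      have h1 := C.2.1 y y⁻¹
      rw [mul_inv_cancel, ZG_one] at h1
      rw [eq_neg_of_add_eq_zero_right h1.symm, map_neg, norm_neg]
      exact (ph1_iact _ _).trans hy
  exact (norm_ph1_le (norm_nonneg _)).1 key x

omit [Γ.FiniteIndex] in
theorem shap_mem (hneg : (-1 : SL(2, ℤ)) ∈ Γ) (c : Z1 Γ (vact (KP p) κ)) :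
    shap p (c : Γ → Vk (KP p) κ) ∈ ZG p (⊤ : Submodule (KP p) (IV p Γ κ)) := by
  refine ⟨fun g g' => ?_, ?_, fun _ => trivial⟩
  · funext x
    have e1 : (cc g' x : SL(2, ℤ)) * (rp x)⁻¹ = (rp (g' • x))⁻¹ * g' := by
      simp only [cc]
      group
    rw [Pi.add_apply, iact_apply]
    simp only [shap]
    rw [kind_cc_mul, c.2.1, map_add, ← kind_vact_mul, e1, kind_vact_mul]
  · funext x
    have e1 : (cc (-1 : SL(2, ℤ)) x : SL(2, ℤ)) = -1 := by
      simp only [cc, kind_neg_smul hneg]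
      simp
    simp only [shap]
    rw [c.2.2 _ e1, map_zero]
    rfl

omit [Γ.FiniteIndex] in
theorem shap_x0 (c : Γ → Vk (KP p) κ) (γ : Γ) : shap p c γ (x0 Γ) = c γ := by
  have e1 : cc (γ : SL(2, ℤ)) (x0 Γ) = γ := by
    apply Subtype.ext
    simp only [cc, kind_smul_x0, rp_x0]
    simp
  simp only [shap]
  rw [e1, rp_x0, inv_one, kind_vact_one]

theorem ph2_shap (c : Γ → Vk (KP p) κ) {a : ℝ} (ha : 0 ≤ a) (h : ∀ γ, ‖dg p e κ (c γ)‖ ≤ a)
    (g : SL(2, ℤ)) : ‖ph2 p e Γ κ (shap p c g)‖ ≤ a := by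
  refine (norm_ph2_le ha).2 fun x => ?_
  simp only [shap]
  rw [kind_vact_inv']
  exact h _

omit [Γ.FiniteIndex] in
theorem cobG_mem (hneg : (-1 : SL(2, ℤ)) ∈ Γ) (hκ : Even κ) {W : Submodule (KP p) (IV p Γ κ)}
    (hW : Stab p W) {F : IV p Γ κ} (hF : F ∈ W) : cobG p F ∈ ZG p W := by
  refine ⟨fun g g' => ?_, ?_, fun g => W.sub_mem (hW.act g F hF) hF⟩
  · simp only [cobG]
    rw [iact_mul, map_sub]
    abel
  · funext x
    have h1 : ((-1 : SL(2, ℤ)) : Mat) = -1 := rfl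
    simp only [cobG]
    rw [Pi.sub_apply, iact_apply, kind_neg_smul hneg, h1,
      (isAct_vact (KP p) hκ ⊤).map_neg _ trivial, vact_one, LinearMap.id_apply, sub_self]
    rfl

end Pool.Agent.Lib.MP_88d29b_nt.G
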