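import Pool.Agent.Lib.MP_88d29b_nt.KDefs
import Pool.Agent.Lib.MP_88d29b_nt.HVol

set_option autoImplicit false

noncomputable section

namespace Pool.Agent.Lib.MP_88d29b_nt.G

open Finset CongruenceSubgroup Matrix
open scoped MatrixGroups

variable {K : Type} [NormedField K] [IsUltrametricDist K] {m m' ι ι' : Type} [Fintype m]
  [Fintype m'] [Fintype ι] [DecidableEq ι] [Fintype ι'] [DecidableEq ι']

omit [IsUltrametricDist K] in
theorem le_plk (C : Matrix m ι K) (f : ι → m) : ‖(C.submatrix f id).det‖ ≤ plk C := by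
  exact le_ciSup (f := fun f : ι → m => ‖(C.submatrix f id).det‖) (Finite.bddAbove_range _) f

omit [IsUltrametricDist K] in
theorem plk_nonneg (C : Matrix m ι K) : 0 ≤ plk C := by
  exact Real.iSup_nonneg fun _ => norm_nonneg _

omit [IsUltrametricDist K] [Fintype m] in
theorem plk_le (C : Matrix m ι K) {x : ℝ} (hx : 0 ≤ x) (h : ∀ f, ‖(C.submatrix f id).det‖ ≤ x) :
    plk C ≤ x := by
  exact Real.iSup_le h hx

omit [IsUltrametricDist K] in
/-- Independent columns give a nonzero maximal minor (`exists_minor_ne_zero`). -/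
theorem plk_pos (C : Matrix m ι K) (h : Function.Injective C.mulVec) : 0 < plk C := by
  have hr : Fintype.card ι ≤ C.rank := by
    rw [Matrix.rank, LinearMap.finrank_range_of_inj (f := C.mulVecLin) h,
      Module.finrank_fintype_fun_eq_card]
  obtain ⟨f, g, hfg⟩ := exists_minor_ne_zero C hr
  have hg : Function.Injective g := by
    intro i j hij
    by_contra hne
    exact hfg (Matrix.det_zero_of_column_eq hne fun k => by
      simp only [Matrix.submatrix_apply, hij])
  let e : Fin (Fintype.card ι) ≃ ι := Equiv.ofBijective g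
    ((Fintype.bijective_iff_injective_and_card g).2 ⟨hg, Fintype.card_fin _⟩)
  refine lt_of_lt_of_le ?_ (le_plk C (f ∘ e.symm))
  have h1 : (C.submatrix (f ∘ e.symm) id).submatrix e e = C.submatrix f g := by
    ext i j
    simp [e]
  rw [← Matrix.det_submatrix_equiv_self e, h1]
  exact norm_pos_iff.2 hfg

omit [IsUltrametricDist K] in
theorem plk_mul (C : Matrix m ι K) (g : Matrix ι ι K) : plk (C * g) = plk C * ‖g.det‖ := by
  unfold plk
  rw [Real.iSup_mul_of_nonneg (norm_nonneg _)]
  refine iSup_congr fun f => ?_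
  have h1 : (C * g).submatrix f id = C.submatrix f id * g := rfl
  rw [h1, Matrix.det_mul, norm_mul]

omit [IsUltrametricDist K] in
theorem plk_reindex (C : Matrix m ι K) (e : ι' ≃ ι) : plk (C.submatrix id e) = plk C := by
  unfold plk
  refine Equiv.iSup_congr (e.arrowCongr (Equiv.refl m)) fun f => ?_
  rw [← Matrix.det_submatrix_equiv_self e]
  congr 2
  ext i j
  simp

omit [IsUltrametricDist K] in
/-- Take a maximal minor `B = C.submatrix f id` of maximal norm and `g = B⁻¹`; by Cramer's rule each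
entry of `C * g` is a quotient of a maximal minor by `det B`. -/
theorem exists_prim (C : Matrix m ι K) (h : Function.Injective C.mulVec) :
    ∃ (g : Matrix ι ι K) (f : ι → m), g.det ≠ 0 ∧ EntLe (C * g) 1 ∧ (C * g).submatrix f id = 1 ∧
      plk (C * g) = 1 := by
  have hpos := plk_pos C h
  have hne : Nonempty (ι → m) := by
    by_contra hn
    rw [not_nonempty_iff] at hn
    exact absurd (plk_le C le_rfl fun f => hn.elim f) (not_le.2 hpos)
  obtain ⟨f, hf⟩ := exists_eq_ciSup_of_finite (f := fun f : ι → m => ‖(C.submatrix f id).det‖)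
  have hf' : ‖(C.submatrix f id).det‖ = plk C := hf
  have hd : (C.submatrix f id).det ≠ 0 := norm_pos_iff.1 (hf' ▸ hpos)
  have h1 : (C * (C.submatrix f id)⁻¹).submatrix f id = 1 :=
    Matrix.mul_nonsing_inv (C.submatrix f id) (isUnit_iff_ne_zero.2 hd)
  have h2 : (C.submatrix f id).det * ((C.submatrix f id)⁻¹).det = 1 := by
    rw [← Matrix.det_mul, Matrix.mul_nonsing_inv _ (isUnit_iff_ne_zero.2 hd), Matrix.det_one]
  have h3 : plk (C * (C.submatrix f id)⁻¹) = 1 := by
    rw [plk_mul, ← hf', ← norm_mul, h2, norm_one]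
  refine ⟨(C.submatrix f id)⁻¹, f, right_ne_zero_of_mul_eq_one h2, fun i j => ?_, h1, h3⟩
  have h4 := le_plk (C * (C.submatrix f id)⁻¹) (Function.update f j i)
  have h5 : (C * (C.submatrix f id)⁻¹).submatrix (Function.update f j i) id =
      (1 : Matrix ι ι K).updateRow j ((C * (C.submatrix f id)⁻¹) i) := by
    rw [← h1]
    ext a b
    by_cases hab : a = j
    · rw [hab, Matrix.updateRow_self, Matrix.submatrix_apply, Function.update_self]
      rfl
    · rw [Matrix.updateRow_ne hab, Matrix.submatrix_apply, Function.update_of_ne hab]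
      rfl
  rw [h5, ← Matrix.cramer_transpose_apply, Matrix.transpose_one, Matrix.cramer_one, h3] at h4
  exact h4

omit [IsUltrametricDist K] [Fintype m] [DecidableEq ι] in
theorem kplk_ker {C : Matrix m ι K} (h : ¬ Function.Injective C.mulVec) :
    ∃ x, x ≠ 0 ∧ C *ᵥ x = 0 := by
  by_contra hno
  refine h fun x y hxy => ?_
  by_contra hne
  exact hno ⟨x - y, sub_ne_zero.2 hne, by rw [Matrix.mulVec_sub, hxy, sub_self]⟩

omit [IsUltrametricDist K] in
theorem kplk_zero (C : Matrix m ι K) {x : ι → K} (hx : x ≠ 0) (h : C *ᵥ x = 0) : plk C = 0 := by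
  refine le_antisymm (plk_le C le_rfl fun f => ?_) (plk_nonneg C)
  rw [(Matrix.exists_mulVec_eq_zero_iff (M := C.submatrix f id)).1
    ⟨x, hx, funext fun i => congrFun h (f i)⟩, norm_zero]

theorem kplk_det_le (Y : Matrix ι ι K) (c : ι → ℝ) (hc : ∀ j, 0 ≤ c j)
    (h : ∀ i j, ‖Y i j‖ ≤ c j) : ‖Y.det‖ ≤ ∏ j, c j := by
  rw [Matrix.det_apply']
  refine IsUltrametricDist.norm_sum_le_of_forall_le_of_nonneg (prod_nonneg fun j _ => hc j)
    fun σ _ => ?_
  rw [norm_mul, norm_prod]
  refine (mul_le_of_le_one_left (prod_nonneg fun j _ => norm_nonneg _)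
    (IsUltrametricDist.norm_intCast_le_one _ _)).trans ?_
  exact prod_le_prod (fun j _ => norm_nonneg _) fun j _ => h _ _

omit [IsUltrametricDist K] in
theorem kplk_cols (C1 : Matrix m ι K) (C2 : Matrix m ι' K) (g : Matrix ι ι K) :
    plk (Matrix.fromCols (C1 * g) C2) = plk (Matrix.fromCols C1 C2) * ‖g.det‖ := by
  have h := plk_mul (Matrix.fromCols C1 C2) (Matrix.fromBlocks g 0 0 1)
  rw [Matrix.fromCols_mul_fromBlocks, Matrix.det_fromBlocks_zero₁₂, Matrix.det_one, mul_one] at h
  simpa only [Matrix.mul_zero, Matrix.mul_one, add_zero, zero_add] using h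

/-- If `C'` has independent columns use `exists_prim` for `C'`: the columns of `C * g` have norm at
most `a`. Otherwise `C` also kills a nonzero vector and all its maximal minors vanish. -/
theorem plk_le_of_norm (C : Matrix m ι K) (C' : Matrix m' ι K) {a : ℝ} (ha : 0 ≤ a)
    (h : ∀ x, ‖C *ᵥ x‖ ≤ a * ‖C' *ᵥ x‖) : plk C ≤ a ^ Fintype.card ι * plk C' := by
  by_cases hi : Function.Injective C'.mulVec
  · obtain ⟨g, f, hg, h1, -, h3⟩ := exists_prim C' hi
    have h4 : EntLe (C * g) a := by
      intro i j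
      have h5 : ‖C' *ᵥ (fun k => g k j)‖ ≤ 1 :=
        (pi_norm_le_iff_of_nonneg zero_le_one).2 fun i' => h1 i' j
      refine le_trans (norm_le_pi_norm (C *ᵥ fun k => g k j) i) ((h _).trans ?_)
      exact mul_le_of_le_one_right ha h5
    have h6 : plk (C * g) ≤ a ^ Fintype.card ι :=
      plk_le _ (pow_nonneg ha _) fun f' => norm_det_le_pow _ ha fun i j => h4 _ _
    rw [plk_mul] at h3 h6
    refine le_of_mul_le_mul_right ?_ (norm_pos_iff.2 hg)
    rw [mul_assoc, h3, mul_one]
    exact h6
  · obtain ⟨x, hx, hx0⟩ := kplk_ker hi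
    have h1 : C *ᵥ x = 0 := by
      have h2 := h x
      rw [hx0, norm_zero, mul_zero] at h2
      exact norm_le_zero_iff.1 h2
    rw [kplk_zero C hx h1]
    exact mul_nonneg (pow_nonneg ha _) (plk_nonneg _)

/-- Generalised Laplace expansion along the first columns. One way: write
`[C1 C2] = [C1 g1, C2] * diag(g1⁻¹, 1)` with `g1` from `exists_prim`, and use `norm_det_le_pow` after
scaling the last columns; if the columns of `C1` are dependent both sides are easy. -/
theorem plk_fromCols_le (C1 : Matrix m ι K) (C2 : Matrix m ι' K) {a : ℝ} (ha : 0 ≤ a)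
    (h : EntLe C2 a) : plk (Matrix.fromCols C1 C2) ≤ plk C1 * a ^ Fintype.card ι' := by
  by_cases hi : Function.Injective C1.mulVec
  · obtain ⟨g, f, hg, h1, -, h3⟩ := exists_prim C1 hi
    have h4 := kplk_cols C1 C2 g
    have h6 : plk (Matrix.fromCols (C1 * g) C2) ≤ a ^ Fintype.card ι' := by
      refine plk_le _ (pow_nonneg ha _) fun f' => ?_
      refine (kplk_det_le _ (Sum.elim (fun _ => 1) fun _ => a) ?_ ?_).trans (le_of_eq ?_)
      · rintro (j | j)
        · exact zero_le_one
        · exact ha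
      · rintro i (j | j)
        · exact h1 _ _
        · exact h _ _
      · rw [Fintype.prod_sum_type]
        simp
    rw [plk_mul] at h3
    refine le_of_mul_le_mul_right ?_ (norm_pos_iff.2 hg)
    rw [mul_right_comm, h3, one_mul, ← h4]
    exact h6
  · obtain ⟨x, hx, hx0⟩ := kplk_ker hi
    have h1 : Matrix.fromCols C1 C2 *ᵥ Sum.elim x 0 = 0 := by
      rw [Matrix.fromCols_mulVec_sumElim, hx0, Matrix.mulVec_zero, add_zero]
    have h2 : (Sum.elim x 0 : ι ⊕ ι' → K) ≠ 0 := fun h0 =>
      hx (funext fun i => congrFun h0 (Sum.inl i))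
    rw [kplk_zero _ h2 h1]
    exact mul_nonneg (plk_nonneg _) (pow_nonneg ha _)

/-- Orthogonal complement. Take `g1`, `f` from `exists_prim` for `C1`, subtract from `C2` the
combination of the columns of `C1 g1` that kills the rows `f`, and apply `exists_prim` to the result;
the minor on the rows `f` and the new rows is block triangular with identity blocks. -/
theorem exists_orth (C1 : Matrix m ι K) (C2 : Matrix m ι' K)
    (h : Function.Injective (Matrix.fromCols C1 C2).mulVec) :
    ∃ (g : Matrix ι' ι' K) (u : Matrix ι ι' K), g.det ≠ 0 ∧ EntLe (C2 * g + C1 * u) 1 ∧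
      plk (Matrix.fromCols C1 (C2 * g + C1 * u)) = plk C1 := by
  have h0 : ∀ x y, C1 *ᵥ x + C2 *ᵥ y = 0 → x = 0 ∧ y = 0 := by
    intro x y hxy
    have h1 : Sum.elim x y = 0 := h (by
      rw [Matrix.fromCols_mulVec_sumElim, hxy, Matrix.mulVec_zero])
    exact ⟨funext fun i => congrFun h1 (Sum.inl i), funext fun i => congrFun h1 (Sum.inr i)⟩
  have hi1 : Function.Injective C1.mulVec := by
    by_contra hi
    obtain ⟨x, hx, hx0⟩ := kplk_ker hi
    exact hx (h0 x 0 (by rw [hx0, Matrix.mulVec_zero, add_zero])).1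
  obtain ⟨g1, f1, hg1, -, a2, a3⟩ := exists_prim C1 hi1
  have hi2 : Function.Injective (C2 + C1 * (-(g1 * C2.submatrix f1 id))).mulVec := by
    by_contra hi
    obtain ⟨y, hy, hy0⟩ := kplk_ker hi
    rw [Matrix.add_mulVec, ← Matrix.mulVec_mulVec, add_comm] at hy0
    exact hy (h0 _ _ hy0).2
  obtain ⟨g2, f2, hg2, b1, b2, -⟩ := exists_prim _ hi2
  have e1 : C2 * g2 + C1 * (-(g1 * C2.submatrix f1 id) * g2) =
      (C2 + C1 * (-(g1 * C2.submatrix f1 id))) * g2 := by
    rw [Matrix.add_mul, Matrix.mul_assoc]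
  have e2 : ((C2 + C1 * (-(g1 * C2.submatrix f1 id))) * g2).submatrix f1 id = 0 := by
    have e3 : ((C2 + C1 * (-(g1 * C2.submatrix f1 id))) * g2).submatrix f1 id =
        (C2.submatrix f1 id - (C1 * g1).submatrix f1 id * C2.submatrix f1 id) * g2 := by
      rw [Matrix.mul_neg, ← Matrix.mul_assoc, ← sub_eq_add_neg]
      rfl
    rw [e3, a2, Matrix.one_mul, sub_self, Matrix.zero_mul]
  refine ⟨g2, -(g1 * C2.submatrix f1 id) * g2, hg2, e1 ▸ b1, ?_⟩
  rw [e1]
  refine le_antisymm ?_ ?_
  · simpa using plk_fromCols_le C1 _ zero_le_one b1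
  · have h4 := kplk_cols C1 ((C2 + C1 * (-(g1 * C2.submatrix f1 id))) * g2) g1
    have h5 := le_plk (Matrix.fromCols (C1 * g1) ((C2 + C1 * (-(g1 * C2.submatrix f1 id))) * g2))
      (Sum.elim f1 f2)
    have h6 : (Matrix.fromCols (C1 * g1)
        ((C2 + C1 * (-(g1 * C2.submatrix f1 id))) * g2)).submatrix (Sum.elim f1 f2) id =
        Matrix.fromBlocks 1 0 ((C1 * g1).submatrix f2 id) 1 := by
      rw [← a2, ← b2, ← e2]
      ext (i | i) (j | j) <;> rfl
    rw [h6, Matrix.det_fromBlocks_zero₁₂, Matrix.det_one, Matrix.det_one, one_mul, norm_one,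
      h4] at h5
    rw [plk_mul] at a3
    refine le_of_mul_le_mul_right ?_ (norm_pos_iff.2 hg1)
    rw [a3]
    exact h5

/-- `≥` by taking a product of minors; `≤` by reduction to primitive matrices. -/
theorem plk_fromBlocks (C1 : Matrix m ι K) (C2 : Matrix m' ι' K) :
    plk (Matrix.fromBlocks C1 0 0 C2) = plk C1 * plk C2 := by
  by_cases hi1 : Function.Injective C1.mulVec
  · by_cases hi2 : Function.Injective C2.mulVec
    · obtain ⟨g1, f1, hg1, a1, a2, a3⟩ := exists_prim C1 hi1
      obtain ⟨g2, f2, hg2, b1, b2, b3⟩ := exists_prim C2 hi2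
      have h1 := plk_mul (Matrix.fromBlocks C1 0 0 C2) (Matrix.fromBlocks g1 0 0 g2)
      rw [Matrix.fromBlocks_multiply, Matrix.det_fromBlocks_zero₁₂, norm_mul] at h1
      simp only [Matrix.mul_zero, Matrix.zero_mul, add_zero, zero_add] at h1
      have h2 : plk (Matrix.fromBlocks (C1 * g1) 0 0 (C2 * g2)) = 1 := by
        refine le_antisymm (plk_le _ zero_le_one fun f => ?_) ?_
        · refine (norm_det_le_pow _ zero_le_one fun i j => ?_).trans (le_of_eq (one_pow _))
          rw [Matrix.submatrix_apply]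
          rcases f i with i' | i' <;> rcases j with j | j
          · exact a1 _ _
          · simp
          · simp
          · exact b1 _ _
        · have h5 := le_plk (Matrix.fromBlocks (C1 * g1) 0 0 (C2 * g2)) (Sum.map f1 f2)
          have h6 : (Matrix.fromBlocks (C1 * g1) 0 0 (C2 * g2)).submatrix (Sum.map f1 f2) id =
              Matrix.fromBlocks 1 0 0 1 := by
            rw [← a2, ← b2]
            ext (i | i) (j | j) <;> rfl
          rwa [h6, Matrix.fromBlocks_one, Matrix.det_one, norm_one] at h5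
      rw [plk_mul] at a3 b3
      refine mul_right_cancel₀ (mul_ne_zero (norm_ne_zero_iff.2 hg1) (norm_ne_zero_iff.2 hg2)) ?_
      rw [← h1, h2, mul_mul_mul_comm, a3, b3, one_mul]
    · obtain ⟨x, hx, hx0⟩ := kplk_ker hi2
      have h1 : Matrix.fromBlocks C1 0 0 C2 *ᵥ Sum.elim 0 x = 0 := by
        rw [Matrix.fromBlocks_mulVec]
        ext (i | i) <;> simp [hx0]
      have h2 : (Sum.elim 0 x : ι ⊕ ι' → K) ≠ 0 := fun h0 =>
        hx (funext fun i => congrFun h0 (Sum.inr i))
      rw [kplk_zero _ h2 h1, kplk_zero _ hx hx0, mul_zero]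
  · obtain ⟨x, hx, hx0⟩ := kplk_ker hi1
    have h1 : Matrix.fromBlocks C1 0 0 C2 *ᵥ Sum.elim x 0 = 0 := by
      rw [Matrix.fromBlocks_mulVec]
      ext (i | i) <;> simp [hx0]
    have h2 : (Sum.elim x 0 : ι ⊕ ι' → K) ≠ 0 := fun h0 =>
      hx (funext fun i => congrFun h0 (Sum.inl i))
    rw [kplk_zero _ h2 h1, kplk_zero _ hx hx0, zero_mul]

end Pool.Agent.Lib.MP_88d29b_nt.G
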