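import Pool.Agent.Lib.MP_88d29b_nt.KIdx

set_option autoImplicit false

noncomputable section

namespace Pool.Agent.Lib.MP_88d29b_nt.G

open Finset CongruenceSubgroup Matrix
open scoped MatrixGroups

variable {p : ℕ} [Fact p.Prime] {U : Type} [AddCommGroup U] [Module (KP p) U]
  [Module.Finite (KP p) U] {m : Type} [Fintype m] {φ1 φ2 : U →ₗ[KP p] (m → KP p)}

lemma ktheta_one_lt : 1 < p := (Fact.out : p.Prime).one_lt

lemma ktheta_one_le : (1 : ℝ) ≤ p := by exact_mod_cast (ktheta_one_lt (p := p)).le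

lemma ktheta_prime {l : ℕ} (hl : l.Prime) : 1 ≤ (p : ℝ) * ‖(l : KP p)‖ := by
  have h0 : (0 : ℝ) < p := lt_of_lt_of_le one_pos ktheta_one_le
  by_cases h : p = l
  · subst h
    rw [norm_p, mul_inv_cancel₀ h0.ne']
  · have h1 : ‖(l : KP p)‖ = 1 := by
      have h2 := norm_int_eq p (l : ℤ)
      rw [Int.cast_natCast, Int.cast_natCast] at h2
      rw [h2, Padic.norm_natCast_eq_one_iff]
      exact (Nat.coprime_primes (Fact.out : p.Prime) hl).2 h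
    rw [h1, mul_one]
    exact ktheta_one_le

lemma ktheta_div {x : KP p} (hx : 1 ≤ (p : ℝ) * ‖x‖) {v : m → KP p} {r : ℝ} (h : ‖x • v‖ ≤ r) :
    ‖v‖ ≤ p * r := by
  rw [norm_smul] at h
  have h0 : (0 : ℝ) ≤ p := Nat.cast_nonneg p
  calc ‖v‖ = 1 * ‖v‖ := (one_mul _).symm
    _ ≤ (p : ℝ) * ‖x‖ * ‖v‖ := mul_le_mul_of_nonneg_right hx (norm_nonneg v)
    _ = p * (‖x‖ * ‖v‖) := mul_assoc _ _ _
    _ ≤ p * r := mul_le_mul_of_nonneg_left h h0

lemma ktheta_add_le {v w : m → KP p} {r : ℝ} (hv : ‖v‖ ≤ r) (hw : ‖w‖ ≤ r) : ‖v + w‖ ≤ r :=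
  (IsUltrametricDist.norm_add_le_max v w).trans (max_le hv hw)

lemma ktheta_sub_le {v w : m → KP p} {r : ℝ} (hv : ‖v‖ ≤ r) (hw : ‖w‖ ≤ r) : ‖v - w‖ ≤ r := by
  rw [sub_eq_add_neg]
  exact ktheta_add_le hv (by rwa [norm_neg])

lemma ktheta_logb : Real.logb p ((p : ℝ) * 1) = 1 := by
  rw [mul_one]
  exact Real.logb_self_eq_one (by exact_mod_cast (ktheta_one_lt (p := p)))

/-- The addition map. -/
lemma ktheta_add (hφ : NPair φ1 φ2) {E1 E2 W : Submodule (KP p) U} (h1 : E1 ≤ W) (h2 : E2 ≤ W)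
    (h : ∀ u ∈ E1, ∀ v ∈ E2, ‖φ1 v‖ ≤ p * ‖φ1 (u + v)‖) :
    lidx p φ1 φ2 E1 + lidx p φ1 φ2 E2 ≤ lidx p φ1 φ2 W + Module.finrank (KP p) U * 2 := by
  have key := lidx_map_le (ktheta_one_lt (p := p)) (hφ.pair hφ) hφ
    (LinearMap.fst (KP p) U U + LinearMap.snd (KP p) U U) (E := E1.prod E2) (E' := W)
    (fun u hu => W.add_mem (h1 hu.1) (h2 hu.2)) (ktheta_one_le (p := p)) le_rfl
    (fun u hu => by
      rw [norm_pairM]
      change _ ≤ (p : ℝ) * ‖φ1 (u.1 + u.2)‖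
      have h3 := h u.1 hu.1 u.2 hu.2
      refine max_le ?_ h3
      have h4 : φ1 u.1 = φ1 (u.1 + u.2) - φ1 u.2 := by rw [map_add, add_sub_cancel_right]
      rw [h4]
      exact ktheta_sub_le (le_mul_of_one_le_left (norm_nonneg _) ktheta_one_le) h3)
    (fun u _ => by
      rw [norm_pairM, one_mul]
      change ‖φ2 (u.1 + u.2)‖ ≤ _
      rw [map_add]
      exact IsUltrametricDist.norm_add_le_max _ _)
  rw [lidx_prod hφ hφ, ktheta_logb, Module.finrank_prod] at key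
  push_cast at key
  linarith

/-- `θ` maps `E ⊓ U0` into `E'`: `lidx_le_of_codim` and `lidx_map_le`. -/
theorem lidx_theta (hφ : NPair φ1 φ2) (θ : Module.End (KP p) U) {E E' U0 : Submodule (KP p) U}
    (hE : ∀ u ∈ E, θ u ∈ E') {c : ℕ} (hc : Module.finrank (KP p) U ≤ Module.finrank (KP p) U0 + c)
    {a A : ℝ} (ha : 1 ≤ a) (hA : 1 ≤ A) (h1 : ∀ u ∈ U0, ‖φ1 u‖ ≤ a * ‖φ1 (θ u)‖)
    (h2 : ∀ u, ‖φ2 (θ u)‖ ≤ ‖φ2 u‖) (hn : ∀ u, ‖φ1 u‖ ≤ A * ‖φ2 u‖) :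
    lidx p φ1 φ2 E ≤ lidx p φ1 φ2 E' + c * Real.logb p A +
      Module.finrank (KP p) U * Real.logb p a := by
  have h3 : Module.finrank (KP p) E ≤ Module.finrank (KP p) (E ⊓ U0 : Submodule (KP p) U) + c := by
    have h4 := Submodule.finrank_sup_add_finrank_inf_eq E U0
    have h5 := Submodule.finrank_le (E ⊔ U0)
    omega
  have h6 := lidx_le_of_codim (ktheta_one_lt (p := p)) hφ (inf_le_left : E ⊓ U0 ≤ E) h3 hA hn
  have h7 := lidx_map_le (ktheta_one_lt (p := p)) hφ hφ θ (E := E ⊓ U0) (E' := E') (fun u hu => hE u hu.1)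
    ha le_rfl (fun u hu => h1 u hu.2) (fun u _ => by rw [one_mul]; exact h2 u)
  rw [mul_one] at h7
  linarith

/-- Let `E₋`, `E₊` be the eigenspaces of `g` in `W`. `lidx E₋ ≤ lidx E₊ + error` by `lidx_theta`, and
`lidx E₋ + lidx E₊ ≤ lidx W + 2 dim U` by `lidx_prod` and `lidx_map_le` for the addition map
(`2 u₊ = (1 + g)(u₋ + u₊)`, `‖2‖⁻¹ ≤ p`). -/
theorem lidx_two (hφ : NPair φ1 φ2) (g θ : Module.End (KP p) U) {W U0 : Submodule (KP p) U}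
    (hθW : ∀ u ∈ W, θ u ∈ W) (hc' : ∀ u, g (θ u) = -θ (g u)) (hg1 : ∀ u, ‖φ1 (g u)‖ ≤ ‖φ1 u‖)
    {c : ℕ} (hc : Module.finrank (KP p) U ≤ Module.finrank (KP p) U0 + c)
    {a A : ℝ} (ha : 1 ≤ a) (hA : 1 ≤ A) (h1 : ∀ u ∈ U0, ‖φ1 u‖ ≤ a * ‖φ1 (θ u)‖)
    (h2 : ∀ u, ‖φ2 (θ u)‖ ≤ ‖φ2 u‖) (hn : ∀ u, ‖φ1 u‖ ≤ A * ‖φ2 u‖) :
    2 * lidx p φ1 φ2 (W ⊓ LinearMap.ker (g + 1)) ≤ lidx p φ1 φ2 W + c * Real.logb p A +
      Module.finrank (KP p) U * (Real.logb p a + 2) := by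
  have m1 : ∀ u, u ∈ LinearMap.ker (g + 1) ↔ g u = -u := fun u => by
    rw [LinearMap.mem_ker, LinearMap.add_apply, Module.End.one_apply, add_eq_zero_iff_eq_neg]
  have m2 : ∀ u, u ∈ LinearMap.ker (g - 1) ↔ g u = u := fun u => by
    rw [LinearMap.mem_ker, LinearMap.sub_apply, Module.End.one_apply, sub_eq_zero]
  have k1 := lidx_theta hφ θ (E := W ⊓ LinearMap.ker (g + 1)) (E' := W ⊓ LinearMap.ker (g - 1))
    (fun u hu => ⟨hθW u hu.1, (m2 _).2 (by rw [hc', (m1 u).1 hu.2, map_neg, neg_neg])⟩)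
    hc ha hA h1 h2 hn
  have k2 := ktheta_add hφ (E1 := W ⊓ LinearMap.ker (g + 1)) (E2 := W ⊓ LinearMap.ker (g - 1))
    inf_le_left inf_le_left fun u hu v hv => by
      refine ktheta_div (ktheta_prime Nat.prime_two) ?_
      have h3 : ((2 : ℕ) : KP p) • φ1 v = φ1 (u + v) + φ1 (g (u + v)) := by
        rw [← map_add, ← map_smul, map_add g, (m1 u).1 hu.2, (m2 v).1 hv.2]
        congr 1
        rw [Nat.cast_ofNat, two_smul]
        abel
      rw [h3]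
      exact ktheta_add_le le_rfl (hg1 _)
  linarith

/-- Let `Z = W ⊓ ker (g ^ 2 + g + 1)` and `E μ = W ⊓ ker (g - μ)`; `θ` maps `E μ` to `E (ω μ)`. So
`lidx (E ω²) ≤ lidx (E 1) + k`, `lidx (E ω) ≤ lidx (E 1) + 2 k`. The map
`u ↦ ((g - ω²) u, (g - ω) u)` gives `lidx Z ≤ lidx (E ω) + lidx (E ω²) + dim U`
(`(ω - ω²) ^ 2 = - 3`), and the addition map gives `lidx Z + lidx (E 1) ≤ lidx W + 2 dim U`
(`3 u₁ = (g ^ 2 + g + 1)(z + u₁)`). -/
theorem lidx_three (hφ : NPair φ1 φ2) (g θ : Module.End (KP p) U) {W U0 : Submodule (KP p) U}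
    (hgW : ∀ u ∈ W, g u ∈ W) (hθW : ∀ u ∈ W, θ u ∈ W) {ω : KP p} (hω : ω ^ 2 + ω + 1 = 0)
    (hc' : ∀ u, g (θ u) = ω • θ (g u)) (hg1 : ∀ u, ‖φ1 (g u)‖ ≤ ‖φ1 u‖)
    (hg2 : ∀ u, ‖φ2 (g u)‖ ≤ ‖φ2 u‖) {c : ℕ}
    (hc : Module.finrank (KP p) U ≤ Module.finrank (KP p) U0 + c)
    {a A : ℝ} (ha : 1 ≤ a) (hA : 1 ≤ A) (h1 : ∀ u ∈ U0, ‖φ1 u‖ ≤ a * ‖φ1 (θ u)‖)
    (h2 : ∀ u, ‖φ2 (θ u)‖ ≤ ‖φ2 u‖) (hn : ∀ u, ‖φ1 u‖ ≤ A * ‖φ2 u‖) :
    3 * lidx p φ1 φ2 (W ⊓ LinearMap.ker (g * g + g + 1)) ≤ 2 * lidx p φ1 φ2 W +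
      3 * c * Real.logb p A + Module.finrank (KP p) U * (3 * Real.logb p a + 5) := by
  have hω3 : ω * ω ^ 2 = 1 := by linear_combination (ω - 1) * hω
  have hωn : ‖ω‖ = 1 := by
    have h3 : ‖ω‖ ^ 3 = 1 := by
      rw [← norm_pow, show ω ^ 3 = 1 by linear_combination hω3, norm_one]
    exact (pow_eq_one_iff_of_nonneg (norm_nonneg ω) (by norm_num)).1 h3
  have m0 : ∀ u, u ∈ LinearMap.ker (g * g + g + 1) ↔ g (g u) + g u + u = 0 := fun u => Iff.rfl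
  have m1 : ∀ (μ : KP p) u, u ∈ LinearMap.ker (g - μ • (1 : Module.End (KP p) U)) ↔ g u = μ • u :=
    fun μ u => by
      rw [LinearMap.mem_ker, LinearMap.sub_apply, LinearMap.smul_apply, Module.End.one_apply,
        sub_eq_zero]
  have k0 : ∀ μ : KP p, lidx p φ1 φ2 (W ⊓ LinearMap.ker (g - μ • (1 : Module.End (KP p) U))) ≤
      lidx p φ1 φ2 (W ⊓ LinearMap.ker (g - (ω * μ) • (1 : Module.End (KP p) U))) +
        c * Real.logb p A + Module.finrank (KP p) U * Real.logb p a := fun μ =>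
    lidx_theta hφ θ (E := W ⊓ LinearMap.ker (g - μ • (1 : Module.End (KP p) U)))
      (E' := W ⊓ LinearMap.ker (g - (ω * μ) • (1 : Module.End (KP p) U)))
      (fun u hu => ⟨hθW u hu.1, (m1 _ _).2 (by
      rw [hc', (m1 μ u).1 hu.2, map_smul, smul_smul])⟩) hc ha hA h1 h2 hn
  have k1 := k0 (ω ^ 2)
  have k2 := k0 ω
  rw [hω3] at k1
  rw [← pow_two] at k2
  have k3 := ktheta_add hφ (E1 := W ⊓ LinearMap.ker (g * g + g + 1))
    (E2 := W ⊓ LinearMap.ker (g - (1 : KP p) • (1 : Module.End (KP p) U)))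
    inf_le_left inf_le_left fun u hu v hv => by
      refine ktheta_div (ktheta_prime Nat.prime_three) ?_
      have h4 := (m0 u).1 hu.2
      have h5 := (m1 1 v).1 hv.2
      rw [one_smul] at h5
      have h3 : ((3 : ℕ) : KP p) • φ1 v = φ1 (g (g (u + v))) + φ1 (g (u + v)) + φ1 (u + v) := by
        rw [← map_add, ← map_add, ← map_smul, map_add g u, map_add g, h5, h5]
        congr 1
        rw [Nat.cast_ofNat]
        linear_combination (norm := module) -h4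
      rw [h3]
      exact ktheta_add_le (ktheta_add_le ((hg1 _).trans (hg1 _)) (hg1 _)) le_rfl
  have hd : 1 ≤ (p : ℝ) * ‖ω - ω ^ 2‖ := by
    have h3 : ‖ω - ω ^ 2‖ ^ 2 = ‖((3 : ℕ) : KP p)‖ := by
      rw [← norm_pow, ← norm_neg ((3 : ℕ) : KP p), Nat.cast_ofNat]
      congr 1
      linear_combination (ω ^ 2 - 3 * ω + 3) * hω
    have h4 : ‖ω - ω ^ 2‖ ≤ 1 := by
      have h5 : ‖((3 : ℕ) : KP p)‖ ≤ 1 := IsUltrametricDist.norm_natCast_le_one _ 3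
      rw [← h3] at h5
      exact (pow_le_one_iff_of_nonneg (norm_nonneg _) two_ne_zero).1 h5
    refine (ktheta_prime Nat.prime_three).trans
      (mul_le_mul_of_nonneg_left ?_ (Nat.cast_nonneg p))
    rw [← h3, pow_two]
    exact mul_le_of_le_one_left (norm_nonneg _) h4
  have k4 := lidx_map_le (ktheta_one_lt (p := p)) hφ (hφ.pair hφ)
    (LinearMap.prod (g - (ω ^ 2) • (1 : Module.End (KP p) U)) (g - ω • (1 : Module.End (KP p) U)))
    (E := W ⊓ LinearMap.ker (g * g + g + 1))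
    (E' := (W ⊓ LinearMap.ker (g - ω • (1 : Module.End (KP p) U))).prod
      (W ⊓ LinearMap.ker (g - (ω ^ 2) • (1 : Module.End (KP p) U))))
    (fun u hu => by
      have h4 := (m0 u).1 hu.2
      refine ⟨⟨W.sub_mem (hgW u hu.1) (W.smul_mem _ hu.1), (m1 _ _).2 ?_⟩,
        ⟨W.sub_mem (hgW u hu.1) (W.smul_mem _ hu.1), (m1 _ _).2 ?_⟩⟩
      · change g (g u - ω ^ 2 • u) = ω • (g u - ω ^ 2 • u)
        rw [map_sub, map_smul]
        linear_combination (norm := module) h4 - hω • g u + hω3 • u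
      · change g (g u - ω • u) = ω ^ 2 • (g u - ω • u)
        rw [map_sub, map_smul]
        linear_combination (norm := module) h4 - hω • g u + hω3 • u)
    (ktheta_one_le (p := p)) le_rfl
    (fun u _ => by
      refine ktheta_div hd ?_
      rw [norm_pairM]
      change _ ≤ max ‖φ1 (g u - ω ^ 2 • u)‖ ‖φ1 (g u - ω • u)‖
      have h4 : (ω - ω ^ 2) • φ1 u = φ1 (g u - ω ^ 2 • u) - φ1 (g u - ω • u) := by
        rw [← map_sub, ← map_smul]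
        congr 1
        module
      rw [h4]
      exact ktheta_sub_le (le_max_left _ _) (le_max_right _ _))
    (fun u _ => by
      rw [norm_pairM, one_mul]
      change max ‖φ2 (g u - ω ^ 2 • u)‖ ‖φ2 (g u - ω • u)‖ ≤ _
      rw [map_sub, map_sub, map_smul, map_smul]
      refine max_le (ktheta_sub_le (hg2 u) ?_) (ktheta_sub_le (hg2 u) ?_)
      · rw [norm_smul, norm_pow, hωn, one_pow, one_mul]
      · rw [norm_smul, hωn, one_mul])
  rw [lidx_prod hφ hφ, ktheta_logb] at k4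
  linarith

end Pool.Agent.Lib.MP_88d29b_nt.G
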