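import Pool.Agent.Lib.MP_88d29b_nt.KInd
import Pool.Agent.Lib.MP_88d29b_nt.KTheta

set_option autoImplicit false

noncomputable section

namespace Pool.Agent.Lib.MP_88d29b_nt.G

open Finset CongruenceSubgroup Matrix
open scoped MatrixGroups

variable {p : ℕ} [Fact p.Prime] {e : ℕ → ℕ} {Γ : Subgroup SL(2, ℤ)} [Γ.FiniteIndex] {κ : ℕ}

omit [Γ.FiniteIndex] in
lemma kup_comm (g : SL(2, ℤ)) (N : Matrix (Fin 2) (Fin 2) (KP p)) (w : KP p)
    (h : N * zm (KP p) (g : Mat) = zm (KP p) (g : Mat) * (w • N)) (F : IV p Γ κ) :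
    iact p Γ κ g (ider p Γ κ ((p : KP p) • N) F) =
      w • ider p Γ κ ((p : KP p) • N) (iact p Γ κ g F) := by
  ext1 x
  have h' : ((p : KP p) • N) * zm (KP p) (g : Mat) =
      zm (KP p) (g : Mat) * (w • (p : KP p) • N) := by
    rw [Matrix.smul_mul, h, smul_comm w, Matrix.mul_smul (zm (KP p) (g : Mat)) (p : KP p)]
  change vact (KP p) κ (g : Mat) (der κ ((p : KP p) • N) (F (g • x))) =
    w • der κ ((p : KP p) • N) (vact (KP p) κ (g : Mat) (F (g • x)))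
  rw [vact_der κ _ _ _ h', der_smul κ w]
  rfl

/-- The elements whose values have no term of top degree. -/
def kupU (p : ℕ) [Fact p.Prime] (Γ : Subgroup SL(2, ℤ)) (κ : ℕ) : Submodule (KP p) (IV p Γ κ) :=
  LinearMap.ker (LinearMap.pi fun x : SL(2, ℤ) ⧸ Γ =>
    (LinearMap.proj (Fin.last κ) : Vk (KP p) κ →ₗ[KP p] KP p) ∘ₗ LinearMap.proj x)

lemma kup_codim : Module.finrank (KP p) (IV p Γ κ) ≤
    Module.finrank (KP p) (kupU p Γ κ) + Γ.index := by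
  have h1 := LinearMap.finrank_range_add_finrank_ker (LinearMap.pi fun x : SL(2, ℤ) ⧸ Γ =>
    (LinearMap.proj (Fin.last κ) : Vk (KP p) κ →ₗ[KP p] KP p) ∘ₗ
      (LinearMap.proj x : IV p Γ κ →ₗ[KP p] Vk (KP p) κ))
  have h2 := Submodule.finrank_le (LinearMap.range (LinearMap.pi fun x : SL(2, ℤ) ⧸ Γ =>
    (LinearMap.proj (Fin.last κ) : Vk (KP p) κ →ₗ[KP p] KP p) ∘ₗ
      (LinearMap.proj x : IV p Γ κ →ₗ[KP p] Vk (KP p) κ)))
  rw [Module.finrank_fintype_fun_eq_card, ← Nat.card_eq_fintype_card] at h2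
  have h3 : Γ.index = Nat.card (SL(2, ℤ) ⧸ Γ) := rfl
  exact h1.symm.le.trans ((Nat.add_le_add_right (h2.trans h3.symm.le) _).trans
    (Nat.add_comm _ _).le)

lemma kup_lower {z : KP p} (hz : ‖z‖ ≤ 1) (F : IV p Γ κ) (hF : F ∈ kupU p Γ κ) :
    ‖ph1 p Γ κ F‖ ≤ (p : ℝ) ^ (Nat.log p (κ + 1) + 1) *
      ‖ph1 p Γ κ (ider p Γ κ ((p : KP p) • nil z) F)‖ := by
  have hp := p_pos p
  refine (norm_ph1_le (by positivity)).2 fun x => ?_
  have h0 : F x (Fin.last κ) = 0 := congrFun (LinearMap.mem_ker.1 hF) x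
  have h1 := der_lower κ hz (F x) h0
  have h2 := (norm_ph1_le (F := ider p Γ κ ((p : KP p) • nil z) F) (norm_nonneg _)).1 le_rfl x
  have h3 : ider p Γ κ ((p : KP p) • nil z) F x = (p : KP p) • der κ (nil z) (F x) := by
    change der κ ((p : KP p) • nil z) (F x) = _
    rw [der_smul]
    rfl
  rw [h3, norm_smul, norm_p] at h2
  have h4 : ‖der κ (nil z) (F x)‖ ≤ p * ‖ph1 p Γ κ (ider p Γ κ ((p : KP p) • nil z) F)‖ := by
    rwa [inv_mul_le_iff₀ hp] at h2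
  calc ‖F x‖ ≤ (p : ℝ) ^ Nat.log p (κ + 1) * ‖der κ (nil z) (F x)‖ := h1
    _ ≤ (p : ℝ) ^ Nat.log p (κ + 1) * (p * ‖ph1 p Γ κ (ider p Γ κ ((p : KP p) • nil z) F)‖) :=
      mul_le_mul_of_nonneg_left h4 (by positivity)
    _ = _ := by ring

lemma kup_entLe {z : KP p} (hz : ‖z‖ ≤ 1) : EntLe (nil z) 1 := by
  intro i j
  fin_cases i <;> fin_cases j <;> simp [nil, hz]

lemma kup_norm_le {z : KP p} {n : ℕ} (hn : n ≠ 0) (h : ‖z ^ n‖ = 1) : ‖z‖ ≤ 1 := by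
  rw [norm_pow] at h
  exact ((pow_eq_one_iff_of_nonneg (norm_nonneg z) hn).1 h).le

lemma kup_SS : ModularGroup.S * ModularGroup.S = (-1 : SL(2, ℤ)) := by
  ext i j
  fin_cases i <;> fin_cases j <;> simp [ModularGroup.S, Matrix.mul_apply, Fin.sum_univ_two]

lemma kup_RRR : ModularGroup.S * ModularGroup.T * (ModularGroup.S * ModularGroup.T) *
    (ModularGroup.S * ModularGroup.T) = (-1 : SL(2, ℤ)) := by
  ext i j
  fin_cases i <;> fin_cases j <;>
    simp [ModularGroup.S, ModularGroup.T, Matrix.mul_apply, Fin.sum_univ_two]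

lemma kup_logb (k : ℕ) : Real.logb p ((p : ℝ) ^ k) = k := by
  rw [Real.logb_pow, Real.logb_self_eq_one (one_lt_p p), mul_one]

/-- `evSR` maps the cocycles into `(W ⊓ ker (S + 1)).prod (W ⊓ ker (R * R + R + 1))`, `R = S T`
(`S ^ 2 = R ^ 3 = -1`); use `lidx_map_le` with constants `1` and `lidx_prod`. Apply `lidx_two` and
`lidx_three` with `θ = ider (p • nil z)`, `z ^ 2 + 1 = 0`, resp. `z ^ 2 + z + 1 = 0`, `ω = z ^ 2`
(`vact_der`, `nil_S`, `nil_ST`, `der_smul`), `U0` = the `F` whose values have no term of degree `κ`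
(codimension `Γ.index`), `a = p ^ (log_p (κ + 1) + 1)` (`der_lower`), `A = p ^ e 0`. -/
theorem core_upper (h : Good p e Γ κ) {W : Submodule (KP p) (IV p Γ κ)} (hW : Stab p W) :
    lidx p (z1 p W) (z2 p e W) ⊤ ≤
      7 / 6 * lidx p (ph1 p Γ κ) (ph2 p e Γ κ) W + 2 * errK p e Γ κ := by
  have hp : 1 < p := (Fact.out : p.Prime).one_lt
  have hp1 : (1 : ℝ) ≤ p := (one_lt_p p).le
  have hφ : NPair (ph1 p Γ κ) (ph2 p e Γ κ) := npair_ph
  have hmap := lidx_map_le hp (npair_z (e := e) W) (hφ.pair hφ) (evSR p W) (E := ⊤)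
    (E' := (W ⊓ LinearMap.ker (iact p Γ κ ModularGroup.S + 1)).prod
      (W ⊓ LinearMap.ker (iact p Γ κ (ModularGroup.S * ModularGroup.T) *
        iact p Γ κ (ModularGroup.S * ModularGroup.T) +
        iact p Γ κ (ModularGroup.S * ModularGroup.T) + 1)))
    (fun C _ => by
      refine Submodule.mem_prod.2 ⟨⟨C.2.2.2 _, LinearMap.mem_ker.2 ?_⟩,
        ⟨C.2.2.2 _, LinearMap.mem_ker.2 ?_⟩⟩
      · have h1 := C.2.1 ModularGroup.S ModularGroup.S
        rw [kup_SS, C.2.2.1] at h1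
        exact h1.symm
      · have h1 := C.2.1 (ModularGroup.S * ModularGroup.T * (ModularGroup.S * ModularGroup.T))
          (ModularGroup.S * ModularGroup.T)
        rw [kup_RRR, C.2.2.1, C.2.1 (ModularGroup.S * ModularGroup.T), map_add] at h1
        exact h1.symm)
    (le_refl (1 : ℝ)) (le_refl (1 : ℝ)) (fun C _ => by rw [one_mul]; exact le_rfl)
    (fun C _ => by rw [one_mul]; exact le_rfl)
  rw [lidx_prod hφ hφ, mul_one, Real.logb_one, mul_zero, add_zero] at hmap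
  obtain ⟨z, hz⟩ := IsAlgClosed.exists_pow_nat_eq (-1 : KP p) (show 0 < 2 by norm_num)
  obtain ⟨s, hs⟩ := IsAlgClosed.exists_pow_nat_eq (-3 : KP p) (show 0 < 2 by norm_num)
  have hz1 : z ^ 2 + 1 = 0 := by rw [hz]; ring
  have hzn : ‖z‖ ≤ 1 := kup_norm_le (n := 2) (by norm_num) (by rw [hz]; simp)
  obtain ⟨y, hy⟩ : ∃ y : KP p, y ^ 2 + y + 1 = 0 :=
    ⟨(s - 1) / 2, by linear_combination (1 / 4 : KP p) * hs⟩
  have hy3 : y ^ 3 = 1 := by linear_combination (y - 1) * hy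
  have hyn : ‖y‖ ≤ 1 := kup_norm_le (n := 3) (by norm_num) (by rw [hy3]; simp)
  have ha : (1 : ℝ) ≤ (p : ℝ) ^ (Nat.log p (κ + 1) + 1) := one_le_pow₀ hp1
  have hA : (1 : ℝ) ≤ (p : ℝ) ^ e 0 := one_le_pow₀ hp1
  have h2 := lidx_two hφ (iact p Γ κ ModularGroup.S) (ider p Γ κ ((p : KP p) • nil z)) (W := W)
    (hW.der _) (fun u => by rw [kup_comm _ _ _ (nil_S hz1), neg_one_smul]) (ph1_iact _) kup_codim
    ha hA (kup_lower hzn) (ph2_ider h.steps _ (kup_entLe hzn)) (ph1_le_ph2 h.steps)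
  have h3 := lidx_three hφ (iact p Γ κ (ModularGroup.S * ModularGroup.T))
    (ider p Γ κ ((p : KP p) • nil y)) (W := W) (hW.act _) (hW.der _) (ω := y ^ 2)
    (by linear_combination (y ^ 2 - y + 1) * hy) (fun u => kup_comm _ _ _ (nil_ST hy) u)
    (ph1_iact _) (ph2_iact h.inv _) kup_codim ha hA (kup_lower hyn)
    (ph2_ider h.steps _ (kup_entLe hyn)) (ph1_le_ph2 h.steps)
  rw [kup_logb, kup_logb, finrank_IV] at h2 h3
  push_cast at h2 h3
  have e1 : (0 : ℝ) ≤ (Γ.index : ℝ) * (e 0 : ℝ) := by positivity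
  have e2 : (0 : ℝ) ≤ (Γ.index : ℝ) * ((κ : ℝ) + 1) * (Nat.log p (κ + 1) : ℝ) := by positivity
  have e3 : (0 : ℝ) ≤ (Γ.index : ℝ) * ((κ : ℝ) + 1) := by positivity
  unfold errK
  nlinarith [hmap, h2, h3, e1, e2, e3]

end Pool.Agent.Lib.MP_88d29b_nt.G
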