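import Pool.Agent.Lib.MP_88d29b_nt.M3Norm

/-!
The summation operator.
-/

set_option autoImplicit false

noncomputable section

namespace Pool.Agent.Lib.MP_88d29b_nt.G.M3

open Finset CongruenceSubgroup
open scoped MatrixGroups

variable {K : Type} [NormedField K] [IsUltrametricDist K] [CharZero K] {p : ℕ} [hp : Fact p.Prime]

lemma m3sig_desc_diff (R : Type) [CommRing R] (k : ℕ) :
    (descPochhammer R (k + 1)).comp (Polynomial.X + 1) - descPochhammer R (k + 1) =
      Polynomial.C ((k : R) + 1) * descPochhammer R k := by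
  have h1 : (descPochhammer R (k + 1)).comp (Polynomial.X + 1) =
      (Polynomial.X + 1) * descPochhammer R k := by
    rw [descPochhammer_succ_left, Polynomial.mul_comp, Polynomial.X_comp, Polynomial.comp_assoc]
    simp
  rw [h1, descPochhammer_succ_right, Polynomial.C_add, Polynomial.C_1, Polynomial.C_eq_natCast]
  ring

lemma m3sig_pow (R : Type) [CommRing R] (l : ℕ) :
    (Polynomial.X : Polynomial R) ^ l =
      ∑ k ∈ range (l + 1), (Nat.stirlingSecond l k : Polynomial R) * descPochhammer R k := by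
  induction l with
  | zero => simp
  | succ l ih =>
    have h1 : ∑ k ∈ range (l + 1),
        ((k : Polynomial R) * (Nat.stirlingSecond l k : Polynomial R)) * descPochhammer R k =
        ∑ k ∈ range (l + 1), (((k + 1 : ℕ) : Polynomial R) *
          (Nat.stirlingSecond l (k + 1) : Polynomial R)) * descPochhammer R (k + 1) := by
      have h2 := Finset.sum_range_succ (fun k => ((k : Polynomial R) *
        (Nat.stirlingSecond l k : Polynomial R)) * descPochhammer R k) (l + 1)
      have h3 := Finset.sum_range_succ' (fun k => ((k : Polynomial R) *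
        (Nat.stirlingSecond l k : Polynomial R)) * descPochhammer R k) (l + 1)
      rw [Nat.stirlingSecond_eq_zero_of_lt (Nat.lt_succ_self l)] at h2
      simp only [Nat.cast_zero, mul_zero, zero_mul, add_zero] at h2 h3
      rw [← h2, h3]
    rw [pow_succ, ih, Finset.sum_range_succ' _ (l + 1), Nat.stirlingSecond_succ_zero, Finset.sum_mul]
    have h4 : ∀ k ∈ range (l + 1),
        (Nat.stirlingSecond l k : Polynomial R) * descPochhammer R k * Polynomial.X =
        ((k : Polynomial R) * (Nat.stirlingSecond l k : Polynomial R)) * descPochhammer R k +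
          (Nat.stirlingSecond l k : Polynomial R) * descPochhammer R (k + 1) := by
      intro k _
      rw [descPochhammer_succ_right]
      ring
    rw [Finset.sum_congr rfl h4, Finset.sum_add_distrib, h1, ← Finset.sum_add_distrib]
    simp only [Nat.cast_zero, zero_mul, add_zero]
    refine Finset.sum_congr rfl fun k _ => ?_
    rw [Nat.stirlingSecond_succ_succ]
    push_cast
    ring

lemma m3sig_comp_coeff {R : Type} [CommRing R] (f : Polynomial R) {L : ℕ}
    (h : f.natDegree < L + 1) (m : ℕ) :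
    (f.comp (Polynomial.X + 1)).coeff m =
      ∑ n ∈ range (L + 1), (n.choose m : R) * f.coeff n := by
  conv_lhs => rw [f.as_sum_range_C_mul_X_pow' h]
  rw [Polynomial.sum_comp, Polynomial.finsetSum_coeff]
  refine Finset.sum_congr rfl fun n _ => ?_
  rw [Polynomial.mul_comp, Polynomial.C_comp, Polynomial.X_pow_comp, Polynomial.coeff_C_mul,
    Polynomial.coeff_X_add_one_pow, mul_comm]

lemma m3sig_actMat_one (L : ℕ) {g : Mat} (h0 : g 0 0 = 1) (h1 : g 0 1 = 1) (h2 : g 1 0 = 0)
    (h3 : g 1 1 = 1) (m n : Fin (L + 1)) : actMat L g m n = ((n : ℕ).choose m : ℤ) := by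
  unfold actMat
  rw [h0, h1, h2, h3]
  simp [Polynomial.coeff_X_add_one_pow]

lemma m3sig_actMat_zero (L : ℕ) {g : Mat} (h0 : g 0 0 = 1) (h1 : g 0 1 = 0) (h2 : g 1 0 = 0)
    (h3 : g 1 1 = 1) (m n : Fin (L + 1)) : actMat L g m n = if m = n then 1 else 0 := by
  unfold actMat
  rw [h0, h1, h2, h3]
  simp [Polynomial.coeff_X_pow, Fin.ext_iff]

omit [IsUltrametricDist K] in
lemma sigP_diff (l : ℕ) :
    (sigP K l).comp (Polynomial.X + 1) - sigP K l = Polynomial.X ^ l := by
  rw [m3sig_pow K l]
  unfold sigP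
  rw [Polynomial.sum_comp, ← Finset.sum_sub_distrib]
  refine Finset.sum_congr rfl fun k _ => ?_
  have hk : (k : K) + 1 ≠ 0 := by exact_mod_cast Nat.succ_ne_zero k
  rw [Polynomial.mul_comp, Polynomial.C_comp, ← mul_sub, m3sig_desc_diff, ← mul_assoc,
    ← Polynomial.C_mul, div_mul_cancel₀ _ hk, Polynomial.C_eq_natCast]

omit [IsUltrametricDist K] [CharZero K] in
lemma sig_zero_row (l : ℕ) : sig K 0 l = 0 := by
  unfold sig sigP
  rw [Polynomial.finsetSum_coeff]
  refine Finset.sum_eq_zero fun k _ => ?_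
  rw [Polynomial.coeff_C_mul, Polynomial.coeff_zero_eq_eval_zero,
    descPochhammer_ne_zero_eval_zero _ (Nat.succ_ne_zero k), mul_zero]

omit [IsUltrametricDist K] [CharZero K] in
lemma sig_eq_zero {m l : ℕ} (h : l + 1 < m) : sig K m l = 0 := by
  unfold sig sigP
  rw [Polynomial.finsetSum_coeff]
  refine Finset.sum_eq_zero fun k hk => ?_
  have hk' := Finset.mem_range.1 hk
  rw [Polynomial.coeff_C_mul, Polynomial.coeff_eq_zero_of_natDegree_lt, mul_zero]
  rw [descPochhammer_natDegree]
  omega

lemma sig_norm (hK : ‖(p : K)‖ = (p : ℝ)⁻¹) (m l : ℕ) :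
    ‖sig K m l‖ ≤ (p : ℝ) ^ Nat.log p (l + 1) := by
  unfold sig sigP
  rw [Polynomial.finsetSum_coeff]
  refine norm_sum_le' _ _ (by positivity) fun k hk => ?_
  have hk' := Finset.mem_range.1 hk
  rw [Polynomial.coeff_C_mul, ← descPochhammer_map (Int.castRingHom K), Polynomial.coeff_map,
    div_eq_mul_inv]
  have h1 : ‖((k : K) + 1)⁻¹‖ ≤ (p : ℝ) ^ Nat.log p (l + 1) := by
    have h2 := norm_inv_nat_le hK (k + 1)
    push_cast at h2
    exact h2.trans (pow_le_pow_right₀ one_le_p (Nat.log_mono_right (by omega)))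
  have h3 := norm_mul_le' (norm_mul_le' (norm_nat_le (K := K) (Nat.stirlingSecond l k)) h1)
    (norm_int_le (K := K) ((descPochhammer ℤ (k + 1)).coeff m))
  rw [one_mul, mul_one] at h3
  exact h3

omit [IsUltrametricDist K] in
lemma m3sig_key {L l : ℕ} (hl : l < L) (m : ℕ) :
    ∑ n : Fin (L + 1), (((n : ℕ).choose m : ℕ) : K) * sig K n l =
      sig K m l + if m = l then 1 else 0 := by
  have h1 : (sigP K l).natDegree < L + 1 := by
    refine Nat.lt_succ_of_le (Polynomial.natDegree_le_iff_coeff_eq_zero.2 fun N hN => ?_)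
    exact sig_eq_zero (by omega)
  have h2 := congrArg (fun f : Polynomial K => f.coeff m) (sigP_diff (K := K) l)
  simp only [Polynomial.coeff_sub, Polynomial.coeff_X_pow] at h2
  rw [m3sig_comp_coeff _ h1] at h2
  rw [Fin.sum_univ_eq_sum_range (fun n => ((n.choose m : ℕ) : K) * sig K n l) (L + 1), ← h2]
  unfold sig
  ring

lemma m3sig_ite_norm (hK : ‖(p : K)‖ = (p : ℝ)⁻¹) (c : Prop) [Decidable c] (m l : ℕ) :
    ‖(if c then sig K m l else 0)‖ ≤ (p : ℝ) ^ Nat.log p (l + 1) := by
  split_ifs
  · exact sig_norm hK m l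
  · rw [norm_zero]; positivity

omit [IsUltrametricDist K] [CharZero K] in
lemma m3sig_ind_norm (c : Prop) [Decidable c] : ‖(if c then (1 : K) else 0)‖ ≤ 1 := by
  split_ifs <;> simp

lemma sbd_sdq (hK : ‖(p : K)‖ = (p : ℝ)⁻¹) (q L : ℕ) :
    SBd p (sdq K q L) (fun x => (x.2 : ℕ)) L := by
  refine ⟨fun x => Nat.lt_succ_iff.1 x.2.2, fun x y h => ?_, fun x y => ?_, fun y h => ?_,
    fun y => m3sig_ind_norm _, fun x => m3sig_ind_norm _⟩
  · have h1 : ¬ (y.1.val < x.1.val ∧ x.2 = y.2) := fun h2 => by
      rw [h2.2] at h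
      omega
    simp only [sdq, if_neg h1, sig_eq_zero h, ite_self, add_zero]
  · exact norm_add_le' (m3sig_ite_norm hK _ _ _)
      ((m3sig_ind_norm _).trans (one_le_pow₀ one_le_p))
  · have h1 : y.2 ≠ Fin.last L := fun h2 => by
      rw [h2, Fin.val_last] at h
      omega
    simp only [sdq, if_neg h1]

lemma sbd_sd0 (hK : ‖(p : K)‖ = (p : ℝ)⁻¹) (L : ℕ) :
    SBd p (sd0 K L) (fun x => (x : ℕ)) L := by
  refine ⟨fun x => Nat.lt_succ_iff.1 x.2, fun x y h => ?_, fun x y => m3sig_ite_norm hK _ _ _,
    fun y h => ?_, fun y => m3sig_ind_norm _, fun x => m3sig_ind_norm _⟩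
  · simp only [sd0, sig_eq_zero h, ite_self]
  · have h1 : y ≠ Fin.last L := fun h2 => by
      rw [h2, Fin.val_last] at h
      omega
    simp only [sd0, if_neg h1]

omit [IsUltrametricDist K] in
lemma good_sd0 (L : ℕ) : (sd0 K L).Good (actV K L (ModularGroup.T : SL(2, ℤ))) := by
  refine ⟨?_, fun y => ?_⟩
  · ext m l
    rw [Matrix.add_apply, Matrix.sub_mul, Matrix.one_mul, Matrix.sub_apply, Matrix.mul_apply,
      Matrix.vecMulVec_apply, Matrix.one_apply]
    have h1 : ∀ n, actV K L (ModularGroup.T : SL(2, ℤ)) m n = (((n : ℕ).choose m : ℕ) : K) := by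
      intro n
      unfold actV
      rw [Matrix.map_apply, m3sig_actMat_one L rfl rfl rfl rfl, Int.cast_natCast]
    simp only [h1, sd0]
    by_cases hl : (l : ℕ) < L
    · have h2 : l ≠ Fin.last L := fun h2 => by
        rw [h2, Fin.val_last] at hl
        omega
      simp only [if_pos hl, if_neg h2, m3sig_key hl]
      simp only [Fin.ext_iff]
      ring
    · have h2 : l = Fin.last L := Fin.ext (by have := l.2; rw [Fin.val_last]; omega)
      simp only [if_neg hl]
      simp [h2]
  · simp only [sd0, Fin.val_zero, sig_zero_row, ite_self]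

lemma m3sig_disc (q : ℕ) [NeZero q] (i : ZMod q) :
    disc q (ModularGroup.T : SL(2, ℤ)) (i.val : ℤ) = i + 1 := by
  unfold disc
  rw [ModularGroup.coe_T]
  simp

lemma m3sig_loc (q : ℕ) [NeZero q] (i : ZMod q) :
    loc q q (ModularGroup.T : SL(2, ℤ)) i =
      !![1, ((i.val : ℤ) + 1 - ((i + 1).val : ℤ)) / q; 0, 1] := by
  unfold loc
  rw [m3sig_disc, ModularGroup.coe_T]
  have hq : (q : ℤ) ≠ 0 := by exact_mod_cast NeZero.ne q
  simp [Int.ediv_self hq]

omit [IsUltrametricDist K] [CharZero K] in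
lemma m3sig_mul (q : ℕ) [NeZero q] (L : ℕ) {ψ : ℤ → K} (hψ : ψ 1 = 1)
    (s : Matrix (Ix q L) (Ix q L) K) (i : ZMod q) (m : Fin (L + 1)) (y : Ix q L) :
    (actCl q q L ψ (ModularGroup.T : SL(2, ℤ)) * s) (i, m) y =
      ∑ n : Fin (L + 1),
        (actMat L !![1, ((i.val : ℤ) + 1 - ((i + 1).val : ℤ)) / q; 0, 1] m n : K) *
          s (i + 1, n) y := by
  rw [Matrix.mul_apply, Fintype.sum_prod_type, Finset.sum_eq_single (i + 1)]
  · refine Finset.sum_congr rfl fun n _ => ?_
    unfold actCl
    simp only [m3sig_disc, m3sig_loc, if_true]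
    congr 1
    have : (!![1, ((i.val : ℤ) + 1 - ((i + 1).val : ℤ)) / q; 0, 1] : Mat) 1 1 = 1 := rfl
    rw [this, hψ, one_mul]
  · intro j _ hj
    refine Finset.sum_eq_zero fun n _ => ?_
    unfold actCl
    simp only [m3sig_disc, if_neg hj, zero_mul]
  · intro h
    exact absurd (Finset.mem_univ _) h

omit [IsUltrametricDist K] in
lemma good_sdq (q : ℕ) [NeZero q] (L : ℕ) {ψ : ℤ → K} (hψ : ψ 1 = 1) :
    (sdq K q L).Good (actCl q q L ψ (ModularGroup.T : SL(2, ℤ))) := by
  refine ⟨?_, fun y => ?_⟩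
  · ext ⟨i, m⟩ ⟨b, l⟩
    rw [Matrix.add_apply, Matrix.sub_mul, Matrix.one_mul, Matrix.sub_apply, m3sig_mul q L hψ,
      Matrix.vecMulVec_apply, Matrix.one_apply]
    have hi : i.val < q := ZMod.val_lt i
    have hb : b.val < q := ZMod.val_lt b
    have hq : (q : ℤ) ≠ 0 := by exact_mod_cast NeZero.ne q
    have hcast : ((i.val + 1 : ℕ) : ZMod q) = i + 1 := by
      push_cast
      rw [ZMod.natCast_zmod_val]
    have hib : i = b ↔ i.val = b.val := ⟨fun h => by rw [h], fun h => ZMod.val_injective q h⟩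
    by_cases h : i.val + 1 < q
    · have h1 : (i + 1).val = i.val + 1 := by
        rw [← hcast, ZMod.val_cast_of_lt h]
      have h2 : i ≠ -1 := fun h2 => by
        have h3 : i + 1 = 0 := by rw [h2]; ring
        rw [h3, ZMod.val_zero] at h1
        omega
      have h3 : ∀ n, actMat L !![1, ((i.val : ℤ) + 1 - ((i + 1).val : ℤ)) / q; 0, 1] m n =
          if m = n then 1 else 0 := fun n =>
        m3sig_actMat_zero L rfl (by rw [h1]; simp) rfl rfl m n
      simp only [h3, Int.cast_ite, Int.cast_one, Int.cast_zero, ite_mul, one_mul, zero_mul,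
        Finset.sum_ite_eq, Finset.mem_univ, if_true]
      simp only [sdq, h1, Prod.mk.injEq, h2, false_and, if_false, zero_mul, add_zero, hib]
      by_cases h4 : m = l
      · simp only [h4, and_true]
        split_ifs <;> first | omega | ring
      · simp [h4]
    · have h0 : i.val + 1 = q := by omega
      have h1 : i + 1 = 0 := by rw [← hcast, h0, ZMod.natCast_self]
      have h2 : i = -1 := eq_neg_of_add_eq_zero_left h1
      have h3 : ∀ n, actMat L !![1, ((i.val : ℤ) + 1 - ((i + 1).val : ℤ)) / q; 0, 1] m n =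
          ((n : ℕ).choose m : ℤ) := fun n => by
        refine m3sig_actMat_one L rfl ?_ rfl rfl m n
        have h5 : (i.val : ℤ) + 1 = q := by exact_mod_cast h0
        rw [h1, h5]
        simp [Int.ediv_self hq]
      have h6 : ((i, m) : Ix q L) = (-1, Fin.last L) ↔ m = Fin.last L := by
        rw [Prod.mk.injEq]
        exact ⟨fun h => h.2, fun h => ⟨h2, h⟩⟩
      simp only [h3, Int.cast_natCast]
      simp only [sdq, h1, ZMod.val_zero, Nat.not_lt_zero, false_and, if_false, add_zero, h6]
      simp only [Prod.mk.injEq, hib]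
      by_cases hl : (l : ℕ) < L
      · have h7 : l ≠ Fin.last L := fun h2 => by
          rw [h2, Fin.val_last] at hl
          omega
        simp only [if_pos hl, if_neg h7, m3sig_key hl, mul_zero, add_zero]
        by_cases h4 : m = l
        · simp only [h4, and_true, if_true]
          split_ifs <;> first | omega | ring
        · have h8 : ¬ (m : ℕ) = (l : ℕ) := fun h => h4 (Fin.ext h)
          simp [h4, h8]
      · have h7 : l = Fin.last L := Fin.ext (by have := l.2; rw [Fin.val_last]; omega)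
        simp only [if_neg hl, mul_zero, Finset.sum_const_zero, zero_add, if_pos h7, mul_one]
        rw [← h7]
        by_cases h4 : m = l
        · simp only [h4, and_true, if_true]
          split_ifs <;> first | omega | ring
        · simp [h4]
  · simp only [sdq, Fin.val_zero, sig_zero_row, ite_self, ZMod.val_zero, Nat.not_lt_zero,
      false_and, if_false, add_zero]

end Pool.Agent.Lib.MP_88d29b_nt.G.M3
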