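import Pool.Agent.Lib.MP_88d29b_nt.KDefs
import Pool.Agent.Lib.MP_88d29b_nt.M3Sig

set_option autoImplicit false

noncomputable section

namespace Pool.Agent.Lib.MP_88d29b_nt.G

open Finset CongruenceSubgroup Matrix
open scoped MatrixGroups

variable {p : ℕ} [Fact p.Prime] {κ : ℕ}

lemma kwt_core (A : Matrix (Fin (κ + 1)) (Fin (κ + 1)) (KP p)) (a b : Fin (κ + 1) → KP p) {c : ℝ}
    (hc : 0 ≤ c) (h : ∀ m n, ‖a m * A m n‖ ≤ c * ‖b n‖) (v : Vk (KP p) κ) :
    ‖diagM a (Matrix.toLin' A v)‖ ≤ c * ‖diagM b v‖ := by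
  refine (pi_norm_le_iff_of_nonneg (by positivity)).2 fun m => ?_
  change ‖a m * ∑ n, A m n * v n‖ ≤ _
  rw [Finset.mul_sum]
  refine M3.norm_sum_le' _ _ (by positivity) fun n _ => ?_
  have h1 : ‖b n * v n‖ ≤ ‖diagM b v‖ := norm_le_pi_norm (diagM b v) n
  rw [← mul_assoc, norm_mul]
  rw [norm_mul] at h1
  calc ‖a m * A m n‖ * ‖v n‖ ≤ c * ‖b n‖ * ‖v n‖ := mul_le_mul_of_nonneg_right (h m n) (norm_nonneg _)
    _ = c * (‖b n‖ * ‖v n‖) := mul_assoc _ _ _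
    _ ≤ _ := mul_le_mul_of_nonneg_left h1 hc

lemma kwt_diag_one (v : Vk (KP p) κ) : diagM (fun _ => (1 : KP p)) v = v := by
  ext i
  exact one_mul _

lemma kwt_pow_le {a b : ℕ} (h : a ≤ b) : ‖(p : KP p) ^ b‖ ≤ ‖(p : KP p) ^ a‖ := by
  rw [norm_pow, norm_pow]
  exact pow_le_pow_of_le_one (norm_nonneg _) (M3.norm_nat_le p) h

lemma kwt_dvd {z : ℤ} {r : ℕ} (h : (p : ℤ) ^ r ∣ z) (a : ℕ) :
    ‖(p : KP p) ^ a * (z : KP p)‖ ≤ ‖(p : KP p) ^ (a + r)‖ := by
  obtain ⟨y, rfl⟩ := h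
  push_cast
  rw [← mul_assoc, ← pow_add, norm_mul]
  exact mul_le_of_le_one_right (norm_nonneg _) (norm_int_le p y)

lemma kwt_anti {e : ℕ → ℕ} (he : Steps e) : Antitone e := antitone_nat_of_succ_le fun j => (he j).1

lemma kwt_steps {e : ℕ → ℕ} (he : Steps e) (m n : ℕ) : e n ≤ e m + (m - n) := by
  rcases le_total m n with h | h
  · exact (kwt_anti he h).trans (Nat.le_add_right _ _)
  · obtain ⟨t, rfl⟩ := Nat.exists_eq_add_of_le h
    rw [Nat.add_sub_cancel_left]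
    induction t with
    | zero => simp
    | succ t ih =>
      have h1 := ih (Nat.le_add_right _ _)
      have h2 := (he (n + t)).2
      rw [← Nat.add_assoc n t 1]
      omega

lemma kwt_coeff {q c : ℤ} (h : q ∣ c) (d : ℤ) (r j : ℕ) :
    q ^ j ∣ ((Polynomial.C c * Polynomial.X + Polynomial.C d) ^ r).coeff j := by
  have h1 : (Polynomial.C c * Polynomial.X + Polynomial.C d) ^ r =
      ((Polynomial.X + Polynomial.C d) ^ r).comp (Polynomial.C c * Polynomial.X) := by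
    simp
  rw [h1, Polynomial.comp_C_mul_X_coeff]
  exact Dvd.dvd.mul_left (pow_dvd_pow_of_dvd h j) _

theorem norm_vact_le (g : Mat) (v : Vk (KP p) κ) : ‖vact (KP p) κ g v‖ ≤ ‖v‖ := by
  have := kwt_core ((actMat κ g).map (Int.cast : ℤ → KP p)) (fun _ => 1) (fun _ => 1) zero_le_one
    (fun m n => by simpa using norm_int_le p _) v
  rwa [kwt_diag_one, kwt_diag_one, one_mul] at this

theorem norm_vact_SL (g : SL(2, ℤ)) (v : Vk (KP p) κ) : ‖vact (KP p) κ (g : Mat) v‖ = ‖v‖ := by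
  refine le_antisymm (norm_vact_le _ v) ?_
  have h := norm_vact_le ((g⁻¹ : SL(2, ℤ)) : Mat) (vact (KP p) κ (g : Mat) v)
  rwa [← LinearMap.comp_apply, ← vact_mul, ← Matrix.SpecialLinearGroup.coe_mul, mul_inv_cancel,
    Matrix.SpecialLinearGroup.coe_one, vact_one, LinearMap.id_apply] at h

theorem norm_dg_le (e : ℕ → ℕ) (v : Vk (KP p) κ) : ‖dg p e κ v‖ ≤ ‖v‖ := by
  refine (pi_norm_le_iff_of_nonneg (norm_nonneg _)).2 fun m => ?_
  change ‖(p : KP p) ^ e m * v m‖ ≤ _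
  have h := kwt_pow_le (p := p) (Nat.zero_le (e m))
  rw [pow_zero, norm_one] at h
  rw [norm_mul]
  exact (mul_le_of_le_one_left (norm_nonneg _) h).trans (norm_le_pi_norm v m)

theorem norm_le_dg {e : ℕ → ℕ} (he : Steps e) (v : Vk (KP p) κ) :
    ‖v‖ ≤ (p : ℝ) ^ e 0 * ‖dg p e κ v‖ := by
  refine (pi_norm_le_iff_of_nonneg (by positivity)).2 fun m => ?_
  have h1 : ‖(p : KP p) ^ e m * v m‖ ≤ ‖dg p e κ v‖ := norm_le_pi_norm (dg p e κ v) m
  have h2 := kwt_pow_le (p := p) (kwt_anti he (Nat.zero_le (m : ℕ)))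
  have h3 : (0 : ℝ) < (p : ℝ) ^ e 0 := pow_pos (p_pos p) _
  rw [norm_mul] at h1
  rw [norm_pow, norm_p, inv_pow] at h2
  calc ‖v m‖ = (p : ℝ) ^ e 0 * (((p : ℝ) ^ e 0)⁻¹ * ‖v m‖) := by
        rw [← mul_assoc, mul_inv_cancel₀ h3.ne', one_mul]
    _ ≤ _ := mul_le_mul_of_nonneg_left
        ((mul_le_mul_of_nonneg_right h2 (norm_nonneg _)).trans h1) h3.le

theorem dg_der {e : ℕ → ℕ} (he : Steps e) (N : Matrix (Fin 2) (Fin 2) (KP p)) (hN : EntLe N 1)
    (v : Vk (KP p) κ) : ‖dg p e κ (der κ ((p : KP p) • N) v)‖ ≤ ‖dg p e κ v‖ := by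
  have hb : ∀ (i j : Fin 2) (r : ℕ), ‖((p : KP p) • N) i j * (r : KP p)‖ ≤ ‖(p : KP p)‖ := by
    intro i j r
    rw [Matrix.smul_apply, smul_eq_mul, mul_assoc, norm_mul]
    refine mul_le_of_le_one_right (norm_nonneg _) ?_
    simpa using M3.norm_mul_le' (hN i j) (M3.norm_nat_le (K := KP p) r)
  have hi : ∀ (c : Prop) [Decidable c] (x : KP p), ‖x‖ ≤ ‖(p : KP p)‖ →
      ‖(if c then x else 0)‖ ≤ ‖(p : KP p)‖ := by
    intro c _ x hx
    split_ifs
    · exact hx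
    · simp
  rw [← one_mul ‖dg p e κ v‖]
  refine kwt_core _ _ _ zero_le_one (fun m n => ?_) v
  rw [one_mul]
  by_cases h : e n ≤ e m + 1
  · refine le_trans ?_ (kwt_pow_le h)
    rw [pow_succ, norm_mul, norm_mul]
    exact mul_le_mul_of_nonneg_left (M3.norm_add_le' (M3.norm_add_le'
      (hi _ _ (M3.norm_add_le' (hb _ _ _) (hb _ _ _))) (hi _ _ (hb _ _ _))) (hi _ _ (hb _ _ _)))
      (norm_nonneg _)
  · have h1 := kwt_steps he m n
    have h2 : m ≠ n := fun h2 => by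
      rw [h2] at h
      omega
    rw [if_neg h2, if_neg (by omega), if_neg (by omega)]
    simp

/-- If `p ∣ c` the entry `(m, n)` of `actMat κ g` is divisible by `p ^ (m - n)`, and
`e n ≤ e m + (m - n)`. -/
theorem winvt_of_dvd {e : ℕ → ℕ} (he : Steps e) {N : ℕ} (h : p ∣ N) : WInvt p e κ (Gamma0 N) := by
  intro γ hγ v
  have hc : (p : ℤ) ∣ (γ : Mat) 1 0 :=
    (Int.natCast_dvd_natCast.2 h).trans (mem_Gamma0_iff.1 hγ)
  rw [← one_mul ‖dg p e κ v‖]
  refine kwt_core _ _ _ zero_le_one (fun m n => ?_) v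
  rw [one_mul]
  refine le_trans (kwt_dvd (r := m - n) ?_ _) (kwt_pow_le (kwt_steps he m n))
  unfold actMat
  rw [Polynomial.coeff_mul]
  refine Finset.dvd_sum fun x hx => ?_
  have hx' := Finset.HasAntidiagonal.mem_antidiagonal.1 hx
  by_cases h1 : x.1 ≤ n
  · exact Dvd.dvd.mul_left ((pow_dvd_pow _ (by omega)).trans (kwt_coeff hc _ _ x.2)) _
  · rw [Polynomial.coeff_eq_zero_of_natDegree_lt, zero_mul]
    · exact dvd_zero _
    · exact ((Polynomial.natDegree_pow_le_of_le _ (natDegree_lin_le _ _)).trans_lt (by omega))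

theorem winvt_const (c : ℕ) (Γ : Subgroup SL(2, ℤ)) : WInvt p (fun _ => c) κ Γ := by
  intro γ _ v
  rw [← one_mul ‖dg p (fun _ => c) κ v‖]
  refine kwt_core _ _ _ zero_le_one (fun m n => ?_) v
  rw [one_mul, norm_mul]
  exact mul_le_of_le_one_right (norm_nonneg _) (norm_int_le p _)

/-- If `p ∣ a` and `p ∣ c` the row `m` of `actMat κ g` is divisible by `p ^ m`. -/
theorem dg_vact_U (h : ℕ) (g : Mat) (h0 : (p : ℤ) ∣ g 0 0) (h1 : (p : ℤ) ∣ g 1 0) (v : Vk (KP p) κ) :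
    ‖dg p (fun j => h - j) κ (vact (KP p) κ g v)‖ ≤ (p : ℝ) ^ (-(h : ℝ)) * ‖v‖ := by
  rw [← norm_p_pow]
  conv_rhs => rw [← kwt_diag_one v]
  refine kwt_core _ _ _ (norm_nonneg _) (fun m n => ?_) v
  rw [norm_one, mul_one]
  refine le_trans (kwt_dvd (r := m) ?_ _) (kwt_pow_le (by beta_reduce; omega))
  unfold actMat
  rw [Polynomial.coeff_mul]
  refine Finset.dvd_sum fun x hx => ?_
  rw [← Finset.HasAntidiagonal.mem_antidiagonal.1 hx, pow_add]
  exact mul_dvd_mul (kwt_coeff h0 _ _ _) (kwt_coeff h1 _ _ _)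

/-- With `w = v | T - v` and the matrix `s` of `M3.sd0` (`M3.good_sd0`, `M3.sig_norm`): `w` has no term
of degree `κ`, so `(T - 1)(s w) = w`; the kernel of `T - 1` consists of constants, so `v = s w`. -/
theorem norm_le_diff (v : Vk (KP p) κ) (hv : v 0 = 0) :
    ‖v‖ ≤ (p : ℝ) ^ Nat.log p (κ + 1) *
      ‖vact (KP p) κ ((ModularGroup.T : SL(2, ℤ)) : Mat) v - v‖ := by
  obtain ⟨h1, h2⟩ := M3.good_sd0 (K := KP p) κ
  set T := M3.actV (KP p) κ ((ModularGroup.T : SL(2, ℤ)) : Mat) with hT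
  set sd := M3.sd0 (KP p) κ with hsd
  have hz : sd.z = 0 := rfl
  have h3 : (T - 1) *ᵥ Pi.single 0 1 = 0 := by
    ext m
    rw [Matrix.mulVec_single_one, Matrix.col_apply, Matrix.sub_apply, hT, M3.actV, Matrix.map_apply,
      M3.m3sig_actMat_one κ rfl rfl rfl rfl, Matrix.one_apply]
    by_cases hm : m = 0
    · simp [hm]
    · have : (0 : ℕ) < m := Nat.pos_of_ne_zero fun h => hm (Fin.ext h)
      simp [hm, Nat.choose_eq_zero_of_lt this]
  have h4 : Pi.single 0 1 ᵥ* sd.s = 0 := by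
    ext l
    rw [Matrix.single_one_vecMul]
    exact h2 l
  have h5 : (T - 1 + Matrix.vecMulVec sd.e (Pi.single 0 1)) *
      (sd.s + Matrix.vecMulVec (Pi.single 0 1) sd.lam) = 1 := by
    rw [Matrix.add_mul, Matrix.mul_add, Matrix.mul_add, Matrix.mul_vecMulVec, h3,
      Matrix.vecMulVec_mul, h4, Matrix.vecMulVec_mul_vecMulVec]
    simpa using h1
  have h6 := mul_eq_one_comm.1 h5
  have h7 : (T - 1 + Matrix.vecMulVec sd.e (Pi.single 0 1)) *ᵥ v =
      vact (KP p) κ ((ModularGroup.T : SL(2, ℤ)) : Mat) v - v := by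
    rw [Matrix.add_mulVec, Matrix.sub_mulVec, Matrix.one_mulVec, Matrix.vecMulVec_mulVec]
    simp [hv, vact, hT, M3.actV]
  have h8 := kwt_core (sd.s + Matrix.vecMulVec (Pi.single 0 1) sd.lam) (fun _ => 1) (fun _ => 1)
    (c := (p : ℝ) ^ Nat.log p (κ + 1)) (by positivity) (fun m n => ?_)
    (vact (KP p) κ ((ModularGroup.T : SL(2, ℤ)) : Mat) v - v)
  · rw [kwt_diag_one, kwt_diag_one, Matrix.toLin'_apply] at h8
    rw [← h7, Matrix.mulVec_mulVec, h6, Matrix.one_mulVec, h7] at h8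
    exact h8
  · rw [one_mul, norm_one, mul_one, Matrix.add_apply, Matrix.vecMulVec_apply]
    refine M3.norm_add_le' ((M3.m3sig_ite_norm (norm_p p) _ _ _).trans
      (pow_le_pow_right₀ (one_lt_p p).le (Nat.log_mono_right (by omega)))) ?_
    refine le_trans ?_ (one_le_pow₀ (one_lt_p p).le)
    rw [Pi.single_apply]
    exact (M3.norm_mul_le' (M3.m3sig_ind_norm (K := KP p) (m = 0))
      (M3.m3sig_ind_norm (K := KP p) (n = Fin.last κ))).trans (one_mul _).le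

end Pool.Agent.Lib.MP_88d29b_nt.G
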