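import Pool.Agent.Lib.MP_88d29b_nt.BoundL
import Pool.Agent.Lib.MP_88d29b_nt.BoundR
import Pool.Agent.Lib.MP_88d29b_nt.BoundD

set_option autoImplicit false

noncomputable section

namespace Pool.Agent.Lib.MP_88d29b_nt

open Finset


/-! All statements: apply the bound of `BoundL`, `BoundR`, `BoundD` with
`mu = g + (2 * (dd n x + dd n y) + 1) / 64` (the relevant integers are positive, at most `2 s`, and
within `2 * (dd n x + dd n y) + 1` of the centre `s - 2 n`), `lg_le` and
`|x - y| ≤ dd n x + dd n y`. If the indices are in the wrong order the entry is `0`. -/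

variable {s n N : ℕ} {g : ℝ}

lemma local_sml (hG : Gen s n g) {A a b : ℤ} {K : ℝ}
    (hA : A = s - 2 * n ∨ A = s - 3 * n ∨ A = 2 * s - 3 * n ∨ A = 2 * s - 4 * n)
    (ha : 0 < a) (hb : b ≤ 2 * s) (h1 : -K ≤ (a : ℝ) - A) (h2 : (b : ℝ) - A ≤ K) :
    Sml a b (g + K / 64) := by
  intro x hx1 hx2
  refine (hG x (lt_of_lt_of_le ha hx1) (hx2.trans hb) A hA).mono ?_
  have e1 : (a : ℝ) ≤ x := by exact_mod_cast hx1
  have e2 : (x : ℝ) ≤ b := by exact_mod_cast hx2
  have : |(x : ℝ) - A| ≤ K := abs_le.mpr ⟨by linarith, by linarith⟩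
  linarith

lemma local_dd1 (n x : ℕ) : (x : ℝ) - n ≤ dd n x := le_abs_self _

lemma local_dd2 (n x : ℕ) : (n : ℝ) - x ≤ dd n x := by
  have := neg_abs_le ((x : ℝ) - n)
  unfold dd
  linarith

lemma local_lg (n : ℕ) {x y : ℕ} (h : x ≤ y) : lg (y - x) ≤ 7 + (dd n x + dd n y) / 64 := by
  have h1 := lg_le (y - x)
  rw [Nat.cast_sub h] at h1
  have h2 := local_dd1 n y
  have h3 := local_dd2 n x
  linarith

lemma local_smlA (hG : Gen s n g) {x y : ℕ} (hy : 3 * y + 3 ≤ s) (hxy : x ≤ y) :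
    Sml ((s : ℤ) - y - x) ((s : ℤ) - 2 * x - 1) (g + (2 * (dd n x + dd n y) + 1) / 64) := by
  have a1 := local_dd1 n x
  have a2 := local_dd2 n x
  have a3 := local_dd1 n y
  have a4 := local_dd2 n y
  have a5 := dd_nonneg n x
  have a6 := dd_nonneg n y
  refine local_sml hG (A := s - 2 * n) (Or.inl rfl) (by omega) (by omega) ?_ ?_
  · push_cast
    linarith
  · push_cast
    linarith

lemma local_smlB (hG : Gen s n g) {x y : ℕ} (hy : 3 * y + 3 ≤ s) :
    Sml ((s : ℤ) - 2 * y + 1) ((s : ℤ) - y - x) (g + (2 * (dd n x + dd n y) + 1) / 64) := by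
  have a1 := local_dd1 n x
  have a2 := local_dd2 n x
  have a3 := local_dd1 n y
  have a4 := local_dd2 n y
  have a5 := dd_nonneg n x
  have a6 := dd_nonneg n y
  refine local_sml hG (A := s - 2 * n) (Or.inl rfl) (by omega) (by omega) ?_ ?_
  · push_cast
    linarith
  · push_cast
    linarith

lemma local_mu (hg : 0 ≤ g) (n x y : ℕ) : 0 ≤ g + (2 * (dd n x + dd n y) + 1) / 64 := by
  have a5 := dd_nonneg n x
  have a6 := dd_nonneg n y
  linarith

theorem loc_mL (hG : Gen s n g) (hg : 0 ≤ g) (hN : 3 * N + 3 ≤ s) {m j : ℕ} (hj : 1 ≤ j)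
    (hm : m ≤ N) : Bd (mL s m j) (g + 26 + (dd n m + dd n j) / 8) := by
  by_cases hjm : j ≤ m
  · have hs : 3 * m + 3 ≤ s := by omega
    refine (bd_mL hj hjm hs (local_mu hg n j m) (local_smlA hG hs hjm)).mono ?_
    have h1 := local_lg n hjm
    have a5 := dd_nonneg n m
    have a6 := dd_nonneg n j
    linarith
  · rw [mL, if_neg hjm]
    exact bd_zero _

theorem loc_mE (hG : Gen s n g) (hg : 0 ≤ g) (hN : 3 * N + 3 ≤ s) {i j : ℕ} (hi : 1 ≤ i)
    (hj : j ≤ N) : Bd (mE s i j) (g + 26 + (dd n i + dd n j) / 8) := by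
  by_cases hij : i ≤ j
  · have hs : 3 * j + 3 ≤ s := by omega
    refine (bd_mE hi hij hs (local_mu hg n i j) (local_smlB hG hs)).mono ?_
    have h1 := local_lg n hij
    have a5 := dd_nonneg n i
    have a6 := dd_nonneg n j
    linarith
  · rw [mE, if_neg hij]
    exact bd_zero _

theorem loc_mLi (hG : Gen s n g) (hg : 0 ≤ g) (hN : 3 * N + 3 ≤ s) {j m : ℕ} (hm : 1 ≤ m)
    (hj : j ≤ N) : Bd (mLi s j m) (g + 26 + (dd n j + dd n m) / 8) := by
  by_cases hmj : m ≤ j
  · have hs : 3 * j + 3 ≤ s := by omega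
    refine (bd_mLi hm hmj hs (local_mu hg n m j) (local_smlB hG hs)).mono ?_
    have h1 := local_lg n hmj
    have a5 := dd_nonneg n m
    have a6 := dd_nonneg n j
    linarith
  · rw [mLi, if_neg hmj]
    exact bd_zero _

theorem loc_mR (hG : Gen s n g) (hg : 0 ≤ g) (hN : 3 * N + 3 ≤ s) {j i : ℕ} (hj : 1 ≤ j)
    (hi : i ≤ N) : Bd (mR s j i) (g + 26 + (dd n j + dd n i) / 8) := by
  by_cases hji : j ≤ i
  · have hs : 3 * i + 3 ≤ s := by omega
    refine (bd_mR hj hji hs (local_mu hg n j i) (local_smlA hG hs hji)).mono ?_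
    have h1 := local_lg n hji
    have a5 := dd_nonneg n i
    have a6 := dd_nonneg n j
    linarith
  · rw [mR, if_pos (not_le.mp hji)]
    exact bd_zero _

theorem loc_mR_cross (hG : Gen s n g) (hg : 0 ≤ g) (hN : 3 * N + 3 ≤ s) {r j i : ℕ}
    (hr : 2 ^ r ∣ n) (hj : 1 ≤ j) (hjn : j < n) (hni : n ≤ i) (hi : i ≤ N) :
    Bd (mR s j i) (-(r : ℝ) + (g + 26) + (dd n j + dd n i) / 8) := by
  have hji : j ≤ i := by omega
  have hs : 3 * i + 3 ≤ s := by omega
  refine (bd_mR_cross hj hjn hni hs (local_mu hg n j i) hr (local_smlA hG hs hji)).mono ?_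
  have h1 := local_lg n hji
  have a5 := dd_nonneg n i
  have a6 := dd_nonneg n j
  linarith

/-- `mu1 = g + 2 δ / 64` (centre `s - 2 n`), `mu2 = g + 4 δ / 64` (centre `2 s - 4 n`). -/
theorem loc_piv_up (hG : Gen s n g) (hg : 0 ≤ g) (hN : 3 * N + 3 ≤ s) {j : ℕ} (hn : 1 ≤ n)
    (hnj : n ≤ j) (hj : j ≤ N) : Bd (piv s j / piv s n) (2 * (g + 26) + dd n j / 4) := by
  have hs : 3 * j + 3 ≤ s := by omega
  have a1 := local_dd1 n j
  have a5 := dd_nonneg n j
  have s1 : Sml ((s : ℤ) - 2 * j) ((s : ℤ) - 2 * n - 1) (g + 2 * dd n j / 64) := by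
    refine local_sml hG (A := s - 2 * n) (Or.inl rfl) (by omega) (by omega) ?_ ?_
    · push_cast
      linarith
    · push_cast
      linarith
  have s2 : Sml (2 * (s : ℤ) - 4 * j + 1) (2 * (s : ℤ) - 4 * n) (g + 4 * dd n j / 64) := by
    refine local_sml hG (A := 2 * s - 4 * n) (Or.inr (Or.inr (Or.inr rfl))) (by omega)
      (by omega) ?_ ?_
    · push_cast
      linarith
    · push_cast
      linarith
  refine (bd_piv_ratio hn hnj hs (by linarith) (by linarith) s1 s2).mono ?_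
  have h1 := lg_le (3 * (j - n))
  rw [Nat.cast_mul, Nat.cast_sub hnj] at h1
  push_cast at h1
  linarith

theorem loc_piv_down (hG : Gen s n g) (hg : 0 ≤ g) (hN : 3 * N + 3 ≤ s) {j : ℕ} (hj : 1 ≤ j)
    (hjn : j ≤ n) (hn : n ≤ N) : Bd (piv s n / piv s j) (2 * (g + 26) + dd n j / 4) := by
  have hs : 3 * n + 3 ≤ s := by omega
  have a1 := local_dd2 n j
  have a5 := dd_nonneg n j
  have s1 : Sml ((s : ℤ) - 2 * n) ((s : ℤ) - 2 * j - 1) (g + 2 * dd n j / 64) := by
    refine local_sml hG (A := s - 2 * n) (Or.inl rfl) (by omega) (by omega) ?_ ?_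
    · push_cast
      linarith
    · push_cast
      linarith
  have s2 : Sml (2 * (s : ℤ) - 4 * n + 1) (2 * (s : ℤ) - 4 * j) (g + 4 * dd n j / 64) := by
    refine local_sml hG (A := 2 * s - 4 * n) (Or.inr (Or.inr (Or.inr rfl))) (by omega)
      (by omega) ?_ ?_
    · push_cast
      linarith
    · push_cast
      linarith
  refine (bd_piv_ratio hj hjn hs (by linarith) (by linarith) s1 s2).mono ?_
  have h1 := lg_le (3 * (n - j))
  rw [Nat.cast_mul, Nat.cast_sub hjn] at h1
  push_cast at h1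
  linarith

theorem bd_rho (e s m : ℕ) : Bd (rho e s m) 0 := by
  unfold rho
  split_ifs
  · exact bd_one
  · have := bd_int ((s : ℤ) - 3 * m)
    push_cast at this
    exact this

theorem bd_kap (e s i : ℕ) : Bd (kap e s i) 0 := by
  unfold kap
  split_ifs
  · exact bd_one
  · have := bd_int (2 * (s : ℤ) - 3 * i)
    push_cast at this
    exact this

theorem rho_ne_zero (e : ℕ) {s m : ℕ} (h : 3 * m < s) : rho e s m ≠ 0 := by
  unfold rho
  split_ifs
  · exact one_ne_zero
  · have : (3 * m : ℚ) < s := by exact_mod_cast h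
    intro h0
    linarith

theorem kap_ne_zero (e : ℕ) {s i : ℕ} (h : 3 * i < s) : kap e s i ≠ 0 := by
  unfold kap
  split_ifs
  · exact one_ne_zero
  · have : (3 * i : ℚ) < s := by exact_mod_cast h
    have h2 : (0 : ℚ) ≤ s := Nat.cast_nonneg s
    intro h0
    linarith

theorem glob_rho (e : ℕ) {s m : ℕ} (h : 3 * m < s) : Bd ((rho e s m)⁻¹) (Lam s) := by
  unfold rho
  split_ifs
  · rw [inv_one]
    exact bd_one.mono (le_trans zero_le_one (one_le_Lam (by omega)))
  · have := small_Lam (s := s) (a := (s : ℤ) - 3 * m) (b := (s : ℤ) - 3 * m) (by omega)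
      (by omega) _ le_rfl le_rfl
    push_cast at this
    exact this

/-- Centre `s - 3 n`. -/
theorem loc_rho (hG : Gen s n g) (hg : 0 ≤ g) (e : ℕ) {m : ℕ} (h : 3 * m < s) :
    Bd ((rho e s m)⁻¹) (g + 26 + dd n m / 8) := by
  have a1 := local_dd1 n m
  have a2 := local_dd2 n m
  have a5 := dd_nonneg n m
  unfold rho
  split_ifs
  · rw [inv_one]
    exact bd_one.mono (by linarith)
  · have h1 : Sml ((s : ℤ) - 3 * m) ((s : ℤ) - 3 * m) (g + 3 * dd n m / 64) := by
      refine local_sml hG (A := s - 3 * n) (Or.inr (Or.inl rfl)) (by omega) (by omega) ?_ ?_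
      · push_cast
        linarith
      · push_cast
        linarith
    have := h1 _ le_rfl le_rfl
    push_cast at this
    exact this.mono (by linarith)

/-- Centre `2 s - 3 n`. -/
theorem loc_kap (hG : Gen s n g) (hg : 0 ≤ g) (e : ℕ) {i : ℕ} (h : 3 * i < s) :
    Bd ((kap e s i)⁻¹) (g + 26 + dd n i / 8) := by
  have a1 := local_dd1 n i
  have a2 := local_dd2 n i
  have a5 := dd_nonneg n i
  unfold kap
  split_ifs
  · rw [inv_one]
    exact bd_one.mono (by linarith)
  · have h1 : Sml (2 * (s : ℤ) - 3 * i) (2 * (s : ℤ) - 3 * i) (g + 3 * dd n i / 64) := by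
      refine local_sml hG (A := 2 * s - 3 * n) (Or.inr (Or.inr (Or.inl rfl))) (by omega)
        (by omega) ?_ ?_
      · push_cast
        linarith
      · push_cast
        linarith
    have := h1 _ le_rfl le_rfl
    push_cast at this
    exact this.mono (by linarith)

end Pool.Agent.Lib.MP_88d29b_nt
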