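import Pool.Agent.Lib.MP_88d29b_nt.CutThm
import Pool.Agent.Lib.MP_88d29b_nt.GoodD

set_option autoImplicit false

noncomputable section

namespace Pool.Agent.Lib.MP_88d29b_nt

open Finset


theorem lower_ev {δ : ℝ} (hδ : 0 < δ) (c : ℝ) :
    ∀ᶠ s : ℕ in Filter.atTop, c + Lam s ≤ δ * s := by
  have h1 := (Real.isLittleO_logb_id_atTop (b := 2)).bound (c := δ / 4) (by positivity)
  have h2 : Filter.Tendsto (fun s : ℕ => 2 * (s : ℝ)) Filter.atTop Filter.atTop :=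
    tendsto_natCast_atTop_atTop.const_mul_atTop (by norm_num)
  have h3 : Filter.Tendsto (fun s : ℕ => δ / 2 * (s : ℝ)) Filter.atTop Filter.atTop :=
    tendsto_natCast_atTop_atTop.const_mul_atTop (by positivity)
  filter_upwards [h2.eventually h1, h3.eventually_ge_atTop c] with s hs hc
  have h4 : Lam s ≤ δ / 4 * (2 * (s : ℝ)) := by
    have h5 : ‖id (2 * (s : ℝ))‖ = 2 * (s : ℝ) := by
      rw [id, Real.norm_eq_abs, abs_of_nonneg (by positivity)]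
    rw [h5, Real.norm_eq_abs] at hs
    exact (le_abs_self _).trans hs
  linarith

theorem lower_aux (g : ℕ) {η : ℝ} (hη : 0 < η) (hη1 : η ≤ 1 / 100) :
    ∃ s0 : ℕ, ∀ s : ℕ, s0 ≤ s → Good g s → ∀ e : ℕ, e ≤ 1 → ∀ M : ℕ → ℕ → ℤ, Closed e s M →
      ∀ t : ℝ, 0 ≤ t → t ≤ (4 * (s : ℝ) + 2) / 3 →
        ∃ x : KK, ‖x‖ ≤ (2 : ℝ) ^ t ∧
          (2 : ℝ) ^ (t ^ 2 / 8 - 100 * η * (s : ℝ) ^ 2) ≤ ‖detK (matU e s M) x‖ := by
  obtain ⟨C, hC⟩ := pow_unbounded_of_one_lt (8 / η) (by norm_num : (1 : ℝ) < 2)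
  set g' : ℝ := (g : ℝ) + C + 1 with hg'
  have hg0 : 0 ≤ g' := by positivity
  obtain ⟨K, hK⟩ := exists_nat_gt (6 * (g' + 26) + (10 * (g' + 26) + 3) ^ 2)
  have hK1 : 1 ≤ K := by
    have : (0 : ℝ) < K := lt_of_le_of_lt (by positivity) hK
    exact_mod_cast this
  obtain ⟨s0, hs0⟩ := Filter.eventually_atTop.1
    ((lower_ev (δ := 1 / 64) (by norm_num) 0).and ((lower_ev (δ := η / 21) (by positivity)
      (g' + 27)).and ((lower_ev hη ((2 : ℝ) ^ K)).and (Filter.eventually_ge_atTop 3))))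
  refine ⟨s0, fun s hs hgood e he M hM t ht0 ht => ?_⟩
  obtain ⟨h1, h2, h3, h4⟩ := hs0 s hs
  have hL : 1 ≤ Lam s := one_le_Lam (by omega)
  have hs3 : (3 : ℝ) ≤ s := by exact_mod_cast h4
  have hηs : 0 < η * s := by positivity
  have hfl : 2 ^ K ≤ ⌊η * s⌋₊ := Nat.le_floor (by push_cast; linarith)
  have hfl0 : ⌊η * s⌋₊ ≠ 0 := by
    have : 0 < 2 ^ K := by positivity
    omega
  set r : ℕ := Nat.log 2 ⌊η * s⌋₊ with hr
  have hKr : K ≤ r := Nat.le_log_of_pow_le (by norm_num) hfl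
  have hr1 : (2 : ℝ) ^ r ≤ η * s := by
    have h5 : 2 ^ r ≤ ⌊η * s⌋₊ := Nat.pow_log_le_self 2 hfl0
    have h6 : ((2 ^ r : ℕ) : ℝ) ≤ ⌊η * s⌋₊ := by exact_mod_cast h5
    push_cast at h6
    exact h6.trans (Nat.floor_le hηs.le)
  have hr2 : η * s < (2 : ℝ) ^ (r + 1) := by
    have h5 : ⌊η * s⌋₊ < 2 ^ (r + 1) := Nat.lt_pow_succ_log_self (by norm_num) _
    have h6 : ((⌊η * s⌋₊ + 1 : ℕ) : ℝ) ≤ ((2 ^ (r + 1) : ℕ) : ℝ) := by exact_mod_cast h5
    push_cast at h6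
    exact (Nat.lt_floor_add_one _).trans_le h6
  have hCs : 2 * s < 2 ^ (r - 1 + C) := by
    have h5 : (2 : ℝ) ^ (r + 1) * 2 ^ C = 4 * 2 ^ (r - 1 + C) := by
      rw [← pow_add, show r + 1 + C = 2 + (r - 1 + C) by omega, pow_add]
      norm_num
    have h6 : η * s * (8 / η) < (2 : ℝ) ^ (r + 1) * 2 ^ C :=
      mul_lt_mul'' hr2 hC hηs.le (by positivity)
    have h7 : η * s * (8 / η) = 8 * s := by field_simp
    have h8 : (2 : ℝ) * s < 2 ^ (r - 1 + C) := by linarith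
    exact_mod_cast h8
  have hp : (0 : ℝ) < 2 ^ r := by positivity
  set y : ℝ := ((1 - η) * t - 2 * Lam s) / (4 * 2 ^ r) with hy
  have hy' : (1 - η) * t - 2 * Lam s = 4 * (2 ^ r * y) := by rw [hy]; field_simp
  set n : ℕ := 2 ^ r * ⌊y⌋₊ with hn
  have hnr : (n : ℝ) = 2 ^ r * ⌊y⌋₊ := by rw [hn]; push_cast; ring
  have ht2 : t ≤ 2 * s := by linarith
  have hηt : η * t ≤ η * (2 * s) := mul_le_mul_of_nonneg_left ht2 hη.le
  have hlow : t ≤ 4 * n + 8 * (η * s) := by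
    have h5 : 2 ^ r * y ≤ 2 ^ r * ((⌊y⌋₊ : ℝ) + 1) :=
      mul_le_mul_of_nonneg_left (Nat.lt_floor_add_one y).le hp.le
    nlinarith
  have hsq : t ^ 2 ≤ (4 * n + 8 * (η * s)) ^ 2 := pow_le_pow_left₀ ht0 hlow 2
  have hss : η * s ≤ s := by nlinarith
  rcases Nat.eq_zero_or_pos n with h0 | h0
  · refine ⟨0, by rw [norm_zero]; positivity, ?_⟩
    have h5 : detK (matU e s M) 0 = 1 := by simp [detK]
    rw [h5, norm_one]
    refine Real.rpow_le_one_of_one_le_of_nonpos (by norm_num) ?_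
    rw [h0] at hsq
    push_cast at hsq
    nlinarith [mul_le_mul_of_nonneg_left hss hηs.le]
  · have hy0 : 0 ≤ y := by
      by_contra h
      have h5 : ⌊y⌋₊ = 0 := Nat.floor_of_nonpos (by linarith)
      rw [hn, h5] at h0
      simp at h0
    have hup : 4 * (n : ℝ) + 2 * Lam s ≤ (1 - η) * t := by
      have h5 : 2 ^ r * (⌊y⌋₊ : ℝ) ≤ 2 ^ r * y :=
        mul_le_mul_of_nonneg_left (Nat.floor_le hy0) hp.le
      linarith
    have hηt0 : 0 ≤ η * t := by positivity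
    have hN : (s : ℝ) ≤ 3 * (((s - 3) / 3 : ℕ) : ℝ) + 5 := by
      have : s ≤ 3 * ((s - 3) / 3) + 5 := by omega
      exact_mod_cast this
    have hcut : CutHyp e s n ((s - 3) / 3) r g' M :=
      { he := he
        hM := hM
        hn := h0
        hN := by omega
        hJ := by
          have h5 : (1 - η) * t ≤ (1 - η) * ((4 * (s : ℝ) + 2) / 3) :=
            mul_le_mul_of_nonneg_left ht (by linarith)
          nlinarith
        hr := Dvd.intro _ hn.symm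
        hG := gen_of_good hgood (hK1.trans hKr) (Dvd.intro _ hn.symm) hCs (by linarith)
        hg := hg0 }
    have hKr' : (K : ℝ) ≤ r := by exact_mod_cast hKr
    obtain ⟨x, hx1, hx2⟩ := cut_thm hcut (hK.trans_le hKr')
    refine ⟨x, hx1.trans (Real.rpow_le_rpow_of_exponent_le (by norm_num) (by linarith)),
      le_trans (Real.rpow_le_rpow_of_exponent_le (by norm_num) ?_) hx2⟩
    have hn0 : (0 : ℝ) ≤ n := Nat.cast_nonneg n
    have hns : (n : ℝ) ≤ s := by linarith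
    have h5 : (n : ℝ) * (5 * Lam s + 5 * (g' + 26) + 5) ≤ n * (η * s) :=
      mul_le_mul_of_nonneg_left (by linarith) hn0
    have h6 : (n : ℝ) * (η * s) ≤ s * (η * s) := mul_le_mul_of_nonneg_right hns hηs.le
    have h7 : η * s * (η * s) ≤ s * (η * s) := mul_le_mul_of_nonneg_right hss hηs.le
    have h8 : 0 ≤ s * (η * s) := by positivity
    nlinarith

/-- We may assume `ε ≤ 1`. Let `η = ε ^ 2 / 100`, fix `C` with `2 ^ C ≥ 8 / η`, put
`g' = g + C + 1`, `G = g' + 26`. For large `s`: `Lam s ≤ s / 64`, `Lam s ≤ η s`,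
`7 Lam s + 6 ≤ η s / 3`, `5 Lam s + 5 G + 5 ≤ η s`, and the number `r` with
`2 ^ r ≤ η s < 2 ^ (r + 1)` exceeds `6 G + (10 G + 3) ^ 2`; also `2 s < 2 ^ (r - 1 + C)`. Let
`n = 2 ^ r * ⌊((1 - η) t - 2 Lam s) / (4 * 2 ^ r)⌋₊` and `N = (s - 3) / 3`. In all cases
`t / 4 ≤ n + 2 η s` (as `t ≤ 2 s`). If `n = 0` take `x = 0` (the determinant is `1` and the exponent
is `≤ 0`). Otherwise `4 n + 2 Lam s ≤ (1 - η) t`, the hypotheses `CutHyp e s n N r g' M` hold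
(`gen_of_good`), and `cut_thm` gives an exponent at least
`2 n ^ 2 - n (5 Lam s + 5 G + 5) ≥ t ^ 2 / 8 - 17 η s ^ 2`. -/
theorem lower_bound (g : ℕ) {ε : ℝ} (hε : 0 < ε) :
    ∃ s0 : ℕ, ∀ s : ℕ, s0 ≤ s → Good g s → ∀ e : ℕ, e ≤ 1 → ∀ M : ℕ → ℕ → ℤ, Closed e s M →
      ∀ t : ℝ, 0 ≤ t → t ≤ (4 * (s : ℝ) + 2) / 3 →
        ∃ x : KK, ‖x‖ ≤ (2 : ℝ) ^ t ∧
          (2 : ℝ) ^ (t ^ 2 / 8 - ε ^ 2 * (s : ℝ) ^ 2) ≤ ‖detK (matU e s M) x‖ := by
  obtain ⟨s0, hs0⟩ := lower_aux g (η := min (ε ^ 2) 1 / 100) (by positivity)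
    (by linarith [min_le_right (ε ^ 2) 1])
  refine ⟨s0, fun s hs hgood e he M hM t ht0 ht => ?_⟩
  obtain ⟨x, hx1, hx2⟩ := hs0 s hs hgood e he M hM t ht0 ht
  refine ⟨x, hx1, le_trans (Real.rpow_le_rpow_of_exponent_le (by norm_num) ?_) hx2⟩
  have h1 : min (ε ^ 2) 1 * (s : ℝ) ^ 2 ≤ ε ^ 2 * (s : ℝ) ^ 2 :=
    mul_le_mul_of_nonneg_right (min_le_left _ _) (by positivity)
  linarith

end Pool.Agent.Lib.MP_88d29b_nt
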