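import Pool.Agent.Lib.MP_88d29b_nt.Defs

set_option autoImplicit false

noncomputable section

namespace Pool.Agent.Lib.MP_88d29b_nt

open Finset

open Polynomial in
/-- The generalised Lucas polynomials. -/
def lucasP (a b : ℤ) : ℕ → ℤ[X]
  | 0 => C a
  | 1 => C b * X
  | n + 2 => X * lucasP a b (n + 1) + X * lucasP a b n

theorem lucas_coeff_zero (a b : ℤ) (n : ℕ) : (lucasP a b (n + 1)).coeff 0 = 0 := by
  cases n with
  | zero => simp [lucasP]
  | succ n => simp [lucasP]

theorem lucas_coeff_succ (a b : ℤ) (n q : ℕ) : (lucasP a b (n + 2)).coeff (q + 1) =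
    (lucasP a b (n + 1)).coeff q + (lucasP a b n).coeff q := by
  simp [lucasP, Polynomial.coeff_X_mul]

theorem lucas_supp (a b : ℤ) : ∀ n q : ℕ, (lucasP a b n).coeff q ≠ 0 → n ≤ 2 * q ∧ q ≤ n
  | 0, q, h => by
    have : q = 0 := by
      by_contra hq
      exact h (by rw [lucasP, Polynomial.coeff_C, if_neg hq])
    omega
  | 1, q, h => by
    have : q = 1 := by
      by_contra hq
      refine h ?_
      simp only [lucasP, Polynomial.coeff_C_mul, Polynomial.coeff_X]
      rw [if_neg (fun h1 => hq h1.symm), mul_zero]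
    omega
  | n + 2, 0, h => absurd (lucas_coeff_zero a b (n + 1)) h
  | n + 2, q + 1, h => by
    rw [lucas_coeff_succ] at h
    by_cases h1 : (lucasP a b (n + 1)).coeff q = 0
    · rw [h1, zero_add] at h
      have := lucas_supp a b n q h
      omega
    · have := lucas_supp a b (n + 1) q h1
      omega

theorem lucas_coeff_top (a b : ℤ) (q : ℕ) : (lucasP a b (q + 1)).coeff (q + 1) = b := by
  induction q with
  | zero => simp [lucasP]
  | succ q ih =>
    rw [lucas_coeff_succ, ih]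
    have : (lucasP a b q).coeff (q + 1) = 0 := by
      by_contra h
      have := lucas_supp a b q (q + 1) h
      omega
    rw [this, add_zero]

theorem lucas_coeff (a b : ℤ) (q : ℕ) : ∀ j : ℕ, (lucasP a b (q + j + 2)).coeff (q + 1) =
    b * (q.choose (j + 1) : ℕ) + a * (q.choose j : ℕ) := by
  induction q with
  | zero =>
    intro j
    rw [lucas_coeff_succ, lucas_coeff_zero]
    cases j with
    | zero => simp [lucasP]
    | succ j =>
      rw [show 0 + (j + 1) = j + 1 by omega, lucas_coeff_zero]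
      simp
  | succ q ih =>
    intro j
    rw [lucas_coeff_succ, show q + 1 + j + 1 = q + j + 2 by omega, ih j]
    cases j with
    | zero =>
      rw [show q + 1 + 0 = q + 1 by omega, lucas_coeff_top]
      simp only [zero_add, Nat.choose_one_right, Nat.choose_zero_right]
      push_cast
      ring
    | succ j =>
      rw [show q + 1 + (j + 1) = q + j + 2 by omega, ih j, Nat.choose_succ_succ' q (j + 1),
        Nat.choose_succ_succ' q j]
      push_cast
      ring

theorem lucas_eval (a b : ℤ) {t1 t2 α η1 η2 ε : ℂ} (h1 : t1 + t2 = α) (h2 : t1 * t2 = -α)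
    (ha : η1 + η2 = a * ε) (hb : η1 * t1 + η2 * t2 = b * α * ε) :
    ∀ n : ℕ, η1 * t1 ^ n + η2 * t2 ^ n = ε * Polynomial.aeval α (lucasP a b n)
  | 0 => by
    simp only [lucasP, pow_zero, mul_one, ha, eq_intCast, map_intCast]
    ring
  | 1 => by
    simp only [lucasP, pow_one, hb, map_mul, Polynomial.aeval_X, eq_intCast, map_intCast]
    ring
  | n + 2 => by
    have e0 := lucas_eval a b h1 h2 ha hb n
    have e1 := lucas_eval a b h1 h2 ha hb (n + 1)
    have k1 : t1 ^ 2 = α * t1 + α := by linear_combination t1 * h1 - h2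
    have k2 : t2 ^ 2 = α * t2 + α := by linear_combination t2 * h1 - h2
    simp only [lucasP, map_add, map_mul, Polynomial.aeval_X]
    linear_combination α * e1 + α * e0 + η1 * t1 ^ n * k1 + η2 * t2 ^ n * k2

theorem lucas_shift (P : Polynomial ℤ) (α : ℂ) (k l s : ℕ)
    (h : ∀ q, P.coeff q ≠ 0 → k + 1 ≤ q + l ∧ q + l < k + s) :
    α ^ k * ∑ m ∈ Ico 1 s, ((if l ≤ m + k then P.coeff (m + k - l) else 0 : ℤ) : ℂ) * α ^ m =
      α ^ l * Polynomial.aeval α P := by
  rw [Polynomial.aeval_def, Polynomial.eval₂_eq_sum, Polynomial.sum_def, mul_sum, mul_sum]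
  symm
  refine sum_bij_ne_zero (fun q _ _ => q + l - k) ?_ ?_ ?_ ?_
  · intro q hq _
    have := h q (Polynomial.mem_support_iff.1 hq)
    rw [mem_Ico]
    omega
  · intro q hq _ q' hq' _ hqq
    have h1 := h q (Polynomial.mem_support_iff.1 hq)
    have h2 := h q' (Polynomial.mem_support_iff.1 hq')
    omega
  · intro m _ hm
    have hl : l ≤ m + k := by
      by_contra hl
      exact hm (by rw [if_neg hl]; simp)
    rw [if_pos hl] at hm
    have hc : P.coeff (m + k - l) ≠ 0 := by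
      intro hc
      exact hm (by rw [hc]; simp)
    refine ⟨m + k - l, Polynomial.mem_support_iff.2 hc, ?_, by omega⟩
    intro h0
    apply hm
    have e1 : α ^ k * α ^ m = α ^ l * α ^ (m + k - l) := by
      rw [← pow_add, ← pow_add]
      congr 1
      omega
    rw [algebraMap_int_eq, eq_intCast] at h0
    linear_combination h0 + (P.coeff (m + k - l) : ℂ) * e1
  · intro q hq _
    have h1 := h q (Polynomial.mem_support_iff.1 hq)
    rw [if_pos (by omega), show q + l - k + k - l = q by omega, algebraMap_int_eq, eq_intCast]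
    have e1 : α ^ k * α ^ (q + l - k) = α ^ l * α ^ q := by
      rw [← pow_add, ← pow_add]
      congr 1
      omega
    linear_combination -(P.coeff q : ℂ) * e1

/-- The matrix of the statement. -/
def lucasM (a b : ℤ) (s m i : ℕ) : ℤ :=
  if 3 * i ≤ 2 * s then
    (-1) ^ i * (if i ≤ m + (s - i) then
      (lucasP a (a - b) (2 * s - 3 * i)).coeff (m + (s - i) - i) else 0)
  else if 2 * (s - i) ≤ m + (s - i) then
    (lucasP a b (3 * i - 2 * s)).coeff (m + (s - i) - 2 * (s - i)) else 0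

theorem lucas_expand (a b : ℤ) (s : ℕ) {t1 t2 α η1 η2 ε : ℂ} (hα : α ≠ 0) (h1 : t1 + t2 = α)
    (h2 : t1 * t2 = -α) (ha : η1 + η2 = a * ε) (hb : η1 * t1 + η2 * t2 = b * α * ε)
    (i : ℕ) (hi : i ∈ Ico 1 s) :
    η1 * t1 ^ i * (1 + t2) ^ (s - i) + η2 * t2 ^ i * (1 + t1) ^ (s - i) =
      ε * ∑ m ∈ Ico 1 s, (lucasM a b s m i : ℂ) * α ^ m := by
  rw [mem_Ico] at hi
  have k1 : α * (1 + t1) = t1 ^ 2 := by linear_combination h2 - t1 * h1
  have k2 : α * (1 + t2) = t2 ^ 2 := by linear_combination h2 - t2 * h1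
  refine mul_left_cancel₀ (pow_ne_zero (s - i) hα) ?_
  have e0 : α ^ (s - i) * (η1 * t1 ^ i * (1 + t2) ^ (s - i) + η2 * t2 ^ i * (1 + t1) ^ (s - i)) =
      η1 * t1 ^ i * t2 ^ (2 * (s - i)) + η2 * t2 ^ i * t1 ^ (2 * (s - i)) := by
    rw [pow_mul, pow_mul, ← k1, ← k2, mul_pow, mul_pow]
    ring
  rw [e0]
  by_cases h : 3 * i ≤ 2 * s
  · have e1 := lucas_eval a (a - b) (t1 := t2) (t2 := t1) (α := α) (η1 := η1) (η2 := η2) (ε := ε)
      (by rw [add_comm, h1]) (by rw [mul_comm, h2]) ha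
      (by push_cast; linear_combination (η1 + η2) * h1 + α * ha - hb) (2 * s - 3 * i)
    have e2 := lucas_shift (lucasP a (a - b) (2 * s - 3 * i)) α (s - i) i s (fun q hq => by
      have := lucas_supp _ _ _ _ hq
      omega)
    have e3 : ∑ m ∈ Ico 1 s, (lucasM a b s m i : ℂ) * α ^ m = (-1) ^ i *
        ∑ m ∈ Ico 1 s, ((if i ≤ m + (s - i) then
          (lucasP a (a - b) (2 * s - 3 * i)).coeff (m + (s - i) - i) else 0 : ℤ) : ℂ) * α ^ m := by
      rw [mul_sum]
      refine sum_congr rfl fun m _ => ?_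
      rw [lucasM, if_pos h, Int.cast_mul, Int.cast_pow, Int.cast_neg, Int.cast_one, mul_assoc]
    have e4 : (t1 * t2) ^ i = (-1) ^ i * α ^ i := by rw [h2, neg_pow]
    rw [e3, show 2 * (s - i) = i + (2 * s - 3 * i) by omega, pow_add, pow_add]
    rw [mul_pow] at e4
    linear_combination t1 ^ i * t2 ^ i * e1 - ε * (-1) ^ i * e2 +
      ε * Polynomial.aeval α (lucasP a (a - b) (2 * s - 3 * i)) * e4
  · have e1 := lucas_eval a b h1 h2 ha hb (3 * i - 2 * s)
    have e2 := lucas_shift (lucasP a b (3 * i - 2 * s)) α (s - i) (2 * (s - i)) s (fun q hq => by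
      have := lucas_supp _ _ _ _ hq
      omega)
    have e3 : ∑ m ∈ Ico 1 s, (lucasM a b s m i : ℂ) * α ^ m =
        ∑ m ∈ Ico 1 s, ((if 2 * (s - i) ≤ m + (s - i) then
          (lucasP a b (3 * i - 2 * s)).coeff (m + (s - i) - 2 * (s - i)) else 0 : ℤ) : ℂ) *
            α ^ m := by
      refine sum_congr rfl fun m _ => ?_
      rw [lucasM, if_neg h]
    have e4 : (t1 * t2) ^ (2 * (s - i)) = α ^ (2 * (s - i)) := by
      rw [h2, pow_mul, neg_sq, ← pow_mul]
    have e5 : t1 ^ i = t1 ^ (2 * (s - i)) * t1 ^ (3 * i - 2 * s) := by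
      rw [← pow_add]
      congr 1
      omega
    have e6 : t2 ^ i = t2 ^ (2 * (s - i)) * t2 ^ (3 * i - 2 * s) := by
      rw [← pow_add]
      congr 1
      omega
    rw [e3, e5, e6]
    rw [mul_pow] at e4
    linear_combination t1 ^ (2 * (s - i)) * t2 ^ (2 * (s - i)) * e1 - ε * e2 +
      ε * Polynomial.aeval α (lucasP a b (3 * i - 2 * s)) * e4

theorem lucas_closed (a b : ℤ) (s m i : ℕ) (hm : 3 * m < s) (hi : 3 * i < s) :
    (lucasM a b s m i : ℚ) =
      (((a : ℚ) - b) * (2 * m - i) + a * (s - m - i)) * core s m i := by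
  obtain ⟨j, hj⟩ : ∃ j, s = m + i + j + 1 := ⟨s - m - i - 1, by omega⟩
  obtain ⟨q, hq⟩ : ∃ q, s + m = 2 * i + q + 1 := ⟨s + m - 2 * i - 1, by omega⟩
  rw [lucasM, if_pos (by omega), if_pos (by omega), show 2 * s - 3 * i = q + j + 2 by omega,
    show m + (s - i) - i = q + 1 by omega, lucas_coeff, core, show s + m - 2 * i - 1 = q by omega]
  have f2 : invFact ((s : ℤ) - m - i) = 1 / ((j + 1).factorial : ℚ) := by
    rw [invFact, if_pos (by omega), show ((s : ℤ) - m - i).toNat = j + 1 by omega]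
  rw [f2]
  by_cases h : i ≤ 2 * m
  · obtain ⟨r, hr⟩ : ∃ r, 2 * m = i + r := ⟨2 * m - i, by omega⟩
    have f1 : invFact (2 * (m : ℤ) - i) = 1 / (r.factorial : ℚ) := by
      rw [invFact, if_pos (by omega), show (2 * (m : ℤ) - i).toNat = r by omega]
    obtain rfl : q = r + j := by omega
    have g1 : (((r + j).choose j : ℕ) : ℚ) * r.factorial * j.factorial = (r + j).factorial := by
      exact_mod_cast Nat.add_choose_mul_factorial_mul_factorial r j
    have g2 : (((r + j).choose (j + 1) : ℕ) : ℚ) * (j + 1) = ((r + j).choose j : ℕ) * r := by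
      have := Nat.choose_succ_right_eq (r + j) j
      rw [show r + j - j = r by omega] at this
      exact_mod_cast this
    have g3 : (2 * (m : ℚ) - i) = r := by
      have : ((2 * m : ℕ) : ℚ) = ((i + r : ℕ) : ℚ) := by rw [hr]
      push_cast at this
      linarith
    have g4 : ((s : ℚ) - m - i) = j + 1 := by
      rw [hj]
      push_cast
      ring
    have n1 : (r.factorial : ℚ) ≠ 0 := by positivity
    have n2 : (j.factorial : ℚ) ≠ 0 := by positivity
    have n3 : ((j : ℚ) + 1) ≠ 0 := by positivity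
    have g5 : (((r + j).choose (j + 1) : ℕ) : ℚ) = ((r + j).choose j : ℕ) * r / (j + 1) := by
      rw [eq_div_iff n3, g2]
    rw [f1, g3, g4, ← g1, Nat.factorial_succ]
    push_cast
    rw [g5]
    field_simp
  · have f1 : invFact (2 * (m : ℤ) - i) = 0 := by
      rw [invFact, if_neg (by omega)]
    rw [f1, Nat.choose_eq_zero_of_lt (show q < j + 1 by omega),
      Nat.choose_eq_zero_of_lt (show q < j by omega)]
    simp

/-- Let `p a b ν ∈ ℤ[X]` be defined by `p 0 = a`, `p 1 = b X`, `p (ν + 2) = X p (ν + 1) + X p ν`.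
If `η1 + η2 = a ε'` and `η1 τ1 + η2 τ2 = b α ε'` where `τ1 + τ2 = α`, `τ1 τ2 = -α`, then
`η1 τ1 ^ ν + η2 τ2 ^ ν = ε' p ν (α)`. For `ν ≥ 1` the polynomial `p ν` has terms only in degrees `q`
with `ν ≤ 2 q ≤ 2 ν`, and the coefficient of `X ^ q`, `q = ν - j ≥ 1`, is
`b C(q-1, j) + a C(q-1, j-1)` (second term absent for `j = 0`). Here `ε' = 2 ^ e ε` and
`(a, b) = (2, 1)` for `e = 0`, `(1, 2)` for `e = 1`; exchanging `t1`, `t2` replaces `b` by `a - b`.
Since `α (1 + t2) = t2 ^ 2`, multiplying the left side by `α ^ (s - i)` gives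
`ε1 t1 ^ i t2 ^ (2 (s - i)) + ε2 t2 ^ i t1 ^ (2 (s - i))`. If `3 i ≤ 2 s` this is
`(-α) ^ i ε' p a (a - b) (2 s - 3 i)`, so put
`M m i = (-1) ^ i coeff (p a (a - b) (2 s - 3 i)) (m + s - 2 i)` if `2 i ≤ m + s` (else `0`). If
`3 i > 2 s` it is `α ^ (2 (s - i)) ε' p a b (3 i - 2 s)`, so put
`M m i = coeff (p a b (3 i - 2 s)) (m - (s - i))` if `s - i ≤ m` (else `0`). For the closed form
take `q = m + s - 2 i`, `j = s - i - m`; the coefficient is
`(q-1)! / (j! (q-j)!) * ((a - b) (q - j) + a j)` with `q - j = 2 m - i` (and `0` if `i > 2 m`). -/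
theorem lucas {e : ℕ} (he : e ≤ 1) (s : ℕ) : ∃ M : ℕ → ℕ → ℤ, Closed e s M ∧
    ∀ t1 t2 α ε1 ε2 ε : ℂ, α ≠ 0 → t1 + t2 = α → t1 * t2 = -α →
      (e = 0 → ε1 = ε ∧ ε2 = ε) →
      (e = 1 → ε1 + ε2 = 2 * ε ∧ ε1 * t1 + ε2 * t2 = 4 * α * ε) →
      ∀ i ∈ Ico 1 s, ε1 * t1 ^ i * (1 + t2) ^ (s - i) + ε2 * t2 ^ i * (1 + t1) ^ (s - i) =
        2 ^ e * ε * ∑ m ∈ Ico 1 s, (M m i : ℂ) * α ^ m := by
  obtain rfl | rfl : e = 0 ∨ e = 1 := by omega
  · refine ⟨lucasM 2 1 s, fun m i _ _ hm hi => ?_, fun t1 t2 α ε1 ε2 ε hα h1 h2 h0 _ i hi => ?_⟩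
    · rw [lucas_closed 2 1 s m i hm hi, ent, if_pos rfl, matA]
      push_cast
      ring
    · obtain ⟨rfl, rfl⟩ := h0 rfl
      rw [pow_zero, one_mul]
      refine lucas_expand 2 1 s hα h1 h2 ?_ ?_ i hi
      · push_cast
        ring
      · push_cast
        rw [← h1]
        ring
  · refine ⟨lucasM 1 2 s, fun m i _ _ hm hi => ?_, fun t1 t2 α ε1 ε2 ε hα h1 h2 _ h0 i hi => ?_⟩
    · rw [lucas_closed 1 2 s m i hm hi, ent, if_neg one_ne_zero, matB]
      push_cast
      ring
    · obtain ⟨g1, g2⟩ := h0 rfl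
      rw [pow_one]
      refine lucas_expand 1 2 s hα h1 h2 ?_ ?_ i hi
      · push_cast
        linear_combination g1
      · push_cast
        linear_combination g2

end Pool.Agent.Lib.MP_88d29b_nt
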