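import Pool.Agent.Lib.MP_88d29b_nt.M3ALb

/-!
The product of the determinants of `U` for a character and for its inverse.
-/

set_option autoImplicit false

noncomputable section

namespace Pool.Agent.Lib.MP_88d29b_nt.G.M3

open Finset CongruenceSubgroup
open scoped MatrixGroups

variable {K : Type} [NormedField K] [CharZero K] {p : ℕ} [hp : Fact p.Prime]

omit [CharZero K] hp in
/-- Two representing functions that are proportional up to a constant on the disc `0` represent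
proportional classes. -/
lemma al_mk_eq {X : Type} {sm : Mat → X → X} (hu : Univ X sm) {q κ N : ℕ} [NeZero q]
    {ψ : ℤ → K} (hψ : ψ 1 = 1) {F F' : X → Ix q κ → K}
    {c c' : Z1 (Gamma0 N) (mact (actCl q q κ ψ))}
    (hF : Rep (Gamma0 N) (mact (actCl q q κ ψ)) sm F c)
    (hF' : Rep (Gamma0 N) (mact (actCl q q κ ψ)) sm F' c') (t : K) {k : Vk K κ}
    (hk : ∀ x, cmp 0 (F x) = t • cmp 0 (F' x) + k) :
    (Submodule.Quotient.mk c : H1 (Gamma0 N) (mact (actCl q q κ ψ))) =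
      t • Submodule.Quotient.mk c' := by
  have := hu.ne
  have h1 := hF.add (hF'.smul (-t))
  obtain ⟨v, hv⟩ := rep_const hu hψ h1 (k := k) (fun x => by
    have h2 : cmp 0 ((F + (-t) • F') x) = cmp 0 (F x) + (-t) • cmp 0 (F' x) := rfl
    rw [h2, hk x, neg_smul]
    abel)
  rw [← Submodule.Quotient.mk_smul]
  refine Rep.mk_eq (F := F) (F' := t • F') hF (hF'.smul t) v fun x => ?_
  rw [← hv x]
  simp only [Pi.add_apply, Pi.smul_apply, neg_smul, Pi.neg_apply]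
  abel

/-- A linear map on cochains that preserves cocycles and coboundaries acts on cohomology. -/
lemma al_exists_map {R V : Type} [CommRing R] [AddCommGroup V] [Module R V]
    {Γ : Subgroup SL(2, ℤ)} {ρ ρ' : Mat → V →ₗ[R] V} (A : (Γ → V) →ₗ[R] (Γ → V))
    (hz : ∀ c ∈ Z1 Γ ρ, A c ∈ Z1 Γ ρ') (hb : ∀ v, ∃ w, cob Γ ρ' w = A (cob Γ ρ v)) :
    ∃ (z : Z1 Γ ρ →ₗ[R] Z1 Γ ρ') (al : H1 Γ ρ →ₗ[R] H1 Γ ρ'),
      (∀ c, al (Submodule.Quotient.mk c) = Submodule.Quotient.mk (z c)) ∧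
      ∀ c, (z c : Γ → V) = A c := by
  refine ⟨A.restrict hz, (B1 Γ ρ).mapQ (B1 Γ ρ') (A.restrict hz) ?_, fun c => rfl, fun c => rfl⟩
  rintro c ⟨v, hv⟩
  obtain ⟨w, hw⟩ := hb v
  refine ⟨w, ?_⟩
  rw [hw, hv]
  rfl

omit [CharZero K] in
/-- The Fricke operator on cohomology. -/
lemma exists_al {X : Type} {sm : Mat → X → X} (hu : Univ X sm) {q h κ : ℕ} [NeZero q]
    (e : q = p ^ h) (hh : 1 ≤ h) {M : ℕ} (hM : 0 < M) {ψ ψ' : ℤ → K} (hψ : IsChar p h ψ)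
    (hinv : ∀ x : ℤ, ¬ (p : ℤ) ∣ x → ψ x * ψ' x = 1)
    (a : Adm (Sg p) (Gamma0 (M * p)) (Gamma0 (M * p)) (uRep p M) (mact (actCl q q κ ψ)))
    (a' : Adm (Sg p) (Gamma0 (M * p)) (Gamma0 (M * p)) (uRep p M) (mact (actCl q q κ ψ'))) :
    ∃ (z : Z1 (Gamma0 (M * p)) (mact (actCl q q κ ψ)) →ₗ[K]
        Z1 (Gamma0 (M * p)) (mact (actCl q q κ ψ')))
      (al : H1 (Gamma0 (M * p)) (mact (actCl q q κ ψ)) →ₗ[K]
        H1 (Gamma0 (M * p)) (mact (actCl q q κ ψ'))),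
      (∀ c, al (Submodule.Quotient.mk c) = Submodule.Quotient.mk (z c)) ∧
      ∀ (c : Z1 (Gamma0 (M * p)) (mact (actCl q q κ ψ))) (F : X → Ix q κ → K),
        Rep (Gamma0 (M * p)) (mact (actCl q q κ ψ)) sm F c →
        Rep (Gamma0 (M * p)) (mact (actCl q q κ ψ')) sm (opA q (M * p) κ sm F) (z c) := by
  have := hu.ne
  have hs := hu.isSm p
  have hz : ∀ c ∈ Z1 (Gamma0 (M * p)) (mact (actCl q q κ ψ)),
      alC K q (M * p) κ c ∈ Z1 (Gamma0 (M * p)) (mact (actCl q q κ ψ')) := fun c hc => by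
    obtain ⟨F, hF⟩ := hu.rep K _ (Sg p) _ _ a.act a.inside c hc
    exact Rep.mem a'.act hs a'.inside (rep_opA hu e hh hM hψ hinv hF)
  have hb : ∀ v, ∃ w, cob (Gamma0 (M * p)) (mact (actCl q q κ ψ')) w =
      alC K q (M * p) κ (cob (Gamma0 (M * p)) (mact (actCl q q κ ψ)) v) := fun v => by
    have h1 := rep_opA hu e hh hM hψ hinv
      (Rep.const (Γ := Gamma0 (M * p)) (ρ := mact (actCl q q κ ψ)) (sm := sm) v)
    obtain ⟨x⟩ := hu.ne
    have h2 : opA q (M * p) κ sm (fun _ => v) = fun _ => opA q (M * p) κ sm (fun _ => v) x := by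
      funext x' y
      simp only [opA, sl]
    rw [h2] at h1
    exact ⟨_, (Rep.const _).unique h1⟩
  obtain ⟨z, al, h1, h2⟩ := al_exists_map (alC K q (M * p) κ) hz hb
  refine ⟨z, al, h1, fun c F hF => ?_⟩
  rw [h2]
  exact rep_opA hu e hh hM hψ hinv hF

theorem det_AL {q h κ : ℕ} [NeZero q] (e : q = p ^ h) (hh : 1 ≤ h) {M : ℕ} (hM : 0 < M)
    (hMp : Nat.Coprime p M) {ψ ψ' : ℤ → K} (hψ : IsChar p h ψ) (hψ' : IsChar p h ψ')
    (hprim : Prim p h ψ') (hinv : ∀ x : ℤ, ¬ (p : ℤ) ∣ x → ψ x * ψ' x = 1)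
    (a : Adm (Sg p) (Gamma0 (M * p)) (Gamma0 (M * p)) (uRep p M) (mact (actCl q q κ ψ)))
    (a' : Adm (Sg p) (Gamma0 (M * p)) (Gamma0 (M * p)) (uRep p M) (mact (actCl q q κ ψ')))
    [Module.Finite K (H1 (Gamma0 (M * p)) (mact (actCl q q κ ψ)))] :
    LinearMap.det (dcH a) * LinearMap.det (dcH a') =
      (p : K) ^ ((κ + 1) * Module.finrank K (H1 (Gamma0 (M * p)) (mact (actCl q q κ ψ)))) := by
  obtain ⟨X, sm, hu⟩ := exists_univ
  have := hu.ne
  have hs := hu.isSm p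
  have hinv' : ∀ x : ℤ, ¬ (p : ℤ) ∣ x → ψ' x * ψ x = 1 := fun x hx => by
    rw [mul_comm, hinv x hx]
  obtain ⟨z, al, hal, hz⟩ := exists_al hu e hh hM hψ hinv a a'
  obtain ⟨z', al', hal', hz'⟩ := exists_al hu e hh hM hψ' hinv' a' a
  have hN : 0 < M * p := Nat.mul_pos hM hp.out.pos
  have ht : (-((q : K) * ((M * p : ℕ) : K))) ^ κ ≠ 0 :=
    pow_ne_zero _ (neg_ne_zero.mpr (mul_ne_zero (Nat.cast_ne_zero.mpr (NeZero.ne q))
      (Nat.cast_ne_zero.mpr hN.ne')))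
  have h1 : ∀ y, al' (al y) = (-((q : K) * ((M * p : ℕ) : K))) ^ κ • y := fun y => by
    obtain ⟨c, rfl⟩ := Submodule.Quotient.mk_surjective _ y
    obtain ⟨F, hF⟩ := hu.rep K _ (Sg p) _ _ a.act a.inside c c.2
    rw [hal, hal']
    exact al_mk_eq hu hψ.one (hz' _ _ (hz c F hF)) hF _ (k := 0) fun x => by
      rw [opA_opA hu hN, add_zero]
  have h2 : ∀ y, al (al' y) = (-((q : K) * ((M * p : ℕ) : K))) ^ κ • y := fun y => by
    obtain ⟨c, rfl⟩ := Submodule.Quotient.mk_surjective _ y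
    obtain ⟨F, hF⟩ := hu.rep K _ (Sg p) _ _ a'.act a'.inside c c.2
    rw [hal', hal]
    exact al_mk_eq hu hψ'.one (hz _ _ (hz' c F hF)) hF _ (k := 0) fun x => by
      rw [opA_opA hu hN, add_zero]
  have h3 : ∀ y, dcH a' (al (dcH a y)) = (p : K) ^ (κ + 1) • al y := fun y => by
    obtain ⟨c, rfl⟩ := Submodule.Quotient.mk_surjective _ y
    obtain ⟨F, hF⟩ := hu.rep K _ (Sg p) _ _ a.act a.inside c c.2
    obtain ⟨k, hk⟩ := opU_opA_opU hu e hh hM hMp hψ hψ'.one hprim hinv hF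
    rw [dcH_mk, hal, dcH_mk, hal]
    have r1 : Rep (Gamma0 (M * p)) (mact (actCl q q κ ψ)) sm (opU p M q κ ψ sm F) (dcZ a c) :=
      Rep.dc a hs hF
    have r2 := hz _ _ r1
    have r3 : Rep (Gamma0 (M * p)) (mact (actCl q q κ ψ')) sm
        (opU p M q κ ψ' sm (opA q (M * p) κ sm (opU p M q κ ψ sm F))) (dcZ a' (z (dcZ a c))) :=
      Rep.dc a' hs r2
    exact al_mk_eq hu hψ'.one r3 (hz c F hF) _ hk
  have hbij : Function.Bijective al := by
    refine ⟨fun y y' hy => ?_, fun y => ⟨al' (((-((q : K) * ((M * p : ℕ) : K))) ^ κ)⁻¹ • y), ?_⟩⟩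
    · have := congrArg al' hy
      rw [h1, h1] at this
      exact smul_right_injective _ ht this
    · rw [h2, smul_smul, mul_inv_cancel₀ ht, one_smul]
  set E := LinearEquiv.ofBijective al hbij with hE
  have h4 : ((E.symm : _ →ₗ[K] _) ∘ₗ dcH a' ∘ₗ (E.symm.symm : _ →ₗ[K] _)) ∘ₗ dcH a =
      (p : K) ^ (κ + 1) • LinearMap.id := by
    refine LinearMap.ext fun y => ?_
    change E.symm (dcH a' (al (dcH a y))) = (p : K) ^ (κ + 1) • y
    rw [h3, map_smul]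
    congr 1
    exact E.symm_apply_apply y
  have h5 := congrArg LinearMap.det h4
  rw [LinearMap.det_comp, LinearMap.det_conj, LinearMap.det_smul, LinearMap.det_id, mul_one,
    ← pow_mul] at h5
  rw [mul_comm, h5]

end Pool.Agent.Lib.MP_88d29b_nt.G.M3
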