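import Pool.Agent.Lib.MP_88d29b_nt.M3Bin

/-!
Bounds for the universal entries.
-/

set_option autoImplicit false

noncomputable section

namespace Pool.Agent.Lib.MP_88d29b_nt.G.M3

open Finset CongruenceSubgroup
open scoped MatrixGroups

variable {K : Type} [NormedField K] [IsUltrametricDist K] [CharZero K] {p : ℕ} [hp : Fact p.Prime]

omit [IsUltrametricDist K] [CharZero K] hp in
lemma M3Ent_pow_le {x : K} {r : ℤ} (hx : ‖x‖ ≤ (p : ℝ) ^ r) (j : ℕ) :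
    ‖x ^ j‖ ≤ (p : ℝ) ^ (r * j) := by
  rw [norm_pow, zpow_mul, zpow_natCast]
  exact pow_le_pow_left₀ (norm_nonneg _) hx j

omit [CharZero K] in
lemma M3Ent_term (hK : ‖(p : K)‖ = (p : ℝ)⁻¹) {h : ℕ} {g : Mat}
    (hc : (p : ℤ) ^ (h + 1) ∣ g 1 0) (hd : ¬ (p : ℤ) ∣ g 1 1) {B : ℝ} {j : ℕ} {β : K}
    (hβ : ‖β‖ ≤ B * (p : ℝ) ^ (h * j)) :
    ‖β * ((g 1 0 : K) / (g 1 1 : K)) ^ j‖ ≤ B * (p : ℝ) ^ (-(j : ℤ)) := by
  have h1 : ‖(g 1 0 : K) / (g 1 1 : K)‖ ≤ (p : ℝ) ^ (-((h + 1 : ℕ) : ℤ)) := by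
    rw [norm_div, norm_int_unit hK hd, div_one]
    exact norm_int_of_dvd hK hc
  refine (norm_mul_le' hβ (M3Ent_pow_le h1 j)).trans (le_of_eq ?_)
  rw [mul_assoc, ← zpow_natCast, zpow_mul_zpow]
  congr 2
  push_cast
  ring

omit [CharZero K] in
lemma M3Ent_sum (hK : ‖(p : K)‖ = (p : ℝ)⁻¹) {h : ℕ} {g : Mat}
    (hc : (p : ℤ) ^ (h + 1) ∣ g 1 0) (hd : ¬ (p : ℤ) ∣ g 1 1) {B : ℝ} (hB : 0 ≤ B) {m : ℕ} (n : ℕ)
    {β : ℕ → K} (hβ : ∀ j ≤ m, ‖β j‖ ≤ B * (p : ℝ) ^ (h * j)) :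
    ‖(∑ j ∈ range (m + 1), β j * ((g 1 0 : K) / (g 1 1 : K)) ^ j *
      ((n.choose (m - j) : K) * (g 0 0 : K) ^ (m - j) * (g 0 1 : K) ^ (n - (m - j)))) /
      (g 1 1 : K) ^ n‖ ≤ B * (p : ℝ) ^ (-((m - n : ℕ) : ℤ)) := by
  rw [norm_div, norm_pow, norm_int_unit hK hd, one_pow, div_one]
  refine norm_sum_le' _ _ (mul_nonneg hB (zpow_pos' _).le) fun j hj => ?_
  have hj' : j ≤ m := Nat.lt_succ_iff.mp (mem_range.mp hj)
  rcases lt_or_ge n (m - j) with hlt | hge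
  · rw [Nat.choose_eq_zero_of_lt hlt]
    simpa using mul_nonneg hB (zpow_pos' (p := p) (-((m - n : ℕ) : ℤ))).le
  · have h2 : ‖((n.choose (m - j) : K) * (g 0 0 : K) ^ (m - j) * (g 0 1 : K) ^ (n - (m - j)))‖
        ≤ 1 := by
      have := norm_int_le (K := K) ((n.choose (m - j) : ℤ) * g 0 0 ^ (m - j) * g 0 1 ^ (n - (m - j)))
      push_cast at this
      exact this
    refine (norm_mul_le' (M3Ent_term hK hc hd (hβ j hj')) h2).trans ?_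
    rw [mul_one]
    exact mul_le_mul_of_nonneg_left (zpow_le (by omega)) hB

omit [CharZero K] in
lemma M3Ent_sum_U (hK : ‖(p : K)‖ = (p : ℝ)⁻¹) {h : ℕ} {g : Mat}
    (hc : (p : ℤ) ^ (h + 1) ∣ g 1 0) (hd : ¬ (p : ℤ) ∣ g 1 1) (ha : (p : ℤ) ∣ g 0 0)
    {B : ℝ} (hB : 0 ≤ B) {m : ℕ} (n : ℕ)
    {β : ℕ → K} (hβ : ∀ j ≤ m, ‖β j‖ ≤ B * (p : ℝ) ^ (h * j)) :
    ‖(∑ j ∈ range (m + 1), β j * ((g 1 0 : K) / (g 1 1 : K)) ^ j *
      ((n.choose (m - j) : K) * (g 0 0 : K) ^ (m - j) * (g 0 1 : K) ^ (n - (m - j)))) /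
      (g 1 1 : K) ^ n‖ ≤ B * (p : ℝ) ^ (-(m : ℤ)) := by
  rw [norm_div, norm_pow, norm_int_unit hK hd, one_pow, div_one]
  refine norm_sum_le' _ _ (mul_nonneg hB (zpow_pos' _).le) fun j hj => ?_
  have hj' : j ≤ m := Nat.lt_succ_iff.mp (mem_range.mp hj)
  have h1 : ‖(g 0 0 : K)‖ ≤ (p : ℝ) ^ (-((1 : ℕ) : ℤ)) :=
    norm_int_of_dvd hK (by rwa [pow_one])
  have h3 : ‖(g 0 1 : K) ^ (n - (m - j))‖ ≤ 1 := by
    rw [norm_pow]
    exact pow_le_one₀ (norm_nonneg _) (norm_int_le _)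
  have h2 := norm_mul_le' (norm_mul_le' (norm_nat_le (K := K) (n.choose (m - j)))
    (M3Ent_pow_le h1 (m - j))) h3
  refine (norm_mul_le' (M3Ent_term hK hc hd (hβ j hj')) h2).trans (le_of_eq ?_)
  rw [mul_one, one_mul, mul_assoc, zpow_mul_zpow]
  congr 2
  push_cast [hj']
  ring

omit [IsUltrametricDist K] [CharZero K] hp in
lemma M3Ent_sub (s s' : K) (g : Mat) (m n : ℕ) : ent s g m n - ent s' g m n =
    (∑ j ∈ range (m + 1), (bin (s - n) j - bin (s' - n) j) * ((g 1 0 : K) / (g 1 1 : K)) ^ j *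
      ((n.choose (m - j) : K) * (g 0 0 : K) ^ (m - j) * (g 0 1 : K) ^ (n - (m - j)))) /
      (g 1 1 : K) ^ n := by
  unfold ent
  rw [← sub_div, ← sum_sub_distrib]
  congr 1
  exact sum_congr rfl fun j _ => by ring

lemma M3Ent_lip (hK : ‖(p : K)‖ = (p : ℝ)⁻¹) (s s' : ℤ) (m n j : ℕ) (hj : j ≤ m) :
    ‖bin ((s : K) - n) j - bin ((s' : K) - n) j‖ ≤
      ‖(s : K) - (s' : K)‖ * (p : ℝ) ^ Nat.log p (m + 1) * (p : ℝ) ^ (0 * j) := by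
  have h1 := bin_lip hK (s - n) (s' - n) j
  push_cast at h1
  rw [sub_sub_sub_cancel_right] at h1
  rw [zero_mul, pow_zero, mul_one]
  exact h1.trans (mul_le_mul_of_nonneg_left
    (pow_le_pow_right₀ one_le_p (Nat.log_mono_right (by omega))) (norm_nonneg _))

lemma M3Ent_coeff (a b : ℤ) (n i : ℕ) :
    ((Polynomial.C a * Polynomial.X + Polynomial.C b) ^ n).coeff i =
      a ^ i * b ^ (n - i) * n.choose i := by
  rw [add_pow, Polynomial.finsetSum_coeff]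
  have h1 : ∀ k, ((Polynomial.C a * Polynomial.X) ^ k * Polynomial.C b ^ (n - k) *
      (n.choose k : Polynomial ℤ)).coeff i = if k = i then a ^ k * b ^ (n - k) * n.choose k else 0 := by
    intro k
    have e : (Polynomial.C a * Polynomial.X) ^ k * Polynomial.C b ^ (n - k) *
        (n.choose k : Polynomial ℤ) =
        Polynomial.C (a ^ k * b ^ (n - k) * n.choose k) * Polynomial.X ^ k := by
      simp only [map_mul, map_pow, map_natCast]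
      ring
    rw [e, Polynomial.coeff_C_mul_X_pow]
    simp only [eq_comm]
  simp only [h1, sum_ite_eq', mem_range]
  split_ifs with h
  · rfl
  · rw [Nat.choose_eq_zero_of_lt (by omega)]
    simp

lemma M3Ent_dvd {κ : ℕ} {g : Mat} {x : ℤ} (m n : Fin (κ + 1))
    (h : ∀ i j : ℕ, i + j = m → i ≤ n → j ≤ κ - n →
      x ∣ g 0 0 ^ i * g 0 1 ^ (n - i) * (g 1 0 ^ j * g 1 1 ^ (κ - n - j))) :
    x ∣ actMat κ g m n := by
  unfold actMat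
  rw [Polynomial.coeff_mul]
  refine dvd_sum fun y hy => ?_
  rw [M3Ent_coeff, M3Ent_coeff]
  rcases lt_or_ge (n : ℕ) y.1 with h1 | h1
  · rw [Nat.choose_eq_zero_of_lt h1]
    simp
  rcases lt_or_ge (κ - n) y.2 with h2 | h2
  · rw [Nat.choose_eq_zero_of_lt h2]
    simp
  have := (h y.1 y.2 (mem_antidiagonal.mp hy) h1 h2).mul_right
    (((n : ℕ).choose y.1 : ℤ) * ((κ - n).choose y.2 : ℤ))
  refine this.trans (dvd_of_eq ?_)
  ring

lemma ent_norm (hK : ‖(p : K)‖ = (p : ℝ)⁻¹) {h : ℕ} {s : K}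
    (hs : ∀ n j : ℕ, ‖bin (s - n) j‖ ≤ (p : ℝ) ^ (h * j)) {g : Mat}
    (hc : (p : ℤ) ^ (h + 1) ∣ g 1 0) (hd : ¬ (p : ℤ) ∣ g 1 1) (m n : ℕ) :
    ‖ent s g m n‖ ≤ (p : ℝ) ^ (-((m - n : ℕ) : ℤ)) := by
  have := M3Ent_sum hK hc hd zero_le_one n (m := m) (β := fun j => bin (s - n) j)
    fun j _ => by rw [one_mul]; exact hs n j
  rwa [one_mul] at this

lemma ent_norm_U (hK : ‖(p : K)‖ = (p : ℝ)⁻¹) {h : ℕ} {s : K}
    (hs : ∀ n j : ℕ, ‖bin (s - n) j‖ ≤ (p : ℝ) ^ (h * j)) {g : Mat}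
    (hc : (p : ℤ) ^ (h + 1) ∣ g 1 0) (hd : ¬ (p : ℤ) ∣ g 1 1) (ha : (p : ℤ) ∣ g 0 0) (m n : ℕ) :
    ‖ent s g m n‖ ≤ (p : ℝ) ^ (-(m : ℤ)) := by
  have := M3Ent_sum_U hK hc hd ha zero_le_one n (m := m) (β := fun j => bin (s - n) j)
    fun j _ => by rw [one_mul]; exact hs n j
  rwa [one_mul] at this

lemma ent_lip (hK : ‖(p : K)‖ = (p : ℝ)⁻¹) (s s' : ℤ) {g : Mat}
    (hc : (p : ℤ) ∣ g 1 0) (hd : ¬ (p : ℤ) ∣ g 1 1) (m n : ℕ) :
    ‖ent (s : K) g m n - ent (s' : K) g m n‖ ≤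
      ‖(s : K) - (s' : K)‖ * (p : ℝ) ^ Nat.log p (m + 1) * (p : ℝ) ^ (-((m - n : ℕ) : ℤ)) := by
  rw [M3Ent_sub]
  exact M3Ent_sum hK (h := 0) (by rwa [zero_add, pow_one]) hd (by positivity) n
    fun j hj => M3Ent_lip hK s s' m n j hj

lemma ent_lip_U (hK : ‖(p : K)‖ = (p : ℝ)⁻¹) (s s' : ℤ) {g : Mat}
    (hc : (p : ℤ) ∣ g 1 0) (hd : ¬ (p : ℤ) ∣ g 1 1) (ha : (p : ℤ) ∣ g 0 0) (m n : ℕ) :
    ‖ent (s : K) g m n - ent (s' : K) g m n‖ ≤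
      ‖(s : K) - (s' : K)‖ * (p : ℝ) ^ Nat.log p (m + 1) * (p : ℝ) ^ (-(m : ℤ)) := by
  rw [M3Ent_sub]
  exact M3Ent_sum_U hK (h := 0) (by rwa [zero_add, pow_one]) hd ha (by positivity) n
    fun j hj => M3Ent_lip hK s s' m n j hj

lemma actMat_dvd {κ : ℕ} {g : Mat} {r : ℤ} (hc : r ∣ g 1 0) (m n : Fin (κ + 1)) :
    r ^ ((m : ℕ) - n) ∣ actMat κ g m n := by
  refine M3Ent_dvd m n fun i j h1 h2 _ => ?_
  exact (((pow_dvd_pow r (by omega)).trans (pow_dvd_pow_of_dvd hc j)).mul_right _).mul_left _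

lemma actMat_dvd_row {κ : ℕ} {g : Mat} {r : ℤ} (ha : r ∣ g 0 0) (hc : r ∣ g 1 0)
    (m n : Fin (κ + 1)) : r ^ (m : ℕ) ∣ actMat κ g m n := by
  refine M3Ent_dvd m n fun i j h1 _ _ => ?_
  rw [← h1, pow_add]
  exact mul_dvd_mul ((pow_dvd_pow_of_dvd ha i).mul_right _) ((pow_dvd_pow_of_dvd hc j).mul_right _)

lemma actMat_dvd_col {κ : ℕ} {g : Mat} {r : ℤ} (hc : r ∣ g 1 0) (hd : r ∣ g 1 1)
    (m n : Fin (κ + 1)) : r ^ (κ - n) ∣ actMat κ g m n := by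
  refine M3Ent_dvd m n fun i j _ _ h3 => ?_
  have e : r ^ (κ - n) = r ^ j * r ^ (κ - n - j) := by
    rw [← pow_add]
    congr 1
    omega
  rw [e]
  exact (mul_dvd_mul (pow_dvd_pow_of_dvd hc j) (pow_dvd_pow_of_dvd hd _)).mul_left _

/-- The constant coefficient. -/
lemma actMat_zero_row (κ : ℕ) (g : Mat) (n : Fin (κ + 1)) :
    actMat κ g 0 n = g 0 1 ^ (n : ℕ) * g 1 1 ^ (κ - n) := by
  unfold actMat
  rw [Fin.val_zero, Polynomial.mul_coeff_zero, M3Ent_coeff, M3Ent_coeff]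
  simp

/-- Scalar matrices. -/
lemma actMat_smul (κ : ℕ) (a : ℤ) (g : Mat) : actMat κ (a • g) = a ^ κ • actMat κ g := by
  ext m n
  have hn : (n : ℕ) + (κ - n) = κ := by have := n.2; omega
  have e : ∀ x y : ℤ, Polynomial.C (a * x) * Polynomial.X + Polynomial.C (a * y) =
      Polynomial.C a * (Polynomial.C x * Polynomial.X + Polynomial.C y) := by
    intro x y
    simp only [map_mul]
    ring
  simp only [actMat, Matrix.smul_apply, smul_eq_mul, e]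
  rw [mul_pow, mul_pow, mul_mul_mul_comm, ← pow_add, hn, ← map_pow, Polynomial.coeff_C_mul]

omit [IsUltrametricDist K] hp in
/-- The entries are polynomial functions of the exponent. -/
lemma isPoly_ent {s : K → K} (hs : IsPoly s) (g : Mat) (m n : ℕ) :
    IsPoly fun w => ent (s w) g m n := by
  unfold ent bin
  refine IsPoly.div_const (IsPoly.sum _ fun j _ => ?_) _
  refine IsPoly.mul (IsPoly.mul (IsPoly.div_const (IsPoly.prod _ fun i _ => ?_) _)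
    (IsPoly.const _)) (IsPoly.const _)
  exact (hs.sub (IsPoly.const _)).sub (IsPoly.const _)

end Pool.Agent.Lib.MP_88d29b_nt.G.M3
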