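import Pool.Agent.Lib.MP_88d29b_nt.M3Univ
import Pool.Agent.Lib.MP_88d29b_nt.M3Ent

/-!
The Fricke operator on locally polynomial functions.
-/

set_option autoImplicit false

noncomputable section

namespace Pool.Agent.Lib.MP_88d29b_nt.G.M3

open Finset CongruenceSubgroup
open scoped MatrixGroups

/-- Conjugation by `diag (q, 1)`. -/
def cj (q : ℕ) (g : Mat) : Mat := !![g 0 0, g 0 1 / q; g 1 0 * q, g 1 1]

/-- The Fricke element. -/
def fr (q N : ℕ) : Mat := !![0, -(q : ℤ); (N : ℤ), 0]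

/-- The translation by `i`. -/
def tr (i : ℤ) : Mat := !![1, i; 0, 1]

/-- The conjugate by the Fricke element of `T ^ (- j) g T ^ i`. -/
def twM (q N : ℕ) (g : Mat) (i : ZMod q) : Mat :=
  !![loc q q g i 1 1, -(q : ℤ) * (g 1 0 / N); -(N : ℤ) * loc q q g i 0 1, loc q q g i 0 0]

/-- The same matrix as an element of the group. -/
def tw (q N : ℕ) (g : Gamma0 N) (i : ZMod q) : Gamma0 N :=
  if h : (twM q N ((g : SL(2, ℤ)) : Mat) i).det = 1 then
    ⟨⟨twM q N ((g : SL(2, ℤ)) : Mat) i, h⟩, mem_Gamma0_iff.mpr (by simp [twM])⟩ else 1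

variable {K : Type} [NormedField K] {X : Type}

/-- The component on a disc. -/
def cmp {q κ : ℕ} (i : ZMod q) (f : Ix q κ → K) : Vk K κ := fun m => f (i, m)

/-- The action on functions with values in polynomials, in the coordinate of the disc `0`. -/
def sl (q κ : ℕ) (sm : Mat → X → X) (g : Mat) (F : X → Vk K κ) : X → Vk K κ :=
  fun x => vact K κ (cj q g) (F (sm g x))

/-- The Fricke operator on functions. -/
def opA (q N κ : ℕ) (sm : Mat → X → X) (F : X → Ix q κ → K) : X → Ix q κ → K :=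
  fun x y => sl q κ sm (fr q N) (fun x' => cmp 0 (F x')) (sm (tr (-(y.1.val : ℤ))) x) y.2

/-- The Fricke operator on cochains. -/
def alC (K : Type) [NormedField K] (q N κ : ℕ) :
    (Gamma0 N → Ix q κ → K) →ₗ[K] (Gamma0 N → Ix q κ → K) where
  toFun c := fun g y => vact K κ (cj q (fr q N)) (cmp 0 (c (tw q N g y.1))) y.2
  map_add' c c' := by
    funext g y
    exact congrFun (map_add (vact K κ (cj q (fr q N))) (cmp 0 (c (tw q N g y.1)))
      (cmp 0 (c' (tw q N g y.1)))) y.2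
  map_smul' a c := by
    funext g y
    exact congrFun (map_smul (vact K κ (cj q (fr q N))) a (cmp 0 (c (tw q N g y.1)))) y.2

/-- The operator `U` on functions. -/
def opU (p M q κ : ℕ) [NeZero q] (ψ : ℤ → K) (sm : Mat → X → X) (F : X → Ix q κ → K) :
    X → Ix q κ → K := ∑ a, fsl (mact (actCl q q κ ψ)) sm F (uRep p M a)

variable {p : ℕ} [hp : Fact p.Prime] {q h κ : ℕ} [NeZero q] {sm : Mat → X → X} {ψ ψ' : ℤ → K}

omit hp in
lemma cmp_act (g : Mat) (i : ZMod q) (f : Ix q κ → K) :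
    cmp i (mact (actCl q q κ ψ) g f) =
      ψ (loc q q g i 1 1) • vact K κ (loc q q g i) (cmp (disc q g i.val) f) := by
  funext m
  rw [Pi.smul_apply, vact_apply, smul_eq_mul, Finset.mul_sum]
  simp only [cmp, mact, Matrix.toLin'_apply, Matrix.mulVec, dotProduct]
  rw [Fintype.sum_prod_type, Finset.sum_eq_single (disc q g i.val)]
  · simp only [actCl, if_true, mul_assoc]
  · intro b _ hb
    refine Finset.sum_eq_zero fun y _ => ?_
    simp only [actCl, if_neg hb, zero_mul]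
  · intro H
    exact absurd (Finset.mem_univ _) H

omit hp in
lemma cmp0_act {g : Mat} (hb : (q : ℤ) ∣ g 0 1) (f : Ix q κ → K) :
    cmp 0 (mact (actCl q q κ ψ) g f) = ψ (g 1 1) • vact K κ (cj q g) (cmp 0 f) := by
  have hq : (q : ℤ) ≠ 0 := by exact_mod_cast NeZero.ne q
  have h0 : disc q g ((0 : ZMod q).val : ℤ) = 0 := by
    simp [disc, (ZMod.intCast_zmod_eq_zero_iff_dvd _ _).mpr hb]
  have h1 : loc q q g 0 = cj q g := by
    rw [loc, h0, cj]
    simp [Int.mul_ediv_cancel _ hq]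
  rw [cmp_act, h0, h1]
  rfl

omit hp in
lemma cmp0_tr (hψ : ψ 1 = 1) (i : ZMod q) (f : Ix q κ → K) :
    cmp 0 (mact (actCl q q κ ψ) (tr (i.val : ℤ)) f) = cmp i f := by
  have hq : (q : ℤ) ≠ 0 := by exact_mod_cast NeZero.ne q
  have h0 : disc q (tr (i.val : ℤ)) ((0 : ZMod q).val : ℤ) = i := by
    simp [disc, tr]
  have h1 : loc q q (tr (i.val : ℤ)) 0 = 1 := by
    rw [loc, h0, Matrix.one_fin_two]
    simp [tr, Int.ediv_self hq]
  rw [cmp_act, h0, h1, vact_one, Matrix.one_apply_eq, hψ, one_smul]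
  rfl

omit hp [NeZero q] in
lemma cj_mul {g g' : Mat} (hq : q ≠ 0) (hb : (q : ℤ) ∣ g 0 1) (hb' : (q : ℤ) ∣ g' 0 1) :
    cj q (g * g') = cj q g * cj q g' := by
  have hq' : (q : ℤ) ≠ 0 := by exact_mod_cast hq
  obtain ⟨b, hb⟩ := hb
  obtain ⟨b', hb'⟩ := hb'
  have e : (g * g') 0 1 = q * (g 0 0 * b' + b * g' 1 1) := by
    rw [Matrix.mul_apply, Fin.sum_univ_two, hb, hb']
    ring
  rw [cj, cj, cj, e, hb, hb', Int.mul_ediv_cancel_left _ hq', Int.mul_ediv_cancel_left _ hq',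
    Int.mul_ediv_cancel_left _ hq', Matrix.mul_fin_two]
  simp only [Matrix.mul_apply, Fin.sum_univ_two, hb, hb']
  congr 1
  ext a c
  fin_cases a <;> fin_cases c <;> simp <;> ring

omit hp in
lemma sl_mul (hu : Univ X sm) {g g' : Mat} (hg : g.det ≠ 0) (hg' : g'.det ≠ 0)
    (hb : (q : ℤ) ∣ g 0 1) (hb' : (q : ℤ) ∣ g' 0 1) (F : X → Vk K κ) :
    sl q κ sm (g * g') F = sl q κ sm g' (sl q κ sm g F) := by
  funext x
  simp only [sl]
  rw [cj_mul (NeZero.ne q) hb hb', vact_mul, hu.mul g g' hg hg']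
  rfl

omit hp in
lemma cmp0_opA (hu : Univ X sm) (N : ℕ) (F : X → Ix q κ → K) (x : X) :
    cmp 0 (opA q N κ sm F x) = sl q κ sm (fr q N) (fun x' => cmp 0 (F x')) x := by
  funext m
  have e : tr (-((0 : ZMod q).val : ℤ)) = 1 := by
    rw [Matrix.one_fin_two]
    simp [tr]
  simp only [cmp, opA]
  rw [e, hu.one]

lemma m3ala_det_tr (i : ℤ) : (tr i).det = 1 := by
  simp [tr, Matrix.det_fin_two]

lemma m3ala_det_fr {q N : ℕ} (hq : q ≠ 0) (hN : N ≠ 0) : (fr q N).det ≠ 0 := by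
  simp [fr, Matrix.det_fin_two, hq, hN]

omit hp in
/-- A representing function that is constant on the disc `0` is constant. -/
lemma rep_const (hu : Univ X sm) (hψ : ψ 1 = 1) {N : ℕ} {F : X → Ix q κ → K}
    {c : Gamma0 N → Ix q κ → K} (hF : Rep (Gamma0 N) (mact (actCl q q κ ψ)) sm F c) {k : Vk K κ}
    (hk : ∀ x, cmp 0 (F x) = k) : ∃ v, ∀ x, F x = v := by
  let g : ZMod q → Gamma0 N := fun i =>
    ⟨⟨tr (i.val : ℤ), m3ala_det_tr _⟩, mem_Gamma0_iff.mpr (by simp [tr])⟩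
  refine ⟨fun y => (k + cmp 0 (c (g y.1))) y.2, fun x => ?_⟩
  funext y
  obtain ⟨i, m⟩ := y
  have h1 := congrArg (cmp 0) (hF (g i) (sm (tr (-(i.val : ℤ))) x))
  have h2 : sm (tr (i.val : ℤ)) (sm (tr (-(i.val : ℤ))) x) = x := by
    rw [← hu.mul _ _ (by rw [m3ala_det_tr]; exact one_ne_zero)
      (by rw [m3ala_det_tr]; exact one_ne_zero)]
    have : tr (i.val : ℤ) * tr (-(i.val : ℤ)) = 1 := by
      rw [Matrix.one_fin_two]
      simp [tr]
    rw [this, hu.one]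
  change cmp 0 (mact (actCl q q κ ψ) (tr (i.val : ℤ))
    (F (sm (tr (i.val : ℤ)) (sm (tr (-(i.val : ℤ))) x)))) -
      cmp 0 (F (sm (tr (-(i.val : ℤ))) x)) = _ at h1
  rw [h2, cmp0_tr hψ, hk] at h1
  change cmp i (F x) m = (k + cmp 0 (c (g i))) m
  rw [← h1, add_sub_cancel]

/-- The Fricke operator maps representing functions to representing functions. -/
lemma rep_opA (hu : Univ X sm) (e : q = p ^ h) (hh : 1 ≤ h) {M : ℕ} (hM : 0 < M)
    (hψ : IsChar p h ψ) (hinv : ∀ x : ℤ, ¬ (p : ℤ) ∣ x → ψ x * ψ' x = 1)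
    {F : X → Ix q κ → K} {c : Gamma0 (M * p) → Ix q κ → K}
    (hF : Rep (Gamma0 (M * p)) (mact (actCl q q κ ψ)) sm F c) :
    Rep (Gamma0 (M * p)) (mact (actCl q q κ ψ')) sm (opA q (M * p) κ sm F)
      (alC K q (M * p) κ c) := by
  intro g x
  funext y
  obtain ⟨i, m⟩ := y
  have hq0 : q ≠ 0 := NeZero.ne q
  have hq : (q : ℤ) ≠ 0 := by exact_mod_cast hq0
  have hN0 : M * p ≠ 0 := mul_ne_zero hM.ne' hp.out.ne_zero
  have hN : ((M * p : ℕ) : ℤ) ≠ 0 := by exact_mod_cast hN0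
  have hgS : ((g : SL(2, ℤ)) : Mat) ∈ Sg p := inside_Sg (dvd_mul_left p M) _ g.2
  have hdet : ((g : SL(2, ℤ)) : Mat).det = 1 := (g : SL(2, ℤ)).2
  obtain ⟨c0, hc0⟩ : ((M * p : ℕ) : ℤ) ∣ ((g : SL(2, ℤ)) : Mat) 1 0 := mem_Gamma0_iff.mp g.2
  have hw : ∀ (H : (twM q (M * p) ((g : SL(2, ℤ)) : Mat) i).det = 1),
      ((tw q (M * p) g i : SL(2, ℤ)) : Mat) = twM q (M * p) ((g : SL(2, ℤ)) : Mat) i := by
    intro H
    rw [tw, dif_pos H]
  have hF1 := hF (tw q (M * p) g i)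
  change cmp i (mact (actCl q q κ ψ') ((g : SL(2, ℤ)) : Mat)
      (opA q (M * p) κ sm F (sm ((g : SL(2, ℤ)) : Mat) x))) m -
      vact K κ (cj q (fr q (M * p)))
        (cmp 0 (F (sm (fr q (M * p)) (sm (tr (-(i.val : ℤ))) x)))) m =
    vact K κ (cj q (fr q (M * p))) (cmp 0 (c (tw q (M * p) g i))) m
  generalize tw q (M * p) g i = t at hw hF1 ⊢
  generalize ((g : SL(2, ℤ)) : Mat) = G at hw hgS hdet hc0 ⊢
  have hu1 := loc_unit hgS q q i
  have hc1 := loc_c_dvd hgS q (q2 := q) (h := h) (e ▸ dvd_rfl) i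
  have hdd := Int.mul_ediv_cancel' (M3Loc_disc_dvd e hgS (i.val : ℤ))
  have ha : loc q q G i 0 0 = G 0 0 - (disc q G i.val).val * G 1 0 := Int.mul_ediv_cancel _ hq
  have hb : q * loc q q G i 0 1 =
    G 0 0 * i.val + G 0 1 - (disc q G i.val).val * (G 1 0 * i.val + G 1 1) := hdd
  have hc := loc_10 q q G i
  have hd := loc_11 q q G i
  have hcd : G 1 0 / ((M * p : ℕ) : ℤ) = c0 := by rw [hc0, Int.mul_ediv_cancel_left _ hN]
  rw [cmp_act]
  rw [twM, hcd] at hw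
  rw [Matrix.det_fin_two] at hdet
  change (ψ' (loc q q G i 1 1) • vact K κ (loc q q G i) (vact K κ (cj q (fr q (M * p)))
    (cmp 0 (F (sm (fr q (M * p)) (sm (tr (-((disc q G i.val).val : ℤ))) (sm G x))))))) m - _ = _
  have hL := Matrix.eta_fin_two (loc q q G i)
  generalize ((disc q G i.val).val : ℤ) = j at ha hb ⊢
  generalize loc q q G i = L at hw hu1 hc1 ha hb hc hd hL ⊢
  have hdL : L 0 0 * L 1 1 - L 0 1 * L 1 0 = 1 := by
    rw [ha, hc, hd]
    linear_combination hdet - G 1 0 * hb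
  have hdt : (!![L 1 1, -(q : ℤ) * c0; -((M * p : ℕ) : ℤ) * L 0 1, L 0 0] : Mat).det = 1 := by
    rw [Matrix.det_fin_two_of]
    linear_combination hdL + L 0 1 * hc + L 0 1 * q * hc0
  have ht := hw hdt
  have hG : G.det ≠ 0 := hgS.2.2
  have htr : ∀ a : ℤ, (tr a).det ≠ 0 := fun a => by rw [m3ala_det_tr]; exact one_ne_zero
  have hfr := m3ala_det_fr hq0 hN0
  have htd : ((t : SL(2, ℤ)) : Mat).det ≠ 0 := by rw [ht, hdt]; exact one_ne_zero
  have e1 : fr q (M * p) * (tr (-j) * G) =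
      ((t : SL(2, ℤ)) : Mat) * (fr q (M * p) * tr (-(i.val : ℤ))) := by
    rw [ht, Matrix.eta_fin_two G, fr, tr, tr]
    simp only [Matrix.mul_fin_two]
    congr 1
    generalize ((M * p : ℕ) : ℤ) = N at hc0
    ext a b
    fin_cases a <;> fin_cases b <;>
      simp only [Matrix.cons_val', Matrix.cons_val_zero, Matrix.cons_val_one,
        Matrix.cons_val_fin_one, Fin.zero_eta, Fin.mk_one, Fin.isValue]
    · linear_combination (-(q : ℤ)) * hc0
    · linear_combination q * hd + q * (i.val : ℤ) * hc0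
    · linear_combination (-N) * ha
    · linear_combination (-N) * hb + N * (i.val : ℤ) * ha
  have e2 : sm (fr q (M * p)) (sm (tr (-j)) (sm G x)) =
      sm ((t : SL(2, ℤ)) : Mat) (sm (fr q (M * p)) (sm (tr (-(i.val : ℤ))) x)) := by
    rw [← hu.mul _ _ (htr _) hG, ← hu.mul _ _ hfr (by
      rw [Matrix.det_mul]; exact mul_ne_zero (htr _) hG), e1, hu.mul _ _ htd (by
      rw [Matrix.det_mul]; exact mul_ne_zero hfr (htr _)), hu.mul _ _ hfr (htr _)]
  have e3 : cj q (fr q (M * p)) * L = cj q ((t : SL(2, ℤ)) : Mat) * cj q (fr q (M * p)) := by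
    have f1 : (-(q : ℤ)) / q = -1 := by
      rw [← neg_one_mul (q : ℤ), Int.mul_ediv_cancel _ hq]
    have f2 : (-(q : ℤ) * c0) / q = -c0 := by
      rw [show -(q : ℤ) * c0 = q * (-c0) by ring, Int.mul_ediv_cancel_left _ hq]
    rw [ht, hL, fr, cj, cj]
    simp only [Matrix.of_apply, Matrix.cons_val', Matrix.cons_val_zero, Matrix.cons_val_one,
        Matrix.cons_val_fin_one, Fin.isValue, f1, f2, Matrix.mul_fin_two]
    congr 1
    generalize ((M * p : ℕ) : ℤ) = N at hc0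
    ext a b
    fin_cases a <;> fin_cases b <;>
      simp only [Matrix.cons_val', Matrix.cons_val_zero, Matrix.cons_val_one,
        Matrix.cons_val_fin_one, Fin.zero_eta, Fin.mk_one, Fin.isValue]
    · linear_combination (-1) * hc - q * hc0
    · ring
    · ring
    · ring
  have hua : ¬ (p : ℤ) ∣ L 0 0 := fun H =>
    M3Loc_not_dvd_one (hdL ▸ dvd_sub (H.mul_right _)
      (((dvd_pow_self (p : ℤ) (Nat.succ_ne_zero h)).trans hc1).mul_left _))
  have e4 : ψ' (L 1 1) = ψ (L 0 0) := by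
    have f1 : ψ (L 0 0) * ψ (L 1 1) = 1 := by
      rw [← hψ.mul _ _ hua hu1, ← hψ.one]
      symm
      refine hψ.congr _ _ M3Loc_not_dvd_one ?_
      rw [← hdL, sub_sub_cancel_left, dvd_neg]
      exact hc1.mul_left _
    linear_combination ψ (L 0 0) * hinv _ hu1 - ψ' (L 1 1) * f1
  have h1 := congrArg (cmp 0) (hF1 (sm (fr q (M * p)) (sm (tr (-(i.val : ℤ))) x)))
  change cmp 0 (mact (actCl q q κ ψ) ((t : SL(2, ℤ)) : Mat) (F (sm ((t : SL(2, ℤ)) : Mat)
    (sm (fr q (M * p)) (sm (tr (-(i.val : ℤ))) x))))) -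
      cmp 0 (F (sm (fr q (M * p)) (sm (tr (-(i.val : ℤ))) x))) = _ at h1
  have h11 : ((t : SL(2, ℤ)) : Mat) 1 1 = L 0 0 := by rw [ht]; rfl
  rw [cmp0_act (by rw [ht]; exact ⟨-c0, by simp⟩), h11] at h1
  rw [← h1, e2, e4, map_sub, map_smul, ← LinearMap.comp_apply, ← vact_mul, e3, vact_mul]
  rfl

end Pool.Agent.Lib.MP_88d29b_nt.G.M3
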