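import Pool.Agent.Lib.MP_88d29b_nt.M3ALa

/-!
The Atkin-Lehner relation.
-/

set_option autoImplicit false

noncomputable section

namespace Pool.Agent.Lib.MP_88d29b_nt.G.M3

open Finset CongruenceSubgroup
open scoped MatrixGroups

variable {K : Type} [NormedField K] {X : Type} {p : ℕ} [hp : Fact p.Prime] {q h κ : ℕ} [NeZero q]
  {sm : Mat → X → X} {ψ ψ' : ℤ → K}

omit hp [NeZero q] in
lemma M3ALb_cmp_sum {J : Type} [Fintype J] (i : ZMod q) (f : J → Ix q κ → K) :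
    cmp i (∑ a, f a) = ∑ a, cmp i (f a) := by
  funext m
  simp only [cmp, Finset.sum_apply]

omit hp [NeZero q] in
lemma M3ALb_vact_smul (a : ℤ) (g : Mat) (v : Vk K κ) :
    vact K κ (a • g) v = (a : K) ^ κ • vact K κ g v := by
  funext m
  simp only [vact_apply, actMat_smul, Pi.smul_apply, Matrix.smul_apply, smul_eq_mul,
    Finset.mul_sum]
  refine Finset.sum_congr rfl fun n _ => ?_
  push_cast
  ring

omit hp [NeZero q] in
lemma M3ALb_cj_scal (a : ℤ) : cj q (a • (1 : Mat)) = a • (1 : Mat) := by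
  ext i j
  fin_cases i <;> fin_cases j <;> simp [cj]

omit hp [NeZero q] in
lemma M3ALb_sl_scal (hu : Univ X sm) {a : ℤ} (ha : a ≠ 0) (F : X → Vk K κ) :
    sl q κ sm (a • (1 : Mat)) F = fun x => (a : K) ^ κ • F x := by
  funext x
  rw [sl, M3ALb_cj_scal, hu.scal a ha, M3ALb_vact_smul, vact_one]
  rfl

omit hp [NeZero q] in
lemma M3ALb_sl_sum {J : Type} [Fintype J] (g : Mat) (F : J → X → Vk K κ) (x : X) :
    sl q κ sm g (fun x' => ∑ a, F a x') x = ∑ a, sl q κ sm g (F a) x := by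
  simp only [sl, map_sum]

omit hp [NeZero q] in
lemma M3ALb_sl_aff (g : Mat) (F : X → Vk K κ) (s : K) (k : Vk K κ) (x : X) :
    sl q κ sm g (fun x' => s • F x' + k) x = s • sl q κ sm g F x + vact K κ (cj q g) k := by
  simp only [sl, map_add, map_smul]

omit hp [NeZero q] in
lemma M3ALb_det_fr {N : ℕ} (hq : q ≠ 0) (hN : 0 < N) : (fr q N).det ≠ 0 := by
  have h1 : (q : ℤ) ≠ 0 := by exact_mod_cast hq
  have h2 : (N : ℤ) ≠ 0 := by exact_mod_cast hN.ne'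
  simp [fr, Matrix.det_fin_two, hq, hN.ne']

omit hp [NeZero q] in
lemma M3ALb_dvd_fr (N : ℕ) : (q : ℤ) ∣ fr q N 0 1 := by simp [fr]

omit hp [NeZero q] in
lemma M3ALb_dvd_u (M : ℕ) (a : Fin p) : (q : ℤ) ∣ uRep p M a 0 1 := by simp [uRep]

lemma M3ALb_det_u (M : ℕ) (a : Fin p) : (uRep p M a).det ≠ 0 := by
  rw [M3Cov_det_u]
  exact_mod_cast hp.out.ne_zero

/-- The matrix `(1 0; c 1)` times the Fricke element. -/
def M3ALb_lf (q N : ℕ) (c : ℤ) : Mat := !![0, -(q : ℤ); (N : ℤ), -(c * q)]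

/-- The element of the group that appears in the Atkin-Lehner relation. -/
def M3ALb_gam (q : ℕ) (c b : ℤ) : Mat := !![1 - q * c * b, q * b; -(q * c ^ 2 * b), 1 + q * c * b]

omit hp [NeZero q] in
lemma M3ALb_det_gam (c b : ℤ) : (M3ALb_gam q c b).det = 1 := by
  simp only [M3ALb_gam, Matrix.det_fin_two_of]
  ring

omit hp [NeZero q] in
lemma M3ALb_factor (M : ℕ) (a a' : Fin p) :
    uRep p M a * fr q (M * p) * uRep p M a' =
      ((p : ℤ) • (1 : Mat)) * (M3ALb_gam q ((M : ℤ) * (a : ℕ)) (-((a' : ℕ) : ℤ)) *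
        M3ALb_lf q (M * p) ((M : ℤ) * (a : ℕ))) := by
  have h1 : (p : ℤ) • (1 : Mat) = !![(p : ℤ), 0; 0, (p : ℤ)] := by
    ext i j
    fin_cases i <;> fin_cases j <;> simp [-zsmul_eq_mul]
  rw [h1]
  ext i j
  fin_cases i <;> fin_cases j <;>
    simp [uRep, fr, M3ALb_gam, M3ALb_lf, Matrix.mul_apply, Fin.sum_univ_two] <;> ring

lemma M3ALb_term (hu : Univ X sm) (e : q = p ^ h) (hh : 1 ≤ h) {M : ℕ} (hM : 0 < M)
    (hinv : ∀ x : ℤ, ¬ (p : ℤ) ∣ x → ψ x * ψ' x = 1)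
    {F : X → Ix q κ → K} {c : Gamma0 (M * p) → Ix q κ → K}
    (hF : Rep (Gamma0 (M * p)) (mact (actCl q q κ ψ)) sm F c) (a a' : Fin p) :
    ∃ k : Vk K κ, ∀ x, sl q κ sm (uRep p M a') (sl q κ sm (fr q (M * p))
        (sl q κ sm (uRep p M a) fun x' => cmp 0 (F x'))) x =
      ((p : K) ^ κ * ψ' (1 + (p : ℤ) ^ h * (-((M : ℤ) * (a : ℕ))) * (a' : ℕ))) •
        sl q κ sm (M3ALb_lf q (M * p) ((M : ℤ) * (a : ℕ))) (fun x' => cmp 0 (F x')) x + k := by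
  have hq : q ≠ 0 := NeZero.ne q
  have hp0 : (p : ℤ) ≠ 0 := by exact_mod_cast hp.out.ne_zero
  have hN : 0 < M * p := Nat.mul_pos hM hp.out.pos
  have hpq : (p : ℤ) ∣ (q : ℤ) := by
    rw [e]
    push_cast
    exact dvd_pow_self _ (by omega)
  set c0 : ℤ := (M : ℤ) * (a : ℕ) with hc0
  set b : ℤ := -((a' : ℕ) : ℤ) with hb
  have hdl : (M3ALb_lf q (M * p) c0).det ≠ 0 := by
    simp [M3ALb_lf, Matrix.det_fin_two, hq, hM.ne', hp.out.ne_zero]
  have hbl : (q : ℤ) ∣ M3ALb_lf q (M * p) c0 0 1 := by simp [M3ALb_lf]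
  have hdg : (M3ALb_gam q c0 b).det ≠ 0 := by
    rw [M3ALb_det_gam]
    exact one_ne_zero
  have hbg : (q : ℤ) ∣ M3ALb_gam q c0 b 0 1 := by simp [M3ALb_gam]
  have hmem : (⟨M3ALb_gam q c0 b, M3ALb_det_gam c0 b⟩ : SL(2, ℤ)) ∈ Gamma0 (M * p) := by
    refine mem_Gamma0_iff.mpr ?_
    change ((M * p : ℕ) : ℤ) ∣ -((q : ℤ) * c0 ^ 2 * b)
    obtain ⟨r, hr⟩ := hpq
    refine ⟨-(r * M * (a : ℕ) ^ 2 * b), ?_⟩
    rw [hr, hc0]
    push_cast
    ring
  have hd : ¬ (p : ℤ) ∣ 1 + q * c0 * b := fun h1 =>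
    M3Loc_not_dvd_one ((dvd_add_left ((hpq.mul_right c0).mul_right b)).mp h1)
  have hgam : sl q κ sm (M3ALb_gam q c0 b) (fun x' => cmp 0 (F x')) =
      fun x => ψ' (1 + q * c0 * b) • cmp 0 (F x) +
        ψ' (1 + q * c0 * b) • cmp 0 (c ⟨_, hmem⟩) := by
    funext x
    have h1 := hF ⟨_, hmem⟩ x
    have h2 : cmp 0 (fsl (mact (actCl q q κ ψ)) sm F (M3ALb_gam q c0 b) x) =
        ψ (1 + q * c0 * b) • sl q κ sm (M3ALb_gam q c0 b) (fun x' => cmp 0 (F x')) x :=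
      cmp0_act hbg _
    have h3 : cmp 0 (fsl (mact (actCl q q κ ψ)) sm F (M3ALb_gam q c0 b) x) =
        cmp 0 (F x) + cmp 0 (c ⟨_, hmem⟩) := by
      rw [← h1]
      funext m
      simp only [cmp, Pi.add_apply, Pi.sub_apply]
      ring
    rw [← smul_add, ← h3, h2, smul_smul, mul_comm, hinv _ hd, one_smul]
  have hbuf : (q : ℤ) ∣ (uRep p M a * fr q (M * p)) 0 1 := by
    simp [uRep, fr, Matrix.mul_apply, Fin.sum_univ_two]
  have hbgl : (q : ℤ) ∣ (M3ALb_gam q c0 b * M3ALb_lf q (M * p) c0) 0 1 := by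
    rw [Matrix.mul_apply, Fin.sum_univ_two]
    exact dvd_add (hbl.mul_left _) (hbg.mul_right _)
  have hduf : (uRep p M a * fr q (M * p)).det ≠ 0 := by
    rw [Matrix.det_mul]
    exact mul_ne_zero (M3ALb_det_u M a) (M3ALb_det_fr hq hN)
  have hdgl : (M3ALb_gam q c0 b * M3ALb_lf q (M * p) c0).det ≠ 0 := by
    rw [Matrix.det_mul]
    exact mul_ne_zero hdg hdl
  have hds : ((p : ℤ) • (1 : Mat)).det ≠ 0 := by
    rw [Matrix.det_smul, Matrix.det_one, mul_one]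
    exact pow_ne_zero _ hp0
  have hbs : (q : ℤ) ∣ ((p : ℤ) • (1 : Mat)) 0 1 := by simp
  have harg : 1 + (p : ℤ) ^ h * (-c0) * (a' : ℕ) = 1 + q * c0 * b := by
    rw [hb, e]
    push_cast
    ring
  refine ⟨vact K κ (cj q (M3ALb_lf q (M * p) c0))
    (((p : K) ^ κ * ψ' (1 + q * c0 * b)) • cmp 0 (c ⟨_, hmem⟩)), fun x => ?_⟩
  rw [← sl_mul hu (M3ALb_det_u M a) (M3ALb_det_fr hq hN) (M3ALb_dvd_u M a) (M3ALb_dvd_fr _),
    ← sl_mul hu hduf (M3ALb_det_u M a') hbuf (M3ALb_dvd_u M a'), M3ALb_factor,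
    sl_mul hu hds hdgl hbs hbgl, M3ALb_sl_scal hu hp0, sl_mul hu hdg hdl hbg hbl, harg,
    ← M3ALb_sl_aff]
  congr 1
  funext y
  have h4 := congrFun hgam y
  simp only [sl, map_smul] at h4 ⊢
  rw [h4, smul_add, smul_smul, smul_smul]
  push_cast
  rfl

omit hp in
lemma cmp0_opU (hψ : ψ 1 = 1) (M : ℕ) (F : X → Ix q κ → K) (x : X) :
    cmp 0 (opU p M q κ ψ sm F x) = ∑ a, sl q κ sm (uRep p M a) (fun x' => cmp 0 (F x')) x := by
  rw [opU, Finset.sum_apply, M3ALb_cmp_sum]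
  refine Finset.sum_congr rfl fun a _ => ?_
  rw [fsl, cmp0_act (M3ALb_dvd_u M a)]
  have : uRep p M a 1 1 = 1 := rfl
  rw [this, hψ, one_smul]
  rfl

/-- `U A U = p ^ (κ + 1) A` up to a constant, on the disc `0`. -/
lemma opU_opA_opU (hu : Univ X sm) (e : q = p ^ h) (hh : 1 ≤ h) {M : ℕ} (hM : 0 < M)
    (hMp : Nat.Coprime p M) (hψ : IsChar p h ψ) (hψ' : ψ' 1 = 1) (hprim : Prim p h ψ')
    (hinv : ∀ x : ℤ, ¬ (p : ℤ) ∣ x → ψ x * ψ' x = 1)
    {F : X → Ix q κ → K} {c : Gamma0 (M * p) → Ix q κ → K}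
    (hF : Rep (Gamma0 (M * p)) (mact (actCl q q κ ψ)) sm F c) :
    ∃ k : Vk K κ, ∀ x, cmp 0 (opU p M q κ ψ' sm (opA q (M * p) κ sm (opU p M q κ ψ sm F)) x) =
      (p : K) ^ (κ + 1) • cmp 0 (opA q (M * p) κ sm F x) + k := by
  choose k hk using M3ALb_term hu e hh hM hinv hF
  refine ⟨∑ a', ∑ a, k a a', fun x => ?_⟩
  have h1 : (fun x' => cmp 0 (opA q (M * p) κ sm (opU p M q κ ψ sm F) x')) =
      fun x' => ∑ a, sl q κ sm (fr q (M * p))
        (sl q κ sm (uRep p M a) fun x'' => cmp 0 (F x'')) x' := by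
    funext x'
    rw [cmp0_opA hu, ← M3ALb_sl_sum]
    congr 1
    funext y
    exact cmp0_opU hψ.one M F y
  rw [cmp0_opU hψ', h1, cmp0_opA hu]
  simp only [M3ALb_sl_sum, hk, Finset.sum_add_distrib]
  congr 1
  rw [Finset.sum_comm]
  have : NeZero p := ⟨hp.out.ne_zero⟩
  rw [Finset.sum_eq_single (0 : Fin p)]
  · have h2 : M3ALb_lf q (M * p) ((M : ℤ) * ((0 : Fin p) : ℕ)) = fr q (M * p) := by
      simp [M3ALb_lf, fr]
    rw [h2, ← Finset.sum_smul]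
    congr 1
    simp [hψ', pow_succ, mul_comm]
  · intro a _ ha
    have h3 : ¬ (p : ℤ) ∣ -((M : ℤ) * (a : ℕ)) := by
      rw [dvd_neg]
      intro h4
      have h5 : p ∣ M * (a : ℕ) := by exact_mod_cast h4
      have h6 : p ∣ (a : ℕ) := hMp.dvd_of_dvd_mul_left h5
      exact ha (Fin.ext (Nat.eq_zero_of_dvd_of_lt h6 a.2))
    rw [← Finset.sum_smul, ← Finset.mul_sum, hprim _ h3, mul_zero, zero_smul]
  · intro h7
    exact absurd (Finset.mem_univ _) h7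

omit hp in
/-- The square of the Fricke operator, on the disc `0`. -/
lemma opA_opA (hu : Univ X sm) {N : ℕ} (hN : 0 < N) (F : X → Ix q κ → K) (x : X) :
    cmp 0 (opA q N κ sm (opA q N κ sm F) x) = (-((q : K) * N)) ^ κ • cmp 0 (F x) := by
  have hq : q ≠ 0 := NeZero.ne q
  have h1 : (fun x' => cmp 0 (opA q N κ sm F x')) =
      sl q κ sm (fr q N) fun x' => cmp 0 (F x') := funext fun x' => cmp0_opA hu N F x'
  have h2 : fr q N * fr q N = (-((q : ℤ) * N)) • (1 : Mat) := by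
    ext i j
    fin_cases i <;> fin_cases j <;> simp [fr, Matrix.mul_apply, Fin.sum_univ_two, mul_comm]
  have h3 : -((q : ℤ) * N) ≠ 0 := by simp [hq, hN.ne']
  rw [cmp0_opA hu, h1, ← sl_mul hu (M3ALb_det_fr hq hN) (M3ALb_det_fr hq hN) (M3ALb_dvd_fr N)
    (M3ALb_dvd_fr N), h2, M3ALb_sl_scal hu h3]
  push_cast
  rfl

end Pool.Agent.Lib.MP_88d29b_nt.G.M3
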