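import Pool.Agent.Lib.MP_88d29b_nt.M3Loc

/-!
Bounds for the matrices of single elements.
-/

set_option autoImplicit false

noncomputable section

namespace Pool.Agent.Lib.MP_88d29b_nt.G.M3

open Finset CongruenceSubgroup
open scoped MatrixGroups

variable {K : Type} [NormedField K] [IsUltrametricDist K] [CharZero K] {p : ℕ} [hp : Fact p.Prime]

omit [CharZero K] in
lemma M3Act_lip {u u' e e' : K} {δ ε A B : ℝ} (hu : ‖u‖ ≤ 1) (huu : ‖u - u'‖ ≤ ε)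
    (he : ‖e - e'‖ ≤ δ * A * B) (hδ : δ ≤ ε) (he' : ‖e'‖ ≤ B) (hA : 1 ≤ A) :
    ‖u * e - u' * e'‖ ≤ ε * A * B := by
  have hB : 0 ≤ B := (norm_nonneg _).trans he'
  have hε : 0 ≤ ε := (norm_nonneg _).trans huu
  have h : u * e - u' * e' = u * (e - e') + (u - u') * e' := by ring
  rw [h]
  refine norm_add_le' ((norm_mul_le' hu he).trans ?_) ((norm_mul_le' huu he').trans ?_)
  · rw [one_mul]
    exact mul_le_mul_of_nonneg_right (mul_le_mul_of_nonneg_right hδ (zero_le_one.trans hA)) hB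
  · exact mul_le_mul_of_nonneg_right (le_mul_of_one_le_right hε hA) hB

lemma M3Act_bin (s : ℤ) (n j : ℕ) : ‖bin ((s : K) - n) j‖ ≤ (p : ℝ) ^ (0 * j) :=
  (wt_int (p := p) 0 (u := fun _ => (0 : K)) (fun _ _ => by simp) s).bin n j

lemma M3Act_bin_nat (s n j : ℕ) : ‖bin ((s : K) - n) j‖ ≤ (p : ℝ) ^ (0 * j) := by
  have := M3Act_bin (K := K) (p := p) (s : ℤ) n j
  rwa [Int.cast_natCast] at this

omit [CharZero K] hp in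
lemma M3Act_pow (x : ℤ) (κ : ℕ) : ‖(x : K) ^ κ‖ ≤ 1 := by
  rw [norm_pow]
  exact pow_le_one₀ (norm_nonneg _) (norm_int_le x)

lemma M3Act_c {g : Mat} (hg : g ∈ Sg p) : (p : ℤ) ^ (0 + 1) ∣ g 1 0 := by
  simpa using (mem_Sg.mp hg).1

lemma M3Act_loc_c {g : Mat} (hg : g ∈ Sg p) (q : ℕ) (i : ZMod q) :
    (p : ℤ) ^ (0 + 1) ∣ loc q q g i 1 0 :=
  loc_c_dvd hg q (h := 0) (by simp) i

lemma M3Act_loc_c' {g : Mat} (hg : g ∈ Sg p) (q : ℕ) (i : ZMod q) :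
    (p : ℤ) ∣ loc q q g i 1 0 := by
  simpa using M3Act_loc_c hg q i

omit [IsUltrametricDist K] in
lemma actM_eq_actCl (q κ : ℕ) (ψ : ℤ → K) {g : Mat} (hg : g ∈ Sg p) :
    actM q κ (fun x => ψ x * (x : K) ^ κ) (κ : K) g = actCl q q κ ψ g := by
  ext x y
  unfold actM actCl
  split_ifs with h
  · have hd : loc q q g x.1 1 1 ≠ 0 := fun h0 => loc_unit hg q q x.1 (h0 ▸ dvd_zero _)
    rw [mul_assoc, ent_eq_actMat κ _ hd]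
  · rfl

omit [IsUltrametricDist K] in
lemma actZ_eq_actV (κ : ℕ) {g : Mat} (hg : g ∈ Sg p) : actZ K κ κ g = actV K κ g := by
  ext x y
  have hd : g 1 1 ≠ 0 := fun h0 => (mem_Sg.mp hg).2.1 (h0 ▸ dvd_zero _)
  exact ent_eq_actMat κ g hd x y

omit [IsUltrametricDist K] [CharZero K] hp in
lemma actM_up (q : ℕ) {L L' : ℕ} (h : L + 1 ≤ L' + 1) (u : ℤ → K) (s : K) (g : Mat)
    (x y : Ix q L) : actM q L' u s g (Ix.up h x) (Ix.up h y) = actM q L u s g x y := rfl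

omit [IsUltrametricDist K] [CharZero K] hp in
lemma actZ_up {L L' : ℕ} (h : L + 1 ≤ L' + 1) (κ : ℕ) (g : Mat) (x y : Fin (L + 1)) :
    actZ K L' κ g (Fin.castLE h x) (Fin.castLE h y) = actZ K L κ g x y := rfl

omit [IsUltrametricDist K] hp in
lemma actM_eq_zero (q L κ : ℕ) (u : ℤ → K) (g : Mat) {x y : Ix q L} (hy : (y.2 : ℕ) ≤ κ)
    (hx : κ < x.2) : actM q L u (κ : K) g x y = 0 := by
  unfold actM
  rw [ent_eq_zero _ hy hx, mul_zero, ite_self]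

lemma actM_norm (hK : ‖(p : K)‖ = (p : ℝ)⁻¹) {q h : ℕ} (e : q = p ^ h) (L : ℕ) {u : ℤ → K}
    {s : K} (hw : Wt p h u s) {g : Mat} (hg : g ∈ Sg p) (x y : Ix q L) :
    ‖actM q L u s g x y‖ ≤ (p : ℝ) ^ (-(((x.2 : ℕ) - y.2 : ℕ) : ℤ)) := by
  unfold actM
  split_ifs with h0
  · have := norm_mul_le' (hw.norm _ (loc_unit hg q q x.1))
      (ent_norm hK hw.bin (loc_c_dvd hg q (dvd_of_eq e.symm) x.1) (loc_unit hg q q x.1) x.2 y.2)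
    rwa [one_mul] at this
  · rw [norm_zero]
    exact (zpow_pos' _).le

lemma actM_norm_U (hK : ‖(p : K)‖ = (p : ℝ)⁻¹) {q h : ℕ} (e : q = p ^ h) (L : ℕ) {u : ℤ → K}
    {s : K} (hw : Wt p h u s) {g : Mat} (hg : UT p g) (x y : Ix q L) :
    ‖actM q L u s g x y‖ ≤ (p : ℝ) ^ (-((x.2 : ℕ) : ℤ)) := by
  haveI : NeZero q := ⟨by rw [e]; exact pow_ne_zero _ hp.out.ne_zero⟩
  unfold actM
  split_ifs with h0
  · have := norm_mul_le' (hw.norm _ (loc_unit hg.1 q q x.1))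
      (ent_norm_U hK hw.bin (loc_c_dvd hg.1 q (dvd_of_eq e.symm) x.1) (loc_unit hg.1 q q x.1)
        (loc_a_dvd hg q x.1) x.2 y.2)
    rwa [one_mul] at this
  · rw [norm_zero]
    exact (zpow_pos' _).le

lemma actM_lip (hK : ‖(p : K)‖ = (p : ℝ)⁻¹) (q L : ℕ) {u u' : ℤ → K} {s s' : ℤ} {ε : ℝ}
    (hu : ∀ x : ℤ, ¬ (p : ℤ) ∣ x → ‖u x‖ ≤ 1) (hu' : ∀ x : ℤ, ¬ (p : ℤ) ∣ x → ‖u x - u' x‖ ≤ ε)
    (hs : ‖(s : K) - (s' : K)‖ ≤ ε) {g : Mat} (hg : g ∈ Sg p) (x y : Ix q L) :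
    ‖actM q L u (s : K) g x y - actM q L u' (s' : K) g x y‖ ≤
      ε * (p : ℝ) ^ Nat.log p (x.2 + 1) * (p : ℝ) ^ (-(((x.2 : ℕ) - y.2 : ℕ) : ℤ)) := by
  unfold actM
  split_ifs with h0
  · exact M3Act_lip (hu _ (loc_unit hg q q x.1)) (hu' _ (loc_unit hg q q x.1))
      (ent_lip hK s s' (M3Act_loc_c' hg q x.1) (loc_unit hg q q x.1) x.2 y.2) hs
      (ent_norm hK (M3Act_bin s') (M3Act_loc_c hg q x.1) (loc_unit hg q q x.1) x.2 y.2)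
      (one_le_pow₀ one_le_p)
  · have hε : 0 ≤ ε := (norm_nonneg _).trans hs
    have := zpow_pos' (p := p) (-(((x.2 : ℕ) - y.2 : ℕ) : ℤ))
    rw [sub_zero, norm_zero]
    positivity

lemma actM_lip_U (hK : ‖(p : K)‖ = (p : ℝ)⁻¹) (q : ℕ) [NeZero q] (L : ℕ) {u u' : ℤ → K}
    {s s' : ℤ} {ε : ℝ}
    (hu : ∀ x : ℤ, ¬ (p : ℤ) ∣ x → ‖u x‖ ≤ 1) (hu' : ∀ x : ℤ, ¬ (p : ℤ) ∣ x → ‖u x - u' x‖ ≤ ε)
    (hs : ‖(s : K) - (s' : K)‖ ≤ ε) {g : Mat} (hg : UT p g) (x y : Ix q L) :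
    ‖actM q L u (s : K) g x y - actM q L u' (s' : K) g x y‖ ≤
      ε * (p : ℝ) ^ Nat.log p (x.2 + 1) * (p : ℝ) ^ (-((x.2 : ℕ) : ℤ)) := by
  unfold actM
  split_ifs with h0
  · exact M3Act_lip (hu _ (loc_unit hg.1 q q x.1)) (hu' _ (loc_unit hg.1 q q x.1))
      (ent_lip_U hK s s' (M3Act_loc_c' hg.1 q x.1) (loc_unit hg.1 q q x.1) (loc_a_dvd hg q x.1)
        x.2 y.2) hs
      (ent_norm_U hK (M3Act_bin s') (M3Act_loc_c hg.1 q x.1) (loc_unit hg.1 q q x.1)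
        (loc_a_dvd hg q x.1) x.2 y.2)
      (one_le_pow₀ one_le_p)
  · have hε : 0 ≤ ε := (norm_nonneg _).trans hs
    have := zpow_pos' (p := p) (-((x.2 : ℕ) : ℤ))
    rw [sub_zero, norm_zero]
    positivity

lemma actZ_norm (hK : ‖(p : K)‖ = (p : ℝ)⁻¹) (L κ : ℕ) {g : Mat} (hg : g ∈ Sg p)
    (x y : Fin (L + 1)) : ‖actZ K L κ g x y‖ ≤ (p : ℝ) ^ (-(((x : ℕ) - y : ℕ) : ℤ)) := by
  have := norm_mul_le' (M3Act_pow (K := K) (g 1 1) κ)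
    (ent_norm hK (M3Act_bin_nat κ) (M3Act_c hg) (mem_Sg.mp hg).2.1 x y)
  rwa [one_mul] at this

lemma actZ_norm_U (hK : ‖(p : K)‖ = (p : ℝ)⁻¹) (L κ : ℕ) {g : Mat} (hg : UT p g)
    (x y : Fin (L + 1)) : ‖actZ K L κ g x y‖ ≤ (p : ℝ) ^ (-((x : ℕ) : ℤ)) := by
  have := norm_mul_le' (M3Act_pow (K := K) (g 1 1) κ)
    (ent_norm_U hK (M3Act_bin_nat κ) (M3Act_c hg.1) (mem_Sg.mp hg.1).2.1 hg.2 x y)
  rwa [one_mul] at this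

lemma actZ_lip (hK : ‖(p : K)‖ = (p : ℝ)⁻¹) (L : ℕ) {κ κ' : ℕ} {ε : ℝ}
    (hu : ∀ x : ℤ, ¬ (p : ℤ) ∣ x → ‖(x : K) ^ κ - (x : K) ^ κ'‖ ≤ ε)
    (hs : ‖(κ : K) - (κ' : K)‖ ≤ ε) {g : Mat} (hg : g ∈ Sg p) (x y : Fin (L + 1)) :
    ‖actZ K L κ g x y - actZ K L κ' g x y‖ ≤
      ε * (p : ℝ) ^ Nat.log p (x + 1) * (p : ℝ) ^ (-(((x : ℕ) - y : ℕ) : ℤ)) := by
  have h1 := ent_lip hK (κ : ℤ) (κ' : ℤ) (mem_Sg.mp hg).1 (mem_Sg.mp hg).2.1 x y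
  simp only [Int.cast_natCast] at h1
  exact M3Act_lip (M3Act_pow (g 1 1) κ) (hu _ (mem_Sg.mp hg).2.1) h1 hs
    (ent_norm hK (M3Act_bin_nat κ') (M3Act_c hg) (mem_Sg.mp hg).2.1 x y) (one_le_pow₀ one_le_p)

lemma actZ_lip_U (hK : ‖(p : K)‖ = (p : ℝ)⁻¹) (L : ℕ) {κ κ' : ℕ} {ε : ℝ}
    (hu : ∀ x : ℤ, ¬ (p : ℤ) ∣ x → ‖(x : K) ^ κ - (x : K) ^ κ'‖ ≤ ε)
    (hs : ‖(κ : K) - (κ' : K)‖ ≤ ε) {g : Mat} (hg : UT p g) (x y : Fin (L + 1)) :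
    ‖actZ K L κ g x y - actZ K L κ' g x y‖ ≤
      ε * (p : ℝ) ^ Nat.log p (x + 1) * (p : ℝ) ^ (-((x : ℕ) : ℤ)) := by
  have h1 := ent_lip_U hK (κ : ℤ) (κ' : ℤ) (mem_Sg.mp hg.1).1 (mem_Sg.mp hg.1).2.1 hg.2 x y
  simp only [Int.cast_natCast] at h1
  exact M3Act_lip (M3Act_pow (g 1 1) κ) (hu _ (mem_Sg.mp hg.1).2.1) h1 hs
    (ent_norm_U hK (M3Act_bin_nat κ') (M3Act_c hg.1) (mem_Sg.mp hg.1).2.1 hg.2 x y)
    (one_le_pow₀ one_le_p)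

omit [CharZero K] in
lemma actV_norm (hK : ‖(p : K)‖ = (p : ℝ)⁻¹) (κ : ℕ) {g : Mat} (hc : (p : ℤ) ∣ g 1 0)
    (x y : Fin (κ + 1)) : ‖actV K κ g x y‖ ≤ (p : ℝ) ^ (-(((x : ℕ) - y : ℕ) : ℤ)) := by
  exact norm_int_of_dvd hK (actMat_dvd hc x y)

omit [CharZero K] in
lemma actV_norm_row (hK : ‖(p : K)‖ = (p : ℝ)⁻¹) (κ : ℕ) {g : Mat} (ha : (p : ℤ) ∣ g 0 0)
    (hc : (p : ℤ) ∣ g 1 0) (x y : Fin (κ + 1)) :
    ‖actV K κ g x y‖ ≤ (p : ℝ) ^ (-((x : ℕ) : ℤ)) := by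
  exact norm_int_of_dvd hK (actMat_dvd_row ha hc x y)

omit [CharZero K] in
lemma actV_norm_col (hK : ‖(p : K)‖ = (p : ℝ)⁻¹) (κ : ℕ) {g : Mat} (hc : (p : ℤ) ∣ g 1 0)
    (hd : (p : ℤ) ∣ g 1 1) (x y : Fin (κ + 1)) :
    ‖actV K κ g x y‖ ≤ (p : ℝ) ^ (((y : ℕ) : ℤ) - κ) := by
  have h1 := norm_int_of_dvd hK (actMat_dvd_col hc hd x y)
  have hy : (y : ℕ) ≤ κ := Nat.lt_succ_iff.mp y.2
  have e : (-((κ - y : ℕ) : ℤ)) = ((y : ℕ) : ℤ) - κ := by omega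
  rwa [e] at h1

omit [IsUltrametricDist K] hp in
lemma isPoly_actM (q L : ℕ) {u : K → ℤ → K} {s : K → K} (hu : ∀ x, IsPoly fun w => u w x)
    (hs : IsPoly s) (g : Mat) (x y : Ix q L) : IsPoly fun w => actM q L (u w) (s w) g x y := by
  unfold actM
  exact ((hu _).mul (isPoly_ent hs _ _ _)).ite (IsPoly.const 0) _

end Pool.Agent.Lib.MP_88d29b_nt.G.M3
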