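import Pool.Agent.Lib.MP_88d29b_nt.M3Cn

/-!
Algebra of the bordered model.
-/

set_option autoImplicit false

noncomputable section

namespace Pool.Agent.Lib.MP_88d29b_nt.G.M3

open Finset CongruenceSubgroup
open scoped MatrixGroups

variable {K : Type} [NormedField K] {I : Type} [Fintype I] [DecidableEq I] {ι : Type} [Fintype ι]
  [DecidableEq ι] {ρ : Mat → Matrix I I K} {γ : Option ι → Mat} {sd : SD I K}

omit [Fintype ι] [DecidableEq ι] in
lemma m3alg_E_s {T : Matrix I I K} (h : sd.Good T) : sd.E * sd.s = sd.s := by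
  ext x y
  rw [SD.E, Matrix.diagonal_mul]
  by_cases hx : x = sd.z
  · rw [if_pos hx, hx, h.2 y, mul_zero]
  · rw [if_neg hx, one_mul]

omit [Fintype ι] [DecidableEq ι] in
lemma m3alg_mul_E {J : Type} (B : Matrix J I K) (x : J) (y : I) :
    (B * sd.E) x y = if y = sd.z then 0 else B x y := by
  rw [SD.E, Matrix.mul_diagonal]
  split_ifs <;> simp

omit [Fintype ι] [DecidableEq ι] in
lemma m3alg_E_mul {J : Type} (B : Matrix I J K) (x : I) (y : J) :
    (sd.E * B) x y = if x = sd.z then 0 else B x y := by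
  rw [SD.E, Matrix.diagonal_mul]
  split_ifs <;> simp

omit [Fintype ι] [DecidableEq ι] in
lemma m3alg_facts {T : Matrix I I K} (h : sd.Good T) :
    sd.s * (T - 1) * sd.E = sd.E ∧ (∀ y, y ≠ sd.z → ∑ b, sd.lam b * (T - 1) b y = 0) ∧
      (∀ x, ∑ b, sd.s x b * sd.e b = 0) ∧ ∑ b, sd.lam b * sd.e b = 1 := by
  obtain ⟨M1, hM1⟩ : ∃ M1 : Matrix I I K,
      M1 = fun x y => if y = sd.z then sd.e x else (T - 1) x y := ⟨_, rfl⟩
  obtain ⟨M2, hM2⟩ : ∃ M2 : Matrix I I K,
      M2 = fun x y => if x = sd.z then sd.lam y else sd.s x y := ⟨_, rfl⟩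
  have h12 : M1 * M2 = 1 := by
    rw [← h.1]
    ext x y
    rw [Matrix.add_apply, Matrix.mul_apply, Matrix.mul_apply, Matrix.vecMulVec_apply]
    have e1 : ∀ b, M1 x b * M2 b y =
        (T - 1) x b * sd.s b y + if b = sd.z then sd.e x * sd.lam y else 0 := by
      intro b
      rw [hM1, hM2]
      by_cases hb : b = sd.z
      · simp only [if_pos hb]
        rw [hb, h.2 y]; ring
      · simp only [if_neg hb, add_zero]
    simp only [e1, Finset.sum_add_distrib, Finset.sum_ite_eq', Finset.mem_univ, if_true]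
  have h21 : M2 * M1 = 1 := mul_eq_one_comm.1 h12
  have hent : ∀ x y, ∑ b, M2 x b * M1 b y = (1 : Matrix I I K) x y := by
    intro x y
    rw [← h21, Matrix.mul_apply]
  refine ⟨?_, fun y hy => ?_, fun x => ?_, ?_⟩
  · ext x y
    rw [m3alg_mul_E]
    by_cases hy : y = sd.z
    · rw [if_pos hy, SD.E, Matrix.diagonal_apply]
      split_ifs with h1 h2
      · rfl
      · exact absurd (h1.trans hy) h2
      · rfl
    · rw [if_neg hy]
      by_cases hx : x = sd.z
      · rw [Matrix.mul_apply, SD.E, Matrix.diagonal_apply, if_neg (by rw [hx]; exact Ne.symm hy)]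
        refine Finset.sum_eq_zero fun b _ => ?_
        rw [hx, h.2 b, zero_mul]
      · have := hent x y
        rw [hM1, hM2] at this
        simp only [if_neg hx, if_neg hy] at this
        rw [Matrix.mul_apply, this, SD.E, Matrix.diagonal_apply, Matrix.one_apply, if_neg hx]
  · have := hent sd.z y
    rw [hM1, hM2] at this
    simp only [if_neg hy, if_true] at this
    rw [this, Matrix.one_apply_ne (Ne.symm hy)]
  · by_cases hx : x = sd.z
    · refine Finset.sum_eq_zero fun b _ => ?_
      rw [hx, h.2 b, zero_mul]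
    · have := hent x sd.z
      rw [hM1, hM2] at this
      simp only [if_neg hx, if_true] at this
      rw [this, Matrix.one_apply_ne hx]
  · have := hent sd.z sd.z
    rw [hM1, hM2] at this
    simp only [if_true] at this
    rw [this, Matrix.one_apply_eq]

omit [Fintype I] [DecidableEq I] in
lemma m3alg_sum_none {J : Type} [Fintype J] (f : J → K) (g : Option ι × J → K) :
    ∑ w : Option ι × J, (if w.1 = none then f w.2 else 0) * g w = ∑ b, f b * g (none, b) := by
  rw [Fintype.sum_prod_type, Fintype.sum_option]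
  simp

omit [Fintype I] [DecidableEq I] in
lemma m3alg_sum_none' {J : Type} [Fintype J] (f : J → K) (g : Option ι × J → K) :
    ∑ w : Option ι × J, g w * (if w.1 = none then f w.2 else 0) = ∑ b, g (none, b) * f b := by
  rw [Fintype.sum_prod_type, Fintype.sum_option]
  simp

lemma m3alg_sZ_mul {J : Type} (B : Matrix (Option ι × I) J K) (x : I) (y : J) :
    (sZ ι sd * B) x y = ∑ b, sd.s x b * B (none, b) y := by
  rw [Matrix.mul_apply]
  exact m3alg_sum_none (fun b => sd.s x b) (fun w => B w y)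

lemma m3alg_pi_none {J : Type} (B : Matrix (Option ι × I) J K) (y : J) :
    (piM ρ γ sd * B) none y = ∑ b, sd.lam b * B (none, b) y := by
  rw [Matrix.mul_apply]
  exact m3alg_sum_none (fun b => sd.lam b) (fun w => B w y)

lemma m3alg_pi_some {J : Type} (B : Matrix (Option ι × I) J K) (x : ι × I) (y : J) :
    (piM ρ γ sd * B) (some x) y =
      (((1 - dM ρ γ * sZ ι sd : Matrix (Option ι × I) (Option ι × I) K) * B :
        Matrix (Option ι × I) J K)) (some x.1, x.2) y := by
  rw [Matrix.mul_apply, Matrix.mul_apply]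
  rfl

lemma m3alg_mul_j_some {J : Type} (B : Matrix J (Option ι × I) K) (x : J) (y : ι × I) :
    (B * jM ι sd) x (some y) = B x (some y.1, y.2) := by
  rw [Matrix.mul_apply]
  have e : ∀ w : Option ι × I, jM ι sd w (some y) = if w = (some y.1, y.2) then 1 else 0 :=
    fun w => rfl
  simp only [e, mul_ite, mul_one, mul_zero, Finset.sum_ite_eq', Finset.mem_univ, if_true]

lemma m3alg_mul_j_none {J : Type} (B : Matrix J (Option ι × I) K) (x : J) :
    (B * jM ι sd) x none = ∑ b, B x (none, b) * sd.e b := by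
  rw [Matrix.mul_apply]
  exact m3alg_sum_none' (fun b => sd.e b) (fun w => B x w)

omit [Fintype ι] in
lemma m3alg_d_sZ (x y : Option ι × I) :
    (dM ρ γ * sZ ι sd) x y =
      if y.1 = none then ∑ a, (ρ (γ x.1) - 1 : Matrix I I K) x.2 a * sd.s a y.2 else 0 := by
  rw [Matrix.mul_apply]
  unfold dM sZ
  split_ifs <;> simp

lemma m3alg_sZ_dM : sZ ι sd * dM ρ γ = sd.s * (ρ (γ none) - 1) := by
  ext x y
  rw [m3alg_sZ_mul, Matrix.mul_apply]
  rfl

lemma m3alg_sZ_jM (h : sd.Good (ρ (γ none))) : sZ ι sd * jM ι sd = 0 := by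
  ext x o
  cases o with
  | none =>
    rw [m3alg_mul_j_none]
    exact (m3alg_facts h).2.2.1 x
  | some y =>
    rw [m3alg_mul_j_some]
    simp [sZ]

omit [Fintype ι] [DecidableEq ι] in
lemma m3alg_UE {U0 : Matrix I I K} (hU : ∀ y, y ≠ sd.z → U0 sd.z y = 0) :
    sd.E * (U0 * sd.E) = U0 * sd.E := by
  ext x y
  rw [m3alg_E_mul]
  split_ifs with hx
  · rw [m3alg_mul_E]
    split_ifs with hy
    · rfl
    · rw [hx, hU y hy]
  · rfl

lemma jM_piM (h : sd.Good (ρ (γ none))) : jM ι sd * piM ρ γ sd + dM ρ γ * sZ ι sd = 1 := by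
  ext x y
  rw [Matrix.add_apply, Matrix.mul_apply, Fintype.sum_option]
  obtain ⟨k, a⟩ := x
  cases k with
  | none =>
    have e1 : ∑ w : ι × I, jM ι sd (none, a) (some w) * piM ρ γ sd (some w) y = 0 := by
      refine Finset.sum_eq_zero fun w _ => ?_
      simp [jM]
    have e2 : jM ι sd (none, a) none * piM ρ γ sd none y =
        sd.e a * if y.1 = none then sd.lam y.2 else 0 := by
      simp [jM, piM]
    rw [e1, e2, m3alg_d_sZ, add_zero]
    obtain ⟨k', b⟩ := y
    cases k' with
    | none =>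
      have := congrFun (congrFun h.1 a) b
      rw [Matrix.add_apply, Matrix.mul_apply, Matrix.vecMulVec_apply] at this
      simp only [if_true]
      rw [add_comm, this]
      simp [Matrix.one_apply]
    | some i => simp
  | some i =>
    have e1 : ∑ w : ι × I, jM ι sd (some i, a) (some w) * piM ρ γ sd (some w) y =
        piM ρ γ sd (some (i, a)) y := by
      rw [Finset.sum_eq_single (i, a)]
      · simp [jM]
      · intro w _ hw
        have : ¬ ((some i, a) : Option ι × I) = (some w.1, w.2) := by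
          intro e
          apply hw
          simp only [Prod.mk.injEq, Option.some.injEq] at e
          exact Prod.ext e.1.symm e.2.symm
        simp only [jM, if_neg this, zero_mul]
      · intro hn
        exact absurd (Finset.mem_univ _) hn
    have e2 : jM ι sd (some i, a) none * piM ρ γ sd none y = 0 := by
      simp [jM]
    rw [e1, e2, zero_add]
    have e3 : piM ρ γ sd (some (i, a)) y =
        (1 - dM ρ γ * sZ ι sd : Matrix (Option ι × I) (Option ι × I) K) (some i, a) y := rfl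
    rw [e3, Matrix.sub_apply, sub_add_cancel]

lemma E_sZ (h : sd.Good (ρ (γ none))) : sd.E * sZ ι sd = sZ ι sd := by
  ext x y
  rw [m3alg_E_mul]
  split_ifs with hx
  · unfold sZ
    rw [hx, h.2 y.2, ite_self]
  · rfl

lemma sZ_dM_E (h : sd.Good (ρ (γ none))) : sZ ι sd * dM ρ γ * sd.E = sd.E := by
  rw [m3alg_sZ_dM]
  exact (m3alg_facts h).1

lemma piM_dM_E (h : sd.Good (ρ (γ none))) : piM ρ γ sd * dM ρ γ * sd.E = 0 := by
  ext o y
  cases o with
  | none =>
    rw [m3alg_mul_E, Matrix.zero_apply]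
    split_ifs with hy
    · rfl
    · rw [m3alg_pi_none]
      exact (m3alg_facts h).2.1 y hy
  | some x =>
    rw [Matrix.mul_assoc, m3alg_pi_some, Matrix.sub_mul, Matrix.one_mul, Matrix.mul_assoc,
      ← Matrix.mul_assoc (sZ ι sd), sZ_dM_E h, sub_self]
    rfl

lemma piM_jM (h : sd.Good (ρ (γ none))) : piM ρ γ sd * jM ι sd = 1 := by
  ext o o'
  cases o with
  | none =>
    cases o' with
    | none =>
      rw [m3alg_mul_j_none, Matrix.one_apply_eq]
      exact (m3alg_facts h).2.2.2
    | some y =>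
      rw [m3alg_mul_j_some]
      simp [piM]
  | some x =>
    rw [m3alg_pi_some, Matrix.sub_mul, Matrix.one_mul, Matrix.mul_assoc, m3alg_sZ_jM h,
      Matrix.mul_zero, sub_zero]
    cases o' with
    | none => simp [jM]
    | some y =>
      simp only [jM, Matrix.one_apply, Prod.mk.injEq, Option.some.injEq, Prod.ext_iff]

/-- The characteristic series on cocycles factors. -/
lemma crev_factor (h : sd.Good (ρ (γ none))) {A : Matrix (Option ι × I) (Option ι × I) K}
    {U0 : Matrix I I K} (hA : A * dM ρ γ = dM ρ γ * U0) (hU : ∀ y, y ≠ sd.z → U0 sd.z y = 0) :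
    A.charpolyRev = (U0 * sd.E).charpolyRev * (PP ρ γ sd A).charpolyRev := by
  have e1 : A = Matrix.fromCols (A * jM ι sd) (dM ρ γ * (U0 * sd.E)) *
      Matrix.fromRows (piM ρ γ sd) (sZ ι sd) := by
    rw [Matrix.fromCols_mul_fromRows, Matrix.mul_assoc, Matrix.mul_assoc, Matrix.mul_assoc,
      E_sZ h, ← Matrix.mul_assoc (dM ρ γ), ← hA, Matrix.mul_assoc, ← Matrix.mul_add, jM_piM h,
      Matrix.mul_one]
  have e2 : piM ρ γ sd * (dM ρ γ * (U0 * sd.E)) = 0 := by
    rw [← m3alg_UE hU, ← Matrix.mul_assoc, ← Matrix.mul_assoc, piM_dM_E h, Matrix.zero_mul]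
  have e3 : sZ ι sd * (dM ρ γ * (U0 * sd.E)) = U0 * sd.E := by
    rw [← m3alg_UE hU, ← Matrix.mul_assoc, ← Matrix.mul_assoc, sZ_dM_E h, m3alg_UE hU]
  have e4 : A.charpolyRev = (Matrix.fromRows (piM ρ γ sd) (sZ ι sd) *
      Matrix.fromCols (A * jM ι sd) (dM ρ γ * (U0 * sd.E))).charpolyRev := by
    rw [← crev_mul_comm, ← e1]
  rw [e4, Matrix.fromRows_mul_fromCols, e2, e3, crev_fromBlocks, mul_comm, PP, Matrix.mul_assoc]

/-- The image of the coboundary of the vector at `z` is an eigenvector. -/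
lemma PP_xi (h : sd.Good (ρ (γ none))) {A : Matrix (Option ι × I) (Option ι × I) K}
    {U0 : Matrix I I K} (hA : A * dM ρ γ = dM ρ γ * U0) (hU : ∀ y, y ≠ sd.z → U0 sd.z y = 0) :
    (PP ρ γ sd A).mulVec ((piM ρ γ sd * dM ρ γ).mulVec (Pi.single sd.z 1)) =
      U0 sd.z sd.z • (piM ρ γ sd * dM ρ γ).mulVec (Pi.single sd.z 1) := by
  have e0 : piM ρ γ sd * dM ρ γ * (U0 * sd.E) = 0 := by
    rw [← m3alg_UE hU, ← Matrix.mul_assoc, piM_dM_E h, Matrix.zero_mul]
  have e1 : jM ι sd * piM ρ γ sd = 1 - dM ρ γ * sZ ι sd := by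
    rw [← jM_piM h, add_sub_cancel_right]
  have e2 : PP ρ γ sd A * (piM ρ γ sd * dM ρ γ) = piM ρ γ sd * dM ρ γ * U0 := by
    have a1 : PP ρ γ sd A * (piM ρ γ sd * dM ρ γ) =
        piM ρ γ sd * (A * ((jM ι sd * piM ρ γ sd) * dM ρ γ)) := by
      simp only [PP, Matrix.mul_assoc]
    have a2 : piM ρ γ sd * (A * (dM ρ γ * sZ ι sd * dM ρ γ)) =
        piM ρ γ sd * dM ρ γ * (U0 * sd.E) * (sZ ι sd * dM ρ γ) := by
      have b1 : A * (dM ρ γ * sZ ι sd * dM ρ γ) = (A * dM ρ γ) * (sd.E * sZ ι sd) * dM ρ γ := by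
        rw [E_sZ h]
        simp only [Matrix.mul_assoc]
      rw [b1, hA]
      simp only [Matrix.mul_assoc]
    rw [a1, e1, Matrix.sub_mul, Matrix.one_mul, Matrix.mul_sub, Matrix.mul_sub, a2, e0,
      Matrix.zero_mul, sub_zero, hA, Matrix.mul_assoc]
  rw [Matrix.mulVec_mulVec, e2, ← Matrix.mulVec_mulVec]
  have e3 : U0.mulVec (Pi.single sd.z 1) =
      U0 sd.z sd.z • (Pi.single sd.z 1 : I → K) + (sd.E * U0).mulVec (Pi.single sd.z 1) := by
    funext x
    simp only [Matrix.mulVec_single_one, Pi.add_apply, Pi.smul_apply, Matrix.col_apply,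
      smul_eq_mul, m3alg_E_mul]
    by_cases hx : x = sd.z
    · subst hx; simp
    · simp [hx]
  rw [e3, Matrix.mulVec_add, Matrix.mulVec_smul, Matrix.mulVec_mulVec, ← Matrix.mul_assoc,
    piM_dM_E h, Matrix.zero_mul, Matrix.zero_mulVec, add_zero]

lemma PP_some_some (A : Matrix (Option ι × I) (Option ι × I) K) (x y : ι × I) :
    PP ρ γ sd A (some x) (some y) = A (some x.1, x.2) (some y.1, y.2) -
      ∑ b, (∑ a, (ρ (γ (some x.1)) - 1 : Matrix I I K) x.2 a * sd.s a b) *
        A (none, b) (some y.1, y.2) := by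
  rw [PP, m3alg_mul_j_some, m3alg_pi_some, Matrix.sub_mul, Matrix.one_mul, Matrix.sub_apply,
    Matrix.mul_apply]
  congr 1
  simp only [m3alg_d_sZ]
  exact m3alg_sum_none
    (fun b => ∑ a, (ρ (γ (some x.1)) - 1 : Matrix I I K) x.2 a * sd.s a b)
    (fun w => A w (some y.1, y.2))

lemma PP_add (A B : Matrix (Option ι × I) (Option ι × I) K) :
    PP ρ γ sd (A + B) = PP ρ γ sd A + PP ρ γ sd B := by
  simp only [PP, Matrix.mul_add, Matrix.add_mul]

lemma PP_sub (A B : Matrix (Option ι × I) (Option ι × I) K) :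
    PP ρ γ sd (A - B) = PP ρ γ sd A - PP ρ γ sd B := by
  simp only [PP, Matrix.mul_sub, Matrix.sub_mul]

lemma PP_congr {ρ' : Mat → Matrix I I K} (h : ∀ j, ρ (γ j) = ρ' (γ j))
    (A : Matrix (Option ι × I) (Option ι × I) K) : PP ρ γ sd A = PP ρ' γ sd A := by
  have e1 : dM ρ γ = dM ρ' γ := by
    funext x y
    simp only [dM, h]
  have e2 : piM ρ γ sd = piM ρ' γ sd := by
    funext o y
    cases o with
    | none => rfl
    | some x => simp only [piM, e1]
  rw [PP, PP, e2]

omit [Fintype I] [DecidableEq I] in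
lemma lin_congr {J : Type} {σ σ' : Mat → Matrix I J K} {F : Mat →₀ ℤ}
    (h : ∀ g ∈ F.support, σ g = σ' g) : lin σ F = lin σ' F := by
  unfold lin
  exact Finsupp.sum_congr fun g hg => by rw [h g hg]

omit [Fintype I] [DecidableEq I] in
lemma lin_add {J : Type} (σ : Mat → Matrix I J K) (F G : Mat →₀ ℤ) :
    lin σ (F + G) = lin σ F + lin σ G := by
  unfold lin
  exact Finsupp.sum_add_index' (fun g => by simp) (fun g a b => by rw [Int.cast_add, add_smul])

omit [Fintype I] [DecidableEq I] in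
lemma lin_apply {J : Type} (σ : Mat → Matrix I J K) (F : Mat →₀ ℤ) (x : I) (y : J) :
    lin σ F x y = ∑ g ∈ F.support, (F g : K) * σ g x y := by
  unfold lin Finsupp.sum
  rw [Matrix.sum_apply]
  rfl

omit [Fintype I] [DecidableEq I] [Fintype ι] [DecidableEq ι] in
lemma chM_congr {J : Type} {σ σ' : Mat → Matrix I J K} {F : Option ι → Option ι → (Mat →₀ ℤ)}
    (h : ∀ k j, ∀ g ∈ (F k j).support, σ g = σ' g) : chM σ F = chM σ' F := by
  funext x y
  simp only [chM]
  rw [lin_congr (h y.1 x.1)]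

omit [Fintype I] [DecidableEq I] [Fintype ι] [DecidableEq ι] in
lemma chM_add {J : Type} (σ : Mat → Matrix I J K) (F G : Option ι → Option ι → (Mat →₀ ℤ)) :
    chM σ (F + G) = chM σ F + chM σ G := by
  funext x y
  simp only [chM, Pi.add_apply, Matrix.add_apply, lin_add]

/-- Change of the index set. -/
lemma PP_reindex {I' : Type} [Fintype I'] [DecidableEq I'] (e : I' ≃ I) {ρ' : Mat → Matrix I' I' K}
    {sd' : SD I' K} (h1 : ∀ j, ρ' (γ j) = (ρ (γ j)).submatrix e e)
    (h2 : sd'.s = sd.s.submatrix e e) (h3 : sd'.lam = sd.lam ∘ e) (h4 : sd'.e = sd.e ∘ e)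
    (A : Matrix (Option ι × I) (Option ι × I) K) :
    PP ρ' γ sd' (A.submatrix (Prod.map id e) (Prod.map id e)) =
      (PP ρ γ sd A).submatrix (Option.map (Prod.map id e)) (Option.map (Prod.map id e)) := by
  have e1 : ∀ x y : Option ι × I', (dM ρ' γ * sZ ι sd') x y =
      (dM ρ γ * sZ ι sd) (Prod.map id e x) (Prod.map id e y) := by
    intro x y
    rw [m3alg_d_sZ, m3alg_d_sZ]
    simp only [Prod.map_fst, Prod.map_snd, id_eq]
    split_ifs
    · rw [← e.sum_comp, h1, h2]
      refine Finset.sum_congr rfl fun a _ => ?_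
      simp [Matrix.one_apply]
    · rfl
  have e2 : piM ρ' γ sd' = (piM ρ γ sd).submatrix (Option.map (Prod.map id e))
      (Equiv.prodCongr (Equiv.refl (Option ι)) e) := by
    funext o y
    cases o with
    | none => simp [piM, h3]
    | some x =>
      simp only [piM, Matrix.submatrix_apply, Option.map_some, Matrix.sub_apply, e1]
      simp [Matrix.one_apply, Prod.ext_iff, Prod.map]
  have e3 : jM ι sd' = (jM ι sd).submatrix (Equiv.prodCongr (Equiv.refl (Option ι)) e)
      (Option.map (Prod.map id e)) := by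
    funext x o
    cases o with
    | none => simp [jM, h4]
    | some y => simp [jM, Prod.ext_iff, Prod.map]
  have e4 : A.submatrix (Prod.map id e) (Prod.map id e) =
      A.submatrix (Equiv.prodCongr (Equiv.refl (Option ι)) e)
        (Equiv.prodCongr (Equiv.refl (Option ι)) e) := rfl
  rw [PP, PP, e2, e3, e4, Matrix.submatrix_mul_equiv, Matrix.submatrix_mul_equiv]

/-- The entries are polynomial functions when the data are. -/
lemma isPoly_Ptr {σ : K → Mat → Matrix I I K} (h : ∀ g x y, IsPoly fun w => σ w g x y)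
    (F : Option ι → Option ι → (Mat →₀ ℤ)) (x y : ι × I) :
    IsPoly fun w => Ptr (σ w) γ sd (chM (σ w) F) x y := by
  have hc : ∀ u v : Option ι × I, IsPoly fun w => chM (σ w) F u v := by
    intro u v
    simp only [chM, lin_apply]
    exact IsPoly.sum _ fun g _ => (IsPoly.const _).mul (h g _ _)
  simp only [Ptr, Matrix.submatrix_apply, PP_some_some, Matrix.sub_apply]
  refine (hc _ _).sub (IsPoly.sum _ fun b _ => IsPoly.mul (IsPoly.sum _ fun a _ => ?_) (hc _ _))
  exact ((h _ _ _).sub (IsPoly.const _)).mul (IsPoly.const _)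

end Pool.Agent.Lib.MP_88d29b_nt.G.M3
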