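import Pool.Agent.Lib.MP_88d29b_nt.M3Norm

/-!
Newton polygons: vertices, cancellation, and the Hodge count.
-/

set_option autoImplicit false

noncomputable section

namespace Pool.Agent.Lib.MP_88d29b_nt.G.M3

open Finset CongruenceSubgroup
open scoped MatrixGroups

variable {K : Type} [NormedField K] [IsUltrametricDist K]

omit [IsUltrametricDist K] in
/-- The first index at which `‖F_j‖ / a ^ j`, `j ≤ d`, is maximal. -/
lemma exists_vertex (F : Polynomial K) (h0 : F.coeff 0 ≠ 0) (d : ℕ) {a : ℝ} (ha : 0 < a) :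
    ∃ n ≤ d, (∀ j < n, ‖F.coeff j‖ * a ^ (n - j) < ‖F.coeff n‖) ∧
      ‖F.coeff d‖ ≤ ‖F.coeff n‖ * a ^ (d - n) ∧ 0 < ‖F.coeff n‖ := by
  classical
  set f : ℕ → ℝ := fun j => ‖F.coeff j‖ / a ^ j with hf
  have hex : ∃ n, n ≤ d ∧ ∀ j ≤ d, f j ≤ f n := by
    obtain ⟨n, hn, h⟩ := Finset.exists_max_image (range (d + 1)) f ⟨0, by simp⟩
    exact ⟨n, Nat.lt_succ_iff.mp (mem_range.mp hn),
      fun j hj => h j (mem_range.mpr (Nat.lt_succ_iff.mpr hj))⟩
  obtain ⟨hnd, hmax⟩ := Nat.find_spec hex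
  set n := Nat.find hex with hn
  have han : 0 < a ^ n := pow_pos ha n
  refine ⟨n, hnd, fun j hj => ?_, ?_, ?_⟩
  · have h1 := Nat.find_min hex hj
    have h2 : f j < f n := by
      by_contra h3
      exact h1 ⟨by omega, fun k hk => (hmax k hk).trans (not_lt.mp h3)⟩
    have haj : 0 < a ^ j := pow_pos ha j
    simp only [hf] at h2
    rw [div_lt_div_iff₀ haj han] at h2
    have e : a ^ n = a ^ (n - j) * a ^ j := by
      rw [← pow_add]
      congr 1
      omega
    rw [e, ← mul_assoc] at h2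
    exact lt_of_mul_lt_mul_right h2 haj.le
  · have h2 := hmax d le_rfl
    simp only [hf] at h2
    rw [div_le_div_iff₀ (pow_pos ha d) han] at h2
    have e : a ^ d = a ^ (d - n) * a ^ n := by
      rw [← pow_add]
      congr 1
      omega
    rw [e, ← mul_assoc] at h2
    exact le_of_mul_le_mul_right h2 han
  · have h2 := hmax 0 (Nat.zero_le d)
    simp only [hf, pow_zero, div_one] at h2
    have h3 := (norm_pos_iff.mpr h0).trans_le h2
    exact (div_pos_iff_of_pos_right han).mp h3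

omit [IsUltrametricDist K] in
lemma m3newt_coeff (P Q : Polynomial K) (hQ : Q.coeff 0 = 1) (j : ℕ) :
    (P * Q).coeff j = ∑ i ∈ range j, P.coeff i * Q.coeff (j - i) + P.coeff j := by
  rw [Polynomial.coeff_mul,
    Finset.Nat.sum_antidiagonal_eq_sum_range_succ fun i k => P.coeff i * Q.coeff k,
    Finset.sum_range_succ, Nat.sub_self, hQ, mul_one]

lemma m3newt_mul {P Q : Polynomial K} {ε : ℝ} (hP : ∀ j, ‖P.coeff j‖ ≤ ε)
    (hQ : ∀ j, ‖Q.coeff j‖ ≤ 1) (j : ℕ) : ‖(P * Q).coeff j‖ ≤ ε := by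
  rw [Polynomial.coeff_mul]
  refine norm_sum_le' _ _ ((norm_nonneg _).trans (hP 0)) fun x _ => ?_
  simpa using norm_mul_le' (hP x.1) (hQ x.2)

lemma m3newt_cancel {P A : Polynomial K} {ε : ℝ} (hA : A.coeff 0 = 1)
    (iA : ∀ j, ‖A.coeff j‖ ≤ 1) (h : ∀ j, ‖(P * A).coeff j‖ ≤ ε) (j : ℕ) : ‖P.coeff j‖ ≤ ε := by
  induction j using Nat.strong_induction_on with
  | _ j ih =>
    have e : P.coeff j = (P * A).coeff j - ∑ i ∈ range j, P.coeff i * A.coeff (j - i) := by
      rw [m3newt_coeff P A hA j]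
      ring
    rw [e]
    refine norm_sub_le' (h j) (norm_sum_le' _ _ ((norm_nonneg _).trans (h 0)) fun i hi => ?_)
    simpa using norm_mul_le' (ih i (mem_range.mp hi)) (iA (j - i))

lemma m3newt_max (f : ℕ → ℝ) {ε c : ℝ} (hε : ε < c) (n : ℕ) (h : ∀ j < n, f j < c) :
    ∃ c', ε ≤ c' ∧ c' < c ∧ ∀ j < n, f j ≤ c' := by
  induction n with
  | zero => exact ⟨ε, le_rfl, hε, fun j hj => absurd hj (Nat.not_lt_zero j)⟩
  | succ n ih =>
    obtain ⟨c', h1, h2, h3⟩ := ih fun j hj => h j (by omega)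
    refine ⟨max c' (f n), h1.trans (le_max_left _ _), max_lt h2 (h n (by omega)), fun j hj => ?_⟩
    rcases Nat.lt_succ_iff_lt_or_eq.mp hj with h4 | h4
    · exact (h3 j h4).trans (le_max_left _ _)
    · rw [h4]
      exact le_max_right _ _

/-- Cancellation of the boundary factors. -/
lemma touch_poly {U1 A1 F1 U2 A2 F2 G G0 : Polynomial K} {a ε : ℝ} (ha0 : 0 < a) (ha1 : a ≤ 1)
    (e1 : U1 = A1 * F1) (e2 : U2 = A2 * F2) (hA1 : A1.coeff 0 = 1) (hA2 : A2.coeff 0 = 1)
    (iA1 : ∀ j, ‖A1.coeff j‖ ≤ 1) (iA2 : ∀ j, ‖A2.coeff j‖ ≤ 1) (iU2 : ∀ j, ‖U2.coeff j‖ ≤ 1)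
    (hG : G.coeff 0 = 1) (bG : ∀ j, ‖G.coeff j‖ ≤ a ^ j)
    (hG0 : G0.coeff 0 = 1) (bG0 : ∀ j, ‖G0.coeff j‖ ≤ a ^ j)
    (c1 : ∀ j, ‖(U2 - U1 * G).coeff j‖ ≤ ε) (c2 : ∀ j, ‖(A2 - A1 * G0).coeff j‖ ≤ ε)
    {n : ℕ} (hn : ∀ j < n, ‖F1.coeff j‖ * a ^ (n - j) < ‖F1.coeff n‖) (hε : ε < ‖F1.coeff n‖) :
    ‖F2.coeff n‖ = ‖F1.coeff n‖ := by
  have hε0 : 0 ≤ ε := (norm_nonneg _).trans (c1 0)
  have iF2 : ∀ j, ‖F2.coeff j‖ ≤ 1 :=
    m3newt_cancel hA2 iA2 fun j => by rw [mul_comm, ← e2]; exact iU2 j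
  have hE : ∀ j, ‖(F2 * G0 - F1 * G).coeff j‖ ≤ ε := by
    refine m3newt_cancel hA1 iA1 fun j => ?_
    have e : (F2 * G0 - F1 * G) * A1 = (U2 - U1 * G) - (A2 - A1 * G0) * F2 := by
      rw [e1, e2]
      ring
    rw [e, Polynomial.coeff_sub]
    exact norm_sub_le' (c1 j) (m3newt_mul c2 iF2 j)
  obtain ⟨c, h1, h2, h3⟩ := m3newt_max (fun j => ‖F1.coeff j‖ * a ^ (n - j)) hε n hn
  have hc0 : 0 ≤ c := hε0.trans h1
  have hF1 : ∀ j < n, ‖F1.coeff j‖ ≤ c / a ^ (n - j) := fun j hj =>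
    (le_div_iff₀ (pow_pos ha0 _)).mpr (h3 j hj)
  have key : ∀ j ≤ n, ‖F2.coeff j - F1.coeff j‖ ≤ c / a ^ (n - j) := by
    intro j
    induction j using Nat.strong_induction_on with
    | _ j ih =>
      intro hj
      have hb0 : 0 ≤ c / a ^ (n - j) := by positivity
      have hb : ∀ i < j, c / a ^ (n - i) * a ^ (j - i) = c / a ^ (n - j) := by
        intro i hi
        have e : a ^ (n - i) = a ^ (n - j) * a ^ (j - i) := by
          rw [← pow_add]
          congr 1
          omega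
        have := pow_pos ha0 (j - i)
        have := pow_pos ha0 (n - j)
        rw [e]
        field_simp
      have e : F2.coeff j - F1.coeff j = (F2 * G0 - F1 * G).coeff j -
          ∑ i ∈ range j, F2.coeff i * G0.coeff (j - i) +
          ∑ i ∈ range j, F1.coeff i * G.coeff (j - i) := by
        rw [Polynomial.coeff_sub, m3newt_coeff F2 G0 hG0, m3newt_coeff F1 G hG]
        ring
      rw [e]
      refine norm_add_le' (norm_sub_le' ?_ (norm_sum_le' _ _ hb0 fun i hi => ?_))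
        (norm_sum_le' _ _ hb0 fun i hi => ?_)
      · refine ((hE j).trans h1).trans ?_
        exact le_div_self hc0 (pow_pos ha0 _) (pow_le_one₀ ha0.le ha1)
      · have hi' := mem_range.mp hi
        have h4 : ‖F2.coeff i‖ ≤ c / a ^ (n - i) := by
          have := norm_add_le' (ih i hi' (by omega)) (hF1 i (by omega))
          rwa [sub_add_cancel] at this
        rw [← hb i hi']
        exact norm_mul_le' h4 (bG0 _)
      · have hi' := mem_range.mp hi
        rw [← hb i hi']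
        exact norm_mul_le' (hF1 i (by omega)) (bG _)
  have h5 := key n le_rfl
  rw [Nat.sub_self, pow_zero, div_one] at h5
  exact norm_eq_of_sub_lt (h5.trans_lt h2)

/-- A set with at most `t` elements of each degree has a large sum of degrees. -/
lemma hodge_comb {J : Type} [DecidableEq J] (deg : J → ℕ) (t : ℕ) (s : Finset J)
    (h : ∀ m, (s.filter fun i => deg i = m).card ≤ t) :
    s.card ^ 2 ≤ 2 * t * (∑ i ∈ s, deg i + s.card) := by
  induction s using Finset.induction_on_max_value deg with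
  | empty => simp
  | insert x s hx hmax ih =>
    have h1 := ih fun m => le_trans
      (card_le_card (filter_subset_filter _ (subset_insert x s))) (h m)
    have h2 : (insert x s).card ≤ (deg x + 1) * t := by
      rw [Finset.card_eq_sum_card_fiberwise (f := deg) (t := range (deg x + 1))]
      · refine (Finset.sum_le_sum fun m _ => h m).trans ?_
        simp
      · intro y hy
        have hy' : y ∈ insert x s := hy
        rw [coe_range, Set.mem_Iio]
        rcases mem_insert.mp hy' with rfl | hy'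
        · omega
        · have := hmax y hy'
          omega
    rw [card_insert_of_notMem hx] at h2 ⊢
    rw [sum_insert hx]
    nlinarith

end Pool.Agent.Lib.MP_88d29b_nt.G.M3
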