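import Pool.Agent.Lib.MP_88d29b_nt.M3Alg
import Pool.Agent.Lib.MP_88d29b_nt.M3Newt

/-!
Bounds for the bordered model.
-/

set_option autoImplicit false

noncomputable section

namespace Pool.Agent.Lib.MP_88d29b_nt.G.M3

open Finset CongruenceSubgroup
open scoped MatrixGroups

variable {K : Type} [NormedField K] [IsUltrametricDist K] {p : ℕ} [hp : Fact p.Prime]
  {I : Type} [Fintype I] [DecidableEq I] {ι : Type} [Fintype ι] [DecidableEq ι]
  {ρ : Mat → Matrix I I K} {γ : Option ι → Mat} {sd : SD I K} {deg : I → ℕ} {L : ℕ}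

omit [Fintype I] [DecidableEq I] in
lemma lin_norm {J : Type} {σ : Mat → Matrix I J K} {F : Mat →₀ ℤ} {x : I} {y : J} {a : ℝ}
    (ha : 0 ≤ a) (h : ∀ g ∈ F.support, ‖σ g x y‖ ≤ a) : ‖lin σ F x y‖ ≤ a := by
  rw [lin_apply]
  refine norm_sum_le' _ _ ha fun g hg => ?_
  have := norm_mul_le' (norm_int_le (K := K) (F g)) (h g hg)
  rwa [one_mul] at this

omit [Fintype I] [DecidableEq I] in
lemma lin_sub_norm {J J' I' : Type} {σ : Mat → Matrix I J K} {σ' : Mat → Matrix I' J' K}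
    {F : Mat →₀ ℤ} {x : I} {y : J} {x' : I'} {y' : J'} {a : ℝ} (ha : 0 ≤ a)
    (h : ∀ g ∈ F.support, ‖σ g x y - σ' g x' y'‖ ≤ a) : ‖lin σ F x y - lin σ' F x' y'‖ ≤ a := by
  rw [lin_apply, lin_apply, ← sum_sub_distrib]
  refine norm_sum_le' _ _ ha fun g hg => ?_
  rw [← mul_sub]
  have := norm_mul_le' (norm_int_le (K := K) (F g)) (h g hg)
  rwa [one_mul] at this

omit [IsUltrametricDist K] in
lemma M3Bd_piM_some (x : ι × I) (y : Option ι × I) : piM ρ γ sd (some x) y =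
    (if (some x.1, x.2) = y then 1 else 0) - if y.1 = none then
      ∑ a, (ρ (γ (some x.1)) - 1 : Matrix I I K) x.2 a * sd.s a y.2 else 0 := by
  simp only [piM]
  rw [Matrix.sub_apply, Matrix.one_apply, Matrix.mul_apply]
  congr 1
  simp only [dM, sZ]
  split_ifs
  · rfl
  · simp

omit [Fintype I] in
lemma M3Bd_sub_one {M : Matrix I I K} (h : ∀ x y, ‖M x y‖ ≤ 1) (x y : I) :
    ‖(M - 1 : Matrix I I K) x y‖ ≤ 1 := by
  rw [Matrix.sub_apply, Matrix.one_apply]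
  refine norm_sub_le' (h x y) ?_
  split_ifs <;> simp

omit [Fintype I] in
lemma M3Bd_sub_one' {M : Matrix I I K}
    (h : ∀ x y, ‖M x y‖ ≤ (p : ℝ) ^ (-((deg x - deg y : ℕ) : ℤ))) (x y : I) :
    ‖(M - 1 : Matrix I I K) x y‖ ≤ (p : ℝ) ^ (-((deg x - deg y : ℕ) : ℤ)) := by
  rw [Matrix.sub_apply, Matrix.one_apply]
  refine norm_sub_le' (h x y) ?_
  split_ifs with hxy
  · subst hxy
    simp
  · simpa using (zpow_pos' (p := p) _).le

lemma M3Bd_key {a b c : ℕ} (h : a ≤ b + 1) :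
    -((c - a : ℕ) : ℤ) + (Nat.log p (b + 1) : ℤ) ≤ 1 - fl p c + b := by
  rcases le_or_gt c (b + 1) with h1 | h1
  · have h2 := fl_mono (p := p) h1
    have h3 := fl_succ_le (p := p) b
    have h4 : fl p b = (b : ℤ) - Nat.log p (b + 1) := rfl
    omega
  · have h2 : Nat.log p (b + 1) ≤ Nat.log p (c + 1) := Nat.log_mono_right (by omega)
    unfold fl
    omega

omit [DecidableEq I] in
lemma M3Bd_sum_wt (hs : SBd p sd deg L) {M : Matrix I I K} {ε : ℝ} (hε : 0 ≤ ε)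
    (h : ∀ x y, ‖M x y‖ ≤ ε * (p : ℝ) ^ (-((deg x - deg y : ℕ) : ℤ))) (x b : I) :
    ‖∑ a, M x a * sd.s a b‖ ≤ ε * (p : ℝ) ^ (1 - fl p (deg x) + deg b) := by
  have h0 : 0 ≤ ε * (p : ℝ) ^ (1 - fl p (deg x) + deg b) := mul_nonneg hε (zpow_pos' _).le
  refine norm_sum_le' _ _ h0 fun a _ => ?_
  rcases lt_or_ge (deg b + 1) (deg a) with h1 | h1
  · rw [hs.s_zero a b h1, mul_zero, norm_zero]
    exact h0
  · refine (norm_mul_le' (h x a) (hs.s_norm a b)).trans ?_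
    rw [mul_assoc, ← zpow_natCast, zpow_mul_zpow]
    exact mul_le_mul_of_nonneg_left (zpow_le (M3Bd_key h1)) hε

lemma M3Bd_piM_wt (hs : SBd p sd deg L)
    (hd : ∀ j x y, ‖ρ (γ j) x y‖ ≤ (p : ℝ) ^ (-((deg x - deg y : ℕ) : ℤ))) (x : Option (ι × I))
    (y : Option ι × I) : ‖piM ρ γ sd x y‖ ≤ (p : ℝ) ^ (1 - fl p (degO L deg x) + deg y.2) := by
  have h0 : (0 : ℝ) ≤ (p : ℝ) ^ (1 - fl p (degO L deg x) + deg y.2) := (zpow_pos' _).le
  have h1 : degO L deg x ≤ deg y.2 → (1 : ℝ) ≤ (p : ℝ) ^ (1 - fl p (degO L deg x) + deg y.2) :=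
    fun h => by
      refine (zpow_zero (p : ℝ)).symm.le.trans (zpow_le ?_)
      have := fl_le (p := p) (degO L deg x)
      omega
  cases x with
  | none =>
    simp only [piM]
    split_ifs
    · rcases lt_or_ge (deg y.2) L with h2 | h2
      · rw [hs.lam_zero _ h2, norm_zero]
        exact h0
      · exact (hs.lam_norm _).trans (h1 h2)
    · simpa using h0
  | some x =>
    rw [M3Bd_piM_some]
    refine norm_sub_le' ?_ ?_
    · split_ifs with h2
      · rw [norm_one]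
        refine h1 ?_
        rw [← h2]
        exact le_rfl
      · simpa using h0
    · split_ifs
      · have := M3Bd_sum_wt hs (M := ρ (γ (some x.1)) - 1) zero_le_one
          (fun u v => by rw [one_mul]; exact M3Bd_sub_one' (hd _) u v) x.2 y.2
        rwa [one_mul] at this
      · simpa using h0

lemma M3Bd_piM_sub (hs : SBd p sd deg L) {ρ' : Mat → Matrix I I K} {ε : ℝ} (hε : 0 ≤ ε)
    (hd' : ∀ j x y, ‖ρ (γ j) x y - ρ' (γ j) x y‖ ≤ ε * (p : ℝ) ^ (-((deg x - deg y : ℕ) : ℤ)))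
    (x : Option (ι × I)) (y : Option ι × I) :
    ‖(piM ρ γ sd - piM ρ' γ sd : Matrix _ _ K) x y‖ ≤
      ε * (p : ℝ) ^ (1 - fl p (degO L deg x) + deg y.2) := by
  have h0 : 0 ≤ ε * (p : ℝ) ^ (1 - fl p (degO L deg x) + deg y.2) :=
    mul_nonneg hε (zpow_pos' _).le
  rw [Matrix.sub_apply]
  cases x with
  | none =>
    simp only [piM, sub_self, norm_zero]
    exact h0
  | some x =>
    rw [M3Bd_piM_some, M3Bd_piM_some, sub_sub_sub_cancel_left]
    split_ifs
    · rw [norm_sub_rev, ← sum_sub_distrib]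
      have := M3Bd_sum_wt hs (M := ρ (γ (some x.1)) - ρ' (γ (some x.1))) hε
        (fun u v => hd' _ u v) x.2 y.2
      refine le_trans (le_of_eq ?_) this
      congr 1
      refine sum_congr rfl fun a _ => ?_
      simp only [Matrix.sub_apply]
      ring
    · simpa using h0

omit [DecidableEq I] in
lemma M3Bd_tail (hs : SBd p sd deg L) [DecidableEq I] {M : Matrix I I K}
    (h : ∀ x y, ‖M x y‖ ≤ 1) (x b : I) {u : K} (hu : ‖u‖ ≤ (p : ℝ) ^ (-(deg b : ℤ))) :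
    ‖(∑ a, (M - 1 : Matrix I I K) x a * sd.s a b) * u‖ ≤ (p : ℝ) ^ (-fl p (deg b)) := by
  have h1 : ‖∑ a, (M - 1 : Matrix I I K) x a * sd.s a b‖ ≤ (p : ℝ) ^ Nat.log p (deg b + 1) := by
    refine norm_sum_le' _ _ (pow_nonneg p_pos.le _) fun a _ => ?_
    have := norm_mul_le' (M3Bd_sub_one h x a) (hs.s_norm a b)
    rwa [one_mul] at this
  refine (norm_mul_le' h1 hu).trans (le_of_eq ?_)
  rw [← zpow_natCast, zpow_mul_zpow]
  congr 1
  unfold fl
  ring

lemma M3Bd_zpow_sum {α : Type} (s : Finset α) (f : α → ℤ) :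
    ∏ i ∈ s, (p : ℝ) ^ f i = (p : ℝ) ^ (∑ i ∈ s, f i) := by
  induction s using Finset.cons_induction_on with
  | empty => simp
  | cons a s ha ih => rw [prod_cons, sum_cons, ih, zpow_mul_zpow]

/-- The entries of the projection. -/
lemma piM_norm (hs : SBd p sd deg L) (hd : ∀ j x y, ‖ρ (γ j) x y‖ ≤ 1) (x : Option (ι × I))
    (y : Option ι × I) : ‖piM ρ γ sd x y‖ ≤ (p : ℝ) ^ Nat.log p (L + 1) := by
  have h1 : (1 : ℝ) ≤ (p : ℝ) ^ Nat.log p (L + 1) := one_le_pow₀ one_le_p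
  have h0 : (0 : ℝ) ≤ (p : ℝ) ^ Nat.log p (L + 1) := zero_le_one.trans h1
  cases x with
  | none =>
    simp only [piM]
    split_ifs
    · exact (hs.lam_norm _).trans h1
    · simpa using h0
  | some x =>
    rw [M3Bd_piM_some]
    refine norm_sub_le' ?_ ?_
    · split_ifs
      · simpa using h1
      · simpa using h0
    · split_ifs
      · refine norm_sum_le' _ _ h0 fun a _ => ?_
        have h2 := norm_mul_le' (M3Bd_sub_one (hd (some x.1)) x.2 a) (hs.s_norm a y.2)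
        rw [one_mul] at h2
        refine h2.trans (pow_le_pow_right₀ one_le_p (Nat.log_mono_right ?_))
        have := hs.deg_le y.2
        omega
      · simpa using h0

lemma jM_norm (hs : SBd p sd deg L) (x : Option ι × I) (y : Option (ι × I)) :
    ‖jM ι sd x y‖ ≤ 1 := by
  cases y with
  | none =>
    simp only [jM]
    split_ifs
    · exact hs.e_norm _
    · simp
  | some y =>
    simp only [jM]
    split_ifs <;> simp

lemma M3Bd_triple (hs : SBd p sd deg L) {B : Matrix (Option (ι × I)) (Option ι × I) K}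
    {A : Matrix (Option ι × I) (Option ι × I) K} {a : ℝ} (ha : 0 ≤ a) {x : Option (ι × I)}
    (h : ∀ v w, ‖B x v * A v w‖ ≤ a) (y : Option (ι × I)) :
    ‖(B * A * jM ι sd : Matrix _ _ K) x y‖ ≤ a := by
  rw [Matrix.mul_apply]
  refine norm_sum_le' _ _ ha fun w _ => ?_
  have h1 : ‖(B * A : Matrix _ _ K) x w‖ ≤ a := by
    rw [Matrix.mul_apply]
    exact norm_sum_le' _ _ ha fun v _ => h v w
  have := norm_mul_le' h1 (jM_norm hs w y)
  rwa [mul_one] at this

/-- Row decay. -/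
lemma PP_row (hs : SBd p sd deg L)
    (hd : ∀ j x y, ‖ρ (γ j) x y‖ ≤ (p : ℝ) ^ (-((deg x - deg y : ℕ) : ℤ)))
    {A : Matrix (Option ι × I) (Option ι × I) K} {a : ℝ} (ha : 0 ≤ a)
    (hA : ∀ x y, ‖A x y‖ ≤ a * (p : ℝ) ^ (-(deg x.2 : ℤ))) (x y : Option (ι × I)) :
    ‖PP ρ γ sd A x y‖ ≤ a * (p : ℝ) ^ (1 - fl p (degO L deg x)) := by
  refine M3Bd_triple hs (mul_nonneg ha (zpow_pos' _).le) (fun v w => ?_) y
  refine (norm_mul_le' (M3Bd_piM_wt hs hd x v) (hA v w)).trans (le_of_eq ?_)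
  rw [mul_left_comm, zpow_mul_zpow]
  congr 2
  ring

/-- Column bounds. -/
lemma PP_col (hs : SBd p sd deg L) (hd : ∀ j x y, ‖ρ (γ j) x y‖ ≤ 1)
    {A : Matrix (Option ι × I) (Option ι × I) K} {a : ℝ} {y : ι × I}
    (hA : ∀ x, ‖A x (some y.1, y.2)‖ ≤ a) (x : Option (ι × I)) :
    ‖PP ρ γ sd A x (some y)‖ ≤ (p : ℝ) ^ Nat.log p (L + 1) * a := by
  have ha : 0 ≤ a := (norm_nonneg _).trans (hA (some y.1, y.2))
  have h0 : (0 : ℝ) ≤ (p : ℝ) ^ Nat.log p (L + 1) := pow_nonneg p_pos.le _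
  have e : PP ρ γ sd A x (some y) = ∑ v, piM ρ γ sd x v * A v (some y.1, y.2) := by
    unfold PP
    rw [Matrix.mul_apply]
    simp only [jM, mul_ite, mul_one, mul_zero, sum_ite_eq', mem_univ, if_true]
    rw [Matrix.mul_apply]
  rw [e]
  exact norm_sum_le' _ _ (mul_nonneg h0 ha) fun v _ => norm_mul_le' (piM_norm hs hd x v) (hA v)

/-- Dependence on the data. -/
lemma PP_lip (hs : SBd p sd deg L) {ρ' : Mat → Matrix I I K} {ε : ℝ} (hε : 0 ≤ ε)
    (hd : ∀ j x y, ‖ρ (γ j) x y‖ ≤ (p : ℝ) ^ (-((deg x - deg y : ℕ) : ℤ)))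
    (hd' : ∀ j x y, ‖ρ (γ j) x y - ρ' (γ j) x y‖ ≤ ε * (p : ℝ) ^ (-((deg x - deg y : ℕ) : ℤ)))
    {A A' : Matrix (Option ι × I) (Option ι × I) K}
    (hA : ∀ x y, ‖A' x y‖ ≤ (p : ℝ) ^ (-(deg x.2 : ℤ)))
    (hA' : ∀ x y, ‖A x y - A' x y‖ ≤ ε * (p : ℝ) ^ (-(deg x.2 : ℤ))) (x y : Option (ι × I)) :
    ‖PP ρ γ sd A x y - PP ρ' γ sd A' x y‖ ≤ ε * (p : ℝ) ^ (1 - fl p (degO L deg x)) := by
  have e : PP ρ γ sd A x y - PP ρ' γ sd A' x y = PP ρ γ sd (A - A') x y +
      ((piM ρ γ sd - piM ρ' γ sd) * A' * jM ι sd : Matrix _ _ K) x y := by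
    unfold PP
    simp only [Matrix.mul_sub, Matrix.sub_mul, Matrix.sub_apply]
    ring
  rw [e]
  refine norm_add_le' (PP_row hs hd hε (fun x y => hA' x y) x y) ?_
  refine M3Bd_triple hs (mul_nonneg hε (zpow_pos' _).le) (fun v w => ?_) y
  refine (norm_mul_le' (M3Bd_piM_sub hs hε hd' x v) (hA v w)).trans (le_of_eq ?_)
  rw [mul_assoc, zpow_mul_zpow]
  congr 2
  ring

/-- The data on `I'` are the data on `I` cut at degree `L'`. -/
structure Cut {I' : Type} (e : I' → I) (deg' : I' → ℕ) (deg : I → ℕ) (L' : ℕ) (sd' : SD I' K)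
    (sd : SD I K) : Prop where
  inj : Function.Injective e
  deg_eq : ∀ x, deg (e x) = deg' x
  surj : ∀ x, deg x ≤ L' → x ∈ Set.range e
  s_eq : ∀ x y, deg' y < L' → sd'.s x y = sd.s (e x) (e y)

/-- Dependence on the cut. -/
lemma Ptr_trunc {I' : Type} [Fintype I'] [DecidableEq I'] {e : I' → I} {deg' : I' → ℕ} {L' : ℕ}
    {sd' : SD I' K} (hc : Cut e deg' deg L' sd' sd) (hs : SBd p sd deg L) (hs' : SBd p sd' deg' L')
    {ρ' : Mat → Matrix I' I' K} (hρ : ∀ j x y, ρ' (γ j) x y = ρ (γ j) (e x) (e y))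
    (hd : ∀ j x y, ‖ρ (γ j) x y‖ ≤ 1) {A : Matrix (Option ι × I) (Option ι × I) K}
    (hA : ∀ x y, ‖A x y‖ ≤ (p : ℝ) ^ (-(deg x.2 : ℤ))) (x y : ι × I') :
    ‖Ptr ρ γ sd A (x.1, e x.2) (y.1, e y.2) -
      Ptr ρ' γ sd' (A.submatrix (Prod.map id e) (Prod.map id e)) x y‖ ≤ (p : ℝ) ^ (-fl p L') := by
  have h0 : (0 : ℝ) ≤ (p : ℝ) ^ (-fl p L') := (zpow_pos' _).le
  simp only [Ptr, Matrix.submatrix_apply]
  rw [PP_some_some, PP_some_some]
  simp only [Matrix.submatrix_apply, Prod.map, id]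
  set T : I → K := fun b => (∑ a, (ρ (γ (some x.1)) - 1 : Matrix I I K) (e x.2) a * sd.s a b) *
    A (none, b) (some y.1, e y.2) with hT
  set T' : I' → K := fun b => (∑ a, (ρ' (γ (some x.1)) - 1 : Matrix I' I' K) x.2 a * sd'.s a b) *
    A (none, e b) (some y.1, e y.2) with hT'
  have s1 : ∑ b, T b = ∑ b, (if deg b < L' then T b else 0) +
      ∑ b, (if deg b < L' then 0 else T b) := by
    rw [← sum_add_distrib]
    refine sum_congr rfl fun b _ => ?_
    split_ifs <;> simp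
  have s2 : ∑ b, T' b = ∑ b, (if deg' b < L' then T' b else 0) +
      ∑ b, (if deg' b < L' then 0 else T' b) := by
    rw [← sum_add_distrib]
    refine sum_congr rfl fun b _ => ?_
    split_ifs <;> simp
  have s3 : ∑ b, (if deg' b < L' then T' b else 0) = ∑ b, (if deg b < L' then T b else 0) := by
    refine Fintype.sum_of_injective e hc.inj _ _ (fun b hb => ?_) fun b => ?_
    · rw [if_neg]
      intro hlt
      exact hb (hc.surj b hlt.le)
    · rw [hc.deg_eq]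
      split_ifs with hb
      · simp only [hT, hT']
        congr 1
        refine Fintype.sum_of_injective e hc.inj _ _ (fun a ha => ?_) fun a => ?_
        · rw [hs.s_zero, mul_zero]
          rw [hc.deg_eq]
          by_contra hlt
          exact ha (hc.surj a (by omega))
        · rw [hc.s_eq a b hb, Matrix.sub_apply, Matrix.sub_apply, hρ, Matrix.one_apply,
            Matrix.one_apply]
          simp only [hc.inj.eq_iff]
      · rfl
  have hd' : ∀ j x y, ‖ρ' (γ j) x y‖ ≤ 1 := fun j x y => by rw [hρ]; exact hd _ _ _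
  have b1 : ‖∑ b, (if deg b < L' then 0 else T b)‖ ≤ (p : ℝ) ^ (-fl p L') := by
    refine norm_sum_le' _ _ h0 fun b _ => ?_
    split_ifs with hb
    · simpa using h0
    · refine (M3Bd_tail hs (hd (some x.1)) (e x.2) b (hA (none, b) _)).trans (zpow_le ?_)
      have := fl_mono (p := p) (not_lt.mp hb)
      omega
  have b2 : ‖∑ b, (if deg' b < L' then 0 else T' b)‖ ≤ (p : ℝ) ^ (-fl p L') := by
    refine norm_sum_le' _ _ h0 fun b _ => ?_
    split_ifs with hb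
    · simpa using h0
    · have h3 := hA (none, e b) (some y.1, e y.2)
      simp only [hc.deg_eq] at h3
      refine (M3Bd_tail hs' (hd' (some x.1)) x.2 b h3).trans (zpow_le ?_)
      have := fl_mono (p := p) (not_lt.mp hb)
      omega
  have e1 : ∀ u : K, u - ∑ b, T b - (u - ∑ b, T' b) =
      ∑ b, (if deg' b < L' then 0 else T' b) - ∑ b, (if deg b < L' then 0 else T b) := by
    intro u
    rw [s1, s2, s3]
    ring
  rw [e1]
  exact norm_sub_le' b2 b1

/-- The coefficients of the bordered matrix against those of the cut matrix. -/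
lemma cn_PP_trunc {I' : Type} [Fintype I'] [DecidableEq I'] {e : I' → I} {deg' : I' → ℕ} {L' : ℕ}
    {sd' : SD I' K} (hc : Cut e deg' deg L' sd' sd) (hs : SBd p sd deg L) (hs' : SBd p sd' deg' L')
    (hL : L' ≤ L) {ρ' : Mat → Matrix I' I' K} (hρ : ∀ j x y, ρ' (γ j) x y = ρ (γ j) (e x) (e y))
    (hd : ∀ j x y, ‖ρ (γ j) x y‖ ≤ (p : ℝ) ^ (-((deg x - deg y : ℕ) : ℤ)))
    {A : Matrix (Option ι × I) (Option ι × I) K}
    (hA : ∀ x y, ‖A x y‖ ≤ (p : ℝ) ^ (-(deg x.2 : ℤ))) (n : ℕ) :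
    ‖cn (PP ρ γ sd A) n - cn (Ptr ρ' γ sd' (A.submatrix (Prod.map id e) (Prod.map id e))) n‖ ≤
      (p : ℝ) ^ ((n : ℤ) + 1 - fl p L') := by
  have hb : ∀ m : ℕ, (1 : ℝ) * (p : ℝ) ^ (1 - fl p m) ≤ p := fun m => by
    rw [one_mul]
    refine (zpow_le (b := 1) ?_).trans (zpow_one _).le
    have := fl_nonneg (p := p) m
    omega
  have hA1 : ∀ x y, ‖A x y‖ ≤ 1 * (p : ℝ) ^ (-(deg x.2 : ℤ)) := fun x y => by
    rw [one_mul]; exact hA x y
  have hd1 : ∀ j x y, ‖ρ (γ j) x y‖ ≤ 1 := fun j x y =>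
    (hd j x y).trans ((zpow_le (b := 0) (by omega)).trans (zpow_zero _).le)
  have hP := PP_row hs hd zero_le_one hA1
  have hP' := PP_row (ρ := ρ') (γ := γ) (A := A.submatrix (Prod.map id e) (Prod.map id e)) hs'
    (fun j x y => by rw [hρ, ← hc.deg_eq, ← hc.deg_eq]; exact hd _ _ _) zero_le_one
    (fun x y => by rw [← hc.deg_eq]; exact hA1 _ _)
  let e' : ι × I' → Option (ι × I) := fun x => some (x.1, e x.2)
  have he' : Function.Injective e' := by
    rintro ⟨a, b⟩ ⟨c, d⟩ h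
    simp only [e', Option.some.injEq, Prod.mk.injEq] at h
    exact Prod.ext h.1 (hc.inj h.2)
  have hε : (0 : ℝ) ≤ (p : ℝ) ^ (1 - fl p L') := (zpow_pos' _).le
  have h1 := cn_trunc (PP ρ γ sd A) n he' one_le_p hε (fun i j => (hP i j).trans (hb _))
    (fun i hi j => (hP i j).trans (by
      rw [one_mul]
      refine zpow_le ?_
      have : L' ≤ degO L deg i := by
        cases i with
        | none => exact hL
        | some x =>
          by_contra hlt
          obtain ⟨b, hb⟩ := hc.surj x.2 (not_le.mp hlt).le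
          exact hi ⟨(x.1, b), by simp only [e', hb]⟩
      have := fl_mono (p := p) this
      omega))
  have h2 := cn_sub ((PP ρ γ sd A).submatrix e' e')
    (Ptr ρ' γ sd' (A.submatrix (Prod.map id e) (Prod.map id e))) n one_le_p hε
    (fun i j => (hP _ _).trans (hb _)) (fun i j => (hP' _ _).trans (hb _))
    (fun i j => (Ptr_trunc hc hs hs' hρ hd1 hA i j).trans (zpow_le (by omega)))
  refine (norm_sub_trans h1 h2).trans (le_of_eq ?_)
  rw [← zpow_natCast, zpow_mul_zpow]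
  congr 1
  ring

lemma cut_sdq (q : ℕ) {L L' : ℕ} (h : L' + 1 ≤ L + 1) :
    Cut (Ix.up h) (fun x : Ix q L' => (x.2 : ℕ)) (fun x : Ix q L => (x.2 : ℕ)) L'
      (sdq K q L') (sdq K q L) := by
  refine ⟨?_, fun x => rfl, fun x hx => ⟨(x.1, ⟨x.2, by omega⟩), rfl⟩, fun x y hy => ?_⟩
  · rintro ⟨a, b⟩ ⟨c, d⟩ hh
    simp only [Ix.up, Prod.mk.injEq] at hh
    exact Prod.ext hh.1 (Fin.castLE_injective h hh.2)
  · have h1 : (y.2 : ℕ) < L := by omega
    simp only [sdq, Ix.up, Fin.val_castLE, if_pos hy, if_pos h1, (Fin.castLE_injective h).eq_iff]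

lemma cut_sd0 {L L' : ℕ} (h : L' + 1 ≤ L + 1) :
    Cut (Fin.castLE h) (fun x : Fin (L' + 1) => (x : ℕ)) (fun x : Fin (L + 1) => (x : ℕ)) L'
      (sd0 K L') (sd0 K L) := by
  refine ⟨Fin.castLE_injective h, fun x => rfl, fun x hx => ⟨⟨x, by omega⟩, rfl⟩,
    fun x y hy => ?_⟩
  have h1 : (y : ℕ) < L := by omega
  simp only [sd0, Fin.val_castLE, if_pos hy, if_pos h1]

/-- The Hodge bound for the bordered matrix when each degree occurs at most `t` times. -/
lemma cn_hodge {P : Matrix (Option (ι × I)) (Option (ι × I)) K} (hdeg : ∀ x, deg x ≤ L) {t : ℕ}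
    (ht : 0 < t) (hcard : ∀ m, (univ.filter fun x : ι × I => deg x.2 = m).card ≤ t)
    (hP : ∀ x y, ‖P x y‖ ≤ (p : ℝ) ^ (1 - fl p (degO L deg x))) (n : ℕ) :
    ‖cn P (n + 1)‖ ≤ (p : ℝ) ^ (-((n : ℝ) ^ 2 / (2 * t) - n -
      ((n : ℝ) + 1) * ((Nat.log p (L + 1) : ℝ) + 1))) := by
  refine cn_norm_le P (n + 1) (fun x => (p : ℝ) ^ (1 - fl p (degO L deg x))) hP
    (Real.rpow_nonneg p_pos.le _) fun s hs => ?_
  have e1 : ∏ i ∈ s, (p : ℝ) ^ (1 - fl p (degO L deg i)) =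
      (p : ℝ) ^ (∑ i ∈ s, (1 - fl p (degO L deg i))) := M3Bd_zpow_sum _ _
  rw [e1, ← Real.rpow_intCast]
  refine Real.rpow_le_rpow_of_exponent_le one_le_p ?_
  have hn : n ≤ (Finset.eraseNone s).card := by
    rw [Finset.card_eraseNone_eq_card_erase]
    have := Finset.pred_card_le_card_erase (s := s) (a := none)
    omega
  obtain ⟨r, hr, hrc⟩ := Finset.exists_subset_card_eq hn
  have h1 := hodge_comb (fun x : ι × I => deg x.2) t r fun m =>
    (card_le_card (filter_subset_filter _ (subset_univ r))).trans (hcard m)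
  rw [hrc] at h1
  have h2 : ∑ i ∈ r, deg i.2 ≤ ∑ i ∈ s, degO L deg i := by
    have : ∑ i ∈ r, deg i.2 = ∑ i ∈ r.map Function.Embedding.some, degO L deg i := by
      rw [sum_map]
      rfl
    rw [this]
    refine sum_le_sum_of_subset fun i hi => ?_
    obtain ⟨x, hx, rfl⟩ := mem_map.mp hi
    exact Finset.mem_eraseNone.mp (hr hx)
  have h3 : ∑ i ∈ s, (1 - fl p (degO L deg i)) ≤
      ∑ i ∈ s, (((Nat.log p (L + 1) : ℤ) + 1) - (degO L deg i : ℤ)) := by
    refine sum_le_sum fun i _ => ?_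
    have h4 : degO L deg i ≤ L := by
      cases i with
      | none => exact le_rfl
      | some x => exact hdeg x.2
    have h5 : Nat.log p (degO L deg i + 1) ≤ Nat.log p (L + 1) := Nat.log_mono_right (by omega)
    unfold fl
    omega
  rw [sum_sub_distrib (s := s) (fun _ => (Nat.log p (L + 1) : ℤ) + 1)
    (fun i => (degO L deg i : ℤ)), sum_const, hs, ← Nat.cast_sum] at h3
  have h6 : ((∑ i ∈ s, (1 - fl p (degO L deg i)) : ℤ) : ℝ) ≤
      ((n : ℝ) + 1) * ((Nat.log p (L + 1) : ℝ) + 1) - ((∑ i ∈ s, degO L deg i : ℕ) : ℝ) := by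
    rw [nsmul_eq_mul] at h3
    exact_mod_cast h3
  have h7 : ((∑ i ∈ r, deg i.2 : ℕ) : ℝ) ≤ ((∑ i ∈ s, degO L deg i : ℕ) : ℝ) := by
    exact_mod_cast h2
  have h8 : (n : ℝ) ^ 2 ≤ 2 * t * (((∑ i ∈ r, deg i.2 : ℕ) : ℝ) + n) := by exact_mod_cast h1
  have ht' : (0 : ℝ) < 2 * t := by positivity
  have h9 : (n : ℝ) ^ 2 / (2 * t) ≤ ((∑ i ∈ r, deg i.2 : ℕ) : ℝ) + n := by
    rw [div_le_iff₀ ht']
    linarith
  linarith

end Pool.Agent.Lib.MP_88d29b_nt.G.M3
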