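import Pool.Agent.Lib.MP_88d29b_nt.M3Norm

/-!
Binomial coefficients.
-/

set_option autoImplicit false

noncomputable section

namespace Pool.Agent.Lib.MP_88d29b_nt.G.M3

open Finset CongruenceSubgroup
open scoped MatrixGroups

variable {K : Type} [NormedField K] [IsUltrametricDist K] [CharZero K] {p : ℕ} [hp : Fact p.Prime]

omit [IsUltrametricDist K] [CharZero K] in
lemma M3Bin_smeval (s : K) (j : ℕ) :
    (descPochhammer ℤ j).smeval s = ∏ i ∈ range j, (s - i) := by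
  induction j with
  | zero => simp
  | succ j ih =>
    rw [descPochhammer_succ_right, Polynomial.smeval_mul, ih, prod_range_succ,
      Polynomial.smeval_sub, Polynomial.smeval_X, Polynomial.smeval_natCast]
    simp

omit [IsUltrametricDist K] in
lemma M3Bin_eq_choose (s : K) (j : ℕ) : bin s j = Ring.choose s j := by
  rw [Ring.choose_eq_smul, M3Bin_smeval, bin, smul_eq_mul, div_eq_inv_mul]

omit [IsUltrametricDist K] in
lemma M3Bin_succ (d : K) (i : ℕ) : bin d (i + 1) = d * ((i + 1 : ℕ) : K)⁻¹ * bin (d - 1) i := by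
  unfold bin
  rw [prod_range_succ', Nat.factorial_succ]
  have h1 : ∏ k ∈ range i, (d - ((k + 1 : ℕ) : K)) = ∏ k ∈ range i, (d - 1 - (k : K)) :=
    prod_congr rfl fun k _ => by push_cast; ring
  have h2 : ((i + 1 : ℕ) : K) ≠ 0 := by exact_mod_cast Nat.succ_ne_zero i
  have h3 : (i.factorial : K) ≠ 0 := by exact_mod_cast i.factorial_ne_zero
  rw [h1, Nat.cast_mul]
  field_simp
  simp [mul_comm]

lemma M3Bin_coeff (a b : ℤ) (n i : ℕ) :
    (((Polynomial.C a * Polynomial.X + Polynomial.C b) ^ n).coeff i : ℤ) =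
      (n.choose i : ℤ) * a ^ i * b ^ (n - i) := by
  rw [add_pow, Polynomial.finsetSum_coeff]
  have h : ∀ k ∈ range (n + 1),
      ((Polynomial.C a * Polynomial.X) ^ k * Polynomial.C b ^ (n - k) *
        (n.choose k : Polynomial ℤ)).coeff i =
      if k = i then (n.choose i : ℤ) * a ^ i * b ^ (n - i) else 0 := by
    intro k _
    have e : (Polynomial.C a * Polynomial.X) ^ k * Polynomial.C b ^ (n - k) *
        (n.choose k : Polynomial ℤ) =
        Polynomial.C ((n.choose k : ℤ) * a ^ k * b ^ (n - k)) * Polynomial.X ^ k := by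
      simp only [mul_pow, map_mul, map_pow, map_natCast]
      ring
    rw [e, Polynomial.coeff_C_mul_X_pow]
    by_cases hk : k = i
    · subst hk
      simp
    · simp [hk, Ne.symm hk]
  rw [sum_congr rfl h, sum_ite_eq']
  split_ifs with hi
  · rfl
  · rw [Nat.choose_eq_zero_of_lt (by simpa using hi)]
    simp

omit [IsUltrametricDist K] in
lemma bin_nat (a j : ℕ) : bin (a : K) j = (a.choose j : K) := by
  rw [M3Bin_eq_choose, Ring.choose_natCast]

omit [IsUltrametricDist K] in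
/-- Vandermonde's identity. -/
lemma bin_add (s t : K) (j : ℕ) :
    bin (s + t) j = ∑ i ∈ range (j + 1), bin s i * bin t (j - i) := by
  simp only [M3Bin_eq_choose]
  rw [Ring.add_choose_eq j (Commute.all s t), Nat.sum_antidiagonal_eq_sum_range_succ_mk]

omit [IsUltrametricDist K] in
lemma bin_int (s : ℤ) (j : ℕ) : ∃ z : ℤ, bin (s : K) j = (z : K) := by
  refine ⟨Ring.choose s j, ?_⟩
  rw [M3Bin_eq_choose]
  exact (Ring.map_choose (Int.castRingHom K) s j).symm

lemma bin_int_norm (s : ℤ) (j : ℕ) : ‖bin (s : K) j‖ ≤ 1 := by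
  obtain ⟨z, hz⟩ := bin_int (K := K) s j
  rw [hz]
  exact norm_int_le z

lemma bin_lip (hK : ‖(p : K)‖ = (p : ℝ)⁻¹) (s s' : ℤ) (j : ℕ) :
    ‖bin (s : K) j - bin (s' : K) j‖ ≤ ‖(s : K) - (s' : K)‖ * (p : ℝ) ^ Nat.log p j := by
  have e : (s : K) = ((s - s' : ℤ) : K) + (s' : K) := by push_cast; ring
  have e0 : bin ((s - s' : ℤ) : K) 0 = 1 := by simp [bin]
  have e1 : bin (s : K) j - bin (s' : K) j =
      ∑ i ∈ range j, bin ((s - s' : ℤ) : K) (i + 1) * bin (s' : K) (j - (i + 1)) := by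
    conv_lhs => rw [e]
    rw [bin_add, sum_range_succ', e0]
    simp
  rw [e1]
  refine norm_sum_le' _ _ (by positivity) fun i hi => ?_
  rw [M3Bin_succ]
  have h1 : ‖((s - s' : ℤ) : K)‖ ≤ ‖(s : K) - (s' : K)‖ := by push_cast; exact le_rfl
  have h2 : ‖((i + 1 : ℕ) : K)⁻¹‖ ≤ (p : ℝ) ^ Nat.log p j :=
    (norm_inv_nat_le hK (i + 1)).trans
      (pow_le_pow_right₀ one_le_p (Nat.log_mono_right (mem_range.mp hi)))
  have h3 : ‖bin (((s - s' : ℤ) : K) - 1) i‖ ≤ 1 := by
    have := bin_int_norm (K := K) (s - s' - 1) i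
    push_cast at this ⊢
    exact this
  have := norm_mul_le' (norm_mul_le' (norm_mul_le' h1 h2) h3) (bin_int_norm (K := K) s' (j - (i + 1)))
  simpa using this

lemma wt_int (h : ℕ) {u : ℤ → K} (hu : ∀ x : ℤ, ¬ (p : ℤ) ∣ x → ‖u x‖ ≤ 1) (s : ℤ) :
    Wt p h u (s : K) := by
  refine ⟨hu, fun n j => ?_⟩
  have := bin_int_norm (K := K) (s - n) j
  push_cast at this
  exact this.trans (one_le_pow₀ one_le_p)

lemma wt_of_norm (hK : ‖(p : K)‖ = (p : ℝ)⁻¹) (h : ℕ) {u : ℤ → K}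
    (hu : ∀ x : ℤ, ¬ (p : ℤ) ∣ x → ‖u x‖ ≤ 1) {s : K} (hs : ‖s‖ ≤ (p : ℝ) ^ h) :
    Wt p (h + 1) u s := by
  refine ⟨hu, fun n j => ?_⟩
  have h1 : (1 : ℝ) ≤ (p : ℝ) ^ h := one_le_pow₀ one_le_p
  have h2 : ‖∏ i ∈ range j, (s - n - i)‖ ≤ ((p : ℝ) ^ h) ^ j := by
    rw [norm_prod]
    refine (prod_le_prod (fun i _ => norm_nonneg _) fun i _ =>
      norm_sub_le' (norm_sub_le' hs ((norm_nat_le n).trans h1)) ((norm_nat_le i).trans h1)).trans
      (le_of_eq ?_)
    rw [prod_const, card_range]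
  unfold bin
  rw [div_eq_mul_inv]
  refine (norm_mul_le' h2 (norm_inv_factorial_le hK j)).trans (le_of_eq ?_)
  ring

omit [IsUltrametricDist K] in
/-- In a classical weight the universal entries are the entries of `actMat`. -/
lemma ent_eq_actMat (κ : ℕ) (g : Mat) (hd : g 1 1 ≠ 0) (m n : Fin (κ + 1)) :
    (g 1 1 : K) ^ κ * ent (κ : K) g m n = (actMat κ g m n : K) := by
  have hd' : (g 1 1 : K) ≠ 0 := by exact_mod_cast hd
  have hn : (n : ℕ) ≤ κ := Nat.lt_succ_iff.mp n.2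
  unfold ent actMat
  rw [mul_comm ((Polynomial.C (g 0 0) * Polynomial.X + Polynomial.C (g 0 1)) ^ (n : ℕ)),
    Polynomial.coeff_mul, Nat.sum_antidiagonal_eq_sum_range_succ_mk]
  push_cast
  rw [sum_div, mul_sum]
  refine sum_congr rfl fun j _ => ?_
  rw [M3Bin_coeff, M3Bin_coeff, ← Nat.cast_sub hn, bin_nat]
  push_cast
  by_cases hj : j ≤ κ - n
  · have e : (g 1 1 : K) ^ κ = (g 1 1 : K) ^ (κ - n - j) * (g 1 1 : K) ^ j * (g 1 1 : K) ^ (n : ℕ) := by
      rw [← pow_add, ← pow_add]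
      congr 1
      omega
    rw [e, div_pow]
    field_simp
  · rw [Nat.choose_eq_zero_of_lt (not_le.mp hj)]
    simp

omit [IsUltrametricDist K] in
lemma ent_eq_zero {κ : ℕ} (g : Mat) {m n : ℕ} (hn : n ≤ κ) (hm : κ < m) :
    ent (κ : K) g m n = 0 := by
  unfold ent
  rw [sum_eq_zero, zero_div]
  intro j _
  rw [← Nat.cast_sub hn, bin_nat]
  by_cases hj : j ≤ κ - n
  · rw [Nat.choose_eq_zero_of_lt (show n < m - j by omega)]
    simp
  · rw [Nat.choose_eq_zero_of_lt (not_le.mp hj)]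
    simp

end Pool.Agent.Lib.MP_88d29b_nt.G.M3
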