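import Pool.Agent.Lib.MP_88d29b_nt.M3Bin

/-!
The weights of the family.
-/

set_option autoImplicit false

noncomputable section

namespace Pool.Agent.Lib.MP_88d29b_nt.G.M3

open Finset CongruenceSubgroup
open scoped MatrixGroups

variable {K : Type} [NormedField K] [IsUltrametricDist K] [CharZero K] {p : ℕ} [hp : Fact p.Prime]

lemma even_ph : Even (ph p) := by
  unfold ph
  split_ifs with h
  · exact even_two
  · exact hp.out.even_sub_one h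

lemma ph_pos : 0 < ph p := by
  have := hp.out.two_le
  unfold ph
  split_ifs <;> omega

omit hp in
lemma one_le_hh : 1 ≤ hh p := by
  unfold hh
  split_ifs <;> omega

omit hp in
lemma one_le_bb : 1 ≤ bb p := by
  unfold bb
  split_ifs <;> omega

omit hp in
lemma hh_le_bb : hh p ≤ bb p := by
  unfold hh bb
  split_ifs <;> omega

lemma dvd_pow_ph_sub_one {x : ℤ} (hx : ¬ (p : ℤ) ∣ x) : (p : ℤ) ^ bb p ∣ x ^ ph p - 1 := by
  unfold bb ph
  split_ifs with h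
  · subst h
    exact Int.eight_dvd_sq_sub_one_of_odd (Int.not_even_iff_odd.1 fun h => hx h.two_dvd)
  · rw [pow_one]
    have hq : Prime (p : ℤ) := Nat.prime_iff_prime_int.mp hp.out
    exact Int.prime_dvd_pow_sub_one hp.out (hq.irreducible.coprime_iff_not_dvd.mpr hx).symm

lemma m3chr_pow (z : ℤ) (t : ℕ) : ∃ w : ℤ, (1 + z) ^ t = 1 + t * z + z ^ 2 * w := by
  obtain ⟨w, hw⟩ := sq_dvd_add_pow_sub_sub z 1 t
  refine ⟨w, ?_⟩
  rw [one_pow, one_pow] at hw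
  linear_combination hw

lemma m3chr_gg (m : ℕ) : ∃ y : ℤ, gg p ^ p ^ m = 1 + (p : ℤ) ^ (m + bb p) * (1 + p * y) := by
  have h1 : bb p + 2 ≤ bb p * p := by
    have := hp.out.two_le
    unfold bb
    split_ifs <;> omega
  obtain ⟨y, hy⟩ := ZMod.exists_one_add_mul_pow_prime_pow_eq (u := (p : ℤ) ^ bb p) (v := p) hp.out
    (dvd_pow_self _ (Nat.one_le_iff_ne_zero.1 one_le_bb)) (by
      rw [← pow_mul, ← pow_succ', ← pow_succ]
      exact pow_dvd_pow _ h1) 1 m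
  exact ⟨y, by rw [pow_add, ← hy, gg, mul_one]⟩

omit hp in
lemma m3chr_dvd_bb : (p : ℤ) ∣ (p : ℤ) ^ bb p := dvd_pow_self _ (Nat.one_le_iff_ne_zero.1 one_le_bb)

lemma m3chr_log {y : ℤ} (hy : (p : ℤ) ^ bb p ∣ y - 1) (R : ℕ) :
    ∃ l : ℕ, (p : ℤ) ^ (R + bb p) ∣ gg p ^ l - y := by
  induction R with
  | zero => exact ⟨0, by simpa using dvd_sub_comm.1 hy⟩
  | succ R ih =>
    obtain ⟨l, m, hm⟩ := ih
    obtain ⟨v, hv⟩ := m3chr_gg (p := p) R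
    have hp0 : (p : ℤ) ≠ 0 := Nat.cast_ne_zero.2 hp.out.ne_zero
    obtain ⟨t, ht⟩ : ∃ t : ℕ, (t : ℤ) = (-m) % p :=
      ⟨_, Int.toNat_of_nonneg (Int.emod_nonneg _ hp0)⟩
    obtain ⟨w, hw⟩ := m3chr_pow ((p : ℤ) ^ (R + bb p) * (1 + p * v)) t
    obtain ⟨u, hu⟩ : (p : ℤ) ∣ gg p ^ l - 1 := by
      have := sub_dvd_pow_sub_pow (gg p) 1 l
      rw [one_pow, gg, add_sub_cancel_left] at this
      exact m3chr_dvd_bb.trans this
    obtain ⟨e, he⟩ : (p : ℤ) ∣ (p : ℤ) ^ (R + bb p) := m3chr_dvd_bb.trans (pow_dvd_pow _ (by omega))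
    have h3 : (t : ℤ) = -m - p * (-m / p) := by rw [ht, Int.emod_def]
    refine ⟨l + p ^ R * t, ?_⟩
    rw [pow_add (gg p), pow_mul, hv, hw, show R + 1 + bb p = R + bb p + 1 by ring, pow_succ]
    generalize (p : ℤ) ^ (R + bb p) = Q at *
    generalize gg p ^ l = G at *
    refine ⟨-(-m / p) + t * (u + v + p * u * v) + G * e * (1 + p * v) ^ 2 * w, ?_⟩
    linear_combination hm + Q * h3 + Q * t * (1 + p * v) * hu + G * Q * (1 + p * v) ^ 2 * w * he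

/-- Discrete logarithms exist. -/
lemma lgn_spec (R : ℕ) {x : ℤ} (hx : ¬ (p : ℤ) ∣ x) :
    (p : ℤ) ^ R ∣ gg p ^ lgn p R x - x ^ ph p := by
  have h : ∃ l : ℕ, (p : ℤ) ^ R ∣ gg p ^ l - x ^ ph p := by
    obtain ⟨l, hl⟩ := m3chr_log (dvd_pow_ph_sub_one hx) R
    exact ⟨l, (pow_dvd_pow _ (Nat.le_add_right _ _)).trans hl⟩
  rw [lgn, dif_pos h]
  exact h.choose_spec

lemma m3chr_lip {κ κ' r : ℕ} (hle : κ' ≤ κ) (h : ((ph p * p ^ r : ℕ) : ℤ) ∣ (κ : ℤ) - κ') {x : ℤ}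
    (hx : ¬ (p : ℤ) ∣ x) : (p : ℤ) ^ r ∣ x ^ κ - x ^ κ' := by
  obtain ⟨k, rfl⟩ := Nat.exists_eq_add_of_le hle
  rw [Nat.cast_add, add_sub_cancel_left, Int.natCast_dvd_natCast] at h
  obtain ⟨t, rfl⟩ := h
  have h1 := dvd_sub_pow_of_dvd_sub (m3chr_dvd_bb.trans (dvd_pow_ph_sub_one hx)) r
  have h2 := sub_dvd_pow_sub_pow ((x ^ ph p) ^ p ^ r) (1 ^ p ^ r) t
  have h3 := ((pow_dvd_pow (p : ℤ) (Nat.le_succ r)).trans h1).trans h2
  rw [one_pow, one_pow, ← pow_mul, ← pow_mul, ← mul_assoc] at h3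
  rw [pow_add, ← mul_sub_one]
  exact h3.mul_left _

omit [CharZero K] in
/-- Powers in congruent weights. -/
lemma pow_lip (hK : ‖(p : K)‖ = (p : ℝ)⁻¹) {κ κ' r : ℕ}
    (h : ((ph p * p ^ r : ℕ) : ℤ) ∣ (κ : ℤ) - κ') {x : ℤ} (hx : ¬ (p : ℤ) ∣ x) :
    ‖(x : K) ^ κ - (x : K) ^ κ'‖ ≤ (p : ℝ) ^ (-(r : ℤ)) := by
  have h1 : (p : ℤ) ^ r ∣ x ^ κ - x ^ κ' := by
    rcases le_total κ' κ with hle | hle
    · exact m3chr_lip hle h hx
    · exact dvd_sub_comm.1 (m3chr_lip hle (dvd_sub_comm.1 h) hx)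
  have := norm_int_of_dvd hK h1
  push_cast at this
  exact this

omit [CharZero K] in
/-- The exact valuation of `g ^ n - 1`. -/
lemma norm_gg_pow_sub_one (hK : ‖(p : K)‖ = (p : ℝ)⁻¹) (n : ℕ) :
    ‖(gg p : K) ^ n - 1‖ = (p : ℝ) ^ (-(bb p : ℤ)) * ‖(n : K)‖ := by
  rcases eq_or_ne n 0 with rfl | hn
  · simp
  obtain ⟨m, k, hk, rfl⟩ := Nat.exists_eq_pow_mul_and_not_dvd hn p hp.out.ne_one
  obtain ⟨y, hy⟩ := m3chr_gg (p := p) m
  obtain ⟨w, hw⟩ := m3chr_pow ((p : ℤ) ^ (m + bb p) * (1 + p * y)) k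
  have hk' : ¬ (p : ℤ) ∣ (k : ℤ) := fun h => hk (Int.natCast_dvd_natCast.1 h)
  have hq : Prime (p : ℤ) := Nat.prime_iff_prime_int.mp hp.out
  have h1 : ¬ (p : ℤ) ∣ 1 + p * y := fun h =>
    hq.not_dvd_one ((dvd_add_left (dvd_mul_right _ _)).1 h)
  have h2 : ¬ (p : ℤ) ∣ k + (p : ℤ) ^ (m + bb p) * (1 + p * y) * w := fun h =>
    hk' ((dvd_add_left (((m3chr_dvd_bb.trans (pow_dvd_pow _ (Nat.le_add_left _ _))).mul_right
      _).mul_right _)).1 h)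
  have e : gg p ^ (p ^ m * k) - 1 = (p : ℤ) ^ (m + bb p) * ((1 + p * y) *
      (k + (p : ℤ) ^ (m + bb p) * (1 + p * y) * w)) := by
    rw [pow_mul, hy, hw]
    ring
  have e2 : (gg p : K) ^ (p ^ m * k) - 1 = ((gg p ^ (p ^ m * k) - 1 : ℤ) : K) := by push_cast; rfl
  have h3 := norm_int_unit hK hk'
  rw [Int.cast_natCast] at h3
  rw [e2, e, Int.cast_mul, Int.cast_mul, norm_mul, norm_mul, norm_int_unit hK h1,
    norm_int_unit hK h2, Nat.cast_mul, norm_mul, h3, Int.cast_pow, Int.cast_natCast, Nat.cast_pow,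
    norm_pow, norm_pow, hK, zpow_neg, zpow_natCast, ← inv_pow]
  ring

omit [IsUltrametricDist K] [CharZero K] in
lemma m3chr_psi_eq (ζ : K) {x a : ℤ} (h : (p : ℤ) ^ (bb p + 1) ∣ x ^ ph p - 1 - p ^ bb p * a) :
    psi p ζ x = ζ ^ (a : ZMod p).val := by
  obtain ⟨t, ht⟩ := h
  have hp0 : (p : ℤ) ^ bb p ≠ 0 := pow_ne_zero _ (Nat.cast_ne_zero.2 hp.out.ne_zero)
  have e : (x ^ ph p - 1) / (p : ℤ) ^ bb p = a + p * t :=
    Int.ediv_eq_of_eq_mul_right hp0 (by linear_combination ht)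
  rw [psi, e]
  simp

lemma m3chr_congr {x y : ℤ} (hx : ¬ (p : ℤ) ∣ x) (h : (p : ℤ) ^ (hh p + 1) ∣ x - y) :
    (p : ℤ) ^ (bb p + 1) ∣ x ^ ph p - y ^ ph p := by
  by_cases h2 : p = 2
  · subst h2
    simp only [hh, bb, ph, if_true] at h ⊢
    obtain ⟨t, ht⟩ := h
    refine ⟨t * (x - 4 * t), ?_⟩
    have : y = x - 8 * t := by push_cast at ht; linarith
    rw [this]
    push_cast
    ring
  · simp only [hh, bb, if_neg h2] at h ⊢
    exact h.trans (sub_dvd_pow_sub_pow _ _ _)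

omit [CharZero K] in
lemma isChar_psi {ζ : K} (hζ : ζ ^ p = 1) : IsChar p (hh p) (psi p ζ) := by
  refine ⟨?_, ?_, fun x y hx hy => ?_, fun x y hx h => ?_, fun x _ => ?_⟩
  · simp [psi]
  · simp [psi, even_ph.neg_one_pow]
  · obtain ⟨a, ha⟩ := dvd_pow_ph_sub_one hx
    obtain ⟨b, hb⟩ := dvd_pow_ph_sub_one hy
    obtain ⟨e, he⟩ := m3chr_dvd_bb (p := p)
    rw [m3chr_psi_eq ζ (x := x) (a := a) (by rw [ha]; simp),
      m3chr_psi_eq ζ (x := y) (a := b) (by rw [hb]; simp),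
      m3chr_psi_eq ζ (x := x * y) (a := a + b) ⟨e * a * b, ?_⟩, Int.cast_add, ZMod.val_add,
      ← pow_eq_pow_mod _ hζ, pow_add]
    rw [mul_pow, pow_succ]
    linear_combination y ^ ph p * ha + (1 + p ^ bb p * a) * hb + p ^ bb p * a * b * he
  · obtain ⟨a, ha⟩ := dvd_pow_ph_sub_one hx
    rw [m3chr_psi_eq ζ (x := x) (a := a) (by rw [ha]; simp), m3chr_psi_eq ζ (x := y) (a := a)]
    rw [← ha, sub_sub_sub_cancel_right]
    exact dvd_sub_comm.1 (m3chr_congr hx h)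
  · have h1 : ‖ζ‖ = 1 := by
      have := congrArg norm hζ
      rw [norm_pow, norm_one] at this
      exact (pow_eq_one_iff_of_nonneg (norm_nonneg _) hp.out.ne_zero).1 this
    rw [psi, norm_pow, h1, one_pow]

lemma m3chr_prim (z : ℤ) :
    (p : ℤ) ^ (bb p + 1) ∣ (1 + (p : ℤ) ^ hh p * z) ^ ph p - 1 - p ^ bb p * (-z) := by
  by_cases h2 : p = 2
  · subst h2
    simp only [hh, bb, ph, if_true]
    refine ⟨z + z ^ 2, ?_⟩
    push_cast
    ring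
  · simp only [hh, bb, ph, if_neg h2, pow_one]
    obtain ⟨w, hw⟩ := m3chr_pow (p * z) (p - 1)
    rw [Nat.cast_sub hp.out.one_le] at hw
    refine ⟨z + z ^ 2 * w, ?_⟩
    rw [hw]
    push_cast
    ring

omit [IsUltrametricDist K] [CharZero K] in
lemma prim_psi {ζ : K} (hζ : ζ ^ p = 1) (h1 : ζ ≠ 1) : Prim p (hh p) (psi p ζ) := by
  intro a ha
  have e : ∀ b : Fin p, psi p ζ (1 + (p : ℤ) ^ hh p * a * (b : ℕ)) =
      (ζ ^ ((-a : ℤ) : ZMod p).val) ^ (b : ℕ) := fun b => by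
    rw [mul_assoc, m3chr_psi_eq ζ (m3chr_prim _), ← neg_mul, Int.cast_mul, ZMod.val_mul,
      ← pow_eq_pow_mod _ hζ, Int.cast_natCast, ZMod.val_cast_of_lt b.2, pow_mul]
  simp only [e]
  rw [Fin.sum_univ_eq_sum_range (fun b => (ζ ^ ((-a : ℤ) : ZMod p).val) ^ b) p]
  have h2 : ζ ^ ((-a : ℤ) : ZMod p).val ≠ 1 := by
    intro h
    have h3 := orderOf_dvd_of_pow_eq_one h
    rw [orderOf_eq_prime hζ h1] at h3
    have h4 := Nat.eq_zero_of_dvd_of_lt h3 (ZMod.val_lt _)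
    rw [ZMod.val_eq_zero, ZMod.intCast_zmod_eq_zero_iff_dvd, dvd_neg] at h4
    exact ha h4
  rw [geom_sum_eq h2, ← pow_mul, mul_comm, pow_mul, hζ, one_pow, sub_self, zero_div]

omit [IsUltrametricDist K] [CharZero K] in
lemma psi_mul_inv {ζ : K} (hζ : ζ ^ p = 1) (x : ℤ) : psi p ζ x * psi p ζ⁻¹ x = 1 := by
  have h0 : ζ ≠ 0 := by
    rintro rfl
    rw [zero_pow hp.out.ne_zero] at hζ
    exact zero_ne_one hζ
  rw [psi, psi, ← mul_pow, mul_inv_cancel₀ h0, one_pow]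

omit [IsUltrametricDist K] [CharZero K] hp in
lemma psi_one : psi p (1 : K) = fun _ => 1 := by
  funext x
  rw [psi, one_pow]

omit [IsUltrametricDist K] [CharZero K] hp in
lemma isChar_one (h : ℕ) : IsChar p h (fun _ => (1 : K)) :=
  ⟨rfl, rfl, fun _ _ _ _ => (one_mul _).symm, fun _ _ _ _ => rfl, fun _ _ => norm_one.le⟩

omit [IsUltrametricDist K] in
lemma exists_zeta [IsAlgClosed K] : ∃ ζ : K, ζ ^ p = 1 ∧ ζ ≠ 1 := by
  have : NeZero (p : K) := ⟨Nat.cast_ne_zero.2 hp.out.ne_zero⟩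
  obtain ⟨ζ, h⟩ := HasEnoughRootsOfUnity.exists_primitiveRoot K p
  exact ⟨ζ, h.pow_eq_one, h.ne_one hp.out.one_lt⟩

end Pool.Agent.Lib.MP_88d29b_nt.G.M3
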