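import Pool.Agent.Lib.MP_88d29b_nt.M3Level
import Pool.Agent.Lib.MP_88d29b_nt.M3Bd
import Pool.Agent.Lib.MP_88d29b_nt.M3Chr

/-!
Comparison of the cut matrices with the classical matrices.
-/

set_option autoImplicit false

noncomputable section

namespace Pool.Agent.Lib.MP_88d29b_nt.G.M3

open Finset CongruenceSubgroup
open scoped MatrixGroups

section General

variable {K : Type} [NormedField K] [IsUltrametricDist K] [CharZero K] {p : ℕ} [hp : Fact p.Prime]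
  {M : ℕ} {ι : Type} [Fintype ι] [DecidableEq ι] (fb : FB (M * p) ι)

omit [IsUltrametricDist K] [CharZero K] in
lemma m3cmp_le (m : ℕ) : (p : ℝ) ^ (1 - fl p m) ≤ p := by
  refine (zpow_le (b := 1) ?_).trans (zpow_one _).le
  have := fl_nonneg (p := p) m
  omega

omit [IsUltrametricDist K] [CharZero K] in
lemma m3cmp_log {ε a : ℝ} (hε : 0 ≤ ε) (ha : 0 ≤ a) {L : ℕ} (x : Fin (L + 1)) :
    ε * (p : ℝ) ^ Nat.log p (x + 1) * a ≤ ε * (p : ℝ) ^ Nat.log p (L + 1) * a :=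
  mul_le_mul_of_nonneg_right (mul_le_mul_of_nonneg_left
    (pow_le_pow_right₀ one_le_p (Nat.log_mono_right (by omega))) hε) ha

omit [DecidableEq ι] in
lemma m3cmp_chM (hK : ‖(p : K)‖ = (p : ℝ)⁻¹) {q h : ℕ} (e : q = p ^ h) (L : ℕ) {u : ℤ → K}
    {s : K} (hw : Wt p h u s) (x y : Option ι × Ix q L) :
    ‖chM (actM q L u s) (foxU p fb) x y‖ ≤ (p : ℝ) ^ (-((x.2.2 : ℕ) : ℤ)) :=
  lin_norm (zpow_pos' _).le fun _ hg => actM_norm_U hK e L hw (foxU_UT fb _ _ hg) _ _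

omit [DecidableEq ι] in
lemma m3cmp_chZ (hK : ‖(p : K)‖ = (p : ℝ)⁻¹) (L κ : ℕ) (x y : Option ι × Fin (L + 1)) :
    ‖chM (actZ K L κ) (foxU p fb) x y‖ ≤ (p : ℝ) ^ (-((x.2 : ℕ) : ℤ)) :=
  lin_norm (zpow_pos' _).le fun _ hg => actZ_norm_U hK L κ (foxU_UT fb _ _ hg) _ _

omit [IsUltrametricDist K] in
lemma m3cmp_PCl (q : ℕ) [NeZero q] (κ : ℕ) (ψ : ℤ → K) : PCl p fb q κ ψ =
    PP (actM q κ (fun x => ψ x * (x : K) ^ κ) (κ : K)) fb.mat (sdq K q κ)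
      (chM (actM q κ (fun x => ψ x * (x : K) ^ κ) (κ : K)) (foxU p fb)) := by
  rw [PCl, chM_congr fun k j g hg => actM_eq_actCl q κ ψ (foxU_UT fb k j hg).1]
  exact PP_congr (fun j => (actM_eq_actCl q κ ψ (mat_mem fb j)).symm) _

omit hp in
lemma m3cmp_wt (h κ : ℕ) {ψ : ℤ → K} (hψ : ∀ x : ℤ, ¬ (p : ℤ) ∣ x → ‖ψ x‖ ≤ 1) [Fact p.Prime] :
    Wt p h (fun x => ψ x * (x : K) ^ κ) (κ : K) := by
  have := wt_int (p := p) h (u := fun x => ψ x * (x : K) ^ κ) (fun x hx => by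
    have h1 := norm_mul_le' (hψ x hx)
      ((norm_pow_le (x : K) κ).trans (pow_le_one₀ (norm_nonneg _) (norm_int_le x)))
    rwa [one_mul] at h1) (κ : ℤ)
  rwa [Int.cast_natCast] at this

omit [IsUltrametricDist K] [CharZero K] [Fintype ι] [DecidableEq ι] hp in
lemma m3cmp_sub {I I' : Type} (e : I' → I) {σ : Mat → Matrix I I K} {σ' : Mat → Matrix I' I' K}
    (h : ∀ g x y, σ g (e x) (e y) = σ' g x y) (F : Option ι → Option ι → (Mat →₀ ℤ)) :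
    chM σ' F = (chM σ F).submatrix (Prod.map id e) (Prod.map id e) := by
  ext x y
  simp only [chM, Matrix.submatrix_apply, Prod.map, id, lin_apply, h]

lemma Pq_row (hK : ‖(p : K)‖ = (p : ℝ)⁻¹) {q h : ℕ} [NeZero q] (e : q = p ^ h) (L : ℕ) {u : ℤ → K}
    {s : K} (hw : Wt p h u s) (x y : ι × Ix q L) :
    ‖Pq p fb q L u s x y‖ ≤ (p : ℝ) ^ (1 - fl p x.2.2) := by
  have := PP_row (ρ := actM q L u s) (γ := fb.mat) (sbd_sdq hK q L)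
    (fun j x y => actM_norm hK e L hw (mat_mem fb j) x y) zero_le_one
    (fun x y => by rw [one_mul]; exact m3cmp_chM fb hK e L hw x y) (some x) (some y)
  rw [one_mul] at this
  exact this

lemma cn_Pq_norm (hK : ‖(p : K)‖ = (p : ℝ)⁻¹) {q h : ℕ} [NeZero q] (e : q = p ^ h) (L : ℕ)
    {u : ℤ → K} {s : K} (hw : Wt p h u s) (n : ℕ) : ‖cn (Pq p fb q L u s) n‖ ≤ (p : ℝ) ^ n := by
  exact cn_norm_le_pow _ n p_pos.le fun x y => (Pq_row fb hK e L hw x y).trans (m3cmp_le _)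

lemma cn_Pq_lip (hK : ‖(p : K)‖ = (p : ℝ)⁻¹) {q h : ℕ} [NeZero q] (e : q = p ^ h) (L : ℕ)
    {u u' : ℤ → K} {s s' : ℤ} {ε : ℝ} (hε : 0 ≤ ε)
    (hu : ∀ x : ℤ, ¬ (p : ℤ) ∣ x → ‖u x‖ ≤ 1) (hu' : ∀ x : ℤ, ¬ (p : ℤ) ∣ x → ‖u' x‖ ≤ 1)
    (huu : ∀ x : ℤ, ¬ (p : ℤ) ∣ x → ‖u x - u' x‖ ≤ ε) (hs : ‖(s : K) - (s' : K)‖ ≤ ε) (n : ℕ) :
    ‖cn (Pq p fb q L u (s : K)) n - cn (Pq p fb q L u' (s' : K)) n‖ ≤
      ε * (p : ℝ) ^ (Nat.log p (L + 1) + 1 + n) := by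
  have hw := wt_int h hu s
  have hw' := wt_int h hu' s'
  have h0 : 0 ≤ ε * (p : ℝ) ^ Nat.log p (L + 1) := mul_nonneg hε (pow_nonneg p_pos.le _)
  have h1 := cn_sub (Pq p fb q L u (s : K)) (Pq p fb q L u' (s' : K)) n one_le_p
    (mul_nonneg h0 p_pos.le) (fun x y => (Pq_row fb hK e L hw x y).trans (m3cmp_le _))
    (fun x y => (Pq_row fb hK e L hw' x y).trans (m3cmp_le _)) fun x y =>
      (PP_lip (ρ := actM q L u s) (ρ' := actM q L u' s') (γ := fb.mat) (sbd_sdq hK q L) h0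
        (fun j x y => actM_norm hK e L hw (mat_mem fb j) x y)
        (fun j x y => (actM_lip hK q L hu huu hs (mat_mem fb j) x y).trans
          (m3cmp_log hε (zpow_pos' _).le _))
        (m3cmp_chM fb hK e L hw') (fun x y => lin_sub_norm (mul_nonneg h0 (zpow_pos' _).le)
          fun _ hg => (actM_lip_U hK q L hu huu hs (foxU_UT fb _ _ hg) _ _).trans
            (m3cmp_log hε (zpow_pos' _).le _)) (some x) (some y)).trans
        (mul_le_mul_of_nonneg_left (m3cmp_le _) h0)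
  refine h1.trans (le_of_eq ?_)
  ring

lemma PCl_row (hK : ‖(p : K)‖ = (p : ℝ)⁻¹) {q h : ℕ} [NeZero q] (e : q = p ^ h) (κ : ℕ) {ψ : ℤ → K}
    (hψ : ∀ x : ℤ, ¬ (p : ℤ) ∣ x → ‖ψ x‖ ≤ 1) (x y : Option (ι × Ix q κ)) :
    ‖PCl p fb q κ ψ x y‖ ≤ (p : ℝ) ^ (1 - fl p (degO κ (fun z : Ix q κ => (z.2 : ℕ)) x)) := by
  have hw := m3cmp_wt (p := p) h κ hψ
  have := PP_row (ρ := actM q κ (fun x => ψ x * (x : K) ^ κ) (κ : K)) (γ := fb.mat)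
    (sbd_sdq hK q κ) (fun j x y => actM_norm hK e κ hw (mat_mem fb j) x y) zero_le_one
    (fun x y => by rw [one_mul]; exact m3cmp_chM fb hK e κ hw x y) x y
  rw [one_mul] at this
  rw [m3cmp_PCl]
  exact this

lemma cn_PCl_Pq (hK : ‖(p : K)‖ = (p : ℝ)⁻¹) {q h : ℕ} [NeZero q] (e : q = p ^ h) {L κ : ℕ}
    (hL : L ≤ κ) {ψ : ℤ → K} (hψ : ∀ x : ℤ, ¬ (p : ℤ) ∣ x → ‖ψ x‖ ≤ 1) (n : ℕ) :
    ‖cn (PCl p fb q κ ψ) n - cn (Pq p fb q L (fun x => ψ x * (x : K) ^ κ) (κ : K)) n‖ ≤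
      (p : ℝ) ^ ((n : ℤ) + 1 - fl p L) := by
  have hw := m3cmp_wt (p := p) h κ hψ
  rw [m3cmp_PCl, Pq, m3cmp_sub _ (actM_up q (Nat.succ_le_succ hL) _ _)]
  exact cn_PP_trunc (cut_sdq q (Nat.succ_le_succ hL)) (sbd_sdq hK q κ) (sbd_sdq hK q L) hL
    (fun _ _ _ => (actM_up q _ _ _ _ _ _).symm)
    (fun j x y => actM_norm hK e κ hw (mat_mem fb j) x y) (m3cmp_chM fb hK e κ hw) n

omit [IsUltrametricDist K] hp in
lemma isPoly_cn_Pq (q : ℕ) [NeZero q] (L : ℕ) {u : K → ℤ → K} {s : K → K}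
    (hu : ∀ x, IsPoly fun w => u w x) (hs : IsPoly s) (n : ℕ) :
    IsPoly fun w => cn (Pq p fb q L (u w) (s w)) n := by
  exact isPoly_cn (fun x y => isPoly_Ptr (σ := fun w => actM q L (u w) (s w))
    (fun g x y => isPoly_actM q L hu hs g x y) _ x y) n

end General

variable (p : ℕ) [Fact p.Prime] {M : ℕ} {ι : Type} [Fintype ι] [DecidableEq ι]

lemma m3cmp_PV (fb : FB (M * p) ι) (κ : ℕ) : PV p fb κ (uRep p M) =
    PP (actZ (Kp p) κ κ) fb.mat (sd0 (Kp p) κ) (chM (actZ (Kp p) κ κ) (foxU p fb)) := by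
  rw [chM_congr fun k j g hg => actZ_eq_actV κ (foxU_UT fb k j hg).1]
  exact PP_congr (fun j => (actZ_eq_actV κ (mat_mem fb j)).symm) _

/-- Row decay of the level one matrix. -/
theorem P0_row (fb : FB (M * p) ι) (L κ : ℕ) (x y : ι × Fin (L + 1)) :
    ‖P0 p fb L κ x y‖ ≤ (p : ℝ) ^ (1 - fl p x.2) := by
  have hK := norm_p_Kp p
  have := PP_row (ρ := actZ (Kp p) L κ) (γ := fb.mat) (sbd_sd0 hK L)
    (fun j x y => actZ_norm hK L κ (mat_mem fb j) x y) zero_le_one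
    (fun x y => by rw [one_mul]; exact m3cmp_chZ fb hK L κ x y) (some x) (some y)
  rw [one_mul] at this
  exact this

/-- Dependence of the level one matrix on the weight. -/
theorem P0_lip (fb : FB (M * p) ι) (L κ κ' r : ℕ)
    (h : ((ph p * p ^ r : ℕ) : ℤ) ∣ (κ : ℤ) - κ') (x y : ι × Fin (L + 1)) :
    ‖P0 p fb L κ x y - P0 p fb L κ' x y‖ ≤
      (p : ℝ) ^ (1 + 2 * (Nat.log p (L + 1) : ℤ) - r - (x.2 : ℕ)) := by
  have hK := norm_p_Kp p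
  have hε : (0 : ℝ) ≤ (p : ℝ) ^ (-(r : ℤ)) := (zpow_pos' _).le
  have h0 : 0 ≤ (p : ℝ) ^ (-(r : ℤ)) * (p : ℝ) ^ Nat.log p (L + 1) :=
    mul_nonneg hε (pow_nonneg p_pos.le _)
  have hu : ∀ x : ℤ, ¬ (p : ℤ) ∣ x → ‖(x : Kp p) ^ κ - (x : Kp p) ^ κ'‖ ≤ (p : ℝ) ^ (-(r : ℤ)) :=
    fun x hx => pow_lip hK h hx
  have hs : ‖(κ : Kp p) - (κ' : Kp p)‖ ≤ (p : ℝ) ^ (-(r : ℤ)) := by
    have := norm_int_of_dvd hK (n := (κ : ℤ) - κ') (r := r)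
      (Dvd.dvd.trans (by push_cast; exact dvd_mul_left _ _) h)
    rwa [Int.cast_sub, Int.cast_natCast, Int.cast_natCast] at this
  refine (PP_lip (ρ := actZ (Kp p) L κ) (ρ' := actZ (Kp p) L κ') (γ := fb.mat) (sbd_sd0 hK L) h0
    (fun j x y => actZ_norm hK L κ (mat_mem fb j) x y)
    (fun j x y => (actZ_lip hK L hu hs (mat_mem fb j) x y).trans (m3cmp_log hε (zpow_pos' _).le _))
    (m3cmp_chZ fb hK L κ') (fun x y => lin_sub_norm (mul_nonneg h0 (zpow_pos' _).le)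
      fun _ hg => (actZ_lip_U hK L hu hs (foxU_UT fb _ _ hg) _ _).trans
        (m3cmp_log hε (zpow_pos' _).le _)) (some x) (some y)).trans ?_
  rw [← zpow_natCast, zpow_mul_zpow, zpow_mul_zpow]
  refine zpow_le ?_
  have h1 : Nat.log p (x.2 + 1) ≤ Nat.log p (L + 1) := Nat.log_mono_right (by omega)
  simp only [degO, fl]
  omega

lemma cn_P0_lip (fb : FB (M * p) ι) (L κ κ' r : ℕ)
    (h : ((ph p * p ^ r : ℕ) : ℤ) ∣ (κ : ℤ) - κ') (n : ℕ) :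
    ‖cn (P0 p fb L κ) n - cn (P0 p fb L κ') n‖ ≤
      (p : ℝ) ^ (1 + 2 * (Nat.log p (L + 1) : ℤ) - r + n) := by
  have h1 := cn_sub (P0 p fb L κ) (P0 p fb L κ') n one_le_p
    (zpow_pos' (p := p) (1 + 2 * (Nat.log p (L + 1) : ℤ) - r)).le
    (fun x y => (P0_row p fb L κ x y).trans (m3cmp_le _))
    (fun x y => (P0_row p fb L κ' x y).trans (m3cmp_le _))
    fun x y => (P0_lip p fb L κ κ' r h x y).trans (zpow_le (by omega))
  rwa [← zpow_natCast, zpow_mul_zpow] at h1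

lemma cn_PV_P0 (fb : FB (M * p) ι) {L κ : ℕ} (hL : L ≤ κ) (n : ℕ) :
    ‖cn (PV p fb κ (uRep p M)) n - cn (P0 p fb L κ) n‖ ≤ (p : ℝ) ^ ((n : ℤ) + 1 - fl p L) := by
  have hK := norm_p_Kp p
  rw [m3cmp_PV, P0, m3cmp_sub _ (actZ_up (Nat.succ_le_succ hL) κ)]
  exact cn_PP_trunc (cut_sd0 (Nat.succ_le_succ hL)) (sbd_sd0 hK κ) (sbd_sd0 hK L) hL
    (fun _ _ _ => (actZ_up _ _ _ _ _).symm)
    (fun j x y => actZ_norm hK κ κ (mat_mem fb j) x y) (m3cmp_chZ fb hK κ κ) n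

/-- The classical matrix of `U` against the cut matrix. -/
theorem PV_P0 (fb : FB (M * p) ι) {κ L : ℕ} (h : κ + 1 ≤ L + 1) (x y : ι × Fin (κ + 1)) :
    ‖PV p fb κ (uRep p M) (some x) (some y) -
      P0 p fb L κ (x.1, Fin.castLE h x.2) (y.1, Fin.castLE h y.2)‖ ≤ (p : ℝ) ^ (-fl p κ) := by
  have hK := norm_p_Kp p
  rw [m3cmp_PV, norm_sub_rev, P0, m3cmp_sub _ (actZ_up h κ)]
  exact Ptr_trunc (ρ := actZ (Kp p) L κ) (ρ' := actZ (Kp p) κ κ) (γ := fb.mat)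
    (cut_sd0 h) (sbd_sd0 hK L) (sbd_sd0 hK κ) (fun _ _ _ => (actZ_up _ _ _ _ _).symm)
    (fun j x y => (actZ_norm hK L κ (mat_mem fb j) x y).trans
      ((zpow_le (b := 0) (by omega)).trans (zpow_zero _).le)) (m3cmp_chZ fb hK L κ) x y

end Pool.Agent.Lib.MP_88d29b_nt.G.M3
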