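import Pool.Agent.Lib.MP_88d29b_nt.M3Norm

/-!
Coefficients of the reversed characteristic polynomial.
-/

set_option autoImplicit false

noncomputable section

namespace Pool.Agent.Lib.MP_88d29b_nt.G.M3

open Finset CongruenceSubgroup
open scoped MatrixGroups

variable {K : Type} [NormedField K] [IsUltrametricDist K] {I J : Type} [Fintype I] [DecidableEq I]
  [Fintype J] [DecidableEq J]

omit [IsUltrametricDist K] in
lemma crev_mul_comm (A : Matrix I J K) (B : Matrix J I K) :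
    (A * B).charpolyRev = (B * A).charpolyRev := by
  unfold Matrix.charpolyRev
  rw [Matrix.map_mul, Matrix.map_mul, ← Matrix.smul_mul, Matrix.det_one_sub_mul_comm,
    Matrix.mul_smul]

omit [IsUltrametricDist K] in
lemma crev_reindex (e : J ≃ I) (P : Matrix I I K) :
    (P.submatrix e e).charpolyRev = P.charpolyRev := by
  unfold Matrix.charpolyRev
  rw [← Matrix.det_submatrix_equiv_self e]
  congr 1
  ext i j : 2
  simp [Matrix.one_apply]

omit [IsUltrametricDist K] in
lemma crev_fromBlocks (A : Matrix I I K) (C : Matrix J I K) (D : Matrix J J K) :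
    (Matrix.fromBlocks A 0 C D).charpolyRev = A.charpolyRev * D.charpolyRev := by
  unfold Matrix.charpolyRev
  rw [← Matrix.det_fromBlocks_zero₁₂ _ (-((Polynomial.X : Polynomial K) • C.map Polynomial.C))]
  congr 1
  ext (i | i) (j | j) : 2 <;> simp [Matrix.one_apply]

omit [IsUltrametricDist K] in
lemma crev_fromBlocks' (A : Matrix I I K) (B : Matrix I J K) (D : Matrix J J K) :
    (Matrix.fromBlocks A B 0 D).charpolyRev = A.charpolyRev * D.charpolyRev := by
  unfold Matrix.charpolyRev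
  rw [← Matrix.det_fromBlocks_zero₂₁ _ (-((Polynomial.X : Polynomial K) • B.map Polynomial.C))]
  congr 1
  ext (i | i) (j | j) : 2 <;> simp [Matrix.one_apply]

omit [IsUltrametricDist K] in
/-- The coefficients are signed sums of principal minors. -/
lemma cn_eq_sum (P : Matrix I I K) (n : ℕ) : cn P n = (-1) ^ n *
    ∑ s ∈ univ.powersetCard n, (P.submatrix (Subtype.val : s → I) (Subtype.val : s → I)).det := by
  have h : P.charpolyRev
      = Matrix.det (1 + (Polynomial.X : Polynomial K) • (-P).map Polynomial.C) := by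
    unfold Matrix.charpolyRev
    congr 1
    ext i j : 2
    simp [sub_eq_add_neg]
  rw [cn, h, Matrix.coeff_det_one_add_X_smul_eq_sum_minors]
  simp only [Matrix.submatrix_neg, Pi.neg_apply, Matrix.det_neg, Fintype.card_coe, mul_sum]
  exact Finset.sum_congr rfl fun s hs => by rw [(Finset.mem_powersetCard.mp hs).2]

omit [IsUltrametricDist K] in
lemma cn_zero (P : Matrix I I K) : cn P 0 = 1 := by
  rw [cn, Polynomial.coeff_zero_eq_eval_zero, Matrix.eval_charpolyRev]

omit [IsUltrametricDist K] in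
lemma cn_card (P : Matrix I I K) : cn P (Fintype.card I) = (-1) ^ Fintype.card I * P.det := by
  rw [cn_eq_sum, ← card_univ, powersetCard_self, sum_singleton]
  congr 1
  exact Matrix.det_submatrix_equiv_self
    (Equiv.subtypeUnivEquiv (p := fun i => i ∈ (univ : Finset I)) mem_univ) P

lemma cn_norm_le (P : Matrix I I K) (n : ℕ) (a : I → ℝ) (ha : ∀ i j, ‖P i j‖ ≤ a i) {β : ℝ}
    (hβ : 0 ≤ β) (h : ∀ s : Finset I, s.card = n → ∏ i ∈ s, a i ≤ β) : ‖cn P n‖ ≤ β := by
  rw [cn_eq_sum, norm_mul, norm_pow, norm_neg, norm_one, one_pow, one_mul]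
  refine norm_sum_le' _ _ hβ fun s hs => ?_
  rw [Matrix.det_apply']
  refine norm_sum_le' _ _ hβ fun σ _ => ?_
  rw [norm_mul]
  refine (mul_le_of_le_one_left (norm_nonneg _) (norm_int_le _)).trans ?_
  refine le_trans ?_ (h s (mem_powersetCard.mp hs).2)
  rw [norm_prod, ← prod_coe_sort s, ← Equiv.prod_comp σ fun i : s => a i]
  exact prod_le_prod (fun i _ => norm_nonneg _) fun i _ => ha _ _

lemma cn_norm_le_pow (P : Matrix I I K) (n : ℕ) {β : ℝ} (hβ : 0 ≤ β) (ha : ∀ i j, ‖P i j‖ ≤ β) :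
    ‖cn P n‖ ≤ β ^ n := by
  exact cn_norm_le P n (fun _ => β) ha (by positivity) fun s hs => by rw [prod_const, hs]

lemma cn_sub (P Q : Matrix I I K) (n : ℕ) {β ε : ℝ} (hβ : 1 ≤ β) (hε : 0 ≤ ε)
    (hP : ∀ i j, ‖P i j‖ ≤ β) (hQ : ∀ i j, ‖Q i j‖ ≤ β) (h : ∀ i j, ‖P i j - Q i j‖ ≤ ε) :
    ‖cn P n - cn Q n‖ ≤ ε * β ^ n := by
  have h0 : 0 ≤ ε * β ^ n := mul_nonneg hε (pow_nonneg (zero_le_one.trans hβ) n)
  rw [cn_eq_sum, cn_eq_sum, ← mul_sub, norm_mul, norm_pow, norm_neg, norm_one, one_pow, one_mul,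
    ← sum_sub_distrib]
  refine norm_sum_le' _ _ h0 fun s hs => ?_
  rw [Matrix.det_apply', Matrix.det_apply', ← sum_sub_distrib]
  refine norm_sum_le' _ _ h0 fun σ _ => ?_
  rw [← mul_sub, norm_mul]
  refine (mul_le_of_le_one_left (norm_nonneg _) (norm_int_le _)).trans ?_
  have h1 := norm_prod_sub_prod (univ : Finset s) (fun i => P (σ i) i) (fun i => Q (σ i) i) hβ hε
    (fun i _ => hP _ _) (fun i _ => hQ _ _) fun i _ => h _ _
  rwa [card_univ, Fintype.card_coe, (mem_powersetCard.mp hs).2] at h1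

lemma cn_trunc (P : Matrix I I K) (n : ℕ) {e : J → I} (he : Function.Injective e) {β ε : ℝ}
    (hβ : 1 ≤ β) (hε : 0 ≤ ε) (hP : ∀ i j, ‖P i j‖ ≤ β)
    (h : ∀ i, i ∉ Set.range e → ∀ j, ‖P i j‖ ≤ ε) :
    ‖cn P n - cn (P.submatrix e e) n‖ ≤ ε * β ^ n := by
  classical
  set A : Matrix I J K := Matrix.of fun i j => if i = e j then 1 else 0 with hA
  set B : Matrix J I K := P.submatrix e id with hB
  have h1 : B * A = P.submatrix e e := by
    ext j j'
    simp [hA, hB, Matrix.mul_apply]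
  have h2 : ∀ j k, (A * B) (e j) k = P (e j) k := fun j k => by
    simp [hA, hB, Matrix.mul_apply, he.eq_iff]
  have h3 : ∀ i, i ∉ Set.range e → ∀ k, (A * B) i k = 0 := fun i hi k => by
    rw [Matrix.mul_apply]
    refine sum_eq_zero fun j _ => ?_
    have : i ≠ e j := fun hij => hi ⟨j, hij.symm⟩
    simp [hA, this]
  have h4 : cn (P.submatrix e e) n = cn (A * B) n := by
    rw [cn, cn, ← h1, crev_mul_comm]
  rw [h4]
  refine cn_sub P (A * B) n hβ hε hP (fun i k => ?_) fun i k => ?_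
  · by_cases hi : i ∈ Set.range e
    · obtain ⟨j, rfl⟩ := hi
      rw [h2]; exact hP _ _
    · rw [h3 i hi, norm_zero]; exact zero_le_one.trans hβ
  · by_cases hi : i ∈ Set.range e
    · obtain ⟨j, rfl⟩ := hi
      rw [h2, sub_self, norm_zero]; exact hε
    · rw [h3 i hi, sub_zero]; exact h i hi k

/-- An integral matrix that is block triangular modulo `ε`. -/
lemma crev_block (Q : Matrix I I K) (Q' : Matrix J J K) {e : J → I} (he : Function.Injective e)
    {ε a : ℝ} (hε : 0 ≤ ε) (ha : 0 ≤ a) (hQ : ∀ i j, ‖Q i j‖ ≤ 1) (hQ' : ∀ i j, ‖Q' i j‖ ≤ 1)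
    (h1 : ∀ i j, ‖Q (e i) (e j) - Q' i j‖ ≤ ε)
    (h2 : ∀ i, i ∉ Set.range e → ∀ j, ‖Q i (e j)‖ ≤ ε)
    (h3 : ∀ i, i ∉ Set.range e → ∀ j, ‖Q i j‖ ≤ a) :
    ∃ G : Polynomial K, G.coeff 0 = 1 ∧ (∀ j, ‖G.coeff j‖ ≤ a ^ j) ∧
      ∀ n, ‖(Q.charpolyRev - Q'.charpolyRev * G).coeff n‖ ≤ ε := by
  classical
  let e' : J ⊕ {i // i ∉ Set.range e} ≃ I :=
    (Equiv.sumCongr (Equiv.ofInjective e he) (Equiv.refl _)).trans
      (Equiv.sumCompl fun i => i ∈ Set.range e)
  have e1 : ∀ j, e' (Sum.inl j) = e j := fun _ => rfl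
  have e2 : ∀ i, e' (Sum.inr i) = i.1 := fun _ => rfl
  let B : Matrix J {i // i ∉ Set.range e} K := Matrix.of fun j i => Q (e j) i.1
  let D : Matrix {i // i ∉ Set.range e} {i // i ∉ Set.range e} K := Matrix.of fun i j => Q i.1 j.1
  refine ⟨D.charpolyRev, cn_zero D, fun j => cn_norm_le_pow D j ha fun i k => h3 i.1 i.2 k.1,
    fun n => ?_⟩
  rw [← crev_fromBlocks' Q' B D, ← crev_reindex e' Q, Polynomial.coeff_sub]
  have := cn_sub (Q.submatrix e' e') (Matrix.fromBlocks Q' B 0 D) n le_rfl hε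
    (fun i j => hQ _ _) ?_ ?_
  · simpa [cn] using this
  · rintro (i | i) (j | j)
    · exact hQ' i j
    · exact hQ _ _
    · simp
    · exact hQ _ _
  · rintro (i | i) (j | j)
    · exact h1 i j
    · simpa [B, e1, e2] using hε
    · simpa [e1, e2] using h2 i.1 i.2 j
    · simpa [D, e1, e2] using hε

omit [IsUltrametricDist K] in
/-- The coefficients are polynomial functions when the entries are. -/
lemma isPoly_cn {P : K → Matrix I I K} (h : ∀ i j, IsPoly fun w => P w i j) (n : ℕ) :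
    IsPoly fun w => cn (P w) n := by
  simp only [cn_eq_sum, Matrix.det_apply']
  exact (IsPoly.const _).mul (IsPoly.sum _ fun s _ => IsPoly.sum _ fun σ _ =>
    (IsPoly.const _).mul (IsPoly.prod _ fun i _ => h _ _))

end Pool.Agent.Lib.MP_88d29b_nt.G.M3
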