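import Pool.Agent.Lib.MP_88d29b_nt.M3Chr

/-!
The family of weights at general points and at classical points.
-/

set_option autoImplicit false

noncomputable section

namespace Pool.Agent.Lib.MP_88d29b_nt.G.M3

open Finset CongruenceSubgroup
open scoped MatrixGroups

variable {K : Type} [NormedField K] [IsUltrametricDist K] [CharZero K] {p : ℕ} [hp : Fact p.Prime]

omit [CharZero K] in
lemma m3fam_expand (hK : ‖(p : K)‖ = (p : ℝ)⁻¹) {x : K} (hx : ‖x‖ ≤ 1) :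
    ‖(1 + x) ^ p - 1 - x ^ p‖ ≤ (p : ℝ)⁻¹ * ‖x‖ := by
  rw [add_pow_prime_eq hp.out, one_pow, mul_one, add_assoc, add_sub_cancel_left,
    add_sub_cancel_left, ← mul_one ((p : ℝ)⁻¹ * ‖x‖)]
  refine norm_mul_le' (norm_mul_le' hK.le le_rfl) (norm_sum_le' _ _ zero_le_one fun k _ => ?_)
  rw [one_pow, one_mul, ← mul_one (1 : ℝ)]
  refine norm_mul_le' ?_ (norm_nat_le _)
  rw [norm_pow]
  exact pow_le_one₀ (norm_nonneg _) hx

omit [CharZero K] in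
lemma m3fam_step (hK : ‖(p : K)‖ = (p : ℝ)⁻¹) {x : K} (hx : ‖x‖ ≤ 1) {a : ℝ} (h1 : ‖x‖ ^ p ≤ a)
    (h2 : (p : ℝ)⁻¹ * ‖x‖ ≤ a) : ‖(1 + x) ^ p - 1‖ ≤ a := by
  have := norm_add_le' ((m3fam_expand hK hx).trans h2) ((norm_pow x p).le.trans h1)
  rwa [sub_add_cancel] at this

omit [IsUltrametricDist K] [CharZero K] hp in
lemma m3fam_succ (w : K) (i : ℕ) :
    (1 + w) ^ p ^ (i + 1) - 1 = (1 + ((1 + w) ^ p ^ i - 1)) ^ p - 1 := by
  rw [add_sub_cancel, pow_succ, pow_mul]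

lemma m3fam_inv_le : (p : ℝ)⁻¹ ≤ 1 := inv_le_one_of_one_le₀ one_le_p

omit [CharZero K] in
lemma m3fam_first (hK : ‖(p : K)‖ = (p : ℝ)⁻¹) {w : K} (hw : ‖w‖ ≤ 1) (i : ℕ) :
    ‖(1 + w) ^ p ^ i - 1‖ ≤ max (‖w‖ ^ p ^ i) (p : ℝ)⁻¹ := by
  induction i with
  | zero => simp
  | succ i ih =>
    have h1 : ‖(1 + w) ^ p ^ i - 1‖ ≤ 1 :=
      ih.trans (max_le (pow_le_one₀ (norm_nonneg _) hw) m3fam_inv_le)
    rw [m3fam_succ]
    refine m3fam_step hK h1 ?_ (le_max_of_le_right ?_)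
    · rcases le_max_iff.1 ih with h | h
      · refine le_max_of_le_left ?_
        rw [pow_succ, pow_mul]
        exact pow_le_pow_left₀ (norm_nonneg _) h p
      · exact le_max_of_le_right ((pow_le_of_le_one (norm_nonneg _) h1 hp.out.ne_zero).trans h)
    · exact mul_le_of_le_one_right (inv_nonneg.2 p_pos.le) h1

omit [CharZero K] in
lemma m3fam_later (hK : ‖(p : K)‖ = (p : ℝ)⁻¹) {w : K} {i : ℕ}
    (h : ‖(1 + w) ^ p ^ i - 1‖ ≤ (p : ℝ)⁻¹) (j : ℕ) :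
    ‖(1 + w) ^ p ^ (i + j) - 1‖ ≤ (p : ℝ)⁻¹ ^ (j + 1) := by
  have h0 : (0 : ℝ) ≤ (p : ℝ)⁻¹ := inv_nonneg.2 p_pos.le
  induction j with
  | zero => simpa using h
  | succ j ih =>
    have h1 : ‖(1 + w) ^ p ^ (i + j) - 1‖ ≤ (p : ℝ)⁻¹ :=
      ih.trans (pow_le_of_le_one h0 m3fam_inv_le (Nat.succ_ne_zero j))
    have h2 : (p : ℝ)⁻¹ * ‖(1 + w) ^ p ^ (i + j) - 1‖ ≤ (p : ℝ)⁻¹ ^ (j + 1 + 1) := by
      rw [pow_succ' _ (j + 1)]
      exact mul_le_mul_of_nonneg_left ih h0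
    rw [← add_assoc, m3fam_succ]
    refine m3fam_step hK (h1.trans m3fam_inv_le) ?_ h2
    refine (pow_le_pow_of_le_one (norm_nonneg _) (h1.trans m3fam_inv_le) hp.out.two_le).trans ?_
    rw [sq]
    exact (mul_le_mul_of_nonneg_right h1 (norm_nonneg _)).trans h2

omit [IsUltrametricDist K] [CharZero K] in
lemma m3fam_norm_zeta {ζ : K} (hζ : ζ ^ p = 1) : ‖ζ‖ ≤ 1 := by
  have h : ‖ζ‖ ^ p = 1 := by rw [← norm_pow, hζ, norm_one]
  exact ((pow_eq_one_iff_of_nonneg (norm_nonneg _) hp.out.ne_zero).1 h).le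

omit hp in
lemma m3fam_dvd_gg : (p : ℤ) ∣ gg p - 1 := by
  rw [gg, add_sub_cancel_left]
  exact dvd_pow_self _ (Nat.one_le_iff_ne_zero.1 one_le_bb)

omit [IsUltrametricDist K] [CharZero K] in
lemma m3fam_psi {R : ℕ} (hR : bb p + 1 ≤ R) {ζ : K} (hζ : ζ ^ p = 1) {x : ℤ}
    (hx : ¬ (p : ℤ) ∣ x) : psi p ζ x = ζ ^ lgn p R x := by
  obtain ⟨m, hm⟩ := dvd_pow_ph_sub_one hx
  have hp0 : (p : ℤ) ^ bb p ≠ 0 := pow_ne_zero _ (by exact_mod_cast hp.out.ne_zero)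
  have h1 : (p : ℤ) ^ (bb p + 1) ∣ gg p ^ lgn p R x - x ^ ph p :=
    (pow_dvd_pow _ hR).trans (lgn_spec R hx)
  have h2 : (p : ℤ) ^ (bb p + 1) ∣
      gg p ^ lgn p R x - 1 ^ (lgn p R x - 1) * (p : ℤ) ^ bb p * lgn p R x - 1 ^ lgn p R x := by
    refine Dvd.dvd.trans ?_ (sq_dvd_add_pow_sub_sub ((p : ℤ) ^ bb p) 1 (lgn p R x))
    rw [← pow_mul]
    exact pow_dvd_pow _ (by have := one_le_bb (p := p); omega)
  have h3 : (p : ℤ) ^ bb p * p ∣ (p : ℤ) ^ bb p * (m - lgn p R x) := by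
    rw [← pow_succ]
    have := dvd_sub h2 h1
    rwa [one_pow, one_pow, show gg p ^ lgn p R x - 1 * (p : ℤ) ^ bb p * lgn p R x - 1 -
      (gg p ^ lgn p R x - x ^ ph p) = (p : ℤ) ^ bb p * (m - lgn p R x) by
        linear_combination hm] at this
  have h4 : (m : ZMod p) = (lgn p R x : ℕ) := by
    rw [← sub_eq_zero, ← Int.cast_natCast, ← Int.cast_sub, ZMod.intCast_zmod_eq_zero_iff_dvd]
    exact (mul_dvd_mul_iff_left hp0).1 h3
  rw [psi, hm, Int.mul_ediv_cancel_left _ hp0, h4, ZMod.val_natCast, ← pow_eq_pow_mod _ hζ]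

/-- The family is analytic at level `i0 + b` on the disc `‖w‖ ^ p ^ i0 ≤ 1 / p`. -/
lemma wt_fam (hK : ‖(p : K)‖ = (p : ℝ)⁻¹) (κ : ℕ) {R i0 : ℕ} (hR : i0 ≤ R) {w : K}
    (hw : ‖w‖ ^ p ^ i0 ≤ (p : ℝ)⁻¹) : Wt p (i0 + bb p) (uFam p κ R w) (sFam p κ R w) := by
  have hw1 : ‖w‖ ≤ 1 := by
    by_contra hc
    exact absurd ((one_le_pow₀ (not_le.1 hc).le).trans hw)
      (not_le.2 (inv_lt_one_of_one_lt₀ one_lt_p))
  obtain ⟨b, hb⟩ : ∃ b, bb p = b + 1 := ⟨bb p - 1, by have := one_le_bb (p := p); omega⟩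
  obtain ⟨j, rfl⟩ := Nat.exists_eq_add_of_le hR
  have h1 := m3fam_later hK ((m3fam_first hK hw1 i0).trans (max_le hw le_rfl)) j
  have h2 := norm_gg_pow_sub_one hK (p ^ (i0 + j))
  rw [hb, Nat.cast_pow, norm_pow, hK, zpow_neg, zpow_natCast] at h2
  have h3 : (1 : ℝ) ≤ (p : ℝ) ^ (i0 + b) := one_le_pow₀ one_le_p
  have hp0 := p_pos (p := p)
  rw [hb, ← add_assoc]
  refine wt_of_norm hK _ (fun x _ => ?_) (norm_add_le' ((norm_nat_le κ).trans h3) ?_)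
  · rw [uFam, ← mul_one (1 : ℝ)]
    refine norm_mul_le' ?_ ?_
    · rw [norm_pow]
      exact pow_le_one₀ (norm_nonneg _) (norm_int_le x)
    · rw [norm_pow]
      exact pow_le_one₀ (norm_nonneg _) (norm_add_le' norm_one.le hw1)
  · rw [← one_mul ((p : ℝ) ^ (i0 + b))]
    refine norm_mul_le' (norm_nat_le _) ?_
    rw [norm_div, h2, div_le_iff₀ (by positivity)]
    refine h1.trans (le_of_eq ?_)
    simp only [inv_pow, pow_add]
    field_simp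

omit [IsUltrametricDist K] in
/-- The exponent at a classical point is an integer. -/
lemma sFam_cl (κ : ℕ) {R : ℕ} (hR : 1 ≤ R) {ζ : K} (hζ : ζ ^ p = 1) (y : ℕ) :
    ∃ z : ℤ, sFam p κ R (ζ * (gg p : K) ^ y - 1) = (z : K) ∧
      (p : ℤ) ^ R ∣ z - ((κ + ph p * y : ℕ) : ℤ) := by
  set G : ℤ := gg p ^ p ^ R with hG
  have h1 : (p : ℤ) ^ R ∣ G - 1 := by
    have := dvd_sub_pow_of_dvd_sub (m3fam_dvd_gg (p := p)) R
    rw [one_pow] at this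
    exact (pow_dvd_pow _ (Nat.le_succ R)).trans this
  have h2 : (G : K) ≠ 1 := by
    have hp0 : (0 : ℤ) < (p : ℤ) ^ bb p := pow_pos (by exact_mod_cast hp.out.pos) _
    have : 1 < G := one_lt_pow₀ (by rw [gg]; omega) (pow_ne_zero _ hp.out.ne_zero)
    exact_mod_cast this.ne'
  have h3 : ζ ^ p ^ R = 1 := by
    obtain ⟨r, rfl⟩ := Nat.exists_eq_add_of_le hR
    rw [pow_add, pow_one, pow_mul, hζ, one_pow]
  refine ⟨κ + ph p * ∑ i ∈ range y, G ^ i, ?_, ?_⟩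
  · push_cast
    rw [geom_sum_eq h2, sFam, add_sub_cancel, mul_pow, h3, one_mul, ← pow_mul, mul_comm y, pow_mul,
      hG]
    push_cast
    rfl
  · have e : (κ : ℤ) + ph p * ∑ i ∈ range y, G ^ i - ((κ + ph p * y : ℕ) : ℤ)
        = ph p * ∑ i ∈ range y, (G ^ i - 1) := by
      rw [sum_sub_distrib]
      simp only [sum_const, card_range, nsmul_eq_mul, mul_one]
      push_cast
      ring
    rw [e]
    exact (dvd_sum fun i _ => h1.trans (sub_one_dvd_pow_sub_one G i)).mul_left _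

omit [CharZero K] in
/-- The character at a classical point. -/
lemma uFam_cl (hK : ‖(p : K)‖ = (p : ℝ)⁻¹) (κ : ℕ) {R : ℕ} (hR : bb p + 1 ≤ R) {ζ : K}
    (hζ : ζ ^ p = 1) (y : ℕ) {x : ℤ} (hx : ¬ (p : ℤ) ∣ x) :
    ‖uFam p κ R (ζ * (gg p : K) ^ y - 1) x - psi p ζ x * (x : K) ^ (κ + ph p * y)‖ ≤
      (p : ℝ) ^ (-(R : ℤ)) := by
  have h1 : (p : ℤ) ^ R ∣ (gg p ^ lgn p R x) ^ y - (x ^ ph p) ^ y :=
    (lgn_spec R hx).trans (sub_dvd_pow_sub_pow _ _ y)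
  have h2 := norm_int_of_dvd hK h1
  have e : uFam p κ R (ζ * (gg p : K) ^ y - 1) x - psi p ζ x * (x : K) ^ (κ + ph p * y) =
      (x : K) ^ κ * ζ ^ lgn p R x * (((gg p ^ lgn p R x) ^ y - (x ^ ph p) ^ y : ℤ) : K) := by
    rw [m3fam_psi hR hζ hx, uFam, add_sub_cancel]
    push_cast
    ring
  rw [e, ← one_mul ((p : ℝ) ^ (-(R : ℤ))), ← one_mul (1 : ℝ)]
  refine norm_mul_le' (norm_mul_le' ?_ ?_) h2
  · rw [norm_pow]
    exact pow_le_one₀ (norm_nonneg _) (norm_int_le x)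
  · rw [norm_pow]
    exact pow_le_one₀ (norm_nonneg _) (m3fam_norm_zeta hζ)

omit [CharZero K] in
lemma norm_cl_point (hK : ‖(p : K)‖ = (p : ℝ)⁻¹) {ζ : K} (hζ : ζ ^ p = 1) (y : ℕ) :
    ‖ζ * (gg p : K) ^ y - 1‖ ^ (p - 1) ≤ (p : ℝ)⁻¹ := by
  have hz := m3fam_norm_zeta hζ
  have h2 := hp.out.two_le
  have h0 : (0 : ℝ) ≤ (p : ℝ)⁻¹ := inv_nonneg.2 p_pos.le
  have h1 : ‖ζ * ((gg p : K) ^ y - 1)‖ ≤ (p : ℝ)⁻¹ := by
    have h3 : (p : ℤ) ^ 1 ∣ gg p ^ y - 1 := by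
      rw [pow_one]
      exact m3fam_dvd_gg.trans (sub_one_dvd_pow_sub_one _ y)
    have h4 := norm_int_of_dvd hK h3
    push_cast at h4
    simpa using norm_mul_le' hz h4
  have h3 : ‖ζ - 1‖ ^ (p - 1) ≤ (p : ℝ)⁻¹ := by
    have h4 := m3fam_expand hK (norm_sub_le' hz norm_one.le)
    rw [add_sub_cancel, hζ, sub_self, zero_sub, norm_neg, norm_pow] at h4
    rcases (norm_nonneg (ζ - 1)).eq_or_lt with h | h
    · rw [← h, zero_pow (by omega)]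
      exact h0
    · refine le_of_mul_le_mul_right ?_ h
      rwa [← pow_succ, Nat.sub_add_cancel (by omega)]
  have e : ζ * (gg p : K) ^ y - 1 = ζ * ((gg p : K) ^ y - 1) + (ζ - 1) := by ring
  rw [e]
  rcases le_max_iff.1 (IsUltrametricDist.norm_add_le_max (ζ * ((gg p : K) ^ y - 1)) (ζ - 1))
    with h | h
  · exact (pow_le_pow_left₀ (norm_nonneg _) (h.trans h1) _).trans
      (pow_le_of_le_one h0 m3fam_inv_le (by omega))
  · exact (pow_le_pow_left₀ (norm_nonneg _) h _).trans h3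

omit [IsUltrametricDist K] [CharZero K] hp in
lemma isPoly_uFam (κ R : ℕ) (x : ℤ) : IsPoly fun w : K => uFam p κ R w x := by
  exact (IsPoly.const _).mul (((IsPoly.const 1).add IsPoly.id).pow _)

omit [IsUltrametricDist K] [CharZero K] hp in
lemma isPoly_sFam (κ R : ℕ) : IsPoly fun w : K => sFam p κ R w := by
  exact (IsPoly.const _).add ((IsPoly.const _).mul
    (((((IsPoly.const 1).add IsPoly.id).pow _).sub (IsPoly.const 1)).div_const _))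

end Pool.Agent.Lib.MP_88d29b_nt.G.M3
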