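import Pool.Agent.Lib.MP_88d29b_nt.M3Touch
import Pool.Agent.Lib.MP_88d29b_nt.M3Fam

/-!
The polynomial family.
-/

set_option autoImplicit false

noncomputable section

namespace Pool.Agent.Lib.MP_88d29b_nt.G.M3

open Finset CongruenceSubgroup
open scoped MatrixGroups

variable (p : ℕ) [Fact p.Prime] {M : ℕ} {ι : Type} [Fintype ι] [DecidableEq ι]

/-- The family at a classical point against a classical matrix of large weight. -/
lemma fam_cl (fb : FB (M * p) ι) (hM : M ≠ 0) {q h q0 h0 : ℕ} [NeZero q] [NeZero q0] (e : q = p ^ h)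
    (e0 : q0 = p ^ h0) (hh0 : h0 ≤ h) {κ0 : ℕ} (hκ : Even κ0) {ζ : Kp p} (hζ : ζ ^ p = 1)
    (hψ : IsChar p h0 (psi p ζ)) (L y n : ℕ) {R : ℕ} (hR : bb p + 1 + L ≤ R) :
    ‖cn (Pq p fb q L (uFam p κ0 R (ζ * (gg p : Kp p) ^ y - 1))
        (sFam p κ0 R (ζ * (gg p : Kp p) ^ y - 1))) n -
      cn (PCl p fb q0 (κ0 + ph p * (y + p ^ R * L)) (psi p ζ)) n‖ ≤
      (p : ℝ) ^ ((n : ℤ) + 1 - fl p L) := by
  have hK := norm_p_Kp p
  have hb := one_le_bb (p := p)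
  set κ := κ0 + ph p * (y + p ^ R * L) with hκdef
  obtain ⟨z, hz, hzd⟩ := sFam_cl (p := p) κ0 (R := R) (by omega) hζ y
  have hd : ((ph p * p ^ R : ℕ) : ℤ) ∣ ((κ0 + ph p * y : ℕ) : ℤ) - (κ : ℕ) :=
    ⟨-L, by rw [hκdef]; push_cast; ring⟩
  have hψn : ∀ x : ℤ, ¬ (p : ℤ) ∣ x → ‖psi p ζ x * (x : Kp p) ^ κ‖ ≤ 1 := fun x hx => by
    have := norm_mul_le' (hψ.norm x hx) (show ‖(x : Kp p) ^ κ‖ ≤ 1 by
      rw [norm_pow]; exact pow_le_one₀ (norm_nonneg _) (norm_int_le x))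
    rwa [one_mul] at this
  have huu : ∀ x : ℤ, ¬ (p : ℤ) ∣ x → ‖uFam p κ0 R (ζ * (gg p : Kp p) ^ y - 1) x -
      psi p ζ x * (x : Kp p) ^ κ‖ ≤ (p : ℝ) ^ (-(R : ℤ)) := fun x hx => by
    refine norm_sub_trans (uFam_cl hK κ0 (by omega) hζ y hx) ?_
    rw [← mul_sub]
    have := norm_mul_le' (hψ.norm x hx) (pow_lip hK hd hx)
    rwa [one_mul] at this
  have hun : ∀ x : ℤ, ¬ (p : ℤ) ∣ x → ‖uFam p κ0 R (ζ * (gg p : Kp p) ^ y - 1) x‖ ≤ 1 :=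
    fun x hx => by
      have h1 := (huu x hx).trans (zpow_le (p := p) (show -(R : ℤ) ≤ 0 by omega))
      rw [zpow_zero] at h1
      have := norm_add_le' h1 (hψn x hx)
      rwa [sub_add_cancel] at this
  have hs : ‖(z : Kp p) - ((κ : ℤ) : Kp p)‖ ≤ (p : ℝ) ^ (-(R : ℤ)) := by
    rw [← Int.cast_sub]
    refine norm_int_of_dvd hK ?_
    have h2 : (p : ℤ) ^ R ∣ ((κ0 + ph p * y : ℕ) : ℤ) - (κ : ℕ) :=
      Dvd.dvd.trans ⟨ph p, by push_cast; ring⟩ hd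
    have := dvd_add hzd h2
    rwa [sub_add_sub_cancel] at this
  have h1 := cn_Pq_lip fb hK e L (zpow_pos' _).le hun hψn huu hs n
  rw [← hz, Int.cast_natCast] at h1
  have hLκ : L ≤ κ := by
    have h3 : 1 ≤ p ^ R := Nat.one_le_pow _ _ (Fact.out : p.Prime).pos
    have h4 := ph_pos (p := p)
    rw [hκdef]
    nlinarith [Nat.zero_le y, Nat.mul_le_mul h4 (Nat.mul_le_mul_right L h3)]
  have h2 := cn_PCl_Pq fb hK e hLκ hψ.norm n
  have hev : Even κ := hκ.add (even_ph.mul_right _)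
  have h3 : cn (PCl p fb q κ (psi p ζ)) n = cn (PCl p fb q0 κ (psi p ζ)) n := by
    rw [cn, cn, crev_PCl_level fb hM e0 e le_rfl hh0 hψ hev]
  rw [← h3]
  refine norm_sub_trans (h1.trans ?_) (by rwa [norm_sub_rev])
  rw [← zpow_natCast, zpow_mul_zpow]
  refine zpow_le ?_
  unfold fl
  push_cast
  omega

/-- The numerical part. -/
lemma touch_numeric {t k n r : ℕ} (ht : 0 < t) (h : n + 1 + r = t * k + 1) {l : ℝ} (hl : 0 ≤ l)
    (hk : 1 ≤ k)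
    (H : (n : ℝ) ^ 2 / (2 * t) - n - ((n : ℝ) + 1) * (l + 1) ≤
      ((k : ℝ) * ((n + 1 : ℕ) + r) + 2) / 2 - r * k) :
    (r : ℝ) ^ 2 ≤ 2 * t * (4 * t + 4) * k * (l + 1) := by
  have ht' : (0 : ℝ) < t := by exact_mod_cast ht
  have hk' : (1 : ℝ) ≤ k := by exact_mod_cast hk
  have ht1 : (1 : ℝ) ≤ t := by exact_mod_cast ht
  have h' : (n : ℝ) = t * k - r := by
    have : (n : ℝ) + 1 + r = t * k + 1 := by exact_mod_cast h
    linarith
  have hr : (0 : ℝ) ≤ r := Nat.cast_nonneg r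
  have hn : (n : ℝ) ≤ t * k := by linarith
  have e1 : (n : ℝ) ^ 2 / (2 * t) = t * k ^ 2 / 2 - k * r + (r : ℝ) ^ 2 / (2 * t) := by
    rw [h']
    field_simp
    ring
  have e2 : ((k : ℝ) * ((n + 1 : ℕ) + r) + 2) / 2 = t * k ^ 2 / 2 + k / 2 + 1 := by
    push_cast
    rw [h']
    ring
  rw [e1, e2] at H
  have h1 : (r : ℝ) ^ 2 / (2 * t) ≤ (4 * t + 4) * k * (l + 1) := by
    have h2 : ((n : ℝ) + 1) * (l + 1) ≤ (t * k + k) * (l + 1) :=
      mul_le_mul_of_nonneg_right (by linarith) (by linarith)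
    have h3 : (k : ℝ) / 2 + 1 + t * k ≤ (3 * t + 3) * k * (l + 1) := by
      have : 0 ≤ (3 * (t : ℝ) + 3) * k * l := by positivity
      nlinarith
    nlinarith
  rw [div_le_iff₀ (by positivity)] at h1
  linarith

/-- The polynomial family and the touching point. -/
theorem family (fb : FB (M * p) ι) (hM : Nat.Coprime p M) (hM0 : 0 < M)
    (ht : 0 < Fintype.card ι) :
    ∃ C : ℝ, ∀ κ0 y0 : ℕ, Even κ0 → ∃ n q : ℕ,
      n + q = Fintype.card ι * p ^ hh p * (κ0 + ph p * y0 + 1) + 1 ∧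
      (q : ℝ) ^ 2 ≤ C * ((κ0 + ph p * y0 + 1 : ℕ) : ℝ) *
        ((Nat.log p (κ0 + ph p * y0 + 1) : ℝ) + 1) ∧
      ∀ i0 L : ℕ, n ^ 2 + n + (κ0 + ph p * y0) + 4 + Nat.log p (L + 1) ≤ L →
        ∃ c : Polynomial (Kp p),
          (∀ w : Kp p, ‖w‖ ^ p ^ i0 ≤ (p : ℝ)⁻¹ → ‖c.eval w‖ ≤ (p : ℝ) ^ n) ∧
          (∃ w : Kp p, ‖w‖ ^ (p - 1) ≤ (p : ℝ)⁻¹ ∧
            (p : ℝ) ^ (-((n : ℝ) ^ 2 / (2 * (Fintype.card ι * p ^ hh p : ℕ)) +
              (κ0 + ph p * y0 : ℕ) + 2)) ≤ ‖c.eval w‖) ∧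
          ∀ y : ℕ, ‖c.eval (wy p y) - cn (P0 p fb L (κ0 + ph p * y)) n‖ ≤
            (p : ℝ) ^ ((n : ℤ) + 1 - fl p L) := by
  have hK := norm_p_Kp p
  have hp := (Fact.out : p.Prime)
  have hq0 : NeZero (p ^ hh p) := ⟨pow_ne_zero _ hp.ne_zero⟩
  set t := Fintype.card ι * p ^ hh p with htdef
  have ht0 : 0 < t := Nat.mul_pos ht (pow_pos hp.pos _)
  have ht2 : 2 ≤ t := by
    have h1 : p ^ 1 ≤ p ^ hh p := Nat.pow_le_pow_right hp.pos one_le_hh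
    have h2 := hp.two_le
    rw [pow_one] at h1
    exact (h2.trans h1).trans (Nat.le_mul_of_pos_left _ ht)
  refine ⟨2 * t * (4 * t + 4), fun κ0 y0 hκ0 => ?_⟩
  set κ := κ0 + ph p * y0 with hκdef
  have hev : Even κ := hκ0.add (even_ph.mul_right _)
  obtain ⟨ζ, n, r, hζ, hnr, hv, hlow⟩ := exists_touch (K := Kp p) fb hK hM hM0 rfl hev
  have hψ := isChar_psi (p := p) hζ
  have hnr' : (n : ℝ) + r = t * ((κ : ℝ) + 1) + 1 := by exact_mod_cast hnr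
  have ht2' : (2 : ℝ) ≤ t := by exact_mod_cast ht2
  have hκ0' : (0 : ℝ) ≤ κ := Nat.cast_nonneg κ
  obtain ⟨m, rfl⟩ : ∃ m, n = m + 1 := by
    refine Nat.exists_eq_succ_of_ne_zero fun h0 => ?_
    subst h0
    rw [cn_zero, norm_one] at hlow
    replace hlow := (Real.rpow_le_rpow_left_iff (one_lt_p (p := p))).mp
      (hlow.trans_eq (Real.rpow_zero (p : ℝ)).symm)
    simp only [Nat.cast_zero, zero_add] at hnr' hlow
    rw [hnr'] at hlow
    nlinarith [mul_nonneg hκ0' hκ0', mul_nonneg (sub_nonneg.mpr ht2') hκ0',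
      mul_nonneg (sub_nonneg.mpr ht2') (mul_nonneg hκ0' hκ0')]
  have hup := hlow.trans (hodge_PCl fb hK ht rfl κ hψ.norm m)
  rw [Real.rpow_le_rpow_left_iff (one_lt_p (p := p)), neg_le_neg_iff, ← htdef] at hup
  have hnum := touch_numeric (k := κ + 1) ht0 hnr (Nat.cast_nonneg (Nat.log p (κ + 1)))
    (by omega) (by push_cast at hup ⊢; exact hup)
  refine ⟨m + 1, r, hnr, hnum, fun i0 L hL => ?_⟩
  have hq : NeZero (p ^ (i0 + bb p)) := ⟨pow_ne_zero _ hp.ne_zero⟩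
  set R := bb p + 1 + 2 * L + i0 with hR
  obtain ⟨c, hc⟩ := isPoly_cn_Pq fb (p ^ (i0 + bb p)) L (isPoly_uFam (K := Kp p) (p := p) κ0 R)
    (isPoly_sFam κ0 R) (m + 1)
  beta_reduce at hc
  have hlog : Nat.log p (L + 1) ≤ L := log_succ_le L
  refine ⟨c, fun w hw => ?_, ?_, fun y => ?_⟩
  · rw [← hc]
    exact cn_Pq_norm fb hK rfl L (wt_fam hK κ0 (by omega) hw) _
  · have hlow2 : (p : ℝ) ^ (-(((m + 1 : ℕ) : ℝ) ^ 2 / (2 * (t : ℕ)) + (κ : ℕ) + 2)) ≤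
        ‖cn (PCl p fb (p ^ hh p) κ (psi p ζ)) (m + 1)‖ := by
      refine le_trans (Real.rpow_le_rpow_of_exponent_le one_le_p (neg_le_neg ?_)) hlow
      have h1 : (m : ℝ) = t * ((κ : ℝ) + 1) - r := by
        push_cast at hnr'
        linarith
      have h2 : (t : ℝ) * ((κ : ℝ) + 1) ^ 2 / 2 - ((κ : ℝ) + 1) * r ≤
          ((m + 1 : ℕ) : ℝ) ^ 2 / (2 * t) := by
        rw [le_div_iff₀ (by positivity)]
        have h3 : (m : ℝ) ^ 2 ≤ ((m + 1 : ℕ) : ℝ) ^ 2 := by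
          push_cast
          nlinarith [Nat.cast_nonneg (α := ℝ) m]
        rw [h1] at h3
        nlinarith [sq_nonneg (r : ℝ)]
      rw [hnr']
      nlinarith
    have hlow3 : ∀ a : ℤ, a < -(((m + 1) ^ 2 + κ + 2 : ℕ) : ℤ) →
        (p : ℝ) ^ a < ‖cn (PCl p fb (p ^ hh p) κ (psi p ζ)) (m + 1)‖ := fun a ha => by
      refine lt_of_lt_of_le ?_ hlow2
      rw [← Real.rpow_intCast]
      refine Real.rpow_lt_rpow_of_exponent_lt one_lt_p ?_
      have h1 : (a : ℝ) < -(((m + 1) ^ 2 + κ + 2 : ℕ) : ℝ) := by exact_mod_cast ha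
      have h2 : ((m + 1 : ℕ) : ℝ) ^ 2 / (2 * t) ≤ ((m + 1 : ℕ) : ℝ) ^ 2 :=
        div_le_self (by positivity) (by linarith)
      push_cast at h1 h2 ⊢
      linarith
    refine ⟨ζ * (gg p : Kp p) ^ y0 - 1, norm_cl_point hK hζ y0, hlow2.trans (le_of_eq ?_)⟩
    have h1 := fam_cl p fb hM0.ne' (q := p ^ (i0 + bb p)) rfl rfl
      (hh_le_bb.trans (Nat.le_add_left _ _)) hκ0 hζ hψ L y0 (m + 1) (R := R) (by omega)
    have hd : ((ph p * p ^ R : ℕ) : ℤ) ∣ ((κ0 + ph p * (y0 + p ^ R * L) : ℕ) : ℤ) - (κ : ℕ) :=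
      ⟨L, by rw [hκdef]; push_cast; ring⟩
    have h2 := touch_cong fb hK hM0.ne' (q := p ^ hh p) rfl
      (κ := κ) (κ' := κ0 + ph p * (y0 + p ^ R * L))
      (by rw [hκdef, mul_add, ← add_assoc]; exact Nat.le_add_right _ _) hev
      (hκ0.add (even_ph.mul_right _)) hψ (ε := (p : ℝ) ^ (-(R : ℤ))) (by
        have := norm_int_of_dvd hK (Dvd.dvd.trans (show (p : ℤ) ^ R ∣ ((ph p * p ^ R : ℕ) : ℤ) from
          ⟨ph p, by push_cast; ring⟩) hd)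
        rwa [Int.cast_sub, Int.cast_natCast, Int.cast_natCast] at this)
      (fun x hx => pow_lip hK hd hx) hv (hlow3 _ (by omega))
    rw [← hc, ← h2]
    refine (norm_eq_of_sub_lt (h1.trans_lt ?_)).symm
    rw [h2]
    refine hlow3 _ ?_
    unfold fl
    omega
  · have h1 := fam_cl p fb hM0.ne' (q := p ^ (i0 + bb p)) (q0 := 1) (h0 := 0) rfl (pow_zero p).symm
      (Nat.zero_le _) hκ0 (one_pow p) (by rw [psi_one]; exact isChar_one 0) L y (m + 1) (R := R)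
      (by omega)
    rw [one_mul, psi_one, hc, cn, crev_PCl_one] at h1
    have hLκ : L ≤ κ0 + ph p * (y + p ^ R * L) := by
      have h3 : 1 ≤ p ^ R := Nat.one_le_pow _ _ hp.pos
      have h4 := ph_pos (p := p)
      nlinarith [Nat.zero_le y, Nat.mul_le_mul h4 (Nat.mul_le_mul_right L h3)]
    have h2 := cn_PV_P0 p fb hLκ (m + 1)
    have h3 := cn_P0_lip p fb L (κ0 + ph p * (y + p ^ R * L)) (κ0 + ph p * y) R
      ⟨L, by push_cast; ring⟩ (m + 1)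
    refine norm_sub_trans h1 (norm_sub_trans h2 (h3.trans (zpow_le ?_)))
    unfold fl
    omega

end Pool.Agent.Lib.MP_88d29b_nt.G.M3
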