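import Pool.Agent.Lib.MP_88d29b_nt.M3Loc
import Pool.Agent.Lib.MP_88d29b_nt.M3Alg

/-!
Fox calculus and coordinates on cocycles.
-/

set_option autoImplicit false

noncomputable section

namespace Pool.Agent.Lib.MP_88d29b_nt.G.M3

open Finset CongruenceSubgroup
open scoped MatrixGroups

variable {N : ℕ} {ι : Type} [Fintype ι] (fb : FB N ι)

lemma M3Fox_neg_mem : (-1 : SL(2, ℤ)) ∈ Gamma0 N := by
  rw [Gamma0_mem]
  simp

lemma M3Fox_c_neg {R V : Type} [CommRing R] [AddCommGroup V] [Module R V]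
    {ρ : Mat → V →ₗ[R] V} {c : Gamma0 N → V} (hc : c ∈ Z1 (Gamma0 N) ρ) {g g' : Gamma0 N}
    (e : (g' : SL(2, ℤ)) = -g) : c g' = c g := by
  have e1 : g' = (⟨-1, M3Fox_neg_mem⟩ : Gamma0 N) * g := by
    apply Subtype.ext
    rw [e]
    simp
  rw [e1, hc.1, hc.2 _ rfl, map_zero, zero_add]

lemma M3Fox_sum_map {A B V : Type} [AddCommGroup V] (f : A → B) (D : A →₀ ℤ) (u : B → V) :
    ((D.mapDomain f).sum fun t n => n • u t) = D.sum fun t n => n • u (f t) :=
  Finsupp.sum_mapDomain_index (fun _ => zero_smul _ _) (fun _ _ _ => add_smul _ _ _)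

lemma M3Fox_sum_add {A V : Type} [AddCommGroup V] (D D' : A →₀ ℤ) (u : A → V) :
    ((D + D').sum fun t n => n • u t) =
      (D.sum fun t n => n • u t) + D'.sum fun t n => n • u t :=
  map_add (Finsupp.linearCombination ℤ u) D D'

lemma M3Fox_sum_neg {A V : Type} [AddCommGroup V] (D : A →₀ ℤ) (u : A → V) :
    ((-D).sum fun t n => n • u t) = -D.sum fun t n => n • u t :=
  map_neg (Finsupp.linearCombination ℤ u) D

lemma M3Fox_sum_sum {A J V : Type} [Fintype J] [AddCommGroup V] (D : J → (A →₀ ℤ)) (u : A → V) :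
    ((∑ i, D i).sum fun t n => n • u t) = ∑ i, (D i).sum fun t n => n • u t :=
  map_sum (Finsupp.linearCombination ℤ u) D _

lemma M3Fox_push {R V A : Type} [CommRing R] [AddCommGroup V] [Module R V] {S : Submonoid Mat}
    {ρ : Mat → V →ₗ[R] V} (h : IsAct S ρ) (hS : Inside (Gamma0 N) S) (D : Gamma0 N →₀ ℤ)
    {d : Mat} (hd : d ∈ S) (f : Gamma0 N → A) (u : A → Mat)
    (hf : ∀ t, u (f t) = ((t : SL(2, ℤ)) : Mat) * d) (v : V) :
    ((D.mapDomain f).sum fun t n => n • ρ (u t) v) =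
      ρ d (D.sum fun t n => n • ρ ((t : SL(2, ℤ)) : Mat) v) := by
  rw [M3Fox_sum_map f D (fun t => ρ (u t) v), map_finsuppSum]
  refine Finsupp.sum_congr fun t _ => ?_
  rw [map_zsmul, hf, h.map_mul _ (hS _ t.2) _ hd]
  rfl

lemma M3Fox_one : IsFox fb 1 0 := by
  intro R V _ _ _ S ρ h _ c hc
  rw [Z1_one h hc]
  simp

lemma M3Fox_gen (k : Option ι) : ∃ D, IsFox fb (fb.gen k) D := by
  classical
  refine ⟨fun j => if j = k then Finsupp.single 1 1 else 0, ?_⟩
  intro R V _ _ _ S ρ h _ c _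
  rw [Finset.sum_eq_single k]
  · simp [h.map_one]
  · intro j _ hj
    simp [hj]
  · intro hk
    exact absurd (Finset.mem_univ k) hk

lemma M3Fox_mul {g g' : Gamma0 N} {D D' : Option ι → (Gamma0 N →₀ ℤ)} (h1 : IsFox fb g D)
    (h2 : IsFox fb g' D') :
    IsFox fb (g * g') (fun k => (D k).mapDomain (fun t => t * g') + D' k) := by
  intro R V _ _ _ S ρ h hS c hc
  rw [hc.1, h1 R V S ρ h hS c hc, h2 R V S ρ h hS c hc, map_sum, ← Finset.sum_add_distrib]
  refine Finset.sum_congr rfl fun k _ => ?_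
  rw [M3Fox_sum_add _ _ (fun t : Gamma0 N => ρ ((t : SL(2, ℤ)) : Mat) (c (fb.gen k))),
    M3Fox_push h hS (D k) (hS _ g'.2) (fun t => t * g')
      (fun t : Gamma0 N => ((t : SL(2, ℤ)) : Mat)) (fun t => by simp)]

lemma M3Fox_inv {g : Gamma0 N} {D : Option ι → (Gamma0 N →₀ ℤ)} (h1 : IsFox fb g D) :
    IsFox fb g⁻¹ (fun k => -(D k).mapDomain (fun t => t * g⁻¹)) := by
  intro R V _ _ _ S ρ h hS c hc
  have e := hc.1 g g⁻¹
  rw [mul_inv_cancel, Z1_one h hc] at e
  rw [eq_neg_of_add_eq_zero_right e.symm, h1 R V S ρ h hS c hc, map_sum,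
    ← Finset.sum_neg_distrib]
  refine Finset.sum_congr rfl fun k _ => ?_
  rw [M3Fox_sum_neg _ (fun t : Gamma0 N => ρ ((t : SL(2, ℤ)) : Mat) (c (fb.gen k))),
    ← M3Fox_push h hS (D k) (hS _ g⁻¹.2)
    (fun t => t * g⁻¹) (fun t : Gamma0 N => ((t : SL(2, ℤ)) : Mat))
    (fun t => by rw [Subgroup.coe_mul, Matrix.SpecialLinearGroup.coe_mul])]

lemma M3Fox_lift (w : FreeGroup (Option ι)) : ∃ D, IsFox fb (FreeGroup.lift fb.gen w) D := by
  induction w using FreeGroup.induction_on with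
  | C1 => exact ⟨0, by rw [map_one]; exact M3Fox_one fb⟩
  | of k => rw [FreeGroup.lift_apply_of]; exact M3Fox_gen fb k
  | inv_of k ih =>
    obtain ⟨D, hD⟩ := ih
    rw [map_inv]
    exact ⟨_, M3Fox_inv fb hD⟩
  | mul x y ihx ihy =>
    obtain ⟨D, hD⟩ := ihx
    obtain ⟨D', hD'⟩ := ihy
    rw [map_mul]
    exact ⟨_, M3Fox_mul fb hD hD'⟩

lemma exists_fox (g : Gamma0 N) : ∃ D, IsFox fb g D := by
  obtain ⟨w, hw⟩ := fb.span g
  obtain ⟨D, hD⟩ := M3Fox_lift fb w
  refine ⟨D, fun R V _ _ _ S ρ h hS c hc => ?_⟩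
  rw [← hD R V S ρ h hS c hc]
  rcases hw with hw | hw
  · rw [Subtype.ext hw]
  · exact (M3Fox_c_neg hc hw).symm

lemma isFox_fox (g : Gamma0 N) : IsFox fb g (fox fb g) := by
  unfold fox
  rw [dif_pos (exists_fox fb g)]
  exact (exists_fox fb g).choose_spec

lemma foxM_supp {J : Type} [Fintype J] (δ : J → Mat) (k j : Option ι) {g : Mat}
    (hg : g ∈ (foxM fb δ k j).support) :
    ∃ (t : Gamma0 N) (i : J), g = ((t : SL(2, ℤ)) : Mat) * δ i := by
  classical
  unfold foxM at hg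
  obtain ⟨i, _, hi⟩ := Finset.mem_biUnion.1 (Finsupp.support_finsetSum hg)
  obtain ⟨t, _, ht⟩ := Finset.mem_image.1 (Finsupp.mapDomain_support hi)
  exact ⟨t, _, ht.symm⟩

/-- A double coset operator in terms of the values at the generators. -/
lemma dc_fox {R V : Type} [CommRing R] [AddCommGroup V] [Module R V] {S : Submonoid Mat}
    {ρ : Mat → V →ₗ[R] V} {J : Type} [Fintype J] {δ : J → Mat}
    (h : Adm S (Gamma0 N) (Gamma0 N) δ ρ) {c : Gamma0 N → V} (hc : c ∈ Z1 (Gamma0 N) ρ)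
    (j : Option ι) : dcC (Gamma0 N) (Gamma0 N) δ ρ c (fb.gen j) =
      ∑ k, (foxM fb δ k j).sum fun g n => n • ρ g (c (fb.gen k)) := by
  rw [dcC_apply]
  have e : ∀ k, ((foxM fb δ k j).sum fun g n => n • ρ g (c (fb.gen k))) =
      ∑ i, ρ (δ (step (Gamma0 N) δ (fb.gen j) i).1)
        ((fox fb (step (Gamma0 N) δ (fb.gen j) i).2 k).sum fun t n =>
          n • ρ ((t : SL(2, ℤ)) : Mat) (c (fb.gen k))) := by
    intro k
    unfold foxM
    rw [M3Fox_sum_sum _ (fun g : Mat => ρ g (c (fb.gen k)))]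
    refine Finset.sum_congr rfl fun i _ => ?_
    exact M3Fox_push h.act h.inside _ (h.mem _) _ (fun g : Mat => g) (fun _ => rfl) _
  simp only [e]
  rw [Finset.sum_comm]
  refine Finset.sum_congr rfl fun i _ => ?_
  rw [← map_sum, ← isFox_fox fb _ R V S ρ h.act h.inside c hc]

omit [Fintype ι] in
lemma M3Fox_uniq {g : SL(2, ℤ)} {w w' : FreeGroup (Option ι)}
    (h1 : ((FreeGroup.lift fb.gen w : Gamma0 N) : SL(2, ℤ)) = g ∨
      ((FreeGroup.lift fb.gen w : Gamma0 N) : SL(2, ℤ)) = -g)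
    (h2 : ((FreeGroup.lift fb.gen w' : Gamma0 N) : SL(2, ℤ)) = g ∨
      ((FreeGroup.lift fb.gen w' : Gamma0 N) : SL(2, ℤ)) = -g) : w = w' := by
  have hneg : (-g)⁻¹ = -g⁻¹ := by
    rw [inv_eq_iff_mul_eq_one]
    simp
  refine inv_mul_eq_one.1 (fb.free _ ?_)
  rw [map_mul, map_inv, Subgroup.coe_mul, Subgroup.coe_inv]
  rcases h1 with h1 | h1 <;> rcases h2 with h2 | h2 <;> rw [h1, h2] <;> simp [hneg]

/-- The affine map `y ↦ y | g + v`. -/
def M3Fox_aff {R V : Type} [CommRing R] [AddCommGroup V] [Module R V] {S : Submonoid Mat}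
    {ρ : Mat → V →ₗ[R] V} (h : IsAct S ρ) (hS : Inside (Gamma0 N) S) (g : Gamma0 N) (v : V) :
    Equiv.Perm V where
  toFun y := ρ ((g : SL(2, ℤ)) : Mat) y + v
  invFun y := ρ (((g⁻¹ : Gamma0 N) : SL(2, ℤ)) : Mat) (y - v)
  left_inv y := by
    have e := LinearMap.congr_fun (h.map_mul _ (hS _ g.2) _ (hS _ g⁻¹.2)) y
    rw [← Matrix.SpecialLinearGroup.coe_mul, ← Subgroup.coe_mul, mul_inv_cancel] at e
    simp only [OneMemClass.coe_one, Matrix.SpecialLinearGroup.coe_one, h.map_one,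
      LinearMap.id_coe, id_eq, LinearMap.comp_apply] at e
    simp only [add_sub_cancel_right]
    exact e.symm
  right_inv y := by
    have e := LinearMap.congr_fun (h.map_mul _ (hS _ g⁻¹.2) _ (hS _ g.2)) (y - v)
    rw [← Matrix.SpecialLinearGroup.coe_mul, ← Subgroup.coe_mul, inv_mul_cancel] at e
    simp only [OneMemClass.coe_one, Matrix.SpecialLinearGroup.coe_one, h.map_one,
      LinearMap.id_coe, id_eq, LinearMap.comp_apply] at e
    simp only
    rw [← e, sub_add_cancel]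

omit [Fintype ι] in
lemma M3Fox_free {R V : Type} [CommRing R] [AddCommGroup V] [Module R V] {S : Submonoid Mat}
    {ρ : Mat → V →ₗ[R] V} (h : IsAct S ρ) (hS : Inside (Gamma0 N) S) (x : Option ι → V) :
    ∃ c : FreeGroup (Option ι) → V, c 1 = 0 ∧ (∀ k, c (FreeGroup.of k) = x k) ∧
      ∀ w w', c (w * w') =
        ρ (((FreeGroup.lift fb.gen w' : Gamma0 N) : SL(2, ℤ)) : Mat) (c w) + c w' := by
  let φ : FreeGroup (Option ι) →* (Equiv.Perm V)ᵐᵒᵖ :=
    FreeGroup.lift fun k => MulOpposite.op (M3Fox_aff h hS (fb.gen k) (x k))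
  have key : ∀ w, ∃ v, (φ w).unop = M3Fox_aff h hS (FreeGroup.lift fb.gen w) v := by
    intro w
    induction w using FreeGroup.induction_on with
    | C1 =>
      refine ⟨0, ?_⟩
      ext y
      simp [M3Fox_aff, h.map_one]
    | of k => exact ⟨x k, by simp [φ]⟩
    | inv_of k ih =>
      obtain ⟨v, hv⟩ := ih
      refine ⟨-ρ ((((FreeGroup.lift fb.gen (FreeGroup.of k))⁻¹ : Gamma0 N) : SL(2, ℤ)) : Mat) v,
        ?_⟩
      rw [map_inv, map_inv, MulOpposite.unop_inv, hv]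
      ext y
      change ρ _ (y - v) = ρ _ y + _
      rw [map_sub, sub_eq_add_neg]
    | mul a b iha ihb =>
      obtain ⟨v, hv⟩ := iha
      obtain ⟨v', hv'⟩ := ihb
      refine ⟨ρ (((FreeGroup.lift fb.gen b : Gamma0 N) : SL(2, ℤ)) : Mat) v + v', ?_⟩
      rw [map_mul, map_mul, MulOpposite.unop_mul, hv, hv']
      ext y
      change ρ _ (ρ _ y + v) + v' = ρ _ y + _
      rw [Subgroup.coe_mul, Matrix.SpecialLinearGroup.coe_mul,
        h.map_mul _ (hS _ (FreeGroup.lift fb.gen a).2) _ (hS _ (FreeGroup.lift fb.gen b).2),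
        map_add, add_assoc]
      rfl
  refine ⟨fun w => (φ w).unop 0, by simp, fun k => ?_, fun w w' => ?_⟩
  · simp [φ, M3Fox_aff]
  · obtain ⟨v', hv'⟩ := key w'
    simp only [map_mul, MulOpposite.unop_mul, Equiv.Perm.mul_apply, hv']
    change ρ _ _ + v' = _ + (ρ _ 0 + v')
    rw [LinearMap.map_zero, zero_add]

omit [Fintype ι] in
/-- A cocycle can take any values at the generators. -/
lemma exists_cocycle {R V : Type} [CommRing R] [AddCommGroup V] [Module R V] {S : Submonoid Mat}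
    {ρ : Mat → V →ₗ[R] V} (h : IsAct S ρ) (hS : Inside (Gamma0 N) S) (x : Option ι → V) :
    ∃ c ∈ Z1 (Gamma0 N) ρ, ∀ k, c (fb.gen k) = x k := by
  obtain ⟨c, c1, c2, c3⟩ := M3Fox_free fb h hS x
  choose W hW using fb.span
  refine ⟨fun g => c (W g), ⟨fun g g' => ?_, fun g hg => ?_⟩, fun k => ?_⟩
  · have e : W (g * g') = W g * W g' := by
      refine M3Fox_uniq fb (hW (g * g')) ?_
      rw [map_mul, Subgroup.coe_mul, Subgroup.coe_mul]
      rcases hW g with h1 | h1 <;> rcases hW g' with h2 | h2 <;> rw [h1, h2] <;> simp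
    simp only
    rw [e, c3]
    rcases hW g' with h2 | h2
    · rw [h2]
    · rw [h2, Matrix.SpecialLinearGroup.coe_neg, h.map_neg _ (hS _ g'.2)]
  · have e : W g = 1 := by
      refine fb.free _ ?_
      rcases hW g with h1 | h1
      · exact Or.inr (h1.trans hg)
      · exact Or.inl (by rw [h1, hg, neg_neg])
    simp only
    rw [e, c1]
  · have e : W (fb.gen k) = FreeGroup.of k :=
      M3Fox_uniq fb (hW _) (Or.inl (by rw [FreeGroup.lift_apply_of]))
    simp only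
    rw [e, c2]

variable [DecidableEq ι] {K : Type} [NormedField K] {I : Type} [Fintype I] [DecidableEq I]
  {S : Submonoid Mat} {ρ : Mat → Matrix I I K}

lemma vec_bijective (h : IsAct S (mact ρ)) (hS : Inside (Gamma0 N) S) :
    Function.Bijective (vec fb ∘ₗ (Z1 (Gamma0 N) (mact ρ)).subtype) := by
  constructor
  · rw [injective_iff_map_eq_zero]
    intro c hc
    apply Subtype.ext
    funext g
    have e : ∀ k, (c : Gamma0 N → I → K) (fb.gen k) = 0 := fun k =>
      funext fun i => congrFun hc (k, i)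
    rw [isFox_fox fb g K (I → K) S (mact ρ) h hS c c.2]
    simp [e]
  · intro x
    obtain ⟨c, hc, e⟩ := exists_cocycle fb h hS fun k i => x (k, i)
    exact ⟨⟨c, hc⟩, funext fun y => congrFun (e y.1) y.2⟩

lemma vec_unvec (h : IsAct S (mact ρ)) (hS : Inside (Gamma0 N) S) (x : Option ι × I → K) :
    vec fb (unvec fb (mact ρ) x : Gamma0 N → I → K) = x := by
  unfold unvec
  rw [dif_pos (vec_bijective fb h hS)]
  exact (LinearEquiv.ofBijective _ (vec_bijective fb h hS)).apply_symm_apply x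

lemma unvec_vec (h : IsAct S (mact ρ)) (hS : Inside (Gamma0 N) S) (c : Z1 (Gamma0 N) (mact ρ)) :
    unvec fb (mact ρ) (vec fb (c : Gamma0 N → I → K)) = c := by
  unfold unvec
  rw [dif_pos (vec_bijective fb h hS)]
  exact (LinearEquiv.ofBijective _ (vec_bijective fb h hS)).symm_apply_apply c

lemma vec_cob (v : I → K) : vec fb (cob (Gamma0 N) (mact ρ) v) = (dM ρ fb.mat).mulVec v := by
  funext x
  change ((ρ (fb.mat x.1)).mulVec v - v) x.2 = ((ρ (fb.mat x.1) - 1).mulVec v) x.2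
  rw [Matrix.sub_mulVec, Matrix.one_mulVec]

omit [DecidableEq I] in
lemma M3Fox_lin (F : Mat →₀ ℤ) (v : I → K) :
    (lin ρ F).mulVec v = F.sum fun g n => n • (ρ g).mulVec v := by
  unfold lin Finsupp.sum
  rw [Matrix.sum_mulVec]
  refine Finset.sum_congr rfl fun g _ => ?_
  rw [Matrix.smul_mulVec, Int.cast_smul_eq_zsmul]

lemma vec_dc {J : Type} [Fintype J] {δ : J → Mat} (h : Adm S (Gamma0 N) (Gamma0 N) δ (mact ρ))
    {c : Gamma0 N → I → K} (hc : c ∈ Z1 (Gamma0 N) (mact ρ)) :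
    vec fb (dcC (Gamma0 N) (Gamma0 N) δ (mact ρ) c) = (chM ρ (foxM fb δ)).mulVec (vec fb c) := by
  funext x
  change dcC (Gamma0 N) (Gamma0 N) δ (mact ρ) c (fb.gen x.1) x.2 = _
  rw [dc_fox fb h hc, Finset.sum_apply, Matrix.mulVec, dotProduct, Fintype.sum_prod_type]
  refine Finset.sum_congr rfl fun k _ => ?_
  exact (congrFun (M3Fox_lin (ρ := ρ) (foxM fb δ k x.1) (c (fb.gen k))) x.2).symm

lemma chM_dM {J : Type} [Fintype J] {δ : J → Mat} (h : Adm S (Gamma0 N) (Gamma0 N) δ (mact ρ)) :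
    chM ρ (foxM fb δ) * dM ρ fb.mat = dM ρ fb.mat * ∑ i, ρ (δ i) := by
  refine Matrix.toLin'.injective (LinearMap.ext fun v => ?_)
  rw [Matrix.toLin'_apply, Matrix.toLin'_apply, ← Matrix.mulVec_mulVec, ← Matrix.mulVec_mulVec,
    ← vec_cob, ← vec_dc fb h (cob_mem h.act h.inside v), dcC_cob h, vec_cob, Matrix.sum_mulVec]
  rfl

end Pool.Agent.Lib.MP_88d29b_nt.G.M3
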