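import Pool.Agent.Lib.MP_88d29b_nt.M3Fox
import Pool.Agent.Lib.MP_88d29b_nt.M3Cov
import Pool.Agent.Lib.MP_88d29b_nt.M3Sig
import Pool.Agent.Lib.MP_88d29b_nt.M3Act

/-!
Factorisation of the characteristic series and change of level.
-/

set_option autoImplicit false

noncomputable section

namespace Pool.Agent.Lib.MP_88d29b_nt.G.M3

open Finset CongruenceSubgroup
open scoped MatrixGroups

variable {K : Type} [NormedField K] [CharZero K] {p : ℕ} [hp : Fact p.Prime] {M : ℕ} {ι : Type}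
  [Fintype ι] [DecidableEq ι] (fb : FB (M * p) ι)

omit [Fintype ι] [DecidableEq ι] in
lemma mat_mem (k : Option ι) : fb.mat k ∈ Sg p := inside_Sg (dvd_mul_left p M) _ (fb.gen k).2

omit [DecidableEq ι] in
lemma foxU_UT (k j : Option ι) {g : Mat} (hg : g ∈ (foxU p fb k j).support) : UT p g := by
  obtain ⟨t, i, rfl⟩ := foxM_supp fb _ k j hg
  exact UT_mul (inside_Sg (dvd_mul_left p M) _ t.2) (uRep_UT M i)

omit [Fintype ι] [DecidableEq ι] hp in
lemma good_fb (q : ℕ) [NeZero q] (κ : ℕ) {ψ : ℤ → K} (hψ : ψ 1 = 1) :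
    (sdq K q κ).Good (actCl q q κ ψ (fb.mat none)) := by
  rw [FB.mat, fb.gen_none]
  exact good_sdq q κ hψ

/-- The matrix of `U` on cochains. -/
def UCl (q κ : ℕ) (ψ : ℤ → K) : Matrix (Option ι × Ix q κ) (Option ι × Ix q κ) K :=
  chM (actCl q q κ ψ) (foxU p fb)

variable (p M) in
/-- The matrix of `U` on functions that vanish at zero. -/
def U0E (q : ℕ) [NeZero q] (κ : ℕ) (ψ : ℤ → K) : Matrix (Ix q κ) (Ix q κ) K :=
  (∑ a, actCl q q κ ψ (uRep p M a)) * (sdq K q κ).E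

section Aux

variable {I J I' : Type} [Fintype I] [Fintype J] [Fintype I']

/-- The block diagonal matrix with constant block `B`. -/
def m3level_diag (ι : Type) [DecidableEq ι] {I J : Type} (B : Matrix I J K) :
    Matrix (Option ι × I) (Option ι × J) K := fun x y => if x.1 = y.1 then B x.2 y.2 else 0

omit [CharZero K] [Fintype J] [Fintype I'] in
lemma m3level_mul_lin (B : Matrix I' I K) (σ : Mat → Matrix I J K) (F : Mat →₀ ℤ) :
    B * lin σ F = lin (fun g => B * σ g) F := by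
  simp only [lin, Finsupp.sum, Matrix.mul_sum, Matrix.mul_smul]

omit [CharZero K] [Fintype I] [Fintype I'] in
lemma m3level_lin_mul (σ : Mat → Matrix I J K) (B : Matrix J I' K) (F : Mat →₀ ℤ) :
    lin σ F * B = lin (fun g => σ g * B) F := by
  simp only [lin, Finsupp.sum, Matrix.sum_mul, Matrix.smul_mul]

omit [CharZero K] [Fintype J] [Fintype I'] in
lemma m3level_diag_mul (B : Matrix I' I K) (σ : Mat → Matrix I J K)
    (F : Option ι → Option ι → (Mat →₀ ℤ)) :
    m3level_diag ι B * chM σ F = chM (fun g => B * σ g) F := by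
  ext x y
  rw [chM, ← m3level_mul_lin, Matrix.mul_apply, Matrix.mul_apply, Fintype.sum_prod_type,
    Finset.sum_eq_single x.1]
  · simp [m3level_diag, chM]
  · intro k _ hk
    simp [m3level_diag, hk.symm]
  · simp

omit [CharZero K] [Fintype I] [Fintype I'] in
lemma m3level_mul_diag (σ : Mat → Matrix I J K) (B : Matrix J I' K)
    (F : Option ι → Option ι → (Mat →₀ ℤ)) :
    chM σ F * m3level_diag ι B = chM (fun g => σ g * B) F := by
  ext x y
  rw [chM, ← m3level_lin_mul, Matrix.mul_apply, Matrix.mul_apply, Fintype.sum_prod_type,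
    Finset.sum_eq_single y.1]
  · simp [m3level_diag, chM]
  · intro k _ hk
    simp [m3level_diag, hk]
  · simp

omit [CharZero K] in
lemma m3level_E [DecidableEq I] [DecidableEq J] (sd : SD I K) (sd' : SD J K) {B : Matrix I J K}
    (hB : ∀ y, y ≠ sd'.z → B sd.z y = 0) : sd.E * (B * sd'.E) = B * sd'.E := by
  ext x y
  rw [m3alg_E_mul]
  split_ifs with hx
  · rw [m3alg_mul_E, hx]
    split_ifs with hy
    · rfl
    · exact (hB y hy).symm
  · rfl

end Aux

omit [CharZero K] in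
lemma m3level_inc_down {q q' h0 h : ℕ} [NeZero q] [NeZero q'] (e : q = p ^ h)
    (e' : q' = p ^ (h + 1)) (hh : h0 ≤ h) {ψ : ℤ → K} (hψ : IsChar p h0 ψ) (κ : ℕ) {g : Mat}
    (hg : UT p g) :
    actCl q q' κ ψ 1 * actCl q' q κ ψ g = actCl q' q' κ ψ g ∧
      actCl q' q κ ψ g * actCl q q' κ ψ 1 = actCl q q κ ψ g := by
  have hq : (q' : ℤ) = p * q := by rw [e, e']; push_cast; ring
  have ha : (q' : ℤ) ∣ g 0 0 * q := by rw [hq]; exact mul_dvd_mul_right hg.2 _
  have hc : (q' : ℤ) ∣ g 1 0 * q := by rw [hq]; exact mul_dvd_mul_right hg.1.1 _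
  have ha1 : (q : ℤ) ∣ (1 : Mat) 0 0 * q' := by rw [hq]; exact ⟨p, by simp [mul_comm]⟩
  have hc1 : (q : ℤ) ∣ (1 : Mat) 1 0 * q' := by simp
  constructor
  · rw [actCl_mul e' e hh hψ κ hg.1 (Sg p).one_mem ha hc ha1 hc1, mul_one]
  · rw [actCl_mul e e' (hh.trans (Nat.le_succ h)) hψ κ (Sg p).one_mem hg.1 ha1 hc1 ha hc, one_mul]

omit [CharZero K] hp in
lemma m3level_row (q1 q2 : ℕ) [NeZero q1] (κ : ℕ) {ψ : ℤ → K} (hψ : ψ 1 = 1) (y : Ix q1 κ) :
    (∑ a, actCl q1 q2 κ ψ (uRep p M a)) (0, 0) y = if y = (0, 0) then (p : K) else 0 := by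
  rw [Matrix.sum_apply, Finset.sum_congr rfl fun a _ =>
    actCl_row_zero q1 q2 hψ κ (g := uRep p M a) (by simp [uRep]) (by simp [uRep]) y]
  split_ifs <;> simp

omit [CharZero K] hp in
lemma U0_row (q : ℕ) [NeZero q] (κ : ℕ) {ψ : ℤ → K} (hψ : ψ 1 = 1) (y : Ix q κ) :
    (∑ a, actCl q q κ ψ (uRep p M a)) (0, 0) y = if y = (0, 0) then (p : K) else 0 := by
  exact m3level_row q q κ hψ y

lemma crev_UCl (hM : M ≠ 0) {q h0 h : ℕ} [NeZero q] (e : q = p ^ h) (hh : h0 ≤ h) {ψ : ℤ → K}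
    (hψ : IsChar p h0 ψ) {κ : ℕ} (hκ : Even κ) :
    (UCl fb q κ ψ).charpolyRev = (U0E p M q κ ψ).charpolyRev * (PCl p fb q κ ψ).charpolyRev := by
  refine crev_factor (γ := fb.mat) (good_fb fb q κ hψ.one) (chM_dM fb (adm_uCl e hh hψ hκ M hM))
    fun y hy => ?_
  exact (U0_row q κ hψ.one y).trans (if_neg hy)

omit [CharZero K] in
lemma crev_UCl_succ {q q' h0 h : ℕ} [NeZero q] [NeZero q'] (e : q = p ^ h) (e' : q' = p ^ (h + 1))
    (hh : h0 ≤ h) {ψ : ℤ → K} (hψ : IsChar p h0 ψ) (κ : ℕ) :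
    (UCl fb q' κ ψ).charpolyRev = (UCl fb q κ ψ).charpolyRev := by
  have h1 : UCl fb q' κ ψ =
      m3level_diag ι (actCl q q' κ ψ 1) * chM (actCl q' q κ ψ) (foxU p fb) := by
    rw [m3level_diag_mul]
    exact chM_congr fun k j g hg => (m3level_inc_down e e' hh hψ κ (foxU_UT fb k j hg)).1.symm
  have h2 : UCl fb q κ ψ =
      chM (actCl q' q κ ψ) (foxU p fb) * m3level_diag ι (actCl q q' κ ψ 1) := by
    rw [m3level_mul_diag]
    exact chM_congr fun k j g hg => (m3level_inc_down e e' hh hψ κ (foxU_UT fb k j hg)).2.symm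
  rw [h1, h2, crev_mul_comm]

omit [CharZero K] in
lemma crev_U0E_succ {q q' h0 h : ℕ} [NeZero q] [NeZero q'] (e : q = p ^ h) (e' : q' = p ^ (h + 1))
    (hh : h0 ≤ h) {ψ : ℤ → K} (hψ : IsChar p h0 ψ) (κ : ℕ) :
    (U0E p M q' κ ψ).charpolyRev = (U0E p M q κ ψ).charpolyRev := by
  set D := ∑ a, actCl q' q κ ψ (uRep p M a) with hD
  set c := actCl q q' κ ψ 1 with hc
  have h1 : ∑ a, actCl q' q' κ ψ (uRep p M a) = c * D := by
    rw [hD, Matrix.mul_sum]
    exact Finset.sum_congr rfl fun a _ => (m3level_inc_down e e' hh hψ κ (uRep_UT M a)).1.symm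
  have h2 : ∑ a, actCl q q κ ψ (uRep p M a) = D * c := by
    rw [hD, Matrix.sum_mul]
    exact Finset.sum_congr rfl fun a _ => (m3level_inc_down e e' hh hψ κ (uRep_UT M a)).2.symm
  have h3 : (sdq K q κ).E * (D * (sdq K q' κ).E) = D * (sdq K q' κ).E :=
    m3level_E _ _ fun y hy => (m3level_row q' q κ hψ.one y).trans (if_neg hy)
  have h4 : (sdq K q' κ).E * (c * (sdq K q κ).E) = c * (sdq K q κ).E :=
    m3level_E _ _ fun y hy =>
      (actCl_row_zero q q' hψ.one κ (g := 1) (by simp) (by simp) y).trans (if_neg hy)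
  rw [U0E, U0E, h1, h2, Matrix.mul_assoc c, ← h3, ← Matrix.mul_assoc c, crev_mul_comm,
    Matrix.mul_assoc D, h4, Matrix.mul_assoc D]

/-- The characteristic series does not depend on the level. -/
theorem crev_PCl_level (hM : M ≠ 0) {q q' h0 h h' : ℕ} [NeZero q] [NeZero q'] (e : q = p ^ h)
    (e' : q' = p ^ h') (hh : h0 ≤ h) (hh' : h ≤ h') {ψ : ℤ → K} (hψ : IsChar p h0 ψ) {κ : ℕ} (hκ : Even κ) :
    (PCl p fb q' κ ψ).charpolyRev = (PCl p fb q κ ψ).charpolyRev := by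
  obtain ⟨n, rfl⟩ := Nat.exists_eq_add_of_le hh'
  clear hh'
  induction n generalizing q' with
  | zero =>
    obtain rfl : q' = q := e'.trans e.symm
    rfl
  | succ n ih =>
    have : NeZero (p ^ (h + n)) := ⟨pow_ne_zero _ hp.out.ne_zero⟩
    have hn : h0 ≤ h + n := hh.trans (Nat.le_add_right h n)
    rw [← ih (q' := p ^ (h + n)) rfl]
    have h1 := crev_UCl fb hM e' (hn.trans (Nat.le_succ _)) hψ hκ
    have h2 := crev_UCl fb hM (q := p ^ (h + n)) rfl hn hψ hκ
    rw [crev_UCl_succ fb (q := p ^ (h + n)) rfl e' hn hψ κ,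
      crev_U0E_succ (q := p ^ (h + n)) rfl e' hn hψ κ, h2] at h1
    refine (mul_left_cancel₀ (fun h0 => ?_) h1).symm
    have h3 := Matrix.eval_charpolyRev (M := U0E p M (p ^ (h + n)) κ ψ)
    rw [h0, Polynomial.eval_zero] at h3
    exact zero_ne_one h3

/-- Level one. -/
theorem crev_PCl_one (κ : ℕ) :
    (PCl p fb 1 κ (fun _ => (1 : Kp p))).charpolyRev = (PV p fb κ (uRep p M)).charpolyRev := by
  let e : Fin (κ + 1) ≃ Ix 1 κ :=
    ⟨fun m => (0, m), fun x => x.2, fun _ => rfl, fun x => Prod.ext (Subsingleton.elim _ _) rfl⟩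
  have he : ∀ m, e m = (0, m) := fun _ => rfl
  have hA : chM (actV (Kp p) κ) (foxM fb (uRep p M)) =
      (chM (actCl 1 1 κ (fun _ => (1 : Kp p))) (foxU p fb)).submatrix (Prod.map id e)
        (Prod.map id e) := by
    ext x y
    simp only [chM, Matrix.submatrix_apply, Prod.map_fst, Prod.map_snd, id, lin_apply, he,
      actCl_level_one, foxU]
  have h := PP_reindex (ρ := actCl 1 1 κ (fun _ => (1 : Kp p))) (γ := fb.mat)
    (sd := sdq (Kp p) 1 κ) e (ρ' := actV (Kp p) κ) (sd' := sd0 (Kp p) κ)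
    (fun j => by
      ext m n
      exact (actCl_level_one κ _ m n).symm)
    (by
      ext m n
      change _ = (if (n : ℕ) < κ then sig (Kp p) m n else 0) +
        if (0 : ZMod 1).val < (0 : ZMod 1).val ∧ m = n then 1 else 0
      have h0 : ¬ ((0 : ZMod 1).val < (0 : ZMod 1).val ∧ m = n) := fun hh => lt_irrefl _ hh.1
      rw [if_neg h0, add_zero]
      rfl)
    (by
      funext m
      simp [sd0, sdq, he])
    (by
      funext m
      have h01 : (0 : ZMod 1) = -1 := Subsingleton.elim _ _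
      simp only [sd0, sdq, Function.comp, he, Prod.mk.injEq, h01, true_and])
    (chM (actCl 1 1 κ (fun _ => (1 : Kp p))) (foxU p fb))
  rw [PV, hA, h]
  exact (crev_reindex (Equiv.optionCongr (Equiv.prodCongr (Equiv.refl ι) e)) _).symm

end Pool.Agent.Lib.MP_88d29b_nt.G.M3
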