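import Pool.Agent.Lib.MP_88d29b_nt.M3Ent

/-!
Discs, local matrices and the composition law.
-/

set_option autoImplicit false

noncomputable section

namespace Pool.Agent.Lib.MP_88d29b_nt.G.M3

open Finset CongruenceSubgroup
open scoped MatrixGroups

variable {p : ℕ} [hp : Fact p.Prime]

lemma mem_Sg {g : Mat} : g ∈ Sg p ↔ (p : ℤ) ∣ g 1 0 ∧ ¬ (p : ℤ) ∣ g 1 1 ∧ g.det ≠ 0 := Iff.rfl

lemma M3Loc_not_dvd_one : ¬ (p : ℤ) ∣ 1 := fun h =>
  hp.out.one_lt.ne' (by exact_mod_cast Int.eq_one_of_dvd_one (Int.natCast_nonneg p) h)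

lemma M3Loc_unit {g : Mat} (hg : g ∈ Sg p) (i : ℤ) : ¬ (p : ℤ) ∣ g 1 0 * i + g 1 1 := fun h =>
  hg.2.1 ((dvd_add_right (hg.1.mul_right _)).mp h)

lemma M3Loc_isUnit {q h : ℕ} (hq : q = p ^ h) {x : ℤ} (hx : ¬ (p : ℤ) ∣ x) :
    IsUnit (x : ZMod q) := by
  have hpr : Prime (p : ℤ) := Nat.prime_iff_prime_int.mp hp.out
  have h1 : IsCoprime ((p : ℤ) ^ h) x :=
    ((Prime.coprime_iff_not_dvd hpr).mpr hx).pow_left
  obtain ⟨a, b, hab⟩ := h1
  have h2 : ((a * (p : ℤ) ^ h + b * x : ℤ) : ZMod q) = 1 := by rw [hab]; simp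
  have h3 : (((p : ℤ) ^ h : ℤ) : ZMod q) = 0 := by
    rw [ZMod.intCast_zmod_eq_zero_iff_dvd, hq]
    simp
  rw [Int.cast_add, Int.cast_mul, Int.cast_mul, h3, mul_zero, zero_add] at h2
  exact IsUnit.of_mul_eq_one_right _ h2

lemma M3Loc_disc_dvd {q h : ℕ} (hq : q = p ^ h) {g : Mat} (hg : g ∈ Sg p) (i : ℤ) :
    (q : ℤ) ∣ g 0 0 * i + g 0 1 - (disc q g i).val * (g 1 0 * i + g 1 1) := by
  have : NeZero q := ⟨hq ▸ pow_ne_zero h hp.out.ne_zero⟩
  rw [← ZMod.intCast_zmod_eq_zero_iff_dvd, Int.cast_sub, Int.cast_mul ((disc q g i).val : ℤ),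
    Int.cast_natCast, ZMod.natCast_zmod_val, disc, mul_assoc,
    ZMod.inv_mul_of_unit _ (M3Loc_isUnit hq (M3Loc_unit hg i)), mul_one, sub_self]

lemma inside_Sg {N : ℕ} (hN : p ∣ N) : Inside (Gamma0 N) (Sg p) := by
  intro g hg
  have hc : (p : ℤ) ∣ (g : Mat) 1 0 :=
    (Int.natCast_dvd_natCast.mpr hN).trans (mem_Gamma0_iff.mp hg)
  have hdet : (g : Mat).det = 1 := g.2
  refine ⟨hc, fun hd => ?_, by rw [hdet]; exact one_ne_zero⟩
  rw [Matrix.det_fin_two] at hdet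
  exact M3Loc_not_dvd_one (hdet ▸ dvd_sub (hd.mul_left _) (hc.mul_left _))

lemma uRep_UT (M : ℕ) (a : Fin p) : UT p (uRep p M a) := by
  refine ⟨⟨?_, ?_, ?_⟩, ?_⟩
  · change (p : ℤ) ∣ (p : ℤ) * M * (a : ℕ)
    rw [mul_assoc]
    exact dvd_mul_right _ _
  · exact M3Loc_not_dvd_one
  · rw [uRep, Matrix.det_fin_two_of]
    simpa using hp.out.ne_zero
  · exact dvd_rfl

lemma UT_mul {g g' : Mat} (hg : g ∈ Sg p) (hg' : UT p g') : UT p (g * g') := by
  refine ⟨(Sg p).mul_mem hg hg'.1, ?_⟩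
  simp only [Matrix.mul_apply, Fin.sum_univ_two]
  exact dvd_add (hg'.2.mul_left _) (hg'.1.1.mul_left _)

omit hp in
lemma loc_10 (q1 q2 : ℕ) (g : Mat) (i : ZMod q2) : loc q1 q2 g i 1 0 = g 1 0 * q2 := rfl

omit hp in
lemma loc_11 (q1 q2 : ℕ) (g : Mat) (i : ZMod q2) :
    loc q1 q2 g i 1 1 = g 1 0 * i.val + g 1 1 := rfl

lemma loc_unit {g : Mat} (hg : g ∈ Sg p) (q1 q2 : ℕ) (i : ZMod q2) :
    ¬ (p : ℤ) ∣ loc q1 q2 g i 1 1 := by
  rw [loc_11]
  exact M3Loc_unit hg _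

lemma loc_c_dvd {g : Mat} (hg : g ∈ Sg p) (q1 : ℕ) {q2 h : ℕ} (hq : p ^ h ∣ q2) (i : ZMod q2) :
    (p : ℤ) ^ (h + 1) ∣ loc q1 q2 g i 1 0 := by
  rw [loc_10, pow_succ']
  exact mul_dvd_mul hg.1 (by exact_mod_cast hq)

lemma loc_a_dvd {g : Mat} (hg : UT p g) (q : ℕ) [NeZero q] (i : ZMod q) :
    (p : ℤ) ∣ loc q q g i 0 0 := by
  change (p : ℤ) ∣ (g 0 0 - (disc q g i.val).val * g 1 0) * q / q
  rw [Int.mul_ediv_cancel _ (by exact_mod_cast NeZero.ne q)]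
  exact dvd_sub hg.2 (hg.1.1.mul_left _)

/-- The defining property of the local matrix. -/
lemma loc_spec {q1 q2 h : ℕ} (hq : q1 = p ^ h) {g : Mat} (hg : g ∈ Sg p)
    (ha : (q1 : ℤ) ∣ g 0 0 * q2) (hc : (q1 : ℤ) ∣ g 1 0 * q2) (i : ZMod q2) :
    uu q1 (disc q1 g i.val).val * loc q1 q2 g i = g * uu q2 i.val := by
  have h1 : (q1 : ℤ) ∣ (g 0 0 - (disc q1 g i.val).val * g 1 0) * q2 := by
    rw [sub_mul, mul_assoc]
    exact dvd_sub ha (hc.mul_left _)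
  have h2 := M3Loc_disc_dvd hq hg (i.val : ℤ)
  have e1 := Int.mul_ediv_cancel' h1
  have e2 := Int.mul_ediv_cancel' h2
  ext a b
  fin_cases a <;> fin_cases b <;>
    simp only [uu, loc, Matrix.mul_apply, Fin.sum_univ_two, Matrix.of_apply, Matrix.cons_val',
      Matrix.cons_val_zero, Matrix.cons_val_one, Matrix.cons_val_fin_one, Fin.zero_eta,
      Fin.mk_one, Fin.isValue]
  · rw [e1]; ring
  · rw [e2]; ring
  · ring
  · ring

lemma loc_unique {q1 q2 h : ℕ} (hq : q1 = p ^ h) {g : Mat} (hg : g ∈ Sg p) (i : ZMod q2)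
    {j : ZMod q1} {Y : Mat} (e : uu q1 j.val * Y = g * uu q2 i.val) :
    j = disc q1 g i.val ∧ Y = loc q1 q2 g i := by
  have hq0 : (q1 : ℤ) ≠ 0 := by
    rw [hq]
    exact_mod_cast pow_ne_zero h hp.out.ne_zero
  have : NeZero q1 := ⟨by exact_mod_cast hq0⟩
  have e00 := congrFun (congrFun e 0) 0
  have e01 := congrFun (congrFun e 0) 1
  have e10 := congrFun (congrFun e 1) 0
  have e11 := congrFun (congrFun e 1) 1
  simp only [uu, Matrix.mul_apply, Fin.sum_univ_two, Matrix.of_apply, Matrix.cons_val',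
    Matrix.cons_val_zero, Matrix.cons_val_one, Matrix.cons_val_fin_one, Fin.isValue, zero_mul,
    mul_zero, one_mul, mul_one, zero_add, add_zero] at e00 e01 e10 e11
  have hj : j = disc q1 g i.val := by
    have h1 : ((g 0 0 * i.val + g 0 1 : ℤ) : ZMod q1)
        = j * ((g 1 0 * i.val + g 1 1 : ℤ) : ZMod q1) := by
      rw [← e01, ← e11]
      push_cast
      simp
    rw [disc, h1, mul_assoc, ZMod.mul_inv_of_unit _ (M3Loc_isUnit hq (M3Loc_unit hg _)), mul_one]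
  refine ⟨hj, ?_⟩
  have f00 : Y 0 0 = (g 0 0 - j.val * g 1 0) * q2 / q1 := by
    have : (g 0 0 - j.val * g 1 0) * q2 = q1 * Y 0 0 := by
      rw [sub_mul, ← e00, e10]; ring
    rw [this, Int.mul_ediv_cancel_left _ hq0]
  have f01 : Y 0 1 = (g 0 0 * i.val + g 0 1 - j.val * (g 1 0 * i.val + g 1 1)) / q1 := by
    have : g 0 0 * i.val + g 0 1 - j.val * (g 1 0 * i.val + g 1 1) = q1 * Y 0 1 := by
      rw [← e01, ← e11]; ring
    rw [this, Int.mul_ediv_cancel_left _ hq0]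
  rw [loc, ← hj, ← f00, ← f01, ← e10, ← e11]
  exact Matrix.eta_fin_two Y

omit hp in
/-- At level one the local matrix is the matrix itself. -/
lemma loc_one (g : Mat) (i : ZMod 1) : loc 1 1 g i = g := by
  have h0 : ∀ x : ZMod 1, x.val = 0 := fun x => Nat.lt_one_iff.mp (ZMod.val_lt x)
  rw [loc, h0, h0]
  simp only [Nat.cast_zero, Nat.cast_one, zero_mul, mul_zero, sub_zero, mul_one, Int.ediv_one,
    zero_add]
  exact (Matrix.eta_fin_two g).symm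

variable {K : Type} [NormedField K]

/-- The composition law. -/
lemma actCl_mul {q1 q2 q3 h1 h2 h : ℕ} [NeZero q2] (e1 : q1 = p ^ h1) (e2 : q2 = p ^ h2)
    (hh : h ≤ h2) {ψ : ℤ → K} (hψ : IsChar p h ψ) (κ : ℕ) {g g' : Mat} (hg : g ∈ Sg p)
    (hg' : g' ∈ Sg p) (ha : (q1 : ℤ) ∣ g 0 0 * q2) (hc : (q1 : ℤ) ∣ g 1 0 * q2)
    (ha' : (q2 : ℤ) ∣ g' 0 0 * q3) (hc' : (q2 : ℤ) ∣ g' 1 0 * q3) :
    actCl q2 q3 κ ψ g' * actCl q1 q2 κ ψ g = actCl q1 q3 κ ψ (g * g') := by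
  ext x z
  set i' := disc q2 g' x.1.val with hi'
  have s1 := loc_spec e1 hg ha hc i'
  have s2 := loc_spec e2 hg' ha' hc' x.1
  have s3 : uu q1 (disc q1 g i'.val).val * (loc q1 q2 g i' * loc q2 q3 g' x.1)
      = g * g' * uu q3 x.1.val := by
    rw [← Matrix.mul_assoc, s1, Matrix.mul_assoc, s2, Matrix.mul_assoc]
  obtain ⟨u1, u2⟩ := loc_unique e1 ((Sg p).mul_mem hg hg') x.1 s3
  have hq : Prime (p : ℤ) := Nat.prime_iff_prime_int.mp hp.out
  have hu := loc_unit hg q1 q2 i'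
  have hu' := loc_unit hg' q2 q3 x.1
  have hψ' : ψ ((loc q1 q2 g i' * loc q2 q3 g' x.1) 1 1)
      = ψ (loc q1 q2 g i' 1 1) * ψ (loc q2 q3 g' x.1 1 1) := by
    rw [← hψ.mul _ _ hu hu']
    symm
    refine hψ.congr _ _ (fun H => (hq.dvd_or_dvd H).elim hu hu') ?_
    rw [Matrix.mul_apply, Fin.sum_univ_two, sub_add_cancel_right, dvd_neg]
    exact (loc_c_dvd hg q1 (e2 ▸ pow_dvd_pow p hh) i').mul_right _
  rw [Matrix.mul_apply, Fintype.sum_prod_type, Finset.sum_eq_single i']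
  · simp only [actCl, ← hi', if_true, ← u1, ← u2]
    split_ifs with H
    · rw [hψ', actMat_mul, Matrix.mul_apply]
      push_cast
      rw [Finset.mul_sum]
      exact Finset.sum_congr rfl fun y _ => by ring
    · simp
  · intro b _ hb
    refine Finset.sum_eq_zero fun y _ => ?_
    simp only [actCl, ← hi', if_neg hb, zero_mul]
  · intro H
    exact absurd (Finset.mem_univ _) H

lemma actCl_one {q h : ℕ} [NeZero q] (e : q = p ^ h) {ψ : ℤ → K} (hψ : ψ 1 = 1) (κ : ℕ) :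
    actCl q q κ ψ 1 = 1 := by
  ext x y
  obtain ⟨u1, u2⟩ := loc_unique e (Sg p).one_mem x.1 (j := x.1) (Y := 1)
    (by rw [Matrix.mul_one, Matrix.one_mul])
  simp only [actCl, ← u1, ← u2, actMat_one, Matrix.one_apply_eq, hψ, one_mul, Matrix.one_apply,
    Prod.ext_iff]
  by_cases h1 : y.1 = x.1
  · by_cases h2 : x.2 = y.2 <;> simp [h1, h2]
  · rw [if_neg h1, if_neg fun H => h1 H.1.symm]

lemma isAct_actCl {q h0 h : ℕ} [NeZero q] (e : q = p ^ h) (hh : h0 ≤ h) {ψ : ℤ → K}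
    (hψ : IsChar p h0 ψ) {κ : ℕ} (hκ : Even κ) : IsAct (Sg p) (mact (actCl q q κ ψ)) := by
  refine ⟨?_, fun g hg g' hg' => ?_, fun g hg => ?_⟩
  · rw [mact, actCl_one e hψ.one, Matrix.toLin'_one]
  · rw [mact, mact, mact, ← Matrix.toLin'_mul, actCl_mul e e hh hψ κ hg hg' (dvd_mul_left _ _)
      (dvd_mul_left _ _) (dvd_mul_left _ _) (dvd_mul_left _ _)]
  · have hg' : -g ∈ Sg p := by
      refine ⟨by simpa using hg.1, by simpa using hg.2.1, ?_⟩
      rw [Matrix.det_neg]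
      exact mul_ne_zero (by simp) hg.2.2
    rw [mact, mact]
    congr 1
    ext x y
    have s1 := loc_spec e hg (dvd_mul_left _ _) (dvd_mul_left _ _) x.1
    obtain ⟨u1, u2⟩ := loc_unique e hg' x.1 (j := disc q g x.1.val) (Y := -loc q q g x.1)
      (by rw [Matrix.mul_neg, s1, Matrix.neg_mul])
    have h1 : ψ (-loc q q g x.1 1 1) = ψ (loc q q g x.1 1 1) := by
      rw [← neg_one_mul, hψ.mul _ _ (fun H => M3Loc_not_dvd_one (dvd_neg.mp H))
        (loc_unit hg q q x.1), hψ.neg_one, one_mul]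
    simp only [actCl, ← u1, ← u2, actMat_neg hκ, Matrix.neg_apply, h1]

omit hp in
/-- The row of the value at zero, for a matrix that fixes zero. -/
lemma actCl_row_zero (q1 q2 : ℕ) [NeZero q1] {ψ : ℤ → K} (hψ : ψ 1 = 1) (κ : ℕ) {g : Mat}
    (hb : g 0 1 = 0) (hd : g 1 1 = 1) (y : Ix q1 κ) :
    actCl q1 q2 κ ψ g (0, 0) y = if y = (0, 0) then 1 else 0 := by
  have h0 : disc q1 g ((0 : ZMod q2).val : ℤ) = 0 := by simp [disc, hb]
  have h01 : loc q1 q2 g 0 0 1 = 0 := by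
    change (g 0 0 * ((0 : ZMod q2).val : ℤ) + g 0 1 - (disc q1 g ((0 : ZMod q2).val : ℤ)).val *
      (g 1 0 * ((0 : ZMod q2).val : ℤ) + g 1 1)) / q1 = 0
    rw [h0]
    simp [hb]
  have h11 : loc q1 q2 g 0 1 1 = 1 := by rw [loc_11]; simp [hd]
  have ha : actMat κ (loc q1 q2 g 0) 0 y.2 = if y.2 = 0 then 1 else 0 := by
    simp only [actMat, h01, h11, Fin.val_zero, Polynomial.coeff_zero_eq_eval_zero]
    by_cases H : y.2 = 0
    · simp [H]
    · have : (y.2 : ℕ) ≠ 0 := fun h => H (Fin.ext h)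
      simp [H, this]
  simp only [actCl, h0, h11, hψ, one_mul, ha, Prod.ext_iff]
  by_cases h1 : y.1 = 0 <;> by_cases h2 : y.2 = 0 <;> simp [h1, h2]

omit hp in
/-- Level one. -/
lemma actCl_level_one (κ : ℕ) (g : Mat) (m n : Fin (κ + 1)) :
    actCl 1 1 κ (fun _ => (1 : K)) g (0, m) (0, n) = actV K κ g m n := by
  simp only [actCl, loc_one, one_mul, actV, Matrix.map_apply]
  exact if_pos (Subsingleton.elim _ _)

end Pool.Agent.Lib.MP_88d29b_nt.G.M3
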