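import Pool.Agent.Lib.MP_88d29b_nt.M3Defs

/-!
Basic facts on the norm.
-/

set_option autoImplicit false

noncomputable section

namespace Pool.Agent.Lib.MP_88d29b_nt.G.M3

open Finset CongruenceSubgroup
open scoped MatrixGroups

variable {K : Type} [NormedField K] [IsUltrametricDist K] {p : ℕ} [hp : Fact p.Prime]

lemma one_lt_p : (1 : ℝ) < p := by exact_mod_cast hp.out.one_lt

lemma one_le_p : (1 : ℝ) ≤ p := one_lt_p.le

lemma p_pos : (0 : ℝ) < p := zero_lt_one.trans one_lt_p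

lemma zpow_le {a b : ℤ} (h : a ≤ b) : (p : ℝ) ^ a ≤ (p : ℝ) ^ b := zpow_le_zpow_right₀ one_le_p h

lemma zpow_pos' (a : ℤ) : 0 < (p : ℝ) ^ a := zpow_pos p_pos a

lemma zpow_mul_zpow (a b : ℤ) : (p : ℝ) ^ a * (p : ℝ) ^ b = (p : ℝ) ^ (a + b) :=
  (zpow_add₀ p_pos.ne' a b).symm

lemma norm_int_le (n : ℤ) : ‖(n : K)‖ ≤ 1 := IsUltrametricDist.norm_intCast_le_one K n

lemma norm_nat_le (n : ℕ) : ‖(n : K)‖ ≤ 1 := IsUltrametricDist.norm_natCast_le_one K n

lemma norm_add_le' {x y : K} {a : ℝ} (hx : ‖x‖ ≤ a) (hy : ‖y‖ ≤ a) : ‖x + y‖ ≤ a :=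
  (IsUltrametricDist.norm_add_le_max x y).trans (max_le hx hy)

lemma norm_sub_le' {x y : K} {a : ℝ} (hx : ‖x‖ ≤ a) (hy : ‖y‖ ≤ a) : ‖x - y‖ ≤ a := by
  rw [sub_eq_add_neg]
  exact norm_add_le' hx (by rwa [norm_neg])

lemma norm_sub_trans {x y z : K} {a : ℝ} (h1 : ‖x - y‖ ≤ a) (h2 : ‖y - z‖ ≤ a) : ‖x - z‖ ≤ a := by
  have := norm_add_le' h1 h2
  rwa [sub_add_sub_cancel] at this

lemma norm_sum_le' {α : Type*} (s : Finset α) (f : α → K) {a : ℝ} (ha : 0 ≤ a)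
    (h : ∀ i ∈ s, ‖f i‖ ≤ a) : ‖∑ i ∈ s, f i‖ ≤ a :=
  IsUltrametricDist.norm_sum_le_of_forall_le_of_nonneg ha h

omit [IsUltrametricDist K] in
lemma norm_mul_le' {x y : K} {a b : ℝ} (hx : ‖x‖ ≤ a) (hy : ‖y‖ ≤ b) : ‖x * y‖ ≤ a * b := by
  rw [norm_mul]
  exact mul_le_mul hx hy (norm_nonneg _) ((norm_nonneg _).trans hx)

lemma norm_eq_of_sub_lt {x y : K} (h : ‖x - y‖ < ‖y‖) : ‖x‖ = ‖y‖ := by
  have := IsUltrametricDist.norm_add_eq_max_of_norm_ne_norm h.ne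
  rwa [sub_add_cancel, max_eq_right h.le] at this

lemma norm_int_of_dvd (hK : ‖(p : K)‖ = (p : ℝ)⁻¹) {n : ℤ} {r : ℕ} (h : (p : ℤ) ^ r ∣ n) :
    ‖(n : K)‖ ≤ (p : ℝ) ^ (-(r : ℤ)) := by
  obtain ⟨m, rfl⟩ := h
  push_cast
  rw [norm_mul, norm_pow, hK, zpow_neg, zpow_natCast, inv_pow]
  exact mul_le_of_le_one_right (by positivity) (norm_int_le m)

lemma norm_int_unit (hK : ‖(p : K)‖ = (p : ℝ)⁻¹) {n : ℤ} (h : ¬ (p : ℤ) ∣ n) : ‖(n : K)‖ = 1 := by
  have hq : Prime (p : ℤ) := Nat.prime_iff_prime_int.mp hp.out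
  obtain ⟨a, b, hab⟩ := (hq.irreducible.coprime_iff_not_dvd.mpr h)
  refine le_antisymm (norm_int_le n) (not_lt.mp fun hlt => ?_)
  have h1 : ((a : K) * p + b * n) = 1 := by exact_mod_cast congrArg (Int.cast : ℤ → K) hab
  have h2 : ‖(a : K) * p‖ < 1 := by
    rw [norm_mul, hK]
    exact (mul_le_of_le_one_left (by positivity) (norm_int_le a)).trans_lt
      (inv_lt_one_of_one_lt₀ one_lt_p)
  have h3 : ‖(b : K) * n‖ < 1 := by
    rw [norm_mul]
    exact (mul_le_of_le_one_left (norm_nonneg _) (norm_int_le b)).trans_lt hlt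
  have := (IsUltrametricDist.norm_add_le_max ((a : K) * p) (b * n)).trans_lt (max_lt h2 h3)
  rw [h1, norm_one] at this
  exact lt_irrefl _ this

/-- The norm of a nonzero natural number. -/
lemma norm_nat_eq (hK : ‖(p : K)‖ = (p : ℝ)⁻¹) {j : ℕ} (hj : j ≠ 0) :
    ‖(j : K)‖ = (p : ℝ) ^ (-(j.factorization p : ℤ)) := by
  have h1 : j = p ^ j.factorization p * (j / p ^ j.factorization p) :=
    (Nat.ordProj_mul_ordCompl_eq_self j p).symm
  have h2 : ¬ (p : ℤ) ∣ ((j / p ^ j.factorization p : ℕ) : ℤ) := by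
    rw [Int.natCast_dvd_natCast]
    exact Nat.not_dvd_ordCompl hp.out hj
  have h3 := norm_int_unit hK h2
  rw [Int.cast_natCast] at h3
  conv_lhs => rw [h1]
  rw [Nat.cast_mul, norm_mul, h3, mul_one, Nat.cast_pow, norm_pow, hK, zpow_neg, zpow_natCast,
    inv_pow]

lemma norm_inv_nat_le (hK : ‖(p : K)‖ = (p : ℝ)⁻¹) (j : ℕ) :
    ‖(j : K)⁻¹‖ ≤ (p : ℝ) ^ Nat.log p j := by
  rcases eq_or_ne j 0 with rfl | hj
  · simp
  rw [norm_inv, norm_nat_eq hK hj, zpow_neg, inv_inv, zpow_natCast]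
  refine pow_le_pow_right₀ one_le_p ?_
  exact Nat.le_log_of_pow_le hp.out.one_lt
    (Nat.le_of_dvd (Nat.pos_of_ne_zero hj) (Nat.ordProj_dvd j p))

lemma norm_inv_factorial_le (hK : ‖(p : K)‖ = (p : ℝ)⁻¹) (j : ℕ) :
    ‖(j.factorial : K)⁻¹‖ ≤ (p : ℝ) ^ j := by
  rw [norm_inv, norm_nat_eq hK j.factorial_ne_zero, zpow_neg, inv_inv, zpow_natCast]
  refine pow_le_pow_right₀ one_le_p ?_
  rcases eq_or_ne j 0 with rfl | hj
  · simp
  rw [Nat.factorization_def _ hp.out]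
  exact (padicValNat_factorial_lt_of_ne_zero p hj).le

lemma log_succ_le (m : ℕ) : Nat.log p (m + 1) ≤ m :=
  Nat.lt_succ_iff.mp (Nat.log_lt_self p (Nat.succ_ne_zero m))

lemma fl_nonneg (m : ℕ) : 0 ≤ fl p m := by
  have := log_succ_le (p := p) m
  unfold fl
  omega

omit hp in
lemma fl_le (m : ℕ) : fl p m ≤ m := by
  unfold fl
  omega

lemma fl_le_succ (m : ℕ) : fl p m ≤ fl p (m + 1) := by
  have h1 : Nat.log p (m + 1 + 1) ≤ Nat.log p (m + 1) + 1 := by
    rw [← Nat.log_mul_base hp.out.one_lt (Nat.succ_ne_zero m)]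
    refine Nat.log_mono_right ?_
    have := hp.out.two_le
    nlinarith
  unfold fl
  push_cast
  omega

lemma fl_mono : Monotone (fl p) := monotone_nat_of_le_succ fl_le_succ

omit hp in
lemma fl_succ_le (m : ℕ) : fl p (m + 1) ≤ fl p m + 1 := by
  have h1 : Nat.log p (m + 1) ≤ Nat.log p (m + 1 + 1) := Nat.log_mono_right (by omega)
  unfold fl
  push_cast
  omega

lemma norm_p_Kp (p : ℕ) [Fact p.Prime] : ‖(p : Kp p)‖ = (p : ℝ)⁻¹ := by
  rw [← map_natCast (algebraMap ℚ_[p] (Kp p)), PadicAlgCl.norm_extends, Padic.norm_p]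

/-- Products of close factors are close. -/
lemma norm_prod_sub_prod {α : Type*} (s : Finset α) (f g : α → K) {β ε : ℝ} (hβ : 1 ≤ β)
    (hε : 0 ≤ ε) (hf : ∀ i ∈ s, ‖f i‖ ≤ β) (hg : ∀ i ∈ s, ‖g i‖ ≤ β)
    (h : ∀ i ∈ s, ‖f i - g i‖ ≤ ε) : ‖∏ i ∈ s, f i - ∏ i ∈ s, g i‖ ≤ ε * β ^ s.card := by
  classical
  induction s using Finset.induction_on with
  | empty => simpa using hε
  | insert a s ha ih =>
    rw [prod_insert ha, prod_insert ha, card_insert_of_notMem ha]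
    have h1 := ih (fun i hi => hf i (mem_insert_of_mem hi)) (fun i hi => hg i (mem_insert_of_mem hi))
      (fun i hi => h i (mem_insert_of_mem hi))
    have h2 : ‖∏ i ∈ s, g i‖ ≤ β ^ s.card := by
      rw [norm_prod, ← prod_const]
      exact prod_le_prod (fun i _ => norm_nonneg _) fun i hi => hg i (mem_insert_of_mem hi)
    have e : f a * ∏ i ∈ s, f i - g a * ∏ i ∈ s, g i =
        f a * (∏ i ∈ s, f i - ∏ i ∈ s, g i) + (f a - g a) * ∏ i ∈ s, g i := by ring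
    rw [e]
    refine norm_add_le' ((norm_mul_le' (hf a (mem_insert_self a s)) h1).trans (le_of_eq (by ring)))
      ((norm_mul_le' (h a (mem_insert_self a s)) h2).trans ?_)
    exact mul_le_mul_of_nonneg_left (pow_le_pow_right₀ hβ (Nat.le_succ _)) hε

section IsPoly

variable {F : Type} [NormedField F]

lemma IsPoly.const (a : F) : IsPoly fun _ : F => a := ⟨Polynomial.C a, fun _ => by simp⟩

lemma IsPoly.id : IsPoly fun w : F => w := ⟨Polynomial.X, fun _ => by simp⟩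

lemma IsPoly.add {f g : F → F} (hf : IsPoly f) (hg : IsPoly g) : IsPoly fun w => f w + g w := by
  obtain ⟨a, ha⟩ := hf
  obtain ⟨b, hb⟩ := hg
  exact ⟨a + b, fun w => by simp [ha, hb]⟩

lemma IsPoly.sub {f g : F → F} (hf : IsPoly f) (hg : IsPoly g) : IsPoly fun w => f w - g w := by
  obtain ⟨a, ha⟩ := hf
  obtain ⟨b, hb⟩ := hg
  exact ⟨a - b, fun w => by simp [ha, hb]⟩

lemma IsPoly.mul {f g : F → F} (hf : IsPoly f) (hg : IsPoly g) : IsPoly fun w => f w * g w := by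
  obtain ⟨a, ha⟩ := hf
  obtain ⟨b, hb⟩ := hg
  exact ⟨a * b, fun w => by simp [ha, hb]⟩

lemma IsPoly.pow {f : F → F} (hf : IsPoly f) (n : ℕ) : IsPoly fun w => f w ^ n := by
  obtain ⟨a, ha⟩ := hf
  exact ⟨a ^ n, fun w => by simp [ha]⟩

lemma IsPoly.div_const {f : F → F} (hf : IsPoly f) (a : F) : IsPoly fun w => f w / a := by
  simpa only [div_eq_mul_inv] using hf.mul (IsPoly.const a⁻¹)

lemma IsPoly.ite {f g : F → F} (hf : IsPoly f) (hg : IsPoly g) (c : Prop) [Decidable c] :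
    IsPoly fun w => if c then f w else g w := by
  split_ifs
  exacts [hf, hg]

lemma IsPoly.sum {α : Type*} (s : Finset α) {f : α → F → F} (h : ∀ i ∈ s, IsPoly (f i)) :
    IsPoly fun w => ∑ i ∈ s, f i w := by
  classical
  induction s using Finset.induction_on with
  | empty => simpa using IsPoly.const 0
  | insert a s ha ih =>
    simp only [sum_insert ha]
    exact (h a (mem_insert_self a s)).add (ih fun i hi => h i (mem_insert_of_mem hi))

lemma IsPoly.prod {α : Type*} (s : Finset α) {f : α → F → F} (h : ∀ i ∈ s, IsPoly (f i)) :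
    IsPoly fun w => ∏ i ∈ s, f i w := by
  classical
  induction s using Finset.induction_on with
  | empty => simpa using IsPoly.const 1
  | insert a s ha ih =>
    simp only [prod_insert ha]
    exact (h a (mem_insert_self a s)).mul (ih fun i hi => h i (mem_insert_of_mem hi))

end IsPoly

end Pool.Agent.Lib.MP_88d29b_nt.G.M3
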