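import Pool.Agent.Lib.MP_88d29b_nt.M3Fox
import Pool.Agent.Lib.MP_88d29b_nt.M3Bd

/-!
The map from the bordered model to cohomology.
-/

set_option autoImplicit false

noncomputable section

namespace Pool.Agent.Lib.MP_88d29b_nt.G.M3

open Finset CongruenceSubgroup
open scoped MatrixGroups

variable {N : ℕ} {ι : Type} [Fintype ι] [DecidableEq ι] (fb : FB N ι) {K : Type} [NormedField K]
  {I : Type} [Fintype I] [DecidableEq I] {S : Submonoid Mat} {ρ : Mat → Matrix I I K} {sd : SD I K}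

lemma m3theta_apply (x : Option (ι × I) → K) : theta fb (mact ρ) sd x =
    Submodule.Quotient.mk (unvec fb (mact ρ) ((jM ι sd).mulVec x)) := rfl

lemma m3theta_dM (h : IsAct S (mact ρ)) (hS : Inside (Gamma0 N) S) (w : I → K) :
    (Submodule.Quotient.mk (unvec fb (mact ρ) ((dM ρ fb.mat).mulVec w)) :
      H1 (Gamma0 N) (mact ρ)) = 0 := by
  rw [Submodule.Quotient.mk_eq_zero, ← vec_cob]
  have e := unvec_vec fb h hS ⟨cob (Gamma0 N) (mact ρ) w, cob_mem h hS w⟩
  refine ⟨w, ?_⟩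
  exact (congrArg Subtype.val e).symm

lemma m3theta_pi (h : IsAct S (mact ρ)) (hS : Inside (Gamma0 N) S)
    (hg : sd.Good (ρ (fb.mat none))) (v : Option ι × I → K) :
    theta fb (mact ρ) sd ((piM ρ fb.mat sd).mulVec v) =
      Submodule.Quotient.mk (unvec fb (mact ρ) v) := by
  have e1 : jM ι sd * piM ρ fb.mat sd = 1 - dM ρ fb.mat * sZ ι sd := by
    rw [← jM_piM hg, add_sub_cancel_right]
  rw [m3theta_apply, Matrix.mulVec_mulVec, e1, Matrix.sub_mulVec, Matrix.one_mulVec, map_sub,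
    Submodule.Quotient.mk_sub, ← Matrix.mulVec_mulVec, m3theta_dM fb h hS, sub_zero]

lemma theta_piM (h : IsAct S (mact ρ)) (hS : Inside (Gamma0 N) S) (hg : sd.Good (ρ (fb.mat none)))
    (c : Z1 (Gamma0 N) (mact ρ)) :
    theta fb (mact ρ) sd ((piM ρ fb.mat sd).mulVec (vec fb (c : Gamma0 N → I → K))) =
      Submodule.Quotient.mk c := by
  rw [m3theta_pi fb h hS hg, unvec_vec fb h hS]

lemma theta_surj (h : IsAct S (mact ρ)) (hS : Inside (Gamma0 N) S)
    (hg : sd.Good (ρ (fb.mat none))) : Function.Surjective (theta fb (mact ρ) sd) := by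
  intro y
  induction y using Submodule.Quotient.induction_on with
  | _ c => exact ⟨_, theta_piM fb h hS hg c⟩

lemma theta_ker_le (h : IsAct S (mact ρ)) (hS : Inside (Gamma0 N) S)
    (hg : sd.Good (ρ (fb.mat none))) : LinearMap.ker (theta fb (mact ρ) sd) ≤
      Submodule.span K {(piM ρ fb.mat sd * dM ρ fb.mat).mulVec (Pi.single sd.z 1)} := by
  intro x hx
  rw [LinearMap.mem_ker, m3theta_apply, Submodule.Quotient.mk_eq_zero] at hx
  obtain ⟨v, hv⟩ := mem_B1.1 hx
  have e1 : (dM ρ fb.mat).mulVec v = (jM ι sd).mulVec x := by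
    rw [← vec_cob, hv, vec_unvec fb h hS]
  have e2 : x = (piM ρ fb.mat sd * dM ρ fb.mat).mulVec v := by
    rw [← Matrix.mulVec_mulVec, e1, Matrix.mulVec_mulVec, piM_jM hg, Matrix.one_mulVec]
  have e3 : v = sd.E.mulVec v + v sd.z • (Pi.single sd.z 1 : I → K) := by
    funext y
    rw [Pi.add_apply, SD.E, Matrix.mulVec_diagonal, Pi.smul_apply, Pi.single_apply]
    split_ifs with hy
    · simp [hy]
    · simp
  rw [e2, e3, Matrix.mulVec_add, Matrix.mulVec_mulVec, piM_dM_E hg, Matrix.zero_mulVec, zero_add,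
    Matrix.mulVec_smul]
  exact Submodule.smul_mem _ _ (Submodule.mem_span_singleton_self _)

lemma theta_ker (h : IsAct S (mact ρ)) (hS : Inside (Gamma0 N) S)
    (hg : sd.Good (ρ (fb.mat none))) :
    Module.finrank K (LinearMap.ker (theta fb (mact ρ) sd)) ≤ 1 := by
  refine (Submodule.finrank_mono (theta_ker_le fb h hS hg)).trans ?_
  simpa using finrank_span_le_card (R := K)
    ({(piM ρ fb.mat sd * dM ρ fb.mat).mulVec (Pi.single sd.z 1)} : Set (Option (ι × I) → K))

lemma theta_dc {J : Type} [Fintype J] {δ : J → Mat} (h : Adm S (Gamma0 N) (Gamma0 N) δ (mact ρ))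
    (hg : sd.Good (ρ (fb.mat none))) :
    theta fb (mact ρ) sd ∘ₗ Matrix.toLin' (PP ρ fb.mat sd (chM ρ (foxM fb δ))) =
      dcH h ∘ₗ theta fb (mact ρ) sd := by
  refine LinearMap.ext fun x => ?_
  rw [LinearMap.comp_apply, LinearMap.comp_apply, Matrix.toLin'_apply, PP, ← Matrix.mulVec_mulVec,
    ← Matrix.mulVec_mulVec, m3theta_pi fb h.act h.inside hg, m3theta_apply, dcH_mk]
  obtain ⟨c, hc⟩ : ∃ c, c = unvec fb (mact ρ) ((jM ι sd).mulVec x) := ⟨_, rfl⟩
  have e1 : (jM ι sd).mulVec x = vec fb (c : Gamma0 N → I → K) := by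
    rw [hc, vec_unvec fb h.act h.inside]
  rw [← hc, e1, ← vec_dc fb h c.2, ← coe_dcZ h, unvec_vec fb h.act h.inside]

lemma finite_H1 (h : IsAct S (mact ρ)) (hS : Inside (Gamma0 N) S)
    (hg : sd.Good (ρ (fb.mat none))) : Module.Finite K (H1 (Gamma0 N) (mact ρ)) := by
  exact Module.Finite.of_surjective _ (theta_surj fb h hS hg)

lemma finrank_H1 (h : IsAct S (mact ρ)) (hS : Inside (Gamma0 N) S)
    (hg : sd.Good (ρ (fb.mat none))) :
    Module.finrank K (H1 (Gamma0 N) (mact ρ)) ≤ Fintype.card ι * Fintype.card I + 1 ∧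
      Fintype.card ι * Fintype.card I ≤ Module.finrank K (H1 (Gamma0 N) (mact ρ)) := by
  have e1 := LinearMap.finrank_range_add_finrank_ker (theta fb (mact ρ) sd)
  rw [LinearMap.range_eq_top.2 (theta_surj fb h hS hg), finrank_top, Module.finrank_pi,
    Fintype.card_option, Fintype.card_prod] at e1
  have e2 := theta_ker fb h hS hg
  omega

lemma PP_rank {J : Type} [Fintype J] {δ : J → Mat} (h : Adm S (Gamma0 N) (Gamma0 N) δ (mact ρ))
    (hg : sd.Good (ρ (fb.mat none))) : (PP ρ fb.mat sd (chM ρ (foxM fb δ))).rank ≤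
      Module.finrank K (LinearMap.range (dcH h)) + 1 := by
  have := finite_H1 fb h.act h.inside hg
  obtain ⟨W, hW⟩ : ∃ W, W = LinearMap.range (PP ρ fb.mat sd (chM ρ (foxM fb δ))).mulVecLin :=
    ⟨_, rfl⟩
  have e0 : (PP ρ fb.mat sd (chM ρ (foxM fb δ))).rank = Module.finrank K W := by rw [hW]; rfl
  have e1 := LinearMap.finrank_range_add_finrank_ker (theta fb (mact ρ) sd ∘ₗ W.subtype)
  have e2 : Module.finrank K (LinearMap.range (theta fb (mact ρ) sd ∘ₗ W.subtype))
      ≤ Module.finrank K (LinearMap.range (dcH h)) := by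
    refine Submodule.finrank_mono ?_
    rintro _ ⟨⟨y, hy⟩, rfl⟩
    rw [hW] at hy
    obtain ⟨x, rfl⟩ := hy
    exact ⟨theta fb (mact ρ) sd x, (LinearMap.congr_fun (theta_dc fb h hg) x).symm⟩
  have e3 : Module.finrank K (LinearMap.ker (theta fb (mact ρ) sd ∘ₗ W.subtype)) ≤ 1 := by
    rw [← Submodule.finrank_map_subtype_eq]
    refine (Submodule.finrank_mono ?_).trans (theta_ker fb h.act h.inside hg)
    rintro _ ⟨y, hy, rfl⟩
    exact hy
  omega

/-- The determinant of the bordered matrix. -/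
lemma det_PP {J : Type} [Fintype J] {δ : J → Mat} (h : Adm S (Gamma0 N) (Gamma0 N) δ (mact ρ))
    (hg : sd.Good (ρ (fb.mat none))) (hU : ∀ y, y ≠ sd.z → (∑ i, ρ (δ i)) sd.z y = 0) :
    (PP ρ fb.mat sd (chM ρ (foxM fb δ))).det = LinearMap.det (dcH h) ∨
      (PP ρ fb.mat sd (chM ρ (foxM fb δ))).det =
        (∑ i, ρ (δ i)) sd.z sd.z * LinearMap.det (dcH h) := by
  have hc := theta_dc fb h hg
  have hs := theta_surj fb h.act h.inside hg
  have hxi := PP_xi hg (chM_dM fb h) hU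
  have hk := theta_ker_le fb h.act h.inside hg
  have hk1 := theta_ker fb h.act h.inside hg
  rw [← LinearMap.det_toLin']
  rw [← Matrix.toLin'_apply] at hxi
  generalize Matrix.toLin' (PP ρ fb.mat sd (chM ρ (foxM fb δ))) = f at hc hxi ⊢
  generalize theta fb (mact ρ) sd = θ at hc hs hk hk1
  have he : LinearMap.ker θ ≤ (LinearMap.ker θ).comap f := by
    intro x hx
    rw [Submodule.mem_comap, LinearMap.mem_ker, ← LinearMap.comp_apply, hc, LinearMap.comp_apply,
      LinearMap.mem_ker.1 hx, map_zero]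
  have e1 : f.restrict (p := LinearMap.ker θ) (q := LinearMap.ker θ) he = (∑ i, ρ (δ i)) sd.z sd.z • LinearMap.id := by
    refine LinearMap.ext fun x => Subtype.ext ?_
    obtain ⟨a, ha⟩ := Submodule.mem_span_singleton.1 (hk x.2)
    change f x = (∑ i, ρ (δ i)) sd.z sd.z • (x : Option (ι × I) → K)
    rw [← ha, map_smul, hxi, smul_comm]
  have e2 : LinearMap.det ((LinearMap.ker θ).mapQ (LinearMap.ker θ) f he)
      = LinearMap.det (dcH h) := by
    rw [← LinearMap.det_conj _ (θ.quotKerEquivOfSurjective hs)]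
    congr 1
    refine LinearMap.ext fun y => ?_
    obtain ⟨x, rfl⟩ := hs y
    simp only [LinearMap.comp_apply, LinearEquiv.coe_coe]
    rw [LinearMap.quotKerEquivOfSurjective_symm_apply, Submodule.mapQ_apply,
      LinearMap.quotKerEquivOfSurjective_apply_mk]
    exact LinearMap.congr_fun hc x
  rw [LinearMap.det_eq_det_mul_det (LinearMap.ker θ) f he, e1, e2, LinearMap.det_smul,
    LinearMap.det_id, mul_one]
  rcases Nat.le_one_iff_eq_zero_or_eq_one.1 hk1 with e | e
  · left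
    rw [e, pow_zero, one_mul]
  · right
    rw [e, pow_one]

omit [DecidableEq ι] in
/-- A cocycle is bounded by its values at the generators. -/
lemma cocycle_norm [IsUltrametricDist K] (h : IsAct S (mact ρ)) (hS : Inside (Gamma0 N) S)
    (hρ : ∀ g : Gamma0 N, ∀ x y, ‖ρ ((g : SL(2, ℤ)) : Mat) x y‖ ≤ 1)
    (c : Z1 (Gamma0 N) (mact ρ)) {a : ℝ} (ha : 0 ≤ a)
    (hc : ∀ x, ‖vec fb (c : Gamma0 N → I → K) x‖ ≤ a) (g : Gamma0 N) (m : I) :
    ‖(c : Gamma0 N → I → K) g m‖ ≤ a := by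
  rw [isFox_fox fb g K (I → K) S (mact ρ) h hS c c.2, Finset.sum_apply]
  refine norm_sum_le' _ _ ha fun k _ => ?_
  rw [Finsupp.sum, Finset.sum_apply]
  refine norm_sum_le' _ _ ha fun t _ => ?_
  rw [Pi.smul_apply, zsmul_eq_mul, ← one_mul a]
  refine norm_mul_le' (norm_int_le _) ?_
  rw [mact, Matrix.toLin'_apply, Matrix.mulVec, dotProduct]
  refine norm_sum_le' _ _ ha fun y _ => ?_
  rw [← one_mul a]
  exact norm_mul_le' (hρ t m y) (hc (k, y))

end Pool.Agent.Lib.MP_88d29b_nt.G.M3
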