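import Pool.Agent.Lib.MP_88d29b_nt.M3Cmp
import Pool.Agent.Lib.MP_88d29b_nt.M3Theta
import Pool.Agent.Lib.MP_88d29b_nt.M3AL

/-!
The touching point.
-/

set_option autoImplicit false

noncomputable section

namespace Pool.Agent.Lib.MP_88d29b_nt.G.M3

open Finset CongruenceSubgroup
open scoped MatrixGroups

variable {K : Type} [NormedField K] [IsUltrametricDist K] [CharZero K] {p : ℕ} [hp : Fact p.Prime]
  {M : ℕ} {ι : Type} [Fintype ι] [DecidableEq ι] (fb : FB (M * p) ι)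

omit hp [CharZero K] in
lemma M3Touch_u {ψ : ℤ → K} (hψ : ∀ x : ℤ, ¬ (p : ℤ) ∣ x → ‖ψ x‖ ≤ 1) (κ : ℕ) (x : ℤ)
    (hx : ¬ (p : ℤ) ∣ x) : ‖ψ x * (x : K) ^ κ‖ ≤ 1 := by
  have := norm_mul_le' (hψ x hx) (M3Act_pow (K := K) x κ)
  rwa [one_mul] at this

lemma M3Touch_norm (hK : ‖(p : K)‖ = (p : ℝ)⁻¹) {q h : ℕ} (e : q = p ^ h) (κ : ℕ) {ψ : ℤ → K}
    (hψ : ∀ x : ℤ, ¬ (p : ℤ) ∣ x → ‖ψ x‖ ≤ 1) {g : Mat} (hg : UT p g) (x y : Ix q κ) :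
    ‖actCl q q κ ψ g x y‖ ≤ (p : ℝ) ^ (-((x.2 : ℕ) : ℤ)) := by
  have hw := wt_int (p := p) h (M3Touch_u hψ κ) (κ : ℤ)
  rw [Int.cast_natCast] at hw
  rw [← actM_eq_actCl q κ ψ hg.1]
  exact actM_norm_U hK e κ hw hg x y

lemma M3Touch_one (hK : ‖(p : K)‖ = (p : ℝ)⁻¹) {q h : ℕ} (e : q = p ^ h) (κ : ℕ) {ψ : ℤ → K}
    (hψ : ∀ x : ℤ, ¬ (p : ℤ) ∣ x → ‖ψ x‖ ≤ 1) {g : Mat} (hg : UT p g) (x y : Ix q κ) :
    ‖actCl q q κ ψ g x y‖ ≤ 1 :=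
  (M3Touch_norm hK e κ hψ hg x y).trans ((zpow_le (b := 0) (by omega)).trans (zpow_zero _).le)

lemma M3Touch_far (hK : ‖(p : K)‖ = (p : ℝ)⁻¹) {q h : ℕ} (e : q = p ^ h) {κ κ' : ℕ} {ψ : ℤ → K}
    (hψ : ∀ x : ℤ, ¬ (p : ℤ) ∣ x → ‖ψ x‖ ≤ 1) {g : Mat} (hg : UT p g) {x : Ix q κ'}
    (hx : κ < x.2) (y : Ix q κ') : ‖actCl q q κ' ψ g x y‖ ≤ ((p : ℝ) ^ (κ + 1))⁻¹ := by
  refine (M3Touch_norm hK e κ' hψ hg x y).trans ?_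
  rw [← zpow_natCast (p : ℝ) (κ + 1), ← zpow_neg]
  exact zpow_le (by omega)

lemma M3Touch_lip (hK : ‖(p : K)‖ = (p : ℝ)⁻¹) (q : ℕ) [NeZero q] {κ κ' : ℕ} {ψ : ℤ → K}
    (hψ : ∀ x : ℤ, ¬ (p : ℤ) ∣ x → ‖ψ x‖ ≤ 1) {ε : ℝ} (hs : ‖(κ' : K) - (κ : K)‖ ≤ ε)
    (hu : ∀ x : ℤ, ¬ (p : ℤ) ∣ x → ‖(x : K) ^ κ' - (x : K) ^ κ‖ ≤ ε) {g : Mat} (hg : UT p g)
    (x y : Ix q κ') :
    ‖actCl q q κ' ψ g x y - actM q κ' (fun x => ψ x * (x : K) ^ κ) (κ : K) g x y‖ ≤ ε := by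
  have hε : 0 ≤ ε := (norm_nonneg _).trans hs
  have h1 := actM_lip_U hK q κ' (u := fun x => ψ x * (x : K) ^ κ') (u' := fun x => ψ x * (x : K) ^ κ)
    (s := (κ' : ℤ)) (s' := (κ : ℤ)) (ε := ε) (M3Touch_u hψ κ') (fun x hx => ?_)
    (by rwa [Int.cast_natCast, Int.cast_natCast]) hg x y
  · rw [Int.cast_natCast, Int.cast_natCast, actM_eq_actCl q κ' ψ hg.1] at h1
    refine h1.trans ?_
    rw [mul_assoc, ← zpow_natCast, zpow_mul_zpow]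
    refine mul_le_of_le_one_right hε ((zpow_le (b := 0) ?_).trans (zpow_zero _).le)
    have := log_succ_le (p := p) x.2
    omega
  · have := norm_mul_le' (hψ x hx) (hu x hx)
    rwa [one_mul, mul_sub] at this

lemma M3Touch_h1 (hK : ‖(p : K)‖ = (p : ℝ)⁻¹) (q : ℕ) [NeZero q] {κ κ' : ℕ} (hκ : κ + 1 ≤ κ' + 1)
    {ψ : ℤ → K} (hψ : ∀ x : ℤ, ¬ (p : ℤ) ∣ x → ‖ψ x‖ ≤ 1) {ε : ℝ} (hs : ‖(κ' : K) - (κ : K)‖ ≤ ε)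
    (hu : ∀ x : ℤ, ¬ (p : ℤ) ∣ x → ‖(x : K) ^ κ' - (x : K) ^ κ‖ ≤ ε) {g : Mat} (hg : UT p g)
    (x y : Ix q κ) :
    ‖actCl q q κ' ψ g (Ix.up hκ x) (Ix.up hκ y) - actCl q q κ ψ g x y‖ ≤ ε := by
  have := M3Touch_lip hK q hψ hs hu hg (Ix.up hκ x) (Ix.up hκ y)
  rwa [actM_up, actM_eq_actCl q κ ψ hg.1] at this

lemma M3Touch_h2 (hK : ‖(p : K)‖ = (p : ℝ)⁻¹) (q : ℕ) [NeZero q] {κ κ' : ℕ} (hκ : κ + 1 ≤ κ' + 1)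
    {ψ : ℤ → K} (hψ : ∀ x : ℤ, ¬ (p : ℤ) ∣ x → ‖ψ x‖ ≤ 1) {ε : ℝ} (hs : ‖(κ' : K) - (κ : K)‖ ≤ ε)
    (hu : ∀ x : ℤ, ¬ (p : ℤ) ∣ x → ‖(x : K) ^ κ' - (x : K) ^ κ‖ ≤ ε) {g : Mat} (hg : UT p g)
    {x : Ix q κ'} (hx : κ < x.2) (y : Ix q κ) : ‖actCl q q κ' ψ g x (Ix.up hκ y)‖ ≤ ε := by
  have := M3Touch_lip hK q hψ hs hu hg x (Ix.up hκ y)
  rwa [actM_eq_zero q κ' κ _ g (Nat.lt_succ_iff.mp y.2.2) hx, sub_zero] at this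

lemma M3Touch_inj {q κ κ' : ℕ} (hκ : κ + 1 ≤ κ' + 1) :
    Function.Injective (Ix.up hκ : Ix q κ → Ix q κ') := by
  rintro ⟨a, b⟩ ⟨c, d⟩ hh
  simp only [Ix.up, Prod.mk.injEq] at hh
  exact Prod.ext hh.1 (Fin.castLE_injective hκ hh.2)

lemma M3Touch_lt {q κ κ' : ℕ} (hκ : κ + 1 ≤ κ' + 1) {x : Ix q κ'}
    (hx : x ∉ Set.range (Ix.up hκ : Ix q κ → Ix q κ')) : κ < x.2 := by
  by_contra h
  exact hx ⟨(x.1, ⟨x.2, by omega⟩), rfl⟩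

omit [IsUltrametricDist K] [CharZero K] hp in
lemma M3Touch_U0E (q : ℕ) [NeZero q] (κ : ℕ) (ψ : ℤ → K) (x y : Ix q κ) :
    U0E p M q κ ψ x y = if y = (0, 0) then 0 else ∑ a, actCl q q κ ψ (uRep p M a) x y := by
  rw [U0E, m3alg_mul_E, Matrix.sum_apply]
  rfl

omit [CharZero K] hp in
lemma M3Touch_U0E_le (q : ℕ) [NeZero q] (κ : ℕ) (ψ : ℤ → K) (x y : Ix q κ) {b : ℝ} (hb : 0 ≤ b)
    (h : ∀ a, ‖actCl q q κ ψ (uRep p M a) x y‖ ≤ b) : ‖U0E p M q κ ψ x y‖ ≤ b := by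
  rw [M3Touch_U0E]
  split_ifs
  · rwa [norm_zero]
  · exact norm_sum_le' _ _ hb fun a _ => h a

omit [DecidableEq ι] in
lemma M3Touch_UCl_one (hK : ‖(p : K)‖ = (p : ℝ)⁻¹) {q h : ℕ} (e : q = p ^ h) (κ : ℕ) {ψ : ℤ → K}
    (hψ : ∀ x : ℤ, ¬ (p : ℤ) ∣ x → ‖ψ x‖ ≤ 1) (x y : Option ι × Ix q κ) :
    ‖UCl fb q κ ψ x y‖ ≤ 1 :=
  lin_norm zero_le_one fun _ hg => M3Touch_one hK e κ hψ (foxU_UT fb _ _ hg) _ _

lemma M3Touch_U0E_one (hK : ‖(p : K)‖ = (p : ℝ)⁻¹) {q h : ℕ} [NeZero q] (e : q = p ^ h) (κ : ℕ)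
    {ψ : ℤ → K} (hψ : ∀ x : ℤ, ¬ (p : ℤ) ∣ x → ‖ψ x‖ ≤ 1) (x y : Ix q κ) :
    ‖U0E p M q κ ψ x y‖ ≤ 1 :=
  M3Touch_U0E_le q κ ψ x y zero_le_one fun a => M3Touch_one hK e κ hψ (uRep_UT M a) _ _

omit [IsUltrametricDist K] in
lemma M3Touch_det (hK : ‖(p : K)‖ = (p : ℝ)⁻¹) {q κ : ℕ} [NeZero q] {ψ : ℤ → K} (hψ : ψ 1 = 1)
    (a : Adm (Sg p) (Gamma0 (M * p)) (Gamma0 (M * p)) (uRep p M) (mact (actCl q q κ ψ))) :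
    (p : ℝ)⁻¹ * ‖LinearMap.det (dcH a)‖ ≤ ‖(PCl p fb q κ ψ).det‖ := by
  have h := det_PP fb (sd := sdq K q κ) a (good_fb fb q κ hψ) fun y hy =>
    (U0_row q κ hψ y).trans (if_neg hy)
  have h0 : (∑ i, actCl q q κ ψ (uRep p M i)) (sdq K q κ).z (sdq K q κ).z = (p : K) :=
    (U0_row q κ hψ (0, 0)).trans (if_pos rfl)
  rw [h0] at h
  change (PCl p fb q κ ψ).det = _ ∨ (PCl p fb q κ ψ).det = _ at h
  rcases h with h | h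
  · rw [h]
    exact mul_le_of_le_one_left (norm_nonneg _) (inv_le_one_of_one_le₀ one_le_p)
  · rw [h, norm_mul, hK]

omit [DecidableEq ι] in
lemma M3Touch_card (q κ : ℕ) [NeZero q] :
    Fintype.card (Option (ι × Ix q κ)) = Fintype.card ι * q * (κ + 1) + 1 := by
  rw [Fintype.card_option, Fintype.card_prod, Fintype.card_prod, ZMod.card, Fintype.card_fin,
    mul_assoc]

/-- The cochain matrix in a congruent larger weight is block triangular modulo `ε`. -/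
lemma block_UCl (hK : ‖(p : K)‖ = (p : ℝ)⁻¹) {q h : ℕ} [NeZero q] (e : q = p ^ h) {κ κ' : ℕ}
    (hκ : κ ≤ κ') {ψ : ℤ → K} (hψ : ∀ x : ℤ, ¬ (p : ℤ) ∣ x → ‖ψ x‖ ≤ 1) {ε : ℝ}
    (hs : ‖(κ' : K) - (κ : K)‖ ≤ ε)
    (hu : ∀ x : ℤ, ¬ (p : ℤ) ∣ x → ‖(x : K) ^ κ' - (x : K) ^ κ‖ ≤ ε) :
    ∃ G : Polynomial K, G.coeff 0 = 1 ∧ (∀ j, ‖G.coeff j‖ ≤ (((p : ℝ) ^ (κ + 1))⁻¹) ^ j) ∧
      ∀ n, ‖((UCl fb q κ' ψ).charpolyRev - (UCl fb q κ ψ).charpolyRev * G).coeff n‖ ≤ ε := by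
  have hκ' : κ + 1 ≤ κ' + 1 := Nat.succ_le_succ hκ
  have hε : 0 ≤ ε := (norm_nonneg _).trans hs
  have ha : 0 ≤ ((p : ℝ) ^ (κ + 1))⁻¹ := by positivity
  have hlt : ∀ x : Option ι × Ix q κ', x ∉ Set.range (Prod.map id (Ix.up hκ') :
      Option ι × Ix q κ → Option ι × Ix q κ') → κ < x.2.2 := fun x hx =>
    M3Touch_lt hκ' fun ⟨y, hy⟩ => hx ⟨(x.1, y), Prod.ext rfl hy⟩
  exact crev_block (UCl fb q κ' ψ) (UCl fb q κ ψ) (e := Prod.map id (Ix.up hκ'))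
    (Function.injective_id.prodMap (M3Touch_inj hκ')) hε ha (M3Touch_UCl_one fb hK e κ' hψ)
    (M3Touch_UCl_one fb hK e κ hψ)
    (fun x y => lin_sub_norm hε fun _ hg =>
      M3Touch_h1 hK q hκ' hψ hs hu (foxU_UT fb _ _ hg) x.2 y.2)
    (fun x hx y => lin_norm hε fun _ hg =>
      M3Touch_h2 hK q hκ' hψ hs hu (foxU_UT fb _ _ hg) (hlt x hx) y.2)
    (fun x hx y => lin_norm ha fun _ hg =>
      M3Touch_far hK e hψ (foxU_UT fb _ _ hg) (hlt x hx) y.2)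

lemma block_U0E (hK : ‖(p : K)‖ = (p : ℝ)⁻¹) {q h : ℕ} [NeZero q] (e : q = p ^ h) {κ κ' : ℕ}
    (hκ : κ ≤ κ') {ψ : ℤ → K} (hψ : ∀ x : ℤ, ¬ (p : ℤ) ∣ x → ‖ψ x‖ ≤ 1) {ε : ℝ}
    (hs : ‖(κ' : K) - (κ : K)‖ ≤ ε)
    (hu : ∀ x : ℤ, ¬ (p : ℤ) ∣ x → ‖(x : K) ^ κ' - (x : K) ^ κ‖ ≤ ε) :
    ∃ G : Polynomial K, G.coeff 0 = 1 ∧ (∀ j, ‖G.coeff j‖ ≤ (((p : ℝ) ^ (κ + 1))⁻¹) ^ j) ∧
      ∀ n, ‖((U0E p M q κ' ψ).charpolyRev - (U0E p M q κ ψ).charpolyRev * G).coeff n‖ ≤ ε := by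
  have hκ' : κ + 1 ≤ κ' + 1 := Nat.succ_le_succ hκ
  have hε : 0 ≤ ε := (norm_nonneg _).trans hs
  have ha : 0 ≤ ((p : ℝ) ^ (κ + 1))⁻¹ := by positivity
  refine crev_block (U0E p M q κ' ψ) (U0E p M q κ ψ) (M3Touch_inj hκ') hε ha
    (M3Touch_U0E_one hK e κ' hψ) (M3Touch_U0E_one hK e κ hψ) (fun x y => ?_)
    (fun x hx y => M3Touch_U0E_le q κ' ψ _ _ hε fun a =>
      M3Touch_h2 hK q hκ' hψ hs hu (uRep_UT M a) (M3Touch_lt hκ' hx) y)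
    (fun x hx y => M3Touch_U0E_le q κ' ψ _ _ ha fun a =>
      M3Touch_far hK e hψ (uRep_UT M a) (M3Touch_lt hκ' hx) y)
  have h0 : Ix.up hκ' y = (0, 0) ↔ y = (0, 0) := (M3Touch_inj hκ').eq_iff (b := (0, 0))
  rw [M3Touch_U0E, M3Touch_U0E]
  by_cases hy : y = (0, 0)
  · rwa [if_pos hy, if_pos (h0.mpr hy), sub_zero, norm_zero]
  · rw [if_neg hy, if_neg fun h => hy (h0.mp h), ← sum_sub_distrib]
    exact norm_sum_le' _ _ hε fun a _ => M3Touch_h1 hK q hκ' hψ hs hu (uRep_UT M a) x y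

/-- At a vertex below the slope `κ + 1` the coefficient does not see the larger weight. -/
lemma touch_cong (hK : ‖(p : K)‖ = (p : ℝ)⁻¹) (hM : M ≠ 0) {q h : ℕ} [NeZero q] (e : q = p ^ h)
    {κ κ' : ℕ}
    (hκ : κ ≤ κ') (h1 : Even κ) (h2 : Even κ') {ψ : ℤ → K} (hψ : IsChar p h ψ) {ε : ℝ}
    (hs : ‖(κ' : K) - (κ : K)‖ ≤ ε)
    (hu : ∀ x : ℤ, ¬ (p : ℤ) ∣ x → ‖(x : K) ^ κ' - (x : K) ^ κ‖ ≤ ε) {n : ℕ}
    (hn : ∀ j < n, ‖cn (PCl p fb q κ ψ) j‖ * (((p : ℝ) ^ (κ + 1))⁻¹) ^ (n - j) <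
      ‖cn (PCl p fb q κ ψ) n‖) (hε : ε < ‖cn (PCl p fb q κ ψ) n‖) :
    ‖cn (PCl p fb q κ' ψ) n‖ = ‖cn (PCl p fb q κ ψ) n‖ := by
  obtain ⟨G, hG, bG, c1⟩ := block_UCl fb hK e hκ hψ.norm hs hu
  obtain ⟨G0, hG0, bG0, c2⟩ := block_U0E (M := M) hK e hκ hψ.norm hs hu
  have hp0 := p_pos (p := p)
  exact touch_poly (by positivity) (inv_le_one_of_one_le₀ (one_le_pow₀ one_le_p))
    (crev_UCl fb hM e le_rfl hψ h1) (crev_UCl fb hM e le_rfl hψ h2) (cn_zero _) (cn_zero _)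
    (fun j => (cn_norm_le_pow _ j zero_le_one (M3Touch_U0E_one hK e κ hψ.norm)).trans_eq
      (one_pow j))
    (fun j => (cn_norm_le_pow _ j zero_le_one (M3Touch_U0E_one hK e κ' hψ.norm)).trans_eq
      (one_pow j))
    (fun j => (cn_norm_le_pow _ j zero_le_one (M3Touch_UCl_one fb hK e κ' hψ.norm)).trans_eq
      (one_pow j)) hG bG hG0 bG0 c1 c2 hn hε

/-- For one of the two characters the determinant has at most half of the full valuation. -/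
lemma exists_det [IsAlgClosed K] (hK : ‖(p : K)‖ = (p : ℝ)⁻¹) (hM : Nat.Coprime p M) (hM0 : 0 < M)
    {q : ℕ} [NeZero q] (e : q = p ^ hh p) {κ : ℕ} (hκ : Even κ) :
    ∃ ζ : K, ζ ^ p = 1 ∧ ((p : ℝ) ^ ((κ + 1) * (Fintype.card ι * q * (κ + 1) + 1) + 2))⁻¹ ≤
      ‖(PCl p fb q κ (psi p ζ)).det‖ ^ 2 := by
  obtain ⟨ζ, hζ, h1⟩ := exists_zeta (K := K) (p := p)
  have hζ' : ζ⁻¹ ^ p = 1 := by rw [inv_pow, hζ, inv_one]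
  have hψ := isChar_psi hζ
  have hψ' := isChar_psi hζ'
  have a := adm_uCl e le_rfl hψ hκ M hM0.ne'
  have a' := adm_uCl e le_rfl hψ' hκ M hM0.ne'
  have := finite_H1 fb a.act a.inside (good_fb fb q κ hψ.one)
  have h2 := congrArg norm (det_AL e one_le_hh hM0 hM hψ hψ'
    (prim_psi hζ' (inv_ne_one.mpr h1)) (fun x _ => psi_mul_inv hζ x) a a')
  have h3 := (finrank_H1 fb a.act a.inside (good_fb fb q κ hψ.one)).1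
  rw [Fintype.card_prod, ZMod.card, Fintype.card_fin, ← mul_assoc] at h3
  rw [norm_mul, norm_pow, hK] at h2
  have hp0 := p_pos (p := p)
  have h4 : ((p : ℝ) ^ ((κ + 1) * (Fintype.card ι * q * (κ + 1) + 1) + 2))⁻¹ ≤
      ‖(PCl p fb q κ (psi p ζ)).det‖ * ‖(PCl p fb q κ (psi p ζ⁻¹)).det‖ := by
    refine le_trans ?_ (mul_le_mul (M3Touch_det fb hK hψ.one a) (M3Touch_det fb hK hψ'.one a')
      (by positivity) (norm_nonneg _))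
    rw [mul_mul_mul_comm, h2, ← sq, ← pow_add, ← inv_pow]
    refine pow_le_pow_of_le_one (by positivity) (inv_le_one_of_one_le₀ one_le_p) ?_
    have := Nat.mul_le_mul_left (κ + 1) h3
    omega
  rcases le_total ‖(PCl p fb q κ (psi p ζ)).det‖ ‖(PCl p fb q κ (psi p ζ⁻¹)).det‖ with h | h
  · exact ⟨ζ⁻¹, hζ', h4.trans (by
      rw [sq]; exact mul_le_mul_of_nonneg_right h (norm_nonneg _))⟩
  · exact ⟨ζ, hζ, h4.trans (by rw [sq]; exact mul_le_mul_of_nonneg_left h (norm_nonneg _))⟩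

/-- The touching index. -/
lemma exists_touch [IsAlgClosed K] (hK : ‖(p : K)‖ = (p : ℝ)⁻¹) (hM : Nat.Coprime p M)
    (hM0 : 0 < M) {q : ℕ} [NeZero q] (e : q = p ^ hh p) {κ : ℕ} (hκ : Even κ) :
    ∃ (ζ : K) (n r : ℕ), ζ ^ p = 1 ∧ n + r = Fintype.card ι * q * (κ + 1) + 1 ∧
      (∀ j < n, ‖cn (PCl p fb q κ (psi p ζ)) j‖ * (((p : ℝ) ^ (κ + 1))⁻¹) ^ (n - j) <
        ‖cn (PCl p fb q κ (psi p ζ)) n‖) ∧
      (p : ℝ) ^ (-((((κ : ℝ) + 1) * (n + r) + 2) / 2 - r * ((κ : ℝ) + 1))) ≤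
        ‖cn (PCl p fb q κ (psi p ζ)) n‖ := by
  obtain ⟨ζ, hζ, hdet⟩ := exists_det fb hK hM hM0 e hκ
  have hp0 := p_pos (p := p)
  obtain ⟨n, hnd, h1, h2, -⟩ := exists_vertex (PCl p fb q κ (psi p ζ)).charpolyRev
    (ne_of_eq_of_ne (cn_zero _) one_ne_zero) (Fintype.card ι * q * (κ + 1) + 1)
    (a := ((p : ℝ) ^ (κ + 1))⁻¹) (by positivity)
  obtain ⟨r, hr⟩ := Nat.exists_eq_add_of_le hnd
  refine ⟨ζ, n, r, hζ, hr.symm, h1, ?_⟩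
  have h3 := congrArg norm (cn_card (PCl p fb q κ (psi p ζ)))
  rw [M3Touch_card, norm_mul, norm_pow, norm_neg, norm_one, one_pow, one_mul, cn] at h3
  rw [h3, hr, Nat.add_sub_cancel_left] at h2
  rw [hr] at hdet
  have h4 : (p : ℝ) ^ (-((((κ : ℝ) + 1) * (n + r) + 2) / 2)) ≤ ‖(PCl p fb q κ (psi p ζ)).det‖ := by
    refine (pow_le_pow_iff_left₀ (Real.rpow_nonneg hp0.le _) (norm_nonneg _) two_ne_zero).mp
      (le_of_eq_of_le ?_ hdet)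
    rw [← Real.rpow_natCast, ← Real.rpow_mul hp0.le, ← Real.rpow_natCast, ← Real.rpow_neg hp0.le]
    congr 1
    push_cast
    ring
  have h5 : (((p : ℝ) ^ (κ + 1))⁻¹) ^ r = ((p : ℝ) ^ ((r : ℝ) * ((κ : ℝ) + 1)))⁻¹ := by
    rw [inv_pow, ← pow_mul, ← Real.rpow_natCast]
    congr 2
    push_cast
    ring
  rw [h5, ← div_eq_mul_inv, le_div_iff₀ (Real.rpow_pos_of_pos hp0 _)] at h2
  rw [neg_sub', sub_neg_eq_add, Real.rpow_add hp0]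
  exact (mul_le_mul_of_nonneg_right h4 (Real.rpow_nonneg hp0.le _)).trans h2

/-- The Hodge bound at the level of the character. -/
lemma hodge_PCl (hK : ‖(p : K)‖ = (p : ℝ)⁻¹) (ht : 0 < Fintype.card ι) {q h : ℕ} [NeZero q]
    (e : q = p ^ h) (κ : ℕ) {ψ : ℤ → K} (hψ : ∀ x : ℤ, ¬ (p : ℤ) ∣ x → ‖ψ x‖ ≤ 1) (n : ℕ) :
    ‖cn (PCl p fb q κ ψ) (n + 1)‖ ≤ (p : ℝ) ^ (-((n : ℝ) ^ 2 / (2 * (Fintype.card ι * q : ℕ)) - n -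
      ((n : ℝ) + 1) * ((Nat.log p (κ + 1) : ℝ) + 1))) := by
  refine cn_hodge (deg := fun z : Ix q κ => (z.2 : ℕ)) (L := κ)
    (fun x => Nat.lt_succ_iff.mp x.2.2) (Nat.mul_pos ht (NeZero.pos q)) (fun m => ?_)
    (PCl_row fb hK e κ hψ) n
  have h1 : (univ : Finset (ι × ZMod q)).card = Fintype.card ι * q := by
    rw [card_univ, Fintype.card_prod, ZMod.card]
  rw [← h1]
  refine card_le_card_of_injOn (fun x => (x.1, x.2.1)) (fun _ _ => mem_univ _) ?_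
  rintro ⟨a, b, c⟩ hx ⟨a', b', c'⟩ hy hxy
  simp only [coe_filter, mem_univ, true_and, Set.mem_ofPred_eq, Prod.mk.injEq] at hx hy hxy
  rw [hxy.1, hxy.2, Fin.ext (hx.trans hy.symm)]

end Pool.Agent.Lib.MP_88d29b_nt.G.M3
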