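import Pool.Agent.Lib.MP_88d29b_nt.M3Cov

/-!
A set on which all cocycles are represented by functions.
-/

set_option autoImplicit false

noncomputable section

namespace Pool.Agent.Lib.MP_88d29b_nt.G.M3

open Finset CongruenceSubgroup
open scoped MatrixGroups

/-- `sm` is an action of the nonsingular matrices in which scalars act trivially and every cocycle
is represented by a function. -/
structure Univ (X : Type) (sm : Mat → X → X) : Prop where
  ne : Nonempty X
  mul : ∀ g g' : Mat, g.det ≠ 0 → g'.det ≠ 0 → ∀ x, sm (g * g') x = sm g (sm g' x)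
  scal : ∀ a : ℤ, a ≠ 0 → ∀ x, sm (a • (1 : Mat)) x = x
  rep : ∀ (R V : Type) [CommRing R] [AddCommGroup V] [Module R V] (S : Submonoid Mat)
    (Γ : Subgroup SL(2, ℤ)) (ρ : Mat → V →ₗ[R] V), IsAct S ρ → Inside Γ S →
    ∀ c ∈ Z1 Γ ρ, ∃ F : X → V, Rep Γ ρ sm F c

lemma M3Univ_det {g : Mat} (h : g.det ≠ 0) : (g.map (Int.cast : ℤ → ℚ)).det ≠ 0 := by
  have e : (g.map (Int.cast : ℤ → ℚ)).det = (g.det : ℚ) :=
    ((Int.castRingHom ℚ).map_det g).symm
  rw [e]
  exact_mod_cast h

lemma M3Univ_group : ∃ (G : Type) (_ : Group G) (φ : Mat → G),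
    (∀ g g' : Mat, g.det ≠ 0 → g'.det ≠ 0 → φ (g * g') = φ g * φ g') ∧
    (∀ a : ℤ, a ≠ 0 → φ (a • (1 : Mat)) = 1) ∧
    ∀ t : SL(2, ℤ), φ (t : Mat) = 1 → t = 1 ∨ t = -1 := by
  classical
  refine ⟨GL (Fin 2) ℚ ⧸ Subgroup.center (GL (Fin 2) ℚ), inferInstance, fun g =>
    if h : g.det ≠ 0 then
      QuotientGroup.mk (Matrix.GeneralLinearGroup.mkOfDetNeZero _ (M3Univ_det h)) else 1,
    fun g g' hg hg' => ?_, fun a ha => ?_, fun t ht => ?_⟩
  · have h : (g * g').det ≠ 0 := by rw [Matrix.det_mul]; exact mul_ne_zero hg hg'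
    simp only [dif_pos h, dif_pos hg, dif_pos hg']
    rw [← QuotientGroup.mk_mul]
    congr 1
    refine Units.ext ?_
    exact Matrix.map_mul (f := Int.castRingHom ℚ)
  · have h : (a • (1 : Mat)).det ≠ 0 := by
      rw [Matrix.det_smul, Matrix.det_one, mul_one]
      exact pow_ne_zero _ ha
    simp only [dif_pos h]
    rw [QuotientGroup.eq_one_iff, Matrix.GeneralLinearGroup.mem_center_iff_val_mem_range_scalar]
    refine ⟨(a : ℚ), ?_⟩
    change _ = (a • (1 : Mat)).map (Int.cast : ℤ → ℚ)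
    ext i j
    rw [Matrix.scalar_apply, Matrix.diagonal_apply, Matrix.map_apply, Matrix.smul_apply,
      Matrix.one_apply]
    split_ifs <;> simp
  · have h : (t : Mat).det ≠ 0 := by simp
    simp only [dif_pos h] at ht
    rw [QuotientGroup.eq_one_iff,
      Matrix.GeneralLinearGroup.mem_center_iff_val_mem_range_scalar] at ht
    obtain ⟨a, ha⟩ := ht
    change _ = (t : Mat).map (Int.cast : ℤ → ℚ) at ha
    have e00 : a = ((t 0 0 : ℤ) : ℚ) := by simpa using congrFun (congrFun ha 0) 0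
    have e11 : a = ((t 1 1 : ℤ) : ℚ) := by simpa using congrFun (congrFun ha 1) 1
    have e01 : t 0 1 = 0 := by
      have := congrFun (congrFun ha 0) 1
      simp at this
      exact_mod_cast this.symm
    have e10 : t 1 0 = 0 := by
      have := congrFun (congrFun ha 1) 0
      simp at this
      exact_mod_cast this.symm
    have e : t 0 0 = t 1 1 := by exact_mod_cast e00.symm.trans e11
    have hd := t.det_coe
    rw [Matrix.det_fin_two, e01, zero_mul, sub_zero] at hd
    rcases Int.eq_one_or_neg_one_of_mul_eq_one' hd with ⟨h1, h2⟩ | ⟨h1, h2⟩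
    · left
      ext i j
      fin_cases i <;> fin_cases j <;> simp [h1, h2, e01, e10]
    · right
      ext i j
      fin_cases i <;> fin_cases j <;> simp [h1, h2, e01, e10]

theorem exists_univ : ∃ (X : Type) (sm : Mat → X → X), Univ X sm := by
  obtain ⟨G, hG, φ, h1, h2, h3⟩ := M3Univ_group
  refine ⟨G, fun g x => φ g * x, ⟨1⟩, fun g g' hg hg' x => ?_, fun a ha x => ?_, ?_⟩
  · rw [h1 g g' hg hg', mul_assoc]
  · rw [h2 a ha, one_mul]
  intro R V _ _ _ S Γ ρ hρ _ c hc
  let ψ : Γ →* G := MonoidHom.mk' (fun t => φ ((t : SL(2, ℤ)) : Mat)) fun t t' => by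
    rw [Subgroup.coe_mul, Matrix.SpecialLinearGroup.coe_mul]
    exact h1 _ _ (by simp) (by simp)
  have hker : ∀ u : Γ, ψ u = 1 → c u = 0 := by
    intro u hu
    rcases h3 u hu with h | h
    · have e : u = 1 := Subtype.ext h
      have h4 := hc.1 1 1
      rw [mul_one, Subgroup.coe_one, Matrix.SpecialLinearGroup.coe_one, hρ.map_one] at h4
      rw [e]
      simpa using h4
    · exact hc.2 u h
  have hwd : ∀ t t' : Γ, ψ t = ψ t' → c t⁻¹ = c t'⁻¹ := by
    intro t t' h
    have h4 := hc.1 (t'⁻¹ * t) t⁻¹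
    rw [mul_inv_cancel_right, hker (t'⁻¹ * t) (by simp [h]), map_zero, zero_add] at h4
    exact h4.symm
  let r : G → G := fun x => (Quotient.mk (QuotientGroup.rightRel ψ.range) x).out
  have hr : ∀ x, ∃ t : Γ, ψ t = x * (r x)⁻¹ := fun x =>
    QuotientGroup.rightRel_apply.1 (Quotient.mk_out (s := QuotientGroup.rightRel ψ.range) x)
  have hr' : ∀ (g : Γ) (x : G), r (ψ g * x) = r x := by
    intro g x
    have : Quotient.mk (QuotientGroup.rightRel ψ.range) (ψ g * x) =
        Quotient.mk (QuotientGroup.rightRel ψ.range) x :=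
      Quotient.sound (QuotientGroup.rightRel_apply.2 ⟨g⁻¹, by simp⟩)
    simp only [r, this]
  choose t ht using hr
  refine ⟨fun x => - c (t x)⁻¹, fun g x => ?_⟩
  have e : c (t (ψ g * x))⁻¹ = c (g * t x)⁻¹ :=
    hwd _ _ (by rw [ht, map_mul, ht, hr', mul_assoc])
  have h4 := hc.1 (g * t x)⁻¹ g
  have e2 : (g * t x)⁻¹ * g = (t x)⁻¹ := by group
  rw [e2] at h4
  change ρ _ (- c (t (ψ g * x))⁻¹) - - c (t x)⁻¹ = c g
  rw [e, h4, map_neg]
  abel

lemma Univ.isSm {X : Type} {sm : Mat → X → X} (h : Univ X sm) (p : ℕ) [Fact p.Prime] :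
    IsSm (Sg p) sm :=
  ⟨fun g hg g' hg' x => h.mul g g' hg.2.2 hg'.2.2 x, fun x => by
    simpa using h.scal (-1) (by norm_num) x⟩

lemma Univ.one {X : Type} {sm : Mat → X → X} (h : Univ X sm) (x : X) : sm 1 x = x := by
  simpa using h.scal 1 one_ne_zero x

end Pool.Agent.Lib.MP_88d29b_nt.G.M3
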