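import Pool.Agent.Lib.MP_88d29b_nt.Ident2
import Pool.Agent.Lib.MP_88d29b_nt.Lucas

set_option autoImplicit false

noncomputable section

namespace Pool.Agent.Lib.MP_88d29b_nt

open Finset UpperHalfPlane ModularGroup Filter Topology
open scoped MatrixGroups ModularForm Manifold


lemma trace_mdiff_bas (e s i : ℕ) : MDifferentiable 𝓘(ℂ) 𝓘(ℂ) (bas e s i) := by
  have h : bas e s i = (64 ^ i : ℂ) • (ee ^ e * uu ^ i * ww ^ (s - i)) := by
    ext z
    simp only [bas, Pi.smul_apply, Pi.mul_apply, Pi.pow_apply, smul_eq_mul]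
    ring
  rw [h]
  exact (((mdiff_ee.pow e).mul (mdiff_uu.pow i)).mul (mdiff_ww.pow (s - i))).const_smul _

lemma trace_mdiff_basW (e s i : ℕ) : MDifferentiable 𝓘(ℂ) 𝓘(ℂ) (basW e s i) := by
  have h : basW e s i = ((-2) ^ e * 4 ^ s : ℂ) • bas e s (s - i) := by
    ext z
    simp only [basW, Pi.smul_apply, smul_eq_mul]
  rw [h]
  exact (trace_mdiff_bas e s (s - i)).const_smul _

lemma trace_tendsto_bas (e s : ℕ) {i : ℕ} (hi : 1 ≤ i) :
    Tendsto (bas e s i) atImInfty (𝓝 0) := by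
  have h := (((tendsto_ee.pow e).mul_const ((64 : ℂ) ^ i)).mul (tendsto_uu.pow i)).mul
    (tendsto_ww.pow (s - i))
  rw [zero_pow (by omega), mul_zero, zero_mul] at h
  exact h

lemma trace_bas_eq (e : ℕ) {s i : ℕ} (hi : i ≤ s) {w : ℍ} {a b : ℂ} (ha : a ≠ 0)
    (h : ww w = a + 16 * b) :
    bas e s i w = 4 ^ i * a ^ s * (ee w ^ e * (16 * uu w / a) ^ i * (1 + 16 * b / a) ^ (s - i)) := by
  obtain ⟨j, rfl⟩ := Nat.exists_eq_add_of_le hi
  have h1 : i + j - i = j := by omega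
  have h2 : ww w = a * (1 + 16 * b / a) := by
    rw [h]
    field_simp
  have h3 : (64 : ℂ) ^ i = 4 ^ i * 16 ^ i := by rw [← mul_pow]; norm_num
  have h5 : a ^ i ≠ 0 := pow_ne_zero _ ha
  rw [bas, h1, h2, h3, mul_pow, div_pow, mul_pow, pow_add]
  generalize (1 + 16 * b / a) ^ j = c
  field_simp

lemma bas_T (e s i : ℕ) (z : ℍ) : bas e s i (T • z) = bas e s i z := by
  simp only [bas, ee_T, uu_T, ww_T]

lemma bas_hlf_S (e : ℕ) {s i : ℕ} (hi : i ≤ s) (z : ℍ) :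
    bas e s i (hlf (S • z)) = (z : ℂ) ^ (4 * s + 2 * e) * basW e s i z := by
  obtain ⟨j, rfl⟩ := Nat.exists_eq_add_of_le hi
  have h1 : i + j - i = j := by omega
  have h2 : i + j - j = i := by omega
  have h3 : (64 : ℂ) ^ i = 4 ^ i * 16 ^ i := by rw [← mul_pow]; norm_num
  have h4 : (256 : ℂ) ^ j = 4 ^ j * 64 ^ j := by rw [← mul_pow]; norm_num
  have h5 : (16 : ℂ) ^ i ≠ 0 := pow_ne_zero _ (by norm_num)
  simp only [bas, basW, ee_hlf_S, uu_hlf_S, ww_hlf_S, h1, h2, mul_pow, div_pow, h3, h4]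
  field_simp
  ring

lemma bas_hlfOne_S (e : ℕ) {s i : ℕ} (hi : i ≤ s) (z : ℍ) :
    bas e s i (hlfOne (S • z)) = (z : ℂ) ^ (4 * s + 2 * e) * bas e s i (hlfOne z) := by
  obtain ⟨j, rfl⟩ := Nat.exists_eq_add_of_le hi
  have h1 : i + j - i = j := by omega
  simp only [bas, ee_hlfOne_S, uu_hlfOne_S, ww_hlfOne_S, h1, mul_pow]
  ring

/-- Apply `bas_hlf_S` to `S • z`; `S • S • z = z` and the weight is even. -/
lemma basW_S (e : ℕ) {s i : ℕ} (hi : i ≤ s) (z : ℍ) :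
    basW e s i (S • z) = (z : ℂ) ^ (4 * s + 2 * e) * bas e s i (hlf z) := by
  have h0 := z.ne_zero
  have h1 : S • S • z = z := by
    ext1
    simp only [coe_S_smul]
    field_simp
  have h2 := bas_hlf_S e hi (S • z)
  rw [h1, coe_S_smul, Even.neg_pow ⟨2 * s + e, by ring⟩, inv_pow] at h2
  have h3 : (z : ℂ) ^ (4 * s + 2 * e) ≠ 0 := pow_ne_zero _ h0
  rw [h2]
  field_simp

/-- The trace to level one of a basis element is a cusp form (`mkCusp`). -/
theorem trace_cusp (e : ℕ) {s i : ℕ} (hi : i ∈ Ico 1 s) (k : ℤ) (hk : k = 4 * s + 2 * e) :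
    ∃ G : CuspForm 𝒮ℒ k, ∀ z : ℍ,
      G z = bas e s i (hlf z) + bas e s i (hlfOne z) + basW e s i z := by
  rw [mem_Ico] at hi
  have hk' : k = ((4 * s + 2 * e : ℕ) : ℤ) := by rw [hk]; push_cast; ring
  have hi1 : i ≤ s := hi.2.le
  have h1 : WInv k (fun z => bas e s i (hlf z) + bas e s i (hlfOne z) + basW e s i z) := by
    constructor
    · intro z
      simp only [bas_hlf_S e hi1, bas_hlfOne_S e hi1, basW_S e hi1, hk', zpow_natCast]
      ring
    · intro z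
      simp only [hlf_T, hlfOne_T, bas_T, basW]
      ring
  have h2 : MDifferentiable 𝓘(ℂ) 𝓘(ℂ)
      (fun z => bas e s i (hlf z) + bas e s i (hlfOne z) + basW e s i z) :=
    ((mdiff_hlf (trace_mdiff_bas e s i)).add (mdiff_hlfOne (trace_mdiff_bas e s i))).add
      (trace_mdiff_basW e s i)
  have h3 : Tendsto (fun z => bas e s i (hlf z) + bas e s i (hlfOne z) + basW e s i z)
      atImInfty (𝓝 0) := by
    have t1 := trace_tendsto_bas e s hi.1
    have t2 := (trace_tendsto_bas e s (i := s - i) (by omega)).const_mul ((-2 : ℂ) ^ e * 4 ^ s)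
    have t3 := ((t1.comp tendsto_hlf).add (t1.comp tendsto_hlfOne)).add t2
    simpa [basW] using t3
  exact ⟨mkCusp k _ h1 h2 h3, fun z => rfl⟩

/-- Evaluate at `hlf (S • z)` and use `WInv.hlf_S`, `bas_hlf_S`. -/
theorem dbl_expand {e s : ℕ} {k : ℤ} (hk : k = 4 * s + 2 * e) {f : ℍ → ℂ} (hf : WInv k f)
    {x : ℕ → ℂ} (h : ∀ z : ℍ, f z = ∑ i ∈ Ico 1 s, x i * bas e s i z) (z : ℍ) :
    2 ^ k * f (dbl z) = ∑ i ∈ Ico 1 s, x i * basW e s i z := by
  have hk' : k = ((4 * s + 2 * e : ℕ) : ℤ) := by rw [hk]; push_cast; ring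
  have h1 := hf.hlf_S z
  rw [h] at h1
  have h2 : ∑ i ∈ Ico 1 s, x i * bas e s i (hlf (S • z)) =
      (z : ℂ) ^ k * ∑ i ∈ Ico 1 s, x i * basW e s i z := by
    rw [mul_sum]
    refine sum_congr rfl (fun i hi => ?_)
    rw [bas_hlf_S e (mem_Ico.mp hi).2.le, hk', zpow_natCast]
    ring
  rw [h2] at h1
  exact (mul_left_cancel₀ (zpow_ne_zero k z.ne_zero) h1).symm

/-- Apply `lucas` with `t1 = 16 uu (hlf z) / ww z`, `t2 = 16 uu (hlfOne z) / ww z`,
`α = 256 uu z / ww z`, `ε1 = ee (hlf z) ^ e`, `ε2 = ee (hlfOne z) ^ e`, `ε = ee z ^ e`; note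
`ww (hlf z) = ww z (1 + t2)` and `ww (hlfOne z) = ww z (1 + t1)`. -/
theorem bas_U {e : ℕ} (he : e ≤ 1) (s : ℕ) : ∃ M : ℕ → ℕ → ℤ, Closed e s M ∧
    ∀ i ∈ Ico 1 s, ∀ z : ℍ, bas e s i (hlf z) + bas e s i (hlfOne z) =
      ∑ m ∈ Ico 1 s, 2 * ((uEnt e M m i : ℚ) : ℂ) * bas e s m z := by
  obtain ⟨M, hM, hL⟩ := lucas he s
  refine ⟨M, hM, fun i hi z => ?_⟩
  have hw := ww_ne z
  have hu := uu_ne z
  have key := hL (16 * uu (hlf z) / ww z) (16 * uu (hlfOne z) / ww z) (256 * uu z / ww z)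
    (ee (hlf z) ^ e) (ee (hlfOne z) ^ e) (ee z ^ e)
    (div_ne_zero (mul_ne_zero (by norm_num) hu) hw)
    (by
      have := uu_add z
      field_simp
      linear_combination 16 * this)
    (by
      have := uu_mul z
      field_simp
      linear_combination 256 * this)
    (by
      rintro rfl
      simp)
    (by
      rintro rfl
      have h1 := ee_add z
      have h2 := ee_uu_add z
      refine ⟨by simpa using h1, ?_⟩
      field_simp
      linear_combination 16 * h2)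
    i hi
  have hi1 := (mem_Ico.mp hi).2.le
  have e1 : bas e s i (hlf z) = 4 ^ i * ww z ^ s * (ee (hlf z) ^ e *
      (16 * uu (hlf z) / ww z) ^ i * (1 + 16 * uu (hlfOne z) / ww z) ^ (s - i)) :=
    trace_bas_eq e hi1 hw (ww_hlf z)
  have e2 : bas e s i (hlfOne z) = 4 ^ i * ww z ^ s * (ee (hlfOne z) ^ e *
      (16 * uu (hlfOne z) / ww z) ^ i * (1 + 16 * uu (hlf z) / ww z) ^ (s - i)) :=
    trace_bas_eq e hi1 hw (ww_hlfOne z)
  rw [e1, e2, ← mul_add, key, mul_sum, mul_sum]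
  refine sum_congr rfl (fun m hm => ?_)
  obtain ⟨j, rfl⟩ := Nat.exists_eq_add_of_le (mem_Ico.mp hm).2.le
  have h1 : m + j - m = j := by omega
  have h4 : (256 : ℂ) ^ m = 4 ^ m * 64 ^ m := by rw [← mul_pow]; norm_num
  have h5 : ww z ^ m ≠ 0 := pow_ne_zero _ hw
  simp only [bas, uEnt, h1, div_pow, mul_pow, h4]
  push_cast
  field_simp
  ring

end Pool.Agent.Lib.MP_88d29b_nt
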