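import Pool.Agent.Lib.MP_88d29b_nt.Span
import Pool.Agent.Lib.MP_88d29b_nt.Trace
import Pool.Agent.Lib.MP_88d29b_nt.DetId

set_option autoImplicit false

noncomputable section

namespace Pool.Agent.Lib.MP_88d29b_nt

open Finset UpperHalfPlane ModularGroup Filter Topology
open scoped MatrixGroups ModularForm Manifold


/-- The reflection `i ↦ s - i` of the index set. -/
def moduRefl {s : ℕ} (i : Idx s) : Idx s :=
  ⟨s - i, by
    have := mem_Ico.mp i.2
    exact mem_Ico.mpr (by omega)⟩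

lemma modu_refl_iff {s : ℕ} (a b : Idx s) : (a : ℕ) + b = s ↔ a = moduRefl b := by
  have ha := mem_Ico.mp a.2
  have hb := mem_Ico.mp b.2
  constructor
  · intro h
    apply Subtype.ext
    change (a : ℕ) = s - b
    omega
  · intro h
    have h' : (a : ℕ) = s - b := congrArg Subtype.val h
    omega

lemma modu_sq (e s : ℕ) :
    ((-2 : ℚ) ^ e * 4 ^ s) * ((-2) ^ e * 4 ^ s) = 2 ^ (4 * s + 2 * e) := by
  have h1 : ((-2 : ℚ) ^ e * 4 ^ s) * ((-2) ^ e * 4 ^ s) = ((-2) * (-2)) ^ e * (4 * 4) ^ s := by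
    rw [mul_pow, mul_pow]
    ring
  rw [h1, pow_add, pow_mul, pow_mul]
  norm_num [mul_comm]

lemma matW_mul (e s : ℕ) :
    matW e s * matW e s = (2 : ℚ) ^ (4 * s + 2 * e) • (1 : Matrix (Idx s) (Idx s) ℚ) := by
  ext a b
  rw [Matrix.mul_apply, Finset.sum_eq_single (moduRefl b)]
  · have h1 : ((moduRefl b : Idx s) : ℕ) + b = s := (modu_refl_iff _ _).mpr rfl
    simp only [matW, h1, if_true, Matrix.smul_apply, smul_eq_mul]
    by_cases hab : a = b
    · subst hab
      rw [if_pos (by omega), Matrix.one_apply_eq, mul_one, modu_sq]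
    · rw [if_neg, Matrix.one_apply_ne hab, mul_zero, zero_mul]
      intro h
      apply hab
      apply Subtype.ext
      omega
  · intro c _ hc
    have h1 : ¬ ((c : ℕ) + b = s) := fun h => hc ((modu_refl_iff _ _).mp h)
    simp only [matW, h1, if_false, mul_zero]
  · intro h
    exact absurd (Finset.mem_univ _) h

lemma bd_matW (e s : ℕ) (a b : Idx s) : Bd (matW e s a b) (-(((4 * s + 2 * e : ℕ) : ℝ) / 2)) := by
  unfold matW
  split_ifs
  · have h1 : nrm ((-2 : ℚ) ^ e) = nrm ((2 : ℚ) ^ e) := by rw [nrm_pow, nrm_pow, nrm_neg]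
    have h2 := ((bd_two_pow e).congr_nrm h1).mul (bd_four_pow s)
    refine h2.mono (le_of_eq ?_)
    push_cast
    ring
  · exact bd_zero _

/-- The function with coordinate vector `y`. -/
def moduEv (e s : ℕ) : (Idx s → ℂ) →ₗ[ℂ] (ℍ → ℂ) where
  toFun y := fun z => ∑ i : Idx s, y i * bas e s i z
  map_add' y y' := by
    ext z
    simp only [Pi.add_apply, add_mul, sum_add_distrib]
  map_smul' c y := by
    ext z
    simp only [Pi.smul_apply, smul_eq_mul, RingHom.id_apply, mul_sum, mul_assoc]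

lemma moduEv_apply (e s : ℕ) (y : Idx s → ℂ) (z : ℍ) :
    moduEv e s y z = ∑ i : Idx s, y i * bas e s i z := rfl

/-- Extension by zero of a coordinate vector. -/
def moduExt {s : ℕ} (y : Idx s → ℂ) (i : ℕ) : ℂ := if h : i ∈ Ico 1 s then y ⟨i, h⟩ else 0

lemma modu_sum_ext {s : ℕ} (y : Idx s → ℂ) (F : ℕ → ℂ) :
    ∑ i ∈ Ico 1 s, moduExt y i * F i = ∑ i : Idx s, y i * F i := by
  rw [← Finset.sum_coe_sort (Ico 1 s) (fun i => moduExt y i * F i)]
  refine Finset.sum_congr rfl (fun i _ => ?_)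
  simp only [moduExt, dif_pos i.2]

lemma moduEv_injective (e s : ℕ) : Function.Injective (moduEv e s) := by
  rw [injective_iff_map_eq_zero]
  intro y hy
  have h := bas_indep e s (moduExt y) (fun z => by
    rw [modu_sum_ext y (fun i => bas e s i z), ← moduEv_apply, hy]
    rfl)
  ext i
  have := h i i.2
  simp only [moduExt, dif_pos i.2] at this
  exact this

lemma modu_exists {e : ℕ} (he : e ≤ 1) (s : ℕ) (k : ℤ) (hk : k = 4 * s + 2 * e)
    (f : CuspForm 𝒮ℒ k) : ∃ y : Idx s → ℂ, moduEv e s y = f := by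
  obtain ⟨x, hx⟩ := span_cusp he s k hk f
  refine ⟨fun i => x i, ?_⟩
  ext z
  rw [moduEv_apply, hx z, ← Finset.sum_coe_sort (Ico 1 s) (fun i => x i * bas e s i z)]

lemma modu_inc {e : ℕ} (he : e ≤ 1) (s : ℕ) (k : ℤ) (hk : k = 4 * s + 2 * e) :
    ∃ inc : CuspForm 𝒮ℒ k →ₗ[ℂ] (Idx s → ℂ), ∀ f, moduEv e s (inc f) = f := by
  choose I hI using modu_exists he s k hk
  refine ⟨⟨⟨I, fun f g => moduEv_injective e s ?_⟩, fun c f => moduEv_injective e s ?_⟩, hI⟩
  · rw [map_add, hI, hI, hI]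
    rfl
  · rw [map_smul, hI, hI]
    rfl

lemma modu_tr (e s : ℕ) (k : ℤ) (hk : k = 4 * s + 2 * e) :
    ∃ tr : (Idx s → ℂ) →ₗ[ℂ] CuspForm 𝒮ℒ k, ∀ y z, tr y z =
      moduEv e s y (hlf z) + moduEv e s y (hlfOne z) + ∑ i : Idx s, y i * basW e s i z := by
  choose G hG using fun i : Idx s => trace_cusp e i.2 k hk
  refine ⟨Fintype.linearCombination ℂ G, fun y z => ?_⟩
  let ev : CuspForm 𝒮ℒ k →ₗ[ℂ] ℂ :=
    { toFun := fun f => f z
      map_add' := fun _ _ => rfl
      map_smul' := fun _ _ => rfl }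
  change ev (Fintype.linearCombination ℂ G y) = _
  rw [Fintype.linearCombination_apply, map_sum, moduEv_apply, moduEv_apply, ← sum_add_distrib,
    ← sum_add_distrib]
  refine Finset.sum_congr rfl (fun i _ => ?_)
  rw [map_smul]
  change y i * G i z = _
  rw [hG]
  ring

lemma modu_evW (e s : ℕ) (y : Idx s → ℂ) (z : ℍ) :
    moduEv e s (((matW e s).map (fun q : ℚ => (q : ℂ))).mulVec y) z =
      ∑ i : Idx s, y i * basW e s i z := by
  simp only [moduEv_apply, Matrix.mulVec, dotProduct, Matrix.map_apply, sum_mul]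
  rw [Finset.sum_comm]
  refine Finset.sum_congr rfl (fun i _ => ?_)
  rw [Finset.sum_eq_single (moduRefl i)]
  · have h1 : ((moduRefl i : Idx s) : ℕ) + i = s := (modu_refl_iff _ _).mpr rfl
    have h2 : ((moduRefl i : Idx s) : ℕ) = s - i := rfl
    simp only [matW, h1, if_true]
    rw [h2, basW]
    push_cast
    ring
  · intro c _ hc
    have h1 : ¬ ((c : ℕ) + i = s) := fun h => hc ((modu_refl_iff _ _).mp h)
    simp [matW, h1]
  · intro h
    exact absurd (Finset.mem_univ _) h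

lemma modu_evU {e s : ℕ} {M : ℕ → ℕ → ℤ}
    (hM : ∀ i ∈ Ico 1 s, ∀ z : ℍ, bas e s i (hlf z) + bas e s i (hlfOne z) =
      ∑ m ∈ Ico 1 s, 2 * ((uEnt e M m i : ℚ) : ℂ) * bas e s m z) (y : Idx s → ℂ) (z : ℍ) :
    2 * moduEv e s (((matU e s M).map (fun q : ℚ => (q : ℂ))).mulVec y) z =
      moduEv e s y (hlf z) + moduEv e s y (hlfOne z) := by
  simp only [moduEv_apply, Matrix.mulVec, dotProduct, Matrix.map_apply, sum_mul, mul_sum]
  rw [Finset.sum_comm, ← sum_add_distrib]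
  refine Finset.sum_congr rfl (fun i _ => ?_)
  rw [← mul_add, hM i i.2 z, ← Finset.sum_coe_sort (Ico 1 s)
    (fun m => 2 * ((uEnt e M m i : ℚ) : ℂ) * bas e s m z), mul_sum]
  refine Finset.sum_congr rfl (fun m _ => ?_)
  simp only [matU]
  ring

/-- Apply `det_identity` with `V` the space of cusp forms of weight `k = 4 s + 2 e`. Here `inc f` is
the coordinate vector of `f` (`span_cusp`, unique and hence linear by `bas_indep`) and `tr y` is
`∑ i, y i • G i` with `G i` from `trace_cusp`. Note `basW e s i = ∑ m, matW e s m i * bas e s m`.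
`h1`: `bas_U` and uniqueness. `h2`: `dbl_expand` and the formula for `heckeFun`. `h3`: the vector
`W (inc f)` is the coordinate vector of `g z = 2 ^ k f (dbl z)`; `g (hlf z) = g (hlfOne z) = 2 ^ k f z`
(`dbl_hlf`, `dbl_hlfOne`) and the third term is `2 ^ k f z` by `matW_mul`. -/
theorem modular {e : ℕ} (he : e ≤ 1) (s : ℕ) : ∃ M : ℕ → ℕ → ℤ, Closed e s M ∧
    ∀ x : ℂ, 1 - 2 ^ (4 * s + 2 * e) * x ^ 2 / 4 ≠ 0 →
      (1 - x • (matU e s M).map (fun q : ℚ => (q : ℂ))).det *
          (1 - 2 ^ (4 * s + 2 * e) * x ^ 2 / 4) ^ (eigenvalues (4 * s + 2 * e)).card =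
        (1 + (x / 2) • (matW e s).map (fun q : ℚ => (q : ℂ))).det *
          ((eigenvalues (4 * s + 2 * e)).map
            (fun l => 1 - l * x + 2 ^ (4 * s + 2 * e) * x ^ 2 / 2)).prod := by
  obtain ⟨M, hC, hM⟩ := bas_U he s
  refine ⟨M, hC, fun x hx => ?_⟩
  have hk : ((4 * s + 2 * e : ℕ) : ℤ) = 4 * s + 2 * e := by push_cast; ring
  obtain ⟨inc, hinc⟩ := modu_inc he s _ hk
  obtain ⟨tr, htr⟩ := modu_tr e s _ hk
  have := finite_cusp ((4 * s + 2 * e : ℕ) : ℤ)
  have hW : (matW e s).map (fun q : ℚ => (q : ℂ)) * (matW e s).map (fun q : ℚ => (q : ℂ)) =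
      (2 : ℂ) ^ (4 * s + 2 * e) • (1 : Matrix (Idx s) (Idx s) ℂ) := by
    have h := congrArg (fun A : Matrix (Idx s) (Idx s) ℚ => A.map (Rat.castHom ℂ)) (matW_mul e s)
    simp only [Matrix.map_mul] at h
    refine h.trans ?_
    ext a b
    by_cases hab : a = b
    · subst hab
      simp
    · simp [Matrix.one_apply_ne hab]
  have hdbl : ∀ (f : CuspForm 𝒮ℒ ((4 * s + 2 * e : ℕ) : ℤ)) (z : ℍ),
      ∑ i : Idx s, inc f i * basW e s i z = 2 ^ (4 * s + 2 * e) * f (dbl z) := by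
    intro f z
    have h := dbl_expand (x := moduExt (inc f)) hk (inv_of_form f) (fun z => by
      rw [modu_sum_ext (inc f) (fun i => bas e s i z), ← moduEv_apply, hinc]) z
    rw [modu_sum_ext (inc f) (fun i => basW e s i z), zpow_natCast] at h
    exact h.symm
  refine det_identity _ _ _ inc tr (hecke ((4 * s + 2 * e : ℕ) : ℤ)) hW ?_ ?_ ?_ x hx
  · intro y
    apply moduEv_injective e s
    ext z
    rw [hinc, htr, Matrix.add_mulVec, Matrix.smul_mulVec, map_add, map_smul, Pi.add_apply,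
      Pi.smul_apply, smul_eq_mul, modu_evU hM, modu_evW]
  · intro f
    ext z
    change _ = 2 * heckeFun _ f z
    rw [htr, hinc, hdbl, heckeFun, zpow_sub_one₀ two_ne_zero, zpow_natCast]
    ring
  · intro f
    ext z
    change _ = (3 * 2 ^ (4 * s + 2 * e)) * f z
    rw [htr, ← modu_evW, Matrix.mulVec_mulVec, hW, Matrix.smul_mulVec, Matrix.one_mulVec,
      map_smul, hinc, modu_evW, modu_evW, hdbl, hdbl, dbl_hlf, dbl_hlfOne, (inv_of_form f).hT,
      Pi.smul_apply, smul_eq_mul]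
    ring

end Pool.Agent.Lib.MP_88d29b_nt
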