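import Pool.Agent.Lib.MP_88d29b_nt.Local

set_option autoImplicit false

noncomputable section

namespace Pool.Agent.Lib.MP_88d29b_nt

open Finset


/-! Termwise bounds (`bd_sum`). A term vanishes unless the summation index `j` lies between the
outer indices and the cut, so that `dd n j` is at most the distance of the relevant outer
indices. -/

variable {s n N : ℕ} {g : ℝ}

lemma near_dd_le_of_le {n a j : ℕ} (haj : a ≤ j) (hj : j ≤ n) : dd n j ≤ dd n a := by
  have h1 : (a : ℝ) ≤ j := by exact_mod_cast haj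
  have h2 : (j : ℝ) ≤ n := by exact_mod_cast hj
  unfold dd
  rw [abs_of_nonpos (by linarith), abs_of_nonpos (by linarith)]
  linarith

lemma near_dd_le_of_ge {n a j : ℕ} (haj : j ≤ a) (hj : n ≤ j) : dd n j ≤ dd n a := by
  have h1 : (j : ℝ) ≤ a := by exact_mod_cast haj
  have h2 : (n : ℝ) ≤ j := by exact_mod_cast hj
  unfold dd
  rw [abs_of_nonneg (by linarith), abs_of_nonneg (by linarith)]
  linarith

lemma near_mE_zero {s i j : ℕ} (h : ¬ i ≤ j) : mE s i j = 0 := by simp [mE, h]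

lemma near_mL_zero {s m j : ℕ} (h : ¬ j ≤ m) : mL s m j = 0 := by simp [mL, h]

lemma near_mLi_zero {s j m : ℕ} (h : ¬ m ≤ j) : mLi s j m = 0 := by simp [mLi, h]

lemma near_mR_zero {s j i : ℕ} (h : ¬ j ≤ i) : mR s j i = 0 := by
  simp [mR, not_le.1 h]

theorem near_nInv (hG : Gen s n g) (hg : 0 ≤ g) (hN : 3 * N + 3 ≤ s) (hn : n ≤ N) {a b : ℕ}
    (ha : a ∈ Ico 1 n) (hb : b ∈ Ico 1 n) :
    Bd (piv s n * nInv s n a b) (4 * (g + 26) + 3 * (dd n a + dd n b) / 8) := by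
  rw [mem_Ico] at ha hb
  unfold nInv
  rw [mul_sum]
  refine bd_sum _ _ fun j hj => ?_
  rw [mem_Ico] at hj
  by_cases haj : a ≤ j
  swap
  · rw [near_mE_zero haj, zero_mul, zero_mul, mul_zero]
    exact bd_zero _
  by_cases hbj : b ≤ j
  swap
  · rw [near_mLi_zero hbj, mul_zero, mul_zero]
    exact bd_zero _
  have h1 := ((loc_mE hG hg hN ha.1 (show j ≤ N by omega)).mul
    (loc_piv_down hG hg hN hj.1 hj.2.le hn)).mul (loc_mLi hG hg hN hb.1 (show j ≤ N by omega))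
  have h2 : piv s n * (mE s a j * (piv s j)⁻¹ * mLi s j b) =
      mE s a j * (piv s n / piv s j) * mLi s j b := by ring
  rw [h2]
  refine h1.mono ?_
  have h3 := near_dd_le_of_le haj hj.2.le
  have h4 := near_dd_le_of_le hbj hj.2.le
  linarith

theorem near_pP (hG : Gen s n g) (hg : 0 ≤ g) (hN : 3 * N + 3 ≤ s) {m b : ℕ}
    (hm : m ∈ Icc n N) (hb : b ∈ Ico 1 n) :
    Bd (pP s n m b) (2 * (g + 26) + 3 * (dd n m + dd n b) / 8) := by
  rw [mem_Icc] at hm
  rw [mem_Ico] at hb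
  unfold pP
  refine bd_sum _ _ fun j hj => ?_
  rw [mem_Ico] at hj
  by_cases hbj : b ≤ j
  swap
  · rw [near_mLi_zero hbj, mul_zero]
    exact bd_zero _
  have h1 := (loc_mL hG hg hN hj.1 hm.2).mul (loc_mLi hG hg hN hb.1 (show j ≤ N by omega))
  refine h1.mono ?_
  have h3 := near_dd_le_of_le hbj hj.2.le
  have h4 := dd_nonneg n m
  linarith

theorem near_pQ (hG : Gen s n g) (hg : 0 ≤ g) (hN : 3 * N + 3 ≤ s) {r a i : ℕ} (hr : 2 ^ r ∣ n)
    (ha : a ∈ Ico 1 n) (hi : i ∈ Icc n N) :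
    Bd (pQ s n a i) (-(r : ℝ) + 2 * (g + 26) + 3 * (dd n a + dd n i) / 8) := by
  rw [mem_Icc] at hi
  rw [mem_Ico] at ha
  unfold pQ
  refine bd_sum _ _ fun j hj => ?_
  rw [mem_Ico] at hj
  by_cases haj : a ≤ j
  swap
  · rw [near_mE_zero haj, zero_mul]
    exact bd_zero _
  have h1 := (loc_mE hG hg hN ha.1 (show j ≤ N by omega)).mul
    (loc_mR_cross hG hg hN hr hj.1 hj.2 hi.1 hi.2)
  refine h1.mono ?_
  have h3 := near_dd_le_of_le haj hj.2.le
  have h4 := dd_nonneg n i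
  linarith

theorem near_pS (hG : Gen s n g) (hg : 0 ≤ g) (hN : 3 * N + 3 ≤ s) (hn : 1 ≤ n) {m i : ℕ}
    (hm : m ∈ Icc n N) (hi : i ∈ Icc n N) :
    Bd ((piv s n)⁻¹ * pS s n N m i) (4 * (g + 26) + 3 * (dd n m + dd n i) / 8) := by
  rw [mem_Icc] at hm hi
  unfold pS
  rw [mul_sum]
  refine bd_sum _ _ fun j hj => ?_
  rw [mem_Icc] at hj
  by_cases hjm : j ≤ m
  swap
  · rw [near_mL_zero hjm, zero_mul, zero_mul, mul_zero]
    exact bd_zero _
  by_cases hji : j ≤ i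
  swap
  · rw [near_mR_zero hji, mul_zero, mul_zero]
    exact bd_zero _
  have h1 := ((loc_mL hG hg hN (show 1 ≤ j by omega) hm.2).mul
    (loc_piv_up hG hg hN hn hj.1 hj.2)).mul (loc_mR hG hg hN (show 1 ≤ j by omega) hi.2)
  have h2 : (piv s n)⁻¹ * (mL s m j * piv s j * mR s j i) =
      mL s m j * (piv s j / piv s n) * mR s j i := by ring
  rw [h2]
  refine h1.mono ?_
  have h3 := near_dd_le_of_ge hjm hj.1
  have h4 := near_dd_le_of_ge hji hj.1
  linarith

/-- `bd_mE`, `bd_mLi` with `small_Lam`, `lg_le_Lam`, and `bd_piv`. -/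
theorem glob_nInv (hN : 3 * n + 3 ≤ s) {a b : ℕ} (ha : a ∈ Ico 1 n) (hb : b ∈ Ico 1 n) :
    Bd (nInv s n a b) (9 * Lam s + 2) := by
  rw [mem_Ico] at ha hb
  unfold nInv
  refine bd_sum _ _ fun j hj => ?_
  rw [mem_Ico] at hj
  by_cases haj : a ≤ j
  swap
  · rw [near_mE_zero haj, zero_mul, zero_mul]
    exact bd_zero _
  by_cases hbj : b ≤ j
  swap
  · rw [near_mLi_zero hbj, mul_zero]
    exact bd_zero _
  have hL : 0 ≤ Lam s := zero_le_one.trans (one_le_Lam (by omega))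
  have hj3 : 3 * j + 3 ≤ s := by omega
  have h1 := ((bd_mE ha.1 haj hj3 hL (small_Lam (by omega) (by omega))).mul
    (bd_piv hj.1 hj3).2).mul (bd_mLi hb.1 hbj hj3 hL (small_Lam (by omega) (by omega)))
  refine h1.mono ?_
  have h3 : lg (j - a) ≤ Lam s := lg_le_Lam (by omega)
  have h4 : lg (j - b) ≤ Lam s := lg_le_Lam (by omega)
  linarith

end Pool.Agent.Lib.MP_88d29b_nt
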