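import Pool.Agent.Lib.MP_88d29b_nt.Defs

set_option autoImplicit false

noncomputable section

namespace Pool.Agent.Lib.MP_88d29b_nt

open Finset


variable {ι : Type} [Fintype ι] [DecidableEq ι]

theorem nonarch_norm_sign (σ : Equiv.Perm ι) (x : KK) : ‖Equiv.Perm.sign σ • x‖ = ‖x‖ := by
  rcases Int.units_eq_one_or (Equiv.Perm.sign σ) with h | h <;> simp [h]

theorem nonarch_prod_sub {κ : Type} (S : Finset κ) (f g : κ → KK) (hf : ∀ i, ‖f i‖ ≤ 1)
    (hg : ∀ i, ‖g i‖ ≤ 1) (h : ∀ i, ‖f i - g i‖ < 1) : ‖∏ i ∈ S, f i - ∏ i ∈ S, g i‖ < 1 := by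
  classical
  induction S using Finset.induction_on with
  | empty => simp
  | insert a S ha ih =>
    rw [prod_insert ha, prod_insert ha]
    have h1 : f a * ∏ i ∈ S, f i - g a * ∏ i ∈ S, g i =
        f a * (∏ i ∈ S, f i - ∏ i ∈ S, g i) + (f a - g a) * ∏ i ∈ S, g i := by ring
    have h2 : ‖∏ i ∈ S, g i‖ ≤ 1 := by
      rw [norm_prod]
      exact prod_le_one (fun i _ => norm_nonneg _) fun i _ => hg i
    rw [h1]
    refine (IsUltrametricDist.norm_add_le_max _ _).trans_lt (max_lt ?_ ?_)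
    · rw [norm_mul]
      exact mul_lt_one_of_nonneg_of_lt_one_right (hf a) (norm_nonneg _) ih
    · rw [norm_mul]
      exact mul_lt_one_of_nonneg_of_lt_one_left (norm_nonneg _) (h a) h2

theorem nonarch_norm_sub_ge {x y : KK} (h : ‖x‖ ≠ ‖y‖) : ‖x‖ ≤ ‖x - y‖ := by
  rw [sub_eq_add_neg,
    IsUltrametricDist.norm_add_eq_max_of_norm_ne_norm (by rwa [norm_neg])]
  exact le_max_left _ _

/-- `Matrix.det_apply` and the ultrametric inequality. -/
theorem norm_det_le (A : Matrix ι ι KK) (ρ : ι → ℝ) (h : ∀ a b, ‖A a b‖ ≤ ρ a) :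
    ‖A.det‖ ≤ ∏ a, ρ a := by
  have h0 : ∀ a, 0 ≤ ρ a := fun a => (norm_nonneg _).trans (h a a)
  rw [Matrix.det_apply]
  refine IsUltrametricDist.norm_sum_le_of_forall_le_of_nonneg
    (prod_nonneg fun a _ => h0 a) fun σ _ => ?_
  rw [nonarch_norm_sign, norm_prod, ← Equiv.prod_comp σ ρ]
  exact prod_le_prod (fun i _ => norm_nonneg _) fun i _ => h _ _

/-- `det (1 + H) - 1` has norm `< 1`: in the Leibniz expansion the identity permutation gives a
product of elements at distance `< 1` from `1`, every other term has norm `< 1`. -/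
theorem norm_det_one_add (H : Matrix ι ι KK) (h : ∀ a b, ‖H a b‖ < 1) : ‖(1 + H).det‖ = 1 := by
  have h1 : ∀ a b, ‖(1 : Matrix ι ι KK) a b‖ ≤ 1 := by
    intro a b
    rw [Matrix.one_apply]
    split_ifs <;> simp
  have h2 : ∀ a b, ‖(1 + H) a b‖ ≤ 1 := fun a b =>
    (IsUltrametricDist.norm_add_le_max _ _).trans (max_le (h1 a b) (h a b).le)
  have h3 : ‖(1 + H).det - (1 : Matrix ι ι KK).det‖ < 1 := by
    rw [Matrix.det_apply, Matrix.det_apply, ← sum_sub_distrib]
    refine sum_induction _ (fun x : KK => ‖x‖ < 1) (fun x y hx hy =>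
      (IsUltrametricDist.norm_add_le_max _ _).trans_lt (max_lt hx hy)) (by simp) fun σ _ => ?_
    rw [← smul_sub, nonarch_norm_sign]
    exact nonarch_prod_sub _ _ _ (fun i => h2 _ _) (fun i => h1 _ _) fun i => by simpa using h _ _
  rw [Matrix.det_one] at h3
  have h4 : (1 + H).det = 1 + ((1 + H).det - 1) := by ring
  rw [h4, IsUltrametricDist.norm_add_eq_max_of_norm_ne_norm (by rw [norm_one]; exact h3.ne'),
    norm_one, max_eq_left h3.le]

/-- `Matrix.adjugate_apply` and `norm_det_le`. -/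
theorem norm_adjugate_le (A : Matrix ι ι KK) (ρ : ι → ℝ) (h1 : ∀ a, 1 ≤ ρ a)
    (h : ∀ a b, ‖A a b‖ ≤ ρ a) (a b : ι) : ‖A.adjugate a b‖ ≤ ∏ a, ρ a := by
  rw [Matrix.adjugate_apply]
  refine norm_det_le _ ρ fun c d => ?_
  rw [Matrix.updateRow_apply]
  split_ifs with hc
  · refine le_trans ?_ (h1 c)
    rw [Pi.single_apply]
    split_ifs <;> simp
  · exact h c d

/-- With `M = F.card + 1`, the `M` numbers `2 ^ (c / M)`, where `c` runs through `M` consecutive
integers starting from `⌈τ M⌉`, are distinct, lie in the interval, and are norms of roots of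
`X ^ M = 2 ^ (-c)`. -/
theorem exists_norm_notMem (F : Finset ℝ) (τ : ℝ) :
    ∃ x : KK, (2 : ℝ) ^ τ ≤ ‖x‖ ∧ ‖x‖ ≤ (2 : ℝ) ^ (τ + 1) ∧ ‖x‖ ∉ F := by
  set M : ℕ := F.card + 1 with hM
  have hM0 : (0 : ℝ) < M := by positivity
  set e : ℕ → ℝ := fun j => ((⌈τ * M⌉ + j : ℤ) : ℝ) / M with he
  have hinj : Function.Injective fun j => (2 : ℝ) ^ e j := by
    intro i j hij
    have h1 : e i = e j := (Real.rpow_right_inj (by norm_num) (by norm_num)).1 hij
    rw [he] at h1
    have h2 := (div_left_inj' hM0.ne').1 h1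
    have h3 : (⌈τ * M⌉ + i : ℤ) = ⌈τ * M⌉ + j := by exact_mod_cast h2
    omega
  have hc : F.card < ((range M).image fun j => (2 : ℝ) ^ e j).card := by
    rw [card_image_of_injective _ hinj, card_range]
    omega
  obtain ⟨y, hy, hyF⟩ := exists_mem_notMem_of_card_lt_card hc
  obtain ⟨j, hj, rfl⟩ := mem_image.1 hy
  have hjM : (j : ℝ) + 1 ≤ M := by exact_mod_cast mem_range.1 hj
  obtain ⟨x, hx⟩ := IsAlgClosed.exists_pow_nat_eq ((2 : KK) ^ (-(⌈τ * M⌉ + j : ℤ)))
    (n := M) (by omega)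
  have hn : ‖x‖ = (2 : ℝ) ^ e j := by
    have h1 : ‖x‖ ^ M = ((2 : ℝ) ^ e j) ^ M := by
      rw [← norm_pow, hx, norm_zpow, norm_two, one_div, inv_zpow', neg_neg, ← Real.rpow_natCast,
        ← Real.rpow_mul (by norm_num), he, div_mul_cancel₀ _ hM0.ne', Real.rpow_intCast]
    exact (pow_left_inj₀ (norm_nonneg _) (by positivity) (by omega)).1 h1
  have h1 := Int.le_ceil (τ * M)
  have h2 := Int.ceil_lt_add_one (τ * M)
  have h3 : (0 : ℝ) ≤ j := Nat.cast_nonneg j
  refine ⟨x, ?_, ?_, hn ▸ hyF⟩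
  · rw [hn]
    refine Real.rpow_le_rpow_of_exponent_le (by norm_num) ?_
    rw [he, le_div_iff₀ hM0]
    push_cast
    linarith
  · rw [hn]
    refine Real.rpow_le_rpow_of_exponent_le (by norm_num) ?_
    rw [he, div_le_iff₀ hM0]
    push_cast
    linarith

/-- `det (1 - x⁻¹ Z) = ∏ (1 - μ / x)` over the roots `μ` of the characteristic polynomial (the field
is algebraically closed); choose `‖x‖` different from all `‖μ‖`, then each factor has norm
`max 1 (‖μ‖ / ‖x‖)`. -/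
theorem exists_generic (Z : Matrix ι ι KK) (τ : ℝ) :
    ∃ x : KK, (2 : ℝ) ^ τ ≤ ‖x‖ ∧ ‖x‖ ≤ (2 : ℝ) ^ (τ + 1) ∧ 1 ≤ ‖(1 - x⁻¹ • Z).det‖ := by
  obtain ⟨x, h1, h2, h3⟩ := exists_norm_notMem (Z.charpoly.roots.map fun μ => ‖μ‖).toFinset τ
  refine ⟨x, h1, h2, ?_⟩
  have hx0 : 0 < ‖x‖ := lt_of_lt_of_le (by positivity) h1
  have hx : x ≠ 0 := norm_pos_iff.1 hx0
  have h4 : 1 - x⁻¹ • Z = x⁻¹ • (Matrix.scalar ι x - Z) := by
    rw [smul_sub, Matrix.scalar_apply, ← Matrix.smul_one_eq_diagonal, smul_smul,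
      inv_mul_cancel₀ hx, one_smul]
  have hs := IsAlgClosed.splits Z.charpoly
  have hcard : Z.charpoly.roots.card = Fintype.card ι := by
    rw [← hs.natDegree_eq_card_roots, Matrix.charpoly_natDegree_eq_dim]
  have h5 : ‖x‖ ^ Fintype.card ι ≤ ‖(Z.charpoly.roots.map (x - ·)).prod‖ := by
    have h6 : ∀ s : Multiset KK, (∀ μ ∈ s, ‖x‖ ≠ ‖μ‖) →
        ‖x‖ ^ s.card ≤ ‖(s.map (x - ·)).prod‖ := by
      intro s
      induction s using Multiset.induction_on with
      | empty => simp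
      | cons a s ih =>
        intro hs
        rw [Multiset.map_cons, Multiset.prod_cons, Multiset.card_cons, pow_succ', norm_mul]
        exact mul_le_mul (nonarch_norm_sub_ge (hs a (Multiset.mem_cons_self _ _)))
          (ih fun μ hμ => hs μ (Multiset.mem_cons_of_mem hμ)) (by positivity) (norm_nonneg _)
    rw [← hcard]
    refine h6 _ fun μ hμ hne => h3 ?_
    rw [Multiset.mem_toFinset, hne]
    exact Multiset.mem_map_of_mem _ hμ
  rw [h4, Matrix.det_smul, ← Matrix.eval_charpoly,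
    hs.eval_eq_prod_roots_of_monic Z.charpoly_monic, norm_mul, norm_pow, norm_inv, inv_pow,
    ← div_eq_inv_mul, le_div_iff₀ (by positivity), one_mul]
  exact h5

end Pool.Agent.Lib.MP_88d29b_nt
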