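import Pool.Agent.Lib.MP_88d29b_nt.NonArch

set_option autoImplicit false

noncomputable section

namespace Pool.Agent.Lib.MP_88d29b_nt

open Finset


/-- The Hodge bound. The matrix is `B * diagonal (4 ^ i)` with `B m i = 2 ^ e / 2 * 4 ^ m * M m i`;
by `Matrix.det_one_sub_mul_comm` move the diagonal factor to the left and use `norm_det_le`. -/
theorem hodge {e : ℕ} (s : ℕ) (M : ℕ → ℕ → ℤ) (x : KK) :
    ‖detK (matU e s M) x‖ ≤ ∏ m ∈ Ico 1 s, max 1 (‖x‖ * (2 : ℝ) ^ (1 - 4 * (m : ℝ))) := by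
  set B : Matrix (Idx s) (Idx s) KK := fun m i => x * (2 ^ e / 2 * 4 ^ (m : ℕ) * (M m i : KK))
    with hB
  set D : Matrix (Idx s) (Idx s) KK := Matrix.diagonal fun i => 4 ^ (i : ℕ) with hD
  have h1 : x • (matU e s M).map (fun q : ℚ => (q : KK)) = B * D := by
    ext m i
    rw [hD, Matrix.mul_diagonal]
    simp only [Matrix.smul_apply, Matrix.map_apply, matU, uEnt, hB, smul_eq_mul]
    push_cast
    ring
  have h4 : ∀ m : ℕ, ‖(4 : KK) ^ m‖ = (2 : ℝ) ^ (-(2 * m : ℝ)) := fun m => by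
    simpa [nrm] using nrm_four_pow m
  rw [detK, h1, Matrix.det_one_sub_mul_comm]
  refine (norm_det_le _ (fun m : Idx s => max 1 (‖x‖ * (2 : ℝ) ^ (1 - 4 * ((m : ℕ) : ℝ))))
    fun a b => ?_).trans_eq
    (Finset.prod_coe_sort (Ico 1 s) fun m : ℕ => max 1 (‖x‖ * (2 : ℝ) ^ (1 - 4 * (m : ℝ))))
  rw [Matrix.sub_apply, sub_eq_add_neg]
  refine (IsUltrametricDist.norm_add_le_max _ _).trans (max_le_max ?_ ?_)
  · rw [Matrix.one_apply]
    split_ifs <;> simp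
  · rw [norm_neg, hD, Matrix.diagonal_mul, hB]
    simp only [norm_mul, norm_div, norm_pow, norm_two]
    rw [← norm_pow (4 : KK), h4]
    have h2 : ((1 : ℝ) / 2) ^ e ≤ 1 := pow_le_one₀ (by norm_num) (by norm_num)
    have h3 : ‖(M a b : KK)‖ ≤ 1 := IsUltrametricDist.norm_intCast_le_one KK _
    have h5 : (2 : ℝ) ^ (1 - 4 * ((a : ℕ) : ℝ)) =
        2 * ((2 : ℝ) ^ (-(2 * (a : ℕ) : ℝ)) * (2 : ℝ) ^ (-(2 * (a : ℕ) : ℝ))) := by
      rw [← Real.rpow_add (by norm_num), sub_eq_add_neg, Real.rpow_add (by norm_num),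
        Real.rpow_one]
      congr 2; ring
    have h6 : ((1 : ℝ) / 2) ^ e * ‖(M a b : KK)‖ ≤ 1 := mul_le_one₀ h2 (norm_nonneg _) h3
    have h7 : 0 ≤ ‖x‖ * (2 * ((2 : ℝ) ^ (-(2 * (a : ℕ) : ℝ)) * (2 : ℝ) ^ (-(2 * (a : ℕ) : ℝ)))) := by
      positivity
    rw [h5]
    refine le_of_eq_of_le ?_ (mul_le_of_le_one_right h7 h6)
    ring

/-- For instance by induction on `s`, or comparing with an integral. -/
lemma sum_pos_part_le (s : ℕ) {τ : ℝ} (hτ : 0 ≤ τ) :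
    ∑ m ∈ Ico 1 s, max 0 (τ - 4 * (m : ℝ)) ≤ τ ^ 2 / 8 := by
  have key : ∀ n : ℕ, ∑ m ∈ Ico 1 (n + 1), max 0 (τ - 4 * (m : ℝ)) +
      (max 0 (τ - 4 * (n : ℝ))) ^ 2 / 8 ≤ τ ^ 2 / 8 := by
    intro n
    induction n with
    | zero => simp [max_eq_right hτ]
    | succ n ih =>
      rw [Finset.sum_Ico_succ_top (by omega)]
      have : max 0 (τ - 4 * ((n + 1 : ℕ) : ℝ)) + (max 0 (τ - 4 * ((n + 1 : ℕ) : ℝ))) ^ 2 / 8 ≤
          (max 0 (τ - 4 * (n : ℝ))) ^ 2 / 8 := by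
        push_cast
        rcases le_total (τ - 4 * ((n : ℝ) + 1)) 0 with h | h
        · rw [max_eq_left h]; simp only [ne_eq, OfNat.ofNat_ne_zero, not_false_eq_true, zero_pow,
            zero_div, add_zero]; positivity
        · rw [max_eq_right h, max_eq_right (by linarith)]; nlinarith
      linarith
  rcases s with _ | n
  · simp only [Ico_eq_empty_of_le (Nat.zero_le 1), sum_empty]; positivity
  · have h1 := key n
    have h2 : 0 ≤ (max 0 (τ - 4 * (n : ℝ))) ^ 2 / 8 := by positivity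
    linarith

lemma phi_mono (A : Multiset KK) {t t' : ℝ} (h : t ≤ t') : phi A t ≤ phi A t' := by
  refine Multiset.sum_map_le_sum_map _ _ fun a _ => ?_
  refine Real.logb_le_logb_of_le (by norm_num) (by positivity) (max_le_max le_rfl ?_)
  exact mul_le_mul_of_nonneg_left (Real.rpow_le_rpow_of_exponent_le (by norm_num) h)
    (norm_nonneg _)

lemma phib_rpow (A : Multiset KK) (t : ℝ) :
    (2 : ℝ) ^ phi A t = (A.map (fun a => max 1 (‖a‖ * (2 : ℝ) ^ t))).prod := by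
  unfold phi
  induction A using Multiset.induction_on with
  | empty => simp
  | cons a A ih =>
    rw [Multiset.map_cons, Multiset.map_cons, Multiset.sum_cons, Multiset.prod_cons,
      Real.rpow_add (by norm_num), ih, Real.rpow_logb (by norm_num) (by norm_num) (by positivity)]

lemma phib_small {k : ℕ} {x : KK} (hx : ‖x‖ < (2 : ℝ) ^ ((k : ℝ) / 2 - 1)) :
    ‖2 ^ k * x ^ 2 / 2‖ < 1 := by
  have h1 : ‖x‖ ^ 2 < ((2 : ℝ) ^ ((k : ℝ) / 2 - 1)) ^ 2 :=
    pow_lt_pow_left₀ hx (norm_nonneg _) two_ne_zero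
  have h2 : ((2 : ℝ) ^ ((k : ℝ) / 2 - 1)) ^ 2 = 2 ^ k / 4 := by
    rw [← Real.rpow_two, ← Real.rpow_mul (by norm_num),
      show ((k : ℝ) / 2 - 1) * 2 = k - 2 by ring, Real.rpow_sub (by norm_num), Real.rpow_natCast,
      Real.rpow_two]
    norm_num
  rw [h2] at h1
  rw [norm_div, norm_mul, norm_pow, norm_pow, norm_two, one_div, inv_pow, div_inv_eq_mul]
  have h3 : (0 : ℝ) < 2 ^ k := by positivity
  rw [mul_assoc, inv_mul_lt_iff₀ h3]
  linarith

/-- Choose `x` with `2 ^ t ≤ ‖x‖ ≤ 2 ^ (t + 1)` and `‖x‖ ≠ ‖a‖⁻¹` for all `a ∈ A`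
(`exists_norm_notMem`). As `‖2 ^ k x ^ 2 / 2‖ < 1`, each factor has norm exactly
`max 1 (‖a‖ ‖x‖)`. Take logarithms in `hodge`. -/
theorem phi_upper {e s k : ℕ} {M : ℕ → ℕ → ℤ} {A : Multiset KK}
    (H : ∀ x : KK, ‖x‖ < (2 : ℝ) ^ ((k : ℝ) / 2 - 1) →
      ‖detK (matU e s M) x‖ = (A.map (fun a => ‖1 - a * x + 2 ^ k * x ^ 2 / 2‖)).prod)
    {t : ℝ} (ht : 0 ≤ t) (htk : t + 1 < (k : ℝ) / 2 - 1) : phi A t ≤ (t + 2) ^ 2 / 8 := by
  classical
  obtain ⟨x, hx1, hx2, hx3⟩ := exists_norm_notMem (A.toFinset.image fun a => ‖a‖⁻¹) t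
  have hx4 : ‖x‖ < (2 : ℝ) ^ ((k : ℝ) / 2 - 1) :=
    hx2.trans_lt (Real.rpow_lt_rpow_of_exponent_lt (by norm_num) htk)
  have hq := phib_small hx4
  have h1 : (A.map (fun a => max 1 (‖a‖ * (2 : ℝ) ^ t))).prod ≤
      (A.map (fun a => ‖1 - a * x + 2 ^ k * x ^ 2 / 2‖)).prod := by
    refine Multiset.prod_map_le_prod_map₀ _ _ (fun a _ => by positivity) fun a ha => ?_
    have h2 : ‖(1 : KK)‖ ≠ ‖-(a * x)‖ := by
      rw [norm_one, norm_neg, norm_mul]
      intro h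
      refine hx3 (Finset.mem_image.2 ⟨a, Multiset.mem_toFinset.2 ha, ?_⟩)
      exact (eq_inv_of_mul_eq_one_right h.symm).symm
    have h3 : ‖1 - a * x‖ = max 1 (‖a‖ * ‖x‖) := by
      rw [sub_eq_add_neg, IsUltrametricDist.norm_add_eq_max_of_norm_ne_norm h2, norm_one, norm_neg,
        norm_mul]
    have h4 : ‖2 ^ k * x ^ 2 / 2‖ < ‖1 - a * x‖ := hq.trans_le (h3 ▸ le_max_left _ _)
    rw [IsUltrametricDist.norm_add_eq_max_of_norm_ne_norm h4.ne', max_eq_left h4.le, h3]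
    exact max_le_max le_rfl (mul_le_mul_of_nonneg_left hx1 (norm_nonneg _))
  have h5 : ∏ m ∈ Ico 1 s, max 1 (‖x‖ * (2 : ℝ) ^ (1 - 4 * (m : ℝ))) ≤
      (2 : ℝ) ^ (∑ m ∈ Ico 1 s, max 0 (t + 2 - 4 * (m : ℝ))) := by
    rw [Real.rpow_sum_of_pos (by norm_num)]
    refine Finset.prod_le_prod (fun _ _ => by positivity) fun m _ => max_le ?_ ?_
    · exact Real.one_le_rpow (by norm_num) (le_max_left _ _)
    · refine (mul_le_mul_of_nonneg_right hx2 (by positivity)).trans ?_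
      rw [← Real.rpow_add (by norm_num)]
      exact Real.rpow_le_rpow_of_exponent_le (by norm_num)
        (le_trans (by linarith) (le_max_right _ _))
  rw [← H x hx4, ← phib_rpow] at h1
  have h6 := h1.trans ((hodge s M x).trans h5)
  rw [Real.rpow_le_rpow_left_iff (by norm_num)] at h6
  exact h6.trans (sum_pos_part_le s (by linarith))

/-- Each factor has norm at most `max 1 (‖a‖ 2 ^ t)`. -/
theorem phi_lower {k : ℕ} {A : Multiset KK} {x : KK} {t y : ℝ} (hx : ‖x‖ ≤ (2 : ℝ) ^ t)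
    (htk : t < (k : ℝ) / 2 - 1)
    (hy : (2 : ℝ) ^ y ≤ (A.map (fun a => ‖1 - a * x + 2 ^ k * x ^ 2 / 2‖)).prod) :
    y ≤ phi A t := by
  have hx4 : ‖x‖ < (2 : ℝ) ^ ((k : ℝ) / 2 - 1) :=
    hx.trans_lt (Real.rpow_lt_rpow_of_exponent_lt (by norm_num) htk)
  have hq := phib_small hx4
  have h1 : (A.map (fun a => ‖1 - a * x + 2 ^ k * x ^ 2 / 2‖)).prod ≤
      (A.map (fun a => max 1 (‖a‖ * (2 : ℝ) ^ t))).prod := by
    refine Multiset.prod_map_le_prod_map₀ _ _ (fun a _ => norm_nonneg _) fun a _ => ?_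
    refine (IsUltrametricDist.norm_add_le_max _ _).trans (max_le ?_ (hq.le.trans (le_max_left _ _)))
    rw [sub_eq_add_neg]
    refine (IsUltrametricDist.norm_add_le_max _ _).trans (max_le_max (by simp) ?_)
    rw [norm_neg, norm_mul]
    exact mul_le_mul_of_nonneg_left hx (norm_nonneg _)
  rw [← phib_rpow] at h1
  have h2 := hy.trans h1
  rwa [Real.rpow_le_rpow_left_iff (by norm_num)] at h2

end Pool.Agent.Lib.MP_88d29b_nt
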