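import Pool.Agent.Lib.MP_88d29b_nt.Defs

set_option autoImplicit false

noncomputable section

namespace Pool.Agent.Lib.MP_88d29b_nt

open Finset


lemma rf_zero (a : ℤ) : rf a 0 = 1 := by
  simp [rf]

lemma rf_succ (a : ℤ) (d : ℕ) : rf a (d + 1) = rf a d * ((a : ℚ) + d) := by
  rw [rf, prod_range_succ, rf]

lemma rf_add (a : ℤ) (p q : ℕ) : rf a (p + q) = rf a p * rf (a + p) q := by
  rw [rf, prod_range_add, rf, rf]
  congr 1
  refine prod_congr rfl fun l _ => ?_
  push_cast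
  ring

lemma rf_ne_zero {a : ℤ} (ha : 0 < a) (d : ℕ) : rf a d ≠ 0 := by
  refine prod_ne_zero_iff.mpr fun l _ => ?_
  have h1 : (0 : ℚ) < a := by exact_mod_cast ha
  have h2 : (0 : ℚ) ≤ l := Nat.cast_nonneg l
  linarith

lemma rf_one (d : ℕ) : rf 1 d = (d.factorial : ℚ) := by
  induction d with
  | zero => simp [rf]
  | succ d ih =>
    rw [rf_succ, ih, Nat.factorial_succ]
    push_cast
    ring

lemma prod_Ico_add (c : ℤ) {j m : ℕ} (h : j ≤ m) :
    ∏ l ∈ Ico j m, ((c : ℚ) + l) = rf (c + j) (m - j) := by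
  rw [prod_Ico_eq_prod_range, rf]
  refine prod_congr rfl fun l _ => ?_
  push_cast
  ring

lemma prod_Ico_sub (c : ℤ) {j m : ℕ} (h : j ≤ m) :
    ∏ l ∈ Ico j m, ((c : ℚ) - l) = rf (c - m + 1) (m - j) := by
  induction m, h using Nat.le_induction with
  | base => simp [rf]
  | succ m h ih =>
    have h1 : m + 1 - j = 1 + (m - j) := by omega
    have h2 : c - ((m + 1 : ℕ) : ℤ) + 1 + ((1 : ℕ) : ℤ) = c - m + 1 := by
      push_cast
      ring
    rw [prod_Ico_succ_top h, ih, h1, rf_add, h2, mul_comm]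
    congr 1
    simp only [rf, prod_range_one]
    push_cast
    ring

private lemma rf_two_pow_le (d : ℕ) : 2 ^ d ≤ (d + 1) * 2 ^ padicValNat 2 d.factorial := by
  induction d using Nat.strong_induction_on with
  | _ d ih =>
    rcases Nat.eq_zero_or_pos d with rfl | hd
    · simp
    obtain ⟨m, rfl | rfl⟩ := Nat.even_or_odd' d
    · have h1 := ih m (by omega)
      rw [padicValNat_factorial_mul, pow_add, two_mul m, pow_add]
      calc 2 ^ m * 2 ^ m ≤ ((m + 1) * 2 ^ padicValNat 2 m.factorial) * 2 ^ m :=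
            Nat.mul_le_mul_right _ h1
        _ = (m + 1) * (2 ^ padicValNat 2 m.factorial * 2 ^ m) := by ring
        _ ≤ (m + m + 1) * (2 ^ padicValNat 2 m.factorial * 2 ^ m) :=
            Nat.mul_le_mul_right _ (by omega)
    · have h1 := ih m (by omega)
      rw [padicValNat_factorial_mul_add m (by norm_num), padicValNat_factorial_mul, pow_add 2 _ m]
      calc 2 ^ (2 * m + 1) = 2 ^ m * (2 * 2 ^ m) := by ring
        _ ≤ ((m + 1) * 2 ^ padicValNat 2 m.factorial) * (2 * 2 ^ m) :=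
            Nat.mul_le_mul_right _ h1
        _ = (2 * m + 1 + 1) * (2 ^ padicValNat 2 m.factorial * 2 ^ m) := by ring

private lemma rf_nrm_fact (d : ℕ) :
    nrm (d.factorial : ℚ) = (2 : ℝ) ^ (-(padicValNat 2 d.factorial : ℝ)) := by
  have h := nrm_int (n := (d.factorial : ℤ)) (by exact_mod_cast d.factorial_ne_zero)
  rw [padicValInt.of_nat] at h
  simpa using h

private lemma rf_dvd (a : ℤ) (d : ℕ) : ∃ c : ℤ, rf a d = (d.factorial : ℚ) * c := by
  have hf : (1 : ℤ) ≤ d.factorial := by exact_mod_cast d.factorial_pos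
  have h0 : 0 ≤ a + |a| * d.factorial := by
    have := neg_abs_le a
    nlinarith [abs_nonneg a]
  obtain ⟨b, hb⟩ := Int.eq_ofNat_of_zero_le h0
  have h1 : ∀ n : ℕ, ∏ l ∈ range n, ((b : ℤ) + l) ≡ ∏ l ∈ range n, (a + l)
      [ZMOD (d.factorial : ℤ)] := by
    intro n
    induction n with
    | zero => simp
    | succ n ih =>
      rw [prod_range_succ, prod_range_succ]
      refine ih.mul (Int.ModEq.add_right _ ?_)
      rw [← hb]
      exact (Int.modEq_iff_dvd.mpr ⟨-|a|, by ring⟩)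
  have h2 : (d.factorial : ℤ) ∣ ∏ l ∈ range d, ((b : ℤ) + l) := by
    have h3 := Nat.factorial_dvd_ascFactorial b d
    rw [Nat.ascFactorial_eq_prod_range] at h3
    exact_mod_cast h3
  obtain ⟨c, hc⟩ := (h1 d).dvd_iff.mp h2
  refine ⟨c, ?_⟩
  rw [rf]
  exact_mod_cast hc

private lemma rf_nrm_le {b c : ℤ} {n : ℕ}
    (h : ∀ l : ℕ, l < n → nrm ((b : ℚ) + l) ≤ nrm ((c : ℚ) + l)) :
    nrm (rf b n) ≤ nrm (rf c n) := by
  rw [rf, rf, nrm_prod, nrm_prod]
  exact prod_le_prod (fun _ _ => nrm_nonneg _) fun l hl => h l (mem_range.mp hl)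

private lemma rf_nrm_neg (p : ℕ) : nrm (rf (-(p : ℤ)) p) = nrm (p.factorial : ℚ) := by
  induction p with
  | zero => simp [rf]
  | succ p ih =>
    have h2 : -((p + 1 : ℕ) : ℤ) + ((1 : ℕ) : ℤ) = -(p : ℤ) := by
      push_cast
      ring
    have h3 : rf (-((p + 1 : ℕ) : ℤ)) 1 = -((p + 1 : ℕ) : ℚ) := by simp [rf]
    have h4 := rf_add (-((p + 1 : ℕ) : ℤ)) 1 p
    rw [h2, h3, add_comm 1 p] at h4
    rw [h4, nrm_mul, ih, nrm_neg, Nat.factorial_succ, Nat.cast_mul, nrm_mul]

private lemma rf_split (a : ℤ) (p q : ℕ) :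
    rf a (p + 1 + q) = rf a p * ((a + p : ℤ) : ℚ) * rf (a + p + 1) q := by
  rw [rf_add, rf_succ]
  push_cast
  rw [add_assoc]

/-- Legendre: `v_2(d!) = d - (digit sum)`, and a number with binary digit sum `σ` is at least
`2 ^ σ - 1`. Or directly by strong induction: `v_2(d!) = d / 2 + v_2((d / 2)!)`. -/
theorem bd_fact (d : ℕ) : Bd (d.factorial : ℚ) (-(d : ℝ) + lg d) := by
  have h1 : (2 : ℝ) ^ d ≤ ((d : ℝ) + 1) * 2 ^ padicValNat 2 d.factorial := by
    exact_mod_cast rf_two_pow_le d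
  unfold Bd
  rw [rf_nrm_fact, Real.rpow_add (by norm_num), lg,
    Real.rpow_logb (by norm_num) (by norm_num) (by positivity), Real.rpow_neg (by norm_num),
    Real.rpow_neg (by norm_num), Real.rpow_natCast, Real.rpow_natCast, inv_mul_eq_div,
    le_div_iff₀ (by positivity), inv_mul_le_iff₀ (by positivity), mul_comm]
  exact h1

/-- `v_2(d!) ≤ d`. -/
theorem bd_fact_inv (d : ℕ) : Bd ((d.factorial : ℚ)⁻¹) (d : ℝ) := by
  have h1 := sub_one_mul_padicValNat_factorial (p := 2) d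
  have h2 : padicValNat 2 d.factorial ≤ d := by omega
  unfold Bd
  rw [nrm_inv, rf_nrm_fact, Real.rpow_neg (by norm_num), inv_inv]
  exact Real.rpow_le_rpow_of_exponent_le (by norm_num) (by exact_mod_cast h2)

/-- A product of `d` consecutive integers is divisible by `d!` (for every integer `a`, also
negative: `Ring.choose`, `ascPochhammer`, or reduce to `Nat.factorial_dvd_ascFactorial`). -/
theorem bd_rf (a : ℤ) (d : ℕ) : Bd (rf a d) (-(d : ℝ) + lg d) := by
  obtain ⟨c, hc⟩ := rf_dvd a d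
  rw [hc]
  simpa using (bd_fact d).mul (bd_int c)

/-- If all factors have valuation at most `mu` then the product has valuation at most `d + mu`.
Replace `mu` by its floor and induct on it: the odd factors are units, the at most `(d + 1) / 2`
even factors are twice consecutive integers of valuation at most `mu - 1`. -/
theorem bd_rf_inv {a : ℤ} {d : ℕ} {mu : ℝ} (hmu : 0 ≤ mu) (ha : 0 < a)
    (h : Sml a (a + d - 1) mu) : Bd ((rf a d)⁻¹) ((d : ℝ) + mu) := by
  rcases Nat.eq_zero_or_pos d with rfl | hd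
  · rw [rf_zero, inv_one]
    exact bd_one.mono (by simpa using hmu)
  obtain ⟨p, hp, hmin⟩ := exists_min_image (range d) (fun l : ℕ => nrm ((a : ℚ) + l))
    ⟨0, mem_range.mpr hd⟩
  have hpd := mem_range.mp hp
  obtain ⟨q, rfl⟩ : ∃ q, d = p + 1 + q := ⟨d - (p + 1), by omega⟩
  have key : ∀ l : ℕ, l < p + 1 + q → nrm ((a : ℚ) + l - (a + p)) ≤ nrm ((a : ℚ) + l) :=
    fun l hl => (nrm_sub_le _ _).trans (max_le le_rfl (hmin l (mem_range.mpr hl)))
  have h1 : nrm (p.factorial : ℚ) ≤ nrm (rf a p) := by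
    rw [← rf_nrm_neg]
    refine rf_nrm_le fun l hl => ?_
    have h2 := key l (by omega)
    have h3 : (a : ℚ) + l - (a + p) = ((-(p : ℤ) : ℤ) : ℚ) + l := by
      push_cast
      ring
    rwa [h3] at h2
  have h2 : nrm (q.factorial : ℚ) ≤ nrm (rf (a + p + 1) q) := by
    rw [← rf_one]
    refine rf_nrm_le fun l hl => ?_
    have h2 := key (p + 1 + l) (by omega)
    have h3 : (a : ℚ) + ((p + 1 + l : ℕ) : ℚ) - (a + p) = ((1 : ℤ) : ℚ) + l := by
      push_cast
      ring
    have h4 : (a : ℚ) + ((p + 1 + l : ℕ) : ℚ) = ((a + p + 1 : ℤ) : ℚ) + l := by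
      push_cast
      ring
    rwa [h3, h4] at h2
  have inv_le : ∀ {x : ℚ} {n : ℕ}, nrm (n.factorial : ℚ) ≤ nrm x → Bd x⁻¹ (n : ℝ) := by
    intro x n hx
    refine le_trans ?_ (bd_fact_inv n)
    rw [nrm_inv, nrm_inv]
    exact inv_anti₀ (nrm_pos (by exact_mod_cast n.factorial_ne_zero)) hx
  have h3 := h (a + p) (by omega) (by push_cast; omega)
  rw [rf_split, mul_inv, mul_inv]
  refine (((inv_le h1).mul h3).mul (inv_le h2)).mono ?_
  push_cast
  linarith

/-- If one factor `x` is divisible by `2 ^ r`, split the product at `x` and use `bd_rf` on both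
sides. -/
theorem bd_rf_cross {a x : ℤ} {d r : ℕ} (h1 : a ≤ x) (h2 : x < a + d) (hr : (2 : ℤ) ^ r ∣ x) :
    Bd (rf a d) (-(r : ℝ) - d + 1 + 2 * lg d) := by
  obtain ⟨p, hp⟩ := Int.eq_ofNat_of_zero_le (sub_nonneg.mpr h1)
  obtain rfl : x = a + p := by omega
  obtain ⟨q, rfl⟩ : ∃ q, d = p + 1 + q := ⟨d - (p + 1), by omega⟩
  rw [rf_split]
  refine (((bd_rf a p).mul (bd_of_dvd hr)).mul (bd_rf _ q)).mono ?_
  have h3 : lg p ≤ lg (p + 1 + q) := lg_mono (by omega)
  have h4 : lg q ≤ lg (p + 1 + q) := lg_mono (by omega)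
  push_cast
  linarith

end Pool.Agent.Lib.MP_88d29b_nt
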