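import Pool.Agent.Lib.MP_88d29b_nt.Comm

set_option autoImplicit false

noncomputable section

namespace Pool.Agent.Lib.MP_88d29b_nt

open Finset

/-- The product in the definition of `mLi`. -/
def rowfPhi (s j m : ℕ) : ℚ :=
  ∏ l ∈ Ico m j, (-(((s : ℚ) - l - 1) * (s + l - 2 * j) * (s - l - 2 * j))) /
    (2 * (2 * l - 1) * (j - l) * (s - j - l))

/-- The ratio in the definition of `mR`. -/
def rowfR (s j l : ℕ) : ℚ :=
  (((l : ℚ) - 1) * (2 * j - l) * (2 * s - 2 * j - l)) /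
    (2 * (2 * s - 2 * l - 1) * (j - l) * (s - l - j))

/-- The auxiliary row. -/
def rowfTh (s j i : ℕ) : ℚ := ∑ m ∈ Icc 1 j, rowfPhi s j m * matB (s + 1) m i

lemma rowf_phi_self (s j : ℕ) : rowfPhi s j j = 1 := by simp [rowfPhi]

lemma rowf_odd_ne (a : ℚ) (n : ℤ) (h : a = 2 * n - 1) : a ≠ 0 := by
  rw [h]
  have : (2 * n - 1 : ℤ) ≠ 0 := by omega
  exact_mod_cast this

lemma rowf_phi_step {s j m : ℕ} (hs : 3 * j + 3 ≤ s) (hm : m < j) :
    2 * (2 * (m : ℚ) - 1) * ((j : ℚ) - m) * ((s : ℚ) - j - m) * rowfPhi s j m =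
      -(((s : ℚ) - m - 1) * (s + m - 2 * j) * (s - m - 2 * j)) * rowfPhi s j (m + 1) := by
  have h1 : (2 * (m : ℚ) - 1) ≠ 0 := rowf_odd_ne _ m (by push_cast; ring)
  have hmj : (m : ℚ) < j := by exact_mod_cast hm
  have hsj : (3 * j + 3 : ℚ) ≤ s := by exact_mod_cast hs
  have hm0 : (0 : ℚ) ≤ m := Nat.cast_nonneg m
  have h2 : ((j : ℚ) - m) ≠ 0 := by linarith
  have h3 : ((s : ℚ) - j - m) ≠ 0 := by linarith
  unfold rowfPhi
  rw [Finset.prod_eq_prod_Ico_succ_bot hm]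
  field_simp

/-- A shifted sum over `Icc 1 j`. -/
lemma rowf_shift (j : ℕ) (f : ℕ → ℚ) (h0 : f 0 = 0) :
    ∑ m ∈ Icc 1 j, f (m - 1) = ∑ m ∈ Ico 1 j, f m := by
  induction j with
  | zero => simp
  | succ j ih =>
    rw [Finset.sum_Icc_succ_top (by omega), ih]
    rcases Nat.eq_zero_or_pos j with rfl | hj
    · simp [h0]
    · rw [Finset.sum_Ico_succ_top hj]
      simp

lemma rowf_split {j : ℕ} (hj : 1 ≤ j) (f : ℕ → ℚ) :
    ∑ m ∈ Icc 1 j, f m = ∑ m ∈ Ico 1 j, f m + f j := by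
  rw [← Finset.sum_Ico_succ_top hj, Finset.Ico_add_one_right_eq_Icc]

/-- The two term recurrence of the auxiliary row. -/
lemma rowf_rec {s j i : ℕ} (hj : 1 ≤ j) (hs : 3 * j + 3 ≤ s) (hi : 1 ≤ i) :
    2 * (2 * (s : ℚ) - 2 * i - 1) * ((j : ℚ) - i) * ((s : ℚ) - i - j) * rowfTh s j (i + 1) =
      ((i : ℚ) - 1) * (2 * j - i) * (2 * s - 2 * j - i) * rowfTh s j i := by
  set lam : ℚ := (j : ℚ) * (s - j) with hlam
  have hsum : ∑ m ∈ Icc 1 j, rowfPhi s j m *
      (2 * (2 * (m : ℚ) - 1) * (m * (s - m) - lam) * matA s m i -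
        ((s : ℚ) - m) * (s ^ 2 - (m - 1) ^ 2 - 4 * lam) * matA s (m - 1) i) =
      ∑ m ∈ Icc 1 j, rowfPhi s j m *
      (matB (s + 1) m (i + 1) * (2 * (2 * (s : ℚ) - 2 * i - 1) * (lam - i * (s - i))) -
        matB (s + 1) m i * (((i : ℚ) - 1) * (i ^ 2 - 2 * s * i + 4 * lam))) := by
    refine Finset.sum_congr rfl fun m hm => ?_
    rw [Finset.mem_Icc] at hm
    rw [comm_rel lam hm.1 hi (by omega)]
  have hR : ∑ m ∈ Icc 1 j, rowfPhi s j m *
      (matB (s + 1) m (i + 1) * (2 * (2 * (s : ℚ) - 2 * i - 1) * (lam - i * (s - i))) -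
        matB (s + 1) m i * (((i : ℚ) - 1) * (i ^ 2 - 2 * s * i + 4 * lam))) =
      2 * (2 * (s : ℚ) - 2 * i - 1) * ((j : ℚ) - i) * ((s : ℚ) - i - j) * rowfTh s j (i + 1) -
      ((i : ℚ) - 1) * (2 * j - i) * (2 * s - 2 * j - i) * rowfTh s j i := by
    unfold rowfTh
    rw [Finset.mul_sum, Finset.mul_sum, ← Finset.sum_sub_distrib]
    refine Finset.sum_congr rfl fun m _ => ?_
    rw [hlam]
    ring
  have hL : ∑ m ∈ Icc 1 j, rowfPhi s j m *
      (2 * (2 * (m : ℚ) - 1) * (m * (s - m) - lam) * matA s m i -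
        ((s : ℚ) - m) * (s ^ 2 - (m - 1) ^ 2 - 4 * lam) * matA s (m - 1) i) = 0 := by
    let f : ℕ → ℚ := fun m => rowfPhi s j (m + 1) *
      (((s : ℚ) - m - 1) * (s ^ 2 - m ^ 2 - 4 * lam) * matA s m i)
    have h0 : f 0 = 0 := by
      simp only [f]
      rw [matA_eq_zero (by omega)]
      simp
    have e1 : ∑ m ∈ Icc 1 j, rowfPhi s j m *
        (((s : ℚ) - m) * (s ^ 2 - (m - 1) ^ 2 - 4 * lam) * matA s (m - 1) i) =
        ∑ m ∈ Ico 1 j, f m := by
      rw [← rowf_shift j f h0]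
      refine Finset.sum_congr rfl fun m hm => ?_
      rw [Finset.mem_Icc] at hm
      simp only [f]
      rw [Nat.sub_add_cancel hm.1, Nat.cast_sub hm.1]
      push_cast
      ring
    have e2 : ∑ m ∈ Icc 1 j, rowfPhi s j m *
        (2 * (2 * (m : ℚ) - 1) * (m * (s - m) - lam) * matA s m i) = ∑ m ∈ Ico 1 j, f m := by
      rw [rowf_split hj]
      have : (j : ℚ) * (s - j) - lam = 0 := by rw [hlam]; ring
      rw [this]
      simp only [mul_zero, zero_mul, add_zero]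
      refine Finset.sum_congr rfl fun m hm => ?_
      rw [Finset.mem_Ico] at hm
      have h := rowf_phi_step hs hm.2
      simp only [f]
      rw [hlam]
      linear_combination (-(matA s m i)) * h
    simp only [mul_sub]
    rw [Finset.sum_sub_distrib]
    simp only [← mul_sub]
    rw [e1, e2, sub_self]
  rw [hL, hR] at hsum
  linarith

lemma rowf_mLi_self {s j : ℕ} (hs : 3 * j + 3 ≤ s) : mLi s j j = 1 := by
  have h1 : (2 * (j : ℚ) - 1) ≠ 0 := rowf_odd_ne _ j (by push_cast; ring)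
  have hsj : (3 * j + 3 : ℚ) ≤ s := by exact_mod_cast hs
  have hm0 : (0 : ℚ) ≤ j := Nat.cast_nonneg j
  have h2 : ((s : ℚ) + j - 2 * j) ≠ 0 := by linarith
  have h3 : ((s : ℚ) - j - 2 * j) ≠ 0 := by linarith
  unfold mLi
  rw [if_pos le_rfl]
  simp only [Ico_self, prod_empty, mul_one]
  rw [div_eq_one_iff_eq (mul_ne_zero (mul_ne_zero h1 h2) h3)]
  ring

lemma rowf_mLi_lt {s j m : ℕ} (hs : 3 * j + 3 ≤ s) (hm : m < j) :
    2 * (2 * (m : ℚ) - 1) * rowfPhi s j m - 4 * ((s : ℚ) - m - 1) * rowfPhi s j (m + 1) =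
      2 * (2 * (j : ℚ) - 1) * mLi s j m := by
  have h1 : (2 * (j : ℚ) - 1) ≠ 0 := rowf_odd_ne _ j (by push_cast; ring)
  have hmj : (m : ℚ) < j := by exact_mod_cast hm
  have hsj : (3 * j + 3 : ℚ) ≤ s := by exact_mod_cast hs
  have hm0 : (0 : ℚ) ≤ m := Nat.cast_nonneg m
  have h2 : ((s : ℚ) + m - 2 * j) ≠ 0 := by linarith
  have h3 : ((s : ℚ) - m - 2 * j) ≠ 0 := by linarith
  have h := rowf_phi_step hs hm
  have e : mLi s j m = ((2 * (m : ℚ) - 1) * (s - m) * (s - 3 * m)) /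
      ((2 * j - 1) * (s + m - 2 * j) * (s - m - 2 * j)) * rowfPhi s j m := by
    unfold mLi rowfPhi
    rw [if_pos hm.le]
  rw [e]
  field_simp
  linear_combination (-4) * h

/-- The row of `L⁻¹ A` in terms of the auxiliary row. -/
lemma rowf_sum {s j i : ℕ} (hj : 1 ≤ j) (hs : 3 * j + 3 ≤ s) (hi : 1 ≤ i) :
    2 * (2 * (j : ℚ) - 1) * ∑ m ∈ Icc 1 j, mLi s j m * matA s m i =
      4 * ((i : ℚ) - 1) * rowfTh s j i - 2 * (2 * (s : ℚ) - 2 * i - 1) * rowfTh s j (i + 1) := by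
  have hsum : ∑ m ∈ Icc 1 j, rowfPhi s j m *
      (2 * (2 * (m : ℚ) - 1) * matA s m i - 4 * ((s : ℚ) - m) * matA s (m - 1) i) =
      4 * ((i : ℚ) - 1) * rowfTh s j i - 2 * (2 * (s : ℚ) - 2 * i - 1) * rowfTh s j (i + 1) := by
    unfold rowfTh
    rw [Finset.mul_sum, Finset.mul_sum, ← Finset.sum_sub_distrib]
    refine Finset.sum_congr rfl fun m hm => ?_
    rw [Finset.mem_Icc] at hm
    rw [commB hm.1 hi (by omega)]
    ring
  let f : ℕ → ℚ := fun m => rowfPhi s j (m + 1) * (4 * ((s : ℚ) - m - 1) * matA s m i)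
  have h0 : f 0 = 0 := by
    simp only [f]
    rw [matA_eq_zero (by omega)]
    simp
  have e1 : ∑ m ∈ Icc 1 j, rowfPhi s j m * (4 * ((s : ℚ) - m) * matA s (m - 1) i) =
      ∑ m ∈ Ico 1 j, f m := by
    rw [← rowf_shift j f h0]
    refine Finset.sum_congr rfl fun m hm => ?_
    rw [Finset.mem_Icc] at hm
    simp only [f]
    rw [Nat.sub_add_cancel hm.1, Nat.cast_sub hm.1]
    push_cast
    ring
  rw [← hsum]
  have e2 : ∑ m ∈ Icc 1 j, rowfPhi s j m *
      (2 * (2 * (m : ℚ) - 1) * matA s m i - 4 * ((s : ℚ) - m) * matA s (m - 1) i) =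
      ∑ m ∈ Icc 1 j, rowfPhi s j m * (2 * (2 * (m : ℚ) - 1) * matA s m i) -
      ∑ m ∈ Icc 1 j, rowfPhi s j m * (4 * ((s : ℚ) - m) * matA s (m - 1) i) := by
    rw [← Finset.sum_sub_distrib]
    refine Finset.sum_congr rfl fun m _ => ?_
    ring
  rw [e2, e1, rowf_split hj, rowf_split hj, rowf_mLi_self hs, rowf_phi_self, mul_add,
    Finset.mul_sum, add_sub_right_comm, ← Finset.sum_sub_distrib]
  congr 1
  · refine Finset.sum_congr rfl fun m hm => ?_
    rw [Finset.mem_Ico] at hm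
    have h := rowf_mLi_lt hs hm.2
    simp only [f]
    linear_combination (-(matA s m i)) * h
  · ring

lemma rowf_th_low {s j : ℕ} (hj : 1 ≤ j) (hs : 3 * j + 3 ≤ s) :
    ∀ i : ℕ, 1 ≤ i → i ≤ j → ((i : ℚ) - 1) * rowfTh s j i = 0 := by
  intro i hi
  induction i, hi using Nat.le_induction with
  | base => intro _; simp
  | succ i hi ih =>
    intro hij
    have h := rowf_rec hj hs hi
    have h0 := ih (by omega)
    have h1 : (2 * (s : ℚ) - 2 * i - 1) ≠ 0 := rowf_odd_ne _ (s - i) (by push_cast; ring)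
    have hmj : (i : ℚ) + 1 ≤ j := by exact_mod_cast hij
    have hsj : (3 * j + 3 : ℚ) ≤ s := by exact_mod_cast hs
    have hm0 : (0 : ℚ) ≤ i := Nat.cast_nonneg i
    have h2 : ((j : ℚ) - i) ≠ 0 := by linarith
    have h3 : ((s : ℚ) - i - j) ≠ 0 := by linarith
    have h4 : 2 * (2 * (s : ℚ) - 2 * i - 1) * ((j : ℚ) - i) * ((s : ℚ) - i - j) *
        rowfTh s j (i + 1) = 0 := by
      rw [h]
      linear_combination (2 * j - i) * (2 * s - 2 * j - i) * h0
    have h5 : rowfTh s j (i + 1) = 0 := by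
      rcases mul_eq_zero.mp h4 with h6 | h6
      · exact absurd h6 (mul_ne_zero (mul_ne_zero (mul_ne_zero two_ne_zero h1) h2) h3)
      · exact h6
    rw [h5, mul_zero]

lemma rowf_th_step {s j i : ℕ} (hj : 1 ≤ j) (hs : 3 * j + 3 ≤ s) (hi : j < i) (hij : i + j < s) :
    rowfTh s j (i + 1) = rowfR s j i * rowfTh s j i := by
  have h := rowf_rec hj hs (i := i) (by omega)
  have h1 : (2 * (s : ℚ) - 2 * i - 1) ≠ 0 := rowf_odd_ne _ (s - i) (by push_cast; ring)
  have hmj : (j : ℚ) < i := by exact_mod_cast hi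
  have hsj : (i + j : ℚ) < s := by exact_mod_cast hij
  have h2 : ((j : ℚ) - i) ≠ 0 := by linarith
  have h3 : ((s : ℚ) - i - j) ≠ 0 := by linarith
  unfold rowfR
  generalize (2 * (s : ℚ) - 2 * i - 1) = u at h h1 ⊢
  field_simp
  linear_combination h

lemma rowf_th_high {s j : ℕ} (hj : 1 ≤ j) (hs : 3 * j + 3 ≤ s) :
    ∀ i : ℕ, j + 1 ≤ i → i + j ≤ s →
      rowfTh s j i = (∏ l ∈ Ioo j i, rowfR s j l) * rowfTh s j (j + 1) := by
  intro i hi
  induction i, hi using Nat.le_induction with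
  | base =>
    intro _
    have : Ioo j (j + 1) = ∅ := by
      ext l
      simp only [mem_Ioo, notMem_empty, iff_false]
      omega
    simp [this]
  | succ i hi ih =>
    intro hij
    have e : Ioo j (i + 1) = insert i (Ioo j i) := by
      ext l
      simp only [mem_Ioo, mem_insert]
      omega
    rw [e, Finset.prod_insert (by simp), rowf_th_step hj hs (by omega) (by omega), ih (by omega),
      mul_assoc]

lemma rowf_main {s j i : ℕ} (hj : 1 ≤ j) (hs : 3 * j + 3 ≤ s) (hi : 1 ≤ i) (hij : i + j < s) :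
    2 * (2 * (j : ℚ) - 1) * ∑ m ∈ Icc 1 j, mLi s j m * matA s m i =
      (-2 * (2 * (s : ℚ) - 2 * j - 1) * rowfTh s j (j + 1)) * mR s j i := by
  rw [rowf_sum hj hs hi]
  unfold mR
  rcases lt_trichotomy i j with h | h | h
  · rw [if_pos h]
    have h1 := rowf_th_low hj hs i hi h.le
    have h2 := rowf_th_low hj hs (i + 1) (by omega) h
    have hi0 : (i : ℚ) ≠ 0 := by exact_mod_cast (by omega : i ≠ 0)
    have h3 : rowfTh s j (i + 1) = 0 := by
      push_cast at h2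
      rcases mul_eq_zero.mp h2 with h4 | h4
      · exact absurd (by linarith) hi0
      · exact h4
    rw [h3]
    linear_combination 4 * h1
  · subst h
    rw [if_neg (lt_irrefl _), if_pos rfl]
    have h1 := rowf_th_low hj hs i hi le_rfl
    linear_combination 4 * h1
  · rw [if_neg (by omega), if_neg (by omega), rowf_th_step hj hs h hij,
      rowf_th_high hj hs i h hij.le]
    have h1 : (2 * (s : ℚ) - 2 * i - 1) ≠ 0 := rowf_odd_ne _ (s - i) (by push_cast; ring)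
    have h1' : (2 * (s : ℚ) - 2 * j - 1) ≠ 0 := rowf_odd_ne _ (s - j) (by push_cast; ring)
    have hmj : (j : ℚ) < i := by exact_mod_cast h
    have hsj : (i + j : ℚ) < s := by exact_mod_cast hij
    have h2 : ((j : ℚ) - i) ≠ 0 := by linarith
    have h3 : ((s : ℚ) - i - j) ≠ 0 := by linarith
    change _ = _ * (_ * ∏ l ∈ Ioo j i, rowfR s j l)
    generalize (∏ l ∈ Ioo j i, rowfR s j l) = P
    generalize rowfTh s j (j + 1) = T
    unfold rowfR
    generalize (2 * (s : ℚ) - 2 * i - 1) = u at h1 ⊢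
    generalize (2 * (s : ℚ) - 2 * j - 1) = v at h1' ⊢
    field_simp
    ring

/-- `L⁻¹ A = D R`. Put `lam = j (s - j)`, let `φ m` be the product over `Ico m j` in the definition
of `mLi` (so `φ j = 1`, and
`2 (2m-1) (m (s-m) - lam) φ m = (s-m-1) (s^2 - m^2 - 4 lam) φ (m+1)` for `1 ≤ m < j`, because
`m (s-m) - lam = -(j-m) (s-j-m)` and `s^2 - m^2 - 4 lam = (s+m-2j) (s-m-2j)`), and let
`η i = ∑ m ∈ Icc 1 j, φ m * matB (s+1) m (i+1)`. Summing `φ m * comm_rel` over `m` the left side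
telescopes to `0` (`matA s 0 i = 0`), so
`2 (2s-2i-1) (j-i) (s-i-j) η i = (i-1) (2j-i) (2s-2j-i) η (i-1)` for `i ≥ 1`. Hence `η i = 0` for
`1 ≤ i < j` and `η i = η j * ∏ l ∈ Ioc j i, ...` for `j ≤ i < s - j`. Summing `φ m * commB` gives
`2 (2j-1) ∑ m, mLi s j m * matA s m i = 4 (i-1) η (i-1) - 2 (2s-2i-1) η i` (use
`2 (2m-1) φ m - 4 (s-m-1) φ (m+1) = 2 (2j-1) mLi s j m` for `m < j`), which is
`γ * mR s j i` with `γ = -2 (2s-2j-1) η j`. The case `i = 2 j` (`matA_eq_zero`, `matA_two_mul`,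
`mLi s j j = 1`) identifies the constant with `piv s j`. -/
theorem row_factor {s j i : ℕ} (hj : 1 ≤ j) (hs : 3 * j + 3 ≤ s) (hi : 1 ≤ i) (hij : i + j < s) :
    ∑ m ∈ Icc 1 j, mLi s j m * matA s m i = piv s j * mR s j i := by
  have h1 : (2 * (j : ℚ) - 1) ≠ 0 := rowf_odd_ne _ j (by push_cast; ring)
  have hA := rowf_main hj hs hi hij
  have hB := rowf_main (i := 2 * j) hj hs (by omega) (by omega)
  have hC : ∑ m ∈ Icc 1 j, mLi s j m * matA s m (2 * j) = 2 := by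
    rw [rowf_split hj, rowf_mLi_self hs, matA_two_mul (by omega), Finset.sum_eq_zero, zero_add,
      one_mul]
    intro m hm
    rw [Finset.mem_Ico] at hm
    rw [matA_eq_zero (by omega), mul_zero]
  rw [hC] at hB
  generalize (-2 * (2 * (s : ℚ) - 2 * j - 1) * rowfTh s j (j + 1)) = G at hA hB
  have hR : mR s j (2 * j) ≠ 0 := by
    intro h0
    rw [h0, mul_zero] at hB
    exact (mul_ne_zero (mul_ne_zero two_ne_zero h1) two_ne_zero) hB
  have hG : G = 2 * (2 * (j : ℚ) - 1) * piv s j := by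
    unfold piv
    field_simp
    linear_combination -hB
  rw [hG, mul_assoc (2 * (2 * (j : ℚ) - 1))] at hA
  exact mul_left_cancel₀ (mul_ne_zero two_ne_zero h1) hA

end Pool.Agent.Lib.MP_88d29b_nt
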