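import Pool.Agent.Lib.MP_88d29b_nt.Ident2

set_option autoImplicit false

noncomputable section

namespace Pool.Agent.Lib.MP_88d29b_nt

open Finset UpperHalfPlane ModularGroup Filter Topology
open scoped MatrixGroups ModularForm Manifold


/-- The cusp forms of weight `4 s + 2 e`, given the statement in lower weights. -/
theorem span_step {e s : ℕ} (he : e ≤ 1)
    (ih : ∀ t, t < s → ∀ k : ℤ, k = 4 * t + 2 * e → ∀ f : ModularForm 𝒮ℒ k,
      ∃ P : Polynomial ℂ, P.natDegree ≤ t ∧
        ∀ z : ℍ, f z = ee z ^ e * ww z ^ t * P.eval (uu z / ww z))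
    (k : ℤ) (hk : k = 4 * s + 2 * e) (f : CuspForm 𝒮ℒ k) :
    ∃ Q : Polynomial ℂ, (Q.natDegree < s ∨ Q = 0) ∧ Q.coeff 0 = 0 ∧
      ∀ z : ℍ, f z = ee z ^ e * ww z ^ s * Q.eval (uu z / ww z) := by
  rcases lt_or_ge s 3 with hs | hs
  · refine ⟨0, Or.inr rfl, rfl, fun z => ?_⟩
    have h0 := ModularFormClass.levelOne_neg_weight_eq_zero (k := k - 12) (by omega)
      (CuspForm.discriminantEquiv f)
    rw [← ModularForm.discriminant_mul_discriminantEquiv_apply f z, h0]
    simp
  · obtain ⟨t, rfl⟩ := Nat.exists_eq_add_of_le' hs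
    obtain ⟨P, hP, hf⟩ := ih t (by omega) (k - 12) (by rw [hk]; push_cast; ring)
      (CuspForm.discriminantEquiv f)
    obtain ⟨c, -, hc⟩ := delta_eq
    refine ⟨Polynomial.X * (Polynomial.C c * P), Or.inl ?_, by simp, fun z => ?_⟩
    · have h1 : (Polynomial.X * (Polynomial.C c * P)).natDegree ≤ 1 + t :=
        Polynomial.natDegree_mul_le.trans (add_le_add Polynomial.natDegree_X_le
          ((Polynomial.natDegree_C_mul_le c P).trans hP))
      omega
    · have hw := ww_ne z
      rw [← ModularForm.discriminant_mul_discriminantEquiv_apply f z, hf, hc]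
      simp only [Polynomial.eval_mul, Polynomial.eval_X, Polynomial.eval_C]
      field_simp
      ring

/-- The product `e6 ^ e * e4 ^ t`. -/
def spanEis (e t : ℕ) (z : ℍ) : ℂ := e6 z ^ e * e4 z ^ t

theorem span_eis_inv (e t : ℕ) : WInv (4 * ((t + e : ℕ) : ℤ) + 2 * e) (spanEis e t) := by
  constructor
  · intro z
    have h : (4 * ((t + e : ℕ) : ℤ) + 2 * e) = ((6 * e + 4 * t : ℕ) : ℤ) := by
      push_cast
      ring
    have h4 : (z : ℂ) ^ (4 : ℤ) = (z : ℂ) ^ 4 := zpow_ofNat _ 4
    have h6 : (z : ℂ) ^ (6 : ℤ) = (z : ℂ) ^ 6 := zpow_ofNat _ 6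
    rw [h, zpow_natCast, spanEis, spanEis, inv_e4.hS, inv_e6.hS, h4, h6]
    ring
  · intro z
    rw [spanEis, spanEis, inv_e4.hT, inv_e6.hT]

theorem span_eis_mdiff (e t : ℕ) : MDifferentiable 𝓘(ℂ) 𝓘(ℂ) (spanEis e t) :=
  (mdiff_e6.pow e).mul (mdiff_e4.pow t)

theorem span_eis_tendsto (e t : ℕ) : Tendsto (spanEis e t) atImInfty (𝓝 1) := by
  have h := (tendsto_e6.pow e).mul (tendsto_e4.pow t)
  rw [one_pow, one_pow, one_mul] at h
  exact h

theorem span_eis_rep (e t : ℕ) : ∃ P : Polynomial ℂ, P.natDegree ≤ t + e ∧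
    ∀ z : ℍ, spanEis e t z = ee z ^ e * ww z ^ (t + e) * P.eval (uu z / ww z) := by
  refine ⟨(Polynomial.C 256 * Polynomial.X + Polynomial.C 1) ^ t *
    (Polynomial.C (-512) * Polynomial.X + Polynomial.C 1) ^ e, ?_, fun z => ?_⟩
  · refine Polynomial.natDegree_mul_le.trans (add_le_add ?_ ?_)
    · exact (Polynomial.natDegree_pow_le_of_le t Polynomial.natDegree_linear_le).trans (by omega)
    · exact (Polynomial.natDegree_pow_le_of_le e Polynomial.natDegree_linear_le).trans (by omega)
  · have hw := ww_ne z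
    have h1 : e4 z = ww z * (256 * (uu z / ww z) + 1) := by
      rw [e4_eq]
      field_simp
      ring
    have h2 : e6 z = ee z * (ww z * (-512 * (uu z / ww z) + 1)) := by
      rw [e6_eq]
      field_simp
      ring
    simp only [Polynomial.eval_mul, Polynomial.eval_pow, Polynomial.eval_add, Polynomial.eval_X,
      Polynomial.eval_C]
    rw [spanEis, h1, h2, mul_pow, mul_pow, mul_pow, pow_add]
    ring

theorem span_pow {s i : ℕ} (hi : i ≤ s) (z : ℍ) :
    ww z ^ s * (uu z / ww z) ^ i = uu z ^ i * ww z ^ (s - i) := by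
  obtain ⟨t, rfl⟩ := Nat.exists_eq_add_of_le hi
  have hw := ww_ne z
  rw [Nat.add_sub_cancel_left, div_pow, pow_add]
  field_simp

/-- Strong induction on `s`. Let `c` be the limit of `f` at infinity (`tendsto_form`). Subtract
`c e4 ^ s` (for `e = 0`) or `c e6 e4 ^ (s - 1)` (for `e = 1`, `s ≥ 1`; for `e = 1`, `s = 0` the form
is zero), both of the required shape by `e4_eq`, `e6_eq`. The difference is a cusp form (`mkCusp`),
equal to `Δ` times a modular form of weight `4 (s - 3) + 2 e` (`CuspForm.discriminantEquiv`; zero if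
the weight is negative); use `delta_eq`. -/
theorem span_form {e : ℕ} (he : e ≤ 1) (s : ℕ) (k : ℤ) (hk : k = 4 * s + 2 * e)
    (f : ModularForm 𝒮ℒ k) : ∃ P : Polynomial ℂ, P.natDegree ≤ s ∧
      ∀ z : ℍ, f z = ee z ^ e * ww z ^ s * P.eval (uu z / ww z) := by
  induction s using Nat.strong_induction_on generalizing k with
  | _ s ih =>
    rcases lt_or_ge s e with hs | hs
    · obtain rfl : e = 1 := by omega
      obtain rfl : s = 0 := by omega
      obtain rfl : k = 2 := by omega
      have h0 : f = 0 := rank_zero_iff_forall_zero.mp ModularForm.levelOne_weight_two_rank_zero f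
      exact ⟨0, by simp, fun z => by simp [h0]⟩
    · obtain ⟨t, rfl⟩ := Nat.exists_eq_add_of_le' hs
      set c := (qExpansion 1 f).coeff 0
      have hi := span_eis_inv e t
      rw [← hk] at hi
      have hf := inv_of_form f
      have h1 : WInv k fun z => f z - c * spanEis e t z := by
        constructor
        · intro z
          rw [hf.hS, hi.hS]
          ring
        · intro z
          rw [hf.hT, hi.hT]
      have h2 : MDifferentiable 𝓘(ℂ) 𝓘(ℂ) fun z => f z - c * spanEis e t z :=
        f.holo'.sub ((span_eis_mdiff e t).const_smul c)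
      have h3 : Tendsto (fun z => f z - c * spanEis e t z) atImInfty (𝓝 0) := by
        have h := (tendsto_form f).sub ((span_eis_tendsto e t).const_mul c)
        rwa [mul_one, sub_self] at h
      obtain ⟨Q, hQ, -, hQf⟩ := span_step he ih k hk (mkCusp k _ h1 h2 h3)
      obtain ⟨P, hP, hPf⟩ := span_eis_rep e t
      refine ⟨Q + Polynomial.C c * P, ?_, fun z => ?_⟩
      · refine Polynomial.natDegree_add_le_of_degree_le ?_
          ((Polynomial.natDegree_C_mul_le c P).trans hP)
        rcases hQ with hQ | rfl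
        · exact hQ.le
        · simp
      · have h4 : f z - c * spanEis e t z = _ := hQf z
        rw [hPf] at h4
        simp only [Polynomial.eval_mul, Polynomial.eval_add, Polynomial.eval_C]
        linear_combination h4

/-- A cusp form is `Δ` times a modular form of weight `k - 12`; apply `span_form` to the latter. -/
theorem span_cusp {e : ℕ} (he : e ≤ 1) (s : ℕ) (k : ℤ) (hk : k = 4 * s + 2 * e)
    (f : CuspForm 𝒮ℒ k) : ∃ x : ℕ → ℂ, ∀ z : ℍ, f z = ∑ i ∈ Ico 1 s, x i * bas e s i z := by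
  obtain ⟨Q, hQ, hQ0, hf⟩ := span_step he (fun t _ k hk f => span_form he t k hk f) k hk f
  refine ⟨fun i => Q.coeff i / 64 ^ i, fun z => ?_⟩
  rcases hQ with hQ | rfl
  · rw [hf, Polynomial.eval_eq_sum_range' hQ, range_eq_Ico,
      sum_eq_sum_Ico_succ_bot (by omega : 0 < s), hQ0, zero_mul, zero_add, mul_sum]
    refine sum_congr rfl fun i hi => ?_
    have h := span_pow (mem_Ico.mp hi).2.le z
    have h64 : (64 : ℂ) ^ i ≠ 0 := pow_ne_zero _ (by norm_num)
    rw [bas]
    field_simp
    linear_combination ee z ^ e * Q.coeff i * h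
  · simp [hf]

/-- The polynomial `∑ x i 64 ^ i X ^ i` vanishes at `uu z / ww z` whenever `ee z ≠ 0`. These values
are nonzero and tend to `0` at infinity, so there are infinitely many of them. -/
theorem bas_indep (e s : ℕ) (x : ℕ → ℂ) (h : ∀ z : ℍ, ∑ i ∈ Ico 1 s, x i * bas e s i z = 0) :
    ∀ i ∈ Ico 1 s, x i = 0 := by
  set Q : Polynomial ℂ := ∑ i ∈ Ico 1 s, Polynomial.monomial i (x i * 64 ^ i) with hQ
  have h1 : ∀ z : ℍ, ee z ≠ 0 → Q.IsRoot (uu z / ww z) := by
    intro z hz
    have h2 : ee z ^ e * ww z ^ s * Q.eval (uu z / ww z) = 0 := by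
      rw [← h z, hQ, Polynomial.eval_finsetSum, mul_sum]
      refine sum_congr rfl fun i hi => ?_
      have h := span_pow (mem_Ico.mp hi).2.le z
      rw [Polynomial.eval_monomial, bas]
      linear_combination ee z ^ e * x i * 64 ^ i * h
    exact (mul_eq_zero.mp h2).resolve_left
      (mul_ne_zero (pow_ne_zero _ hz) (pow_ne_zero _ (ww_ne z)))
  have h3 : Tendsto (fun z => uu z / ww z) atImInfty (𝓝[≠] 0) := by
    refine tendsto_nhdsWithin_iff.mpr ⟨?_, Eventually.of_forall fun z => ?_⟩
    · have h := tendsto_uu.div tendsto_ww one_ne_zero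
      rwa [zero_div] at h
    · exact div_ne_zero (uu_ne z) (ww_ne z)
  have h4 : ∃ᶠ y in 𝓝[≠] (0 : ℂ), y ∈ {y | Q.IsRoot y} :=
    h3.frequently ((tendsto_ee.eventually_ne one_ne_zero).mono h1).frequently
  have h5 : Q = 0 := Polynomial.eq_zero_of_infinite_isRoot Q
    (Set.Infinite.of_accPt (accPt_iff_frequently_nhdsNE.mpr h4))
  intro i hi
  have h6 := congrArg (fun p : Polynomial ℂ => p.coeff i) (hQ.symm.trans h5)
  simp only [Polynomial.finsetSum_coeff, Polynomial.coeff_monomial, sum_ite_eq', if_pos hi,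
    Polynomial.coeff_zero] at h6
  exact (mul_eq_zero.mp h6).resolve_right (pow_ne_zero _ (by norm_num))

end Pool.Agent.Lib.MP_88d29b_nt
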