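import Pool.Agent.Lib.MP_88d29b_nt.NonArch

set_option autoImplicit false

noncomputable section

namespace Pool.Agent.Lib.MP_88d29b_nt

open Finset

section aux

open Polynomial

/-- `det (1 - X U)` -/
def transferP {κ : Type} [Fintype κ] [DecidableEq κ] (U : Matrix κ κ ℚ) : ℚ[X] :=
  (1 - (X : ℚ[X]) • U.map C).det

lemma transfer_aeval {κ F : Type} [Fintype κ] [DecidableEq κ] [Field F] [CharZero F]
    (U : Matrix κ κ ℚ) (x : F) :
    aeval x (transferP U) = (1 - x • U.map (fun q : ℚ => (q : F))).det := by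
  rw [transferP, AlgHom.map_det]
  congr 1
  ext a b
  by_cases h : a = b
  · subst h
    simp [mul_comm x]
  · simp [Matrix.one_apply_ne h, mul_comm x]

lemma transfer_neg {κ F : Type} [Fintype κ] [DecidableEq κ] [Field F] [CharZero F]
    (W : Matrix κ κ ℚ) (x : F) :
    aeval x (transferP (-(1 / 2 : ℚ) • W)) = (1 + (x / 2) • W.map (fun q : ℚ => (q : F))).det := by
  rw [transfer_aeval]
  congr 1
  ext a b
  simp only [Matrix.sub_apply, Matrix.add_apply, Matrix.smul_apply, Matrix.map_apply, smul_eq_mul]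
  push_cast
  ring

/-- the quadratic factor -/
def transferQ {F : Type} [Field F] (k : ℕ) (l : F) : F[X] := 1 - C l * X + C (2 ^ k / 2) * X ^ 2

lemma transferQ_eval {F : Type} [Field F] (k : ℕ) (l x : F) :
    (transferQ k l).eval x = 1 - l * x + 2 ^ k * x ^ 2 / 2 := by
  simp only [transferQ, eval_add, eval_sub, eval_one, eval_mul, eval_C, eval_X, eval_pow]
  ring

lemma transferQ_map {F G : Type} [Field F] [Field G] (f : F →+* G) (k : ℕ) (l : F) :
    (transferQ k l).map f = transferQ k (f l) := by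
  simp only [transferQ, Polynomial.map_add, Polynomial.map_sub, Polynomial.map_one,
    Polynomial.map_mul, Polynomial.map_pow, map_C, map_X, map_div₀, map_pow, map_ofNat]

/-- the left hand side -/
def transferA {κ : Type} [Fintype κ] [DecidableEq κ] (U : Matrix κ κ ℚ) (k n : ℕ) : ℚ[X] :=
  transferP U * (1 - C (2 ^ k / 4) * X ^ 2) ^ n

lemma transferA_aeval {κ F : Type} [Fintype κ] [DecidableEq κ] [Field F] [CharZero F]
    (U : Matrix κ κ ℚ) (k n : ℕ) (x : F) :
    aeval x (transferA U k n) =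
      (1 - x • U.map (fun q : ℚ => (q : F))).det * (1 - 2 ^ k * x ^ 2 / 4) ^ n := by
  rw [transferA, map_mul, transfer_aeval, map_pow, map_sub, map_one, map_mul, aeval_C, map_pow,
    aeval_X, eq_ratCast]
  push_cast
  congr 3
  ring

lemma transfer_eval_prod {F : Type} [Field F] (k : ℕ) (L : Multiset F) (x : F) :
    ((L.map (transferQ k)).prod).eval x =
      (L.map (fun l => 1 - l * x + 2 ^ k * x ^ 2 / 2)).prod := by
  rw [eval_multiset_prod, Multiset.map_map]
  exact congrArg _ (Multiset.map_congr rfl fun l _ => transferQ_eval k l x)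

lemma transfer_map_id {F G : Type} [Field F] [Field G] [CharZero F] [CharZero G] (f : F →+* G)
    (k : ℕ) (B : ℚ[X]) (L : Multiset F) :
    (B.map (algebraMap ℚ F) * (L.map (transferQ k)).prod).map f =
      B.map (algebraMap ℚ G) * ((L.map f).map (transferQ k)).prod := by
  rw [Polynomial.map_mul, Polynomial.map_map, Polynomial.map_multiset_prod, Multiset.map_map,
    Multiset.map_map, Subsingleton.elim (f.comp (algebraMap ℚ F)) (algebraMap ℚ G)]
  exact congrArg _ (congrArg _ (Multiset.map_congr rfl fun l _ => transferQ_map f k l))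

lemma transfer_alg {A : ℚ[X]} (hA : A ≠ 0) {k : ℕ} {l : ℂ}
    (h : transferQ k l ∣ A.map (algebraMap ℚ ℂ)) : IsAlgebraic ℚ l := by
  have hdeg : (transferQ k l).degree ≠ 0 := by
    have h2 : (transferQ k l).coeff 2 ≠ 0 := by
      simp [transferQ, coeff_one]
    intro h0
    exact h2 (coeff_eq_zero_of_degree_lt (by rw [h0]; norm_num))
  obtain ⟨x, hx⟩ := IsAlgClosed.exists_root _ hdeg
  have hxa : IsAlgebraic ℚ x := ⟨A, hA, by
    rw [aeval_def, ← eval_map]
    exact hx.dvd h⟩
  rw [IsRoot.def, transferQ_eval] at hx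
  have hx0 : x ≠ 0 := by
    rintro rfl
    simp at hx
  have hl : l = x⁻¹ + algebraMap ℚ ℂ (2 ^ k / 2) * x := by
    rw [eq_ratCast]
    push_cast
    field_simp
    linear_combination (-2) * hx
  rw [hl]
  exact hxa.inv.add ((isAlgebraic_algebraMap _).mul hxa)

end aux

/-- Let `P = U.charpolyRev`, `Q = (-(1/2) • W).charpolyRev` in `ℚ[X]`; evaluating their images over a
field of characteristic zero at `x` gives `det (1 - x U)` and `det (1 + (x / 2) W)`. The hypothesis
holds for infinitely many `x`, so it is an identity in `ℂ[X]`. For `l ∈ L` the quadratic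
`1 - l X + 2 ^ k X ^ 2 / 2` has a root `x0 ≠ 0`, which is a root of the nonzero rational polynomial
`P * (1 - 2 ^ k X ^ 2 / 4) ^ card L` (value `1` at `0`); so `x0` and then `l` are algebraic. Lift `L`
to the algebraic numbers (`Multiset.canLift` / `pmap`), pull the identity back along the injective
map to `ℂ[X]`, push it forward along `ι` and evaluate at `x`. For `‖x‖ < 2 ^ (k / 2 - 1)` the
element `1 - 2 ^ k x ^ 2 / 4` has norm one, and so has `det (1 + (x / 2) W)` by
`norm_det_one_add`. -/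
theorem transfer {κ : Type} [Fintype κ] [DecidableEq κ] (U W : Matrix κ κ ℚ) (k : ℕ)
    (L : Multiset ℂ) (hW : ∀ a b, Bd (W a b) (-((k : ℝ) / 2)))
    (h : ∀ x : ℂ, 1 - 2 ^ k * x ^ 2 / 4 ≠ 0 →
      (1 - x • U.map (fun q : ℚ => (q : ℂ))).det * (1 - 2 ^ k * x ^ 2 / 4) ^ L.card =
        (1 + (x / 2) • W.map (fun q : ℚ => (q : ℂ))).det *
          (L.map (fun l => 1 - l * x + 2 ^ k * x ^ 2 / 2)).prod) :
    ∃ L' : Multiset (algebraicClosure ℚ ℂ), L'.map (fun l => (l : ℂ)) = L ∧
      ∀ (ι : algebraicClosure ℚ ℂ →+* KK) (x : KK), ‖x‖ < (2 : ℝ) ^ ((k : ℝ) / 2 - 1) →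
        ‖detK U x‖ = ((L'.map ι).map (fun a => ‖1 - a * x + 2 ^ k * x ^ 2 / 2‖)).prod := by
  have hid : (transferA U k L.card).map (algebraMap ℚ ℂ) =
      (transferP (-(1 / 2 : ℚ) • W)).map (algebraMap ℚ ℂ) * (L.map (transferQ k)).prod := by
    have hfin : {x : ℂ | 1 - 2 ^ k * x ^ 2 / 4 = 0}.Finite := by
      have hne : (1 - Polynomial.C (2 ^ k / 4 : ℂ) * Polynomial.X ^ 2 : Polynomial ℂ) ≠ 0 := by
        intro h0
        have := congrArg (Polynomial.eval 0) h0
        simp at this
      refine (Polynomial.finite_setOfPred_isRoot hne).subset fun x hx => ?_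
      have hx' : 1 - 2 ^ k * x ^ 2 / 4 = 0 := hx
      simp only [Set.mem_ofPred_eq, Polynomial.IsRoot.def, Polynomial.eval_sub, Polynomial.eval_one,
        Polynomial.eval_mul, Polynomial.eval_C, Polynomial.eval_pow, Polynomial.eval_X]
      linear_combination hx'
    refine Polynomial.eq_of_infinite_eval_eq _ _ (hfin.infinite_compl.mono fun x hx => ?_)
    change Polynomial.eval x _ = Polynomial.eval x _
    rw [Polynomial.eval_mul, Polynomial.eval_map_algebraMap, Polynomial.eval_map_algebraMap,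
      transferA_aeval, transfer_neg, transfer_eval_prod]
    exact h x hx
  have hA : transferA U k L.card ≠ 0 := by
    intro h0
    have := transferA_aeval U k L.card (0 : ℚ)
    rw [h0] at this
    simp at this
  have halg : ∀ l ∈ L, l ∈ algebraicClosure ℚ ℂ := by
    intro l hl
    rw [mem_algebraicClosure_iff]
    refine transfer_alg hA (k := k) ?_
    rw [hid]
    exact Dvd.dvd.mul_left (Multiset.dvd_prod (Multiset.mem_map_of_mem _ hl)) _
  lift L to Multiset (algebraicClosure ℚ ℂ) using halg with L' hL'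
  refine ⟨L', by simp [Multiset.bind_singleton], fun ι x hx => ?_⟩
  have hid1 : (transferA U k L'.card).map (algebraMap ℚ (algebraicClosure ℚ ℂ)) =
      (transferP (-(1 / 2 : ℚ) • W)).map (algebraMap ℚ (algebraicClosure ℚ ℂ)) *
        (L'.map (transferQ k)).prod := by
    apply Polynomial.map_injective (algebraMap (algebraicClosure ℚ ℂ) ℂ)
      (algebraMap (algebraicClosure ℚ ℂ) ℂ).injective
    rw [transfer_map_id, Polynomial.map_map, ← IsScalarTower.algebraMap_eq]
    rw [Multiset.card_map] at hid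
    exact hid
  have hid2 := congrArg (fun p => Polynomial.eval x (Polynomial.map ι p)) hid1
  simp only [transfer_map_id] at hid2
  rw [Polynomial.map_map, Subsingleton.elim (ι.comp (algebraMap ℚ _)) (algebraMap ℚ KK),
    Polynomial.eval_mul, Polynomial.eval_map_algebraMap, Polynomial.eval_map_algebraMap,
    transferA_aeval, transfer_neg, transfer_eval_prod] at hid2
  have hx2 : ‖x / 2‖ < (2 : ℝ) ^ ((k : ℝ) / 2) := by
    rw [norm_div, norm_two]
    rw [Real.rpow_sub_one (by norm_num)] at hx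
    linarith
  have n1 : ‖(1 - 2 ^ k * x ^ 2 / 4 : KK)‖ = 1 := by
    have e : (1 - 2 ^ k * x ^ 2 / 4 : KK) = 1 + -(2 ^ k * (x / 2) ^ 2) := by ring
    have hlt : ‖(-(2 ^ k * (x / 2) ^ 2) : KK)‖ < 1 := by
      rw [norm_neg, norm_mul, norm_pow, norm_pow, norm_two]
      have h1 : ‖x / 2‖ ^ 2 < ((2 : ℝ) ^ ((k : ℝ) / 2)) ^ 2 :=
        pow_lt_pow_left₀ hx2 (norm_nonneg _) two_ne_zero
      have h2 : ((2 : ℝ) ^ ((k : ℝ) / 2)) ^ 2 = 2 ^ k := by
        rw [← Real.rpow_natCast, ← Real.rpow_mul (by norm_num), ← Real.rpow_natCast]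
        congr 1
        push_cast
        ring
      rw [h2] at h1
      rw [one_div, inv_pow, inv_mul_lt_iff₀ (by positivity), mul_one]
      exact h1
    rw [e, IsUltrametricDist.norm_add_eq_max_of_norm_ne_norm (by rw [norm_one]; exact hlt.ne'),
      norm_one, max_eq_left hlt.le]
  have n2 : ‖(1 + (x / 2) • W.map (fun q : ℚ => (q : KK))).det‖ = 1 := by
    refine norm_det_one_add _ fun a b => ?_
    rw [Matrix.smul_apply, Matrix.map_apply, smul_eq_mul, norm_mul]
    have h1 : ‖(W a b : KK)‖ ≤ ((2 : ℝ) ^ ((k : ℝ) / 2))⁻¹ := by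
      rw [← Real.rpow_neg (by norm_num)]
      exact hW a b
    have h2 : (0 : ℝ) < (2 : ℝ) ^ ((k : ℝ) / 2) := by positivity
    calc ‖x / 2‖ * ‖(W a b : KK)‖ ≤ ‖x / 2‖ * ((2 : ℝ) ^ ((k : ℝ) / 2))⁻¹ :=
          mul_le_mul_of_nonneg_left h1 (norm_nonneg _)
      _ < 1 := by rw [← div_eq_mul_inv, div_lt_one h2]; exact hx2
  have h3 := congrArg norm hid2
  rw [norm_mul, norm_mul, norm_pow, n1, n2, one_pow, mul_one, one_mul] at h3
  rw [detK, h3]
  have h4 := map_multiset_prod (normHom : KK →*₀ ℝ)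
    ((L'.map ι).map (fun l => 1 - l * x + 2 ^ k * x ^ 2 / 2))
  rw [Multiset.map_map normHom] at h4
  exact h4

end Pool.Agent.Lib.MP_88d29b_nt
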