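import Pool.Agent.Lib.MP_88d29b_nt.Modu
import Pool.Agent.Lib.MP_88d29b_nt.Transfer
import Pool.Agent.Lib.MP_88d29b_nt.PhiB
import Pool.Agent.Lib.MP_88d29b_nt.Count
import Pool.Agent.Lib.MP_88d29b_nt.Lower

set_option autoImplicit false

noncomputable section

namespace Pool.Agent.Lib.MP_88d29b_nt

open Finset UpperHalfPlane ModularGroup Filter Topology
open scoped MatrixGroups ModularForm Manifold


lemma weight_card (k : ℕ) :
    (eigenvalues k).card = Module.finrank ℂ (ModularForm 𝒮ℒ ((k : ℤ) - 12)) := by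
  haveI := finite_cusp k
  rw [eigenvalues, IsAlgClosed.card_roots_eq_natDegree, LinearMap.charpoly_natDegree,
    CuspForm.discriminantEquiv.finrank_eq]

/-- The number of roots of the characteristic polynomial is the dimension, and there are no nonzero
forms of odd weight. -/
theorem card_odd {k : ℕ} (hk : Odd k) : (eigenvalues k).card = 0 := by
  rw [weight_card]
  have h : Odd ((k : ℤ) - 12) := (Int.odd_coe_nat k).2 hk |>.sub_even (by decide)
  exact Module.finrank_eq_of_rank_eq (by simpa using ModularForm.levelOne_odd_weight_rank_zero h)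

/-- `ModularForm.dimension_level_one` in weight `k - 12` and `CuspForm.discriminantEquiv`
(`CuspForm.rank_eq_zero_of_weight_lt_twelve` for `k < 12`). -/
theorem card_even {k : ℕ} (hk : Even k) : |((eigenvalues k).card : ℝ) - (k : ℝ) / 12| ≤ 2 := by
  rw [weight_card]
  have key : ∀ n : ℕ, 12 * n ≤ k → k < 12 * n + 24 → |(n : ℝ) - (k : ℝ) / 12| ≤ 2 := by
    intro n h1 h2
    have h3 : (12 * n : ℝ) ≤ k := by exact_mod_cast h1
    have h4 : (k : ℝ) < 12 * n + 24 := by exact_mod_cast h2
    rw [abs_le]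
    constructor <;> linarith
  rcases lt_or_ge k 12 with h | h
  · have h1 : Module.finrank ℂ (ModularForm 𝒮ℒ ((k : ℤ) - 12)) = 0 :=
      Module.finrank_eq_of_rank_eq (by
        simpa using ModularForm.levelOne_neg_weight_rank_zero (k := (k : ℤ) - 12) (by omega))
    rw [h1]
    exact key 0 (by omega) (by omega)
  · obtain ⟨j, rfl⟩ := Nat.exists_eq_add_of_le h
    have hj : Even j := (Nat.even_add.1 hk).1 (by decide)
    rw [show (((12 + j : ℕ) : ℤ) - 12) = (j : ℤ) by omega]
    have h1 := ModularForm.dimension_level_one j hj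
    split_ifs at h1
    · have h2 : Module.finrank ℂ (ModularForm 𝒮ℒ (j : ℤ)) = j / 12 :=
        Module.finrank_eq_of_rank_eq h1
      rw [h2]
      exact key _ (by omega) (by omega)
    · have h2 : Module.finrank ℂ (ModularForm 𝒮ℒ (j : ℤ)) = j / 12 + 1 :=
        Module.finrank_eq_of_rank_eq (by rw [h1, Nat.cast_add, Nat.cast_one])
      rw [h2]
      exact key _ (by omega) (by omega)

open Classical in
/-- We may assume `ε ≤ 1 / 2`; put `ε' = ε / 5`. Write `k = 4 s + 2 e`, `s = k / 4`. Take `M` from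
`modular`, `L'` from `transfer` (`bd_matW`), `A = L'.map ι`. The count equals `cnt A k a b`
(`ι` and the inclusion into `ℂ` are injective). Apply `count_est` with `ε'`: the upper bound is
`phi_upper` (`(t + 2) ^ 2 / 8 ≤ t ^ 2 / 8 + ε' ^ 2 k ^ 2` and `t + 1 < k / 2 - 1` for large `k`), the
lower bound is `lower_bound` and `phi_lower`. -/
theorem weight_est (ι : algebraicClosure ℚ ℂ →+* KK) {a b : ℝ} (ha : 0 ≤ a) (hab : a ≤ b)
    (hb : b ≤ 1) (g : ℕ) {ε : ℝ} (hε : 0 < ε) :
    ∃ k0 : ℕ, ∀ k : ℕ, k0 ≤ k → Even k → Good g (k / 4) →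
      |(((eigenvalues k).filter (SlopeIn ι k a b)).card : ℝ) - (b - a) * k / 12| ≤ ε * k := by
  set δ : ℝ := min ε (1 / 2) / 5 with hd
  have hd0 : 0 < δ := by positivity
  have hd1 : δ ≤ 1 / 10 := by
    have := min_le_right ε (1 / 2)
    linarith
  have hd2 : 5 * δ ≤ ε := by
    have := min_le_left ε (1 / 2)
    linarith
  obtain ⟨s0, hs0⟩ := lower_bound g hd0
  obtain ⟨k1, hk1⟩ := exists_nat_ge (1 / δ ^ 2)
  refine ⟨max (4 * s0) (max k1 40), fun k hk hev hgood => ?_⟩
  have hk40 : (40 : ℝ) ≤ k := by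
    exact_mod_cast le_of_max_le_right (le_of_max_le_right hk)
  have hkd : 1 ≤ δ ^ 2 * k := by
    have h1 : (k1 : ℝ) ≤ k := by exact_mod_cast le_of_max_le_left (le_of_max_le_right hk)
    have h2 := hk1.trans h1
    rwa [div_le_iff₀ (by positivity), mul_comm] at h2
  obtain ⟨s, e, he, rfl⟩ : ∃ s e : ℕ, e ≤ 1 ∧ k = 4 * s + 2 * e := by
    obtain ⟨j, rfl⟩ := hev
    exact ⟨j / 2, j % 2, by omega, by omega⟩
  have hs : (4 * s + 2 * e) / 4 = s := by omega
  rw [hs] at hgood
  have hss : s0 ≤ s := by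
    have := le_of_max_le_left hk
    omega
  obtain ⟨M, hM, hmod⟩ := modular he s
  obtain ⟨L, hL, htr⟩ := transfer (matU e s M) (matW e s) (4 * s + 2 * e) _ (bd_matW e s) hmod
  have hcount : ((eigenvalues (4 * s + 2 * e)).filter (SlopeIn ι (4 * s + 2 * e) a b)).card =
      cnt (L.map ι) ((4 * s + 2 * e : ℕ) : ℝ) a b := by
    have hL' : L.map (fun l : algebraicClosure ℚ ℂ => (l : ℂ)) = eigenvalues (4 * s + 2 * e) := by
      simpa using hL
    rw [← hL', cnt, Multiset.filter_map, Multiset.filter_map, Multiset.card_map, Multiset.card_map]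
    congr 1
    apply Multiset.filter_congr
    intro x _
    simp only [Function.comp_apply, SlopeIn]
    constructor
    · rintro ⟨y, hy, hy0, hy1⟩
      have : y = x := Subtype.ext hy
      subst this
      exact ⟨(map_ne_zero ι).2 hy0, hy1⟩
    · rintro ⟨h0, h1⟩
      exact ⟨x, rfl, (map_ne_zero ι).1 h0, h1⟩
  rw [hcount]
  set k : ℕ := 4 * s + 2 * e with hkdef
  have hk0 : (0 : ℝ) < k := by linarith
  refine (count_est (L.map ι) hk0 hd0 ha hab hb (fun t ht0 ht => ?_) (fun t ht0 ht => ?_)).trans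
    (mul_le_mul_of_nonneg_right hd2 hk0.le)
  · have h1 : δ * k ≤ k / 10 := by nlinarith
    refine (phi_upper (htr ι) ht0 (by linarith)).trans ?_
    have h2 := mul_le_mul_of_nonneg_right hkd hk0.le
    nlinarith
  · have he' : (e : ℝ) ≤ 1 := by exact_mod_cast he
    have hkR : (k : ℝ) = 4 * s + 2 * e := by rw [hkdef]; push_cast; ring
    obtain ⟨x, hx1, hx2⟩ := hs0 s hss hgood e he M hM t ht0 (by linarith)
    have h1 : t < (k : ℝ) / 2 - 1 := by linarith
    rw [htr ι x (hx1.trans_lt (Real.rpow_lt_rpow_of_exponent_lt (by norm_num) h1))] at hx2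
    refine le_trans ?_ (phi_lower hx1 h1 hx2)
    have h2 : (s : ℝ) ≤ k := by
      have : (0 : ℝ) ≤ e := Nat.cast_nonneg _
      have : (0 : ℝ) ≤ s := Nat.cast_nonneg _
      linarith
    have h3 := mul_le_mul_of_nonneg_left (pow_le_pow_left₀ (Nat.cast_nonneg _) h2 2) (sq_nonneg δ)
    linarith

end Pool.Agent.Lib.MP_88d29b_nt
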